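import Pool.Agent.MTG.B1e

/-! # MTG-Y1 : points of an affine algebraic group with values in a `ℂ`-algebra

`G.Pt R = (G.O →ₐ[ℂ] R)`, a group; `E.pt φ` the matrix of the point `φ` in the representation `E`;
`Pt.map`, `Pt.const`. -/

namespace Pool.Agent.MTF

open Matrix

/-- The group of `R`-points. -/
def AffGrp.Pt (G : AffGrp) (R : Type) [CommRing R] [Algebra ℂ R] : Type := G.O →ₐ[ℂ] R

instance (G : AffGrp) (R : Type) [CommRing R] [Algebra ℂ R] : FunLike (G.Pt R) G.O R :=
  inferInstanceAs (FunLike (G.O →ₐ[ℂ] R) G.O R)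

instance (G : AffGrp) (R : Type) [CommRing R] [Algebra ℂ R] : AlgHomClass (G.Pt R) ℂ G.O R :=
  inferInstanceAs (AlgHomClass (G.O →ₐ[ℂ] R) ℂ G.O R)

/-- a point as a homomorphism -/
def AffGrp.Pt.hom {G : AffGrp} {R : Type} [CommRing R] [Algebra ℂ R] (φ : G.Pt R) : G.O →ₐ[ℂ] R := φ

/-- a homomorphism as a point -/
def AffGrp.Pt.of {G : AffGrp} {R : Type} [CommRing R] [Algebra ℂ R] (φ : G.O →ₐ[ℂ] R) : G.Pt R := φ

namespace AffGrp

section tens
variable {G G' : AffGrp} {R : Type} [CommRing R] [Algebra ℂ R]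

/-- Linear independence of tensors: `∑ a_i ⊗ b_i` is determined by the function
`∑ a_i x * b_i y`. -/
theorem tens_aux (φ : G.O →ₗ[ℂ] R) (ψ : G'.O →ₗ[ℂ] R) {n : ℕ} (a : Fin n → G.O) (b : Fin n → G'.O)
    (h : ∀ x y, ∑ i, (a i).1 x * (b i).1 y = 0) : ∑ i, φ (a i) * ψ (b i) = 0 := by
  classical
  let B := Module.Basis.ofVectorSpace ℂ G.O
  have h1 : ∀ (k : Module.Basis.ofVectorSpaceIndex ℂ G.O), ∑ i, B.repr (a i) k • b i = 0 := by
    intro k
    apply O_ext
    intro y
    have h2 : ∑ i, (b i).1 y • a i = 0 := by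
      apply O_ext
      intro x
      rw [O_sum, O_zero, ← h x y]
      exact Finset.sum_congr rfl fun i _ => by rw [O_smul, mul_comm]
    have h3 := congrArg (fun f => B.repr f k) h2
    simp only [map_sum, map_smul, map_zero, Finsupp.coe_zero, Pi.zero_apply] at h3
    rw [Finsupp.finsetSum_apply] at h3
    rw [O_sum, O_zero, ← h3]
    refine Finset.sum_congr rfl fun i _ => ?_
    rw [O_smul, Finsupp.smul_apply, smul_eq_mul, mul_comm]
  let S : Finset (Module.Basis.ofVectorSpaceIndex ℂ G.O) := Finset.univ.biUnion fun i => (B.repr (a i)).support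
  have h2 : ∀ i, a i = ∑ k ∈ S, B.repr (a i) k • B k := by
    intro i
    conv_lhs => rw [← B.linearCombination_repr (a i), Finsupp.linearCombination_apply, Finsupp.sum]
    refine Finset.sum_subset (Finset.subset_biUnion_of_mem (fun i => (B.repr (a i)).support)
      (Finset.mem_univ i)) fun k _ hk => ?_
    rw [Finsupp.notMem_support_iff.1 hk, zero_smul]
  calc ∑ i, φ (a i) * ψ (b i) = ∑ i, ∑ k ∈ S, φ (B k) * ψ (B.repr (a i) k • b i) := by
        refine Finset.sum_congr rfl fun i _ => ?_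
        conv_lhs => rw [h2 i, map_sum, Finset.sum_mul]
        refine Finset.sum_congr rfl fun k _ => ?_
        rw [map_smul, map_smul, smul_mul_assoc, mul_smul_comm]
    _ = ∑ k ∈ S, φ (B k) * ψ (∑ i, B.repr (a i) k • b i) := by
        rw [Finset.sum_comm]
        refine Finset.sum_congr rfl fun k _ => ?_
        rw [map_sum, Finset.mul_sum]
    _ = 0 := by
        refine Finset.sum_eq_zero fun k _ => ?_
        rw [h1, map_zero, mul_zero]

/-- the same for two expressions of the same function -/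
theorem tens_eq (φ : G.O →ₗ[ℂ] R) (ψ : G'.O →ₗ[ℂ] R) {n m : ℕ} (a : Fin n → G.O) (b : Fin n → G'.O)
    (a' : Fin m → G.O) (b' : Fin m → G'.O)
    (h : ∀ x y, ∑ i, (a i).1 x * (b i).1 y = ∑ i, (a' i).1 x * (b' i).1 y) :
    ∑ i, φ (a i) * ψ (b i) = ∑ i, φ (a' i) * ψ (b' i) := by
  have h1 := tens_aux φ ψ (n := n + m) (Fin.append a fun i => - a' i) (Fin.append b b') (by
    intro x y
    rw [Fin.sum_univ_add]
    simp only [Fin.append_left, Fin.append_right]
    rw [h x y]
    have : ∀ i, (-a' i).1 x = -(a' i).1 x := fun _ => rfl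
    simp only [this, neg_mul, Finset.sum_neg_distrib]
    ring)
  rw [Fin.sum_univ_add] at h1
  simp only [Fin.append_left, Fin.append_right, map_neg, neg_mul, Finset.sum_neg_distrib] at h1
  linear_combination h1

end tens

namespace Pt

variable {G : AffGrp} {R : Type} [CommRing R] [Algebra ℂ R]

/-- the value of the product of two functionals -/
noncomputable def mulFun (φ ψ : G.O →ₗ[ℂ] R) (f : G.O) : R :=
  ∑ i, φ ((G.mul_mem f.1 f.2).choose_spec.choose i) *
    ψ ((G.mul_mem f.1 f.2).choose_spec.choose_spec.choose i)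

theorem mulFun_eq (φ ψ : G.O →ₗ[ℂ] R) (f : G.O) {n : ℕ} (a b : Fin n → G.O)
    (h : ∀ x y, f.1 (x * y) = ∑ i, (a i).1 x * (b i).1 y) :
    mulFun φ ψ f = ∑ i, φ (a i) * ψ (b i) := by
  refine tens_eq φ ψ _ _ a b fun x y => ?_
  rw [← h x y]
  exact ((G.mul_mem f.1 f.2).choose_spec.choose_spec.choose_spec x y).symm

/-- the product of two points -/
noncomputable def mul (φ ψ : G.Pt R) : G.Pt R :=
  AlgHom.ofLinearMap (R := ℂ) (A := G.O) (B := R)
    { toFun := mulFun (AlgHom.toLinearMap φ.hom) (AlgHom.toLinearMap ψ.hom)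
      map_add' := by
        intro f g
        obtain ⟨n, a, b, h⟩ := G.mul_mem f.1 f.2
        obtain ⟨m, a', b', h'⟩ := G.mul_mem g.1 g.2
        rw [mulFun_eq _ _ f a b h, mulFun_eq _ _ g a' b' h',
          mulFun_eq _ _ (f + g) (Fin.append a a') (Fin.append b b') (by
            intro x y
            rw [O_add, h, h', Fin.sum_univ_add]
            simp only [Fin.append_left, Fin.append_right])]
        rw [Fin.sum_univ_add]
        simp only [Fin.append_left, Fin.append_right]
      map_smul' := by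
        intro c f
        obtain ⟨n, a, b, h⟩ := G.mul_mem f.1 f.2
        rw [mulFun_eq _ _ f a b h, mulFun_eq _ _ (c • f) (fun i => c • a i) b (by
            intro x y
            rw [O_smul, h, Finset.mul_sum]
            exact Finset.sum_congr rfl fun i _ => by rw [O_smul]; ring)]
        rw [RingHom.id_apply, Finset.smul_sum]
        refine Finset.sum_congr rfl fun i _ => ?_
        rw [map_smul, smul_mul_assoc] }
    (by
      show mulFun _ _ 1 = 1
      rw [mulFun_eq _ _ (1 : G.O) (n := 1) (fun _ => 1) (fun _ => 1) (by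
        intro x y
        simp [O_one])]
      have h1 : (AlgHom.toLinearMap φ.hom) 1 = 1 := map_one φ.hom
      have h2 : (AlgHom.toLinearMap ψ.hom) 1 = 1 := map_one ψ.hom
      rw [Finset.univ_unique, Finset.sum_singleton, h1, h2, one_mul])
    (by
      intro f g
      show mulFun _ _ (f * g) = mulFun _ _ f * mulFun _ _ g
      obtain ⟨n, a, b, h⟩ := G.mul_mem f.1 f.2
      obtain ⟨m, a', b', h'⟩ := G.mul_mem g.1 g.2
      rw [mulFun_eq _ _ f a b h, mulFun_eq _ _ g a' b' h',
        mulFun_eq _ _ (f * g) (n := n * m)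
          (fun k => a (finProdFinEquiv.symm k).1 * a' (finProdFinEquiv.symm k).2)
          (fun k => b (finProdFinEquiv.symm k).1 * b' (finProdFinEquiv.symm k).2) (by
            intro x y
            rw [O_mul, h, h', Finset.sum_mul_sum, ← Equiv.sum_comp finProdFinEquiv,
              Fintype.sum_prod_type]
            refine Finset.sum_congr rfl fun k _ => Finset.sum_congr rfl fun l _ => ?_
            simp only [Equiv.symm_apply_apply, O_mul]
            ring)]
      rw [← Equiv.sum_comp finProdFinEquiv, Fintype.sum_prod_type, Finset.sum_mul_sum]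
      refine Finset.sum_congr rfl fun k _ => Finset.sum_congr rfl fun l _ => ?_
      simp only [Equiv.symm_apply_apply]
      have h1 : ∀ f g, (AlgHom.toLinearMap φ.hom) (f * g) = AlgHom.toLinearMap φ.hom f * AlgHom.toLinearMap φ.hom g :=
        fun f g => map_mul φ.hom f g
      have h2 : ∀ f g, (AlgHom.toLinearMap ψ.hom) (f * g) = AlgHom.toLinearMap ψ.hom f * AlgHom.toLinearMap ψ.hom g :=
        fun f g => map_mul ψ.hom f g
      rw [h1, h2]
      ring)

/-- the identity point -/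
noncomputable def one : G.Pt R :=
  AffGrp.Pt.of <| (Algebra.ofId ℂ R).comp (show G.O →ₐ[ℂ] ℂ from
    { toFun := fun f => f.1 1
      map_one' := rfl
      map_mul' := fun _ _ => rfl
      map_zero' := rfl
      map_add' := fun _ _ => rfl
      commutes' := fun _ => rfl })

/-- the inverse as a homomorphism -/
def invO (G : AffGrp) : G.O →ₐ[ℂ] G.O where
  toFun f := ⟨fun x => f.1 x⁻¹, G.inv_mem f.1 f.2⟩
  map_one' := rfl
  map_mul' _ _ := rfl
  map_zero' := rfl
  map_add' _ _ := rfl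
  commutes' _ := rfl

theorem ext {φ ψ : G.Pt R} (h : ∀ f : G.O, φ f = ψ f) : φ = ψ := DFunLike.ext _ _ h

theorem mul_eq (φ ψ : G.Pt R) (f : G.O) {n : ℕ} (a b : Fin n → G.O)
    (h : ∀ x y, f.1 (x * y) = ∑ i, (a i).1 x * (b i).1 y) :
    mul φ ψ f = ∑ i, φ (a i) * ψ (b i) :=
  mulFun_eq _ _ f a b h

theorem one_eq (f : G.O) : (one : G.Pt R) f = algebraMap ℂ R (f.1 1) := rfl

end Pt

end AffGrp

namespace Rep

variable {G : AffGrp} (E : Rep G) {R : Type} [CommRing R] [Algebra ℂ R]

/-- the matrix of a point in a representation -/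
def pt (φ : G.Pt R) : Matrix E.ι E.ι R := Matrix.of fun a b => φ (E.co a b)

theorem pt_apply (φ : G.Pt R) (a b : E.ι) : E.pt φ a b = φ (E.co a b) := rfl

theorem pt_mul' (φ ψ : G.Pt R) : E.pt (AffGrp.Pt.mul φ ψ) = E.pt φ * E.pt ψ := by
  ext a b
  obtain ⟨m, ⟨e⟩⟩ : ∃ m : ℕ, Nonempty (E.ι ≃ Fin m) := ⟨_, ⟨Fintype.equivFin E.ι⟩⟩
  rw [pt_apply, AffGrp.Pt.mul_eq φ ψ (E.co a b) (n := m) (fun i => E.co a (e.symm i))
    (fun i => E.co (e.symm i) b) (by
      intro x y
      show E.ρ (x * y) a b = ∑ i, E.ρ x a (e.symm i) * E.ρ y (e.symm i) b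
      rw [map_mul, Matrix.mul_apply, ← Equiv.sum_comp e.symm]),
    Matrix.mul_apply, ← Equiv.sum_comp e.symm]
  rfl

theorem pt_one' : E.pt (AffGrp.Pt.one : G.Pt R) = 1 := by
  ext a b
  rw [pt_apply, AffGrp.Pt.one_eq]
  show algebraMap ℂ R (E.ρ 1 a b) = _
  rw [map_one, Matrix.one_apply, Matrix.one_apply]
  split_ifs <;> simp

/-- the value of the inverse point -/
theorem pt_inv_aux (φ : G.Pt R) (a b : E.ι) :
    ∑ c, φ (AffGrp.Pt.invO G (E.co a c)) * φ (E.co c b) = (1 : Matrix E.ι E.ι R) a b := by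
  have h : ∑ c, AffGrp.Pt.invO G (E.co a c) * E.co c b = algebraMap ℂ G.O ((1 : Matrix E.ι E.ι ℂ) a b) := by
    apply AffGrp.O_ext
    intro x
    rw [AffGrp.O_sum]
    have h1 : E.ρ x⁻¹ * E.ρ x = 1 := by rw [← map_mul, inv_mul_cancel, map_one]
    have h2 := congrFun (congrFun h1 a) b
    rw [Matrix.mul_apply] at h2
    exact h2
  have h3 := congrArg φ h
  rw [map_sum] at h3
  rw [AlgHomClass.commutes] at h3
  simp only [map_mul] at h3
  rw [h3, Matrix.one_apply, Matrix.one_apply]
  split_ifs <;> simp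

theorem pt_injective (hE : E.Faithful) {φ ψ : G.Pt R} (h : E.pt φ = E.pt ψ) : φ = ψ := by
  have h1 : φ.hom = ψ.hom := by
    apply AlgHom.ext_of_adjoin_eq_top hE
    rintro _ ⟨p, rfl⟩
    exact congrFun (congrFun h p.1) p.2
  exact h1

end Rep

namespace AffGrp.Pt

variable {G : AffGrp} {R : Type} [CommRing R] [Algebra ℂ R]

noncomputable instance : Group (G.Pt R) where
  mul := mul
  one := one
  inv φ := Pt.of (φ.hom.comp (invO G))
  mul_assoc a b c := by
    obtain ⟨E, hE⟩ := AffGrp.exists_faithful (G := G)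
    apply E.pt_injective hE
    show E.pt (mul (mul a b) c) = E.pt (mul a (mul b c))
    rw [E.pt_mul', E.pt_mul', E.pt_mul', E.pt_mul', mul_assoc]
  one_mul a := by
    obtain ⟨E, hE⟩ := AffGrp.exists_faithful (G := G)
    apply E.pt_injective hE
    show E.pt (mul one a) = E.pt a
    rw [E.pt_mul', E.pt_one', one_mul]
  mul_one a := by
    obtain ⟨E, hE⟩ := AffGrp.exists_faithful (G := G)
    apply E.pt_injective hE
    show E.pt (mul a one) = E.pt a
    rw [E.pt_mul', E.pt_one', mul_one]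
  inv_mul_cancel a := by
    obtain ⟨E, hE⟩ := AffGrp.exists_faithful (G := G)
    apply E.pt_injective hE
    show E.pt (mul (Pt.of (a.hom.comp (invO G))) a) = E.pt one
    rw [E.pt_mul', E.pt_one']
    ext i j
    rw [Matrix.mul_apply]
    exact E.pt_inv_aux a i j

theorem one_apply (f : G.O) : (1 : G.Pt R) f = algebraMap ℂ R (f.1 1) := rfl

theorem inv_apply (φ : G.Pt R) (f : G.O) : (φ⁻¹) f = φ (invO G f) := rfl

theorem mul_apply (φ ψ : G.Pt R) (f : G.O) {n : ℕ} (a b : Fin n → G.O)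
    (h : ∀ x y, f.1 (x * y) = ∑ i, (a i).1 x * (b i).1 y) :
    (φ * ψ) f = ∑ i, φ (a i) * ψ (b i) := mul_eq φ ψ f a b h

/-- the constant point -/
noncomputable def const (R : Type) [CommRing R] [Algebra ℂ R] (x : G.X) : G.Pt R :=
  Pt.of <| (Algebra.ofId ℂ R).comp (show G.O →ₐ[ℂ] ℂ from
    { toFun := fun f => f.1 x
      map_one' := rfl
      map_mul' := fun _ _ => rfl
      map_zero' := rfl
      map_add' := fun _ _ => rfl
      commutes' := fun _ => rfl })

theorem const_apply (x : G.X) (f : G.O) : (const R x) f = algebraMap ℂ R (f.1 x) := rfl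

variable {R' : Type} [CommRing R'] [Algebra ℂ R']

/-- functoriality -/
noncomputable def map (σ : R →ₐ[ℂ] R') (φ : G.Pt R) : G.Pt R' := Pt.of (σ.comp φ.hom)

theorem map_apply (σ : R →ₐ[ℂ] R') (φ : G.Pt R) (f : G.O) : (φ.map σ) f = σ (φ f) := rfl

/-- a complex point is a point of `G` -/
noncomputable def toX (φ : G.Pt ℂ) : G.X := (G.pts φ.hom).choose

theorem toX_apply (φ : G.Pt ℂ) (f : G.O) : f.1 φ.toX = φ f := ((G.pts φ.hom).choose_spec f).symm

end AffGrp.Pt

namespace Rep

variable {G : AffGrp} (E : Rep G) {R : Type} [CommRing R] [Algebra ℂ R]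
  {R' : Type} [CommRing R'] [Algebra ℂ R']

theorem pt_mul (φ ψ : G.Pt R) : E.pt (φ * ψ) = E.pt φ * E.pt ψ := E.pt_mul' φ ψ

theorem pt_one : E.pt (1 : G.Pt R) = 1 := E.pt_one'

theorem pt_const (x : G.X) : E.pt (AffGrp.Pt.const R x) = (E.ρ x).map (algebraMap ℂ R) := rfl

theorem pt_map (σ : R →ₐ[ℂ] R') (φ : G.Pt R) : E.pt (φ.map σ) = (E.pt φ).map σ := rfl

/-- the matrix of a point, as a homomorphism -/
noncomputable def ptHom : G.Pt R →* Matrix E.ι E.ι R where
  toFun := E.pt
  map_one' := E.pt_one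
  map_mul' := E.pt_mul

theorem pt_mul_inv (φ : G.Pt R) : E.pt φ * E.pt φ⁻¹ = 1 := by
  rw [← pt_mul, mul_inv_cancel, pt_one]

theorem pt_inv_mul (φ : G.Pt R) : E.pt φ⁻¹ * E.pt φ = 1 := by
  rw [← pt_mul, inv_mul_cancel, pt_one]

end Rep

namespace AffGrp.Pt

variable {G : AffGrp} {R : Type} [CommRing R] [Algebra ℂ R] {R' : Type} [CommRing R'] [Algebra ℂ R']

theorem map_mul' (σ : R →ₐ[ℂ] R') (φ ψ : G.Pt R) : (φ * ψ).map σ = φ.map σ * ψ.map σ := by
  obtain ⟨E, hE⟩ := AffGrp.exists_faithful (G := G)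
  apply E.pt_injective hE
  rw [E.pt_map, E.pt_mul, E.pt_mul, E.pt_map, E.pt_map, Matrix.map_mul]

theorem const_mul (x y : G.X) : const R (x * y) = const R x * const R y := by
  obtain ⟨E, hE⟩ := AffGrp.exists_faithful (G := G)
  apply E.pt_injective hE
  rw [E.pt_mul, E.pt_const, E.pt_const, E.pt_const, map_mul, Matrix.map_mul]

theorem const_one : const R (1 : G.X) = 1 := by
  obtain ⟨E, hE⟩ := AffGrp.exists_faithful (G := G)
  apply E.pt_injective hE
  rw [E.pt_one, E.pt_const, map_one, Matrix.map_one _ (_root_.map_zero _) (_root_.map_one _)]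

end AffGrp.Pt

end Pool.Agent.MTF
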