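import Pool.Agent.MTF.TQ

/-! # MTG-B0 : the Lie algebra of an affine algebraic group as a Mathlib Lie algebra -/

namespace Pool.Agent.MTF

namespace AffGrp

variable (G : AffGrp)

/-- the evaluation at `1` of the derivative -/
theorem der_apply (D : G.Lie) (f : G.O) (x : G.X) : (G.der D f).1 x = D.1 (G.lt x f) := rfl

theorem lt_lt (x y : G.X) (f : G.O) : G.lt y (G.lt x f) = G.lt (x * y) f := by
  apply Subtype.ext
  funext z
  show f.1 (x * (y * z)) = f.1 (x * y * z)
  rw [mul_assoc]

theorem lt_one (f : G.O) : G.lt 1 f = f := by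
  apply Subtype.ext
  funext z
  show f.1 (1 * z) = f.1 z
  rw [one_mul]

theorem der_lt (D : G.Lie) (x : G.X) (f : G.O) : G.der D (G.lt x f) = G.lt x (G.der D f) := by
  apply Subtype.ext
  funext y
  show D.1 (G.lt y (G.lt x f)) = D.1 (G.lt (x * y) f)
  rw [lt_lt]

theorem der_br (D E : G.Lie) (f : G.O) :
    G.der (G.br D E) f = G.der D (G.der E f) - G.der E (G.der D f) := by
  apply Subtype.ext
  funext x
  show D.1 (G.der E (G.lt x f)) - E.1 (G.der D (G.lt x f)) = _
  rw [der_lt, der_lt]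
  rfl

theorem Lie_ext {D E : G.Lie} (h : ∀ f, D.1 f = E.1 f) : D = E := Subtype.ext (LinearMap.ext h)

theorem br_apply (D E : G.Lie) (f : G.O) :
    (G.br D E).1 f = D.1 (G.der E f) - E.1 (G.der D f) := rfl

noncomputable instance : LieRing G.Lie where
  bracket := G.br
  add_lie D D' E := by
    apply G.Lie_ext
    intro f
    have h : G.der (D + D') f = G.der D f + G.der D' f := rfl
    show (D + D').1 (G.der E f) - E.1 (G.der (D + D') f) =
      (D.1 (G.der E f) - E.1 (G.der D f)) + (D'.1 (G.der E f) - E.1 (G.der D' f))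
    rw [h, map_add]
    show D.1 (G.der E f) + D'.1 (G.der E f) - _ = _
    ring
  lie_add D E E' := (G.ad D).map_add E E'
  lie_self D := by
    apply G.Lie_ext
    intro f
    show D.1 (G.der D f) - D.1 (G.der D f) = 0
    ring
  leibniz_lie D E F := by
    apply G.Lie_ext
    intro f
    show D.1 (G.der (G.br E F) f) - (E.1 (G.der F (G.der D f)) - F.1 (G.der E (G.der D f))) =
      ((D.1 (G.der E (G.der F f)) - E.1 (G.der D (G.der F f))) - F.1 (G.der (G.br D E) f)) +
      (E.1 (G.der (G.br D F) f) - (D.1 (G.der F (G.der E f)) - F.1 (G.der D (G.der E f))))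
    rw [der_br, der_br, der_br, map_sub, map_sub, map_sub]
    ring

noncomputable instance : LieAlgebra ℂ G.Lie where
  lie_smul c D E := (G.ad D).map_smul c E

theorem lie_eq (D E : G.Lie) : ⁅D, E⁆ = G.br D E := rfl

/-- A derivation is determined by its values on a finite set of algebra generators. -/
instance : FiniteDimensional ℂ G.Lie := by
  obtain ⟨s, hs⟩ := G.fg
  have hsO : ∀ f ∈ s, f ∈ G.O := fun f hf => by
    rw [← hs]; exact Algebra.subset_adjoin hf
  let e : G.Lie →ₗ[ℂ] (s → ℂ) :=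
    { toFun := fun D f => D.1 ⟨f.1, hsO f.1 f.2⟩
      map_add' := fun _ _ => rfl
      map_smul' := fun _ _ => rfl }
  refine FiniteDimensional.of_injective e ?_
  rw [← LinearMap.ker_eq_bot, LinearMap.ker_eq_bot']
  intro D hD
  apply G.Lie_ext
  have key : ∀ f, ∀ hf : f ∈ Algebra.adjoin ℂ (s : Set (G.X → ℂ)), D.1 ⟨f, hs ▸ hf⟩ = 0 := by
    intro f hf
    induction hf using Algebra.adjoin_induction with
    | mem f hf => exact congrFun hD ⟨f, hf⟩
    | algebraMap c =>
      have h1 : D.1 1 = 0 := by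
        have := D.2 1 1
        rw [mul_one] at this
        have h2 : (1 : G.O).1 1 = 1 := rfl
        rw [h2] at this
        linear_combination -this
      have h3 : (⟨algebraMap ℂ (G.X → ℂ) c, hs ▸ (Algebra.adjoin ℂ (s : Set (G.X → ℂ))).algebraMap_mem c⟩ :
          G.O) = c • (1 : G.O) := by
        apply Subtype.ext
        funext x
        show c = c * 1
        rw [mul_one]
      rw [h3, map_smul, h1, smul_zero]
    | add f g hf hg ihf ihg =>
      have h3 : (⟨f + g, hs ▸ add_mem hf hg⟩ : G.O) = ⟨f, hs ▸ hf⟩ + ⟨g, hs ▸ hg⟩ := rfl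
      rw [h3, map_add, ihf, ihg, add_zero]
    | mul f g hf hg ihf ihg =>
      have h3 : (⟨f * g, hs ▸ Subalgebra.mul_mem _ hf hg⟩ : G.O) = ⟨f, hs ▸ hf⟩ * ⟨g, hs ▸ hg⟩ := rfl
      rw [h3, D.2, ihf, ihg, mul_zero, mul_zero, add_zero]
  intro f
  exact key f.1 (by rw [hs]; exact f.2)

theorem killing_eq (D E : G.Lie) : G.killing D E = killingForm ℂ G.Lie D E := by
  rw [killingForm_apply_apply]
  rfl

/-- Connected and semisimple. -/
structure Semi : Prop where
  dom : IsDomain G.O
  kill : ∀ D : G.Lie, (∀ E, G.killing D E = 0) → D = 0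

theorem Semi.isKilling {G : AffGrp} (h : G.Semi) : LieAlgebra.IsKilling ℂ G.Lie := by
  constructor
  rw [eq_bot_iff]
  intro D hD
  rw [LieIdeal.mem_killingCompl] at hD
  refine h.kill D fun E => ?_
  rw [killing_eq, LieModule.traceForm_comm]
  exact hD E (LieSubmodule.mem_top E)

section
variable {G : AffGrp}

/-- Basic extensionality for regular functions. -/
theorem O_ext {f g : G.O} (h : ∀ x, f.1 x = g.1 x) : f = g := Subtype.ext (funext h)

theorem O_add (f g : G.O) (x : G.X) : (f + g).1 x = f.1 x + g.1 x := rfl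
theorem O_sub (f g : G.O) (x : G.X) : (f - g).1 x = f.1 x - g.1 x := rfl
theorem O_mul (f g : G.O) (x : G.X) : (f * g).1 x = f.1 x * g.1 x := rfl
theorem O_smul (c : ℂ) (f : G.O) (x : G.X) : (c • f).1 x = c * f.1 x := rfl
theorem O_one (x : G.X) : (1 : G.O).1 x = 1 := rfl
theorem O_zero (x : G.X) : (0 : G.O).1 x = 0 := rfl

theorem O_sum {κ : Type} (s : Finset κ) (F : κ → G.O) (x : G.X) :
    (∑ i ∈ s, F i).1 x = ∑ i ∈ s, (F i).1 x := by
  classical
  induction s using Finset.induction_on with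
  | empty => simp [O_zero]
  | insert a s ha ih => rw [Finset.sum_insert ha, Finset.sum_insert ha, O_add, ih]

end

end AffGrp

open Matrix

namespace Rep

variable {G : AffGrp} (E : Rep G)

/-- The derivative of a representation. -/
def d : G.Lie →ₗ[ℂ] Matrix E.ι E.ι ℂ where
  toFun D := Matrix.of fun a b => D.1 (E.co a b)
  map_add' _ _ := rfl
  map_smul' _ _ := rfl

theorem d_apply (D : G.Lie) (a b : E.ι) : E.d D a b = D.1 (E.co a b) := rfl

theorem co_apply (a b : E.ι) (x : G.X) : (E.co a b).1 x = E.ρ x a b := rfl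

/-- left translation of a coefficient -/
theorem lt_co (x : G.X) (a b : E.ι) : G.lt x (E.co a b) = ∑ c, E.ρ x a c • E.co c b := by
  apply AffGrp.O_ext
  intro y
  rw [AffGrp.O_sum]
  show E.ρ (x * y) a b = _
  rw [map_mul, Matrix.mul_apply]
  rfl

theorem der_co (D : G.Lie) (a b : E.ι) : G.der D (E.co a b) = ∑ c, E.d D c b • E.co a c := by
  apply AffGrp.O_ext
  intro x
  rw [AffGrp.der_apply, lt_co, map_sum, AffGrp.O_sum]
  refine Finset.sum_congr rfl fun c _ => ?_
  rw [map_smul, AffGrp.O_smul, smul_eq_mul, mul_comm]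
  rfl

theorem d_lie (D D' : G.Lie) : E.d ⁅D, D'⁆ = E.d D * E.d D' - E.d D' * E.d D := by
  ext a b
  show (G.br D D').1 (E.co a b) = _
  rw [AffGrp.br_apply, der_co, der_co, map_sum, map_sum, Matrix.sub_apply, Matrix.mul_apply,
    Matrix.mul_apply]
  congr 1 <;> refine Finset.sum_congr rfl fun c _ => ?_ <;>
    rw [map_smul, smul_eq_mul, mul_comm] <;> rfl

/-- `ρ(x) d(D) ρ(x)⁻¹ = d(Ad_x D)` -/
theorem d_Ad (x : G.X) (D : G.Lie) : E.d (G.Ad x D) = E.ρ x * E.d D * E.ρ x⁻¹ := by
  ext a b
  show D.1 (G.cj x (E.co a b)) = _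
  have h : G.cj x (E.co a b) = ∑ c, ∑ c', (E.ρ x a c * E.ρ x⁻¹ c' b) • E.co c c' := by
    apply AffGrp.O_ext
    intro y
    rw [AffGrp.O_sum]
    show E.ρ (x * y * x⁻¹) a b = _
    rw [map_mul, map_mul, Matrix.mul_apply]
    simp only [Matrix.mul_apply, AffGrp.O_sum, AffGrp.O_smul, co_apply, Finset.sum_mul]
    rw [Finset.sum_comm]
    refine Finset.sum_congr rfl fun c _ => Finset.sum_congr rfl fun c' _ => ?_
    ring
  rw [h, map_sum]
  simp only [Matrix.mul_apply, map_sum, map_smul, smul_eq_mul, Finset.sum_mul]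
  rw [Finset.sum_comm]
  refine Finset.sum_congr rfl fun c _ => Finset.sum_congr rfl fun c' _ => ?_
  rw [d_apply]
  ring

/-- `E` is faithful: the coefficients generate the algebra of regular functions. -/
def Faithful : Prop := Algebra.adjoin ℂ (Set.range fun p : E.ι × E.ι => E.co p.1 p.2) = ⊤

/-- The space of the representation, as a module of the Lie algebra. -/
def V : Type := E.ι → ℂ

noncomputable instance : AddCommGroup E.V := inferInstanceAs (AddCommGroup (E.ι → ℂ))
noncomputable instance : Module ℂ E.V := inferInstanceAs (Module ℂ (E.ι → ℂ))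
instance : FiniteDimensional ℂ E.V := inferInstanceAs (FiniteDimensional ℂ (E.ι → ℂ))

noncomputable instance : LieRingModule G.Lie E.V where
  bracket D v := (E.d D).mulVec v
  add_lie D D' v := by
    show (E.d (D + D')).mulVec v = (E.d D).mulVec v + (E.d D').mulVec v
    rw [map_add, Matrix.add_mulVec]
  lie_add D v v' := Matrix.mulVec_add _ _ _
  leibniz_lie D D' v := by
    show (E.d D).mulVec ((E.d D').mulVec v) =
      (E.d ⁅D, D'⁆).mulVec v + (E.d D').mulVec ((E.d D).mulVec v)
    rw [d_lie, Matrix.sub_mulVec, Matrix.mulVec_mulVec, Matrix.mulVec_mulVec]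
    abel

noncomputable instance : LieModule ℂ G.Lie E.V where
  smul_lie c D v := by
    show (E.d (c • D)).mulVec v = c • (E.d D).mulVec v
    rw [map_smul, Matrix.smul_mulVec]
  lie_smul c D v := Matrix.mulVec_smul _ _ _

theorem lie_V (D : G.Lie) (v : E.V) : ⁅D, v⁆ = (E.d D).mulVec v := rfl

end Rep

end Pool.Agent.MTF
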