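import Pool.Agent.MTG.B1a

/-! # MTG-B1 : functions and representations of connected groups, via derivatives at `1` -/

namespace Pool.Agent.MTF

open Matrix

namespace AffGrp

variable {G : AffGrp}

/-- B1b.  Special case of `eq_zero_of_der` with `J = {c • (f - f 1)}`. -/
theorem const_of_der (hG : IsDomain G.O) (f : G.O) (h : ∀ D : G.Lie, G.der D f = 0) (x : G.X) :
    f.1 x = f.1 1 := by
  have h1 : ∀ D : G.Lie, G.der D (1 : G.O) = 0 := by
    intro D
    have h2 := G.der_leib D (1 : G.O) 1
    rw [mul_one, one_mul] at h2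
    exact left_eq_add.1 h2
  obtain ⟨g, hg⟩ : ∃ g : G.O, g = f - f.1 1 • (1 : G.O) := ⟨_, rfl⟩
  have hg1 : g.1 1 = 0 := by
    rw [hg]
    show f.1 1 - f.1 1 * 1 = 0
    ring
  have hgd : ∀ D : G.Lie, G.der D g = 0 := by
    intro D
    rw [hg, map_sub, map_smul, h D, h1 D, smul_zero, sub_zero]
  have h0 : g = 0 := by
    refine eq_zero_of_der hG (Submodule.span ℂ {g}) ?_ ?_ g (Submodule.mem_span_singleton_self g)
    · intro k hk
      obtain ⟨c, rfl⟩ := Submodule.mem_span_singleton.1 hk
      show c * g.1 1 = 0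
      rw [hg1, mul_zero]
    · intro k hk D
      obtain ⟨c, rfl⟩ := Submodule.mem_span_singleton.1 hk
      rw [map_smul, hgd D, smul_zero]
      exact Submodule.zero_mem _
  have h3 : g.1 x = 0 := by rw [h0]; rfl
  rw [hg] at h3
  have h4 : f.1 x - f.1 1 * 1 = 0 := h3
  linear_combination h4

end AffGrp

end Pool.Agent.MTF
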