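import Pool.Agent.MTG.B0

/-! # MTG-B1 : functions and representations of connected groups, via derivatives at `1` -/

namespace Pool.Agent.MTF

open Matrix

namespace AffGrp

variable {G : AffGrp}

/-- B1c.  Finitely many functions are contained in a finite-dimensional subspace stable under right
translations: from `mul_mem`, `f (y x) = ∑ a_i y * b_i x`, so the span of all right translates of `f`
is contained in the span of the `a_i`. -/
theorem exists_rt_stable (s : Finset G.O) : ∃ U : Submodule ℂ G.O, FiniteDimensional ℂ U ∧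
    (∀ f ∈ s, f ∈ U) ∧ ∀ f ∈ U, ∀ x : G.X, G.rt x f ∈ U := by
  classical
  choose n a b hab using fun f : G.O => G.mul_mem f.1 f.2
  have hW : FiniteDimensional ℂ (Submodule.span ℂ (⋃ f ∈ s, Set.range (a f))) :=
    FiniteDimensional.span_of_finite ℂ
      (Set.Finite.biUnion s.finite_toSet (fun f _ => Set.finite_range (a f)))
  have hrt : ∀ (f : G.O) (x : G.X), G.rt x f = ∑ i, (b f i).1 x • a f i := by
    intro f x
    apply O_ext
    intro y
    rw [O_sum]
    show f.1 (y * x) = _
    rw [hab f y x]
    refine Finset.sum_congr rfl fun i _ => ?_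
    rw [O_smul, mul_comm]
  have hUW : Submodule.span ℂ {g : G.O | ∃ f ∈ s, ∃ x : G.X, g = G.rt x f} ≤
      Submodule.span ℂ (⋃ f ∈ s, Set.range (a f)) := by
    rw [Submodule.span_le]
    rintro g ⟨f, hf, x, rfl⟩
    rw [hrt]
    refine Submodule.sum_mem _ fun i _ => Submodule.smul_mem _ _ (Submodule.subset_span ?_)
    exact Set.mem_biUnion (Finset.mem_coe.2 hf) (Set.mem_range_self i)
  refine ⟨Submodule.span ℂ {g : G.O | ∃ f ∈ s, ∃ x : G.X, g = G.rt x f},
    Submodule.finiteDimensional_of_le hUW, ?_, ?_⟩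
  · intro f hf
    refine Submodule.subset_span ⟨f, hf, 1, ?_⟩
    apply O_ext
    intro y
    show f.1 y = f.1 (y * 1)
    rw [mul_one]
  · intro f hf x
    have h1 : Submodule.map (G.rt x) (Submodule.span ℂ {g : G.O | ∃ f ∈ s, ∃ x : G.X, g = G.rt x f}) ≤
        Submodule.span ℂ {g : G.O | ∃ f ∈ s, ∃ x : G.X, g = G.rt x f} := by
      rw [Submodule.map_span_le]
      rintro g ⟨f', hf', x', rfl⟩
      refine Submodule.subset_span ⟨f', hf', x * x', ?_⟩
      apply O_ext
      intro y
      show f'.1 (y * x * x') = f'.1 (y * (x * x'))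
      rw [mul_assoc]
    exact h1 (Submodule.mem_map_of_mem hf)

end AffGrp

end Pool.Agent.MTF
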