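import Pool.Agent.MTG.B0

/-! # MTG-B1 : functions and representations of connected groups, via derivatives at `1` -/

namespace Pool.Agent.MTF

open Matrix

namespace AffGrp

variable {G : AffGrp}

/-- the evaluation at `y` -/
def b1d_ev (U : Submodule ℂ G.O) (y : G.X) : U →ₗ[ℂ] ℂ where
  toFun f := (f.1).1 y
  map_add' _ _ := rfl
  map_smul' _ _ := rfl

/-- functionals which separate the vectors span the dual space -/
theorem b1d_span_gen {V κ : Type} [AddCommGroup V] [Module ℂ V] [FiniteDimensional ℂ V]
    (ev : κ → Module.Dual ℂ V) (h : ∀ v, (∀ y, ev y v = 0) → v = 0) :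
    Submodule.span ℂ (Set.range ev) = ⊤ := by
  have h1 : (Submodule.span ℂ (Set.range ev)).dualCoannihilator = ⊥ := by
    rw [eq_bot_iff]
    intro f hf
    rw [Submodule.mem_dualCoannihilator] at hf
    rw [Submodule.mem_bot]
    exact h f fun y => hf (ev y) (Submodule.subset_span ⟨y, rfl⟩)
  rw [← Subspace.dualCoannihilator_dualAnnihilator_eq
    (W := Submodule.span ℂ (Set.range ev)), h1, Submodule.dualAnnihilator_bot]

/-- induction over the functionals -/
theorem b1d_ind {V κ : Type} [AddCommGroup V] [Module ℂ V] [FiniteDimensional ℂ V]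
    (ev : κ → V →ₗ[ℂ] ℂ) (h : ∀ v, (∀ y, ev y v = 0) → v = 0) (p : (V → ℂ) → Prop)
    (h1 : ∀ y, p (ev y)) (h2 : p fun _ => 0) (h3 : ∀ f g, p f → p g → p fun v => f v + g v)
    (h4 : ∀ (c : ℂ) f, p f → p fun v => c * f v) (φ : V →ₗ[ℂ] ℂ) : p φ := by
  have hφ : φ ∈ Submodule.span ℂ (Set.range ev) := by
    rw [b1d_span_gen ev h]
    exact Submodule.mem_top
  induction hφ using Submodule.span_induction with
  | mem φ h =>
    obtain ⟨y, rfl⟩ := h
    exact h1 y
  | zero => exact h2
  | add φ ψ _ _ h5 h6 => exact h3 _ _ h5 h6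
  | smul c φ _ h => exact h4 c _ h

/-- the right translation on the stable subspace -/
def b1d_R (U : Submodule ℂ G.O) (hU : ∀ f ∈ U, ∀ x : G.X, G.rt x f ∈ U) (x : G.X) : U →ₗ[ℂ] U :=
  (G.rt x).restrict fun f hf => hU f hf x

theorem b1d_R_apply (U : Submodule ℂ G.O) (hU : ∀ f ∈ U, ∀ x : G.X, G.rt x f ∈ U) (x y : G.X)
    (f : U) : ((b1d_R U hU x f).1).1 y = (f.1).1 (y * x) := rfl

theorem b1d_mem (U : Submodule ℂ G.O) [FiniteDimensional ℂ U]
    (hU : ∀ f ∈ U, ∀ x : G.X, G.rt x f ∈ U) (φ : U →ₗ[ℂ] ℂ) (f : U) :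
    (fun x => φ (b1d_R U hU x f)) ∈ G.O :=
  b1d_ind (b1d_ev U) (fun f hf => Subtype.ext (O_ext fun y => hf y))
    (fun φ => (fun x => φ (b1d_R U hU x f)) ∈ G.O) (fun y => G.left_mem y f.1.2) G.O.zero_mem
    (fun _ _ h1 h2 => G.O.add_mem h1 h2) (fun c _ h => G.O.smul_mem h c) φ

/-- B1d.  A finite-dimensional subspace of `G.O` that is stable under right translations is a
representation: with a basis `u_a`, `rt x u_b = ∑ a, ρ(x)_ab u_a`.  The entries `ρ_ab` are in `G.O`
(choose points `x_1..x_r` with `(u_a (x_c))` invertible; `u_b (x_c x) = ∑ a, ρ(x)_ab u_a (x_c)`). -/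
theorem exists_rep_of_stable (U : Submodule ℂ G.O) [FiniteDimensional ℂ U]
    (hU : ∀ f ∈ U, ∀ x : G.X, G.rt x f ∈ U) :
    ∃ (E : Rep G) (u : Module.Basis E.ι ℂ U), ∀ (x y : G.X) (b : E.ι),
      ((u b).1).1 (y * x) = ∑ a, E.ρ x a b * ((u a).1).1 y := by
  have : Module.Free ℂ U := Module.Free.of_divisionRing ℂ U
  let u := Module.finBasis ℂ U
  let E : Rep G :=
    { ι := Fin (Module.finrank ℂ U)
      ρ :=
        { toFun := fun x => LinearMap.toMatrix u u (b1d_R U hU x)
          map_one' := by
            have h1 : b1d_R U hU 1 = LinearMap.id := by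
              apply LinearMap.ext
              intro f
              apply Subtype.ext
              apply O_ext
              intro y
              rw [b1d_R_apply, mul_one]
              rfl
            show LinearMap.toMatrix u u (b1d_R U hU 1) = 1
            rw [h1, LinearMap.toMatrix_id]
          map_mul' := fun x x' => by
            have h1 : b1d_R U hU (x * x') = b1d_R U hU x ∘ₗ b1d_R U hU x' := by
              apply LinearMap.ext
              intro f
              apply Subtype.ext
              apply O_ext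
              intro y
              rw [LinearMap.comp_apply, b1d_R_apply, b1d_R_apply, b1d_R_apply, mul_assoc]
            show LinearMap.toMatrix u u (b1d_R U hU (x * x')) =
              LinearMap.toMatrix u u (b1d_R U hU x) * LinearMap.toMatrix u u (b1d_R U hU x')
            rw [h1, LinearMap.toMatrix_comp u u u] }
      mem := fun a b => by
        have h1 : (fun x => LinearMap.toMatrix u u (b1d_R U hU x) a b) =
            fun x => u.coord a (b1d_R U hU x (u b)) := by
          funext x
          rw [LinearMap.toMatrix_apply]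
          rfl
        show (fun x => LinearMap.toMatrix u u (b1d_R U hU x) a b) ∈ G.O
        rw [h1]
        exact b1d_mem U hU (u.coord a) (u b) }
  refine ⟨E, u, fun x y b => ?_⟩
  have h1 : b1d_R U hU x (u b) = ∑ a, E.ρ x a b • u a := by
    have h2 := u.sum_repr (b1d_R U hU x (u b))
    refine h2.symm.trans (Finset.sum_congr rfl fun a _ => ?_)
    have h3 : E.ρ x a b = LinearMap.toMatrix u u (b1d_R U hU x) a b := rfl
    rw [h3, LinearMap.toMatrix_apply]
  rw [← b1d_R_apply U hU x y (u b), h1]
  rw [Submodule.coe_sum, O_sum]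
  rfl

end AffGrp

end Pool.Agent.MTF
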