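import Pool.Agent.MTG.B1c
import Pool.Agent.MTG.B1d

/-! # MTG-B1 : functions and representations of connected groups, via derivatives at `1` -/

namespace Pool.Agent.MTF

open Matrix

namespace AffGrp

variable {G : AffGrp}

/-- a subalgebra which contains the generators is the whole algebra -/
theorem b1e_top (A : Subalgebra ℂ G.O) (s : Finset (G.X → ℂ))
    (hs : Algebra.adjoin ℂ (s : Set (G.X → ℂ)) = G.O)
    (h : ∀ (f : G.X → ℂ) (hf : f ∈ G.O), f ∈ s → (⟨f, hf⟩ : G.O) ∈ A) : A = ⊤ := by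
  rw [eq_top_iff]
  rintro ⟨f, hf⟩ -
  have hsO : ∀ f ∈ s, f ∈ G.O := fun f hf => by
    rw [← hs]; exact Algebra.subset_adjoin hf
  have hle : Algebra.adjoin ℂ (s : Set (G.X → ℂ)) ≤ A.map G.O.val := by
    refine Algebra.adjoin_le ?_
    intro g hg
    exact ⟨⟨g, hsO g hg⟩, h g (hsO g hg) hg, rfl⟩
  have hf' : f ∈ Algebra.adjoin ℂ (s : Set (G.X → ℂ)) := by rw [hs]; exact hf
  obtain ⟨g, hg, hgf⟩ := hle hf'
  have h2 : (⟨f, hf⟩ : G.O) = g := Subtype.ext hgf.symm
  rw [h2]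
  exact hg

/-- B1e.  Existence of a faithful representation.  Take generators of `G.O`, `exists_rt_stable`,
`exists_rep_of_stable`: `u_b (x) = u_b (1 · x) = ∑ a, ρ(x)_ab u_a (1)`, so the generators are
combinations of the coefficients. -/
theorem exists_faithful : ∃ E : Rep G, E.Faithful := by
  classical
  obtain ⟨s, hs⟩ := G.fg
  have hsO : ∀ f ∈ s, f ∈ G.O := fun f hf => by
    rw [← hs]; exact Algebra.subset_adjoin hf
  obtain ⟨S, hS⟩ : ∃ S : Finset G.O, S = s.attach.image fun f => (⟨f.1, hsO f.1 f.2⟩ : G.O) := ⟨_, rfl⟩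
  obtain ⟨U, hfin, hsU, hU⟩ := exists_rt_stable S
  obtain ⟨E, u, hu⟩ := exists_rep_of_stable U hU
  refine ⟨E, ?_⟩
  unfold Rep.Faithful
  have h1 : ∀ b, ((u b).1 : G.O) ∈
      Algebra.adjoin ℂ (Set.range fun p : E.ι × E.ι => E.co p.1 p.2) := by
    intro b
    have h2 : ((u b).1 : G.O) = ∑ a, ((u a).1).1 1 • E.co a b := by
      apply O_ext
      intro x
      rw [O_sum]
      have h3 := hu x 1 b
      rw [one_mul] at h3
      rw [h3]
      refine Finset.sum_congr rfl fun a _ => ?_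
      rw [O_smul, mul_comm]
      rfl
    rw [h2]
    refine sum_mem fun a _ => Subalgebra.smul_mem _ (Algebra.subset_adjoin ?_) _
    exact ⟨(a, b), rfl⟩
  have h2 : ∀ f ∈ U, f ∈ Algebra.adjoin ℂ (Set.range fun p : E.ι × E.ι => E.co p.1 p.2) := by
    intro f hf
    have h3 : f = ∑ b, u.repr ⟨f, hf⟩ b • (u b).1 := by
      have h4 := congrArg U.subtype (u.sum_repr ⟨f, hf⟩)
      rw [map_sum] at h4
      exact h4.symm
    rw [h3]
    exact sum_mem fun b _ => Subalgebra.smul_mem _ (h1 b) _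
  refine b1e_top _ s hs ?_
  intro f hf hfs
  refine h2 _ (hsU _ ?_)
  rw [hS, Finset.mem_image]
  exact ⟨⟨f, hfs⟩, Finset.mem_attach _ _, rfl⟩

end AffGrp

end Pool.Agent.MTF
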