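import Pool.Agent.MTG.B0

/-! # MTG-B1 : functions and representations of connected groups, via derivatives at `1` -/

namespace Pool.Agent.MTF

open Matrix

namespace AffGrp

variable {G : AffGrp}

/-- B1f.  For a faithful representation `E.d` is injective: two point derivations that agree on
algebra generators agree. -/
theorem d_injective (E : Rep G) (hE : E.Faithful) : Function.Injective E.d := by
  rw [← LinearMap.ker_eq_bot, LinearMap.ker_eq_bot']
  intro D hD
  apply G.Lie_ext
  have key : ∀ f : G.O, f ∈ Algebra.adjoin ℂ (Set.range fun p : E.ι × E.ι => E.co p.1 p.2) →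
      D.1 f = 0 := by
    intro f hf
    induction hf using Algebra.adjoin_induction with
    | mem f hf =>
      obtain ⟨p, rfl⟩ := hf
      have h1 := congrFun (congrFun hD p.1) p.2
      rw [Rep.d_apply] at h1
      exact h1
    | algebraMap c =>
      have h1 : D.1 1 = 0 := by
        have := D.2 1 1
        rw [mul_one] at this
        have h2 : (1 : G.O).1 1 = 1 := rfl
        rw [h2] at this
        linear_combination -this
      rw [Algebra.algebraMap_eq_smul_one, map_smul, h1, smul_zero]
    | add f g hf hg ihf ihg => rw [map_add, ihf, ihg, add_zero]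
    | mul f g hf hg ihf ihg => rw [D.2, ihf, ihg, mul_zero, mul_zero, add_zero]
  intro f
  show D.1 f = 0
  refine key f ?_
  have h2 : Algebra.adjoin ℂ (Set.range fun p : E.ι × E.ι => E.co p.1 p.2) = ⊤ := hE
  rw [h2]
  exact Algebra.mem_top

end AffGrp

end Pool.Agent.MTF
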