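import Pool.Agent.MTG.B0

/-! # MTG-B1 : functions and representations of connected groups, via derivatives at `1` -/

namespace Pool.Agent.MTF

open Matrix

namespace AffGrp

variable {G : AffGrp}

/-- B1g.  Points are separated by a faithful representation. -/
theorem rho_injective (E : Rep G) (hE : E.Faithful) : Function.Injective E.ρ := by
  intro x y hxy
  have key : ∀ f : G.O, f ∈ Algebra.adjoin ℂ (Set.range fun p : E.ι × E.ι => E.co p.1 p.2) →
      f.1 x = f.1 y := by
    intro f hf
    induction hf using Algebra.adjoin_induction with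
    | mem f hf =>
      obtain ⟨p, rfl⟩ := hf
      show (E.co p.1 p.2).1 x = (E.co p.1 p.2).1 y
      rw [Rep.co_apply, Rep.co_apply, hxy]
    | algebraMap c => rfl
    | add f g hf hg ihf ihg => rw [O_add, O_add, ihf, ihg]
    | mul f g hf hg ihf ihg => rw [O_mul, O_mul, ihf, ihg]
  apply G.sep
  intro f hf
  have hE' : (⟨f, hf⟩ : G.O) ∈ Algebra.adjoin ℂ (Set.range fun p : E.ι × E.ι => E.co p.1 p.2) := by
    have : Algebra.adjoin ℂ (Set.range fun p : E.ι × E.ι => E.co p.1 p.2) = ⊤ := hE
    rw [this]
    exact Algebra.mem_top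
  exact key ⟨f, hf⟩ hE'

end AffGrp

end Pool.Agent.MTF
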