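import Pool.Agent.MTG.B1a

/-! # MTG-B1 : functions and representations of connected groups, via derivatives at `1` -/

namespace Pool.Agent.MTF

open Matrix

namespace AffGrp

variable {G : AffGrp}

/-- the function `x ↦ ξ (ρ(x) w)`, linear in `w` -/
noncomputable def b1h_f (E : Rep G) (ξ : (E.ι → ℂ) →ₗ[ℂ] ℂ) : (E.ι → ℂ) →ₗ[ℂ] G.O where
  toFun w := ∑ a, ∑ b, (ξ (Pi.single a 1) * w b) • E.co a b
  map_add' w w' := by
    rw [← Finset.sum_add_distrib]
    refine Finset.sum_congr rfl fun a _ => ?_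
    rw [← Finset.sum_add_distrib]
    refine Finset.sum_congr rfl fun b _ => ?_
    rw [Pi.add_apply, mul_add, add_smul]
  map_smul' c w := by
    rw [RingHom.id_apply, Finset.smul_sum]
    refine Finset.sum_congr rfl fun a _ => ?_
    rw [Finset.smul_sum]
    refine Finset.sum_congr rfl fun b _ => ?_
    rw [Pi.smul_apply, smul_eq_mul, smul_smul]
    congr 1
    ring

theorem b1h_xi (E : Rep G) (ξ : (E.ι → ℂ) →ₗ[ℂ] ℂ) (v : E.ι → ℂ) :
    ξ v = ∑ a, ξ (Pi.single a 1) * v a := by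
  conv_lhs => rw [pi_eq_sum_univ v, map_sum]
  refine Finset.sum_congr rfl fun a _ => ?_
  rw [map_smul, smul_eq_mul, mul_comm]
  congr 2
  funext j
  rw [Pi.single_apply]
  by_cases h : a = j
  · rw [if_pos h, if_pos h.symm]
  · rw [if_neg h, if_neg (Ne.symm h)]

theorem b1h_apply (E : Rep G) (ξ : (E.ι → ℂ) →ₗ[ℂ] ℂ) (w : E.ι → ℂ) (x : G.X) :
    (b1h_f E ξ w).1 x = ξ ((E.ρ x).mulVec w) := by
  rw [b1h_xi]
  show (∑ a, ∑ b, (ξ (Pi.single a 1) * w b) • E.co a b).1 x = _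
  rw [O_sum]
  refine Finset.sum_congr rfl fun a _ => ?_
  rw [O_sum, Matrix.mulVec, dotProduct, Finset.mul_sum]
  refine Finset.sum_congr rfl fun b _ => ?_
  rw [O_smul, Rep.co_apply]
  ring

theorem b1h_der (E : Rep G) (ξ : (E.ι → ℂ) →ₗ[ℂ] ℂ) (w : E.ι → ℂ) (D : G.Lie) :
    G.der D (b1h_f E ξ w) = b1h_f E ξ ((E.d D).mulVec w) := by
  show G.der D (∑ a, ∑ b, (ξ (Pi.single a 1) * w b) • E.co a b) =
    ∑ a, ∑ c, (ξ (Pi.single a 1) * ((E.d D).mulVec w) c) • E.co a c
  rw [map_sum]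
  refine Finset.sum_congr rfl fun a _ => ?_
  rw [map_sum]
  have h1 : ∀ b, G.der D ((ξ (Pi.single a 1) * w b) • E.co a b) =
      ∑ c, (ξ (Pi.single a 1) * (E.d D c b * w b)) • E.co a c := by
    intro b
    rw [map_smul, Rep.der_co, Finset.smul_sum]
    refine Finset.sum_congr rfl fun c _ => ?_
    rw [smul_smul]
    congr 1
    ring
  rw [Finset.sum_congr rfl fun b _ => h1 b, Finset.sum_comm]
  refine Finset.sum_congr rfl fun c _ => ?_
  rw [← Finset.sum_smul, ← Finset.mul_sum]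
  rfl

theorem b1h_one (E : Rep G) (ξ : (E.ι → ℂ) →ₗ[ℂ] ℂ) (w : E.ι → ℂ) :
    (b1h_f E ξ w).1 1 = ξ w := by
  rw [b1h_apply, map_one, Matrix.one_mulVec]

/-- B1h.  A subspace of a representation of a connected group is stable under the group iff it is
stable under the Lie algebra.  (⇐) Let `U` be stable under all `E.d D`, `u ∈ U`, `ξ` a functional
vanishing on `U`.  For `w ∈ U` let `f_w (x) = ξ (ρ(x) w)`; `J = {f_w | w ∈ U}` is a subspace of
`G.O`, `f_w (1) = 0` and `der D f_w = f_{E.d D w}` (`der_co`), so `J = 0` by `eq_zero_of_der`.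
(⇒) for `u ∈ U` and `ξ` vanishing on `U` the function `ξ (ρ(x) u)` is zero, apply `D`. -/
theorem stable_iff (hG : IsDomain G.O) (E : Rep G) (U : Submodule ℂ (E.ι → ℂ)) :
    (∀ (x : G.X), ∀ u ∈ U, (E.ρ x).mulVec u ∈ U) ↔
      ∀ (D : G.Lie), ∀ u ∈ U, (E.d D).mulVec u ∈ U := by
  constructor
  · intro h D u hu
    by_contra hn
    obtain ⟨ξ, hξ, hU⟩ := U.exists_dual_map_eq_bot_of_notMem hn inferInstance
    have hz : ∀ w ∈ U, ξ w = 0 := by
      intro w hw
      have h1 : ξ w ∈ U.map ξ := Submodule.mem_map_of_mem hw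
      rw [hU, Submodule.mem_bot] at h1
      exact h1
    apply hξ
    have h0 : b1h_f E ξ u = 0 := by
      apply O_ext
      intro x
      rw [b1h_apply, hz _ (h x u hu), O_zero]
    rw [← b1h_one E ξ, ← b1h_der, h0, map_zero, O_zero]
  · intro h x u hu
    by_contra hn
    obtain ⟨ξ, hξ, hU⟩ := U.exists_dual_map_eq_bot_of_notMem hn inferInstance
    have hz : ∀ w ∈ U, ξ w = 0 := by
      intro w hw
      have h1 : ξ w ∈ U.map ξ := Submodule.mem_map_of_mem hw
      rw [hU, Submodule.mem_bot] at h1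
      exact h1
    apply hξ
    have h0 : b1h_f E ξ u = 0 := by
      refine eq_zero_of_der hG (U.map (b1h_f E ξ)) ?_ ?_ _ (Submodule.mem_map_of_mem hu)
      · rintro f ⟨w, hw, rfl⟩
        rw [b1h_one]
        exact hz w hw
      · rintro f ⟨w, hw, rfl⟩ D
        rw [b1h_der]
        exact Submodule.mem_map_of_mem (h D w hw)
    rw [← b1h_apply, h0, O_zero]

end AffGrp

end Pool.Agent.MTF
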