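import Pool.Agent.MTG.B1b

/-! # MTG-B1 : functions and representations of connected groups, via derivatives at `1` -/

namespace Pool.Agent.MTF

open Matrix

namespace AffGrp

variable {G : AffGrp}

/-- the coordinate functions of `ρ(x) v` -/
noncomputable def b1i_f (E : Rep G) (v : E.ι → ℂ) (a : E.ι) : G.O := ∑ b, v b • E.co a b

theorem b1i_f_apply (E : Rep G) (v : E.ι → ℂ) (a : E.ι) (x : G.X) :
    (b1i_f E v a).1 x = (E.ρ x).mulVec v a := by
  unfold b1i_f
  rw [O_sum]
  simp only [Matrix.mulVec, dotProduct]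
  refine Finset.sum_congr rfl fun b _ => ?_
  rw [O_smul, mul_comm]
  rfl

theorem b1i_der_f (E : Rep G) (v : E.ι → ℂ) (a : E.ι) (D : G.Lie) :
    G.der D (b1i_f E v a) = b1i_f E ((E.d D).mulVec v) a := by
  unfold b1i_f
  rw [map_sum]
  simp only [map_smul, Rep.der_co, Finset.smul_sum, smul_smul]
  rw [Finset.sum_comm]
  refine Finset.sum_congr rfl fun c _ => ?_
  rw [← Finset.sum_smul]
  congr 1
  simp only [Matrix.mulVec, dotProduct]
  refine Finset.sum_congr rfl fun b _ => ?_
  rw [mul_comm]

theorem b1i_D_one (D : G.Lie) : D.1 1 = 0 := by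
  have := D.2 1 1
  rw [mul_one] at this
  have h2 : (1 : G.O).1 1 = 1 := rfl
  rw [h2] at this
  linear_combination -this

/-- B1i.  A vector is invariant under a connected group iff it is killed by the Lie algebra.
[`der_co` and `const_of_der` for the coordinates of `ρ(x) v`; conversely apply `D`.] -/
theorem invariant_iff (hG : IsDomain G.O) (E : Rep G) (v : E.ι → ℂ) :
    (∀ x : G.X, (E.ρ x).mulVec v = v) ↔ ∀ D : G.Lie, (E.d D).mulVec v = 0 := by
  constructor
  · intro h D
    funext a
    have h1 : b1i_f E v a = v a • (1 : G.O) := by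
      apply O_ext
      intro x
      rw [b1i_f_apply, h x, O_smul, O_one, mul_one]
    have h2 : D.1 (b1i_f E v a) = 0 := by
      rw [h1, map_smul, b1i_D_one, smul_zero]
    refine Eq.trans ?_ h2
    unfold b1i_f
    rw [map_sum]
    simp only [Matrix.mulVec, dotProduct]
    refine Finset.sum_congr rfl fun b _ => ?_
    rw [map_smul, smul_eq_mul, mul_comm]
    rfl
  · intro h x
    funext a
    have h1 : ∀ D : G.Lie, G.der D (b1i_f E v a) = 0 := by
      intro D
      rw [b1i_der_f, h D]
      unfold b1i_f
      simp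
    have h2 := const_of_der hG (b1i_f E v a) h1 x
    rw [b1i_f_apply, b1i_f_apply, map_one, Matrix.one_mulVec] at h2
    exact h2

end AffGrp

end Pool.Agent.MTF
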