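import Pool.Agent.MTG.W2

/-! # MTG-W : Weyl's theorem (complete reducibility) over `ℂ` -/

namespace Pool.Agent.MTG

open LieModule LieAlgebra

variable {L V : Type} [LieRing L] [LieAlgebra ℂ L] [FiniteDimensional ℂ L] [IsKilling ℂ L]
  [AddCommGroup V] [Module ℂ V] [LieRingModule L V] [LieModule ℂ L V] [FiniteDimensional ℂ V]

omit [FiniteDimensional ℂ L] [IsKilling ℂ L] [FiniteDimensional ℂ V] in
theorem w3_lie (W : LieSubmodule ℂ L V) (x : L) (f : V →ₗ[ℂ] W) {r : ℂ}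
    (hr : ∀ w : W, f w = r • w) (w : W) : (⁅x, f⁆ : V →ₗ[ℂ] W) w = 0 := by
  rw [LieHom.lie_apply]
  have h : ⁅x, (w : V)⁆ = ((⁅x, w⁆ : W) : V) := rfl
  rw [h, hr, hr, lie_smul, sub_self]

/-- the maps to `W` which are scalar on `W` -/
def w3_M1 (W : LieSubmodule ℂ L V) : LieSubmodule ℂ L (V →ₗ[ℂ] W) where
  carrier := {f | ∃ r : ℂ, ∀ w : W, f w = r • w}
  add_mem' := by
    rintro f g ⟨r, hr⟩ ⟨s, hs⟩
    exact ⟨r + s, fun w => by rw [LinearMap.add_apply, hr, hs, add_smul]⟩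
  zero_mem' := ⟨0, fun w => by rw [LinearMap.zero_apply, zero_smul]⟩
  smul_mem' := by
    rintro c f ⟨r, hr⟩
    exact ⟨c * r, fun w => by rw [LinearMap.smul_apply, hr, mul_smul]⟩
  lie_mem := by
    rintro x f ⟨r, hr⟩
    exact ⟨0, fun w => by rw [w3_lie W x f hr w, zero_smul]⟩

/-- the maps to `W` which are zero on `W` -/
def w3_M0 (W : LieSubmodule ℂ L V) : LieSubmodule ℂ L (w3_M1 W) where
  carrier := {f | ∀ w : W, (f : V →ₗ[ℂ] W) w = 0}
  add_mem' := by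
    intro f g hf hg w
    show (f : V →ₗ[ℂ] W) w + (g : V →ₗ[ℂ] W) w = 0
    rw [hf w, hg w, add_zero]
  zero_mem' := fun w => rfl
  smul_mem' := by
    intro c f hf w
    show c • (f : V →ₗ[ℂ] W) w = 0
    rw [hf w, smul_zero]
  lie_mem := by
    rintro x ⟨f, r, hr⟩ - w
    exact w3_lie W x f hr w

/-- W3.  Weyl's theorem.  If `W = ⊥` take `⊤`.  Otherwise let `M = V →ₗ[ℂ] W` (a Lie module by
`⁅x, f⁆ v = ⁅x, f v⁆ - f ⁅x, v⁆`), `M₁ = {f | ∃ r : ℂ, ∀ w : W, f w = r • w}` and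
`M₀ = {f | ∀ w : W, f w = 0}`, Lie submodules with `⁅x, f⁆ ∈ M₀` for `f ∈ M₁`.  A linear projection
onto `W` is in `M₁` and not in `M₀`.  `exists_invariant_of_codim_one` (for the module `M₁` and the
submodule `M₀` of it) gives `f` equivariant with `f w = r • w`, `r ≠ 0`; its kernel is the required
complement. -/
theorem weyl (W : LieSubmodule ℂ L V) : ∃ W' : LieSubmodule ℂ L V, IsCompl W W' := by
  by_cases hW : W = ⊥
  · exact ⟨⊤, by rw [hW]; exact isCompl_bot_top⟩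
  obtain ⟨g, hg⟩ := LinearMap.exists_leftInverse_of_injective (W : Submodule ℂ V).subtype
    (Submodule.ker_subtype _)
  have hg1 : ∀ w : W, g w = w := fun w => LinearMap.congr_fun hg w
  have hgM : g ∈ w3_M1 W := ⟨1, fun w => by rw [one_smul]; exact hg1 w⟩
  have htop : w3_M0 W ≠ ⊤ := by
    intro h
    apply hW
    have h1 : (⟨g, hgM⟩ : w3_M1 W) ∈ w3_M0 W := by
      rw [h]
      exact LieSubmodule.mem_top _
    rw [LieSubmodule.eq_bot_iff]
    intro w hw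
    have h2 : g w = 0 := h1 ⟨w, hw⟩
    have h3 := hg1 ⟨w, hw⟩
    exact congrArg (fun z : W => (z : V)) (h3.symm.trans h2)
  obtain ⟨⟨f, r, hr⟩, hf, hinv⟩ := exists_invariant_of_codim_one (w3_M0 W) (by
    rintro x ⟨f, r, hr⟩ w
    exact w3_lie W x f hr w) htop
  have hr0 : r ≠ 0 := by
    rintro rfl
    apply hf
    intro w
    exact (hr w).trans (zero_smul _ _)
  have hcomm : ∀ (x : L) (v : V), f ⁅x, v⁆ = ⁅x, f v⁆ := by
    intro x v
    have h1 : ⁅x, f⁆ = 0 := congrArg (fun z : w3_M1 W => (z : V →ₗ[ℂ] W)) (hinv x)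
    have h2 := LinearMap.congr_fun h1 v
    rw [LieHom.lie_apply, LinearMap.zero_apply] at h2
    exact (sub_eq_zero.1 h2).symm
  let F : V →ₗ⁅ℂ,L⁆ W := { f with map_lie' := fun {x v} => hcomm x v }
  have hF : ∀ v, F v = f v := fun v => rfl
  refine ⟨F.ker, ?_, ?_⟩
  · rw [disjoint_iff, LieSubmodule.eq_bot_iff]
    intro v hv
    rw [LieSubmodule.mem_inf, LieModuleHom.mem_ker, hF] at hv
    have h1 := hr ⟨v, hv.1⟩
    have h2 : r • (⟨v, hv.1⟩ : W) = 0 := h1.symm.trans hv.2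
    exact congrArg (fun z : W => (z : V)) ((smul_eq_zero.1 h2).resolve_left hr0)
  · rw [codisjoint_iff, eq_top_iff]
    intro v _
    rw [LieSubmodule.mem_sup]
    refine ⟨((r⁻¹ • f v : W) : V), (r⁻¹ • f v : W).2, v - ((r⁻¹ • f v : W) : V), ?_, by abel⟩
    rw [LieModuleHom.mem_ker, hF, map_sub, hr, smul_smul, mul_inv_cancel₀ hr0, one_smul, sub_self]

end Pool.Agent.MTG
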