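import Pool.Agent.MTG.B1h
import Pool.Agent.MTG.W3

/-! # MTG-B1 : functions and representations of connected groups, via derivatives at `1` -/

namespace Pool.Agent.MTF

open Matrix

namespace AffGrp

variable {G : AffGrp}

/-- B1j.  Complete reducibility for the group: `weyl` for the Lie module `E.V` (`Semi.isKilling`)
and `stable_iff`. -/
theorem exists_compl (hG : G.Semi) (E : Rep G) (U : Submodule ℂ (E.ι → ℂ))
    (hU : ∀ (x : G.X), ∀ u ∈ U, (E.ρ x).mulVec u ∈ U) :
    ∃ U' : Submodule ℂ (E.ι → ℂ), IsCompl U U' ∧ ∀ (x : G.X), ∀ u ∈ U', (E.ρ x).mulVec u ∈ U' := by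
  have hK : LieAlgebra.IsKilling ℂ G.Lie := hG.isKilling
  have h1 := (stable_iff hG.dom E U).1 hU
  let W : LieSubmodule ℂ G.Lie E.V := { (U : Submodule ℂ E.V) with
    lie_mem := fun {D u} hu => h1 D u hu }
  obtain ⟨W', hW'⟩ := Pool.Agent.MTG.weyl W
  refine ⟨W'.toSubmodule, ?_, ?_⟩
  · have h2 := (LieSubmodule.isCompl_toSubmodule (N := W) (N' := W')).2 hW'
    exact h2
  · apply (stable_iff hG.dom E W'.toSubmodule).2
    intro D u hu
    exact W'.lie_mem (x := D) (m := u) hu

end AffGrp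

end Pool.Agent.MTF
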