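import Pool.Agent.MTG.W3

/-! # MTG-W : Weyl's theorem (complete reducibility) over `ℂ` -/

namespace Pool.Agent.MTG

open LieModule LieAlgebra

variable {L V : Type} [LieRing L] [LieAlgebra ℂ L] [FiniteDimensional ℂ L] [IsKilling ℂ L]
  [AddCommGroup V] [Module ℂ V] [LieRingModule L V] [LieModule ℂ L V] [FiniteDimensional ℂ V]

/-- W4.  Consequence: `V = V^L ⊕ L V`.  [Let `N` = the span of all `⁅x, v⁆` (a submodule) and `N'` a
complement (`weyl`); for `v ∈ N'`: `⁅x, v⁆ ∈ N ⊓ N' = ⊥`.  So `V = V^L + N`.  If `v ∈ N` is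
invariant: let `C` be a complement of the submodule `ℂ v`; then `N = L V = L (ℂ v) + L C ⊆ C`, so
`v ∈ C ⊓ ℂ v`, `v = 0`.]  (The Lie algebra is `L`, the module `V`.) -/
theorem weyl_invariants (L V : Type) [LieRing L] [LieAlgebra ℂ L] [FiniteDimensional ℂ L]
    [IsKilling ℂ L] [AddCommGroup V] [Module ℂ V] [LieRingModule L V] [LieModule ℂ L V]
    [FiniteDimensional ℂ V] : (∀ v : V, ∃ v₀ v₁ : V, v = v₀ + v₁ ∧ (∀ x : L, ⁅x, v₀⁆ = 0) ∧
      v₁ ∈ Submodule.span ℂ {w : V | ∃ (x : L) (u : V), w = ⁅x, u⁆}) ∧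
    ∀ v ∈ Submodule.span ℂ {w : V | ∃ (x : L) (u : V), w = ⁅x, u⁆}, (∀ x : L, ⁅x, v⁆ = 0) → v = 0 := by
  have key : ∀ (W W' : LieSubmodule ℂ L V), IsCompl W W' → ∀ v : V, ∃ w ∈ W, ∃ w' ∈ W', w + w' = v := by
    intro W W' h v
    have h1 : v ∈ W ⊔ W' := by
      rw [h.sup_eq_top]
      exact LieSubmodule.mem_top v
    exact (LieSubmodule.mem_sup W W' v).1 h1
  have key2 : ∀ (W W' : LieSubmodule ℂ L V), IsCompl W W' → ∀ v : V, v ∈ W → v ∈ W' → v = 0 := by
    intro W W' h v h1 h2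
    have h3 : v ∈ W ⊓ W' := (LieSubmodule.mem_inf W W' v).2 ⟨h1, h2⟩
    rw [h.inf_eq_bot] at h3
    exact (LieSubmodule.mem_bot v).1 h3
  constructor
  · intro v
    let N : LieSubmodule ℂ L V :=
      { Submodule.span ℂ {w : V | ∃ (x : L) (u : V), w = ⁅x, u⁆} with
        lie_mem := fun {x m} _ => Submodule.subset_span ⟨x, m, rfl⟩ }
    obtain ⟨N', hN'⟩ := weyl N
    obtain ⟨v₁, h1, v₀, h0, hv⟩ := key N N' hN' v
    refine ⟨v₀, v₁, ?_, fun x => ?_, h1⟩
    · rw [← hv, add_comm]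
    · exact key2 N N' hN' _ (Submodule.subset_span ⟨x, v₀, rfl⟩) (N'.lie_mem h0)
  · intro v hv hinv
    let P : LieSubmodule ℂ L V :=
      { Submodule.span ℂ {v} with
        lie_mem := fun {x m} hm => by
          obtain ⟨c, rfl⟩ := Submodule.mem_span_singleton.1 hm
          rw [lie_smul, hinv, smul_zero]
          exact (Submodule.span ℂ {v}).zero_mem }
    obtain ⟨C, hC⟩ := weyl P
    have hvP : v ∈ P := Submodule.mem_span_singleton_self v
    refine key2 P C hC v hvP ?_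
    have hle : Submodule.span ℂ {w : V | ∃ (x : L) (u : V), w = ⁅x, u⁆} ≤ C.toSubmodule := by
      rw [Submodule.span_le]
      rintro w ⟨x, u, rfl⟩
      obtain ⟨p, hp, c, hc, rfl⟩ := key P C hC u
      obtain ⟨a, rfl⟩ := Submodule.mem_span_singleton.1 hp
      have h2 : ⁅x, a • v + c⁆ = ⁅x, c⁆ := by
        rw [lie_add, lie_smul, hinv, smul_zero, zero_add]
      change ⁅x, a • v + c⁆ ∈ C
      rw [h2]
      exact C.lie_mem hc
    exact hle hv

end Pool.Agent.MTG
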