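import Pool.Agent.MTG.B1b
import Pool.Agent.MTG.B1c
import Pool.Agent.MTG.B1d
import Pool.Agent.MTG.W4

/-! # MTG-B1 : functions and representations of connected groups, via derivatives at `1` -/

namespace Pool.Agent.MTF

open Matrix

namespace AffGrp

variable {G : AffGrp}

/-- A right-stable finite-dimensional space of functions as a module of the Lie algebra. -/
theorem b1k_map (U : Submodule ℂ G.O) [FiniteDimensional ℂ U]
    (hU : ∀ f ∈ U, ∀ x : G.X, G.rt x f ∈ U) :
    ∃ (E : Rep G) (T : E.V →ₗ[ℂ] G.O), Function.Injective T ∧ (∀ f ∈ U, ∃ v, T v = f) ∧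
      ∀ (D : G.Lie) (v : E.V), G.der D (T v) = T ⁅D, v⁆ := by
  obtain ⟨E, u, hu⟩ := exists_rep_of_stable U hU
  let T0 : (E.ι → ℂ) →ₗ[ℂ] G.O := U.subtype ∘ₗ (u.equivFun.symm : (E.ι → ℂ) →ₗ[ℂ] U)
  have hT0 : ∀ v : E.ι → ℂ, T0 v = ∑ b, v b • (u b).1 := by
    intro v
    show (u.equivFun.symm v).1 = _
    rw [Module.Basis.equivFun_symm_apply]
    rw [← Submodule.coe_subtype, map_sum]
    rfl
  have hinj : Function.Injective T0 := by
    intro v w hvw
    have h1 : u.equivFun.symm v = u.equivFun.symm w := Subtype.ext hvw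
    exact u.equivFun.symm.injective h1
  have hsurj : ∀ f ∈ U, ∃ v, T0 v = f := by
    intro f hf
    refine ⟨u.equivFun ⟨f, hf⟩, ?_⟩
    show (u.equivFun.symm (u.equivFun ⟨f, hf⟩)).1 = f
    rw [LinearEquiv.symm_apply_apply]
  have hder : ∀ (D : G.Lie) (b : E.ι), G.der D (u b).1 = ∑ a, E.d D a b • (u a).1 := by
    intro D b
    apply AffGrp.O_ext
    intro x
    rw [AffGrp.der_apply, AffGrp.O_sum]
    have h1 : G.lt x (u b).1 = ∑ a, ((u a).1).1 x • E.co a b := by
      apply AffGrp.O_ext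
      intro y
      rw [AffGrp.O_sum]
      show ((u b).1).1 (x * y) = _
      rw [hu y x b]
      refine Finset.sum_congr rfl fun a _ => ?_
      rw [AffGrp.O_smul, Rep.co_apply, mul_comm]
    rw [h1, map_sum]
    refine Finset.sum_congr rfl fun a _ => ?_
    rw [map_smul, AffGrp.O_smul, smul_eq_mul, mul_comm]
    rfl
  have hder2 : ∀ (D : G.Lie) (v : E.ι → ℂ), G.der D (T0 v) = T0 ((E.d D).mulVec v) := by
    intro D v
    rw [hT0, hT0, map_sum]
    have h1 : ∀ b, G.der D (v b • (u b).1) = ∑ a, (E.d D a b * v b) • (u a).1 := by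
      intro b
      rw [map_smul, hder, Finset.smul_sum]
      refine Finset.sum_congr rfl fun a _ => ?_
      rw [smul_smul, mul_comm]
    rw [Finset.sum_congr rfl fun b _ => h1 b, Finset.sum_comm]
    refine Finset.sum_congr rfl fun a _ => ?_
    rw [← Finset.sum_smul]
    rfl
  exact ⟨E, T0, hinj, hsurj, hder2⟩

theorem b1k_der_one (D : G.Lie) : G.der D (1 : G.O) = 0 := by
  have h1 := G.der_leib D 1 1
  rw [mul_one, one_mul] at h1
  have h2 : G.der D (1 : G.O) + 0 = G.der D (1 : G.O) + G.der D (1 : G.O) := by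
    rw [add_zero]; exact h1
  exact (add_left_cancel h2).symm

/-- B1k.  Let `N ≤ G.O` be the span of all `der D f`.  Every `f ∈ G.O` is `c • 1 + g`, `g ∈ N`, and
`1 ∉ N`.  [`f` lies in a finite-dimensional right-stable subspace containing `1`
(`exists_rt_stable`), hence corresponds to a vector of a representation `E` (`exists_rep_of_stable`)
in which `der D` is the action of the Lie algebra (`der D u_b = ∑ a, E.d D a b • u_a`); apply
`weyl_invariants` to `E.V`: invariants are the functions with all `der D f = 0`, i.e. constants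
(`const_of_der`).  If `1 = ∑ der D_i f_i`, do this for a subspace containing `1` and all `f_i`.] -/
theorem O_decomp (hG : G.Semi) :
    (∀ f : G.O, ∃ (c : ℂ) (g : G.O), f = c • 1 + g ∧
      g ∈ Submodule.span ℂ {g : G.O | ∃ (D : G.Lie) (f : G.O), g = G.der D f}) ∧
    (1 : G.O) ∉ Submodule.span ℂ {g : G.O | ∃ (D : G.Lie) (f : G.O), g = G.der D f} := by
  classical
  have hK : LieAlgebra.IsKilling ℂ G.Lie := hG.isKilling
  set N : Submodule ℂ G.O :=
    Submodule.span ℂ {g : G.O | ∃ (D : G.Lie) (f : G.O), g = G.der D f} with hN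
  refine ⟨?_, ?_⟩
  · intro f
    obtain ⟨U, hUf, hs, hU⟩ := exists_rt_stable ({f} : Finset G.O)
    obtain ⟨E, T, hinj, hsurj, hder⟩ := b1k_map U hU
    obtain ⟨v, hv⟩ := hsurj f (hs f (Finset.mem_singleton_self f))
    obtain ⟨v0, v1, hv01, hv0, hv1⟩ := (Pool.Agent.MTG.weyl_invariants G.Lie E.V).1 v
    have h0 : ∀ D : G.Lie, G.der D (T v0) = 0 := by
      intro D
      rw [hder, hv0, map_zero]
    have hc := const_of_der hG.dom (T v0) h0
    refine ⟨(T v0).1 1, T v1, ?_, ?_⟩
    · rw [← hv, hv01, map_add]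
      congr 1
      apply AffGrp.O_ext
      intro x
      rw [AffGrp.O_smul, AffGrp.O_one, mul_one]
      exact hc x
    · refine Submodule.span_induction (p := fun w _ => T w ∈ N) ?_ ?_ ?_ ?_ hv1
      · rintro _ ⟨D, w, rfl⟩
        rw [← hder]
        exact Submodule.subset_span ⟨D, T w, rfl⟩
      · rw [map_zero]
        exact N.zero_mem
      · intro a b _ _ ha hb
        rw [map_add]
        exact N.add_mem ha hb
      · intro c a _ ha
        rw [map_smul]
        exact N.smul_mem c ha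
  · intro h1
    obtain ⟨t, ht, h1t⟩ := Submodule.mem_span_finite_of_mem_span h1
    have hch : ∀ g : G.O, ∃ (D : G.Lie) (f : G.O), g ∈ t → g = G.der D f := by
      intro g
      by_cases hg : g ∈ t
      · obtain ⟨D, f, h⟩ := ht (Finset.mem_coe.2 hg)
        exact ⟨D, f, fun _ => h⟩
      · exact ⟨0, 0, fun h => absurd h hg⟩
    choose Dg Fg hDF using hch
    obtain ⟨U, hUf, hs, hU⟩ := exists_rt_stable (t.image Fg)
    obtain ⟨E, T, hinj, hsurj, hder⟩ := b1k_map U hU
    have hT : ∃ v ∈ Submodule.span ℂ {w : E.V | ∃ (x : G.Lie) (u : E.V), w = ⁅x, u⁆},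
        T v = 1 := by
      refine Submodule.span_induction (p := fun g _ =>
        ∃ v ∈ Submodule.span ℂ {w : E.V | ∃ (x : G.Lie) (u : E.V), w = ⁅x, u⁆}, T v = g)
        ?_ ?_ ?_ ?_ h1t
      · intro g hg
        have hg' := Finset.mem_coe.1 hg
        obtain ⟨v, hv⟩ := hsurj (Fg g) (hs _ (Finset.mem_image_of_mem _ hg'))
        refine ⟨⁅Dg g, v⁆, Submodule.subset_span ⟨Dg g, v, rfl⟩, ?_⟩
        rw [← hder, hv]
        exact (hDF g hg').symm
      · exact ⟨0, Submodule.zero_mem _, map_zero T⟩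
      · rintro a b _ _ ⟨v, hv, rfl⟩ ⟨w, hw, rfl⟩
        exact ⟨v + w, Submodule.add_mem _ hv hw, map_add T v w⟩
      · rintro c a _ ⟨v, hv, rfl⟩
        exact ⟨c • v, Submodule.smul_mem _ c hv, map_smul T c v⟩
    obtain ⟨v, hv, hv1⟩ := hT
    have hinv : ∀ D : G.Lie, ⁅D, v⁆ = 0 := by
      intro D
      apply hinj
      rw [← hder, hv1, map_zero]
      exact b1k_der_one D
    have hv0 := (Pool.Agent.MTG.weyl_invariants G.Lie E.V).2 v hv hinv
    rw [hv0, map_zero] at hv1
    have h2 : (0 : G.O).1 1 = (1 : G.O).1 1 := by rw [hv1]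
    rw [AffGrp.O_zero, AffGrp.O_one] at h2
    exact zero_ne_one h2

end AffGrp

end Pool.Agent.MTF
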