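import Pool.Agent.MTG.B1k

/-! # MTG-B1 : functions and representations of connected groups, via derivatives at `1` -/

namespace Pool.Agent.MTF

open Matrix

namespace AffGrp

variable {G : AffGrp}

theorem b1l_rt_der (x : G.X) (D : G.Lie) (f : G.O) :
    G.rt x (G.der D f) = G.der (G.Ad x D) (G.rt x f) := by
  apply O_ext
  intro y
  show D.1 (G.lt (y * x) f) = D.1 (G.cj x (G.lt y (G.rt x f)))
  congr 1
  apply O_ext
  intro z
  show f.1 (y * x * z) = f.1 (y * (x * z * x⁻¹) * x)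
  have h : y * (x * z * x⁻¹) * x = y * x * z := by group
  rw [h]

/-- B1l (CR).  `I f` is the constant `c` in `O_decomp`.  It is linear and `I 1 = 1`; `I (der D f) = 0`;
`f = c • 1 + ∑ der D_i f_i` gives `lt x f = c • 1 + ∑ der D_i (lt x f_i)` (`der_lt`), so `I` is left
invariant; and `rt x (der D f) = der (Ad x⁻¹.. D) (rt x f)`: `f (y x exp(tD)..)`; precisely
`G.der (G.Ad x D) (..)`: `(rt x (der D f)) y = D (z ↦ f (y x z)) = D (z ↦ (rt x f) (y (x z x⁻¹))) =
(Ad x D) (lt y (rt x f)) = (der (Ad x D) (rt x f)) y`. -/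
theorem exists_reynolds (hG : G.Semi) : ∃ I : Module.Dual ℂ G.O, I 1 = 1 ∧
    (∀ x f, I (G.lt x f) = I f) ∧ ∀ x f, I (G.rt x f) = I f := by
  obtain ⟨hdec, hone⟩ := O_decomp hG
  obtain ⟨J, hJ1, hJ2⟩ := Submodule.exists_dual_map_eq_bot_of_notMem hone inferInstance
  have hJN : ∀ g ∈ Submodule.span ℂ {g : G.O | ∃ (D : G.Lie) (f : G.O), g = G.der D f}, J g = 0 := by
    intro g hg
    have h1 : J g ∈ Submodule.map J (Submodule.span ℂ {g : G.O | ∃ (D : G.Lie) (f : G.O), g = G.der D f}) :=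
      Submodule.mem_map_of_mem hg
    rw [hJ2] at h1
    exact h1
  have hI : ∀ (T : G.O →ₗ[ℂ] G.O), T 1 = 1 → (∀ (D : G.Lie) (f : G.O), ∃ (D' : G.Lie) (f' : G.O),
      T (G.der D f) = G.der D' f') → ∀ f, J (T f) = J f := by
    intro T hT1 hTd f
    obtain ⟨c, g, hf, hg⟩ := hdec f
    have h2 : T g ∈ Submodule.span ℂ {g : G.O | ∃ (D : G.Lie) (f : G.O), g = G.der D f} := by
      have h3 : Submodule.span ℂ {g : G.O | ∃ (D : G.Lie) (f : G.O), g = G.der D f} ≤
          (Submodule.span ℂ {g : G.O | ∃ (D : G.Lie) (f : G.O), g = G.der D f}).comap T := by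
        rw [Submodule.span_le]
        rintro _ ⟨D, f, rfl⟩
        obtain ⟨D', f', h⟩ := hTd D f
        exact Submodule.subset_span ⟨D', f', h⟩
      exact h3 hg
    rw [hf, map_add, map_add, map_add, hJN _ h2, hJN _ hg, map_smul T, hT1]
  refine ⟨(J 1)⁻¹ • J, ?_, ?_, ?_⟩
  · rw [LinearMap.smul_apply, smul_eq_mul, inv_mul_cancel₀ hJ1]
  · intro x f
    rw [LinearMap.smul_apply, LinearMap.smul_apply, hI (G.lt x) rfl (fun D f => ⟨D, G.lt x f, (G.der_lt D x f).symm⟩)]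
  · intro x f
    rw [LinearMap.smul_apply, LinearMap.smul_apply, hI (G.rt x) rfl (fun D f => ⟨G.Ad x D, G.rt x f, b1l_rt_der x D f⟩)]

end AffGrp

end Pool.Agent.MTF
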