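import Pool.Agent.MTG.B1a
import Pool.Agent.MTG.B1b
import Pool.Agent.MTG.B1c
import Pool.Agent.MTG.B1d
import Pool.Agent.MTG.B1e
import Pool.Agent.MTG.B1f
import Pool.Agent.MTG.B1g
import Pool.Agent.MTG.B1h
import Pool.Agent.MTG.B1i
import Pool.Agent.MTG.B1j
import Pool.Agent.MTG.B1k
import Pool.Agent.MTG.B1l
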