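import Pool.Agent.MTG.B0

/-! # MTG-B1 : functions and representations of connected groups, via derivatives at `1` -/

namespace Pool.Agent.MTF

open Matrix

namespace AffGrp

variable {G : AffGrp}

/-- the maximal ideal of the point `1` -/
def b1a_m (G : AffGrp) : Ideal G.O where
  carrier := {f | f.1 1 = 0}
  add_mem' := by
    intro f g hf hg
    show (f + g).1 1 = 0
    rw [O_add, show f.1 1 = 0 from hf, show g.1 1 = 0 from hg, add_zero]
  zero_mem' := rfl
  smul_mem' := by
    intro c f hf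
    show (c * f).1 1 = 0
    rw [O_mul, show f.1 1 = 0 from hf, mul_zero]

theorem b1a_mem (f : G.O) : f ∈ b1a_m G ↔ f.1 1 = 0 := Iff.rfl

theorem b1a_D1 (D : G.Lie) : D.1 1 = 0 := by
  have h := D.2 1 1
  rw [mul_one, O_one] at h
  linear_combination -h

/-- the evaluation at `1` as a linear map -/
def b1a_ev (G : AffGrp) : G.O →ₗ[ℂ] ℂ where
  toFun f := f.1 1
  map_add' _ _ := rfl
  map_smul' _ _ := rfl

/-- elements of the ideal on which all point derivations vanish -/
theorem b1a_sq {y : G.O} (hy : y.1 1 = 0) (h : ∀ D : G.Lie, D.1 y = 0) : y ∈ b1a_m G ^ 2 := by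
  by_contra hn
  have hn' : y ∉ (b1a_m G ^ 2).restrictScalars ℂ := hn
  obtain ⟨l, hl, hl2⟩ := Submodule.exists_dual_map_eq_bot_of_notMem hn' inferInstance
  have hker : ∀ z ∈ b1a_m G ^ 2, l z = 0 := by
    intro z hz
    have h1 : l z ∈ ((b1a_m G ^ 2).restrictScalars ℂ).map l := ⟨z, hz, rfl⟩
    rw [hl2] at h1
    exact h1
  have hD : ∀ f g : G.O, l (f * g - (f * g).1 1 • 1) =
      f.1 1 * l (g - g.1 1 • 1) + g.1 1 * l (f - f.1 1 • 1) := by
    intro f g
    have h1 : f * g - (f * g).1 1 • (1 : G.O) = f.1 1 • (g - g.1 1 • 1) + g.1 1 • (f - f.1 1 • 1) +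
        (f - f.1 1 • 1) * (g - g.1 1 • 1) := by
      apply O_ext
      intro x
      simp only [O_sub, O_add, O_mul, O_smul, O_one]
      ring
    have hm : ∀ f : G.O, f - f.1 1 • (1 : G.O) ∈ b1a_m G := by
      intro f
      rw [b1a_mem, O_sub, O_smul, O_one]
      ring
    have h2 : (f - f.1 1 • (1 : G.O)) * (g - g.1 1 • 1) ∈ b1a_m G ^ 2 := by
      rw [pow_two]
      exact Ideal.mul_mem_mul (hm f) (hm g)
    rw [h1, map_add, map_add, map_smul, map_smul, hker _ h2, add_zero, smul_eq_mul, smul_eq_mul]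
  have hDl : ∀ f : G.O, (l ∘ₗ (LinearMap.id - (b1a_ev G).smulRight (1 : G.O))) f =
      l (f - f.1 1 • 1) := fun f => rfl
  have h3 := h ⟨l ∘ₗ (LinearMap.id - (b1a_ev G).smulRight (1 : G.O)), by
    intro f g
    rw [hDl, hDl, hDl]
    exact hD f g⟩
  change l (y - y.1 1 • 1) = 0 at h3
  rw [hy, zero_smul, sub_zero] at h3
  exact hl h3

/-- dual vectors -/
theorem b1a_dual (G : AffGrp) : ∃ (r : ℕ) (x : Fin r → G.O) (D : Fin r → G.Lie),
    (∀ i, (x i).1 1 = 0) ∧ ∀ y : G.O, y.1 1 = 0 → y - ∑ i, (D i).1 y • x i ∈ b1a_m G ^ 2 := by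
  let b := Module.finBasis ℂ G.Lie
  have hinj : Function.Injective (G.Lie.subtype : G.Lie →ₗ[ℂ] Module.Dual ℂ G.O) :=
    Subtype.val_injective
  have hsurj := LinearMap.flip_surjective_iff₁.2 hinj
  choose z hz using fun i => hsurj (b.coord i)
  have hz' : ∀ i (D : G.Lie), D.1 (z i) = b.coord i D := fun i D => by
    rw [← hz i]
    rfl
  refine ⟨_, fun i => z i - (z i).1 1 • 1, fun i => b i, ?_, ?_⟩
  · intro i
    rw [O_sub, O_smul, O_one]
    ring
  · intro y hy
    refine b1a_sq ?_ ?_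
    · rw [O_sub, O_sum, hy, zero_sub, neg_eq_zero]
      refine Finset.sum_eq_zero fun i _ => ?_
      rw [O_smul, O_sub, O_smul, O_one]
      ring
    · intro D
      have h1 : ∀ i, D.1 (z i - (z i).1 1 • 1) = b.coord i D := by
        intro i
        rw [map_sub, map_smul, b1a_D1, smul_zero, sub_zero, hz']
      rw [map_sub, map_sum]
      simp only [map_smul, h1, smul_eq_mul]
      have h2 : D = ∑ i, b.coord i D • b i := (b.sum_repr D).symm
      have h3 : D.1 y = ∑ i, b.coord i D * (b i).1 y := by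
        conv_lhs => rw [h2]
        rw [AddSubmonoidClass.coe_finsetSum, LinearMap.sum_apply]
        rfl
      rw [h3, sub_eq_zero]
      exact Finset.sum_congr rfl fun i _ => mul_comm _ _

/-- B1a (Krull).  Let `𝔪 = {f | f.1 1 = 0}`, an ideal of the noetherian domain `G.O` (finitely
generated algebra), `𝔪 ≠ ⊤`, so `⨅ k, 𝔪 ^ k = ⊥` (`Ideal.iInf_pow_eq_bot_of_isDomain`).  We show
`J ≤ 𝔪 ^ k` for all `k` by induction; `k = 0, 1` is clear.  Let `x_1..x_r ∈ 𝔪` be functions whose
classes form a basis of `𝔪 / 𝔪²` (finite-dimensional), `D_1..D_r ∈ G.Lie` the dual point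
derivations (`D_i f = ` the `i`-th coordinate of the class of `f - f(1)` in `𝔪/𝔪²`).  The derivation
`E := ∑ x_i · der D_i` of `G.O` satisfies `E y - y ∈ 𝔪²` for `y ∈ 𝔪` (for `y = x_j`:
`(der D_i x_j - δ_ij)(1) = 0`; for `y ∈ 𝔪²`: `E y ∈ 𝔪²`), hence `E y - k • y ∈ 𝔪 ^ (k + 1)` for
`y ∈ 𝔪 ^ k` (Leibniz, products of `k` elements of `𝔪`).  If `J ≤ 𝔪 ^ k`, `k ≥ 1`, and `f ∈ J` then
`der D_i f ∈ J`, so `E f ∈ 𝔪 * J ≤ 𝔪 ^ (k + 1)` and `k • f ∈ 𝔪 ^ (k + 1)`. -/
theorem eq_zero_of_der (hG : IsDomain G.O) (J : Submodule ℂ G.O) (h1 : ∀ f ∈ J, f.1 1 = 0)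
    (h2 : ∀ f ∈ J, ∀ D : G.Lie, G.der D f ∈ J) (f : G.O) (hf : f ∈ J) : f = 0 := by
  obtain ⟨r, x, D, hx, hy⟩ := b1a_dual G
  have : IsNoetherianRing G.O := by
    have : Algebra.FiniteType ℂ G.O := (Subalgebra.fg_iff_finiteType G.O).1 G.fg
    exact Algebra.FiniteType.isNoetherianRing ℂ G.O
  have htop : b1a_m G ≠ ⊤ := by
    intro h
    have h3 : (1 : G.O) ∈ b1a_m G := by
      rw [h]
      exact Submodule.mem_top
    rw [b1a_mem, O_one] at h3
    exact one_ne_zero h3
  obtain ⟨E, hE⟩ : ∃ E : G.O → G.O, ∀ f, E f = ∑ i, x i * G.der (D i) f := ⟨_, fun _ => rfl⟩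
  have hxm : ∀ i, x i ∈ b1a_m G := hx
  have hEm : ∀ f g, E (f * g) = f * E g + g * E f := by
    intro f g
    rw [hE, hE, hE, Finset.mul_sum, Finset.mul_sum, ← Finset.sum_add_distrib]
    refine Finset.sum_congr rfl fun i _ => ?_
    rw [der_leib]
    ring
  have hEa : ∀ f g, E (f + g) = E f + E g := by
    intro f g
    rw [hE, hE, hE, ← Finset.sum_add_distrib]
    refine Finset.sum_congr rfl fun i _ => ?_
    rw [map_add, mul_add]
  -- first order
  have hE1 : ∀ y ∈ b1a_m G, E y - y ∈ b1a_m G ^ 2 := by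
    intro y hym
    have h3 := hy y hym
    have h4 : E y - ∑ i, (D i).1 y • x i ∈ b1a_m G ^ 2 := by
      rw [hE, ← Finset.sum_sub_distrib]
      refine Ideal.sum_mem _ fun i _ => ?_
      have h5 : x i * G.der (D i) y - (D i).1 y • x i = x i * (G.der (D i) y - (D i).1 y • 1) := by
        rw [mul_sub, mul_smul_comm, mul_one]
      rw [h5, pow_two]
      refine Ideal.mul_mem_mul (hxm i) ?_
      rw [b1a_mem, O_sub, O_smul, O_one, der_one]
      ring
    have h5 : E y - y = (E y - ∑ i, (D i).1 y • x i) - (y - ∑ i, (D i).1 y • x i) := by ring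
    rw [h5]
    exact Ideal.sub_mem _ h4 h3
  -- all orders
  have hEk : ∀ k : ℕ, ∀ y ∈ b1a_m G ^ k, E y - (k : G.O) * y ∈ b1a_m G ^ (k + 1) := by
    intro k
    induction k with
    | zero =>
      intro y _
      rw [Nat.cast_zero, zero_mul, sub_zero, zero_add, pow_one, hE]
      exact Ideal.sum_mem _ fun i _ => Ideal.mul_mem_right _ _ (hxm i)
    | succ k ih =>
      intro y hyk
      rw [pow_succ] at hyk
      refine Submodule.mul_induction_on hyk ?_ ?_
      · intro a ha b hb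
        have h3 : E (a * b) - ((k + 1 : ℕ) : G.O) * (a * b) =
            a * (E b - b) + b * (E a - (k : G.O) * a) := by
          rw [hEm, Nat.cast_succ]
          ring
        rw [h3]
        refine Ideal.add_mem _ ?_ ?_
        · have h4 : b1a_m G ^ (k + 1 + 1) = b1a_m G ^ k * b1a_m G ^ 2 := by rw [← pow_add]
          rw [h4]
          exact Ideal.mul_mem_mul ha (hE1 b hb)
        · rw [pow_succ' (b1a_m G) (k + 1)]
          exact Ideal.mul_mem_mul hb (ih a ha)
      · intro a b ha hb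
        have h3 : E (a + b) - ((k + 1 : ℕ) : G.O) * (a + b) =
            (E a - ((k + 1 : ℕ) : G.O) * a) + (E b - ((k + 1 : ℕ) : G.O) * b) := by
          rw [hEa]
          ring
        rw [h3]
        exact Ideal.add_mem _ ha hb
  -- the induction
  have hJ : ∀ k : ℕ, ∀ g ∈ J, g ∈ b1a_m G ^ k := by
    intro k
    induction k with
    | zero =>
      intro g _
      rw [pow_zero, Ideal.one_eq_top]
      exact Submodule.mem_top
    | succ k ih =>
      intro g hg
      rcases Nat.eq_zero_or_pos k with h0 | h0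
      · rw [h0, zero_add, pow_one]
        exact h1 g hg
      · have h3 := hEk k g (ih g hg)
        have h4 : E g ∈ b1a_m G ^ (k + 1) := by
          rw [hE, pow_succ']
          exact Ideal.sum_mem _ fun i _ => Ideal.mul_mem_mul (hxm i) (ih _ (h2 g hg (D i)))
        have h5 : (k : G.O) * g ∈ b1a_m G ^ (k + 1) := by
          have h6 := Ideal.sub_mem _ h4 h3
          rwa [sub_sub_cancel] at h6
        have h6 : g = ((k : ℂ)⁻¹ • (1 : G.O)) * ((k : G.O) * g) := by
          have hk : (k : ℂ) ≠ 0 := Nat.cast_ne_zero.2 (by omega)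
          have h7 : (k : G.O) = (k : ℂ) • (1 : G.O) := by
            rw [← Algebra.algebraMap_eq_smul_one, map_natCast]
          rw [h7, smul_mul_assoc, one_mul, smul_mul_assoc, one_mul, smul_smul, inv_mul_cancel₀ hk,
            one_smul]
        rw [h6]
        exact Ideal.mul_mem_left _ _ h5
  have hbot : (⨅ k : ℕ, b1a_m G ^ k) = ⊥ := Ideal.iInf_pow_eq_bot_of_isDomain _ htop
  have hfin : f ∈ (⨅ k : ℕ, b1a_m G ^ k) := by
    rw [Submodule.mem_iInf]
    exact fun k => hJ k f hf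
  rw [hbot] at hfin
  exact hfin

end AffGrp

end Pool.Agent.MTF
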