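import Pool.Agent.MTX.R0

/-! # MTG, Part G : root data of semisimple groups, definitions

`RD n` : a (reduced, semisimple, not necessarily irreducible) root datum with character lattice
`X = Fin n → ℤ`, with a positive definite Weyl invariant integral form `D.B`.
`D.Rt` the roots, `D.cp γ x = ⟨x, γ^∨⟩`, `D.rf γ` the reflections, `D.Pos γ` : `γ` is
lexicographically positive, `D.W` the Weyl group (as a group of automorphisms of `X`),
`D.Aff = X ⋊ W` the extended affine Weyl group, `D.ARt` the affine roots: `(γ, k)` is the affine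
function `p ↦ ⟨p, γ^∨⟩ + k` on `X`. -/

namespace Pool.Agent.MTG

open Pool.Agent.MTX (bil)

section bil
variable {n : ℕ} (C : Matrix (Fin n) (Fin n) ℤ)

theorem bil_add_left (x x' y : Fin n → ℤ) : bil C (x + x') y = bil C x y + bil C x' y := by
  simp only [bil, Pi.add_apply, ← Finset.sum_add_distrib]
  exact Finset.sum_congr rfl fun i _ => Finset.sum_congr rfl fun j _ => by ring

theorem bil_add_right (x y y' : Fin n → ℤ) : bil C x (y + y') = bil C x y + bil C x y' := by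
  simp only [bil, Pi.add_apply, ← Finset.sum_add_distrib]
  exact Finset.sum_congr rfl fun i _ => Finset.sum_congr rfl fun j _ => by ring

theorem bil_smul_left (k : ℤ) (x y : Fin n → ℤ) : bil C (k • x) y = k * bil C x y := by
  simp only [bil, Pi.smul_apply, smul_eq_mul, Finset.mul_sum]
  exact Finset.sum_congr rfl fun i _ => Finset.sum_congr rfl fun j _ => by ring

theorem bil_smul_right (k : ℤ) (x y : Fin n → ℤ) : bil C x (k • y) = k * bil C x y := by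
  simp only [bil, Pi.smul_apply, smul_eq_mul, Finset.mul_sum]
  exact Finset.sum_congr rfl fun i _ => Finset.sum_congr rfl fun j _ => by ring

theorem bil_comm (h : ∀ i j, C i j = C j i) (x y : Fin n → ℤ) : bil C x y = bil C y x := by
  simp only [bil]
  rw [Finset.sum_comm]
  exact Finset.sum_congr rfl fun i _ => Finset.sum_congr rfl fun j _ => by rw [h]; ring

end bil

/-- Root datum of a semisimple group. -/
structure RD (n : ℕ) where
  /-- the Gram matrix of an invariant form on `X` -/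
  C : Matrix (Fin n) (Fin n) ℤ
  /-- the roots -/
  Φ : Finset (Fin n → ℤ)
  symm : ∀ i j, C i j = C j i
  posdef : ∀ x : Fin n → ℤ, x ≠ 0 → 0 < bil C x x
  zero_notMem : (0 : Fin n → ℤ) ∉ Φ
  even : ∀ γ ∈ Φ, 2 ∣ bil C γ γ
  integ : ∀ γ ∈ Φ, ∀ x, bil C γ γ ∣ 2 * bil C γ x
  refl : ∀ γ ∈ Φ, ∀ δ ∈ Φ, δ - (2 * bil C γ δ / bil C γ γ) • γ ∈ Φ
  red : ∀ γ ∈ Φ, ∀ δ ∈ Φ, ∀ a b : ℤ, a • γ = b • δ → δ ≠ γ → δ ≠ -γ → a = 0 ∧ b = 0
  span : ∀ x, (∀ γ ∈ Φ, bil C γ x = 0) → x = 0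

namespace RD

variable {n : ℕ} (D : RD n)

/-- the form -/
def B (x y : Fin n → ℤ) : ℤ := bil D.C x y

theorem B_add_left (x x' y : Fin n → ℤ) : D.B (x + x') y = D.B x y + D.B x' y :=
  bil_add_left _ _ _ _

theorem B_comm (x y : Fin n → ℤ) : D.B x y = D.B y x := bil_comm _ D.symm _ _

theorem B_add_right (x y y' : Fin n → ℤ) : D.B x (y + y') = D.B x y + D.B x y' :=
  bil_add_right _ _ _ _

theorem B_smul_left (k : ℤ) (x y : Fin n → ℤ) : D.B (k • x) y = k * D.B x y :=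
  bil_smul_left _ _ _ _

theorem B_smul_right (k : ℤ) (x y : Fin n → ℤ) : D.B x (k • y) = k * D.B x y :=
  bil_smul_right _ _ _ _

theorem B_neg_left (x y : Fin n → ℤ) : D.B (-x) y = - D.B x y := by
  have := D.B_smul_left (-1) x y
  simpa using this

theorem B_neg_right (x y : Fin n → ℤ) : D.B x (-y) = - D.B x y := by
  rw [B_comm, B_neg_left, B_comm]

theorem B_sub_left (x x' y : Fin n → ℤ) : D.B (x - x') y = D.B x y - D.B x' y := by
  rw [sub_eq_add_neg, B_add_left, B_neg_left]; ring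

theorem B_sub_right (x y y' : Fin n → ℤ) : D.B x (y - y') = D.B x y - D.B x y' := by
  rw [sub_eq_add_neg, B_add_right, B_neg_right]; ring

theorem B_zero_left (y : Fin n → ℤ) : D.B 0 y = 0 := by simp [B, bil]

theorem B_zero_right (y : Fin n → ℤ) : D.B y 0 = 0 := by simp [B, bil]

theorem B_pos {x : Fin n → ℤ} (h : x ≠ 0) : 0 < D.B x x := D.posdef x h

theorem B_nonneg (x : Fin n → ℤ) : 0 ≤ D.B x x := by
  by_cases h : x = 0
  · rw [h, B_zero_left]
  · exact (D.B_pos h).le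

/-- the roots -/
abbrev Rt := {γ : Fin n → ℤ // γ ∈ D.Φ}

theorem Rt_ne (γ : D.Rt) : γ.1 ≠ 0 := fun h => D.zero_notMem (h ▸ γ.2)

theorem BRt_pos (γ : D.Rt) : 0 < D.B γ.1 γ.1 := D.B_pos (D.Rt_ne γ)

/-- the pairing `⟨x, γ^∨⟩` -/
def cp (γ : D.Rt) (x : Fin n → ℤ) : ℤ := 2 * D.B γ.1 x / D.B γ.1 γ.1

theorem cp_mul (γ : D.Rt) (x : Fin n → ℤ) : D.cp γ x * D.B γ.1 γ.1 = 2 * D.B γ.1 x :=
  Int.ediv_mul_cancel (D.integ γ.1 γ.2 x)

/-- uniqueness of the pairing -/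
theorem cp_eq (γ : D.Rt) {x : Fin n → ℤ} {k : ℤ} (h : k * D.B γ.1 γ.1 = 2 * D.B γ.1 x) :
    D.cp γ x = k := by
  have h1 := D.cp_mul γ x
  rw [← h] at h1
  exact mul_right_cancel₀ (D.BRt_pos γ).ne' h1

/-- half of the square of a root -/
def cf (γ : D.Rt) : ℤ := D.B γ.1 γ.1 / 2

theorem two_cf (γ : D.Rt) : 2 * D.cf γ = D.B γ.1 γ.1 := Int.mul_ediv_cancel' (D.even γ.1 γ.2)

theorem cf_pos (γ : D.Rt) : 0 < D.cf γ := by
  have h1 := D.two_cf γ
  have h2 := D.BRt_pos γ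
  omega

theorem cp_cf (γ : D.Rt) (x : Fin n → ℤ) : D.cp γ x * D.cf γ = D.B γ.1 x := by
  have h1 := D.cp_mul γ x
  have h2 := D.two_cf γ
  have : 2 * (D.cp γ x * D.cf γ) = 2 * D.B γ.1 x := by
    linear_combination h1 + D.cp γ x * h2
  exact mul_left_cancel₀ two_ne_zero this

theorem cp_self (γ : D.Rt) : D.cp γ γ.1 = 2 := D.cp_eq γ rfl

theorem cp_add (γ : D.Rt) (x y : Fin n → ℤ) : D.cp γ (x + y) = D.cp γ x + D.cp γ y :=
  D.cp_eq γ (by rw [add_mul, cp_mul, cp_mul, B_add_right]; ring)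

theorem cp_smul (γ : D.Rt) (k : ℤ) (x : Fin n → ℤ) : D.cp γ (k • x) = k * D.cp γ x :=
  D.cp_eq γ (by rw [mul_assoc, cp_mul, B_smul_right]; ring)

theorem cp_neg (γ : D.Rt) (x : Fin n → ℤ) : D.cp γ (-x) = - D.cp γ x :=
  D.cp_eq γ (by rw [neg_mul, cp_mul, B_neg_right]; ring)

theorem cp_sub (γ : D.Rt) (x y : Fin n → ℤ) : D.cp γ (x - y) = D.cp γ x - D.cp γ y := by
  rw [sub_eq_add_neg, cp_add, cp_neg]; ring

theorem cp_zero (γ : D.Rt) : D.cp γ 0 = 0 := D.cp_eq γ (by rw [B_zero_right]; ring)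

/-- the reflection `x ↦ x - ⟨x, γ^∨⟩ γ` -/
def rf (γ : D.Rt) (x : Fin n → ℤ) : Fin n → ℤ := x - D.cp γ x • γ.1

theorem rf_mem (γ δ : D.Rt) : D.rf γ δ.1 ∈ D.Φ := D.refl γ.1 γ.2 δ.1 δ.2

theorem rf_self (γ : D.Rt) : D.rf γ γ.1 = -γ.1 := by
  rw [rf, cp_self]; module

/-- the negative of a root -/
def ng (γ : D.Rt) : D.Rt := ⟨-γ.1, by rw [← D.rf_self γ]; exact D.rf_mem γ γ⟩

theorem ng_val (γ : D.Rt) : (D.ng γ).1 = -γ.1 := rfl

theorem ng_ng (γ : D.Rt) : D.ng (D.ng γ) = γ := Subtype.ext (neg_neg _)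

theorem cp_ng (γ : D.Rt) (x : Fin n → ℤ) : D.cp (D.ng γ) x = - D.cp γ x :=
  D.cp_eq _ (by
    rw [ng_val, B_neg_left, B_neg_right, neg_neg, B_neg_left, neg_mul, cp_mul]; ring)

theorem cp_rf (γ : D.Rt) (x : Fin n → ℤ) : D.cp γ (D.rf γ x) = - D.cp γ x := by
  rw [rf, cp_sub, cp_smul, cp_self]; ring

theorem rf_rf (γ : D.Rt) (x : Fin n → ℤ) : D.rf γ (D.rf γ x) = x := by
  have h := D.cp_rf γ x
  rw [rf, h, rf]; module

theorem rf_add (γ : D.Rt) (x y : Fin n → ℤ) : D.rf γ (x + y) = D.rf γ x + D.rf γ y := by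
  simp only [rf, cp_add]; module

theorem rf_smul (γ : D.Rt) (k : ℤ) (x : Fin n → ℤ) : D.rf γ (k • x) = k • D.rf γ x := by
  simp only [rf, cp_smul]; module

theorem B_rf (γ : D.Rt) (x y : Fin n → ℤ) : D.B (D.rf γ x) (D.rf γ y) = D.B x y := by
  simp only [rf, B_sub_left, B_sub_right, B_smul_left, B_smul_right, D.B_comm x γ.1]
  have h1 := D.cp_mul γ x
  have h2 := D.cp_mul γ y
  have h3 : D.cp γ x * D.B γ.1 y = D.cp γ y * D.B γ.1 x := by
    have : 2 * (D.cp γ x * D.B γ.1 y) = 2 * (D.cp γ y * D.B γ.1 x) := by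
      linear_combination D.cp γ y * h1 - D.cp γ x * h2
    exact mul_left_cancel₀ two_ne_zero this
  linear_combination D.cp γ x * h2 + h3

/-- the reflection as an automorphism of `X` -/
def rl (γ : D.Rt) : (Fin n → ℤ) ≃ₗ[ℤ] (Fin n → ℤ) where
  toFun := D.rf γ
  invFun := D.rf γ
  left_inv := D.rf_rf γ
  right_inv := D.rf_rf γ
  map_add' := D.rf_add γ
  map_smul' := D.rf_smul γ

/-- the Weyl group -/
def W : Subgroup ((Fin n → ℤ) ≃ₗ[ℤ] (Fin n → ℤ)) := Subgroup.closure (Set.range D.rl)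

/-- Weyl group elements preserve the form and the roots. -/
theorem W_prop {u : (Fin n → ℤ) ≃ₗ[ℤ] (Fin n → ℤ)} (hu : u ∈ D.W) :
    (∀ x y, D.B (u x) (u y) = D.B x y) ∧ ∀ γ : D.Rt, u γ.1 ∈ D.Φ := by
  induction hu using Subgroup.closure_induction with
  | mem x hx =>
    obtain ⟨γ, rfl⟩ := hx
    exact ⟨fun x y => D.B_rf γ x y, fun δ => D.rf_mem γ δ⟩
  | one => exact ⟨fun _ _ => rfl, fun γ => γ.2⟩
  | mul u v _ _ hu hv =>
    exact ⟨fun x y => (hu.1 _ _).trans (hv.1 x y), fun γ => hu.2 ⟨_, hv.2 γ⟩⟩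
  | inv u hu' hu =>
    have h1 : ∀ z, u (u⁻¹ z) = z := fun z => by
      show (u * u⁻¹) z = z
      rw [mul_inv_cancel]; rfl
    refine ⟨fun x y => ?_, fun γ => ?_⟩
    · have h := hu.1 (u⁻¹ x) (u⁻¹ y)
      rw [h1, h1] at h
      exact h.symm
    · have hinj : Function.Injective (fun δ : D.Rt => (⟨u δ.1, hu.2 δ⟩ : D.Rt)) := by
        intro δ δ' h
        exact Subtype.ext (u.injective (congrArg Subtype.val h))
      obtain ⟨δ, hδ⟩ := (Finite.injective_iff_surjective.1 hinj) γ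
      have h2 : u δ.1 = γ.1 := congrArg Subtype.val hδ
      have h3 : u⁻¹ γ.1 = δ.1 := by
        rw [← h2]
        show (u⁻¹ * u) δ.1 = δ.1
        rw [inv_mul_cancel]; rfl
      rw [h3]
      exact δ.2

/-- the reflection as an element of the Weyl group -/
def rW (γ : D.Rt) : D.W := ⟨D.rl γ, Subgroup.subset_closure ⟨γ, rfl⟩⟩

theorem rW_apply (γ : D.Rt) (x : Fin n → ℤ) : (D.rW γ).1 x = D.rf γ x := rfl

theorem B_W (u : D.W) (x y : Fin n → ℤ) : D.B (u.1 x) (u.1 y) = D.B x y := (D.W_prop u.2).1 x y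

/-- The Weyl group acts on the roots. -/
instance : MulAction D.W D.Rt where
  smul u γ := ⟨u.1 γ.1, (D.W_prop u.2).2 γ⟩
  one_smul _ := rfl
  mul_smul _ _ _ := rfl

theorem smul_val (u : D.W) (γ : D.Rt) : (u • γ).1 = u.1 γ.1 := rfl

theorem cp_smul_W (u : D.W) (γ : D.Rt) (x : Fin n → ℤ) : D.cp (u • γ) (u.1 x) = D.cp γ x :=
  D.cp_eq _ (by rw [smul_val, B_W, B_W, cp_mul])

theorem smul_ng (u : D.W) (γ : D.Rt) : u • D.ng γ = D.ng (u • γ) :=
  Subtype.ext (map_neg u.1 γ.1)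

/-- positive roots -/
def Pos (γ : D.Rt) : Prop := 0 < toLex γ.1

noncomputable instance : DecidablePred D.Pos := Classical.decPred _

/-- positive roots, as a type -/
abbrev PRt := {γ : D.Rt // D.Pos γ}

/-- simple roots -/
def Sim (γ : D.Rt) : Prop := D.Pos γ ∧ ∀ δ : D.Rt, D.Pos δ → δ ≠ γ → D.Pos (D.rW γ • δ)

/-- simple roots, as a type -/
abbrev SRt := {γ : D.Rt // D.Sim γ}

/-- dominant weights -/
def Dom (x : Fin n → ℤ) : Prop := ∀ γ : D.Rt, D.Pos γ → 0 ≤ D.cp γ x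

/-- `⟨x, 2 ρ^∨⟩` -/
noncomputable def ht2 (x : Fin n → ℤ) : ℤ := ∑ γ : D.PRt, D.cp γ.1 x

/-- The extended affine group `X ⋊ W`: `(l, u) · p = u p + l`. -/
structure Aff (D : RD n) where
  l : Fin n → ℤ
  u : D.W

@[ext] theorem Aff.ext' {D : RD n} {w w' : D.Aff} (h1 : w.l = w'.l) (h2 : w.u = w'.u) :
    w = w' := by
  cases w; cases w'; cases h1; cases h2; rfl

instance : Group D.Aff where
  mul w w' := ⟨w.l + w.u.1 w'.l, w.u * w'.u⟩
  one := ⟨0, 1⟩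
  inv w := ⟨-(w.u⁻¹).1 w.l, w.u⁻¹⟩
  mul_assoc := by
    intro a b c
    apply Aff.ext'
    · show (a.l + a.u.1 b.l) + (a.u * b.u).1 c.l = a.l + a.u.1 (b.l + b.u.1 c.l)
      rw [map_add, add_assoc]; rfl
    · exact mul_assoc _ _ _
  one_mul := by
    intro a
    apply Aff.ext'
    · show 0 + (1 : D.W).1 a.l = a.l
      rw [zero_add]; rfl
    · exact one_mul _
  mul_one := by
    intro a
    apply Aff.ext'
    · show a.l + a.u.1 0 = a.l
      rw [map_zero, add_zero]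
    · exact mul_one _
  inv_mul_cancel := by
    intro a
    apply Aff.ext'
    · show -(a.u⁻¹).1 a.l + (a.u⁻¹).1 a.l = 0
      exact neg_add_cancel _
    · exact inv_mul_cancel _

theorem mul_l (w w' : D.Aff) : (w * w').l = w.l + w.u.1 w'.l := rfl
theorem mul_u (w w' : D.Aff) : (w * w').u = w.u * w'.u := rfl
theorem one_l : (1 : D.Aff).l = 0 := rfl
theorem one_u : (1 : D.Aff).u = 1 := rfl
theorem inv_l (w : D.Aff) : (w⁻¹).l = -(w.u⁻¹).1 w.l := rfl
theorem inv_u (w : D.Aff) : (w⁻¹).u = w.u⁻¹ := rfl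

/-- the Weyl group inside `Aff` -/
def emb : D.W →* D.Aff where
  toFun u := ⟨0, u⟩
  map_one' := rfl
  map_mul' u v := by
    apply Aff.ext'
    · show (0 : Fin n → ℤ) = 0 + u.1 0
      rw [map_zero, add_zero]
    · rfl

theorem emb_l (u : D.W) : (D.emb u).l = 0 := rfl
theorem emb_u (u : D.W) : (D.emb u).u = u := rfl

/-- affine roots: `(γ, k)` is the function `p ↦ ⟨p, γ^∨⟩ + k` on `X` -/
abbrev ARt := D.Rt × ℤ

/-- `(l, u) (γ, k) = (u γ, k - ⟨l, (u γ)^∨⟩)` -/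
instance : MulAction D.Aff D.ARt where
  smul w b := (w.u • b.1, b.2 - D.cp (w.u • b.1) w.l)
  one_smul b := by
    show ((1 : D.W) • b.1, b.2 - D.cp _ 0) = b
    rw [cp_zero, sub_zero, one_smul]
  mul_smul w w' b := by
    show ((w.u * w'.u) • b.1, b.2 - D.cp ((w.u * w'.u) • b.1) (w.l + w.u.1 w'.l)) =
      (w.u • w'.u • b.1, (b.2 - D.cp (w'.u • b.1) w'.l) - D.cp (w.u • w'.u • b.1) w.l)
    rw [mul_smul]
    refine Prod.ext rfl ?_
    show b.2 - D.cp (w.u • w'.u • b.1) (w.l + w.u.1 w'.l) =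
      (b.2 - D.cp (w'.u • b.1) w'.l) - D.cp (w.u • w'.u • b.1) w.l
    rw [cp_add, cp_smul_W]
    ring

theorem smul_fst (w : D.Aff) (b : D.ARt) : (w • b).1 = w.u • b.1 := rfl
theorem smul_snd (w : D.Aff) (b : D.ARt) : (w • b).2 = b.2 - D.cp (w.u • b.1) w.l := rfl

/-- `s_b = (-k γ, s_γ)` -/
def aref (b : D.ARt) : D.Aff := ⟨-(b.2 • b.1.1), D.rW b.1⟩

/-- `-(γ, k)` -/
def ang (b : D.ARt) : D.ARt := (D.ng b.1, -b.2)

/-- `(γ, k) > 0` -/
def apos (b : D.ARt) : Prop := 0 < b.2 ∨ (b.2 = 0 ∧ D.Pos b.1)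

/-- simple affine roots -/
def ASim (b : D.ARt) : Prop := D.apos b ∧ ∀ c : D.ARt, D.apos c → c ≠ b → D.apos (D.aref b • c)

/-- simple affine roots, as a type (the letters of the words) -/
abbrev SA := {b : D.ARt // D.ASim b}

end RD

end Pool.Agent.MTG
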