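import Pool.Agent.MTG.G0

/-! # MTG, Part G : elementary facts on root data -/

namespace Pool.Agent.MTG

open Pool.Agent.MTX (bil)

namespace RD

variable {n : ℕ} (D : RD n)

theorem W_inv_apply (u : D.W) (x : Fin n → ℤ) : u.1 ((u⁻¹).1 x) = x := by
  show ((u * u⁻¹).1) x = x
  rw [mul_inv_cancel]; rfl

theorem W_inv_apply' (u : D.W) (x : Fin n → ℤ) : (u⁻¹).1 (u.1 x) = x := by
  show ((u⁻¹ * u).1) x = x
  rw [inv_mul_cancel]; rfl

theorem B_inv (u : D.W) (x y : Fin n → ℤ) : D.B ((u⁻¹).1 x) y = D.B x (u.1 y) := by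
  rw [← D.B_W u, W_inv_apply]

theorem cp_smul' (u : D.W) (γ : D.Rt) (x : Fin n → ℤ) : D.cp (u • γ) x = D.cp γ ((u⁻¹).1 x) := by
  rw [← D.cp_smul_W u γ ((u⁻¹).1 x), W_inv_apply]

theorem cf_smul (u : D.W) (γ : D.Rt) : D.cf (u • γ) = D.cf γ := by
  show D.B (u.1 γ.1) (u.1 γ.1) / 2 = _
  rw [B_W]; rfl

theorem rW_sq (γ : D.Rt) : D.rW γ * D.rW γ = 1 :=
  Subtype.ext (LinearEquiv.ext fun x => D.rf_rf γ x)

theorem rW_inv (γ : D.Rt) : (D.rW γ)⁻¹ = D.rW γ := inv_eq_of_mul_eq_one_right (D.rW_sq γ)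

theorem rW_ng (γ : D.Rt) : D.rW (D.ng γ) = D.rW γ :=
  Subtype.ext (LinearEquiv.ext fun x => by
    show D.rf (D.ng γ) x = D.rf γ x
    rw [rf, rf, cp_ng, ng_val, neg_smul, smul_neg, neg_neg])

theorem rW_smul (u : D.W) (γ : D.Rt) : D.rW (u • γ) = u * D.rW γ * u⁻¹ :=
  Subtype.ext (LinearEquiv.ext fun x => by
    show D.rf (u • γ) x = u.1 (D.rf γ ((u⁻¹).1 x))
    rw [rf, rf, map_sub, map_smul, W_inv_apply, cp_smul', smul_val])

theorem rW_self (γ : D.Rt) : D.rW γ • γ = D.ng γ := Subtype.ext (D.rf_self γ)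

theorem pos_ng (γ : D.Rt) : D.Pos (D.ng γ) ↔ ¬ D.Pos γ := by
  unfold Pos
  have h0 : toLex γ.1 ≠ 0 := fun h => D.Rt_ne γ h
  have h1 : toLex (D.ng γ).1 = - toLex γ.1 := rfl
  rw [h1]
  constructor
  · intro h h2
    have := add_pos h h2
    rw [neg_add_cancel] at this
    exact lt_irrefl _ this
  · intro h
    have h3 : toLex γ.1 < 0 := lt_of_le_of_ne (not_lt.1 h) h0
    exact neg_pos.2 h3

theorem cp_rW (γ δ : D.Rt) (x : Fin n → ℤ) :
    D.cp (D.rW γ • δ) x = D.cp δ x - D.cp δ γ.1 * D.cp γ x := by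
  rw [cp_smul', rW_inv]
  show D.cp δ (D.rf γ x) = _
  rw [rf, cp_sub, cp_smul]; ring

/-- symmetry of the sign of the pairing -/
theorem cp_comm (γ δ : D.Rt) : D.cp γ δ.1 * D.cf γ = D.cp δ γ.1 * D.cf δ := by
  rw [cp_cf, cp_cf, B_comm]

theorem cp_pos_iff (γ δ : D.Rt) : 0 < D.cp γ δ.1 ↔ 0 < D.cp δ γ.1 := by
  have h := D.cp_comm γ δ
  have h1 := D.cf_pos γ
  have h2 := D.cf_pos δ
  constructor
  · intro h3
    by_contra h4
    have : 0 < D.cp γ δ.1 * D.cf γ := mul_pos h3 h1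
    rw [h] at this
    have := mul_nonpos_of_nonpos_of_nonneg (not_lt.1 h4) h2.le
    omega
  · intro h3
    by_contra h4
    have : 0 < D.cp δ γ.1 * D.cf δ := mul_pos h3 h2
    rw [← h] at this
    have := mul_nonpos_of_nonpos_of_nonneg (not_lt.1 h4) h1.le
    omega

/-- Cauchy–Schwarz -/
theorem B_sq_le (x y : Fin n → ℤ) : D.B x y ^ 2 ≤ D.B x x * D.B y y := by
  by_cases hy : y = 0
  · rw [hy, B_zero_right, B_zero_left]; norm_num
  · have h1 : 0 < D.B y y := D.B_pos hy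
    have h2 := D.B_nonneg (D.B y y • x - D.B x y • y)
    have h3 : D.B (D.B y y • x - D.B x y • y) (D.B y y • x - D.B x y • y) =
        D.B y y * (D.B x x * D.B y y - D.B x y ^ 2) := by
      simp only [B_sub_left, B_sub_right, B_smul_left, B_smul_right, D.B_comm y x]
      ring
    rw [h3] at h2
    have := nonneg_of_mul_nonneg_right h2 h1
    linarith

/-- strict Cauchy–Schwarz for roots that are not opposite or equal -/
theorem B_sq_lt {γ δ : D.Rt} (h1 : δ ≠ γ) (h2 : δ ≠ D.ng γ) :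
    D.B γ.1 δ.1 ^ 2 < D.B γ.1 γ.1 * D.B δ.1 δ.1 := by
  have h3 : 0 < D.B δ.1 δ.1 := D.BRt_pos δ
  have h4 : D.B δ.1 δ.1 • γ.1 - D.B γ.1 δ.1 • δ.1 ≠ 0 := by
    intro h
    have := D.red γ.1 γ.2 δ.1 δ.2 _ _ (sub_eq_zero.1 h) (fun h' => h1 (Subtype.ext h'))
      (fun h' => h2 (Subtype.ext h'))
    omega
  have h5 := D.B_pos h4
  have h6 : D.B (D.B δ.1 δ.1 • γ.1 - D.B γ.1 δ.1 • δ.1) (D.B δ.1 δ.1 • γ.1 - D.B γ.1 δ.1 • δ.1) =
      D.B δ.1 δ.1 * (D.B γ.1 γ.1 * D.B δ.1 δ.1 - D.B γ.1 δ.1 ^ 2) := by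
    simp only [B_sub_left, B_sub_right, B_smul_left, B_smul_right, D.B_comm δ.1 γ.1]
    ring
  rw [h6] at h5
  have := (pos_iff_pos_of_mul_pos h5).1 h3
  linarith

/-- the product of the two pairings is at most `3` -/
theorem cp_mul_cp {γ δ : D.Rt} (h1 : δ ≠ γ) (h2 : δ ≠ D.ng γ) :
    D.cp γ δ.1 * D.cp δ γ.1 ≤ 3 := by
  have h3 := D.B_sq_lt h1 h2
  have h4 := D.cp_mul γ δ.1
  have h5 := D.cp_mul δ γ.1
  have h6 := D.BRt_pos γ
  have h7 := D.BRt_pos δ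
  have h8 : (D.cp γ δ.1 * D.cp δ γ.1) * (D.B γ.1 γ.1 * D.B δ.1 δ.1) = 4 * D.B γ.1 δ.1 ^ 2 := by
    rw [D.B_comm δ.1 γ.1] at h5
    linear_combination (D.cp δ γ.1 * D.B δ.1 δ.1) * h4 + 2 * D.B γ.1 δ.1 * h5
  by_contra h9
  push Not at h9
  have h10 : 4 * (D.B γ.1 γ.1 * D.B δ.1 δ.1) ≤
      (D.cp γ δ.1 * D.cp δ γ.1) * (D.B γ.1 γ.1 * D.B δ.1 δ.1) :=
    mul_le_mul_of_nonneg_right (by omega) (mul_pos h6 h7).le
  rw [h8] at h10
  linarith

/-- if `⟨δ, γ^∨⟩ ≥ 2` for `δ ≠ γ`, then `⟨γ, δ^∨⟩ = 1` -/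
theorem cp_eq_one {γ δ : D.Rt} (h1 : δ ≠ γ) (h : 2 ≤ D.cp γ δ.1) : D.cp δ γ.1 = 1 := by
  have h2 : δ ≠ D.ng γ := by
    rintro rfl
    rw [ng_val, cp_neg, cp_self] at h; omega
  have h3 := D.cp_mul_cp h1 h2
  have h4 : 0 < D.cp δ γ.1 := (D.cp_pos_iff γ δ).1 (by omega)
  nlinarith

theorem cp_le_three {γ δ : D.Rt} (h1 : δ ≠ γ) : D.cp γ δ.1 ≤ 3 := by
  by_contra h
  push Not at h
  have h2 : δ ≠ D.ng γ := by
    rintro rfl
    rw [ng_val, cp_neg, cp_self] at h; omega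
  have h3 := D.cp_mul_cp h1 h2
  have h4 := D.cp_eq_one h1 (by omega)
  rw [h4] at h3; omega

/-- an element of the Weyl group is determined by its action on the roots -/
theorem W_ext {u v : D.W} (h : ∀ γ : D.Rt, u • γ = v • γ) : u = v := by
  have key : ∀ w : D.W, (∀ γ : D.Rt, w • γ = γ) → w = 1 := by
    intro w hw
    refine Subtype.ext (LinearEquiv.ext fun x => ?_)
    show w.1 x = x
    have h1 : w.1 x - x = 0 := by
      refine D.span _ fun γ hγ => ?_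
      show D.B γ (w.1 x - x) = 0
      have h2 : w.1 γ = γ := congrArg Subtype.val (hw ⟨γ, hγ⟩)
      rw [B_sub_right]
      conv_lhs => rw [← h2]
      rw [B_W, h2, sub_self]
    exact sub_eq_zero.1 h1
  have h1 : v⁻¹ * u = 1 := key _ fun γ => by rw [mul_smul, h, ← mul_smul, inv_mul_cancel, one_smul]
  exact (inv_mul_eq_one.1 h1).symm

instance : Finite D.W :=
  Finite.of_injective (fun (u : D.W) (γ : D.Rt) => u • γ) fun _ _ h =>
    D.W_ext fun γ => congrFun h γ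

noncomputable instance : Fintype D.W := Fintype.ofFinite _

/-- determinant of the form, and the vectors dual to the coordinates -/
theorem B_eq_dot (x y : Fin n → ℤ) : D.B x y = x ⬝ᵥ (D.C.mulVec y) := by
  simp only [B, bil, dotProduct, Matrix.mulVec, Finset.mul_sum]
  exact Finset.sum_congr rfl fun i _ => Finset.sum_congr rfl fun j _ => by ring

theorem det_ne : D.C.det ≠ 0 := by
  intro h
  obtain ⟨v, hv, h0⟩ := Matrix.exists_mulVec_eq_zero_iff.2 h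
  have := D.posdef v hv
  have h2 : bil D.C v v = 0 := by
    have := D.B_eq_dot v v
    rw [h0, dotProduct_zero] at this
    exact this
  omega

theorem B_nondeg (x : Fin n → ℤ) (h : ∀ y, D.B x y = 0) : x = 0 := by
  by_contra hx
  exact absurd (h x) (D.posdef x hx).ne'

/-- every integral functional is, up to a positive multiple, given by the form -/
theorem exists_dual (f : Fin n → ℤ) : ∃ (p : Fin n → ℤ) (d : ℤ), 0 < d ∧
    ∀ x : Fin n → ℤ, D.B p x = d * ∑ i, f i * x i := by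
  refine ⟨D.C.det • D.C.adjugate.mulVec f, D.C.det ^ 2, by
    have := D.det_ne; positivity, fun x => ?_⟩
  rw [B_comm, B_smul_right, B_eq_dot, Matrix.mulVec_mulVec, Matrix.mul_adjugate, Matrix.smul_mulVec,
    Matrix.one_mulVec, dotProduct_smul, smul_eq_mul]
  have : x ⬝ᵥ f = ∑ i, f i * x i := by
    simp only [dotProduct]
    exact Finset.sum_congr rfl fun i _ => mul_comm _ _
  rw [this]; ring

end RD

end Pool.Agent.MTG
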