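import Pool.Agent.MTG.G1
import Pool.Agent.MTX.R2b

/-! # MTG, Part G : the actions on `R = ℂ[x_1, …, x_n, ħ]` (`ħ = X none`) and on `A = ℂ[x_1, …, x_n]`

`RR n`, `AA n`, `lin`, `fm x k` (the form `x + k ħ`), `fm0 x`, `rho` (`ħ ↦ 0`) are those of
`MTX/R2a, R2b`. -/

namespace Pool.Agent.MTG

open MvPolynomial
open Pool.Agent.MTX (lin lin_add lin_smul lin_neg lin_sub lin_zero lin_sum coeff_lin lin_inj
  lin_ne_zero lin_irreducible lin_prime lin_totalDegree_le lin_totalDegree lin_dvd_lin lin_single
  aeval_lin exists_not_mem_subspaces)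
open Pool.Agent.MTX.SLD (RR AA fc fm fm0 fc_add fc_smul fc_ne_zero fm_add fm_smul fm_zero fm_h
  fm_al fm_neg fm_sum fm0_add fm0_smul fm0_zero fm0_neg fm0_sub fm0_al fm0_ne_zero fm0_prime
  fm_prime rho rho_none rho_some rho_fm rho_surj rho_ker prime_h)

theorem eq_sum_single {n : ℕ} (x : Fin n → ℤ) : x = ∑ i, x i • (Pi.single i 1 : Fin n → ℤ) := by
  funext j
  simp [Finset.sum_apply, Pi.single_apply]

namespace RD

variable {n : ℕ} (D : RD n)

/-! ### the action of the Weyl group on `A` -/

/-- the action of a Weyl group element on `A` -/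
noncomputable def actO (u : D.W) : AA n →ₐ[ℂ] AA n := aeval fun i => fm0 (u.1 (Pi.single i 1))

theorem actO_fm0 (u : D.W) (x : Fin n → ℤ) : D.actO u (fm0 x) = fm0 (u.1 x) := by
  have h1 : x = ∑ i, x i • (Pi.single i 1 : Fin n → ℤ) := eq_sum_single x
  have h2 : fm0 x = ∑ i, MvPolynomial.C (x i : ℂ) * fm0 (Pi.single i 1 : Fin n → ℤ) := by
    rw [fm0, lin]
    exact Finset.sum_congr rfl fun i _ => by rw [fm0_al]
  have h3 : ∀ (s : Finset (Fin n)), fm0 (∑ i ∈ s, x i • u.1 (Pi.single i 1 : Fin n → ℤ)) =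
      ∑ i ∈ s, MvPolynomial.C (x i : ℂ) * fm0 (u.1 (Pi.single i 1 : Fin n → ℤ)) := by
    intro s
    classical
    induction s using Finset.induction_on with
    | empty => simp [fm0_zero]
    | insert a s ha ih => rw [Finset.sum_insert ha, Finset.sum_insert ha, fm0_add, fm0_smul, ih]
  rw [h2, map_sum]
  conv_rhs => rw [h1, map_sum]
  simp only [map_smul]
  rw [h3]
  refine Finset.sum_congr rfl fun i _ => ?_
  rw [map_mul, fm0_al]
  unfold actO
  rw [aeval_X, algHom_C, algebraMap_eq]

theorem actO_X (u : D.W) (i : Fin n) : D.actO u (X i) = fm0 (u.1 (Pi.single i 1)) := by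
  rw [← fm0_al, actO_fm0]

theorem actO_one : D.actO 1 = AlgHom.id ℂ _ := by
  apply algHom_ext
  intro i
  rw [actO_X, AlgHom.id_apply, ← fm0_al]; rfl

theorem actO_mul (u v : D.W) : D.actO (u * v) = (D.actO u).comp (D.actO v) := by
  apply algHom_ext
  intro i
  rw [actO_X, AlgHom.comp_apply, actO_X, actO_fm0]; rfl

noncomputable instance instWA : MulSemiringAction D.W (AA n) where
  smul u p := D.actO u p
  one_smul p := by show D.actO 1 p = p; rw [actO_one]; rfl
  mul_smul u v p := by show D.actO (u * v) p = D.actO u (D.actO v p); rw [actO_mul]; rfl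
  smul_zero u := map_zero _
  smul_add u p q := map_add _ _ _
  smul_one u := map_one _
  smul_mul u p q := map_mul _ _ _

theorem W_smul_def (u : D.W) (p : AA n) : u • p = D.actO u p := rfl

/-- the action of the affine group on `A`: through the finite part -/
noncomputable instance instAffA : MulSemiringAction D.Aff (AA n) where
  smul w p := D.actO w.u p
  one_smul p := one_smul D.W p
  mul_smul w w' p := mul_smul w.u w'.u p
  smul_zero u := map_zero _
  smul_add u p q := map_add _ _ _
  smul_one u := map_one _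
  smul_mul u p q := map_mul _ _ _

theorem Aff_smul_A (w : D.Aff) (p : AA n) : w • p = w.u • p := rfl

theorem smul_fm0 (u : D.W) (x : Fin n → ℤ) : u • (fm0 x : AA n) = fm0 (u.1 x) := D.actO_fm0 u x

theorem smul_C (u : D.W) (z : ℂ) : u • (MvPolynomial.C z : AA n) = MvPolynomial.C z := algHom_C (D.actO u) z

/-! ### the action of the affine group on `R` -/

/-- the action of an element of the affine group on `R` -/
noncomputable def actR (w : D.Aff) : RR n →ₐ[ℂ] RR n := aeval fun
  | none => X none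
  | some i => fm (w.u.1 (Pi.single i 1)) (- D.B w.l (w.u.1 (Pi.single i 1)))

theorem actR_none (w : D.Aff) : D.actR w (X none) = X none := by
  unfold actR; rw [aeval_X]

theorem actR_some (w : D.Aff) (i : Fin n) : D.actR w (X (some i)) =
    fm (w.u.1 (Pi.single i 1)) (- D.B w.l (w.u.1 (Pi.single i 1))) := by
  unfold actR; rw [aeval_X]

theorem actR_fm (w : D.Aff) (x : Fin n → ℤ) (k : ℤ) :
    D.actR w (fm x k) = fm (w.u.1 x) (k - D.B w.l (w.u.1 x)) := by
  have h1 : x = ∑ i, x i • (Pi.single i 1 : Fin n → ℤ) := eq_sum_single x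
  have h2 : fm x k = ∑ i, MvPolynomial.C (x i : ℂ) * X (some i) + MvPolynomial.C (k : ℂ) * X none := by
    rw [fm, lin, Fintype.sum_option, add_comm]; rfl
  have h3 : ∀ (s : Finset (Fin n)), fm (w.u.1 (∑ i ∈ s, x i • (Pi.single i 1 : Fin n → ℤ)))
      (- D.B w.l (w.u.1 (∑ i ∈ s, x i • (Pi.single i 1 : Fin n → ℤ)))) =
      ∑ i ∈ s, MvPolynomial.C (x i : ℂ) * fm (w.u.1 (Pi.single i 1 : Fin n → ℤ))
        (- D.B w.l (w.u.1 (Pi.single i 1 : Fin n → ℤ))) := by
    intro s
    classical
    induction s using Finset.induction_on with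
    | empty => simp [B_zero_right, fm_zero]
    | insert a s ha ih =>
      rw [Finset.sum_insert ha, Finset.sum_insert ha, map_add, B_add_right, neg_add, fm_add, ih,
        map_smul, B_smul_right, ← mul_neg, fm_smul]
  have h4 : fm (w.u.1 x) (k - D.B w.l (w.u.1 x)) =
      fm (w.u.1 x) (- D.B w.l (w.u.1 x)) + MvPolynomial.C (k : ℂ) * fm (0 : Fin n → ℤ) 1 := by
    rw [← fm_smul, ← fm_add]
    congr 1
    · simp
    · ring
  rw [h4, fm_h]
  conv_rhs => rw [h1, h3]
  rw [h2, map_add, map_sum]
  congr 1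
  · refine Finset.sum_congr rfl fun i _ => ?_
    rw [map_mul, actR_some, algHom_C, algebraMap_eq]
  · rw [map_mul, actR_none, algHom_C, algebraMap_eq]

theorem actR_one : D.actR 1 = AlgHom.id ℂ _ := by
  apply algHom_ext
  intro i
  cases i with
  | none => rw [actR_none]; rfl
  | some i =>
    rw [← fm_al, actR_fm, one_l, B_zero_left, sub_zero]
    rfl

theorem actR_mul (w w' : D.Aff) : D.actR (w * w') = (D.actR w).comp (D.actR w') := by
  apply algHom_ext
  intro i
  cases i with
  | none => rw [AlgHom.comp_apply, actR_none, actR_none, actR_none]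
  | some i =>
    rw [← fm_al, AlgHom.comp_apply, actR_fm, actR_fm, actR_fm]
    have h1 : (w * w').u.1 (Pi.single i 1) = w.u.1 (w'.u.1 (Pi.single i 1)) := rfl
    rw [h1, mul_l, B_add_left, B_W]
    congr 1
    ring

noncomputable instance instAffR : MulSemiringAction D.Aff (RR n) where
  smul w p := D.actR w p
  one_smul p := by show D.actR 1 p = p; rw [actR_one]; rfl
  mul_smul u v p := by show D.actR (u * v) p = D.actR u (D.actR v p); rw [actR_mul]; rfl
  smul_zero u := map_zero _
  smul_add u p q := map_add _ _ _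
  smul_one u := map_one _
  smul_mul u p q := map_mul _ _ _

theorem Aff_smul_R (w : D.Aff) (p : RR n) : w • p = D.actR w p := rfl

theorem smul_fm (w : D.Aff) (x : Fin n → ℤ) (k : ℤ) :
    w • (fm x k : RR n) = fm (w.u.1 x) (k - D.B w.l (w.u.1 x)) := D.actR_fm w x k

/-- the form of an affine root `(γ, k)`: `γ + k (γ, γ) / 2 ħ` -/
noncomputable def af (b : D.ARt) : RR n := fm b.1.1 (b.2 * D.cf b.1)

theorem af_smul (w : D.Aff) (b : D.ARt) : D.af (w • b) = w • D.af b := by
  rw [af, af, smul_fm, smul_fst, smul_snd, cf_smul, smul_val]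
  congr 1
  have h := D.cp_cf (w.u • b.1) w.l
  rw [cf_smul, smul_val, B_comm] at h
  linear_combination -h

/-! ### reduction modulo `ħ` -/

theorem rho_equiv (w : D.Aff) (p : RR n) : rho (w • p) = w • (rho p : AA n) := by
  have : rho.comp (D.actR w) = (D.actO w.u).comp rho := by
    apply algHom_ext
    intro i
    cases i with
    | none => rw [AlgHom.comp_apply, AlgHom.comp_apply, actR_none, rho_none, map_zero]
    | some i => rw [AlgHom.comp_apply, AlgHom.comp_apply, actR_some, rho_fm, rho_some, actO_X]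
  exact DFunLike.congr_fun this p

theorem h_ndvd (b : D.ARt) : ¬ (X none : RR n) ∣ D.af b := by
  rw [← rho_ker, af, rho_fm]
  exact fm0_ne_zero (D.Rt_ne b.1)

end RD

end Pool.Agent.MTG
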