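import Pool.Agent.MTG.G2
import Pool.Agent.MTX.S12a

/-! # MTG, Part G : the affine instance of `AS` (port of MTX/R2c.lean, R2d.lean)

`D.aff : AS (RR n) D.Aff D.ARt D.SA`, letters = simple affine roots. -/

namespace Pool.Agent.MTG

open MvPolynomial
open Pool.Agent.MTX (AS SW RedData lin lin_add lin_smul lin_neg lin_sub lin_zero lin_sum coeff_lin
  lin_inj lin_ne_zero lin_irreducible lin_prime lin_totalDegree_le lin_totalDegree lin_dvd_lin
  lin_single aeval_lin exists_not_mem_subspaces)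
open Pool.Agent.MTX.SLD (RR AA fc fm fm0 fc_add fc_smul fc_ne_zero fm_add fm_smul fm_zero fm_h
  fm_al fm_neg fm_sum fm0_add fm0_smul fm0_zero fm0_neg fm0_sub fm0_al fm0_ne_zero fm0_prime
  fm_prime rho rho_none rho_some rho_fm rho_surj rho_ker prime_h)

namespace RD

variable {n : ℕ} (D : RD n)

theorem aref_l (b : D.ARt) : (D.aref b).l = -(b.2 • b.1.1) := rfl
theorem aref_u (b : D.ARt) : (D.aref b).u = D.rW b.1 := rfl

theorem ARt_ext {b c : D.ARt} (h1 : b.1.1 = c.1.1) (h2 : b.2 = c.2) : b = c :=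
  Prod.ext (Subtype.ext h1) h2

theorem aref_ang (b : D.ARt) : D.aref (D.ang b) = D.aref b := by
  apply Aff.ext'
  · show -((-b.2) • (-b.1.1)) = -(b.2 • b.1.1)
    rw [neg_smul, smul_neg, neg_neg]
  · exact D.rW_ng b.1

theorem aref_smul (w : D.Aff) (b : D.ARt) : D.aref (w • b) = w * D.aref b * w⁻¹ := by
  apply Aff.ext'
  · rw [mul_l, mul_l, mul_u, aref_l, aref_l, aref_u, inv_l, smul_fst, smul_snd, smul_val]
    have h1 : (w.u * D.rW b.1).1 (-(w.u⁻¹).1 w.l) = - (w.u.1 (D.rf b.1 ((w.u⁻¹).1 w.l))) := by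
      rw [map_neg]; rfl
    rw [h1, rf, map_sub, W_inv_apply, map_smul, map_neg, map_smul, cp_smul']
    module
  · exact D.rW_smul w.u b.1

theorem aref_self (b : D.ARt) : D.aref b • b = D.ang b := by
  apply ARt_ext
  · rw [smul_fst, smul_val]
    exact D.rf_self b.1
  · rw [smul_snd, aref_l, aref_u, rW_self, cp_ng, cp_neg, cp_smul, cp_self]
    show b.2 - - -(b.2 * 2) = - b.2
    ring

theorem aref_sq (b : D.ARt) : D.aref b * D.aref b = 1 := by
  apply Aff.ext'
  · rw [mul_l, aref_l, aref_u, one_l]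
    have h : (D.rW b.1).1 (-(b.2 • b.1.1)) = b.2 • b.1.1 := by
      rw [map_neg, map_smul]
      show -(b.2 • D.rf b.1 b.1.1) = _
      rw [rf_self]
      module
    rw [h]; abel
  · exact D.rW_sq b.1

theorem ang_ang (b : D.ARt) : D.ang (D.ang b) = b := D.ARt_ext (neg_neg _) (neg_neg _)

theorem smul_ang (w : D.Aff) (b : D.ARt) : w • D.ang b = D.ang (w • b) :=
  D.ARt_ext (by
    show w.u.1 (-b.1.1) = - w.u.1 b.1.1
    rw [map_neg]) (by
    show -b.2 - D.cp (w.u • D.ng b.1) w.l = -(b.2 - D.cp (w.u • b.1) w.l)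
    rw [smul_ng, cp_ng]; ring)

theorem apos_ang (b : D.ARt) : D.apos (D.ang b) ↔ ¬ D.apos b := by
  have h := D.pos_ng b.1
  show (0 < -b.2 ∨ (-b.2 = 0 ∧ D.Pos (D.ng b.1))) ↔ ¬ (0 < b.2 ∨ (b.2 = 0 ∧ D.Pos b.1))
  rw [h]
  rcases lt_trichotomy b.2 0 with h1 | h1 | h1
  · constructor
    · intro _
      push Not
      exact ⟨h1.le, fun h2 => by omega⟩
    · intro _; left; omega
  · rw [h1]; simp
  · constructor
    · rintro (h2 | h2) <;> omega
    · intro h2; exact (h2 (Or.inl h1)).elim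

/-- Port of MTX/R2c `af_dvd`.  Now `D.af b = fm γ (k c)`, `c = D.cf γ`, `b = (γ, k)`, and
`X_i - s_b X_i = ⟨e_i, γ^∨⟩ (γ + k c ħ)`: the `ħ`-coefficient of `s_b X_i` is `- B(-k γ, s_γ e_i) =
k B(γ, s_γ e_i) = - k B(γ, e_i) = - k c ⟨e_i, γ^∨⟩` (`cp_cf`). -/
theorem af_dvd (b : D.ARt) (x : RR n) : D.af b ∣ x - D.aref b • x := by
  induction x using MvPolynomial.induction_on with
  | C a =>
    have : D.aref b • (MvPolynomial.C a : RR n) = MvPolynomial.C a := algHom_C (D.actR _) a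
    rw [this, sub_self]; exact dvd_zero _
  | add p q hp hq =>
    have : p + q - D.aref b • (p + q) = (p - D.aref b • p) + (q - D.aref b • q) := by
      rw [smul_add]; ring
    rw [this]; exact dvd_add hp hq
  | mul_X p i hp =>
    have : p * X i - D.aref b • (p * X i) = (p - D.aref b • p) * X i +
        (D.aref b • p) * (X i - D.aref b • (X i : RR n)) := by
      rw [smul_mul']; ring
    rw [this]
    refine dvd_add (Dvd.dvd.mul_right hp _) (Dvd.dvd.mul_left ?_ _)
    cases i with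
    | none =>
      have : D.aref b • (X none : RR n) = X none := D.actR_none _
      rw [this, sub_self]; exact dvd_zero _
    | some i =>
      have h1 : (X (some i) : RR n) = fm (Pi.single i 1) 0 := (fm_al i).symm
      rw [h1, smul_fm]
      have h2 : (D.aref b).u.1 (Pi.single i 1) =
          Pi.single i 1 - D.cp b.1 (Pi.single i 1) • b.1.1 := rfl
      rw [h2, aref_l]
      refine ⟨MvPolynomial.C ((D.cp b.1 (Pi.single i 1) : ℤ) : ℂ), ?_⟩
      rw [mul_comm, af, ← fm_smul, sub_eq_add_neg, ← fm_neg, ← fm_add]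
      congr 1
      · module
      · rw [B_neg_left, B_smul_left, B_sub_right, B_smul_right, ← D.cp_cf, ← D.two_cf]
        ring

/-- Port of MTX/R2c `eq_or_refl`.  Let `y = v u⁻¹ = (l, a)`; for every `x` there is `z x` with
`a x - x = z x γ` and `- B(l, a x) = z x k c`.  `z` is additive, `B(a x, a x) = B(x, x)` gives
`z x (z x B(γ,γ) + 2 B(x, γ)) = 0`, i.e. `z x = 0` or `z x = - ⟨x, γ^∨⟩`; so `z = 0` or
`z = - ⟨·, γ^∨⟩` everywhere. -/
theorem eq_or_refl (b : D.ARt) (u v : D.Aff)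
    (h : ∀ x : Fin n → ℤ, ∃ z : ℂ, fc (v.u.1 x) (- D.B v.l (v.u.1 x)) -
      fc (u.u.1 x) (- D.B u.l (u.u.1 x)) = z • fc b.1.1 (b.2 * D.cf b.1)) :
    v = u ∨ v = D.aref b * u := by
  -- reduce to `y = v u⁻¹`
  set y := v * u⁻¹ with hy
  have hv : v = y * u := by rw [hy]; group
  have hyl : ∀ x, ∃ z : ℂ, (∀ j, ((y.u.1 x) j : ℂ) - x j = z * b.1.1 j) ∧
      - ((D.B y.l (y.u.1 x) : ℤ) : ℂ) = z * (b.2 * D.cf b.1) := by
    intro x
    obtain ⟨z, hz⟩ := h ((u.u⁻¹).1 x)
    have h1 : v.u.1 ((u.u⁻¹).1 x) = y.u.1 x := rfl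
    have h2 : u.u.1 ((u.u⁻¹).1 x) = x := D.W_inv_apply _ _
    rw [h1, h2] at hz
    have h3 : v.l = y.l + y.u.1 u.l := by rw [hv, mul_l]
    refine ⟨z, fun j => ?_, ?_⟩
    · have := congrFun hz (some j)
      simpa [fc] using this
    · have := congrFun hz none
      rw [h3, B_add_left, B_W] at this
      simp only [fc, Pi.sub_apply, Pi.smul_apply, smul_eq_mul] at this
      push_cast at this
      rw [← this]; ring
  choose z hz1 hz2 using hyl
  have hcf : ((D.cf b.1 : ℤ) : ℂ) ≠ 0 := by exact_mod_cast (D.cf_pos b.1).ne'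
  -- a nonzero coordinate of the root
  obtain ⟨j0, hj0⟩ : ∃ j, b.1.1 j ≠ 0 := by
    by_contra hno
    push Not at hno
    exact D.Rt_ne b.1 (funext hno)
  have hj0' : ((b.1.1 j0 : ℤ) : ℂ) ≠ 0 := by exact_mod_cast hj0
  have hzadd : ∀ x x', z (x + x') = z x + z x' := by
    intro x x'
    apply mul_right_cancel₀ hj0'
    rw [add_mul, ← hz1, ← hz1, ← hz1, map_add]
    push_cast [Pi.add_apply]
    ring
  -- the quadratic equation
  have hq : ∀ x, z x * (z x + ((D.cp b.1 x : ℤ) : ℂ)) = 0 := by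
    intro x
    have hB : ∀ (c : Fin n → ℂ) (c' : Fin n → ℂ) (p p' : Fin n → ℤ), (∀ j, c j = p j) →
        (∀ j, c' j = p' j) → ∑ i, ∑ j, c i * ((D.C i j : ℤ) : ℂ) * c' j =
          ((D.B p p' : ℤ) : ℂ) := by
      intro c c' p p' h h'
      simp only [B, Pool.Agent.MTX.bil]
      push_cast
      exact Finset.sum_congr rfl fun i _ => Finset.sum_congr rfl fun j _ => by rw [h, h']
    have h1 := hB _ _ (y.u.1 x) (y.u.1 x) (fun _ => rfl) (fun _ => rfl)
    rw [B_W] at h1
    have h2 : ∀ j, ((y.u.1 x) j : ℂ) = x j + z x * b.1.1 j := fun j => by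
      rw [← hz1 x j]; ring
    simp only [h2] at h1
    have h3 : ∑ i, ∑ j, ((x i : ℂ) + z x * b.1.1 i) * ((D.C i j : ℤ) : ℂ) *
        ((x j : ℂ) + z x * b.1.1 j) =
        (∑ i, ∑ j, (x i : ℂ) * ((D.C i j : ℤ) : ℂ) * (x j : ℂ)) +
        z x * (∑ i, ∑ j, (x i : ℂ) * ((D.C i j : ℤ) : ℂ) * (b.1.1 j : ℂ)) +
        z x * (∑ i, ∑ j, (b.1.1 i : ℂ) * ((D.C i j : ℤ) : ℂ) * (x j : ℂ)) +
        z x ^ 2 * (∑ i, ∑ j, (b.1.1 i : ℂ) * ((D.C i j : ℤ) : ℂ) * (b.1.1 j : ℂ)) := by
      simp only [Finset.mul_sum, ← Finset.sum_add_distrib]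
      exact Finset.sum_congr rfl fun i _ => Finset.sum_congr rfl fun j _ => by ring
    rw [h3, hB _ _ x x (fun _ => rfl) (fun _ => rfl), hB _ _ x b.1.1 (fun _ => rfl) (fun _ => rfl),
      hB _ _ b.1.1 x (fun _ => rfl) (fun _ => rfl),
      hB _ _ b.1.1 b.1.1 (fun _ => rfl) (fun _ => rfl), D.B_comm x b.1.1, ← D.cp_cf,
      ← D.two_cf] at h1
    push_cast at h1
    have h5 : (z x * (z x + ((D.cp b.1 x : ℤ) : ℂ))) * ((D.cf b.1 : ℤ) : ℂ) = 0 := by
      linear_combination h1 / 2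
    exact (mul_eq_zero.1 h5).resolve_right hcf
  by_cases h0 : ∀ x, z x = 0
  · left
    have hu : y.u = 1 := by
      apply Subtype.ext
      apply LinearEquiv.ext
      intro x
      funext j
      have := hz1 x j
      rw [h0, zero_mul, sub_eq_zero] at this
      exact_mod_cast this
    have hl : y.l = 0 := by
      apply D.B_nondeg
      intro x
      have := hz2 x
      rw [h0, zero_mul, hu] at this
      have h2 : ((D.B y.l x : ℤ) : ℂ) = 0 := neg_eq_zero.1 this
      exact_mod_cast h2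
    rw [hv, Aff.ext' (w := y) (w' := 1) hl hu, one_mul]
  · right
    push Not at h0
    obtain ⟨x0, hx0⟩ := h0
    have hx0' : z x0 = - ((D.cp b.1 x0 : ℤ) : ℂ) := by
      have := (mul_eq_zero.1 (hq x0)).resolve_left hx0
      linear_combination this
    have hall : ∀ x, z x = - ((D.cp b.1 x : ℤ) : ℂ) := by
      intro x
      rcases mul_eq_zero.1 (hq x) with h1 | h1
      · have h2 := hq (x + x0)
        rw [hzadd, h1, zero_add, cp_add] at h2
        have h3 := (mul_eq_zero.1 h2).resolve_left hx0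
        rw [hx0'] at h3
        push_cast at h3
        rw [h1]
        linear_combination h3
      · linear_combination h1
    have hyu : ∀ x, y.u.1 x = D.rf b.1 x := by
      intro x
      funext j
      have := hz1 x j
      rw [hall] at this
      rw [rf]
      show y.u.1 x j = x j - D.cp b.1 x * b.1.1 j
      have h2 : ((y.u.1 x j : ℤ) : ℂ) = ((x j - D.cp b.1 x * b.1.1 j : ℤ) : ℂ) := by
        push_cast
        linear_combination this
      exact_mod_cast h2
    have hu : y.u = D.rW b.1 := Subtype.ext (LinearEquiv.ext hyu)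
    have hyB : ∀ x, D.B y.l (y.u.1 x) = b.2 * D.B b.1.1 x := by
      intro x
      have := hz2 x
      rw [hall] at this
      have h2 : ((D.B y.l (y.u.1 x) : ℤ) : ℂ) = ((b.2 * (D.cp b.1 x * D.cf b.1) : ℤ) : ℂ) := by
        push_cast
        linear_combination -this
      rw [D.cp_cf] at h2
      exact_mod_cast h2
    have hl : y.l = -(b.2 • b.1.1) := by
      have : y.l + b.2 • b.1.1 = 0 := by
        apply D.B_nondeg
        intro x
        have h1 := hyB (D.rf b.1 x)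
        rw [hyu, rf_rf] at h1
        have h2 : D.B b.1.1 (D.rf b.1 x) = - D.B b.1.1 x := by
          rw [← D.cp_cf, ← D.cp_cf, cp_rf]; ring
        rw [B_add_left, h1, h2, B_smul_left]
        ring
      exact eq_neg_of_add_eq_zero_left this
    rw [hv, Aff.ext' (w := y) (w' := D.aref b) hl hu]

/-- Port of MTX/R2c `agen` (uses `eq_or_refl`). -/
theorem agen (b : D.ARt) (F : Finset D.Aff) : ∃ g : RR n, ∀ u ∈ F, ∀ v ∈ F, v ≠ u →
    v ≠ D.aref b * u → ¬ D.af b ∣ u • g - v • g := by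
  classical
  -- the linear map `c ↦ coefficients of u • g - v • g`
  set Λ : D.Aff → (Fin n → ℂ) →ₗ[ℂ] (Option (Fin n) → ℂ) := fun u =>
    { toFun := fun c => ∑ j, c j • fc (u.u.1 (Pi.single j 1)) (- D.B u.l (u.u.1 (Pi.single j 1)))
      map_add' := fun c d => by
        rw [← Finset.sum_add_distrib]
        exact Finset.sum_congr rfl fun j _ => by rw [Pi.add_apply, add_smul]
      map_smul' := fun c d => by
        rw [RingHom.id_apply, Finset.smul_sum]
        exact Finset.sum_congr rfl fun j _ => by rw [Pi.smul_apply, smul_eq_mul, mul_smul] }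
    with hΛ
  set G : (Fin n → ℂ) → RR n := fun c => ∑ j, MvPolynomial.C (c j) * X (some j) with hG
  have hact : ∀ (u : D.Aff) (c : Fin n → ℂ), u • (G c) = lin (Λ u c) := by
    intro u c
    show D.actR u (G c) = lin (Λ u c)
    have h1 : Λ u c = ∑ j, c j • fc (u.u.1 (Pi.single j 1)) (- D.B u.l (u.u.1 (Pi.single j 1))) :=
      rfl
    rw [h1, lin_sum, hG]
    simp only
    rw [map_sum]
    refine Finset.sum_congr rfl fun j _ => ?_
    rw [map_mul, actR_some, algHom_C, algebraMap_eq, lin_smul]; rfl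
  set bad := {p : F × F // p.2 ≠ p.1 ∧ (p.2 : D.Aff) ≠ D.aref b * p.1} with hbad
  set pp : bad → Submodule ℂ (Fin n → ℂ) := fun p =>
    (Submodule.span ℂ {fc b.1.1 (b.2 * D.cf b.1)}).comap (Λ p.1.2.1 - Λ p.1.1.1) with hpp
  have hproper : ∀ p, pp p ≠ ⊤ := by
    rintro ⟨⟨u, v⟩, h1, h2⟩ htop
    have h3 : ∀ c : Fin n → ℂ, ∃ z : ℂ, Λ v.1 c - Λ u.1 c = z • fc b.1.1 (b.2 * D.cf b.1) := by
      intro c
      have : c ∈ pp ⟨⟨u, v⟩, h1, h2⟩ := by rw [htop]; exact Submodule.mem_top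
      rw [hpp] at this
      simp only [Submodule.mem_comap] at this
      obtain ⟨z, hz⟩ := Submodule.mem_span_singleton.1 this
      exact ⟨z, hz.symm⟩
    have h4 : ∀ (u : D.Aff) (x : Fin n → ℤ), Λ u (fun j => (x j : ℂ)) =
        fc (u.u.1 x) (- D.B u.l (u.u.1 x)) := by
      intro u x
      apply lin_inj
      rw [← hact]
      have h5 : G (fun j => (x j : ℂ)) = fm x 0 := by
        rw [fm, lin, Fintype.sum_option, hG]
        simp [fc]
      rw [h5, smul_fm, zero_sub]; rfl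
    rcases D.eq_or_refl b u.1 v.1 (fun x => by
      obtain ⟨z, hz⟩ := h3 (fun j => (x j : ℂ))
      rw [h4, h4] at hz
      exact ⟨z, hz⟩) with h | h
    · exact h1 (Subtype.ext h)
    · exact h2 h
  obtain ⟨c, hc⟩ := exists_not_mem_subspaces pp hproper
  refine ⟨G c, fun u hu v hv h1 h2 hdvd => ?_⟩
  refine hc ⟨⟨⟨u, hu⟩, ⟨v, hv⟩⟩, fun h => h1 (congrArg Subtype.val h), h2⟩ ?_
  rw [hpp]
  simp only [Submodule.mem_comap]
  rw [Submodule.mem_span_singleton]
  rw [hact, hact, ← lin_sub, af, fm, lin_dvd_lin (fc_ne_zero (D.Rt_ne b.1) _)] at hdvd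
  obtain ⟨z, hz⟩ := hdvd
  refine ⟨-z, ?_⟩
  rw [neg_smul, ← hz, neg_sub]; rfl

/-- The affine system. -/
noncomputable def aff : AS (RR n) D.Aff D.ARt D.SA where
  ng := D.ang
  f := D.af
  refl := D.aref
  pos := D.apos
  al s := s.1
  ng_ng := D.ang_ang
  smul_ng := D.smul_ang
  f_ng b := by
    show fm (-b.1.1) (-b.2 * D.cf (D.ng b.1)) = - fm b.1.1 (b.2 * D.cf b.1)
    have h : D.cf (D.ng b.1) = D.cf b.1 := by
      show D.B (-b.1.1) (-b.1.1) / 2 = _
      rw [B_neg_left, B_neg_right, neg_neg]; rfl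
    rw [h, neg_mul, fm_neg]
  f_smul := D.af_smul
  refl_ng := D.aref_ang
  refl_smul := D.aref_smul
  refl_self := D.aref_self
  refl_sq := D.aref_sq
  prime b := fm_prime (D.Rt_ne b.1) _
  dvd := D.af_dvd
  gen := D.agen
  pos_ng := D.apos_ang
  pos_al s := s.2.1
  perm s b hb hne := s.2.2 b hb hne

theorem aff_sr (s : D.SA) : D.aff.sr s = D.aref s.1 := rfl

/-- `γ` divides `x - s_γ x` -/
theorem fm0_dvd (γ : D.Rt) (x : AA n) : fm0 γ.1 ∣ x - D.rW γ • x := by
  obtain ⟨y, hy⟩ := rho_surj x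
  obtain ⟨q, hq⟩ := D.af_dvd (γ, 0) y
  refine ⟨rho q, ?_⟩
  have := congrArg rho hq
  rw [map_sub, rho_equiv, hy, map_mul, af, rho_fm] at this
  exact this

/-- The data for words over `A`. -/
noncomputable def sw0 : SW (AA n) D.Aff D.SA where
  f s := fm0 s.1.1.1
  g s := D.aref s.1
  f_ne s := fm0_ne_zero (D.Rt_ne _)
  g_f s := by
    show D.aref s.1 • (fm0 s.1.1.1 : AA n) = - fm0 s.1.1.1
    rw [Aff_smul_A, smul_fm0, aref_u, ← fm0_neg]
    congr 1
    exact D.rf_self _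
  g_sq s := D.aref_sq _
  dvd s x := D.fm0_dvd s.1.1 x

/-- The reduction data. -/
noncomputable def rdat : RedData D.aff D.sw0 where
  ρ := (rho : RR n →ₐ[ℂ] AA n).toRingHom
  h := X none
  surj := rho_surj
  ker := rho_ker
  prime := prime_h
  ndvd := D.h_ndvd
  equiv := D.rho_equiv
  f s := by
    show fm0 s.1.1.1 = rho (D.af s.1)
    rw [af, rho_fm]
  g _ := rfl

end RD

end Pool.Agent.MTG
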