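import Pool.Agent.MTG.G3
import Pool.Agent.MTX.S7

/-! # MTG, Part G : affine combinatorics (port of MTX/R3a.lean), any root datum

`D.p1` a regular dominant element of `X`, `D.Mc` a large integer, `D.va b = M b(p1 / M)` the
(scaled) value of the affine root `b` at the point `p1 / M` of the fundamental alcove.
`D.Om` : the elements of length zero. -/

namespace Pool.Agent.MTG

open MvPolynomial
open Pool.Agent.MTX (AS SW RedData)
open Pool.Agent.MTX.SLD (RR AA fm fm0)

/-- auxiliary: a functional positive on the bounded lexicographically positive vectors -/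
theorem B1_fun (n : ℕ) (K : ℤ) (hK : 0 ≤ K) : ∃ (f : Fin n → ℤ) (C : ℤ), 0 ≤ C ∧
    (∀ x : Fin n → ℤ, (∀ i, |x i| ≤ K) → |∑ i, f i * x i| ≤ C) ∧
    ∀ x : Fin n → ℤ, (∀ i, |x i| ≤ K) → (∃ i, (∀ j < i, x j = 0) ∧ 0 < x i) → 0 < ∑ i, f i * x i := by
  induction n with
  | zero =>
    refine ⟨fun _ => 0, 0, le_rfl, fun x _ => ?_, fun x _ h => ?_⟩
    · simp
    · obtain ⟨i, -, -⟩ := h
      exact i.elim0
  | succ n ih =>
    obtain ⟨f, C, hC, h1, h2⟩ := ih
    refine ⟨Fin.cons (C + 1) f, (C + 1) * K + C, by positivity, fun x hx => ?_, fun x hx h => ?_⟩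
    · rw [Fin.sum_univ_succ]
      simp only [Fin.cons_zero, Fin.cons_succ]
      have h3 := h1 (fun i => x i.succ) (fun i => hx i.succ)
      have h4 : |(C + 1) * x 0| ≤ (C + 1) * K := by
        rw [abs_mul, abs_of_nonneg (by omega : (0 : ℤ) ≤ C + 1)]
        exact mul_le_mul_of_nonneg_left (hx 0) (by omega)
      exact (abs_add_le _ _).trans (add_le_add h4 h3)
    · rw [Fin.sum_univ_succ]
      simp only [Fin.cons_zero, Fin.cons_succ]
      obtain ⟨i, h3, h4⟩ := h
      refine Fin.cases (motive := fun i => (∀ j < i, x j = 0) → 0 < x i →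
        0 < (C + 1) * x 0 + ∑ i : Fin n, f i * x i.succ) ?_ ?_ i h3 h4
      · intro _ h5
        have h6 := h1 (fun i => x i.succ) (fun i => hx i.succ)
        rw [abs_le] at h6
        nlinarith [h6.1]
      · intro i h5 h6
        have h7 := h5 0 (Fin.succ_pos i)
        rw [h7, mul_zero, zero_add]
        exact h2 (fun i => x i.succ) (fun i => hx i.succ)
          ⟨i, fun j hj => h5 j.succ (Fin.succ_lt_succ_iff.2 hj), h6⟩

namespace RD

variable {n : ℕ} (D : RD n)

/-- An integral functional that is positive on the lexicographically positive roots: with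
`K ≥ |γ_i|` for all roots and `M = K + 2`, `f_i = M ^ (n - 1 - i)`: if `i` is the first index with
`γ_i ≠ 0`, then `γ_i ≥ 1` and `∑_{j > i} M^(n-1-j) |γ_j| ≤ K (M^(n-1-i) - 1)/(M - 1) < M^(n-1-i)`.
(`Pi.toLex` order: `0 < toLex γ` iff there is `i` with `γ_j = 0` for `j < i` and `0 < γ_i`:
`Pi.lex_lt_iff...`, see the uses of `toLex` in MTX/L11 `dat_lexpos`, MTD.) -/
theorem exists_fun : ∃ f : Fin n → ℤ, ∀ γ : D.Rt, D.Pos γ → 0 < ∑ i, f i * γ.1 i := by
  have hK : (0 : ℤ) ≤ ∑ γ : D.Rt, ∑ i, |γ.1 i| :=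
    Finset.sum_nonneg fun _ _ => Finset.sum_nonneg fun _ _ => abs_nonneg _
  obtain ⟨f, C, -, -, h⟩ := B1_fun n (∑ γ : D.Rt, ∑ i, |γ.1 i|) hK
  refine ⟨f, fun γ hγ => h γ.1 (fun i => ?_) ?_⟩
  · have h1 : |γ.1 i| ≤ ∑ i, |γ.1 i| :=
      Finset.single_le_sum (f := fun i => |γ.1 i|) (fun _ _ => abs_nonneg _) (Finset.mem_univ i)
    have h2 : ∑ i, |γ.1 i| ≤ ∑ γ : D.Rt, ∑ i, |γ.1 i| :=
      Finset.single_le_sum (f := fun γ : D.Rt => ∑ i, |γ.1 i|)
        (fun _ _ => Finset.sum_nonneg fun _ _ => abs_nonneg _) (Finset.mem_univ γ)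
    exact h1.trans h2
  · have h0 : (0 : Lex (Fin n → ℤ)) < toLex γ.1 := hγ
    obtain ⟨i, h1, h2⟩ := h0
    exact ⟨i, fun j hj => (h1 j hj).symm, h2⟩

/-- `exists_dual`: `B(p, γ) = d ∑ f_i γ_i > 0`, and `B(γ, p) = cp γ p * cf γ`. -/
theorem exists_p : ∃ p : Fin n → ℤ, ∀ γ : D.Rt, D.Pos γ → 0 < D.cp γ p := by
  obtain ⟨f, hf⟩ := D.exists_fun
  obtain ⟨p, d, hd, hp⟩ := D.exists_dual f
  refine ⟨p, fun γ hγ => ?_⟩
  have h1 := hf γ hγ
  have h2 := D.cp_cf γ p
  rw [B_comm, hp] at h2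
  have h3 : 0 < D.cp γ p * D.cf γ := by
    rw [h2]
    exact mul_pos hd h1
  exact pos_of_mul_pos_left h3 (D.cf_pos γ).le

/-- a regular dominant element -/
noncomputable def p1 : Fin n → ℤ := D.exists_p.choose

theorem p1_pos {γ : D.Rt} (h : D.Pos γ) : 0 < D.cp γ D.p1 := D.exists_p.choose_spec γ h

/-- a large integer -/
noncomputable def Mc : ℤ := 1 + ∑ γ : D.Rt, |D.cp γ D.p1|

theorem Mc_pos : 0 < D.Mc := by
  have : 0 ≤ ∑ γ : D.Rt, |D.cp γ D.p1| := Finset.sum_nonneg fun _ _ => abs_nonneg _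
  unfold Mc; omega

theorem abs_cp_lt (γ : D.Rt) : |D.cp γ D.p1| < D.Mc := by
  have : |D.cp γ D.p1| ≤ ∑ γ : D.Rt, |D.cp γ D.p1| :=
    Finset.single_le_sum (f := fun γ : D.Rt => |D.cp γ D.p1|) (fun _ _ => abs_nonneg _)
      (Finset.mem_univ γ)
  unfold Mc; omega

/-- the value of an affine root at the interior point, scaled -/
noncomputable def va (b : D.ARt) : ℤ := D.cp b.1 D.p1 + D.Mc * b.2

/-- `b > 0` iff its value at the interior point is positive.  If `b.2 ≥ 1` the value is `> 0`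
(`abs_cp_lt`), if `b.2 ≤ -1` it is `< 0`; for `b.2 = 0`: `p1_pos`, and for `γ` not positive `ng γ` is
positive (`pos_ng`, `cp_ng`). -/
theorem apos_iff (b : D.ARt) : D.apos b ↔ 0 < D.va b := by
  have h1 := D.abs_cp_lt b.1
  rw [abs_lt] at h1
  have h0 := D.Mc_pos
  show (0 < b.2 ∨ (b.2 = 0 ∧ D.Pos b.1)) ↔ 0 < D.cp b.1 D.p1 + D.Mc * b.2
  rcases lt_trichotomy b.2 0 with h2 | h2 | h2
  · constructor
    · rintro (h3 | h3) <;> omega
    · intro h3
      nlinarith
  · rw [h2, mul_zero, add_zero]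
    constructor
    · rintro (h3 | h3)
      · omega
      · exact D.p1_pos h3.2
    · intro h3
      refine Or.inr ⟨rfl, ?_⟩
      by_contra h4
      have h5 := D.p1_pos ((D.pos_ng b.1).2 h4)
      rw [cp_ng] at h5
      omega
  · constructor
    · intro _
      nlinarith
    · intro _
      exact Or.inl h2

theorem va_ang (b : D.ARt) : D.va (D.ang b) = - D.va b := by
  show D.cp (D.ng b.1) D.p1 + D.Mc * (-b.2) = _
  rw [cp_ng]; unfold va; ring

theorem va_ne (b : D.ARt) : D.va b ≠ 0 := by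
  intro h
  by_cases h1 : D.apos b
  · have := (D.apos_iff b).1 h1; omega
  · have := (D.apos_iff _).1 ((D.apos_ang b).2 h1)
    rw [va_ang] at this; omega

/-! ### linearity in the coroot -/

/-- An affine root as an affine function. -/
def fn (b : D.ARt) (x : Fin n → ℤ) (k : ℤ) : ℤ := D.cp b.1 x + b.2 * k

/-- `va (w • b)` is the value at a point depending on `w` only:
`va (w • b) = cp (u γ) p1 + M (k - cp (u γ) l) = cp γ (u⁻¹ (p1 - M l)) + M k`. -/
theorem va_smul (w : D.Aff) (b : D.ARt) :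
    D.va (w • b) = D.fn b ((w.u⁻¹).1 (D.p1 - D.Mc • w.l)) D.Mc := by
  unfold va fn
  rw [smul_fst, smul_snd, cp_smul', cp_smul', map_sub, map_smul, cp_sub, cp_smul]
  ring

theorem va_eq (b : D.ARt) : D.va b = D.fn b D.p1 D.Mc := by
  unfold va fn; ring

/-- the reflection of an affine root: `s_b c = c - ⟨γ_b, δ_c^∨⟩ b` as affine functions (`cp_rW`) -/
theorem fn_aref (b c : D.ARt) (x : Fin n → ℤ) (k : ℤ) :
    D.fn (D.aref b • c) x k = D.fn c x k - D.cp c.1 b.1.1 * D.fn b x k := by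
  unfold fn
  have h1 : (D.aref b • c).2 = c.2 - D.cp c.1 b.1.1 * b.2 := by
    rw [smul_snd, aref_l, aref_u, cp_neg, cp_smul, cp_rW, cp_self]
    ring
  rw [h1, smul_fst, aref_u, cp_rW]
  ring

/-- affine roots with equal affine functions are equal (only needed for `cp`: `cp γ = cp δ` implies
`γ = δ`).  From `cp γ = cp δ`: `cp γ δ = 2 = cp δ δ` and `cp δ γ = 2`; by `cp_mul_cp` (`≤ 3`) `δ = γ` or
`δ = ng γ`, and in the second case `cp γ δ = -2`. -/
theorem cp_inj {γ δ : D.Rt} (h : ∀ x, D.cp γ x = D.cp δ x) : γ = δ := by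
  by_contra hne
  have h1 : D.cp γ δ.1 = 2 := by rw [h, cp_self]
  have h2 : D.cp δ γ.1 = 2 := by rw [← h, cp_self]
  have h3 := D.cp_eq_one (γ := γ) (δ := δ) (fun h' => hne h'.symm) (by omega)
  omega

/-- the affine function of the opposite affine root -/
theorem MTG_B2_fn_ang (b : D.ARt) (x : Fin n → ℤ) (k : ℤ) :
    D.fn (D.ang b) x k = - D.fn b x k := by
  show D.cp (D.ng b.1) x + (-b.2) * k = _
  rw [cp_ng]; unfold fn; ring

/-! ### simple affine roots -/

/-- Induction step for (1.6).  Let `b > 0` be not simple: there is `c > 0`, `c ≠ b` with `c' := - s_b c > 0`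
(`ASim`, `ang`, `apos_ang`); `m := cp c.1 b.1.1` satisfies `c + c' = m b` as affine functions
(`fn_aref`), so `m ≥ 1` (evaluate with `va_eq`).  Claim: for a linear `F = fn · x k` with `k > 0` such that
`F d > 0` for all `d > 0` with `va d < va b`, also `F b > 0`.
Case `c.1 = b.1` (`γ` the root): `m = 2`, `c.2 + c'.2 = 2 b.2`, `c.2 ≠ b.2`; for `d ∈ {c, c'}` with `d.2 < b.2`
(note `c'.1 = γ`): `va d < va b` and `F b = F d + (b.2 - d.2) k`.
(`c.1 = ng b.1` gives `m = -2`, impossible.)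
Otherwise if `m = 1`: `va c, va c' < va b`, `F b = F c + F c'`.
If `m ≥ 2`: `cp b.1 c.1.1 = 1` (`cp_eq_one`), so `e := s_c b` is `b - c` as a function (`fn_aref`); similarly for
`c'` (`cp c'.1 b.1.1 = m` by evaluating `fn`: `c' = m b - c`, so `⟨b, c'^∨⟩ = 2 m - m`; formally
`c'.1 = ng (rW b.1 • c.1)`, `cp_ng`, `cp_rW`, `cp_self`): `e' := s_{c'} b = b - c'`.
If `e > 0`: `F b = F c + F e`; if `e' > 0`: `F b = F c' + F e'`.  If both are negative:
`3 b - c - c' ...`: for `m = 2`: `(c - b) + (c' - b) = 0`, impossible (values `va`); for `m = 3`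
(`cp_le_three`): `b = (c - b) + (c' - b) = (-e) + (-e')`, `F b = F (ang e) + F (ang e')`, and their values are
smaller.  In each case the summands are positive affine roots, so have smaller value than `b`. -/
theorem step {b : D.ARt} (hb : D.apos b) (hs : ¬ D.ASim b) (x : Fin n → ℤ) {k : ℤ} (hk : 0 < k)
    (ih : ∀ d : D.ARt, D.apos d → D.va d < D.va b → 0 < D.fn d x k) : 0 < D.fn b x k := by
  have hvb : 0 < D.va b := (D.apos_iff b).1 hb
  obtain ⟨c, hc, hcb, hcn⟩ : ∃ c : D.ARt, D.apos c ∧ c ≠ b ∧ ¬ D.apos (D.aref b • c) := by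
    by_contra hcon
    push Not at hcon
    exact hs ⟨hb, hcon⟩
  obtain ⟨c', hc'def⟩ : ∃ c', c' = D.ang (D.aref b • c) := ⟨_, rfl⟩
  have hc' : D.apos c' := by rw [hc'def]; exact (D.apos_ang _).2 hcn
  have hvc : 0 < D.va c := (D.apos_iff c).1 hc
  have hvc' : 0 < D.va c' := (D.apos_iff c').1 hc'
  obtain ⟨m, hm⟩ : ∃ m, m = D.cp c.1 b.1.1 := ⟨_, rfl⟩
  have hfc' : ∀ (y : Fin n → ℤ) (l : ℤ), D.fn c' y l = m * D.fn b y l - D.fn c y l := by
    intro y l
    rw [hc'def, MTG_B2_fn_ang, fn_aref, hm]; ring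
  have hvm : D.va c' = m * D.va b - D.va c := by
    rw [va_eq, va_eq, va_eq, hfc']
  have hcp' : ∀ y : Fin n → ℤ, D.cp c'.1 y = m * D.cp b.1 y - D.cp c.1 y := by
    intro y
    have h1 := hfc' y 0
    unfold fn at h1
    linarith
  have hsnd : c'.2 = m * b.2 - c.2 := by
    have h1 := hfc' 0 1
    unfold fn at h1
    rw [cp_zero, cp_zero, cp_zero] at h1
    linarith
  have hm1 : 1 ≤ m := by
    by_contra hlt
    have h1 : m * D.va b ≤ 0 := mul_nonpos_of_nonpos_of_nonneg (by omega) hvb.le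
    omega
  by_cases hcase : c.1 = b.1
  · -- same root
    have hm2 : m = 2 := by rw [hm, hcase, cp_self]
    have hne2 : c.2 ≠ b.2 := fun h => hcb (Prod.ext hcase h)
    have hc'1 : c'.1 = b.1 := by
      apply D.cp_inj
      intro y
      rw [hcp', hcase, hm2]; ring
    have key : ∀ d : D.ARt, D.apos d → d.1 = b.1 → d.2 < b.2 → 0 < D.fn b x k := by
      intro d hd hd1 hd2
      have hMc := D.Mc_pos
      have h1 : D.va b = D.va d + D.Mc * (b.2 - d.2) := by
        unfold va; rw [hd1]; ring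
      have h2 : 0 < D.Mc * (b.2 - d.2) := mul_pos hMc (by omega)
      have h3 := ih d hd (by omega)
      have h4 : D.fn b x k = D.fn d x k + (b.2 - d.2) * k := by
        unfold fn; rw [hd1]; ring
      have h5 : 0 < (b.2 - d.2) * k := mul_pos (by omega) hk
      omega
    rcases lt_or_gt_of_ne hne2 with hlt | hlt
    · exact key c hc hcase hlt
    · exact key c' hc' hc'1 (by rw [hsnd, hm2]; omega)
  · have hbc : b.1 ≠ c.1 := fun h => hcase h.symm
    have hm3 : m ≤ 3 := by rw [hm]; exact D.cp_le_three hbc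
    by_cases hmone : m = 1
    · -- `b = c + c'`
      have h1 := ih c hc (by rw [hmone] at hvm; omega)
      have h2 := ih c' hc' (by rw [hmone] at hvm; omega)
      have h3 := hfc' x k
      rw [hmone] at h3
      omega
    · have hm2 : 2 ≤ m := by omega
      have hbcp : D.cp b.1 c.1.1 = 1 := D.cp_eq_one hbc (by rw [← hm]; exact hm2)
      have hc'b : D.cp c'.1 b.1.1 = m := by
        rw [hcp', cp_self, ← hm]; ring
      have hbc' : b.1 ≠ c'.1 := by
        intro h
        have h1 := hcp' c.1.1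
        rw [← h, hbcp, cp_self] at h1
        have h2 := hc'b
        rw [← h, cp_self] at h2
        omega
      have hbcp' : D.cp b.1 c'.1.1 = 1 := D.cp_eq_one hbc' (by rw [hc'b]; exact hm2)
      obtain ⟨e, he⟩ : ∃ e, e = D.aref c • b := ⟨_, rfl⟩
      obtain ⟨e', he'⟩ : ∃ e', e' = D.aref c' • b := ⟨_, rfl⟩
      have hfe : ∀ (y : Fin n → ℤ) (l : ℤ), D.fn e y l = D.fn b y l - D.fn c y l := by
        intro y l
        rw [he, fn_aref, hbcp]; ring
      have hfe' : ∀ (y : Fin n → ℤ) (l : ℤ), D.fn e' y l = D.fn b y l - D.fn c' y l := by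
        intro y l
        rw [he', fn_aref, hbcp']; ring
      have hve : D.va e = D.va b - D.va c := by rw [va_eq, va_eq, va_eq, hfe]
      have hve' : D.va e' = D.va b - D.va c' := by rw [va_eq, va_eq, va_eq, hfe']
      by_cases hep : D.apos e
      · have h0 := (D.apos_iff e).1 hep
        have h1 := ih e hep (by omega)
        have h2 := ih c hc (by omega)
        have h3 := hfe x k
        omega
      · by_cases hep' : D.apos e'
        · have h0 := (D.apos_iff e').1 hep'
          have h1 := ih e' hep' (by omega)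
          have h2 := ih c' hc' (by omega)
          have h3 := hfe' x k
          omega
        · have ha : D.apos (D.ang e) := (D.apos_ang e).2 hep
          have ha' : D.apos (D.ang e') := (D.apos_ang e').2 hep'
          have hva : 0 < - D.va e := by rw [← va_ang]; exact (D.apos_iff _).1 ha
          have hva' : 0 < - D.va e' := by rw [← va_ang]; exact (D.apos_iff _).1 ha'
          have hsum : D.va e + D.va e' = (2 - m) * D.va b := by
            rw [hve, hve', hvm]; ring
          have hm33 : m = 3 := by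
            by_contra hne
            have h2 : m = 2 := by omega
            rw [h2] at hsum
            omega
          rw [hm33] at hsum
          have h1 := ih _ ha (by rw [va_ang]; omega)
          have h2 := ih _ ha' (by rw [va_ang]; omega)
          rw [MTG_B2_fn_ang] at h1 h2
          have h3 := hfe x k
          have h4 := hfe' x k
          have h5 := hfc' x k
          rw [hm33] at h5
          omega

/-- (1.6), first half.  Strong induction on `va b` (`apos_iff`, `va_smul`, `step` with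
`x = u⁻¹ (p1 - M l)`, `k = M`). -/
theorem apos_smul {w : D.Aff} (h : ∀ s : D.SA, D.apos (w • s.1)) {b : D.ARt} (hb : D.apos b) :
    D.apos (w • b) := by
  have key : ∀ m : ℕ, ∀ b : D.ARt, D.apos b → D.va b ≤ (m : ℤ) →
      0 < D.fn b ((w.u⁻¹).1 (D.p1 - D.Mc • w.l)) D.Mc := by
    intro m
    induction m with
    | zero =>
      intro b hb hm
      have h1 := (D.apos_iff b).1 hb
      push_cast at hm
      omega
    | succ m ih =>
      intro b hb hm
      by_cases hs : D.ASim b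
      · have h1 := h ⟨b, hs⟩
        rw [apos_iff, va_smul] at h1
        exact h1
      · refine D.step hb hs _ D.Mc_pos fun d hd hlt => ih d hd ?_
        push_cast at hm
        omega
  rw [apos_iff, va_smul]
  exact key (D.va b).toNat b hb (Int.self_le_toNat _)

/-- The elements of length zero. -/
def Om : Subgroup D.Aff where
  carrier := {w | ∀ b, D.apos b → D.apos (w • b)}
  mul_mem' := by
    intro v w hv hw b hb
    rw [mul_smul]
    exact hv _ (hw _ hb)
  one_mem' := by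
    intro b hb
    rw [one_smul]; exact hb
  inv_mem' := by
    intro w hw b hb
    by_contra h
    have h1 := hw _ ((D.apos_ang _).2 h)
    rw [smul_ang, smul_inv_smul, apos_ang] at h1
    exact h1 hb

theorem mem_Om {w : D.Aff} : w ∈ D.Om ↔ ∀ s : D.SA, D.apos (w • s.1) :=
  ⟨fun h s => h _ s.2.1, fun h _ hb => D.apos_smul h hb⟩

/-- (1.6): for `ω` of length zero, `ω.l` is minuscule or zero: with `k = cp (ω.u γ) ω.l`, both
`ω (γ, 0) = (u γ, -k) > 0` and `ω (-γ, 1) = (-u γ, 1 + k) > 0` for `γ > 0`, so `-k ≥ 0`, `1 + k ≥ 0`. -/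
theorem Om_l {w : D.Aff} (h : w ∈ D.Om) (γ : D.Rt) : |D.cp γ w.l| ≤ 1 := by
  have key : ∀ δ : D.Rt, D.Pos δ → D.cp (w.u • δ) w.l ≤ 0 ∧ -1 ≤ D.cp (w.u • δ) w.l := by
    intro δ hδ
    have h1 : D.apos (w • ((δ, 0) : D.ARt)) := h _ (Or.inr ⟨rfl, hδ⟩)
    have h2 : D.apos (w • ((D.ng δ, 1) : D.ARt)) := h _ (Or.inl one_pos)
    have h3 : (w • ((δ, 0) : D.ARt)).2 = 0 - D.cp (w.u • δ) w.l := rfl
    have h4 : (w • ((D.ng δ, 1) : D.ARt)).2 = 1 - D.cp (w.u • D.ng δ) w.l := rfl
    rw [smul_ng, cp_ng] at h4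
    constructor
    · rcases h1 with h1 | h1
      · rw [h3] at h1; omega
      · have h5 := h1.1
        rw [h3] at h5; omega
    · rcases h2 with h2 | h2
      · rw [h4] at h2; omega
      · have h5 := h2.1
        rw [h4] at h5; omega
  have hγ : w.u • (w.u⁻¹ • γ) = γ := smul_inv_smul w.u γ
  rw [abs_le]
  by_cases hp : D.Pos (w.u⁻¹ • γ)
  · have h1 := key _ hp
    rw [hγ] at h1
    constructor <;> omega
  · have h1 := key _ ((D.pos_ng _).2 hp)
    rw [smul_ng, hγ, cp_ng] at h1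
    constructor <;> omega

theorem Om_pos {w : D.Aff} (h : w ∈ D.Om) (b : D.ARt) : D.apos (w • b) ↔ D.apos b := by
  refine ⟨fun h1 => ?_, fun h1 => h _ h1⟩
  have := D.Om.inv_mem h _ h1
  rwa [inv_smul_smul] at this

/-- length zero elements permute the simple affine roots -/
theorem Om_asim {w : D.Aff} (h : w ∈ D.Om) {b : D.ARt} (hb : D.ASim b) : D.ASim (w • b) := by
  refine ⟨h _ hb.1, fun c hc hne => ?_⟩
  have h1 : D.apos (w⁻¹ • c) := D.Om.inv_mem h _ hc
  have h2 : w⁻¹ • c ≠ b := fun h3 => hne (by rw [← h3, smul_inv_smul])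
  have h3 := h _ (hb.2 _ h1 h2)
  rw [← mul_smul, ← mul_smul, ← aref_smul] at h3
  exact h3

noncomputable instance : MulAction D.Om D.SA where
  smul w s := ⟨w.1 • s.1, D.Om_asim w.2 s.2⟩
  one_smul s := Subtype.ext (one_smul D.Aff s.1)
  mul_smul w w' s := Subtype.ext (mul_smul w.1 w'.1 s.1)

theorem Om_smul_val (w : D.Om) (s : D.SA) : (w • s).1 = w.1 • s.1 := rfl

/-! ### the distance function -/

/-- the image of the interior point, scaled -/
noncomputable def zz (w : D.Aff) : Fin n → ℤ := D.Mc • w.l + w.u.1 D.p1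

/-- the distance function -/
noncomputable def dd (w : D.Aff) : ℤ := D.B (D.zz w - D.p1) (D.zz w - D.p1)

theorem dd_nonneg (w : D.Aff) : 0 ≤ D.dd w := D.B_nonneg _

theorem B3_sq (X g : Fin n → ℤ) (v : ℤ) : D.B (X - v • g) (X - v • g) =
    D.B X X - 2 * v * D.B g X + v ^ 2 * D.B g g := by
  simp only [B_sub_left, B_sub_right, B_smul_left, B_smul_right, D.B_comm X g]
  ring

theorem B3_zz (b : D.ARt) (w : D.Aff) : D.zz (D.aref b * w) =
    D.zz w - (D.cp b.1 (D.zz w) + D.Mc * b.2) • b.1.1 := by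
  unfold zz
  rw [mul_l, mul_u, aref_l, aref_u]
  have h1 : (D.rW b.1 * w.u).1 D.p1 = D.rf b.1 (w.u.1 D.p1) := rfl
  have h2 : (D.rW b.1).1 w.l = D.rf b.1 w.l := rfl
  rw [h1, h2, rf, rf, cp_add, cp_smul]
  module

theorem B3_va (b : D.ARt) (w : D.Aff) : D.va (w⁻¹ • b) = D.cp b.1 (D.zz w) + D.Mc * b.2 := by
  rw [va_smul]
  have h1 : ((w⁻¹).u⁻¹).1 (D.p1 - D.Mc • (w⁻¹).l) = D.zz w := by
    rw [inv_u, inv_inv, inv_l, map_sub, map_smul, map_neg, W_inv_apply]
    unfold zz
    module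
  rw [h1]
  unfold fn
  ring

/-- (1.5).  `b = (γ, k)`, `v := va (w⁻¹ • b) = cp γ (zz w) + M k` (`va_smul`), `zz (s_b w) = zz w - v γ`,
`cp γ (zz w - p1) = v - va b`. -/
theorem dd_refl (b : D.ARt) (w : D.Aff) : D.dd (D.aref b * w) =
    D.dd w + D.B b.1.1 b.1.1 * D.va b * D.va (w⁻¹ • b) := by
  have e1 := D.B3_zz b w
  have e2 := D.B3_va b w
  set v := D.va (w⁻¹ • b) with hv
  rw [← e2] at e1
  have e3 : D.cp b.1 (D.zz w - D.p1) = v - D.va b := by
    rw [cp_sub, e2]; unfold va; ring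
  have e4 := D.cp_mul b.1 (D.zz w - D.p1)
  rw [e3] at e4
  unfold dd
  have e5 : D.zz (D.aref b * w) - D.p1 = (D.zz w - D.p1) - v • b.1.1 := by rw [e1]; abel
  rw [e5, B3_sq]
  linear_combination v * e4

theorem dd_lt {b : D.ARt} {w : D.Aff} (h1 : D.apos b) (h2 : ¬ D.apos (w⁻¹ • b)) :
    D.dd (D.aref b * w) < D.dd w := by
  rw [dd_refl]
  rw [apos_iff] at h1 h2
  have h3 := D.va_ne (w⁻¹ • b)
  have h4 : D.va (w⁻¹ • b) < 0 := by omega
  have h5 := D.BRt_pos b.1
  have h6 : 0 < D.B b.1.1 b.1.1 * D.va b := by positivity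
  nlinarith

theorem pr_cons (s : D.SA) (l : List D.SA) :
    D.aff.sw.pr (s :: l) = D.aff.sw.pr l * D.aref s.1 := rfl

/-- `pr (ω i) = ω pr i ω⁻¹` -/
theorem pr_map (w : D.Om) (l : List D.SA) :
    D.aff.sw.pr (l.map fun s => w • s) = w.1 * D.aff.sw.pr l * (w.1)⁻¹ := by
  induction l with
  | nil => show (1 : D.Aff) = w.1 * 1 * (w.1)⁻¹; group
  | cons s l ih =>
    rw [List.map_cons, pr_cons, pr_cons, ih, Om_smul_val, aref_smul]
    group

/-- length zero elements preserve reducedness (`pr_map`) -/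
theorem red_map (w : D.Om) (l : List D.SA) (h : D.aff.Red l) :
    D.aff.Red (l.map fun s => w • s) := by
  induction l with
  | nil => trivial
  | cons s l ih =>
    obtain ⟨h1, h2⟩ := h
    refine ⟨ih h1, ?_⟩
    show D.apos (D.aff.sw.pr (l.map fun s => w • s) • (w • s).1)
    rw [pr_map, Om_smul_val, mul_smul, mul_smul, inv_smul_smul]
    exact (D.Om_pos w.2 _).2 h2

/-- Every element is `pr i * ω`, `i` reduced, `ω` of length zero.  Port of MTX/R3a `exists_red` (which gives
`w = ω * pr i`; then `w = pr (ω i) * ω` by `pr_map`, `red_map`): induction on `dd w`; if `w • s < 0` for a simple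
`s`, then `dd (w s_s) < dd w` (`dd_lt` for `b = ang (w • s)`: `s_b w = w s_s`). -/
theorem exists_red (w : D.Aff) : ∃ (ω : D.Om) (i : List D.SA), w = D.aff.sw.pr i * ω.1 ∧
    D.aff.Red i := by
  have key : ∀ (m : ℕ) (w : D.Aff), D.dd w ≤ m → ∃ (ω : D.Om) (i : List D.SA),
      w = ω.1 * D.aff.sw.pr i ∧ D.aff.Red i := by
    have step1 : ∀ (w : D.Aff) (s : D.SA), ¬ D.apos (w • s.1) →
        D.dd (w * D.aref s.1) < D.dd w := by
      intro w s hs
      have h1 : D.apos (D.ang (w • s.1)) := (D.apos_ang _).2 hs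
      have h2 : w⁻¹ • D.ang (w • s.1) = D.ang s.1 := by
        rw [smul_ang, inv_smul_smul]
      have h3 : ¬ D.apos (w⁻¹ • D.ang (w • s.1)) := by
        rw [h2, apos_ang, not_not]
        exact s.2.1
      have h4 := D.dd_lt h1 h3
      rw [aref_ang, aref_smul, inv_mul_cancel_right] at h4
      exact h4
    intro m
    induction m with
    | zero =>
      intro w hw
      by_cases h : ∀ s : D.SA, D.apos (w • s.1)
      · exact ⟨⟨w, D.mem_Om.2 h⟩, [], (mul_one w).symm, trivial⟩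
      · push Not at h
        obtain ⟨s, hs⟩ := h
        have h1 := step1 w s hs
        have h2 := D.dd_nonneg (w * D.aref s.1)
        push_cast at hw
        omega
    | succ m ih =>
      intro w hw
      by_cases h : ∀ s : D.SA, D.apos (w • s.1)
      · exact ⟨⟨w, D.mem_Om.2 h⟩, [], (mul_one w).symm, trivial⟩
      · push Not at h
        obtain ⟨s, hs⟩ := h
        have h1 := step1 w s hs
        obtain ⟨ω, i, hi, hr⟩ := ih (w * D.aref s.1) (by push_cast at hw; omega)
        refine ⟨ω, s :: i, ?_, hr, ?_⟩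
        · rw [pr_cons, ← mul_assoc, ← hi, mul_assoc, aref_sq, mul_one]
        · show D.apos (D.aff.sw.pr i • s.1)
          by_contra hno
          have h3 := ω.2 _ ((D.apos_ang _).2 hno)
          have h5 : ω.1 • D.ang (D.aff.sw.pr i • s.1) = w • s.1 := by
            rw [smul_ang, ← mul_smul, ← hi, mul_smul, D.aref_self, smul_ang, ang_ang]
          rw [h5] at h3
          exact hs h3
  obtain ⟨ω, i, hi, hr⟩ := key (D.dd w).toNat w (by have := D.dd_nonneg w; omega)
  refine ⟨ω, i.map fun s => ω • s, ?_, D.red_map ω i hr⟩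
  rw [pr_map, hi, inv_mul_cancel_right]

/-- (9.1): a reduced word for an element of weight `lam` with minimal distance. -/
theorem exists_word (lam : Fin n → ℤ) : ∃ (ω : D.Om) (i : List D.SA), D.aff.Red i ∧
    (D.aff.sw.pr i * ω.1).l = lam ∧ ∀ w : D.Aff, w.l = lam → D.dd (D.aff.sw.pr i * ω.1) ≤ D.dd w := by
  classical
  obtain ⟨w, hw, hmin⟩ : ∃ w : D.Aff, w.l = lam ∧ ∀ w' : D.Aff, w'.l = lam → D.dd w ≤ D.dd w' := by
    have hne : ∃ m : ℕ, ∃ w : D.Aff, w.l = lam ∧ D.dd w = m :=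
      ⟨(D.dd ⟨lam, 1⟩).toNat, ⟨lam, 1⟩, rfl, by have := D.dd_nonneg ⟨lam, 1⟩; omega⟩
    obtain ⟨w, h1, h2⟩ := Nat.find_spec hne
    refine ⟨w, h1, fun w' hw' => ?_⟩
    have h3 := D.dd_nonneg w'
    have h4 : Nat.find hne ≤ (D.dd w').toNat := Nat.find_min' hne ⟨w', hw', by omega⟩
    omega
  obtain ⟨ω, i, hi, hr⟩ := D.exists_red w
  exact ⟨ω, i, hr, by rw [← hi, hw], fun w' hw' => by rw [← hi]; exact hmin w' hw'⟩

end RD

end Pool.Agent.MTG
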