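import Pool.Agent.MTG.G4

/-! # MTG, Part G : the Weyl group (port of MTX/R3b.lean), any root datum

Simple reflections, exchange, simple transitivity, dominant weights, stabilisers. -/

namespace Pool.Agent.MTG

open MvPolynomial

namespace RD

variable {n : ℕ} (D : RD n)

/-- `(l, u) = (0, u)` acts on `(γ, k)` by `(u γ, k)` -/
theorem emb_smul (u : D.W) (b : D.ARt) : D.emb u • b = (u • b.1, b.2) := by
  refine Prod.ext rfl ?_
  rw [smul_snd, emb_l, cp_zero, sub_zero]

/-- `s_{(γ,0)} = (0, s_γ)` -/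
theorem aref_zero (γ : D.Rt) : D.aref (γ, 0) = D.emb (D.rW γ) := by
  apply Aff.ext'
  · show -((0 : ℤ) • γ.1) = 0
    rw [zero_smul, neg_zero]
  · rfl

/-- a finite simple root is a simple affine root: `s_{(α,0)} (δ, k) = (s_α δ, k)` -/
theorem asim_zero {α : D.Rt} (h : D.Sim α) : D.ASim (α, 0) := by
  refine ⟨Or.inr ⟨rfl, h.1⟩, fun c hc hne => ?_⟩
  rw [aref_zero, emb_smul]
  rcases hc with hc | ⟨hc1, hc2⟩
  · exact Or.inl hc
  · refine Or.inr ⟨hc1, h.2 c.1 hc2 fun h' => hne ?_⟩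
    exact Prod.ext h' hc1

/-- the letter of a simple root -/
def sa (α : D.SRt) : D.SA := ⟨(α.1, 0), D.asim_zero α.2⟩

theorem aref_sa (α : D.SRt) : D.aref (D.sa α).1 = D.emb (D.rW α.1) := D.aref_zero α.1

/-- the first component of a simple affine root of level zero is simple -/
theorem c1_sim {δ : D.Rt} (h : D.ASim (δ, 0)) : D.Sim δ := by
  have h0 : D.Pos δ := by
    rcases h.1 with h1 | h1
    · exact absurd h1 (lt_irrefl _)
    · exact h1.2
  refine ⟨h0, fun ε hε hne => ?_⟩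
  have h1 := h.2 (ε, 0) (Or.inr ⟨rfl, hε⟩) fun h' => hne (congrArg Prod.fst h')
  rw [aref_zero, emb_smul] at h1
  rcases h1 with h1 | h1
  · exact absurd h1 (lt_irrefl _)
  · exact h1.2

/-- `apos_smul` for `w = emb u`: a simple affine root `(γ, k)` has `k ≥ 1`, or `k = 0` and `γ` is simple
(`ASim (γ, 0)` gives `Sim γ`: apply it to the `(δ, 0)`); in both cases `emb u • _` is positive. -/
theorem pos_smul {u : D.W} (h : ∀ α : D.SRt, D.Pos (u • α.1)) {γ : D.Rt} (hγ : D.Pos γ) :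
    D.Pos (u • γ) := by
  have h1 : ∀ s : D.SA, D.apos (D.emb u • s.1) := by
    intro s
    rw [emb_smul]
    rcases s.2.1 with h2 | ⟨h2, h3⟩
    · exact Or.inl h2
    · have h4 : D.ASim (s.1.1, 0) := by
        have h5 : s.1 = (s.1.1, 0) := Prod.ext rfl h2
        rw [← h5]
        exact s.2
      exact Or.inr ⟨h2, h ⟨s.1.1, D.c1_sim h4⟩⟩
  have h2 := D.apos_smul h1 (b := (γ, 0)) (Or.inr ⟨rfl, hγ⟩)
  rw [emb_smul] at h2
  rcases h2 with h2 | h2
  · exact absurd h2 (lt_irrefl _)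
  · exact h2.2

/-- the simple reflection -/
def sW (α : D.SRt) : D.W := D.rW α.1

theorem sW_sq (α : D.SRt) : D.sW α * D.sW α = 1 := D.rW_sq _

/-- descents decrease the distance -/
theorem c1_dd_lt {u : D.W} {α : D.SRt} (h : ¬ D.Pos (u • α.1)) :
    D.dd (D.emb (u * D.sW α)) < D.dd (D.emb u) := by
  have h1 : D.apos (D.ng (u • α.1), 0) := Or.inr ⟨rfl, (D.pos_ng _).2 h⟩
  have h2 : ¬ D.apos ((D.emb u)⁻¹ • (D.ng (u • α.1), (0 : ℤ))) := by
    rw [← map_inv, emb_smul]
    rintro (h3 | ⟨-, h3⟩)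
    · exact absurd h3 (lt_irrefl _)
    · have h4 : u⁻¹ • D.ng (u • α.1) = D.ng α.1 := by
        rw [smul_ng, inv_smul_smul]
      have h5 : D.Pos (D.ng α.1) := by
        rw [← h4]
        exact h3
      exact (D.pos_ng _).1 h5 α.2.1
  have h3 := D.dd_lt h1 h2
  rw [aref_zero, ← map_mul, rW_ng, rW_smul] at h3
  have h4 : u * D.rW α.1 * u⁻¹ * u = u * D.sW α := by
    unfold sW
    group
  rw [h4] at h3
  exact h3

/-- Induction along descents: `dd (emb u)` decreases (`dd_lt`), as in MTX/R3b `W_induction`; here the starting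
point are the elements preserving the positive roots. -/
theorem W_induction' {P : D.W → Prop} (h1 : ∀ u : D.W, (∀ α : D.SRt, D.Pos (u • α.1)) → P u)
    (h2 : ∀ (u : D.W) (α : D.SRt), ¬ D.Pos (u • α.1) → P (u * D.sW α) → P u) (u : D.W) : P u := by
  have key : ∀ (m : ℕ) (u : D.W), D.dd (D.emb u) < m → P u := by
    intro m
    induction m with
    | zero =>
      intro u hu
      have := D.dd_nonneg (D.emb u)
      push_cast at hu
      omega
    | succ m ih =>
      intro u hu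
      by_cases h : ∀ α : D.SRt, D.Pos (u • α.1)
      · exact h1 u h
      · push Not at h
        obtain ⟨α, hα⟩ := h
        refine h2 u α hα (ih _ ?_)
        have h3 := D.c1_dd_lt hα
        push_cast at hu
        omega
  refine key ((D.dd (D.emb u)).toNat + 1) u ?_
  have := D.dd_nonneg (D.emb u)
  push_cast
  omega

/-- Every root is in the orbit of a simple root under the group generated by the simple reflections.
Proof: induction on `cp γ p1 > 0` for positive `γ`: if `γ` is not simple there is a positive `δ ≠ γ` with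
`s_γ δ < 0`; so (contrapositive of `step`-like arguments) some simple `α` has `cp γ α.1 > 0`...  Precisely:
if all simple `α` had `cp α γ ≤ 0`, then with `u := rW γ`, `u • α = α - cp γ α • γ` is positive for all simple
`α` (`cp γ α ≤ 0` by `cp_pos_iff`, a nonnegative combination of positive vectors), so `rW γ • γ` is positive by
`pos_smul`, contradiction.  So some simple `α` has `cp α γ > 0`; if `γ ≠ α`, `s_α γ` is positive with
`cp (s_α γ) p1 = cp γ (s_α p1) = cp γ p1 - cp α p1 * cp γ α < cp γ p1`. -/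
theorem exists_simple (γ : D.Rt) : ∃ (l : List D.SRt) (α : D.SRt),
    (l.map D.sW).prod • α.1 = γ := by
  have hex : ∀ γ : D.Rt, D.Pos γ → ¬ D.Sim γ → ∃ α : D.SRt, 0 < D.cp γ α.1.1 := by
    intro γ hγ _
    by_contra hno
    push Not at hno
    have h1 : ∀ α : D.SRt, D.Pos (D.rW γ • α.1) := by
      intro α
      have h2 : (D.rW γ • α.1).1 = α.1.1 + (-(D.cp γ α.1.1)) • γ.1 := by
        show D.rf γ α.1.1 = _
        rw [rf]; module
      have h3 : 0 < toLex α.1.1 := α.2.1
      have h4 : 0 < toLex γ.1 := hγ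
      have h5 : 0 ≤ (-(D.cp γ α.1.1)) • toLex γ.1 :=
        zsmul_nonneg h4.le (by have := hno α; omega)
      show 0 < toLex (D.rW γ • α.1).1
      rw [h2]
      exact add_pos_of_pos_of_nonneg h3 h5
    have h2 := D.pos_smul h1 hγ
    rw [rW_self, pos_ng] at h2
    exact h2 hγ
  have key : ∀ (m : ℕ) (γ : D.Rt), D.Pos γ → D.cp γ D.p1 ≤ m →
      ∃ (l : List D.SRt) (α : D.SRt), (l.map D.sW).prod • α.1 = γ := by
    intro m
    induction m with
    | zero =>
      intro γ hγ hm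
      have := D.p1_pos hγ
      push_cast at hm
      omega
    | succ m ih =>
      intro γ hγ hm
      by_cases hs : D.Sim γ
      · refine ⟨[], ⟨γ, hs⟩, ?_⟩
        rw [List.map_nil, List.prod_nil, one_smul]
      · obtain ⟨α, hα⟩ := hex γ hγ hs
        have hne : γ ≠ α.1 := fun h => hs (h ▸ α.2)
        have h1 : D.Pos (D.rW α.1 • γ) := α.2.2 γ hγ hne
        have h2 : D.cp (D.rW α.1 • γ) D.p1 = D.cp γ D.p1 - D.cp γ α.1.1 * D.cp α.1 D.p1 :=
          D.cp_rW _ _ _
        have h3 := D.p1_pos α.2.1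
        have h4 : 0 < D.cp γ α.1.1 * D.cp α.1 D.p1 := mul_pos hα h3
        obtain ⟨l, β, hl⟩ := ih _ h1 (by push_cast at hm; omega)
        refine ⟨α :: l, β, ?_⟩
        rw [List.map_cons, List.prod_cons, mul_smul, hl, ← mul_smul]
        show (D.rW α.1 * D.rW α.1) • γ = γ
        rw [rW_sq, one_smul]
  by_cases hγ : D.Pos γ
  · exact key (D.cp γ D.p1).toNat γ hγ (by have := D.p1_pos hγ; omega)
  · have h1 : D.Pos (D.ng γ) := (D.pos_ng γ).2 hγ
    obtain ⟨l, α, hl⟩ := key (D.cp (D.ng γ) D.p1).toNat (D.ng γ) h1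
      (by have := D.p1_pos h1; omega)
    refine ⟨l ++ [α], α, ?_⟩
    rw [List.map_append, List.prod_append, List.map_cons, List.map_nil, List.prod_cons,
      List.prod_nil, mul_one, mul_smul]
    show (l.map D.sW).prod • D.rW α.1 • α.1 = γ
    rw [rW_self, smul_ng, hl, ng_ng]

/-- The simple reflections generate: `rW γ = u s_α u⁻¹` for `γ = u α` (`exists_simple`, `rW_smul`), and closure
induction (port of MTX/R3b `exists_list`). -/
theorem exists_list (u : D.W) : ∃ l : List D.SRt, (l.map D.sW).prod = u := by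
  have hinv : ∀ l : List D.SRt, (l.reverse.map D.sW).prod = ((l.map D.sW).prod)⁻¹ := by
    intro l
    induction l with
    | nil => simp
    | cons a l ih =>
      rw [List.reverse_cons, List.map_append, List.prod_append, ih]
      rw [List.map_cons, List.map_nil, List.prod_cons, List.prod_nil, mul_one, List.map_cons,
        List.prod_cons, mul_inv_rev, inv_eq_of_mul_eq_one_right (D.sW_sq a)]
  obtain ⟨x, hx⟩ := u
  induction hx using Subgroup.closure_induction with
  | mem x hx =>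
    obtain ⟨γ, rfl⟩ := hx
    obtain ⟨l, α, hl⟩ := D.exists_simple γ
    refine ⟨l ++ (α :: l.reverse), ?_⟩
    show _ = D.rW γ
    rw [← hl, rW_smul, List.map_append, List.prod_append, List.map_cons, List.prod_cons, hinv,
      mul_assoc]
    rfl
  | one => exact ⟨[], rfl⟩
  | mul x y _ _ hx hy =>
    obtain ⟨l, hl⟩ := hx
    obtain ⟨l', hl'⟩ := hy
    exact ⟨l ++ l', by rw [List.map_append, List.prod_append, hl, hl']; rfl⟩
  | inv x _ hx =>
    obtain ⟨l, hl⟩ := hx
    exact ⟨l.reverse, by rw [hinv, hl]; rfl⟩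

/-- Exchange.  Port of MTX/R3b `exchange`. -/
theorem exchange (l : List D.SRt) (k : D.SRt) (h : ¬ D.Pos ((l.map D.sW).prod • k.1)) :
    ∃ l' : List D.SRt, l'.length + 1 = l.length ∧
      (l'.map D.sW).prod = (l.map D.sW).prod * D.sW k := by
  induction l with
  | nil =>
    exfalso; apply h
    simp only [List.map_nil, List.prod_nil, one_smul]
    exact k.2.1
  | cons j t ih =>
    rw [List.map_cons, List.prod_cons, mul_smul] at h
    by_cases h1 : D.Pos ((t.map D.sW).prod • k.1)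
    · have h2 : (t.map D.sW).prod • k.1 = j.1 := by
        by_contra hne
        exact h (j.2.2 _ h1 hne)
      refine ⟨t, rfl, ?_⟩
      have h3 : D.sW j = (t.map D.sW).prod * D.sW k * ((t.map D.sW).prod)⁻¹ := by
        show D.rW j.1 = (t.map D.sW).prod * D.rW k.1 * ((t.map D.sW).prod)⁻¹
        rw [← D.rW_smul, h2]
      rw [List.map_cons, List.prod_cons]
      have h4 : D.sW j * (t.map D.sW).prod = (t.map D.sW).prod * D.sW k := by
        rw [h3]; group
      rw [h4, mul_assoc, sW_sq, mul_one]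
    · obtain ⟨t', ht', ht2⟩ := ih h1
      refine ⟨j :: t', by rw [List.length_cons, List.length_cons, ht'], ?_⟩
      rw [List.map_cons, List.prod_cons, List.map_cons, List.prod_cons, ht2, mul_assoc]

/-- Simple transitivity.  Port of MTX/R3b `W_eq_one`. -/
theorem W_eq_one {u : D.W} (h : ∀ α : D.SRt, D.Pos (u • α.1)) : u = 1 := by
  have key : ∀ (m : ℕ) (l : List D.SRt), l.length ≤ m →
      (∀ i : D.SRt, D.Pos ((l.map D.sW).prod • i.1)) → (l.map D.sW).prod = 1 := by
    intro m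
    induction m with
    | zero =>
      intro l hl _
      have : l = [] := List.eq_nil_of_length_eq_zero (by omega)
      rw [this]; rfl
    | succ m ih =>
      intro l hl h
      rcases List.eq_nil_or_concat l with rfl | ⟨l', k, rfl⟩
      · rfl
      · have h1 : ((l' ++ [k]).map D.sW).prod = (l'.map D.sW).prod * D.sW k := by
          rw [List.map_append, List.prod_append, List.map_cons, List.map_nil, List.prod_cons,
            List.prod_nil, mul_one]
        rw [List.concat_eq_append] at h ⊢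
        rw [List.concat_eq_append] at hl
        have h2 := h k
        have h5 : D.sW k • k.1 = D.ng k.1 := D.rW_self k.1
        rw [h1, mul_smul, h5, smul_ng, pos_ng] at h2
        obtain ⟨l'', h3, h4⟩ := D.exchange l' k h2
        rw [h1, ← h4]
        refine ih l'' ?_ ?_
        · rw [List.length_append, List.length_cons, List.length_nil] at hl; omega
        · rw [h4, ← h1]; exact h
  obtain ⟨l, rfl⟩ := D.exists_list u
  exact key l.length l le_rfl h

theorem W_induction {P : D.W → Prop} (h1 : P 1)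
    (h2 : ∀ (u : D.W) (α : D.SRt), ¬ D.Pos (u • α.1) → P (u * D.sW α) → P u) (u : D.W) : P u :=
  D.W_induction' (fun u hu => by rw [D.W_eq_one hu]; exact h1) h2 u

/-- `-x` small: a positive multiple of a positive vector -/
theorem c4_zsmul_nonneg {x : Fin n → ℤ} (hx : 0 ≤ toLex x) {a : ℤ} (ha : 0 ≤ a) :
    0 ≤ toLex (a • x) := by
  obtain ⟨m, rfl⟩ := Int.eq_ofNat_of_zero_le ha
  have h : toLex (((m : ℕ) : ℤ) • x) = m • toLex x := by
    rw [natCast_zsmul]
    rfl
  rw [h]
  exact nsmul_nonneg hx m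

/-- a positive root which is not simple can be lowered by a simple reflection -/
theorem c4_step {γ : D.Rt} (hγ : D.Pos γ) (hs : ¬ D.Sim γ) : ∃ α : D.SRt, 0 < D.cp γ α.1.1 ∧
    D.Pos (D.rW α.1 • γ) ∧ D.cp (D.rW α.1 • γ) D.p1 < D.cp γ D.p1 := by
  obtain ⟨α, hα⟩ : ∃ α : D.SRt, 0 < D.cp γ α.1.1 := by
    by_contra hcon
    push Not at hcon
    have h1 : ∀ α : D.SRt, D.Pos (D.rW γ • α.1) := by
      intro α
      show 0 < toLex (D.rf γ α.1.1)
      have h2 : toLex (D.rf γ α.1.1) = toLex α.1.1 + toLex ((-D.cp γ α.1.1) • γ.1) := by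
        have h3 : D.rf γ α.1.1 = α.1.1 + (-D.cp γ α.1.1) • γ.1 := by
          rw [rf]
          module
        rw [h3]
        rfl
      rw [h2]
      exact add_pos_of_pos_of_nonneg α.2.1
        (c4_zsmul_nonneg (le_of_lt hγ) (by have := hcon α; omega))
    have h2 := D.pos_smul h1 hγ
    rw [rW_self, pos_ng] at h2
    exact h2 hγ
  have hne : γ ≠ α.1 := by
    intro h
    exact hs (h ▸ α.2)
  refine ⟨α, hα, α.2.2 γ hγ hne, ?_⟩
  rw [cp_rW]
  have h1 := D.p1_pos α.2.1
  have h2 : 0 < D.cp γ α.1.1 * D.cp α.1 D.p1 := mul_pos hα h1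
  omega

/-- simple roots suffice for dominance: a positive root `γ` has `cp γ x ≥ 0` if all `cp α x ≥ 0`.  Induction on
`cp γ p1` as in `exists_simple`: `γ` not simple, `α` simple with `cp α γ > 0`, `δ := s_α γ` positive, and
`cp γ x = cp (s_α δ) x = cp δ x - cp δ α * cp α x` (`cp_rW`), `cp δ α = - cp γ α < 0`. -/
theorem dom_iff (x : Fin n → ℤ) : D.Dom x ↔ ∀ α : D.SRt, 0 ≤ D.cp α.1 x := by
  constructor
  · intro h α
    exact h α.1 α.2.1
  · intro h
    have key : ∀ (m : ℕ) (γ : D.Rt), D.Pos γ → (D.cp γ D.p1).toNat ≤ m → 0 ≤ D.cp γ x := by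
      intro m
      induction m with
      | zero =>
        intro γ hγ hm
        have := D.p1_pos hγ
        omega
      | succ m ih =>
        intro γ hγ hm
        by_cases hs : D.Sim γ
        · exact h ⟨γ, hs⟩
        · obtain ⟨α, hα, hp, hlt⟩ := D.c4_step hγ hs
          have h1 := D.p1_pos hp
          have h2 := D.p1_pos hγ
          have h3 := ih _ hp (by omega)
          rw [cp_rW] at h3
          have h4 : 0 ≤ D.cp γ α.1.1 * D.cp α.1 x := mul_nonneg hα.le (h α)
          omega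
    intro γ hγ
    exact key _ γ hγ le_rfl

/-- every element of `X` is conjugate to a dominant one: maximise `B (u x) p1` over the finite group `W`
(`B(s_α y, p1) = B(y,p1) - cp α y * B(α, p1)`, `B(α, p1) = cp α p1 * cf α > 0`). -/
theorem exists_dom (x : Fin n → ℤ) : ∃ u : D.W, D.Dom (u.1 x) := by
  obtain ⟨u, hu⟩ := Finite.exists_max (fun u : D.W => D.B (u.1 x) D.p1)
  refine ⟨u, (D.dom_iff _).2 ?_⟩
  intro α
  by_contra hneg
  push Not at hneg
  have h1 := hu (D.rW α.1 * u)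
  have h2 : D.B ((D.rW α.1 * u).1 x) D.p1 = D.B (u.1 x) D.p1 - D.cp α.1 (u.1 x) * D.B α.1.1 D.p1 := by
    show D.B (D.rf α.1 (u.1 x)) D.p1 = _
    rw [rf, B_sub_left, B_smul_left]
  have h3 : 0 < D.B α.1.1 D.p1 := by
    rw [← cp_cf]
    exact mul_pos (D.p1_pos α.2.1) (D.cf_pos _)
  have h4 : 0 < -D.cp α.1 (u.1 x) * D.B α.1.1 D.p1 := mul_pos (by omega) h3
  change D.B ((D.rW α.1 * u).1 x) D.p1 ≤ D.B (u.1 x) D.p1 at h1
  rw [h2] at h1
  rw [neg_mul] at h4
  omega

/-- `u λ ≤ λ` for dominant `λ`: `W_induction`; `u λ = (u s_α) λ + cp α λ • (u α)`, `u α < 0`. -/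
theorem dom_le {lam : Fin n → ℤ} (hl : D.Dom lam) (u : D.W) : toLex (u.1 lam) ≤ toLex lam := by
  refine D.W_induction (P := fun u => toLex (u.1 lam) ≤ toLex lam) (le_refl (toLex lam)) ?_ u
  intro u α hα ih
  refine le_trans ?_ ih
  have h1 : u.1 lam = (u * D.sW α).1 lam - (-D.cp α.1 lam) • (u • α.1).1 := by
    have h2 : (u * D.sW α).1 lam = u.1 lam - D.cp α.1 lam • (u • α.1).1 := by
      show u.1 (D.rf α.1 lam) = _
      rw [rf, map_sub, map_smul]; rfl
    rw [h2]
    module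
  have h3 : 0 ≤ toLex (D.cp α.1 lam • (D.ng (u • α.1)).1) :=
    c4_zsmul_nonneg (le_of_lt ((D.pos_ng _).2 hα)) (hl _ α.2.1)
  have h4 : toLex (u.1 lam) + toLex (D.cp α.1 lam • (D.ng (u • α.1)).1) =
      toLex ((u * D.sW α).1 lam) := by
    have h5 : u.1 lam + D.cp α.1 lam • (D.ng (u • α.1)).1 = (u * D.sW α).1 lam := by
      conv_lhs => rw [h1, ng_val]
      module
    rw [← h5]
    rfl
  rw [← h4]
  exact le_add_of_nonneg_right h3

/-- a dominant weight in the orbit of a dominant weight is equal to it (`dom_le` twice) -/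
theorem dom_unique {x y : Fin n → ℤ} (hx : D.Dom x) (hy : D.Dom y) (u : D.W) (h : u.1 x = y) :
    x = y := by
  have h1 := D.dom_le hx u
  have h2 := D.dom_le hy u⁻¹
  rw [h] at h1
  rw [← h, W_inv_apply', h] at h2
  exact toLex.injective (le_antisymm h2 h1)

/-- the saturated set of `λ` -/
def PiS (lam : Fin n → ℤ) : Set (Fin n → ℤ) := {nu | ∀ u : D.W, toLex (u.1 nu) ≤ toLex lam}

theorem lam_mem_PiS {lam : Fin n → ℤ} (hl : D.Dom lam) : lam ∈ D.PiS lam := fun u => D.dom_le hl u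

theorem PiS_smul {lam nu : Fin n → ℤ} (h : nu ∈ D.PiS lam) (u : D.W) : u.1 nu ∈ D.PiS lam :=
  fun v => h (v * u)

theorem PiS_le {lam nu : Fin n → ℤ} (h : nu ∈ D.PiS lam) : toLex nu ≤ toLex lam := h 1

/-- convexity (the lexicographic order makes `X` a linearly ordered group) -/
theorem le_convex {x y z : Fin n → ℤ} {a b : ℤ} (ha : 0 ≤ a) (hb : 0 ≤ b) (hab : 0 < a + b)
    (hx : toLex x ≤ toLex z) (hy : toLex y ≤ toLex z) {w : Fin n → ℤ}
    (hw : (a + b) • w = a • x + b • y) : toLex w ≤ toLex z := by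
  obtain ⟨a, rfl⟩ := Int.eq_ofNat_of_zero_le ha
  obtain ⟨b, rfl⟩ := Int.eq_ofNat_of_zero_le hb
  have hw' : (a + b) • toLex w = a • toLex x + b • toLex y := by
    have h1 : (a + b) • w = a • x + b • y := by
      have h2 := hw
      rw [← Nat.cast_add, natCast_zsmul, natCast_zsmul, natCast_zsmul] at h2
      exact h2
    exact congrArg toLex h1
  by_contra hlt
  rw [not_le] at hlt
  have h1 : (a + b) • toLex z < (a + b) • toLex w :=
    nsmul_lt_nsmul_right (by omega) hlt
  have h2 : a • toLex x + b • toLex y ≤ a • toLex z + b • toLex z :=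
    add_le_add (nsmul_le_nsmul_right hx a) (nsmul_le_nsmul_right hy b)
  rw [hw', add_nsmul] at h1
  exact absurd (lt_of_lt_of_le h1 h2) (lt_irrefl _)

/-- The stabiliser of a dominant weight is generated by simple reflections.  Port of MTX/R3b `stab_dom`. -/
theorem stab_dom {lam : Fin n → ℤ} (hl : D.Dom lam) {u : D.W} (h : u.1 lam = lam) :
    u ∈ Subgroup.closure {v | ∃ α : D.SRt, D.cp α.1 lam = 0 ∧ v = D.sW α} := by
  refine D.W_induction (P := fun u => u.1 lam = lam →
    u ∈ Subgroup.closure {v | ∃ α : D.SRt, D.cp α.1 lam = 0 ∧ v = D.sW α})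
    (fun _ => one_mem _) ?_ u h
  intro u α hα ih h
  have h1 : D.cp (u • α.1) lam = D.cp α.1 lam := by
    have h0 := D.cp_smul_W u α.1 lam
    rw [h] at h0
    exact h0
  have h2 := hl (D.ng (u • α.1)) ((D.pos_ng _).2 hα)
  rw [cp_ng] at h2
  have h3 := hl α.1 α.2.1
  have h4 : D.cp α.1 lam = 0 := by omega
  have h5 : (u * D.sW α).1 lam = lam := by
    show u.1 (D.rf α.1 lam) = lam
    rw [rf, h4, zero_smul, sub_zero, h]
  have h6 := ih h5
  have h7 : u = u * D.sW α * D.sW α := by rw [mul_assoc, sW_sq, mul_one]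
  rw [h7]
  exact mul_mem h6 (Subgroup.subset_closure ⟨α, h4, rfl⟩)

/-! ### the height -/

theorem ht2_add (x y : Fin n → ℤ) : D.ht2 (x + y) = D.ht2 x + D.ht2 y := by
  unfold ht2
  rw [← Finset.sum_add_distrib]
  exact Finset.sum_congr rfl fun γ _ => D.cp_add _ _ _

theorem ht2_smul (k : ℤ) (x : Fin n → ℤ) : D.ht2 (k • x) = k * D.ht2 x := by
  unfold ht2
  rw [Finset.mul_sum]
  exact Finset.sum_congr rfl fun γ _ => D.cp_smul _ _ _

/-- some simple root has a positive pairing with a positive root -/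
theorem C6_exists {γ : D.Rt} (hγ : D.Pos γ) : ∃ α : D.SRt, 0 < D.cp α.1 γ.1 := by
  by_contra hcon
  push Not at hcon
  have h1 : ∀ α : D.SRt, D.Pos (D.rW γ • α.1) := by
    intro α
    have h2 : D.cp γ α.1.1 ≤ 0 := by
      by_contra h3
      have h4 := (D.cp_pos_iff γ α.1).1 (not_le.1 h3)
      exact absurd h4 (not_lt.2 (hcon α))
    have h5 : toLex (D.rW γ • α.1).1 = toLex α.1.1 + (-D.cp γ α.1.1) • toLex γ.1 := by
      have h6 : (D.rW γ • α.1).1 = α.1.1 + (-D.cp γ α.1.1) • γ.1 := by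
        show α.1.1 - D.cp γ α.1.1 • γ.1 = _
        rw [neg_smul, sub_eq_add_neg]
      rw [h6]
      rfl
    unfold Pos
    rw [h5]
    have h7 : 0 < toLex α.1.1 := α.2.1
    have h8 : 0 < toLex γ.1 := hγ
    have h9 : 0 ≤ (-D.cp γ α.1.1) • toLex γ.1 := by
      obtain ⟨m, hm⟩ := Int.eq_ofNat_of_zero_le (show 0 ≤ -D.cp γ α.1.1 by omega)
      rw [hm, natCast_zsmul]
      exact nsmul_nonneg h8.le m
    exact add_pos_of_pos_of_nonneg h7 h9
  have h10 := D.pos_smul h1 hγ
  rw [rW_self, pos_ng] at h10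
  exact h10 hγ

/-- induction over the positive roots -/
theorem C6_ind {P : D.Rt → Prop} (h1 : ∀ α : D.SRt, P α.1)
    (h2 : ∀ (γ : D.Rt) (α : D.SRt), D.Pos γ → 0 < D.cp α.1 γ.1 → D.Pos (D.rW α.1 • γ) →
      P (D.rW α.1 • γ) → P γ) : ∀ (N : ℕ) (γ : D.Rt), D.Pos γ → (D.cp γ D.p1).toNat ≤ N → P γ := by
  intro N
  induction N with
  | zero =>
    intro γ hγ hN
    have h3 := D.p1_pos hγ
    omega
  | succ N ih =>
    intro γ hγ hN
    obtain ⟨α, hα⟩ := D.C6_exists hγ
    by_cases h3 : γ = α.1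
    · rw [h3]
      exact h1 α
    · have h4 : D.Pos (D.rW α.1 • γ) := α.2.2 γ hγ h3
      refine h2 γ α hγ hα h4 (ih _ h4 ?_)
      have h5 : D.cp (D.rW α.1 • γ) D.p1 = D.cp γ D.p1 - D.cp γ α.1.1 * D.cp α.1 D.p1 :=
        D.cp_rW α.1 γ D.p1
      have h6 := D.p1_pos h4
      have h7 := D.p1_pos α.2.1
      have h8 := (D.cp_pos_iff α.1 γ).1 hα
      have h9 : 0 < D.cp γ α.1.1 * D.cp α.1 D.p1 := mul_pos h8 h7
      omega

theorem C6_val (γ : D.Rt) (α : D.SRt) : γ.1 = (D.rW α.1 • γ).1 + D.cp α.1 γ.1 • α.1.1 := by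
  show γ.1 = (γ.1 - D.cp α.1 γ.1 • α.1.1) + D.cp α.1 γ.1 • α.1.1
  rw [sub_add_cancel]

/-- `⟨α, 2ρ^∨⟩ = 2` for simple `α`: `s_α` permutes the positive roots other than `α` (`Sim`), so
`∑_{γ > 0, γ ≠ α} cp γ (s_α x) = ∑_{γ > 0, γ ≠ α} cp γ x`; take `x = α`: this sum is `0`. -/
theorem ht2_sim (α : D.SRt) : D.ht2 α.1.1 = 2 := by
  classical
  unfold ht2
  have hmem : (⟨α.1, α.2.1⟩ : D.PRt) ∈ (Finset.univ : Finset D.PRt) := Finset.mem_univ _
  rw [← Finset.add_sum_erase _ _ hmem]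
  have h1 : D.cp α.1 α.1.1 = 2 := D.cp_self α.1
  have hne : ∀ γ ∈ (Finset.univ : Finset D.PRt).erase ⟨α.1, α.2.1⟩, γ.1 ≠ α.1 := by
    intro γ hγ h
    exact (Finset.mem_erase.1 hγ).1 (Subtype.ext h)
  have h2 : ∑ γ ∈ (Finset.univ : Finset D.PRt).erase ⟨α.1, α.2.1⟩, D.cp γ.1 α.1.1 = 0 := by
    have hcp : ∀ γ : D.Rt, D.cp (D.rW α.1 • γ) α.1.1 = - D.cp γ α.1.1 := by
      intro γ
      rw [cp_rW, h1]
      ring
    refine Finset.sum_involution (fun γ hγ => ⟨D.rW α.1 • γ.1, α.2.2 γ.1 γ.2 (hne γ hγ)⟩)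
      ?_ ?_ ?_ ?_
    · intro γ hγ
      show D.cp γ.1 α.1.1 + D.cp (D.rW α.1 • γ.1) α.1.1 = 0
      rw [hcp]
      ring
    · intro γ hγ h3 h4
      have h5 : D.rW α.1 • γ.1 = γ.1 := congrArg Subtype.val h4
      have h6 := hcp γ.1
      rw [h5] at h6
      apply h3
      omega
    · intro γ hγ
      rw [Finset.mem_erase]
      refine ⟨fun h => ?_, Finset.mem_univ _⟩
      have h5 : D.rW α.1 • γ.1 = α.1 := congrArg Subtype.val h
      have h8 : D.rW α.1 • (D.rW α.1 • γ.1) = γ.1 := by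
        rw [← mul_smul, D.rW_sq, one_smul]
      have h6 : γ.1 = D.ng α.1 := by
        rw [h5, rW_self] at h8
        exact h8.symm
      have h7 := γ.2
      rw [h6] at h7
      exact (D.pos_ng α.1).1 h7 α.2.1
    · intro γ hγ
      apply Subtype.ext
      show D.rW α.1 • D.rW α.1 • γ.1 = γ.1
      rw [← mul_smul, D.rW_sq, one_smul]
  rw [h2, add_zero]
  exact h1

/-- `⟨γ, 2ρ^∨⟩` is even and positive for positive `γ`: induction as in `exists_simple` (`γ = δ + m α`,
`m = cp α γ > 0`, `δ = s_α γ` positive or `γ` simple). -/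
theorem ht2_pos {γ : D.Rt} (h : D.Pos γ) : 0 < D.ht2 γ.1 ∧ 2 ∣ D.ht2 γ.1 := by
  refine D.C6_ind (P := fun γ => 0 < D.ht2 γ.1 ∧ 2 ∣ D.ht2 γ.1) ?_ ?_ (D.cp γ D.p1).toNat γ h le_rfl
  · intro α
    show 0 < D.ht2 α.1.1 ∧ 2 ∣ D.ht2 α.1.1
    rw [ht2_sim]
    exact ⟨by norm_num, dvd_refl _⟩
  · intro γ α _ hα _ ih
    have h1 := D.C6_val γ α
    have h2 : D.ht2 γ.1 = D.ht2 (D.rW α.1 • γ).1 + D.cp α.1 γ.1 * 2 := by
      conv_lhs => rw [h1]
      rw [ht2_add, ht2_smul, ht2_sim]
    show 0 < D.ht2 γ.1 ∧ 2 ∣ D.ht2 γ.1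
    rw [h2]
    obtain ⟨h3, h4⟩ := ih
    exact ⟨by omega, dvd_add h4 (dvd_mul_left _ _)⟩

noncomputable instance : Fintype D.SRt := Fintype.ofFinite _

/-- a positive root is a nonnegative combination of simple roots (same induction) -/
theorem exists_sum {γ : D.Rt} (h : D.Pos γ) : ∃ c : D.SRt → ℕ, γ.1 = ∑ α, c α • α.1.1 := by
  classical
  refine D.C6_ind (P := fun γ => ∃ c : D.SRt → ℕ, γ.1 = ∑ α, c α • α.1.1) ?_ ?_
    (D.cp γ D.p1).toNat γ h le_rfl
  · intro α
    refine ⟨fun β => if β = α then 1 else 0, ?_⟩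
    show α.1.1 = _
    rw [Finset.sum_eq_single α]
    · dsimp only
      rw [if_pos rfl, one_smul]
    · intro β _ hβ
      dsimp only
      rw [if_neg hβ, zero_smul]
    · intro h
      exact absurd (Finset.mem_univ _) h
  · intro γ α _ hα _ ih
    obtain ⟨c, hc⟩ := ih
    refine ⟨fun β => c β + (if β = α then (D.cp α.1 γ.1).toNat else 0), ?_⟩
    have h1 := D.C6_val γ α
    rw [hc] at h1
    refine h1.trans ?_
    have h2 : ∑ β, (c β + (if β = α then (D.cp α.1 γ.1).toNat else 0)) • β.1.1 =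
        ∑ β, c β • β.1.1 + ∑ β : D.SRt, (if β = α then (D.cp α.1 γ.1).toNat else 0) • β.1.1 := by
      rw [← Finset.sum_add_distrib]
      exact Finset.sum_congr rfl fun β _ => add_smul _ _ _
    refine Eq.trans ?_ h2.symm
    congr 1
    rw [Finset.sum_eq_single α]
    · rw [if_pos rfl, ← natCast_zsmul, Int.toNat_of_nonneg hα.le]
    · intro β _ hβ
      rw [if_neg hβ, zero_smul]
    · intro h
      exact absurd (Finset.mem_univ _) h

end RD

end Pool.Agent.MTG
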