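import Pool.Agent.MTG.G5
import Pool.Agent.MTX.R3a

/-! # MTG, Part G : (9.1), (9.2) with length-zero elements (port of MTX/R3c.lean)

The labels of the index `p` of the word `i` twisted by `ω : D.Om` is `lab p * ω`; its weight is
`(lab p * ω).l`. -/

namespace Pool.Agent.MTG

open MvPolynomial
open Pool.Agent.MTX (AS SW RedData redJ redJ_top lab_mem lab_top)
open Pool.Agent.MTX.SLD (RR AA fm fm0 fm0_neg)

namespace RD

variable {n : ℕ} (D : RD n)

theorem sw0_pr (l : List D.SA) : D.sw0.pr l = D.aff.sw.pr l := by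
  induction l with
  | nil => rfl
  | cons s l ih => exact congrArg (· * D.aref s.1) ih

theorem sw0_lab_top (l : List D.SA) :
    (D.sw0.BS l).lab (D.sw0.top l) = D.aff.sw.pr l := by
  rw [lab_top, sw0_pr]

/-- The denominator at the top index. -/
theorem eu_top (l : List D.SA) : D.sw0.eu l (D.sw0.top l) =
    (-1) ^ l.length * ((D.aff.rts l).map fun b => fm0 b.1.1).prod := by
  induction l with
  | nil => show (1 : AA n) = _; simp [AS.rts]
  | cons s l ih =>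
    have h1 : D.sw0.eu (s :: l) (D.sw0.top (s :: l)) =
        (-1) * ((D.sw0.BS l).lab (D.sw0.top l) • D.sw0.f s) * D.sw0.eu l (D.sw0.top l) := rfl
    rw [h1, ih, sw0_lab_top, AS.rts, List.map_cons, List.prod_cons, List.length_cons, pow_succ]
    have h2 : D.aff.sw.pr l • (D.sw0.f s : AA n) = fm0 (D.aff.sw.pr l • s.1).1.1 := by
      show D.aff.sw.pr l • (fm0 s.1.1.1 : AA n) = _
      rw [Aff_smul_A, smul_fm0]; rfl
    rw [h2]
    show -1 * fm0 (D.aff.sw.pr l • s.1).1.1 * _ =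
      (-1) ^ l.length * -1 * (fm0 (D.aff.sw.pr l • s.1).1.1 * _)
    ring

/-- the data of (9.1) -/
structure Wd (lam : Fin n → ℤ) (i : List D.SA) (ω : D.Om) : Prop where
  red : D.aff.Red i
  l : (D.aff.sw.pr i * ω.1).l = lam
  min : ∀ w : D.Aff, w.l = lam → D.dd (D.aff.sw.pr i * ω.1) ≤ D.dd w

theorem exists_Wd (lam : Fin n → ℤ) : ∃ i ω, D.Wd lam i ω := by
  obtain ⟨ω, i, h1, h2, h3⟩ := D.exists_word lam
  exact ⟨i, ω, h1, h2, h3⟩

variable {D}

/-- the second component of `w⁻¹ • b` -/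
theorem inv_smul_snd (w : D.Aff) (b : D.ARt) : (w⁻¹ • b).2 = b.2 + D.cp b.1 w.l := by
  rw [smul_snd, inv_l, inv_u, cp_neg, cp_smul_W]
  ring

/-- Port of MTX/R3c `Wd.inv_iff` (for `w = pr i * ω`; `apos ((pr i)⁻¹ • b) ↔ apos (w⁻¹ • b)` by `Om_pos`). -/
theorem Wd.inv_iff {lam : Fin n → ℤ} {i : List D.SA} {ω : D.Om} (h : D.Wd lam i ω) {b : D.ARt}
    (hb : D.apos b) : ¬ D.apos ((D.aff.sw.pr i)⁻¹ • b) ↔ b.2 + D.cp b.1 lam < 0 := by
  have hw : (D.aff.sw.pr i * ω.1)⁻¹ • b = (ω.1)⁻¹ • ((D.aff.sw.pr i)⁻¹ • b) := by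
    rw [mul_inv_rev, mul_smul]
  have hpos : D.apos ((D.aff.sw.pr i)⁻¹ • b) ↔ D.apos ((D.aff.sw.pr i * ω.1)⁻¹ • b) := by
    rw [hw]
    exact (D.Om_pos (D.Om.inv_mem ω.2) _).symm
  rw [hpos]
  have h2 : ((D.aff.sw.pr i * ω.1)⁻¹ • b).2 = b.2 + D.cp b.1 lam := by
    rw [inv_smul_snd, h.l]
  constructor
  · intro h1
    rcases lt_trichotomy (b.2 + D.cp b.1 lam) 0 with h3 | h3 | h3
    · exact h3
    · exfalso
      have h4 := D.dd_lt hb h1
      have h5 : (D.aref b * (D.aff.sw.pr i * ω.1)).l = lam := by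
        rw [mul_l D, aref_l, aref_u, h.l]
        show -(b.2 • b.1.1) + D.rf b.1 lam = lam
        rw [rf]
        have h6 : b.2 = - D.cp b.1 lam := by omega
        rw [h6]; module
      have h6 := h.min _ h5
      omega
    · exfalso; apply h1; left; rw [h2]; exact h3
  · intro h3 h4
    rcases h4 with h4 | ⟨h4, _⟩ <;> rw [h2] at h4 <;> omega

/-- The denominator at the top index: `± ∏_{γ > 0} γ^{max (⟨λ,γ^∨⟩ - 1, 0)}`. -/
theorem Wd.eu_eq {lam : Fin n → ℤ} (hl : D.Dom lam) {i : List D.SA} {ω : D.Om}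
    (h : D.Wd lam i ω) : ∃ ε : ℂ, (ε = 1 ∨ ε = -1) ∧ D.sw0.eu i (D.sw0.top i) =
      MvPolynomial.C ε * ∏ γ : D.PRt, fm0 γ.1.1 ^ (D.cp γ.1 lam - 1).toNat := by
  classical
  rw [eu_top]
  have h1 : ((D.aff.rts i).map fun b => fm0 b.1.1).prod =
      ∏ b ∈ (D.aff.rts i).toFinset, fm0 b.1.1 :=
    (List.prod_toFinset _ (D.aff.nodup_rts i h.red)).symm
  have h2 : ∏ b ∈ (D.aff.rts i).toFinset, (fm0 b.1.1 : AA n) =
      ∏ x ∈ (Finset.univ : Finset D.PRt).sigma fun γ => Finset.range (D.cp γ.1 lam - 1).toNat,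
        fm0 (-x.1.1.1) := by
    refine (Finset.prod_bij (fun x _ => ((D.ng x.1.1, (x.2 : ℤ) + 1) : D.ARt)) ?_ ?_ ?_ ?_).symm
    · rintro ⟨γ, j⟩ hx
      rw [Finset.mem_sigma, Finset.mem_range] at hx
      simp only at hx
      rw [List.mem_toFinset, D.aff.mem_rts i h.red]
      have hp : D.apos (D.ng γ.1, (j : ℤ) + 1) := Or.inl (by show (0 : ℤ) < (j : ℤ) + 1; omega)
      refine ⟨hp, ?_⟩
      have h0 := hx.2
      have := (h.inv_iff hp).2 (by
        show (j : ℤ) + 1 + D.cp (D.ng γ.1) lam < 0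
        rw [cp_ng]; omega)
      exact this
    · rintro ⟨γ, j⟩ _ ⟨γ', j'⟩ _ he
      have h3 := congrArg Prod.fst he
      have h4 := congrArg Prod.snd he
      simp only at h3 h4
      have h5 : γ = γ' := Subtype.ext (by rw [← D.ng_ng γ.1, h3, D.ng_ng])
      have h6 : j = j' := by omega
      subst h5; subst h6; rfl
    · rintro b hb
      rw [List.mem_toFinset, D.aff.mem_rts i h.red] at hb
      have h3 : b.2 + D.cp b.1 lam < 0 := (h.inv_iff hb.1).1 hb.2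
      have h4 : 0 ≤ b.2 := by
        rcases (show 0 < b.2 ∨ (b.2 = 0 ∧ D.Pos b.1) from hb.1) with h5 | h5 <;> omega
      have h5 : D.Pos (D.ng b.1) := by
        rw [pos_ng]
        intro h6
        have := hl _ h6
        omega
      have h6 : 0 < b.2 := by
        rcases (show 0 < b.2 ∨ (b.2 = 0 ∧ D.Pos b.1) from hb.1) with h6 | h6
        · exact h6
        · exact ((D.pos_ng _).1 h5 h6.2).elim
      refine ⟨⟨⟨D.ng b.1, h5⟩, (b.2 - 1).toNat⟩, ?_, ?_⟩
      · rw [Finset.mem_sigma, Finset.mem_range]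
        refine ⟨Finset.mem_univ _, ?_⟩
        show (b.2 - 1).toNat < (D.cp (D.ng b.1) lam - 1).toNat
        rw [cp_ng]
        omega
      · apply D.ARt_ext
        · show - -b.1.1 = b.1.1
          exact neg_neg _
        · show (((b.2 - 1).toNat : ℕ) : ℤ) + 1 = b.2
          omega
    · rintro ⟨γ, j⟩ _
      rfl
  rw [h1, h2, Finset.prod_sigma]
  have h3 : ∏ γ : D.PRt, ∏ _j ∈ Finset.range (D.cp γ.1 lam - 1).toNat, (fm0 (-γ.1.1) : AA n) =
      (∏ γ : D.PRt, (-1 : AA n) ^ (D.cp γ.1 lam - 1).toNat) *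
        ∏ γ : D.PRt, fm0 γ.1.1 ^ (D.cp γ.1 lam - 1).toNat := by
    rw [← Finset.prod_mul_distrib]
    refine Finset.prod_congr rfl fun γ _ => ?_
    rw [Finset.prod_const, Finset.card_range, fm0_neg, neg_pow]
  rw [h3, Finset.prod_pow_eq_pow_sum, ← mul_assoc, ← pow_add]
  rcases neg_one_pow_eq_or ℂ (i.length + ∑ γ : D.PRt, (D.cp γ.1 lam - 1).toNat) with h4 | h4
  · refine ⟨1, Or.inl rfl, ?_⟩
    congr 1
    rw [← h4]; simp
  · refine ⟨-1, Or.inr rfl, ?_⟩
    congr 1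
    rw [← h4]; simp

/-- The closed set of (9.2).  Port of MTX/R3c `Wd.closed`; with `ν = (v * ω).l`, `j = b.2 + cp b.1 ν ≤ 0`:
`(s_b v ω).l = ν - j γ`, `B(ν - j γ, ν - j γ) = B(ν,ν) + B(γ,γ) b.2 j`, and
`(b.2 - j) (ν - j γ) = b.2 ν + (- j) s_γ ν` (`le_convex`). -/
theorem Wd.closed {lam : Fin n → ℤ} (hl : D.Dom lam) {i : List D.SA} {ω : D.Om}
    (h : D.Wd lam i ω) : D.aff.Closed D.aff.pos
      {v | v = D.aff.sw.pr i ∨ ((v * ω.1).l ∈ D.PiS lam ∧
        D.B (v * ω.1).l (v * ω.1).l < D.B lam lam)} := by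
  intro v hv b hb hn
  have hvl : (v * ω.1).l ∈ D.PiS lam := by
    rcases hv with rfl | hv
    · rw [h.l]; exact D.lam_mem_PiS hl
    · exact hv.1
  have hn1 : ¬ D.apos ((v * ω.1)⁻¹ • b) := by
    rw [mul_inv_rev, mul_smul, D.Om_pos (D.Om.inv_mem ω.2)]
    exact hn
  have hn2 : ((v * ω.1)⁻¹ • b).2 = b.2 + D.cp b.1 (v * ω.1).l := inv_smul_snd _ _
  have hb2 : 0 ≤ b.2 := by
    rcases (show 0 < b.2 ∨ (b.2 = 0 ∧ D.Pos b.1) from hb) with h5 | h5 <;> omega
  have hj : b.2 + D.cp b.1 (v * ω.1).l ≤ 0 := by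
    by_contra h1
    push Not at h1
    exact hn1 (Or.inl (by rw [hn2]; exact h1))
  have hl2 : (D.aref b * v * ω.1).l = (v * ω.1).l - (b.2 + D.cp b.1 (v * ω.1).l) • b.1.1 := by
    rw [mul_assoc, mul_l, aref_l, aref_u]
    show -(b.2 • b.1.1) + D.rf b.1 (v * ω.1).l = _
    rw [rf]; module
  generalize hν : (v * ω.1).l = ν at hvl hj hl2
  have hnorm : D.B (D.aref b * v * ω.1).l (D.aref b * v * ω.1).l =
      D.B ν ν + D.B b.1.1 b.1.1 * (b.2 * (b.2 + D.cp b.1 ν)) := by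
    rw [hl2]
    simp only [B_sub_left, B_sub_right, B_smul_left, B_smul_right, D.B_comm ν b.1.1]
    have h1 := D.cp_mul b.1 ν
    linear_combination (b.2 + D.cp b.1 ν) * h1
  have hPi : (D.aref b * v * ω.1).l ∈ D.PiS lam := by
    by_cases h0 : D.cp b.1 ν = 0
    · have h1 : b.2 = 0 := by omega
      rw [hl2, h0, h1, add_zero, zero_smul, sub_zero]; exact hvl
    · intro u
      have hneg : D.cp b.1 ν < 0 := by omega
      have hsv : (D.rW b.1).1 ν ∈ D.PiS lam := D.PiS_smul hvl (D.rW b.1)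
      refine le_convex (x := u.1 ν) (y := u.1 ((D.rW b.1).1 ν)) (a := b.2)
        (b := -(b.2 + D.cp b.1 ν)) hb2 (by omega) (by omega) (hvl u) (hsv u) ?_
      rw [← map_smul, ← map_smul, ← map_smul, ← map_add]
      congr 1
      show _ = b.2 • ν + (-(b.2 + D.cp b.1 ν)) • D.rf b.1 ν
      rw [hl2, rf]
      module
  have hBp := D.BRt_pos b.1
  rcases hv with rfl | hv
  · have hνl : ν = lam := by rw [← hν, h.l]
    subst hνl
    have h3 := (h.inv_iff hb).1 hn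
    right
    refine ⟨hPi, ?_⟩
    have hk : 0 < b.2 := by
      rcases (show 0 < b.2 ∨ (b.2 = 0 ∧ D.Pos b.1) from hb) with h5 | h5
      · exact h5
      · exfalso
        have := hl _ h5.2
        omega
    show D.B (D.aref b * D.aff.sw.pr i * ω.1).l (D.aref b * D.aff.sw.pr i * ω.1).l < D.B ν ν
    rw [hnorm]
    have h4 : b.2 * (b.2 + D.cp b.1 ν) < 0 := by nlinarith
    have h5 : D.B b.1.1 b.1.1 * (b.2 * (b.2 + D.cp b.1 ν)) < 0 := by nlinarith
    omega
  · right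
    refine ⟨hPi, ?_⟩
    have h2 := hv.2
    rw [hν] at h2
    show D.B (D.aref b * v * ω.1).l (D.aref b * v * ω.1).l < D.B lam lam
    rw [hnorm]
    have h4 : b.2 * (b.2 + D.cp b.1 ν) ≤ 0 := by nlinarith
    have h5 : D.B b.1.1 b.1.1 * (b.2 * (b.2 + D.cp b.1 ν)) ≤ 0 := by nlinarith
    omega

/-- Port of MTX/R3c `dd_lab`, for the function `v ↦ dd (v * ω)`. -/
theorem dd_lab (ω : D.Om) (i : List D.SA) (hi : D.aff.Red i) (p : (D.aff.sw.BS i).J) :
    (D.aff.sw.BS i).lab p = D.aff.sw.pr i ∨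
      D.dd ((D.aff.sw.BS i).lab p * ω.1) < D.dd (D.aff.sw.pr i * ω.1) := by
  refine Pool.Agent.MTX.lab_mem D.aff i hi
    {v | v = D.aff.sw.pr i ∨ D.dd (v * ω.1) < D.dd (D.aff.sw.pr i * ω.1)} ?_ (Or.inl rfl) p
  intro v hv b hb hn
  right
  have hn' : ¬ D.apos ((v * ω.1)⁻¹ • b) := by
    rw [mul_inv_rev, mul_smul, D.Om_pos (D.Om.inv_mem ω.2)]
    exact hn
  have h1 := D.dd_lt (b := b) (w := v * ω.1) hb hn'
  rw [← mul_assoc] at h1
  rcases hv with rfl | hv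
  · exact h1
  · exact h1.trans hv

/-- Port of MTX/R3c `top_unique` (take `ω = 1` in `dd_lab`; `dd (pr l) < dd (pr (s :: l))` for a reduced word
`s :: l`: `pr (s :: l) = pr l * s_s = s_b * pr l`, `b = pr l • s > 0`, `(pr (s :: l))⁻¹ b = - s`, `dd_lt`). -/
theorem top_unique (i : List D.SA) (hi : D.aff.Red i) (p : (D.aff.sw.BS i).J)
    (hp : (D.aff.sw.BS i).lab p = D.aff.sw.pr i) : p = D.aff.sw.top i := by
  induction i with
  | nil => rfl
  | cons s l ih =>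
    obtain ⟨hl, hs⟩ := hi
    obtain ⟨p, ε⟩ := p
    have hgt : D.dd (D.aff.sw.pr l) < D.dd (D.aff.sw.pr (s :: l)) := by
      have e1 : D.aref (D.aff.sw.pr l • s.1) * D.aff.sw.pr (s :: l) = D.aff.sw.pr l := by
        rw [pr_cons, aref_smul, ← mul_assoc, inv_mul_cancel_right, mul_assoc, aref_sq, mul_one]
      have e2 : ¬ D.apos ((D.aff.sw.pr (s :: l))⁻¹ • D.aff.sw.pr l • s.1) := by
        have hinv : (D.aref s.1)⁻¹ = D.aref s.1 := inv_eq_of_mul_eq_one_right (D.aref_sq s.1)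
        rw [pr_cons, mul_inv_rev, mul_smul, inv_smul_smul, hinv, aref_self, apos_ang, not_not]
        exact s.2.1
      have h1 := D.dd_lt (b := D.aff.sw.pr l • s.1) (w := D.aff.sw.pr (s :: l)) hs e2
      rw [e1] at h1
      exact h1
    cases ε with
    | false =>
      exfalso
      have h1 : (D.aff.sw.BS l).lab p = D.aff.sw.pr (s :: l) := hp
      rcases dd_lab 1 l hl p with h2 | h2
      · rw [h1] at h2; rw [h2] at hgt; exact lt_irrefl _ hgt
      · rw [h1] at h2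
        simp only [OneMemClass.coe_one, mul_one] at h2
        exact lt_irrefl _ (h2.trans hgt)
    | true =>
      have h1 : (D.aff.sw.BS l).lab p * D.aref s.1 = D.aff.sw.pr l * D.aref s.1 := hp
      have h2 := ih hl p (mul_right_cancel h1)
      rw [h2]; rfl

/-- (9.2) for the reduced data.  Port of MTX/R3c `Wd.lab`, `Wd.lab0`. -/
theorem Wd.lab0 {lam : Fin n → ℤ} (hl : D.Dom lam) {i : List D.SA} {ω : D.Om}
    (h : D.Wd lam i ω) (p : (D.sw0.BS i).J) (hp : p ≠ D.sw0.top i) :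
    ((D.sw0.BS i).lab p * ω.1).l ∈ D.PiS lam ∧
      D.B ((D.sw0.BS i).lab p * ω.1).l ((D.sw0.BS i).lab p * ω.1).l < D.B lam lam := by
  obtain ⟨q, rfl⟩ := (redJ D.aff.sw D.sw0 i).surjective p
  rw [D.rdat.lab i q]
  rcases Pool.Agent.MTX.lab_mem D.aff i h.red _ (h.closed hl) (Or.inl rfl) q with h1 | h1
  · refine (hp ?_).elim
    rw [top_unique i h.red q h1, redJ_top]
  · exact h1

/-- All labels have weights in the saturated set of `λ`. -/
theorem Wd.lab_mem {lam : Fin n → ℤ} (hl : D.Dom lam) {i : List D.SA} {ω : D.Om}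
    (h : D.Wd lam i ω) (p : (D.sw0.BS i).J) : ((D.sw0.BS i).lab p * ω.1).l ∈ D.PiS lam := by
  by_cases hp : p = D.sw0.top i
  · rw [hp, sw0_lab_top, h.l]; exact D.lam_mem_PiS hl
  · exact (h.lab0 hl p hp).1

/-- The weights of the labels `≠ top` are not in the orbit of `λ`. -/
theorem Wd.lab_ne {lam : Fin n → ℤ} (hl : D.Dom lam) {i : List D.SA} {ω : D.Om}
    (h : D.Wd lam i ω) (p : (D.sw0.BS i).J) (hp : p ≠ D.sw0.top i) (u : D.W) :
    u.1 ((D.sw0.BS i).lab p * ω.1).l ≠ lam := by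
  intro h1
  have h2 := (h.lab0 hl p hp).2
  rw [← h1, B_W] at h2
  exact lt_irrefl _ h2

end RD

end Pool.Agent.MTG
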