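import Pool.Agent.MTG.G6
import Pool.Agent.MTX.S12c

/-! # MTG, Part G : theorem (5.3) for weights, with length-zero elements (port of MTX/R5.lean) -/

namespace Pool.Agent.MTG

open MvPolynomial
open Pool.Agent.MTX (AS SW RedData redJ redJ_top lab_mem lab_top)
open Pool.Agent.MTX.SLD (RR AA fm fm0 fm0_neg)

namespace RD

variable {n : ℕ} (D : RD n)

/-! ### the root lattice and the affine Weyl group -/

/-- the root lattice -/
def Q : AddSubgroup (Fin n → ℤ) := AddSubgroup.closure D.Φ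

/-- Two roots with `cp γ δ < 0`: `γ + δ` is a root or zero.  (`δ = ng γ`: zero.  Otherwise by `cp_mul_cp`,
`cp_pos_iff` (for `ng`), one of `cp γ δ`, `cp δ γ` is `-1`; then `γ + δ` is `rf γ δ` resp. `rf δ γ`.) -/
theorem add_root {γ δ : D.Rt} (h : D.cp γ δ.1 < 0) : γ.1 + δ.1 = 0 ∨ γ.1 + δ.1 ∈ D.Φ := by
  have hne : δ ≠ γ := by
    rintro rfl
    rw [cp_self] at h
    omega
  by_cases hng : δ = D.ng γ
  · left
    rw [hng, ng_val, add_neg_cancel]
  · right
    have h1 := D.cp_mul_cp hne hng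
    have h2 : D.cp δ γ.1 < 0 := by
      have h3 := (D.cp_pos_iff γ (D.ng δ)).1 (by rw [ng_val, cp_neg]; omega)
      rw [cp_ng] at h3
      omega
    have h4 : D.cp γ δ.1 = -1 ∨ D.cp δ γ.1 = -1 := by
      by_contra h5
      push Not at h5
      have h6 : D.cp γ δ.1 ≤ -2 := by
        have := h5.1
        omega
      have h7 : D.cp δ γ.1 ≤ -2 := by
        have := h5.2
        omega
      nlinarith
    rcases h4 with h4 | h4
    · have h5 := D.rf_mem γ δ
      rw [rf, h4, neg_smul, one_smul, sub_neg_eq_add, add_comm] at h5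
      exact h5
    · have h5 := D.rf_mem δ γ
      rw [rf, h4, neg_smul, one_smul, sub_neg_eq_add] at h5
      exact h5

theorem e1_nonneg (γ : D.Rt) (t : Multiset D.Rt) (h : ∀ δ ∈ t, 0 ≤ D.cp γ δ.1) :
    0 ≤ D.cp γ (t.map Subtype.val).sum := by
  induction t using Multiset.induction_on with
  | empty =>
    rw [Multiset.map_zero, Multiset.sum_zero, cp_zero]
  | cons a t ih =>
    rw [Multiset.map_cons, Multiset.sum_cons, cp_add]
    have h1 := h a (Multiset.mem_cons_self a t)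
    have h2 := ih fun δ hδ => h δ (Multiset.mem_cons_of_mem hδ)
    omega

theorem e1_exists {v : Fin n → ℤ} (hv : v ∈ D.Q) :
    ∃ s : Multiset D.Rt, (s.map Subtype.val).sum = v := by
  induction hv using AddSubgroup.closure_induction with
  | mem x hx => exact ⟨{⟨x, hx⟩}, by rw [Multiset.map_singleton, Multiset.sum_singleton]⟩
  | zero => exact ⟨0, by rw [Multiset.map_zero, Multiset.sum_zero]⟩
  | add x y _ _ hx hy =>
    obtain ⟨s, rfl⟩ := hx
    obtain ⟨t, rfl⟩ := hy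
    exact ⟨s + t, by rw [Multiset.map_add, Multiset.sum_add]⟩
  | neg x _ hx =>
    obtain ⟨s, rfl⟩ := hx
    refine ⟨s.map D.ng, ?_⟩
    rw [Multiset.map_map, ← Multiset.sum_map_neg', Multiset.map_map]
    rfl

/-- A nonzero element of the root lattice pairs to `≥ 2` with some root: write it as a sum of a list of roots of
minimal length; by `add_root` all pairings of two members (different positions) are `≥ 0`, so
`cp γ_1 v = 2 + ∑ ≥ 2`. -/
theorem exists_two {v : Fin n → ℤ} (hv : v ∈ D.Q) (h0 : v ≠ 0) : ∃ γ : D.Rt, 2 ≤ D.cp γ v := by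
  classical
  have hex : ∃ m : ℕ, ∃ s : Multiset D.Rt, (s.map Subtype.val).sum = v ∧ s.card = m := by
    obtain ⟨s, hs⟩ := D.e1_exists hv
    exact ⟨s.card, s, hs, rfl⟩
  obtain ⟨s, hs, hcard⟩ := Nat.find_spec hex
  have hmin : ∀ t : Multiset D.Rt, (t.map Subtype.val).sum = v → s.card ≤ t.card := by
    intro t ht
    rw [hcard]
    exact Nat.find_min' hex ⟨t, ht, rfl⟩
  clear hcard
  have hs0 : s ≠ 0 := by
    rintro rfl
    rw [Multiset.map_zero, Multiset.sum_zero] at hs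
    exact h0 hs.symm
  obtain ⟨γ, hγ⟩ := Multiset.exists_mem_of_ne_zero hs0
  obtain ⟨t, rfl⟩ := Multiset.exists_cons_of_mem hγ
  refine ⟨γ, ?_⟩
  have hnn := D.e1_nonneg γ t (fun δ hδ => by
    by_contra hneg
    obtain ⟨t', rfl⟩ := Multiset.exists_cons_of_mem hδ
    rw [Multiset.map_cons, Multiset.map_cons, Multiset.sum_cons, Multiset.sum_cons, ← add_assoc] at hs
    rcases D.add_root (γ := γ) (δ := δ) (by omega) with h1 | h1
    · rw [h1, zero_add] at hs
      have h2 := hmin t' hs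
      rw [Multiset.card_cons, Multiset.card_cons] at h2
      omega
    · have h2 := hmin (⟨γ.1 + δ.1, h1⟩ ::ₘ t') (by rw [Multiset.map_cons, Multiset.sum_cons]; exact hs)
      rw [Multiset.card_cons, Multiset.card_cons, Multiset.card_cons] at h2
      omega)
  rw [← hs, Multiset.map_cons, Multiset.sum_cons, cp_add, cp_self]
  omega

/-- the affine Weyl group: `Q ⋊ W` -/
def Wa : Subgroup D.Aff where
  carrier := {w | w.l ∈ D.Q}
  mul_mem' := by
    intro v w hv hw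
    show v.l + v.u.1 w.l ∈ D.Q
    refine D.Q.add_mem hv ?_
    have : ∀ x ∈ D.Q, v.u.1 x ∈ D.Q := by
      intro x hx
      induction hx using AddSubgroup.closure_induction with
      | mem x hx => exact AddSubgroup.subset_closure ((D.W_prop v.u.2).2 ⟨x, hx⟩)
      | zero => rw [map_zero]; exact D.Q.zero_mem
      | add x y _ _ hx hy => rw [map_add]; exact D.Q.add_mem hx hy
      | neg x _ hx => rw [map_neg]; exact D.Q.neg_mem hx
    exact this _ hw
  one_mem' := D.Q.zero_mem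
  inv_mem' := by
    intro v hv
    show -(v.u⁻¹).1 v.l ∈ D.Q
    refine D.Q.neg_mem ?_
    have : ∀ x ∈ D.Q, (v.u⁻¹).1 x ∈ D.Q := by
      intro x hx
      induction hx using AddSubgroup.closure_induction with
      | mem x hx => exact AddSubgroup.subset_closure ((D.W_prop (v.u⁻¹).2).2 ⟨x, hx⟩)
      | zero => rw [map_zero]; exact D.Q.zero_mem
      | add x y _ _ hx hy => rw [map_add]; exact D.Q.add_mem hx hy
      | neg x _ hx => rw [map_neg]; exact D.Q.neg_mem hx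
    exact this _ hv

theorem aref_mem_Wa (b : D.ARt) : D.aref b ∈ D.Wa :=
  D.Q.neg_mem (D.Q.zsmul_mem (AddSubgroup.subset_closure b.1.2) _)

/-- the labels are in the affine Weyl group (induction on the word) -/
theorem lab_mem_Wa (j : List D.SA) (p : (D.sw0.BS j).J) : (D.sw0.BS j).lab p ∈ D.Wa := by
  induction j with
  | nil => exact D.Wa.one_mem
  | cons s l ih =>
    obtain ⟨q, b⟩ := p
    cases b
    · exact ih q
    · show (D.sw0.BS l).lab q * D.sw0.g s ∈ D.Wa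
      exact D.Wa.mul_mem (ih q) (D.aref_mem_Wa s.1)

/-- `u x - x ∈ Q` for `u ∈ W` (generated by reflections: `Subgroup.closure_induction`) -/
theorem sub_mem_Q (u : D.W) (x : Fin n → ℤ) : u.1 x - x ∈ D.Q := by
  obtain ⟨u, hu⟩ := u
  show u x - x ∈ D.Q
  induction hu using Subgroup.closure_induction generalizing x with
  | mem u hu =>
    obtain ⟨γ, rfl⟩ := hu
    show D.rf γ x - x ∈ D.Q
    have h : D.rf γ x - x = -(D.cp γ x • γ.1) := by rw [rf]; abel
    rw [h]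
    exact D.Q.neg_mem (D.Q.zsmul_mem (AddSubgroup.subset_closure γ.2) _)
  | one =>
    show x - x ∈ D.Q
    rw [sub_self]; exact D.Q.zero_mem
  | mul u v _ _ hu hv =>
    have h : (u * v) x - x = (u (v x) - v x) + (v x - x) := by
      show u (v x) - x = _
      abel
    rw [h]
    exact D.Q.add_mem (hu _) (hv _)
  | inv u _ hu =>
    have h1 : u (u⁻¹ x) = x := by
      show (u * u⁻¹) x = x
      rw [mul_inv_cancel]; rfl
    have h := hu (u⁻¹ x)
    rw [h1] at h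
    have h2 := D.Q.neg_mem h
    rwa [neg_sub] at h2

theorem E2_W_mem_Q (u : D.W) {x : Fin n → ℤ} (hx : x ∈ D.Q) : u.1 x ∈ D.Q := by
  have h := D.Q.add_mem (D.sub_mem_Q u x) hx
  rwa [sub_add_cancel] at h

/-- An element of length zero with translation part in `Q` is trivial: `Om_l`, `exists_two` give `ω.l = 0`; then
`ω.u` preserves the positive roots (`ω (γ, 0) = (u γ, 0) > 0`), `W_eq_one`. -/
theorem Om_eq_one {ω : D.Om} (h : ω.1.l ∈ D.Q) : ω = 1 := by
  have hl : ω.1.l = 0 := by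
    by_contra h0
    obtain ⟨γ, hγ⟩ := D.exists_two h h0
    have h1 := D.Om_l ω.2 γ
    have h2 := (abs_le.1 h1).2
    omega
  have hu : ω.1.u = 1 := by
    apply D.W_eq_one
    intro α
    have h1 := ω.2 (α.1, 0) (Or.inr ⟨rfl, α.2.1⟩)
    have h2 : (ω.1 • ((α.1, 0) : D.ARt)).2 = 0 := by
      rw [smul_snd, hl, cp_zero, sub_zero]
    rcases h1 with h1 | h1
    · rw [h2] at h1; exact absurd h1 (lt_irrefl _)
    · exact h1.2
  exact Subtype.ext (Aff.ext' hl hu)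

/-- If two labels (twisted by `ω`, `ω'`) have the same weight, then `ω = ω'`: `(v ω).l = v.l + v.u ω.l` is congruent
to `ω.l` modulo `Q` (`sub_mem_Q`), so `(ω⁻¹ ω').l = ω.u⁻¹ (ω'.l - ω.l)` is in `Q`; `Om_eq_one`. -/
theorem Om_eq {ω ω' : D.Om} {v v' : D.Aff} (hv : v ∈ D.Wa) (hv' : v' ∈ D.Wa)
    (h : (v * ω.1).l = (v' * ω'.1).l) : ω = ω' := by
  have h1 : ω'.1.l - ω.1.l ∈ D.Q := by
    have e : ω'.1.l - ω.1.l = (v.l - v'.l) + ((v.u.1 ω.1.l - ω.1.l) - (v'.u.1 ω'.1.l - ω'.1.l)) := by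
      rw [mul_l, mul_l] at h
      have h2 : v.l - v'.l = v'.u.1 ω'.1.l - v.u.1 ω.1.l := by
        rw [sub_eq_sub_iff_add_eq_add, h]; abel
      rw [h2]; abel
    rw [e]
    exact D.Q.add_mem (D.Q.sub_mem hv hv') (D.Q.sub_mem (D.sub_mem_Q _ _) (D.sub_mem_Q _ _))
  have h2 : ω⁻¹ * ω' = 1 := by
    apply D.Om_eq_one
    show -(ω.1.u⁻¹).1 ω.1.l + (ω.1.u⁻¹).1 ω'.1.l ∈ D.Q
    have h3 := D.E2_W_mem_Q (ω.1.u⁻¹) h1
    rw [map_sub] at h3
    have e : -(ω.1.u⁻¹).1 ω.1.l + (ω.1.u⁻¹).1 ω'.1.l = (ω.1.u⁻¹).1 ω'.1.l - (ω.1.u⁻¹).1 ω.1.l := by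
      abel
    rw [e]; exact h3
  exact inv_mul_eq_one.1 h2

/-! ### closed sets of labels of a given weight -/

/-- the letters of the parahoric `ω W ω⁻¹` -/
noncomputable def so (ω : D.Om) (α : D.SRt) : D.SA := ω • D.sa α

/-- `s_{ω (α,0)} = ω s_α ω⁻¹` -/
theorem sr_so (ω : D.Om) (α : D.SRt) :
    D.aff.sr (D.so ω α) = ω.1 * D.emb (D.sW α) * (ω.1)⁻¹ := by
  show D.aref (D.so ω α).1 = _
  rw [so, Om_smul_val, aref_smul, aref_sa]; rfl

/-- the labels of weight `mu` -/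
def wtSet (ω : D.Om) (mu : Fin n → ℤ) : Set D.Aff := {w | (w * ω.1).l = mu}

/-- The labels of a given weight form a closed set for a suitable system.  Port of MTX/R5 `closed_wt` /
MTX/T8 `closed_Xw`: let `v ω = (μ, a)`, `b` with `(μ,1)⁻¹ b = (γ, k) > 0` and `v⁻¹ b` not positive, i.e.
(`Om_pos`, for `ω⁻¹`) `(v ω)⁻¹ b = (a⁻¹ γ, k)` not positive; then `k = 0`, i.e. `b.2 + cp b.1 μ = 0`
(`inv_smul_snd`), and `(s_b v ω).l = μ`. -/
theorem closed_wt (ω : D.Om) (mu : Fin n → ℤ) :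
    D.aff.Closed (D.aff.Pw ⟨mu, 1⟩) (D.wtSet ω mu) := by
  intro v hv b hb hn
  have hV : (v * ω.1).l = mu := hv
  have hb' : D.apos ((⟨mu, 1⟩ : D.Aff)⁻¹ • b) := hb
  have hn' : ¬ D.apos (v⁻¹ • b) := hn
  have hn2 : ¬ D.apos ((v * ω.1)⁻¹ • b) := by
    intro h
    apply hn'
    rw [mul_inv_rev, mul_smul] at h
    exact (D.Om_pos (D.Om.inv_mem ω.2) _).1 h
  have h1 : ((⟨mu, 1⟩ : D.Aff)⁻¹ • b).2 = b.2 + D.cp b.1 mu := inv_smul_snd _ _
  have h2 : ((v * ω.1)⁻¹ • b).2 = b.2 + D.cp b.1 mu := by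
    rw [inv_smul_snd, hV]
  have h3 : b.2 + D.cp b.1 mu = 0 := by
    rcases (show 0 < ((⟨mu, 1⟩ : D.Aff)⁻¹ • b).2 ∨
      (((⟨mu, 1⟩ : D.Aff)⁻¹ • b).2 = 0 ∧ D.Pos _) from hb') with h4 | h4
    · exfalso
      apply hn2
      left
      rw [h2, ← h1]
      exact h4
    · rw [← h1]
      exact h4.1
  show (D.aref b * v * ω.1).l = mu
  rw [mul_assoc, mul_l, aref_l, aref_u, hV]
  show -(b.2 • b.1.1) + D.rf b.1 mu = mu
  rw [rf]
  have h4 : b.2 = - D.cp b.1 mu := by omega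
  rw [h4]
  module

theorem wtSet_mul (ω : D.Om) {mu : Fin n → ℤ} {v : D.Aff} (hv : v ∈ D.wtSet ω mu) (α : D.SRt) :
    v * D.aff.sr (D.so ω α) ∈ D.wtSet ω mu := by
  show (v * D.aff.sr (D.so ω α) * ω.1).l = mu
  have h : v * D.aff.sr (D.so ω α) * ω.1 = v * ω.1 * D.emb (D.sW α) := by
    rw [sr_so]; group
  rw [h, mul_l, emb_l, map_zero, add_zero]
  exact hv

theorem e3_plus_mono (s : D.SA) {X Y : Set D.Aff} (h : X ⊆ Y) :
    D.aff.plus s X ⊆ D.aff.plus s Y := fun _ hv => hv.imp (fun h' => h h') (fun h' => h h')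

theorem e3_subset (k : List D.SA) : ∀ X : Set D.Aff, X ⊆ D.aff.plusL k X := by
  induction k with
  | nil => intro X; exact subset_rfl
  | cons s k ih =>
    intro X v hv
    exact ih (D.aff.plus s X) (Or.inl hv)

theorem e3_append (k k' : List D.SA) : ∀ X : Set D.Aff,
    D.aff.plusL (k ++ k') X = D.aff.plusL k' (D.aff.plusL k X) := by
  induction k with
  | nil => intro X; rfl
  | cons s k ih => intro X; exact ih (D.aff.plus s X)

/-- words reaching a given element -/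
theorem e3_reach (ω : D.Om) (u : D.W) : ∃ k : List D.SRt, ∀ (X : Set D.Aff), ∀ w ∈ X,
    w * (ω.1 * D.emb u * (ω.1)⁻¹) ∈ D.aff.plusL (k.map (D.so ω)) X := by
  obtain ⟨l, rfl⟩ := D.exists_list u
  induction l using List.reverseRecOn with
  | nil =>
    refine ⟨[], fun X w hw => ?_⟩
    have h0 : (([] : List D.SRt).map D.sW).prod = 1 := rfl
    rw [h0, map_one, mul_one, mul_inv_cancel, mul_one]
    exact hw
  | append_singleton l i ih =>
    obtain ⟨k, hk⟩ := ih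
    refine ⟨k ++ [i], fun X w hw => ?_⟩
    have h0 : ((l ++ [i]).map D.sW).prod = (l.map D.sW).prod * D.sW i := by
      rw [List.map_append, List.prod_append]
      simp
    rw [h0, List.map_append, e3_append, map_mul]
    have h1 := hk X w hw
    show _ ∈ D.aff.plus (D.so ω i) (D.aff.plusL (k.map (D.so ω)) X)
    right
    have h3 : w * (ω.1 * (D.emb (l.map D.sW).prod * D.emb (D.sW i)) * (ω.1)⁻¹) *
        D.aff.sr (D.so ω i) = w * (ω.1 * D.emb (l.map D.sW).prod * (ω.1)⁻¹) := by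
      have h4 : D.emb (D.sW i) * D.emb (D.sW i) = 1 := by
        rw [← map_mul, sW_sq, map_one]
      have h5 : w * (ω.1 * (D.emb (l.map D.sW).prod * D.emb (D.sW i)) * (ω.1)⁻¹) *
          D.aff.sr (D.so ω i) = w * (ω.1 * D.emb (l.map D.sW).prod *
            (D.emb (D.sW i) * D.emb (D.sW i)) * (ω.1)⁻¹) := by
        rw [sr_so]
        group
      rw [h5, h4, mul_one]
    rw [h3]
    exact h1

/-- A word in the letters `so ω α` whose `plusL` reaches the full coset `w ω W ω⁻¹`.  Port of MTX/R5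
`exists_reach`, `exists_kW`, `subset_plusL`, `plusL_append`, `plusL_mono`, `plus_mono'` (with `exists_list`). -/
theorem exists_kW (ω : D.Om) : ∃ k : List D.SRt, ∀ (X : Set D.Aff), ∀ w ∈ X, ∀ u : D.W,
    w * (ω.1 * D.emb u * (ω.1)⁻¹) ∈ D.aff.plusL (k.map (D.so ω)) X := by
  classical
  have key : ∀ F : Finset D.W, ∃ k : List D.SRt, ∀ (X : Set D.Aff),
      ∀ w ∈ X, ∀ u ∈ F, w * (ω.1 * D.emb u * (ω.1)⁻¹) ∈ D.aff.plusL (k.map (D.so ω)) X := by
    intro F
    induction F using Finset.induction_on with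
    | empty => exact ⟨[], fun _ _ _ u hu => (Finset.notMem_empty u hu).elim⟩
    | insert v F hv ih =>
      obtain ⟨k, hk⟩ := ih
      obtain ⟨k', hk'⟩ := D.e3_reach ω v
      refine ⟨k ++ k', fun X w hw u hu => ?_⟩
      rw [List.map_append, e3_append]
      rcases Finset.mem_insert.1 hu with rfl | hu
      · exact hk' _ w (D.e3_subset _ _ hw)
      · exact D.e3_subset _ _ (hk X w hw u hu)
  obtain ⟨k, hk⟩ := key Finset.univ
  exact ⟨k, fun X w hw u => hk X w hw u (Finset.mem_univ u)⟩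

/-- (5.3) for weights, same `ω`.  Port of MTX/R5 `main_wt` (`rdat.main_red` with `k.map (so ω)`). -/
theorem main_wt' (ω : D.Om) (i : List D.SA) (hi : D.aff.Red i) (j : List D.SA)
    (φ0 : (D.sw0.BS j).M →ₗ[AA n] AA n)
    (h0 : ∀ g : (D.sw0.BS j).M,
      (∀ p, ((D.sw0.BS j).lab p * ω.1).l = (D.aff.sw.pr i * ω.1).l → g.1 p = 0) → φ0 g = 0) :
    ∃ Φ0 : (D.sw0.BS j).M →ₗ[AA n] (D.sw0.BS i).M,
      (∀ g, (Φ0 g).1 (D.sw0.top i) = φ0 g) ∧
      ∀ (mu : Fin n → ℤ) (g : (D.sw0.BS j).M),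
        (∀ p, ((D.sw0.BS j).lab p * ω.1).l ≠ mu → g.1 p = 0) →
        ∀ p, ((D.sw0.BS i).lab p * ω.1).l ≠ mu → (Φ0 g).1 p = 0 := by
  obtain ⟨k, hk⟩ := D.exists_kW ω
  obtain ⟨Φ0, h1, h2⟩ := D.rdat.main_red i hi j (k.map (D.so ω)) φ0 (by
    intro g hg
    apply h0
    intro p hp
    refine hg p ?_
    rw [Set.mem_compl_iff, not_not]
    have h3 : (D.sw0.BS j).lab p * ω.1 = D.aff.sw.pr i * ω.1 *
        D.emb ((D.aff.sw.pr i * ω.1).u⁻¹ * ((D.sw0.BS j).lab p * ω.1).u) := by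
      apply Aff.ext'
      · rw [D.mul_l (D.aff.sw.pr i * ω.1), emb_l, map_zero, add_zero, hp]
      · rw [D.mul_u (D.aff.sw.pr i * ω.1), emb_u, mul_inv_cancel_left]
    have h4 : (D.sw0.BS j).lab p = D.aff.sw.pr i * (ω.1 *
        D.emb ((D.aff.sw.pr i * ω.1).u⁻¹ * ((D.sw0.BS j).lab p * ω.1).u) * (ω.1)⁻¹) := by
      rw [← mul_assoc, ← mul_assoc, ← h3, mul_inv_cancel_right]
    rw [h4]
    exact hk _ _ (Set.mem_singleton _) _)
  refine ⟨Φ0, h1, fun mu g hg p hp => ?_⟩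
  refine h2 (D.aff.Pw ⟨mu, 1⟩) (D.wtSet ω mu) (D.aff.sys_Pw _) (D.closed_wt ω mu) ?_ g ?_ p ?_
  · intro v hv s hs
    rw [List.mem_map] at hs
    obtain ⟨α, _, rfl⟩ := hs
    exact D.wtSet_mul ω hv α
  · intro p hp'
    exact hg p fun h3 => hp' h3
  · exact fun h3 => hp h3

/-- (5.3) for weights.  If some label `lab p * ωj` has the weight of `pr i * ω`, then `ωj = ω` (`Om_eq`,
`lab_mem_Wa`, and `pr i = lab top`), and this is `main_wt'`; otherwise `h0` gives `φ0 = 0` and `Φ0 = 0`. -/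
theorem main_wt (ω ωj : D.Om) (i : List D.SA) (hi : D.aff.Red i) (j : List D.SA)
    (φ0 : (D.sw0.BS j).M →ₗ[AA n] AA n)
    (h0 : ∀ g : (D.sw0.BS j).M,
      (∀ p, ((D.sw0.BS j).lab p * ωj.1).l = (D.aff.sw.pr i * ω.1).l → g.1 p = 0) → φ0 g = 0) :
    ∃ Φ0 : (D.sw0.BS j).M →ₗ[AA n] (D.sw0.BS i).M,
      (∀ g, (Φ0 g).1 (D.sw0.top i) = φ0 g) ∧
      ∀ (mu : Fin n → ℤ) (g : (D.sw0.BS j).M),
        (∀ p, ((D.sw0.BS j).lab p * ωj.1).l ≠ mu → g.1 p = 0) →
        ∀ p, ((D.sw0.BS i).lab p * ω.1).l ≠ mu → (Φ0 g).1 p = 0 := by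
  by_cases hex : ∃ p, ((D.sw0.BS j).lab p * ωj.1).l = (D.aff.sw.pr i * ω.1).l
  · obtain ⟨p, hp⟩ := hex
    have h1 : ωj = ω := D.Om_eq (D.lab_mem_Wa j p)
      (by rw [← sw0_lab_top]; exact D.lab_mem_Wa i _) hp
    subst h1
    exact D.main_wt' ωj i hi j φ0 h0
  · refine ⟨0, fun g => ?_, fun mu g _ p _ => ?_⟩
    · rw [h0 g (fun p hp => absurd ⟨p, hp⟩ hex)]
      rfl
    · rfl

end RD

end Pool.Agent.MTG
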