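import Pool.Agent.MTG.GD
import Pool.Agent.MTG.G6
import Pool.Agent.MTX.R4c

/-! # MTG, Part G : the word of the longest element and its total trace (port of MTX/R4b, R4c)

A half finished automatic port of MTX/R4b.lean is in `G8b_draft.txt`.  Changes with respect to MTX:
`OQ ↦ W` (no membership arguments: all `u : D.W`; sums over `D.W`, so `cc_zero`, `lab_u_mem`, `WF` disappear);
letters `Option (Fin n) ↦ D.SA`, finite simple letters `Fin n ↦ D.SRt`, `k.map some ↦ k.map D.sa`, `D.al i ↦ i.1`,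
`D.aal s ↦ s.1`, `sO ↦ sW`; `LW.neg : ∀ i : D.SRt, ¬ D.Pos (D.prO k • i.1)`; `LW.neg_smul` from `pos_smul` applied to
`w := prO k * w'`... (simplest: if `v i < 0` for all simple `i`, then `ng (v γ) > 0` for all positive `γ`: write `γ`
as a sum of simple roots, `exists_sum`, as in MTX/R4b `LW.neg_smul`, comparing `toLex`);
`cc_W`: closure induction replaced by `exists_list`; `PP ↦ PI` (`PI = ∏ γ ∈ D.posF, fm0 γ.1` by `Finset.prod_subtype`);
`ZZr_deg` needs `Nonempty D.Rt ∨ r = 0`; `smul_emb_snd` from `emb_smul`. -/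

namespace Pool.Agent.MTG

open MvPolynomial
open Pool.Agent.MTX (AS SW RedData ry_base ring_base ry_words ring_words ry_BS ring_BS redJ redJ_top
  lin_totalDegree_le)
open Pool.Agent.MTX.SLD (RR AA fm0 fm0_ne_zero fm0_neg)

namespace RD

variable {n : ℕ} (D : RD n)

/-- The labels of a finite word have translation part zero. -/
theorem lab_l_sa (k : List D.SRt) (p : (D.sw0.BS (k.map D.sa)).J) :
    ((D.sw0.BS (k.map D.sa)).lab p).l = 0 := by
  induction k with
  | nil => rfl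
  | cons i k ih =>
    obtain ⟨p, ε⟩ := p
    cases ε with
    | false => exact ih p
    | true =>
      show ((D.sw0.BS (k.map D.sa)).lab p * D.aref (D.sa i).1).l = 0
      rw [aref_sa, mul_l, emb_l, map_zero, add_zero]
      exact ih p

/-! ### F1 : the word of the longest element -/

/-- product of a finite word (head = last letter) -/
def F1_prO : List D.SRt → D.W
  | [] => 1
  | i :: k => F1_prO k * D.sW i

theorem F1_pr_sa : ∀ k : List D.SRt, D.aff.sw.pr (k.map D.sa) = D.emb (D.F1_prO k)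
  | [] => rfl
  | i :: k => by
    rw [List.map_cons, pr_cons, F1_pr_sa k, aref_sa, ← map_mul]; rfl

/-- a reduced word of the longest element -/
structure F1_LW (k : List D.SRt) : Prop where
  red : D.aff.Red (k.map D.sa)
  neg : ∀ i : D.SRt, ¬ D.Pos (D.F1_prO k • i.1)

theorem F1_apos_emb (u : D.W) (i : D.SRt) : D.apos (D.emb u • (D.sa i).1) ↔ D.Pos (u • i.1) := by
  rw [emb_smul]
  show 0 < (0 : ℤ) ∨ ((0 : ℤ) = 0 ∧ D.Pos (u • i.1)) ↔ _
  simp only [lt_irrefl, false_or, true_and]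

theorem F1_mem_rts_sa {k : List D.SRt} (h : D.aff.Red (k.map D.sa)) (b : D.ARt) :
    b ∈ D.aff.rts (k.map D.sa) ↔ b.2 = 0 ∧ D.Pos b.1 ∧ ¬ D.Pos ((D.F1_prO k)⁻¹ • b.1) := by
  rw [D.aff.mem_rts _ h]
  have h0 : (D.aff.sw.pr (k.map D.sa))⁻¹ = D.emb (D.F1_prO k)⁻¹ := by
    rw [D.F1_pr_sa, map_inv]
  rw [h0]
  have h1 : D.aff.pos (D.emb (D.F1_prO k)⁻¹ • b) ↔
      (0 < b.2 ∨ (b.2 = 0 ∧ D.Pos ((D.F1_prO k)⁻¹ • b.1))) := by
    rw [emb_smul]; exact Iff.rfl
  rw [h1]
  have h2 : D.aff.pos b ↔ (0 < b.2 ∨ (b.2 = 0 ∧ D.Pos b.1)) := Iff.rfl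
  rw [h2]
  constructor
  · rintro ⟨h3 | h3, h4⟩
    · exact (h4 (Or.inl h3)).elim
    · exact ⟨h3.1, h3.2, fun h5 => h4 (Or.inr ⟨h3.1, h5⟩)⟩
  · rintro ⟨h3, h4, h5⟩
    refine ⟨Or.inr ⟨h3, h4⟩, ?_⟩
    rintro (h6 | h6)
    · omega
    · exact h5 h6.2

theorem F1_length_le {k : List D.SRt} (h : D.aff.Red (k.map D.sa)) :
    k.length ≤ D.posF.card := by
  classical
  have h1 : k.length = (D.aff.rts (k.map D.sa)).toFinset.card := by
    rw [List.toFinset_card_of_nodup (D.aff.nodup_rts _ h), D.aff.length_rts, List.length_map]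
  rw [h1]
  refine Finset.card_le_card_of_injOn Prod.fst ?_ ?_
  · intro b hb
    have hb' : b ∈ (D.aff.rts (k.map D.sa)).toFinset := hb
    rw [List.mem_toFinset, D.F1_mem_rts_sa h] at hb'
    exact D.mem_posF.2 hb'.2.1
  · intro b hb c hc hbc
    have hb' : b ∈ (D.aff.rts (k.map D.sa)).toFinset := hb
    have hc' : c ∈ (D.aff.rts (k.map D.sa)).toFinset := hc
    rw [List.mem_toFinset, D.F1_mem_rts_sa h] at hb' hc'
    exact Prod.ext hbc (by rw [hb'.1, hc'.1])

theorem F1_exists_LW : ∃ k, D.F1_LW k := by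
  have key : ∀ (m : ℕ) (k : List D.SRt), D.aff.Red (k.map D.sa) →
      D.posF.card - k.length ≤ m → ∃ k, D.F1_LW k := by
    intro m
    induction m with
    | zero =>
      intro k hk hm
      by_cases h : ∀ i : D.SRt, ¬ D.Pos (D.F1_prO k • i.1)
      · exact ⟨k, hk, h⟩
      · push Not at h
        obtain ⟨i, hi⟩ := h
        have h1 : D.aff.Red ((i :: k).map D.sa) := by
          refine ⟨hk, ?_⟩
          show D.apos (D.aff.sw.pr (k.map D.sa) • (D.sa i).1)
          rw [F1_pr_sa, F1_apos_emb]; exact hi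
        have h2 := D.F1_length_le h1
        rw [List.length_cons] at h2
        omega
    | succ m ih =>
      intro k hk hm
      by_cases h : ∀ i : D.SRt, ¬ D.Pos (D.F1_prO k • i.1)
      · exact ⟨k, hk, h⟩
      · push Not at h
        obtain ⟨i, hi⟩ := h
        have h1 : D.aff.Red ((i :: k).map D.sa) := by
          refine ⟨hk, ?_⟩
          show D.apos (D.aff.sw.pr (k.map D.sa) • (D.sa i).1)
          rw [F1_pr_sa, F1_apos_emb]; exact hi
        refine ih (i :: k) h1 ?_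
        rw [List.length_cons]; omega
  exact key D.posF.card [] trivial (by simp)

/-- a nonnegative combination of nonpositive vectors is nonpositive -/
theorem F1_le {ι : Type} (s : Finset ι) (c : ι → ℕ) (v : ι → Fin n → ℤ)
    (h : ∀ i, toLex (v i) ≤ 0) : toLex (∑ i ∈ s, c i • v i) ≤ 0 := by
  classical
  have h1 : ∀ (m : ℕ) (i : ι), toLex (m • v i) ≤ 0 := by
    intro m i
    induction m with
    | zero => rw [zero_smul]; exact le_refl _
    | succ m ih => rw [succ_nsmul, toLex_add]; exact add_nonpos ih (h i)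
  induction s using Finset.induction_on with
  | empty => rw [Finset.sum_empty]; exact le_refl _
  | insert a s ha ih =>
    rw [Finset.sum_insert ha, toLex_add]
    exact add_nonpos (h1 _ _) ih

variable {D}

theorem F1_LW.neg_smul {k : List D.SRt} (h : D.F1_LW k) {γ : D.Rt} (hγ : D.Pos γ) :
    ¬ D.Pos (D.F1_prO k • γ) := by
  obtain ⟨c, hc⟩ := D.exists_sum hγ
  have h1 : (D.F1_prO k • γ).1 = ∑ α : D.SRt, c α • (D.F1_prO k • α.1).1 := by
    rw [smul_val, hc, map_sum]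
    refine Finset.sum_congr rfl fun α _ => ?_
    rw [map_nsmul]; rfl
  show ¬ 0 < toLex (D.F1_prO k • γ).1
  rw [h1]
  exact not_lt.2 (F1_le _ c _ fun α => not_lt.1 (h.neg α))

theorem F1_LW.neg_inv_smul {k : List D.SRt} (h : D.F1_LW k) {γ : D.Rt} (hγ : D.Pos γ) :
    ¬ D.Pos ((D.F1_prO k)⁻¹ • γ) := by
  intro hp
  have := h.neg_smul hp
  rw [smul_inv_smul] at this
  exact this hγ

theorem F1_LW.mem_rts {k : List D.SRt} (h : D.F1_LW k) (b : D.ARt) :
    b ∈ D.aff.rts (k.map D.sa) ↔ b.2 = 0 ∧ D.Pos b.1 := by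
  rw [D.F1_mem_rts_sa h.red]
  constructor
  · rintro ⟨h1, h2, _⟩; exact ⟨h1, h2⟩
  · rintro ⟨h1, h2⟩; exact ⟨h1, h2, h.neg_inv_smul h2⟩

theorem F1_LW.length {k : List D.SRt} (h : D.F1_LW k) : k.length = D.posF.card := by
  classical
  refine le_antisymm (D.F1_length_le h.red) ?_
  have h1 : k.length = (D.aff.rts (k.map D.sa)).toFinset.card := by
    rw [List.toFinset_card_of_nodup (D.aff.nodup_rts _ h.red), D.aff.length_rts, List.length_map]
  rw [h1]
  refine Finset.card_le_card_of_injOn (fun γ => ((γ, 0) : D.ARt)) ?_ ?_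
  · intro γ hγ
    show ((γ, 0) : D.ARt) ∈ (D.aff.rts (k.map D.sa)).toFinset
    rw [List.mem_toFinset, h.mem_rts]
    exact ⟨rfl, D.mem_posF.1 hγ⟩
  · intro γ _ δ _ hγδ
    exact congrArg Prod.fst hγδ

theorem F1_PI_eq : D.PI = ∏ γ ∈ D.posF, (fm0 γ.1 : AA n) := by
  unfold PI
  exact (Finset.prod_subtype D.posF (fun γ => D.mem_posF) fun γ : D.Rt => (fm0 γ.1 : AA n)).symm

theorem F1_dvd_PI (γ : D.Rt) : (fm0 γ.1 : AA n) ∣ D.PI := by
  rw [F1_PI_eq]
  rcases D.pos_or_neg γ with h | h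
  · exact Finset.dvd_prod_of_mem (fun γ : D.Rt => (fm0 γ.1 : AA n)) (D.mem_posF.2 h)
  · have h1 : (fm0 (D.ng γ).1 : AA n) ∣ ∏ γ ∈ D.posF, (fm0 γ.1 : AA n) :=
      Finset.dvd_prod_of_mem (fun γ : D.Rt => (fm0 γ.1 : AA n)) (D.mem_posF.2 h)
    rwa [ng_val, fm0_neg, neg_dvd] at h1

theorem F1_PI_degree : D.PI.totalDegree ≤ D.posF.card := by
  rw [F1_PI_eq]
  refine (totalDegree_finsetProd _ _).trans ?_
  refine (Finset.sum_le_card_nsmul _ _ 1 fun γ _ => lin_totalDegree_le _).trans ?_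
  simp

theorem F1_LW.eu_top {k : List D.SRt} (h : D.F1_LW k) :
    D.sw0.eu (k.map D.sa) (D.sw0.top (k.map D.sa)) = (-1) ^ D.posF.card * D.PI := by
  classical
  rw [D.eu_top, List.length_map, h.length]
  congr 1
  have h1 : ((D.aff.rts (k.map D.sa)).map fun b => (fm0 b.1.1 : AA n)).prod =
      ∏ b ∈ (D.aff.rts (k.map D.sa)).toFinset, fm0 b.1.1 :=
    (List.prod_toFinset _ (D.aff.nodup_rts _ h.red)).symm
  rw [h1, F1_PI_eq]
  refine (Finset.prod_bij (fun γ _ => ((γ, 0) : D.ARt)) ?_ ?_ ?_ ?_).symm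
  · intro γ hγ
    rw [List.mem_toFinset, h.mem_rts]
    exact ⟨rfl, D.mem_posF.1 hγ⟩
  · intro γ _ δ _ hγδ
    exact congrArg Prod.fst hγδ
  · rintro ⟨γ, m⟩ hb
    rw [List.mem_toFinset, h.mem_rts] at hb
    exact ⟨γ, D.mem_posF.2 hb.2, Prod.ext rfl hb.1.symm⟩
  · intro γ _; rfl

theorem F1_LW.smul_PI {k : List D.SRt} (h : D.F1_LW k) :
    D.F1_prO k • D.PI = (-1) ^ D.posF.card * D.PI := by
  have h1 : D.F1_prO k • D.PI = ∏ γ ∈ D.posF, (fm0 (D.F1_prO k • γ).1 : AA n) := by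
    rw [F1_PI_eq, Finset.smul_prod']
    exact Finset.prod_congr rfl fun γ _ => D.smul_fm0 _ _
  have h2 : ∏ γ ∈ D.posF, (fm0 (D.F1_prO k • γ).1 : AA n) =
      ∏ γ ∈ D.posF, (-1 : AA n) * fm0 γ.1 := by
    refine Finset.prod_bij (fun γ _ => D.ng (D.F1_prO k • γ)) ?_ ?_ ?_ ?_
    · intro γ hγ
      rw [mem_posF] at hγ ⊢
      exact (D.pos_ng _).2 (h.neg_smul hγ)
    · intro γ _ δ _ hγδ
      have h3 := congrArg D.ng hγδ
      rw [ng_ng, ng_ng] at h3
      exact MulAction.injective _ h3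
    · intro γ hγ
      rw [mem_posF] at hγ
      refine ⟨D.ng ((D.F1_prO k)⁻¹ • γ), D.mem_posF.2 ((D.pos_ng _).2 (h.neg_inv_smul hγ)), ?_⟩
      rw [smul_ng, ng_ng, smul_inv_smul]
    · intro γ _
      rw [ng_val, fm0_neg]; ring
  rw [h1, h2, Finset.prod_mul_distrib, Finset.prod_const, ← F1_PI_eq]

/-! ### labels -/

theorem F1_eu_list (l : List D.SA) (p : (D.sw0.BS l).J) : ∃ r : List D.Rt,
    r.length = l.length ∧ (D.sw0.eu l p = (r.map fun γ => (fm0 γ.1 : AA n)).prod ∨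
      D.sw0.eu l p = - (r.map fun γ => (fm0 γ.1 : AA n)).prod) := by
  induction l with
  | nil => exact ⟨[], rfl, Or.inl rfl⟩
  | cons s l ih =>
    obtain ⟨p, ε⟩ := p
    obtain ⟨r, hr, h⟩ := ih p
    refine ⟨((D.sw0.BS l).lab p).u • s.1.1 :: r, by rw [List.length_cons, hr]; rfl, ?_⟩
    have h1 : D.sw0.eu (s :: l) (p, ε) =
        (if ε then -1 else 1) * ((D.sw0.BS l).lab p • D.sw0.f s) * D.sw0.eu l p := rfl
    have h2 : (D.sw0.BS l).lab p • (D.sw0.f s : AA n) =
        fm0 (((D.sw0.BS l).lab p).u • s.1.1).1 := by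
      show (D.sw0.BS l).lab p • (fm0 s.1.1.1 : AA n) = _
      rw [Aff_smul_A, smul_fm0]; rfl
    rw [h1, h2, List.map_cons, List.prod_cons]
    cases ε <;> rcases h with h | h <;> rw [h]
    · left; simp
    · right; simp
    · right; simp
    · left; simp

/-! ### the coefficients of the total trace -/

/-- coefficient of `v` in the total trace of `f(y)` -/
noncomputable def F1_cc (l : List D.SA) (v : D.W) : KK n := by
  classical
  exact ∑ p, if ((D.sw0.BS l).lab p).u = v then (aK (D.sw0.eu l p))⁻¹ else 0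

theorem F1_cc_mem (l : List D.SA) (v : D.W) : F1_cc (D := D) l v ∈ D.ZZr l.length := by
  classical
  unfold F1_cc
  refine sum_mem fun p _ => ?_
  split_ifs
  · obtain ⟨r, hr, h⟩ := F1_eu_list l p
    have hne : aK (r.map fun γ => (fm0 γ.1 : AA n)).prod ≠ 0 := aK_ne_zero (prod_totalDegree r).1
    rcases h with h | h
    · rw [h]
      exact ZZr_mem r hr (inv_mul_cancel₀ hne)
    · rw [h, map_neg]
      have h1 : (-(aK (r.map fun γ => (fm0 γ.1 : AA n)).prod))⁻¹ =
          -((aK (r.map fun γ => (fm0 γ.1 : AA n)).prod)⁻¹) := by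
        refine inv_eq_of_mul_eq_one_right ?_
        have h2 := mul_inv_cancel₀ hne
        linear_combination h2
      rw [h1]
      exact neg_mem (ZZr_mem r hr (inv_mul_cancel₀ hne))
  · exact zero_mem _

theorem F1_Tr_fy (l : List D.SA) (f : AA n) (m : (D.sw0.BS l).M)
    (hm : ∀ p, m.1 p = (D.sw0.BS l).lab p • f) :
    aK (D.sw0.Tr l m) = ∑ v, F1_cc (D := D) l v * aK (v • f) := by
  classical
  have h1 := Pool.Agent.MTX.Tr_eq D.sw0 (K := KK n) (IsFractionRing.injective (AA n) (KK n)) l m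
  have h2 : aK (D.sw0.Tr l m) = ∑ p, aK (m.1 p) / aK (D.sw0.eu l p) := h1
  rw [h2]
  unfold F1_cc
  simp only [Finset.sum_mul]
  rw [Finset.sum_comm]
  refine Finset.sum_congr rfl fun p _ => ?_
  simp only [ite_mul, zero_mul]
  rw [Finset.sum_ite_eq Finset.univ, if_pos (Finset.mem_univ _), hm, Aff_smul_A, div_eq_mul_inv,
    mul_comm]

variable (D) in
/-- the element `f(y)` -/
noncomputable def F1_fy (l : List D.SA) (f : AA n) : (D.sw0.BS l).M :=
  ⟨(D.sw0.BS l).ry f 1, ry_words D.sw0 (ry_base 1) l f 1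
    (ring_words D.sw0 (ry_base 1) (ring_base 1) l).one⟩

theorem F1_fy_apply (l : List D.SA) (f : AA n) (p : (D.sw0.BS l).J) :
    (D.F1_fy l f).1 p = (D.sw0.BS l).lab p • f := by
  show ((D.sw0.BS l).lab p • f) * 1 = _
  rw [mul_one]

theorem F1_cc_pres (l : List D.SA) : D.Pres (F1_cc (D := D) l) := fun f =>
  ⟨D.sw0.Tr l (D.F1_fy l f), (F1_Tr_fy l f (D.F1_fy l f) (F1_fy_apply l f)).symm⟩

/-- The coefficients are equivariant under the simple reflections. -/
theorem F1_LW.cc_sW {k : List D.SRt} (h : D.F1_LW k) (i : D.SRt) (v : D.W) :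
    F1_cc (D := D) (k.map D.sa) (D.sW i * v) =
      D.uK (D.sW i) (F1_cc (D := D) (k.map D.sa) v) := by
  classical
  set c : D.W → KK n := F1_cc (D := D) (k.map D.sa) with hc
  have hPne : aK (D.PI) ≠ 0 := aK_ne_zero D.PI_ne
  have hane : aK (fm0 i.1.1 : AA n) ≠ 0 := aK_ne_zero (fm0_ne_zero (D.Rt_ne _))
  set e : D.W → KK n := fun v => (c v - D.uK (D.sW i) (c (D.sW i * v))) / aK (fm0 i.1.1)
    with he
  have hpres : D.Pres e := by
    intro f
    obtain ⟨a, ha⟩ := F1_cc_pres (D := D) (k.map D.sa) f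
    obtain ⟨q, hq⟩ := D.fm0_dvd i.1 a
    refine ⟨q, ?_⟩
    have h1 : ∑ v, D.uK (D.sW i) (c (D.sW i * v)) * aK (v • f) = aK (D.sW i • a) := by
      rw [← uK_aK, ← ha, map_sum]
      refine Fintype.sum_equiv (Equiv.mulLeft (D.sW i)) _ _ fun v => ?_
      rw [map_mul, uK_aK, ← mul_smul]
      show _ = D.uK (D.sW i) (c (D.sW i * v)) * aK ((D.sW i * (D.sW i * v)) • f)
      rw [← mul_assoc, sW_sq, one_mul]
    have h2 : ∑ v, e v * aK (v • f) = (aK a - aK (D.sW i • a)) / aK (fm0 i.1.1) := by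
      rw [← h1, ← ha, ← Finset.sum_sub_distrib, Finset.sum_div]
      refine Finset.sum_congr rfl fun v _ => ?_
      rw [he, hc]
      ring
    rw [h2, ← map_sub]
    have h3 : a - D.sW i • a = fm0 i.1.1 * q := hq
    rw [h3, map_mul]
    field_simp
  have hmem : ∀ v, e v ∈ D.ZZr (D.posF.card + 1) := by
    intro v
    have h1 : ∀ v, c v ∈ D.ZZr D.posF.card := fun v => by
      have := F1_cc_mem (D := D) (k.map D.sa) v
      rwa [List.length_map, h.length] at this
    exact ZZr_div (sub_mem (h1 v) (ZZr_smul (h1 _) _)) i.1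
  have hint : ∀ v, Int' (e v * aK D.PI) := by
    intro v
    obtain ⟨d, hd, hd2⟩ := ZZr_den (hmem v)
    refine D.int_of_local hd _ ?_ ?_
    · have := hd2.mul (Int'.of D.PI)
      rwa [mul_assoc] at this
    · intro γ
      obtain ⟨g, hg, hg2⟩ := hpres.pole γ v
      refine ⟨g, hg, ?_⟩
      obtain ⟨Q, hQ⟩ := F1_dvd_PI γ
      have h1 := hg2.mul (Int'.of Q)
      convert h1 using 1
      rw [hQ, map_mul]; ring
  have hzero : ∀ v, e v = 0 := by
    intro v
    obtain ⟨a, b, hb, h1, h2⟩ := ZZr_deg (Or.inl ⟨i.1⟩) (hmem v)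
    obtain ⟨a', ha'⟩ := hint v
    have h3 : a' * b = a * D.PI := by
      apply aK_inj
      rw [map_mul, map_mul, ← ha', ← h1]; ring
    by_cases h4 : a' = 0
    · rw [h4, map_zero] at ha'
      exact (mul_eq_zero.1 ha').resolve_right hPne
    · exfalso
      have h5 : (a' * b).totalDegree = a'.totalDegree + b.totalDegree :=
        totalDegree_mul_of_isDomain h4 hb
      have h6 := totalDegree_mul a D.PI
      have h7 := F1_PI_degree (D := D)
      rw [h3] at h5
      omega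
  have h1 := hzero (D.sW i * v)
  rw [he] at h1
  simp only at h1
  rw [div_eq_zero_iff] at h1
  have h2 := sub_eq_zero.1 (h1.resolve_right hane)
  rw [h2, ← mul_assoc, sW_sq, one_mul]

theorem F1_LW.cc_W {k : List D.SRt} (h : D.F1_LW k) (u : D.W) (v : D.W) :
    F1_cc (D := D) (k.map D.sa) (u * v) = D.uK u (F1_cc (D := D) (k.map D.sa) v) := by
  obtain ⟨l, rfl⟩ := D.exists_list u
  induction l with
  | nil => rw [List.map_nil, List.prod_nil, one_mul, uK_one]
  | cons i l ih => rw [List.map_cons, List.prod_cons, mul_assoc, h.cc_sW, ih, ← uK_mul]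

theorem F1_LW.cc_top {k : List D.SRt} (h : D.F1_LW k) :
    F1_cc (D := D) (k.map D.sa) (D.F1_prO k) = (aK (D.F1_prO k • D.PI))⁻¹ := by
  classical
  unfold F1_cc
  rw [Finset.sum_eq_single (D.sw0.top (k.map D.sa))]
  · rw [if_pos, h.eu_top, h.smul_PI]
    rw [sw0_lab_top, D.F1_pr_sa]; rfl
  · intro p _ hp
    rw [if_neg]
    intro h1
    apply hp
    obtain ⟨q, rfl⟩ := (redJ D.aff.sw D.sw0 (k.map D.sa)).surjective p
    rw [← redJ_top D.aff.sw D.sw0]
    congr 1
    apply D.top_unique _ h.red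
    rw [← D.rdat.lab, D.F1_pr_sa]
    exact Aff.ext' (D.lab_l_sa k _) h1
  · intro h1; exact (h1 (Finset.mem_univ _)).elim

/-- The coefficient of `v ∈ W` is `1 / v(∏ γ)`. -/
theorem F1_LW.cc_eq {k : List D.SRt} (h : D.F1_LW k) (v : D.W) :
    F1_cc (D := D) (k.map D.sa) v = (aK (v • D.PI))⁻¹ := by
  have h1 : v = (v * (D.F1_prO k)⁻¹) * D.F1_prO k := by group
  have h2 := h.cc_W (v * (D.F1_prO k)⁻¹) (D.F1_prO k)
  rw [← h1] at h2
  rw [h2, h.cc_top, map_inv₀, uK_aK, ← mul_smul, ← h1]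

/-- (8.3): the total trace of `f(y)` over the word of the longest element is
`∑_{v ∈ W} v (f / ∏_{γ > 0} γ)`. -/
theorem F1_LW.Tr_eq {k : List D.SRt} (h : D.F1_LW k) (f : AA n)
    (m : (D.sw0.BS (k.map D.sa)).M)
    (hm : ∀ p, m.1 p = (D.sw0.BS (k.map D.sa)).lab p • f) :
    aK (D.sw0.Tr (k.map D.sa) m) = ∑ v : D.W, aK (v • f) / aK (v • D.PI) := by
  rw [F1_Tr_fy _ f m hm]
  refine Finset.sum_congr rfl fun v _ => ?_
  rw [h.cc_eq v, div_eq_mul_inv, mul_comm]

variable (D)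

/-- (8.3) The word of the longest element and its total trace: `PI Tr (f(y)) = ∑_{u ∈ W} sgn u (u f)`. -/
theorem exists_sgk : ∃ k : List D.SRt, ∀ (f : AA n)
    (hf : (D.sw0.BS (k.map D.sa)).ry f 1 ∈ (D.sw0.BS (k.map D.sa)).M),
      D.PI * D.sw0.Tr (k.map D.sa) ⟨(D.sw0.BS (k.map D.sa)).ry f 1, hf⟩ =
        ∑ u : D.W, (((D.sgn u : ℤˣ) : ℤ) : AA n) * (u • f) := by
  obtain ⟨k, hk⟩ := D.F1_exists_LW
  refine ⟨k, fun f hf => ?_⟩
  apply aK_inj
  have hP := aK_ne_zero (D.PI_ne)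
  rw [map_mul, hk.Tr_eq f _ (fun p => by
    show ((D.sw0.BS (k.map D.sa)).lab p • f) * 1 = _
    rw [mul_one]), map_sum, Finset.mul_sum]
  refine Finset.sum_congr rfl fun u _ => ?_
  rw [D.smul_PI u, map_mul, map_mul]
  rcases Int.units_eq_one_or (D.sgn u) with h2 | h2 <;> rw [h2]
  · simp only [Units.val_one, Int.cast_one, map_one, one_mul]
    field_simp
  · simp only [Units.val_neg, Units.val_one, Int.cast_neg, Int.cast_one, map_neg, map_one, neg_mul,
      one_mul]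
    field_simp

end RD

end Pool.Agent.MTG
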