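import Pool.Agent.MTG.G8a

/-! # MTG, Part G : products of roots, the sign character, the action on the fraction field

`D.PI` the product of the positive roots, `D.PI0 μ` of those orthogonal to `μ`, `D.Eu μ` the Euler class
(a product over ALL roots with positive pairing with `μ`), `D.sgn`, the `W`-action on `KK n = Frac A`,
`D.HD d p` : `p` is homogeneous of degree `d / 2`. -/

namespace Pool.Agent.MTG

open MvPolynomial
open Pool.Agent.MTX (lin lin_prime)
open Pool.Agent.MTX.SLD (RR AA fc fm fm0 fm0_add fm0_smul fm0_zero fm0_neg fm0_sub fm0_ne_zero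
  fm0_prime)

/-- homogeneous of degree `d / 2` (so `p = 0` if `d` is odd or negative) -/
def HD {n : ℕ} (d : ℤ) (p : AA n) : Prop :=
  ∀ m : Fin n →₀ ℕ, p.coeff m ≠ 0 → 2 * ((m.sum fun _ e => e : ℕ) : ℤ) = d

namespace RD

variable {n : ℕ} (D : RD n)

/-- the positive roots -/
noncomputable def posF : Finset D.Rt := Finset.univ.filter D.Pos

theorem mem_posF {γ : D.Rt} : γ ∈ D.posF ↔ D.Pos γ := by
  unfold posF
  rw [Finset.mem_filter]
  exact ⟨fun h => h.2, fun h => ⟨Finset.mem_univ _, h⟩⟩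

theorem pos_or_neg (γ : D.Rt) : D.Pos γ ∨ D.Pos (D.ng γ) := by
  by_cases h : D.Pos γ
  · exact Or.inl h
  · exact Or.inr ((D.pos_ng γ).2 h)

theorem not_pos_ng {γ : D.Rt} (h : D.Pos γ) : ¬ D.Pos (D.ng γ) := fun h' => (D.pos_ng γ).1 h' h

/-- the product of the positive roots -/
noncomputable def PI : AA n := ∏ γ : D.PRt, fm0 γ.1.1

/-- the product of the positive roots orthogonal to `μ` -/
noncomputable def PI0 (μ : Fin n → ℤ) : AA n :=
  ∏ γ : D.PRt, if D.cp γ.1 μ = 0 then fm0 γ.1.1 else 1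

/-- the Euler class -/
noncomputable def Eu (μ : Fin n → ℤ) : AA n := ∏ γ : D.Rt, fm0 γ.1 ^ (D.cp γ μ).toNat

theorem PI_ne : D.PI ≠ 0 := Finset.prod_ne_zero_iff.2 fun γ _ => fm0_ne_zero (D.Rt_ne γ.1)

theorem PI0_ne (μ : Fin n → ℤ) : D.PI0 μ ≠ 0 := by
  unfold PI0
  refine Finset.prod_ne_zero_iff.2 fun γ _ => ?_
  split_ifs
  · exact fm0_ne_zero (D.Rt_ne γ.1)
  · exact one_ne_zero

theorem Eu_ne (μ : Fin n → ℤ) : D.Eu μ ≠ 0 :=
  Finset.prod_ne_zero_iff.2 fun γ _ => pow_ne_zero _ (fm0_ne_zero (D.Rt_ne γ))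

theorem PI0_zero : D.PI0 0 = D.PI := by
  unfold PI0 PI
  exact Finset.prod_congr rfl fun γ _ => if_pos (D.cp_zero _)

theorem Eu_zero : D.Eu 0 = 1 := by
  unfold Eu
  exact Finset.prod_eq_one fun γ _ => by rw [cp_zero]; rfl

/-- `w Eu_μ = Eu_{w μ}`: reindex the product by `γ ↦ w • γ` (`cp_smul_W`, `smul_fm0`). -/
theorem Eu_smul (w : D.W) (μ : Fin n → ℤ) : w • D.Eu μ = D.Eu (w.1 μ) := by
  unfold Eu
  rw [Finset.smul_prod']
  refine Fintype.prod_equiv (MulAction.toPerm w) _ _ fun γ => ?_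
  rw [smul_pow', smul_fm0]
  show (fm0 (w.1 γ.1) : AA n) ^ (D.cp γ μ).toNat =
    fm0 (w • γ).1 ^ (D.cp (w • γ) (w.1 μ)).toNat
  rw [cp_smul_W, smul_val]

/-- `Eu_{-μ} = ± Eu_μ`: reindex by `ng` (`cp_ng`, `fm0_neg`). -/
theorem Eu_neg (μ : Fin n → ℤ) : D.Eu (-μ) = D.Eu μ ∨ D.Eu (-μ) = - D.Eu μ := by
  have h : D.Eu (-μ) = (-1) ^ (∑ γ : D.Rt, (D.cp γ μ).toNat) * D.Eu μ := by
    unfold Eu
    rw [← Finset.prod_pow_eq_pow_sum, ← Finset.prod_mul_distrib]
    refine Fintype.prod_equiv ⟨D.ng, D.ng, D.ng_ng, D.ng_ng⟩ _ _ fun γ => ?_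
    show (fm0 γ.1 : AA n) ^ (D.cp γ (-μ)).toNat =
      (-1) ^ (D.cp (D.ng γ) μ).toNat * fm0 (D.ng γ).1 ^ (D.cp (D.ng γ) μ).toNat
    rw [← mul_pow, ng_val, fm0_neg, cp_ng, cp_neg]
    congr 1
    ring
  rw [h]
  rcases neg_one_pow_eq_or (AA n) (∑ γ : D.Rt, (D.cp γ μ).toNat) with h1 | h1
  · left
    rw [h1, one_mul]
  · right
    rw [h1, neg_one_mul]

/-- `Eu_{μ+ν} ∣ Eu_μ Eu_ν`: factorwise, as `(cp γ (μ + ν)).toNat ≤ (cp γ μ).toNat + (cp γ ν).toNat`. -/
theorem Eu_add (μ ν : Fin n → ℤ) : D.Eu (μ + ν) ∣ D.Eu μ * D.Eu ν := by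
  unfold Eu
  rw [← Finset.prod_mul_distrib]
  refine Finset.prod_dvd_prod_of_dvd _ _ fun γ _ => ?_
  rw [← pow_add]
  refine pow_dvd_pow _ ?_
  rw [cp_add]
  omega

/-- For dominant `μ` only the positive roots contribute (`cp γ μ ≤ 0` for `γ = ng δ`, `δ` positive). -/
theorem Eu_dom {μ : Fin n → ℤ} (h : D.Dom μ) :
    D.Eu μ = ∏ γ : D.PRt, fm0 γ.1.1 ^ (D.cp γ.1 μ).toNat := by
  unfold Eu
  have h1 : ∏ γ : D.PRt, (fm0 γ.1.1 : AA n) ^ (D.cp γ.1 μ).toNat =
      ∏ γ ∈ Finset.univ.filter D.Pos, fm0 γ.1 ^ (D.cp γ μ).toNat :=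
    (Finset.prod_subtype _ (fun x => by rw [Finset.mem_filter]; exact ⟨fun h => h.2, fun h =>
      ⟨Finset.mem_univ _, h⟩⟩) (fun γ : D.Rt => (fm0 γ.1 : AA n) ^ (D.cp γ μ).toNat)).symm
  rw [h1]
  symm
  refine Finset.prod_subset (Finset.filter_subset _ _) fun γ _ hγ => ?_
  rcases D.pos_or_neg γ with h2 | h2
  · exact absurd (Finset.mem_filter.2 ⟨Finset.mem_univ _, h2⟩) hγ
  · have h3 := h _ h2
    rw [cp_ng] at h3
    have h4 : (D.cp γ μ).toNat = 0 := by omega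
    rw [h4, pow_zero]

/-- The forms of different positive roots are not associated (`red`). -/
theorem fm0_ndvd {γ δ : D.Rt} (h1 : δ ≠ γ) (h2 : δ ≠ D.ng γ) :
    ¬ (fm0 γ.1 : AA n) ∣ fm0 δ.1 := by
  intro hdvd
  have hc : (fun j => ((γ.1 j : ℤ) : ℂ)) ≠ 0 := by
    intro h0
    apply D.Rt_ne γ
    funext j
    have := congrFun h0 j
    simpa using this
  obtain ⟨z, hz⟩ := (Pool.Agent.MTX.lin_dvd_lin hc).1 hdvd
  have hz' : ∀ j, ((δ.1 j : ℤ) : ℂ) = z * ((γ.1 j : ℤ) : ℂ) := fun j => congrFun hz j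
  obtain ⟨i, hi⟩ : ∃ i, γ.1 i ≠ 0 := by
    by_contra hno
    push Not at hno
    exact D.Rt_ne γ (funext hno)
  have hcross : ∀ j, γ.1 i * δ.1 j = δ.1 i * γ.1 j := by
    intro j
    have h1 : (((γ.1 i * δ.1 j : ℤ)) : ℂ) = ((δ.1 i * γ.1 j : ℤ) : ℂ) := by
      push_cast
      rw [hz' j, hz' i]
      ring
    exact_mod_cast h1
  have hv : δ.1 i • γ.1 = γ.1 i • δ.1 := by
    funext j
    simpa using (hcross j).symm
  exact hi (D.red γ.1 γ.2 δ.1 δ.2 _ _ hv (fun h => h1 (Subtype.ext h))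
    (fun h => h2 (Subtype.ext h))).2

/-- the product of the positive roots as a product over a finset -/
theorem H2_PI_eq : D.PI = ∏ γ ∈ D.posF, (fm0 γ.1 : AA n) := by
  unfold PI
  exact (Finset.prod_subtype D.posF (fun γ => D.mem_posF) fun γ : D.Rt => (fm0 γ.1 : AA n)).symm

/-- `s_α PI = - PI` for simple `α` (`Sim`: `s_α` permutes the positive roots other than `α`; port of MTX/R4c
`sO_PP`). -/
theorem sW_PI (α : D.SRt) : D.sW α • D.PI = - D.PI := by
  classical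
  have h1 : D.sW α • D.PI = ∏ γ ∈ D.posF, (fm0 (D.sW α • γ).1 : AA n) := by
    rw [H2_PI_eq, Finset.smul_prod']
    exact Finset.prod_congr rfl fun γ _ => D.smul_fm0 _ _
  have hi : α.1 ∈ D.posF := D.mem_posF.2 α.2.1
  have hself : D.sW α • α.1 = D.ng α.1 := D.rW_self α.1
  rw [h1, ← Finset.mul_prod_erase _ _ hi]
  have h2 : ∏ γ ∈ D.posF.erase α.1, (fm0 (D.sW α • γ).1 : AA n) =
      ∏ γ ∈ D.posF.erase α.1, (fm0 γ.1 : AA n) := by
    have hmem : ∀ γ ∈ D.posF.erase α.1, D.sW α • γ ∈ D.posF.erase α.1 := by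
      intro γ hγ
      rw [Finset.mem_erase, mem_posF] at hγ ⊢
      refine ⟨fun h => ?_, α.2.2 γ hγ.2 hγ.1⟩
      have h3 : γ = D.ng α.1 := by
        rw [← hself, ← h, ← mul_smul, sW_sq, one_smul]
      rw [h3] at hγ
      exact D.not_pos_ng α.2.1 hγ.2
    refine Finset.prod_bij (fun γ _ => D.sW α • γ) hmem ?_ ?_ ?_
    · intro γ _ δ _ h; exact MulAction.injective _ h
    · intro γ hγ
      exact ⟨D.sW α • γ, hmem γ hγ, by rw [← mul_smul, sW_sq, one_smul]⟩
    · intro γ _; rfl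
  rw [h2, hself, ng_val, fm0_neg, neg_mul, H2_PI_eq]
  congr 1
  exact Finset.mul_prod_erase _ (fun γ : D.Rt => (fm0 γ.1 : AA n)) hi

open Classical in
/-- the sign of a Weyl group element -/
noncomputable def sgn (u : D.W) : ℤˣ := if u • D.PI = D.PI then 1 else -1

/-- `u PI = sgn u PI`: `u PI = ± PI` by `exists_list`, `sW_PI`, and `PI ≠ - PI`. -/
theorem smul_PI (u : D.W) : u • D.PI = (((D.sgn u : ℤˣ) : ℤ) : AA n) * D.PI := by
  have key : ∀ l : List D.SRt, (l.map D.sW).prod • D.PI = D.PI ∨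
      (l.map D.sW).prod • D.PI = - D.PI := by
    intro l
    induction l with
    | nil => left; rw [List.map_nil, List.prod_nil, one_smul]
    | cons i l ih =>
      rw [List.map_cons, List.prod_cons, mul_smul]
      rcases ih with h | h
      · right; rw [h, sW_PI]
      · left; rw [h, smul_neg, sW_PI, neg_neg]
  obtain ⟨l, hl⟩ := D.exists_list u
  have h := key l
  rw [hl] at h
  unfold sgn
  split_ifs with h1
  · rw [h1]; simp
  · rw [h.resolve_left h1]; simp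

theorem sgn_one : D.sgn 1 = 1 := if_pos (one_smul _ _)

/-- from `smul_PI` -/
theorem sgn_mul (u v : D.W) : D.sgn (u * v) = D.sgn u * D.sgn v := by
  have h1 := D.smul_PI (u * v)
  have hc : ∀ e : ℤˣ, u • (((e : ℤˣ) : ℤ) : AA n) = (((e : ℤˣ) : ℤ) : AA n) := by
    intro e
    rcases Int.units_eq_one_or e with h | h <;> rw [h]
    · simp only [Units.val_one, Int.cast_one, smul_one]
    · simp only [Units.val_neg, Units.val_one, Int.cast_neg, Int.cast_one, smul_neg, smul_one]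
  rw [mul_smul, D.smul_PI v, smul_mul', hc, D.smul_PI u, ← mul_assoc] at h1
  have h2 := mul_right_cancel₀ D.PI_ne h1
  have h3 : (((D.sgn v * D.sgn u : ℤˣ) : ℤ) : AA n) = (((D.sgn (u * v) : ℤˣ) : ℤ) : AA n) := by
    rw [← h2, Units.val_mul, Int.cast_mul]
  have h4 := Int.cast_injective h3
  rw [mul_comm (D.sgn u)]
  exact (Units.ext h4).symm

/-- `sgn s_γ = -1` for all roots: `exists_simple`, `rW_smul`, `sW_PI`. -/
theorem sgn_rW (γ : D.Rt) : D.sgn (D.rW γ) = -1 := by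
  obtain ⟨l, α, h⟩ := D.exists_simple γ
  have h0 : D.sgn (D.sW α) = -1 := by
    unfold sgn
    refine if_neg fun h1 => ?_
    rw [sW_PI] at h1
    have h2 : (2 : AA n) * D.PI = 0 := by linear_combination -h1
    rcases mul_eq_zero.1 h2 with h3 | h3
    · exact two_ne_zero h3
    · exact D.PI_ne h3
  have h1 : D.sgn (l.map D.sW).prod * D.sgn ((l.map D.sW).prod)⁻¹ = 1 := by
    rw [← sgn_mul, mul_inv_cancel, sgn_one]
  have h2 : D.rW γ = (l.map D.sW).prod * D.sW α * ((l.map D.sW).prod)⁻¹ := by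
    rw [← h]; exact D.rW_smul _ _
  rw [h2, sgn_mul, sgn_mul, mul_right_comm, h1, h0, one_mul]

/-- `u PI0_μ = sgn u PI0_μ` if `u μ = μ`.  `PI = PI0_μ * ∏_{γ > 0, cp γ μ ≠ 0} γ`, and the second factor is `±` the
product `Q` of all roots `γ` with `cp γ μ > 0` (replace `γ` by `ng γ` if `cp γ μ < 0`), `u Q = Q`. -/
theorem smul_PI0 (μ : Fin n → ℤ) (u : D.W) (h : u.1 μ = μ) :
    u • D.PI0 μ = (((D.sgn u : ℤˣ) : ℤ) : AA n) * D.PI0 μ := by
  classical
  set SR : Finset D.Rt := D.posF.filter fun γ => ¬ D.cp γ μ = 0 with hSR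
  set SQ : Finset D.Rt := Finset.univ.filter fun γ => 0 < D.cp γ μ with hSQ
  have hPI : D.PI = D.PI0 μ * ∏ γ ∈ SR, (fm0 γ.1 : AA n) := by
    have h1 : D.PI0 μ = ∏ γ ∈ D.posF, (if D.cp γ μ = 0 then fm0 γ.1 else 1 : AA n) := by
      unfold PI0
      exact (Finset.prod_subtype D.posF (fun γ => D.mem_posF)
        fun γ : D.Rt => (if D.cp γ μ = 0 then fm0 γ.1 else 1 : AA n)).symm
    rw [h1, ← Finset.prod_filter, H2_PI_eq, hSR]
    exact (Finset.prod_filter_mul_prod_filter_not _ _ _).symm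
  -- the product over all roots with positive pairing is invariant
  have hmemQ : ∀ γ, γ ∈ SQ ↔ 0 < D.cp γ μ := fun γ => by rw [hSQ, Finset.mem_filter]; simp
  have hmemR : ∀ γ, γ ∈ SR ↔ D.Pos γ ∧ ¬ D.cp γ μ = 0 := fun γ => by
    rw [hSR, Finset.mem_filter, mem_posF]
  have hcp : ∀ γ : D.Rt, D.cp (u • γ) μ = D.cp γ μ := fun γ => by
    conv_lhs => rw [← h]
    exact D.cp_smul_W u γ μ
  have hQ : u • (∏ γ ∈ SQ, (fm0 γ.1 : AA n)) = ∏ γ ∈ SQ, (fm0 γ.1 : AA n) := by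
    rw [Finset.smul_prod']
    refine Finset.prod_bij (fun γ _ => u • γ) ?_ ?_ ?_ ?_
    · intro γ hγ
      rw [hmemQ] at hγ ⊢
      rw [hcp]; exact hγ
    · intro γ _ δ _ hγδ
      exact MulAction.injective _ hγδ
    · intro γ hγ
      refine ⟨u⁻¹ • γ, ?_, smul_inv_smul _ _⟩
      rw [hmemQ] at hγ ⊢
      rw [← hcp, smul_inv_smul]; exact hγ
    · intro γ _
      exact D.smul_fm0 _ _
  -- it is the second factor up to sign
  have hbij : ∏ γ ∈ SR, (fm0 (if 0 < D.cp γ μ then γ else D.ng γ).1 : AA n) =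
      ∏ γ ∈ SQ, (fm0 γ.1 : AA n) := by
    refine Finset.prod_bij (fun γ _ => if 0 < D.cp γ μ then γ else D.ng γ) ?_ ?_ ?_ ?_
    · intro γ hγ
      rw [hmemR] at hγ
      rw [hmemQ]
      split_ifs with h1
      · exact h1
      · rw [cp_ng]
        have h2 := hγ.2
        omega
    · intro γ hγ δ hδ hγδ
      rw [hmemR] at hγ hδ
      split_ifs at hγδ with h1 h2 h2
      · exact hγδ
      · exfalso
        rw [hγδ] at hγ
        exact D.not_pos_ng hδ.1 hγ.1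
      · exfalso
        rw [← hγδ] at hδ
        exact D.not_pos_ng hγ.1 hδ.1
      · have h3 := congrArg D.ng hγδ
        rwa [ng_ng, ng_ng] at h3
    · intro γ hγ
      rw [hmemQ] at hγ
      rcases D.pos_or_neg γ with h1 | h1
      · refine ⟨γ, (hmemR _).2 ⟨h1, hγ.ne'⟩, ?_⟩
        rw [if_pos hγ]
      · have h2 : D.cp (D.ng γ) μ = - D.cp γ μ := D.cp_ng _ _
        refine ⟨D.ng γ, (hmemR _).2 ⟨h1, by omega⟩, ?_⟩
        rw [if_neg (by omega), ng_ng]
    · intro γ _; rfl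
  have hsign : ∀ s : Finset D.Rt, (∏ γ ∈ s, (fm0 (if 0 < D.cp γ μ then γ else D.ng γ).1 : AA n) =
      ∏ γ ∈ s, (fm0 γ.1 : AA n)) ∨
      (∏ γ ∈ s, (fm0 (if 0 < D.cp γ μ then γ else D.ng γ).1 : AA n) =
      - ∏ γ ∈ s, (fm0 γ.1 : AA n)) := by
    intro s
    induction s using Finset.induction_on with
    | empty => left; simp
    | insert a s ha ih =>
      rw [Finset.prod_insert ha, Finset.prod_insert ha]
      split_ifs with h1
      · rcases ih with h2 | h2 <;> rw [h2]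
        · left; rfl
        · right; ring
      · rw [ng_val, fm0_neg]
        rcases ih with h2 | h2 <;> rw [h2]
        · right; ring
        · left; ring
  have hR : u • (∏ γ ∈ SR, (fm0 γ.1 : AA n)) = ∏ γ ∈ SR, (fm0 γ.1 : AA n) := by
    rcases hsign SR with h1 | h1
    · rw [← h1, hbij, hQ]
    · have h2 : ∏ γ ∈ SR, (fm0 γ.1 : AA n) = - ∏ γ ∈ SQ, (fm0 γ.1 : AA n) := by
        rw [← hbij, h1, neg_neg]
      rw [h2, smul_neg, hQ]
  have hRne : ∏ γ ∈ SR, (fm0 γ.1 : AA n) ≠ 0 :=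
    Finset.prod_ne_zero_iff.2 fun γ _ => fm0_ne_zero (D.Rt_ne γ)
  have h1 := D.smul_PI u
  rw [hPI, smul_mul', hR, ← mul_assoc] at h1
  exact mul_right_cancel₀ hRne h1

/-- (MTX/T1 `prod_dvd_of_prime`) Product of pairwise non-dividing primes, each dividing `c`. -/
theorem H3_prod_dvd {ι : Type*} (s : Finset ι) (f : ι → AA n) (c : AA n)
    (hp : ∀ i ∈ s, Prime (f i)) (hne : ∀ i ∈ s, ∀ j ∈ s, i ≠ j → ¬ f i ∣ f j)
    (hd : ∀ i ∈ s, f i ∣ c) : ∏ i ∈ s, f i ∣ c := by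
  classical
  induction s using Finset.induction_on with
  | empty => rw [Finset.prod_empty]; exact one_dvd c
  | insert a s ha ih =>
    obtain ⟨c', hc'⟩ := ih (fun i hi => hp i (Finset.mem_insert_of_mem hi))
      (fun i hi j hj => hne i (Finset.mem_insert_of_mem hi) j (Finset.mem_insert_of_mem hj))
      (fun i hi => hd i (Finset.mem_insert_of_mem hi))
    have h1 : f a ∣ (∏ i ∈ s, f i) * c' := by
      rw [← hc']
      exact hd a (Finset.mem_insert_self a s)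
    have hpa := hp a (Finset.mem_insert_self a s)
    rcases hpa.dvd_or_dvd h1 with h2 | h2
    · exfalso
      obtain ⟨i, hi, h3⟩ := (Prime.dvd_finsetProd_iff hpa _).1 h2
      refine hne a (Finset.mem_insert_self a s) i (Finset.mem_insert_of_mem hi) ?_ h3
      rintro rfl
      exact ha hi
    · obtain ⟨c'', hc''⟩ := h2
      rw [Finset.prod_insert ha]
      refine ⟨c'', ?_⟩
      rw [hc', hc'']
      ring

/-- `PI0_μ` divides `∑_{w ∈ W_μ} sgn w (w a)`.  By `fm0_ndvd` and primality it suffices that each `γ > 0` with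
`cp γ μ = 0` divides the sum (`Finset` product of non-associated primes, cf. MTX/T1 `prod_dvd_of_prime`); pair `w`
with `s_γ w`: `∑ sgn w w a = ½ ∑ sgn w (w a - s_γ (w a))` and `fm0_dvd`. -/
theorem PI0_dvd (μ : Fin n → ℤ) (a : AA n) :
    D.PI0 μ ∣ ∑ w : D.W, if w.1 μ = μ then (((D.sgn w : ℤˣ) : ℤ) : AA n) * (w • a) else 0 := by
  have hPI : D.PI0 μ = ∏ γ ∈ Finset.univ.filter (fun γ : D.PRt => D.cp γ.1 μ = 0),
      (fun γ : D.PRt => (fm0 γ.1.1 : AA n)) γ := by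
    unfold PI0
    rw [Finset.prod_filter]
  rw [hPI]
  refine H3_prod_dvd _ _ _ (fun γ _ => fm0_prime (D.Rt_ne γ.1))
    (fun γ _ δ _ h => D.fm0_ndvd (fun h1 => h (Subtype.ext h1.symm)) (fun h1 => ?_))
    (fun γ hγ => ?_)
  · exact D.not_pos_ng γ.2 (h1 ▸ δ.2)
  · have hγ0 : D.cp γ.1 μ = 0 := (Finset.mem_filter.1 hγ).2
    show (fm0 γ.1.1 : AA n) ∣ _
    set g : D.W → AA n := fun w =>
      if w.1 μ = μ then (((D.sgn w : ℤˣ) : ℤ) : AA n) * (w • a) else 0 with hg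
    have hfix : D.rf γ.1 μ = μ := by
      unfold rf
      rw [hγ0, zero_smul, sub_zero]
    have hiff : ∀ w : D.W, ((D.rW γ.1 * w).1 μ = μ ↔ w.1 μ = μ) := by
      intro w
      show D.rf γ.1 (w.1 μ) = μ ↔ _
      constructor
      · intro h
        have h1 := congrArg (D.rf γ.1) h
        rw [rf_rf, hfix] at h1
        exact h1
      · intro h
        rw [h, hfix]
    have hsum : ∑ w : D.W, g (D.rW γ.1 * w) = ∑ w : D.W, g w :=
      Fintype.sum_equiv (Equiv.mulLeft (D.rW γ.1)) _ _ fun w => rfl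
    have hdvd : (fm0 γ.1.1 : AA n) ∣ ∑ w : D.W, (g w + g (D.rW γ.1 * w)) := by
      refine Finset.dvd_sum fun w _ => ?_
      show (fm0 γ.1.1 : AA n) ∣ (if w.1 μ = μ then (((D.sgn w : ℤˣ) : ℤ) : AA n) * (w • a) else 0)
        + (if (D.rW γ.1 * w).1 μ = μ then
          (((D.sgn (D.rW γ.1 * w) : ℤˣ) : ℤ) : AA n) * ((D.rW γ.1 * w) • a) else 0)
      by_cases h : w.1 μ = μ
      · rw [if_pos h, if_pos ((hiff w).2 h), D.sgn_mul, D.sgn_rW, mul_smul]
        have h1 : ((((-1 : ℤˣ) * D.sgn w : ℤˣ) : ℤ) : AA n) = - (((D.sgn w : ℤˣ) : ℤ) : AA n) := by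
          rw [neg_one_mul, Units.val_neg, Int.cast_neg]
        rw [h1]
        have h2 : (((D.sgn w : ℤˣ) : ℤ) : AA n) * (w • a) +
            - (((D.sgn w : ℤˣ) : ℤ) : AA n) * (D.rW γ.1 • w • a) =
            (((D.sgn w : ℤˣ) : ℤ) : AA n) * (w • a - D.rW γ.1 • w • a) := by ring
        rw [h2]
        exact Dvd.dvd.mul_left (D.fm0_dvd γ.1 (w • a)) _
      · rw [if_neg h, if_neg (fun h1 => h ((hiff w).1 h1)), add_zero]
        exact dvd_zero _
    rw [Finset.sum_add_distrib, hsum] at hdvd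
    have h2 : ∑ w : D.W, g w = MvPolynomial.C ((1 : ℂ) / 2) * (∑ w : D.W, g w + ∑ w : D.W, g w) := by
      have h3 : (MvPolynomial.C ((1 : ℂ) / 2) : AA n) * 2 = 1 := by
        have h4 : (2 : AA n) = MvPolynomial.C (2 : ℂ) := by
          rw [map_ofNat]
        rw [h4, ← MvPolynomial.C_mul]
        norm_num
      rw [← two_mul, ← mul_assoc, h3, one_mul]
    rw [h2]
    exact Dvd.dvd.mul_left hdvd _

/-! ### the action on the fraction field -/

/-- (the action of `D.W` on `X` is the one of Mathlib) -/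
theorem smul_X (u : D.W) (x : Fin n → ℤ) : u • x = u.1 x := rfl

/-- The action of the Weyl group on the fraction field. -/
noncomputable instance instWK : MulSemiringAction D.W (KK n) where
  smul u z := D.uK u z
  one_smul z := D.uK_one z
  mul_smul u v z := D.uK_mul u v z
  smul_zero u := map_zero _
  smul_add u := map_add _
  smul_one u := map_one _
  smul_mul u := map_mul _

theorem smul_aK (u : D.W) (a : AA n) : u • (aK a : KK n) = aK (u • a) := D.uK_aK u a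

end RD

end Pool.Agent.MTG
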