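import Pool.Agent.MTG.GT2

/-! # MTG : dual bases of `A` over the invariants of a stabiliser (Scheja-Storch elements)

`Tn D h` : `h : D.W → A` is of the form `w ↦ ∑ a_i (w b_i)`.  From `n` invariants with Jacobian `κ PI` one gets the element
`δ_{w,1} PI0_l` of `Tn` on the stabiliser of `l`, for every `l`. -/

namespace Pool.Agent.MTG

open MvPolynomial
open Pool.Agent.MTX.SLD (RR AA fm0 fm0_add fm0_smul fm0_zero fm0_neg fm0_sub fm0_ne_zero fm0_prime)

variable {n : ℕ} (D : RD n)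

/-- functions of the form `w ↦ ∑ a_i (w b_i)` -/
def Tn (h : D.W → AA n) : Prop := ∃ (N : ℕ) (a b : Fin N → AA n), ∀ w, h w = ∑ i, a i * (w • b i)

variable {D}

theorem DB1_of {ι : Type} [Fintype ι] (a b : ι → AA n) {h : D.W → AA n}
    (hh : ∀ w, h w = ∑ i, a i * (w • b i)) : Tn D h := by
  refine ⟨Fintype.card ι, fun i => a ((Fintype.equivFin ι).symm i),
    fun i => b ((Fintype.equivFin ι).symm i), fun w => ?_⟩
  rw [hh w]
  exact Fintype.sum_equiv (Fintype.equivFin ι) _ _ fun i => by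
    simp only [Equiv.symm_apply_apply]

theorem Tn.const (a : AA n) : Tn D fun _ => a := by
  refine DB1_of (ι := Unit) (fun _ => a) (fun _ => 1) fun w => ?_
  have h1 : ∀ F : Unit → AA n, ∑ p : Unit, F p = F () := fun F => Fintype.sum_unique F
  rw [h1, smul_one, mul_one]

theorem Tn.right (b : AA n) : Tn D fun w => w • b := by
  refine DB1_of (ι := Unit) (fun _ => 1) (fun _ => b) fun w => ?_
  have h1 : ∀ F : Unit → AA n, ∑ p : Unit, F p = F () := fun F => Fintype.sum_unique F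
  rw [h1, one_mul]

theorem Tn.add {h h' : D.W → AA n} (h1 : Tn D h) (h2 : Tn D h') : Tn D (h + h') := by
  obtain ⟨N, a, b, e⟩ := h1
  obtain ⟨N', a', b', e'⟩ := h2
  refine DB1_of (ι := Fin N ⊕ Fin N') (Sum.elim a a') (Sum.elim b b') fun w => ?_
  rw [Fintype.sum_sum_type, Pi.add_apply, e, e']
  rfl

theorem Tn.mul {h h' : D.W → AA n} (h1 : Tn D h) (h2 : Tn D h') : Tn D (h * h') := by
  obtain ⟨N, a, b, e⟩ := h1
  obtain ⟨N', a', b', e'⟩ := h2
  refine DB1_of (ι := Fin N × Fin N') (fun p => a p.1 * a' p.2) (fun p => b p.1 * b' p.2)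
    fun w => ?_
  rw [Pi.mul_apply, e, e', Fintype.sum_prod_type, Finset.sum_mul]
  refine Finset.sum_congr rfl fun i _ => ?_
  rw [Finset.mul_sum]
  refine Finset.sum_congr rfl fun j _ => ?_
  rw [smul_mul']
  ring

theorem DB1_sum {ι : Type} (s : Finset ι) (f : ι → D.W → AA n) (h : ∀ i ∈ s, Tn D (f i)) :
    Tn D fun w => ∑ i ∈ s, f i w := by
  classical
  induction s using Finset.induction_on with
  | empty => exact Tn.const 0
  | insert a s ha ih =>
    have h1 := (h a (Finset.mem_insert_self a s)).add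
      (ih fun i hi => h i (Finset.mem_insert_of_mem hi))
    have h2 : (fun w => ∑ i ∈ insert a s, f i w) = f a + fun w => ∑ i ∈ s, f i w := by
      funext w
      rw [Finset.sum_insert ha]
      rfl
    rw [h2]
    exact h1

theorem DB1_prod {ι : Type} (s : Finset ι) (f : ι → D.W → AA n) (h : ∀ i ∈ s, Tn D (f i)) :
    Tn D fun w => ∏ i ∈ s, f i w := by
  classical
  induction s using Finset.induction_on with
  | empty => exact Tn.const 1
  | insert a s ha ih =>
    have h1 := (h a (Finset.mem_insert_self a s)).mul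
      (ih fun i hi => h i (Finset.mem_insert_of_mem hi))
    have h2 : (fun w => ∏ i ∈ insert a s, f i w) = f a * fun w => ∏ i ∈ s, f i w := by
      funext w
      rw [Finset.prod_insert ha]
      rfl
    rw [h2]
    exact h1

/-- determinants of matrices with entries in `Tn` (`Matrix.det_apply`; sums, products, signs) -/
theorem Tn.det (M : Fin n → Fin n → D.W → AA n) (hM : ∀ i j, Tn D (M i j)) :
    Tn D fun w => Matrix.det fun i j => M i j w := by
  have h1 : (fun w : D.W => Matrix.det fun i j => M i j w) = fun w =>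
      ∑ σ : Equiv.Perm (Fin n), (((Equiv.Perm.sign σ : ℤˣ) : ℤ) : AA n) * ∏ i, M (σ i) i w := by
    funext w
    exact Matrix.det_apply' (fun i j => M i j w)
  rw [h1]
  refine DB1_sum Finset.univ _ fun σ _ => ?_
  exact (Tn.const (((Equiv.Perm.sign σ : ℤˣ) : ℤ) : AA n)).mul
    (DB1_prod Finset.univ _ fun i _ => hM (σ i) i)

/-- Difference quotients.  Induction on `F` (`MvPolynomial.induction_on`): constants: `0`; sums; `F X_k`:
`d'_j = d_j * X_k + δ_{jk} (w ↦ w • F)`, as `F X_k - w (F X_k) = (F - w F) X_k + (w F) (X_k - w X_k)`. -/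
theorem exists_dq (F : AA n) : ∃ d : Fin n → D.W → AA n, (∀ j, Tn D (d j)) ∧
    (∀ w : D.W, F - w • F = ∑ j, d j w * (X j - w • X j)) ∧ ∀ j, d j 1 = pderiv j F := by
  induction F using MvPolynomial.induction_on with
  | C a =>
    refine ⟨fun _ _ => 0, fun j => Tn.const 0, fun w => ?_, fun j => ?_⟩
    · rw [RD.smul_C, sub_self]
      exact (Finset.sum_eq_zero fun j _ => zero_mul _).symm
    · exact pderiv_C.symm
  | add F G hF hG =>
    obtain ⟨d, h1, h2, h3⟩ := hF
    obtain ⟨d', h1', h2', h3'⟩ := hG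
    refine ⟨fun j => d j + d' j, fun j => (h1 j).add (h1' j), fun w => ?_, fun j => ?_⟩
    · have e1 : F + G - w • (F + G) = (F - w • F) + (G - w • G) := by
        rw [smul_add]
        ring
      rw [e1, h2, h2', ← Finset.sum_add_distrib]
      refine Finset.sum_congr rfl fun j _ => ?_
      show _ = (d j w + d' j w) * (X j - w • X j)
      ring
    · show d j 1 + d' j 1 = _
      rw [h3, h3', map_add]
  | mul_X F k hF =>
    obtain ⟨d, h1, h2, h3⟩ := hF
    refine ⟨fun j w => d j w * X k + if j = k then w • F else 0, fun j => ?_, fun w => ?_,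
      fun j => ?_⟩
    · by_cases hj : j = k
      · simp only [if_pos hj]
        exact ((h1 j).mul (Tn.const (X k))).add (Tn.right F)
      · simp only [if_neg hj, add_zero]
        exact (h1 j).mul (Tn.const (X k))
    · have e1 : F * X k - w • (F * X k) = (F - w • F) * X k + (w • F) * (X k - w • (X k : AA n)) := by
        rw [smul_mul']
        ring
      rw [e1, h2]
      simp only [add_mul, Finset.sum_add_distrib, ite_mul, zero_mul]
      rw [Finset.sum_ite_eq' Finset.univ k, if_pos (Finset.mem_univ k), Finset.sum_mul]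
      congr 1
      exact Finset.sum_congr rfl fun j _ => by ring
    · show d j 1 * X k + (if j = k then (1 : D.W) • F else 0) = _
      rw [h3, pderiv_mul, pderiv_X, one_smul]
      by_cases hj : j = k
      · rw [if_pos hj, hj, Pi.single_eq_same, mul_one]
      · rw [if_neg hj, Pi.single_eq_of_ne (Ne.symm hj), mul_zero]

/-- For `F_i` invariant under a subgroup `H` of `W`: there is `h` in `Tn` with `h 1 = det (∂_j F_i)` and `h w = 0` for
`w ∈ H`, `w ≠ 1`: `h w = det (d_{ij} w)`; for `w ∈ H` the vector `X_j - w X_j` is in the kernel of the matrix, and it is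
nonzero for `w ≠ 1` (if `w X_j = X_j` for all `j` then `w e_j = e_j`, `actO_X`, `fm0_inj`). -/
theorem exists_ss (F : Fin n → AA n) (H : Subgroup D.W) (hF : ∀ w ∈ H, ∀ i, w • F i = F i) :
    ∃ h : D.W → AA n, Tn D h ∧ h 1 = Matrix.det (fun i j => pderiv j (F i)) ∧
      ∀ w ∈ H, w ≠ 1 → h w = 0 := by
  choose d hd1 hd2 hd3 using fun i => exists_dq (D := D) (F i)
  refine ⟨fun w => Matrix.det fun i j => d i j w, Tn.det (fun i j => d i j) hd1, ?_, ?_⟩
  · show (Matrix.det fun i j => d i j 1) = _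
    simp only [hd3]
  · intro w hw hw1
    refine Matrix.exists_mulVec_eq_zero_iff.1 ⟨fun j => X j - w • X j, ?_, ?_⟩
    · intro h0
      apply hw1
      have h1 : ∀ j, w.1 (Pi.single j 1) = (Pi.single j 1 : Fin n → ℤ) := by
        intro j
        have h2 : (X j : AA n) - w • X j = 0 := congrFun h0 j
        have h3 : w • (X j : AA n) = fm0 (w.1 (Pi.single j 1)) := D.actO_X w j
        rw [h3, sub_eq_zero, ← Pool.Agent.MTX.SLD.fm0_al] at h2
        exact (fm0_inj h2).symm
      apply Subtype.ext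
      apply LinearEquiv.ext
      intro x
      show w.1 x = x
      conv_lhs => rw [eq_sum_single x, map_sum]
      conv_rhs => rw [eq_sum_single x]
      refine Finset.sum_congr rfl fun i _ => ?_
      rw [map_smul, h1]
    · funext i
      have h4 := hd2 i w
      rw [hF w hw i, sub_self] at h4
      exact h4.symm

/-- the translation `X_i ↦ X_i + t B(l, e_i)` -/
noncomputable def tl (l : Fin n → ℤ) (t : ℂ) : AA n →ₐ[ℂ] AA n :=
  aeval fun i => X i + MvPolynomial.C (t * ((D.B l (Pi.single i 1) : ℤ) : ℂ))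

/-- `tl l t (fm0 x) = fm0 x + t B(l, x)` (linearity, `eq_sum_single`) -/
theorem tl_fm0 (l : Fin n → ℤ) (t : ℂ) (x : Fin n → ℤ) : tl (D := D) l t (fm0 x) =
    fm0 x + MvPolynomial.C (t * ((D.B l x : ℤ) : ℂ)) := by
  have h1 : ∀ y : Fin n → ℤ, fm0 y = ∑ i, MvPolynomial.C (y i : ℂ) * (X i : AA n) := fun y => rfl
  have h2 : D.B l x = ∑ i, x i * D.B l (Pi.single i 1) := by
    have h3 : ∀ s : Finset (Fin n), D.B l (∑ i ∈ s, x i • (Pi.single i 1 : Fin n → ℤ)) =
        ∑ i ∈ s, x i * D.B l (Pi.single i 1) := by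
      intro s
      classical
      induction s using Finset.induction_on with
      | empty => rw [Finset.sum_empty, Finset.sum_empty, RD.B_zero_right]
      | insert a s ha ih =>
        rw [Finset.sum_insert ha, Finset.sum_insert ha, RD.B_add_right, RD.B_smul_right, ih]
    have h4 := h3 Finset.univ
    rw [← eq_sum_single] at h4
    exact h4
  rw [h1, map_sum, h2]
  push_cast
  rw [Finset.mul_sum, map_sum, ← Finset.sum_add_distrib]
  refine Finset.sum_congr rfl fun i _ => ?_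
  rw [map_mul]
  unfold tl
  rw [aeval_X, algHom_C, algebraMap_eq, mul_add, ← map_mul]
  congr 2
  ring

/-- `tl` commutes with the stabiliser of `l` (`algHom_ext`, `tl_fm0`, `B_W`) -/
theorem tl_smul (l : Fin n → ℤ) (t : ℂ) {w : D.W} (hw : w.1 l = l) (F : AA n) :
    w • tl (D := D) l t F = tl (D := D) l t (w • F) := by
  have h1 : (D.actO w).comp (tl (D := D) l t) = (tl (D := D) l t).comp (D.actO w) := by
    apply algHom_ext
    intro i
    rw [AlgHom.comp_apply, AlgHom.comp_apply, RD.actO_X, tl_fm0]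
    have h2 : D.B l (w.1 (Pi.single i 1)) = D.B l (Pi.single i 1) := by
      conv_lhs => rw [← hw]
      rw [RD.B_W]
    rw [h2]
    unfold tl
    rw [aeval_X, map_add, RD.actO_X, algHom_C, algebraMap_eq]
  exact DFunLike.congr_fun h1 F

/-- `∂_j (tl F) = tl (∂_j F)` -/
theorem pderiv_tl (l : Fin n → ℤ) (t : ℂ) (F : AA n) (j : Fin n) :
    pderiv j (tl (D := D) l t F) = tl (D := D) l t (pderiv j F) := by
  induction F using MvPolynomial.induction_on with
  | C a =>
    unfold tl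
    rw [algHom_C, algebraMap_eq, pderiv_C, map_zero]
  | add p q hp hq => rw [map_add, map_add, map_add, map_add, hp, hq]
  | mul_X p i hp =>
    have h1 : tl (D := D) l t (X i) =
        X i + MvPolynomial.C (t * ((D.B l (Pi.single i 1) : ℤ) : ℂ)) := by
      unfold tl
      rw [aeval_X]
    have h2 : tl (D := D) l t (pderiv j (X i)) = pderiv j (X i) := by
      rw [pderiv_X]
      by_cases hij : i = j
      · subst hij
        rw [Pi.single_eq_same, map_one]
      · rw [Pi.single_eq_of_ne hij, map_zero]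
    rw [map_mul, pderiv_mul, pderiv_mul, map_add, map_mul, map_mul, hp, h1, h2, map_add, pderiv_C,
      add_zero]

theorem db3_sum {ι : Type} (s : Finset ι) (h : ι → D.W → AA n) (hh : ∀ i ∈ s, Tn D (h i)) :
    Tn D (∑ i ∈ s, h i) := by
  classical
  induction s using Finset.induction_on with
  | empty => exact Tn.const 0
  | insert a s ha ih =>
    rw [Finset.sum_insert ha]
    exact (hh a (Finset.mem_insert_self _ _)).add
      (ih fun i hi => hh i (Finset.mem_insert_of_mem hi))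

/-- weights extracting the coefficient of degree `d` from the values at `0, .., d` -/
theorem db3_coef (d : ℕ) : ∃ c : Fin (d + 1) → ℂ, ∀ m : Fin (d + 1),
    ∑ i : Fin (d + 1), c i * ((i : ℕ) : ℂ) ^ (m : ℕ) = if m = Fin.last d then 1 else 0 := by
  have hinj : Function.Injective (fun i : Fin (d + 1) => (((i : ℕ) : ℂ))) := by
    intro i j h
    exact Fin.ext (Nat.cast_injective h)
  have hdet : IsUnit ((Matrix.vandermonde (fun i : Fin (d + 1) => (((i : ℕ) : ℂ)))).transpose).det := by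
    rw [Matrix.det_transpose]
    exact (Matrix.det_vandermonde_ne_zero_iff.2 hinj).isUnit
  refine ⟨((Matrix.vandermonde (fun i : Fin (d + 1) => (((i : ℕ) : ℂ)))).transpose)⁻¹.mulVec
    (Pi.single (Fin.last d) 1), fun m => ?_⟩
  have h1 : (Matrix.vandermonde (fun i : Fin (d + 1) => (((i : ℕ) : ℂ)))).transpose.mulVec
      (((Matrix.vandermonde (fun i : Fin (d + 1) => (((i : ℕ) : ℂ)))).transpose)⁻¹.mulVec
        (Pi.single (Fin.last d) 1)) = Pi.single (Fin.last d) 1 := by
    rw [Matrix.mulVec_mulVec, Matrix.mul_nonsing_inv _ hdet, Matrix.one_mulVec]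
  have h2 := congrFun h1 m
  rw [Pi.single_apply] at h2
  rw [← h2]
  show _ = ∑ i, Matrix.vandermonde (fun i : Fin (d + 1) => (((i : ℕ) : ℂ))) i m * _
  refine Finset.sum_congr rfl fun i _ => ?_
  rw [Matrix.vandermonde_apply, mul_comm]

theorem db3_lead {R : Type} [CommRing R] [Algebra ℂ R] (P : Polynomial R) (d : ℕ)
    (hP : P.natDegree ≤ d) {c : Fin (d + 1) → ℂ}
    (hc : ∀ m : Fin (d + 1), ∑ i : Fin (d + 1), c i * ((i : ℕ) : ℂ) ^ (m : ℕ) =
      if m = Fin.last d then 1 else 0) :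
    ∑ i : Fin (d + 1), algebraMap ℂ R (c i) * P.eval (algebraMap ℂ R ((i : ℕ) : ℂ)) =
      P.coeff d := by
  have h1 : ∀ i : Fin (d + 1), algebraMap ℂ R (c i) * P.eval (algebraMap ℂ R ((i : ℕ) : ℂ)) =
      ∑ m : Fin (d + 1), P.coeff m * algebraMap ℂ R (c i * ((i : ℕ) : ℂ) ^ (m : ℕ)) := by
    intro i
    rw [Polynomial.eval_eq_sum_range' (Nat.lt_succ_of_le hP), Finset.mul_sum,
      ← Fin.sum_univ_eq_sum_range
        (fun m => algebraMap ℂ R (c i) * (P.coeff m * algebraMap ℂ R ((i : ℕ) : ℂ) ^ m)) (d + 1)]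
    refine Finset.sum_congr rfl fun m _ => ?_
    rw [map_mul, map_pow]
    ring
  rw [Finset.sum_congr rfl fun i _ => h1 i, Finset.sum_comm]
  have h2 : ∀ m : Fin (d + 1), ∑ i : Fin (d + 1),
      P.coeff m * algebraMap ℂ R (c i * ((i : ℕ) : ℂ) ^ (m : ℕ)) =
      if m = Fin.last d then P.coeff m else 0 := by
    intro m
    rw [← Finset.mul_sum, ← map_sum, hc m]
    split_ifs
    · rw [map_one, mul_one]
    · rw [map_zero, mul_zero]
  rw [Finset.sum_congr rfl fun m _ => h2 m, Finset.sum_ite_eq' Finset.univ (Fin.last d)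
    fun m => P.coeff m, if_pos (Finset.mem_univ _)]
  rfl

/-- Dual bases on the stabiliser of `l`.  `exists_ss` for `tl l t (F_i)`, `H` the stabiliser: `h_t 1 = tl l t (κ PI) =
κ ∏_{γ>0} (fm0 γ + t B(l,γ)) = κ PI0_l ∏_{γ>0, cp γ l ≠ 0} (fm0 γ + t B(l, γ))` (`B(γ, l) = cp γ l cf γ`).  As a polynomial in
`t` of degree `d = #{γ > 0, cp γ l ≠ 0}` its leading coefficient is `κ PI0_l c`, `c = ∏ B(l, γ) ≠ 0` a constant; so a
linear combination of the `h_t`, `t = 0, 1, .., d` (Lagrange: `∑_i p(t_i) / ∏_{j≠i} (t_i - t_j) = ` leading coefficient of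
`p`), divided by `κ c`, is the required element. -/
theorem exists_db (F : Fin n → AA n) (hF : ∀ (w : D.W) i, w • F i = F i) {κ : ℂ} (hκ : κ ≠ 0)
    (hJ : Matrix.det (fun i j => pderiv j (F i)) = MvPolynomial.C κ * D.PI) (l : Fin n → ℤ) :
    ∃ (N : ℕ) (a b : Fin N → AA n), ∑ i, a i * b i = D.PI0 l ∧
      ∀ w : D.W, w.1 l = l → w ≠ 1 → ∑ i, a i * (w • b i) = 0 := by
  classical
  let H : Subgroup D.W :=
    { carrier := {w | w.1 l = l}
      mul_mem' := by
        intro v w hv hw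
        show v.1 (w.1 l) = l
        have hw' : w.1 l = l := hw
        rw [hw']
        exact hv
      one_mem' := rfl
      inv_mem' := by
        intro v hv
        have hv' : v.1 l = l := hv
        show (v⁻¹).1 l = l
        conv_lhs => rw [← hv']
        exact D.W_inv_apply' v l }
  -- the functions for the translates
  have hT : ∀ t : ℂ, ∃ h : D.W → AA n, Tn D h ∧
      h 1 = MvPolynomial.C κ * (D.PI0 l * ∏ γ ∈ Finset.univ.filter (fun γ : D.PRt => D.cp γ.1 l ≠ 0),
        (fm0 γ.1.1 + MvPolynomial.C (t * ((D.B l γ.1.1 : ℤ) : ℂ)))) ∧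
      ∀ w : D.W, w.1 l = l → w ≠ 1 → h w = 0 := by
    intro t
    obtain ⟨h, h1, h2, h3⟩ := exists_ss (D := D) (fun i => tl (D := D) l t (F i)) H (by
      intro w hw i
      rw [tl_smul l t hw, hF])
    refine ⟨h, h1, ?_, fun w hw => h3 w hw⟩
    rw [h2]
    have h4 : (Matrix.det fun i j => pderiv j (tl (D := D) l t (F i))) =
        tl (D := D) l t (Matrix.det fun i j => pderiv j (F i)) := by
      rw [AlgHom.map_det]
      congr 1
      funext i j
      exact pderiv_tl l t (F i) j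
    rw [h4, hJ, map_mul, algHom_C, algebraMap_eq]
    congr 1
    unfold RD.PI
    rw [map_prod]
    have h5 : ∀ γ : D.PRt, tl (D := D) l t (fm0 γ.1.1) =
        (if D.cp γ.1 l = 0 then fm0 γ.1.1 else 1) *
          (if D.cp γ.1 l ≠ 0 then
            (fm0 γ.1.1 + MvPolynomial.C (t * ((D.B l γ.1.1 : ℤ) : ℂ))) else 1) := by
      intro γ
      rw [tl_fm0]
      by_cases h0 : D.cp γ.1 l = 0
      · rw [if_pos h0, if_neg (not_not.2 h0), mul_one]
        have h6 := D.cp_cf γ.1 l
        rw [h0, zero_mul, D.B_comm] at h6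
        rw [← h6, Int.cast_zero, mul_zero, MvPolynomial.C_0, add_zero]
      · rw [if_neg h0, if_pos h0, one_mul]
    rw [Finset.prod_congr rfl fun γ _ => h5 γ, Finset.prod_mul_distrib,
      Finset.prod_filter (fun γ : D.PRt => D.cp γ.1 l ≠ 0)]
    rfl
  choose h hh1 hh2 hh3 using hT
  set S : Finset D.PRt := Finset.univ.filter (fun γ : D.PRt => D.cp γ.1 l ≠ 0) with hS
  set d : ℕ := S.card with hd
  obtain ⟨c, hc⟩ := db3_coef d
  set P : Polynomial (AA n) := ∏ γ ∈ S, (Polynomial.C (fm0 γ.1.1 : AA n) +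
    Polynomial.C (MvPolynomial.C ((D.B l γ.1.1 : ℤ) : ℂ)) * Polynomial.X) with hPd
  have hdeg1 : ∀ γ ∈ S, (Polynomial.C (fm0 γ.1.1 : AA n) +
      Polynomial.C (MvPolynomial.C ((D.B l γ.1.1 : ℤ) : ℂ)) * Polynomial.X).natDegree ≤ 1 := by
    intro γ _
    refine (Polynomial.natDegree_add_le _ _).trans (max_le ?_ ?_)
    · rw [Polynomial.natDegree_C]; exact Nat.zero_le _
    · exact (Polynomial.natDegree_C_mul_le _ _).trans Polynomial.natDegree_X_le
  have hPdeg : P.natDegree ≤ d := by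
    refine (Polynomial.natDegree_prod_le _ _).trans ?_
    refine (Finset.sum_le_sum hdeg1).trans ?_
    rw [Finset.sum_const, smul_eq_mul, mul_one]
  have hcoef : P.coeff d = MvPolynomial.C (∏ γ ∈ S, ((D.B l γ.1.1 : ℤ) : ℂ)) := by
    have h1 := Polynomial.coeff_prod_of_natDegree_le (s := S) (fun γ : D.PRt =>
      Polynomial.C (fm0 γ.1.1 : AA n) +
      Polynomial.C (MvPolynomial.C ((D.B l γ.1.1 : ℤ) : ℂ)) * Polynomial.X) 1 hdeg1
    rw [mul_one] at h1
    rw [hPd, hd, h1, map_prod]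
    refine Finset.prod_congr rfl fun γ _ => ?_
    rw [Polynomial.coeff_add, Polynomial.coeff_C_of_ne_zero one_ne_zero, Polynomial.coeff_C_mul,
      Polynomial.coeff_X_one, mul_one, zero_add]
  have heval : ∀ t : ℂ, P.eval (algebraMap ℂ (AA n) t) = ∏ γ ∈ S,
      (fm0 γ.1.1 + MvPolynomial.C (t * ((D.B l γ.1.1 : ℤ) : ℂ))) := by
    intro t
    rw [hPd, Polynomial.eval_prod]
    refine Finset.prod_congr rfl fun γ _ => ?_
    rw [Polynomial.eval_add, Polynomial.eval_C, Polynomial.eval_mul, Polynomial.eval_C,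
      Polynomial.eval_X, algebraMap_eq, ← MvPolynomial.C_mul, mul_comm t]
  have hlead := db3_lead P d hPdeg hc
  have hB0 : κ * ∏ γ ∈ S, ((D.B l γ.1.1 : ℤ) : ℂ) ≠ 0 := by
    refine mul_ne_zero hκ (Finset.prod_ne_zero_iff.2 fun γ hγ => ?_)
    rw [Int.cast_ne_zero, D.B_comm, ← D.cp_cf]
    exact mul_ne_zero (Finset.mem_filter.1 hγ).2 (D.cf_pos γ.1).ne'
  have hTn : Tn D (∑ i : Fin (d + 1), (fun _ : D.W =>
      (MvPolynomial.C ((κ * ∏ γ ∈ S, ((D.B l γ.1.1 : ℤ) : ℂ))⁻¹ * c i) : AA n)) *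
        h ((i : ℕ) : ℂ)) :=
    db3_sum _ _ fun i _ => (Tn.const _).mul (hh1 _)
  obtain ⟨N, a, b, hab⟩ := hTn
  have happ : ∀ w : D.W, (∑ i : Fin (d + 1), (fun _ : D.W =>
      (MvPolynomial.C ((κ * ∏ γ ∈ S, ((D.B l γ.1.1 : ℤ) : ℂ))⁻¹ * c i) : AA n)) *
        h ((i : ℕ) : ℂ)) w = ∑ i : Fin (d + 1),
        MvPolynomial.C ((κ * ∏ γ ∈ S, ((D.B l γ.1.1 : ℤ) : ℂ))⁻¹ * c i) * h ((i : ℕ) : ℂ) w := by
    intro w
    rw [Finset.sum_apply]
    rfl
  refine ⟨N, a, b, ?_, fun w hw hw1 => ?_⟩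
  · have h1 := hab 1
    simp only [one_smul] at h1
    rw [← h1, happ]
    have h2 : ∀ i : Fin (d + 1),
        MvPolynomial.C ((κ * ∏ γ ∈ S, ((D.B l γ.1.1 : ℤ) : ℂ))⁻¹ * c i) * h ((i : ℕ) : ℂ) 1 =
        MvPolynomial.C ((κ * ∏ γ ∈ S, ((D.B l γ.1.1 : ℤ) : ℂ))⁻¹) * MvPolynomial.C κ * D.PI0 l *
          (algebraMap ℂ (AA n) (c i) * P.eval (algebraMap ℂ (AA n) ((i : ℕ) : ℂ))) := by
      intro i
      rw [hh2, heval, MvPolynomial.C_mul, algebraMap_eq]
      ring
    rw [Finset.sum_congr rfl fun i _ => h2 i, ← Finset.mul_sum, hlead, hcoef]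
    have h3 : MvPolynomial.C ((κ * ∏ γ ∈ S, ((D.B l γ.1.1 : ℤ) : ℂ))⁻¹) * MvPolynomial.C κ *
        D.PI0 l * MvPolynomial.C (∏ γ ∈ S, ((D.B l γ.1.1 : ℤ) : ℂ)) =
        MvPolynomial.C ((κ * ∏ γ ∈ S, ((D.B l γ.1.1 : ℤ) : ℂ))⁻¹ *
          (κ * ∏ γ ∈ S, ((D.B l γ.1.1 : ℤ) : ℂ))) * D.PI0 l := by
      rw [MvPolynomial.C_mul, MvPolynomial.C_mul]
      ring
    rw [h3, inv_mul_cancel₀ hB0, MvPolynomial.C_1, one_mul]
  · rw [← hab w, happ]
    refine Finset.sum_eq_zero fun i _ => ?_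
    rw [hh3 _ w hw hw1, mul_zero]

end Pool.Agent.MTG
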