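import Pool.Agent.MTG.GT3
import Pool.Agent.MTG.G8

/-! # MTG, Part T : families of retraction data

`RF s` : a finite family of words `j r` with elements `ω r` of length zero, and elements `io r a`, `pi r b` of the
Bott-Samelson lattices `BS_0 (j r)`, such that `∑_r Tr (io r a * pi r b) = δ_ab`; at the index `q` (label
`lab q * ω r`, weight `(lab q * ω r).l`) `io r` is an eigenvector of `s` and `pi r` a left eigenvector, of this weight. -/

namespace Pool.Agent.MTG

open MvPolynomial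
open Pool.Agent.MTX (AS SW RedData Lat RyLat RingLat mulM ring_BS ry_BS ry_base ring_base ry_words
  ring_words ten ten_cat ten_mem ten_mul tr_ten catE cat_lab words_append trM trM_spec trM_unique)
open Pool.Agent.MTX.SLD (RR AA fm0 fm0_add fm0_smul fm0_zero fm0_neg fm0_sub fm0_ne_zero fm0_prime)

variable {n : ℕ} {D : RD n}

/-! ### transport along an element of length zero -/

/-- the word `ω j` -/
noncomputable abbrev tw (ω : D.Om) (j : List D.SA) : List D.SA := j.map fun s => ω • s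

/-- indices of `BS_0 (ω j)` to indices of `BS_0 j` -/
noncomputable def twJ (ω : D.Om) : (j : List D.SA) → (D.sw0.BS (tw ω j)).J → (D.sw0.BS j).J
  | [], _ => ()
  | _ :: j, p => (twJ ω j p.1, p.2)

/-- indices of `BS_0 j` to indices of `BS_0 (ω j)` -/
noncomputable def twJ' (ω : D.Om) : (j : List D.SA) → (D.sw0.BS j).J → (D.sw0.BS (tw ω j)).J
  | [], _ => ()
  | _ :: j, p => (twJ' ω j p.1, p.2)

theorem twJ_twJ' (ω : D.Om) (j : List D.SA) (p : (D.sw0.BS j).J) : twJ ω j (twJ' ω j p) = p := by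
  induction j with
  | nil => rfl
  | cons s j ih =>
    show (twJ ω j (twJ' ω j p.1), p.2) = p
    rw [ih]
    rfl

theorem twJ'_twJ (ω : D.Om) (j : List D.SA) (p : (D.sw0.BS (tw ω j)).J) :
    twJ' ω j (twJ ω j p) = p := by
  induction j with
  | nil => rfl
  | cons s j ih =>
    show (twJ' ω j (twJ ω j p.1), p.2) = p
    rw [ih]
    rfl

/-- Induction on the word; `aref (ω • s) = ω * aref s * ω⁻¹` (`aref_smul`). -/
theorem lab_tw (ω : D.Om) (j : List D.SA) (p : (D.sw0.BS (tw ω j)).J) :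
    (D.sw0.BS (tw ω j)).lab p = ω.1 * (D.sw0.BS j).lab (twJ ω j p) * (ω.1)⁻¹ := by
  induction j with
  | nil =>
    show (1 : D.Aff) = ω.1 * 1 * (ω.1)⁻¹
    group
  | cons s j ih =>
    obtain ⟨q, b⟩ := p
    cases b with
    | false => exact ih q
    | true =>
      show (D.sw0.BS (tw ω j)).lab q * D.aref (ω • s).1 =
        ω.1 * ((D.sw0.BS j).lab (twJ ω j q) * D.aref s.1) * (ω.1)⁻¹
      rw [ih, D.Om_smul_val, D.aref_smul]
      group

/-- the equation of the root of a letter -/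
theorem F1_f (ω : D.Om) (s : D.SA) : D.sw0.f (ω • s) = ω.1 • D.sw0.f s := by
  show (fm0 (ω • s).1.1.1 : AA n) = ω.1 • fm0 s.1.1.1
  rw [D.Aff_smul_A, D.smul_fm0]
  rfl

theorem F1_key (ω w : D.Aff) (x : AA n) : (ω * w * ω⁻¹) • (ω • x) = ω • (w • x) := by
  rw [← mul_smul, ← mul_smul]
  congr 1
  group

/-- the transport of functions -/
noncomputable def twM (ω : D.Om) (j : List D.SA) (m : (D.sw0.BS j).J → AA n) :
    (D.sw0.BS (tw ω j)).J → AA n := fun p => ω.1 • m (twJ ω j p)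

/-- Induction on the word: apply `ω` to `m (p,0) - m (p,1) = (lab p • f s) n p`; `f (ω • s) = ω • f s`
(`smul_fm0`), `lab_tw`. -/
theorem twM_mem (ω : D.Om) (j : List D.SA) {m : (D.sw0.BS j).J → AA n}
    (hm : m ∈ (D.sw0.BS j).M) : twM ω j m ∈ (D.sw0.BS (tw ω j)).M := by
  induction j with
  | nil => trivial
  | cons s j ih =>
    have hm' := (Lat.mem_star (f := D.sw0.f s) (g := D.sw0.g s) (L := D.sw0.BS j) (m := m)).1 hm
    obtain ⟨h0, n', hn', hd⟩ := hm'
    have h1 : twM ω j (fun p => m (p, false)) ∈ (D.sw0.BS (tw ω j)).M := ih h0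
    have h2 : twM ω j n' ∈ (D.sw0.BS (tw ω j)).M := ih hn'
    refine (Lat.mem_star (f := D.sw0.f (ω • s)) (g := D.sw0.g (ω • s)) (L := D.sw0.BS (tw ω j))
      (m := twM ω (s :: j) m)).2 ⟨h1, twM ω j n', h2, fun p => ?_⟩
    have hd' : m (twJ ω j p, false) - m (twJ ω j p, true) =
        ((D.sw0.BS j).lab (twJ ω j p) • D.sw0.f s) * n' (twJ ω j p) := hd (twJ ω j p)
    show ω.1 • m (twJ ω j p, false) - ω.1 • m (twJ ω j p, true) =
      ((D.sw0.BS (tw ω j)).lab p • D.sw0.f (ω • s)) * (ω.1 • n' (twJ ω j p))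
    refine ((smul_sub _ _ _).symm.trans (congrArg (fun x => ω.1 • x) hd')).trans ?_
    show ω.1 • (((D.sw0.BS j).lab (twJ ω j p) • D.sw0.f s) * n' (twJ ω j p)) = _
    rw [smul_mul', lab_tw, F1_f, F1_key]

/-- Induction on the word (`trM_unique`). -/
theorem Tr_twM (ω : D.Om) (j : List D.SA) (m : (D.sw0.BS j).M) :
    D.sw0.Tr (tw ω j) ⟨twM ω j m.1, twM_mem ω j m.2⟩ = ω.1 • D.sw0.Tr j m := by
  induction j with
  | nil => rfl
  | cons s j ih =>
    have h := ih (trM (D.sw0.g s) (D.sw0.BS j) (D.sw0.f_ne s) m)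
    have hT : D.sw0.Tr (s :: j) m = D.sw0.Tr j (trM (D.sw0.g s) (D.sw0.BS j) (D.sw0.f_ne s) m) := rfl
    rw [hT, ← h]
    have key : trM (D.sw0.g (ω • s)) (D.sw0.BS (tw ω j)) (D.sw0.f_ne (ω • s))
        ⟨twM ω (s :: j) m.1, twM_mem ω (s :: j) m.2⟩ =
        ⟨twM ω j (trM (D.sw0.g s) (D.sw0.BS j) (D.sw0.f_ne s) m).1,
          twM_mem ω j (trM (D.sw0.g s) (D.sw0.BS j) (D.sw0.f_ne s) m).2⟩ := by
      apply Subtype.ext
      apply trM_unique
      intro p
      have hd : m.1 (twJ ω j p, false) - m.1 (twJ ω j p, true) =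
          ((D.sw0.BS j).lab (twJ ω j p) • D.sw0.f s) *
          (trM (D.sw0.g s) (D.sw0.BS j) (D.sw0.f_ne s) m).1 (twJ ω j p) :=
        trM_spec (g := D.sw0.g s) (D.sw0.f_ne s) m (twJ ω j p)
      show ω.1 • m.1 (twJ ω j p, false) - ω.1 • m.1 (twJ ω j p, true) =
        ((D.sw0.BS (tw ω j)).lab p • D.sw0.f (ω • s)) *
          (ω.1 • (trM (D.sw0.g s) (D.sw0.BS j) (D.sw0.f_ne s) m).1 (twJ ω j p))
      refine ((smul_sub _ _ _).symm.trans (congrArg (fun x => ω.1 • x) hd)).trans ?_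
      show ω.1 • (((D.sw0.BS j).lab (twJ ω j p) • D.sw0.f s) *
          (trM (D.sw0.g s) (D.sw0.BS j) (D.sw0.f_ne s) m).1 (twJ ω j p)) = _
      rw [smul_mul', lab_tw, F1_f, F1_key]
    show D.sw0.Tr (tw ω j) (trM (D.sw0.g (ω • s)) (D.sw0.BS (tw ω j)) (D.sw0.f_ne (ω • s))
        ⟨twM ω (s :: j) m.1, twM_mem ω (s :: j) m.2⟩) = _
    rw [key]

/-! ### families of retraction data -/

/-- A family of retraction data for the matrix `s`. -/
structure RF (D : RD n) {I : Type} [Fintype I] [DecidableEq I] (s : Matrix I I (AA n)) where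
  R : Type
  [ft : Fintype R]
  j : R → List D.SA
  ω : R → D.Om
  io : (r : R) → I → (D.sw0.BS (j r)).M
  pi : (r : R) → I → (D.sw0.BS (j r)).M
  tr : ∀ a b, ∑ r, D.sw0.Tr (j r) (mulM (ring_BS D.sw0 (j r)) (io r a) (pi r b)) =
    if a = b then 1 else 0
  io_wt : ∀ r q a, ∑ b, s a b * (io r b).1 q =
    fm0 ((D.sw0.BS (j r)).lab q * (ω r).1).l * (io r a).1 q
  pi_wt : ∀ r q b, ∑ a, (pi r a).1 q * s a b =
    fm0 ((D.sw0.BS (j r)).lab q * (ω r).1).l * (pi r b).1 q

attribute [instance] RF.ft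

/-- the matrix of a tensor product -/
def tenS {I J : Type} [DecidableEq I] [DecidableEq J] {R : Type} [CommRing R] (s : Matrix I I R)
    (s' : Matrix J J R) : Matrix (I × J) (I × J) R :=
  fun x y => s x.1 y.1 * (if x.2 = y.2 then 1 else 0) + (if x.1 = y.1 then 1 else 0) * s' x.2 y.2

/-- The trivial representation: `j = []`, `ω = 1`, `io = pi = 1`. -/
theorem RF_one : Nonempty (RF D (0 : Matrix Unit Unit (AA n))) := by
  have hl : ∀ q : (D.sw0.BS []).J, ((D.sw0.BS []).lab q * (1 : D.Om).1).l = 0 := by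
    intro q
    show ((1 : D.Aff) * 1).l = 0
    rw [mul_one, RD.one_l]
  refine ⟨{ R := Unit
            j := fun _ => []
            ω := fun _ => 1
            io := fun _ _ => ⟨1, (ring_BS D.sw0 []).one⟩
            pi := fun _ _ => ⟨1, (ring_BS D.sw0 []).one⟩
            tr := ?_
            io_wt := ?_
            pi_wt := ?_ }⟩
  · intro a b
    rw [if_pos (Subsingleton.elim a b)]
    have h1 : ∀ F : Unit → AA n, ∑ p : Unit, F p = F () := fun F => Fintype.sum_unique F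
    rw [h1]
    show (1 : AA n) * 1 = 1
    rw [one_mul]
  · intro r q a
    rw [hl q, fm0_zero, zero_mul]
    exact Finset.sum_eq_zero fun b _ => zero_mul _
  · intro r q b
    rw [hl q, fm0_zero, zero_mul]
    exact Finset.sum_eq_zero fun a _ => mul_zero _

theorem F2_coe {J : Type} [Fintype J] {L : Lat (AA n) D.Aff} (c : J → AA n) (m : J → L.M)
    (q : L.J) : (∑ a, c a • m a : L.M).1 q = ∑ a, c a * (m a).1 q := by
  rw [Submodule.coe_sum, Finset.sum_apply]
  rfl

/-! ### F3 : tensor products -/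

/-- The word lattice with its trace, under concatenation. -/
theorem F3_pair (j j' : List D.SA) :
    (⟨D.sw0.BS (j' ++ j), D.sw0.Tr (j' ++ j)⟩ : Σ L : Lat (AA n) D.Aff, L.M →ₗ[AA n] AA n) =
      ⟨D.sw0.words (D.sw0.BS j) j', D.sw0.Tr j ∘ₗ D.sw0.tr (D.sw0.BS j) j'⟩ := by
  induction j' with
  | nil => rfl
  | cons s k ih =>
    exact congrArg (fun x : Σ L : Lat (AA n) D.Aff, L.M →ₗ[AA n] AA n =>
      (⟨Lat.star (D.sw0.f s) (D.sw0.g s) x.1, x.2 ∘ₗ trM (D.sw0.g s) x.1 (D.sw0.f_ne s)⟩ :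
        Σ L : Lat (AA n) D.Aff, L.M →ₗ[AA n] AA n)) ih

/-- The conditions for one member of a family of retraction data, for a lattice with a trace. -/
def F3_Q {I : Type} [Fintype I] [DecidableEq I] (s : Matrix I I (AA n)) (w : D.Aff)
    (T : I → I → AA n) (x : Σ L : Lat (AA n) D.Aff, L.M →ₗ[AA n] AA n) : Prop :=
  ∃ (hr : RingLat x.1) (io pi : I → x.1.M),
    (∀ a b, x.2 (mulM hr (io a) (pi b)) = T a b) ∧
    (∀ q a, ∑ b, s a b * (io b).1 q = fm0 (x.1.lab q * w).l * (io a).1 q) ∧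
    (∀ q b, ∑ a, (pi a).1 q * s a b = fm0 (x.1.lab q * w).l * (pi b).1 q)

/-- A sum over pairs against `tenS`. -/
theorem F3_sum {I J : Type} [Fintype I] [DecidableEq I] [Fintype J] [DecidableEq J]
    (s : Matrix I I (AA n)) (s' : Matrix J J (AA n)) (v : I → AA n) (v' : J → AA n) (a : I) (a' : J)
    {x y : AA n} (h1 : ∑ b, s a b * v b = x * v a) (h2 : ∑ b', s' a' b' * v' b' = y * v' a') :
    ∑ b : I × J, tenS s s' (a, a') b * (v b.1 * v' b.2) = (x + y) * (v a * v' a') := by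
  rw [Fintype.sum_prod_type]
  have h3 : ∀ b : I, ∑ b' : J, tenS s s' (a, a') (b, b') * (v (b, b').1 * v' (b, b').2) =
      s a b * v b * v' a' + (if a = b then v b * (y * v' a') else 0) := by
    intro b
    have h4 : ∀ b' : J, tenS s s' (a, a') (b, b') * (v (b, b').1 * v' (b, b').2) =
        (if a' = b' then s a b * v b * v' b' else 0) +
          (if a = b then v b else 0) * (s' a' b' * v' b') := by
      intro b'
      show (s a b * (if a' = b' then 1 else 0) + (if a = b then 1 else 0) * s' a' b') *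
        (v b * v' b') = _
      split_ifs <;> ring
    rw [Finset.sum_congr rfl fun b' _ => h4 b', Finset.sum_add_distrib, ← Finset.mul_sum, h2,
      Finset.sum_ite_eq, if_pos (Finset.mem_univ _)]
    split_ifs
    · rfl
    · rw [zero_mul]
  rw [Finset.sum_congr rfl fun b _ => h3 b, Finset.sum_add_distrib, Finset.sum_ite_eq,
    if_pos (Finset.mem_univ _), ← Finset.sum_mul, h1]
  ring

/-- `tenS` and the transposition. -/
theorem F3_transpose {I J : Type} [DecidableEq I] [DecidableEq J]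
    (s : Matrix I I (AA n)) (s' : Matrix J J (AA n)) (x y : I × J) :
    tenS s s' x y = tenS s.transpose s'.transpose y x := by
  exact congrArg₂ (fun u v => s x.1 y.1 * u + v * s' x.2 y.2)
    (if_congr eq_comm rfl rfl) (if_congr eq_comm rfl rfl)

/-- `w (s' v) = s' (w v)` for the `W`-invariant matrix `s'`. -/
theorem F3_smul {J : Type} [Fintype J] (w : D.Aff) (x : J → AA n) (v : J → AA n) (r t : AA n)
    (hx : ∀ b, w.u • x b = x b) (h : ∑ b, x b * v b = r * t) :
    ∑ b, x b * (w • v b) = (w.u • r) * (w • t) := by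
  have h1 : w • (∑ b, x b * v b) = w • (r * t) := congrArg (fun z => w • z) h
  rw [Finset.smul_sum, smul_mul'] at h1
  rw [show (w.u • r : AA n) = w • r from rfl, ← h1]
  refine Finset.sum_congr rfl fun b _ => ?_
  rw [smul_mul', D.Aff_smul_A w (x b), hx b]

/-- the transport is multiplicative -/
theorem F3_twM_mul (ω : D.Om) (j : List D.SA) (m m' : (D.sw0.BS j).J → AA n) :
    twM ω j (m * m') = twM ω j m * twM ω j m' := by
  funext p
  exact smul_mul' ω.1 (m (twJ ω j p)) (m' (twJ ω j p))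

/-- One pair of members. -/
theorem F3_main {I J : Type} [Fintype I] [DecidableEq I] [Fintype J] [DecidableEq J]
    {s : Matrix I I (AA n)} {s' : Matrix J J (AA n)} {j j' : List D.SA} {ω ω' : D.Om}
    {io pi : I → (D.sw0.BS j).M} {io' pi' : J → (D.sw0.BS j').M}
    (h1 : ∀ q a, ∑ b, s a b * (io b).1 q = fm0 ((D.sw0.BS j).lab q * ω.1).l * (io a).1 q)
    (h2 : ∀ q b, ∑ a, (pi a).1 q * s a b = fm0 ((D.sw0.BS j).lab q * ω.1).l * (pi b).1 q)
    (h1' : ∀ q a, ∑ b, s' a b * (io' b).1 q = fm0 ((D.sw0.BS j').lab q * ω'.1).l * (io' a).1 q)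
    (h2' : ∀ q b, ∑ a, (pi' a).1 q * s' a b = fm0 ((D.sw0.BS j').lab q * ω'.1).l * (pi' b).1 q)
    (hs' : ∀ (u : D.W) a b, u • s' a b = s' a b) :
    F3_Q (tenS s s') (ω.1 * ω'.1) (fun x y => D.sw0.Tr j
      (Pool.Agent.MTX.ryL (ry_BS D.sw0 j)
        (ω.1 • D.sw0.Tr j' (mulM (ring_BS D.sw0 j') (io' x.2) (pi' y.2)))
        (mulM (ring_BS D.sw0 j) (io x.1) (pi y.1))))
      (⟨D.sw0.words (D.sw0.BS j) (tw ω j'), D.sw0.Tr j ∘ₗ D.sw0.tr (D.sw0.BS j) (tw ω j')⟩ :
        Σ L : Lat (AA n) D.Aff, L.M →ₗ[AA n] AA n) := by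
  have hL : RyLat (D.sw0.BS j) := ry_BS D.sw0 j
  have hR : RingLat (D.sw0.BS j) := ring_BS D.sw0 j
  have hR' : RingLat (D.sw0.words (D.sw0.BS j) (tw ω j')) := ring_words D.sw0 hL hR (tw ω j')
  have hlab : ∀ (p : (D.sw0.BS j).J) (q : (D.sw0.BS (tw ω j')).J),
      (D.sw0.words (D.sw0.BS j) (tw ω j')).lab (catE D.sw0 (D.sw0.BS j) (tw ω j') (p, q)) *
        (ω.1 * ω'.1) =
      ((D.sw0.BS j).lab p * ω.1) * ((D.sw0.BS j').lab (twJ ω j' q) * ω'.1) := by
    intro p q
    rw [cat_lab, lab_tw]; group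
  refine ⟨hR', fun x => ⟨ten D.sw0 (D.sw0.BS j) (tw ω j') (io x.1).1 (twM ω j' (io' x.2).1),
      ten_mem D.sw0 hL (tw ω j') (io x.1).2 (twM_mem ω j' (io' x.2).2)⟩,
    fun x => ⟨ten D.sw0 (D.sw0.BS j) (tw ω j') (pi x.1).1 (twM ω j' (pi' x.2).1),
      ten_mem D.sw0 hL (tw ω j') (pi x.1).2 (twM_mem ω j' (pi' x.2).2)⟩, ?_, ?_, ?_⟩
  · rintro ⟨a, a'⟩ ⟨b, b'⟩
    set m : (D.sw0.BS j).M := mulM hR (io a) (pi b) with hm
    set m' : (D.sw0.BS j').M := mulM (ring_BS D.sw0 j') (io' a') (pi' b') with hm'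
    have e1 : mulM hR' ⟨ten D.sw0 (D.sw0.BS j) (tw ω j') (io a).1 (twM ω j' (io' a').1),
          ten_mem D.sw0 hL (tw ω j') (io a).2 (twM_mem ω j' (io' a').2)⟩
        ⟨ten D.sw0 (D.sw0.BS j) (tw ω j') (pi b).1 (twM ω j' (pi' b').1),
          ten_mem D.sw0 hL (tw ω j') (pi b).2 (twM_mem ω j' (pi' b').2)⟩ =
        ⟨ten D.sw0 (D.sw0.BS j) (tw ω j') m.1 (twM ω j' m'.1),
          ten_mem D.sw0 hL (tw ω j') m.2 (twM_mem ω j' m'.2)⟩ := by
      apply Subtype.ext
      have e := ten_mul D.sw0 (D.sw0.BS j) (tw ω j') (io a).1 (pi b).1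
        (twM ω j' (io' a').1) (twM ω j' (pi' b').1)
      rw [← F3_twM_mul] at e
      exact e.symm
    have e2 : D.sw0.tr (D.sw0.BS j) (tw ω j') ⟨ten D.sw0 (D.sw0.BS j) (tw ω j') m.1
        (twM ω j' m'.1), ten_mem D.sw0 hL (tw ω j') m.2 (twM_mem ω j' m'.2)⟩ =
        Pool.Agent.MTX.ryL (ry_BS D.sw0 j) (ω.1 • D.sw0.Tr j' m') m := by
      apply Subtype.ext
      funext p
      have e := tr_ten D.sw0 hL (tw ω j') m ⟨twM ω j' m'.1, twM_mem ω j' m'.2⟩ p
      rw [Tr_twM] at e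
      rw [Pool.Agent.MTX.ryL_apply, mul_comm]
      exact e
    show D.sw0.Tr j (D.sw0.tr (D.sw0.BS j) (tw ω j') (mulM hR'
      ⟨ten D.sw0 (D.sw0.BS j) (tw ω j') (io a).1 (twM ω j' (io' a').1),
        ten_mem D.sw0 hL (tw ω j') (io a).2 (twM_mem ω j' (io' a').2)⟩
      ⟨ten D.sw0 (D.sw0.BS j) (tw ω j') (pi b).1 (twM ω j' (pi' b').1),
        ten_mem D.sw0 hL (tw ω j') (pi b).2 (twM_mem ω j' (pi' b').2)⟩)) = _
    rw [e1, e2]
  · rintro q ⟨a, a'⟩
    obtain ⟨⟨p, q'⟩, rfl⟩ := (catE D.sw0 (D.sw0.BS j) (tw ω j')).surjective q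
    show ∑ b : I × J, tenS s s' (a, a') b *
      ten D.sw0 (D.sw0.BS j) (tw ω j') (io b.1).1 (twM ω j' (io' b.2).1)
        (catE D.sw0 (D.sw0.BS j) (tw ω j') (p, q')) =
      fm0 ((D.sw0.words (D.sw0.BS j) (tw ω j')).lab
        (catE D.sw0 (D.sw0.BS j) (tw ω j') (p, q')) * (ω.1 * ω'.1)).l *
      ten D.sw0 (D.sw0.BS j) (tw ω j') (io a).1 (twM ω j' (io' a').1)
        (catE D.sw0 (D.sw0.BS j) (tw ω j') (p, q'))
    have e1 : ∀ b : I × J, ten D.sw0 (D.sw0.BS j) (tw ω j') (io b.1).1 (twM ω j' (io' b.2).1)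
        (catE D.sw0 (D.sw0.BS j) (tw ω j') (p, q')) =
        (io b.1).1 p * (((D.sw0.BS j).lab p * ω.1) • (io' b.2).1 (twJ ω j' q')) := by
      intro b
      rw [ten_cat, mul_smul]; rfl
    rw [hlab, D.mul_l, fm0_add, e1 (a, a'),
      Finset.sum_congr rfl fun b _ => congrArg (fun z => tenS s s' (a, a') b * z) (e1 b)]
    rw [← D.smul_fm0]
    exact F3_sum s s' (fun b => (io b).1 p)
      (fun b' => ((D.sw0.BS j).lab p * ω.1) • (io' b').1 (twJ ω j' q')) a a'
      (h1 p a) (F3_smul ((D.sw0.BS j).lab p * ω.1) (fun b' => s' a' b')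
        (fun b' => (io' b').1 (twJ ω j' q')) _ _ (fun b' => hs' _ a' b') (h1' (twJ ω j' q') a'))
  · rintro q ⟨b, b'⟩
    obtain ⟨⟨p, q'⟩, rfl⟩ := (catE D.sw0 (D.sw0.BS j) (tw ω j')).surjective q
    show ∑ a : I × J,
      ten D.sw0 (D.sw0.BS j) (tw ω j') (pi a.1).1 (twM ω j' (pi' a.2).1)
        (catE D.sw0 (D.sw0.BS j) (tw ω j') (p, q')) * tenS s s' a (b, b') =
      fm0 ((D.sw0.words (D.sw0.BS j) (tw ω j')).lab
        (catE D.sw0 (D.sw0.BS j) (tw ω j') (p, q')) * (ω.1 * ω'.1)).l *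
      ten D.sw0 (D.sw0.BS j) (tw ω j') (pi b).1 (twM ω j' (pi' b').1)
        (catE D.sw0 (D.sw0.BS j) (tw ω j') (p, q'))
    have e0 : ∀ a : I × J, ten D.sw0 (D.sw0.BS j) (tw ω j') (pi a.1).1 (twM ω j' (pi' a.2).1)
        (catE D.sw0 (D.sw0.BS j) (tw ω j') (p, q')) =
        (pi a.1).1 p * (((D.sw0.BS j).lab p * ω.1) • (pi' a.2).1 (twJ ω j' q')) := by
      intro a
      rw [ten_cat, mul_smul]; rfl
    have e1 : ∀ a : I × J,
        ten D.sw0 (D.sw0.BS j) (tw ω j') (pi a.1).1 (twM ω j' (pi' a.2).1)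
          (catE D.sw0 (D.sw0.BS j) (tw ω j') (p, q')) * tenS s s' a (b, b') =
        tenS s.transpose s'.transpose (b, b') a *
          ((pi a.1).1 p * (((D.sw0.BS j).lab p * ω.1) • (pi' a.2).1 (twJ ω j' q'))) := by
      intro a
      rw [e0, F3_transpose s s' a (b, b'), mul_comm]
    rw [hlab, D.mul_l, fm0_add, e0 (b, b'), Finset.sum_congr rfl fun a _ => e1 a]
    rw [← D.smul_fm0]
    have e2 : ∑ a, s.transpose b a * (pi a).1 p =
        fm0 ((D.sw0.BS j).lab p * ω.1).l * (pi b).1 p := by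
      rw [← h2 p b]
      exact Finset.sum_congr rfl fun a _ => mul_comm _ _
    have e3 : ∑ a, s'.transpose b' a * (pi' a).1 (twJ ω j' q') =
        fm0 ((D.sw0.BS j').lab (twJ ω j' q') * ω'.1).l * (pi' b').1 (twJ ω j' q') := by
      rw [← h2' (twJ ω j' q') b']
      exact Finset.sum_congr rfl fun a _ => mul_comm _ _
    exact F3_sum s.transpose s'.transpose (fun b => (pi b).1 p)
      (fun b' => ((D.sw0.BS j).lab p * ω.1) • (pi' b').1 (twJ ω j' q')) b b' e2
      (F3_smul ((D.sw0.BS j).lab p * ω.1) (fun a => s'.transpose b' a)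
        (fun b' => (pi' b').1 (twJ ω j' q')) _ _ (fun a => hs' _ a b') e3)

/-- `ryL` is additive in its parameter -/
theorem F3_ryL_sum {K : Type} (t : Finset K) {L : Lat (AA n) D.Aff} (hL : RyLat L) (c : K → AA n)
    (m : L.M) : ∑ k ∈ t, Pool.Agent.MTX.ryL hL (c k) m =
      Pool.Agent.MTX.ryL hL (∑ k ∈ t, c k) m := by
  classical
  apply Subtype.ext
  funext p
  rw [Pool.Agent.MTX.ryL_apply, Finset.smul_sum, Finset.sum_mul]
  induction t using Finset.induction_on with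
  | empty => rfl
  | insert a t ha ih =>
    rw [Finset.sum_insert ha, Finset.sum_insert ha, ← ih]; rfl

/-- Tensor products.  Port of MTX/T7 `retr_ten` (`t7a_pair`, `t7a_Q`, `t7a_sum`, `t7a_main`), with
`R'' = R × R'`, word `tw (ω r) (j' r') ++ j r`, `ω'' = ω r * ω' r'`, `io'' (r, r') (a, a') = ten (io r a)
(twM (ω r) (j' r') (io' r' a'))`, same for `pi`.  The label at `(p, q)` is `lab p * (ω lab' q' ω⁻¹) * (ω ω') =
(lab p * ω) * (lab' q' * ω')` (`cat_lab`, `lab_tw`), `q' = twJ q`; its `l` is `(lab p * ω).l + (lab p * ω).u (lab' q' * ω').l`;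
the value of the second factor is `lab p • ω • io' r' a' q' = (lab p * ω) • io' r' a' q'`, and `s'` is invariant.
Trace: `ten` of the products, `tr_ten`, `Tr_twM`: `Tr (tw ..) (twM (io' * pi')) = ω • Tr (io' * pi')`.  Sum over `r'`:
`∑_{r'} ω r • Tr (io' r' a' * pi' r' b') = δ_{a'b'}`, so `∑_{r,r'} = ∑_r Tr (ry δ (io r a * pi r b)) = δ δ`
(move the sum over `r'` inside `ry`: `tr (ten m m') = ry (Tr m') m` is additive in `Tr m'`). -/
theorem RF_ten {I J : Type} [Fintype I] [DecidableEq I] [Fintype J] [DecidableEq J]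
    {s : Matrix I I (AA n)} {s' : Matrix J J (AA n)} (h : RF D s) (h' : RF D s')
    (hs' : ∀ (u : D.W) a b, u • s' a b = s' a b) : Nonempty (RF D (tenS s s')) := by
  classical
  have key : ∀ r : h.R × h'.R, F3_Q (tenS s s') ((h.ω r.1).1 * (h'.ω r.2).1)
      (fun x y => D.sw0.Tr (h.j r.1) (Pool.Agent.MTX.ryL (ry_BS D.sw0 (h.j r.1))
        ((h.ω r.1).1 • D.sw0.Tr (h'.j r.2)
          (mulM (ring_BS D.sw0 (h'.j r.2)) (h'.io r.2 x.2) (h'.pi r.2 y.2)))
        (mulM (ring_BS D.sw0 (h.j r.1)) (h.io r.1 x.1) (h.pi r.1 y.1))))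
      (⟨D.sw0.BS (tw (h.ω r.1) (h'.j r.2) ++ h.j r.1),
        D.sw0.Tr (tw (h.ω r.1) (h'.j r.2) ++ h.j r.1)⟩ :
        Σ L : Lat (AA n) D.Aff, L.M →ₗ[AA n] AA n) := by
    intro r
    rw [F3_pair]
    exact F3_main (h.io_wt r.1) (h.pi_wt r.1) (h'.io_wt r.2) (h'.pi_wt r.2) hs'
  choose hr io'' pi'' k1 k2 k3 using key
  refine ⟨{ R := h.R × h'.R
            j := fun r => tw (h.ω r.1) (h'.j r.2) ++ h.j r.1
            ω := fun r => h.ω r.1 * h'.ω r.2
            io := io''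
            pi := pi''
            tr := ?_
            io_wt := k2
            pi_wt := k3 }⟩
  rintro ⟨a, a'⟩ ⟨b, b'⟩
  have e1 : ∀ r : h.R × h'.R, D.sw0.Tr (tw (h.ω r.1) (h'.j r.2) ++ h.j r.1)
      (mulM (ring_BS D.sw0 (tw (h.ω r.1) (h'.j r.2) ++ h.j r.1)) (io'' r (a, a'))
        (pi'' r (b, b'))) = D.sw0.Tr (h.j r.1) (Pool.Agent.MTX.ryL (ry_BS D.sw0 (h.j r.1))
        ((h.ω r.1).1 • D.sw0.Tr (h'.j r.2)
          (mulM (ring_BS D.sw0 (h'.j r.2)) (h'.io r.2 a') (h'.pi r.2 b')))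
        (mulM (ring_BS D.sw0 (h.j r.1)) (h.io r.1 a) (h.pi r.1 b))) :=
    fun r => k1 r (a, a') (b, b')
  rw [Finset.sum_congr rfl fun r _ => e1 r, Fintype.sum_prod_type]
  have e2 : ∀ r : h.R, ∑ r' : h'.R, D.sw0.Tr (h.j r)
      (Pool.Agent.MTX.ryL (ry_BS D.sw0 (h.j r))
        ((h.ω r).1 • D.sw0.Tr (h'.j r')
          (mulM (ring_BS D.sw0 (h'.j r')) (h'.io r' a') (h'.pi r' b')))
        (mulM (ring_BS D.sw0 (h.j r)) (h.io r a) (h.pi r b))) =
      (if a' = b' then 1 else 0) *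
        D.sw0.Tr (h.j r) (mulM (ring_BS D.sw0 (h.j r)) (h.io r a) (h.pi r b)) := by
    intro r
    rw [← map_sum, F3_ryL_sum, ← Finset.smul_sum, h'.tr a' b']
    split_ifs with h0
    · rw [smul_one, one_mul]
      congr 1
      apply Subtype.ext
      funext p
      rw [Pool.Agent.MTX.ryL_apply, smul_one, one_mul]
    · rw [smul_zero, zero_mul]
      have hz : Pool.Agent.MTX.ryL (ry_BS D.sw0 (h.j r)) 0
          (mulM (ring_BS D.sw0 (h.j r)) (h.io r a) (h.pi r b)) = 0 := by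
        apply Subtype.ext
        funext p
        rw [Pool.Agent.MTX.ryL_apply, smul_zero, zero_mul]; rfl
      rw [hz, map_zero]
  rw [Finset.sum_congr rfl fun r _ => e2 r, ← Finset.mul_sum, h.tr a b]
  by_cases h1 : a = b <;> by_cases h2 : a' = b' <;> simp [h1, h2]

/-- Retracts of direct sums: constant matrices `Pm k : I × J k`, `Qm k : J k × I` with `s Pm = Pm s_k`,
`Qm s = s_k Qm`, `∑ Pm k * Qm k = 1`.  `R = Σ k, (R of k)`, `io (k, r) a = ∑_{a'} Pm k a a' • io r a'`,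
`pi (k, r) b = ∑_{b'} Qm k b' b • pi r b'`. -/
theorem RF_retract {I K : Type} [Fintype I] [DecidableEq I] [Fintype K] {J : K → Type}
    [∀ k, Fintype (J k)] [∀ k, DecidableEq (J k)] {s : Matrix I I (AA n)}
    {t : (k : K) → Matrix (J k) (J k) (AA n)} (h : ∀ k, Nonempty (RF D (t k)))
    (Pm : (k : K) → Matrix I (J k) ℂ) (Qm : (k : K) → Matrix (J k) I ℂ)
    (hP : ∀ k, s * (Pm k).map MvPolynomial.C = (Pm k).map MvPolynomial.C * t k)
    (hQ : ∀ k, (Qm k).map MvPolynomial.C * s = t k * (Qm k).map MvPolynomial.C)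
    (h1 : ∑ k, Pm k * Qm k = 1) : Nonempty (RF D s) := by
  let H : ∀ k, RF D (t k) := fun k => (h k).some
  refine ⟨{ R := Σ k, (H k).R
            j := fun x => (H x.1).j x.2
            ω := fun x => (H x.1).ω x.2
            io := fun x a => ∑ a', (MvPolynomial.C (Pm x.1 a a') : AA n) • (H x.1).io x.2 a'
            pi := fun x b => ∑ b', (MvPolynomial.C (Qm x.1 b' b) : AA n) • (H x.1).pi x.2 b'
            tr := ?_
            io_wt := ?_
            pi_wt := ?_ }⟩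
  · intro a b
    have hm : ∀ (k : K) (r : (H k).R),
        D.sw0.Tr ((H k).j r) (mulM (ring_BS D.sw0 ((H k).j r))
          (∑ a', (MvPolynomial.C (Pm k a a') : AA n) • (H k).io r a')
          (∑ b', (MvPolynomial.C (Qm k b' b) : AA n) • (H k).pi r b')) =
        ∑ a', ∑ b', (MvPolynomial.C (Pm k a a') : AA n) * (MvPolynomial.C (Qm k b' b) *
          D.sw0.Tr ((H k).j r) (mulM (ring_BS D.sw0 ((H k).j r)) ((H k).io r a')
            ((H k).pi r b'))) := by
      intro k r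
      have h2 : mulM (ring_BS D.sw0 ((H k).j r))
          (∑ a', (MvPolynomial.C (Pm k a a') : AA n) • (H k).io r a')
          (∑ b', (MvPolynomial.C (Qm k b' b) : AA n) • (H k).pi r b') =
          ∑ a', (MvPolynomial.C (Pm k a a') : AA n) • ∑ b', (MvPolynomial.C (Qm k b' b) : AA n) •
            mulM (ring_BS D.sw0 ((H k).j r)) ((H k).io r a') ((H k).pi r b') := by
        apply Subtype.ext
        funext q
        show (∑ a', (MvPolynomial.C (Pm k a a') : AA n) • (H k).io r a').1 q *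
          (∑ b', (MvPolynomial.C (Qm k b' b) : AA n) • (H k).pi r b').1 q = _
        rw [F2_coe, F2_coe, F2_coe, Finset.sum_mul]
        refine Finset.sum_congr rfl fun a' _ => ?_
        rw [F2_coe, mul_assoc, Finset.mul_sum]
        congr 1
        refine Finset.sum_congr rfl fun b' _ => ?_
        show (((H k).io r a').1 q) * (MvPolynomial.C (Qm k b' b) * (((H k).pi r b').1 q)) =
          MvPolynomial.C (Qm k b' b) * ((((H k).io r a').1 q) * (((H k).pi r b').1 q))
        ring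
      rw [h2, map_sum]
      refine Finset.sum_congr rfl fun a' _ => ?_
      rw [map_smul, smul_eq_mul, map_sum, Finset.mul_sum]
      refine Finset.sum_congr rfl fun b' _ => ?_
      rw [map_smul, smul_eq_mul]
    rw [Fintype.sum_sigma]
    have hk : ∀ k : K, ∑ r : (H k).R, D.sw0.Tr ((H k).j r) (mulM (ring_BS D.sw0 ((H k).j r))
          (∑ a', (MvPolynomial.C (Pm k a a') : AA n) • (H k).io r a')
          (∑ b', (MvPolynomial.C (Qm k b' b) : AA n) • (H k).pi r b')) =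
        MvPolynomial.C ((Pm k * Qm k) a b) := by
      intro k
      rw [Finset.sum_congr rfl fun r _ => hm k r, Finset.sum_comm, Matrix.mul_apply, map_sum]
      refine Finset.sum_congr rfl fun a' _ => ?_
      rw [Finset.sum_comm]
      have h3 : ∀ b', ∑ r : (H k).R, (MvPolynomial.C (Pm k a a') : AA n) *
          (MvPolynomial.C (Qm k b' b) * D.sw0.Tr ((H k).j r)
            (mulM (ring_BS D.sw0 ((H k).j r)) ((H k).io r a') ((H k).pi r b'))) =
          if a' = b' then MvPolynomial.C (Pm k a a') * MvPolynomial.C (Qm k b' b) else 0 := by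
        intro b'
        rw [← Finset.mul_sum, ← Finset.mul_sum, (H k).tr a' b']
        by_cases hab : a' = b'
        · rw [if_pos hab, if_pos hab, mul_one]
        · rw [if_neg hab, if_neg hab, mul_zero, mul_zero]
      rw [Finset.sum_congr rfl fun b' _ => h3 b', Finset.sum_ite_eq Finset.univ a',
        if_pos (Finset.mem_univ a'), MvPolynomial.C_mul]
    refine (Finset.sum_congr rfl fun k _ => hk k).trans ?_
    rw [← map_sum]
    have h4 : ∑ k, (Pm k * Qm k) a b = (1 : Matrix I I ℂ) a b := by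
      rw [← h1, Matrix.sum_apply]
    rw [h4, Matrix.one_apply]
    by_cases hab : a = b
    · rw [if_pos hab, if_pos hab, MvPolynomial.C_1]
    · rw [if_neg hab, if_neg hab, MvPolynomial.C_0]
  · rintro ⟨k, r⟩ q a
    show ∑ b, s a b * (∑ a', (MvPolynomial.C (Pm k b a') : AA n) • (H k).io r a').1 q =
      fm0 ((D.sw0.BS ((H k).j r)).lab q * ((H k).ω r).1).l *
        (∑ a', (MvPolynomial.C (Pm k a a') : AA n) • (H k).io r a').1 q
    rw [F2_coe]
    have h2 : ∀ b, s a b * (∑ a', (MvPolynomial.C (Pm k b a') : AA n) • (H k).io r a').1 q =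
        ∑ a', s a b * MvPolynomial.C (Pm k b a') * ((H k).io r a').1 q := by
      intro b
      rw [F2_coe, Finset.mul_sum]
      exact Finset.sum_congr rfl fun a' _ => by ring
    rw [Finset.sum_congr rfl fun b _ => h2 b, Finset.sum_comm]
    have h3 : ∀ a', ∑ b, s a b * MvPolynomial.C (Pm k b a') * ((H k).io r a').1 q =
        ∑ c, MvPolynomial.C (Pm k a c) * (t k c a' * ((H k).io r a').1 q) := by
      intro a'
      rw [← Finset.sum_mul]
      have h4 : ∑ b, s a b * MvPolynomial.C (Pm k b a') =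
          ∑ c, MvPolynomial.C (Pm k a c) * t k c a' := by
        have h5 := congrFun (congrFun (hP k) a) a'
        exact h5
      rw [h4, Finset.sum_mul]
      exact Finset.sum_congr rfl fun c _ => by ring
    rw [Finset.sum_congr rfl fun a' _ => h3 a', Finset.sum_comm, Finset.mul_sum]
    refine Finset.sum_congr rfl fun c _ => ?_
    rw [← Finset.mul_sum, (H k).io_wt r q c]
    ring
  · rintro ⟨k, r⟩ q b
    show ∑ a, (∑ b', (MvPolynomial.C (Qm k b' a) : AA n) • (H k).pi r b').1 q * s a b =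
      fm0 ((D.sw0.BS ((H k).j r)).lab q * ((H k).ω r).1).l *
        (∑ b', (MvPolynomial.C (Qm k b' b) : AA n) • (H k).pi r b').1 q
    rw [F2_coe]
    have h2 : ∀ a, (∑ b', (MvPolynomial.C (Qm k b' a) : AA n) • (H k).pi r b').1 q * s a b =
        ∑ b', ((H k).pi r b').1 q * (MvPolynomial.C (Qm k b' a) * s a b) := by
      intro a
      rw [F2_coe, Finset.sum_mul]
      exact Finset.sum_congr rfl fun b' _ => by ring
    rw [Finset.sum_congr rfl fun a _ => h2 a, Finset.sum_comm]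
    have h3 : ∀ b', ∑ a, ((H k).pi r b').1 q * (MvPolynomial.C (Qm k b' a) * s a b) =
        ∑ c, ((H k).pi r b').1 q * t k b' c * MvPolynomial.C (Qm k c b) := by
      intro b'
      rw [← Finset.mul_sum]
      have h4 : ∑ a, MvPolynomial.C (Qm k b' a) * s a b =
          ∑ c, t k b' c * MvPolynomial.C (Qm k c b) := by
        have h5 := congrFun (congrFun (hQ k) b') b
        exact h5
      rw [h4, Finset.mul_sum]
      exact Finset.sum_congr rfl fun c _ => by ring
    rw [Finset.sum_congr rfl fun b' _ => h3 b', Finset.sum_comm, Finset.mul_sum]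
    refine Finset.sum_congr rfl fun c _ => ?_
    rw [← Finset.sum_mul, (H k).pi_wt r q c]
    ring

end Pool.Agent.MTG
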