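import Pool.Agent.MTG.GV2

/-! # MTG, Part H : highest weight representations

`HWK V l` : `V` is a highest weight representation (weights `≤ l`, multiplicities invariant under `W`, `l` simple).
From this: `V.Top`, `PcM`, `PcQ`, and the field `hw` of the TQ datum. -/

namespace Pool.Agent.MTG

open MvPolynomial
open Pool.Agent.MTX.SLD (RR AA fm fm0 fm0_add fm0_smul fm0_zero fm0_neg fm0_sub fm0_ne_zero fm0_prime)
open RD
open Pool.Agent.MTF (AffGrp TQD TQ Rep Rep.co)
open Pool.Agent.MTF.AffGrp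

variable {n : ℕ} {D : RD n}

/-- nonnegative combinations of simple roots -/
def Qp (D : RD n) (q : Fin n → ℤ) : Prop := ∃ c : D.SRt → ℕ, q = ∑ α, c α • α.1.1

/-- `B(q, x) ≥ 0` for `q ∈ Q⁺`, `x` dominant (`cp_cf`, `cf_pos`) -/
theorem Qp.B_nonneg {q x : Fin n → ℤ} (hq : Qp D q) (hx : D.Dom x) : 0 ≤ D.B q x := by
  obtain ⟨c, rfl⟩ := hq
  let f : (Fin n → ℤ) →+ ℤ := AddMonoidHom.mk' (fun y => D.B y x) fun y z => D.B_add_left y z x
  have h1 : f (∑ α, c α • α.1.1) = ∑ α, f (c α • α.1.1) := map_sum f _ _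
  have h2 : 0 ≤ f (∑ α, c α • α.1.1) := by
    rw [h1]
    refine Finset.sum_nonneg fun α _ => ?_
    rw [map_nsmul]
    refine nsmul_nonneg ?_ _
    show 0 ≤ D.B α.1.1 x
    rw [← D.cp_cf]
    exact mul_nonneg (hx α.1 α.2.1) (D.cf_pos α.1).le
  exact h2

theorem mtth1_sum_pos (t : Multiset D.Rt) (h : ∀ δ ∈ t, D.Pos δ) :
    0 ≤ toLex (t.map Subtype.val).sum := by
  induction t using Multiset.induction_on with
  | empty => exact le_of_eq rfl
  | cons a t ih =>
    rw [Multiset.map_cons, Multiset.sum_cons]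
    have h1 : 0 < toLex a.1 := h a (Multiset.mem_cons_self a t)
    have h2 := ih fun δ hδ => h δ (Multiset.mem_cons_of_mem hδ)
    exact (add_pos_of_pos_of_nonneg h1 h2).le

theorem mtth1_exists {q : Fin n → ℤ} (hq : Qp D q) :
    ∃ s : Multiset D.Rt, (∀ δ ∈ s, D.Pos δ) ∧ (s.map Subtype.val).sum = q := by
  classical
  obtain ⟨c, rfl⟩ := hq
  refine ⟨∑ α : D.SRt, c α • ({α.1} : Multiset D.Rt), ?_, ?_⟩
  · intro δ hδ
    obtain ⟨α, -, hα⟩ := Multiset.mem_sum.1 hδ
    have h1 := Multiset.mem_of_mem_nsmul hα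
    rw [Multiset.mem_singleton.1 h1]
    exact α.2.1
  · let f : Multiset D.Rt →+ (Fin n → ℤ) :=
      { toFun := fun s => (s.map Subtype.val).sum
        map_zero' := rfl
        map_add' := fun s t => by rw [Multiset.map_add, Multiset.sum_add] }
    have h1 : f (∑ α : D.SRt, c α • ({α.1} : Multiset D.Rt)) =
        ∑ α : D.SRt, c α • f {α.1} := by
      rw [map_sum]
      exact Finset.sum_congr rfl fun α _ => map_nsmul f _ _
    refine Eq.trans h1 (Finset.sum_congr rfl fun α _ => ?_)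
    have h2 : f {α.1} = α.1.1 := by
      show (Multiset.map Subtype.val {α.1}).sum = α.1.1
      rw [Multiset.map_singleton, Multiset.sum_singleton]
    rw [h2]

/-- A nonzero `q ∈ Q⁺` has `cp γ q ≥ 2` for some POSITIVE root `γ`: write `q` as a sum of a list of positive roots of
minimal length; by `add_root` two members with negative pairing could be merged to a positive root (their sum is
lexicographically positive); so `cp γ_1 q = 2 + ∑ ≥ 2`. (Cf. `exists_two`.) -/
theorem Qp.exists_two {q : Fin n → ℤ} (hq : Qp D q) (h0 : q ≠ 0) :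
    ∃ γ : D.Rt, D.Pos γ ∧ 2 ≤ D.cp γ q := by
  classical
  have hex : ∃ m : ℕ, ∃ s : Multiset D.Rt, (∀ δ ∈ s, D.Pos δ) ∧ (s.map Subtype.val).sum = q ∧
      s.card = m := by
    obtain ⟨s, hs, hs'⟩ := mtth1_exists hq
    exact ⟨s.card, s, hs, hs', rfl⟩
  obtain ⟨s, hpos, hs, hcard⟩ := Nat.find_spec hex
  have hmin : ∀ t : Multiset D.Rt, (∀ δ ∈ t, D.Pos δ) → (t.map Subtype.val).sum = q →
      s.card ≤ t.card := by
    intro t ht' ht
    rw [hcard]
    exact Nat.find_min' hex ⟨t, ht', ht, rfl⟩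
  clear hcard
  have hs0 : s ≠ 0 := by
    rintro rfl
    rw [Multiset.map_zero, Multiset.sum_zero] at hs
    exact h0 hs.symm
  obtain ⟨γ, hγ⟩ := Multiset.exists_mem_of_ne_zero hs0
  obtain ⟨t, rfl⟩ := Multiset.exists_cons_of_mem hγ
  refine ⟨γ, hpos γ hγ, ?_⟩
  have hnn := D.e1_nonneg γ t (fun δ hδ => by
    by_contra hneg
    obtain ⟨t', rfl⟩ := Multiset.exists_cons_of_mem hδ
    have hpγ : 0 < toLex γ.1 := hpos γ hγ
    have hpδ : 0 < toLex δ.1 := hpos δ (Multiset.mem_cons_of_mem hδ)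
    have hadd : (0 : Lex (Fin n → ℤ)) < toLex (γ.1 + δ.1) := add_pos hpγ hpδ
    rw [Multiset.map_cons, Multiset.map_cons, Multiset.sum_cons, Multiset.sum_cons, ← add_assoc] at hs
    rcases D.add_root (γ := γ) (δ := δ) (by omega) with h1 | h1
    · rw [h1] at hadd
      exact lt_irrefl _ hadd
    · have h2 := hmin (⟨γ.1 + δ.1, h1⟩ ::ₘ t') (by
          intro ε hε
          rcases Multiset.mem_cons.1 hε with rfl | hε
          · exact hadd
          · exact hpos ε (Multiset.mem_cons_of_mem (Multiset.mem_cons_of_mem hε)))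
        (by rw [Multiset.map_cons, Multiset.sum_cons]; exact hs)
      rw [Multiset.card_cons, Multiset.card_cons, Multiset.card_cons] at h2
      omega)
  rw [← hs, Multiset.map_cons, Multiset.sum_cons, D.cp_add, D.cp_self]
  omega

/-- Two dominant weights `μ ≤ l`: `|μ|² ≤ |l|²`, with equality only for `μ = l`:
`B(l,l) - B(μ,μ) = B(q,l) + B(q,μ)`, `q = l - μ`; if it is `0` then `B(q,l) = B(q,μ) = 0`, so `B(q,q) = 0`. -/
theorem dom_norm {l μ : Fin n → ℤ} (hl : D.Dom l) (hμ : D.Dom μ) (hq : Qp D (l - μ)) :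
    μ = l ∨ D.B μ μ < D.B l l := by
  by_cases h : μ = l
  · exact Or.inl h
  · right
    have h1 := hq.B_nonneg hl
    have h2 := hq.B_nonneg hμ
    have h3 : 0 < D.B (l - μ) (l - μ) := D.B_pos (sub_ne_zero.2 (Ne.symm h))
    rw [D.B_sub_left] at h1 h2
    rw [D.B_sub_left, D.B_sub_right, D.B_sub_right] at h3
    have h4 := D.B_comm μ l
    omega

/-- minuscule weights are minimal: `Qp.exists_two` for `l - μ`: `cp γ μ ≤ cp γ l - 2 < 0` for a positive root. -/
theorem mnu_min {l μ : Fin n → ℤ} (hl : D.Mnu l) (hμ : D.Dom μ) (hq : Qp D (l - μ)) : μ = l := by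
  by_contra h
  obtain ⟨γ, hγ, h1⟩ := hq.exists_two (sub_ne_zero.2 (Ne.symm h))
  rw [D.cp_sub] at h1
  have h2 := hμ γ hγ
  have h3 := (abs_le.1 (hl.2 γ)).2
  omega

/-- quasi-minuscule weights: if `μ ≠ θ` then `Qp.exists_two` for `θ - μ` gives a positive `γ` with
`cp γ θ ≥ 2 + cp γ μ ≥ 2`, so `γ = θ` (`QMn`; `γ ≠ ng θ`, which is not positive) and `cp θ μ = 0`, `B(θ,μ) = 0`;
`B(μ,μ) = B(θ,μ) - B(q,μ) ≤ 0`. -/
theorem qmn_min {θ : D.Rt} {μ : Fin n → ℤ} (hθ : D.QMn θ) (hμ : D.Dom μ)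
    (hq : Qp D (θ.1 - μ)) : μ = θ.1 ∨ μ = 0 := by
  by_cases h : μ = θ.1
  · exact Or.inl h
  right
  obtain ⟨γ, hγ, h1⟩ := hq.exists_two (sub_ne_zero.2 (Ne.symm h))
  rw [D.cp_sub] at h1
  have h2 := hμ γ hγ
  have h3 : γ ≠ D.ng θ := by
    rintro rfl
    rw [D.cp_ng, D.cp_self] at h1
    omega
  have h4 : γ = θ := by
    by_contra h4
    have h5 := (abs_le.1 (hθ.2 γ h4 h3)).2
    omega
  rw [h4] at h1 h2
  rw [D.cp_self] at h1
  have h5 : D.cp θ μ = 0 := by omega
  have h6 := D.cp_cf θ μ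
  rw [h5, zero_mul] at h6
  have h7 := hq.B_nonneg hμ
  rw [D.B_sub_left, ← h6] at h7
  by_contra h8
  have h9 := D.B_pos h8
  omega

/-- A highest weight representation. -/
structure HWK (V : KRep D) (l : Fin n → ℤ) : Prop where
  dom : D.Dom l
  low : ∀ a, Qp D (l - V.wt a)
  mult : ∃ a0, V.wt a0 = l ∧ ∀ a, V.wt a = l → a = a0
  perm : ∀ u : D.W, ∃ σ : Equiv.Perm V.I, ∀ a, V.wt (σ a) = u.1 (V.wt a)

variable {V : KRep D} {l : Fin n → ℤ}

theorem mttH3_ht_Qp {q : Fin n → ℤ} (hq : Qp D q) : 0 ≤ D.ht2 q := by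
  obtain ⟨c, rfl⟩ := hq
  have h1 : D.ht2 (∑ α, c α • α.1.1) = ∑ α : D.SRt, c α • D.ht2 α.1.1 := by
    have h2 := map_sum (AddMonoidHom.mk' D.ht2 D.ht2_add) (fun α : D.SRt => c α • α.1.1) Finset.univ
    refine h2.trans (Finset.sum_congr rfl fun α _ => ?_)
    exact map_nsmul (AddMonoidHom.mk' D.ht2 D.ht2_add) (c α) α.1.1
  rw [h1]
  refine Finset.sum_nonneg fun α _ => ?_
  rw [D.ht2_sim]
  exact nsmul_nonneg (by norm_num) _

theorem mttH3_inv (u : D.W) (x : Fin n → ℤ) : (u⁻¹).1 (u.1 x) = x := by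
  show (u⁻¹ * u).1 x = x
  rw [inv_mul_cancel]
  rfl

theorem mttH3_le (h : HWK V l) (a : V.I) : D.ht2 (V.wt a) ≤ D.ht2 l := by
  have h1 := mttH3_ht_Qp (h.low a)
  have h2 : D.ht2 l = D.ht2 (l - V.wt a) + D.ht2 (V.wt a) := by
    rw [← D.ht2_add, sub_add_cancel]
  omega

theorem mttH3_ht (h : HWK V l) (a : V.I) : |D.ht2 (V.wt a)| ≤ D.ht2 l := by
  obtain ⟨u, hu⟩ := D.exists_dom (V.wt a)
  obtain ⟨σ, hσ⟩ := h.perm u
  have h1 := abs_ht2_le hu u⁻¹
  rw [mttH3_inv, ← hσ a] at h1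
  exact h1.trans (mttH3_le h (σ a))

theorem mttH3_uni (h : HWK V l) (u : D.W) (a b : V.I) (ha : V.wt a = u.1 l)
    (hb : V.wt b = u.1 l) : a = b := by
  obtain ⟨a0, -, hu⟩ := h.mult
  obtain ⟨σ, hσ⟩ := h.perm u⁻¹
  have h1 : σ a = a0 := hu _ (by rw [hσ, ha, mttH3_inv])
  have h2 : σ b = a0 := hu _ (by rw [hσ, hb, mttH3_inv])
  exact σ.injective (h1.trans h2.symm)

theorem mttH3_surj (h : HWK V l) (u : D.W) : ∃ a, V.wt a = u.1 l := by
  obtain ⟨a0, ha0, -⟩ := h.mult
  obtain ⟨σ, hσ⟩ := h.perm u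
  exact ⟨σ a0, by rw [hσ, ha0]⟩

/-- every weight is conjugate to a dominant weight -/
theorem mttH3_dom (h : HWK V l) (a : V.I) : ∃ u : D.W, D.Dom (u.1 (V.wt a)) ∧
    Qp D (l - u.1 (V.wt a)) := by
  obtain ⟨u, hu⟩ := D.exists_dom (V.wt a)
  obtain ⟨σ, hσ⟩ := h.perm u
  exact ⟨u, hu, by rw [← hσ a]; exact h.low (σ a)⟩

/-- `|ht2 (wt a)| ≤ ht2 l`: `ht2 (wt a) ≤ ht2 l` by `low` (`ht2_sim`); for `- ht2 (wt a)`: let `v` dominant, `v = u (wt a)`
(`exists_dom`), `abs_ht2_le` gives `|ht2 (wt a)| ≤ ht2 v`, and `v` is a weight (`perm`), so `ht2 v ≤ ht2 l`. -/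
theorem HWK.top (h : HWK V l) : ∃ a0, V.Top l a0 := by
  obtain ⟨a0, ha0, hu⟩ := h.mult
  exact ⟨a0, ⟨h.dom, ha0, mttH3_uni h, mttH3_ht h, mttH3_surj h⟩⟩

/-- every weight is conjugate to `l` or shorter (`exists_dom`, `perm`, `dom_norm`) -/
theorem HWK.norm (h : HWK V l) (a : V.I) : (∃ w : D.W, V.wt a = w.1 l) ∨
    D.B (V.wt a) (V.wt a) < D.B l l := by
  obtain ⟨u, hu, hq⟩ := mttH3_dom h a
  rcases dom_norm h.dom hu hq with h1 | h1
  · left
    exact ⟨u⁻¹, by rw [← h1, mttH3_inv]⟩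
  · right
    rwa [D.B_W] at h1

/-- `mnu_min` -/
theorem HWK.pcm (h : HWK V l) (hl : D.Mnu l) : PcM V l := by
  have hw : ∀ a, ∃ u : D.W, V.wt a = u.1 l := by
    intro a
    obtain ⟨u, hu, hq⟩ := mttH3_dom h a
    have h1 := mnu_min hl hu hq
    exact ⟨u⁻¹, by rw [← h1, mttH3_inv]⟩
  refine ⟨hl, hw, mttH3_surj h, fun a b hab => ?_⟩
  obtain ⟨u, hu⟩ := hw a
  exact mttH3_uni h u a b hu (hab ▸ hu)

/-- `qmn_min` -/
theorem HWK.pcq {θ : D.Rt} (h : HWK V θ.1) (hθ : D.QMn θ)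
    (e_inj : ∀ k : ℤ, k ≤ 0 → ∀ v : V.I → ℂ, (∀ a, v a ≠ 0 → D.ht2 (V.wt a) = k) →
      V.e.mulVec v = 0 → v = 0)
    (e_surj : ∃ r : Matrix V.I V.I ℂ, (∀ a b, r a b ≠ 0 → D.ht2 (V.wt a) = D.ht2 (V.wt b) - 2) ∧
      ∀ v : V.I → ℂ, (∀ a, v a ≠ 0 → 0 ≤ D.ht2 (V.wt a)) → V.e.mulVec (r.mulVec v) = v) :
    PcQ V θ := by
  have hw : ∀ a, V.wt a = 0 ∨ ∃ u : D.W, V.wt a = u.1 θ.1 := by
    intro a
    obtain ⟨u, hu, hq⟩ := mttH3_dom h a
    rcases qmn_min hθ hu hq with h1 | h1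
    · right
      exact ⟨u⁻¹, by rw [← h1, mttH3_inv]⟩
    · left
      rw [← mttH3_inv u (V.wt a), h1, map_zero]
  refine ⟨hθ, hw, mttH3_surj h, fun a b hab h0 => ?_, e_inj, e_surj⟩
  rcases hw a with h1 | ⟨u, hu⟩
  · exact (h0 h1).elim
  · exact mttH3_uni h u a b hu (hab ▸ hu)

/-- The pairing is `c Eu_l` for every highest weight representation with a retraction family.  Let `c = E' E`.  For a
basis vector `e_b`: `e_b = ∑_m F_m` over the fraction field (`V.decomp`), `F_l = (E' b / c) E` (pair with `E'`), the norms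
of the weights are `≤ |l|²` (`HWK.norm`), so `pb_mat` gives `Eu_l (E' b) E a / c ∈ A` for all `a`, `b`; take `E a = 1`,
`E' b = 1` (`EE.one`, `one'`): `c ∣ Eu_l`; `EE.eq_of_dvd'`. -/
theorem HWK.pair (h : HWK V l) (hR : Nonempty (RF D V.S)) {E E' : V.I → AA n}
    (ee : EE V l E E') : ∃ c : ℂ, c ≠ 0 ∧ E' ⬝ᵥ E = MvPolynomial.C c * D.Eu l := by
  classical
  obtain ⟨b, hb⟩ := ee.one'
  obtain ⟨a, ha⟩ := ee.one
  obtain ⟨d, hd, hdec⟩ := V.decomp
  obtain ⟨y, hy, hsum⟩ := hdec (Pi.single b 1)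
  obtain ⟨R⟩ := hR
  have hlmem : l ∈ Finset.univ.image V.wt := by
    obtain ⟨a0, ha0, -⟩ := h.mult
    exact Finset.mem_image.2 ⟨a0, Finset.mem_univ _, ha0⟩
  have hd' : (aK d : KK n) ≠ 0 := aK_ne_zero hd
  -- the pole bound
  obtain ⟨t, ht⟩ := pb_mat R l (Finset.univ.image V.wt) (fun m a => (aK d)⁻¹ * aK (y m a))
    (by
      intro m
      have h1 := hy m
      funext i
      have h2 := congrFun h1 i
      simp only [Matrix.mulVec, dotProduct, Pi.smul_apply, smul_eq_mul, Matrix.map_apply] at h2 ⊢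
      have h3 : ∑ j, aK (V.S i j) * ((aK d)⁻¹ * aK (y m j)) =
          (aK d)⁻¹ * aK (∑ j, V.S i j * y m j) := by
        rw [map_sum, Finset.mul_sum]
        refine Finset.sum_congr rfl fun j _ => ?_
        rw [map_mul]
        ring
      rw [h3, h2, map_mul]
      ring)
    (by
      intro i
      refine ⟨(Pi.single b 1 : V.I → AA n) i, ?_⟩
      have h2 := congrFun hsum i
      rw [Pi.smul_apply, smul_eq_mul, Finset.sum_apply] at h2
      rw [← Finset.mul_sum, ← map_sum, ← h2, map_mul, ← mul_assoc, inv_mul_cancel₀ hd', one_mul])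
    (by
      intro m hm _
      obtain ⟨i, -, rfl⟩ := Finset.mem_image.1 hm
      rcases h.norm i with ⟨w, hw⟩ | hlt
      · rw [hw, D.B_W]
      · exact hlt.le)
    hlmem a
  obtain ⟨x, hx⟩ := ee.uniq (y l) (hy l)
  -- `d = x * c`
  have hdx : d = x * (E' ⬝ᵥ E) := by
    have h1 : E' ⬝ᵥ (d • (Pi.single b 1 : V.I → AA n)) = d := by
      rw [dotProduct_smul, dotProduct_single, mul_one, hb, smul_eq_mul, mul_one]
    have h2 : E' ⬝ᵥ (∑ m ∈ Finset.univ.image V.wt, y m) = E' ⬝ᵥ y l := by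
      rw [dotProduct_sum]
      refine Finset.sum_eq_single l (fun m _ hm => ?_) (fun hn => (hn hlmem).elim)
      exact ee.eig'.orth (hy m) (Ne.symm hm)
    rw [hsum, h2, hx, dotProduct_smul, smul_eq_mul] at h1
    exact h1.symm
  have hx0 : x ≠ 0 := by
    rintro rfl
    rw [zero_mul] at hdx
    exact hd hdx
  have hya : y l a = x := by
    rw [hx, Pi.smul_apply, ha, smul_eq_mul, mul_one]
  have hx0' : (aK x : KK n) ≠ 0 := aK_ne_zero hx0
  have hc0' : (aK (E' ⬝ᵥ E) : KK n) ≠ 0 := aK_ne_zero ee.ne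
  have hEu : D.Eu l = (E' ⬝ᵥ E) * t := by
    apply aK_inj
    have h1 : aK (D.Eu l) * ((aK d)⁻¹ * aK (y l a)) = aK t := ht
    rw [hya, hdx, map_mul] at h1
    rw [map_mul, ← h1]
    field_simp
  exact ee.eq_of_dvd' h.dom ⟨t, hEu⟩

section
variable {G : AffGrp} {r : ℕ} (Db : Module.Basis (Fin r) ℂ G.Lie) (cA : Fin r → AA n)

/-- the polynomial identity `V.dec` over the fraction field -/
theorem h5_dec (V : KRep D) [DecidableEq (Fin n → ℤ)] :
    Polynomial.aeval (V.S.map aK) (∏ m ∈ Finset.univ.image V.wt,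
      (Polynomial.X - Polynomial.C (aK (fm0 m) : KK n))) = 0 := by
  classical
  have h2 : (∏ m ∈ Finset.univ.image V.wt, (Polynomial.X - Polynomial.C (aK (fm0 m) : KK n))) =
      (∏ m ∈ Finset.univ.image V.wt, (Polynomial.X - Polynomial.C (fm0 m))).map
        (aK (n := n)) := by
    rw [Polynomial.map_prod]
    refine Finset.prod_congr rfl fun m _ => ?_
    rw [Polynomial.map_sub, Polynomial.map_X, Polynomial.map_C]
  have h3 : Polynomial.aeval (V.S.map aK) ((∏ m ∈ Finset.univ.image V.wt,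
      (Polynomial.X - Polynomial.C (fm0 m))).map (aK (n := n))) =
      (Polynomial.aeval V.S (∏ m ∈ Finset.univ.image V.wt,
        (Polynomial.X - Polynomial.C (fm0 m)))).map aK := by
    refine (Polynomial.map_aeval_eq_aeval_map (φ := aK (n := n))
      (ψ := (aK (n := n)).mapMatrix (m := V.I)) ?_ _ V.S).symm
    refine RingHom.ext fun x => ?_
    refine Matrix.ext fun a b => ?_
    simp only [RingHom.comp_apply, Matrix.algebraMap_matrix_apply, RingHom.mapMatrix_apply,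
      Matrix.map_apply, Algebra.algebraMap_self, RingHom.id_apply]
    split_ifs
    · rfl
    · rw [map_zero]
  have h4 : Polynomial.aeval V.S (∏ m ∈ Finset.univ.image V.wt,
        (Polynomial.X - Polynomial.C (fm0 m))) = 0 := by
    refine (congrArg (fun s : Finset (Fin n → ℤ) => Polynomial.aeval V.S (∏ m ∈ s,
      (Polynomial.X - Polynomial.C (fm0 m)))) (Finset.ext fun x => ?_)).trans V.dec
    simp only [Finset.mem_image]
  rw [h2, h3, h4]
  simp

theorem h5_prod {I K : Type} [Fintype I] [DecidableEq I] [Field K] (M : Matrix I I K)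
    {v : I → K} {c : K} (h : M.mulVec v = c • v) {ι : Type} [DecidableEq ι] (f : ι → K)
    (Ω : Finset ι) :
    (Polynomial.aeval M (∏ k ∈ Ω, (Polynomial.X - Polynomial.C (f k)))).mulVec v =
      (∏ k ∈ Ω, (c - f k)) • v := by
  induction Ω using Finset.induction_on with
  | empty =>
    rw [Finset.prod_empty, Finset.prod_empty, map_one, Matrix.one_mulVec, one_smul]
  | insert k Ω hk ih =>
    rw [Finset.prod_insert hk, Finset.prod_insert hk, map_mul, ← Matrix.mulVec_mulVec, ih,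
      Matrix.mulVec_smul, map_sub, Polynomial.aeval_X, Polynomial.aeval_C, Matrix.sub_mulVec, h,
      Matrix.algebraMap_eq_diagonal]
    have h1 : (Matrix.diagonal ((algebraMap K (I → K)) (f k))).mulVec v = f k • v := by
      funext i
      rw [Matrix.mulVec_diagonal]
      rfl
    rw [h1, ← sub_smul, smul_smul, mul_comm]

theorem h5_prod' {I K : Type} [Fintype I] [DecidableEq I] [Field K] (M : Matrix I I K)
    {v : I → K} {c : K} (h : M.vecMul v = c • v) {ι : Type} [DecidableEq ι] (f : ι → K)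
    (Ω : Finset ι) :
    (Polynomial.aeval M (∏ k ∈ Ω, (Polynomial.X - Polynomial.C (f k)))).vecMul v =
      (∏ k ∈ Ω, (c - f k)) • v := by
  induction Ω using Finset.induction_on with
  | empty =>
    rw [Finset.prod_empty, Finset.prod_empty, map_one, Matrix.vecMul_one, one_smul]
  | insert k Ω hk ih =>
    rw [Finset.prod_insert hk, Finset.prod_insert hk, mul_comm, map_mul, ← Matrix.vecMul_vecMul,
      ih, Matrix.smul_vecMul, map_sub, Polynomial.aeval_X, Polynomial.aeval_C,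
      Matrix.vecMul_sub, h, Matrix.algebraMap_eq_diagonal]
    have h1 : (Matrix.diagonal ((algebraMap K (I → K)) (f k))).vecMul v = f k • v := by
      funext i
      rw [Matrix.vecMul_diagonal, mul_comm]
      rfl
    rw [h1, ← sub_smul, smul_smul, mul_comm]

/-- common denominator -/
theorem h5_den {I : Type} [Fintype I] (r : I → KK n) :
    ∃ (d : AA n) (y : I → AA n), d ≠ 0 ∧ ∀ a, aK d * r a = aK (y a) := by
  classical
  choose x z hz hx using fun a => exists_frac (r a)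
  refine ⟨∏ a, z a, fun a => x a * ∏ b ∈ Finset.univ.erase a, z b,
    Finset.prod_ne_zero_iff.2 fun a _ => hz a, fun a => ?_⟩
  rw [← Finset.mul_prod_erase _ _ (Finset.mem_univ a), map_mul, map_mul, ← hx a]
  ring

/-- The eigenvalues of `S` are the weights (`V.dec` / `V.decomp`). -/
theorem HWK.eig_wt (V : KRep D) {m : Fin n → ℤ} {v : V.I → KK n} (h0 : v ≠ 0)
    (h : (V.S.map aK).mulVec v = (aK (fm0 m) : KK n) • v ∨
      (V.S.map aK).vecMul v = (aK (fm0 m) : KK n) • v) : ∃ a, m = V.wt a := by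
  classical
  have hdec := h5_dec V
  have key : ∏ k ∈ Finset.univ.image V.wt, ((aK (fm0 m) : KK n) - aK (fm0 k)) = 0 := by
    rcases h with h | h
    · have h1 := h5_prod (V.S.map aK) h (fun k => (aK (fm0 k) : KK n)) (Finset.univ.image V.wt)
      rw [hdec, Matrix.zero_mulVec] at h1
      exact (smul_eq_zero.1 h1.symm).resolve_right h0
    · have h1 := h5_prod' (V.S.map aK) h (fun k => (aK (fm0 k) : KK n))
        (Finset.univ.image V.wt)
      rw [hdec, Matrix.vecMul_zero] at h1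
      exact (smul_eq_zero.1 h1.symm).resolve_right h0
  obtain ⟨k, hk, hk0⟩ := Finset.prod_eq_zero_iff.1 key
  obtain ⟨a, -, rfl⟩ := Finset.mem_image.1 hk
  exact ⟨a, fm0_inj (aK_inj (sub_eq_zero.1 hk0))⟩

/-- The field `hw`, for dominant `l` first: `v = aK ∘ E`, `v' = aK (C c⁻¹) • aK ∘ E'` (`exists_EE`, `HWK.pair`);
`uniq`: clear denominators (`EE.uniq`), and `E a = 1` for some `a`; `wts`: `eig_wt`, `HWK.norm`. -/
theorem v_hw_dom {E : Rep G} {V : KRep D} (φ : E.ι ≃ V.I)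
    (hS : SE Db cA E = V.S.submatrix φ φ) (h : HWK V l) (hR : Nonempty (RF D V.S)) :
    ∃ v v' : E.ι → KK n, (tqd G D Db cA).HW (W := D.W) l E v v' := by
  classical
  obtain ⟨a0, htop⟩ := h.top
  obtain ⟨u0, hu0⟩ := exists_anti (D := D) l
  obtain ⟨b0, hb0⟩ := htop.surj u0
  have ee := exists_EE htop hu0 hb0
  obtain ⟨E0, hE0⟩ : ∃ E0, E0 = fun a => V.P a a0 := ⟨_, rfl⟩
  obtain ⟨E1, hE1⟩ : ∃ E1, E1 = (u0⁻¹ • fun a => V.P' b0 a) := ⟨_, rfl⟩
  rw [← hE0, ← hE1] at ee
  obtain ⟨c, hc0, hc⟩ := h.pair hR ee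
  have hsE : ∀ a b, (tqd G D Db cA).sE E a b = aK (V.S (φ a) (φ b)) := by
    intro a b
    rw [← map_SE, hS]
    rfl
  have hCc : (aK (MvPolynomial.C c) : KK n) * aK (MvPolynomial.C c⁻¹) = 1 := by
    rw [← map_mul, ← map_mul, mul_inv_cancel₀ hc0, map_one, map_one]
  -- transport to `V.I`
  have htr : ∀ {r : E.ι → KK n} {m : Fin n → ℤ},
      ((tqd G D Db cA).sE E).mulVec r = (tqd G D Db cA).val m • r →
      (V.S.map aK).mulVec (fun i => r (φ.symm i)) = (aK (fm0 m) : KK n) • fun i => r (φ.symm i) := by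
    intro r m hr
    funext i
    have h1 := congrFun hr (φ.symm i)
    have h2 : ((tqd G D Db cA).sE E).mulVec r (φ.symm i) =
        ∑ b, aK (V.S i (φ b)) * r b := by
      show ∑ b, (tqd G D Db cA).sE E (φ.symm i) b * r b = _
      refine Finset.sum_congr rfl fun b _ => ?_
      rw [hsE, Equiv.apply_symm_apply]
    rw [h2] at h1
    have h3 : ∑ b, aK (V.S i (φ b)) * r b = ∑ j, (V.S.map aK) i j * r (φ.symm j) := by
      rw [← Equiv.sum_comp φ]
      refine Finset.sum_congr rfl fun b _ => ?_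
      rw [Equiv.symm_apply_apply]
      rfl
    rw [h3] at h1
    exact h1
  have htr' : ∀ {r : E.ι → KK n} {m : Fin n → ℤ},
      ((tqd G D Db cA).sE E).vecMul r = (tqd G D Db cA).val m • r →
      (V.S.map aK).vecMul (fun i => r (φ.symm i)) = (aK (fm0 m) : KK n) • fun i => r (φ.symm i) := by
    intro r m hr
    funext i
    have h1 := congrFun hr (φ.symm i)
    have h2 : ((tqd G D Db cA).sE E).vecMul r (φ.symm i) =
        ∑ b, r b * aK (V.S (φ b) i) := by
      show ∑ b, r b * (tqd G D Db cA).sE E b (φ.symm i) = _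
      refine Finset.sum_congr rfl fun b _ => ?_
      rw [hsE, Equiv.apply_symm_apply]
    rw [h2] at h1
    have h3 : ∑ b, r b * aK (V.S (φ b) i) = ∑ j, r (φ.symm j) * (V.S.map aK) j i := by
      rw [← Equiv.sum_comp φ]
      refine Finset.sum_congr rfl fun b _ => ?_
      rw [Equiv.symm_apply_apply]
      rfl
    rw [h3] at h1
    exact h1
  -- polynomial solutions of the eigenvector equation
  have hpol : ∀ {y : V.I → AA n} {x : KK n} {r : V.I → KK n} (_ : x ≠ 0)
      (_ : ∀ a, x * r a = aK (y a)) {m : Fin n → ℤ}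
      (_ : (V.S.map aK).mulVec r = (aK (fm0 m) : KK n) • r), Eig V.S m y := by
    intro y x r hx hy m hr
    funext i
    apply aK_inj
    have h1 := congrFun hr i
    show aK (∑ j, V.S i j * y j) = aK (fm0 m * y i)
    rw [map_sum, map_mul, ← hy i]
    have h2 : ∑ j, aK (V.S i j) * r j = aK (fm0 m) * r i := h1
    rw [mul_left_comm, ← h2, Finset.mul_sum]
    refine Finset.sum_congr rfl fun j _ => ?_
    rw [map_mul, ← hy j]
    ring
  have hpol' : ∀ {y : V.I → AA n} {x : KK n} {r : V.I → KK n} (_ : x ≠ 0)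
      (_ : ∀ a, x * r a = aK (y a)) {m : Fin n → ℤ}
      (_ : (V.S.map aK).vecMul r = (aK (fm0 m) : KK n) • r), EigL V.S m y := by
    intro y x r hx hy m hr
    funext i
    apply aK_inj
    have h1 := congrFun hr i
    show aK (∑ j, y j * V.S j i) = aK (fm0 m * y i)
    rw [map_sum, map_mul, ← hy i]
    have h2 : ∑ j, r j * aK (V.S j i) = aK (fm0 m) * r i := h1
    rw [mul_left_comm, ← h2, Finset.mul_sum]
    refine Finset.sum_congr rfl fun j _ => ?_
    rw [map_mul, ← hy j]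
    ring
  refine ⟨fun i => aK (E0 (φ i)), fun i => aK (MvPolynomial.C c⁻¹ * E1 (φ i)), ?_⟩
  refine
    { v_mem := fun a => aK_mem _
      v'_mem := fun a => aK_mem _
      v_inv := ?_
      v'_inv := ?_
      v_eig := ?_
      v'_eig := ?_
      pair := ?_
      uniq := ?_
      uniq' := ?_
      wts := ?_ }
  · intro w hw a
    rw [smul_aK]
    exact congrArg aK (congrFun (ee.inv w hw) (φ a))
  · intro w hw a
    rw [smul_aK, smul_mul', D.smul_C]
    exact congrArg (fun z => aK (MvPolynomial.C c⁻¹ * z)) (congrFun (ee.inv' w hw) (φ a))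
  · funext a
    show ∑ b, (tqd G D Db cA).sE E a b * aK (E0 (φ b)) = aK (fm0 l) * aK (E0 (φ a))
    have h1 : (∑ j, V.S (φ a) j * E0 j) = fm0 l * E0 (φ a) := congrFun ee.eig (φ a)
    rw [← map_mul, ← h1, ← Equiv.sum_comp φ, map_sum]
    refine Finset.sum_congr rfl fun b _ => ?_
    rw [hsE, map_mul]
  · funext a
    show ∑ b, aK (MvPolynomial.C c⁻¹ * E1 (φ b)) * (tqd G D Db cA).sE E b a =
      aK (fm0 l) * aK (MvPolynomial.C c⁻¹ * E1 (φ a))
    have h1 : (∑ j, E1 j * V.S j (φ a)) = fm0 l * E1 (φ a) := congrFun ee.eig' (φ a)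
    rw [← map_mul, mul_left_comm, ← h1, ← Equiv.sum_comp φ, Finset.mul_sum, map_sum]
    refine Finset.sum_congr rfl fun b _ => ?_
    rw [hsE, ← map_mul, mul_assoc]
  · show ∑ a, aK (E0 (φ a)) * aK (MvPolynomial.C c⁻¹ * E1 (φ a)) = aK (D.Eu l)
    have h1 : ∑ j, E1 j * E0 j = MvPolynomial.C c * D.Eu l := hc
    have h2 : D.Eu l = MvPolynomial.C c⁻¹ * ∑ j, E1 j * E0 j := by
      rw [h1, ← mul_assoc, ← map_mul, inv_mul_cancel₀ hc0, map_one, one_mul]
    rw [h2, ← Equiv.sum_comp φ, Finset.mul_sum, map_sum]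
    refine Finset.sum_congr rfl fun b _ => ?_
    rw [← map_mul]
    congr 1
    ring
  · intro r hr
    refine ⟨?_, fun hA => ?_⟩
    · obtain ⟨d, y, hd, hy⟩ := h5_den (fun i => r (φ.symm i))
      have hd' : (aK d : KK n) ≠ 0 := aK_ne_zero hd
      obtain ⟨t, ht⟩ := ee.uniq y (hpol hd' hy (htr hr))
      refine ⟨aK t * (aK d)⁻¹, ?_⟩
      funext a
      have h1 := hy (φ a)
      simp only [Equiv.symm_apply_apply] at h1
      have h2 : y (φ a) = t * E0 (φ a) := congrFun ht (φ a)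
      rw [h2, map_mul] at h1
      show r a = aK t * (aK d)⁻¹ * aK (E0 (φ a))
      field_simp
      rw [mul_comm (r a), h1]
    · choose y hy using fun i => mem_AK.1 (hA (φ.symm i))
      obtain ⟨t, ht⟩ := ee.uniq y (hpol (one_ne_zero) (fun i => (one_mul _).trans (hy i)) (htr hr))
      refine ⟨aK t, aK_mem _, ?_⟩
      funext a
      have h1 := hy (φ a)
      simp only [Equiv.symm_apply_apply] at h1
      have h2 : y (φ a) = t * E0 (φ a) := congrFun ht (φ a)
      rw [h2, map_mul] at h1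
      exact h1
  · intro r hr
    have hE : ∀ (t : AA n) a, aK t * aK (E1 (φ a)) =
        (aK t * aK (MvPolynomial.C c)) * aK (MvPolynomial.C c⁻¹ * E1 (φ a)) := by
      intro t a
      rw [map_mul (aK (n := n)) (MvPolynomial.C c⁻¹)]
      linear_combination (-(aK t * aK (E1 (φ a)))) * hCc
    refine ⟨?_, fun hA => ?_⟩
    · obtain ⟨d, y, hd, hy⟩ := h5_den (fun i => r (φ.symm i))
      have hd' : (aK d : KK n) ≠ 0 := aK_ne_zero hd
      obtain ⟨t, ht⟩ := ee.uniq' y (hpol' hd' hy (htr' hr))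
      refine ⟨(aK t * aK (MvPolynomial.C c)) * (aK d)⁻¹, ?_⟩
      funext a
      have h1 := hy (φ a)
      simp only [Equiv.symm_apply_apply] at h1
      have h2 : y (φ a) = t * E1 (φ a) := congrFun ht (φ a)
      rw [h2, map_mul, hE] at h1
      show r a = aK t * aK (MvPolynomial.C c) * (aK d)⁻¹ * aK (MvPolynomial.C c⁻¹ * E1 (φ a))
      rw [mul_right_comm, ← h1]
      field_simp
    · choose y hy using fun i => mem_AK.1 (hA (φ.symm i))
      obtain ⟨t, ht⟩ := ee.uniq' y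
        (hpol' (one_ne_zero) (fun i => (one_mul _).trans (hy i)) (htr' hr))
      refine ⟨aK t * aK (MvPolynomial.C c), by rw [← map_mul]; exact aK_mem _, ?_⟩
      funext a
      have h1 := hy (φ a)
      simp only [Equiv.symm_apply_apply] at h1
      have h2 : y (φ a) = t * E1 (φ a) := congrFun ht (φ a)
      rw [h2, map_mul, hE] at h1
      exact h1
  · intro m r hr hm
    have hne : (fun i => r (φ.symm i)) ≠ 0 := by
      intro h0
      apply hr
      funext a
      have := congrFun h0 (φ a)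
      simpa using this
    obtain ⟨a, ha⟩ := HWK.eig_wt V hne (hm.imp htr htr')
    rcases h.norm a with ⟨w, hw⟩ | hlt
    · exact Or.inl ⟨w, by rw [ha, hw]; rfl⟩
    · right
      show (D.B m m).toNat < (D.B l l).toNat
      have h0 : 0 ≤ D.B (V.wt a) (V.wt a) := D.B_nonneg _
      rw [ha]
      omega

/-- the representation matrix in the weight basis has a retraction family -/
theorem h6_rf {E : Rep G} {V : KRep D} (φ : E.ι ≃ V.I)
    (hS : SE Db cA E = V.S.submatrix φ φ) (hR : Nonempty (RF D (SE Db cA E))) :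
    Nonempty (RF D V.S) := by
  classical
  have h1 : ∀ a b, (SE Db cA E) a b = V.S (φ a) (φ b) := fun a b => by rw [hS]; rfl
  refine rf_conj (I := V.I) (J := E.ι) hR
    (Matrix.of fun a b => if a = φ b then (1 : ℂ) else 0)
    (Matrix.of fun b a => if a = φ b then (1 : ℂ) else 0) ?_ ?_ ?_
  · ext a b
    simp only [Matrix.mul_apply, Matrix.of_apply, Matrix.one_apply]
    rw [Finset.sum_eq_single (φ.symm a)]
    · by_cases h : a = b
      · subst h; simp
      · rw [if_neg h]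
        have : ¬ b = φ (φ.symm a) := by
          rw [Equiv.apply_symm_apply]; exact fun h' => h h'.symm
        rw [if_neg this, mul_zero]
    · intro c _ hc
      rw [if_neg, zero_mul]
      intro h
      exact hc (by rw [h, Equiv.symm_apply_apply])
    · intro h; exact absurd (Finset.mem_univ _) h
  · refine Matrix.ext fun a b => ?_
    show ∑ c, V.S a c * MvPolynomial.C (if c = φ b then (1 : ℂ) else 0) =
      ∑ c, MvPolynomial.C (if a = φ c then (1 : ℂ) else 0) * SE Db cA E c b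
    rw [Finset.sum_eq_single (φ b), Finset.sum_eq_single (φ.symm a)]
    · rw [h1, Equiv.apply_symm_apply]
      simp
    · intro c _ hc
      rw [if_neg, map_zero, zero_mul]
      intro h
      exact hc (by rw [h, Equiv.symm_apply_apply])
    · intro h; exact absurd (Finset.mem_univ _) h
    · intro c _ hc
      rw [if_neg hc, map_zero, mul_zero]
    · intro h; exact absurd (Finset.mem_univ _) h
  · refine Matrix.ext fun b a => ?_
    show ∑ c, MvPolynomial.C (if c = φ b then (1 : ℂ) else 0) * V.S c a =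
      ∑ c, SE Db cA E b c * MvPolynomial.C (if a = φ c then (1 : ℂ) else 0)
    rw [Finset.sum_eq_single (φ b), Finset.sum_eq_single (φ.symm a)]
    · rw [h1, Equiv.apply_symm_apply]
      simp
    · intro c _ hc
      rw [if_neg, map_zero, mul_zero]
      intro h
      exact hc (by rw [h, Equiv.symm_apply_apply])
    · intro h; exact absurd (Finset.mem_univ _) h
    · intro c _ hc
      rw [if_neg hc, map_zero, zero_mul]
    · intro h; exact absurd (Finset.mem_univ _) h

/-- `s` is invariant under `W` -/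
theorem h6_sE (hc : ∀ (w : D.W) j, w • cA j = cA j) (E : Rep G) (w : D.W) (a b : E.ι) :
    w • (tqd G D Db cA).sE E a b = (tqd G D Db cA).sE E a b := by
  rw [← map_SE]
  show w • aK (SE Db cA E a b) = aK (SE Db cA E a b)
  rw [smul_aK, SE_W Db cA hc]

theorem h6_mulVec (hc : ∀ (w : D.W) j, w • cA j = cA j) (E : Rep G) (w : D.W)
    (v : E.ι → KK n) :
    ((tqd G D Db cA).sE E).mulVec (w • v) = w • ((tqd G D Db cA).sE E).mulVec v := by
  funext a
  show ∑ b, (tqd G D Db cA).sE E a b * (w • v b) = w • ∑ b, (tqd G D Db cA).sE E a b * v b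
  rw [Finset.smul_sum]
  refine Finset.sum_congr rfl fun b _ => ?_
  rw [smul_mul', h6_sE Db cA hc]

theorem h6_vecMul (hc : ∀ (w : D.W) j, w • cA j = cA j) (E : Rep G) (w : D.W)
    (v : E.ι → KK n) :
    ((tqd G D Db cA).sE E).vecMul (w • v) = w • ((tqd G D Db cA).sE E).vecMul v := by
  funext a
  show ∑ b, (w • v b) * (tqd G D Db cA).sE E b a = w • ∑ b, v b * (tqd G D Db cA).sE E b a
  rw [Finset.smul_sum]
  refine Finset.sum_congr rfl fun b _ => ?_
  rw [smul_mul', h6_sE Db cA hc]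

theorem h6_smul {I : Type} (w : D.W) (x : KK n) (v : I → KK n) :
    w • (x • v) = (w • x) • (w • v) := by
  funext a
  show w • (x * v a) = (w • x) * (w • v a)
  rw [smul_mul']

/-- transport of an eigenvector equation -/
theorem h6_eig (hc : ∀ (w : D.W) j, w • cA j = cA j) (E : Rep G) (w : D.W) {m : Fin n → ℤ}
    {v : E.ι → KK n} (h : ((tqd G D Db cA).sE E).mulVec v = (tqd G D Db cA).val m • v) :
    ((tqd G D Db cA).sE E).mulVec (w • v) = (tqd G D Db cA).val (w • m) • (w • v) := by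
  rw [h6_mulVec Db cA hc, h, h6_smul, v_val_w]

theorem h6_eig' (hc : ∀ (w : D.W) j, w • cA j = cA j) (E : Rep G) (w : D.W) {m : Fin n → ℤ}
    {v : E.ι → KK n} (h : ((tqd G D Db cA).sE E).vecMul v = (tqd G D Db cA).val m • v) :
    ((tqd G D Db cA).sE E).vecMul (w • v) = (tqd G D Db cA).val (w • m) • (w • v) := by
  rw [h6_vecMul Db cA hc, h, h6_smul, v_val_w]

/-- transport of a highest weight datum -/
theorem h6_hw (hc : ∀ (w : D.W) j, w • cA j = cA j) (w : D.W) {l : Fin n → ℤ} {E : Rep G}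
    {v v' : E.ι → KK n} (h : (tqd G D Db cA).HW (W := D.W) l E v v') :
    (tqd G D Db cA).HW (W := D.W) (w • l) E (w • v) (w • v') := by
  have hst : ∀ u : D.W, u • w • l = w • l → (w⁻¹ * u * w) • l = l := by
    intro u hu
    rw [mul_smul, mul_smul, hu, inv_smul_smul]
  have hin : ∀ (x : E.ι → KK n), (∀ u : D.W, u • l = l → ∀ a, u • x a = x a) →
      ∀ u : D.W, u • w • l = w • l → ∀ a, u • (w • x) a = (w • x) a := by
    intro x hx u hu a
    have h1 := hx _ (hst u hu) a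
    have h2 : w • (w⁻¹ * u * w) • x a = w • x a := by rw [h1]
    rw [← mul_smul, mul_assoc, mul_inv_cancel_left, mul_smul] at h2
    exact h2
  have hback : ∀ (r : E.ι → KK n), w • (w⁻¹ • r) = r := fun r => smul_inv_smul w r
  have hwl : w⁻¹ • w • l = l := inv_smul_smul w l
  refine
    { v_mem := fun a => v_wA G Db cA w _ (h.v_mem a)
      v'_mem := fun a => v_wA G Db cA w _ (h.v'_mem a)
      v_inv := hin v h.v_inv
      v'_inv := hin v' h.v'_inv
      v_eig := h6_eig Db cA hc E w h.v_eig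
      v'_eig := h6_eig' Db cA hc E w h.v'_eig
      pair := ?_
      uniq := ?_
      uniq' := ?_
      wts := ?_ }
  · rw [v_Eu_w, ← h.pair, Finset.smul_sum]
    refine Finset.sum_congr rfl fun a _ => ?_
    rw [smul_mul']
    rfl
  · intro r hr
    have h1 := h6_eig Db cA hc E w⁻¹ hr
    rw [hwl] at h1
    obtain ⟨⟨x, hx⟩, h3⟩ := h.uniq _ h1
    refine ⟨⟨w • x, ?_⟩, fun hA => ?_⟩
    · rw [← h6_smul, ← hx, hback]
    · obtain ⟨y, hy, hxy⟩ := h3 fun a => v_wA G Db cA w⁻¹ _ (hA a)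
      exact ⟨w • y, v_wA G Db cA w _ hy, by rw [← h6_smul, ← hxy, hback]⟩
  · intro r hr
    have h1 := h6_eig' Db cA hc E w⁻¹ hr
    rw [hwl] at h1
    obtain ⟨⟨x, hx⟩, h3⟩ := h.uniq' _ h1
    refine ⟨⟨w • x, ?_⟩, fun hA => ?_⟩
    · rw [← h6_smul, ← hx, hback]
    · obtain ⟨y, hy, hxy⟩ := h3 fun a => v_wA G Db cA w⁻¹ _ (hA a)
      exact ⟨w • y, v_wA G Db cA w _ hy, by rw [← h6_smul, ← hxy, hback]⟩
  · intro m r hr hm
    have hne : w⁻¹ • r ≠ 0 := by
      intro h0
      apply hr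
      rw [← hback r, h0, smul_zero]
    have h1 := h.wts (w⁻¹ • m) (w⁻¹ • r) hne (hm.imp (fun h => h6_eig Db cA hc E w⁻¹ h)
      (fun h => h6_eig' Db cA hc E w⁻¹ h))
    rcases h1 with ⟨u, hu⟩ | h2
    · left
      refine ⟨w * u * w⁻¹, ?_⟩
      rw [mul_smul, hwl, mul_smul, ← hu, smul_inv_smul]
    · right
      rw [v_N_w] at h2 ⊢
      exact h2

/-- The field `hw`: `l = w l0`, `l0` dominant; the sections are `w • v`, `w • v'`. -/
theorem v_hw (hc : ∀ (w : D.W) j, w • cA j = cA j)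
    (hV : ∀ l, D.Dom l → ∃ (E : Rep G) (V : KRep D) (φ : E.ι ≃ V.I),
      SE Db cA E = V.S.submatrix φ φ ∧ HWK V l)
    (hR : ∀ E : Rep G, Nonempty (RF D (SE Db cA E))) (l : Fin n → ℤ) :
    ∃ (V : Rep G) (v v' : V.ι → KK n), (tqd G D Db cA).HW (W := D.W) l V v v' := by
  classical
  obtain ⟨u, hu⟩ := D.exists_dom l
  obtain ⟨E, V, φ, hS, hK⟩ := hV _ hu
  have hRV : Nonempty (RF D V.S) := h6_rf Db cA φ hS (hR E)
  obtain ⟨v, v', h⟩ := v_hw_dom Db cA φ hS hK hRV
  have hl : u⁻¹ • (u.1 l) = l := by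
    show u⁻¹ • (u • l) = l
    rw [inv_smul_smul]
  refine ⟨E, u⁻¹ • v, u⁻¹ • v', ?_⟩
  have h2 := h6_hw Db cA hc u⁻¹ h
  rw [hl] at h2
  exact h2

/-- The field `dec`, for a representation in weight basis. -/
theorem v_dec_wt {E : Rep G} {V : KRep D} (φ : E.ι ≃ V.I)
    (hS : SE Db cA E = V.S.submatrix φ φ) : ∃ Ω : Finset (Fin n → ℤ),
    Polynomial.aeval ((tqd G D Db cA).sE E)
      (∏ m ∈ Ω, (Polynomial.X - Polynomial.C ((tqd G D Db cA).val m))) = 0 := by
  classical
  refine ⟨Finset.univ.image V.wt, ?_⟩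
  have h1 : (tqd G D Db cA).sE E = Matrix.reindexAlgEquiv (KK n) (KK n) φ.symm (V.S.map aK) := by
    rw [← map_SE, hS]
    rfl
  rw [h1, ← AlgEquiv.coe_toAlgHom, Polynomial.aeval_algHom_apply]
  have h2 : (∏ m ∈ Finset.univ.image V.wt,
      (Polynomial.X - Polynomial.C ((tqd G D Db cA).val m))) =
      (∏ m ∈ Finset.univ.image V.wt, (Polynomial.X - Polynomial.C (fm0 m))).map
        (aK (n := n)) := by
    rw [Polynomial.map_prod]
    refine Finset.prod_congr rfl fun m _ => ?_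
    rw [Polynomial.map_sub, Polynomial.map_X, Polynomial.map_C]
    rfl
  have h3 : Polynomial.aeval (V.S.map aK) ((∏ m ∈ Finset.univ.image V.wt,
      (Polynomial.X - Polynomial.C (fm0 m))).map (aK (n := n))) =
      (Polynomial.aeval V.S (∏ m ∈ Finset.univ.image V.wt,
        (Polynomial.X - Polynomial.C (fm0 m)))).map aK := by
    refine (Polynomial.map_aeval_eq_aeval_map (φ := aK (n := n))
      (ψ := (aK (n := n)).mapMatrix (m := V.I)) ?_ _ V.S).symm
    refine RingHom.ext fun x => ?_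
    refine Matrix.ext fun a b => ?_
    simp only [RingHom.comp_apply, Matrix.algebraMap_matrix_apply, RingHom.mapMatrix_apply,
      Matrix.map_apply, Algebra.algebraMap_self, RingHom.id_apply]
    split_ifs
    · rfl
    · rw [map_zero]
  rw [h2, h3, V.dec]
  simp

end

end Pool.Agent.MTG
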