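import Pool.Agent.MTG.GD

/-! # MTG, Part G : pieces

`D.Mnu l` : `l` is minuscule (dominant); `D.QMn l` : `l` is the short dominant root of a factor.
`Pc D l` : the representation `V_l` in a weight basis, with the Kostant slice data.  A representation
of the group with matrix `S = (s)`, `P = (px)`, `P' = (px)⁻¹`; `e` the regular nilpotent,
`S P = P (e + x)`. -/

namespace Pool.Agent.MTG

open MvPolynomial
open Pool.Agent.MTX.SLD (RR AA fm0)

namespace RD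

variable {n : ℕ} (D : RD n)

/-- minuscule dominant weights (`0` included) -/
def Mnu (l : Fin n → ℤ) : Prop := D.Dom l ∧ ∀ γ : D.Rt, |D.cp γ l| ≤ 1

/-- the short dominant roots of the irreducible factors -/
def QMn (θ : D.Rt) : Prop :=
  D.Dom θ.1 ∧ ∀ γ : D.Rt, γ ≠ θ → γ ≠ D.ng θ → |D.cp γ θ.1| ≤ 1

end RD

/-- A representation with weight basis and slice data. -/
structure KRep {n : ℕ} (D : RD n) where
  I : Type
  [ft : Fintype I]
  [de : DecidableEq I]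
  wt : I → Fin n → ℤ
  e : Matrix I I ℂ
  S : Matrix I I (AA n)
  P : Matrix I I (AA n)
  P' : Matrix I I (AA n)
  e_wt : ∀ a b, e a b ≠ 0 → ∃ s : D.SRt, wt a = wt b + s.1.1
  PP' : P * P' = 1
  P'P : P' * P = 1
  conj : S * P = P * (e.map MvPolynomial.C + Matrix.diagonal fun a => fm0 (wt a))
  S_W : ∀ (u : D.W) a b, u • S a b = S a b
  P_hd : ∀ a b, HD (D.ht2 (wt b) - D.ht2 (wt a)) (P a b)
  P'_hd : ∀ a b, HD (D.ht2 (wt b) - D.ht2 (wt a)) (P' a b)
  P_un : ∀ a b, D.ht2 (wt a) = D.ht2 (wt b) → P a b = if a = b then 1 else 0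
  P'_un : ∀ a b, D.ht2 (wt a) = D.ht2 (wt b) → P' a b = if a = b then 1 else 0
  dec : Polynomial.aeval S (∏ m ∈ Finset.univ.image wt, (Polynomial.X - Polynomial.C (fm0 m))) = 0

attribute [instance] KRep.ft KRep.de

/-- The minuscule pieces. -/
structure PcM {n : ℕ} {D : RD n} (V : KRep D) (l : Fin n → ℤ) : Prop where
  mnu : D.Mnu l
  wts : ∀ a, ∃ u : D.W, V.wt a = u.1 l
  surj : ∀ u : D.W, ∃ a, V.wt a = u.1 l
  inj : ∀ a b, V.wt a = V.wt b → a = b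

/-- The quasi-minuscule pieces. -/
structure PcQ {n : ℕ} {D : RD n} (V : KRep D) (θ : D.Rt) : Prop where
  qmn : D.QMn θ
  wts : ∀ a, V.wt a = 0 ∨ ∃ u : D.W, V.wt a = u.1 θ.1
  surj : ∀ u : D.W, ∃ a, V.wt a = u.1 θ.1
  inj : ∀ a b, V.wt a = V.wt b → V.wt a ≠ 0 → a = b
  /-- `e` is injective on the pieces of height `≤ 0` -/
  e_inj : ∀ k : ℤ, k ≤ 0 → ∀ v : V.I → ℂ, (∀ a, v a ≠ 0 → D.ht2 (V.wt a) = k) →
    V.e.mulVec v = 0 → v = 0
  /-- `e` maps onto the pieces of height `≥ 0` (`r` is a section of `e` there) -/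
  e_surj : ∃ r : Matrix V.I V.I ℂ, (∀ a b, r a b ≠ 0 → D.ht2 (V.wt a) = D.ht2 (V.wt b) - 2) ∧
    ∀ v : V.I → ℂ, (∀ a, v a ≠ 0 → 0 ≤ D.ht2 (V.wt a)) → V.e.mulVec (r.mulVec v) = v

end Pool.Agent.MTG
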