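import Pool.Agent.MTG.GT4

/-! # MTG, Part T : (8.4), quasi-minuscule representations are retracts of Bott-Samelson lattices
(cf. MTX/T5, MTX/T6; here `V` and its dual are used instead of the form `κ`) -/

namespace Pool.Agent.MTG

open MvPolynomial
open Pool.Agent.MTX (AS SW RedData Lat RyLat RingLat mulM ring_BS ry_BS trM trM_spec trM_unique)
open Pool.Agent.MTX.SLD (RR AA fm0 fm0_add fm0_smul fm0_zero fm0_neg fm0_sub fm0_ne_zero fm0_prime)

variable {n : ℕ} {D : RD n} {V : KRep D} {θ : D.Rt} {E E' ζ ζ' : V.I → AA n}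

/-- The data of (8.4). -/
structure PD (V : KRep D) (θ : D.Rt) (E E' ζ ζ' : V.I → AA n) (H P : Matrix V.I V.I (AA n)) : Prop where
  qq : QQ V θ E E' ζ ζ'
  hH : ∀ j k, fm0 θ.1 * H j k = D.PI0 θ.1 * (E j * E' k - ζ j * ζ' k)
  hP : ∀ j k, D.PI * P j k = ∑ u : D.W, (((D.sgn u : ℤˣ) : ℤ) : AA n) * (u • H j k)

/-- `E E' - ζ ζ' = E (E' - ζ') + (E - ζ) ζ'` is divisible by `θ` -/
theorem exists_H (h : QQ V θ E E' ζ ζ') : ∃ H : Matrix V.I V.I (AA n), ∀ j k,
    fm0 θ.1 * H j k = D.PI0 θ.1 * (E j * E' k - ζ j * ζ' k) := by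
  have h4 : ∀ j k, (fm0 θ.1 : AA n) ∣ E j * E' k - ζ j * ζ' k := by
    intro j k
    have e2 : E j * E' k - ζ j * ζ' k = -(E j * (ζ' k - E' k)) - (ζ j - E j) * ζ' k := by ring
    rw [e2]
    exact dvd_sub (((h.dvd' k).mul_left _).neg_right) ((h.dvd j).mul_right _)
  choose q hq using h4
  exact ⟨fun j k => D.PI0 θ.1 * q j k, fun j k => by rw [hq j k]; ring⟩

variable {H P : Matrix V.I V.I (AA n)}

/-- `(u θ) ∑_k (u H) j k v k = (u PI0) ((u E) j ((u E') v) - (u ζ) j ((u ζ') v))` -/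
theorem PD.uH (h : PD V θ E E' ζ ζ' H P) (u : D.W) (v : V.I → AA n) (j : V.I) :
    fm0 (u.1 θ.1) * ∑ k, (u • H j k) * v k = (u • D.PI0 θ.1) *
      ((u • E) j * ((u • E') ⬝ᵥ v) - (u • ζ) j * ((u • ζ') ⬝ᵥ v)) := by
  have h1 : ∀ k, fm0 (u.1 θ.1) * (u • H j k) = (u • D.PI0 θ.1) *
      ((u • E) j * (u • E') k - (u • ζ) j * (u • ζ') k) := by
    intro k
    have h2 := congrArg (fun p : AA n => u • p) (h.hH j k)
    simp only [smul_mul', smul_sub] at h2
    rw [D.smul_fm0] at h2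
    exact h2
  show fm0 (u.1 θ.1) * ∑ k, (u • H j k) * v k = (u • D.PI0 θ.1) *
      ((u • E) j * (∑ k, (u • E') k * v k) - (u • ζ) j * (∑ k, (u • ζ') k * v k))
  rw [Finset.mul_sum]
  have h3 : ∀ k, fm0 (u.1 θ.1) * ((u • H j k) * v k) =
      (u • D.PI0 θ.1) * ((u • E) j * ((u • E') k * v k) - (u • ζ) j * ((u • ζ') k * v k)) := by
    intro k
    rw [← mul_assoc, h1 k]
    ring
  rw [Finset.sum_congr rfl fun k _ => h3 k, ← Finset.mul_sum, Finset.sum_sub_distrib,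
    ← Finset.mul_sum, ← Finset.mul_sum]

/-- one summand of `PI (P v) j` -/
theorem T5a_term (h : PD V θ E E' ζ ζ' H P) (hθ : D.QMn θ) {c0 : ℂ}
    (hc : E' ⬝ᵥ E = C c0 * D.Eu θ.1) (u u1 : D.W) [DecidableEq (Fin n → ℤ)] (j : V.I) :
    (∑ k, (u • H j k) * (u1 • E) k) =
      if u.1 θ.1 = u1.1 θ.1 then
        C c0 * ((((D.sgn u : ℤˣ) : ℤ) : AA n) * D.PI) * (u1 • E) j else 0 := by
  have hth : θ.1 ≠ 0 := D.Rt_ne θ
  have hne : ∀ w : D.W, w.1 θ.1 ≠ 0 := by
    intro w hw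
    exact hth ((LinearEquiv.map_eq_zero_iff w.1).1 hw)
  have h0 : (fm0 (u.1 θ.1) : AA n) ≠ 0 := fm0_ne_zero (hne u)
  have hz : EigL V.S 0 (u • ζ') := by
    have h1 := h.qq.eig'.smul V.S_W u
    rwa [map_zero] at h1
  have hz0 : (u • ζ') ⬝ᵥ (u1 • E) = 0 :=
    hz.orth (h.qq.ee.eig.smul V.S_W u1) (hne u1).symm
  have key := h.uH u (u1 • E) j
  rw [hz0, mul_zero, sub_zero, h.qq.ee.pair u u1] at key
  apply mul_left_cancel₀ h0
  rw [key]
  by_cases hcase : u.1 θ.1 = u1.1 θ.1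
  · rw [if_pos hcase, if_pos hcase]
    have hE : u • E = u1 • E := h.qq.ee.smul_eq hcase
    rw [← hE, hc]
    have h1 : (u • D.PI0 θ.1) * (u • (C c0 * D.Eu θ.1)) =
        C c0 * (fm0 (u.1 θ.1) * ((((D.sgn u : ℤˣ) : ℤ) : AA n) * D.PI)) := by
      rw [← D.smul_PI u, ← smul_mul']
      have h2 : D.PI0 θ.1 * (C c0 * D.Eu θ.1) = C c0 * (fm0 θ.1 * D.PI) := by
        rw [PI_qmn hθ]
        ring
      rw [h2, smul_mul', smul_mul', RD.smul_C, D.smul_fm0]
    linear_combination (u • E) j * h1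
  · rw [if_neg hcase, if_neg hcase, mul_zero, mul_zero, mul_zero]

/-- Port of MTX/T5 `t5b_term`, `P_E`.  `(u ζ') (u1 E) = 0` (`EigL.orth`: weights `0`, `u1 θ ≠ 0`), `EE.pair`,
`E' E = c0 Eu_θ` (`EE.eq_qmn`), `PI_qmn`, `smul_PI`, `card_coset`; `c1 = c0 * nst θ`. -/
theorem PD.P_E (h : PD V θ E E' ζ ζ' H P) (hθ : D.QMn θ) : ∃ c1 : ℂ, c1 ≠ 0 ∧
    ∀ u1 : D.W, P.mulVec (u1 • E) = (C c1 : AA n) • (u1 • E) := by
  obtain ⟨c0, hc0, hc⟩ := h.qq.ee.eq_qmn hθ h.qq.eig h.qq.dvd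
  refine ⟨c0 * (nst D θ.1 : ℂ), mul_ne_zero hc0 (Nat.cast_ne_zero.2 (nst_pos θ.1).ne'), ?_⟩
  intro u1
  funext j
  apply mul_left_cancel₀ D.PI_ne
  rw [Pi.smul_apply, smul_eq_mul, Matrix.mulVec, dotProduct, Finset.mul_sum]
  have h1 : ∀ k, D.PI * (P j k * (u1 • E) k) =
      ∑ u : D.W, (((D.sgn u : ℤˣ) : ℤ) : AA n) * ((u • H j k) * (u1 • E) k) := by
    intro k
    rw [← mul_assoc, h.hP, Finset.sum_mul]
    exact Finset.sum_congr rfl fun u _ => by ring
  rw [Finset.sum_congr rfl fun k _ => h1 k, Finset.sum_comm]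
  have h2 : ∀ u : D.W, (∑ k, (((D.sgn u : ℤˣ) : ℤ) : AA n) * ((u • H j k) * (u1 • E) k)) =
      if u.1 θ.1 = u1.1 θ.1 then C c0 * D.PI * (u1 • E) j else 0 := by
    intro u
    rw [← Finset.mul_sum, T5a_term h hθ hc u u1 j]
    split_ifs
    · have h3 : (((D.sgn u : ℤˣ) : ℤ) : AA n) * (((D.sgn u : ℤˣ) : ℤ) : AA n) = 1 := by
        rw [← Int.cast_mul, ← Units.val_mul, Int.units_mul_self, Units.val_one, Int.cast_one]
      linear_combination (C c0 * D.PI * (u1 • E) j) * h3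
    · rw [mul_zero]
  rw [Finset.sum_congr rfl fun u _ => h2 u, ← Finset.sum_filter, Finset.sum_const,
    card_coset, nsmul_eq_mul, map_mul, map_natCast]
  ring

/-- `P S = S P`.  Port of MTX/T5 `P_sx`: both `(u H) S` and `S (u H)` are (after multiplication by `u θ`)
`(u PI0) (u θ) (u E) (u E')ᵀ` (`Eig.smul`, `EigL.smul`, `V.S_W`; the `ζ` terms vanish). -/
theorem PD.comm (h : PD V θ E E' ζ ζ' H P) : P * V.S = V.S * P := by
  classical
  -- the relation, moved by `u`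
  have hu : ∀ (u : D.W) (j k : V.I), fm0 (u.1 θ.1) * (u • H j k) = (u • D.PI0 θ.1) *
      ((u • E) j * (u • E') k - (u • ζ) j * (u • ζ') k) := by
    intro u j k
    have h1 := congrArg (fun p : AA n => u • p) (h.hH j k)
    simp only [smul_mul', smul_sub] at h1
    rw [D.smul_fm0] at h1
    exact h1
  have key : ∀ (u : D.W) (j k : V.I), ∑ l, (u • H j l) * V.S l k = ∑ l, V.S j l * (u • H l k) := by
    intro u j k
    have hne : (fm0 (u.1 θ.1) : AA n) ≠ 0 := fm0_ne_zero (D.Rt_ne (u • θ))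
    have e1 : (u • E) ∈ {v : V.I → AA n | Eig V.S (u.1 θ.1) v} := h.qq.ee.eig.smul V.S_W u
    have e2 : EigL V.S (u.1 θ.1) (u • E') := h.qq.ee.eig'.smul V.S_W u
    have e3 : Eig V.S 0 (u • ζ) := by
      have := h.qq.eig.smul V.S_W u
      rw [map_zero] at this
      exact this
    have e4 : EigL V.S 0 (u • ζ') := by
      have := h.qq.eig'.smul V.S_W u
      rw [map_zero] at this
      exact this
    have f1 : ∑ l, V.S j l * (u • E) l = fm0 (u.1 θ.1) * (u • E) j := congrFun e1 j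
    have f2 : ∑ l, (u • E') l * V.S l k = fm0 (u.1 θ.1) * (u • E') k := congrFun e2 k
    have f3 : ∑ l, V.S j l * (u • ζ) l = 0 := by
      have := congrFun e3 j
      rw [fm0_zero, zero_smul] at this
      exact this
    have f4 : ∑ l, (u • ζ') l * V.S l k = 0 := by
      have := congrFun e4 k
      rw [fm0_zero, zero_smul] at this
      exact this
    apply mul_left_cancel₀ hne
    rw [Finset.mul_sum, Finset.mul_sum]
    have g1 : ∑ l, fm0 (u.1 θ.1) * ((u • H j l) * V.S l k) =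
        (u • D.PI0 θ.1) * ((u • E) j * (fm0 (u.1 θ.1) * (u • E') k)) := by
      calc ∑ l, fm0 (u.1 θ.1) * ((u • H j l) * V.S l k)
          = ∑ l, (u • D.PI0 θ.1) * ((u • E) j * ((u • E') l * V.S l k) -
              (u • ζ) j * ((u • ζ') l * V.S l k)) := by
            refine Finset.sum_congr rfl fun l _ => ?_
            rw [← mul_assoc, hu]
            ring
        _ = (u • D.PI0 θ.1) * ((u • E) j * (∑ l, (u • E') l * V.S l k) -
              (u • ζ) j * (∑ l, (u • ζ') l * V.S l k)) := by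
            rw [← Finset.mul_sum, Finset.sum_sub_distrib, ← Finset.mul_sum, ← Finset.mul_sum]
        _ = _ := by rw [f2, f4, mul_zero, sub_zero]
    have g2 : ∑ l, fm0 (u.1 θ.1) * (V.S j l * (u • H l k)) =
        (u • D.PI0 θ.1) * ((fm0 (u.1 θ.1) * (u • E) j) * (u • E') k) := by
      calc ∑ l, fm0 (u.1 θ.1) * (V.S j l * (u • H l k))
          = ∑ l, (u • D.PI0 θ.1) * ((V.S j l * (u • E) l) * (u • E') k -
              (V.S j l * (u • ζ) l) * (u • ζ') k) := by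
            refine Finset.sum_congr rfl fun l _ => ?_
            rw [mul_left_comm, hu]
            ring
        _ = (u • D.PI0 θ.1) * ((∑ l, V.S j l * (u • E) l) * (u • E') k -
              (∑ l, V.S j l * (u • ζ) l) * (u • ζ') k) := by
            rw [← Finset.mul_sum, Finset.sum_sub_distrib, ← Finset.sum_mul, ← Finset.sum_mul]
        _ = _ := by rw [f1, f3, zero_mul, sub_zero]
    rw [g1, g2]
    ring
  refine Matrix.ext fun j k => ?_
  apply mul_left_cancel₀ D.PI_ne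
  have e1 : D.PI * (P * V.S) j k =
      ∑ u : D.W, (((D.sgn u : ℤˣ) : ℤ) : AA n) * ∑ l, (u • H j l) * V.S l k := by
    rw [Matrix.mul_apply, Finset.mul_sum]
    have e : ∀ l, D.PI * (P j l * V.S l k) =
        ∑ u : D.W, (((D.sgn u : ℤˣ) : ℤ) : AA n) * ((u • H j l) * V.S l k) := by
      intro l
      rw [← mul_assoc, h.hP, Finset.sum_mul]
      exact Finset.sum_congr rfl fun u _ => by ring
    rw [Finset.sum_congr rfl fun l _ => e l, Finset.sum_comm]
    exact Finset.sum_congr rfl fun u _ => by rw [Finset.mul_sum]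
  have e2 : D.PI * (V.S * P) j k =
      ∑ u : D.W, (((D.sgn u : ℤˣ) : ℤ) : AA n) * ∑ l, V.S j l * (u • H l k) := by
    rw [Matrix.mul_apply, Finset.mul_sum]
    have e : ∀ l, D.PI * (V.S j l * P l k) =
        ∑ u : D.W, (((D.sgn u : ℤˣ) : ℤ) : AA n) * (V.S j l * (u • H l k)) := by
      intro l
      rw [mul_left_comm, h.hP, Finset.mul_sum]
      exact Finset.sum_congr rfl fun u _ => by ring
    rw [Finset.sum_congr rfl fun l _ => e l, Finset.sum_comm]
    exact Finset.sum_congr rfl fun u _ => by rw [Finset.mul_sum]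
  rw [e1, e2]
  exact Finset.sum_congr rfl fun u _ => by rw [key]

/-- A matrix killing all `u E` kills the image of `S`: `V.decomp`: `d v = ∑ y_m`, `m = 0` or `m = u θ`
(`PcQ.wts`), `S y_0 = 0`, `S y_m = m y_m`, `y_m = x • (u E)` (`EE.uniqW`); so `δ (S (d v)) = 0`; cancel `d`. -/
theorem PcQ.kill (h : PcQ V θ) (ee : EE V θ.1 E E') {δ : Matrix V.I V.I (AA n)}
    (hδ : ∀ u : D.W, δ.mulVec (u • E) = 0) : δ * V.S = 0 := by
  classical
  obtain ⟨d, hd, hdec⟩ := V.decomp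
  have key : ∀ v : V.I → AA n, δ.mulVec (V.S.mulVec v) = 0 := by
    intro v
    obtain ⟨y, hy, hsum⟩ := hdec v
    have h1 : d • δ.mulVec (V.S.mulVec v) = 0 := by
      rw [← Matrix.mulVec_smul, ← Matrix.mulVec_smul, hsum]
      have h2 : V.S.mulVec (∑ m ∈ Finset.univ.image V.wt, y m) =
          ∑ m ∈ Finset.univ.image V.wt, V.S.mulVec (y m) :=
        map_sum (Matrix.mulVecLin V.S) _ _
      have h3 : ∀ f : (Fin n → ℤ) → V.I → AA n,
          δ.mulVec (∑ m ∈ Finset.univ.image V.wt, f m) =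
          ∑ m ∈ Finset.univ.image V.wt, δ.mulVec (f m) := fun f =>
        map_sum (Matrix.mulVecLin δ) _ _
      rw [h2, h3]
      refine Finset.sum_eq_zero fun m hm => ?_
      obtain ⟨a, _, ha⟩ := Finset.mem_image.1 hm
      have h4 : V.S.mulVec (y m) = (fm0 m : AA n) • y m := hy m
      rw [h4, Matrix.mulVec_smul]
      rcases h.wts a with h0 | ⟨u, hu⟩
      · rw [← ha, h0, fm0_zero, zero_smul]
      · obtain ⟨x, hx⟩ := ee.uniqW u (y := y m) (by rw [← hu, ha]; exact hy m)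
        rw [hx, Matrix.mulVec_smul, hδ, smul_zero, smul_zero]
    funext a
    have h2 := congrFun h1 a
    have h3 : d * δ.mulVec (V.S.mulVec v) a = 0 := h2
    exact (mul_eq_zero.1 h3).resolve_left hd
  refine Matrix.ext fun a b => ?_
  have h1 := congrFun (key (Pi.single b 1)) a
  rw [Matrix.mulVec_mulVec, Matrix.mulVec_single_one] at h1
  exact h1

/-- `P` is homogeneous of degree `0`.  Port of MTX/T5 `HZ_P`: `H j k` has degree
`(ht2 θ - ht2 j) + (ht2 θ + ht2 k) + deg PI0 - 2`, and `deg PI0 + 2 ht2 θ - 2 = deg PI` (`PI_qmn`, `EE.hd_Eu`);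
`HD.smul`, `HD.sum`, `HD.of_mul`. -/
theorem PD.hd (h : PD V θ E E' ζ ζ' H P) (hθ : D.QMn θ) (j k : V.I) :
    HD (D.ht2 (V.wt k) - D.ht2 (V.wt j)) (P j k) := by
  classical
  have hv1 := h.qq.ee.hv
  have hv2 := h.qq.ee.hv'
  have hv3 := h.qq.hv
  have hv4 := h.qq.hv'
  obtain ⟨d0, hd0⟩ : ∃ d0 : ℤ, HD d0 (D.PI0 θ.1) := by
    refine ⟨_, HD.prod _ (fun γ : D.PRt => if D.cp γ.1 θ.1 = 0 then 2 else 0) _ fun γ _ => ?_⟩
    by_cases hγ : D.cp γ.1 θ.1 = 0
    · rw [if_pos hγ, if_pos hγ]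
      exact HD_fm0 _
    · rw [if_neg hγ, if_neg hγ]
      have h2 := HD.C (n := n) 1
      rw [map_one] at h2
      exact h2
  obtain ⟨d1, hd1⟩ : ∃ d1 : ℤ, HD d1 D.PI :=
    ⟨_, HD.prod _ (fun γ : D.PRt => 2) _ fun γ _ => HD_fm0 _⟩
  have hdeg : 2 + d1 = d0 + 2 * D.ht2 θ.1 := by
    by_contra hne
    have h1 : HD (2 + d1) (fm0 θ.1 * D.PI) := (HD_fm0 θ.1).mul hd1
    have h2 : HD (d0 + 2 * D.ht2 θ.1) (fm0 θ.1 * D.PI) := by
      rw [PI_qmn hθ]
      exact hd0.mul (EE.hd_Eu hθ.1)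
    exact mul_ne_zero (fm0_ne_zero (D.Rt_ne θ)) D.PI_ne (HD.eq_zero_of_ne hne h1 h2)
  have h1 : HD (d0 + ((D.ht2 θ.1 - D.ht2 (V.wt j)) + (D.ht2 θ.1 + D.ht2 (V.wt k))))
      (fm0 θ.1 * H j k) := by
    rw [h.hH j k]
    exact hd0.mul (((hv1 j).mul (hv2 k)).sub ((hv3 j).mul (hv4 k)))
  have h2 := HD.of_mul (fm0_ne_zero (D.Rt_ne θ)) (HD_fm0 _) h1
  have h3 : HD (d0 + ((D.ht2 θ.1 - D.ht2 (V.wt j)) + (D.ht2 θ.1 + D.ht2 (V.wt k))) - 2)
      (D.PI * P j k) := by
    rw [h.hP j k]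
    refine HD.sum _ _ fun u _ => ?_
    have h4 : (((D.sgn u : ℤˣ) : ℤ) : AA n) = MvPolynomial.C (((D.sgn u : ℤˣ) : ℤ) : ℂ) := by
      simp
    rw [h4]
    exact ((HD.C _).mul (h2.smul u)).cast (by ring)
  exact (HD.of_mul D.PI_ne hd1 h3).cast (by linarith)

/-- A homogeneous vector of negative degree killed by `S` is zero.  Port of MTX/T5 `ker_sx`: `w a ≠ 0` implies
`ht2 a ≤ d < 0` (`HD.eq_zero`); let `k` be the largest height with `w a ≠ 0` for some `a` of height `k`; for `a` of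
height `k + 2`: `0 = (S w) a = ∑_b C (e a b) w b` over `b` of height `k` (`S_hd`, `HD.eq_zero`, `S_e`); take coefficients
and use `e_inj`. -/
theorem PcQ.ker (h : PcQ V θ) {d : ℤ} (hd : d < 0) {w : V.I → AA n} (hw : V.HV d w)
    (h0 : V.S.mulVec w = 0) : w = 0 := by
  classical
  by_contra hne
  have hex : ∃ i, w i ≠ 0 := by
    by_contra hno
    push Not at hno
    exact hne (funext hno)
  obtain ⟨i1, hi1⟩ := hex
  obtain ⟨i0, hi0, hmax⟩ := Finset.exists_max_image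
    (Finset.univ.filter fun i : V.I => w i ≠ 0) (fun i => D.ht2 (V.wt i))
    ⟨i1, by simpa using hi1⟩
  rw [Finset.mem_filter] at hi0
  have hmax' : ∀ j, w j ≠ 0 → D.ht2 (V.wt j) ≤ D.ht2 (V.wt i0) := fun j hj =>
    hmax j (by simpa using hj)
  have hneg : D.ht2 (V.wt i0) ≤ 0 := by
    by_contra hge
    exact hi0.2 (HD.eq_zero (by omega) (hw i0))
  let v : V.I → AA n := fun i => if D.ht2 (V.wt i) = D.ht2 (V.wt i0) then w i else 0
  have hv0 : ∀ i, ∑ j, C (V.e i j) * v j = 0 := by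
    intro i
    by_cases him : D.ht2 (V.wt i) = D.ht2 (V.wt i0) + 2
    · have h1 : ∑ j, V.S i j * w j = 0 := congrFun h0 i
      refine Eq.trans ?_ h1
      refine Finset.sum_congr rfl fun j _ => ?_
      show C (V.e i j) * (if D.ht2 (V.wt j) = D.ht2 (V.wt i0) then w j else 0) = _
      by_cases hj : D.ht2 (V.wt j) = D.ht2 (V.wt i0)
      · rw [if_pos hj, V.S_e i j (by omega)]
      · rw [if_neg hj, mul_zero]
        by_cases hwj : w j = 0
        · rw [hwj, mul_zero]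
        · have h2 := hmax' j hwj
          have h3 : D.ht2 (V.wt j) < D.ht2 (V.wt i0) := lt_of_le_of_ne h2 hj
          rw [HD.eq_zero (by omega) (V.S_hd i j), zero_mul]
    · refine Finset.sum_eq_zero fun j _ => ?_
      show C (V.e i j) * (if D.ht2 (V.wt j) = D.ht2 (V.wt i0) then w j else 0) = 0
      by_cases hj : D.ht2 (V.wt j) = D.ht2 (V.wt i0)
      · have h3 : V.e i j = 0 := by
          by_contra hc
          have := V.e_ht hc
          omega
        rw [h3, C_0, zero_mul]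
      · rw [if_neg hj, mul_zero]
  have key : ∀ m : Fin n →₀ ℕ, (fun i => coeff m (v i)) = 0 := by
    intro m
    refine h.e_inj (D.ht2 (V.wt i0)) hneg _ (fun a ha => ?_) ?_
    · by_contra hc
      apply ha
      show coeff m (if D.ht2 (V.wt a) = D.ht2 (V.wt i0) then w a else 0) = 0
      rw [if_neg hc, coeff_zero]
    · funext i
      show ∑ j, V.e i j * coeff m (v j) = 0
      have h1 := congrArg (coeff m) (hv0 i)
      rw [coeff_sum, coeff_zero] at h1
      rw [← h1]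
      exact Finset.sum_congr rfl fun j _ => by rw [coeff_C_mul]
  apply hi0.2
  refine MvPolynomial.ext _ _ fun m => ?_
  have h1 := congrFun (key m) i0
  have h2 : coeff m (if D.ht2 (V.wt i0) = D.ht2 (V.wt i0) then w i0 else 0) = 0 := h1
  rw [if_pos rfl] at h2
  rw [h2, coeff_zero]

/-- (8.4).  `δ = P - c1` satisfies `δ S = 0` (`PcQ.kill`, `P_E`) and `S δ = 0` (`comm`).  Claim: column `k` of `δ` is zero,
by strong induction on the height of `k`.  It is homogeneous of degree `ht2 k` (`hd`) and killed by `S`, so it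
vanishes if `ht2 k < 0` (`PcQ.ker`).  If `ht2 k ≥ 0`, let `v = r e_k` (`e_surj`), constant, supported in height
`ht2 k - 2`, `e v = e_k`; `S v = e_k + (a combination of e_j, j lower)` (`S_hd`, `S_e`, `HD.eq_zero`), so
`0 = δ (S v) = δ e_k + 0`. -/
theorem PD.P_eq (h : PD V θ E E' ζ ζ' H P) (hq : PcQ V θ) :
    ∃ c1 : ℂ, c1 ≠ 0 ∧ P = (C c1 : AA n) • (1 : Matrix V.I V.I (AA n)) := by
  obtain ⟨c1, hc1, hc⟩ := h.P_E hq.qmn
  refine ⟨c1, hc1, ?_⟩
  have hPs := h.comm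
  obtain ⟨δ, hδ⟩ : ∃ δ : Matrix V.I V.I (AA n),
      δ = P - (C c1 : AA n) • (1 : Matrix V.I V.I (AA n)) := ⟨_, rfl⟩
  have hδs : δ * V.S = 0 := hq.kill h.qq.ee (fun u => by
    rw [hδ, Matrix.sub_mulVec, hc, Matrix.smul_mulVec, Matrix.one_mulVec, sub_self])
  have hsx : V.S * δ = 0 := by
    have h1 : V.S * δ = δ * V.S := by
      rw [hδ, sub_mul, mul_sub, hPs, smul_mul_assoc, mul_smul_comm, one_mul, mul_one]
    rw [h1, hδs]
  have hHD : ∀ j k, HD (D.ht2 (V.wt k) - D.ht2 (V.wt j)) (δ j k) := by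
    intro j k
    rw [hδ, Matrix.sub_apply, Matrix.smul_apply]
    refine (h.hd hq.qmn j k).sub ?_
    by_cases hjk : j = k
    · rw [hjk, Matrix.one_apply_eq, smul_eq_mul, mul_one, sub_self]
      exact HD.C c1
    · rw [Matrix.one_apply_ne hjk, smul_zero]
      exact HD.zero _
  obtain ⟨r, hr1, hr2⟩ := hq.e_surj
  have key : ∀ k, ∀ j, δ j k = 0 := by
    have hwf : WellFounded (fun a b : V.I => D.ht2 (V.wt a) < D.ht2 (V.wt b)) :=
      @Finite.wellFounded_of_trans_of_irrefl V.I _ (fun a b => D.ht2 (V.wt a) < D.ht2 (V.wt b))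
        ⟨fun a b c h1 h2 => lt_trans h1 h2⟩ ⟨fun a => lt_irrefl _⟩
    intro k
    induction k using hwf.induction with
    | _ k ih =>
      by_cases hk : D.ht2 (V.wt k) < 0
      · have h0 : (fun j => δ j k) = 0 := by
          apply hq.ker hk (fun j => hHD j k)
          funext i
          have h1 := congrFun (congrFun hsx i) k
          rw [Matrix.mul_apply] at h1
          exact h1
        intro j
        exact congrFun h0 j
      · have hk' : 0 ≤ D.ht2 (V.wt k) := not_lt.1 hk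
        obtain ⟨w, hw⟩ : ∃ w : V.I → AA n, w = fun i => C (r i k) := ⟨_, rfl⟩
        have hwi : ∀ i, w i = C (r i k) := by
          intro i
          rw [hw]
        have hew : (V.e.map C).mulVec w = Pi.single k 1 := by
          have h2 := hr2 (Pi.single k 1) (fun i hi => by
            by_cases hik : i = k
            · rw [hik]
              exact hk'
            · exact absurd (Pi.single_eq_of_ne hik 1) hi)
          rw [Matrix.mulVec_single_one] at h2
          funext i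
          have h3 : ∑ j, V.e i j * r j k = (Pi.single k 1 : V.I → ℂ) i := congrFun h2 i
          show ∑ j, (V.e.map C) i j * w j = _
          have h4 : ∀ j, (V.e.map C) i j * w j = (C (V.e i j * r j k) : AA n) := by
            intro j
            rw [hwi, Matrix.map_apply, C_mul]
          simp only [h4]
          rw [← map_sum, h3]
          by_cases hik : i = k
          · rw [hik, Pi.single_eq_same, Pi.single_eq_same, C_1]
          · rw [Pi.single_eq_of_ne hik, Pi.single_eq_of_ne hik, C_0]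
        have hwg : ∀ i, w i ≠ 0 → D.ht2 (V.wt i) = D.ht2 (V.wt k) - 2 := by
          intro i hi
          apply hr1 i k
          intro h0
          apply hi
          rw [hwi, h0, C_0]
        have hv : ∀ i, (V.S.mulVec w - (V.e.map C).mulVec w) i ≠ 0 →
            D.ht2 (V.wt i) < D.ht2 (V.wt k) := by
          intro i hi
          by_contra hge
          apply hi
          have hge' : D.ht2 (V.wt k) ≤ D.ht2 (V.wt i) := not_lt.1 hge
          rw [Pi.sub_apply]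
          show ∑ j, V.S i j * w j - ∑ j, (V.e.map C) i j * w j = 0
          rw [← Finset.sum_sub_distrib]
          refine Finset.sum_eq_zero fun j _ => ?_
          rw [← sub_mul, Matrix.map_apply]
          by_cases hwj : w j = 0
          · rw [hwj, mul_zero]
          · have hj := hwg j hwj
            rcases hge'.lt_or_eq with hlt | heq
            · have h1 : V.S i j = 0 := (V.S_hd i j).eq_zero (by omega)
              have h2 : V.e i j = 0 := by
                by_contra h3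
                have := V.e_ht h3
                omega
              rw [h1, h2, C_0, sub_zero, zero_mul]
            · rw [V.S_e i j (by omega), sub_self, zero_mul]
        have hδv : δ.mulVec (V.S.mulVec w - (V.e.map C).mulVec w) = 0 := by
          funext i
          show ∑ j, δ i j * (V.S.mulVec w - (V.e.map C).mulVec w) j = 0
          refine Finset.sum_eq_zero fun j _ => ?_
          by_cases hj : (V.S.mulVec w - (V.e.map C).mulVec w) j = 0
          · rw [hj, mul_zero]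
          · rw [ih j (hv j hj) i, zero_mul]
        have hδsw : δ.mulVec (V.S.mulVec w) = 0 := by
          rw [Matrix.mulVec_mulVec, hδs, Matrix.zero_mulVec]
        rw [Matrix.mulVec_sub, hδsw, zero_sub, hew, neg_eq_zero] at hδv
        intro j
        have h1 := congrFun hδv j
        rw [Matrix.mulVec_single_one] at h1
        exact h1
  have h0 : δ = 0 := by
    ext1 j k
    exact key k j
  rw [hδ, sub_eq_zero] at h0
  exact h0

/-- the affine simple root `(-θ, 1)`.  It is positive; for `c = (γ, k) > 0` different from it,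
`s c = (s_θ γ, k + cp γ (-θ).. )`: with `aref (ng θ, 1) = ⟨θ, rW θ⟩`, `s c = (s_θ γ, k - cp (s_θ γ) θ) =
(s_θ γ, k + cp γ θ)`.  Cases: `γ = θ`: `(-θ, k + 2)`, `k ≥ 0`, positive.  `γ = ng θ`: `(θ, k - 2)` with `k ≥ 1`, and
`k ≠ 1`, so `k ≥ 2`: positive (`θ` positive).  Otherwise `|cp γ θ| ≤ 1` (`QMn`): if `k + cp γ θ ≥ 1` fine; if it is
`0`: either `k = 1`, `cp γ θ = -1`: `s_θ γ = γ + (cp θ γ ≤ -1..)` and `cp (s_θ γ) θ = 1 > 0`, so `s_θ γ` is not
negative (dominance); or `k = 0`, `cp γ θ = 0`, `γ > 0`: `s_θ γ = γ` (`cp θ γ = 0` by `cp_comm`); `k = 0`,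
`cp γ θ = -1`, `γ > 0` contradicts dominance. -/
theorem asim_theta (hθ : D.QMn θ) : D.ASim (D.ng θ, 1) := by
  have hθp : D.Pos θ := by
    rcases D.pos_or_neg θ with h1 | h1
    · exact h1
    · have h2 := hθ.1 _ h1
      rw [D.cp_ng, D.cp_self] at h2
      omega
  have hθn : ¬ D.Pos (D.ng θ) := D.not_pos_ng hθp
  have h1 : D.apos (D.ng θ, 1) := Or.inl one_pos
  refine ⟨h1, fun c hc hcb => ?_⟩
  obtain ⟨γ, k⟩ := c
  -- the reflected root
  have e1 : (D.aref (D.ng θ, 1) • ((γ, k) : D.ARt)).1 = D.rW θ • γ := by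
    rw [D.smul_fst]
    show D.rW (D.ng θ) • γ = _
    rw [D.rW_ng]
  have e2 : (D.aref (D.ng θ, 1) • ((γ, k) : D.ARt)).2 = k + D.cp γ θ.1 := by
    rw [D.smul_snd]
    show k - D.cp (D.rW (D.ng θ) • γ) (-((1 : ℤ) • (D.ng θ).1)) = _
    rw [D.rW_ng, one_smul, D.ng_val, neg_neg, D.cp_smul', D.rW_inv, D.rW_apply, D.rf_self,
      D.cp_neg, sub_neg_eq_add]
  show 0 < (D.aref (D.ng θ, 1) • ((γ, k) : D.ARt)).2 ∨
    ((D.aref (D.ng θ, 1) • ((γ, k) : D.ARt)).2 = 0 ∧
      D.Pos (D.aref (D.ng θ, 1) • ((γ, k) : D.ARt)).1)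
  rw [e1, e2]
  have hc' : 0 < k ∨ (k = 0 ∧ D.Pos γ) := hc
  by_cases hγ : γ = θ
  · rw [hγ, D.cp_self]
    left
    rcases hc' with h2 | ⟨h2, -⟩ <;> omega
  · by_cases hγ' : γ = D.ng θ
    · have h2 : D.cp γ θ.1 = -2 := by
        rw [hγ', D.cp_ng, D.cp_self]
      have h3 : 0 < k := by
        rcases hc' with h3 | ⟨-, h3⟩
        · exact h3
        · rw [hγ'] at h3
          exact absurd h3 hθn
      have h4 : k ≠ 1 := fun h5 => hcb (by rw [hγ', h5])
      rw [h2]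
      by_cases h5 : k = 2
      · right
        refine ⟨by omega, ?_⟩
        rw [hγ', D.smul_ng, D.rW_self, D.ng_ng]
        exact hθp
      · left
        omega
    · have h2 := hθ.2 γ hγ hγ'
      rw [abs_le] at h2
      rcases hc' with h3 | ⟨h3, h4⟩
      · by_cases h5 : k + D.cp γ θ.1 = 0
        · right
          refine ⟨h5, ?_⟩
          rcases D.pos_or_neg (D.rW θ • γ) with h6 | h6
          · exact h6
          · have h7 := hθ.1 _ h6
            rw [D.cp_ng, D.cp_smul', D.rW_inv, D.rW_apply, D.rf_self, D.cp_neg] at h7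
            omega
        · left
          omega
      · have h5 := hθ.1 _ h4
        by_cases h6 : D.cp γ θ.1 = 0
        · right
          refine ⟨by omega, ?_⟩
          have h7 : D.cp θ γ.1 = 0 := by
            have h8 := D.cp_comm γ θ
            rw [h6, zero_mul] at h8
            rcases mul_eq_zero.1 h8.symm with h9 | h9
            · exact h9
            · exact absurd h9 (D.cf_pos θ).ne'
          have h8 : D.rW θ • γ = γ := by
            apply Subtype.ext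
            rw [D.smul_val, D.rW_apply]
            show γ.1 - D.cp θ γ.1 • θ.1 = γ.1
            rw [h7, zero_smul, sub_zero]
          rw [h8]
          exact h4
        · left
          omega

/-- the letter `s_0` of `θ` -/
noncomputable def s0 (hθ : D.QMn θ) : D.SA := ⟨(D.ng θ, 1), asim_theta hθ⟩

/-- the function `(p, 0) ↦ lab p • h0`, `(p, 1) ↦ lab p • h1` -/
noncomputable def el (hθ : D.QMn θ) (k : List D.SA) (h0 h1 : AA n) :
    (D.sw0.BS (s0 hθ :: k)).J → AA n :=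
  fun q => (D.sw0.BS k).lab q.1 • (if q.2 then h1 else h0)

/-- the difference of the two components of `el` -/
theorem T5e_diff (hθ : D.QMn θ) (k : List D.SA) {h0 h1 g : AA n}
    (h : fm0 θ.1 * g = h1 - h0) (p : (D.sw0.BS k).J) :
    (D.sw0.BS k).lab p • h0 - (D.sw0.BS k).lab p • h1 =
      ((D.sw0.BS k).lab p • D.sw0.f (s0 hθ)) * ((D.sw0.BS k).lab p • g) := by
  have hf : D.sw0.f (s0 hθ) = - fm0 θ.1 := fm0_neg θ.1
  have h2 : h0 - h1 = D.sw0.f (s0 hθ) * g := by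
    rw [hf]
    linear_combination h
  rw [← smul_sub, ← smul_mul', h2]

/-- `p ↦ lab p • g` is in the lattice -/
theorem T5e_mem (k : List D.SA) (g : AA n) :
    (fun p => (D.sw0.BS k).lab p • g) ∈ (D.sw0.BS k).M := by
  have h1 := ry_BS D.sw0 k g 1 (ring_BS D.sw0 k).one
  have h2 : (D.sw0.BS k).ry g 1 = fun p => (D.sw0.BS k).lab p • g := by
    funext p
    exact mul_one _
  rwa [h2] at h1

/-- Port of MTX/T6 `el_mem` (`f s_0 = fm0 (-θ)`). -/
theorem el_mem (hθ : D.QMn θ) (k : List D.SA) {h0 h1 g : AA n} (h : fm0 θ.1 * g = h1 - h0) :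
    el hθ k h0 h1 ∈ (D.sw0.BS (s0 hθ :: k)).M := by
  exact Lat.mem_star.2 ⟨T5e_mem k h0, fun p => (D.sw0.BS k).lab p • g, T5e_mem k g,
    fun p => T5e_diff hθ k h p⟩

/-- Port of MTX/T6 `Tr_el`. -/
theorem Tr_el (hθ : D.QMn θ) (k : List D.SA) {h0 h1 g : AA n} (h : fm0 θ.1 * g = h1 - h0)
    (hg : (D.sw0.BS k).ry g 1 ∈ (D.sw0.BS k).M) :
    D.sw0.Tr (s0 hθ :: k) ⟨el hθ k h0 h1, el_mem hθ k h⟩ = D.sw0.Tr k ⟨(D.sw0.BS k).ry g 1, hg⟩ := by
  have key : trM (D.sw0.g (s0 hθ)) (D.sw0.BS k) (D.sw0.f_ne (s0 hθ))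
      ⟨el hθ k h0 h1, el_mem hθ k h⟩ = ⟨(D.sw0.BS k).ry g 1, hg⟩ := by
    apply Subtype.ext
    apply trM_unique
    intro p
    have h2 : (D.sw0.BS k).ry g 1 p = (D.sw0.BS k).lab p • g := mul_one _
    exact (T5e_diff hθ k h p).trans
      (congrArg (fun z => ((D.sw0.BS k).lab p • D.sw0.f (s0 hθ)) * z) h2.symm)
  have h3 : D.sw0.Tr (s0 hθ :: k) ⟨el hθ k h0 h1, el_mem hθ k h⟩ =
      D.sw0.Tr k (trM (D.sw0.g (s0 hθ)) (D.sw0.BS k) (D.sw0.f_ne (s0 hθ))
        ⟨el hθ k h0 h1, el_mem hθ k h⟩) := rfl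
  rw [h3, key]

/-- `c • Tr` : from the formula for the total trace -/
theorem t5f_C (k : List D.SRt) (hk : ∀ (f : AA n)
    (hf : (D.sw0.BS (k.map D.sa)).ry f 1 ∈ (D.sw0.BS (k.map D.sa)).M),
      D.PI * D.sw0.Tr (k.map D.sa) ⟨(D.sw0.BS (k.map D.sa)).ry f 1, hf⟩ =
        ∑ u : D.W, (((D.sgn u : ℤˣ) : ℤ) : AA n) * (u • f)) (c : ℂ) (f : AA n)
    (hf : (D.sw0.BS (k.map D.sa)).ry f 1 ∈ (D.sw0.BS (k.map D.sa)).M)
    (hf' : (D.sw0.BS (k.map D.sa)).ry (C c * f) 1 ∈ (D.sw0.BS (k.map D.sa)).M) :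
    D.sw0.Tr (k.map D.sa) ⟨(D.sw0.BS (k.map D.sa)).ry (C c * f) 1, hf'⟩ =
      C c * D.sw0.Tr (k.map D.sa) ⟨(D.sw0.BS (k.map D.sa)).ry f 1, hf⟩ := by
  apply mul_left_cancel₀ D.PI_ne
  rw [hk, mul_left_comm, hk, Finset.mul_sum]
  refine Finset.sum_congr rfl fun u _ => ?_
  rw [smul_mul', D.smul_C]
  ring

/-- the labels of the letter `s_0` -/
theorem t5f_lab (hθ : D.QMn θ) (k : List D.SA) (p : (D.sw0.BS k).J)
    (h0 : ((D.sw0.BS k).lab p).l = 0) :
    ((D.sw0.BS (s0 hθ :: k)).lab (p, true)).l = ((D.sw0.BS k).lab p).u.1 θ.1 := by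
  have h1 : (D.sw0.BS (s0 hθ :: k)).lab (p, true) = (D.sw0.BS k).lab p * D.aref (D.ng θ, 1) := rfl
  have h2 : (D.aref (D.ng θ, 1)).l = θ.1 := by
    show -((1 : ℤ) • (-θ.1)) = θ.1
    rw [one_smul, neg_neg]
  rw [h1, D.mul_l, h0, h2, zero_add]

theorem t5f_one (x : D.Aff) : (x * (1 : D.Om).1).l = x.l := by
  have h1 : x * (1 : D.Om).1 = x := mul_one x
  rw [h1]

/-- The quasi-minuscule pieces are retracts.  Port of MTX/T6 `exists_retr`: `PcQ.exists_QQ`, `exists_H`, `k` from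
`exists_sgk`, `R = Unit`, `ω = 1`, `j = s0 :: k.map D.sa`, `io a = el (ζ a) (E a)`, `pi b = C c1⁻¹ • el (PI0 ζ' b) (PI0 E' b)`,
`P a b = Tr (ry (H a b) 1)`: then `Tr (io a * el (PI0 ζ' b) (PI0 E' b)) = P a b` (`Tr_el`: `θ H = PI0 (E E' - ζ ζ')`), and
`P = c1` by `PD.P_eq`.  Weights: `(lab (p,false)).l = 0`, `(lab (p,true)).l = u θ` where `lab p = emb u` (`lab_l_sa`);
`Eig.smul`, `EigL.smul`. -/
theorem PcQ.rf (h : PcQ V θ) : Nonempty (RF D V.S) := by
  classical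
  obtain ⟨E, E', ζ, ζ', hQ⟩ := h.exists_QQ
  obtain ⟨H, hH⟩ := exists_H hQ
  obtain ⟨k, hk⟩ := D.exists_sgk
  have hθ : D.QMn θ := h.qmn
  have hry : ∀ f : AA n, (D.sw0.BS (k.map D.sa)).ry f 1 ∈ (D.sw0.BS (k.map D.sa)).M := fun f =>
    ry_BS D.sw0 (k.map D.sa) f 1 (ring_BS D.sw0 (k.map D.sa)).one
  have hPD : PD V θ E E' ζ ζ' H (fun a b => D.sw0.Tr (k.map D.sa)
      ⟨(D.sw0.BS (k.map D.sa)).ry (H a b) 1, hry _⟩) :=
    { qq := hQ
      hH := hH
      hP := fun a b => hk (H a b) (hry _) }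
  obtain ⟨c1, hc1, hP⟩ := hPD.P_eq h
  have hdE : ∀ a, ∃ g, fm0 θ.1 * g = E a - ζ a := by
    intro a
    obtain ⟨g, hg⟩ := hQ.dvd a
    exact ⟨-g, by rw [mul_neg, ← hg]; ring⟩
  have hdE' : ∀ b, ∃ g, fm0 θ.1 * g =
      C c1⁻¹ * (D.PI0 θ.1 * E' b) - C c1⁻¹ * (D.PI0 θ.1 * ζ' b) := by
    intro b
    obtain ⟨g, hg⟩ := hQ.dvd' b
    exact ⟨-(C c1⁻¹ * (D.PI0 θ.1 * g)), by
      have h1 : fm0 θ.1 * -(C c1⁻¹ * (D.PI0 θ.1 * g)) = -(C c1⁻¹ * (D.PI0 θ.1 * (fm0 θ.1 * g))) := by ring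
      rw [h1, ← hg]; ring⟩
  choose gE hgE using hdE
  choose gK hgK using hdE'
  have hcomp : ∀ a b, fm0 θ.1 * (C c1⁻¹ * H a b) =
      E a * (C c1⁻¹ * (D.PI0 θ.1 * E' b)) - ζ a * (C c1⁻¹ * (D.PI0 θ.1 * ζ' b)) := by
    intro a b
    have h1 : fm0 θ.1 * (C c1⁻¹ * H a b) = C c1⁻¹ * (fm0 θ.1 * H a b) := by ring
    rw [h1, hH a b]
    ring
  have hlab : ∀ p, ((D.sw0.BS (k.map D.sa)).lab p).l = 0 := D.lab_l_sa k
  refine ⟨{
    R := Unit
    j := fun _ => s0 hθ :: k.map D.sa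
    ω := fun _ => 1
    io := fun _ a => ⟨el hθ (k.map D.sa) (ζ a) (E a), el_mem hθ (k.map D.sa) (hgE a)⟩
    pi := fun _ b => ⟨el hθ (k.map D.sa) (C c1⁻¹ * (D.PI0 θ.1 * ζ' b)) (C c1⁻¹ * (D.PI0 θ.1 * E' b)),
      el_mem hθ (k.map D.sa) (hgK b)⟩
    tr := ?_
    io_wt := ?_
    pi_wt := ?_ }⟩
  · intro a b
    rw [Finset.univ_unique, Finset.sum_singleton]
    have hprod : mulM (ring_BS D.sw0 (s0 hθ :: k.map D.sa))
        ⟨el hθ (k.map D.sa) (ζ a) (E a), el_mem hθ (k.map D.sa) (hgE a)⟩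
        ⟨el hθ (k.map D.sa) (C c1⁻¹ * (D.PI0 θ.1 * ζ' b)) (C c1⁻¹ * (D.PI0 θ.1 * E' b)),
          el_mem hθ (k.map D.sa) (hgK b)⟩ =
        ⟨el hθ (k.map D.sa) (ζ a * (C c1⁻¹ * (D.PI0 θ.1 * ζ' b))) (E a * (C c1⁻¹ * (D.PI0 θ.1 * E' b))),
          el_mem hθ (k.map D.sa) (hcomp a b)⟩ := by
      apply Subtype.ext
      funext q
      obtain ⟨p, e⟩ := q
      cases e with
      | false => exact (smul_mul' ((D.sw0.BS (k.map D.sa)).lab p) (ζ a) (C c1⁻¹ * (D.PI0 θ.1 * ζ' b))).symm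
      | true => exact (smul_mul' ((D.sw0.BS (k.map D.sa)).lab p) (E a) (C c1⁻¹ * (D.PI0 θ.1 * E' b))).symm
    rw [hprod, Tr_el hθ (k.map D.sa) (hcomp a b) (hry _), t5f_C k hk c1⁻¹ (H a b) (hry _) (hry _)]
    have h1 : D.sw0.Tr (k.map D.sa) ⟨(D.sw0.BS (k.map D.sa)).ry (H a b) 1, hry _⟩ =
        if a = b then C c1 else 0 := by
      refine (congrFun (congrFun hP a) b).trans ?_
      rw [Matrix.smul_apply, Matrix.one_apply]
      split_ifs <;> simp
    rw [h1]
    split_ifs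
    · rw [← C_mul, inv_mul_cancel₀ hc1, C_1]
    · rw [mul_zero]
  · rintro - ⟨p, e⟩ a
    have h0 := hlab p
    rw [t5f_one]
    cases e with
    | false =>
      have h1 : ((D.sw0.BS (s0 hθ :: k.map D.sa)).lab (p, false)).l = 0 := h0
      rw [h1, fm0_zero, zero_mul]
      have h2 := congrFun (hQ.eig.smul V.S_W ((D.sw0.BS (k.map D.sa)).lab p).u) a
      rw [map_zero, fm0_zero, zero_smul] at h2
      exact h2
    | true =>
      rw [t5f_lab hθ (k.map D.sa) p h0]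
      exact congrFun (hQ.ee.eig.smul V.S_W ((D.sw0.BS (k.map D.sa)).lab p).u) a
  · rintro - ⟨p, e⟩ b
    have h0 := hlab p
    rw [t5f_one]
    have key : ∀ (μ : Fin n → ℤ) (w : V.I → AA n), EigL V.S μ w →
        ∑ a, ((D.sw0.BS (k.map D.sa)).lab p • (C c1⁻¹ * (D.PI0 θ.1 * w a)) : AA n) * V.S a b =
          fm0 (((D.sw0.BS (k.map D.sa)).lab p).u.1 μ) *
            ((D.sw0.BS (k.map D.sa)).lab p • (C c1⁻¹ * (D.PI0 θ.1 * w b))) := by
      intro μ w hw
      have h3 := congrFun (hw.smul V.S_W ((D.sw0.BS (k.map D.sa)).lab p).u) b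
      have h4 : ∑ a, (((D.sw0.BS (k.map D.sa)).lab p).u • w a : AA n) * V.S a b =
          fm0 (((D.sw0.BS (k.map D.sa)).lab p).u.1 μ) * (((D.sw0.BS (k.map D.sa)).lab p).u • w b) := h3
      have h5 : ∀ a, ((D.sw0.BS (k.map D.sa)).lab p • (C c1⁻¹ * (D.PI0 θ.1 * w a)) : AA n) =
          C c1⁻¹ * (((D.sw0.BS (k.map D.sa)).lab p).u • D.PI0 θ.1) *
            (((D.sw0.BS (k.map D.sa)).lab p).u • w a) := by
        intro a
        rw [D.Aff_smul_A, smul_mul', smul_mul', D.smul_C, mul_assoc]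
      simp only [h5]
      have h6 : ∀ a, C c1⁻¹ * (((D.sw0.BS (k.map D.sa)).lab p).u • D.PI0 θ.1) *
            (((D.sw0.BS (k.map D.sa)).lab p).u • w a) * V.S a b =
          C c1⁻¹ * (((D.sw0.BS (k.map D.sa)).lab p).u • D.PI0 θ.1) *
            ((((D.sw0.BS (k.map D.sa)).lab p).u • w a) * V.S a b) := fun a => by ring
      simp only [h6]
      rw [← Finset.mul_sum, h4]
      ring
    cases e with
    | false =>
      have h1 : ((D.sw0.BS (s0 hθ :: k.map D.sa)).lab (p, false)).l = 0 := h0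
      rw [h1, fm0_zero, zero_mul]
      have h2 := key 0 ζ' hQ.eig'
      rw [map_zero, fm0_zero, zero_mul] at h2
      exact h2
    | true =>
      rw [t5f_lab hθ (k.map D.sa) p h0]
      exact key θ.1 E' hQ.ee.eig'

end Pool.Agent.MTG
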