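import Pool.Agent.MTG.GH
import Pool.Agent.MTG.GT5

/-! # MTG : the TQ datum from the inputs of part G -/

namespace Pool.Agent.MTG

open MvPolynomial
open Pool.Agent.MTX (mulM ring_BS)
open Pool.Agent.MTX.SLD (RR AA fm fm0 fm0_add fm0_smul fm0_zero fm0_neg fm0_sub fm0_ne_zero fm0_prime)
open RD
open Pool.Agent.MTF (AffGrp TQD TQ Rep Rep.co)
open Pool.Agent.MTF.AffGrp

variable {n : ℕ} {D : RD n}

/-- reindexing a retraction family -/
theorem rf_sub {I J : Type} [Fintype I] [DecidableEq I] [Fintype J] [DecidableEq J]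
    {t : Matrix J J (AA n)} (h : Nonempty (RF D t)) (φ : I ≃ J) :
    Nonempty (RF D (t.submatrix φ φ)) := by
  obtain ⟨h⟩ := h
  refine ⟨{ R := h.R, j := h.j, ω := h.ω, io := fun r a => h.io r (φ a)
            pi := fun r b => h.pi r (φ b), tr := ?_, io_wt := ?_, pi_wt := ?_ }⟩
  · intro a b
    rw [h.tr (φ a) (φ b)]
    simp only [φ.injective.eq_iff]
  · intro r q a
    have h1 := h.io_wt r q (φ a)
    have h2 := Equiv.sum_comp φ fun b => t (φ a) b * (h.io r b).1 q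
    exact h2.trans h1
  · intro r q b
    have h1 := h.pi_wt r q (φ b)
    have h2 := Equiv.sum_comp φ fun a => (h.pi r a).1 q * t a (φ b)
    exact h2.trans h1

section
variable {G : AffGrp} {r : ℕ} (Db : Module.Basis (Fin r) ℂ G.Lie) (cA : Fin r → AA n)

/-- The inputs of part G. -/
structure GIn : Prop where
  c_w : ∀ (w : D.W) j, w • cA j = cA j
  /-- generating pieces -/
  pc : ∃ (κ : Type) (V : κ → Rep G), Algebra.adjoin ℂ {f : G.O | ∃ k a b, f = (V k).co a b} = ⊤ ∧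
    ∀ k, ∃ (U : KRep D) (φ : (V k).ι ≃ U.I), SE Db cA (V k) = U.S.submatrix φ φ ∧
      ((∃ l, HWK U l ∧ D.Mnu l) ∨ ∃ θ : D.Rt, HWK U θ.1 ∧ D.QMn θ ∧
        (∀ k : ℤ, k ≤ 0 → ∀ v : U.I → ℂ, (∀ a, v a ≠ 0 → D.ht2 (U.wt a) = k) →
          U.e.mulVec v = 0 → v = 0) ∧
        ∃ r : Matrix U.I U.I ℂ, (∀ a b, r a b ≠ 0 → D.ht2 (U.wt a) = D.ht2 (U.wt b) - 2) ∧
          ∀ v : U.I → ℂ, (∀ a, v a ≠ 0 → 0 ≤ D.ht2 (U.wt a)) → U.e.mulVec (r.mulVec v) = v)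
  /-- highest weight representations -/
  hw : ∀ l, D.Dom l → ∃ (E : Rep G) (V : KRep D) (φ : E.ι ≃ V.I),
    SE Db cA E = V.S.submatrix φ φ ∧ HWK V l
  dec : ∀ E : Rep G, ∃ Ω : Finset (Fin n → ℤ),
    Polynomial.aeval ((tqd G D Db cA).sE E)
      (∏ m ∈ Ω, (Polynomial.X - Polynomial.C ((tqd G D Db cA).val m))) = 0
  cr : ∃ I : Module.Dual ℂ G.O, I 1 = 1 ∧ (∀ x f, I (G.lt x f) = I f) ∧ ∀ x f, I (G.rt x f) = I f
  kill : ∀ D : G.Lie, (∀ E, G.killing D E = 0) → D = 0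
  jac : ∃ (F : Fin n → AA n) (κ : ℂ), (∀ (w : D.W) i, w • F i = F i) ∧ κ ≠ 0 ∧
    Matrix.det (fun i j => pderiv j (F i)) = MvPolynomial.C κ * D.PI
  ext : ∀ (E : Rep G) (P : E.ι → KK n), (∀ a, P a ∈ (tqd G D Db cA).A) →
    (∀ (w : D.W) a, w • P a = P a) → ((tqd G D Db cA).sE E).mulVec P = 0 →
    ∃ p : E.ι → MvPolynomial (Fin (tqd G D Db cA).r) ℂ,
      (∀ a, MvPolynomial.aeval (tqd G D Db cA).c (p a) = P a) ∧
      ∀ (g : G.X) (y : Fin (tqd G D Db cA).r → ℂ) (a : E.ι),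
        MvPolynomial.eval (fun i => (tqd G D Db cA).D.repr
          (G.Ad g (∑ j, y j • (tqd G D Db cA).D j)) i) (p a) =
          ∑ b, E.ρ g a b * MvPolynomial.eval y (p b)

variable {Db cA}

theorem GIn.rf (h : GIn (D := D) Db cA) (E : Rep G) : Nonempty (RF D (SE Db cA E)) := by
  obtain ⟨κ, V, hg, hV⟩ := h.pc
  refine rf_all Db cA V h.c_w (fun k => ?_) hg h.cr E
  obtain ⟨U, φ, hS, hU⟩ := hV k
  rw [hS]
  refine rf_sub ?_ φ
  rcases hU with ⟨l, h1, h2⟩ | ⟨θ, h1, h2, h3, h4⟩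
  · exact (h1.pcm h2).rf
  · exact (h1.pcq h2 h3 h4).rf

theorem GIn.tq (h : GIn (D := D) Db cA) : TQ (tqd G D Db cA) where
  wA := v_wA G Db cA
  val_mem m := aK_mem _
  val_inj := v_val_inj G Db cA
  val_w := v_val_w G Db cA
  N_w := v_N_w G Db cA
  N_neg := v_N_neg G Db cA
  Eu_mem m := aK_mem _
  Eu_ne := v_Eu_ne G Db cA
  Eu_w := v_Eu_w G Db cA
  Eu_neg := v_Eu_neg G Db cA
  Eu_zero := v_Eu_zero G Db cA
  Eu_add := v_Eu_add G Db cA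
  sg_one := D.sgn_one
  sg_mul := D.sgn_mul
  Δ_mem m := aK_mem _
  Δ_ne := v_Δ_ne G Db cA
  Δ_w := v_Δ_w G Db cA
  Dav_mem := v_Dav_mem G Db cA
  db l := by
    obtain ⟨F, κ, hF, hκ, hJ⟩ := h.jac
    exact v_db G Db cA F hF hκ hJ l
  c_mem j := aK_mem _
  c_w w j := by
    show w • aK (cA j) = aK (cA j)
    rw [smul_aK, h.c_w]
  dec := h.dec
  pb := v_pb Db cA h.rf
  fl := v_fl Db cA h.rf
  sl L _ _ _ _ l f a ha hf := v_sl Db cA h.c_w h.rf L l f a ha hf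
  hw := v_hw Db cA h.c_w h.hw h.rf
  cr := h.cr
  kill := h.kill
  ext := h.ext

end

end Pool.Agent.MTG
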