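import Pool.Agent.MTX.S12c
import Pool.Agent.MTX.S13
import Pool.Agent.MTX.S3b

/-! # MTG, Part S : saturation, single labels, projectivity of `M_X` -/

namespace Pool.Agent.MTG

open Pool.Agent.MTX

section
variable {R G Rt S : Type} [CommRing R] [Group G] [MulSemiringAction G R] [MulAction G Rt]
  (D : AS R G Rt S) {L : Lat R G}

/-- Saturation.  By `hL.big` there is a list `l` of roots with `(l.map f).prod • z ∈ M`.  Induction on `l` (for this
`z`): suppose `(f b * c0) • z ∈ M` and `c • z ∈ M`, `f b ∤ c`; then `(TF)` (`hL.tf` for `P = D.pos`, `X' = ∅`,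
`X = univ`, `π = f b`) applied to `b := (f b * c0) • z`, `a := c0 • (c • z)` (`c • b - f b • a = 0`) gives `a' ∈ M` with
`(f b * c0) • z = f b • a'`, so `c0 • z = a' ∈ M` (`R` is a domain). -/
theorem sat [IsDomain R] (hL : Nice D L) (z : L.J → R)
    (h : ∀ b : Rt, ∃ c : R, ¬ D.f b ∣ c ∧ c • z ∈ L.M) : z ∈ L.M := by
  obtain ⟨l, hl⟩ := hL.big
  have key : ∀ l : List Rt, (l.map D.f).prod • z ∈ L.M → z ∈ L.M := by
    intro l
    induction l with
    | nil =>
      intro h0
      simpa using h0
    | cons b l ih =>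
      intro h0
      apply ih
      obtain ⟨c, hc, hcz⟩ := h b
      rw [List.map_cons, List.prod_cons] at h0
      have hu : ∀ m : L.J → R, L.sup m Set.univ := fun m p hp => absurd (Set.mem_univ _) hp
      have ha : (l.map D.f).prod • (c • z) ∈ L.M := L.M.smul_mem _ hcz
      have hz : c • ((D.f b * (l.map D.f).prod) • z) - D.f b • ((l.map D.f).prod • (c • z)) = 0 := by
        funext p
        simp only [Pi.sub_apply, Pi.smul_apply, smul_eq_mul, Pi.zero_apply]
        ring
      obtain ⟨a', ha', _, hs⟩ := hL.tf D.pos (D.sys_pos) ∅ Set.univ (Set.empty_subset _)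
        (D.closed_empty D.pos) (D.closed_univ D.pos) (D.f b) c (D.prime b) hc _ h0 _ ha (hu _) (hu _)
        (by rw [hz]; intro p _; rfl)
      have he : (l.map D.f).prod • z = a' := by
        funext p
        have h1 := hs p (Set.notMem_empty _)
        simp only [Pi.sub_apply, Pi.smul_apply, smul_eq_mul] at h1
        have h2 : D.f b * ((l.map D.f).prod * z p) = D.f b * a' p := by
          linear_combination h1
        have h3 := mul_left_cancel₀ (D.prime b).ne_zero h2
        simpa using h3
      rw [he]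
      exact ha'
  exact key l (hl z)

/-- One label.  `rest_block` gives `c` with `c • rest {v, s_b v} m ∈ M`.  With `g = v⁻¹ • f b` the right action is `f b`
at the label `v` and `s_b • f b = - f b` at `s_b v` (`f_smul`, `refl_self`, `f_ng`; note `(s_b v) • g = s_b • f b`), so
`ry g m' + f b • m'` is `2 f b m'` at `v` and `0` at `s_b v`: `c' = 2 c`.  (If `f b ∣ 2 c` then `f b ∣ c` as `2` is
invertible: `[Algebra ℚ R]`.) -/
theorem rest_single [Algebra ℚ R] (hry : RyLat L) (b : Rt) (v : G) :
    ∃ c : R, ¬ D.f b ∣ c ∧ ∀ m ∈ L.M, (c * D.f b) • L.rest {v} m ∈ L.M := by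
  classical
  have hrr : ∀ x : G, D.refl b * (D.refl b * x) = x := fun x => by
    rw [← mul_assoc, D.refl_sq, one_mul]
  obtain ⟨g, hg⟩ := D.gen b (Finset.univ.image L.lab ∪
    Finset.univ.image (fun p => D.refl b * L.lab p) ∪ {v, D.refl b * v})
  obtain ⟨F, hF⟩ : ∃ F, F = (Finset.univ.image L.lab ∪
    Finset.univ.image (fun p => D.refl b * L.lab p) ∪ {v, D.refl b * v}) := ⟨_, rfl⟩
  rw [← hF] at hg
  obtain ⟨V, hV⟩ : ∃ V : Finset G, V = (Finset.univ.image L.lab).filter
    (fun t => t ≠ v ∧ t ≠ D.refl b * v) := ⟨_, rfl⟩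
  have hvF : v ∈ F := by rw [hF]; simp
  have hVF : ∀ u ∈ V, u ∈ F ∧ D.refl b * u ∈ F ∧ u ≠ v ∧ u ≠ D.refl b * v := by
    intro u hu
    rw [hV, Finset.mem_filter, Finset.mem_image] at hu
    obtain ⟨⟨p, _, hp⟩, h1, h2⟩ := hu
    refine ⟨?_, ?_, h1, h2⟩
    · rw [hF]
      simp only [Finset.mem_union, Finset.mem_image]
      exact Or.inl (Or.inl ⟨p, Finset.mem_univ p, hp⟩)
    · rw [hF]
      simp only [Finset.mem_union, Finset.mem_image]
      exact Or.inl (Or.inr ⟨p, Finset.mem_univ p, by rw [hp]⟩)
  have hd1 : ¬ D.f b ∣ s2_e D b g V v := by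
    apply s2_not_dvd
    intro u hu
    obtain ⟨h1, h2, h3, h4⟩ := hVF u hu
    refine ⟨hg v hvF u h1 h3 h4, hg v hvF _ h2 ?_ ?_⟩
    · intro h5
      apply h4
      rw [← h5, hrr]
    · intro h5
      exact h3 (mul_left_cancel h5)
  refine ⟨2 * s2_e D b g V v, ?_, ?_⟩
  · intro h
    rcases (D.prime b).dvd_or_dvd h with h1 | h1
    · have h2u : IsUnit (2 : R) := by
        have h2 : (2 : R) = algebraMap ℚ R 2 := (map_ofNat (algebraMap ℚ R) 2).symm
        rw [h2]
        exact (IsUnit.mk0 (2 : ℚ) (by norm_num)).map (algebraMap ℚ R)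
      exact (D.prime b).not_isUnit (isUnit_of_dvd_unit h1 h2u)
    · exact hd1 h1
  · intro m hm
    have h1 := s2_F1 D hry b g V m hm
    have h2 := L.M.add_mem (hry (v⁻¹ • D.f b) _ h1) (L.M.smul_mem (D.f b) h1)
    have h4 : (2 * s2_e D b g V v * D.f b) • L.rest {v} m
        = L.ry (v⁻¹ • D.f b) (fun p => s2_e D b g V (L.lab p) * m p) +
          D.f b • (fun p => s2_e D b g V (L.lab p) * m p) := by
      funext p
      simp only [Pi.smul_apply, Pi.add_apply, smul_eq_mul, Lat.rest, Lat.ry]
      by_cases hp1 : L.lab p = v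
      · rw [if_pos (by rw [hp1]; simp), hp1, smul_smul, mul_inv_cancel, one_smul]
        ring
      · rw [if_neg (by simpa using hp1)]
        by_cases hp2 : L.lab p = D.refl b * v
        · have e1 : (D.refl b * v) • v⁻¹ • D.f b = - D.f b := by
            rw [smul_smul, mul_assoc, mul_inv_cancel, mul_one, ← D.f_smul, D.refl_self, D.f_ng]
          rw [hp2, e1]
          ring
        · have hpV : L.lab p ∈ V := by
            rw [hV, Finset.mem_filter, Finset.mem_image]
            exact ⟨⟨p, Finset.mem_univ p, rfl⟩, hp1, hp2⟩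
          rw [s2_e_zero D b g hpV]
          ring
    rw [h4]
    exact h2

/-- The same for an arbitrary set of labels: product of the constants over the labels in `X`, `rest X m` is the sum
of the `rest {v} m` over the labels `v ∈ X`. -/
theorem rest_any [Algebra ℚ R] (hry : RyLat L) (b : Rt) (X : Set G) :
    ∃ c : R, ¬ D.f b ∣ c ∧ ∀ m ∈ L.M, (c * D.f b) • L.rest X m ∈ L.M := by
  classical
  have key : ∀ T : Finset G, ∃ c : R, ¬ D.f b ∣ c ∧ ∀ m ∈ L.M,
      (c * D.f b) • L.rest {w | w ∈ X ∧ w ∈ T} m ∈ L.M := by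
    intro T
    induction T using Finset.induction_on with
    | empty =>
      refine ⟨1, fun h => (D.prime b).not_isUnit (isUnit_of_dvd_one h), fun m _ => ?_⟩
      have h0 : L.rest {w | w ∈ X ∧ w ∈ (∅ : Finset G)} m = 0 := by
        funext p
        unfold Lat.rest
        rw [if_neg]
        · rfl
        · rintro ⟨_, h⟩
          simp at h
      rw [h0, smul_zero]
      exact L.M.zero_mem
    | insert v T hv ih =>
      obtain ⟨c, hc, hcm⟩ := ih
      by_cases hvX : v ∈ X
      · obtain ⟨c', hc', hcm'⟩ := rest_single D hry b v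
        refine ⟨c * c', fun h => ?_, fun m hm => ?_⟩
        · rcases (D.prime b).dvd_or_dvd h with h | h
          · exact hc h
          · exact hc' h
        · have hsplit : L.rest {w | w ∈ X ∧ w ∈ insert v T} m =
              L.rest {w | w ∈ X ∧ w ∈ T} m + L.rest {v} m := by
            funext p
            rw [Pi.add_apply]
            unfold Lat.rest
            by_cases hB : L.lab p = v
            · have hA : L.lab p ∉ {w | w ∈ X ∧ w ∈ T} := by
                rintro ⟨_, h⟩
                rw [hB] at h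
                exact hv h
              rw [if_neg hA, zero_add, if_pos, if_pos (by simpa using hB)]
              exact ⟨by rw [hB]; exact hvX, by rw [hB]; exact Finset.mem_insert_self _ _⟩
            · rw [if_neg (show L.lab p ∉ ({v} : Set G) by simpa using hB), add_zero]
              by_cases hA : L.lab p ∈ {w | w ∈ X ∧ w ∈ T}
              · rw [if_pos hA, if_pos ⟨hA.1, Finset.mem_insert_of_mem hA.2⟩]
              · rw [if_neg hA, if_neg]
                rintro ⟨h1, h2⟩
                rcases Finset.mem_insert.1 h2 with h3 | h3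
                · exact hB h3
                · exact hA ⟨h1, h3⟩
          rw [hsplit, smul_add]
          refine L.M.add_mem ?_ ?_
          · have : c * c' * D.f b = c' * (c * D.f b) := by ring
            rw [this, mul_smul]
            exact L.M.smul_mem c' (hcm m hm)
          · rw [mul_assoc, mul_smul]
            exact L.M.smul_mem c (hcm' m hm)
      · refine ⟨c, hc, fun m hm => ?_⟩
        have hset : {w | w ∈ X ∧ w ∈ insert v T} = {w | w ∈ X ∧ w ∈ T} := by
          ext w
          constructor
          · rintro ⟨h1, h2⟩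
            refine ⟨h1, ?_⟩
            rcases Finset.mem_insert.1 h2 with h3 | h3
            · exact absurd (h3 ▸ h1) hvX
            · exact h3
          · rintro ⟨h1, h2⟩
            exact ⟨h1, Finset.mem_insert_of_mem h2⟩
        rw [hset]
        exact hcm m hm
  obtain ⟨c, hc, hcm⟩ := key (Finset.univ.image L.lab)
  refine ⟨c, hc, fun m hm => ?_⟩
  have heq : L.rest X m = L.rest {w | w ∈ X ∧ w ∈ Finset.univ.image L.lab} m := by
    funext p
    unfold Lat.rest
    by_cases hA : L.lab p ∈ X
    · rw [if_pos hA, if_pos]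
      exact ⟨hA, Finset.mem_image_of_mem _ (Finset.mem_univ p)⟩
    · rw [if_neg hA, if_neg]
      exact fun h => hA h.1
  rw [heq]
  exact hcm m hm

/-- the elements supported on `X` -/
def subX (L : Lat R G) (X : Set G) : Submodule R (L.J → R) where
  carrier := {m | m ∈ L.M ∧ L.sup m X}
  add_mem' {m m'} h h' := ⟨L.M.add_mem h.1 h'.1, fun p hp => by
    show m p + m' p = 0
    rw [h.2 p hp, h'.2 p hp, add_zero]⟩
  zero_mem' := ⟨L.M.zero_mem, fun _ _ => rfl⟩
  smul_mem' c m h := ⟨L.M.smul_mem c h.1, fun p hp => by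
    show c * m p = 0
    rw [h.2 p hp, mul_zero]⟩

/-- extension of finite projective modules -/
theorem mtt_s2_ext {R' K' M' N' : Type} [CommRing R'] [AddCommGroup K'] [AddCommGroup M']
    [AddCommGroup N'] [Module R' K'] [Module R' M'] [Module R' N'] (d : K' →ₗ[R'] M')
    (t : M' →ₗ[R'] N') (hd : Function.Injective d) (ht : Function.Surjective t)
    (h0 : ∀ k, t (d k) = 0) (hk : ∀ m, t m = 0 → ∃ k, d k = m)
    (hK : Module.Projective R' K' ∧ Module.Finite R' K')
    (hN : Module.Projective R' N' ∧ Module.Finite R' N') :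
    Module.Projective R' M' ∧ Module.Finite R' M' := by
  have := hK.1
  have := hK.2
  have := hN.1
  have := hN.2
  obtain ⟨σ, hσ⟩ := Module.projective_lifting_property t LinearMap.id ht
  have hσ' : ∀ n, t (σ n) = n := fun n => LinearMap.congr_fun hσ n
  have hb : Function.Bijective (LinearMap.coprod d σ) := by
    constructor
    · rw [← LinearMap.ker_eq_bot, LinearMap.ker_eq_bot']
      rintro ⟨k, n⟩ h
      rw [LinearMap.coprod_apply] at h
      have h1 := congrArg t h
      rw [map_add, h0, hσ', zero_add, map_zero] at h1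
      have h2 : n = 0 := h1
      subst h2
      rw [map_zero, add_zero] at h
      have h3 : k = 0 := hd (by rw [map_zero]; exact h)
      rw [h3]
      rfl
    · intro m
      obtain ⟨k, hk'⟩ := hk (m - σ (t m)) (by rw [map_sub, hσ', sub_self])
      refine ⟨(k, t m), ?_⟩
      rw [LinearMap.coprod_apply, hk']
      exact sub_add_cancel _ _
  exact ⟨Module.Projective.of_equiv (LinearEquiv.ofBijective _ hb),
    Module.Finite.equiv (LinearEquiv.ofBijective _ hb)⟩

/-- the duplication on `subX` -/
def mtt_s2_dup (s : S) (X : Set G) :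
    subX L (D.core s X) →ₗ[R] subX (Lat.star (D.sw.f s) (D.sw.g s) L) X where
  toFun k := ⟨fun p => k.1 p.1, ⟨⟨k.2.1, 0, L.M.zero_mem, fun p => by simp⟩, fun q hq => by
    obtain ⟨p, b⟩ := q
    show k.1 p = 0
    refine k.2.2 p fun hp => hq ?_
    cases b
    · exact hp.1
    · exact hp.2⟩⟩
  map_add' _ _ := rfl
  map_smul' _ _ := rfl

/-- the trace on `subX` -/
noncomputable def mtt_s2_tr [IsDomain R] [Algebra ℚ R] (s : S) (X : Set G) :
    subX (Lat.star (D.sw.f s) (D.sw.g s) L) X →ₗ[R] subX L (D.plus s X) where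
  toFun m := ⟨(trM (D.sw.g s) L (D.sw.f_ne s) ⟨m.1, m.2.1⟩).1,
    ⟨(trM (D.sw.g s) L (D.sw.f_ne s) ⟨m.1, m.2.1⟩).2, star_n_sup D s m.2.2
      (trM_spec (D.sw.f_ne s) ⟨m.1, m.2.1⟩)⟩⟩
  map_add' x y := by
    apply Subtype.ext
    have h := map_add (trM (D.sw.g s) L (D.sw.f_ne s)) ⟨x.1, x.2.1⟩ ⟨y.1, y.2.1⟩
    have h' := congrArg (Subtype.val : L.M → L.J → R) h
    exact h'
  map_smul' c x := by
    apply Subtype.ext
    have h := map_smul (trM (D.sw.g s) L (D.sw.f_ne s)) c ⟨x.1, x.2.1⟩
    have h' := congrArg (Subtype.val : L.M → L.J → R) h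
    exact h'

/-- `M_X` is finitely generated and projective for closed `X`, for all iterated stars of `R_w`.  Induction on the
word.  `l = []`: `M_X` is `⊤` or `⊥` in `Unit → R`.  Step: the map `t : subX (L * E_s) X → subX L (X ∪ X s)`, `m ↦ n`
(`m (p,0) - m (p,1) = (lab p • f) n p`, unique; `trM`; `star_n_sup`) is onto (`star_onto`), its kernel is
`subX L (core s X)` (`star_ker`, `dup`); both ends are finite and projective by induction (`closed_plus`,
`closed_core`; `nice_words`, `nice_base` for `Nice`), so `t` splits (`Module.projective_lifting_property`) and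
`subX (L * E_s) X ≃ ker t × subX L (X ∪ X s)`. -/
theorem proj_words [IsDomain R] [Algebra ℚ R] {P : Rt → Prop} (hP : D.Sys P) (w : G)
    (l : List S) {X : Set G} (hX : D.Closed P X) :
    Module.Projective R (subX (D.sw.words (Lat.base w) l) X) ∧
      Module.Finite R (subX (D.sw.words (Lat.base w) l) X) := by
  induction l generalizing X with
  | nil =>
    by_cases hw : w ∈ X
    · have h : subX (D.sw.words (Lat.base w) []) X = ⊤ := by
        rw [eq_top_iff]
        intro m _
        exact ⟨mem_base w m, fun p hp => absurd hw hp⟩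
      rw [h]
      exact ⟨Module.Projective.of_equiv (Submodule.topEquiv (R := R) (M := Unit → R)).symm,
        Module.Finite.equiv (Submodule.topEquiv (R := R) (M := Unit → R)).symm⟩
    · have h : subX (D.sw.words (Lat.base w) []) X = ⊥ := by
        rw [eq_bot_iff]
        intro m hm
        rw [Submodule.mem_bot]
        funext p
        exact hm.2 p hw
      rw [h]
      exact ⟨inferInstance, inferInstance⟩
  | cons s l ih =>
    have hN : Nice D (D.sw.words (Lat.base w) l) := nice_words D (nice_base D w) l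
    refine mtt_s2_ext (mtt_s2_dup D (L := D.sw.words (Lat.base w) l) s X)
      (mtt_s2_tr D (L := D.sw.words (Lat.base w) l) s X) ?_ ?_ ?_ ?_
      (ih (D.closed_core hX s)) (ih (D.closed_plus hX s))
    · intro k k' h
      apply Subtype.ext
      funext p
      exact congrFun (congrArg Subtype.val h) (p, false)
    · intro n
      obtain ⟨m, hm, hms, hmn⟩ := star_onto D hP hN s hX n.2.1 n.2.2
      refine ⟨⟨m, ⟨hm, hms⟩⟩, ?_⟩
      apply Subtype.ext
      exact trM_unique (D.sw.f_ne s) ⟨m, hm⟩ n.1 hmn
    · intro k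
      apply Subtype.ext
      refine trM_unique (D.sw.f_ne s) _ 0 fun p => ?_
      show k.1 p - k.1 p = _ * 0
      rw [sub_self, mul_zero]
    · intro m hm
      have h1 : ∀ p, m.1 (p, false) = m.1 (p, true) := by
        intro p
        have h2 := trM_spec (D.sw.f_ne s) (⟨m.1, m.2.1⟩ :
          (Lat.star (D.sw.f s) (D.sw.g s) (D.sw.words (Lat.base w) l)).M) p
        have h3 : (trM (D.sw.g s) (D.sw.words (Lat.base w) l) (D.sw.f_ne s) ⟨m.1, m.2.1⟩).1 p = 0 :=
          congrFun (congrArg Subtype.val hm) p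
        rw [h3, mul_zero] at h2
        exact sub_eq_zero.1 h2
      obtain ⟨h4, h5⟩ := star_ker D s m.2.1 m.2.2 h1
      refine ⟨⟨fun p => m.1 (p, false), ⟨h4, h5⟩⟩, ?_⟩
      apply Subtype.ext
      funext q
      obtain ⟨p, b⟩ := q
      cases b
      · rfl
      · exact h1 p

end

section
variable {R A G Rt S : Type} [CommRing R] [CommRing A] [Group G]
  [MulSemiringAction G R] [MulSemiringAction G A] [MulAction G Rt]
  {D : AS R G Rt S} {W' : SW A G S}

/-- Dual basis of the module of elements of `BS_0 (l)` supported on a closed set.  By `proj_words` (`w = 1`) choose a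
dual basis `g_i ∈ subX (BS l) X`, `φ_i : subX (BS l) X →ₗ[R] R`, `m = ∑ φ_i m • g_i` (`Module.Finite.exists_fin'` gives a
surjection `R^N → subX`, which splits by projectivity).  `e i := B.red l (g_i)`,
`c i g0 := ρ (φ_i g)` for any lift `g ∈ subX (BS l) X` of `g0` (`B.lift_sup`); well defined: two lifts differ by an
element `h • a` (`B.ker_red`), with `a` supported on `X` (`h` is a nonzero divisor), so `φ_i (h • a) = h φ_i a ↦ 0`
(`B.ker`). -/
theorem dual_red [IsDomain R] [Algebra ℚ R] (B : RedData D W') {P : Rt → Prop}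
    (hP : D.Sys P) {X : Set G} (hX : D.Closed P X) (l : List S) :
    ∃ (N : ℕ) (e : Fin N → subX (W'.BS l) X) (c : Fin N → subX (W'.BS l) X →ₗ[A] A),
      ∀ m : subX (W'.BS l) X, m = ∑ i, c i m • e i := by
  classical
  obtain ⟨hproj, hfin⟩ := proj_words D hP (1 : G) l hX
  have hproj' : Module.Projective R (subX (D.sw.BS l) X) := hproj
  have hfin' : Module.Finite R (subX (D.sw.BS l) X) := hfin
  obtain ⟨N, f, hf⟩ := Module.Finite.exists_fin' R (subX (D.sw.BS l) X)
  obtain ⟨s, hs⟩ := Module.projective_lifting_property f LinearMap.id hf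
  have hfs : ∀ m, f (s m) = m := fun m => by
    have := congrArg (fun u => u m) hs
    exact this
  -- the reduction of an element of the lattice of sections supported on X
  have hredsup : ∀ g : subX (D.sw.BS l) X, (W'.BS l).sup (B.red l ⟨g.1, g.2.1⟩).1 X := by
    intro g q hq
    have e1 : q = redJ D.sw W' l ((redJ D.sw W' l).symm q) := (Equiv.apply_symm_apply _ _).symm
    rw [e1, B.red_apply]
    have h2 : (D.sw.BS l).lab ((redJ D.sw W' l).symm q) ∉ X := by
      rw [← B.lab, ← e1]
      exact hq
    show B.ρ (g.1 _) = 0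
    rw [g.2.2 _ h2, map_zero]
  -- well definedness
  have hzero : ∀ (φ : subX (D.sw.BS l) X →ₗ[R] R) (x : subX (D.sw.BS l) X),
      (∀ p, B.ρ (x.1 p) = 0) → B.ρ (φ x) = 0 := by
    intro φ x hx
    obtain ⟨a, ha⟩ := B.ker_red l ⟨x.1, x.2.1⟩ hx
    have hxa : ∀ p, x.1 p = B.h * a.1 p := fun p => by
      have := congrArg (fun u => u.1 p) ha
      exact this
    have hsup : (D.sw.BS l).sup a.1 X := by
      intro p hp
      have h1 := hxa p
      rw [x.2.2 p hp] at h1
      rcases mul_eq_zero.1 h1.symm with h2 | h2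
      · exact absurd h2 B.prime.ne_zero
      · exact h2
    have e : x = B.h • (⟨a.1, a.2, hsup⟩ : subX (D.sw.BS l) X) := by
      apply Subtype.ext
      funext p
      exact hxa p
    rw [e, map_smul, smul_eq_mul, map_mul, (B.ker B.h).2 (dvd_refl _), zero_mul]
  have hwd : ∀ (φ : subX (D.sw.BS l) X →ₗ[R] R) (x y : subX (D.sw.BS l) X),
      (∀ p, B.ρ (x.1 p) = B.ρ (y.1 p)) → B.ρ (φ x) = B.ρ (φ y) := by
    intro φ x y h
    have := hzero φ (x - y) (fun p => by
      show B.ρ (x.1 p - y.1 p) = 0
      rw [map_sub, h p, sub_self])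
    rw [map_sub, map_sub, sub_eq_zero] at this
    exact this
  -- lifts
  have hlift : ∀ g0 : subX (W'.BS l) X, ∃ g : subX (D.sw.BS l) X,
      ∀ p, B.ρ (g.1 p) = g0.1 (redJ D.sw W' l p) := by
    intro g0
    obtain ⟨g, hg, hgr⟩ := B.lift_sup hP hX l ⟨g0.1, g0.2.1⟩ g0.2.2
    refine ⟨⟨g.1, g.2, hg⟩, fun p => ?_⟩
    rw [← B.red_apply l g p, hgr]
  choose lift hlift using hlift
  let e : Fin N → subX (W'.BS l) X := fun i =>
    ⟨(B.red l ⟨(f (Pi.single i 1)).1, (f (Pi.single i 1)).2.1⟩).1,
      (B.red l ⟨(f (Pi.single i 1)).1, (f (Pi.single i 1)).2.1⟩).2, hredsup _⟩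
  let c : Fin N → subX (W'.BS l) X →ₗ[A] A := fun i =>
    { toFun := fun g0 => B.ρ (((LinearMap.proj i).comp s) (lift g0))
      map_add' := by
        intro x y
        rw [← map_add, ← map_add]
        apply hwd
        intro p
        rw [hlift]
        show x.1 _ + y.1 _ = B.ρ ((lift x).1 p + (lift y).1 p)
        rw [map_add, hlift, hlift]
      map_smul' := by
        intro a x
        obtain ⟨r, hr⟩ := B.surj a
        have : B.ρ (((LinearMap.proj i).comp s) (lift (a • x))) =
            B.ρ (((LinearMap.proj i).comp s) (r • lift x)) := by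
          apply hwd
          intro p
          rw [hlift]
          show a * x.1 _ = B.ρ (r * (lift x).1 p)
          rw [map_mul, hlift, hr]
        rw [this, map_smul, smul_eq_mul, map_mul, hr]
        rfl }
  refine ⟨N, e, c, fun m => ?_⟩
  apply Subtype.ext
  funext q
  have e1 : q = redJ D.sw W' l ((redJ D.sw W' l).symm q) := (Equiv.apply_symm_apply _ _).symm
  obtain ⟨p, hp⟩ : ∃ p, q = redJ D.sw W' l p := ⟨_, e1⟩
  rw [hp, ← hlift m p]
  have h1 : lift m = ∑ i, (s (lift m)) i • f (Pi.single i 1) := by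
    conv_lhs => rw [← hfs (lift m), ← Finset.univ_sum_single (s (lift m)), map_sum]
    refine Finset.sum_congr rfl fun i _ => ?_
    rw [← map_smul]
    congr 1
    rw [← Pi.single_smul', smul_eq_mul, mul_one]
  have h2 : (lift m).1 p = ∑ i, (s (lift m)) i * (f (Pi.single i 1)).1 p := by
    have h3 : (lift m).1 p = (∑ i, (s (lift m)) i • f (Pi.single i 1)).1 p :=
      congrArg (fun u : subX (D.sw.BS l) X => u.1 p) h1
    rw [h3]
    have h4 : ∀ t : Finset (Fin N), (∑ i ∈ t, (s (lift m)) i • f (Pi.single i 1)).1 p =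
        ∑ i ∈ t, (s (lift m)) i * (f (Pi.single i 1)).1 p := by
      intro t
      induction t using Finset.induction_on with
      | empty => rfl
      | insert i t hi ih =>
        rw [Finset.sum_insert hi, Finset.sum_insert hi, ← ih]
        rfl
    exact h4 _
  rw [h2, map_sum]
  have h5 : ∀ t : Finset (Fin N), (∑ i ∈ t, c i m • e i).1 (redJ D.sw W' l p) =
      ∑ i ∈ t, B.ρ ((s (lift m)) i * (f (Pi.single i 1)).1 p) := by
    intro t
    induction t using Finset.induction_on with
    | empty => rfl
    | insert i t hi ih =>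
      rw [Finset.sum_insert hi, Finset.sum_insert hi, ← ih]
      show c i m * (e i).1 (redJ D.sw W' l p) + _ = _
      rw [map_mul]
      congr 1
      congr 1
      exact B.red_apply l ⟨(f (Pi.single i 1)).1, (f (Pi.single i 1)).2.1⟩ p
  exact (h5 _).symm

end

end Pool.Agent.MTG
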