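import Pool.Agent.MTG.GP
import Pool.Agent.MTG.G7

/-! # MTG, Part T : eigensections of a representation with slice data

`Eig s μ v` : `s v = μ v`; `EigL s μ w` : `w s = μ w` (row vectors).
`HV V d v`, `HV' V d w` : homogeneous (row) vectors.  `KRep.dual` : the dual representation. -/

namespace Pool.Agent.MTG

open MvPolynomial
open Pool.Agent.MTX.SLD (RR AA fm0 fm0_add fm0_smul fm0_zero fm0_neg fm0_sub fm0_ne_zero fm0_prime)

variable {n : ℕ} {D : RD n}

/-! ### homogeneous elements (ports of MTX/T1 `HZ.*`, with `2 * degree`) -/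

theorem HD.zero (d : ℤ) : HD d (0 : AA n) := fun _ hm => absurd (coeff_zero _) hm

theorem HD.add {d : ℤ} {p q : AA n} (hp : HD d p) (hq : HD d q) : HD d (p + q) := by
  intro m hm
  by_cases h1 : p.coeff m = 0
  · by_cases h2 : q.coeff m = 0
    · exact absurd (by rw [coeff_add, h1, h2, add_zero]) hm
    · exact hq m h2
  · exact hp m h1

theorem HD.neg {d : ℤ} {p : AA n} (hp : HD d p) : HD d (-p) := by
  intro m hm
  refine hp m fun h => hm ?_
  rw [coeff_neg, h, neg_zero]

theorem HD.sub {d : ℤ} {p q : AA n} (hp : HD d p) (hq : HD d q) : HD d (p - q) := by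
  rw [sub_eq_add_neg]; exact hp.add hq.neg

theorem HD.sum {ι : Type*} {d : ℤ} (s : Finset ι) (f : ι → AA n) (h : ∀ i ∈ s, HD d (f i)) :
    HD d (∑ i ∈ s, f i) := by
  classical
  induction s using Finset.induction_on with
  | empty =>
    rw [Finset.sum_empty]
    exact HD.zero d
  | insert a s ha ih =>
    rw [Finset.sum_insert ha]
    exact (h a (Finset.mem_insert_self a s)).add
      (ih fun i hi => h i (Finset.mem_insert_of_mem hi))

theorem HD.mul {d e : ℤ} {p q : AA n} (hp : HD d p) (hq : HD e q) : HD (d + e) (p * q) := by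
  intro m hm
  rw [coeff_mul] at hm
  obtain ⟨x, hx, hne⟩ := Finset.exists_ne_zero_of_sum_ne_zero hm
  have h1 := hp x.1 (left_ne_zero_of_mul hne)
  have h2 := hq x.2 (right_ne_zero_of_mul hne)
  rw [Finset.HasAntidiagonal.mem_antidiagonal] at hx
  rw [← h1, ← h2, ← hx, Finsupp.sum_add_index' (fun _ => rfl) (fun _ _ _ => rfl)]
  push_cast
  ring

theorem HD.C (c : ℂ) : HD 0 (MvPolynomial.C c : AA n) := by
  intro m hm
  rw [coeff_C] at hm
  split_ifs at hm with h
  · rw [← h, Finsupp.sum_zero_index]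
    rfl
  · exact absurd rfl hm

theorem T1a_X (j : Fin n) : HD 2 (MvPolynomial.X j : AA n) := by
  intro m hm
  rw [coeff_X] at hm
  split_ifs at hm with h
  · rw [← h, Finsupp.sum_single_index rfl]
    rfl
  · exact absurd rfl hm

theorem T1a_one : HD 0 (1 : AA n) := by
  rw [← MvPolynomial.C_1]
  exact HD.C 1

theorem T1a_C_mul {d : ℤ} (c : ℂ) {p : AA n} (hp : HD d p) : HD d (MvPolynomial.C c * p) := by
  have h := (HD.C c).mul hp
  rwa [zero_add] at h

theorem HD_fm0 (x : Fin n → ℤ) : HD 2 (fm0 x) := by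
  unfold fm0 Pool.Agent.MTX.lin
  exact HD.sum _ _ fun j _ => T1a_C_mul _ (T1a_X j)

/-- an even degree: `IsHomogeneous` -/
theorem T1a_nat {d : ℕ} {p : AA n} : HD (2 * (d : ℤ)) p ↔ p.IsHomogeneous d := by
  have key : ∀ m : Fin n →₀ ℕ, (m.sum fun _ e => e : ℕ) = Finsupp.weight 1 m := by
    intro m
    rw [Finsupp.weight_apply]
    simp
  constructor
  · intro h m hm
    have h1 := h m hm
    rw [key] at h1
    omega
  · intro h m hm
    have h1 := h hm
    rw [key]
    omega

/-- a nonzero homogeneous polynomial has an even, nonnegative degree -/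
theorem T1a_exists {d : ℤ} {p : AA n} (h0 : p ≠ 0) (hp : HD d p) : ∃ k : ℕ, d = 2 * (k : ℤ) := by
  obtain ⟨m, hm⟩ := MvPolynomial.exists_coeff_ne_zero h0
  exact ⟨_, (hp m hm).symm⟩

theorem HD.prod {ι : Type*} (s : Finset ι) (d : ι → ℤ) (f : ι → AA n)
    (h : ∀ i ∈ s, HD (d i) (f i)) : HD (∑ i ∈ s, d i) (∏ i ∈ s, f i) := by
  classical
  induction s using Finset.induction_on with
  | empty =>
    rw [Finset.sum_empty, Finset.prod_empty]
    exact T1a_one
  | insert a s ha ih =>
    rw [Finset.sum_insert ha, Finset.prod_insert ha]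
    exact (h a (Finset.mem_insert_self a s)).mul
      (ih fun i hi => h i (Finset.mem_insert_of_mem hi))

/-- the Weyl group preserves homogeneity -/
theorem HD.smul (u : D.W) {d : ℤ} {p : AA n} (hp : HD d p) : HD d (u • p) := by
  by_cases h0 : p = 0
  · rw [h0, smul_zero]
    exact HD.zero d
  · obtain ⟨k, rfl⟩ := T1a_exists h0 hp
    have h1 : p.IsHomogeneous k := T1a_nat.1 hp
    have h2 : (D.actO u p).IsHomogeneous (1 * k) := by
      unfold RD.actO
      refine h1.aeval _ fun i => ?_
      unfold fm0 Pool.Agent.MTX.lin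
      exact MvPolynomial.IsHomogeneous.sum _ _ _ fun j _ =>
        MvPolynomial.isHomogeneous_C_mul_X _ _
    rw [one_mul] at h2
    exact T1a_nat.2 h2

theorem HD.eq_zero {d : ℤ} (hd : d < 0) {p : AA n} (hp : HD d p) : p = 0 := by
  by_contra h0
  obtain ⟨k, rfl⟩ := T1a_exists h0 hp
  omega

theorem HD.const {p : AA n} (hp : HD 0 p) : ∃ c : ℂ, p = MvPolynomial.C c := by
  have h1 : p.IsHomogeneous 0 := T1a_nat.1 (by simpa using hp)
  exact ⟨_, (MvPolynomial.totalDegree_eq_zero_iff_eq_C).1
    ((MvPolynomial.totalDegree_zero_iff_isHomogeneous (Fin n)).2 h1)⟩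

theorem HD.of_mul {d e : ℤ} {p q : AA n} (h0 : p ≠ 0) (hp : HD d p) (h : HD e (p * q)) :
    HD (e - d) q := by
  intro m hm
  have hq0 : q ≠ 0 := by
    rintro rfl
    exact hm (coeff_zero m)
  obtain ⟨a, rfl⟩ := T1a_exists h0 hp
  obtain ⟨b, rfl⟩ := T1a_exists (mul_ne_zero h0 hq0) h
  have h1 : p.IsHomogeneous a := T1a_nat.1 hp
  have h2 : (p * q).IsHomogeneous b := T1a_nat.1 h
  set i : ℕ := m.degree with hi
  have hqi : homogeneousComponent i q ≠ 0 := by
    intro h3
    have h4 := coeff_homogeneousComponent i q m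
    rw [h3, if_pos hi.symm, coeff_zero] at h4
    exact hm h4.symm
  have h5 : homogeneousComponent (a + i) (p * q) = p * homogeneousComponent i q := by
    conv_lhs => rw [← sum_homogeneousComponent q, Finset.mul_sum, map_sum]
    have h6 : ∀ j, homogeneousComponent (a + i) (p * homogeneousComponent j q) =
        if j = i then p * homogeneousComponent j q else 0 := by
      intro j
      have h7 : (p * homogeneousComponent j q) ∈ homogeneousSubmodule (Fin n) ℂ (a + j) :=
        h1.mul (homogeneousComponent_isHomogeneous j q)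
      rw [homogeneousComponent_of_mem h7]
      by_cases hj : j = i
      · rw [if_pos (by omega), if_pos hj]
      · rw [if_neg (by omega), if_neg hj]
    simp only [h6]
    rw [Finset.sum_ite_eq']
    by_cases hr : i ∈ Finset.range (q.totalDegree + 1)
    · rw [if_pos hr]
    · rw [if_neg hr]
      rw [Finset.mem_range, not_lt] at hr
      rw [homogeneousComponent_eq_zero i q (by omega), mul_zero]
  have h8 : (p * q) ∈ homogeneousSubmodule (Fin n) ℂ b := h2
  rw [homogeneousComponent_of_mem h8] at h5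
  have h9 : a + i = b := by
    by_contra hne
    rw [if_neg hne] at h5
    exact mul_ne_zero h0 hqi h5.symm
  have h10 : (m.sum fun _ e => e : ℕ) = i := rfl
  rw [h10]
  omega

theorem HD.eq_zero_of_ne {d e : ℤ} (h : d ≠ e) {p : AA n} (hp : HD d p) (hp' : HD e p) :
    p = 0 := by
  by_contra h0
  obtain ⟨m, hm⟩ := MvPolynomial.exists_coeff_ne_zero h0
  exact h ((hp m hm).symm.trans (hp' m hm))

theorem HD.cast {d e : ℤ} {p : AA n} (h : d = e) (hp : HD d p) : HD e p := h ▸ hp

/-! ### eigenvectors -/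

section eig
variable {I : Type} [Fintype I] (s : Matrix I I (AA n))

/-- eigenvectors -/
def Eig (μ : Fin n → ℤ) (v : I → AA n) : Prop := s.mulVec v = (fm0 μ : AA n) • v

/-- left eigenvectors -/
def EigL (μ : Fin n → ℤ) (w : I → AA n) : Prop := s.vecMul w = (fm0 μ : AA n) • w

variable {s}

/-- `(μ - ν) (w v) = 0` -/
theorem EigL.orth {μ ν : Fin n → ℤ} {v w : I → AA n} (hw : EigL s μ w) (hv : Eig s ν v)
    (h : μ ≠ ν) : w ⬝ᵥ v = 0 := by
  have h1 : w ⬝ᵥ (s.mulVec v) = s.vecMul w ⬝ᵥ v := Matrix.dotProduct_mulVec w s v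
  rw [hv, hw, dotProduct_smul, smul_dotProduct, smul_eq_mul, smul_eq_mul] at h1
  have h2 : (fm0 (μ - ν) : AA n) * (w ⬝ᵥ v) = 0 := by
    rw [fm0_sub, sub_mul, h1, sub_self]
  rcases mul_eq_zero.1 h2 with h3 | h3
  · exact (fm0_ne_zero (sub_ne_zero.2 h) h3).elim
  · exact h3

theorem Eig.smul (hs : ∀ (u : D.W) a b, u • s a b = s a b) {μ : Fin n → ℤ} {v : I → AA n}
    (hv : Eig s μ v) (u : D.W) : Eig s (u.1 μ) (u • v) := by
  unfold Eig
  have h1 : s.mulVec (u • v) = u • s.mulVec v := by
    funext a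
    show ∑ b, s a b * (u • v b) = u • ∑ b, s a b * v b
    rw [Finset.smul_sum]
    refine Finset.sum_congr rfl fun b _ => ?_
    rw [smul_mul', hs]
  rw [h1, hv]
  funext a
  show u • ((fm0 μ : AA n) * v a) = fm0 (u.1 μ) * (u • v a)
  rw [smul_mul', D.smul_fm0]

theorem EigL.smul (hs : ∀ (u : D.W) a b, u • s a b = s a b) {μ : Fin n → ℤ} {w : I → AA n}
    (hw : EigL s μ w) (u : D.W) : EigL s (u.1 μ) (u • w) := by
  unfold EigL
  have h1 : s.vecMul (u • w) = u • s.vecMul w := by
    funext a
    show ∑ b, (u • w b) * s b a = u • ∑ b, w b * s b a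
    rw [Finset.smul_sum]
    refine Finset.sum_congr rfl fun b _ => ?_
    rw [smul_mul', hs]
  rw [h1, hw]
  funext a
  show u • ((fm0 μ : AA n) * w a) = fm0 (u.1 μ) * (u • w a)
  rw [smul_mul', D.smul_fm0]

omit [Fintype I] in
theorem dotProduct_smulW [Fintype I] (u : D.W) (v w : I → AA n) :
    u • (w ⬝ᵥ v) = (u • w) ⬝ᵥ (u • v) := by
  show u • ∑ a, w a * v a = ∑ a, (u • w a) * (u • v a)
  rw [Finset.smul_sum]
  exact Finset.sum_congr rfl fun a _ => smul_mul' _ _ _

end eig

theorem t1b_aeval_transpose {R I : Type} [CommRing R] [Fintype I] [DecidableEq I]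
    (S : Matrix I I R) (p : Polynomial R) :
    Polynomial.aeval S.transpose p = (Polynomial.aeval S p).transpose := by
  rw [Polynomial.aeval_eq_sum_range, Polynomial.aeval_eq_sum_range, Matrix.transpose_sum]
  refine Finset.sum_congr rfl fun i _ => ?_
  rw [Matrix.transpose_smul, Matrix.transpose_pow]

theorem t1b_prod (s : Finset (Fin n → ℤ)) :
    (∏ m ∈ s.image (fun m => -m), (Polynomial.X - Polynomial.C (fm0 m : AA n))) =
      (-1) ^ s.card * (∏ m ∈ s, (Polynomial.X - Polynomial.C (fm0 m : AA n))).comp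
        (-Polynomial.X) := by
  rw [Finset.prod_image (fun a _ b _ h => neg_inj.1 h), Polynomial.prod_comp,
    ← Finset.prod_const, ← Finset.prod_mul_distrib]
  refine Finset.prod_congr rfl fun m _ => ?_
  rw [Polynomial.sub_comp, Polynomial.X_comp, Polynomial.C_comp, fm0_neg, map_neg]
  ring

namespace KRep

variable (V : KRep D)

/-- `e + x` -/
noncomputable def N : Matrix V.I V.I (AA n) :=
  V.e.map MvPolynomial.C + Matrix.diagonal fun a => fm0 (V.wt a)

theorem conjN : V.S * V.P = V.P * V.N := V.conj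

theorem conj' : V.P' * V.S = V.N * V.P' := by
  have h1 : V.P' * (V.S * V.P) * V.P' = V.P' * (V.P * V.N) * V.P' := by rw [conjN]
  rw [← Matrix.mul_assoc, ← Matrix.mul_assoc, V.P'P, Matrix.one_mul, Matrix.mul_assoc (V.P' * V.S),
    V.PP', Matrix.mul_one] at h1
  exact h1

theorem e_ht {a b : V.I} (h : V.e a b ≠ 0) : D.ht2 (V.wt a) = D.ht2 (V.wt b) + 2 := by
  obtain ⟨s, hs⟩ := V.e_wt a b h
  rw [hs, D.ht2_add, D.ht2_sim s]

/-- The dual representation. -/
noncomputable def dual : KRep D where
  I := V.I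
  wt a := - V.wt a
  e := - V.e.transpose
  S := - V.S.transpose
  P := V.P'.transpose
  P' := V.P.transpose
  e_wt a b h := by
    obtain ⟨s, hs⟩ := V.e_wt b a (fun h' => h (by
      show - V.e b a = 0
      rw [h', neg_zero]))
    exact ⟨s, by rw [hs]; abel⟩
  PP' := by rw [← Matrix.transpose_mul, V.PP', Matrix.transpose_one]
  P'P := by rw [← Matrix.transpose_mul, V.P'P, Matrix.transpose_one]
  conj := by
    have h := congrArg Matrix.transpose V.conj'
    rw [Matrix.transpose_mul, Matrix.transpose_mul] at h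
    have h2 : (-V.e.transpose).map (MvPolynomial.C : ℂ → AA n) +
        (Matrix.diagonal fun a => (fm0 (-V.wt a) : AA n)) = - V.N.transpose := by
      refine Matrix.ext fun a b => ?_
      show MvPolynomial.C (-(V.e b a)) + (Matrix.diagonal fun a => (fm0 (-V.wt a) : AA n)) a b =
        -(MvPolynomial.C (V.e b a) + (Matrix.diagonal fun a => (fm0 (V.wt a) : AA n)) b a)
      rw [map_neg, neg_add, Matrix.diagonal_apply, Matrix.diagonal_apply]
      by_cases hab : a = b
      · rw [if_pos hab, if_pos hab.symm, fm0_neg, hab]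
      · rw [if_neg hab, if_neg (fun h => hab h.symm), neg_zero]
    rw [h2, Matrix.neg_mul, Matrix.mul_neg, h]
  S_W u a b := by
    show u • (- V.S b a) = - V.S b a
    rw [smul_neg, V.S_W]
  P_hd a b := (V.P'_hd b a).cast (by
    have := D.ht2_smul (-1)
    simp only [neg_smul, one_smul, neg_mul, one_mul] at this
    rw [this, this]; ring)
  P'_hd a b := (V.P_hd b a).cast (by
    have := D.ht2_smul (-1)
    simp only [neg_smul, one_smul, neg_mul, one_mul] at this
    rw [this, this]; ring)
  P_un a b h := by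
    have := D.ht2_smul (-1)
    simp only [neg_smul, one_smul, neg_mul, one_mul] at this
    rw [this, this, neg_inj] at h
    exact (V.P'_un b a h.symm).trans (by simp only [eq_comm])
  P'_un a b h := by
    have := D.ht2_smul (-1)
    simp only [neg_smul, one_smul, neg_mul, one_mul] at this
    rw [this, this, neg_inj] at h
    exact (V.P_un b a h.symm).trans (by simp only [eq_comm])
  /- the transpose of `V.dec`: `f(-Sᵀ) = (f(-S))ᵀ`, and up to a sign `∏ (-S + m) = ∏ (S - m)` -/
  dec := by
    have h1 : (Finset.univ.image fun a => - V.wt a) =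
        (Finset.univ.image V.wt).image (fun m => -m) := by
      rw [Finset.image_image]
      rfl
    rw [h1, t1b_prod, map_mul, Polynomial.aeval_comp, map_neg, Polynomial.aeval_X, neg_neg,
      t1b_aeval_transpose, V.dec, Matrix.transpose_zero, mul_zero]

end KRep

end Pool.Agent.MTG
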