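import Pool.Agent.MTG.GT1

/-! # MTG, Part T : extremal sections of a highest weight representation

`V.Top l a0` : `l` is the highest weight.  `EE V l E E'` : `E` (a vector) and `E'` (a row vector) are the sections of
weight `l` and of weight `-l` of the dual.  Euler class: `E' E = c Eu_l` for minuscule and quasi-minuscule `l`. -/

namespace Pool.Agent.MTG

open MvPolynomial
open Pool.Agent.MTX.SLD (RR AA fm0 fm0_add fm0_smul fm0_zero fm0_neg fm0_sub fm0_ne_zero fm0_prime)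

variable {n : ℕ} {D : RD n}

/-- `fm0` is injective (`fm0_sub`, `fm0_ne_zero`) -/
theorem fm0_inj {x y : Fin n → ℤ} (h : (fm0 x : AA n) = fm0 y) : x = y := by
  by_contra hne
  have h1 : x - y ≠ 0 := sub_ne_zero.2 hne
  exact fm0_ne_zero h1 (by rw [fm0_sub, h, sub_self])

/-! ### heights -/

theorem ht2_neg (x : Fin n → ℤ) : D.ht2 (-x) = - D.ht2 x := by
  have := D.ht2_smul (-1) x
  simpa using this

theorem t2a_all (x : Fin n → ℤ) :
    ∑ γ : D.Rt, |D.cp γ x| = 2 * ∑ γ : D.PRt, |D.cp γ.1 x| := by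
  rw [← Fintype.sum_subtype_add_sum_subtype D.Pos (fun γ => |D.cp γ x|)]
  have h1 : ∑ γ : {γ : D.Rt // ¬ D.Pos γ}, |D.cp γ.1 x| = ∑ γ : D.PRt, |D.cp γ.1 x| := by
    refine Fintype.sum_equiv
      { toFun := fun γ => ⟨D.ng γ.1, (D.pos_ng γ.1).2 γ.2⟩
        invFun := fun γ => ⟨D.ng γ.1, fun h => (D.pos_ng γ.1).1 h γ.2⟩
        left_inv := fun γ => Subtype.ext (D.ng_ng γ.1)
        right_inv := fun γ => Subtype.ext (D.ng_ng γ.1) } _ _ fun γ => ?_
    show |D.cp γ.1 x| = |D.cp (D.ng γ.1) x|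
    rw [D.cp_ng, abs_neg]
  rw [h1]
  ring

theorem t2a_sum (x : Fin n → ℤ) (u : D.W) :
    ∑ γ : D.PRt, |D.cp γ.1 (u.1 x)| = ∑ γ : D.PRt, |D.cp γ.1 x| := by
  have h1 : ∑ γ : D.Rt, |D.cp γ (u.1 x)| = ∑ γ : D.Rt, |D.cp γ x| := by
    symm
    refine Fintype.sum_equiv (MulAction.toPerm u) _ _ fun γ => ?_
    rw [MulAction.toPerm_apply, D.cp_smul_W]
  rw [t2a_all, t2a_all] at h1
  omega

/-- `|⟨u x, 2ρ^∨⟩| ≤ ⟨x, 2ρ^∨⟩` for dominant `x`: `∑_{γ>0} |cp γ (u x)| = ½ ∑_γ |cp γ (u x)| = ½ ∑_γ |cp γ x|`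
(`cp_smul_W`: reindex all roots by `u`; `|cp (ng γ)| = |cp γ|`; the sum over all roots is twice the sum over the
positive roots) `= ∑_{γ>0} cp γ x`. -/
theorem abs_ht2_le {x : Fin n → ℤ} (hx : D.Dom x) (u : D.W) : |D.ht2 (u.1 x)| ≤ D.ht2 x := by
  unfold RD.ht2
  refine (Finset.abs_sum_le_sum_abs _ _).trans ?_
  rw [t2a_sum x u]
  exact le_of_eq (Finset.sum_congr rfl fun γ _ => abs_of_nonneg (hx γ.1 γ.2))

/-- If `x` and `- u x` are dominant, then `ht2 (u x) = - ht2 x` (same computation: all `cp γ (u x) ≤ 0` for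
positive `γ`). -/
theorem ht2_anti {x : Fin n → ℤ} (hx : D.Dom x) {u : D.W} (hu : D.Dom (-(u.1 x))) :
    D.ht2 (u.1 x) = - D.ht2 x := by
  unfold RD.ht2
  have h1 := t2a_sum x u
  have h2 : ∑ γ : D.PRt, |D.cp γ.1 (u.1 x)| = - ∑ γ : D.PRt, D.cp γ.1 (u.1 x) := by
    rw [← Finset.sum_neg_distrib]
    refine Finset.sum_congr rfl fun γ _ => ?_
    have h3 := hu γ.1 γ.2
    rw [D.cp_neg] at h3
    rw [abs_of_nonpos (by omega)]
  have h4 : ∑ γ : D.PRt, |D.cp γ.1 x| = ∑ γ : D.PRt, D.cp γ.1 x :=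
    Finset.sum_congr rfl fun γ _ => abs_of_nonneg (hx γ.1 γ.2)
  rw [h2, h4] at h1
  omega

/-- `exists_dom` for `-x` -/
theorem exists_anti (x : Fin n → ℤ) : ∃ u : D.W, D.Dom (-(u.1 x)) := by
  obtain ⟨u, hu⟩ := D.exists_dom (-x)
  exact ⟨u, by rwa [map_neg] at hu⟩

/-! ### matrix entries of `S` -/

namespace KRep
variable (V : KRep D)

theorem T2b_N (a b : V.I) : V.N a b =
    MvPolynomial.C (V.e a b) + if a = b then (fm0 (V.wt a) : AA n) else 0 := by
  show MvPolynomial.C (V.e a b) + (Matrix.diagonal fun a => (fm0 (V.wt a) : AA n)) a b = _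
  rw [Matrix.diagonal_apply]

theorem T2b_N_hd (a b : V.I) : HD (D.ht2 (V.wt b) + 2 - D.ht2 (V.wt a)) (V.N a b) := by
  rw [T2b_N]
  apply HD.add
  · by_cases h : V.e a b = 0
    · rw [h, map_zero]
      exact HD.zero _
    · exact (HD.C _).cast (by rw [V.e_ht h]; ring)
  · by_cases h : a = b
    · subst h
      rw [if_pos rfl]
      exact (HD_fm0 _).cast (by ring)
    · rw [if_neg h]
      exact HD.zero _

theorem T2b_S : V.S = V.P * V.N * V.P' := by
  rw [← V.conjN, Matrix.mul_assoc, V.PP', Matrix.mul_one]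

theorem T2b_PN_hd (a d : V.I) : HD (D.ht2 (V.wt d) + 2 - D.ht2 (V.wt a)) ((V.P * V.N) a d) := by
  rw [Matrix.mul_apply]
  exact HD.sum _ _ fun c _ => ((V.P_hd a c).mul (V.T2b_N_hd c d)).cast (by ring)

/-- `S = P (e + x) P'` is homogeneous of degree one. -/
theorem S_hd (a b : V.I) : HD (D.ht2 (V.wt b) + 2 - D.ht2 (V.wt a)) (V.S a b) := by
  rw [V.T2b_S, Matrix.mul_apply]
  exact HD.sum _ _ fun d _ => ((V.T2b_PN_hd a d).mul (V.P'_hd d b)).cast (by ring)

/-- The lowest entries of `S`: in `S a b = ∑ P a c (e + x) c d P' d b` with `ht2 a = ht2 b + 2` the nonzero terms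
have degree zero, `ht2 a ≤ ht2 c` (`P_hd`, `HD.eq_zero`), `ht2 c ≤ ht2 d + 2`, `ht2 d ≤ ht2 b`, so all are equalities
(and the terms of `x` vanish: `ht2 c = ht2 d` is impossible); `P_un`, `P'_un`. -/
theorem S_e (a b : V.I) (h : D.ht2 (V.wt a) = D.ht2 (V.wt b) + 2) :
    V.S a b = MvPolynomial.C (V.e a b) := by
  rw [V.T2b_S, Matrix.mul_apply, Finset.sum_eq_single b]
  · rw [V.P'_un b b rfl, if_pos rfl, mul_one, Matrix.mul_apply, Finset.sum_eq_single a]
    · rw [V.P_un a a rfl, if_pos rfl, one_mul, T2b_N, if_neg, add_zero]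
      rintro rfl
      omega
    · intro c _ hc
      rcases lt_trichotomy (D.ht2 (V.wt c)) (D.ht2 (V.wt a)) with h1 | h1 | h1
      · rw [HD.eq_zero (by omega) (V.P_hd a c), zero_mul]
      · rw [V.P_un a c h1.symm, if_neg (Ne.symm hc), zero_mul]
      · rw [HD.eq_zero (by omega) (V.T2b_N_hd c b), mul_zero]
    · intro h1
      exact absurd (Finset.mem_univ a) h1
  · intro d _ hd
    rcases lt_trichotomy (D.ht2 (V.wt d)) (D.ht2 (V.wt b)) with h1 | h1 | h1
    · rw [HD.eq_zero (by omega) (V.T2b_PN_hd a d), zero_mul]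
    · rw [V.P'_un d b h1, if_neg hd, mul_zero]
    · rw [HD.eq_zero (by omega) (V.P'_hd d b), mul_zero]
  · intro h1
    exact absurd (Finset.mem_univ b) h1

/-- homogeneous vectors -/
def HV (d : ℤ) (v : V.I → AA n) : Prop := ∀ a, HD (d - D.ht2 (V.wt a)) (v a)

/-- homogeneous row vectors -/
def HV' (d : ℤ) (w : V.I → AA n) : Prop := ∀ a, HD (d + D.ht2 (V.wt a)) (w a)

variable {V}

theorem HV.smul {d : ℤ} {v : V.I → AA n} (h : V.HV d v) (u : D.W) : V.HV d (u • v) :=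
  fun a => (h a).smul u

theorem HV'.smul {d : ℤ} {w : V.I → AA n} (h : V.HV' d w) (u : D.W) : V.HV' d (u • w) :=
  fun a => (h a).smul u

theorem HV.dot {d d' : ℤ} {v w : V.I → AA n} (hv : V.HV d v) (hw : V.HV' d' w) :
    HD (d + d') (w ⬝ᵥ v) :=
  HD.sum _ _ fun a _ => ((hw a).mul (hv a)).cast (by ring)

/-- `l` is the highest weight. -/
structure Top (V : KRep D) (l : Fin n → ℤ) (a0 : V.I) : Prop where
  dom : D.Dom l
  wt0 : V.wt a0 = l
  uni : ∀ (u : D.W) a b, V.wt a = u.1 l → V.wt b = u.1 l → a = b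
  ht : ∀ a, |D.ht2 (V.wt a)| ≤ D.ht2 l
  surj : ∀ u : D.W, ∃ a, V.wt a = u.1 l

theorem Top.eq {l : Fin n → ℤ} {a0 a : V.I} (h : V.Top l a0) (ha : V.wt a = l) : a = a0 :=
  h.uni 1 a a0 ha h.wt0

/-- the dual representation (`b0` the index of the lowest weight `u0 l`) -/
theorem Top.dual {l : Fin n → ℤ} {a0 b0 : V.I} (h : V.Top l a0) {u0 : D.W}
    (hu : D.Dom (-(u0.1 l))) (hb : V.wt b0 = u0.1 l) : V.dual.Top (-(u0.1 l)) b0 := by
  have hneg : ∀ (u : D.W) (a : V.I), - V.wt a = u.1 (-(u0.1 l)) → V.wt a = (u * u0).1 l := by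
    intro u a ha
    rw [map_neg, neg_inj] at ha
    exact ha
  refine ⟨hu, ?_, ?_, ?_, ?_⟩
  · show - V.wt b0 = -(u0.1 l)
    rw [hb]
  · intro u a b ha hb'
    exact h.uni (u * u0) a b (hneg u a ha) (hneg u b hb')
  · intro a
    show |D.ht2 (- V.wt a)| ≤ D.ht2 (-(u0.1 l))
    rw [ht2_neg, ht2_neg, ht2_anti h.dom hu, abs_neg, neg_neg]
    exact h.ht a
  · intro u
    obtain ⟨a, ha⟩ := h.surj (u * u0)
    refine ⟨a, ?_⟩
    show - V.wt a = u.1 (-(u0.1 l))
    rw [map_neg, ha]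
    rfl

/-- the entries of `N` -/
theorem T2c_N (a b : V.I) : V.N a b =
    MvPolynomial.C (V.e a b) + if a = b then fm0 (V.wt a) else 0 := by
  unfold KRep.N
  rw [Matrix.add_apply, Matrix.map_apply, Matrix.diagonal_apply]

/-- nothing is above the highest weight: `e_ht`, `Top.ht` -/
theorem Top.e0 {l : Fin n → ℤ} {a0 : V.I} (h : V.Top l a0) (a : V.I) : V.e a a0 = 0 := by
  by_contra hne
  have h1 := V.e_ht hne
  have h2 := h.ht a
  rw [h.wt0] at h1
  have h3 := le_abs_self (D.ht2 (V.wt a))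
  omega

/-- The section `E` (a column of `P`): `S P = P N` and `N e_{a0} = l e_{a0}` (`Top.e0`). -/
theorem Top.eig {l : Fin n → ℤ} {a0 : V.I} (h : V.Top l a0) : Eig V.S l fun a => V.P a a0 := by
  funext a
  show (V.S * V.P) a a0 = fm0 l * V.P a a0
  rw [V.conjN, Matrix.mul_apply, Finset.sum_eq_single a0]
  · rw [T2c_N, h.e0, map_zero, zero_add, if_pos rfl, h.wt0, mul_comm]
  · intro b _ hb
    rw [T2c_N, h.e0, map_zero, zero_add, if_neg hb, mul_zero]
  · intro h1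
    exact absurd (Finset.mem_univ _) h1

/-- Uniqueness.  `ξ = P' v` satisfies `N ξ = l ξ` (`conj'`), i.e. `(l - wt a) ξ a = ∑_b e a b ξ b`.  Claim `ξ a = 0` for
`a ≠ a0`, by strong induction on the height of `a` (`e_ht`; the heights are bounded below by `Top.ht`): the `b` with
`e a b ≠ 0` are lower, and `b ≠ a0` by `Top.e0`; `wt a ≠ l` (`Top.eq`), `fm0_inj`.  So `v = P ξ = ξ a0 • E`, and
`ξ a0 = v a0` as `P a0 a0 = 1` (`P_un`). -/
theorem Top.uniq {l : Fin n → ℤ} {a0 : V.I} (h : V.Top l a0) {v : V.I → AA n}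
    (hv : Eig V.S l v) : v = v a0 • fun a => V.P a a0 := by
  obtain ⟨ξ, hξ⟩ : ∃ ξ : V.I → AA n, ξ = V.P'.mulVec v := ⟨_, rfl⟩
  have h1 : V.N.mulVec ξ = (fm0 l : AA n) • ξ := by
    rw [hξ, Matrix.mulVec_mulVec, ← V.conj', ← Matrix.mulVec_mulVec, hv, Matrix.mulVec_smul]
  have h2 : ∀ a, (fm0 l - fm0 (V.wt a)) * ξ a = ∑ b, MvPolynomial.C (V.e a b) * ξ b := by
    intro a
    have h3 := congrFun h1 a
    have h4 : (V.N.mulVec ξ) a = ∑ b, MvPolynomial.C (V.e a b) * ξ b + fm0 (V.wt a) * ξ a := by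
      show ∑ b, V.N a b * ξ b = _
      have h5 : ∀ b, V.N a b * ξ b = MvPolynomial.C (V.e a b) * ξ b +
          (if a = b then fm0 (V.wt a) * ξ b else 0) := by
        intro b
        rw [T2c_N, add_mul]
        congr 1
        split_ifs with h6
        · rfl
        · rw [zero_mul]
      rw [Finset.sum_congr rfl fun b _ => h5 b, Finset.sum_add_distrib, Finset.sum_ite_eq,
        if_pos (Finset.mem_univ _)]
    rw [h4] at h3
    have h5 : ((fm0 l : AA n) • ξ) a = fm0 l * ξ a := rfl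
    rw [h5] at h3
    linear_combination h3.symm
  have h3 : ∀ (k : ℕ) (a : V.I), D.ht2 (V.wt a) + D.ht2 l < k → a ≠ a0 → ξ a = 0 := by
    intro k
    induction k with
    | zero =>
      intro a ha _
      have h4 := h.ht a
      have h5 := neg_abs_le (D.ht2 (V.wt a))
      push_cast at ha
      omega
    | succ k ih =>
      intro a ha hne
      have h4 : ∑ b, MvPolynomial.C (V.e a b) * ξ b = 0 := by
        refine Finset.sum_eq_zero fun b _ => ?_
        by_cases h5 : V.e a b = 0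
        · rw [h5, map_zero, zero_mul]
        · have h6 := V.e_ht h5
          have h7 : b ≠ a0 := by
            intro h8
            rw [h8] at h5
            exact h5 (h.e0 a)
          rw [ih b (by push_cast at ha; omega) h7, mul_zero]
      have h5 := h2 a
      rw [h4] at h5
      refine (mul_eq_zero.1 h5).resolve_left fun h6 => ?_
      have h7 := fm0_inj (sub_eq_zero.1 h6)
      exact hne (h.eq h7.symm)
  have h4 : ∀ a, a ≠ a0 → ξ a = 0 := by
    intro a ha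
    exact h3 ((D.ht2 (V.wt a) + D.ht2 l).toNat + 1) a (by push_cast; omega) ha
  have h5 : v = V.P.mulVec ξ := by
    rw [hξ, Matrix.mulVec_mulVec, V.PP', Matrix.one_mulVec]
  have h6 : ∀ a, v a = V.P a a0 * ξ a0 := by
    intro a
    rw [h5]
    show ∑ b, V.P a b * ξ b = _
    rw [Finset.sum_eq_single a0]
    · intro b _ hb
      rw [h4 b hb, mul_zero]
    · intro h7
      exact absurd (Finset.mem_univ _) h7
  have h7 : v a0 = ξ a0 := by
    rw [h6, V.P_un a0 a0 rfl, if_pos rfl, one_mul]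
  funext a
  show v a = v a0 * V.P a a0
  rw [h6, h7, mul_comm]

/-- A nonzero row vector of weight `l` pairs nontrivially with `E`.  `η = w P` satisfies `η N = l η` (`conjN`), i.e.
`(l - wt b) η b = ∑_a η a e a b`, and `w E = η a0`.  If `η a0 = 0`, then `η b = 0` for all `b` by downward induction on
the height (`e_ht`, bounded above), so `w = η P' = 0`. -/
theorem Top.pair_ne {l : Fin n → ℤ} {a0 : V.I} (h : V.Top l a0) {w : V.I → AA n}
    (hw : EigL V.S l w) (h0 : w ≠ 0) : w ⬝ᵥ (fun a => V.P a a0) ≠ 0 := by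
  intro hz
  obtain ⟨η, hη⟩ : ∃ η : V.I → AA n, η = Matrix.vecMul w V.P := ⟨_, rfl⟩
  have hw' : Matrix.vecMul w V.S = (fm0 l : AA n) • w := hw
  have h1 : Matrix.vecMul η V.N = (fm0 l : AA n) • η := by
    rw [hη, Matrix.vecMul_vecMul, ← V.conjN, ← Matrix.vecMul_vecMul, hw', Matrix.smul_vecMul]
  have h2 : ∀ b, (fm0 l - fm0 (V.wt b)) * η b = ∑ a, η a * MvPolynomial.C (V.e a b) := by
    intro b
    have h3 := congrFun h1 b
    have h4 : (Matrix.vecMul η V.N) b = ∑ a, η a * MvPolynomial.C (V.e a b) + η b * fm0 (V.wt b) := by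
      show ∑ a, η a * V.N a b = _
      have h5 : ∀ a, η a * V.N a b = η a * MvPolynomial.C (V.e a b) +
          (if a = b then η a * fm0 (V.wt a) else 0) := by
        intro a
        rw [T2c_N, mul_add]
        congr 1
        split_ifs with h6
        · rfl
        · rw [mul_zero]
      rw [Finset.sum_congr rfl fun a _ => h5 a, Finset.sum_add_distrib, Finset.sum_ite_eq',
        if_pos (Finset.mem_univ _)]
    rw [h4] at h3
    have h5 : ((fm0 l : AA n) • η) b = fm0 l * η b := rfl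
    rw [h5] at h3
    linear_combination h3.symm
  have h00 : η a0 = 0 := by
    rw [hη]
    exact hz
  have h3 : ∀ (k : ℕ) (b : V.I), D.ht2 l - D.ht2 (V.wt b) < k → η b = 0 := by
    intro k
    induction k with
    | zero =>
      intro b hb
      have h4 := h.ht b
      have h5 := le_abs_self (D.ht2 (V.wt b))
      push_cast at hb
      omega
    | succ k ih =>
      intro b hb
      by_cases hne : b = a0
      · rw [hne]
        exact h00
      · have h4 : ∑ a, η a * MvPolynomial.C (V.e a b) = 0 := by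
          refine Finset.sum_eq_zero fun a _ => ?_
          by_cases h5 : V.e a b = 0
          · rw [h5, map_zero, mul_zero]
          · have h6 := V.e_ht h5
            rw [ih a (by push_cast at hb; omega), zero_mul]
        have h5 := h2 b
        rw [h4] at h5
        refine (mul_eq_zero.1 h5).resolve_left fun h6 => ?_
        have h7 := fm0_inj (sub_eq_zero.1 h6)
        exact hne (h.eq h7.symm)
  have h4 : η = 0 := by
    funext b
    exact h3 ((D.ht2 l - D.ht2 (V.wt b)).toNat + 1) b (by push_cast; omega)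
  apply h0
  have h5 : w = Matrix.vecMul η V.P' := by
    rw [hη, Matrix.vecMul_vecMul, V.PP', Matrix.vecMul_one]
  rw [h5, h4, Matrix.zero_vecMul]

end KRep

/-- The pair of extremal sections. -/
structure EE (V : KRep D) (l : Fin n → ℤ) (E E' : V.I → AA n) : Prop where
  eig : Eig V.S l E
  eig' : EigL V.S l E'
  inv : ∀ u : D.W, u.1 l = l → u • E = E
  inv' : ∀ u : D.W, u.1 l = l → u • E' = E'
  hv : V.HV (D.ht2 l) E
  hv' : V.HV' (D.ht2 l) E'
  one : ∃ a, E a = 1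
  one' : ∃ a, E' a = 1
  uniq : ∀ v : V.I → AA n, Eig V.S l v → ∃ y : AA n, v = y • E
  uniq' : ∀ w : V.I → AA n, EigL V.S l w → ∃ y : AA n, w = y • E'
  ne : E' ⬝ᵥ E ≠ 0

theorem t2d_eigL {V : KRep D} {μ : Fin n → ℤ} {w : V.I → AA n} :
    EigL V.S μ w ↔ Eig V.dual.S (-μ) w := by
  unfold EigL Eig
  have h1 : V.dual.S.mulVec w = - V.S.vecMul w := by
    show (- V.S.transpose).mulVec w = _
    rw [Matrix.neg_mulVec, Matrix.mulVec_transpose]
  have h2 : ∀ x y : V.I → AA n, -x = -y ↔ x = y := fun x y => neg_inj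
  rw [h1, fm0_neg, neg_smul]
  exact (h2 _ _).symm

theorem t2d_inv_apply (u : D.W) (l : Fin n → ℤ) : (u⁻¹).1 (u.1 l) = l := by
  show ((u⁻¹ * u : D.W)).1 l = l
  rw [inv_mul_cancel]
  rfl

theorem t2d_P_one (V : KRep D) (a : V.I) : V.P a a = 1 := by
  rw [V.P_un a a rfl, if_pos rfl]

theorem t2d_inv {V : KRep D} {l : Fin n → ℤ} {a0 : V.I} (h : V.Top l a0) {u : D.W}
    (hu : u.1 l = l) : (u • fun a => V.P a a0) = fun a => V.P a a0 := by
  have h1 := h.eig.smul V.S_W u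
  rw [hu] at h1
  have h2 := h.uniq h1
  have h3 : (u • fun a => V.P a a0) a0 = 1 := by
    show u • V.P a0 a0 = 1
    rw [t2d_P_one, smul_one]
  rw [h3, one_smul] at h2
  exact h2

/-- Let `u0 l` be the lowest weight (`exists_anti`, `Top.surj`: index `b0`), `E a = P a a0` and
`E' = u0⁻¹ • (row b0 of P')` (it is the section of the dual representation, `Top.dual`, moved by `u0⁻¹`; the
conditions for the row vector are those of `V.dual` for columns, with `- wt`).  Everything follows from `Top.eig`,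
`Top.uniq` (for `inv`: `u E` has weight `u l = l` and `(u E) a0 = u 1 = 1`), `Top.pair_ne`, `P_hd`, `ht2_anti`. -/
theorem exists_EE {V : KRep D} {l : Fin n → ℤ} {a0 : V.I} (h : V.Top l a0) {u0 : D.W}
    {b0 : V.I} (hu : D.Dom (-(u0.1 l))) (hb : V.wt b0 = u0.1 l) :
    EE V l (fun a => V.P a a0) (u0⁻¹ • fun a => V.P' b0 a) := by
  have hd : V.dual.Top (-(u0.1 l)) b0 := h.dual hu hb
  have hEd : Eig V.dual.S (-(u0.1 l)) (fun a => V.P' b0 a) := hd.eig
  have hE' : EigL V.S (u0.1 l) (fun a => V.P' b0 a) := t2d_eigL.2 hEd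
  have hone : V.P' b0 b0 = 1 := t2d_P_one V.dual b0
  have heig' : EigL V.S l (u0⁻¹ • fun a => V.P' b0 a) := by
    have h1 := hE'.smul V.S_W u0⁻¹
    rwa [t2d_inv_apply] at h1
  have hE'1 : (u0⁻¹ • fun a => V.P' b0 a) b0 = 1 := by
    show u0⁻¹ • V.P' b0 b0 = 1
    rw [hone, smul_one]
  refine
    { eig := h.eig
      eig' := heig'
      inv := fun u hul => t2d_inv h hul
      inv' := fun u hul => ?_
      hv := fun a => ?_
      hv' := ?_
      one := ⟨a0, t2d_P_one V a0⟩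
      one' := ⟨b0, hE'1⟩
      uniq := fun v hv => ⟨v a0, h.uniq hv⟩
      uniq' := fun w hw => ?_
      ne := h.pair_ne heig' fun h0 => ?_ }
  · have h1 : (u0 * u * u0⁻¹ : D.W).1 (-(u0.1 l)) = -(u0.1 l) := by
      show u0.1 (u.1 ((u0⁻¹).1 (-(u0.1 l)))) = -(u0.1 l)
      rw [map_neg, t2d_inv_apply, map_neg, hul, map_neg]
    have h2 : ((u0 * u * u0⁻¹ : D.W) • fun a => V.P' b0 a) = fun a => V.P' b0 a := t2d_inv hd h1
    calc u • (u0⁻¹ • fun a => V.P' b0 a)
        = u0⁻¹ • ((u0 * u * u0⁻¹ : D.W) • fun a => V.P' b0 a) := by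
          rw [smul_smul, smul_smul]
          congr 1
          group
      _ = u0⁻¹ • fun a => V.P' b0 a := by rw [h2]
  · exact (V.P_hd a a0).cast (by rw [h.wt0])
  · have h1 : V.HV' (D.ht2 l) (fun a => V.P' b0 a) := fun a =>
      (V.P'_hd b0 a).cast (by rw [hb, ht2_anti h.dom hu]; ring)
    exact h1.smul u0⁻¹
  · have h1 := hw.smul V.S_W u0
    have h2 := hd.uniq (t2d_eigL.1 h1)
    have h3 : (fun a => V.dual.P a b0) = fun a => V.P' b0 a := rfl
    rw [h3] at h2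
    refine ⟨u0⁻¹ • ((u0 • w) b0), ?_⟩
    have h4 : w = u0⁻¹ • (u0 • w) := by rw [inv_smul_smul]
    rw [h4]
    conv_lhs => rw [h2]
    funext a
    show u0⁻¹ • (((u0 • w) b0) * V.P' b0 a) = _
    rw [smul_mul']
    rw [← h4]
    rfl
  · rw [h0] at hE'1
    exact zero_ne_one hE'1

namespace EE
variable {V : KRep D} {l : Fin n → ℤ} {E E' : V.I → AA n}

/-- the pairing is divisible by every root not orthogonal to `l`: `E ≡ s_γ E` modulo `γ` (`fm0_dvd`) and
`E' (s_γ E) = 0` (`EigL.orth`, weights `l` and `s_γ l ≠ l`). -/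
theorem dvd (h : EE V l E E') (γ : D.Rt) (hγ : D.cp γ l ≠ 0) : (fm0 γ.1 : AA n) ∣ E' ⬝ᵥ E := by
  have h0 : E' ⬝ᵥ (D.rW γ • E) = 0 := by
    refine EigL.orth h.eig' (Eig.smul V.S_W h.eig (D.rW γ)) fun h1 => hγ ?_
    rw [RD.rW_apply, RD.rf] at h1
    have h2 : D.cp γ l • γ.1 = 0 := by
      have h3 := sub_eq_zero.2 h1
      rwa [sub_sub_cancel] at h3
    rcases smul_eq_zero.1 h2 with h3 | h3
    · exact h3
    · exact absurd h3 (D.Rt_ne γ)
  have h1 : E' ⬝ᵥ E = ∑ a, E' a * (E a - D.rW γ • E a) := by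
    have h2 : E' ⬝ᵥ E = E' ⬝ᵥ E - E' ⬝ᵥ (D.rW γ • E) := by rw [h0, sub_zero]
    rw [h2, dotProduct, dotProduct, ← Finset.sum_sub_distrib]
    refine Finset.sum_congr rfl fun a _ => ?_
    rw [mul_sub]
    rfl
  rw [h1]
  exact Finset.dvd_sum fun a _ => Dvd.dvd.mul_left (D.fm0_dvd γ (E a)) _

/-- degree of the pairing -/
theorem hd (h : EE V l E E') : HD (2 * D.ht2 l) (E' ⬝ᵥ E) :=
  (h.hv.dot h.hv').cast (by ring)

/-- the Euler class has degree `ht2 l` (`Eu_dom`, `HD_fm0`, `HD.prod`: `2 ∑_{γ>0} cp γ l = 2 * ht2 l`). -/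
theorem hd_Eu (hl : D.Dom l) : HD (2 * D.ht2 l) (D.Eu l) := by
  rw [D.Eu_dom hl]
  have h1 : ∀ (x : Fin n → ℤ) (k : ℕ), HD (2 * (k : ℤ)) ((fm0 x : AA n) ^ k) := by
    intro x k
    have h2 := HD.prod (Finset.range k) (fun _ => 2) (fun _ => (fm0 x : AA n)) fun _ _ => HD_fm0 x
    rw [Finset.prod_const, Finset.sum_const, Finset.card_range] at h2
    exact h2.cast (by rw [nsmul_eq_mul, mul_comm])
  have h3 : 2 * D.ht2 l = ∑ γ : D.PRt, 2 * (((D.cp γ.1 l).toNat : ℕ) : ℤ) := by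
    rw [RD.ht2, Finset.mul_sum]
    refine Finset.sum_congr rfl fun γ _ => ?_
    rw [Int.toNat_of_nonneg (hl γ.1 γ.2)]
  rw [h3]
  exact HD.prod _ _ _ fun γ _ => h1 _ _

/-- If `Eu_l` divides the pairing, it is a nonzero constant multiple (degrees). -/
theorem eq_of_dvd (h : EE V l E E') (hl : D.Dom l) (h1 : D.Eu l ∣ E' ⬝ᵥ E) :
    ∃ c : ℂ, c ≠ 0 ∧ E' ⬝ᵥ E = MvPolynomial.C c * D.Eu l := by
  obtain ⟨q, hq⟩ := h1
  have h2 : HD 0 q := (HD.of_mul (D.Eu_ne l) (hd_Eu hl) (hq ▸ h.hd)).cast (sub_self _)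
  obtain ⟨c, rfl⟩ := h2.const
  refine ⟨c, fun hc => h.ne ?_, by rw [hq, mul_comm]⟩
  rw [hq, hc, map_zero, mul_zero]

/-- If the pairing divides `Eu_l` it is a nonzero constant multiple (degrees). -/
theorem eq_of_dvd' (h : EE V l E E') (hl : D.Dom l) (h1 : E' ⬝ᵥ E ∣ D.Eu l) :
    ∃ c : ℂ, c ≠ 0 ∧ E' ⬝ᵥ E = MvPolynomial.C c * D.Eu l := by
  obtain ⟨q, hq⟩ := h1
  have h2 : HD 0 q := (HD.of_mul h.ne h.hd (hq ▸ hd_Eu hl)).cast (sub_self _)
  obtain ⟨c, rfl⟩ := h2.const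
  have hc : c ≠ 0 := fun hc => D.Eu_ne l (by rw [hq, hc, map_zero, mul_zero])
  refine ⟨c⁻¹, inv_ne_zero hc, ?_⟩
  rw [hq, mul_left_comm, ← map_mul, inv_mul_cancel₀ hc, map_one, mul_one]

/-- auxiliary: a product of non-associated primes (MTX/T1 `prod_dvd_of_prime`) -/
theorem T2f_prod {ι : Type*} (s : Finset ι) (f : ι → AA n) (c : AA n)
    (hp : ∀ i ∈ s, Prime (f i)) (hne : ∀ i ∈ s, ∀ j ∈ s, i ≠ j → ¬ f i ∣ f j)
    (hd : ∀ i ∈ s, f i ∣ c) : ∏ i ∈ s, f i ∣ c := by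
  classical
  induction s using Finset.induction_on with
  | empty => rw [Finset.prod_empty]; exact one_dvd c
  | insert a s ha ih =>
    obtain ⟨c', hc'⟩ := ih (fun i hi => hp i (Finset.mem_insert_of_mem hi))
      (fun i hi j hj => hne i (Finset.mem_insert_of_mem hi) j (Finset.mem_insert_of_mem hj))
      (fun i hi => hd i (Finset.mem_insert_of_mem hi))
    have h1 : f a ∣ (∏ i ∈ s, f i) * c' := by
      rw [← hc']
      exact hd a (Finset.mem_insert_self a s)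
    have hpa := hp a (Finset.mem_insert_self a s)
    rcases hpa.dvd_or_dvd h1 with h2 | h2
    · exfalso
      obtain ⟨i, hi, h3⟩ := (Prime.dvd_finsetProd_iff hpa _).1 h2
      refine hne a (Finset.mem_insert_self a s) i (Finset.mem_insert_of_mem hi) ?_ h3
      rintro rfl
      exact ha hi
    · obtain ⟨c'', hc''⟩ := h2
      rw [Finset.prod_insert ha]
      refine ⟨c'', ?_⟩
      rw [hc', hc'']
      ring

/-- auxiliary: a positive root is not the negative of a positive root -/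
theorem T2f_ne (γ δ : D.PRt) : δ.1 ≠ D.ng γ.1 := by
  intro h
  have h1 := δ.2
  rw [h, D.pos_ng] at h1
  exact h1 γ.2

/-- auxiliary: divisibility by the square of the root -/
theorem T2f_sq {θ : D.Rt} {E E' ζ : V.I → AA n} (h : EE V θ.1 E E')
    (h0 : Eig V.S 0 ζ) (h1 : ∀ a, (fm0 θ.1 : AA n) ∣ ζ a - E a) :
    (fm0 θ.1 : AA n) ^ 2 ∣ E' ⬝ᵥ E := by
  have hθ : (fm0 θ.1 : AA n) ≠ 0 := fm0_ne_zero (D.Rt_ne θ)
  have hs : (D.rW θ).1 θ.1 = -θ.1 := D.rf_self θ
  have e1 : E' ⬝ᵥ (D.rW θ • E) = 0 := by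
    refine h.eig'.orth (h.eig.smul V.S_W (D.rW θ)) ?_
    rw [hs]
    intro h2
    have h3 := D.Rt_ne θ
    apply h3
    funext i
    have h4 := congrFun h2 i
    rw [Pi.neg_apply] at h4
    show θ.1 i = 0
    omega
  have e2 : E' ⬝ᵥ ζ = 0 := h.eig'.orth h0 (D.Rt_ne θ)
  have e3 : E' ⬝ᵥ (D.rW θ • ζ) = 0 := by
    refine h.eig'.orth (h0.smul V.S_W (D.rW θ)) ?_
    rw [map_zero]
    exact D.Rt_ne θ
  have e4 : E' ⬝ᵥ E = E' ⬝ᵥ ((E - ζ) + D.rW θ • (E - ζ)) := by
    rw [dotProduct_add, smul_sub, dotProduct_sub, dotProduct_sub, e1, e2, e3]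
    ring
  rw [e4]
  refine Finset.dvd_sum fun a _ => Dvd.dvd.mul_left ?_ _
  obtain ⟨x, hx⟩ := h1 a
  have h5 : E a - ζ a = (fm0 θ.1 : AA n) * (-x) := by linear_combination -hx
  obtain ⟨y, hy⟩ := D.fm0_dvd θ (-x)
  refine ⟨y, ?_⟩
  show (E a - ζ a) + D.rW θ • (E a - ζ a) = _
  rw [h5, smul_mul', D.smul_fm0, hs, fm0_neg]
  linear_combination (fm0 θ.1 : AA n) * hy

/-- Minuscule case: `Eu_l = ∏_{γ>0, cp γ l = 1} γ` (`Eu_dom`), a product of non-associated primes (`fm0_ndvd`), each of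
which divides the pairing (`dvd`); `eq_of_dvd`.  (Cf. MTX/T1 `prod_dvd_of_prime`.) -/
theorem eq_mnu (h : EE V l E E') (hl : D.Mnu l) :
    ∃ c : ℂ, c ≠ 0 ∧ E' ⬝ᵥ E = MvPolynomial.C c * D.Eu l := by
  classical
  refine h.eq_of_dvd hl.1 ?_
  have h1 : D.Eu l = ∏ γ ∈ (Finset.univ : Finset D.PRt).filter (fun γ => D.cp γ.1 l ≠ 0),
      (fm0 γ.1.1 : AA n) := by
    rw [D.Eu_dom hl.1, Finset.prod_filter]
    refine Finset.prod_congr rfl fun γ _ => ?_
    have h2 := hl.1 γ.1 γ.2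
    have h3 := hl.2 γ.1
    rw [abs_of_nonneg h2] at h3
    split_ifs with h4
    · have h5 : D.cp γ.1 l = 1 := by omega
      rw [h5]
      exact pow_one _
    · have h5 : D.cp γ.1 l = 0 := by omega
      rw [h5]
      exact pow_zero _
  rw [h1]
  refine T2f_prod _ _ _ (fun γ _ => fm0_prime (D.Rt_ne γ.1)) (fun γ _ δ _ hne => ?_) (fun γ hγ => ?_)
  · exact D.fm0_ndvd (fun h2 => hne (Subtype.ext h2.symm)) (T2f_ne γ δ)
  · exact h.dvd γ.1 (Finset.mem_filter.1 hγ).2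

/-- Quasi-minuscule case, `l = θ`.  `Eu_θ = θ² ∏_{γ>0, γ≠θ, cp γ θ = 1} γ`; by `dvd` only `θ² ∣ E' E` is left.
Replace `ζ` by `½ (ζ + s_θ ζ)` (again of weight `0`, `≡ E` modulo `θ` by `fm0_dvd`), so `s_θ ζ = ζ`.
`Y := E + s_θ E - 2 ζ` is divisible by `θ` (coordinatewise: `Y a = θ y`), and `s_θ Y = Y` gives `s_θ y = - y`
(`s_θ θ = - θ`), so `θ ∣ y - s_θ y = 2 y`: `θ² ∣ Y a`.  Finally `E' Y = E' E`, as `E' (s_θ E) = 0` and `E' ζ = 0`
(`EigL.orth`: weights `θ` versus `-θ` and `0`). -/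
theorem eq_qmn {θ : D.Rt} {E E' ζ : V.I → AA n} (h : EE V θ.1 E E') (hθ : D.QMn θ)
    (h0 : Eig V.S 0 ζ) (h1 : ∀ a, (fm0 θ.1 : AA n) ∣ ζ a - E a) :
    ∃ c : ℂ, c ≠ 0 ∧ E' ⬝ᵥ E = MvPolynomial.C c * D.Eu θ.1 := by
  classical
  refine h.eq_of_dvd hθ.1 ?_
  have hpos : D.Pos θ := by
    by_contra h2
    have h3 := hθ.1 _ ((D.pos_ng θ).2 h2)
    rw [RD.cp_ng, RD.cp_self] at h3
    omega
  -- the square of the root
  have hsq := T2f_sq h h0 h1
  -- the Euler class
  have hEu : D.Eu θ.1 = (fm0 θ.1 : AA n) ^ 2 *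
      ∏ γ ∈ (Finset.univ : Finset D.PRt).filter (fun γ => γ.1 ≠ θ ∧ D.cp γ.1 θ.1 ≠ 0),
        (fm0 γ.1.1 : AA n) := by
    rw [D.Eu_dom hθ.1, Finset.prod_filter,
      ← Finset.mul_prod_erase (Finset.univ : Finset D.PRt) _ (Finset.mem_univ (⟨θ, hpos⟩ : D.PRt)),
      ← Finset.mul_prod_erase (Finset.univ : Finset D.PRt)
        (fun γ => if γ.1 ≠ θ ∧ D.cp γ.1 θ.1 ≠ 0 then (fm0 γ.1.1 : AA n) else 1)
        (Finset.mem_univ (⟨θ, hpos⟩ : D.PRt))]
    have h2 : (if (⟨θ, hpos⟩ : D.PRt).1 ≠ θ ∧ D.cp (⟨θ, hpos⟩ : D.PRt).1 θ.1 ≠ 0 then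
        (fm0 (⟨θ, hpos⟩ : D.PRt).1.1 : AA n) else 1) = 1 := if_neg fun h3 => h3.1 rfl
    rw [h2, one_mul]
    have h3 : (fm0 (⟨θ, hpos⟩ : D.PRt).1.1 : AA n) ^ (D.cp (⟨θ, hpos⟩ : D.PRt).1 θ.1).toNat =
        (fm0 θ.1 : AA n) ^ 2 := by
      show (fm0 θ.1 : AA n) ^ (D.cp θ θ.1).toNat = _
      rw [RD.cp_self]
      rfl
    rw [h3]
    congr 1
    refine Finset.prod_congr rfl fun γ hγ => ?_
    have h4 : γ.1 ≠ θ := fun h5 => (Finset.mem_erase.1 hγ).1 (Subtype.ext h5)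
    have h5 : γ.1 ≠ D.ng θ := by
      intro h6
      have h7 := γ.2
      rw [h6, D.pos_ng] at h7
      exact h7 hpos
    have h6 := hθ.1 γ.1 γ.2
    have h7 := hθ.2 γ.1 h4 h5
    rw [abs_of_nonneg h6] at h7
    split_ifs with h8
    · have h9 : D.cp γ.1 θ.1 = 1 := by
        have := h8.2
        omega
      rw [h9]
      exact pow_one _
    · have h9 : D.cp γ.1 θ.1 = 0 := by
        by_contra h10
        exact h8 ⟨h4, h10⟩
      rw [h9]
      exact pow_zero _
  rw [hEu]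
  obtain ⟨c', hc'⟩ := hsq
  rw [hc']
  refine mul_dvd_mul_left _ ?_
  refine T2f_prod _ _ _ (fun γ _ => fm0_prime (D.Rt_ne γ.1)) (fun γ _ δ _ hne => ?_) (fun γ hγ => ?_)
  · exact D.fm0_ndvd (fun h2 => hne (Subtype.ext h2.symm)) (T2f_ne γ δ)
  · obtain ⟨h2, h3⟩ := (Finset.mem_filter.1 hγ).2
    have h4 := h.dvd γ.1 h3
    rw [hc'] at h4
    have hp : Prime (fm0 γ.1.1 : AA n) := fm0_prime (D.Rt_ne γ.1)
    rcases hp.dvd_or_dvd h4 with h5 | h5
    · exfalso
      have h6 := hp.dvd_of_dvd_pow h5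
      exact D.fm0_ndvd (fun h7 => h2 h7.symm) (T2f_ne γ ⟨θ, hpos⟩) h6
    · exact h5

end EE

/-! ### decomposition into weight vectors -/

/-- Lagrange interpolation without denominators -/
theorem t2g_lagrange {R ι : Type} [CommRing R] [IsDomain R] [DecidableEq ι] (s : Finset ι)
    (hs : s.Nonempty) (f : ι → R) (hf : Set.InjOn f s) : ∃ (d : R) (c : ι → R), d ≠ 0 ∧
      ∑ m ∈ s, Polynomial.C (c m) * ∏ k ∈ s.erase m, (Polynomial.X - Polynomial.C (f k)) =
        Polynomial.C d := by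
  set E : ι → R := fun m => ∏ k ∈ s.erase m, (f m - f k) with hE
  have hE0 : ∀ m ∈ s, E m ≠ 0 := by
    intro m hm
    rw [hE]
    refine Finset.prod_ne_zero_iff.2 fun k hk => ?_
    rw [Finset.mem_erase] at hk
    exact sub_ne_zero.2 fun h => hk.1 (hf hk.2 hm h.symm)
  refine ⟨∏ m ∈ s, E m, fun m => ∏ k ∈ s.erase m, E k, Finset.prod_ne_zero_iff.2 hE0, ?_⟩
  refine Polynomial.eq_of_degree_sub_lt_of_eval_index_eq s hf ?_ ?_
  · have hcard : 0 < s.card := hs.card_pos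
    refine lt_of_le_of_lt (Polynomial.degree_sub_le _ _) (max_lt ?_ ?_)
    · refine (Polynomial.degree_sum_le _ _).trans_lt ?_
      rw [Finset.sup_lt_iff (by exact WithBot.bot_lt_coe _)]
      intro m hm
      refine (Polynomial.degree_mul_le _ _).trans_lt ?_
      have h1 : (∏ k ∈ s.erase m, (Polynomial.X - Polynomial.C (f k))).degree =
          ((s.erase m).card : WithBot ℕ) := by
        rw [Polynomial.degree_prod]
        simp
      rw [h1, Finset.card_erase_of_mem hm]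
      refine (add_le_add Polynomial.degree_C_le le_rfl).trans_lt ?_
      rw [zero_add]
      exact_mod_cast Nat.sub_lt hcard one_pos
    · exact Polynomial.degree_C_le.trans_lt (by exact_mod_cast hcard)
  · intro m hm
    rw [Polynomial.eval_finsetSum, Finset.sum_eq_single m]
    · rw [Polynomial.eval_mul, Polynomial.eval_C, Polynomial.eval_C, Polynomial.eval_prod]
      simp only [Polynomial.eval_sub, Polynomial.eval_X, Polynomial.eval_C]
      rw [mul_comm]
      exact Finset.mul_prod_erase s E hm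
    · intro k hk hkm
      rw [Polynomial.eval_mul, Polynomial.eval_prod,
        Finset.prod_eq_zero (Finset.mem_erase.2 ⟨hkm.symm, hm⟩) (by simp), mul_zero]
    · intro h
      exact absurd hm h

/-- Lagrange interpolation with `V.dec`: some nonzero `d` such that `d v` is a sum of weight vectors:
`d = ∏_{μ ≠ ν} (μ - ν)`, `v_μ = (d / ∏_{ν ≠ μ} (μ - ν)) ∏_{ν ≠ μ} (S - ν) v` (the sum of the Lagrange basis
polynomials is `1`; `Lagrange.sum_basis` over the fraction field, or `Finset` induction). -/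
theorem KRep.decomp (V : KRep D) : ∃ d : AA n, d ≠ 0 ∧ ∀ v : V.I → AA n,
    ∃ y : (Fin n → ℤ) → V.I → AA n, (∀ m, Eig V.S m (y m)) ∧
      d • v = ∑ m ∈ Finset.univ.image V.wt, y m := by
  classical
  set Ω : Finset (Fin n → ℤ) := Finset.univ.image V.wt with hΩ
  by_cases hne : Ω.Nonempty
  swap
  · refine ⟨1, one_ne_zero, fun v => ⟨fun _ => 0, fun m => ?_, ?_⟩⟩
    · unfold Eig
      rw [Matrix.mulVec_zero, smul_zero]
    · funext a
      exact absurd ⟨V.wt a, Finset.mem_image_of_mem _ (Finset.mem_univ a)⟩ hne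
  obtain ⟨d, c, hd, hc⟩ := t2g_lagrange Ω hne (fun m => (fm0 m : AA n))
    (fun x _ y _ h => fm0_inj h)
  refine ⟨d, hd, fun v => ⟨fun m => if m ∈ Ω then c m • (Polynomial.aeval V.S
    (∏ k ∈ Ω.erase m, (Polynomial.X - Polynomial.C (fm0 k : AA n)))).mulVec v else 0,
    fun m => ?_, ?_⟩⟩
  · by_cases hm : m ∈ Ω
    · simp only [if_pos hm]
      unfold Eig
      have h1 : Polynomial.aeval V.S ((Polynomial.X - Polynomial.C (fm0 m : AA n)) *
          ∏ k ∈ Ω.erase m, (Polynomial.X - Polynomial.C (fm0 k : AA n))) = 0 := by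
        rw [Finset.mul_prod_erase Ω (fun k => Polynomial.X - Polynomial.C (fm0 k : AA n)) hm]
        exact V.dec
      rw [map_mul, map_sub, Polynomial.aeval_X, Polynomial.aeval_C, sub_mul, sub_eq_zero,
        ← Algebra.smul_def] at h1
      rw [Matrix.mulVec_smul, Matrix.mulVec_mulVec, h1, Matrix.smul_mulVec, smul_comm]
    · simp only [if_neg hm]
      unfold Eig
      rw [Matrix.mulVec_zero, smul_zero]
  · have h2 := congrArg (fun p => (Polynomial.aeval V.S p).mulVec v) hc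
    simp only [map_sum, map_mul, Polynomial.aeval_C] at h2
    have h3 : ((algebraMap (AA n) (Matrix V.I V.I (AA n))) d).mulVec v = d • v := by
      rw [Algebra.algebraMap_eq_smul_one, Matrix.smul_mulVec, Matrix.one_mulVec]
    rw [h3] at h2
    rw [← h2, Matrix.sum_mulVec]
    refine Finset.sum_congr rfl fun m hm => ?_
    simp only [if_pos hm]
    rw [← Algebra.smul_def, Matrix.smul_mulVec]

end Pool.Agent.MTG
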