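import Pool.Agent.MTG.GT2

/-! # MTG, Part T : the section of weight zero in the quasi-minuscule case (cf. MTX/T3) -/

namespace Pool.Agent.MTG

open MvPolynomial
open Pool.Agent.MTX.SLD (RR AA fm0 fm0_add fm0_smul fm0_zero fm0_neg fm0_sub fm0_ne_zero fm0_prime)

variable {n : ℕ} {D : RD n} {V : KRep D}

/-- `abs_ht2_le` for `ht`. -/
theorem PcM.top {l : Fin n → ℤ} (h : PcM V l) : ∃ a0, V.Top l a0 := by
  obtain ⟨a0, ha0⟩ := h.surj 1
  have h1 : V.wt a0 = l := ha0
  refine ⟨a0, ⟨h.mnu.1, h1, fun u a b ha hb => h.inj a b (ha.trans hb.symm), fun a => ?_, h.surj⟩⟩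
  obtain ⟨u, hu⟩ := h.wts a
  rw [hu]
  exact abs_ht2_le h.mnu.1 u

/-- `abs_ht2_le` for `ht` (and `ht2 0 = 0 ≤ ht2 θ`). -/
theorem PcQ.top {θ : D.Rt} (h : PcQ V θ) : ∃ a0, V.Top θ.1 a0 := by
  obtain ⟨a0, ha0⟩ := h.surj 1
  have h1 : V.wt a0 = θ.1 := ha0
  refine ⟨a0, ⟨h.qmn.1, h1, fun u a b ha hb => h.inj a b (ha.trans hb.symm) ?_, fun a => ?_,
    h.surj⟩⟩
  · rw [ha]
    intro h0
    exact D.Rt_ne θ ((LinearEquiv.map_eq_zero_iff u.1).1 h0)
  · rcases h.wts a with h0 | ⟨u, hu⟩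
    · rw [h0]
      have h2 : D.ht2 (0 : Fin n → ℤ) = 0 := by
        have := D.ht2_smul 0 (0 : Fin n → ℤ)
        simpa using this
      rw [h2, abs_zero]
      exact (abs_nonneg _).trans (abs_ht2_le h.qmn.1 1)
    · rw [hu]
      exact abs_ht2_le h.qmn.1 u

/-- injectivity of `e` in heights `≤ 0` -/
theorem T3a_inj {θ : D.Rt} (h : PcQ V θ) (v : V.I → ℂ) (hv : ∀ a, v a ≠ 0 → D.ht2 (V.wt a) ≤ 0)
    (he : V.e.mulVec v = 0) : v = 0 := by
  funext a0
  by_contra hne
  have hne' : v a0 ≠ 0 := hne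
  have hk := hv a0 hne'
  have h1 := h.e_inj (D.ht2 (V.wt a0)) hk
    (fun a => if D.ht2 (V.wt a) = D.ht2 (V.wt a0) then v a else 0)
    (fun a ha => by
      by_contra hc
      exact ha (if_neg hc)) (by
      funext c
      show ∑ a, V.e c a * (if D.ht2 (V.wt a) = D.ht2 (V.wt a0) then v a else 0) = 0
      by_cases hc : D.ht2 (V.wt c) = D.ht2 (V.wt a0) + 2
      · have h2 : ∑ a, V.e c a * v a = 0 := congrFun he c
        rw [← h2]
        refine Finset.sum_congr rfl fun a _ => ?_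
        by_cases h3 : V.e c a = 0
        · rw [h3, zero_mul, zero_mul]
        · have h4 := V.e_ht h3
          rw [if_pos (by omega)]
      · refine Finset.sum_eq_zero fun a _ => ?_
        by_cases h3 : V.e c a = 0
        · rw [h3, zero_mul]
        · have h4 := V.e_ht h3
          rw [if_neg (by omega), mul_zero])
  have h5 := congrFun h1 a0
  simp only [if_true, Pi.zero_apply] at h5
  exact hne' h5

/-- surjectivity of `e` gives injectivity of its transpose -/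
theorem T3a_left {θ : D.Rt} (h : PcQ V θ) (v : V.I → ℂ) (hv : ∀ a, v a ≠ 0 → 0 ≤ D.ht2 (V.wt a))
    (he : (-V.e.transpose).mulVec v = 0) : v = 0 := by
  obtain ⟨r, hr, hre⟩ := h.e_surj
  rw [Matrix.neg_mulVec, neg_eq_zero, Matrix.mulVec_transpose] at he
  funext a
  by_contra hne
  have hne' : v a ≠ 0 := hne
  have h1 := hv a hne'
  have h2 := hre (Pi.single a 1) (fun b hb => by
    by_cases hba : b = a
    · rw [hba]; exact h1
    · exact absurd (Pi.single_eq_of_ne hba 1) hb)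
  have h3 : v ⬝ᵥ (Pi.single a 1) = v a := by
    rw [dotProduct_single, mul_one]
  have h4 : v ⬝ᵥ (V.e.mulVec (r.mulVec (Pi.single a 1))) = 0 := by
    rw [Matrix.dotProduct_mulVec, he, zero_dotProduct]
  rw [h2, h3] at h4
  exact hne' h4

/-- the section for the transpose -/
theorem T3a_right {q : Matrix V.I V.I ℂ}
    (hqe : ∀ a b, D.ht2 (V.wt a) ≤ 0 → (q * V.e) a b = if a = b then 1 else 0)
    (v : V.I → ℂ) (hv : ∀ a, v a ≠ 0 → 0 ≤ D.ht2 (-V.wt a)) :
    (-V.e.transpose).mulVec ((-q.transpose).mulVec v) = v := by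
  rw [Matrix.mulVec_mulVec, Matrix.neg_mul, Matrix.mul_neg, neg_neg, ← Matrix.transpose_mul,
    Matrix.mulVec_transpose]
  funext b
  show ∑ a, v a * (q * V.e) a b = v b
  rw [Finset.sum_eq_single b]
  · by_cases hb : v b = 0
    · rw [hb, zero_mul]
    · have h1 := hv b hb
      rw [ht2_neg] at h1
      rw [hqe b b (by omega), if_pos rfl, mul_one]
  · intro a _ hab
    by_cases ha : v a = 0
    · rw [ha, zero_mul]
    · have h1 := hv a ha
      rw [ht2_neg] at h1
      rw [hqe a b (by omega), if_neg hab, mul_zero]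
  · intro hb
    exact absurd (Finset.mem_univ b) hb

/-- A left inverse of `e` in heights `≤ 0`.  The subspace `U` of vectors supported in heights `≤ 0`; `e` is injective
on `U` (`e_inj` for each height: if `e v = 0`, the component of `e v` in height `k + 2` is `e` of the component of `v`
in height `k`, by `e_ht`); take a linear left inverse `L` of `e|U` (`LinearMap.exists_leftInverse_of_injective`), as a
matrix, and keep only the entries `L a b` with `ht2 b = ht2 a + 2`. -/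
theorem PcQ.exists_left {θ : D.Rt} (h : PcQ V θ) : ∃ q : Matrix V.I V.I ℂ,
    (∀ a b, q a b ≠ 0 → D.ht2 (V.wt b) = D.ht2 (V.wt a) + 2) ∧
    ∀ a b, D.ht2 (V.wt a) ≤ 0 → (q * V.e) a b = if a = b then 1 else 0 := by
  classical
  let J := {a : V.I // D.ht2 (V.wt a) ≤ 0}
  let ex : (J → ℂ) →ₗ[ℂ] (V.I → ℂ) :=
    { toFun := fun v a => if ha : D.ht2 (V.wt a) ≤ 0 then v ⟨a, ha⟩ else 0
      map_add' := fun v w => by
        funext a
        show (if ha : D.ht2 (V.wt a) ≤ 0 then (v + w) ⟨a, ha⟩ else 0) =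
          (if ha : D.ht2 (V.wt a) ≤ 0 then v ⟨a, ha⟩ else 0) +
          (if ha : D.ht2 (V.wt a) ≤ 0 then w ⟨a, ha⟩ else 0)
        split_ifs
        · rfl
        · rw [add_zero]
      map_smul' := fun c v => by
        funext a
        show (if ha : D.ht2 (V.wt a) ≤ 0 then (c • v) ⟨a, ha⟩ else 0) =
          c * (if ha : D.ht2 (V.wt a) ≤ 0 then v ⟨a, ha⟩ else 0)
        split_ifs
        · rfl
        · rw [mul_zero] }
  let f : (J → ℂ) →ₗ[ℂ] (V.I → ℂ) := V.e.mulVecLin ∘ₗ ex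
  have hf : LinearMap.ker f = ⊥ := by
    rw [LinearMap.ker_eq_bot']
    intro v hv
    have h1 : ex v = 0 := T3a_inj h (ex v) (fun a ha => by
      by_contra hc
      exact ha (dif_neg hc)) hv
    funext a
    have h2 := congrFun h1 a.1
    have h3 : ex v a.1 = v a := dif_pos a.2
    rw [← h3, h2]
    rfl
  obtain ⟨L, hL⟩ := LinearMap.exists_leftInverse_of_injective f hf
  have hLs : ∀ (a b : J), ∑ c, L (Pi.single c 1) a * V.e c b.1 = if a = b then 1 else 0 := by
    intro a b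
    have h1 := LinearMap.congr_fun hL (Pi.single b 1)
    have h2 : f (Pi.single b 1) = ∑ c, V.e c b.1 • (Pi.single c 1 : V.I → ℂ) := by
      have h3 : ex (Pi.single b 1) = Pi.single b.1 1 := by
        funext a
        show (if ha : D.ht2 (V.wt a) ≤ 0 then (Pi.single b 1 : J → ℂ) ⟨a, ha⟩ else 0) = _
        by_cases hab : a = b.1
        · subst hab
          rw [dif_pos b.2, Pi.single_eq_same, Pi.single_eq_same]
        · rw [Pi.single_eq_of_ne hab]
          split_ifs with ha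
          · exact Pi.single_eq_of_ne (fun h4 => hab (congrArg Subtype.val h4)) 1
          · rfl
      show V.e.mulVec (ex (Pi.single b 1)) = _
      rw [h3]
      funext c
      rw [Matrix.mulVec_single_one, Finset.sum_apply,
        Finset.sum_eq_single c (fun d _ hd => by
          rw [Pi.smul_apply, Pi.single_eq_of_ne (Ne.symm hd), smul_zero])
          (fun hc => absurd (Finset.mem_univ c) hc), Pi.smul_apply, Pi.single_eq_same, smul_eq_mul,
        mul_one]
      rfl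
    have h4 := congrFun h1 a
    rw [LinearMap.comp_apply, h2, map_sum, Finset.sum_apply] at h4
    simp only [map_smul, Pi.smul_apply, smul_eq_mul, LinearMap.id_coe, id_eq] at h4
    rw [show (if a = b then (1:ℂ) else 0) = (Pi.single b 1 : J → ℂ) a by
      rw [Pi.single_apply], ← h4]
    exact Finset.sum_congr rfl fun c _ => mul_comm _ _
  refine ⟨fun a b => if ha : D.ht2 (V.wt a) ≤ 0 then
    (if D.ht2 (V.wt b) = D.ht2 (V.wt a) + 2 then L (Pi.single b 1) ⟨a, ha⟩ else 0) else 0,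
    fun a b hab => ?_, fun a b ha => ?_⟩
  · by_contra hc
    apply hab
    show (if ha : D.ht2 (V.wt a) ≤ 0 then
      (if D.ht2 (V.wt b) = D.ht2 (V.wt a) + 2 then L (Pi.single b 1) ⟨a, ha⟩ else 0) else 0) = 0
    split_ifs <;> rfl
  · show ∑ c, (if ha : D.ht2 (V.wt a) ≤ 0 then
      (if D.ht2 (V.wt c) = D.ht2 (V.wt a) + 2 then L (Pi.single c 1) ⟨a, ha⟩ else 0) else 0) *
        V.e c b = _
    simp only [dif_pos ha]
    by_cases hb : D.ht2 (V.wt b) = D.ht2 (V.wt a)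
    · have h1 := hLs ⟨a, ha⟩ ⟨b, by rw [hb]; exact ha⟩
      have h2 : ((⟨a, ha⟩ : J) = ⟨b, by rw [hb]; exact ha⟩) ↔ a = b := by
        rw [Subtype.mk.injEq]
      simp only [h2] at h1
      rw [← h1]
      refine Finset.sum_congr rfl fun c _ => ?_
      by_cases h3 : V.e c b = 0
      · rw [h3, mul_zero, mul_zero]
      · have h4 := V.e_ht h3
        rw [if_pos (by omega)]
    · rw [if_neg (fun h0 => hb (by rw [h0]))]
      refine Finset.sum_eq_zero fun c _ => ?_
      by_cases h3 : V.e c b = 0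
      · rw [h3, mul_zero]
      · have h4 := V.e_ht h3
        rw [if_neg (by omega), zero_mul]

/-- The dual of a quasi-minuscule piece is quasi-minuscule, with `θ' = - u0 θ`.  `QMn`: `cp γ (- u0 θ) =
- cp (u0⁻¹ γ) θ`.  `e_inj`: `v` supported in heights `≥ 0` of `V` with `eᵀ v = 0`: every `u` supported in heights `≥ 0` is
`e (r u)`, so `v · u = (eᵀ v) · (r u) = 0`.  `e_surj`: `r' := - qᵀ` with `q` from `exists_left`:
`(-eᵀ) (-qᵀ) v = (q e)ᵀ v`, and `(q e) a b = δ` for `a` of height `≤ 0`. -/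
theorem PcQ.dual {θ : D.Rt} (h : PcQ V θ) {u0 : D.W} (hu : D.Dom (-(u0.1 θ.1))) :
    PcQ V.dual (D.ng (u0 • θ)) := by
  obtain ⟨q, hq, hqe⟩ := h.exists_left
  have hcan : ∀ x : Fin n → ℤ, (u0⁻¹).1 (u0.1 x) = x := fun x => D.W_inv_apply' u0 x
  refine ⟨⟨hu, fun γ h1 h2 => ?_⟩, fun a => ?_, fun u => ?_, fun a b hab ha => ?_,
    fun k hk v hv hev => ?_, (-q.transpose : Matrix V.I V.I ℂ), fun a b hab => ?_, fun v hv => ?_⟩
  · have h3 : D.cp γ (D.ng (u0 • θ)).1 = - D.cp (u0⁻¹ • γ) θ.1 := by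
      rw [D.ng_val, D.cp_neg, D.smul_val, ← D.cp_smul_W u0 (u0⁻¹ • γ) θ.1, smul_inv_smul]
    rw [h3, abs_neg]
    refine h.qmn.2 (u0⁻¹ • γ) (fun h4 => h2 ?_) (fun h4 => h1 ?_)
    · rw [D.ng_ng, ← h4, smul_inv_smul]
    · rw [← D.smul_ng, ← h4, smul_inv_smul]
  · rcases h.wts a with h0 | ⟨u, hu'⟩
    · left
      show - V.wt a = 0
      rw [h0, neg_zero]
    · right
      refine ⟨u * u0⁻¹, ?_⟩
      show - V.wt a = u.1 ((u0⁻¹).1 (-(u0.1 θ.1)))
      rw [map_neg, hcan, hu', map_neg]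
  · obtain ⟨a, ha⟩ := h.surj (u * u0)
    refine ⟨a, ?_⟩
    show - V.wt a = u.1 (-(u0.1 θ.1))
    rw [ha, map_neg]
    rfl
  · exact h.inj a b (neg_injective hab) (fun h0 => ha (by
      show - V.wt a = 0
      rw [h0, neg_zero]))
  · refine T3a_left h v (fun a ha => ?_) hev
    have h1 : D.ht2 (-V.wt a) = k := hv a ha
    rw [ht2_neg] at h1
    omega
  · have h1 : q b a ≠ 0 := fun h0 => hab (by
      show -(q b a) = 0
      rw [h0, neg_zero])
    have h2 := hq b a h1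
    show D.ht2 (-V.wt a) = D.ht2 (-V.wt b) - 2
    rw [ht2_neg, ht2_neg]
    omega
  · exact T3a_right hqe v hv

/-! auxiliary lemmas for `PcQ.exists_zeta` -/

private theorem mttT3b_coeff {I : Type} [Fintype I] (M : Matrix I I ℂ) (v : I → AA n)
    (m : Fin n →₀ ℕ) (i : I) : coeff m ((M.map C).mulVec v i) =
      M.mulVec (fun j => coeff m (v j)) i := by
  simp only [Matrix.mulVec, dotProduct, Matrix.map_apply, coeff_sum, coeff_C_mul]

private theorem mttT3b_wt_zero {θ : D.Rt} (h : PcQ V θ) {j : V.I}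
    (hj : D.ht2 (V.wt j) = 0) : V.wt j = 0 := by
  rcases h.wts j with h0 | ⟨u, hu⟩
  · exact h0
  · exfalso
    rcases D.pos_or_neg (u • θ) with hp | hn
    · have h1 := (D.ht2_pos hp).1
      have h2 : D.ht2 (u • θ).1 = 0 := by
        rw [D.smul_val, ← hu]; exact hj
      omega
    · have h1 := (D.ht2_pos hn).1
      have h2 : D.ht2 (D.ng (u • θ)).1 = 0 := by
        rw [D.ng_val, ht2_neg, D.smul_val, ← hu, hj, neg_zero]
      omega

private theorem mttT3b_even (γ : D.Rt) : D.ht2 γ.1 ≠ 0 ∧ 2 ∣ D.ht2 γ.1 := by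
  rcases D.pos_or_neg γ with hp | hn
  · exact ⟨(D.ht2_pos hp).1.ne', (D.ht2_pos hp).2⟩
  · have h1 := D.ht2_pos hn
    have h2 : D.ht2 (D.ng γ).1 = - D.ht2 γ.1 := by
      rw [D.ng_val, ht2_neg]
    rw [h2] at h1
    exact ⟨by omega, by omega⟩

private theorem mttT3b_X (V : KRep D) (v : V.I → AA n) (j : V.I) :
    (Matrix.diagonal fun a => (fm0 (V.wt a) : AA n)).mulVec v j = fm0 (V.wt j) * v j := by
  rw [Matrix.mulVec_diagonal]

/-- `e r = 1` over `A` in heights `≥ 0` -/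
private theorem mttT3b_er (r : Matrix V.I V.I ℂ)
    (hr : ∀ v : V.I → ℂ, (∀ a, v a ≠ 0 → 0 ≤ D.ht2 (V.wt a)) → V.e.mulVec (r.mulVec v) = v)
    (v : V.I → AA n) (hv : ∀ i, v i ≠ 0 → 0 ≤ D.ht2 (V.wt i)) :
    (V.e.map C).mulVec ((r.map C).mulVec v) = v := by
  funext i
  refine MvPolynomial.ext _ _ fun m => ?_
  rw [mttT3b_coeff]
  have h1 : (fun j => coeff m ((r.map C).mulVec v j)) =
      r.mulVec (fun j => coeff m (v j)) := by
    funext j
    exact mttT3b_coeff _ _ _ _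
  rw [h1]
  have h2 := hr (fun j => coeff m (v j)) (fun j hj => hv j (fun h => hj (by
    show coeff m (v j) = 0
    rw [h, coeff_zero])))
  exact congrFun h2 i

/-- `z_0 = r e_{a0}`, `z_{k+1} = - r (x z_k)`. -/
private noncomputable def mttT3b_zv (V : KRep D) (r : Matrix V.I V.I ℂ) (a0 : V.I) :
    ℕ → V.I → AA n
  | 0 => (r.map C).mulVec (Pi.single a0 1)
  | k + 1 => - (r.map C).mulVec ((Matrix.diagonal fun a => (fm0 (V.wt a) : AA n)).mulVec
      (mttT3b_zv V r a0 k))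

private theorem mttT3b_zv_hg (r : Matrix V.I V.I ℂ)
    (hr : ∀ a b, r a b ≠ 0 → D.ht2 (V.wt a) = D.ht2 (V.wt b) - 2) (a0 : V.I) (k : ℕ) (i : V.I) :
    (mttT3b_zv V r a0 k i ≠ 0 → D.ht2 (V.wt i) = D.ht2 (V.wt a0) - 2 - 2 * k) ∧
      HD (2 * k) (mttT3b_zv V r a0 k i) := by
  induction k generalizing i with
  | zero =>
    have h1 : mttT3b_zv V r a0 0 i = C (r i a0) := by
      show (r.map C).mulVec (Pi.single a0 1) i = _
      rw [Matrix.mulVec_single_one]
      rfl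
    rw [h1]
    refine ⟨fun h => ?_, ?_⟩
    · have h2 : r i a0 ≠ 0 := fun h' => h (by rw [h', map_zero])
      have h3 := hr i a0 h2
      rw [h3]
      simp
    · exact (HD.C _).cast (by simp)
  | succ k ih =>
    have h1 : mttT3b_zv V r a0 (k + 1) i =
        - ∑ j, C (r i j) * (fm0 (V.wt j) * mttT3b_zv V r a0 k j) := by
      show (- (r.map C).mulVec ((Matrix.diagonal fun a => (fm0 (V.wt a) : AA n)).mulVec
        (mttT3b_zv V r a0 k))) i = _
      rw [Pi.neg_apply]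
      have h2 : ∀ j, (Matrix.diagonal fun a => (fm0 (V.wt a) : AA n)).mulVec
          (mttT3b_zv V r a0 k) j = fm0 (V.wt j) * mttT3b_zv V r a0 k j := fun j =>
        mttT3b_X V _ j
      refine congrArg _ ?_
      show ∑ j, (r.map C) i j * _ = _
      refine Finset.sum_congr rfl fun j _ => ?_
      rw [h2]
      rfl
    rw [h1]
    refine ⟨fun h => ?_, ?_⟩
    · have h2 : ∑ j, C (r i j) * (fm0 (V.wt j) * mttT3b_zv V r a0 k j) ≠ 0 := fun h' => h (by
        rw [h', neg_zero])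
      obtain ⟨j, _, hj⟩ := Finset.exists_ne_zero_of_sum_ne_zero h2
      have h3 : r i j ≠ 0 := fun h' => hj (by rw [h', map_zero, zero_mul])
      have h4 : mttT3b_zv V r a0 k j ≠ 0 := fun h' => hj (by rw [h', mul_zero, mul_zero])
      have h5 := hr i j h3
      have h6 := (ih j).1 h4
      rw [h5, h6]
      push_cast
      ring
    · refine HD.neg (HD.sum _ _ fun j _ => ?_)
      exact ((HD.C _).mul ((HD_fm0 (V.wt j)).mul (ih j).2)).cast (by push_cast; ring)

private theorem mttT3b_exists_z {θ : D.Rt} (h : PcQ V θ) {a0 : V.I} (h0 : V.wt a0 = θ.1)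
    (hpos : 0 < D.ht2 θ.1) : ∃ z : V.I → AA n,
    V.N.mulVec z = Pi.single a0 1 ∧ V.HV (D.ht2 θ.1 - 2) z := by
  obtain ⟨r, hr1, hr2⟩ := h.e_surj
  have hz := mttT3b_zv_hg (V := V) r hr1 a0
  rw [h0] at hz
  set X : Matrix V.I V.I (AA n) := Matrix.diagonal fun a => (fm0 (V.wt a) : AA n) with hX
  set z := mttT3b_zv V r a0 with hzdef
  have hs : ∀ k : ℕ, 2 * (k : ℤ) < D.ht2 θ.1 →
      (V.e.map C).mulVec (z (k + 1)) = - X.mulVec (z k) := by
    intro k hk
    show (V.e.map C).mulVec (- (r.map C).mulVec (X.mulVec (z k))) = _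
    rw [Matrix.mulVec_neg, mttT3b_er r hr2]
    intro j hj
    have h1 : z k j ≠ 0 := fun h' => hj (by
      rw [hX, mttT3b_X, h', mul_zero])
    have h2 := (hz k j).1 h1
    have h3 := (mttT3b_even θ).2
    omega
  have hz0 : (V.e.map C).mulVec (z 0) = Pi.single a0 1 := by
    show (V.e.map C).mulVec ((r.map C).mulVec (Pi.single a0 1)) = _
    refine mttT3b_er r hr2 _ fun j hj => ?_
    have h1 : j = a0 := by
      by_contra h'
      exact hj (Pi.single_eq_of_ne h' _)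
    rw [h1, h0]
    omega
  have hN : V.N = V.e.map C + X := rfl
  have hsum : ∀ k : ℕ, 2 * (k : ℤ) < D.ht2 θ.1 →
      V.N.mulVec (∑ j ∈ Finset.range (k + 1), z j) =
        Pi.single a0 1 + X.mulVec (z k) := by
    intro k
    induction k with
    | zero =>
      intro _
      rw [Finset.sum_range_one, hN, Matrix.add_mulVec, hz0]
    | succ k ih =>
      intro hk
      have hk' : 2 * (k : ℤ) < D.ht2 θ.1 := by push_cast at hk; omega
      rw [Finset.sum_range_succ, Matrix.mulVec_add, ih hk', hN, Matrix.add_mulVec, hs k hk']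
      abel
  obtain ⟨K, hK⟩ : ∃ K : ℕ, D.ht2 θ.1 = 2 * (K : ℤ) + 2 := by
    obtain ⟨c, hc⟩ := (mttT3b_even θ).2
    exact ⟨(c - 1).toNat, by omega⟩
  refine ⟨∑ j ∈ Finset.range (K + 1), z j, ?_, ?_⟩
  · rw [hsum K (by omega)]
    have h1 : X.mulVec (z K) = 0 := by
      funext j
      rw [hX, mttT3b_X]
      by_cases h2 : z K j = 0
      · rw [h2, mul_zero]; rfl
      · have h3 := (hz K j).1 h2
        rw [mttT3b_wt_zero h (by omega), fm0_zero, zero_mul]; rfl
    rw [h1, add_zero]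
  · intro i
    rw [Finset.sum_apply]
    refine HD.sum _ _ fun k _ => ?_
    by_cases h2 : z k i = 0
    · rw [h2]; exact HD.zero _
    · have h3 := (hz k i).1 h2
      exact (hz k i).2.cast (by omega)

/-- The section of weight zero.  Port of MTX/T3 (`zv`, `exists_z`, `exists_zeta`).  With `r` from `e_surj`:
`z_0 = r e_{a0}`, `z_{k+1} = - r (x z_k)` (`x = diag (fm0 (wt a))`).  `z_k` is supported in height
`ht2 θ - 2 (k + 1)` as long as this is `≥ 0`, and `z_k = 0` afterwards: a vector supported in height `0` is killed by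
`x`, since the weights are `0` or roots and roots have nonzero height (`ht2_pos`); the heights are even (`ht2_pos`).
So `e z_0 = e_{a0}`, `e z_{k+1} = - x z_k`, and `z = ∑_{k < K} z_k` (`K` large) satisfies `(e + x) z = e_{a0}`.
`ζ0 = e_{a0} - θ z` has `N ζ0 = 0` (`Top.e0`), `ζ = P ζ0`, `S ζ = P N ζ0 = 0`, `ζ - E = - θ P z`.
Homogeneity: `z` is homogeneous of degree `ht2 θ - 2` (`HD_fm0`), `P_hd`. -/
theorem PcQ.exists_zeta {θ : D.Rt} (h : PcQ V θ) {a0 : V.I} (h0 : V.wt a0 = θ.1) :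
    ∃ ζ : V.I → AA n, Eig V.S 0 ζ ∧ (∀ a, (fm0 θ.1 : AA n) ∣ ζ a - V.P a a0) ∧
      V.HV (D.ht2 θ.1) ζ := by
  obtain ⟨a1, htop1⟩ := h.top
  have ha : a0 = a1 := htop1.eq h0
  have htop : V.Top θ.1 a0 := ha ▸ htop1
  have hnn : 0 ≤ D.ht2 θ.1 := (abs_nonneg _).trans (htop.ht a0)
  have hpos : 0 < D.ht2 θ.1 := lt_of_le_of_ne hnn (mttT3b_even θ).1.symm
  obtain ⟨z, hz1, hz2⟩ := mttT3b_exists_z h h0 hpos
  have he : V.N.mulVec (Pi.single a0 1) =
      (fm0 θ.1 : AA n) • (Pi.single a0 1 : V.I → AA n) := by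
    funext i
    show ((V.e.map C + Matrix.diagonal fun a => (fm0 (V.wt a) : AA n)).mulVec
      (Pi.single a0 1)) i = _
    rw [Matrix.add_mulVec, Pi.add_apply, mttT3b_X, Matrix.mulVec_single_one]
    show C (V.e i a0) + _ = fm0 θ.1 * (Pi.single a0 1 : V.I → AA n) i
    rw [htop.e0, map_zero, zero_add]
    by_cases hi : i = a0
    · rw [hi, h0]
    · rw [Pi.single_eq_of_ne hi, mul_zero, mul_zero]
  refine ⟨V.P.mulVec (Pi.single a0 1 - (fm0 θ.1 : AA n) • z), ?_, ?_, ?_⟩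
  · show V.S.mulVec _ = (fm0 0 : AA n) • _
    rw [Matrix.mulVec_mulVec, V.conjN, ← Matrix.mulVec_mulVec, Matrix.mulVec_sub, he,
      Matrix.mulVec_smul, hz1, sub_self, Matrix.mulVec_zero, fm0_zero, zero_smul]
  · intro i
    have h1 : V.P.mulVec (Pi.single a0 1 - (fm0 θ.1 : AA n) • z) i - V.P i a0 =
        fm0 θ.1 * (- V.P.mulVec z i) := by
      rw [Matrix.mulVec_sub, Matrix.mulVec_smul, Matrix.mulVec_single_one]
      show V.P i a0 - fm0 θ.1 * V.P.mulVec z i - V.P i a0 = _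
      ring
    rw [h1]
    exact Dvd.intro _ rfl
  · intro i
    show HD _ (∑ j, V.P i j * (Pi.single a0 1 - (fm0 θ.1 : AA n) • z : V.I → AA n) j)
    refine HD.sum _ _ fun j _ => ?_
    have h1 : HD (D.ht2 θ.1 - D.ht2 (V.wt j))
        ((Pi.single a0 1 - (fm0 θ.1 : AA n) • z : V.I → AA n) j) := by
      show HD _ ((Pi.single a0 1 : V.I → AA n) j - fm0 θ.1 * z j)
      refine HD.sub ?_ ?_
      · by_cases hj : j = a0
        · rw [hj, Pi.single_eq_same, h0, sub_self]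
          have h2 := HD.C (n := n) 1
          rw [map_one] at h2
          exact h2
        · rw [Pi.single_eq_of_ne hj]
          exact HD.zero _
      · exact ((HD_fm0 θ.1).mul (hz2 j)).cast (by ring)
    exact ((V.P_hd i j).mul h1).cast (by ring)

/-- The four sections of a quasi-minuscule piece. -/
structure QQ (V : KRep D) (θ : D.Rt) (E E' ζ ζ' : V.I → AA n) : Prop where
  ee : EE V θ.1 E E'
  eig : Eig V.S 0 ζ
  eig' : EigL V.S 0 ζ'
  dvd : ∀ a, (fm0 θ.1 : AA n) ∣ ζ a - E a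
  dvd' : ∀ a, (fm0 θ.1 : AA n) ∣ ζ' a - E' a
  hv : V.HV (D.ht2 θ.1) ζ
  hv' : V.HV' (D.ht2 θ.1) ζ'

/-- `exists_anti`, `PcQ.top`, `exists_EE`, `exists_zeta`; for `ζ'`: `exists_zeta` for `V.dual` (`PcQ.dual`), which
gives a row vector `ζ''` of weight `0` with `ζ'' ≡ row b0 of P'` modulo `u0 θ`, homogeneous; `ζ' = u0⁻¹ ζ''`. -/
theorem PcQ.exists_QQ {θ : D.Rt} (h : PcQ V θ) : ∃ E E' ζ ζ', QQ V θ E E' ζ ζ' := by
  obtain ⟨a0, htop⟩ := h.top
  obtain ⟨u0, hu⟩ := exists_anti (D := D) θ.1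
  obtain ⟨b0, hb⟩ := h.surj u0
  have hee := exists_EE htop hu hb
  obtain ⟨ζ, hζ1, hζ2, hζ3⟩ := h.exists_zeta htop.wt0
  have hd := h.dual hu
  have hng : (D.ng (u0 • θ)).1 = -(u0.1 θ.1) := rfl
  have hb' : V.dual.wt b0 = (D.ng (u0 • θ)).1 := by
    show - V.wt b0 = _
    rw [hb, hng]
  obtain ⟨η, hη1, hη2, hη3⟩ := hd.exists_zeta hb'
  have huv : u0⁻¹.1 (u0.1 θ.1) = θ.1 := by
    show (u0⁻¹ * u0).1 θ.1 = θ.1
    rw [inv_mul_cancel]
    rfl
  refine ⟨_, _, ζ, u0⁻¹ • η, hee, hζ1, ?_, hζ2, ?_, hζ3, ?_⟩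
  · have h1 : EigL V.S 0 η := by
      have h2 : (-V.S.transpose).mulVec η = (fm0 0 : AA n) • η := hη1
      have h4 : -(V.S.vecMul η) = (fm0 0 : AA n) • η := by
        rw [← h2, Matrix.neg_mulVec, Matrix.mulVec_transpose]
        rfl
      show V.S.vecMul η = (fm0 0 : AA n) • η
      rw [fm0_zero, zero_smul] at h4 ⊢
      exact neg_eq_zero.1 h4
    have h2 := h1.smul V.S_W u0⁻¹
    rw [map_zero] at h2
    exact h2
  · intro a
    obtain ⟨c, hc⟩ := hη2 a
    have h1 : η a - V.P' b0 a = fm0 (-(u0.1 θ.1)) * c := hc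
    have h2 : (u0⁻¹ • η) a - (u0⁻¹ • fun a => V.P' b0 a) a = u0⁻¹ • (η a - V.P' b0 a) := by
      rw [smul_sub]
      rfl
    rw [h2, h1, smul_mul', D.smul_fm0, map_neg, huv, fm0_neg, neg_mul]
    exact (Dvd.intro _ rfl).neg_right
  · refine KRep.HV'.smul (fun a => ?_) u0⁻¹
    have h1 := hη3 a
    have h2 := ht2_anti h.qmn.1 hu
    refine h1.cast ?_
    rw [hng]
    show D.ht2 (-(u0.1 θ.1)) - D.ht2 (-V.wt a) = _
    rw [ht2_neg, ht2_neg, h2]
    ring

/-- `PcM.top`, `exists_anti`, `exists_EE` -/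
theorem PcM.exists_EE {l : Fin n → ℤ} (h : PcM V l) : ∃ E E', EE V l E E' := by
  obtain ⟨a0, htop⟩ := h.top
  obtain ⟨u0, hu⟩ := exists_anti (D := D) l
  obtain ⟨b0, hb⟩ := h.surj u0
  exact ⟨_, _, Pool.Agent.MTG.exists_EE htop hu hb⟩

end Pool.Agent.MTG
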