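import Pool.Agent.MTG.GF

/-! # MTG, Part T : minuscule representations are retracts of Bott-Samelson lattices -/

namespace Pool.Agent.MTG

open MvPolynomial
open Pool.Agent.MTX (AS SW RedData Lat RyLat RingLat mulM ring_BS ry_BS)
open Pool.Agent.MTX.SLD (RR AA fm0 fm0_add fm0_smul fm0_zero fm0_neg fm0_sub fm0_ne_zero fm0_prime)

variable {n : ℕ} {D : RD n}

/-- For minuscule `l` there is an element of length zero with translation part `l`: `exists_Wd l` gives a reduced word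
`i` and `ω` with `(pr i * ω).l = l`; by `Wd.inv_iff` the roots in `rts i` are the `b > 0` with `b.2 + cp b.1 l < 0`; as
`b.2 ≥ 0` and `cp b.1 l ≥ -1` this gives `b.2 = 0`, `cp b.1 l = -1`, `b.1 > 0`, contradicting dominance.  So `rts i` is
empty and `i = []` (`length_rts`, MTX/R3a). -/
theorem exists_om {l : Fin n → ℤ} (hl : D.Mnu l) : ∃ ω : D.Om, ω.1.l = l := by
  obtain ⟨i, ω, h⟩ := D.exists_Wd l
  cases i with
  | nil =>
    refine ⟨ω, ?_⟩
    have h1 := h.l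
    have h2 : D.aff.sw.pr [] * ω.1 = ω.1 := one_mul ω.1
    rw [h2] at h1
    exact h1
  | cons s i =>
    exfalso
    have h1 : (D.aff.sw.pr i • D.aff.al s) ∈ D.aff.rts (s :: i) := List.mem_cons_self
    obtain ⟨h2, h3⟩ := (D.aff.mem_rts (s :: i) h.red _).1 h1
    have h2' : D.apos (D.aff.sw.pr i • D.aff.al s) := h2
    have h4 := (h.inv_iff h2').1 h3
    have h5 := hl.2 (D.aff.sw.pr i • D.aff.al s).1
    rw [abs_le] at h5
    rcases h2' with h6 | ⟨h6, h7⟩
    · omega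
    · have h8 := hl.1 _ h7
      omega

/-- the number of elements of the stabiliser -/
noncomputable def nst (D : RD n) (l : Fin n → ℤ) : ℕ := by
  classical
  exact (Finset.univ.filter fun u : D.W => u.1 l = l).card

theorem nst_pos (l : Fin n → ℤ) : 0 < nst D l := by
  classical
  unfold nst
  exact Finset.card_pos.2 ⟨1, Finset.mem_filter.2 ⟨Finset.mem_univ _, rfl⟩⟩

/-- `#{u | u l = u1 l} = nst l` (cf. MTX/T5 `t5b_card`) -/
theorem card_coset [DecidableEq (Fin n → ℤ)] (l : Fin n → ℤ) (u1 : D.W) :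
    (Finset.univ.filter fun u : D.W => u.1 l = u1.1 l).card = nst D l := by
  classical
  unfold nst
  have hi : ∀ (v : D.W) (x : Fin n → ℤ), (v⁻¹).1 (v.1 x) = x := by
    intro v x
    show (v⁻¹ * v).1 x = x
    rw [inv_mul_cancel]
    rfl
  refine Finset.card_bij' (fun u _ => u1⁻¹ * u) (fun u _ => u1 * u) ?_ ?_ ?_ ?_
  · intro u hu
    simp only [Finset.mem_filter, Finset.mem_univ, true_and] at hu ⊢
    show (u1⁻¹).1 (u.1 l) = l
    rw [hu, hi]
  · intro u hu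
    simp only [Finset.mem_filter, Finset.mem_univ, true_and] at hu ⊢
    show u1.1 (u.1 l) = u1.1 l
    rw [hu]
  · intro u _
    exact mul_inv_cancel_left _ _
  · intro u _
    exact inv_mul_cancel_left _ _

/-- `PI0_l Eu_l` is `PI` for minuscule dominant `l` (`Eu_dom`, factorwise: `cp γ l ∈ {0, 1}`). -/
theorem PI_mnu {l : Fin n → ℤ} (hl : D.Mnu l) : D.PI = D.PI0 l * D.Eu l := by
  rw [D.Eu_dom hl.1]
  unfold RD.PI RD.PI0
  rw [← Finset.prod_mul_distrib]
  refine Finset.prod_congr rfl fun γ _ => ?_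
  have h1 := hl.1 γ.1 γ.2
  have h2 := (abs_le.1 (hl.2 γ.1)).2
  by_cases h : D.cp γ.1 l = 0
  · rw [if_pos h, h, Int.toNat_zero, pow_zero, mul_one]
  · have h3 : D.cp γ.1 l = 1 := by omega
    rw [if_neg h, h3, Int.toNat_one, pow_one, one_mul]

/-- `θ PI = PI0_θ Eu_θ` in the quasi-minuscule case (`Eu_dom`; `cp γ θ ∈ {0, 1}` for positive `γ ≠ θ`,
`cp θ θ = 2`; `θ` is positive as it is dominant). -/
theorem PI_qmn {θ : D.Rt} (hθ : D.QMn θ) : fm0 θ.1 * D.PI = D.PI0 θ.1 * D.Eu θ.1 := by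
  classical
  have hpos : D.Pos θ := by
    rcases D.pos_or_neg θ with h | h
    · exact h
    · have h1 := hθ.1 _ h
      rw [D.cp_ng, D.cp_self] at h1
      omega
  have hθ1 : (fm0 θ.1 : AA n) = ∏ γ : D.PRt, if γ = ⟨θ, hpos⟩ then fm0 γ.1.1 else 1 := by
    rw [Finset.prod_ite_eq' Finset.univ (⟨θ, hpos⟩ : D.PRt), if_pos (Finset.mem_univ _)]
  rw [D.Eu_dom hθ.1]
  nth_rewrite 1 [hθ1]
  unfold RD.PI RD.PI0
  rw [← Finset.prod_mul_distrib, ← Finset.prod_mul_distrib]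
  refine Finset.prod_congr rfl fun γ _ => ?_
  by_cases hγ : γ = ⟨θ, hpos⟩
  · have h3 : D.cp γ.1 θ.1 = 2 := by
      rw [hγ]
      exact D.cp_self θ
    have h4 : ((2 : ℤ)).toNat = 2 := rfl
    rw [if_pos hγ, h3, if_neg (by norm_num), h4, pow_two, one_mul]
  · rw [if_neg hγ, one_mul]
    have h0 : γ.1 ≠ θ := fun h => hγ (Subtype.ext h)
    have h0' : γ.1 ≠ D.ng θ := fun h => D.not_pos_ng hpos (h ▸ γ.2)
    have h1 := hθ.1 γ.1 γ.2
    have h2 := (abs_le.1 (hθ.2 γ.1 h0 h0')).2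
    by_cases h : D.cp γ.1 θ.1 = 0
    · rw [if_pos h, h, Int.toNat_zero, pow_zero, mul_one]
    · have h3 : D.cp γ.1 θ.1 = 1 := by omega
      rw [if_neg h, h3, Int.toNat_one, pow_one, one_mul]

variable {V : KRep D} {l : Fin n → ℤ} {E E' : V.I → AA n}

/-- a weight vector whose weight is in the orbit of `l` is a multiple of `u E` (`EE.uniq` for `u⁻¹ y`) -/
theorem EE.uniqW (h : EE V l E E') (u : D.W) {y : V.I → AA n} (hy : Eig V.S (u.1 l) y) :
    ∃ x : AA n, y = x • (u • E) := by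
  have h1 := hy.smul V.S_W u⁻¹
  have h2 : (u⁻¹).1 (u.1 l) = l := by
    show (u⁻¹ * u).1 l = l
    rw [inv_mul_cancel]
    rfl
  rw [h2] at h1
  obtain ⟨x, hx⟩ := h.uniq _ h1
  refine ⟨u • x, ?_⟩
  have h3 : y = u • (u⁻¹ • y) := (smul_inv_smul u y).symm
  rw [h3, hx]
  funext i
  show u • (x * E i) = (u • x) * (u • E i)
  rw [smul_mul']

/-- `u E = u1 E` if `u l = u1 l` (`EE.inv` for `u1⁻¹ u`) -/
theorem EE.smul_eq (h : EE V l E E') {u u1 : D.W} (hu : u.1 l = u1.1 l) : u • E = u1 • E := by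
  have h2 : (u1⁻¹ * u).1 l = l := by
    show (u1⁻¹).1 (u.1 l) = l
    rw [hu]
    show (u1⁻¹ * u1).1 l = l
    rw [inv_mul_cancel]
    rfl
  have h3 := congrArg (fun v => u1 • v) (h.inv _ h2)
  have h4 : u1 • (u1⁻¹ * u) • E = u1 • E := h3
  rw [mul_smul, smul_inv_smul] at h4
  exact h4

theorem EE.smul_eq' (h : EE V l E E') {u u1 : D.W} (hu : u.1 l = u1.1 l) : u • E' = u1 • E' := by
  have h2 : (u1⁻¹ * u).1 l = l := by
    show (u1⁻¹).1 (u.1 l) = l
    rw [hu]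
    show (u1⁻¹ * u1).1 l = l
    rw [inv_mul_cancel]
    rfl
  have h3 := congrArg (fun v => u1 • v) (h.inv' _ h2)
  have h4 : u1 • (u1⁻¹ * u) • E' = u1 • E' := h3
  rw [mul_smul, smul_inv_smul] at h4
  exact h4

/-- `(u E') (u1 E)` is zero unless `u l = u1 l`, and then it is `u (E' E)`. -/
theorem EE.pair (h : EE V l E E') (u u1 : D.W) [DecidableEq (Fin n → ℤ)] :
    (u • E') ⬝ᵥ (u1 • E) = if u.1 l = u1.1 l then u • (E' ⬝ᵥ E) else 0 := by
  by_cases hu : u.1 l = u1.1 l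
  · rw [if_pos hu, ← h.smul_eq hu, dotProduct_smulW]
  · rw [if_neg hu]
    exact (h.eig'.smul V.S_W u).orth (h.eig.smul V.S_W u1) hu

/-- A matrix acting by a scalar on all `u E` is scalar in the minuscule case: `V.decomp`: `d v = ∑ y_m`, `m = u l`,
`y_m = x • (u E)` (`uniqW`), so `F (d v) = c (d v)`; cancel `d`; `v` a basis vector. -/
theorem PcM.const (h : PcM V l) (ee : EE V l E E') {F : Matrix V.I V.I (AA n)} {c : AA n}
    (hF : ∀ u : D.W, F.mulVec (u • E) = c • (u • E)) : F = c • (1 : Matrix V.I V.I (AA n)) := by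
  obtain ⟨d, hd, hdec⟩ := V.decomp
  have hkey : ∀ v : V.I → AA n, F.mulVec (d • v) = c • (d • v) := by
    intro v
    obtain ⟨y, hy, hv⟩ := hdec v
    rw [hv, Matrix.mulVec_sum, Finset.smul_sum]
    refine Finset.sum_congr rfl fun m hm => ?_
    obtain ⟨a, -, rfl⟩ := Finset.mem_image.1 hm
    obtain ⟨u, hu⟩ := h.wts a
    have h1 := hy (V.wt a)
    rw [hu] at h1
    obtain ⟨x, hx⟩ := ee.uniqW u h1
    rw [hu, hx, Matrix.mulVec_smul, hF u, smul_comm]
  refine Matrix.ext fun a b => ?_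
  have h1 := congrFun (hkey (Pi.single b 1)) a
  rw [Matrix.mulVec_smul] at h1
  have h2 : F.mulVec (Pi.single b 1) a = F a b := by
    rw [Matrix.mulVec_single_one]
    rfl
  have h3 : d * F a b = c * (d * (Pi.single b (1 : AA n) : V.I → AA n) a) := by
    rw [← h2]
    exact h1
  have h4 : d * F a b = d * (c * (Pi.single b (1 : AA n) : V.I → AA n) a) := by
    rw [h3]
    ring
  have h5 := mul_left_cancel₀ hd h4
  rw [h5]
  show _ = c * (1 : Matrix V.I V.I (AA n)) a b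
  congr 1
  rw [Matrix.one_apply, Pi.single_apply]

/-- The minuscule pieces are retracts.  `PcM.exists_EE`, `E' E = c0 Eu_l` (`eq_mnu`), `k` from `exists_sgk`,
`ω` from `exists_om`, `R = Unit`, `j = k.map D.sa`, `io a = ry (E a) 1`, `pi b = C c1⁻¹ • ry (PI0_l E' b) 1`,
`c1 = c0 * nst l`.  Labels: `(lab q).l = 0` (`lab_l_sa`), `lab q = emb u`, weight `u l`, values `u • E a`.
Trace: with `F a b := Tr (ry (E a PI0_l E' b) 1)`, `exists_sgk`: `PI F = ∑_u sgn u (u PI0_l) (u E) (u E')ᵀ`, so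
`PI F (u1 E) = ∑_{u l = u1 l} sgn u (u PI0_l) u (c0 Eu_l) u1 E = c0 ∑ sgn u (u PI) u1 E = c0 nst l PI (u1 E)`
(`EE.pair`, `smul_eq`, `PI_mnu`, `smul_PI`, `card_coset`); cancel `PI`; `PcM.const`. -/
theorem PcM.rf (h : PcM V l) : Nonempty (RF D V.S) := by
  classical
  obtain ⟨E, E', ee⟩ := h.exists_EE
  obtain ⟨c0, hc0, hpair⟩ := ee.eq_mnu h.mnu
  obtain ⟨k, hk⟩ := D.exists_sgk
  obtain ⟨ω, hω⟩ := exists_om h.mnu
  have hone : (1 : (D.sw0.BS (k.map D.sa)).J → AA n) ∈ (D.sw0.BS (k.map D.sa)).M :=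
    (ring_BS D.sw0 (k.map D.sa)).one
  have hry : ∀ f : AA n, (D.sw0.BS (k.map D.sa)).ry f 1 ∈ (D.sw0.BS (k.map D.sa)).M :=
    fun f => ry_BS D.sw0 (k.map D.sa) f _ hone
  have hryv : ∀ (f : AA n) (q : (D.sw0.BS (k.map D.sa)).J),
      (D.sw0.BS (k.map D.sa)).ry f 1 q = ((D.sw0.BS (k.map D.sa)).lab q).u • f := by
    intro f q
    show (((D.sw0.BS (k.map D.sa)).lab q) • f) * 1 = _
    rw [mul_one]
    rfl
  have hwt : ∀ q : (D.sw0.BS (k.map D.sa)).J,
      ((D.sw0.BS (k.map D.sa)).lab q * ω.1).l = ((D.sw0.BS (k.map D.sa)).lab q).u.1 l := by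
    intro q
    rw [RD.mul_l, D.lab_l_sa, zero_add, hω]
  obtain ⟨c1, hc1⟩ : ∃ c1 : ℂ, c1 = c0 * (nst D l : ℂ) := ⟨_, rfl⟩
  have hc1ne : c1 ≠ 0 := by
    rw [hc1]
    exact mul_ne_zero hc0 (Nat.cast_ne_zero.2 (nst_pos l).ne')
  -- the trace form
  let F : Matrix V.I V.I (AA n) := fun a b =>
    D.sw0.Tr (k.map D.sa) ⟨(D.sw0.BS (k.map D.sa)).ry (E a * (D.PI0 l * E' b)) 1, hry _⟩
  have hF : ∀ a b, D.PI * F a b = ∑ u : D.W, (((D.sgn u : ℤˣ) : ℤ) : AA n) *
      (u • (E a * (D.PI0 l * E' b))) := fun a b => hk _ _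
  have hsq : ∀ u : D.W, (((D.sgn u : ℤˣ) : ℤ) : AA n) * (((D.sgn u : ℤˣ) : ℤ) : AA n) = 1 := by
    intro u
    rcases Int.units_eq_one_or (D.sgn u) with h | h <;> rw [h] <;> simp
  have hscal : F = (MvPolynomial.C c1 : AA n) • (1 : Matrix V.I V.I (AA n)) := by
    refine h.const ee ?_
    intro u1
    funext a
    apply mul_left_cancel₀ D.PI_ne
    show D.PI * ∑ b, F a b * (u1 • E) b = D.PI * (MvPolynomial.C c1 * (u1 • E) a)
    have e1 : D.PI * ∑ b, F a b * (u1 • E) b =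
        ∑ u : D.W, (((D.sgn u : ℤˣ) : ℤ) : AA n) * ((u • E a) * (u • D.PI0 l)) *
          ((u • E') ⬝ᵥ (u1 • E)) := by
      rw [Finset.mul_sum]
      calc ∑ b, D.PI * (F a b * (u1 • E) b)
          = ∑ b, ∑ u : D.W, (((D.sgn u : ℤˣ) : ℤ) : AA n) *
              ((u • E a) * (u • D.PI0 l)) * ((u • E') b * (u1 • E) b) := by
            refine Finset.sum_congr rfl fun b _ => ?_
            rw [← mul_assoc, hF, Finset.sum_mul]
            refine Finset.sum_congr rfl fun u _ => ?_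
            rw [smul_mul', smul_mul']
            show _ = (((D.sgn u : ℤˣ) : ℤ) : AA n) *
              ((u • E a) * (u • D.PI0 l)) * ((u • E' b) * (u1 • E) b)
            ring
        _ = ∑ u : D.W, ∑ b, (((D.sgn u : ℤˣ) : ℤ) : AA n) *
              ((u • E a) * (u • D.PI0 l)) * ((u • E') b * (u1 • E) b) := Finset.sum_comm
        _ = _ := by
            refine Finset.sum_congr rfl fun u _ => ?_
            rw [← Finset.mul_sum]
            rfl
    rw [e1]
    have e2 : ∀ u : D.W, (((D.sgn u : ℤˣ) : ℤ) : AA n) * ((u • E a) * (u • D.PI0 l)) *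
          ((u • E') ⬝ᵥ (u1 • E)) =
        if u.1 l = u1.1 l then MvPolynomial.C c0 * D.PI * (u1 • E) a else 0 := by
      intro u
      rw [ee.pair u u1]
      by_cases hu : u.1 l = u1.1 l
      · rw [if_pos hu, if_pos hu, hpair, smul_mul', D.smul_C]
        have e3 : u • E a = (u1 • E) a := by
          have := congrFun (ee.smul_eq hu) a
          exact this
        have e4 : (u • D.PI0 l) * (u • D.Eu l) = (((D.sgn u : ℤˣ) : ℤ) : AA n) * D.PI := by
          rw [← smul_mul', ← PI_mnu h.mnu, D.smul_PI]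
        rw [e3]
        calc (((D.sgn u : ℤˣ) : ℤ) : AA n) * ((u1 • E) a * (u • D.PI0 l)) *
              (MvPolynomial.C c0 * (u • D.Eu l))
            = (((D.sgn u : ℤˣ) : ℤ) : AA n) * (u1 • E) a * MvPolynomial.C c0 *
              ((u • D.PI0 l) * (u • D.Eu l)) := by ring
          _ = ((((D.sgn u : ℤˣ) : ℤ) : AA n) * (((D.sgn u : ℤˣ) : ℤ) : AA n)) *
              (MvPolynomial.C c0 * D.PI * (u1 • E) a) := by rw [e4]; ring
          _ = _ := by rw [hsq, one_mul]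
      · rw [if_neg hu, if_neg hu, mul_zero]
    rw [Finset.sum_congr rfl fun u _ => e2 u, ← Finset.sum_filter, Finset.sum_const,
      card_coset l u1, nsmul_eq_mul, hc1, map_mul]
    have e5 : (MvPolynomial.C (nst D l : ℂ) : AA n) = (nst D l : AA n) := map_natCast _ _
    rw [e5]
    ring
  refine ⟨{
    R := Unit
    j := fun _ => k.map D.sa
    ω := fun _ => ω
    io := fun _ a => ⟨(D.sw0.BS (k.map D.sa)).ry (E a) 1, hry _⟩
    pi := fun _ b => (MvPolynomial.C c1⁻¹ : AA n) •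
      (⟨(D.sw0.BS (k.map D.sa)).ry (D.PI0 l * E' b) 1, hry _⟩ : (D.sw0.BS (k.map D.sa)).M)
    tr := ?_
    io_wt := ?_
    pi_wt := ?_ }⟩
  · intro a b
    have e1 : mulM (ring_BS D.sw0 (k.map D.sa))
        (⟨(D.sw0.BS (k.map D.sa)).ry (E a) 1, hry _⟩ : (D.sw0.BS (k.map D.sa)).M)
        ((MvPolynomial.C c1⁻¹ : AA n) •
          (⟨(D.sw0.BS (k.map D.sa)).ry (D.PI0 l * E' b) 1, hry _⟩ :
            (D.sw0.BS (k.map D.sa)).M)) =
        (MvPolynomial.C c1⁻¹ : AA n) • (⟨(D.sw0.BS (k.map D.sa)).ry (E a * (D.PI0 l * E' b)) 1,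
          hry _⟩ : (D.sw0.BS (k.map D.sa)).M) := by
      apply Subtype.ext
      funext q
      show (D.sw0.BS (k.map D.sa)).ry (E a) 1 q *
        (MvPolynomial.C c1⁻¹ * (D.sw0.BS (k.map D.sa)).ry (D.PI0 l * E' b) 1 q) =
        MvPolynomial.C c1⁻¹ * (D.sw0.BS (k.map D.sa)).ry (E a * (D.PI0 l * E' b)) 1 q
      rw [hryv, hryv, hryv, smul_mul' _ (E a)]
      ring
    rw [Finset.univ_unique, Finset.sum_singleton, e1, map_smul, smul_eq_mul]
    have e2 : F a b = MvPolynomial.C c1 * (1 : Matrix V.I V.I (AA n)) a b := by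
      rw [hscal]
      rfl
    show MvPolynomial.C c1⁻¹ * F a b = _
    rw [e2, ← mul_assoc, ← map_mul, inv_mul_cancel₀ hc1ne, map_one, one_mul, Matrix.one_apply]
  · intro _ q a
    have h1 := congrFun (ee.eig.smul V.S_W ((D.sw0.BS (k.map D.sa)).lab q).u) a
    rw [hwt]
    show ∑ b, V.S a b * (D.sw0.BS (k.map D.sa)).ry (E b) 1 q =
      fm0 _ * (D.sw0.BS (k.map D.sa)).ry (E a) 1 q
    simp only [hryv]
    exact h1
  · intro _ q b
    have h1 := congrFun (ee.eig'.smul V.S_W ((D.sw0.BS (k.map D.sa)).lab q).u) b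
    have h2 : ∑ a, (((D.sw0.BS (k.map D.sa)).lab q).u • E' a) * V.S a b =
      fm0 (((D.sw0.BS (k.map D.sa)).lab q).u.1 l) *
        (((D.sw0.BS (k.map D.sa)).lab q).u • E' b) := h1
    rw [hwt]
    show ∑ a, (MvPolynomial.C c1⁻¹ * (D.sw0.BS (k.map D.sa)).ry (D.PI0 l * E' a) 1 q) *
        V.S a b = fm0 _ * (MvPolynomial.C c1⁻¹ *
          (D.sw0.BS (k.map D.sa)).ry (D.PI0 l * E' b) 1 q)
    simp only [hryv, smul_mul']
    calc ∑ a, MvPolynomial.C c1⁻¹ * ((((D.sw0.BS (k.map D.sa)).lab q).u • D.PI0 l) *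
          (((D.sw0.BS (k.map D.sa)).lab q).u • E' a)) * V.S a b
        = MvPolynomial.C c1⁻¹ * (((D.sw0.BS (k.map D.sa)).lab q).u • D.PI0 l) *
          ∑ a, (((D.sw0.BS (k.map D.sa)).lab q).u • E' a) * V.S a b := by
          rw [Finset.mul_sum]
          refine Finset.sum_congr rfl fun a _ => ?_
          ring
      _ = _ := by rw [h2]; ring

end Pool.Agent.MTG
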