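import Pool.Agent.MTG.GS
import Pool.Agent.MTG.GF

/-! # MTG, Part T : the pole bound -/

namespace Pool.Agent.MTG

open MvPolynomial
open Pool.Agent.MTX (AS SW RedData Lat RyLat RingLat mulM ring_BS ry_BS nice_BS redJ)
open Pool.Agent.MTX.SLD (RR AA fm fm0 fm0_add fm0_smul fm0_zero fm0_neg fm0_sub fm0_ne_zero fm0_prime
  rho rho_fm)
open RD

variable {n : ℕ} (D : RD n)

/-- The weights of norm `≤ |l|²` (twisted by `ω`) form a closed set for the standard system.  `b = (γ, k) > 0`,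
`v⁻¹ b` not positive; so `(v ω)⁻¹ b` is not positive (`Om_pos`), `j := k + cp γ ν ≤ 0` for `ν = (v ω).l`
(`inv_smul_snd`), `k ≥ 0`; `(s_b v ω).l = ν - j γ` and `B(ν - jγ, ν - jγ) = B(ν,ν) + B(γ,γ) k j` (`cp_mul`), as in
`Wd.closed`. -/
theorem closed_norm (ω : D.Om) (l : Fin n → ℤ) : D.aff.Closed D.aff.pos
    {v | D.B (v * ω.1).l (v * ω.1).l ≤ D.B l l} := by
  intro v hv b hb hn
  have hn' : ¬ D.apos ((v * ω.1)⁻¹ • b) := by
    rw [mul_inv_rev, mul_smul, D.Om_pos (D.Om.inv_mem ω.2)]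
    exact hn
  have hn2 := RD.inv_smul_snd (v * ω.1) b
  have hb2 : 0 ≤ b.2 := by
    rcases (show 0 < b.2 ∨ (b.2 = 0 ∧ D.Pos b.1) from hb) with h5 | h5 <;> omega
  have hj : b.2 + D.cp b.1 (v * ω.1).l ≤ 0 := by
    by_contra h1
    push Not at h1
    exact hn' (Or.inl (by rw [hn2]; exact h1))
  have hl2 : (D.aref b * (v * ω.1)).l =
      (v * ω.1).l - (b.2 + D.cp b.1 (v * ω.1).l) • b.1.1 := by
    rw [mul_l, aref_l, aref_u]
    show -(b.2 • b.1.1) + D.rf b.1 (v * ω.1).l = _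
    rw [rf]; module
  have hcp := D.cp_mul b.1 (v * ω.1).l
  have hnorm : D.B (D.aref b * (v * ω.1)).l (D.aref b * (v * ω.1)).l =
      D.B (v * ω.1).l (v * ω.1).l +
        D.B b.1.1 b.1.1 * (b.2 * (b.2 + D.cp b.1 (v * ω.1).l)) := by
    rw [hl2]
    simp only [B_sub_left, B_sub_right, B_smul_left, B_smul_right, D.B_comm (v * ω.1).l b.1.1]
    linear_combination (b.2 + D.cp b.1 (v * ω.1).l) * hcp
  show D.B (D.aref b * v * ω.1).l (D.aref b * v * ω.1).l ≤ D.B l l
  rw [mul_assoc, hnorm]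
  have h6 : b.2 * (b.2 + D.cp b.1 (v * ω.1).l) ≤ 0 := mul_nonpos_of_nonneg_of_nonpos hb2 hj
  have h7 : D.B b.1.1 b.1.1 * (b.2 * (b.2 + D.cp b.1 (v * ω.1).l)) ≤ 0 :=
    mul_nonpos_of_nonneg_of_nonpos (D.BRt_pos b.1).le h6
  have h8 : D.B (v * ω.1).l (v * ω.1).l ≤ D.B l l := hv
  omega

/-- the product of the forms of the affine roots `(γ, -t)`, `0 ≤ t < cp γ l` -/
noncomputable def PlR (l : Fin n → ℤ) : RR n :=
  ∏ γ : D.Rt, ∏ t ∈ Finset.range (D.cp γ l).toNat, D.af (γ, -(t : ℤ))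

/-- `rho (af (γ, k)) = fm0 γ` -/
theorem rho_PlR (l : Fin n → ℤ) : rho (PlR D l) = D.Eu l := by
  unfold PlR RD.Eu
  rw [map_prod]
  refine Finset.prod_congr rfl fun γ _ => ?_
  rw [map_prod]
  have h1 : ∀ t ∈ Finset.range (D.cp γ l).toNat,
      rho (D.af (γ, -(t : ℤ))) = (fm0 γ.1 : AA n) := by
    intro t _
    unfold RD.af
    rw [rho_fm]
  rw [Finset.prod_congr rfl h1, Finset.prod_const, Finset.card_range]

/-- Every affine root `b = (γ, k)` with `b(l) = k + cp γ l ≠ 0` and `|s_b l|² ≤ |l|²` has `f b ∣ PlR l`: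
`|s_b l|² = |l|² + B(γ,γ) k (k + cp γ l)`, so `k (k + cp γ l) ≤ 0`; if `cp γ l > 0` then `- cp γ l < k ≤ 0`; if
`cp γ l < 0` replace `b` by `ang b` (`af (ang b) = - af b`); `cp γ l = 0` gives `k² ≤ 0`, contradiction. -/
theorem af_dvd_PlR {l : Fin n → ℤ} {b : D.ARt} (h1 : b.2 + D.cp b.1 l ≠ 0)
    (h2 : b.2 * (b.2 + D.cp b.1 l) ≤ 0) : D.af b ∣ PlR D l := by
  have key : ∀ b : D.ARt, b.2 + D.cp b.1 l ≠ 0 → b.2 * (b.2 + D.cp b.1 l) ≤ 0 →
      0 < D.cp b.1 l → D.af b ∣ PlR D l := by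
    rintro ⟨γ, k⟩ h1 h2 h3
    have h1' : k + D.cp γ l ≠ 0 := h1
    have h2' : k * (k + D.cp γ l) ≤ 0 := h2
    have h3' : 0 < D.cp γ l := h3
    have h4 : k ≤ 0 := by
      by_contra h
      push Not at h
      have : 0 < k * (k + D.cp γ l) := mul_pos h (by omega)
      omega
    have h5 : 0 < k + D.cp γ l := by
      by_contra h
      push Not at h
      have h6 : k + D.cp γ l < 0 := lt_of_le_of_ne h h1'
      have : 0 < k * (k + D.cp γ l) := mul_pos_of_neg_of_neg (by omega) h6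
      omega
    obtain ⟨t, ht⟩ : ∃ t : ℕ, k = -(t : ℤ) := ⟨(-k).toNat, by omega⟩
    subst ht
    have h6 : t ∈ Finset.range (D.cp γ l).toNat := Finset.mem_range.2 (by omega)
    unfold PlR
    exact (Finset.dvd_prod_of_mem (fun t : ℕ => D.af (γ, -(t : ℤ))) h6).trans
      (Finset.dvd_prod_of_mem (fun γ : D.Rt => ∏ t ∈ Finset.range (D.cp γ l).toNat,
        D.af (γ, -(t : ℤ))) (Finset.mem_univ γ))
  rcases lt_trichotomy (D.cp b.1 l) 0 with h3 | h3 | h3
  · have h4 : (D.ang b).2 + D.cp (D.ang b).1 l = -(b.2 + D.cp b.1 l) := by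
      show -b.2 + D.cp (D.ng b.1) l = _
      rw [cp_ng]; ring
    have h5 : D.af (D.ang b) ∣ PlR D l := by
      refine key (D.ang b) ?_ ?_ ?_
      · rw [h4]
        exact neg_ne_zero.2 h1
      · rw [h4]
        show -b.2 * -(b.2 + D.cp b.1 l) ≤ 0
        rw [neg_mul_neg]
        exact h2
      · show 0 < D.cp (D.ng b.1) l
        rw [cp_ng]
        omega
    have h6 : D.af (D.ang b) = -D.af b := D.aff.f_ng b
    rw [h6, neg_dvd] at h5
    exact h5
  · exfalso
    rw [h3, add_zero] at h1 h2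
    have : 0 < b.2 * b.2 := mul_self_pos.2 h1
    omega
  · exact key b h1 h2 h3

/-- The pole bound in `BS(j)`.  `sat` (with `nice_BS`): for every `b` find `c`.  Let `Z = wtSet ω l`, `z = PlR l • rest Z m`.
If `b(l) = 0` then `Z` is `s_b`-stable (`(s_b v ω).l = l - b(l) γ`): `rest_stable`.  If `b(l) ≠ 0` and `|s_b l|² > |l|²`
(i.e. `b.2 * b(l) > 0`): `Z' = {v | (v ω).l = l ∨ (v ω).l = s_b l}` is `s_b`-stable and `rest Z' m = rest Z m` by the
support of `m`.  Otherwise `PlR l = f b * d` (`af_dvd_PlR`) and `rest_any`: `c f b • rest Z m ∈ M`. -/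
theorem pb_aff (j : List D.SA) (ω : D.Om) (l : Fin n → ℤ) {m : (D.aff.sw.BS j).J → RR n}
    (hm : m ∈ (D.aff.sw.BS j).M)
    (hs : (D.aff.sw.BS j).sup m {v | D.B (v * ω.1).l (v * ω.1).l ≤ D.B l l}) :
    PlR D l • (D.aff.sw.BS j).rest (D.wtSet ω l) m ∈ (D.aff.sw.BS j).M := by
  classical
  -- the weight of `s_b v ω`
  have hlab : ∀ (b : D.ARt) (v : D.Aff), (D.aref b * v * ω.1).l =
      (v * ω.1).l - (b.2 + D.cp b.1 (v * ω.1).l) • b.1.1 := by
    intro b v
    rw [mul_assoc, mul_l, aref_l, aref_u, rW_apply, rf, add_smul]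
    abel
  have hry : Pool.Agent.MTX.RyLat (D.aff.sw.BS j) := (nice_BS D.aff j).ry_mem
  refine sat D.aff (nice_BS D.aff j) _ fun b => ?_
  by_cases hb : b.2 + D.cp b.1 l = 0
  · -- `b(l) = 0`
    obtain ⟨c, hc, hcm⟩ := Pool.Agent.MTX.rest_stable D.aff (L := D.aff.sw.BS j) hry b (D.wtSet ω l)
      (fun v hv => by
        have hv' : (v * ω.1).l = l := hv
        show (D.aref b * v * ω.1).l = l
        rw [hlab, hv', hb, zero_smul, sub_zero])
    refine ⟨c, hc, ?_⟩
    rw [smul_comm]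
    exact (D.aff.sw.BS j).M.smul_mem _ (hcm m hm)
  · by_cases hb2 : b.2 * (b.2 + D.cp b.1 l) ≤ 0
    · obtain ⟨d, hd⟩ := af_dvd_PlR D hb hb2
      obtain ⟨c, hc, hcm⟩ := rest_any D.aff (L := D.aff.sw.BS j) hry b (D.wtSet ω l)
      refine ⟨c, hc, ?_⟩
      have h1 := (D.aff.sw.BS j).M.smul_mem d (hcm m hm)
      have h2 : c • PlR D l • (D.aff.sw.BS j).rest (D.wtSet ω l) m =
          d • (c * D.aff.f b) • (D.aff.sw.BS j).rest (D.wtSet ω l) m := by
        rw [smul_smul, smul_smul, hd]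
        congr 1
        show c * (D.af b * d) = d * (c * D.af b)
        ring
      rw [h2]
      exact h1
    · have hb3 : 0 < b.2 * (b.2 + D.cp b.1 l) := not_le.1 hb2
      let Z' : Set D.Aff := {v | (v * ω.1).l = l ∨
        (v * ω.1).l = l - (b.2 + D.cp b.1 l) • b.1.1}
      have hcp : D.cp b.1 (l - (b.2 + D.cp b.1 l) • b.1.1) =
          D.cp b.1 l - 2 * (b.2 + D.cp b.1 l) := by
        rw [cp_sub, cp_smul, cp_self]
        ring
      obtain ⟨c, hc, hcm⟩ := Pool.Agent.MTX.rest_stable D.aff (L := D.aff.sw.BS j) hry b Z'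
        (fun v hv => by
          rcases hv with hv | hv
          · right
            show (D.aref b * v * ω.1).l = _
            rw [hlab, hv]
          · left
            show (D.aref b * v * ω.1).l = _
            rw [hlab, hv, hcp]
            module)
      refine ⟨c, hc, ?_⟩
      have hrest : (D.aff.sw.BS j).rest (D.wtSet ω l) m = (D.aff.sw.BS j).rest Z' m := by
        funext p
        unfold Pool.Agent.MTX.Lat.rest
        by_cases h1 : (D.aff.sw.BS j).lab p ∈ D.wtSet ω l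
        · have h1' : (D.aff.sw.BS j).lab p ∈ Z' := Or.inl h1
          rw [if_pos h1, if_pos h1']
        · rw [if_neg h1]
          by_cases h2 : (D.aff.sw.BS j).lab p ∈ Z'
          · rw [if_pos h2]
            rcases h2 with h2 | h2
            · exact absurd h2 h1
            · refine (hs p ?_).symm
              show ¬ (D.B ((D.aff.sw.BS j).lab p * ω.1).l ((D.aff.sw.BS j).lab p * ω.1).l ≤ D.B l l)
              rw [h2, not_le, B_sub_left, B_sub_right, B_sub_right, B_smul_left, B_smul_right,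
                B_smul_left, B_smul_right, D.B_comm l b.1.1]
              have h3 := D.cp_mul b.1 l
              have h4 := D.BRt_pos b.1
              have h5 := mul_pos hb3 h4
              have h6 : D.B l l - (b.2 + D.cp b.1 l) * D.B b.1.1 l -
                  ((b.2 + D.cp b.1 l) * D.B b.1.1 l -
                    (b.2 + D.cp b.1 l) * ((b.2 + D.cp b.1 l) * D.B b.1.1 b.1.1)) =
                  D.B l l + b.2 * (b.2 + D.cp b.1 l) * D.B b.1.1 b.1.1 := by
                linear_combination (b.2 + D.cp b.1 l) * h3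
              rw [h6]
              linarith
          · rw [if_neg h2]
      rw [hrest, smul_comm]
      exact (D.aff.sw.BS j).M.smul_mem _ (hcm m hm)

open Classical in
/-- The pole bound in `BS_0(j)`: lift by `rdat.lift_sup` (`closed_norm`), `pb_aff`, reduce by `rdat.mem`
(`rdat.lab`, `rho_PlR`). -/
theorem pb_lat (j : List D.SA) (ω : D.Om) (l : Fin n → ℤ) (g : (D.sw0.BS j).M)
    (hs : ∀ q, g.1 q ≠ 0 → D.B ((D.sw0.BS j).lab q * ω.1).l ((D.sw0.BS j).lab q * ω.1).l ≤ D.B l l) :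
    (fun q => if ((D.sw0.BS j).lab q * ω.1).l = l then D.Eu l * g.1 q else 0) ∈
      (D.sw0.BS j).M := by
  have hg : (D.sw0.BS j).sup g.1 {v | D.B (v * ω.1).l (v * ω.1).l ≤ D.B l l} := by
    intro q hq
    by_contra h
    exact hq (hs q h)
  obtain ⟨m, hms, hmr⟩ := D.rdat.lift_sup D.aff.sys_pos (closed_norm D ω l) j g hg
  have h1 := pb_aff D j ω l m.2 hms
  have h2 := D.rdat.mem j _ h1
  have key : (fun q => D.rdat.ρ ((PlR D l • (D.aff.sw.BS j).rest (D.wtSet ω l) m.1)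
      ((redJ D.aff.sw D.sw0 j).symm q))) =
      (fun q => if ((D.sw0.BS j).lab q * ω.1).l = l then D.Eu l * g.1 q else 0) := by
    funext q
    obtain ⟨p, rfl⟩ := (redJ D.aff.sw D.sw0 j).surjective q
    rw [Equiv.symm_apply_apply, D.rdat.lab j p]
    show D.rdat.ρ (PlR D l * (if (D.aff.sw.BS j).lab p ∈ D.wtSet ω l then m.1 p else 0)) = _
    have hg' : g.1 (redJ D.aff.sw D.sw0 j p) = D.rdat.ρ (m.1 p) := by
      rw [← hmr]
      exact D.rdat.red_apply j m p
    have he : D.rdat.ρ (PlR D l) = D.Eu l := rho_PlR D l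
    by_cases h : ((D.aff.sw.BS j).lab p * ω.1).l = l
    · rw [if_pos (show (D.aff.sw.BS j).lab p ∈ D.wtSet ω l from h), if_pos h, map_mul, hg', he]
    · rw [if_neg (show ¬ (D.aff.sw.BS j).lab p ∈ D.wtSet ω l from h), if_neg h, mul_zero, map_zero]
  rw [← key]
  exact h2

variable {D}

omit D in
theorem u1d_orth {I : Type} [Fintype I] {s : Matrix I I (AA n)} {μ m : Fin n → ℤ} (hne : μ ≠ m)
    {p : I → AA n} (hp : ∀ b, ∑ a, p a * s a b = fm0 μ * p b) {F : I → KK n}
    (hF : (s.map aK).mulVec F = (aK (fm0 m) : KK n) • F) : ∑ a, aK (p a) * F a = 0 := by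
  have h1 : ∑ b, (∑ a, aK (p a) * aK (s a b)) * F b = aK (fm0 μ) * ∑ b, aK (p b) * F b := by
    rw [Finset.mul_sum]
    refine Finset.sum_congr rfl fun b _ => ?_
    have h0 := congrArg aK (hp b)
    rw [map_sum, map_mul] at h0
    simp only [map_mul] at h0
    rw [h0, mul_assoc]
  have h2 : ∑ b, (∑ a, aK (p a) * aK (s a b)) * F b = aK (fm0 m) * ∑ a, aK (p a) * F a := by
    simp only [Finset.sum_mul]
    rw [Finset.sum_comm, Finset.mul_sum]
    refine Finset.sum_congr rfl fun a _ => ?_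
    have h4 : ∑ b, aK (s a b) * F b = aK (fm0 m) * F a := congrFun hF a
    rw [mul_left_comm, ← h4, Finset.mul_sum]
    exact Finset.sum_congr rfl fun b _ => by ring
  have h3 : (aK (fm0 μ) - aK (fm0 m)) * ∑ a, aK (p a) * F a = 0 := by
    rw [sub_mul, ← h1, ← h2, sub_self]
  refine (mul_eq_zero.1 h3).resolve_left ?_
  rw [← map_sub, ← fm0_sub]
  exact aK_ne_zero (fm0_ne_zero (sub_ne_zero.2 hne))

/-- The pole bound for a matrix with a retraction family.  For each `r` let `g_r = ∑_a f a • pi r a ∈ BS_0 (j r)`, where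
`∑_m F m a = aK (f a)`.  At the index `q` its value is `∑_a (F μ) a (pi r a) q` over the fraction field, `μ` the weight of
`q` (left and right eigenvectors of different weights are orthogonal), so `g_r` satisfies the hypothesis of `pb_lat`;
let `g'_r` be the result.  Over the fraction field `g'_r = Eu_l ∑_b (F l) b • pi r b` (at the labels of weight `≠ l` both
are `0`).  Take `d ≠ 0` in `A` with `d (F l) b ∈ A`: `d g'_r = Eu_l ∑_b (d (F l) b) • pi r b`, so
`d ∑_r Tr (io r a * g'_r) = Eu_l ∑_b (d (F l) b) δ_ab`: `t = ∑_r Tr (io r a * g'_r)`. -/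
theorem pb_mat {I : Type} [Fintype I] [DecidableEq I] {s : Matrix I I (AA n)} (h : RF D s)
    (l : Fin n → ℤ) (Fs : Finset (Fin n → ℤ)) (F : (Fin n → ℤ) → I → KK n)
    (h1 : ∀ m, (s.map aK).mulVec (F m) = (aK (fm0 m) : KK n) • F m)
    (h2 : ∀ a, ∃ t : AA n, ∑ m ∈ Fs, F m a = aK t)
    (h3 : ∀ m ∈ Fs, F m ≠ 0 → D.B m m ≤ D.B l l) (h4 : l ∈ Fs) (a : I) :
    ∃ t : AA n, aK (D.Eu l) * F l a = aK t := by
  classical
  choose f hf using h2
  obtain ⟨d, φ, hd, hφ⟩ : ∃ (d : AA n) (φ : I → AA n), d ≠ 0 ∧ ∀ b, aK d * F l b = aK (φ b) := by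
    obtain ⟨d, hd⟩ := IsLocalization.exist_integer_multiples_of_finite (nonZeroDivisors (AA n)) (F l)
    have h5 : ∀ b, ∃ x : AA n, aK d.1 * F l b = aK x := by
      intro b
      obtain ⟨x, hx⟩ := hd b
      refine ⟨x, ?_⟩
      have h6 : (algebraMap (AA n) (KK n)) x = d.1 • F l b := hx
      rw [Algebra.smul_def] at h6
      exact h6.symm
    choose φ hφ using h5
    exact ⟨d.1, φ, nonZeroDivisors.coe_ne_zero d, hφ⟩
  -- the weights
  obtain ⟨wtq, hwtq⟩ : ∃ wtq : (r : h.R) → (D.sw0.BS (h.j r)).J → Fin n → ℤ,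
      ∀ r q, ((D.sw0.BS (h.j r)).lab q * (h.ω r).1).l = wtq r q := ⟨_, fun _ _ => rfl⟩
  have hpw : ∀ r q b, ∑ a, (h.pi r a).1 q * s a b = fm0 (wtq r q) * (h.pi r b).1 q := by
    intro r q b
    rw [← hwtq]
    exact h.pi_wt r q b
  have key : ∀ (r : h.R) (q : (D.sw0.BS (h.j r)).J), aK (∑ a, f a * (h.pi r a).1 q) =
      if wtq r q ∈ Fs then ∑ a, aK ((h.pi r a).1 q) * F (wtq r q) a else 0 := by
    intro r q
    have e1 : aK (∑ a, f a * (h.pi r a).1 q) = ∑ m ∈ Fs, ∑ a, aK ((h.pi r a).1 q) * F m a := by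
      rw [map_sum, Finset.sum_comm]
      refine Finset.sum_congr rfl fun a _ => ?_
      rw [map_mul, ← hf, Finset.sum_mul]
      exact Finset.sum_congr rfl fun m _ => mul_comm _ _
    rw [e1]
    split_ifs with hμ
    · refine Finset.sum_eq_single_of_mem _ hμ fun m _ hm => ?_
      exact u1d_orth (fun h5 => hm h5.symm) (hpw r q) (h1 m)
    · refine Finset.sum_eq_zero fun m hm => ?_
      exact u1d_orth (fun h5 : wtq r q = m => hμ (by rw [h5]; exact hm)) (hpw r q) (h1 m)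
  have hg : ∀ r q, (∑ a, f a • h.pi r a).1 q = ∑ a, f a * (h.pi r a).1 q := by
    intro r q
    rw [Submodule.coe_sum, Finset.sum_apply]
    rfl
  have hs : ∀ r q, (∑ a, f a • h.pi r a).1 q ≠ 0 →
      D.B ((D.sw0.BS (h.j r)).lab q * (h.ω r).1).l ((D.sw0.BS (h.j r)).lab q * (h.ω r).1).l ≤
        D.B l l := by
    intro r q h0
    rw [hwtq]
    rw [hg] at h0
    have h5 := aK_ne_zero h0
    rw [key] at h5
    split_ifs at h5 with hμ
    · refine h3 _ hμ fun h6 => h5 ?_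
      refine Finset.sum_eq_zero fun a _ => ?_
      rw [h6, Pi.zero_apply, mul_zero]
    · exact absurd rfl h5
  have hG := fun r => pb_lat D (h.j r) (h.ω r) l (∑ a, f a • h.pi r a) (hs r)
  obtain ⟨G, hG1⟩ : ∃ G : (r : h.R) → (D.sw0.BS (h.j r)).M, ∀ r q,
      d * (G r).1 q = ∑ b, (D.Eu l * φ b) * (h.pi r b).1 q := by
    refine ⟨fun r => ⟨_, hG r⟩, fun r q => ?_⟩
    apply aK_inj
    have e1 : aK (∑ b, (D.Eu l * φ b) * (h.pi r b).1 q) =
        aK (D.Eu l) * aK d * ∑ b, aK ((h.pi r b).1 q) * F l b := by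
      rw [map_sum, Finset.mul_sum]
      refine Finset.sum_congr rfl fun b _ => ?_
      rw [map_mul, map_mul, ← hφ]
      ring
    rw [e1]
    by_cases hμ : wtq r q = l
    · have e2 := key r q
      rw [hμ, if_pos h4] at e2
      rw [← e2]
      have e3 : (if ((D.sw0.BS (h.j r)).lab q * (h.ω r).1).l = l then
          D.Eu l * (∑ a, f a • h.pi r a).1 q else 0) = D.Eu l * ∑ a, f a * (h.pi r a).1 q := by
        rw [if_pos ((hwtq r q).trans hμ), hg]
      refine (congrArg (fun x => aK (d * x)) e3).trans ?_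
      rw [map_mul, map_mul]
      ring
    · have e3 : (if ((D.sw0.BS (h.j r)).lab q * (h.ω r).1).l = l then
          D.Eu l * (∑ a, f a • h.pi r a).1 q else 0) = 0 :=
        if_neg fun h5 => hμ ((hwtq r q).symm.trans h5)
      refine (congrArg (fun x => aK (d * x)) e3).trans ?_
      rw [mul_zero, map_zero, u1d_orth hμ (hpw r q) (h1 l), mul_zero]
  refine ⟨∑ r, D.sw0.Tr (h.j r) (mulM (ring_BS D.sw0 (h.j r)) (h.io r a) (G r)), ?_⟩
  have e4 : d * ∑ r, D.sw0.Tr (h.j r) (mulM (ring_BS D.sw0 (h.j r)) (h.io r a) (G r)) =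
      D.Eu l * φ a := by
    have e5 : ∀ r, d * D.sw0.Tr (h.j r) (mulM (ring_BS D.sw0 (h.j r)) (h.io r a) (G r)) =
        ∑ b, (D.Eu l * φ b) * D.sw0.Tr (h.j r)
          (mulM (ring_BS D.sw0 (h.j r)) (h.io r a) (h.pi r b)) := by
      intro r
      have e6 : d • mulM (ring_BS D.sw0 (h.j r)) (h.io r a) (G r) =
          ∑ b, (D.Eu l * φ b) • mulM (ring_BS D.sw0 (h.j r)) (h.io r a) (h.pi r b) := by
        apply Subtype.ext
        funext q
        rw [Submodule.coe_sum, Finset.sum_apply]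
        show d * ((h.io r a).1 q * (G r).1 q) =
          ∑ b, (D.Eu l * φ b) * ((h.io r a).1 q * (h.pi r b).1 q)
        rw [mul_left_comm, hG1, Finset.mul_sum]
        exact Finset.sum_congr rfl fun b _ => by ring
      have e7 := congrArg (D.sw0.Tr (h.j r)) e6
      rw [map_smul, map_sum] at e7
      simp only [map_smul, smul_eq_mul] at e7
      exact e7
    rw [Finset.mul_sum, Finset.sum_congr rfl fun r _ => e5 r, Finset.sum_comm]
    have e8 : ∀ b, ∑ r, (D.Eu l * φ b) * D.sw0.Tr (h.j r)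
          (mulM (ring_BS D.sw0 (h.j r)) (h.io r a) (h.pi r b)) =
        (D.Eu l * φ b) * if a = b then 1 else 0 := by
      intro b
      rw [← Finset.mul_sum, h.tr]
    rw [Finset.sum_congr rfl fun b _ => e8 b]
    simp
  have h6 := congrArg aK e4
  rw [map_mul, map_mul, ← hφ, mul_left_comm] at h6
  exact (mul_left_cancel₀ (aK_ne_zero hd) h6).symm

end Pool.Agent.MTG
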