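import Pool.Agent.MTG.GF

/-! # MTG, Part T : strong lifts -/

namespace Pool.Agent.MTG

open MvPolynomial
open Pool.Agent.MTX (AS SW RedData Lat RyLat RingLat mulM ring_BS ry_BS big_BS eu_ne)
open Pool.Agent.MTX.SLD (RR AA fm fm0 fm0_add fm0_smul fm0_zero fm0_neg fm0_sub fm0_ne_zero fm0_prime)
open RD

variable {n : ℕ} {D : RD n}

theorem U2a_sup_compl {j i : List D.SA} (ωj ω : D.Om)
    (Φ : (D.sw0.BS j).M →ₗ[AA n] (D.sw0.BS i).M)
    (h : ∀ (mu : Fin n → ℤ) (g : (D.sw0.BS j).M),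
      (∀ p, ((D.sw0.BS j).lab p * ωj.1).l ≠ mu → g.1 p = 0) →
      ∀ p, ((D.sw0.BS i).lab p * ω.1).l ≠ mu → (Φ g).1 p = 0)
    (ν : Fin n → ℤ) (g : (D.sw0.BS j).M)
    (hg : ∀ q, ((D.sw0.BS j).lab q * ωj.1).l = ν → g.1 q = 0) (p : (D.sw0.BS i).J)
    (hp : ((D.sw0.BS i).lab p * ω.1).l = ν) : (Φ g).1 p = 0 := by
  classical
  obtain ⟨c, hc, hbig⟩ := big_BS D.sw0 j
  let r : (Fin n → ℤ) → (D.sw0.BS j).M := fun μ =>
    ⟨c • (fun q => if ((D.sw0.BS j).lab q * ωj.1).l = μ then g.1 q else 0), hbig _⟩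
  let A : Finset (Fin n → ℤ) := Finset.univ.image fun p => ((D.sw0.BS j).lab p * ωj.1).l
  have hsum : c • g = ∑ μ ∈ A, r μ := by
    apply Subtype.ext
    funext p
    have h1 : (∑ μ ∈ A, r μ).1 p = ∑ μ ∈ A, (r μ).1 p := by
      rw [AddSubmonoidClass.coe_finsetSum, Finset.sum_apply]
    rw [h1, Finset.sum_eq_single ((D.sw0.BS j).lab p * ωj.1).l]
    · show c * g.1 p = c * (if ((D.sw0.BS j).lab p * ωj.1).l = ((D.sw0.BS j).lab p * ωj.1).l
        then g.1 p else 0)
      rw [if_pos rfl]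
    · intro μ _ hμ
      show c * (if ((D.sw0.BS j).lab p * ωj.1).l = μ then g.1 p else 0) = 0
      rw [if_neg (fun h9 => hμ h9.symm), mul_zero]
    · intro h
      exact absurd (Finset.mem_image_of_mem _ (Finset.mem_univ p)) h
  have h2 : c * (Φ g).1 p = 0 := by
    have h3 : c * (Φ g).1 p = (Φ (c • g)).1 p := by rw [map_smul]; rfl
    rw [h3, hsum, map_sum]
    have h1 : (∑ μ ∈ A, Φ (r μ)).1 p = ∑ μ ∈ A, (Φ (r μ)).1 p := by
      rw [AddSubmonoidClass.coe_finsetSum, Finset.sum_apply]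
    rw [h1]
    refine Finset.sum_eq_zero fun μ _ => ?_
    by_cases hμ : μ = ν
    · have h4 : r μ = 0 := by
        apply Subtype.ext
        funext q
        show c * (if ((D.sw0.BS j).lab q * ωj.1).l = μ then g.1 q else 0) = 0
        split_ifs with hq
        · rw [hg q (by rw [hq, hμ]), mul_zero]
        · exact mul_zero _
      rw [h4, map_zero]
      rfl
    · refine h μ (r μ) ?_ p (fun h5 => hμ ?_)
      · intro q hq
        show c * (if ((D.sw0.BS j).lab q * ωj.1).l = μ then g.1 q else 0) = 0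
        rw [if_neg hq, mul_zero]
      · rw [← h5, hp]
  exact (mul_eq_zero.1 h2).resolve_left hc

theorem U2a_mul_add (j : List D.SA) (F G a : (D.sw0.BS j).M) :
    mulM (ring_BS D.sw0 j) (F + G) a =
      mulM (ring_BS D.sw0 j) F a + mulM (ring_BS D.sw0 j) G a := by
  apply Subtype.ext
  funext p
  show (F.1 p + G.1 p) * a.1 p = F.1 p * a.1 p + G.1 p * a.1 p
  rw [add_mul]

theorem U2a_mul_smul (j : List D.SA) (r : AA n) (F a : (D.sw0.BS j).M) :
    mulM (ring_BS D.sw0 j) (r • F) a = r • mulM (ring_BS D.sw0 j) F a := by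
  apply Subtype.ext
  funext p
  show (r * F.1 p) * a.1 p = r * (F.1 p * a.1 p)
  rw [mul_assoc]

/-- the functional `φ0 F = ∑_t Tr (F pi_t) ev_t` -/
noncomputable def U2a_phi {I : Type} [Fintype I] (j : List D.SA) (pi : I → (D.sw0.BS j).M)
    (ev : I → AA n) : (D.sw0.BS j).M →ₗ[AA n] AA n where
  toFun F := ∑ t, D.sw0.Tr j (mulM (ring_BS D.sw0 j) F (pi t)) * ev t
  map_add' := by
    intro F G
    rw [← Finset.sum_add_distrib]
    refine Finset.sum_congr rfl fun t _ => ?_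
    rw [U2a_mul_add, map_add, add_mul]
  map_smul' := by
    intro r F
    rw [RingHom.id_apply, smul_eq_mul, Finset.mul_sum]
    refine Finset.sum_congr rfl fun t _ => ?_
    rw [U2a_mul_smul, map_smul, smul_eq_mul, mul_assoc]

theorem U2a_phi_off {I : Type} [Fintype I] {s : Matrix I I (AA n)} (j : List D.SA) (ωj : D.Om)
    (pi : I → (D.sw0.BS j).M)
    (hpi : ∀ q b, ∑ a, (pi a).1 q * s a b = fm0 ((D.sw0.BS j).lab q * ωj.1).l * (pi b).1 q)
    {ev : I → AA n} {lam : Fin n → ℤ} (hev : ∀ a, ∑ b, s a b * ev b = fm0 lam * ev a)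
    (F : (D.sw0.BS j).M) (hF : ∀ q, ((D.sw0.BS j).lab q * ωj.1).l = lam → F.1 q = 0) :
    U2a_phi j pi ev F = 0 := by
  have hS : ∀ q, ((D.sw0.BS j).lab q * ωj.1).l ≠ lam → ∑ a, (pi a).1 q * ev a = 0 := by
    intro q hq
    have h1 : fm0 lam * ∑ a, (pi a).1 q * ev a =
        fm0 ((D.sw0.BS j).lab q * ωj.1).l * ∑ a, (pi a).1 q * ev a := by
      calc fm0 lam * ∑ a, (pi a).1 q * ev a
          = ∑ a, (pi a).1 q * ∑ b, s a b * ev b := by
            rw [Finset.mul_sum]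
            refine Finset.sum_congr rfl fun a _ => ?_
            rw [hev a]
            ring
        _ = ∑ a, ∑ b, (pi a).1 q * s a b * ev b := by
            refine Finset.sum_congr rfl fun a _ => ?_
            rw [Finset.mul_sum]
            refine Finset.sum_congr rfl fun b _ => ?_
            ring
        _ = ∑ b, ∑ a, (pi a).1 q * s a b * ev b := Finset.sum_comm
        _ = ∑ b, (fm0 ((D.sw0.BS j).lab q * ωj.1).l * (pi b).1 q) * ev b := by
            refine Finset.sum_congr rfl fun b _ => ?_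
            rw [← Finset.sum_mul, hpi]
        _ = fm0 ((D.sw0.BS j).lab q * ωj.1).l * ∑ a, (pi a).1 q * ev a := by
            rw [Finset.mul_sum]
            refine Finset.sum_congr rfl fun b _ => ?_
            ring
    have h2 : fm0 (lam - ((D.sw0.BS j).lab q * ωj.1).l) * ∑ a, (pi a).1 q * ev a = 0 := by
      rw [fm0_sub, sub_mul, h1, sub_self]
    rcases mul_eq_zero.1 h2 with h3 | h3
    · exact absurd h3 (fm0_ne_zero (sub_ne_zero.2 (Ne.symm hq)))
    · exact h3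
  have hinj : Function.Injective (algebraMap (AA n) (FractionRing (AA n))) :=
    IsFractionRing.injective (AA n) (FractionRing (AA n))
  show ∑ t, D.sw0.Tr j (mulM (ring_BS D.sw0 j) F (pi t)) * ev t = 0
  apply hinj
  rw [map_zero, map_sum]
  have h1 : ∀ t, algebraMap (AA n) (FractionRing (AA n))
      (D.sw0.Tr j (mulM (ring_BS D.sw0 j) F (pi t)) * ev t) =
      ∑ q, algebraMap (AA n) (FractionRing (AA n)) (F.1 q * ((pi t).1 q * ev t)) /
        algebraMap (AA n) (FractionRing (AA n)) (D.sw0.eu j q) := by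
    intro t
    rw [map_mul, Pool.Agent.MTX.Tr_eq D.sw0 hinj j (mulM (ring_BS D.sw0 j) F (pi t)),
      Finset.sum_mul]
    refine Finset.sum_congr rfl fun q _ => ?_
    rw [Pool.Agent.MTX.mulM_apply, map_mul, map_mul, map_mul, div_mul_eq_mul_div, mul_assoc]
  simp only [h1]
  rw [Finset.sum_comm]
  refine Finset.sum_eq_zero fun q _ => ?_
  rw [← Finset.sum_div, ← map_sum, ← Finset.mul_sum]
  by_cases hq : ((D.sw0.BS j).lab q * ωj.1).l = lam
  · rw [hF q hq, zero_mul, map_zero, zero_div]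
  · rw [hS q hq, mul_zero, map_zero, zero_div]

/-- The lift of an eigenvector.  For each `r` let `ρ = ∑_b ev b • pi r b ∈ BS_0 (j r)` and `φ0 g = Tr (g * ρ)`; `ρ` vanishes at
the labels of weight `≠ lam` (left and right eigenvectors), so `main_wt` (for `ω r` and `j r`) gives `Φ r` with
`(Φ r g) top = φ0 g`, preserving the supports of every weight.  `ψ a = ∑_r Φ r (io r a)`:
`ψ a top = ∑_r Tr (io r a * ρ) = ∑_b ev b δ_ab`.
Weights: let `c ≠ 0` with `c • m ∈ M` for all functions `m` (`big_BS`).  For every weight `μ` the element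
`x_a = c • (io r a restricted to the labels of weight μ)` is in `M`, `∑_b s a b x_b = fm0 μ x_a`, so
`∑_b s a b Φ(x_b) = fm0 μ Φ(x_a)`.  At an index `p` of weight `μ`: `c Φ(io r a) p = Φ(x_a) p`, since the element
`c io r a - x_a` is a sum of elements supported on other weights.  Cancel `c`.  (Cf. MTX/T8 `exists_psi`, MTX/T9c.) -/
theorem RF.exists_psi {I : Type} [Fintype I] [DecidableEq I] {s : Matrix I I (AA n)}
    (h : RF D s) {lam : Fin n → ℤ} {i : List D.SA} {ω : D.Om} (hi : D.aff.Red i)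
    (hl : (D.aff.sw.pr i * ω.1).l = lam) {ev : I → AA n} (hev : Eig s lam ev) :
    ∃ ψ : I → (D.sw0.BS i).M, (∀ a, (ψ a).1 (D.sw0.top i) = ev a) ∧
      ∀ p a, ∑ b, s a b * (ψ b).1 p = fm0 ((D.sw0.BS i).lab p * ω.1).l * (ψ a).1 p := by
  have hev' : ∀ a, ∑ b, s a b * ev b = fm0 lam * ev a := by
    intro a
    have := congrFun hev a
    exact this
  have hΦ : ∀ r : h.R, ∃ Φ0 : (D.sw0.BS (h.j r)).M →ₗ[AA n] (D.sw0.BS i).M,
      (∀ g, (Φ0 g).1 (D.sw0.top i) = U2a_phi (h.j r) (h.pi r) ev g) ∧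
      ∀ (mu : Fin n → ℤ) (g : (D.sw0.BS (h.j r)).M),
        (∀ p, ((D.sw0.BS (h.j r)).lab p * (h.ω r).1).l ≠ mu → g.1 p = 0) →
        ∀ p, ((D.sw0.BS i).lab p * ω.1).l ≠ mu → (Φ0 g).1 p = 0 := by
    intro r
    refine D.main_wt ω (h.ω r) i hi (h.j r) (U2a_phi (h.j r) (h.pi r) ev) ?_
    intro g hg
    refine U2a_phi_off (h.j r) (h.ω r) (h.pi r) (h.pi_wt r) hev' g ?_
    intro q hq
    exact hg q (by rw [hq, hl])
  choose Φ hΦ1 hΦ2 using hΦ
  have hcoe : ∀ (f : h.R → (D.sw0.BS i).M) (p : (D.sw0.BS i).J),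
      (∑ r, f r).1 p = ∑ r, (f r).1 p := by
    intro f p
    rw [AddSubmonoidClass.coe_finsetSum, Finset.sum_apply]
  refine ⟨fun a => ∑ r, Φ r (h.io r a), fun a => ?_, fun p a => ?_⟩
  · rw [hcoe]
    have h1 : ∀ r, (Φ r (h.io r a)).1 (D.sw0.top i) =
        ∑ t, D.sw0.Tr (h.j r) (mulM (ring_BS D.sw0 (h.j r)) (h.io r a) (h.pi r t)) * ev t :=
      fun r => hΦ1 r _
    rw [Finset.sum_congr rfl fun r _ => h1 r, Finset.sum_comm]
    have h2 : ∀ t, ∑ r, D.sw0.Tr (h.j r) (mulM (ring_BS D.sw0 (h.j r)) (h.io r a) (h.pi r t)) *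
        ev t = (if a = t then 1 else 0) * ev t := by
      intro t
      rw [← Finset.sum_mul, h.tr]
    rw [Finset.sum_congr rfl fun t _ => h2 t]
    simp
  · have key : ∀ r, ∑ b, s a b * (Φ r (h.io r b)).1 p =
        fm0 ((D.sw0.BS i).lab p * ω.1).l * (Φ r (h.io r a)).1 p := by
      intro r
      obtain ⟨ν, hν⟩ : ∃ ν, ν = ((D.sw0.BS i).lab p * ω.1).l := ⟨_, rfl⟩
      obtain ⟨G, hG⟩ : ∃ G : (D.sw0.BS (h.j r)).M,
        G = ∑ b, s a b • h.io r b - fm0 ν • h.io r a := ⟨_, rfl⟩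
      have hval : ∀ q, G.1 q = ∑ b, s a b * (h.io r b).1 q - fm0 ν * (h.io r a).1 q := by
        intro q
        rw [hG]
        simp [Finset.sum_apply]
      have h2 := U2a_sup_compl (h.ω r) ω (Φ r) (hΦ2 r) ν G (by
        intro q hq
        rw [hval, h.io_wt, hq, sub_self]) p hν.symm
      have h3 : (Φ r G).1 p = ∑ b, s a b * (Φ r (h.io r b)).1 p -
          fm0 ν * (Φ r (h.io r a)).1 p := by
        rw [hG, map_sub, map_sum, map_smul]
        simp [Finset.sum_apply]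
      rw [h3] at h2
      rw [← hν]
      exact sub_eq_zero.mp h2
    simp only [hcoe]
    rw [Finset.mul_sum]
    rw [← Finset.sum_congr rfl fun r _ => key r, Finset.sum_comm]
    refine Finset.sum_congr rfl fun b _ => ?_
    rw [Finset.mul_sum]

/-- The data of a strong lift: index types `I l`, matrices `s l`, sections `ψ l a` in `BS_0 (i)`. -/
structure SL {n : ℕ} (D : RD n) (L : Type) [Fintype L] (I : L → Type) [∀ l, Fintype (I l)]
    (s : (l : L) → Matrix (I l) (I l) (AA n)) (lam : Fin n → ℤ) (i : List D.SA) (ω : D.Om)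
    (ψ : (l : L) → I l → (D.sw0.BS i).M) : Prop where
  dom : D.Dom lam
  wd : D.Wd lam i ω
  inv : ∀ l (u : D.W) a b, u • s l a b = s l a b
  wt : ∀ l p a, ∑ b, s l a b * (ψ l b).1 p = fm0 ((D.sw0.BS i).lab p * ω.1).l * (ψ l a).1 p

section
variable {L : Type} [Fintype L] {I : L → Type} [∀ l, Fintype (I l)]
  {s : (l : L) → Matrix (I l) (I l) (AA n)} {lam : Fin n → ℤ} {i : List D.SA} {ω : D.Om}
  {ψ : (l : L) → I l → (D.sw0.BS i).M}

/-- the product section: `p ↦ a ∏_l ψ l (x l) p` -/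
noncomputable def Ups (ψ : (l : L) → I l → (D.sw0.BS i).M) (a : AA n) (x : (l : L) → I l) :
    (D.sw0.BS i).J → AA n := fun p => a * ∏ l, (ψ l (x l)).1 p

/-- `ring_BS`, `Finset` induction -/
theorem Ups_mem (a : AA n) (x : (l : L) → I l) : Ups ψ a x ∈ (D.sw0.BS i).M := by
  have hr := ring_BS D.sw0 i
  have h1 : ∀ s : Finset L, (∏ l ∈ s, (ψ l (x l)).1) ∈ (D.sw0.BS i).M := by
    classical
    intro s
    induction s using Finset.induction_on with
    | empty =>
      rw [Finset.prod_empty]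
      exact hr.one
    | insert b s hb ih =>
      rw [Finset.prod_insert hb]
      exact hr.mul _ (ψ b (x b)).2 _ ih
  have h2 : Ups ψ a x = a • ∏ l, (ψ l (x l)).1 := by
    funext p
    show a * ∏ l, (ψ l (x l)).1 p = a * (∏ l, (ψ l (x l)).1) p
    rw [Finset.prod_apply]
  rw [h2]
  exact Submodule.smul_mem _ _ (h1 _)

open Classical in
/-- The family `T_m = PI⁻¹ ∑_{(u,p) : u (wt p) = m} sgn u u (a ∏ ψ p / eu p)`. -/
noncomputable def Tm (ψ : (l : L) → I l → (D.sw0.BS i).M) (ω : D.Om) (a : AA n) (m : Fin n → ℤ)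
    (x : (l : L) → I l) : KK n :=
  (aK D.PI)⁻¹ * ∑ u : D.W, ∑ p, if u.1 ((D.sw0.BS i).lab p * ω.1).l = m then
    (((D.sgn u : ℤˣ) : ℤ) : KK n) * D.uK u (aK (Ups ψ a x p) / aK (D.sw0.eu i p)) else 0

/-- the finite set of all weights -/
noncomputable def TmF (i : List D.SA) (ω : D.Om) : Finset (Fin n → ℤ) := by
  classical
  exact Finset.univ.image fun q : D.W × (D.sw0.BS i).J => q.1.1 ((D.sw0.BS i).lab q.2 * ω.1).l

theorem Tm_supp (a : AA n) (m : Fin n → ℤ) (hm : m ∉ TmF i ω) (x : (l : L) → I l) :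
    Tm ψ ω a m x = 0 := by
  unfold Tm
  rw [Finset.sum_eq_zero, mul_zero]
  intro u _
  apply Finset.sum_eq_zero
  intro p _
  rw [if_neg]
  intro h
  apply hm
  unfold TmF
  rw [Finset.mem_image]
  exact ⟨(u, p), Finset.mem_univ _, h⟩

/-- `∑_m T_m = PI⁻¹ ∑_u sgn u u (Tr (a ∏ ψ))` (`MTX Tr_eq`), and `PI` divides this antisymmetrisation (`PI0_dvd` for
`μ = 0`, `PI0_zero`). -/
theorem Tm_reg (h : SL D L I s lam i ω ψ) (a : AA n) (x : (l : L) → I l) :
    ∃ t : AA n, ∑ m ∈ TmF i ω, Tm ψ ω a m x = aK t := by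
  classical
  have hinj : Function.Injective (algebraMap (AA n) (KK n)) := IsFractionRing.injective _ _
  set U : (D.sw0.BS i).M := ⟨Ups ψ a x, Ups_mem a x⟩ with hU
  have h1 : ∀ u : D.W, ∑ p, (((D.sgn u : ℤˣ) : ℤ) : KK n) *
      D.uK u (aK (Ups ψ a x p) / aK (D.sw0.eu i p)) =
      aK ((((D.sgn u : ℤˣ) : ℤ) : AA n) * (u • D.sw0.Tr i U)) := by
    intro u
    rw [← Finset.mul_sum, ← map_sum]
    have h2 := Pool.Agent.MTX.Tr_eq D.sw0 hinj i U
    have h3 : ∑ p, (aK (Ups ψ a x p) : KK n) / aK (D.sw0.eu i p) = aK (D.sw0.Tr i U) := h2.symm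
    rw [h3, D.uK_aK, map_mul, map_intCast]
  have h2 : ∑ m ∈ TmF i ω, Tm ψ ω a m x = (aK D.PI)⁻¹ * aK (∑ u : D.W,
      (((D.sgn u : ℤˣ) : ℤ) : AA n) * (u • D.sw0.Tr i U)) := by
    unfold Tm
    rw [← Finset.mul_sum, map_sum]
    congr 1
    rw [Finset.sum_comm]
    refine Finset.sum_congr rfl fun u _ => ?_
    rw [← h1 u, Finset.sum_comm]
    refine Finset.sum_congr rfl fun p _ => ?_
    rw [Finset.sum_ite_eq, if_pos]
    unfold TmF
    rw [Finset.mem_image]
    exact ⟨(u, p), Finset.mem_univ _, rfl⟩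
  obtain ⟨t, ht⟩ := D.PI0_dvd 0 (D.sw0.Tr i U)
  rw [D.PI0_zero] at ht
  refine ⟨t, ?_⟩
  have h3 : ∑ u : D.W, (((D.sgn u : ℤˣ) : ℤ) : AA n) * (u • D.sw0.Tr i U) = D.PI * t := by
    rw [← ht]
    refine Finset.sum_congr rfl fun u _ => ?_
    rw [if_pos (map_zero u.1)]
  rw [h2, h3, map_mul, ← mul_assoc, inv_mul_cancel₀ (aK_ne_zero D.PI_ne), one_mul]

/-- `w T_m = T_{w m}`: `w PI = sgn w PI`, `sgn_mul`, reindex `u ↦ w u`. -/
theorem Tm_smul (w : D.W) (a : AA n) (m : Fin n → ℤ) (x : (l : L) → I l) :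
    D.uK w (Tm ψ ω a m x) = Tm ψ ω a (w.1 m) x := by
  classical
  have hs : ∀ u : D.W, (((D.sgn u : ℤˣ) : ℤ) : KK n) * (((D.sgn u : ℤˣ) : ℤ) : KK n) = 1 := by
    intro u
    rw [← Int.cast_mul, Int.units_coe_mul_self, Int.cast_one]
  have h1 : D.uK w (aK D.PI)⁻¹ = (((D.sgn w : ℤˣ) : ℤ) : KK n) * (aK D.PI)⁻¹ := by
    rw [map_inv₀, D.uK_aK, D.smul_PI, map_mul, map_intCast, mul_inv]
    congr 1
    exact inv_eq_of_mul_eq_one_right (hs w)
  unfold Tm
  rw [map_mul, h1, mul_comm (((D.sgn w : ℤˣ) : ℤ) : KK n), mul_assoc, map_sum, Finset.mul_sum]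
  congr 1
  refine Fintype.sum_equiv (Equiv.mulLeft w) _ _ fun u => ?_
  rw [map_sum, Finset.mul_sum]
  refine Finset.sum_congr rfl fun p _ => ?_
  have h2 : ((Equiv.mulLeft w) u).1 ((D.sw0.BS i).lab p * ω.1).l =
      w.1 (u.1 ((D.sw0.BS i).lab p * ω.1).l) := rfl
  rw [h2]
  by_cases hm : u.1 ((D.sw0.BS i).lab p * ω.1).l = m
  · rw [if_pos hm, if_pos (by rw [hm])]
    show _ = (((D.sgn (w * u) : ℤˣ) : ℤ) : KK n) * D.uK (w * u) _
    rw [map_mul, map_intCast, D.sgn_mul, D.uK_mul, Units.val_mul, Int.cast_mul]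
    ring
  · rw [if_neg hm, if_neg (fun h => hm (w.1.injective h)), map_zero, mul_zero]

/-- Eigenvectors in every leg: `SL.wt`, moved by `u` (`SL.inv`, `smul_fm0`). -/
theorem Tm_eig [DecidableEq L] (h : SL D L I s lam i ω ψ) (a : AA n) (m : Fin n → ℤ)
    (x : (l : L) → I l) (l : L) :
    ∑ y : I l, aK (s l (x l) y) * Tm ψ ω a m (Function.update x l y) =
      aK (fm0 m) * Tm ψ ω a m x := by
  classical
  -- the product over the other legs
  have hU : ∀ (y : I l) (p : (D.sw0.BS i).J), Ups ψ a (Function.update x l y) p =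
      (ψ l y).1 p * (a * ∏ l' ∈ Finset.univ.erase l, (ψ l' (x l')).1 p) := by
    intro y p
    unfold Ups
    rw [← Finset.mul_prod_erase Finset.univ _ (Finset.mem_univ l), Function.update_self]
    have : ∏ l' ∈ Finset.univ.erase l, (ψ l' (Function.update x l y l')).1 p =
        ∏ l' ∈ Finset.univ.erase l, (ψ l' (x l')).1 p := by
      refine Finset.prod_congr rfl fun l' hl' => ?_
      rw [Function.update_of_ne (Finset.ne_of_mem_erase hl')]
    rw [this]; ring
  have hU0 : ∀ p : (D.sw0.BS i).J, Ups ψ a x p =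
      (ψ l (x l)).1 p * (a * ∏ l' ∈ Finset.univ.erase l, (ψ l' (x l')).1 p) := by
    intro p
    have := hU (x l) p
    rwa [Function.update_eq_self] at this
  -- the terms
  have key : ∀ (u : D.W) (p : (D.sw0.BS i).J),
      ∑ y : I l, aK (s l (x l) y) * (if u.1 ((D.sw0.BS i).lab p * ω.1).l = m then
        (((D.sgn u : ℤˣ) : ℤ) : KK n) * D.uK u (aK (Ups ψ a (Function.update x l y) p) /
          aK (D.sw0.eu i p)) else 0) =
      aK (fm0 m) * (if u.1 ((D.sw0.BS i).lab p * ω.1).l = m then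
        (((D.sgn u : ℤˣ) : ℤ) : KK n) * D.uK u (aK (Ups ψ a x p) / aK (D.sw0.eu i p)) else 0) := by
    intro u p
    by_cases hm : u.1 ((D.sw0.BS i).lab p * ω.1).l = m
    · simp only [if_pos hm]
      have e1 : ∀ y : I l, aK (s l (x l) y) * ((((D.sgn u : ℤˣ) : ℤ) : KK n) *
          D.uK u (aK (Ups ψ a (Function.update x l y) p) / aK (D.sw0.eu i p))) =
          (((D.sgn u : ℤˣ) : ℤ) : KK n) * D.uK u (aK (s l (x l) y * (ψ l y).1 p) *
            (aK (a * ∏ l' ∈ Finset.univ.erase l, (ψ l' (x l')).1 p) / aK (D.sw0.eu i p))) := by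
        intro y
        have e2 : (aK (s l (x l) y) : KK n) = D.uK u (aK (s l (x l) y)) := by
          rw [D.uK_aK, h.inv]
        rw [hU, e2, map_mul aK (s l (x l) y), map_mul aK ((ψ l y).1 p), mul_left_comm, ← map_mul]
        congr 2
        ring
      rw [Finset.sum_congr rfl fun y _ => e1 y, ← Finset.mul_sum, ← map_sum, ← Finset.sum_mul,
        ← map_sum, h.wt l p (x l), map_mul aK (fm0 _), mul_assoc, map_mul (D.uK u), D.uK_aK,
        smul_fm0, hm, mul_left_comm, hU0, map_mul aK ((ψ l (x l)).1 p), mul_div_assoc]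
    · simp only [if_neg hm, mul_zero, Finset.sum_const_zero]
  have e3 : ∀ y : I l, aK (s l (x l) y) * Tm ψ ω a m (Function.update x l y) =
      (aK D.PI)⁻¹ * ∑ u : D.W, ∑ p, aK (s l (x l) y) *
        (if u.1 ((D.sw0.BS i).lab p * ω.1).l = m then
        (((D.sgn u : ℤˣ) : ℤ) : KK n) * D.uK u (aK (Ups ψ a (Function.update x l y) p) /
          aK (D.sw0.eu i p)) else 0) := by
    intro y
    unfold Tm
    rw [mul_left_comm, Finset.mul_sum]
    simp only [Finset.mul_sum]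
  rw [Finset.sum_congr rfl fun y _ => e3 y, ← Finset.mul_sum, Finset.sum_comm]
  rw [Finset.sum_congr rfl fun u _ => Finset.sum_comm]
  rw [Finset.sum_congr rfl fun u _ => Finset.sum_congr rfl fun p _ => key u p]
  unfold Tm
  rw [mul_left_comm, Finset.mul_sum]
  simp only [Finset.mul_sum]

/-- Support: `(lab p * ω).l = lam` for `p = top`, and otherwise of smaller norm (`Wd.lab0`); `B_W`. -/
theorem Tm_norm (h : SL D L I s lam i ω ψ) (a : AA n) (m : Fin n → ℤ) (x : (l : L) → I l)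
    (hm : Tm ψ ω a m x ≠ 0) : (∃ w : D.W, m = w.1 lam) ∨ D.B m m < D.B lam lam := by
  classical
  have h1 : ∃ (u : D.W) (p : (D.sw0.BS i).J), u.1 ((D.sw0.BS i).lab p * ω.1).l = m := by
    by_contra hno
    push Not at hno
    apply hm
    unfold Tm
    rw [Finset.sum_eq_zero fun u _ => Finset.sum_eq_zero fun p _ => if_neg (hno u p), mul_zero]
  obtain ⟨u, p, hup⟩ := h1
  by_cases hp : p = D.sw0.top i
  · left
    refine ⟨u, ?_⟩
    rw [← hup, hp, sw0_lab_top, h.wd.l]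
  · right
    rw [← hup, D.B_W]
    exact (h.wd.lab0 h.dom p hp).2

/-- The leading term.  Only `p = top` and `u` in the stabiliser contribute (`Wd.lab_ne`).  `eu top = ε e`,
`e = ∏_{γ>0} γ^{cp γ lam - 1}` (`Wd.eu_eq`), `PI e = PI0_lam Eu_lam` (`Eu_dom`, factorwise), so for `u lam = lam`
`u e = e` (`Eu_smul`, `smul_PI0`, `smul_PI`), and
`PI0_lam Eu_lam T_lam = ε⁻¹ ∑_{u lam = lam} sgn u u (a ∏ ψ top)`. -/
theorem Tm_lead (h : SL D L I s lam i ω ψ) : ∃ ε : ℂ, (ε = 1 ∨ ε = -1) ∧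
    ∀ (a : AA n) (x : (l : L) → I l), aK (D.PI0 lam * D.Eu lam) * Tm ψ ω a lam x =
      aK (MvPolynomial.C ε) * ∑ u : D.W, if u.1 lam = lam then
        aK ((((D.sgn u : ℤˣ) : ℤ) : AA n) * (u • (a * ∏ l, (ψ l (x l)).1 (D.sw0.top i)))) else 0 := by
  classical
  obtain ⟨ε, hε, heu⟩ := h.wd.eu_eq h.dom
  refine ⟨ε, hε, fun a x => ?_⟩
  obtain ⟨e, he⟩ : ∃ e : AA n, e = ∏ γ : D.PRt, fm0 γ.1.1 ^ (D.cp γ.1 lam - 1).toNat := ⟨_, rfl⟩
  rw [← he] at heu
  have hC : (MvPolynomial.C ε : AA n) * MvPolynomial.C ε = 1 := by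
    rw [← map_mul]
    rcases hε with h1 | h1 <;> rw [h1] <;> simp
  have hCne : (MvPolynomial.C ε : AA n) ≠ 0 := left_ne_zero_of_mul_eq_one hC
  have hene : e ≠ 0 := by
    rw [he]
    exact Finset.prod_ne_zero_iff.2 fun γ _ => pow_ne_zero _ (fm0_ne_zero (D.Rt_ne γ.1))
  -- the product
  have hPe : D.PI * e = D.PI0 lam * D.Eu lam := by
    rw [he, D.Eu_dom h.dom]
    unfold RD.PI RD.PI0
    rw [← Finset.prod_mul_distrib, ← Finset.prod_mul_distrib]
    refine Finset.prod_congr rfl fun γ _ => ?_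
    have h0 : 0 ≤ D.cp γ.1 lam := h.dom γ.1 γ.2
    by_cases hγ : D.cp γ.1 lam = 0
    · rw [if_pos hγ, hγ]
      simp
    · rw [if_neg hγ, one_mul, ← pow_succ']
      congr 1
      omega
  have hsg : ∀ u : D.W, ((((D.sgn u : ℤˣ) : ℤ) : AA n)) * ((((D.sgn u : ℤˣ) : ℤ) : AA n)) = 1 := by
    intro u
    rw [← Int.cast_mul, ← Units.val_mul, ← sq, Int.units_sq, Units.val_one, Int.cast_one]
  have hue : ∀ u : D.W, u.1 lam = lam → u • e = e := by
    intro u hu
    have h1 := congrArg (fun p : AA n => u • p) hPe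
    simp only [smul_mul'] at h1
    rw [D.smul_PI, D.smul_PI0 lam u hu, D.Eu_smul, hu, mul_assoc, mul_assoc, ← hPe] at h1
    have hs0 : ((((D.sgn u : ℤˣ) : ℤ) : AA n)) ≠ 0 := left_ne_zero_of_mul_eq_one (hsg u)
    exact mul_left_cancel₀ D.PI_ne (mul_left_cancel₀ hs0 h1)
  have htop : ((D.sw0.BS i).lab (D.sw0.top i) * ω.1).l = lam := by
    rw [D.sw0_lab_top, h.wd.l]
  have hsum : ∀ u : D.W, (∑ p, if u.1 ((D.sw0.BS i).lab p * ω.1).l = lam then
      (((D.sgn u : ℤˣ) : ℤ) : KK n) * D.uK u (aK (Ups ψ a x p) / aK (D.sw0.eu i p)) else 0) =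
      if u.1 lam = lam then aK (MvPolynomial.C ε) * (aK ((((D.sgn u : ℤˣ) : ℤ) : AA n) *
        (u • (a * ∏ l, (ψ l (x l)).1 (D.sw0.top i)))) / aK e) else 0 := by
    intro u
    rw [Finset.sum_eq_single (D.sw0.top i)]
    · rw [htop]
      by_cases hu : u.1 lam = lam
      · rw [if_pos hu, if_pos hu, heu, map_mul, map_div₀, map_mul, uK_aK, uK_aK, uK_aK, hue u hu,
          D.smul_C, map_mul, map_intCast]
        have hK : (aK (MvPolynomial.C ε : AA n) : KK n) * aK (MvPolynomial.C ε) = 1 := by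
          rw [← map_mul, hC, map_one]
        have hK0 : (aK (MvPolynomial.C ε : AA n) : KK n) ≠ 0 := aK_ne_zero hCne
        have he0 : (aK e : KK n) ≠ 0 := aK_ne_zero hene
        have hinv : ∀ z : KK n, z / (aK (MvPolynomial.C ε) * aK e) =
            aK (MvPolynomial.C ε) * (z / aK e) := by
          intro z
          rw [div_eq_iff (mul_ne_zero hK0 he0)]
          have h3 : z / aK e * aK e = z := div_mul_cancel₀ z he0
          calc z = (aK (MvPolynomial.C ε) * aK (MvPolynomial.C ε)) * (z / aK e * aK e) := by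
                rw [hK, h3, one_mul]
            _ = _ := by ring
        rw [hinv]
        show _ * (aK (MvPolynomial.C ε) * (aK (u • (a * ∏ l, (ψ l (x l)).1 (D.sw0.top i))) /
          aK e)) = _
        ring
      · rw [if_neg hu, if_neg hu]
    · intro p _ hp
      exact if_neg (h.wd.lab_ne h.dom p hp u)
    · intro hn
      exact absurd (Finset.mem_univ _) hn
  have hPI0 : (aK D.PI : KK n) ≠ 0 := aK_ne_zero D.PI_ne
  have he0 : (aK e : KK n) ≠ 0 := aK_ne_zero hene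
  have hT : Tm ψ ω a lam x = (aK D.PI)⁻¹ * ∑ u : D.W, if u.1 lam = lam then
      aK (MvPolynomial.C ε) * (aK ((((D.sgn u : ℤˣ) : ℤ) : AA n) *
        (u • (a * ∏ l, (ψ l (x l)).1 (D.sw0.top i)))) / aK e) else 0 := by
    unfold Tm
    congr 1
    exact Finset.sum_congr rfl fun u _ => hsum u
  rw [hT, ← hPe, map_mul, mul_assoc, mul_left_comm (aK e), ← mul_assoc, mul_inv_cancel₀ hPI0, one_mul,
    Finset.mul_sum, Finset.mul_sum]
  refine Finset.sum_congr rfl fun u _ => ?_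
  by_cases hu : u.1 lam = lam
  · rw [if_pos hu, if_pos hu]
    field_simp
  · rw [if_neg hu, if_neg hu, mul_zero, mul_zero]

end

/-- The strong lift theorem for matrices, `lam` dominant.  `exists_Wd`, `exists_psi` for every leg; `T_m := Tm ψ ω (C ε⁻¹ a) m`. -/
theorem sl_dom {L : Type} [Fintype L] [DecidableEq L] {I : L → Type} [∀ l, Fintype (I l)]
    [∀ l, DecidableEq (I l)] (s : (l : L) → Matrix (I l) (I l) (AA n))
    (hs : ∀ l (u : D.W) a b, u • s l a b = s l a b) (hR : ∀ l, Nonempty (RF D (s l)))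
    {lam : Fin n → ℤ} (hl : D.Dom lam) (ev : (l : L) → I l → AA n)
    (hev : ∀ l, Eig (s l) lam (ev l)) (a : AA n) :
    ∃ (Fs : Finset (Fin n → ℤ)) (T : (Fin n → ℤ) → ((l : L) → I l) → KK n),
      (∀ m ∉ Fs, ∀ x, T m x = 0) ∧
      (∀ x, ∃ t : AA n, ∑ m ∈ Fs, T m x = aK t) ∧
      (∀ (w : D.W) m x, D.uK w (T m x) = T (w.1 m) x) ∧
      (∀ m x l, ∑ y : I l, aK (s l (x l) y) * T m (Function.update x l y) = aK (fm0 m) * T m x) ∧
      (∀ m x, T m x ≠ 0 → (∃ w : D.W, m = w.1 lam) ∨ D.B m m < D.B lam lam) ∧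
      ∀ x, aK (D.PI0 lam * D.Eu lam) * T lam x = ∑ u : D.W, if u.1 lam = lam then
        aK ((((D.sgn u : ℤˣ) : ℤ) : AA n) * (u • (a * ∏ l, ev l (x l)))) else 0 := by
  obtain ⟨i, ω, wd⟩ := D.exists_Wd lam
  have hψ := fun l => (hR l).some.exists_psi wd.red wd.l (hev l)
  choose ψ h1 h2 using hψ
  have sl : SL D L I s lam i ω ψ := ⟨hl, wd, hs, h2⟩
  obtain ⟨ε, hε, hlead⟩ := Tm_lead sl
  refine ⟨TmF i ω, fun m x => Tm ψ ω (MvPolynomial.C ε * a) m x, fun m hm x => Tm_supp _ m hm x,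
    fun x => Tm_reg sl _ x, fun w m x => Tm_smul w _ m x, fun m x l => Tm_eig sl _ m x l,
    fun m x hx => Tm_norm sl _ m x hx, fun x => ?_⟩
  rw [hlead, Finset.mul_sum]
  have hεε : (MvPolynomial.C ε : AA n) * MvPolynomial.C ε = 1 := by
    rw [← MvPolynomial.C_mul]
    rcases hε with h | h
    · rw [h, mul_one, MvPolynomial.C_1]
    · rw [h, neg_mul_neg, mul_one, MvPolynomial.C_1]
  refine Finset.sum_congr rfl fun u _ => ?_
  by_cases hu : u.1 lam = lam
  · rw [if_pos hu, if_pos hu, ← map_mul]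
    congr 1
    have h3 : ∏ l, (ψ l (x l)).1 (D.sw0.top i) = ∏ l, ev l (x l) :=
      Finset.prod_congr rfl fun l _ => h1 l (x l)
    rw [h3, mul_assoc (MvPolynomial.C ε) a, smul_mul' u (MvPolynomial.C ε : AA n), RD.smul_C]
    linear_combination ((((D.sgn u : ℤˣ) : ℤ) : AA n) * (u • (a * ∏ l, ev l (x l)))) * hεε
  · rw [if_neg hu, if_neg hu, mul_zero]

open Classical in
/-- the positive one of `± w γ` -/
noncomputable def u2f_sig (w : D.W) (γ : D.PRt) : D.PRt :=
  if h : D.Pos (w • γ.1) then ⟨w • γ.1, h⟩ else ⟨D.ng (w • γ.1), (D.pos_ng _).2 h⟩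

theorem u2f_sig_cases (w : D.W) (γ : D.PRt) :
    (u2f_sig w γ).1 = w • γ.1 ∨ (u2f_sig w γ).1 = D.ng (w • γ.1) := by
  unfold u2f_sig
  split_ifs
  · exact Or.inl rfl
  · exact Or.inr rfl

theorem u2f_sig_inj (w : D.W) : Function.Injective (u2f_sig (D := D) w) := by
  intro γ δ h
  have hv : (u2f_sig w γ).1.1 = (u2f_sig w δ).1.1 := by rw [h]
  have key : (w • γ.1).1 = (w • δ.1).1 ∨ (w • γ.1).1 = -(w • δ.1).1 := by
    rcases u2f_sig_cases w γ with h1 | h1 <;> rcases u2f_sig_cases w δ with h2 | h2 <;>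
      rw [h1, h2] at hv
    · exact Or.inl hv
    · exact Or.inr hv
    · right
      rw [ng_val] at hv
      rw [← hv, neg_neg]
    · left
      rw [ng_val, ng_val] at hv
      exact neg_injective hv
  rcases key with h1 | h1
  · exact Subtype.ext (Subtype.ext (w.1.injective h1))
  · exfalso
    have h2 : γ.1 = D.ng δ.1 := by
      apply Subtype.ext
      apply w.1.injective
      rw [ng_val, map_neg]
      exact h1
    have h3 := γ.2
    rw [h2] at h3
    exact (D.pos_ng δ.1).1 h3 δ.2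

theorem u2f_prod {J : Type} (S : Finset J) (f g : J → AA n) (h : ∀ j ∈ S, f j = g j ∨ f j = -g j) :
    ∏ j ∈ S, f j = ∏ j ∈ S, g j ∨ ∏ j ∈ S, f j = -∏ j ∈ S, g j := by
  classical
  induction S using Finset.induction_on with
  | empty => left; rw [Finset.prod_empty, Finset.prod_empty]
  | insert a S ha ih =>
    rw [Finset.prod_insert ha, Finset.prod_insert ha]
    have h1 := ih fun j hj => h j (Finset.mem_insert_of_mem hj)
    rcases h a (Finset.mem_insert_self a S) with h2 | h2 <;> rcases h1 with h1 | h1 <;> rw [h1, h2]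
    · exact Or.inl rfl
    · right; ring
    · right; ring
    · left; ring

/-- `w PI0_lam = ± PI0_{w lam}`: reindex the positive roots orthogonal to `lam`, up to signs. -/
theorem smul_PI0' (lam : Fin n → ℤ) (w : D.W) : w • D.PI0 lam = D.PI0 (w.1 lam) ∨
    w • D.PI0 lam = - D.PI0 (w.1 lam) := by
  classical
  have hbij : Function.Bijective (u2f_sig (D := D) w) :=
    Finite.injective_iff_bijective.1 (u2f_sig_inj w)
  have h1 : D.PI0 (w.1 lam) = ∏ γ : D.PRt,
      if D.cp (u2f_sig w γ).1 (w.1 lam) = 0 then (fm0 (u2f_sig w γ).1.1 : AA n) else 1 := by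
    unfold RD.PI0
    exact (Function.Bijective.prod_comp hbij fun δ : D.PRt =>
      if D.cp δ.1 (w.1 lam) = 0 then (fm0 δ.1.1 : AA n) else 1).symm
  have h2 : w • D.PI0 lam = ∏ γ : D.PRt, w • (if D.cp γ.1 lam = 0 then (fm0 γ.1.1 : AA n) else 1) := by
    unfold RD.PI0
    exact Finset.smul_prod'
  rw [h1, h2]
  refine u2f_prod _ _ _ fun γ _ => ?_
  have hcp : D.cp (w • γ.1) (w.1 lam) = D.cp γ.1 lam := D.cp_smul_W w γ.1 lam
  by_cases h0 : D.cp γ.1 lam = 0
  · rw [if_pos h0, smul_fm0]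
    rcases u2f_sig_cases w γ with h3 | h3
    · rw [h3, hcp, if_pos h0]
      exact Or.inl rfl
    · rw [h3, cp_ng, hcp, h0, neg_zero, if_pos rfl, ng_val, fm0_neg, neg_neg]
      exact Or.inr rfl
  · rw [if_neg h0, smul_one]
    left
    rcases u2f_sig_cases w γ with h3 | h3
    · rw [h3, hcp, if_neg h0]
    · rw [h3, cp_ng, hcp, if_neg (neg_ne_zero.2 h0)]

theorem u2f_sgn (u v : D.W) : D.sgn (v⁻¹ * u * v) = D.sgn u := by
  rw [sgn_mul, sgn_mul, mul_comm (D.sgn v⁻¹), mul_assoc, ← sgn_mul, inv_mul_cancel, sgn_one, mul_one]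

/-- conjugation by `v` -/
def u2f_cj (v : D.W) : D.W ≃ D.W where
  toFun u := v⁻¹ * u * v
  invFun u := v * u * v⁻¹
  left_inv u := by group
  right_inv u := by group

theorem u2f_cast (w : D.W) (z : ℤ) : w • ((z : ℤ) : AA n) = (z : AA n) := map_intCast (D.actO w) z

/-- The strong lift theorem for all `lam`: `lam = w lam0`, `lam0` dominant (`exists_dom`); apply `sl_dom` to `lam0`,
`w⁻¹ ev`, `± w⁻¹ a` and use the same family `T`: `T lam = w T lam0`; conjugate the stabilisers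
(`smul_PI0'`, `Eu_smul`, `sgn (w u w⁻¹) = sgn u`). -/
theorem sl_mat {L : Type} [Fintype L] [DecidableEq L] {I : L → Type} [∀ l, Fintype (I l)]
    [∀ l, DecidableEq (I l)] (s : (l : L) → Matrix (I l) (I l) (AA n))
    (hs : ∀ l (u : D.W) a b, u • s l a b = s l a b) (hR : ∀ l, Nonempty (RF D (s l)))
    (lam : Fin n → ℤ) (ev : (l : L) → I l → AA n)
    (hev : ∀ l, Eig (s l) lam (ev l)) (a : AA n) :
    ∃ (Fs : Finset (Fin n → ℤ)) (T : (Fin n → ℤ) → ((l : L) → I l) → KK n),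
      (∀ m ∉ Fs, ∀ x, T m x = 0) ∧
      (∀ x, ∃ t : AA n, ∑ m ∈ Fs, T m x = aK t) ∧
      (∀ (w : D.W) m x, D.uK w (T m x) = T (w.1 m) x) ∧
      (∀ m x l, ∑ y : I l, aK (s l (x l) y) * T m (Function.update x l y) = aK (fm0 m) * T m x) ∧
      (∀ m x, T m x ≠ 0 → (∃ w : D.W, m = w.1 lam) ∨ D.B m m < D.B lam lam) ∧
      ∀ x, aK (D.PI0 lam * D.Eu lam) * T lam x = ∑ u : D.W, if u.1 lam = lam then
        aK ((((D.sgn u : ℤˣ) : ℤ) : AA n) * (u • (a * ∏ l, ev l (x l)))) else 0 := by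
  classical
  obtain ⟨v, hv⟩ := D.exists_dom lam
  have hvl : (v⁻¹).1 (v.1 lam) = lam := by
    show (v⁻¹ * v).1 lam = lam
    rw [inv_mul_cancel]
    rfl
  obtain ⟨η, hη, hPI⟩ : ∃ η : AA n, (η = 1 ∨ η = -1) ∧
      v⁻¹ • D.PI0 (v.1 lam) = η * D.PI0 lam := by
    rcases smul_PI0' (D := D) (v.1 lam) v⁻¹ with h | h
    · exact ⟨1, Or.inl rfl, by rw [h, hvl, one_mul]⟩
    · exact ⟨-1, Or.inr rfl, by rw [h, hvl, neg_one_mul]⟩
  have hη2 : η * η = 1 := by
    rcases hη with rfl | rfl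
    · exact one_mul 1
    · ring
  have hsη : ∀ (u : D.W) (z : AA n), u • (η * z) = η * u • z := by
    intro u z
    rcases hη with rfl | rfl
    · rw [one_mul, one_mul]
    · rw [neg_one_mul, neg_one_mul, smul_neg]
  have hev0 : ∀ l, Eig (s l) (v.1 lam) (fun b => v • ev l b) := by
    intro l
    have h1 := hev l
    unfold Eig at h1 ⊢
    funext b
    have h2 := congrFun h1 b
    rw [Pi.smul_apply, smul_eq_mul] at h2 ⊢
    have h3 : (s l).mulVec (fun b => v • ev l b) b = v • (s l).mulVec (ev l) b := by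
      show ∑ c, s l b c * (v • ev l c) = v • ∑ c, s l b c * ev l c
      rw [Finset.smul_sum]
      refine Finset.sum_congr rfl fun c _ => ?_
      rw [smul_mul', hs l v b c]
    rw [h3, h2, smul_mul', smul_fm0]
  obtain ⟨Fs, T, h1, h2, h3, h4, h5, h6⟩ := sl_dom s hs hR hv (fun l b => v • ev l b) hev0
    (η * v • a)
  refine ⟨Fs, T, h1, h2, h3, h4, ?_, ?_⟩
  · intro m x hm
    rcases h5 m x hm with ⟨w, hw⟩ | h
    · exact Or.inl ⟨w * v, hw⟩
    · right
      rwa [D.B_W] at h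
  · intro x
    have key := congrArg (D.uK v⁻¹) (h6 x)
    rw [map_mul, uK_aK, smul_mul', hPI, Eu_smul, hvl, h3, hvl, map_sum] at key
    have hsum : ∀ u : D.W, D.uK v⁻¹ (if u.1 (v.1 lam) = v.1 lam then
        aK ((((D.sgn u : ℤˣ) : ℤ) : AA n) * (u • (η * v • a * ∏ l, v • ev l (x l)))) else 0) =
        aK η * (fun u' : D.W => if u'.1 lam = lam then
          aK ((((D.sgn u' : ℤˣ) : ℤ) : AA n) * (u' • (a * ∏ l, ev l (x l)))) else 0) (u2f_cj v u) := by
      intro u
      have hiff : (u2f_cj v u).1 lam = lam ↔ u.1 (v.1 lam) = v.1 lam := by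
        have h7 : (u2f_cj v u).1 lam = (v⁻¹).1 (u.1 (v.1 lam)) := rfl
        rw [h7]
        constructor
        · intro h8
          apply (v⁻¹).1.injective
          rw [h8, hvl]
        · intro h8
          rw [h8, hvl]
      by_cases hu : u.1 (v.1 lam) = v.1 lam
      · rw [if_pos hu]
        have hu' := hiff.2 hu
        simp only [if_pos hu']
        rw [uK_aK, ← map_mul]
        congr 1
        have hsg : D.sgn (u2f_cj v u) = D.sgn u := u2f_sgn u v
        have hp : v • a * ∏ l, v • ev l (x l) = v • (a * ∏ l, ev l (x l)) := by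
          rw [smul_mul', Finset.smul_prod']
        rw [smul_mul', u2f_cast, hsg, mul_assoc η, hp, hsη, hsη, ← mul_smul, ← mul_smul]
        have hc : v⁻¹ * u * v = u2f_cj v u := rfl
        rw [hc]
        ring
      · rw [if_neg hu, map_zero]
        have hu' : ¬ (u2f_cj v u).1 lam = lam := fun h7 => hu (hiff.1 h7)
        simp only [if_neg hu', mul_zero]
    rw [Finset.sum_congr rfl fun u _ => hsum u, ← Finset.mul_sum,
      Equiv.sum_comp (u2f_cj v) (fun u' : D.W => if u'.1 lam = lam then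
          aK ((((D.sgn u' : ℤˣ) : ℤ) : AA n) * (u' • (a * ∏ l, ev l (x l)))) else 0)] at key
    have hηK : aK η * aK η = (1 : KK n) := by rw [← map_mul, hη2, map_one]
    have hK : aK (η * D.PI0 lam * D.Eu lam) = aK η * aK (D.PI0 lam * D.Eu lam) := by
      rw [mul_assoc, map_mul]
    rw [hK] at key
    have hfin : ∀ A B C : KK n, aK η * A * B = aK η * C → A * B = C := by
      intro A B C h
      calc A * B = (aK η * aK η) * (A * B) := by rw [hηK, one_mul]
        _ = aK η * (aK η * A * B) := by ring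
        _ = aK η * (aK η * C) := by rw [h]
        _ = (aK η * aK η) * C := by ring
        _ = C := by rw [hηK, one_mul]
    exact hfin _ _ _ key

end Pool.Agent.MTG
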