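import Pool.Agent.MTG.GS
import Pool.Agent.MTG.GF

/-! # MTG, Part T : frames of the weight sections -/

namespace Pool.Agent.MTG

open MvPolynomial
open Pool.Agent.MTX (AS SW RedData Lat RyLat RingLat mulM ring_BS ry_BS big_BS eu_ne)
open Pool.Agent.MTX.SLD (RR AA fm fm0 fm0_add fm0_smul fm0_zero fm0_neg fm0_sub fm0_ne_zero fm0_prime)
open RD

variable {n : ℕ} {D : RD n}

open Classical in
theorem U3a_x (j : List D.SA) (ω : D.Om) (l : Fin n → ℤ) {d : AA n}
    (hd : ∀ m : (D.sw0.BS j).J → AA n, d • m ∈ (D.sw0.BS j).M) :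
    ∃ x : (D.sw0.BS j).J → subX (D.sw0.BS j) (D.wtSet ω l),
      ∀ q, ((D.sw0.BS j).lab q * ω.1).l = l → ∀ p, (x q).1 p = if p = q then d else 0 := by
  have hmem : ∀ q : (D.sw0.BS j).J, (fun p => if p = q then d else 0) ∈ (D.sw0.BS j).M := by
    intro q
    have h := hd (fun p => if p = q then 1 else 0)
    have e : (d • (fun p => if p = q then (1 : AA n) else 0) : (D.sw0.BS j).J → AA n) =
        fun p => if p = q then d else 0 := by
      funext p
      show d * (if p = q then (1 : AA n) else 0) = _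
      rw [mul_ite, mul_one, mul_zero]
    rwa [e] at h
  have hx : ∀ q : (D.sw0.BS j).J, ∃ x : subX (D.sw0.BS j) (D.wtSet ω l),
      (((D.sw0.BS j).lab q * ω.1).l = l → ∀ p, x.1 p = if p = q then d else 0) := by
    intro q
    by_cases hq : ((D.sw0.BS j).lab q * ω.1).l = l
    · have hs : (D.sw0.BS j).sup (fun p => if p = q then d else 0) (D.wtSet ω l) := by
        intro p hp
        have hpq : p ≠ q := by
          intro h
          rw [h] at hp
          exact hp hq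
        show (if p = q then d else 0) = 0
        rw [if_neg hpq]
      exact ⟨⟨fun p => if p = q then d else 0, hmem q, hs⟩, fun _ p => rfl⟩
    · exact ⟨0, fun h => absurd h hq⟩
  choose x hx using hx
  exact ⟨x, hx⟩

theorem U3a_sum (j : List D.SA) (ω : D.Om) (l : Fin n → ℤ) {d : AA n}
    {x : (D.sw0.BS j).J → subX (D.sw0.BS j) (D.wtSet ω l)}
    (hx : ∀ q, ((D.sw0.BS j).lab q * ω.1).l = l → ∀ p, (x q).1 p =
      @ite _ (p = q) (Classical.propDecidable _) d 0)
    (m : subX (D.sw0.BS j) (D.wtSet ω l)) : d • m = ∑ q, m.1 q • x q := by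
  classical
  apply Subtype.ext
  funext p
  rw [Submodule.coe_sum, Finset.sum_apply, Finset.sum_eq_single p]
  · show d * m.1 p = m.1 p * (x p).1 p
    by_cases hp : ((D.sw0.BS j).lab p * ω.1).l = l
    · rw [hx p hp, if_pos rfl, mul_comm]
    · have h0 : m.1 p = 0 := m.2.2 p hp
      rw [h0, mul_zero, zero_mul]
  · intro q _ hqp
    show m.1 q * (x q).1 p = 0
    by_cases hq : ((D.sw0.BS j).lab q * ω.1).l = l
    · rw [hx q hq, if_neg hqp.symm, mul_zero]
    · have h0 : m.1 q = 0 := m.2.2 q hq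
      rw [h0, zero_mul]
  · intro h
    exact absurd (Finset.mem_univ p) h

/-- the functional with given coefficients -/
noncomputable def U3a_g {J : Type} [Fintype J] (g : J → KK n) : (J → KK n) →ₗ[KK n] KK n where
  toFun h := ∑ q, h q * g q
  map_add' h h' := by
    simp only [Pi.add_apply, add_mul, Finset.sum_add_distrib]
  map_smul' k h := by
    simp only [Pi.smul_apply, smul_eq_mul, RingHom.id_apply, Finset.mul_sum, mul_assoc]

theorem U3a_g_apply {J : Type} [Fintype J] (g : J → KK n) (h : J → KK n) :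
    U3a_g g h = ∑ q, h q * g q := rfl

theorem U3a_coe {L : Lat (AA n) D.Aff} {X : Set D.Aff} {N : ℕ} (c : Fin N → AA n)
    (e : Fin N → subX L X) (q : L.J) : (∑ i, c i • e i : subX L X).1 q = ∑ i, c i * (e i).1 q := by
  rw [Submodule.coe_sum, Finset.sum_apply]
  rfl

/-- Dual basis of the elements of `BS_0 (j)` supported on the indices of weight `l`, with the coordinates extended to
`K`-linear functionals.  `dual_red` for `rdat`, `P = Pw ⟨l, 1⟩`, `X = wtSet ω l` (`closed_wt`, `sys_Pw`) gives `e i`,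
`c i`.  With `d ≠ 0` such that `d • m ∈ M` for all functions `m` (`big_BS`), let `x_q ∈ subX` be `d` times the
characteristic function of `q` (for `q` of weight `l`), and
`γ i h = ∑_{q of weight l} h q * aK (c i x_q) / aK d`. -/
theorem exists_frame (j : List D.SA) (ω : D.Om) (l : Fin n → ℤ) :
    ∃ (N : ℕ) (e : Fin N → (D.sw0.BS j).M) (γ : Fin N → ((D.sw0.BS j).J → KK n) →ₗ[KK n] KK n),
      (∀ i q, ((D.sw0.BS j).lab q * ω.1).l ≠ l → (e i).1 q = 0) ∧
      ∀ m : (D.sw0.BS j).M, (∀ q, ((D.sw0.BS j).lab q * ω.1).l ≠ l → m.1 q = 0) →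
        (∀ i, ∃ t : AA n, γ i (fun q => aK (m.1 q)) = aK t) ∧
        ∀ q, aK (m.1 q) = ∑ i, γ i (fun q => aK (m.1 q)) * aK ((e i).1 q) := by
  obtain ⟨N, e, c, hec⟩ := dual_red D.rdat (D.aff.sys_Pw ⟨l, 1⟩) (D.closed_wt ω l) j
  obtain ⟨d, hd0, hd⟩ := big_BS D.sw0 j
  obtain ⟨x, hx⟩ := U3a_x j ω l hd
  have hdK : (aK d : KK n) ≠ 0 := aK_ne_zero hd0
  have hγ : ∀ (m : subX (D.sw0.BS j) (D.wtSet ω l)) i,
      U3a_g (fun q => (aK (c i (x q)) / aK d : KK n)) (fun q => aK (m.1 q)) = aK (c i m) := by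
    intro m i
    have h1 := congrArg (c i) (U3a_sum j ω l hx m)
    rw [map_smul, map_sum] at h1
    have h2 : d * c i m = ∑ q, m.1 q * c i (x q) := by
      refine h1.trans (Finset.sum_congr rfl fun q _ => ?_)
      rw [map_smul]
      rfl
    have h3 : (aK d : KK n) * aK (c i m) = ∑ q, aK (m.1 q) * aK (c i (x q)) := by
      rw [← map_mul, h2, map_sum]
      exact Finset.sum_congr rfl fun q _ => map_mul _ _ _
    rw [U3a_g_apply]
    have h4 : ∑ q, aK (m.1 q) * (aK (c i (x q)) / aK d : KK n) =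
        (∑ q, aK (m.1 q) * aK (c i (x q))) / aK d := by
      rw [Finset.sum_div]
      exact Finset.sum_congr rfl fun q _ => by rw [mul_div_assoc]
    rw [h4, ← h3, mul_div_cancel_left₀ _ hdK]
  refine ⟨N, fun i => ⟨(e i).1, (e i).2.1⟩, fun i => U3a_g (fun q => aK (c i (x q)) / aK d),
    fun i q hq => (e i).2.2 q hq, fun m hm => ?_⟩
  have hmX : (D.sw0.BS j).sup m.1 (D.wtSet ω l) := fun p hp => hm p hp
  refine ⟨fun i => ⟨c i ⟨m.1, m.2, hmX⟩, hγ ⟨m.1, m.2, hmX⟩ i⟩, fun q => ?_⟩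
  have h5 : m.1 q = ∑ i, c i ⟨m.1, m.2, hmX⟩ * (e i).1 q := by
    rw [← U3a_coe]
    exact congrArg (fun z : subX (D.sw0.BS j) (D.wtSet ω l) => z.1 q) (hec ⟨m.1, m.2, hmX⟩)
  rw [h5, map_sum]
  refine Finset.sum_congr rfl fun i _ => ?_
  rw [map_mul]
  congr 1
  exact (hγ ⟨m.1, m.2, hmX⟩ i).symm

theorem U3b_coe {J : Type} [Fintype J] {L : Lat (AA n) D.Aff} (c : J → AA n) (m : J → L.M)
    (q : L.J) : (∑ a, c a • m a : L.M).1 q = ∑ a, c a * (m a).1 q := by
  rw [Submodule.coe_sum, Finset.sum_apply]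
  rfl

theorem U3b_lin {J : Type} [Fintype J] {L : Lat (AA n) D.Aff} (hr : RingLat L) (g : L.M)
    (c : J → AA n) (m : J → L.M) :
    mulM hr g (∑ a, c a • m a) = ∑ a, c a • mulM hr g (m a) := by
  apply Subtype.ext
  funext q
  show g.1 q * (∑ a, c a • m a : L.M).1 q = _
  rw [U3b_coe, U3b_coe, Finset.mul_sum]
  refine Finset.sum_congr rfl fun a _ => ?_
  show g.1 q * (c a * (m a).1 q) = c a * (g.1 q * (m a).1 q)
  ring

theorem U3b_eig {I : Type} [Fintype I] {s : Matrix I I (AA n)} {l : Fin n → ℤ}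
    {j : List D.SA} {ω : D.Om} {io : I → (D.sw0.BS j).M}
    (hio : ∀ q a, ∑ b, s a b * (io b).1 q = fm0 ((D.sw0.BS j).lab q * ω.1).l * (io a).1 q)
    {e : (D.sw0.BS j).M} (he : ∀ q, ((D.sw0.BS j).lab q * ω.1).l ≠ l → e.1 q = 0) :
    Eig s l fun a => D.sw0.Tr j (mulM (ring_BS D.sw0 j) (io a) e) := by
  funext a
  show ∑ b, s a b * D.sw0.Tr j (mulM (ring_BS D.sw0 j) (io b) e) =
    fm0 l * D.sw0.Tr j (mulM (ring_BS D.sw0 j) (io a) e)
  have h1 : ∑ b, s a b • mulM (ring_BS D.sw0 j) (io b) e =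
      (fm0 l : AA n) • mulM (ring_BS D.sw0 j) (io a) e := by
    apply Subtype.ext
    funext q
    rw [U3b_coe]
    show ∑ b, s a b * ((io b).1 q * e.1 q) = fm0 l * ((io a).1 q * e.1 q)
    by_cases hq : ((D.sw0.BS j).lab q * ω.1).l = l
    · have h2 := hio q a
      rw [hq] at h2
      have h3 : ∑ b, s a b * ((io b).1 q * e.1 q) = (∑ b, s a b * (io b).1 q) * e.1 q := by
        rw [Finset.sum_mul]
        exact Finset.sum_congr rfl fun b _ => by ring
      rw [h3, h2]
      ring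
    · rw [he q hq, mul_zero, mul_zero]
      exact Finset.sum_eq_zero fun b _ => by rw [mul_zero, mul_zero]
  have h2 := congrArg (D.sw0.Tr j) h1
  rw [map_sum, map_smul] at h2
  refine Eq.trans ?_ h2
  refine Finset.sum_congr rfl fun b _ => ?_
  rw [map_smul]
  rfl

theorem U3b_supp {I : Type} [Fintype I] {s : Matrix I I (AA n)} {l : Fin n → ℤ}
    {j : List D.SA} {ω : D.Om} {pi : I → (D.sw0.BS j).M}
    (hpi : ∀ q b, ∑ a, (pi a).1 q * s a b = fm0 ((D.sw0.BS j).lab q * ω.1).l * (pi b).1 q)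
    {v : I → KK n} (hv : ∀ a, ∑ b, aK (s a b) * v b = aK (fm0 l) * v a)
    (q : (D.sw0.BS j).J) (hq : ((D.sw0.BS j).lab q * ω.1).l ≠ l) :
    ∑ b, v b * aK ((pi b).1 q) = (0 : KK n) := by
  have h1 : aK (fm0 ((D.sw0.BS j).lab q * ω.1).l) * ∑ b, v b * aK ((pi b).1 q) =
      aK (fm0 l) * ∑ b, v b * aK ((pi b).1 q) := by
    have h2 : ∀ b, aK (fm0 ((D.sw0.BS j).lab q * ω.1).l) * (v b * aK ((pi b).1 q)) =
        ∑ a, aK ((pi a).1 q) * (aK (s a b) * v b) := by
      intro b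
      have h3 : aK (fm0 ((D.sw0.BS j).lab q * ω.1).l) * aK ((pi b).1 q) =
          ∑ a, aK ((pi a).1 q) * aK (s a b) := by
        rw [← map_mul, ← hpi q b, map_sum]
        exact Finset.sum_congr rfl fun a _ => map_mul _ _ _
      calc aK (fm0 ((D.sw0.BS j).lab q * ω.1).l) * (v b * aK ((pi b).1 q)) =
          (aK (fm0 ((D.sw0.BS j).lab q * ω.1).l) * aK ((pi b).1 q)) * v b := by ring
        _ = _ := by
          rw [h3, Finset.sum_mul]
          exact Finset.sum_congr rfl fun a _ => by ring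
    rw [Finset.mul_sum, Finset.sum_congr rfl fun b _ => h2 b, Finset.sum_comm, Finset.mul_sum]
    refine Finset.sum_congr rfl fun a _ => ?_
    rw [← Finset.mul_sum, hv a]
    ring
  have h2 : (aK (fm0 ((D.sw0.BS j).lab q * ω.1).l) - aK (fm0 l)) *
      ∑ b, v b * aK ((pi b).1 q) = (0 : KK n) := by
    rw [sub_mul, h1, sub_self]
  rcases mul_eq_zero.1 h2 with h3 | h3
  · exact absurd (fm0_inj (aK_inj (sub_eq_zero.1 h3))) hq
  · exact h3

/-- the sections `∑ v b pi b` -/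
noncomputable def U3b_rho {I : Type} [Fintype I] {j : List D.SA} (pi : I → (D.sw0.BS j).M) :
    (I → KK n) →ₗ[KK n] ((D.sw0.BS j).J → KK n) where
  toFun v := fun q => ∑ b, v b * aK ((pi b).1 q)
  map_add' v v' := by
    funext q
    simp only [Pi.add_apply, add_mul, Finset.sum_add_distrib]
  map_smul' k v := by
    funext q
    simp only [Pi.smul_apply, smul_eq_mul, RingHom.id_apply, Finset.mul_sum, mul_assoc]

theorem U3b_rho_apply {I : Type} [Fintype I] {j : List D.SA} (pi : I → (D.sw0.BS j).M)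
    (v : I → KK n) (q : (D.sw0.BS j).J) : U3b_rho pi v q = ∑ b, v b * aK ((pi b).1 q) := rfl

/-- one member of the family, integral vector -/
theorem U3b_one {I : Type} [Fintype I] {s : Matrix I I (AA n)} {l : Fin n → ℤ}
    {j : List D.SA} {ω : D.Om} {pi : I → (D.sw0.BS j).M}
    (hpi : ∀ q b, ∑ a, (pi a).1 q * s a b = fm0 ((D.sw0.BS j).lab q * ω.1).l * (pi b).1 q)
    {N : ℕ} {e : Fin N → (D.sw0.BS j).M} {γ : Fin N → ((D.sw0.BS j).J → KK n) →ₗ[KK n] KK n}
    (hγ : ∀ m : (D.sw0.BS j).M, (∀ q, ((D.sw0.BS j).lab q * ω.1).l ≠ l → m.1 q = 0) →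
        (∀ i, ∃ t : AA n, γ i (fun q => aK (m.1 q)) = aK t) ∧
        ∀ q, aK (m.1 q) = ∑ i, γ i (fun q => aK (m.1 q)) * aK ((e i).1 q))
    {w : I → AA n} (hw : ∀ a, ∑ b, aK (s a b) * aK (w b) = aK (fm0 l) * (aK (w a) : KK n)) :
    ∃ t : Fin N → AA n, (∀ i, γ i (U3b_rho pi fun b => aK (w b)) = aK (t i)) ∧
      ∑ b, w b • pi b = ∑ i, t i • e i := by
  have hm1 : ∀ q, (aK ((∑ b, w b • pi b : (D.sw0.BS j).M).1 q) : KK n) =
      U3b_rho pi (fun b => aK (w b)) q := by
    intro q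
    rw [U3b_coe, map_sum, U3b_rho_apply]
    exact Finset.sum_congr rfl fun b _ => map_mul _ _ _
  have hm0 : ∀ q, ((D.sw0.BS j).lab q * ω.1).l ≠ l →
      (∑ b, w b • pi b : (D.sw0.BS j).M).1 q = 0 := by
    intro q hq
    apply aK_inj
    rw [hm1, map_zero, U3b_rho_apply]
    exact U3b_supp hpi hw q hq
  obtain ⟨g1, g2⟩ := hγ (∑ b, w b • pi b) hm0
  have hfun : (fun q => (aK ((∑ b, w b • pi b : (D.sw0.BS j).M).1 q) : KK n)) =
      U3b_rho pi (fun b => aK (w b)) := funext hm1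
  choose t ht using g1
  refine ⟨t, fun i => by rw [← hfun]; exact ht i, ?_⟩
  apply Subtype.ext
  funext q
  apply aK_inj
  rw [g2 q, U3b_coe, map_sum]
  refine Finset.sum_congr rfl fun i _ => ?_
  rw [ht i, map_mul]

/-- (Fl) for a matrix with a retraction family.  For each `r` take the frame `e_{r,i}`, `γ_{r,i}` of `BS_0 (j r)`, `ω r`.
Sections `e'_{r,i} a = Tr (io r a * e_{r,i})` (weight `l`: `e_{r,i}` is supported on the labels of weight `l`, `io_wt`);
functionals `c_{r,i} v = γ_{r,i} (q ↦ ∑_b v b * aK (pi r b q))` (of the restriction to the indices of weight `l`).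
For `v` of weight `l` the function `ρ = ∑_b v b pi r b` vanishes at the labels of weight `≠ l` (orthogonality of left and
right eigenvectors over the field), `ρ = ∑_i γ_{r,i}(ρ) e_{r,i}` (multiply `v` by a common denominator), so
`∑_{r,i} c_{r,i} v • e'_{r,i} a = ∑_r Tr (io r a * ρ) = ∑_b v b δ_ab = v a`. -/
theorem fl_mat {I : Type} [Fintype I] [DecidableEq I] {s : Matrix I I (AA n)} (h : RF D s)
    (l : Fin n → ℤ) : ∃ (N : ℕ) (e : Fin N → I → AA n) (c : Fin N → (I → KK n) →ₗ[KK n] KK n),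
      (∀ i, Eig s l (e i)) ∧ ∀ v : I → KK n, (s.map aK).mulVec v = (aK (fm0 l) : KK n) • v →
        (∀ a, v a = ∑ i, c i v * aK (e i a)) ∧
        ((∀ a, ∃ t : AA n, v a = aK t) → ∀ i, ∃ t : AA n, c i v = aK t) := by
  have hfr := fun r => exists_frame (h.j r) (h.ω r) l
  choose N e γ he hγ using hfr
  suffices hS : ∃ (e' : (Σ r, Fin (N r)) → I → AA n)
      (c : (Σ r, Fin (N r)) → (I → KK n) →ₗ[KK n] KK n),
      (∀ i, Eig s l (e' i)) ∧ ∀ v : I → KK n, (∀ a, ∑ b, aK (s a b) * v b = aK (fm0 l) * v a) →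
        (∀ a, v a = ∑ i, c i v * aK (e' i a)) ∧
        ((∀ a, ∃ t : AA n, v a = aK t) → ∀ i, ∃ t : AA n, c i v = aK t) by
    obtain ⟨e', c, h1, h2⟩ := hS
    refine ⟨Fintype.card (Σ r, Fin (N r)), fun i => e' ((Fintype.equivFin _).symm i),
      fun i => c ((Fintype.equivFin _).symm i), fun i => h1 _, fun v hv => ?_⟩
    obtain ⟨h3, h4⟩ := h2 v (fun a => congrFun hv a)
    refine ⟨fun a => ?_, fun hi i => h4 hi _⟩
    rw [h3 a]
    exact Fintype.sum_equiv (Fintype.equivFin _) _ _ fun i => by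
      simp only [Equiv.symm_apply_apply]
  refine ⟨fun x a => D.sw0.Tr (h.j x.1) (mulM (ring_BS D.sw0 (h.j x.1)) (h.io x.1 a) (e x.1 x.2)),
    fun x => (γ x.1 x.2).comp (U3b_rho (h.pi x.1)),
    fun x => U3b_eig (h.io_wt x.1) (he x.1 x.2), ?_⟩
  have hint : ∀ w : I → AA n, (∀ a, ∑ b, aK (s a b) * aK (w b) = aK (fm0 l) * (aK (w a) : KK n)) →
      (∀ a, (aK (w a) : KK n) = ∑ x : (Σ r, Fin (N r)),
        γ x.1 x.2 (U3b_rho (h.pi x.1) fun b => aK (w b)) *
        aK (D.sw0.Tr (h.j x.1) (mulM (ring_BS D.sw0 (h.j x.1)) (h.io x.1 a) (e x.1 x.2)))) ∧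
      ∀ x : (Σ r, Fin (N r)), ∃ t : AA n,
        γ x.1 x.2 (U3b_rho (h.pi x.1) fun b => aK (w b)) = aK t := by
    intro w hw
    have h1 := fun r => U3b_one (h.pi_wt r) (hγ r) hw
    choose t ht1 ht2 using h1
    refine ⟨fun a => ?_, fun x => ⟨t x.1 x.2, ht1 x.1 x.2⟩⟩
    have h2 : w a = ∑ r, ∑ i, t r i *
        D.sw0.Tr (h.j r) (mulM (ring_BS D.sw0 (h.j r)) (h.io r a) (e r i)) := by
      have h3 : ∀ r, ∑ i, t r i *
          D.sw0.Tr (h.j r) (mulM (ring_BS D.sw0 (h.j r)) (h.io r a) (e r i)) =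
          ∑ b, w b * D.sw0.Tr (h.j r) (mulM (ring_BS D.sw0 (h.j r)) (h.io r a) (h.pi r b)) := by
        intro r
        have h4 := congrArg (fun z => D.sw0.Tr (h.j r)
          (mulM (ring_BS D.sw0 (h.j r)) (h.io r a) z)) (ht2 r)
        simp only [U3b_lin, map_sum, map_smul, smul_eq_mul] at h4
        exact h4.symm
      rw [Finset.sum_congr rfl fun r _ => h3 r, Finset.sum_comm]
      have h5 : ∀ b, ∑ r, w b *
          D.sw0.Tr (h.j r) (mulM (ring_BS D.sw0 (h.j r)) (h.io r a) (h.pi r b)) =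
          if a = b then w b else 0 := by
        intro b
        rw [← Finset.mul_sum, h.tr a b, mul_ite, mul_one, mul_zero]
      rw [Finset.sum_congr rfl fun b _ => h5 b, Finset.sum_ite_eq Finset.univ a,
        if_pos (Finset.mem_univ a)]
    rw [Fintype.sum_sigma]
    conv_lhs => rw [h2]
    rw [map_sum]
    refine Finset.sum_congr rfl fun r _ => ?_
    rw [map_sum]
    refine Finset.sum_congr rfl fun i _ => ?_
    rw [map_mul, ht1 r i]
  intro v hv
  refine ⟨fun a => ?_, fun hi x => ?_⟩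
  · obtain ⟨⟨d, hd⟩, hd'⟩ := IsLocalization.exist_integer_multiples_of_finite
      (nonZeroDivisors (AA n)) v
    have hd0 : (aK d : KK n) ≠ 0 := aK_ne_zero (nonZeroDivisors.ne_zero hd)
    have hw : ∀ b, ∃ w : AA n, (aK w : KK n) = aK d * v b := by
      intro b
      obtain ⟨w, hw⟩ := hd' b
      refine ⟨w, ?_⟩
      rw [Algebra.smul_def] at hw
      exact hw
    choose w hw using hw
    obtain ⟨h1, -⟩ := hint w (fun a => by
      rw [hw a]
      have h2 : ∀ b, (aK (s a b) : KK n) * aK (w b) = aK d * (aK (s a b) * v b) := by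
        intro b
        rw [hw b]
        ring
      rw [Finset.sum_congr rfl fun b _ => h2 b, ← Finset.mul_sum, hv a]
      ring)
    apply mul_left_cancel₀ hd0
    rw [← hw a, h1 a, Finset.mul_sum]
    refine Finset.sum_congr rfl fun x _ => ?_
    have h2 : (fun b => (aK (w b) : KK n)) = (aK d : KK n) • v := by
      funext b
      exact hw b
    rw [h2, map_smul, map_smul, smul_eq_mul, mul_assoc]
    rfl
  · choose w hw using hi
    have hvw : v = fun b => aK (w b) := funext hw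
    obtain ⟨-, h2⟩ := hint w (fun a => by
      have h3 := hv a
      rw [hvw] at h3
      exact h3)
    rw [hvw]
    exact h2 x

end Pool.Agent.MTG
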