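import Pool.Agent.MTG.GU2

/-! # MTG : the strong lifts for dominant weights, with the bound of the support by `PiS` -/

namespace Pool.Agent.MTG

open MvPolynomial
open Pool.Agent.MTX (mulM ring_BS)
open Pool.Agent.MTX.SLD (RR AA fm fm0 fm0_add fm0_smul fm0_zero fm0_neg fm0_sub fm0_ne_zero fm0_prime)
open RD

variable {n : ℕ} {D : RD n}

section
variable {L : Type} [Fintype L] {I : L → Type} [∀ l, Fintype (I l)]
  {s : (l : L) → Matrix (I l) (I l) (AA n)} {lam : Fin n → ℤ} {i : List D.SA} {ω : D.Om}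
  {ψ : (l : L) → I l → (D.sw0.BS i).M}

theorem Tm_PiS (h : SL D L I s lam i ω ψ) (a : AA n) (m : Fin n → ℤ) (x : (l : L) → I l)
    (hm : Tm ψ ω a m x ≠ 0) : m ∈ D.PiS lam := by
  classical
  have h1 : ∃ (u : D.W) (p : (D.sw0.BS i).J), u.1 ((D.sw0.BS i).lab p * ω.1).l = m := by
    by_contra hno
    push Not at hno
    apply hm
    unfold Tm
    rw [Finset.sum_eq_zero fun u _ => Finset.sum_eq_zero fun p _ => if_neg (hno u p), mul_zero]
  obtain ⟨u, p, rfl⟩ := h1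
  exact D.PiS_smul (Wd.lab_mem h.dom h.wd p) u

end

/-- The strong lift theorem for matrices, `lam` dominant, with the bound of the support. -/
theorem sl_domS {L : Type} [Fintype L] [DecidableEq L] {I : L → Type} [∀ l, Fintype (I l)]
    [∀ l, DecidableEq (I l)] (s : (l : L) → Matrix (I l) (I l) (AA n))
    (hs : ∀ l (u : D.W) a b, u • s l a b = s l a b) (hR : ∀ l, Nonempty (RF D (s l)))
    {lam : Fin n → ℤ} (hl : D.Dom lam) (ev : (l : L) → I l → AA n)
    (hev : ∀ l, Eig (s l) lam (ev l)) (a : AA n) :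
    ∃ (Fs : Finset (Fin n → ℤ)) (T : (Fin n → ℤ) → ((l : L) → I l) → KK n),
      (∀ m ∉ Fs, ∀ x, T m x = 0) ∧
      (∀ x, ∃ t : AA n, ∑ m ∈ Fs, T m x = aK t) ∧
      (∀ (w : D.W) m x, D.uK w (T m x) = T (w.1 m) x) ∧
      (∀ m x l, ∑ y : I l, aK (s l (x l) y) * T m (Function.update x l y) = aK (fm0 m) * T m x) ∧
      (∀ m x, T m x ≠ 0 → (∃ w : D.W, m = w.1 lam) ∨ D.B m m < D.B lam lam) ∧
      (∀ m x, T m x ≠ 0 → m ∈ D.PiS lam) ∧
      ∀ x, aK (D.PI0 lam * D.Eu lam) * T lam x = ∑ u : D.W, if u.1 lam = lam then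
        aK ((((D.sgn u : ℤˣ) : ℤ) : AA n) * (u • (a * ∏ l, ev l (x l)))) else 0 := by
  obtain ⟨i, ω, wd⟩ := D.exists_Wd lam
  have hψ := fun l => (hR l).some.exists_psi wd.red wd.l (hev l)
  choose ψ h1 h2 using hψ
  have sl : SL D L I s lam i ω ψ := ⟨hl, wd, hs, h2⟩
  obtain ⟨ε, hε, hlead⟩ := Tm_lead sl
  refine ⟨TmF i ω, fun m x => Tm ψ ω (MvPolynomial.C ε * a) m x, fun m hm x => Tm_supp _ m hm x,
    fun x => Tm_reg sl _ x, fun w m x => Tm_smul w _ m x, fun m x l => Tm_eig sl _ m x l,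
    fun m x hx => Tm_norm sl _ m x hx, fun m x hx => Tm_PiS sl _ m x hx, fun x => ?_⟩
  rw [hlead, Finset.mul_sum]
  have hεε : (MvPolynomial.C ε : AA n) * MvPolynomial.C ε = 1 := by
    rw [← MvPolynomial.C_mul]
    rcases hε with h | h
    · rw [h, mul_one, MvPolynomial.C_1]
    · rw [h, neg_mul_neg, mul_one, MvPolynomial.C_1]
  refine Finset.sum_congr rfl fun u _ => ?_
  by_cases hu : u.1 lam = lam
  · rw [if_pos hu, if_pos hu, ← map_mul]
    congr 1
    have h3 : ∏ l, (ψ l (x l)).1 (D.sw0.top i) = ∏ l, ev l (x l) :=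
      Finset.prod_congr rfl fun l _ => h1 l (x l)
    rw [h3, mul_assoc (MvPolynomial.C ε) a, smul_mul' u (MvPolynomial.C ε : AA n), RD.smul_C]
    linear_combination ((((D.sgn u : ℤˣ) : ℤ) : AA n) * (u • (a * ∏ l, ev l (x l)))) * hεε
  · rw [if_neg hu, if_neg hu, mul_zero]

end Pool.Agent.MTG
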