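import Pool.Agent.MTF.TQ
import Pool.Agent.MTG.GU1
import Pool.Agent.MTG.GU2
import Pool.Agent.MTG.GU3
import Pool.Agent.MTG.GDB

/-! # MTG, Part V : the TQ datum of a root datum, elementary fields

`tqd G D Db cA` : `K = Frac A`, `A = ℂ[x_1..x_n]`, `X = ℤ^n`, `val = fm0`, `Db` a basis of the Lie algebra of `G`,
`s = ∑ cA j • Db j`. -/

namespace Pool.Agent.MTG

open MvPolynomial
open Pool.Agent.MTX.SLD (RR AA fm fm0 fm0_add fm0_smul fm0_zero fm0_neg fm0_sub fm0_ne_zero fm0_prime)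
open RD
open Pool.Agent.MTF (AffGrp TQD TQ)

variable {n : ℕ} {D : RD n}

/-- `A` inside its field of fractions -/
noncomputable def AK (n : ℕ) : Subalgebra ℂ (KK n) := (IsScalarTower.toAlgHom ℂ (AA n) (KK n)).range

theorem mem_AK {x : KK n} : x ∈ AK n ↔ ∃ t : AA n, x = aK t :=
  ⟨fun ⟨t, h⟩ => ⟨t, h.symm⟩, fun ⟨t, h⟩ => ⟨t, h.symm⟩⟩

theorem aK_mem (t : AA n) : (aK t : KK n) ∈ AK n := mem_AK.2 ⟨t, rfl⟩

theorem algebraMap_KK (z : ℂ) : algebraMap ℂ (KK n) z = aK (MvPolynomial.C z) :=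
  IsScalarTower.algebraMap_apply ℂ (AA n) (KK n) z

/-- `u • C z = C z` -/
instance : SMulCommClass D.W ℂ (KK n) where
  smul_comm u z x := by
    rw [Algebra.smul_def, Algebra.smul_def, smul_mul', algebraMap_KK, smul_aK]
    congr 2
    exact D.smul_C u z

/-- The TQ datum. -/
noncomputable def tqd (G : AffGrp) (D : RD n) {r : ℕ} (Db : Module.Basis (Fin r) ℂ G.Lie)
    (cA : Fin r → AA n) : TQD G (KK n) D.W (Fin n → ℤ) where
  A := AK n
  val :=
    { toFun := fun m => aK (fm0 m)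
      map_zero' := by rw [fm0_zero, map_zero]
      map_add' := fun x y => by rw [fm0_add, map_add] }
  N m := (D.B m m).toNat
  Eu m := aK (D.Eu m)
  sg := D.sgn
  Δ m := aK (D.PI0 m)
  r := r
  D := Db
  c j := aK (cA j)

section
variable (G : AffGrp) {r : ℕ} (Db : Module.Basis (Fin r) ℂ G.Lie) (cA : Fin r → AA n)

theorem tqd_val (m : Fin n → ℤ) : (tqd G D Db cA).val m = aK (fm0 m) := rfl

theorem v_wA (w : D.W) (x : KK n) (h : x ∈ (tqd G D Db cA).A) : w • x ∈ (tqd G D Db cA).A := by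
  obtain ⟨t, rfl⟩ := mem_AK.1 h
  rw [smul_aK]
  exact aK_mem _

theorem v_val_inj : Function.Injective (tqd G D Db cA).val := by
  intro a b h
  exact fm0_inj (aK_inj h)

theorem v_val_w (w : D.W) (m : Fin n → ℤ) :
    (tqd G D Db cA).val (w • m) = w • (tqd G D Db cA).val m := by
  show aK (fm0 (w.1 m)) = w • (aK (fm0 m) : KK n)
  rw [smul_aK, D.smul_fm0]

theorem v_N_w (w : D.W) (m : Fin n → ℤ) : (tqd G D Db cA).N (w • m) = (tqd G D Db cA).N m := by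
  show (D.B (w.1 m) (w.1 m)).toNat = (D.B m m).toNat
  rw [D.B_W]

theorem v_N_neg (m : Fin n → ℤ) : (tqd G D Db cA).N (-m) = (tqd G D Db cA).N m := by
  show (D.B (-m) (-m)).toNat = (D.B m m).toNat
  rw [D.B_neg_left, D.B_neg_right, neg_neg]

theorem v_Eu_ne (m : Fin n → ℤ) : (tqd G D Db cA).Eu m ≠ 0 := by
  exact aK_ne_zero (D.Eu_ne m)

theorem v_Eu_w (w : D.W) (m : Fin n → ℤ) :
    (tqd G D Db cA).Eu (w • m) = w • (tqd G D Db cA).Eu m := by
  show aK (D.Eu (w.1 m)) = w • (aK (D.Eu m) : KK n)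
  rw [smul_aK, D.Eu_smul]

theorem v_Eu_neg (m : Fin n → ℤ) : ∃ u : ℂ, u ≠ 0 ∧
    (tqd G D Db cA).Eu (-m) = algebraMap ℂ (KK n) u * (tqd G D Db cA).Eu m := by
  rcases D.Eu_neg m with h | h
  · refine ⟨1, one_ne_zero, ?_⟩
    show aK (D.Eu (-m)) = algebraMap ℂ (KK n) 1 * aK (D.Eu m)
    rw [h, map_one, one_mul]
  · refine ⟨-1, neg_ne_zero.2 one_ne_zero, ?_⟩
    show aK (D.Eu (-m)) = algebraMap ℂ (KK n) (-1) * aK (D.Eu m)
    rw [h, map_neg, map_neg, map_one, neg_one_mul]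

theorem v_Eu_zero : (tqd G D Db cA).Eu 0 = 1 := by
  show aK (D.Eu 0) = 1
  rw [D.Eu_zero, map_one]

theorem v_Eu_add (m m' : Fin n → ℤ) : ∃ a ∈ (tqd G D Db cA).A,
    (tqd G D Db cA).Eu m * (tqd G D Db cA).Eu m' = a * (tqd G D Db cA).Eu (m + m') := by
  obtain ⟨t, ht⟩ := D.Eu_add m m'
  refine ⟨aK t, aK_mem t, ?_⟩
  show aK (D.Eu m) * aK (D.Eu m') = aK t * aK (D.Eu (m + m'))
  rw [← map_mul, ← map_mul, ht, mul_comm]

theorem v_Δ_ne (m : Fin n → ℤ) : (tqd G D Db cA).Δ m ≠ 0 := by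
  exact aK_ne_zero (D.PI0_ne m)

theorem v_Δ_w (w : D.W) (m : Fin n → ℤ) (h : w • m = m) :
    w • (tqd G D Db cA).Δ m = (((tqd G D Db cA).sg w : ℤ) : KK n) * (tqd G D Db cA).Δ m := by
  show w • (aK (D.PI0 m) : KK n) = (((D.sgn w : ℤˣ) : ℤ) : KK n) * aK (D.PI0 m)
  rw [smul_aK, D.smul_PI0 m w h, map_mul, map_intCast]

/-- `PI0_dvd` -/
theorem v_Dav_mem (l : Fin n → ℤ) (x : KK n) (h : x ∈ (tqd G D Db cA).A) :
    (tqd G D Db cA).Dav l x ∈ (tqd G D Db cA).A := by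
  classical
  obtain ⟨t, rfl⟩ := mem_AK.1 h
  obtain ⟨c, hc⟩ := D.PI0_dvd l t
  have h0 : (∑ w : D.W, if w • l = l then (((tqd G D Db cA).sg w : ℤ) : KK n) * (w • (aK t : KK n))
      else 0) = aK (D.PI0 l) * aK c := by
    rw [← map_mul, ← hc, map_sum]
    refine Finset.sum_congr rfl fun w _ => ?_
    by_cases hw : w.1 l = l
    · rw [if_pos hw]
      have hw' : w • l = l := hw
      rw [if_pos hw', map_mul, map_intCast, smul_aK]
      rfl
    · rw [if_neg hw]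
      have hw' : ¬ w • l = l := hw
      rw [if_neg hw', map_zero]
  have h1 : (tqd G D Db cA).Dav l (aK t) = aK c := by
    show (aK (D.PI0 l))⁻¹ * _ = aK c
    rw [inv_mul_eq_iff_eq_mul₀ (aK_ne_zero (D.PI0_ne l))]
    rw [← h0]
    refine Finset.sum_congr rfl fun w _ => ?_
    congr
  rw [h1]
  exact aK_mem c

/-- `exists_db` -/
theorem v_db (F : Fin n → AA n) (hF : ∀ (w : D.W) i, w • F i = F i) {κ : ℂ} (hκ : κ ≠ 0)
    (hJ : Matrix.det (fun i j => pderiv j (F i)) = MvPolynomial.C κ * D.PI) (l : Fin n → ℤ) :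
    ∃ (N : ℕ) (a b : Fin N → KK n), (∀ i, a i ∈ (tqd G D Db cA).A) ∧
      (∀ i, b i ∈ (tqd G D Db cA).A) ∧ (∑ i, a i * b i = (tqd G D Db cA).Δ l) ∧
      ∀ w : D.W, w • l = l → w ≠ 1 → ∑ i, a i * (w • b i) = 0 := by
  obtain ⟨N, a, b, h1, h2⟩ := exists_db F hF hκ hJ l
  refine ⟨N, fun i => aK (a i), fun i => aK (b i), fun i => aK_mem _, fun i => aK_mem _, ?_,
    fun w hw hw1 => ?_⟩
  · show ∑ i, (aK (a i) : KK n) * aK (b i) = aK (D.PI0 l)
    rw [← h1, map_sum]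
    exact Finset.sum_congr rfl fun i _ => (map_mul _ _ _).symm
  · have h3 := h2 w hw hw1
    have h4 := congrArg (fun t : AA n => (aK t : KK n)) h3
    simp only [map_sum, map_mul, map_zero] at h4
    rw [← h4]
    exact Finset.sum_congr rfl fun i _ => by rw [smul_aK]

end

end Pool.Agent.MTG
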