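import Pool.Agent.MTG.GV0

/-! # MTG, Part V : functions on the group and representations -/

namespace Pool.Agent.MTG

open MvPolynomial
open Pool.Agent.MTX.SLD (RR AA fm fm0 fm0_add fm0_smul fm0_zero fm0_neg fm0_sub fm0_ne_zero fm0_prime)
open RD
open Pool.Agent.MTF (AffGrp TQD TQ Rep Rep.co)
open Pool.Agent.MTF.AffGrp

/-! ### slices (any TQ datum) -/

section slice
variable {G : AffGrp} {K : Type} [Field K] [Algebra ℂ K]

/-- A representation spanned by linearly independent regular functions (right translations):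
`e b (y x) = ∑_a ρ x a b e a y`. -/
structure Slc (E : Rep G) (e : E.ι → G.O) : Prop where
  li : LinearIndependent ℂ e
  eq : ∀ (x y : G.X) (b : E.ι), (e b).1 (y * x) = ∑ a, E.ρ x a b * (e a).1 y

variable (K) in
/-- the function with coordinates `v` -/
noncomputable def Slc.fn {E : Rep G} (e : E.ι → G.O) (v : E.ι → K) : G.KO K :=
  ∑ b, v b • inc K (e b)

theorem v1a_rt_mul (x z : G.X) (f : G.O) : G.rt x (G.rt z f) = G.rt (x * z) f := by
  apply Subtype.ext
  funext y
  show f.1 (y * x * z) = f.1 (y * (x * z))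
  rw [mul_assoc]

theorem v1a_rt_one (f : G.O) : G.rt 1 f = f := by
  apply Subtype.ext
  funext y
  show f.1 (y * 1) = f.1 y
  rw [mul_one]

theorem v1a_rt_sum (f : G.O) : ∃ (N : ℕ) (a b : Fin N → G.O), ∀ x, G.rt x f = ∑ i, (b i).1 x • a i := by
  obtain ⟨N, a, b, h⟩ := G.mul_mem f.1 f.2
  refine ⟨N, a, b, fun x => ?_⟩
  apply Subtype.ext
  funext y
  show f.1 (y * x) = _
  rw [h]
  simp [Finset.sum_apply, mul_comm]

/-- the span of the right translates -/
def v1a_U (g : G.O) : Submodule ℂ G.O := Submodule.span ℂ (Set.range fun x : G.X => G.rt x g)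

theorem v1a_fin (g : G.O) : FiniteDimensional ℂ (v1a_U g) := by
  obtain ⟨N, a, b, h⟩ := v1a_rt_sum g
  have h1 : v1a_U g ≤ Submodule.span ℂ (Set.range a) := by
    apply Submodule.span_le.2
    rintro _ ⟨x, rfl⟩
    show G.rt x g ∈ _
    rw [h x]
    exact Submodule.sum_mem _ fun i _ => Submodule.smul_mem _ _ (Submodule.subset_span ⟨i, rfl⟩)
  have : FiniteDimensional ℂ (Submodule.span ℂ (Set.range a)) :=
    FiniteDimensional.span_of_finite ℂ (Set.finite_range a)
  exact Submodule.finiteDimensional_of_le h1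

theorem v1a_stab (g : G.O) (x : G.X) (f : G.O) (hf : f ∈ v1a_U g) : G.rt x f ∈ v1a_U g := by
  have h1 : v1a_U g ≤ (v1a_U g).comap (G.rt x) := by
    apply Submodule.span_le.2
    rintro _ ⟨z, rfl⟩
    show G.rt x (G.rt z g) ∈ v1a_U g
    rw [v1a_rt_mul]
    exact Submodule.subset_span ⟨x * z, rfl⟩
  exact h1 hf

/-- a finite dimensional stable subspace gives a slice -/
theorem v1a_of_sub (U : Submodule ℂ G.O) [FiniteDimensional ℂ U]
    (hU : ∀ (x : G.X) (f : G.O), f ∈ U → G.rt x f ∈ U) :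
    ∃ (d : ℕ) (ρ : G.X →* Matrix (Fin d) (Fin d) ℂ) (e : Fin d → G.O),
      (∀ a b, (fun x => ρ x a b) ∈ G.O) ∧ LinearIndependent ℂ e ∧
      (∀ (x y : G.X) (b : Fin d), (e b).1 (y * x) = ∑ a, ρ x a b * (e a).1 y) ∧
      ∀ f ∈ U, ∃ v : Fin d → ℂ, f = ∑ b, v b • e b := by
  classical
  have h0 : Module.Free ℂ U := Module.Free.of_divisionRing ℂ U
  obtain ⟨d, ⟨bb⟩⟩ : ∃ d : ℕ, Nonempty (Module.Basis (Fin d) ℂ U) :=
    ⟨Module.finrank ℂ U, ⟨Module.finBasis ℂ U⟩⟩
  let R : G.X → (U →ₗ[ℂ] U) := fun x => (G.rt x).restrict (hU x)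
  have hR1 : R 1 = 1 := by
    apply LinearMap.ext
    intro u
    apply Subtype.ext
    show G.rt 1 u.1 = u.1
    exact v1a_rt_one _
  have hRm : ∀ x z, R (x * z) = R x * R z := by
    intro x z
    apply LinearMap.ext
    intro u
    apply Subtype.ext
    show G.rt (x * z) u.1 = G.rt x (G.rt z u.1)
    exact (v1a_rt_mul _ _ _).symm
  let ρ : G.X →* Matrix (Fin d) (Fin d) ℂ :=
    { toFun := fun x => LinearMap.toMatrix bb bb (R x)
      map_one' := by rw [hR1, LinearMap.toMatrix_one]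
      map_mul' := fun x z => by rw [hRm, LinearMap.toMatrix_mul] }
  have hρ : ∀ x a b, ρ x a b = bb.repr (R x (bb b)) a := fun x a b =>
    LinearMap.toMatrix_apply bb bb (R x) a b
  clear_value ρ
  refine ⟨d, ρ, fun b => (bb b).1, ?_, ?_, ?_, ?_⟩
  · intro a b
    obtain ⟨φ, hφ⟩ := (bb.coord a).exists_extend
    obtain ⟨N, p, q, h⟩ := v1a_rt_sum (bb b).1
    have : (fun x => ρ x a b) = ∑ i, φ (p i) • (q i).1 := by
      funext x
      have e1 : ρ x a b = φ (G.rt x (bb b).1) := by
        rw [hρ]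
        have := LinearMap.congr_fun hφ (R x (bb b))
        exact this.symm
      rw [e1, h, map_sum]
      simp [Finset.sum_apply, mul_comm]
    rw [this]
    exact Subalgebra.sum_mem _ fun i _ => Subalgebra.smul_mem _ (q i).2 _
  · rw [Fintype.linearIndependent_iff]
    intro g hg i
    have h1 : ∑ i, g i • bb i = 0 := by
      apply Subtype.ext
      rw [Submodule.coe_sum]
      exact hg
    have h2 := congrFun (bb.repr_sum_self g) i
    rw [h1, LinearEquiv.map_zero bb.repr] at h2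
    exact h2.symm
  · intro x y b
    have h1 : R x (bb b) = ∑ a, ρ x a b • bb a := by
      simp only [hρ]
      exact (bb.sum_repr (R x (bb b))).symm
    have h3 : (R x (bb b)).1 = ∑ a, ρ x a b • (bb a).1 := by
      rw [h1, Submodule.coe_sum]
      rfl
    have h4 : (R x (bb b)).1.1 y = (bb b).1.1 (y * x) := rfl
    rw [← h4, h3]
    have h5 : (∑ a, ρ x a b • (bb a).1 : G.O).1 = ∑ a, ρ x a b • (bb a).1.1 := by
      exact AddSubmonoidClass.coe_finsetSum _ _
    rw [h5, Finset.sum_apply]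
    rfl
  · intro f hf
    refine ⟨fun b => bb.repr ⟨f, hf⟩ b, ?_⟩
    have h1 := congrArg (fun u : U => u.1) (bb.sum_repr ⟨f, hf⟩)
    have h2 : ((∑ i, bb.repr ⟨f, hf⟩ i • bb i : U) : G.O) = ∑ i, bb.repr ⟨f, hf⟩ i • (bb i).1 := by
      rw [Submodule.coe_sum]
      rfl
    exact (h2.symm.trans h1).symm

/-- Finitely many functions lie in the span of one slice.  Every regular `f` lies in a finite dimensional subspace of
`G.O` stable under right translations: the span `U` of all right translates of `f` is finite dimensional, since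
`f (y x) = ∑ a_i y b_i x` (`G.mul_mem`).  Take the sum of these `U` for the finitely many regular functions that occur
(`KO_eq_sum`), a basis `e` of it (`Module.finBasis`), and `ρ x a b` the coordinates of `rt x (e b)`; `ρ` is multiplicative by
linear independence; its entries are regular: choose a dual basis of evaluations, i.e. points `y_i` and numbers `c a i`
with `∑_i c a i e b (y_i) = δ_ab` (linear independence of functions), then `ρ x a b = ∑_i c a i (e b) (y_i x)`. -/
theorem exists_slice (fs : Finset (G.KO K)) : ∃ (E : Rep G) (e : E.ι → G.O), Slc E e ∧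
    ∀ F ∈ fs, ∃ v : E.ι → K, F = Slc.fn K e v := by
  classical
  choose n c f hf using fun F : G.KO K => KO_eq_sum F
  let S : Finset (Σ F : G.KO K, Fin (n F)) := fs.sigma fun F => Finset.univ
  let U : Submodule ℂ G.O := S.sup fun p => v1a_U (f p.1 p.2)
  have hle : ∀ p ∈ S, v1a_U (f p.1 p.2) ≤ U := fun p hp =>
    Finset.le_sup (f := fun p : Σ F : G.KO K, Fin (n F) => v1a_U (f p.1 p.2)) hp
  have hfin1 : ∀ p : Σ F : G.KO K, Fin (n F), FiniteDimensional ℂ (v1a_U (f p.1 p.2)) :=
    fun p => v1a_fin _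
  have hfin : FiniteDimensional ℂ U := Submodule.finiteDimensional_finset_sup S _
  have hstab : ∀ (x : G.X) (g : G.O), g ∈ U → G.rt x g ∈ U := by
    intro x g hg
    have h1 : U ≤ U.comap (G.rt x) := by
      apply Finset.sup_le
      intro p hp g hg
      exact hle p hp (v1a_stab _ x g hg)
    exact h1 hg
  clear_value U
  obtain ⟨d, ρ, e, hmem, hli, heq, hU⟩ := v1a_of_sub U hstab
  have h1 : ∀ F ∈ fs, ∀ i : Fin (n F), ∃ v : Fin d → ℂ, f F i = ∑ b, v b • e b := by
    intro F hF i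
    apply hU
    refine hle ⟨F, i⟩ (Finset.mem_sigma.2 ⟨hF, Finset.mem_univ _⟩) ?_
    exact Submodule.subset_span ⟨1, v1a_rt_one _⟩
  have h2 : ∀ F ∈ fs, ∃ v : Fin d → K, F = ∑ b, v b • inc K (e b) := by
    intro F hF
    choose v hv using h1 F hF
    refine ⟨fun b => ∑ i, c F i * algebraMap ℂ K (v i b), ?_⟩
    apply KO_ext
    intro x
    have h3 : F.1 x = ∑ i, c F i * algebraMap ℂ K ((f F i).1 x) := by
      conv_lhs => rw [hf F]
      rw [KO_sum]
      rfl
    rw [h3, KO_sum]
    have h4 : ∀ i, (f F i).1 x = ∑ b, v i b * (e b).1 x := by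
      intro i
      have h5 : (f F i).1 = ∑ b, v i b • (e b).1 := by
        rw [hv i]
        exact AddSubmonoidClass.coe_finsetSum _ _
      rw [h5, Finset.sum_apply]
      rfl
    simp only [h4, map_sum, map_mul, Finset.mul_sum, KO_smul, inc_apply, Finset.sum_mul]
    rw [Finset.sum_comm]
    refine Finset.sum_congr rfl fun b _ => Finset.sum_congr rfl fun i _ => by ring
  exact ⟨{ ι := Fin d, ρ := ρ, mem := hmem }, e, ⟨hli, heq⟩, h2⟩

/-- the evaluation vectors of independent functions span -/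
theorem v1b_span {ι : Type} [Fintype ι] [DecidableEq ι] (e : ι → G.O) (h : LinearIndependent ℂ e) :
    Submodule.span ℂ (Set.range fun (y : G.X) (b : ι) => (e b).1 y) = (⊤ : Submodule ℂ (ι → ℂ)) := by
  by_contra hne
  obtain ⟨f, hf, hle⟩ := Submodule.exists_le_ker_of_lt_top _ (lt_top_iff_ne_top.2 hne)
  apply hf
  have h1 : ∀ v : ι → ℂ, f v = ∑ b, v b * f (Pi.single b 1) := by
    intro v
    conv_lhs => rw [pi_eq_sum_univ' v]
    rw [map_sum]
    refine Finset.sum_congr rfl fun b _ => ?_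
    rw [map_smul, smul_eq_mul]
  have h2 : ∀ b, f (Pi.single b 1) = 0 := by
    rw [Fintype.linearIndependent_iff] at h
    apply h
    apply Subtype.ext
    have h5 : (∑ b, f (Pi.single b 1) • (e b) : G.O).1 = ∑ b, f (Pi.single b 1) • (e b).1 :=
      AddSubmonoidClass.coe_finsetSum _ _
    rw [h5]
    funext y
    rw [Finset.sum_apply]
    have h3 := hle (Submodule.subset_span ⟨y, rfl⟩)
    rw [LinearMap.mem_ker, h1] at h3
    refine Eq.trans ?_ h3
    refine Finset.sum_congr rfl fun b _ => ?_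
    show f (Pi.single b 1) * (e b).1 y = _
    ring
  apply LinearMap.ext
  intro v
  rw [h1]
  simp [h2]

theorem v1b_dual {ι : Type} [Fintype ι] [DecidableEq ι] (e : ι → G.O) (h : LinearIndependent ℂ e) :
    ∃ (N : ℕ) (y : Fin N → G.X) (c : ι → Fin N → ℂ), ∀ a b,
      ∑ i, c a i * (e b).1 (y i) = if a = b then 1 else 0 := by
  classical
  have h1 : ∀ a : ι, ∃ c : G.X →₀ ℂ, (c.sum fun y z => z • fun b : ι => (e b).1 y) = Pi.single a 1 := by
    intro a
    rw [← Finsupp.mem_span_range_iff_exists_finsupp, v1b_span e h]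
    trivial
  choose c hc using h1
  let S : Finset G.X := Finset.univ.biUnion fun a => (c a).support
  refine ⟨S.card, fun i => (S.equivFin.symm i).1, fun a i => c a (S.equivFin.symm i).1, ?_⟩
  intro a b
  have h2 := congrFun (hc a) b
  rw [Finsupp.sum, Finset.sum_apply] at h2
  have h3 : (if a = b then (1 : ℂ) else 0) = (Pi.single a 1 : ι → ℂ) b := by
    rw [Pi.single_apply]
    simp [eq_comm]
  rw [h3, ← h2]
  have h4 : ∑ i : Fin S.card, c a (S.equivFin.symm i).1 * (e b).1 (S.equivFin.symm i).1 =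
      ∑ y : S, c a y.1 * (e b).1 y.1 :=
    Equiv.sum_comp S.equivFin.symm (fun y : S => c a y.1 * (e b).1 y.1)
  rw [h4, Finset.sum_coe_sort S fun y => c a y * (e b).1 y]
  symm
  apply Finset.sum_subset
  · intro y hy
    exact Finset.mem_biUnion.2 ⟨a, Finset.mem_univ _, hy⟩
  · intro y _ hy
    rw [Finsupp.notMem_support_iff] at hy
    rw [hy]
    simp

theorem v1b_fn_apply {E : Rep G} (e : E.ι → G.O) (v : E.ι → K) (x : G.X) :
    (Slc.fn K e v).1 x = ∑ b, v b * algebraMap ℂ K ((e b).1 x) := by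
  unfold Slc.fn
  rw [KO_sum]
  rfl

/-- Coordinates are `ℂ`-combinations of values: there are points `y_i` and numbers `c a i` with
`v a = ∑_i c a i F (y_i)` for `F = fn e v` (linearly independent functions `e`). -/
theorem Slc.coord {E : Rep G} {e : E.ι → G.O} (h : Slc E e) : ∃ (N : ℕ) (y : Fin N → G.X)
    (c : E.ι → Fin N → ℂ), ∀ (v : E.ι → K) a,
      v a = ∑ i, algebraMap ℂ K (c a i) * (Slc.fn K e v).1 (y i) := by
  obtain ⟨N, y, c, hc⟩ := v1b_dual e h.li
  refine ⟨N, y, c, fun v a => ?_⟩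
  simp only [v1b_fn_apply, Finset.mul_sum]
  rw [Finset.sum_comm]
  have h1 : ∀ b, ∑ i, algebraMap ℂ K (c a i) * (v b * algebraMap ℂ K ((e b).1 (y i))) =
      v b * algebraMap ℂ K (if a = b then 1 else 0) := by
    intro b
    rw [← hc a b, map_sum, Finset.mul_sum]
    refine Finset.sum_congr rfl fun i _ => ?_
    rw [map_mul]
    ring
  simp only [h1]
  rw [Finset.sum_eq_single a]
  · simp
  · intro b _ hb
    rw [if_neg (Ne.symm hb), map_zero, mul_zero]
  · intro h
    exact absurd (Finset.mem_univ _) h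

/-- `inc K (e b)` are linearly independent over `K` (`ext K` of dual functionals, `ext_inc`; a linear functional on
`G.O` with `φ (e a) = δ_ab` exists by linear independence). -/
theorem Slc.inj {E : Rep G} {e : E.ι → G.O} (h : Slc E e) {v : E.ι → K}
    (h0 : Slc.fn K e v = 0) : v = 0 := by
  obtain ⟨N, y, c, hc⟩ := h.coord (K := K)
  funext a
  rw [hc v a, h0]
  simp [KO_zero]

/-- `v` is regular iff the function is regular -/
theorem Slc.reg {W X : Type} [Group W] [AddCommGroup X] (Q : TQD G K W X) {E : Rep G}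
    {e : E.ι → G.O} (h : Slc E e) (v : E.ι → K) : Q.Reg (Slc.fn K e v) ↔ ∀ a, v a ∈ Q.A := by
  constructor
  · intro hr a
    obtain ⟨N, y, c, hc⟩ := h.coord (K := K)
    rw [hc v a]
    exact Subalgebra.sum_mem _ fun i _ =>
      Subalgebra.mul_mem _ (Subalgebra.algebraMap_mem _ _) (hr _)
  · intro hv x
    rw [v1b_fn_apply]
    exact Subalgebra.sum_mem _ fun i _ =>
      Subalgebra.mul_mem _ (hv _) (Subalgebra.algebraMap_mem _ _)

theorem v1b_der {E : Rep G} {e : E.ι → G.O} (h : Slc E e) (D : G.Lie) (b : E.ι) :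
    G.der D (e b) = ∑ a, D.1 (E.co a b) • e a := by
  apply Subtype.ext
  have h5 : (∑ a, D.1 (E.co a b) • e a : G.O).1 = ∑ a, D.1 (E.co a b) • (e a).1 :=
    AddSubmonoidClass.coe_finsetSum _ _
  rw [h5]
  funext x
  rw [Finset.sum_apply]
  have h1 : G.lt x (e b) = ∑ a, (e a).1 x • E.co a b := by
    apply Subtype.ext
    have h6 : (∑ a, (e a).1 x • E.co a b : G.O).1 = ∑ a, (e a).1 x • (E.co a b).1 :=
      AddSubmonoidClass.coe_finsetSum _ _
    rw [h6]
    funext y
    rw [Finset.sum_apply]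
    show (e b).1 (x * y) = ∑ a, (e a).1 x * E.ρ y a b
    rw [h.eq y x b]
    exact Finset.sum_congr rfl fun a _ => mul_comm _ _
  show D.1 (G.lt x (e b)) = ∑ a, D.1 (E.co a b) * (e a).1 x
  rw [h1, map_sum]
  refine Finset.sum_congr rfl fun a _ => ?_
  rw [map_smul, smul_eq_mul, mul_comm]

/-- `s (fn v) = fn (s_E v)`: `derK D (inc (e b)) = inc (der D (e b))`, `der D (e b) = ∑_a D (E.co a b) e a` (the function
`x ↦ e b (y x)` is `∑_a e a y E.co a b`). -/
theorem Slc.s1 {W X : Type} [Group W] [AddCommGroup X] (Q : TQD G K W X) {E : Rep G}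
    {e : E.ι → G.O} (h : Slc E e) (v : E.ι → K) :
    Q.s1 (Slc.fn K e v) = Slc.fn K e ((Q.sE E).mulVec v) := by
  apply KO_ext
  intro x
  have h1 : ∀ (D : G.Lie), (derK K D (Slc.fn K e v)).1 x =
      ∑ b, v b * ∑ a, algebraMap ℂ K (D.1 (E.co a b)) * algebraMap ℂ K ((e a).1 x) := by
    intro D
    unfold Slc.fn
    rw [map_sum, KO_sum]
    refine Finset.sum_congr rfl fun b _ => ?_
    rw [map_smul, derK_inc, KO_smul, v1b_der h, inc_apply]
    have h5 : (∑ a, D.1 (E.co a b) • e a : G.O).1 = ∑ a, D.1 (E.co a b) • (e a).1 :=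
      AddSubmonoidClass.coe_finsetSum _ _
    rw [h5, Finset.sum_apply, map_sum]
    congr 1
    refine Finset.sum_congr rfl fun a _ => ?_
    show algebraMap ℂ K (D.1 (E.co a b) * (e a).1 x) = _
    rw [map_mul]
  have h2 : (Q.s1 (Slc.fn K e v)).1 x = ∑ j, Q.c j * (derK K (Q.D j) (Slc.fn K e v)).1 x := by
    unfold TQD.s1
    rw [LinearMap.sum_apply, KO_sum]
    rfl
  rw [h2, v1b_fn_apply]
  simp only [h1, Matrix.mulVec, dotProduct, TQD.sE, Finset.mul_sum, Finset.sum_mul]
  rw [Finset.sum_comm]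
  simp only [Finset.sum_comm (s := (Finset.univ : Finset (Fin Q.r)))]
  rw [Finset.sum_comm]
  refine Finset.sum_congr rfl fun a _ => Finset.sum_congr rfl fun b _ =>
    Finset.sum_congr rfl fun j _ => ?_
  ring

end slice

/-! ### the matrix of `s` over `A` -/

section
variable {n : ℕ} {D : RD n} {G : AffGrp} {r : ℕ} (Db : Module.Basis (Fin r) ℂ G.Lie)
  (cA : Fin r → AA n)

/-- the matrix of `s` in `E`, over `A` -/
noncomputable def SE (E : Rep G) : Matrix E.ι E.ι (AA n) :=
  fun a b => ∑ j, cA j * MvPolynomial.C ((Db j).1 (E.co a b))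

theorem map_SE (E : Rep G) : (SE Db cA E).map aK = (tqd G D Db cA).sE E := by
  funext a b
  show aK (∑ j, cA j * MvPolynomial.C ((Db j).1 (E.co a b))) =
    ∑ j, aK (cA j) * algebraMap ℂ (KK n) ((Db j).1 (E.co a b))
  rw [map_sum]
  refine Finset.sum_congr rfl fun j _ => ?_
  rw [map_mul, algebraMap_KK]

theorem SE_W (hc : ∀ (w : D.W) j, w • cA j = cA j) (E : Rep G) (w : D.W) (a b : E.ι) :
    w • SE Db cA E a b = SE Db cA E a b := by
  unfold SE
  rw [Finset.smul_sum]
  refine Finset.sum_congr rfl fun j _ => ?_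
  rw [smul_mul', hc, D.smul_C]

/-! ### the fields pb, fl, sl -/

theorem v1c_fn_sum {K : Type} [Field K] [Algebra ℂ K] {E : Rep G} (e : E.ι → G.O) {κ : Type}
    (s : Finset κ) (v : κ → E.ι → K) :
    Slc.fn K e (fun a => ∑ i ∈ s, v i a) = ∑ i ∈ s, Slc.fn K e (v i) := by
  apply KO_ext
  intro x
  rw [KO_sum, v1b_fn_apply]
  simp only [v1b_fn_apply, Finset.sum_mul]
  rw [Finset.sum_comm]

theorem v1c_fn_smul {K : Type} [Field K] [Algebra ℂ K] {E : Rep G} (e : E.ι → G.O) (c : K)
    (v : E.ι → K) : Slc.fn K e (c • v) = c • Slc.fn K e v := by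
  apply KO_ext
  intro x
  rw [KO_smul, v1b_fn_apply, v1b_fn_apply, Finset.mul_sum]
  refine Finset.sum_congr rfl fun b _ => ?_
  rw [Pi.smul_apply, smul_eq_mul, mul_assoc]

theorem v1c_fn_inj {K : Type} [Field K] [Algebra ℂ K] {E : Rep G} {e : E.ι → G.O} (h : Slc E e)
    {v w : E.ι → K} (h0 : Slc.fn K e v = Slc.fn K e w) : v = w := by
  have h1 : Slc.fn K e (v - w) = 0 := by
    apply KO_ext
    intro x
    have h2 := congrArg (fun F : G.KO K => F.1 x) h0
    simp only [v1b_fn_apply] at h2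
    rw [v1b_fn_apply, KO_zero]
    simp only [Pi.sub_apply, sub_mul, Finset.sum_sub_distrib]
    rw [h2, sub_self]
  exact sub_eq_zero.1 (h.inj h1)

/-- eigenfunctions are eigenvectors -/
theorem v1c_eig {W X : Type} {K : Type} [Field K] [Algebra ℂ K] [Group W] [AddCommGroup X]
    (Q : TQD G K W X) {E : Rep G} {e : E.ι → G.O} (h : Slc E e) {v : E.ι → K} {c : K}
    (h0 : Q.s1 (Slc.fn K e v) = c • Slc.fn K e v) : (Q.sE E).mulVec v = c • v := by
  apply v1c_fn_inj h
  rw [← h.s1 Q v, h0, v1c_fn_smul]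

theorem v1c_B_nonneg (D : RD n) (m : Fin n → ℤ) : 0 ≤ D.B m m := by
  by_cases h : m = 0
  · subst h
    have h1 := D.B_smul_left 0 (0 : Fin n → ℤ) 0
    rw [zero_smul, zero_mul] at h1
    rw [h1]
  · exact le_of_lt (D.posdef m h)

/-- `exists_slice` for the functions `F m`, `m` in the support; `Slc.s1`, `Slc.reg`, `Slc.inj` translate to vectors;
`pb_mat`. -/
theorem v_pb (hR : ∀ E : Rep G, Nonempty (RF D (SE Db cA E))) (l : Fin n → ℤ)
    (F : (Fin n → ℤ) →₀ G.KO (KK n))
    (h1 : ∀ m, (tqd G D Db cA).s1 (F m) = (tqd G D Db cA).val m • F m)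
    (h2 : (tqd G D Db cA).Reg (F.sum fun _ a => a))
    (h3 : ∀ m, F m ≠ 0 → (tqd G D Db cA).N m ≤ (tqd G D Db cA).N l) :
    (tqd G D Db cA).Reg ((tqd G D Db cA).Eu l • F l) := by
  classical
  set Q := tqd G D Db cA with hQ
  set Fs : Finset (Fin n → ℤ) := insert l F.support with hFs
  obtain ⟨E, e, hS, hv⟩ := exists_slice (Fs.image F)
  have hv' : ∀ m, ∃ v : E.ι → KK n, F m = Slc.fn (KK n) e v := by
    intro m
    by_cases hm : m ∈ Fs
    · exact hv _ (Finset.mem_image_of_mem F hm)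
    · refine ⟨0, ?_⟩
      have h0 : F m = 0 := by
        by_contra h0
        exact hm (Finset.mem_insert_of_mem (Finsupp.mem_support_iff.2 h0))
      rw [h0]
      apply KO_ext
      intro x
      rw [v1b_fn_apply, KO_zero]
      simp
  choose V hV using hv'
  obtain ⟨hR0⟩ := hR E
  have g1 : ∀ m, ((SE Db cA E).map aK).mulVec (V m) = (aK (fm0 m) : KK n) • V m := by
    intro m
    rw [map_SE (D := D)]
    apply v1c_eig Q hS
    rw [← hV m]
    exact h1 m
  have g2 : ∀ a, ∃ t : AA n, ∑ m ∈ Fs, V m a = aK t := by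
    have h4 : (F.sum fun _ a => a) = Slc.fn (KK n) e (fun a => ∑ m ∈ Fs, V m a) := by
      rw [v1c_fn_sum]
      rw [Finsupp.sum]
      have h5 : ∑ m ∈ F.support, F m = ∑ m ∈ Fs, F m := by
        apply Finset.sum_subset (Finset.subset_insert _ _)
        intro m _ hm
        exact Finsupp.notMem_support_iff.1 hm
      rw [h5]
      exact Finset.sum_congr rfl fun m _ => hV m
    rw [h4, hS.reg Q] at h2
    intro a
    exact mem_AK.1 (h2 a)
  have g3 : ∀ m ∈ Fs, V m ≠ 0 → D.B m m ≤ D.B l l := by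
    intro m _ hm
    have h4 : F m ≠ 0 := by
      intro h4
      rw [hV m] at h4
      exact hm (hS.inj h4)
    have h5 : (D.B m m).toNat ≤ (D.B l l).toNat := h3 m h4
    have h6 := v1c_B_nonneg D m
    have h7 := v1c_B_nonneg D l
    omega
  have g4 : ∀ a, ∃ t : AA n, aK (D.Eu l) * V l a = aK t := fun a =>
    pb_mat hR0 l Fs V g1 g2 g3 (Finset.mem_insert_self _ _) a
  rw [hV l, ← v1c_fn_smul, hS.reg Q]
  intro a
  exact mem_AK.2 (g4 a)

/-- `fl_mat`, `map_SE` -/
theorem v_fl (hR : ∀ E : Rep G, Nonempty (RF D (SE Db cA E))) (E : Rep G) (l : Fin n → ℤ) :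
    ∃ (N : ℕ) (e : Fin N → E.ι → KK n) (c : Fin N → (E.ι → KK n) →ₗ[KK n] KK n),
    (∀ j, (∀ a, e j a ∈ (tqd G D Db cA).A) ∧
      ((tqd G D Db cA).sE E).mulVec (e j) = (tqd G D Db cA).val l • e j) ∧
    ∀ v : E.ι → KK n, ((tqd G D Db cA).sE E).mulVec v = (tqd G D Db cA).val l • v →
      (v = ∑ j, c j v • e j) ∧
      ((∀ a, v a ∈ (tqd G D Db cA).A) → ∀ j, c j v ∈ (tqd G D Db cA).A) := by
  obtain ⟨hR0⟩ := hR E
  obtain ⟨N, e, c, h1, h2⟩ := fl_mat hR0 l
  rw [map_SE (D := D)] at h2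
  refine ⟨N, fun j a => aK (e j a), c, fun j => ⟨fun a => aK_mem _, ?_⟩, fun v hv => ⟨?_, ?_⟩⟩
  · have h3 := h1 j
    unfold Eig at h3
    rw [← map_SE (D := D)]
    funext a
    have h4 := congrArg (fun t : AA n => (aK t : KK n)) (congrFun h3 a)
    simp only [Matrix.mulVec, dotProduct, map_sum, map_mul, Pi.smul_apply, smul_eq_mul] at h4
    simp only [Matrix.mulVec, dotProduct, Matrix.map_apply, Pi.smul_apply, smul_eq_mul]
    exact h4
  · funext a
    rw [(h2 v hv).1 a, Finset.sum_apply]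
    rfl
  · intro hA j
    obtain ⟨t, ht⟩ := (h2 v hv).2 (fun a => mem_AK.1 (hA a)) j
    exact mem_AK.2 ⟨t, ht⟩

/-- The multi-leg function with coordinates `T`: `k ↦ ∑_x T x ∏_l e_l (x l) (k l)` (`pu`). -/
noncomputable def mfn {L : Type} [Fintype L] [DecidableEq L] (E : L → Rep G)
    (e : (l : L) → (E l).ι → G.O) (T : ((l : L) → (E l).ι) → KK n) : (G.pow L).KO (KK n) :=
  ∑ x : ((l : L) → (E l).ι), T x • ∏ l, pu (KK n) l (inc (KK n) (e l (x l)))

theorem mfn_apply {L : Type} [Fintype L] [DecidableEq L] (E : L → Rep G)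
    (e : (l : L) → (E l).ι → G.O) (T : ((l : L) → (E l).ι) → KK n) (k : L → G.X) :
    (mfn E e T).1 k = ∑ x : ((l : L) → (E l).ι), T x *
      ∏ l, algebraMap ℂ (KK n) ((e l (x l)).1 (k l)) := by
  unfold mfn
  rw [KO_sum]
  refine Finset.sum_congr rfl fun x _ => ?_
  rw [KO_smul, KO_prod]
  rfl

/-- the vector of the slice -/
noncomputable def v1d_u {L : Type} [Fintype L] [DecidableEq L] (E : L → Rep G)
    (e : (l : L) → (E l).ι → G.O) (T : ((l : L) → (E l).ι) → KK n) (k : L → G.X) (l : L) :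
    (E l).ι → KK n := fun y => ∑ x : ((l : L) → (E l).ι), if x l = y then
      T x * ∏ i ∈ Finset.univ.erase l, algebraMap ℂ (KK n) ((e i (x i)).1 (k i)) else 0

theorem v1d_sl {L : Type} [Fintype L] [DecidableEq L] (E : L → Rep G)
    (e : (l : L) → (E l).ι → G.O) (T : ((l : L) → (E l).ι) → KK n) (k : L → G.X) (l : L) :
    sl (KK n) k l (mfn E e T) = Slc.fn (KK n) (e l) (v1d_u E e T k l) := by
  apply KO_ext
  intro h
  rw [sl_apply, mfn_apply, v1b_fn_apply]
  unfold v1d_u
  simp only [Finset.sum_mul, ite_mul, zero_mul]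
  rw [Finset.sum_comm]
  refine Finset.sum_congr rfl fun x _ => ?_
  rw [Finset.sum_ite_eq Finset.univ (x l), if_pos (Finset.mem_univ _)]
  rw [← Finset.mul_prod_erase Finset.univ _ (Finset.mem_univ l)]
  have h1 : ∏ i ∈ Finset.univ.erase l, algebraMap ℂ (KK n) ((e i (x i)).1 (Function.update k l h i)) =
      ∏ i ∈ Finset.univ.erase l, algebraMap ℂ (KK n) ((e i (x i)).1 (k i)) := by
    refine Finset.prod_congr rfl fun i hi => ?_
    rw [Function.update_of_ne (Finset.ne_of_mem_erase hi)]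
  rw [h1, Function.update_self]
  ring

/-- the flip `(x, y) ↦ (update x l y, x l)` -/
def v1d_flip {L : Type} [DecidableEq L] (ι : L → Type) (l : L) :
    (((i : L) → ι i) × ι l) ≃ (((i : L) → ι i) × ι l) where
  toFun p := (Function.update p.1 l p.2, p.1 l)
  invFun p := (Function.update p.1 l p.2, p.1 l)
  left_inv p := by
    refine Prod.ext ?_ ?_
    · show Function.update (Function.update p.1 l p.2) l (p.1 l) = p.1
      rw [Function.update_idem, Function.update_eq_self]
    · show Function.update p.1 l p.2 l = p.2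
      rw [Function.update_self]
  right_inv p := by
    refine Prod.ext ?_ ?_
    · show Function.update (Function.update p.1 l p.2) l (p.1 l) = p.1
      rw [Function.update_idem, Function.update_eq_self]
    · show Function.update p.1 l p.2 l = p.2
      rw [Function.update_self]

/-- The derivative in the leg `l` acts on the coordinates by `s_{E l}` in the index `l` (`derK_emb`, `Slc.s1` for the slice
`h ↦ mfn .. (update k l h)`, which is `Slc.fn (e l)` of the vector `y ↦ ∑_{x, x l = y} ..`; `Function.update`). -/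
theorem mfn_s {L : Type} [Fintype L] [DecidableEq L] (E : L → Rep G)
    (e : (l : L) → (E l).ι → G.O) (he : ∀ l, Slc (E l) (e l)) (T : ((l : L) → (E l).ι) → KK n)
    (l : L) : (tqd G D Db cA).s l (mfn E e T) = mfn E e fun x =>
      ∑ y, (tqd G D Db cA).sE (E l) (x l) y * T (Function.update x l y) := by
  classical
  set Q := tqd G D Db cA with hQ
  apply KO_ext
  intro k
  have h1 : (Q.s l (mfn E e T)).1 k = (Q.s1 (sl (KK n) k l (mfn E e T))).1 (k l) := by
    unfold TQD.s TQD.s1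
    rw [LinearMap.sum_apply, LinearMap.sum_apply, KO_sum, KO_sum]
    refine Finset.sum_congr rfl fun j _ => ?_
    rw [LinearMap.smul_apply, LinearMap.smul_apply, KO_smul, KO_smul, derK_emb]
  rw [h1, v1d_sl, (he l).s1 Q, v1b_fn_apply, mfn_apply]
  have h2 : ∀ y, (Q.sE (E l)).mulVec (v1d_u E e T k l) y *
      algebraMap ℂ (KK n) ((e l y).1 (k l)) = ∑ x : ((l : L) → (E l).ι), Q.sE (E l) y (x l) * (T x *
        ∏ i ∈ Finset.univ.erase l, algebraMap ℂ (KK n) ((e i (x i)).1 (k i))) *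
        algebraMap ℂ (KK n) ((e l y).1 (k l)) := by
    intro y
    rw [← Finset.sum_mul]
    congr 1
    unfold v1d_u
    simp only [Matrix.mulVec, dotProduct, Finset.mul_sum, mul_ite, mul_zero]
    rw [Finset.sum_comm]
    refine Finset.sum_congr rfl fun x _ => ?_
    rw [Finset.sum_ite_eq Finset.univ (x l), if_pos (Finset.mem_univ _)]
  simp only [h2, Finset.sum_mul]
  rw [Finset.sum_comm, ← Fintype.sum_prod_type', ← Fintype.sum_prod_type']
  refine Fintype.sum_equiv (v1d_flip (fun i => (E i).ι) l) _ _ fun p => ?_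
  obtain ⟨x, y⟩ := p
  show Q.sE (E l) y (x l) * (T x *
        ∏ i ∈ Finset.univ.erase l, algebraMap ℂ (KK n) ((e i (x i)).1 (k i))) *
        algebraMap ℂ (KK n) ((e l y).1 (k l)) =
    Q.sE (E l) (Function.update x l y l) (x l) *
      T (Function.update (Function.update x l y) l (x l)) *
      ∏ i, algebraMap ℂ (KK n) ((e i (Function.update x l y i)).1 (k i))
  rw [Function.update_idem, Function.update_eq_self,
    ← Finset.mul_prod_erase Finset.univ _ (Finset.mem_univ l), Function.update_self]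
  have h3 : ∏ i ∈ Finset.univ.erase l,
      algebraMap ℂ (KK n) ((e i (Function.update x l y i)).1 (k i)) =
      ∏ i ∈ Finset.univ.erase l, algebraMap ℂ (KK n) ((e i (x i)).1 (k i)) := by
    refine Finset.prod_congr rfl fun i hi => ?_
    rw [Function.update_of_ne (Finset.ne_of_mem_erase hi)]
  rw [h3]
  ring

theorem v1e_slice (l : Fin n → ℤ) (f : G.KO (KK n))
    (hf1 : (tqd G D Db cA).s1 f = (tqd G D Db cA).val l • f) (hf2 : (tqd G D Db cA).Reg f) :
    ∃ (E : Rep G) (e : E.ι → G.O) (r : E.ι → AA n), Slc E e ∧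
      f = Slc.fn (KK n) e (fun b => aK (r b)) ∧ Eig (SE Db cA E) l r := by
  obtain ⟨E, e, hS, hv⟩ := exists_slice ({f} : Finset (G.KO (KK n)))
  obtain ⟨v, hv⟩ := hv _ (Finset.mem_singleton_self _)
  have h1 := hf2
  rw [hv, hS.reg (tqd G D Db cA)] at h1
  have h2 : ∀ b, ∃ t : AA n, v b = aK t := fun b => mem_AK.1 (h1 b)
  choose r hr using h2
  have h3 : v = fun b => aK (r b) := funext hr
  refine ⟨E, e, r, hS, hv.trans (by rw [h3]), ?_⟩
  rw [hv] at hf1
  have h4 := v1c_eig (tqd G D Db cA) hS hf1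
  rw [← map_SE (D := D)] at h4
  funext a
  apply aK_inj
  have h5 := congrFun h4 a
  simp only [Matrix.mulVec, dotProduct, Matrix.map_apply, Pi.smul_apply, smul_eq_mul, hr] at h5
  simp only [Matrix.mulVec, dotProduct, Pi.smul_apply, smul_eq_mul, map_sum, map_mul]
  exact h5

theorem v1e_w_alg (w : D.W) (z : ℂ) : w • (algebraMap ℂ (KK n) z) = algebraMap ℂ (KK n) z := by
  rw [algebraMap_KK, smul_aK, D.smul_C]

theorem v1e_w_prod {κ : Type} (s : Finset κ) (w : D.W) (f : κ → ℂ) :
    w • (∏ i ∈ s, algebraMap ℂ (KK n) (f i)) = ∏ i ∈ s, algebraMap ℂ (KK n) (f i) := by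
  rw [← map_prod, v1e_w_alg]

/-- the expansion of the product -/
theorem v1e_expand {L : Type} [Fintype L] [DecidableEq L] (E : L → Rep G)
    (e : (l : L) → (E l).ι → G.O) (r : (l : L) → (E l).ι → AA n) (a : AA n) (k : L → G.X) :
    (aK a : KK n) * ∏ i, (Slc.fn (KK n) (e i) (fun b => aK (r i b))).1 (k i) =
      ∑ x : ((l : L) → (E l).ι), aK (a * ∏ i, r i (x i)) *
        ∏ i, algebraMap ℂ (KK n) ((e i (x i)).1 (k i)) := by
  simp only [v1b_fn_apply]
  rw [Finset.prod_univ_sum, Finset.mul_sum, Fintype.piFinset_univ]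
  refine Finset.sum_congr rfl fun x _ => ?_
  rw [Finset.prod_mul_distrib, map_mul, map_prod, mul_assoc]

/-- `exists_slice` for every `f i` gives `E i`, `e i`, and `f i = fn (r i)`, `r i` regular (`Slc.reg`) of weight `l`
(`Slc.s1`, `Slc.inj`); `sl_mat` with `s i = SE (E i)`, `ev i = r i`; `T.coeff m = mfn E e (T m)` (`Finsupp` with support in
`Fs`).  `Fam.wt`: `mfn_s`; `Fam.inv`, `reg0`: `mfn_apply`; leading coefficient: `mfn_apply`, expand `∏ (f i) (k i)`
(`Finset.prod_univ_sum`), `Dav` is additive and commutes with constants. -/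
theorem v_sl (hc : ∀ (w : D.W) j, w • cA j = cA j)
    (hR : ∀ E : Rep G, Nonempty (RF D (SE Db cA E))) (L : Type) [Finite L] [Fintype L]
    [DecidableEq L] [Nonempty L] (l : Fin n → ℤ) (f : L → G.KO (KK n)) (a : KK n)
    (ha : a ∈ (tqd G D Db cA).A)
    (hf : ∀ i, (tqd G D Db cA).s1 (f i) = (tqd G D Db cA).val l • f i ∧
      (tqd G D Db cA).Reg (f i)) :
    ∃ T : Pool.Agent.MTF.RR G (KK n) (Fin n → ℤ) L, (tqd G D Db cA).Fam 0 (fun _ => true) T ∧
      (tqd G D Db cA).SuppLe l T ∧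
      ∀ k, (T.coeff l).1 k =
        ((tqd G D Db cA).Eu l)⁻¹ * (tqd G D Db cA).Dav l (a * ∏ i, (f i).1 (k i)) := by
  classical
  obtain ⟨a0, rfl⟩ := mem_AK.1 ha
  choose E e r hS hr hE using fun i => v1e_slice Db cA l (f i) (hf i).1 (hf i).2
  obtain ⟨Fs, T, t1, t2, t3, t4, t5, t6⟩ := sl_mat (D := D) (fun i => SE Db cA (E i))
    (fun i u a b => SE_W Db cA hc (E i) u a b) (fun i => hR (E i)) l r hE a0
  have hmem : ∀ m, mfn E e (T m) ≠ 0 → m ∈ Fs := by
    intro m hm
    by_contra h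
    apply hm
    apply KO_ext
    intro k
    rw [mfn_apply, KO_zero]
    refine Finset.sum_eq_zero fun x _ => ?_
    rw [t1 m h x, zero_mul]
  refine ⟨AddMonoidAlgebra.ofCoeff (Finsupp.onFinset Fs (fun m => mfn E e (T m)) hmem), ?_, ?_, ?_⟩
  · refine ⟨?_, ?_, ?_, ?_⟩
    · intro m l'
      show (tqd G D Db cA).s l' (mfn E e (T m)) =
        (tqd G D Db cA).val ((1 : ℤ) • m) • mfn E e (T m)
      rw [mfn_s Db cA E e hS]
      apply KO_ext
      intro k
      rw [KO_smul, mfn_apply, mfn_apply, Finset.mul_sum, one_smul]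
      refine Finset.sum_congr rfl fun x _ => ?_
      rw [← mul_assoc]
      congr 1
      rw [← map_SE (D := D)]
      exact t4 m x l'
    · intro w m
      show Pool.Agent.MTF.wO _ w (mfn E e (T m)) = mfn E e (T (w.1 m))
      apply KO_ext
      intro k
      rw [Pool.Agent.MTF.wO_apply, mfn_apply, mfn_apply, Finset.smul_sum]
      refine Finset.sum_congr rfl fun x _ => ?_
      rw [smul_mul', v1e_w_prod, ← t3 w m x]
      rfl
    · intro _ k
      have h1 : (Pool.Agent.MTF.tot (AddMonoidAlgebra.ofCoeff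
          (Finsupp.onFinset Fs (fun m => mfn E e (T m)) hmem) :
          Pool.Agent.MTF.RR G (KK n) (Fin n → ℤ) L)).1 k =
          ∑ x : ((l : L) → (E l).ι), (∑ m ∈ Fs, T m x) *
            ∏ i, algebraMap ℂ (KK n) ((e i (x i)).1 (k i)) := by
        unfold Pool.Agent.MTF.tot
        rw [Finsupp.sum]
        have h2 : ∑ m ∈ (AddMonoidAlgebra.ofCoeff (Finsupp.onFinset Fs (fun m => mfn E e (T m)) hmem) :
          Pool.Agent.MTF.RR G (KK n) (Fin n → ℤ) L).coeff.support,
            (AddMonoidAlgebra.ofCoeff (Finsupp.onFinset Fs (fun m => mfn E e (T m)) hmem) :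
          Pool.Agent.MTF.RR G (KK n) (Fin n → ℤ) L).coeff m = ∑ m ∈ Fs, mfn E e (T m) := by
          apply Finset.sum_subset
          · intro m hm
            exact hmem m (Finsupp.mem_support_iff.1 hm)
          · intro m _ hm
            exact Finsupp.notMem_support_iff.1 hm
        rw [h2, KO_sum]
        simp only [mfn_apply, Finset.sum_mul]
        rw [Finset.sum_comm]
      rw [h1]
      refine Subalgebra.sum_mem _ fun x _ => Subalgebra.mul_mem _ (mem_AK.2 (t2 x)) ?_
      exact Subalgebra.prod_mem _ fun i _ => Subalgebra.algebraMap_mem _ _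
    · intro m k h
      exact absurd h (lt_irrefl 0)
  · intro m hm
    have h1 : ∃ x, T m x ≠ 0 := by
      by_contra h
      push Not at h
      apply hm
      show mfn E e (T m) = 0
      apply KO_ext
      intro k
      rw [mfn_apply, KO_zero]
      refine Finset.sum_eq_zero fun x _ => ?_
      rw [h x, zero_mul]
    obtain ⟨x, hx⟩ := h1
    rcases t5 m x hx with ⟨w, hw⟩ | h2
    · exact Or.inl ⟨w, hw⟩
    · right
      show (D.B m m).toNat < (D.B l l).toNat
      have h6 := v1c_B_nonneg D m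
      omega
  · intro k
    show (mfn E e (T l)).1 k = (aK (D.Eu l))⁻¹ * ((aK (D.PI0 l))⁻¹ * _)
    have hE0 : (aK (D.Eu l) : KK n) ≠ 0 := aK_ne_zero (D.Eu_ne l)
    have hP0 : (aK (D.PI0 l) : KK n) ≠ 0 := aK_ne_zero (D.PI0_ne l)
    rw [← mul_assoc, ← mul_inv, eq_inv_mul_iff_mul_eq₀ (mul_ne_zero hE0 hP0), mfn_apply,
      Finset.mul_sum]
    have h1 : ∀ i, f i = Slc.fn (KK n) (e i) (fun b => aK (r i b)) := hr
    simp only [h1]
    rw [v1e_expand]
    have h2 : ∀ x : ((l : L) → (E l).ι), aK (D.Eu l) * aK (D.PI0 l) * (T l x *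
        ∏ i, algebraMap ℂ (KK n) ((e i (x i)).1 (k i))) = ∑ u : D.W, (if u.1 l = l then
        aK ((((D.sgn u : ℤˣ) : ℤ) : AA n) * (u • (a0 * ∏ i, r i (x i)))) else 0) *
        ∏ i, algebraMap ℂ (KK n) ((e i (x i)).1 (k i)) := by
      intro x
      rw [← Finset.sum_mul, ← t6 x, map_mul]
      ring
    simp only [h2]
    rw [Finset.sum_comm]
    refine Finset.sum_congr rfl fun u _ => ?_
    by_cases hu : u.1 l = l
    · have hu' : u • l = l := hu
      rw [if_pos hu', Finset.smul_sum, Finset.mul_sum]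
      refine Finset.sum_congr rfl fun x _ => ?_
      have h3 : u • ((aK (a0 * ∏ i, r i (x i)) : KK n) *
          ∏ i, algebraMap ℂ (KK n) ((e i (x i)).1 (k i))) =
          aK (u • (a0 * ∏ i, r i (x i))) * ∏ i, algebraMap ℂ (KK n) ((e i (x i)).1 (k i)) := by
        rw [smul_mul', v1e_w_prod, smul_aK]
      rw [if_pos hu, h3, map_mul, map_intCast]
      show _ = (((D.sgn u : ℤˣ) : ℤ) : KK n) * _
      rw [mul_assoc]
    · have hu' : ¬ u • l = l := hu
      rw [if_neg hu']
      refine Finset.sum_eq_zero fun x _ => ?_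
      rw [if_neg hu, zero_mul]

end

end Pool.Agent.MTG
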