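import Pool.Agent.MTG.GV1

/-! # MTG, Part V : every representation is a retract of a sum of tensor products of generating ones -/

namespace Pool.Agent.MTG

open MvPolynomial
open Pool.Agent.MTX.SLD (RR AA fm fm0 fm0_add fm0_smul fm0_zero fm0_neg fm0_sub fm0_ne_zero fm0_prime)
open RD
open Pool.Agent.MTF (AffGrp TQD TQ Rep Rep.co)
open Pool.Agent.MTF.AffGrp

section
variable {G : AffGrp}

/-- the trivial representation -/
def repOne (G : AffGrp) : Rep G where
  ι := Unit
  ρ := 1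
  mem a b := by
    have h : (fun x : G.X => (1 : G.X →* Matrix Unit Unit ℂ) x a b) = 1 := by
      funext x
      show (1 : Matrix Unit Unit ℂ) a b = 1
      rw [Subsingleton.elim a b, Matrix.one_apply_eq]
    rw [h]
    exact G.O.one_mem

/-- the tensor product -/
def repTen (E F : Rep G) : Rep G where
  ι := E.ι × F.ι
  ρ :=
    { toFun := fun x => Matrix.of fun p q => E.ρ x p.1 q.1 * F.ρ x p.2 q.2
      map_one' := by
        ext p q
        rw [map_one, map_one]
        simp only [Matrix.of_apply, Matrix.one_apply, Prod.ext_iff]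
        split_ifs <;> simp_all
      map_mul' := by
        intro x y
        ext p q
        rw [map_mul, map_mul]
        simp only [Matrix.of_apply, Matrix.mul_apply, Fintype.sum_prod_type, Finset.sum_mul_sum]
        refine Finset.sum_congr rfl fun i _ => Finset.sum_congr rfl fun j _ => by ring }
  mem p q := G.O.mul_mem (E.mem p.1 q.1) (F.mem p.2 q.2)

theorem repTen_co (E F : Rep G) (p q : E.ι × F.ι) :
    (repTen E F).co p q = E.co p.1 q.1 * F.co p.2 q.2 := rfl

variable {κ : Type} (V : κ → Rep G)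

/-- tensor product over a list -/
def repL : List κ → Rep G
  | [] => repOne G
  | k :: l => repTen (V k) (repL l)

theorem V2a_ext {f g : G.O} (h : ∀ x, f.1 x = g.1 x) : f = g := Subtype.ext (funext h)

theorem V2a_sum {κ' : Type} (s : Finset κ') (F : κ' → G.O) (x : G.X) :
    (∑ i ∈ s, F i).1 x = ∑ i ∈ s, (F i).1 x := by
  classical
  induction s using Finset.induction_on with
  | empty =>
    rw [Finset.sum_empty, Finset.sum_empty]
    rfl
  | insert a s ha ih =>
    rw [Finset.sum_insert ha, Finset.sum_insert ha, ← ih]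
    rfl

/-- products of coefficients of tensor products -/
theorem V2a_mul (l l' : List κ) (a b : (repL V l).ι) (a' b' : (repL V l').ι) :
    ∃ a'' b'' : (repL V (l ++ l')).ι,
      (repL V l).co a b * (repL V l').co a' b' = (repL V (l ++ l')).co a'' b'' := by
  induction l with
  | nil =>
    refine ⟨a', b', ?_⟩
    have h1 : (repL V []).co a b = 1 := by
      apply V2a_ext
      intro x
      show (1 : Matrix Unit Unit ℂ) () () = 1
      exact Matrix.one_apply_eq ()
    rw [h1, one_mul]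
    rfl
  | cons k l ih =>
    obtain ⟨a'', b'', h⟩ := ih a.2 b.2
    refine ⟨(a.1, a''), (b.1, b''), ?_⟩
    show (V k).co a.1 b.1 * (repL V l).co a.2 b.2 * (repL V l').co a' b' =
      (V k).co a.1 b.1 * (repL V (l ++ l')).co a'' b''
    rw [mul_assoc, h]

theorem V2a_span (hg : Algebra.adjoin ℂ {f : G.O | ∃ k a b, f = (V k).co a b} = ⊤) (f : G.O) :
    f ∈ Submodule.span ℂ {f : G.O | ∃ l a b, f = (repL V l).co a b} := by
  have hone : (1 : G.O) ∈ Submodule.span ℂ {f : G.O | ∃ l a b, f = (repL V l).co a b} := by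
    refine Submodule.subset_span ⟨[], (), (), ?_⟩
    apply V2a_ext
    intro x
    show (1 : ℂ) = (1 : Matrix Unit Unit ℂ) () ()
    rw [Matrix.one_apply_eq]
  have hf : f ∈ Algebra.adjoin ℂ {f : G.O | ∃ k a b, f = (V k).co a b} := by
    rw [hg]
    exact Algebra.mem_top
  induction hf using Algebra.adjoin_induction with
  | mem f hf =>
    obtain ⟨k, a, b, rfl⟩ := hf
    refine Submodule.subset_span ⟨[k], (a, ()), (b, ()), ?_⟩
    apply V2a_ext
    intro x
    show (V k).ρ x a b = (V k).ρ x a b * (1 : Matrix Unit Unit ℂ) () ()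
    rw [Matrix.one_apply_eq, mul_one]
  | algebraMap c =>
    rw [Algebra.algebraMap_eq_smul_one]
    exact Submodule.smul_mem _ c hone
  | add f g _ _ hf hg => exact Submodule.add_mem _ hf hg
  | mul f g hf' hg' hf hg =>
    clear hf' hg'
    induction hf using Submodule.span_induction with
    | mem f hf =>
      obtain ⟨l, a, b, rfl⟩ := hf
      induction hg using Submodule.span_induction with
      | mem g hg =>
        obtain ⟨l', a', b', rfl⟩ := hg
        obtain ⟨a'', b'', h⟩ := V2a_mul V l l' a b a' b'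
        rw [h]
        exact Submodule.subset_span ⟨_, _, _, rfl⟩
      | zero => rw [mul_zero]; exact Submodule.zero_mem _
      | add g g' _ _ h h' => rw [mul_add]; exact Submodule.add_mem _ h h'
      | smul c g _ h => rw [mul_smul_comm]; exact Submodule.smul_mem _ c h
    | zero => rw [zero_mul]; exact Submodule.zero_mem _
    | add g g' _ _ h h' => rw [add_mul]; exact Submodule.add_mem _ h h'
    | smul c g _ h => rw [smul_mul_assoc]; exact Submodule.smul_mem _ c h

/-- If the coefficients of the `V k` generate `O`, every regular function is a finite combination of coefficients of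
the `repL V l`: the span of these coefficients contains `1`, and is stable under multiplication by the generators
(`repTen_co`), so it contains the subalgebra generated (`Algebra.adjoin_induction`; products of coefficients of `repL l`
and `repL l'` are coefficients of `repL (l ++ l')`, by induction). -/
theorem exists_comb (hg : Algebra.adjoin ℂ {f : G.O | ∃ k a b, f = (V k).co a b} = ⊤) (f : G.O) :
    ∃ (N : ℕ) (l : Fin N → List κ) (a b : (t : Fin N) → (repL V (l t)).ι) (c : Fin N → ℂ),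
      f = ∑ t, c t • (repL V (l t)).co (a t) (b t) := by
  obtain ⟨N, c, g, hf⟩ := Submodule.mem_span_set'.1 (V2a_span V hg f)
  choose l a b h using fun t => (g t).2
  refine ⟨N, l, a, b, c, ?_⟩
  rw [← hf]
  exact Finset.sum_congr rfl fun t _ => by rw [h t]

/-- `ρ_E(x) = ∑_t P_t M_t(x) Q_t`, `M_t = repL V (l t)`: `exists_comb` for all coefficients `E.co a b`, `P_t`, `Q_t` elementary
matrices. -/
theorem exists_PQ (hg : Algebra.adjoin ℂ {f : G.O | ∃ k a b, f = (V k).co a b} = ⊤) (E : Rep G) :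
    ∃ (N : ℕ) (l : Fin N → List κ) (P : (t : Fin N) → Matrix E.ι (repL V (l t)).ι ℂ)
      (Q : (t : Fin N) → Matrix (repL V (l t)).ι E.ι ℂ),
      ∀ x, E.ρ x = ∑ t, P t * (repL V (l t)).ρ x * Q t := by
  classical
  choose N l a b c h using fun p : E.ι × E.ι => exists_comb V hg (E.co p.1 p.2)
  let T := Σ p : E.ι × E.ι, Fin (N p)
  let e : T ≃ Fin (Fintype.card T) := Fintype.equivFin T
  refine ⟨Fintype.card T, fun t => l (e.symm t).1 (e.symm t).2,
    fun t => Matrix.single (e.symm t).1.1 (a (e.symm t).1 (e.symm t).2)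
      (c (e.symm t).1 (e.symm t).2),
    fun t => Matrix.single (b (e.symm t).1 (e.symm t).2) (e.symm t).1.2 1, fun x => ?_⟩
  have h1 : ∀ t : T, Matrix.single t.1.1 (a t.1 t.2) (c t.1 t.2) *
      (repL V (l t.1 t.2)).ρ x * Matrix.single (b t.1 t.2) t.1.2 (1 : ℂ) =
      Matrix.single t.1.1 t.1.2
        (c t.1 t.2 * (repL V (l t.1 t.2)).ρ x (a t.1 t.2) (b t.1 t.2)) := by
    intro t
    rw [Matrix.single_mul_mul_single, mul_one]
  refine Eq.trans ?_ (Equiv.sum_comp e.symm fun t : T =>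
    Matrix.single t.1.1 (a t.1 t.2) (c t.1 t.2) *
      (repL V (l t.1 t.2)).ρ x * Matrix.single (b t.1 t.2) t.1.2 (1 : ℂ)).symm
  simp only [h1]
  rw [Fintype.sum_sigma]
  ext i j
  rw [Matrix.sum_apply, Finset.sum_eq_single (i, j)]
  · rw [Matrix.sum_apply]
    have h2 := congrArg (fun f : G.O => f.1 x) (h (i, j))
    have h3 : E.ρ x i j = (∑ t, c (i, j) t • (repL V (l (i, j) t)).co (a (i, j) t)
        (b (i, j) t)).1 x := h2
    rw [h3, V2a_sum]
    refine Finset.sum_congr rfl fun t _ => ?_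
    rw [Matrix.single_apply_same]
    rfl
  · intro p _ hp
    rw [Matrix.sum_apply]
    refine Finset.sum_eq_zero fun t _ => ?_
    rw [Matrix.single_apply, if_neg]
    rintro ⟨h2, h3⟩
    exact hp (Prod.ext h2 h3)
  · intro hp
    exact absurd (Finset.mem_univ _) hp

/-- The average of a matrix valued regular function. -/
noncomputable def avM (I : Module.Dual ℂ G.O) {α β : Type} (F : α → β → G.O) : Matrix α β ℂ :=
  Matrix.of fun a b => I (F a b)

section V2b
variable (I : Module.Dual ℂ G.O)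

open Classical in
/-- the value of `I` on a function -/
noncomputable def V2b_J (f : G.X → ℂ) : ℂ := if h : f ∈ G.O then I ⟨f, h⟩ else 0

theorem V2b_J_eq {f : G.X → ℂ} (h : f ∈ G.O) : V2b_J I f = I ⟨f, h⟩ := dif_pos h

theorem V2b_J_add {f g : G.X → ℂ} (hf : f ∈ G.O) (hg : g ∈ G.O) :
    V2b_J I (fun x => f x + g x) = V2b_J I f + V2b_J I g := by
  rw [V2b_J_eq I hf, V2b_J_eq I hg, ← map_add]
  exact V2b_J_eq I (G.O.add_mem hf hg)

theorem V2b_J_smul (c : ℂ) {f : G.X → ℂ} (hf : f ∈ G.O) :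
    V2b_J I (fun x => c * f x) = c * V2b_J I f := by
  rw [V2b_J_eq I hf, ← smul_eq_mul, ← map_smul]
  exact V2b_J_eq I (G.O.smul_mem hf c)

theorem V2b_sum_mem {κ' : Type} (t : Finset κ') {f : κ' → G.X → ℂ} (hf : ∀ i, f i ∈ G.O) :
    (fun x => ∑ i ∈ t, f i x) ∈ G.O := by
  have h : (fun x => ∑ i ∈ t, f i x) = ∑ i ∈ t, f i := by
    funext x
    rw [Finset.sum_apply]
  rw [h]
  exact Subalgebra.sum_mem _ fun i _ => hf i

theorem V2b_J_sum {κ' : Type} (t : Finset κ') {f : κ' → G.X → ℂ} (hf : ∀ i, f i ∈ G.O) :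
    V2b_J I (fun x => ∑ i ∈ t, f i x) = ∑ i ∈ t, V2b_J I (f i) := by
  classical
  induction t using Finset.induction_on with
  | empty =>
    simp only [Finset.sum_empty]
    have h : (fun _ => 0 : G.X → ℂ) ∈ G.O := G.O.zero_mem
    rw [V2b_J_eq I h]
    exact map_zero I
  | insert a t ha ih =>
    simp only [Finset.sum_insert ha]
    rw [V2b_J_add I (hf a) (V2b_sum_mem t hf), ih]

/-- regular matrix valued functions -/
def V2b_R {α β : Type} (f : G.X → Matrix α β ℂ) : Prop := ∀ a b, (fun x => f x a b) ∈ G.O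

/-- the average of a matrix valued function -/
noncomputable def V2b_A {α β : Type} (f : G.X → Matrix α β ℂ) : Matrix α β ℂ :=
  Matrix.of fun a b => V2b_J I fun x => f x a b

theorem V2b_R_mul {α β γ : Type} [Fintype β] {f : G.X → Matrix α β ℂ} {g : G.X → Matrix β γ ℂ}
    (hf : V2b_R f) (hg : V2b_R g) : V2b_R (fun x => f x * g x) := by
  intro a b
  simp only [Matrix.mul_apply]
  exact V2b_sum_mem _ fun c => G.O.mul_mem (hf a c) (hg c b)

theorem V2b_R_const {α β : Type} (A : Matrix α β ℂ) : V2b_R (fun _ : G.X => A) :=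
  fun a b => G.O.algebraMap_mem (A a b)

theorem V2b_R_rho (E : Rep G) : V2b_R (fun x => E.ρ x) := fun a b => E.mem a b

theorem V2b_R_inv (E : Rep G) : V2b_R (fun x => E.ρ x⁻¹) := fun a b => G.inv_mem _ (E.mem a b)

theorem V2b_A_left {α β γ : Type} [Fintype β] (A : Matrix α β ℂ) {f : G.X → Matrix β γ ℂ}
    (hf : V2b_R f) : V2b_A I (fun x => A * f x) = A * V2b_A I f := by
  ext a b
  rw [Matrix.mul_apply]
  show V2b_J I (fun x => (A * f x) a b) = ∑ c, A a c * V2b_J I (fun x => f x c b)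
  simp only [Matrix.mul_apply]
  rw [V2b_J_sum I Finset.univ (f := fun c x => A a c * f x c b)
    (fun c => G.O.smul_mem (hf c b) (A a c))]
  exact Finset.sum_congr rfl fun c _ => V2b_J_smul I _ (hf c b)

theorem V2b_A_right {α β γ : Type} [Fintype β] (A : Matrix β γ ℂ) {f : G.X → Matrix α β ℂ}
    (hf : V2b_R f) : V2b_A I (fun x => f x * A) = V2b_A I f * A := by
  ext a b
  rw [Matrix.mul_apply]
  show V2b_J I (fun x => (f x * A) a b) = ∑ c, V2b_J I (fun x => f x a c) * A c b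
  have h : ∀ x, (f x * A) a b = ∑ c, A c b * f x a c := by
    intro x
    rw [Matrix.mul_apply]
    exact Finset.sum_congr rfl fun c _ => mul_comm _ _
  simp only [h]
  rw [V2b_J_sum I Finset.univ (f := fun c x => A c b * f x a c)
    (fun c => G.O.smul_mem (hf a c) (A c b))]
  refine Finset.sum_congr rfl fun c _ => ?_
  rw [V2b_J_smul I _ (hf a c), mul_comm]

theorem V2b_A_sum {α β : Type} {κ' : Type} [Fintype κ'] {f : κ' → G.X → Matrix α β ℂ}
    (hf : ∀ i, V2b_R (f i)) : V2b_A I (fun x => ∑ i, f i x) = ∑ i, V2b_A I (f i) := by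
  ext a b
  rw [Matrix.sum_apply]
  show V2b_J I (fun x => (∑ i, f i x) a b) = ∑ i, V2b_J I (fun x => f i x a b)
  simp only [Matrix.sum_apply]
  exact V2b_J_sum I Finset.univ (f := fun i x => f i x a b) fun i => hf i a b

theorem V2b_A_const {α β : Type} (I1 : I 1 = 1) (A : Matrix α β ℂ) :
    V2b_A I (fun _ : G.X => A) = A := by
  ext a b
  show V2b_J I (fun _ => A a b) = A a b
  have hmem : (fun _ : G.X => A a b) ∈ G.O := G.O.algebraMap_mem (A a b)
  rw [V2b_J_eq I hmem]
  have h : (⟨fun _ => A a b, hmem⟩ : G.O) = A a b • (1 : G.O) := by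
    refine Subtype.ext (funext fun x => ?_)
    show A a b = A a b * 1
    rw [mul_one]
  refine (congrArg I h).trans ?_
  rw [map_smul, I1, smul_eq_mul, mul_one]

theorem V2b_A_lt {α β : Type} (Il : ∀ x f, I (G.lt x f) = I f) (y : G.X)
    {f : G.X → Matrix α β ℂ} (hf : V2b_R f) : V2b_A I (fun x => f (y * x)) = V2b_A I f := by
  ext a b
  show V2b_J I (fun x => f (y * x) a b) = V2b_J I (fun x => f x a b)
  rw [V2b_J_eq I (hf a b), ← Il y ⟨_, hf a b⟩]
  exact V2b_J_eq I (G.left_mem y (hf a b))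

theorem V2b_A_rt {α β : Type} (Ir : ∀ x f, I (G.rt x f) = I f) (y : G.X)
    {f : G.X → Matrix α β ℂ} (hf : V2b_R f) : V2b_A I (fun x => f (x * y)) = V2b_A I f := by
  ext a b
  show V2b_J I (fun x => f (x * y) a b) = V2b_J I (fun x => f x a b)
  rw [V2b_J_eq I (hf a b), ← Ir y ⟨_, hf a b⟩]
  exact V2b_J_eq I (G.right_mem y (hf a b))

end V2b

/-- Averaging.  `P'_t = I_x [E(x)⁻¹ P_t M_t(x)]` satisfies `P'_t M_t(y) = E(y) P'_t` (`rt` invariance) and
`∑ P'_t Q_t = I [E(x)⁻¹ E(x)] = 1`; then `Q'_t = I_x [M_t(x) Q_t E(x)⁻¹]` satisfies `M_t(y) Q'_t = Q'_t E(y)` (`lt` invariance)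
and `∑_t P'_t Q'_t = I [E(x) (∑ P'_t Q_t) E(x)⁻¹] = 1`.  (`E(x)⁻¹ = E.ρ x⁻¹`, with regular entries by `G.inv_mem`.) -/
theorem exists_PQ' (I : Module.Dual ℂ G.O) (I1 : I 1 = 1) (Il : ∀ x f, I (G.lt x f) = I f)
    (Ir : ∀ x f, I (G.rt x f) = I f)
    (hg : Algebra.adjoin ℂ {f : G.O | ∃ k a b, f = (V k).co a b} = ⊤) (E : Rep G) :
    ∃ (N : ℕ) (l : Fin N → List κ) (P : (t : Fin N) → Matrix E.ι (repL V (l t)).ι ℂ)
      (Q : (t : Fin N) → Matrix (repL V (l t)).ι E.ι ℂ),
      (∀ t x, E.ρ x * P t = P t * (repL V (l t)).ρ x) ∧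
      (∀ t x, Q t * E.ρ x = (repL V (l t)).ρ x * Q t) ∧ ∑ t, P t * Q t = 1 := by
  obtain ⟨N, l, P, Q, hPQ⟩ := exists_PQ V hg E
  have hinv : ∀ (F : Rep G) (x : G.X), F.ρ x⁻¹ * F.ρ x = 1 := fun F x => by
    rw [← map_mul, inv_mul_cancel, map_one]
  have hinv' : ∀ (F : Rep G) (x : G.X), F.ρ x * F.ρ x⁻¹ = 1 := fun F x => by
    rw [← map_mul, mul_inv_cancel, map_one]
  let P' : (t : Fin N) → Matrix E.ι (repL V (l t)).ι ℂ := fun t =>
    V2b_A I fun x => E.ρ x⁻¹ * P t * (repL V (l t)).ρ x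
  let Q' : (t : Fin N) → Matrix (repL V (l t)).ι E.ι ℂ := fun t =>
    V2b_A I fun x => (repL V (l t)).ρ x * Q t * E.ρ x⁻¹
  have hRP : ∀ t, V2b_R (fun x => E.ρ x⁻¹ * P t * (repL V (l t)).ρ x) := fun t =>
    V2b_R_mul (V2b_R_mul (V2b_R_inv E) (V2b_R_const (P t))) (V2b_R_rho _)
  have hRQ : ∀ t, V2b_R (fun x => (repL V (l t)).ρ x * Q t * E.ρ x⁻¹) := fun t =>
    V2b_R_mul (V2b_R_mul (V2b_R_rho _) (V2b_R_const (Q t))) (V2b_R_inv E)
  have hP' : ∀ t y, E.ρ y * P' t = P' t * (repL V (l t)).ρ y := by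
    intro t y
    have h1 : P' t = E.ρ y⁻¹ * P' t * (repL V (l t)).ρ y := by
      have h2 : P' t = V2b_A I fun x =>
          E.ρ (x * y)⁻¹ * P t * (repL V (l t)).ρ (x * y) := (V2b_A_rt I Ir y (hRP t)).symm
      have h3 : ∀ x, E.ρ (x * y)⁻¹ * P t * (repL V (l t)).ρ (x * y) =
          E.ρ y⁻¹ * ((E.ρ x⁻¹ * P t * (repL V (l t)).ρ x) * (repL V (l t)).ρ y) := by
        intro x
        rw [mul_inv_rev, map_mul, map_mul]
        simp only [Matrix.mul_assoc]
      simp only [h3] at h2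
      rw [V2b_A_left I (E.ρ y⁻¹) (V2b_R_mul (hRP t) (V2b_R_const _)),
        V2b_A_right I _ (hRP t)] at h2
      rw [Matrix.mul_assoc]
      exact h2
    conv_lhs => rw [h1]
    rw [← Matrix.mul_assoc, ← Matrix.mul_assoc, hinv', Matrix.one_mul]
  have hQ' : ∀ t y, Q' t * E.ρ y = (repL V (l t)).ρ y * Q' t := by
    intro t y
    have h1 : Q' t = (repL V (l t)).ρ y * Q' t * E.ρ y⁻¹ := by
      have h2 : Q' t = V2b_A I fun x =>
          (repL V (l t)).ρ (y * x) * Q t * E.ρ (y * x)⁻¹ := (V2b_A_lt I Il y (hRQ t)).symm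
      have h3 : ∀ x, (repL V (l t)).ρ (y * x) * Q t * E.ρ (y * x)⁻¹ =
          (repL V (l t)).ρ y * (((repL V (l t)).ρ x * Q t * E.ρ x⁻¹) * E.ρ y⁻¹) := by
        intro x
        rw [mul_inv_rev, map_mul, map_mul]
        simp only [Matrix.mul_assoc]
      simp only [h3] at h2
      rw [V2b_A_left I _ (V2b_R_mul (hRQ t) (V2b_R_const _)),
        V2b_A_right I _ (hRQ t)] at h2
      rw [Matrix.mul_assoc]
      exact h2
    conv_lhs => rw [h1]
    rw [Matrix.mul_assoc, hinv, Matrix.mul_one]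
  have hsum : ∑ t, P' t * Q t = 1 := by
    have h1 : ∀ t, P' t * Q t = V2b_A I fun x =>
        E.ρ x⁻¹ * P t * (repL V (l t)).ρ x * Q t := fun t => (V2b_A_right I (Q t) (hRP t)).symm
    simp only [h1]
    rw [← V2b_A_sum I fun t => V2b_R_mul (hRP t) (V2b_R_const (Q t))]
    have h2 : ∀ x, ∑ t, E.ρ x⁻¹ * P t * (repL V (l t)).ρ x * Q t = 1 := by
      intro x
      have h3 : ∀ t, E.ρ x⁻¹ * P t * (repL V (l t)).ρ x * Q t =
          E.ρ x⁻¹ * (P t * (repL V (l t)).ρ x * Q t) := by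
        intro t
        simp only [Matrix.mul_assoc]
      simp only [h3]
      rw [← Matrix.mul_sum, ← hPQ x, hinv]
    simp only [h2]
    exact V2b_A_const I I1 1
  refine ⟨N, l, P', Q', hP', hQ', ?_⟩
  have h1 : ∀ t, P' t * Q' t = V2b_A I fun x =>
      P' t * ((repL V (l t)).ρ x * Q t * E.ρ x⁻¹) := fun t => (V2b_A_left I (P' t) (hRQ t)).symm
  simp only [h1]
  rw [← V2b_A_sum I fun t => V2b_R_mul (V2b_R_const (P' t)) (hRQ t)]
  have h2 : ∀ x, ∑ t, P' t * ((repL V (l t)).ρ x * Q t * E.ρ x⁻¹) = 1 := by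
    intro x
    have h3 : ∀ t, P' t * ((repL V (l t)).ρ x * Q t * E.ρ x⁻¹) =
        E.ρ x * (P' t * Q t) * E.ρ x⁻¹ := by
      intro t
      rw [← Matrix.mul_assoc, ← Matrix.mul_assoc, ← hP']
      simp only [Matrix.mul_assoc]
    simp only [h3]
    rw [← Matrix.sum_mul, ← Matrix.mul_sum, hsum, Matrix.mul_one, hinv']
  simp only [h2]
  exact V2b_A_const I I1 1

end

section
variable {n : ℕ} {D : RD n} {G : AffGrp} {r : ℕ} (Db : Module.Basis (Fin r) ℂ G.Lie)
  (cA : Fin r → AA n)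

theorem V2c_ext {G : AffGrp} {f g : G.O} (h : ∀ x, f.1 x = g.1 x) : f = g :=
  Subtype.ext (funext h)

theorem V2c_sum {G : AffGrp} {κ' : Type} (s : Finset κ') (F : κ' → G.O) (x : G.X) :
    (∑ i ∈ s, F i).1 x = ∑ i ∈ s, (F i).1 x := by
  classical
  induction s using Finset.induction_on with
  | empty =>
    rw [Finset.sum_empty, Finset.sum_empty]
    rfl
  | insert a s ha ih =>
    rw [Finset.sum_insert ha, Finset.sum_insert ha, ← ih]
    rfl

/-- A matrix intertwining the representations intertwines `s`: compare the coefficients (elements of `G.O`), apply the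
point derivations `Db j`. -/
theorem SE_comm (E F : Rep G) (P : Matrix E.ι F.ι ℂ) (h : ∀ x, E.ρ x * P = P * F.ρ x) :
    SE Db cA E * P.map MvPolynomial.C = P.map MvPolynomial.C * SE Db cA F := by
  refine Matrix.ext fun a b => ?_
  show ∑ c, SE Db cA E a c * (P.map MvPolynomial.C) c b =
    ∑ c, (P.map MvPolynomial.C) a c * SE Db cA F c b
  have h1 : ∑ c, P c b • E.co a c = ∑ c, P a c • F.co c b := by
    apply V2c_ext
    intro x
    rw [V2c_sum, V2c_sum]
    have h2 := congrFun (congrFun (h x) a) b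
    rw [Matrix.mul_apply, Matrix.mul_apply] at h2
    refine Eq.trans (Finset.sum_congr rfl fun c _ => ?_) h2
    exact mul_comm _ _
  have hL : ∑ c, SE Db cA E a c * (P.map MvPolynomial.C) c b =
      ∑ j, cA j * MvPolynomial.C ((Db j).1 (∑ c, P c b • E.co a c)) := by
    unfold SE
    simp only [Finset.sum_mul, map_sum, map_smul, Finset.mul_sum, smul_eq_mul,
      MvPolynomial.C_mul, Matrix.map_apply]
    rw [Finset.sum_comm]
    exact Finset.sum_congr rfl fun j _ => Finset.sum_congr rfl fun c _ => by ring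
  have hR : ∑ c, (P.map MvPolynomial.C) a c * SE Db cA F c b =
      ∑ j, cA j * MvPolynomial.C ((Db j).1 (∑ c, P a c • F.co c b)) := by
    unfold SE
    simp only [map_sum, map_smul, Finset.mul_sum, smul_eq_mul,
      MvPolynomial.C_mul, Matrix.map_apply]
    rw [Finset.sum_comm]
    exact Finset.sum_congr rfl fun j _ => Finset.sum_congr rfl fun c _ => by ring
  rw [hL, hR, h1]

/-- `Db j 1 = 0` -/
theorem SE_one : SE Db cA (repOne G) = 0 := by
  refine Matrix.ext fun a b => ?_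
  show ∑ j, cA j * MvPolynomial.C ((Db j).1 ((repOne G).co a b)) = 0
  refine Finset.sum_eq_zero fun j _ => ?_
  have h1 : (repOne G).co a b = 1 := by
    apply V2c_ext
    intro x
    show (1 : Matrix Unit Unit ℂ) () () = 1
    exact Matrix.one_apply_eq ()
  have h2 : (Db j).1 (1 : G.O) = 0 := by
    have h3 := (Db j).2 1 1
    have h4 : (1 : G.O).1 1 = 1 := rfl
    rw [mul_one, h4] at h3
    linear_combination -h3
  rw [h1, h2, MvPolynomial.C_0, mul_zero]

/-- Leibniz rule at `1` (`E.co a b` at `1` is `δ_ab`). -/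
theorem SE_ten (E F : Rep G) : SE Db cA (repTen E F) = tenS (SE Db cA E) (SE Db cA F) := by
  funext p q
  show ∑ j, cA j * MvPolynomial.C ((Db j).1 (E.co p.1 q.1 * F.co p.2 q.2)) =
    (∑ j, cA j * MvPolynomial.C ((Db j).1 (E.co p.1 q.1))) * (if p.2 = q.2 then 1 else 0) +
    (if p.1 = q.1 then 1 else 0) * ∑ j, cA j * MvPolynomial.C ((Db j).1 (F.co p.2 q.2))
  have hE : (E.co p.1 q.1).1 1 = if p.1 = q.1 then 1 else 0 := by
    show E.ρ 1 p.1 q.1 = _
    rw [map_one, Matrix.one_apply]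
  have hF : (F.co p.2 q.2).1 1 = if p.2 = q.2 then 1 else 0 := by
    show F.ρ 1 p.2 q.2 = _
    rw [map_one, Matrix.one_apply]
  have h1 : ∀ j, (Db j).1 (E.co p.1 q.1 * F.co p.2 q.2) =
      (if p.1 = q.1 then 1 else 0) * (Db j).1 (F.co p.2 q.2) +
      (if p.2 = q.2 then 1 else 0) * (Db j).1 (E.co p.1 q.1) := by
    intro j
    have h2 := (Db j).2 (E.co p.1 q.1) (F.co p.2 q.2)
    rw [hE, hF] at h2
    exact h2
  simp only [h1]
  rw [Finset.sum_mul, Finset.mul_sum, ← Finset.sum_add_distrib]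
  refine Finset.sum_congr rfl fun j _ => ?_
  rw [MvPolynomial.C_add, MvPolynomial.C_mul, MvPolynomial.C_mul]
  split_ifs <;> simp only [MvPolynomial.C_0, MvPolynomial.C_1] <;> ring

/-- `RF_one`, `RF_ten` -/
theorem rf_repL {κ : Type} (V : κ → Rep G) (hc : ∀ (w : D.W) j, w • cA j = cA j)
    (hV : ∀ k, Nonempty (RF D (SE Db cA (V k)))) (l : List κ) :
    Nonempty (RF D (SE Db cA (repL V l))) := by
  induction l with
  | nil =>
    show Nonempty (RF D (SE Db cA (repOne G)))
    rw [SE_one]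
    exact RF_one
  | cons k l ih =>
    show Nonempty (RF D (SE Db cA (repTen (V k) (repL V l))))
    rw [SE_ten]
    obtain ⟨h1⟩ := hV k
    obtain ⟨h2⟩ := ih
    exact RF_ten h1 h2 fun u a b => SE_W Db cA hc (repL V l) u a b

/-- All representations: `exists_PQ'`, `RF_retract`. -/
theorem rf_all {κ : Type} (V : κ → Rep G) (hc : ∀ (w : D.W) j, w • cA j = cA j)
    (hV : ∀ k, Nonempty (RF D (SE Db cA (V k))))
    (hg : Algebra.adjoin ℂ {f : G.O | ∃ k a b, f = (V k).co a b} = ⊤)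
    (hI : ∃ I : Module.Dual ℂ G.O, I 1 = 1 ∧ (∀ x f, I (G.lt x f) = I f) ∧
      ∀ x f, I (G.rt x f) = I f) (E : Rep G) : Nonempty (RF D (SE Db cA E)) := by
  obtain ⟨I, I1, Il, Ir⟩ := hI
  obtain ⟨N, l, P, Q, hP, hQ, h1⟩ := exists_PQ' V I I1 Il Ir hg E
  exact RF_retract (K := Fin N) (t := fun k => SE Db cA (repL V (l k)))
    (fun k => rf_repL Db cA V hc hV (l k)) P Q
    (fun k => SE_comm Db cA E (repL V (l k)) (P k) (hP k))
    (fun k => (SE_comm Db cA (repL V (l k)) E (Q k) fun x => (hQ k x).symm).symm) h1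

/-- Change of basis: a constant invertible matrix intertwining (`RF_retract` with one summand). -/
theorem rf_conj {I J : Type} [Fintype I] [DecidableEq I] [Fintype J] [DecidableEq J]
    {s : Matrix I I (AA n)} {t : Matrix J J (AA n)} (h : Nonempty (RF D t))
    (P : Matrix I J ℂ) (Q : Matrix J I ℂ) (hPQ : P * Q = 1)
    (hP : s * P.map MvPolynomial.C = P.map MvPolynomial.C * t)
    (hQ : Q.map MvPolynomial.C * s = t * Q.map MvPolynomial.C) : Nonempty (RF D s) := by
  refine RF_retract (K := Unit) (J := fun _ => J) (t := fun _ => t) (fun _ => h) (fun _ => P)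
    (fun _ => Q) (fun _ => hP) (fun _ => hQ) ?_
  rw [Fintype.sum_unique]
  exact hPQ

end

/-! ### minuscule and quasi-minuscule weights generate -/

namespace RD
variable {n : ℕ} (D : RD n)

/-- Every `λ ∈ X` is `l' + q` with `q` in the root lattice, `l'` conjugate to a minuscule weight: choose `l' ∈ λ + Q` of
minimal norm; if `cp γ l' ≥ 2` for some root then `|l' - γ|² = |l'|² - B(γ,γ) (cp γ l' - 1) < |l'|²`. -/
theorem exists_mnu (lam : Fin n → ℤ) : ∃ (l : Fin n → ℤ) (u : D.W), D.Mnu l ∧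
    lam - u.1 l ∈ D.Q := by
  classical
  -- an element of the coset of minimal norm
  let S : Set (Fin n → ℤ) := {x | x - lam ∈ D.Q}
  have hS : ∃ m : ℕ, ∃ x ∈ S, (D.B x x).toNat = m := ⟨_, lam, by
    show lam - lam ∈ D.Q
    rw [sub_self]
    exact D.Q.zero_mem, rfl⟩
  obtain ⟨x, hxS, hx⟩ := Nat.find_spec hS
  have hmin : ∀ y ∈ S, (D.B x x).toNat ≤ (D.B y y).toNat := by
    intro y hy
    rw [hx]
    exact Nat.find_min' hS ⟨y, hy, rfl⟩
  have hle : ∀ γ : D.Rt, D.cp γ x ≤ 1 := by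
    intro γ
    by_contra hlt
    have hlt' : 2 ≤ D.cp γ x := by omega
    have h1 : x - γ.1 ∈ S := by
      show x - γ.1 - lam ∈ D.Q
      have h2 : x - γ.1 - lam = (x - lam) - γ.1 := by abel
      rw [h2]
      exact D.Q.sub_mem hxS (AddSubgroup.subset_closure γ.2)
    have h2 := hmin _ h1
    have h3 : D.B (x - γ.1) (x - γ.1) = D.B x x - D.B γ.1 γ.1 * (D.cp γ x - 1) := by
      have h4 := D.cp_mul γ x
      rw [D.B_sub_left, D.B_sub_right, D.B_sub_right, D.B_comm x γ.1]
      linarith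
    have h4 := D.BRt_pos γ
    have h5 : 0 < D.B γ.1 γ.1 * (D.cp γ x - 1) := mul_pos h4 (by omega)
    have h6 := D.B_nonneg (x - γ.1)
    omega
  have habs : ∀ γ : D.Rt, |D.cp γ x| ≤ 1 := by
    intro γ
    rw [abs_le]
    have h1 := hle (D.ng γ)
    rw [D.cp_ng] at h1
    exact ⟨by omega, hle γ⟩
  obtain ⟨v, hv⟩ := D.exists_dom x
  refine ⟨v.1 x, v⁻¹, ⟨hv, fun γ => ?_⟩, ?_⟩
  · have h1 : D.cp γ (v.1 x) = D.cp (v⁻¹ • γ) x := by
      rw [← D.cp_smul_W v (v⁻¹ • γ) x, smul_inv_smul]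
    rw [h1]
    exact habs _
  · rw [D.W_inv_apply']
    have h1 : lam - x = -(x - lam) := by abel
    rw [h1]
    exact D.Q.neg_mem hxS

/-- Every root is in the subgroup generated by the `u θ`, `θ` quasi-minuscule.  Strong induction on `B γ γ`.  If
`|cp δ γ| ≤ 1` for all `δ ≠ ± γ`, then `γ = u θ` with `θ` dominant (`exists_dom`), quasi-minuscule.  Otherwise some
`δ ≠ ± γ` has `cp δ γ ≥ 2` (replace `δ` by `ng δ`), so `cp γ δ = 1` (`cp_eq_one`) and `s_γ δ = δ - γ` is a root;
`B δ δ < B γ γ` (`cp_comm`), and `γ = δ - s_γ δ`, both shorter. -/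
theorem mem_qmn (γ : D.Rt) : γ.1 ∈ AddSubgroup.closure
    {x : Fin n → ℤ | ∃ (θ : D.Rt) (u : D.W), D.QMn θ ∧ x = u.1 θ.1} := by
  obtain ⟨N, hN⟩ : ∃ N : ℕ, (D.B γ.1 γ.1).toNat < N := ⟨_, Nat.lt_succ_self _⟩
  induction N generalizing γ with
  | zero => exact absurd hN (Nat.not_lt_zero _)
  | succ N ih =>
    by_cases hall : ∀ δ : D.Rt, δ ≠ γ → δ ≠ D.ng γ → |D.cp δ γ.1| ≤ 1
    · obtain ⟨v, hv⟩ := D.exists_dom γ.1
      refine AddSubgroup.subset_closure ⟨v • γ, v⁻¹, ⟨hv, fun δ h1 h2 => ?_⟩, ?_⟩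
      · have h3 : D.cp δ (v • γ).1 = D.cp (v⁻¹ • δ) γ.1 := by
          rw [D.smul_val, ← D.cp_smul_W v (v⁻¹ • δ) γ.1, smul_inv_smul]
        rw [h3]
        refine hall _ (fun h4 => h1 ?_) (fun h4 => h2 ?_)
        · rw [← h4, smul_inv_smul]
        · rw [← D.smul_ng, ← h4, smul_inv_smul]
      · rw [D.smul_val]
        exact (D.W_inv_apply' v γ.1).symm
    · push Not at hall
      obtain ⟨δ0, h1, h2, h3⟩ := hall
      obtain ⟨δ, h1, h2, h3⟩ : ∃ δ : D.Rt, δ ≠ γ ∧ δ ≠ D.ng γ ∧ 2 ≤ D.cp δ γ.1 := by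
        rcases le_or_gt 0 (D.cp δ0 γ.1) with h4 | h4
        · rw [abs_of_nonneg h4] at h3
          exact ⟨δ0, h1, h2, by omega⟩
        · rw [abs_of_neg h4] at h3
          refine ⟨D.ng δ0, fun h5 => h2 ?_, fun h5 => h1 ?_, ?_⟩
          · rw [← h5, D.ng_ng]
          · rw [← D.ng_ng δ0, h5, D.ng_ng]
          · rw [D.cp_ng]
            omega
      have h4 : D.cp γ δ.1 = 1 := D.cp_eq_one (fun h => h1 h.symm) h3
      have h5 := D.cp_comm γ δ
      have h6 := D.cf_pos δ
      have h7 : D.cf δ < D.cf γ := by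
        rw [h4, one_mul] at h5
        rw [h5]
        nlinarith
      have h8 : D.B δ.1 δ.1 < D.B γ.1 γ.1 := by
        rw [← D.two_cf, ← D.two_cf]
        omega
      have h9 := D.BRt_pos δ
      have h10 : (D.rW γ • δ).1 = δ.1 - γ.1 := by
        rw [D.smul_val, D.rW_apply]
        show δ.1 - D.cp γ δ.1 • γ.1 = δ.1 - γ.1
        rw [h4, one_smul]
      have h11 : D.B (D.rW γ • δ).1 (D.rW γ • δ).1 = D.B δ.1 δ.1 := by
        rw [D.smul_val]
        exact D.B_W _ _ _
      have h12 := ih δ (by omega)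
      have h13 := ih (D.rW γ • δ) (by rw [h11]; omega)
      have h14 : γ.1 = δ.1 - (D.rW γ • δ).1 := by
        rw [h10]
        abel
      rw [h14]
      exact AddSubgroup.sub_mem _ h12 h13

/-- The weights of the minuscule and quasi-minuscule representations generate `X`. -/
theorem gen_top : AddSubgroup.closure
    ({x : Fin n → ℤ | ∃ (θ : D.Rt) (u : D.W), D.QMn θ ∧ x = u.1 θ.1} ∪
      {x : Fin n → ℤ | ∃ (l : Fin n → ℤ) (u : D.W), D.Mnu l ∧ x = u.1 l}) = ⊤ := by
  rw [eq_top_iff]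
  intro x _
  obtain ⟨l, u, hl, hx⟩ := D.exists_mnu x
  have h1 : x = (x - u.1 l) + u.1 l := by abel
  rw [h1]
  refine AddSubgroup.add_mem _ ?_ (AddSubgroup.subset_closure (Or.inr ⟨l, u, hl, rfl⟩))
  have h2 : D.Q ≤ AddSubgroup.closure
      ({x : Fin n → ℤ | ∃ (θ : D.Rt) (u : D.W), D.QMn θ ∧ x = u.1 θ.1} ∪
      {x : Fin n → ℤ | ∃ (l : Fin n → ℤ) (u : D.W), D.Mnu l ∧ x = u.1 l}) := by
    refine (AddSubgroup.closure_le _).2 fun γ hγ => ?_
    exact AddSubgroup.closure_mono Set.subset_union_left (D.mem_qmn ⟨γ, hγ⟩)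
  exact h2 hx

end RD

end Pool.Agent.MTG
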