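import Pool.Agent.MTG.GV1
import Pool.Agent.MTG.GU4

/-! # MTG, Part V : the strong lifts for dominant weights with the bound of the support -/

namespace Pool.Agent.MTG

open MvPolynomial
open Pool.Agent.MTX.SLD (RR AA fm fm0 fm0_add fm0_smul fm0_zero fm0_neg fm0_sub fm0_ne_zero fm0_prime)
open RD
open Pool.Agent.MTF (AffGrp TQD TQ Rep Rep.co)
open Pool.Agent.MTF.AffGrp

section
variable {n : ℕ} {D : RD n} {G : AffGrp} {r : ℕ} (Db : Module.Basis (Fin r) ℂ G.Lie)
  (cA : Fin r → AA n)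

/-- `v_sl` for dominant `l`, with the bound of the support -/
theorem v_sl_dom (hc : ∀ (w : D.W) j, w • cA j = cA j)
    (hR : ∀ E : Rep G, Nonempty (RF D (SE Db cA E))) (L : Type) [Finite L] [Fintype L]
    [DecidableEq L] [Nonempty L] (l : Fin n → ℤ) (hl : D.Dom l) (f : L → G.KO (KK n)) (a : KK n)
    (ha : a ∈ (tqd G D Db cA).A)
    (hf : ∀ i, (tqd G D Db cA).s1 (f i) = (tqd G D Db cA).val l • f i ∧
      (tqd G D Db cA).Reg (f i)) :
    ∃ T : Pool.Agent.MTF.RR G (KK n) (Fin n → ℤ) L, (tqd G D Db cA).Fam 0 (fun _ => true) T ∧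
      (tqd G D Db cA).SuppLe l T ∧
      (∀ m, T.coeff m ≠ 0 → m ∈ D.PiS l) ∧
      ∀ k, (T.coeff l).1 k =
        ((tqd G D Db cA).Eu l)⁻¹ * (tqd G D Db cA).Dav l (a * ∏ i, (f i).1 (k i)) := by
  classical
  obtain ⟨a0, rfl⟩ := mem_AK.1 ha
  choose E e r hS hr hE using fun i => v1e_slice Db cA l (f i) (hf i).1 (hf i).2
  obtain ⟨Fs, T, t1, t2, t3, t4, t5, t7, t6⟩ := sl_domS (D := D) (fun i => SE Db cA (E i))
    (fun i u a b => SE_W Db cA hc (E i) u a b) (fun i => hR (E i)) hl r hE a0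
  have hmem : ∀ m, mfn E e (T m) ≠ 0 → m ∈ Fs := by
    intro m hm
    by_contra h
    apply hm
    apply KO_ext
    intro k
    rw [mfn_apply, KO_zero]
    refine Finset.sum_eq_zero fun x _ => ?_
    rw [t1 m h x, zero_mul]
  refine ⟨AddMonoidAlgebra.ofCoeff (Finsupp.onFinset Fs (fun m => mfn E e (T m)) hmem), ?_, ?_, ?_, ?_⟩
  · refine ⟨?_, ?_, ?_, ?_⟩
    · intro m l'
      show (tqd G D Db cA).s l' (mfn E e (T m)) =
        (tqd G D Db cA).val ((1 : ℤ) • m) • mfn E e (T m)
      rw [mfn_s Db cA E e hS]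
      apply KO_ext
      intro k
      rw [KO_smul, mfn_apply, mfn_apply, Finset.mul_sum, one_smul]
      refine Finset.sum_congr rfl fun x _ => ?_
      rw [← mul_assoc]
      congr 1
      rw [← map_SE (D := D)]
      exact t4 m x l'
    · intro w m
      show Pool.Agent.MTF.wO _ w (mfn E e (T m)) = mfn E e (T (w.1 m))
      apply KO_ext
      intro k
      rw [Pool.Agent.MTF.wO_apply, mfn_apply, mfn_apply, Finset.smul_sum]
      refine Finset.sum_congr rfl fun x _ => ?_
      rw [smul_mul', v1e_w_prod, ← t3 w m x]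
      rfl
    · intro _ k
      have h1 : (Pool.Agent.MTF.tot (AddMonoidAlgebra.ofCoeff
          (Finsupp.onFinset Fs (fun m => mfn E e (T m)) hmem) :
          Pool.Agent.MTF.RR G (KK n) (Fin n → ℤ) L)).1 k =
          ∑ x : ((l : L) → (E l).ι), (∑ m ∈ Fs, T m x) *
            ∏ i, algebraMap ℂ (KK n) ((e i (x i)).1 (k i)) := by
        unfold Pool.Agent.MTF.tot
        rw [Finsupp.sum]
        have h2 : ∑ m ∈ (AddMonoidAlgebra.ofCoeff (Finsupp.onFinset Fs (fun m => mfn E e (T m)) hmem) :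
          Pool.Agent.MTF.RR G (KK n) (Fin n → ℤ) L).coeff.support,
            (AddMonoidAlgebra.ofCoeff (Finsupp.onFinset Fs (fun m => mfn E e (T m)) hmem) :
          Pool.Agent.MTF.RR G (KK n) (Fin n → ℤ) L).coeff m = ∑ m ∈ Fs, mfn E e (T m) := by
          apply Finset.sum_subset
          · intro m hm
            exact hmem m (Finsupp.mem_support_iff.1 hm)
          · intro m _ hm
            exact Finsupp.notMem_support_iff.1 hm
        rw [h2, KO_sum]
        simp only [mfn_apply, Finset.sum_mul]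
        rw [Finset.sum_comm]
      rw [h1]
      refine Subalgebra.sum_mem _ fun x _ => Subalgebra.mul_mem _ (mem_AK.2 (t2 x)) ?_
      exact Subalgebra.prod_mem _ fun i _ => Subalgebra.algebraMap_mem _ _
    · intro m k h
      exact absurd h (lt_irrefl 0)
  · intro m hm
    have h1 : ∃ x, T m x ≠ 0 := by
      by_contra h
      push Not at h
      apply hm
      show mfn E e (T m) = 0
      apply KO_ext
      intro k
      rw [mfn_apply, KO_zero]
      refine Finset.sum_eq_zero fun x _ => ?_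
      rw [h x, zero_mul]
    obtain ⟨x, hx⟩ := h1
    rcases t5 m x hx with ⟨w, hw⟩ | h2
    · exact Or.inl ⟨w, hw⟩
    · right
      show (D.B m m).toNat < (D.B l l).toNat
      have h6 := v1c_B_nonneg D m
      omega
  · intro m hm
    have h1 : ∃ x, T m x ≠ 0 := by
      by_contra h
      push Not at h
      apply hm
      show mfn E e (T m) = 0
      apply KO_ext
      intro k
      rw [mfn_apply, KO_zero]
      refine Finset.sum_eq_zero fun x _ => ?_
      rw [h x, zero_mul]
    obtain ⟨x, hx⟩ := h1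
    exact t7 m x hx
  · intro k
    show (mfn E e (T l)).1 k = (aK (D.Eu l))⁻¹ * ((aK (D.PI0 l))⁻¹ * _)
    have hE0 : (aK (D.Eu l) : KK n) ≠ 0 := aK_ne_zero (D.Eu_ne l)
    have hP0 : (aK (D.PI0 l) : KK n) ≠ 0 := aK_ne_zero (D.PI0_ne l)
    rw [← mul_assoc, ← mul_inv, eq_inv_mul_iff_mul_eq₀ (mul_ne_zero hE0 hP0), mfn_apply,
      Finset.mul_sum]
    have h1 : ∀ i, f i = Slc.fn (KK n) (e i) (fun b => aK (r i b)) := hr
    simp only [h1]
    rw [v1e_expand]
    have h2 : ∀ x : ((l : L) → (E l).ι), aK (D.Eu l) * aK (D.PI0 l) * (T l x *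
        ∏ i, algebraMap ℂ (KK n) ((e i (x i)).1 (k i))) = ∑ u : D.W, (if u.1 l = l then
        aK ((((D.sgn u : ℤˣ) : ℤ) : AA n) * (u • (a0 * ∏ i, r i (x i)))) else 0) *
        ∏ i, algebraMap ℂ (KK n) ((e i (x i)).1 (k i)) := by
      intro x
      rw [← Finset.sum_mul, ← t6 x, map_mul]
      ring
    simp only [h2]
    rw [Finset.sum_comm]
    refine Finset.sum_congr rfl fun u _ => ?_
    by_cases hu : u.1 l = l
    · have hu' : u • l = l := hu
      rw [if_pos hu', Finset.smul_sum, Finset.mul_sum]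
      refine Finset.sum_congr rfl fun x _ => ?_
      have h3 : u • ((aK (a0 * ∏ i, r i (x i)) : KK n) *
          ∏ i, algebraMap ℂ (KK n) ((e i (x i)).1 (k i))) =
          aK (u • (a0 * ∏ i, r i (x i))) * ∏ i, algebraMap ℂ (KK n) ((e i (x i)).1 (k i)) := by
        rw [smul_mul', v1e_w_prod, smul_aK]
      rw [if_pos hu, h3, map_mul, map_intCast]
      show _ = (((D.sgn u : ℤˣ) : ℤ) : KK n) * _
      rw [mul_assoc]
    · have hu' : ¬ u • l = l := hu
      rw [if_neg hu']
      refine Finset.sum_eq_zero fun x _ => ?_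
      rw [if_neg hu, zero_mul]

end

end Pool.Agent.MTG
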