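import Pool.Agent.MTG.YS0
import Pool.Agent.MTG.GD

/-! # MTG-I : powers of linear forms -/

namespace Pool.Agent.MTG

open Pool.Agent.MTF Matrix
open Pool.Agent.MTD (ev)
open Pool.Agent.MTX.SLD (AA fm0)
open Pool.Agent.MTH

/-- [IA1] PROOF. Let `k = i + j`. There are complex numbers `c 0, .., c k` with `∑ t ≤ k, c t * t ^ s = if s = j then 1 else 0` for all `s ≤ k` (the Vandermonde matrix of `0, 1, .., k` is invertible: `Matrix.det_vandermonde_ne_zero_iff`, or Lagrange interpolation). `∑ t, c t • (a + t • b) ^ k = ∑ s, choose k s • a ^ (k - s) * b ^ s * (∑ t, c t * t ^ s) = choose k j • a ^ i * b ^ j`; divide by `choose k j`. -/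
theorem mul_pow_mem_span {R : Type} [CommRing R] [Algebra ℂ R] (a b : R) (i j : ℕ) :
    a ^ i * b ^ j ∈ Submodule.span ℂ (Set.range fun t : ℕ => (a + (t : R) * b) ^ (i + j)) := by
  set k := i + j with hk
  have hjk : j < k + 1 := by omega
  set V : Matrix (Fin (k + 1)) (Fin (k + 1)) ℂ :=
    Matrix.vandermonde (fun t : Fin (k + 1) => ((t : ℕ) : ℂ)) with hV
  have hdet : V.det ≠ 0 := Matrix.det_vandermonde_ne_zero_iff.2
    (fun s t h => Fin.ext (Nat.cast_injective h))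
  have hu : IsUnit V.det := isUnit_iff_ne_zero.2 hdet
  set c : Fin (k + 1) → ℂ := Matrix.vecMul (Pi.single ⟨j, hjk⟩ 1) V⁻¹ with hcdef
  have hc : Matrix.vecMul c V = Pi.single ⟨j, hjk⟩ 1 := by
    rw [hcdef, Matrix.vecMul_vecMul, Matrix.nonsing_inv_mul V hu, Matrix.vecMul_one]
  have hc' : ∀ s : Fin (k + 1), ∑ t : Fin (k + 1), c t * ((t : ℕ) : ℂ) ^ (s : ℕ) =
      if s = ⟨j, hjk⟩ then 1 else 0 := by
    intro s
    have h1 := congrFun hc s
    rw [Pi.single_apply] at h1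
    rw [← h1]
    rfl
  have h1 : ∀ t : Fin (k + 1), c t • (a + (((t : ℕ) : ℕ) : R) * b) ^ k =
      ∑ s : Fin (k + 1), (c t * ((t : ℕ) : ℂ) ^ (s : ℕ)) •
        ((k.choose s : R) * (a ^ (k - s) * b ^ (s : ℕ))) := by
    intro t
    rw [add_comm, add_pow, Finset.sum_range, Finset.smul_sum]
    refine Finset.sum_congr rfl fun s _ => ?_
    rw [mul_smul]
    congr 1
    rw [Algebra.smul_def, map_pow, map_natCast, mul_pow]
    ring
  have key : ∑ t : Fin (k + 1), c t • (a + ((t : ℕ) : R) * b) ^ k =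
      ((k.choose j : ℕ) : ℂ) • (a ^ i * b ^ j) := by
    rw [Finset.sum_congr rfl fun t _ => h1 t, Finset.sum_comm]
    have h2 : ∀ s : Fin (k + 1), ∑ t : Fin (k + 1), (c t * ((t : ℕ) : ℂ) ^ (s : ℕ)) •
        ((k.choose s : R) * (a ^ (k - s) * b ^ (s : ℕ))) =
        (if s = ⟨j, hjk⟩ then (1 : ℂ) else 0) •
          ((k.choose s : R) * (a ^ (k - s) * b ^ (s : ℕ))) := by
      intro s
      rw [← Finset.sum_smul, hc']
    rw [Finset.sum_congr rfl fun s _ => h2 s, Finset.sum_eq_single (⟨j, hjk⟩ : Fin (k + 1))]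
    · rw [if_pos rfl, one_smul, Algebra.smul_def, map_natCast]
      have hki : k - j = i := by omega
      show ((k.choose j : ℕ) : R) * (a ^ (k - j) * b ^ j) = _
      rw [hki]
    · intro s _ hs
      rw [if_neg hs, zero_smul]
    · intro h
      exact absurd (Finset.mem_univ _) h
  have hch : ((k.choose j : ℕ) : ℂ) ≠ 0 :=
    Nat.cast_ne_zero.2 (Nat.choose_pos (by omega)).ne'
  have h3 : a ^ i * b ^ j = ((k.choose j : ℕ) : ℂ)⁻¹ •
      ∑ t : Fin (k + 1), c t • (a + ((t : ℕ) : R) * b) ^ k := by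
    rw [key, smul_smul, inv_mul_cancel₀ hch, one_smul]
  rw [h3]
  exact Submodule.smul_mem _ _ (Submodule.sum_mem _ fun t _ =>
    Submodule.smul_mem _ _ (Submodule.subset_span ⟨(t : ℕ), rfl⟩))

/-- [IA1b] The powers of the integral linear forms span. PROOF. `M := span ℂ {fm0 l ^ k}`. `M` is closed under products: `fm0 l ^ i * fm0 l' ^ j ∈ span {(fm0 l + t * fm0 l') ^ (i + j)}` (`mul_pow_mem_span`) and `fm0 l + t * fm0 l' = fm0 (l + t • l')` (`fm0_add`, `fm0_smul`); then `Submodule.span_induction` in both factors (`Submodule.span_mul_span` or `Submodule.mul_le`). `1 = fm0 0 ^ 0 ∈ M`, `X i = fm0 (Pi.single i 1) ^ 1 ∈ M` (`fm0_al` in MTX/R2b). So `M` contains all monomials: `MvPolynomial.induction_on q`. -/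
theorem span_pow {n : ℕ} (q : AA n) :
    q ∈ Submodule.span ℂ {p : AA n | ∃ (l : Fin n → ℤ) (k : ℕ), p = fm0 l ^ k} := by
  set M : Submodule ℂ (AA n) :=
    Submodule.span ℂ {p : AA n | ∃ (l : Fin n → ℤ) (k : ℕ), p = fm0 l ^ k} with hM
  have h1 : (1 : AA n) ∈ M := Submodule.subset_span ⟨0, 0, (pow_zero _).symm⟩
  have hmul : ∀ x ∈ M, ∀ y ∈ M, x * y ∈ M := by
    intro x hx y hy
    have h2 : M * M ≤ M := by
      rw [hM, Submodule.span_mul_span, Submodule.span_le]
      rintro _ ⟨_, ⟨l, i, rfl⟩, _, ⟨l', j, rfl⟩, rfl⟩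
      refine Submodule.span_mono ?_ (mul_pow_mem_span (fm0 l) (fm0 l') i j)
      rintro _ ⟨t, rfl⟩
      refine ⟨l + (t : ℤ) • l', i + j, ?_⟩
      rw [Pool.Agent.MTX.SLD.fm0_add, Pool.Agent.MTX.SLD.fm0_smul]
      congr 3
    exact h2 (Submodule.mul_mem_mul hx hy)
  have hX : ∀ i : Fin n, (MvPolynomial.X i : AA n) ∈ M := fun i =>
    Submodule.subset_span ⟨Pi.single i 1, 1, by rw [pow_one, Pool.Agent.MTX.SLD.fm0_al]⟩
  induction q using MvPolynomial.induction_on with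
  | C r =>
    have h3 : (MvPolynomial.C r : AA n) = r • (1 : AA n) := by
      rw [Algebra.smul_def, mul_one, MvPolynomial.algebraMap_eq]
    rw [h3]
    exact M.smul_mem r h1
  | add p q hp hq => exact M.add_mem hp hq
  | mul_X p i hp => exact hmul p hp _ (hX i)

end Pool.Agent.MTG
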