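import Pool.Agent.MTG.YS5e

/-! # MTG-I : traces -/

namespace Pool.Agent.MTG

open Pool.Agent.MTF Matrix
open Pool.Agent.MTD (ev)
open Pool.Agent.MTX.SLD (AA fm0)
open Pool.Agent.MTH

theorem ia2_pow {R : Type} [CommRing R] [Algebra ℂ R] (S : Subalgebra ℂ R) {ι : Type} [Fintype ι] [DecidableEq ι]
    (M : Matrix ι ι R) (h : ∀ a b, M a b ∈ S) (k : ℕ) : ∀ a b, (M ^ k) a b ∈ S := by
  induction k with
  | zero =>
    intro a b
    rw [pow_zero, Matrix.one_apply]
    split_ifs
    · exact S.one_mem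
    · exact S.zero_mem
  | succ k ih =>
    intro a b
    rw [pow_succ, Matrix.mul_apply]
    exact S.sum_mem fun c _ => S.mul_mem (ih a c) (h c b)

/-- [IA2] PROOF. `CD.trace_sx C hE k`; the entries of `C.dm E C.sx` are linear combinations of the `C.sx j = aeval C.sx (X j)` with constant coefficients (`dm_apply`), so in the range (a subalgebra); powers of matrices and traces of matrices with entries in a subalgebra (`Subalgebra.sum_mem`, `mul_mem`; induction on `k` for the entries of the power). -/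
theorem CD.trace_mem {G : AffGrp} {n : ℕ} {D : RD n} (C : CD G D) {E : MTF.Rep G}
    {w : E.ι → Fin n → ℤ} (hE : C.IsW E w) (k : ℕ) :
    ∑ a, (fm0 (w a) : AA n) ^ k ∈ (MvPolynomial.aeval C.sx : MvPolynomial (Fin n ⊕ D.Rt) ℂ →ₐ[ℂ] AA n).range := by
  rw [← C.trace_sx hE k, Matrix.trace]
  refine Subalgebra.sum_mem _ fun a _ => ?_
  rw [Matrix.diag_apply]
  refine ia2_pow _ _ (fun a b => ?_) k a a
  rw [C.dm_apply]
  refine Subalgebra.sum_mem _ fun j _ => Subalgebra.mul_mem _ ?_ (Subalgebra.algebraMap_mem _ _)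
  exact ⟨MvPolynomial.X j, MvPolynomial.aeval_X _ _⟩

end Pool.Agent.MTG
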