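import Pool.Agent.MTG.YH6

/-! # MTG-YH : highest weight representations -/

namespace Pool.Agent.MTG

open Pool.Agent.MTF Matrix
open Pool.Agent.MTD (ev)
open Pool.Agent.MTX.SLD (AA fm0)
open Pool.Agent.MTH
open Pool.Agent.MP_c45d35_ag (chi)

theorem YH7_chi_mul {n : ℕ} (x : Fin n → ℤ) (t t' : Fin n → ℂˣ) :
    chi x (t * t') = chi x t * chi x t' := by
  unfold chi
  rw [← Finset.prod_mul_distrib]
  exact Finset.prod_congr rfl fun k _ => by rw [Pi.mul_apply, mul_zpow]

theorem YH7_chi_one {n : ℕ} (x : Fin n → ℤ) : chi x (1 : Fin n → ℂˣ) = 1 := by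
  unfold chi
  simp

theorem YH7_chi_inj {n : ℕ} {x y : Fin n → ℤ} (h : ∀ t : Fin n → ℂˣ, chi x t = chi y t) :
    x = y := by
  classical
  have h1 : ∀ (z : Fin n → ℤ) (k : Fin n),
      chi z (Function.update (1 : Fin n → ℂˣ) k (Units.mk0 (2 : ℂ) two_ne_zero)) =
        (Units.mk0 (2 : ℂ) two_ne_zero) ^ z k := by
    intro z k
    unfold chi
    rw [Finset.prod_eq_single k]
    · rw [Function.update_self]
    · intro j _ hj
      rw [Function.update_of_ne hj, Pi.one_apply, _root_.one_zpow]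
    · intro hk
      exact absurd (Finset.mem_univ _) hk
  funext k
  have h2 := h (Function.update (1 : Fin n → ℂˣ) k (Units.mk0 (2 : ℂ) two_ne_zero))
  rw [h1, h1] at h2
  have h3 : ((2 : ℂ)) ^ x k = (2 : ℂ) ^ y k := by
    have := congrArg (fun u : ℂˣ => (u : ℂ)) h2
    simpa using this
  have h4 : ((2 : ℝ)) ^ x k = (2 : ℝ) ^ y k := by
    have := congrArg (fun z : ℂ => ‖z‖) h3
    simpa using this
  exact zpow_right_injective₀ (by norm_num) (by norm_num) h4

theorem YH7_tq_one {G : AffGrp} {n : ℕ} {D : RD n} (C : CD G D) : tq C (1 : Fin n → ℂˣ) = 1 := by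
  have h := tq_mul C (1 : Fin n → ℂˣ) 1
  rw [mul_one] at h
  exact (mul_eq_left.1 h.symm)

theorem YH7_tq_inv {G : AffGrp} {n : ℕ} {D : RD n} (C : CD G D) (t : Fin n → ℂˣ) :
    tq C t⁻¹ = (tq C t)⁻¹ := by
  have h := tq_mul C t⁻¹ t
  rw [inv_mul_cancel, YH7_tq_one] at h
  exact eq_inv_of_mul_eq_one_left h.symm

/-- right translates by unipotent elements -/
theorem YH7_rt_U {G : AffGrp} {n : ℕ} {D : RD n} (C : CD G D) (hG : IsDomain G.O)
    {l : Fin n → ℤ} {f : G.O} (hf : IsDl C l f) {v : G.Pt ℂ} (hv : UU C 1 v) :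
    G.rt v.toX f = f := by
  rw [← sub_eq_zero]
  refine cell_dense C hG _ ?_
  rintro x ⟨u, v', t, hu, hv', rfl⟩
  rw [AffGrp.O_sub]
  have h1 : (G.rt v.toX f).1 (u * tq C t * v').toX = f.1 ((u * tq C t * (v' * v)).toX) := by
    show f.1 ((u * tq C t * v').toX * v.toX) = _
    rw [← toX_mul, mul_assoc]
  rw [h1, hf u _ t hu (UU_mul C hv' hv), hf u v' t hu hv', sub_self]

/-- right translates by elements of the torus -/
theorem YH7_rt_T {G : AffGrp} {n : ℕ} {D : RD n} (C : CD G D) (hG : IsDomain G.O)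
    {l : Fin n → ℤ} {f : G.O} (hf : IsDl C l f) (s : Fin n → ℂˣ) :
    G.rt (tq C s).toX f = ((chi l s : ℂˣ) : ℂ) • f := by
  rw [← sub_eq_zero]
  refine cell_dense C hG _ ?_
  rintro x ⟨u, v', t, hu, hv', rfl⟩
  rw [AffGrp.O_sub, AffGrp.O_smul]
  have h2 : u * tq C t * v' * tq C s =
      u * tq C (t * s) * (tq C s⁻¹ * v' * (tq C s⁻¹)⁻¹) := by
    rw [tq_mul, YH7_tq_inv]
    group
  have h1 : (G.rt (tq C s).toX f).1 (u * tq C t * v').toX =
      f.1 ((u * tq C (t * s) * (tq C s⁻¹ * v' * (tq C s⁻¹)⁻¹)).toX) := by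
    show f.1 ((u * tq C t * v').toX * (tq C s).toX) = _
    rw [← toX_mul, h2]
  rw [h1, hf u _ _ hu (UU_conj C hv' s⁻¹), hf u v' t hu hv', YH7_chi_mul, Units.val_mul]
  ring

theorem YH7_rt_rt {G : AffGrp} (x y : G.X) (f : G.O) : G.rt x (G.rt y f) = G.rt (x * y) f := by
  apply AffGrp.O_ext
  intro z
  show f.1 (z * x * y) = f.1 (z * (x * y))
  rw [mul_assoc]

theorem YH7_rt_one {G : AffGrp} (f : G.O) : G.rt 1 f = f := by
  apply AffGrp.O_ext
  intro z
  show f.1 (z * 1) = f.1 z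
  rw [mul_one]

/-- YH7.  The highest weight representation.  `f` from `exists_Dl`; `U` := span of all `G.rt x f`, contained in the finite-dimensional space of `exists_rt_stable {f}`, stable
under `G.rt`; `exists_rep_of_stable` gives `E'`, `u`; `f = ∑ v' b • u b`, and `G.rt x f = ∑ (E'.ρ x v') a • u a`.  `exists_weight` gives `E`, `w`, `Q`, `Q'`; `v0 := Q' v'`.
`ne`: `f ≠ 0` (`f (1) = 1`).  `inv`: `G.rt v.toX f = f` by `cell_dense` (values on the cell: `u t v₁ v`, `UU_mul`, `toX_mul`).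
`wt`: `G.rt (tq t).toX f = chi l t • f`: `f (u t' v t) = f (u (t' t) (t⁻¹ v t)) = chi l (t' t)` (`UU_conj`, `tq_mul`), `cell_dense`; so
`chi (w a) t * v0 a = chi l t * v0 a` for all `t : Fin n → ℂˣ` (`tq_pt`, `pt_toX`), and `w a = l` if `v0 a ≠ 0` (take `t = 2` in one coordinate).
`cyc`: the span of the `G.rt x f` is `U`. -/
theorem CD.exists_hwv {G : AffGrp} {n : ℕ} {D : RD n} (C : CD G D) (hG : IsDomain G.O)
    {l : Fin n → ℤ} (hl : D.Dom l) : ∃ (E : MTF.Rep G) (w : E.ι → Fin n → ℤ) (v0 : E.ι → ℂ),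
      HWV C l E w v0 := by
  classical
  obtain ⟨f, hf⟩ := C.exists_Dl hG hl
  have hf0 : f ≠ 0 := by
    intro h0
    have h1 := hf 1 1 1 (UU_one C) (UU_one C)
    rw [h0, YH7_chi_one, AffGrp.O_zero, Units.val_one] at h1
    exact zero_ne_one h1
  obtain ⟨U0, hU0, hfU0, hst0⟩ := AffGrp.exists_rt_stable ({f} : Finset G.O)
  have hle : Submodule.span ℂ (Set.range fun x : G.X => G.rt x f) ≤ U0 := by
    rw [Submodule.span_le]
    rintro _ ⟨x, rfl⟩
    exact hst0 f (hfU0 f (Finset.mem_singleton_self f)) x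
  set U : Submodule ℂ G.O := Submodule.span ℂ (Set.range fun x : G.X => G.rt x f) with hU
  have : FiniteDimensional ℂ U0 := hU0
  have : FiniteDimensional ℂ U := Submodule.finiteDimensional_of_le hle
  have hst : ∀ g ∈ U, ∀ x : G.X, G.rt x g ∈ U := by
    intro g hg x
    have h1 : U ≤ U.comap (G.rt x) := by
      conv_lhs => rw [hU]
      rw [Submodule.span_le]
      rintro _ ⟨y, rfl⟩
      show G.rt x (G.rt y f) ∈ U
      rw [YH7_rt_rt]
      exact Submodule.subset_span ⟨x * y, rfl⟩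
    exact h1 hg
  obtain ⟨E', u, hu⟩ := AffGrp.exists_rep_of_stable U hst
  have hrtU : ∀ x, G.rt x f ∈ U := fun x => Submodule.subset_span ⟨x, rfl⟩
  have hfU : f ∈ U := by
    have := hrtU 1
    rwa [YH7_rt_one] at this
  set v' : E'.ι → ℂ := u.equivFun ⟨f, hfU⟩ with hv'
  have hcoord : ∀ x, u.equivFun ⟨G.rt x f, hrtU x⟩ = (E'.ρ x).mulVec v' := by
    intro x
    rw [← LinearEquiv.eq_symm_apply]
    apply Subtype.ext
    apply AffGrp.O_ext
    intro y
    rw [Module.Basis.equivFun_symm_apply]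
    have h1 : ∀ (g : E'.ι → ℂ), ((∑ i, g i • u i : U) : G.O).1 y = ∑ i, g i * ((u i).1).1 y := by
      intro g
      rw [Submodule.coe_sum, AffGrp.O_sum]
      exact Finset.sum_congr rfl fun i _ => rfl
    rw [h1]
    have h2 : f.1 (y * x) = ∑ b, v' b * ((u b).1).1 (y * x) := by
      have h3 : (⟨f, hfU⟩ : U) = ∑ b, v' b • u b := by
        rw [hv', Module.Basis.sum_equivFun]
      have h4 := congrArg (fun g : U => (g : G.O).1 (y * x)) h3
      simp only at h4
      rw [h4, Submodule.coe_sum, AffGrp.O_sum]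
      exact Finset.sum_congr rfl fun i _ => rfl
    show f.1 (y * x) = _
    rw [h2]
    simp only [hu x y, Matrix.mulVec, dotProduct, Finset.mul_sum, Finset.sum_mul]
    rw [Finset.sum_comm]
    refine Finset.sum_congr rfl fun a _ => Finset.sum_congr rfl fun b _ => ?_
    ring
  obtain ⟨F, w, Q, Q', hW, hQQ', hQ'Q, hF⟩ := exists_weight C E'
  set v0 : F.ι → ℂ := Q'.mulVec v' with hv0
  have hQv0 : Q.mulVec v0 = v' := by
    rw [hv0, Matrix.mulVec_mulVec, hQQ', Matrix.one_mulVec]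
  have hFv : ∀ x, (F.ρ x).mulVec v0 = Q'.mulVec (u.equivFun ⟨G.rt x f, hrtU x⟩) := by
    intro x
    rw [hcoord, ← hF x, ← Matrix.mulVec_mulVec, ← Matrix.mulVec_mulVec, hQv0]
  have hFv1 : ∀ (x : G.X) (c : ℂ), G.rt x f = c • f → (F.ρ x).mulVec v0 = c • v0 := by
    intro x c hx
    rw [hFv]
    have h1 : (⟨G.rt x f, hrtU x⟩ : U) = c • ⟨f, hfU⟩ := Subtype.ext hx
    rw [h1, map_smul, ← hv', Matrix.mulVec_smul]
  refine ⟨F, w, v0, ?_⟩
  refine ⟨hW, ?_, ?_, ?_, ?_⟩
  · intro h0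
    rw [h0, Matrix.mulVec_zero] at hQv0
    have h1 : (⟨f, hfU⟩ : U) = 0 := by
      apply u.equivFun.injective
      rw [map_zero, ← hv', ← hQv0]
    exact hf0 (congrArg Subtype.val h1)
  · intro a ha
    apply YH7_chi_inj
    intro t
    have h1 := hFv1 (tq C t).toX _ (YH7_rt_T C hG hf t)
    rw [pt_toX, tq_pt C t hW] at h1
    have h2 := congrFun h1 a
    rw [Matrix.mulVec_diagonal, Pi.smul_apply, smul_eq_mul] at h2
    exact Units.ext (mul_right_cancel₀ ha h2)
  · intro v hv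
    have := hFv1 v.toX 1 (by rw [YH7_rt_U C hG hf hv, one_smul])
    rw [this, one_smul]
  · rw [eq_top_iff]
    intro z _
    -- every element of `U` is mapped to the span
    have key : ∀ g (hg : g ∈ U), Q'.mulVec (u.equivFun ⟨g, hg⟩) ∈
        Submodule.span ℂ (Set.range fun x : G.X => (F.ρ x).mulVec v0) := by
      intro g hg
      have hg' : g ∈ Submodule.span ℂ (Set.range fun x : G.X => G.rt x f) := hg
      induction hg' using Submodule.span_induction with
      | mem x h =>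
        obtain ⟨y, rfl⟩ := h
        refine Submodule.subset_span ⟨y, ?_⟩
        exact hFv y
      | zero =>
        have h1 : (⟨0, hg⟩ : U) = 0 := rfl
        rw [h1, map_zero, Matrix.mulVec_zero]
        exact Submodule.zero_mem _
      | add x y hx hy ihx ihy =>
        have h1 : (⟨x + y, hg⟩ : U) = ⟨x, hx⟩ + ⟨y, hy⟩ := rfl
        rw [h1, map_add, Matrix.mulVec_add]
        exact Submodule.add_mem _ (ihx hx) (ihy hy)
      | smul c x hx ihx =>
        have h1 : (⟨c • x, hg⟩ : U) = c • ⟨x, hx⟩ := rfl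
        rw [h1, map_smul, Matrix.mulVec_smul]
        exact Submodule.smul_mem _ _ (ihx hx)
    have h2 := key _ (u.equivFun.symm (Q.mulVec z)).2
    have h3 : u.equivFun ⟨((u.equivFun.symm (Q.mulVec z) : U) : G.O),
        (u.equivFun.symm (Q.mulVec z)).2⟩ = Q.mulVec z := by
      rw [Subtype.coe_eta, LinearEquiv.apply_symm_apply]
    rw [h3, Matrix.mulVec_mulVec, hQ'Q, Matrix.one_mulVec] at h2
    exact h2

end Pool.Agent.MTG
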