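import Pool.Agent.MTG.YH1b

/-! # MTG-YH : highest weight representations -/

namespace Pool.Agent.MTG

open Pool.Agent.MTF Matrix
open Pool.Agent.MTD (ev)
open Pool.Agent.MTX.SLD (AA fm0)
open Pool.Agent.MTH
open Pool.Agent.MP_c45d35_ag (chi)

/-- a linear form vanishing on `ρ(U⁻) v0` is `0` -/
theorem YH8_key {G : AffGrp} {n : ℕ} {D : RD n} {C : CD G D} (hG : IsDomain G.O)
    {l : Fin n → ℤ} {E : MTF.Rep G} {w : E.ι → Fin n → ℤ} {v0 : E.ι → ℂ} (h : HWV C l E w v0)
    (ξ : (E.ι → ℂ) →ₗ[ℂ] ℂ) (hξ : ∀ u : G.Pt ℂ, UU C (-1) u → ξ ((E.pt u).mulVec v0) = 0) :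
    ξ = 0 := by
  classical
  -- the function `x ↦ ξ (ρ(x) v0)`
  let f : G.O := ∑ a, ∑ b, (ξ (Pi.single a 1) * v0 b) • E.co a b
  have hf : ∀ x : G.X, f.1 x = ξ ((E.ρ x).mulVec v0) := by
    intro x
    have h1 : f.1 x = ∑ a, ∑ b, (ξ (Pi.single a 1) * v0 b) * E.ρ x a b := by
      show (∑ a, ∑ b, (ξ (Pi.single a 1) * v0 b) • E.co a b : G.O).1 x = _
      rw [AffGrp.O_sum]
      apply Finset.sum_congr rfl
      intro a _
      rw [AffGrp.O_sum]
      rfl
    have h2 : (E.ρ x).mulVec v0 = ∑ a, ((E.ρ x).mulVec v0 a) • (Pi.single a (1 : ℂ) : E.ι → ℂ) := by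
      ext c
      rw [Finset.sum_apply, Finset.sum_eq_single c]
      · simp
      · intro b _ hb
        rw [Pi.smul_apply, Pi.single_eq_of_ne (Ne.symm hb), smul_zero]
      · intro hc
        exact absurd (Finset.mem_univ c) hc
    rw [h1, h2, map_sum]
    apply Finset.sum_congr rfl
    intro a _
    rw [map_smul, smul_eq_mul, Matrix.mulVec, dotProduct, Finset.sum_mul]
    apply Finset.sum_congr rfl
    intro b _
    ring
  have hcell : ∀ x, InCell C x → f.1 x = 0 := by
    rintro x ⟨u, v, t, hu, hv, rfl⟩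
    rw [hf, pt_toX, Rep.pt_mul, Rep.pt_mul, ← Matrix.mulVec_mulVec,
      ← Matrix.mulVec_mulVec]
    have h1 : (E.pt v).mulVec v0 = v0 := by
      rw [← pt_toX]
      exact h.inv v hv
    have h2 : (E.pt (tq C t)).mulVec v0 = ((chi l t : ℂˣ) : ℂ) • v0 := by
      rw [tq_pt C t h.isW]
      ext a
      rw [Matrix.mulVec_diagonal, Pi.smul_apply, smul_eq_mul]
      by_cases ha : v0 a = 0
      · rw [ha, mul_zero, mul_zero]
      · rw [h.wt a ha]
    rw [h1, h2, Matrix.mulVec_smul, map_smul, hξ u hu, smul_zero]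
  have h0 : f = 0 := cell_dense C hG f hcell
  apply LinearMap.ext
  intro v
  have hv : v ∈ Submodule.span ℂ (Set.range fun x : G.X => (E.ρ x).mulVec v0) := by
    rw [h.cyc]
    exact Submodule.mem_top
  have hle : Submodule.span ℂ (Set.range fun x : G.X => (E.ρ x).mulVec v0) ≤ LinearMap.ker ξ := by
    rw [Submodule.span_le]
    rintro _ ⟨x, rfl⟩
    rw [SetLike.mem_coe, LinearMap.mem_ker]
    rw [← hf, h0]
    rfl
  exact hle hv

/-- YH8.  Weights of a highest weight representation.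
KEY: a linear form `ξ : (E.ι → ℂ) →ₗ ℂ` with `ξ (ρ(u) v0) = 0` for all `u : G.Pt ℂ` with `UU C (-1) u` is `0`: the function `x ↦ ξ (ρ(x) v0)` is in `G.O`, and vanishes on the
cell: `ρ(u t v) v0 = ρ(u) ρ(t) v0 = chi l t • ρ(u) v0` (`inv`, `wt`, `tq_pt`, `pt_toX`, `toX_mul`); so it is `0` by `cell_dense`, and `cyc`.
`low`: if not `Qp (l - w a)` then `ξ = ` the coordinate `a` satisfies the condition (`UU_supp`: `(ρ(u) v0) a = ∑ b, ρ(u) a b * v0 b`, `w b = l`).
[For `b ≠ a`, `w b = w a`: `ρ(u) a b = 0` by `UU_uni`; so `(ρ(u) v0) a = v0 a` if `w a = l`.]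
`mult`: `a0` with `v0 a0 ≠ 0`; for `w a = l`, `a ≠ a0` the form `ξ v = v0 a0 * v a - v0 a * v a0` satisfies the condition and is not `0`. -/
theorem HWV.low {G : AffGrp} {n : ℕ} {D : RD n} {C : CD G D} (hG : IsDomain G.O)
    {l : Fin n → ℤ} {E : MTF.Rep G} {w : E.ι → Fin n → ℤ} {v0 : E.ι → ℂ} (h : HWV C l E w v0)
    (a : E.ι) : Qp D (l - w a) := by
  classical
  by_contra hcon
  have h1 := YH8_key hG h (LinearMap.proj a) (by
    intro u hu
    rw [LinearMap.proj_apply, Matrix.mulVec, dotProduct]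
    apply Finset.sum_eq_zero
    intro b _
    by_contra hb
    have hb1 : E.pt u a b ≠ 0 := left_ne_zero_of_mul hb
    have hb2 : v0 b ≠ 0 := right_ne_zero_of_mul hb
    have h2 := UU_supp C (Or.inr rfl) hu h.isW hb1
    apply hcon
    have e : (-1 : ℤ) • (w a - w b) = l - w a := by
      rw [h.wt b hb2, neg_one_zsmul, neg_sub]
    rwa [e] at h2)
  have h2 := LinearMap.congr_fun h1 (Pi.single a (1 : ℂ))
  rw [LinearMap.proj_apply, Pi.single_eq_same] at h2
  exact one_ne_zero h2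

theorem HWV.mult {G : AffGrp} {n : ℕ} {D : RD n} {C : CD G D} (hG : IsDomain G.O)
    {l : Fin n → ℤ} {E : MTF.Rep G} {w : E.ι → Fin n → ℤ} {v0 : E.ι → ℂ} (h : HWV C l E w v0) :
    ∃ a0, w a0 = l ∧ ∀ a, w a = l → a = a0 := by
  classical
  obtain ⟨a0, ha0⟩ : ∃ a0, v0 a0 ≠ 0 := by
    by_contra hcon
    push Not at hcon
    exact h.ne (funext hcon)
  have hw0 : w a0 = l := h.wt a0 ha0
  refine ⟨a0, hw0, fun a ha => ?_⟩
  by_contra hne
  -- the coordinates of weight `l` of `ρ(u) v0`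
  have hco : ∀ (u : G.Pt ℂ), UU C (-1) u → ∀ c, w c = l → (E.pt u).mulVec v0 c = v0 c := by
    intro u hu c hc
    have hU := UU_uni C (Or.inr rfl) hu h.isW
    have h1 : (E.pt u).mulVec v0 c = (1 : Matrix E.ι E.ι ℂ).mulVec v0 c := by
      rw [Matrix.mulVec, Matrix.mulVec, dotProduct, dotProduct]
      apply Finset.sum_congr rfl
      intro b _
      by_cases hb : v0 b = 0
      · rw [hb, mul_zero, mul_zero]
      · have hwb := h.wt b hb
        have h2 : (E.pt u - 1) c b = 0 := by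
          by_contra h3
          have h4 := hU c b h3
          rw [hwb, hc, sub_self, mul_zero] at h4
          omega
        rw [Matrix.sub_apply, sub_eq_zero] at h2
        rw [h2]
    rw [h1, Matrix.one_mulVec]
  have h1 := YH8_key hG h (v0 a0 • LinearMap.proj a - v0 a • LinearMap.proj a0) (by
    intro u hu
    rw [LinearMap.sub_apply, LinearMap.smul_apply, LinearMap.smul_apply, LinearMap.proj_apply,
      LinearMap.proj_apply, hco u hu a ha, hco u hu a0 hw0, smul_eq_mul, smul_eq_mul]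
    ring)
  have h2 := LinearMap.congr_fun h1 (Pi.single a (1 : ℂ))
  rw [LinearMap.sub_apply, LinearMap.smul_apply, LinearMap.smul_apply, LinearMap.proj_apply,
    LinearMap.proj_apply, Pi.single_eq_same, Pi.single_eq_of_ne (Ne.symm hne), smul_eq_mul,
    smul_eq_mul, mul_one, mul_zero, sub_zero] at h2
  exact ha0 h2

end Pool.Agent.MTG
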