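import Pool.Agent.MTG.IA2
import Pool.Agent.MTG.YH7
import Pool.Agent.MTG.YH8
import Pool.Agent.MTG.GH

/-! # MTG-I : orbit sums -/

namespace Pool.Agent.MTG

open Pool.Agent.MTF Matrix
open Pool.Agent.MTD (ev)
open Pool.Agent.MTX.SLD (AA fm0)
open Pool.Agent.MTH

theorem ia3_orb {n : ℕ} {D : RD n} (k : ℕ) (v : D.W) (l : Fin n → ℤ) :
    ∑ u : D.W, (fm0 (u.1 (v.1 l)) : AA n) ^ k = ∑ u : D.W, (fm0 (u.1 l) : AA n) ^ k :=
  Fintype.sum_equiv (Equiv.mulRight v) _ _ fun _ => rfl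

/-- [IA3] Orbit sums of powers of dominant weights. PROOF. Strong induction on `(D.B l l).toNat`. `CD.exists_hwv C hG hl` gives `E`, `w`, `v0` with `h : HWV C l E w v0`. `O μ := ∑ u : D.W, fm0 (u.1 μ) ^ k`; `O (u.1 μ) = O μ` (reindex `u' ↦ u' * u`). For every `u : D.W` `∑ a, fm0 (u.1 (w a)) ^ k = ∑ a, fm0 (w a) ^ k` (`exists_perm C h.isW u`, reindex by `σ`), so `∑ a, O (w a) = card D.W • ∑ a, fm0 (w a) ^ k` is in the range (`CD.trace_mem`).
For each `a` let `μ` be dominant with `μ = u.1 (w a)` (`D.exists_dom`); `μ = w b` for some `b` (`exists_perm`), `Qp D (l - μ)` by `HWV.low hG h b`; by `dom_norm hl hμ` either `μ = l` and `O (w a) = O l`, or `D.B μ μ < D.B l l` and `O (w a) = O μ` is in the range by induction. The number `c` of `a` of the first kind is `≥ 1` (`HWV.mult hG h`: there is `a0` with `w a0 = l`; for it `μ` is dominant and conjugate to `l`, so `μ = l` by `D.dom_unique`), so `c • O l` is in the range, and `O l` (divide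 by `c`). -/
theorem CD.orb_dom {G : AffGrp} {n : ℕ} {D : RD n} (C : CD G D) (hG : IsDomain G.O) (k : ℕ) {l : Fin n → ℤ}
    (hl : D.Dom l) : ∑ u : D.W, (fm0 (u.1 l) : AA n) ^ k ∈
      (MvPolynomial.aeval C.sx : MvPolynomial (Fin n ⊕ D.Rt) ℂ →ₐ[ℂ] AA n).range := by
  classical
  have key : ∀ (m : ℕ) (l : Fin n → ℤ), D.Dom l → (D.B l l).toNat < m →
      ∑ u : D.W, (fm0 (u.1 l) : AA n) ^ k ∈
        (MvPolynomial.aeval C.sx : MvPolynomial (Fin n ⊕ D.Rt) ℂ →ₐ[ℂ] AA n).range := by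
    intro m
    induction m with
    | zero => intro l _ h; exact absurd h (Nat.not_lt_zero _)
    | succ m ih =>
      intro l hl hm
      obtain ⟨E, w, v0, h⟩ := C.exists_hwv hG hl
      have hT := C.trace_mem h.isW k
      have hsum : ∑ a, ∑ u : D.W, (fm0 (u.1 (w a)) : AA n) ^ k ∈
          (MvPolynomial.aeval C.sx : MvPolynomial (Fin n ⊕ D.Rt) ℂ →ₐ[ℂ] AA n).range := by
        rw [Finset.sum_comm]
        refine Subalgebra.sum_mem _ fun u _ => ?_
        obtain ⟨σ, hσ⟩ := exists_perm C h.isW u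
        have e : ∑ a, (fm0 (u.1 (w a)) : AA n) ^ k = ∑ a, (fm0 (w a) : AA n) ^ k :=
          Fintype.sum_equiv σ _ _ fun a => by rw [hσ]
        rw [e]
        exact hT
      rw [← Finset.sum_filter_add_sum_filter_not Finset.univ
        (fun a => ∃ u : D.W, u.1 (w a) = l)] at hsum
      have h2 : ∑ a ∈ Finset.univ.filter (fun a => ¬ ∃ u : D.W, u.1 (w a) = l),
          ∑ u : D.W, (fm0 (u.1 (w a)) : AA n) ^ k ∈
          (MvPolynomial.aeval C.sx : MvPolynomial (Fin n ⊕ D.Rt) ℂ →ₐ[ℂ] AA n).range := by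
        refine Subalgebra.sum_mem _ fun a ha => ?_
        have ha' := (Finset.mem_filter.1 ha).2
        obtain ⟨u, hu⟩ := D.exists_dom (w a)
        obtain ⟨σ, hσ⟩ := exists_perm C h.isW u
        have hq := HWV.low hG h (σ a)
        rw [hσ] at hq
        rcases dom_norm hl hu hq with h3 | h3
        · exact absurd ⟨u, h3⟩ ha'
        · rw [← ia3_orb (D := D) k u (w a)]
          refine ih _ hu ?_
          have h4 := D.B_nonneg (u.1 (w a))
          omega
      have h1 : ∑ a ∈ Finset.univ.filter (fun a => ∃ u : D.W, u.1 (w a) = l),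
          ∑ u : D.W, (fm0 (u.1 (w a)) : AA n) ^ k ∈
          (MvPolynomial.aeval C.sx : MvPolynomial (Fin n ⊕ D.Rt) ℂ →ₐ[ℂ] AA n).range := by
        have := Subalgebra.sub_mem _ hsum h2
        rwa [add_sub_cancel_right] at this
      have h5 : ∑ a ∈ Finset.univ.filter (fun a => ∃ u : D.W, u.1 (w a) = l),
          ∑ u : D.W, (fm0 (u.1 (w a)) : AA n) ^ k =
          ((Finset.univ.filter (fun a => ∃ u : D.W, u.1 (w a) = l)).card : ℂ) •
            ∑ u : D.W, (fm0 (u.1 l) : AA n) ^ k := by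
        rw [Finset.sum_congr rfl (g := fun _ => ∑ u : D.W, (fm0 (u.1 l) : AA n) ^ k)]
        · rw [Finset.sum_const, Nat.cast_smul_eq_nsmul]
        · intro a ha
          obtain ⟨u, hu⟩ := (Finset.mem_filter.1 ha).2
          rw [← ia3_orb (D := D) k u (w a), hu]
      have h6 : ((Finset.univ.filter (fun a => ∃ u : D.W, u.1 (w a) = l)).card : ℂ) ≠ 0 := by
        obtain ⟨a0, ha0, _⟩ := HWV.mult hG h
        refine Nat.cast_ne_zero.2 (Finset.card_pos.2 ⟨a0, ?_⟩).ne'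
        exact Finset.mem_filter.2 ⟨Finset.mem_univ _, 1, ha0⟩
      rw [h5] at h1
      have h7 := Subalgebra.smul_mem _ h1
        ((Finset.univ.filter (fun a => ∃ u : D.W, u.1 (w a) = l)).card : ℂ)⁻¹
      rwa [smul_smul, inv_mul_cancel₀ h6, one_smul] at h7
  exact key _ l hl (Nat.lt_succ_self _)

/-- [IA3b] PROOF. `D.exists_dom l` gives `u₀` with `u₀.1 l` dominant; reindex `u ↦ u * u₀`. -/
theorem CD.orb_mem {G : AffGrp} {n : ℕ} {D : RD n} (C : CD G D) (hG : IsDomain G.O) (k : ℕ) (l : Fin n → ℤ) :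
    ∑ u : D.W, (fm0 (u.1 l) : AA n) ^ k ∈
      (MvPolynomial.aeval C.sx : MvPolynomial (Fin n ⊕ D.Rt) ℂ →ₐ[ℂ] AA n).range := by
  obtain ⟨u, hu⟩ := D.exists_dom l
  rw [← ia3_orb (D := D) k u l]
  exact C.orb_dom hG k hu

end Pool.Agent.MTG
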