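import Pool.Agent.MTG.IA1
import Pool.Agent.MTG.IA3

/-! # MTG-I : the invariants of the Weyl group -/

namespace Pool.Agent.MTG

open Pool.Agent.MTF Matrix
open Pool.Agent.MTD (ev)
open Pool.Agent.MTX.SLD (AA fm0)
open Pool.Agent.MTH

/-- [IA4] PROOF. For every `q : AA n` the average `∑ u : D.W, u • q` is in the range: the set of such `q` is a `ℂ`-submodule (`u • (c • q) = c • (u • q)`: `smul_add`, `u • C c = C c`, `MvPolynomial.smul_eq_C_mul`), and it contains `fm0 l ^ k` (`smul_pow'`, `smul_fm0`, `CD.orb_mem`), so it is everything by `span_pow`. For invariant `q` the sum is `card D.W • q`; divide by `card D.W ≠ 0`. -/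
theorem CD.inv_mem {G : AffGrp} {n : ℕ} {D : RD n} (C : CD G D) (hG : IsDomain G.O) (q : AA n)
    (hq : ∀ u : D.W, u • q = q) : ∃ r : MvPolynomial (Fin n ⊕ D.Rt) ℂ, q = MvPolynomial.aeval C.sx r := by
  have key : ∀ p : AA n, ∑ u : D.W, u • p ∈
      (MvPolynomial.aeval C.sx : MvPolynomial (Fin n ⊕ D.Rt) ℂ →ₐ[ℂ] AA n).range := by
    intro p
    refine Submodule.span_induction (p := fun p _ => ∑ u : D.W, u • p ∈
      (MvPolynomial.aeval C.sx : MvPolynomial (Fin n ⊕ D.Rt) ℂ →ₐ[ℂ] AA n).range) ?_ ?_ ?_ ?_ (span_pow p)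
    · rintro _ ⟨l, k, rfl⟩
      have h := C.orb_mem hG k l
      have e : (∑ u : D.W, u • ((fm0 l : AA n) ^ k)) = ∑ u : D.W, (fm0 (u.1 l) : AA n) ^ k := by
        refine Finset.sum_congr rfl fun u _ => ?_
        rw [smul_pow', D.smul_fm0]
      rw [e]
      exact h
    · simp only [smul_zero, Finset.sum_const_zero]
      exact Subalgebra.zero_mem _
    · intro x y _ _ hx hy
      simp only [smul_add, Finset.sum_add_distrib]
      exact Subalgebra.add_mem _ hx hy
    · intro a x _ hx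
      have e : (∑ u : D.W, u • (a • x)) = a • ∑ u : D.W, u • x := by
        rw [Finset.smul_sum]
        refine Finset.sum_congr rfl fun u _ => ?_
        rw [MvPolynomial.smul_eq_C_mul, MvPolynomial.smul_eq_C_mul, smul_mul', D.smul_C]
      rw [e]
      exact Subalgebra.smul_mem _ hx a
  have h1 := key q
  have e : (∑ u : D.W, u • q) = (Fintype.card D.W : ℂ) • q := by
    rw [Finset.sum_congr rfl fun u _ => hq u, Finset.sum_const, Finset.card_univ, Nat.cast_smul_eq_nsmul]
  rw [e] at h1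
  have hc : (Fintype.card D.W : ℂ) ≠ 0 := by
    exact_mod_cast Fintype.card_ne_zero
  have h2 := Subalgebra.smul_mem _ h1 (Fintype.card D.W : ℂ)⁻¹
  rw [smul_smul, inv_mul_cancel₀ hc, one_smul] at h2
  obtain ⟨r, hr⟩ := (AlgHom.mem_range _).1 h2
  exact ⟨r, hr.symm⟩

end Pool.Agent.MTG
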