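import Pool.Agent.MTG.YS3c

/-! # MTG-J : the kernel of `f` -/

namespace Pool.Agent.MTG

open Pool.Agent.MTF Matrix
open Pool.Agent.MTD (ev)
open Pool.Agent.MTX.SLD (AA fm0)
open Pool.Agent.MTH

theorem ja1_mul {I : Type} [Fintype I] {h : I → ℤ} {A : Matrix I I ℂ} {m k : ℤ}
    (hA : Gd.HM h m A) {X : I → ℂ} (hX : Gd.InH h k X) : Gd.InH h (k + m) (A.mulVec X) := by
  intro a ha
  have h1 : ∃ c ∈ Finset.univ, A a c * X c ≠ 0 := by
    by_contra hcon
    push Not at hcon
    exact ha (Finset.sum_eq_zero hcon)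
  obtain ⟨c, _, hc⟩ := h1
  rw [hA a c (left_ne_zero_of_mul hc), hX c (right_ne_zero_of_mul hc)]

/-- the vectors of height `k` -/
def ja1_S {I : Type} (h : I → ℤ) (k : ℤ) : Submodule ℂ (I → ℂ) where
  carrier := {X | Gd.InH h k X}
  add_mem' := by
    intro X Y hX hY a ha
    by_cases hXa : X a = 0
    · refine hY a fun hYa => ha ?_
      rw [Pi.add_apply, hXa, hYa, add_zero]
    · exact hX a hXa
  zero_mem' := fun a ha => absurd rfl ha
  smul_mem' := by
    intro c X hX a ha
    exact hX a (right_ne_zero_of_mul (a := c) ha)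

/-- [JA1] `f` is onto in non-positive heights. PROOF. `T : {X // InH h (k - 2) X} → {X // InH h (k - 2) X}`, `X ↦ f (e X)` (a linear endomorphism of the finite dimensional subspace of vectors of height `k - 2`: `H.e_HM`, `H.f_HM`) is injective by `(Gd.inj H).1` (with `R = ℂ`, `Algebra.algebraMap_self`; heights `k - 2 < 0`), so surjective
(`LinearMap.injective_iff_surjective`): `Y = f (e X')`, take `X := e X'`. -/
theorem Gd.f_surj {I : Type} [Fintype I] [DecidableEq I] {h : I → ℤ} {e f : Matrix I I ℂ}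
    (H : Gd.Sl2 h e f) {k : ℤ} (hk : k ≤ 0) {Y : I → ℂ} (hY : Gd.InH h (k - 2) Y) :
    ∃ X : I → ℂ, Gd.InH h k X ∧ f.mulVec X = Y := by
  have he : e.map (algebraMap ℂ ℂ) = e := by
    ext i j
    rfl
  have hf : f.map (algebraMap ℂ ℂ) = f := by
    ext i j
    rfl
  have hE : ∀ X : I → ℂ, Gd.InH h (k - 2) X → Gd.InH h k (e.mulVec X) := by
    intro X hX
    have h1 := ja1_mul H.e_HM hX
    rwa [sub_add_cancel] at h1
  have hFE : ∀ X : I → ℂ, Gd.InH h (k - 2) X → Gd.InH h (k - 2) (f.mulVec (e.mulVec X)) := by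
    intro X hX
    exact ja1_mul H.f_HM (hE X hX)
  let T : ja1_S h (k - 2) →ₗ[ℂ] ja1_S h (k - 2) :=
    { toFun := fun X => ⟨f.mulVec (e.mulVec X.1), hFE X.1 X.2⟩
      map_add' := by
        intro X Y
        apply Subtype.ext
        show f.mulVec (e.mulVec (X.1 + Y.1)) = f.mulVec (e.mulVec X.1) + f.mulVec (e.mulVec Y.1)
        rw [Matrix.mulVec_add, Matrix.mulVec_add]
      map_smul' := by
        intro c X
        apply Subtype.ext
        show f.mulVec (e.mulVec (c • X.1)) = c • f.mulVec (e.mulVec X.1)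
        rw [Matrix.mulVec_smul, Matrix.mulVec_smul] }
  have hinj : Function.Injective T := by
    rw [← LinearMap.ker_eq_bot, LinearMap.ker_eq_bot']
    intro X hX
    apply Subtype.ext
    refine (Gd.inj H (R := ℂ)).1 X.1 (fun a ha => ?_) ?_
    · rw [X.2 a ha]
      omega
    · rw [he, hf]
      exact congrArg Subtype.val hX
  obtain ⟨X, hX⟩ := LinearMap.injective_iff_surjective.1 hinj ⟨Y, hY⟩
  exact ⟨e.mulVec X.1, hE X.1 X.2, congrArg Subtype.val hX⟩

/-- [JA1b] There is no kernel in positive heights. PROOF. The component `X_m` of `X` of height `m > 0` satisfies `f X_m = 0` (components of `f X` of height `m - 2`, `H.f_HM`), so `e (f X_m) = 0` and `X_m = 0` by `(Gd.inj H).2`. -/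
theorem Gd.ker_nonpos {I : Type} [Fintype I] [DecidableEq I] {h : I → ℤ} {e f : Matrix I I ℂ}
    (H : Gd.Sl2 h e f) {X : I → ℂ} (hX : f.mulVec X = 0) (a : I) (ha : X a ≠ 0) : h a ≤ 0 := by
  by_contra hcon
  push Not at hcon
  have he : e.map (algebraMap ℂ ℂ) = e := by
    ext i j
    rfl
  have hf : f.map (algebraMap ℂ ℂ) = f := by
    ext i j
    rfl
  have hc : f.mulVec (Gd.ct h (h a) X) = 0 := by
    funext b
    by_cases hb : h b = h a - 2
    · have h1 : f.mulVec (Gd.ct h (h a) X) b = f.mulVec X b := by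
        refine Finset.sum_congr rfl fun c _ => ?_
        show f b c * Gd.ct h (h a) X c = f b c * X c
        by_cases hfc : f b c = 0
        · rw [hfc, zero_mul, zero_mul]
        · have h2 := H.f_HM b c hfc
          have h3 : h c = h a := by omega
          unfold Gd.ct
          rw [if_pos h3]
      rw [h1, hX]
    · refine Finset.sum_eq_zero fun c _ => ?_
      show f b c * Gd.ct h (h a) X c = 0
      by_cases hfc : f b c = 0
      · rw [hfc, zero_mul]
      · have h2 := H.f_HM b c hfc
        have h3 : h c ≠ h a := by omega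
        unfold Gd.ct
        rw [if_neg h3, mul_zero]
  have h0 := (Gd.inj H (R := ℂ)).2 (Gd.ct h (h a) X) (fun b hb => by
    unfold Gd.ct at hb
    by_cases h4 : h b = h a
    · rw [h4]
      exact hcon
    · rw [if_neg h4] at hb
      exact absurd rfl hb) (by rw [he, hf, hc, Matrix.mulVec_zero])
  have h5 := congrFun h0 a
  unfold Gd.ct at h5
  rw [if_pos rfl] at h5
  exact ha h5

end Pool.Agent.MTG
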