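import Pool.Agent.MTG.JA1

/-! # MTG-J : the kernel of `f` -/

namespace Pool.Agent.MTG

open Pool.Agent.MTF Matrix
open Pool.Agent.MTD (ev)
open Pool.Agent.MTX.SLD (AA fm0)
open Pool.Agent.MTH

/-- extension by zero -/
noncomputable def ja2_ext {I : Type} (h : I → ℤ) (k : ℤ) : ({a // h a = k} → ℂ) →ₗ[ℂ] (I → ℂ) where
  toFun x a := if ha : h a = k then x ⟨a, ha⟩ else 0
  map_add' x y := by
    funext a
    by_cases ha : h a = k
    · simp [ha]
    · simp [ha]
  map_smul' c x := by
    funext a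
    by_cases ha : h a = k
    · simp [ha]
    · simp [ha]

theorem ja2_ext_apply {I : Type} (h : I → ℤ) (k : ℤ) (x : {a // h a = k} → ℂ) (a : {a // h a = k}) :
    ja2_ext h k x a.1 = x a := by
  show (if ha : h a.1 = k then x ⟨a.1, ha⟩ else 0) = _
  rw [dif_pos a.2]

theorem ja2_ext_InH {I : Type} (h : I → ℤ) (k : ℤ) (x : {a // h a = k} → ℂ) : Gd.InH h k (ja2_ext h k x) := by
  intro a ha
  by_contra hc
  apply ha
  show (if ha : h a = k then x ⟨a, ha⟩ else 0) = 0
  rw [dif_neg hc]

theorem ja2_ext_res {I : Type} (h : I → ℤ) (k : ℤ) {X : I → ℂ} (hX : Gd.InH h k X) :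
    ja2_ext h k (fun a => X a.1) = X := by
  funext a
  by_cases ha : h a = k
  · exact ja2_ext_apply h k _ ⟨a, ha⟩
  · show (if ha : h a = k then X a else 0) = X a
    rw [dif_neg ha]
    by_contra hc
    exact ha (hX a (Ne.symm hc))

/-- `f` in coordinates -/
noncomputable def ja2_T {I : Type} [Fintype I] [DecidableEq I] (h : I → ℤ) (f : Matrix I I ℂ) (k : ℤ) :
    ({a // h a = k} → ℂ) →ₗ[ℂ] ({a // h a = k - 2} → ℂ) where
  toFun x a := f.mulVec (ja2_ext h k x) a.1
  map_add' x y := by
    funext a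
    rw [map_add, Matrix.mulVec_add]
    rfl
  map_smul' c x := by
    funext a
    rw [map_smul, Matrix.mulVec_smul]
    rfl

theorem ja2_surj {I : Type} [Fintype I] [DecidableEq I] {h : I → ℤ} {e f : Matrix I I ℂ}
    (H : Gd.Sl2 h e f) {k : ℤ} (hk : k ≤ 0) : Function.Surjective (ja2_T h f k) := by
  intro y
  obtain ⟨X, hX, hf⟩ := Gd.f_surj H hk (ja2_ext_InH h (k - 2) y)
  refine ⟨fun a => X a.1, ?_⟩
  funext a
  show f.mulVec (ja2_ext h k fun a => X a.1) a.1 = y a
  rw [ja2_ext_res h k hX, hf, ja2_ext_apply]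

theorem ja2_card {I : Type} [Fintype I] [DecidableEq I] (h : I → ℤ) (k : ℤ) :
    Module.finrank ℂ ({a // h a = k} → ℂ) = (Finset.univ.filter fun a => h a = k).card := by
  rw [Module.finrank_fintype_fun_eq_card, Fintype.card_subtype]

/-- [JA2] A basis of the kernel of `f` in height `k ≤ 0`. PROOF. `V := {X // InH h k X}` has dimension `#{a | h a = k}` (basis `Pi.single a 1`), the linear map `f : V → {Y // InH h (k - 2) Y}` (`H.f_HM`) is onto (`Gd.f_surj`), so its kernel has dimension `r` (`LinearMap.finrank_range_add_finrank_ker`); take a basis of the kernel indexed by `Fin r`. -/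
theorem Gd.ker_basis_k {I : Type} [Fintype I] [DecidableEq I] {h : I → ℤ} {e f : Matrix I I ℂ}
    (H : Gd.Sl2 h e f) {k : ℤ} (hk : k ≤ 0) {r : ℕ}
    (hr : r + (Finset.univ.filter fun a => h a = k - 2).card = (Finset.univ.filter fun a => h a = k).card) :
    ∃ v : Fin r → I → ℂ, (∀ i, Gd.InH h k (v i)) ∧ (∀ i, f.mulVec (v i) = 0) ∧ LinearIndependent ℂ v ∧
      ∀ X : I → ℂ, Gd.InH h k X → f.mulVec X = 0 → ∃ c : Fin r → ℂ, X = ∑ i, c i • v i := by
  have h1 := LinearMap.finrank_range_add_finrank_ker (ja2_T h f k)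
  rw [LinearMap.range_eq_top.2 (ja2_surj H hk), finrank_top, ja2_card, ja2_card] at h1
  have h2 : Module.finrank ℂ (LinearMap.ker (ja2_T h f k)) = r := by omega
  let b := Module.finBasisOfFinrankEq ℂ (LinearMap.ker (ja2_T h f k)) h2
  refine ⟨fun i => ja2_ext h k (b i).1, fun i => ja2_ext_InH h k _, fun i => ?_, ?_, ?_⟩
  · funext a
    by_contra hc
    have h3 := H.f_HM
    have h4 : h a = k - 2 := by
      obtain ⟨c, _, hc⟩ := Finset.exists_ne_zero_of_sum_ne_zero hc
      have h5 : f a c ≠ 0 := left_ne_zero_of_mul hc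
      have h6 : ja2_ext h k (b i).1 c ≠ 0 := right_ne_zero_of_mul hc
      have h7 := h3 a c h5
      have h8 := ja2_ext_InH h k _ c h6
      omega
    have h9 := congrFun (LinearMap.mem_ker.1 (b i).2) ⟨a, h4⟩
    exact hc h9
  · rw [Fintype.linearIndependent_iff]
    intro g hg i
    have h3 : ja2_ext h k (∑ i, g i • (b i).1) = 0 := by
      rw [map_sum, ← hg]
      exact Finset.sum_congr rfl fun i _ => map_smul _ _ _
    have h4 : (∑ i, g i • (b i).1) = 0 := by
      funext a
      have := congrFun h3 a.1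
      rw [ja2_ext_apply] at this
      exact this
    have h5 : (∑ i, g i • b i) = 0 := by
      apply Subtype.ext
      rw [Submodule.coe_sum]
      exact h4
    exact (Fintype.linearIndependent_iff.1 b.linearIndependent) g h5 i
  · intro X hX hf
    have h3 : (fun a : {a // h a = k} => X a.1) ∈ LinearMap.ker (ja2_T h f k) := by
      rw [LinearMap.mem_ker]
      funext a
      show f.mulVec (ja2_ext h k fun a => X a.1) a.1 = 0
      rw [ja2_ext_res h k hX, hf]
      rfl
    refine ⟨fun i => b.repr ⟨_, h3⟩ i, ?_⟩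
    have h4 := b.sum_repr ⟨_, h3⟩
    have h5 := congrArg (fun z => ja2_ext h k z.1) h4
    simp only [Submodule.coe_sum, map_sum] at h5
    rw [ja2_ext_res h k hX] at h5
    refine h5.symm.trans ?_
    exact Finset.sum_congr rfl fun i _ => map_smul _ _ _

/-- [JA2b] The dimensions decrease. PROOF. `#{a | h a = k - 2} ≤ #{a | h a = k}` for `k ≤ 0`: dimensions of the spaces of homogeneous vectors and the surjection `Gd.f_surj`. -/
theorem Gd.card_le {I : Type} [Fintype I] [DecidableEq I] {h : I → ℤ} {e f : Matrix I I ℂ}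
    (H : Gd.Sl2 h e f) {k : ℤ} (hk : k ≤ 0) :
    (Finset.univ.filter fun a => h a = k - 2).card ≤ (Finset.univ.filter fun a => h a = k).card := by
  have h1 := LinearMap.finrank_range_add_finrank_ker (ja2_T h f k)
  rw [LinearMap.range_eq_top.2 (ja2_surj H hk), finrank_top, ja2_card, ja2_card] at h1
  omega

end Pool.Agent.MTG
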