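import Mathlib

/-! # MTG-J : counting -/

namespace Pool.Agent.MTG

theorem ja3_one (d : ℕ → ℕ) (hd : ∀ k, d (k + 1) ≤ d k) (M : ℕ) :
    ∑ k ∈ Finset.range M, (d k - d (k + 1)) + d M = d 0 := by
  induction M with
  | zero => simp
  | succ M ih =>
    rw [Finset.sum_range_succ]
    have := hd M
    omega

theorem ja3_two (d : ℕ → ℕ) (hd : ∀ k, d (k + 1) ≤ d k) (M : ℕ) :
    ∑ k ∈ Finset.range (M + 1), k * (d k - d (k + 1)) + M * d (M + 1) =
      ∑ k ∈ Finset.Ico 1 (M + 1), d k := by
  induction M with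
  | zero => simp
  | succ M ih =>
    rw [Finset.sum_range_succ, Finset.sum_Ico_succ_top (by omega : 1 ≤ M + 1), ← ih, add_assoc,
      ← mul_add, Nat.sub_add_cancel (hd (M + 1))]
    ring

/-- [JA3] Telescoping sums. PROOF. `r k := d k - d (k + 1)`. First sum: `Finset.sum_range` telescopes to `d 0 - d M = d 0`. Second: `∑ k < M, k * (d k - d (k + 1)) = ∑ 1 ≤ k < M, d k` by induction on `M'`: `∑ k < M', k * (d k - d (k + 1)) + (M' - 1) * d M' = ∑ 1 ≤ k < M', d k`-like identity (all in `ℤ`). -/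
theorem tele_sums (M : ℕ) (d : ℕ → ℕ) (hd : ∀ k, d (k + 1) ≤ d k) (hM : d M = 0) :
    ∑ k : Fin M, (d k - d (k + 1)) = d 0 ∧
      ∑ k : Fin M, (k : ℕ) * (d k - d (k + 1)) = ∑ k ∈ Finset.Ico 1 M, d k := by
  constructor
  · rw [Fin.sum_univ_eq_sum_range (fun k => d k - d (k + 1)) M]
    have := ja3_one d hd M
    omega
  · rw [Fin.sum_univ_eq_sum_range (fun k => k * (d k - d (k + 1))) M]
    rcases M with _ | M
    · simp
    · have h1 := ja3_two d hd M
      rw [hM, mul_zero, add_zero] at h1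
      exact h1

/-- [JA3b] PROOF. For `a` with `h a < 0` even, `h a = - 2 k` with `1 ≤ k < M` (`hM`): partition by `k` (`Finset.card_eq_sum_card_fiberwise` with `f a := (- h a / 2).toNat`). -/
theorem card_neg {I : Type} [Fintype I] (h : I → ℤ) (hev : ∀ a, 2 ∣ h a) (M : ℕ) (hM : ∀ a, -2 * (M : ℤ) < h a) :
    (Finset.univ.filter fun a => h a < 0).card =
      ∑ k ∈ Finset.Ico 1 M, (Finset.univ.filter fun a => h a = -2 * (k : ℤ)).card := by
  rw [Finset.card_eq_sum_card_fiberwise (f := fun a => (- h a / 2).toNat) (t := Finset.Ico 1 M)]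
  · refine Finset.sum_congr rfl fun k hk => ?_
    congr 1
    ext a
    have h1 := Finset.mem_Ico.1 hk
    have h2 := hev a
    simp only [Finset.mem_filter, Finset.mem_univ, true_and]
    constructor
    · rintro ⟨h3, h4⟩
      omega
    · intro h3
      constructor <;> omega
  · intro a ha
    have h1 : h a < 0 := by simpa using ha
    have h2 := hev a
    have h3 := hM a
    simp only [Finset.coe_Ico, Set.mem_Ico]
    omega

end Pool.Agent.MTG
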