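import Pool.Agent.MTG.JA2
import Pool.Agent.MTG.JA3

/-! # MTG-J : the kernel of `f` -/

namespace Pool.Agent.MTG

open Pool.Agent.MTF Matrix
open Pool.Agent.MTD (ev)
open Pool.Agent.MTX.SLD (AA fm0)
open Pool.Agent.MTH

theorem ja4_f_ct {I : Type} [Fintype I] {h : I → ℤ} {f : Matrix I I ℂ} (hf : Gd.HM h (-2) f) (k : ℤ)
    (X : I → ℂ) : f.mulVec (Gd.ct h k X) = Gd.ct h (k - 2) (f.mulVec X) := by
  funext a
  simp only [Matrix.mulVec, dotProduct, Gd.ct]
  by_cases ha : h a = k - 2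
  · rw [if_pos ha]
    refine Finset.sum_congr rfl fun c _ => ?_
    by_cases hfc : f a c = 0
    · rw [hfc, zero_mul, zero_mul]
    · have := hf a c hfc
      rw [if_pos (by omega)]
  · rw [if_neg ha]
    refine Finset.sum_eq_zero fun c _ => ?_
    by_cases hfc : f a c = 0
    · rw [hfc, zero_mul]
    · have := hf a c hfc
      rw [if_neg (by omega), mul_zero]

theorem ja4_li {I : Type} [Fintype I] {h : I → ℤ} {M : ℕ} {r : Fin M → ℕ}
    (v : ∀ k : Fin M, Fin (r k) → I → ℂ) (hv : ∀ (k : Fin M) (i : Fin (r k)), Gd.InH h (-2 * ((k : ℕ) : ℤ)) (v k i))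
    (hli : ∀ k, LinearIndependent ℂ (v k)) :
    LinearIndependent ℂ (fun x : Σ k : Fin M, Fin (r k) => v x.1 x.2) := by
  rw [Fintype.linearIndependent_iff]
  intro g hg
  rw [Fintype.sum_sigma] at hg
  rintro ⟨k, j⟩
  have h1 := Fintype.linearIndependent_iff.1 (hli k) (fun j => g ⟨k, j⟩) ?_ j
  · exact h1
  funext a
  by_cases ha : h a = -2 * ((k : ℕ) : ℤ)
  · have h2 := congrFun hg a
    rw [Finset.sum_apply, Finset.sum_eq_single k] at h2
    · exact h2
    · intro k' _ hk'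
      rw [Finset.sum_apply]
      refine Finset.sum_eq_zero fun j' _ => ?_
      rw [Pi.smul_apply]
      by_cases h0 : v k' j' a = 0
      · simp only [h0, smul_zero]
      · have h3 := hv k' j' a h0
        exact absurd (Fin.ext (by omega)) hk'
    · intro hk
      exact absurd (Finset.mem_univ k) hk
  · rw [Finset.sum_apply]
    refine Finset.sum_eq_zero fun j' _ => ?_
    rw [Pi.smul_apply]
    by_cases h0 : v k j' a = 0
    · simp only [h0, smul_zero]
    · exact absurd (hv k j' a h0) ha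

/-- [JA4] A homogeneous basis of the kernel of `f`. PROOF. `M` with `-2 M < h a` for all `a`; `d k := #{a | h a = -2 k}`; `d (k + 1) ≤ d k` (`Gd.card_le`, `-2 k - 2 = -2 (k + 1)`), `d M = 0`, `r k := d k - d (k + 1)`. For `k : Fin M` take `v_k : Fin (r k) → I → ℂ` from `Gd.ker_basis_k` (height `-2 k`). The index type `Σ k : Fin M, Fin (r k)` has `∑ r k = d 0 = N` elements (`tele_sums`, `hN`): an equivalence `φ` with `Fin N`; `v i := v_k j`, `m i := k` for `φ i = ⟨k, j⟩`.
Spanning: `X` with `f X = 0`; its components `X_k` of height `-2 k` are in the kernel (`H.f_HM`), and there are no others (`Gd.ker_nonpos`, `hev`, `-2 M < h a`), `X = ∑ k, X_k`. Independence: a relation, taken in height `-2 k`, is a relation between the `v_k j` (`linearIndependent_iff'` / `Fintype.linearIndependent_iff`). `∑ m i = ∑ k, k * r k = ∑ 1 ≤ k < M, d k = #{a | h a < 0}` (`tele_sums`, `card_neg`). -/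
theorem Gd.ker_basis {I : Type} [Fintype I] [DecidableEq I] {h : I → ℤ} {e f : Matrix I I ℂ}
    (H : Gd.Sl2 h e f) (hev : ∀ a, 2 ∣ h a) {N : ℕ} (hN : (Finset.univ.filter fun a => h a = 0).card = N) :
    ∃ (v : Fin N → I → ℂ) (m : Fin N → ℕ), (∀ i, Gd.InH h (-2 * (m i : ℤ)) (v i)) ∧
      (∀ i, f.mulVec (v i) = 0) ∧ LinearIndependent ℂ v ∧
      (∀ X : I → ℂ, f.mulVec X = 0 → ∃ c : Fin N → ℂ, X = ∑ i, c i • v i) ∧
      ∑ i, m i = (Finset.univ.filter fun a => h a < 0).card := by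
  obtain ⟨M, hM⟩ : ∃ M : ℕ, ∀ a, -2 * (M : ℤ) < h a := by
    refine ⟨1 + ∑ a, (h a).natAbs, fun a => ?_⟩
    have h1 : (h a).natAbs ≤ ∑ a, (h a).natAbs :=
      Finset.single_le_sum (f := fun a => (h a).natAbs) (fun _ _ => Nat.zero_le _) (Finset.mem_univ a)
    omega
  have hcongr : ∀ {x y : ℤ}, x = y → (Finset.univ.filter fun a => h a = x).card =
      (Finset.univ.filter fun a => h a = y).card := by
    intro x y hxy
    rw [hxy]
  obtain ⟨d, hd⟩ : ∃ d : ℕ → ℕ, ∀ k : ℕ, d k = (Finset.univ.filter fun a => h a = -2 * (k : ℤ)).card :=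
    ⟨_, fun _ => rfl⟩
  have hd1 : ∀ k, d (k + 1) ≤ d k := by
    intro k
    have h1 := Gd.card_le H (k := -2 * (k : ℤ)) (by omega)
    rw [hd, hd]
    have h2 := hcongr (x := -2 * ((k + 1 : ℕ) : ℤ)) (y := -2 * (k : ℤ) - 2) (by push_cast; ring)
    omega
  have hdM : d M = 0 := by
    rw [hd, Finset.card_eq_zero, Finset.filter_eq_empty_iff]
    intro a _ ha
    have := hM a
    omega
  have hd0 : d 0 = N := by
    rw [hd, ← hN]
    exact hcongr (by simp)
  obtain ⟨hs1, hs2⟩ := tele_sums M d hd1 hdM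
  have hvk : ∀ k : Fin M, ∃ v : Fin (d k - d (k + 1)) → I → ℂ, (∀ i, Gd.InH h (-2 * ((k : ℕ) : ℤ)) (v i)) ∧
      (∀ i, f.mulVec (v i) = 0) ∧ LinearIndependent ℂ v ∧
      ∀ X : I → ℂ, Gd.InH h (-2 * ((k : ℕ) : ℤ)) X → f.mulVec X = 0 →
        ∃ c : Fin (d k - d (k + 1)) → ℂ, X = ∑ i, c i • v i := by
    intro k
    refine Gd.ker_basis_k H (by omega) ?_
    have h1 := hd1 k
    have h2 := hcongr (x := -2 * ((k : ℕ) : ℤ) - 2) (y := -2 * (((k : ℕ) + 1 : ℕ) : ℤ)) (by push_cast; ring)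
    rw [h2, ← hd, ← hd]
    omega
  choose v hv1 hv2 hv3 hv4 using hvk
  have hcard : Fintype.card (Σ k : Fin M, Fin (d k - d (k + 1))) = N := by
    rw [Fintype.card_sigma]
    simp only [Fintype.card_fin]
    rw [hs1, hd0]
  obtain ⟨φ⟩ : Nonempty (Fin N ≃ Σ k : Fin M, Fin (d k - d (k + 1))) :=
    ⟨(Fintype.equivFinOfCardEq hcard).symm⟩
  have hli : LinearIndependent ℂ (fun x : Σ k : Fin M, Fin (d k - d (k + 1)) => v x.1 x.2) :=
    ja4_li (r := fun k : Fin M => d k - d (k + 1)) v hv1 hv3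
  refine ⟨fun i => v (φ i).1 (φ i).2, fun i => (φ i).1, fun i => hv1 _ _, fun i => hv2 _ _, ?_, ?_, ?_⟩
  · exact hli.comp φ φ.injective
  · intro X hX
    have hc : ∀ k : Fin M, ∃ c : Fin (d k - d (k + 1)) → ℂ,
        Gd.ct h (-2 * ((k : ℕ) : ℤ)) X = ∑ i, c i • v k i := by
      intro k
      apply hv4
      · intro a ha
        by_contra hne
        apply ha
        simp only [Gd.ct]
        rw [if_neg hne]
      · rw [ja4_f_ct H.f_HM, hX]
        funext a
        simp [Gd.ct]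
    choose c hc using hc
    refine ⟨fun i => c (φ i).1 (φ i).2, ?_⟩
    have e1 : ∑ i : Fin N, c (φ i).1 (φ i).2 • v (φ i).1 (φ i).2 =
        ∑ x : Σ k : Fin M, Fin (d k - d (k + 1)), c x.1 x.2 • v x.1 x.2 :=
      Equiv.sum_comp φ (fun x : Σ k : Fin M, Fin (d k - d (k + 1)) => c x.1 x.2 • v x.1 x.2)
    rw [e1, Fintype.sum_sigma]
    have e2 : ∀ k : Fin M, ∑ j : Fin (d k - d (k + 1)), c k j • v k j = Gd.ct h (-2 * ((k : ℕ) : ℤ)) X :=
      fun k => (hc k).symm
    rw [Finset.sum_congr rfl fun k _ => e2 k]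
    funext a
    rw [Finset.sum_apply]
    by_cases hXa : X a = 0
    · rw [hXa]
      refine (Finset.sum_eq_zero fun k _ => ?_).symm
      simp only [Gd.ct]
      rw [hXa]
      simp
    · have h1 := Gd.ker_nonpos H hX a hXa
      obtain ⟨q, hq⟩ := hev a
      have h2 := hM a
      have h3 : (-q).toNat < M := by omega
      rw [Finset.sum_eq_single (⟨(-q).toNat, h3⟩ : Fin M)]
      · simp only [Gd.ct]
        rw [if_pos (by show h a = -2 * (((-q).toNat : ℕ) : ℤ); omega)]
      · intro k _ hk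
        simp only [Gd.ct]
        rw [if_neg]
        intro h4
        apply hk
        apply Fin.ext
        show (k : ℕ) = (-q).toNat
        omega
      · intro h4
        exact absurd (Finset.mem_univ _) h4
  · have e1 : ∑ i : Fin N, (((φ i).1 : Fin M) : ℕ) =
        ∑ x : Σ k : Fin M, Fin (d k - d (k + 1)), ((x.1 : Fin M) : ℕ) :=
      Equiv.sum_comp φ (fun x : Σ k : Fin M, Fin (d k - d (k + 1)) => ((x.1 : Fin M) : ℕ))
    rw [e1, Fintype.sum_sigma, card_neg h hev M hM]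
    have e2 : ∀ k : Fin M, ∑ j : Fin (d k - d (k + 1)), ((k : Fin M) : ℕ) = (k : ℕ) * (d k - d (k + 1)) := by
      intro k
      rw [Finset.sum_const, Finset.card_univ, Fintype.card_fin, smul_eq_mul, mul_comm]
    rw [Finset.sum_congr rfl fun k _ => e2 k, hs2]
    exact Finset.sum_congr rfl fun k _ => hd k

end Pool.Agent.MTG
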