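import Pool.Agent.MTG.YS3c

/-! # MTG-J : coordinates on the kernel of `f` -/

namespace Pool.Agent.MTG

open Pool.Agent.MTF Matrix
open Pool.Agent.MTD (ev)
open Pool.Agent.MTX.SLD (AA fm0)
open Pool.Agent.MTH

/-- [JA5] Homogeneous coordinates. PROOF. `v` is linearly independent: there are linear forms `Λ i` on `I → ℂ` with `Λ i (v j) = δ` (a left inverse of the injective map `c ↦ ∑ c i • v i`: `LinearMap.exists_leftInverse_of_injective`). `lam i a := if h a = -2 m i then Λ i (Pi.single a 1) else 0`. Then `∑ a, lam i a * v j a = δ`: if `m j = m i` all `a` with `v j a ≠ 0` have `h a = -2 m i`, so the sum is `Λ i (v j)`;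
if `m j ≠ m i` it is `0`, and `i ≠ j`. For complex `X` in the kernel: `X = ∑ c j • v j`, so `c i = ∑ a, lam i a * X a`. For `X : I → AA n`: for each monomial `s` the complex vector `fun a => (X a).coeff s` is in the kernel of `f` (coefficients of `(f.map C).mulVec X = 0`), so `(X a).coeff s = ∑ i, (∑ b, lam i b * (X b).coeff s) * v i a`; `MvPolynomial.ext`, `coeff_C_mul`, `coeff_sum`. -/
theorem Gd.coord {I : Type} [Fintype I] [DecidableEq I] {h : I → ℤ} {f : Matrix I I ℂ} {N : ℕ}
    {v : Fin N → I → ℂ} {m : Fin N → ℕ} (hv : ∀ i, Gd.InH h (-2 * (m i : ℤ)) (v i)) (hi : LinearIndependent ℂ v)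
    (hs : ∀ X : I → ℂ, f.mulVec X = 0 → ∃ c : Fin N → ℂ, X = ∑ i, c i • v i) (n : ℕ) :
    ∃ lam : Fin N → I → ℂ, (∀ i a, lam i a ≠ 0 → h a = -2 * (m i : ℤ)) ∧
      ∀ X : I → AA n, (f.map (MvPolynomial.C : ℂ →+* AA n)).mulVec X = 0 →
        ∀ a, X a = ∑ i, (∑ b, MvPolynomial.C (lam i b) * X b) * MvPolynomial.C (v i a) := by
  classical
  obtain ⟨Λ, hΛ⟩ : ∃ Λ : (I → ℂ) →ₗ[ℂ] (Fin N → ℂ), ∀ c : Fin N → ℂ, Λ (∑ i, c i • v i) = c := by
    have hinj : LinearMap.ker (Fintype.linearCombination ℂ v) = ⊥ :=
      LinearMap.ker_eq_bot.2 (linearIndependent_iff_injective_fintypeLinearCombination.1 hi)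
    obtain ⟨Λ, hΛ⟩ := LinearMap.exists_leftInverse_of_injective (Fintype.linearCombination ℂ v) hinj
    refine ⟨Λ, fun c => ?_⟩
    have h1 := LinearMap.congr_fun hΛ c
    rw [LinearMap.comp_apply, Fintype.linearCombination_apply] at h1
    exact h1
  have hsum : ∀ (X : I → ℂ) (i : Fin N),
      Λ X i = ∑ a, X a * Λ (fun j => if a = j then 1 else 0) i := by
    intro X i
    have h1 := LinearMap.pi_apply_eq_sum_univ Λ X
    rw [h1, Finset.sum_apply]
    exact Finset.sum_congr rfl fun a _ => rfl
  have key2 : ∀ i j : Fin N, ∑ a, (if h a = -2 * (m i : ℤ) then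
      Λ (fun j => if a = j then 1 else 0) i else 0) * v j a = if i = j then 1 else 0 := by
    intro i j
    by_cases hm : m j = m i
    · have h1 : ∑ a, (if h a = -2 * (m i : ℤ) then
          Λ (fun j => if a = j then 1 else 0) i else 0) * v j a = Λ (v j) i := by
        rw [hsum]
        refine Finset.sum_congr rfl fun a _ => ?_
        by_cases hva : v j a = 0
        · rw [hva, mul_zero, zero_mul]
        · have h2 : h a = -2 * (m j : ℤ) := hv j a hva
          rw [if_pos (by rw [h2, hm]), mul_comm]
      have h3 : Λ (v j) = Pi.single j 1 := by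
        have h4 := hΛ (Pi.single j 1)
        have h5 : ∑ i, (Pi.single j 1 : Fin N → ℂ) i • v i = v j := by
          rw [Finset.sum_eq_single j]
          · rw [Pi.single_eq_same, one_smul]
          · intro b _ hb
            rw [Pi.single_eq_of_ne hb, zero_smul]
          · intro hj
            exact absurd (Finset.mem_univ j) hj
        rw [h5] at h4
        exact h4
      rw [h1, h3, Pi.single_apply]
    · have hij : i ≠ j := fun h1 => hm (by rw [h1])
      rw [if_neg hij]
      refine Finset.sum_eq_zero fun a _ => ?_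
      by_cases hva : v j a = 0
      · rw [hva, mul_zero]
      · have h2 : h a = -2 * (m j : ℤ) := hv j a hva
        rw [if_neg (by rw [h2]; intro h3; exact hm (by omega)), zero_mul]
  obtain ⟨lam, hlam⟩ : ∃ lam : Fin N → I → ℂ, ∀ i a, lam i a =
      if h a = -2 * (m i : ℤ) then Λ (fun j => if a = j then 1 else 0) i else 0 :=
    ⟨_, fun _ _ => rfl⟩
  have key2' : ∀ i j : Fin N, ∑ a, lam i a * v j a = if i = j then 1 else 0 := by
    intro i j
    rw [← key2 i j]
    exact Finset.sum_congr rfl fun a _ => by rw [hlam]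
  have key3 : ∀ X : I → ℂ, f.mulVec X = 0 → ∀ a, X a = ∑ i, (∑ b, lam i b * X b) * v i a := by
    intro X hX a
    obtain ⟨c, hc⟩ := hs X hX
    have hXa : ∀ b, X b = ∑ j, c j * v j b := by
      intro b
      rw [hc, Finset.sum_apply]
      exact Finset.sum_congr rfl fun j _ => rfl
    have h1 : ∀ i, ∑ b, lam i b * X b = c i := by
      intro i
      simp only [hXa, Finset.mul_sum]
      rw [Finset.sum_comm]
      have h2 : ∀ j, ∑ b, lam i b * (c j * v j b) = c j * (if i = j then 1 else 0) := by
        intro j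
        rw [← key2' i j, Finset.mul_sum]
        exact Finset.sum_congr rfl fun b _ => by ring
      simp only [h2]
      rw [Finset.sum_eq_single i]
      · rw [if_pos rfl, mul_one]
      · intro j _ hj
        rw [if_neg (Ne.symm hj), mul_zero]
      · intro hj
        exact absurd (Finset.mem_univ i) hj
    simp only [h1]
    exact hXa a
  refine ⟨lam, ?_, ?_⟩
  · intro i a hne
    by_contra h1
    rw [hlam, if_neg h1] at hne
    exact hne rfl
  · intro X hX a
    apply MvPolynomial.ext
    intro s
    have h1 : f.mulVec (fun b => (X b).coeff s) = 0 := by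
      funext a
      have h2 := congrFun hX a
      have h3 : ∑ b, MvPolynomial.C (f a b) * X b = 0 := h2
      have h4 := congrArg (MvPolynomial.coeff s) h3
      rw [MvPolynomial.coeff_sum, MvPolynomial.coeff_zero] at h4
      show ∑ b, f a b * (X b).coeff s = 0
      rw [← h4]
      exact Finset.sum_congr rfl fun b _ => by rw [MvPolynomial.coeff_C_mul]
    have h5 := key3 _ h1 a
    rw [MvPolynomial.coeff_sum]
    have h6 : (X a).coeff s = ∑ i, (∑ b, lam i b * (X b).coeff s) * v i a := h5
    rw [h6]
    refine Finset.sum_congr rfl fun i _ => ?_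
    rw [mul_comm (∑ b, MvPolynomial.C (lam i b) * X b) (MvPolynomial.C (v i a)),
      MvPolynomial.coeff_C_mul, MvPolynomial.coeff_sum, mul_comm]
    congr 1
    exact Finset.sum_congr rfl fun b _ => by rw [MvPolynomial.coeff_C_mul]

end Pool.Agent.MTG
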