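import Pool.Agent.MTG.YS1

/-! # MTG-YS : the Kostant slice -/

namespace Pool.Agent.MTG

open Pool.Agent.MTF Matrix
open Pool.Agent.MTD (ev)
open Pool.Agent.MTX.SLD (AA fm0)
open Pool.Agent.MTH

theorem YS1b_cp {n : ℕ} (D : RD n) (γ : D.Rt) (x : Fin n → ℤ) :
    D.cp γ x = ∑ k, x k * D.cp γ (Pi.single k 1) := by
  let φ : (Fin n → ℤ) →+ ℤ := ⟨⟨D.cp γ, D.cp_zero γ⟩, D.cp_add γ⟩
  have h : φ x = ∑ k, φ (x k • (Pi.single k 1 : Fin n → ℤ)) := by
    rw [← map_sum, ← eq_sum_single x]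
  refine Eq.trans (show D.cp γ x = φ x from rfl) (h.trans ?_)
  exact Finset.sum_congr rfl fun k _ => D.cp_smul γ (x k) _

theorem YS1b_ht2_ng {n : ℕ} (D : RD n) {γ : D.Rt} (h : D.Sim (D.ng γ)) : D.ht2 γ.1 = -2 := by
  have h1 := D.ht2_sim ⟨D.ng γ, h⟩
  have h2 := D.ht2_smul (-1) γ.1
  have h3 : ((-1 : ℤ) • γ.1 : Fin n → ℤ) = (D.ng γ).1 := by
    rw [neg_one_smul]; rfl
  rw [h3] at h2
  have h4 : D.ht2 (D.ng γ).1 = 2 := h1
  rw [h4] at h2
  linarith

/-- the bracket of the root vectors of a simple root and of the negative of a simple root -/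
theorem CD.YS1b_br {G : AffGrp} {n : ℕ} {D : RD n} (C : CD G D) {γ δ : D.Rt} (h1 : D.Sim γ)
    (h2 : D.Sim (D.ng δ)) (h : δ ≠ D.ng γ) : ⁅C.e γ, C.e δ⁆ = 0 := by
  refine C.e_co γ δ h fun μ hμ => ?_
  have e1 : D.ht2 μ.1 = 0 := by
    rw [hμ, D.ht2_add, YS1b_ht2_ng D h2, D.ht2_sim ⟨γ, h1⟩]
    norm_num
  rcases D.pos_or_neg μ with hp | hp
  · have := (D.ht2_pos hp).1
    omega
  · have e2 := (D.ht2_pos hp).1
    have e3 := D.ht2_smul (-1) μ.1
    have e4 : ((-1 : ℤ) • μ.1 : Fin n → ℤ) = (D.ng μ).1 := by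
      rw [neg_one_smul]; rfl
    rw [e4, e1] at e3
    omega

/-- YS1b.  `e`, `f` form `sl₂`-data in every weight representation.  `e_HM`, `f_HM` : `IsW.d_e` and
`ht2_sim`, `ht2_add`.  `[e, f] = ∑_{s,t} r_t [e_s, e_{-t}]`; for simple `s ≠ t` the bracket vanishes
(`e_co`: `s - t` is not a root, since roots have `ht2 ≠ 0` (`ht2_pos`) and `ht2 (s - t) = 0`; `-t ≠ -s`);
for `s = t` it is `∑_k cp s (single k 1) h_k` (`e_ng`), whose matrix is the diagonal matrix with entries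
`∑_k cp s (single k 1) (w a) k = cp s (w a)`; conclude with `rr_spec`. -/
theorem CD.sl2 {G : AffGrp} {n : ℕ} {D : RD n} (C : CD G D) {E : MTF.Rep G} {w : E.ι → Fin n → ℤ}
    (hE : C.IsW E w) : Gd.Sl2 (fun a => D.ht2 (w a)) (C.dm E (CD.ee D ℂ)) (C.dm E (CD.ff D ℂ)) := by
  classical
  refine ⟨?_, ?_, ?_⟩
  · intro a c h
    rw [dm_apply] at h
    obtain ⟨j, -, hj⟩ := Finset.exists_ne_zero_of_sum_ne_zero h
    rcases j with k | γ
    · exact absurd (by simp [CD.ee, CD.ez]) hj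
    · have h1 : D.Sim γ := by
        by_contra hn
        exact hj (by simp [CD.ee, CD.ez, hn])
      have h2 : E.d (C.e γ) a c ≠ 0 := fun h0 => hj (by
        show _ * algebraMap ℂ ℂ (E.d (C.e γ) a c) = 0
        rw [h0]; simp)
      show D.ht2 (w a) = D.ht2 (w c) + 2
      rw [hE.d_e γ a c h2, D.ht2_add, D.ht2_sim ⟨γ, h1⟩]
  · intro a c h
    rw [dm_apply] at h
    obtain ⟨j, -, hj⟩ := Finset.exists_ne_zero_of_sum_ne_zero h
    rcases j with k | γ
    · exact absurd (by simp [CD.ff, CD.ez]) hj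
    · have h1 : D.Sim (D.ng γ) := by
        by_contra hn
        exact hj (by simp [CD.ff, CD.ez, hn])
      have h2 : E.d (C.e γ) a c ≠ 0 := fun h0 => hj (by
        show _ * algebraMap ℂ ℂ (E.d (C.e γ) a c) = 0
        rw [h0]; simp)
      show D.ht2 (w a) = D.ht2 (w c) + (-2)
      rw [hE.d_e γ a c h2, D.ht2_add, YS1b_ht2_ng D h1]
  · have e1 : ∑ j, CD.ee D ℂ j • C.bs j = ∑ γ : D.Rt, (if D.Sim γ then (1 : ℂ) else 0) • C.e γ := by
      rw [Fintype.sum_sum_type]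
      simp only [CD.ee, CD.ez, Sum.elim_inl, Sum.elim_inr, Pi.zero_apply, zero_smul,
        Finset.sum_const_zero, zero_add]
    have e2 : ∑ j, CD.ff D ℂ j • C.bs j =
        ∑ γ : D.Rt, (if h : D.Sim (D.ng γ) then D.rr ⟨D.ng γ, h⟩ else 0) • C.e γ := by
      rw [Fintype.sum_sum_type]
      simp only [CD.ff, CD.ez, Sum.elim_inl, Sum.elim_inr, Pi.zero_apply, zero_smul,
        Finset.sum_const_zero, zero_add]
      refine Finset.sum_congr rfl fun γ _ => ?_
      by_cases h : D.Sim (D.ng γ)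
      · rw [dif_pos h, dif_pos h]; rfl
      · rw [dif_neg h, dif_neg h]
    rw [dm_complex, dm_complex, e1, e2, ← E.d_lie]
    have e3 : ⁅∑ γ : D.Rt, (if D.Sim γ then (1 : ℂ) else 0) • C.e γ,
        ∑ γ : D.Rt, (if h : D.Sim (D.ng γ) then D.rr ⟨D.ng γ, h⟩ else 0) • C.e γ⁆ =
        ∑ s : D.SRt, D.rr s • ∑ k, ((D.cp s.1 (Pi.single k 1) : ℤ) : ℂ) • C.bs (Sum.inl k) := by
      rw [_root_.sum_lie]
      have e6 : ∀ γ : D.Rt, ⁅(if D.Sim γ then (1 : ℂ) else 0) • C.e γ,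
          ∑ γ : D.Rt, (if h : D.Sim (D.ng γ) then D.rr ⟨D.ng γ, h⟩ else 0) • C.e γ⁆ =
          if h : D.Sim γ then D.rr ⟨γ, h⟩ •
            ∑ k, ((D.cp γ (Pi.single k 1) : ℤ) : ℂ) • C.bs (Sum.inl k) else 0 := by
        intro γ
        by_cases h : D.Sim γ
        · rw [if_pos h, one_smul, dif_pos h, _root_.lie_sum, Finset.sum_eq_single (D.ng γ)]
          · have h' : D.Sim (D.ng (D.ng γ)) := by rw [D.ng_ng]; exact h
            rw [dif_pos h', lie_smul, C.e_ng]
            have h7 : (⟨D.ng (D.ng γ), h'⟩ : D.SRt) = ⟨γ, h⟩ := Subtype.ext (D.ng_ng γ)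
            rw [h7]
          · intro δ _ hδ
            by_cases h2 : D.Sim (D.ng δ)
            · rw [lie_smul, C.YS1b_br h h2 hδ, smul_zero]
            · rw [dif_neg h2, zero_smul, lie_zero]
          · intro h0
            exact absurd (Finset.mem_univ _) h0
        · rw [if_neg h, dif_neg h, zero_smul, zero_lie]
      rw [Finset.sum_congr rfl fun γ _ => e6 γ]
      have e7 : ∀ f : D.SRt → G.Lie, ∑ γ : D.Rt, (if h : D.Sim γ then f ⟨γ, h⟩ else 0) =
          ∑ s : D.SRt, f s := by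
        intro f
        rw [← Finset.sum_filter_add_sum_filter_not Finset.univ D.Sim]
        rw [Finset.sum_eq_zero (s := Finset.univ.filter fun γ => ¬ D.Sim γ) (fun γ hγ =>
          dif_neg (Finset.mem_filter.1 hγ).2), add_zero]
        symm
        refine Finset.sum_bij (fun s _ => s.1) (fun s _ => Finset.mem_filter.2
          ⟨Finset.mem_univ _, s.2⟩) (fun s _ t _ h => Subtype.ext h)
          (fun γ hγ => ⟨⟨γ, (Finset.mem_filter.1 hγ).2⟩, Finset.mem_univ _, rfl⟩)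
          (fun s _ => ?_)
        rw [dif_pos s.2]
      exact e7 fun s => D.rr s • ∑ k, ((D.cp s.1 (Pi.single k 1) : ℤ) : ℂ) • C.bs (Sum.inl k)
    rw [e3, map_sum]
    ext a b
    rw [Matrix.sum_apply]
    have e4 : ∀ s : D.SRt, E.d (D.rr s • ∑ k, ((D.cp s.1 (Pi.single k 1) : ℤ) : ℂ) •
        C.bs (Sum.inl k)) a b = if a = b then D.rr s * ((D.cp s.1 (w a) : ℤ) : ℂ) else 0 := by
      intro s
      rw [map_smul, map_sum, Matrix.smul_apply, Matrix.sum_apply]
      have e5 : ∀ k : Fin n, E.d (((D.cp s.1 (Pi.single k 1) : ℤ) : ℂ) • C.bs (Sum.inl k)) a b =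
          if a = b then (((w a k * D.cp s.1 (Pi.single k 1) : ℤ)) : ℂ) else 0 := by
        intro k
        have h3 : E.d (C.bs (Sum.inl k)) = Matrix.diagonal fun a => ((w a k : ℤ) : ℂ) := hE.d_h k
        rw [map_smul, Matrix.smul_apply, h3, Matrix.diagonal_apply]
        by_cases hab : a = b
        · rw [if_pos hab, if_pos hab, smul_eq_mul]; push_cast; ring
        · rw [if_neg hab, if_neg hab, smul_zero]
      rw [Finset.sum_congr rfl fun k _ => e5 k]
      by_cases hab : a = b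
      · simp only [if_pos hab]
        rw [YS1b_cp D s.1 (w a), smul_eq_mul]
        push_cast
        rfl
      · simp only [if_neg hab, Finset.sum_const_zero, smul_zero]
    rw [Finset.sum_congr rfl fun s _ => e4 s, Matrix.diagonal_apply]
    by_cases hab : a = b
    · simp only [if_pos hab]
      exact D.rr_spec (w a)
    · simp only [if_neg hab, Finset.sum_const_zero]

end Pool.Agent.MTG
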