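import Pool.Agent.MTG.YS5b

/-! # MTG-YS : the Kostant slice -/

namespace Pool.Agent.MTG

open Pool.Agent.MTF Matrix
open Pool.Agent.MTD (ev)
open Pool.Agent.MTX.SLD (AA fm0)
open Pool.Agent.MTH

theorem YS5c_ev {n : ℕ} (x : Fin n → ℤ) :
    (fm0 x : AA n) = ev x (MvPolynomial.X : Fin n → AA n) := by
  unfold fm0 ev MTX.lin
  refine Finset.sum_congr rfl fun k _ => ?_
  simp

/-- YS5c.  `u • sx j = sx j`: `u • p = aeval (fun i => fm0 (u e_i)) p` (`D.W_smul_def`, `actO`) and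
`fm0 (u e_i) = ev (u e_i) X = wx u⁻¹ X i`, so `u • sx j = sxR (wx u⁻¹ X) j = sxR X j = sx j` (`sxR_W`, `R = AA n`,
`MvPolynomial.aeval_X_left`).  [`fm0 x = ∑ x i • X i`, see MTX/S.. ; `ev`.] -/
theorem CD.sx_W {G : AffGrp} {n : ℕ} {D : RD n} (C : CD G D) (u : D.W) (j : Fin n ⊕ D.Rt) :
    u • C.sx j = C.sx j := by
  have h1 := congrFun (C.sxR_W (R := AA n) u⁻¹ (MvPolynomial.X : Fin n → AA n)) j
  have h2 : C.sxR (MvPolynomial.X : Fin n → AA n) j = C.sx j := by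
    unfold CD.sxR
    rw [MvPolynomial.aeval_X_left]
    rfl
  rw [h2] at h1
  have h3 : C.sxR (wx u⁻¹ (MvPolynomial.X : Fin n → AA n)) j = u • C.sx j := by
    rw [D.W_smul_def]
    unfold CD.sxR RD.actO
    have h4 : (wx u⁻¹ (MvPolynomial.X : Fin n → AA n)) = fun i => fm0 (u.1 (Pi.single i 1)) := by
      funext i
      unfold wx
      rw [YS5c_ev, inv_inv]
    rw [h4]
  rw [← h3, h1]

end Pool.Agent.MTG
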