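import Pool.Agent.MTG.YS5a

/-! # MTG-YS : the Kostant slice -/

namespace Pool.Agent.MTG

open Pool.Agent.MTF Matrix
open Pool.Agent.MTD (ev)
open Pool.Agent.MTX.SLD (AA fm0)
open Pool.Agent.MTH

section ys5d

open Pool.Agent.MP_c45d35_ag (chi chi_inv)

/-- the unit `2` -/
noncomputable def y5d_u (n : ℕ) : (AA n)ˣ :=
  Units.map ((algebraMap ℂ (AA n) : ℂ →+* AA n) : ℂ →* AA n) (Units.mk0 (2 : ℂ) two_ne_zero)

theorem y5d_uz (n : ℕ) (d : ℤ) :
    ((y5d_u n ^ d : (AA n)ˣ) : AA n) = MvPolynomial.C ((2 : ℂ) ^ d) := by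
  unfold y5d_u
  rw [← map_zpow, Units.coe_map, Units.val_zpow_eq_zpow_val, Units.val_mk0]
  rfl

theorem y5d_u2 (n : ℕ) : ((y5d_u n ^ (2 : ℤ) : (AA n)ˣ) : AA n) = MvPolynomial.C 4 := by
  rw [y5d_uz]
  congr 1
  norm_num

theorem y5d_prodz {M ι : Type} [CommGroup M] (u : M) (f : ι → ℤ) (s : Finset ι) :
    ∏ k ∈ s, u ^ f k = u ^ ∑ k ∈ s, f k := by
  classical
  induction s using Finset.induction_on with
  | empty => rw [Finset.prod_empty, Finset.sum_empty, zpow_zero]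
  | insert a s ha ih => rw [Finset.prod_insert ha, Finset.sum_insert ha, _root_.zpow_add, ih]

theorem y5d_ht0 {n : ℕ} (D : RD n) : D.ht2 0 = 0 := by
  have h := D.ht2_smul 0 0
  rw [zero_smul, zero_mul] at h
  exact h

theorem y5d_ht {n : ℕ} (D : RD n) (μ : Fin n → ℤ) :
    D.ht2 μ = ∑ k, D.ht2 (Pi.single k 1) * μ k := by
  let L : (Fin n → ℤ) →+ ℤ :=
    { toFun := D.ht2
      map_zero' := y5d_ht0 D
      map_add' := D.ht2_add }
  have h1 : L μ = ∑ k, L (Pi.single k (μ k)) := by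
    rw [← map_sum, Finset.univ_sum_single]
  have h2 : D.ht2 μ = ∑ k, D.ht2 (Pi.single k (μ k)) := h1
  rw [h2]
  refine Finset.sum_congr rfl fun k _ => ?_
  have h3 : (Pi.single k (μ k) : Fin n → ℤ) = μ k • Pi.single k 1 := by
    funext l
    rw [Pi.smul_apply, Pi.single_apply, Pi.single_apply, smul_eq_mul]
    split_ifs
    · rw [mul_one]
    · rw [mul_zero]
  rw [h3, D.ht2_smul, mul_comm]

/-- the point `2 ^ (2 ρ^∨)` -/
noncomputable def y5d_t {n : ℕ} (D : RD n) : Fin n → (AA n)ˣ :=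
  fun k => y5d_u n ^ D.ht2 (Pi.single k 1)

theorem y5d_chi {n : ℕ} (D : RD n) (μ : Fin n → ℤ) :
    chi μ (y5d_t D) = y5d_u n ^ D.ht2 μ := by
  unfold chi y5d_t
  rw [y5d_ht D μ, ← y5d_prodz]
  exact Finset.prod_congr rfl fun k _ => (_root_.zpow_mul _ _ _).symm

theorem y5d_chi' {n : ℕ} (D : RD n) (μ : Fin n → ℤ) :
    chi μ (y5d_t D)⁻¹ = y5d_u n ^ (- D.ht2 μ) := by
  rw [chi_inv, y5d_chi, _root_.zpow_neg]

theorem y5d_tq1 {G : AffGrp} {n : ℕ} {D : RD n} (C : CD G D) :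
    tq C (1 : Fin n → (AA n)ˣ) = 1 := by
  have h := tq_mul C (1 : Fin n → (AA n)ˣ) 1
  rw [mul_one] at h
  refine (mul_left_cancel (a := tq C (1 : Fin n → (AA n)ˣ)) ?_).symm
  rw [mul_one]
  exact h

theorem y5d_tqi {G : AffGrp} {n : ℕ} {D : RD n} (C : CD G D) :
    (tq C (y5d_t D)⁻¹)⁻¹ = tq C (y5d_t D) := by
  rw [inv_eq_iff_mul_eq_one, ← tq_mul, inv_mul_cancel]
  exact y5d_tq1 C

theorem y5d_Adg {G : AffGrp} {n : ℕ} {D : RD n} (C : CD G D) (z : LR D (AA n))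
    (j : Fin n ⊕ D.Rt) : Adp C (tq C (y5d_t D)) z j =
      ((y5d_u n ^ D.ht2 (wA (D := D) j) : (AA n)ˣ) : AA n) * z j := by
  rw [Adp_tq]
  rcases j with k | γ
  · show z (Sum.inl k) = ((y5d_u n ^ D.ht2 0 : (AA n)ˣ) : AA n) * z (Sum.inl k)
    rw [y5d_ht0, zpow_zero, Units.val_one, one_mul]
  · show ((chi γ.1 (y5d_t D) : (AA n)ˣ) : AA n) * z (Sum.inr γ) =
      ((y5d_u n ^ D.ht2 γ.1 : (AA n)ˣ) : AA n) * z (Sum.inr γ)
    rw [y5d_chi]

theorem y5d_Adq {G : AffGrp} {n : ℕ} {D : RD n} (C : CD G D) (z : LR D (AA n))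
    (j : Fin n ⊕ D.Rt) : Adp C (tq C (y5d_t D)⁻¹) z j =
      ((y5d_u n ^ (- D.ht2 (wA (D := D) j)) : (AA n)ˣ) : AA n) * z j := by
  rw [Adp_tq]
  rcases j with k | γ
  · show z (Sum.inl k) = ((y5d_u n ^ (- D.ht2 0) : (AA n)ˣ) : AA n) * z (Sum.inl k)
    rw [y5d_ht0, neg_zero, zpow_zero, Units.val_one, one_mul]
  · show ((chi γ.1 (y5d_t D)⁻¹ : (AA n)ˣ) : AA n) * z (Sum.inr γ) =
      ((y5d_u n ^ (- D.ht2 γ.1) : (AA n)ˣ) : AA n) * z (Sum.inr γ)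
    rw [y5d_chi']

theorem y5d_br1 {G : AffGrp} {n : ℕ} {D : RD n} (C : CD G D) (r : AA n) (z z' : LR D (AA n)) :
    C.br (r • z) z' = r • C.br z z' := by
  rw [← dm_AdR, ← dm_AdR, C.dm_smul]
  exact Matrix.smul_mulVec _ _ _

theorem y5d_br2 {G : AffGrp} {n : ℕ} {D : RD n} (C : CD G D) (r : AA n) (z z' : LR D (AA n)) :
    C.br z (r • z') = r • C.br z z' := by
  rw [← dm_AdR, ← dm_AdR]
  exact Matrix.mulVec_smul _ _ _

theorem y5d_mulz (n : ℕ) (a b : ℤ) (p : AA n) :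
    ((y5d_u n ^ a : (AA n)ˣ) : AA n) * (((y5d_u n ^ b : (AA n)ˣ) : AA n) * p) =
      ((y5d_u n ^ (a + b) : (AA n)ˣ) : AA n) * p := by
  rw [_root_.zpow_add, Units.val_mul, mul_assoc]

/-- the scaling of the variables -/
noncomputable def y5d_x (n : ℕ) : Fin n → AA n := fun k => MvPolynomial.C 4 * MvPolynomial.X k

/-- the values of the slice element and its conjugator at `4 X` -/
theorem y5d_main {G : AffGrp} {n : ℕ} {D : RD n} (C : CD G D) :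
    C.pxR (y5d_x n) = tq C (y5d_t D)⁻¹ * C.px * tq C (y5d_t D) ∧
      ∀ j, C.szR (y5d_x n) j =
        ((y5d_u n ^ (2 - D.ht2 (wA (D := D) j)) : (AA n)ˣ) : AA n) * C.sz j := by
  have hU : UU C (-1) (tq C (y5d_t D)⁻¹ * C.px * tq C (y5d_t D)) := by
    have h := UU_conj C C.px_UU (y5d_t D)⁻¹
    rw [y5d_tqi] at h
    exact h
  have hf : Adp C (tq C (y5d_t D)⁻¹) (CD.ff D (AA n)) =
      ((y5d_u n ^ (2 : ℤ) : (AA n)ˣ) : AA n) • CD.ff D (AA n) := by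
    funext j
    rw [y5d_Adq, Pi.smul_apply, smul_eq_mul]
    rcases j with k | γ
    · have h1 : CD.ff D (AA n) (Sum.inl k) = 0 := rfl
      rw [h1, mul_zero, mul_zero]
    · by_cases h1 : D.Sim (D.ng γ)
      · have h2 := D.ht2_sim ⟨D.ng γ, h1⟩
        have h3 : D.ht2 (D.ng γ).1 = - D.ht2 γ.1 := by
          have h4 := D.ht2_smul (-1) γ.1
          rw [neg_one_smul, neg_one_mul] at h4
          exact h4
        have h5 : - D.ht2 (wA (D := D) (Sum.inr γ)) = 2 := by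
          show - D.ht2 γ.1 = 2
          rw [← h3]
          exact h2
        rw [h5]
      · have h2 : CD.ff D (AA n) (Sum.inr γ) = 0 := dif_neg h1
        rw [h2, mul_zero, mul_zero]
  obtain ⟨z, hz⟩ : ∃ z : LR D (AA n), ∀ j, z j =
      ((y5d_u n ^ (2 - D.ht2 (wA (D := D) j)) : (AA n)ˣ) : AA n) * C.sz j :=
    ⟨fun j => _, fun j => rfl⟩
  have hz' : z = ((y5d_u n ^ (2 : ℤ) : (AA n)ˣ) : AA n) • Adp C (tq C (y5d_t D)⁻¹) C.sz := by
    funext j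
    rw [hz, Pi.smul_apply, smul_eq_mul, y5d_Adq, y5d_mulz, ← sub_eq_add_neg]
  have hbr : C.br (CD.ff D (AA n)) z = 0 := by
    rw [hz', y5d_br2, ← y5d_br1, ← hf, ← Adp_br, C.sz_br]
    exact Matrix.mulVec_zero _
  have h1 : Adp C (tq C (y5d_t D)) (CD.ee D (AA n) + CD.hx (y5d_x n)) =
      ((y5d_u n ^ (2 : ℤ) : (AA n)ˣ) : AA n) • (CD.ee D (AA n) + CD.hx MvPolynomial.X) := by
    funext j
    rw [y5d_Adg, Pi.smul_apply, smul_eq_mul, Pi.add_apply, Pi.add_apply]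
    rcases j with k | γ
    · have e1 : CD.ee D (AA n) (Sum.inl k) = 0 := rfl
      have e2 : (CD.hx (D := D) (y5d_x n)) (Sum.inl k) = MvPolynomial.C 4 * MvPolynomial.X k := rfl
      have e3 : (CD.hx (D := D) (MvPolynomial.X : Fin n → AA n)) (Sum.inl k) = MvPolynomial.X k := rfl
      have e4 : D.ht2 (wA (D := D) (Sum.inl k)) = 0 := y5d_ht0 D
      rw [e1, e2, e3, e4, zpow_zero, Units.val_one, one_mul, zero_add, zero_add, y5d_u2]
    · have e2 : (CD.hx (D := D) (y5d_x n)) (Sum.inr γ) = 0 := rfl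
      have e3 : (CD.hx (D := D) (MvPolynomial.X : Fin n → AA n)) (Sum.inr γ) = 0 := rfl
      rw [e2, e3, add_zero]
      by_cases h2 : D.Sim γ
      · have h3 : D.ht2 (wA (D := D) (Sum.inr γ)) = 2 := D.ht2_sim ⟨γ, h2⟩
        rw [h3]
      · have h3 : CD.ee D (AA n) (Sum.inr γ) = 0 := if_neg h2
        rw [h3, mul_zero, mul_zero]
  have h : Adp C (tq C (y5d_t D)⁻¹ * C.px * tq C (y5d_t D))
      (CD.ee D (AA n) + CD.hx (y5d_x n)) = CD.ee D (AA n) + z := by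
    rw [Adp_mul, Adp_mul, h1, Adp_smul, C.px_conj]
    funext j
    rw [y5d_Adq, Pi.smul_apply, smul_eq_mul, Pi.add_apply, hz]
    have e0 : C.sx j = CD.ee D (AA n) j + C.sz j := rfl
    rw [e0, mul_add, mul_add, y5d_mulz, y5d_mulz, add_comm (-_) (2 : ℤ), ← sub_eq_add_neg]
    congr 1
    rcases j with k | γ
    · have e1 : CD.ee D (AA n) (Sum.inl k) = 0 := rfl
      rw [e1, mul_zero]
    · by_cases h2 : D.Sim γ
      · have h3 : D.ht2 (wA (D := D) (Sum.inr γ)) = 2 := D.ht2_sim ⟨γ, h2⟩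
        rw [h3, sub_self, zpow_zero, Units.val_one, one_mul]
      · have h3 : CD.ee D (AA n) (Sum.inr γ) = 0 := if_neg h2
        rw [h3, mul_zero]
  obtain ⟨hA, hB⟩ := C.slice_eq hU hbr h
  refine ⟨hA.symm, fun j => ?_⟩
  rw [← hB, hz]

theorem y5d_coeff {n : ℕ} (p : AA n) (m : Fin n →₀ ℕ) :
    MvPolynomial.coeff m (MvPolynomial.aeval (y5d_x n) p) =
      (4 : ℂ) ^ (m.sum fun _ e => e) * MvPolynomial.coeff m p := by
  induction p using MvPolynomial.induction_on' with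
  | monomial v a =>
    have h1 : (v.prod fun k e => (y5d_x n k) ^ e) =
        MvPolynomial.C ((4 : ℂ) ^ (v.sum fun _ e => e)) * MvPolynomial.monomial v 1 := by
      unfold y5d_x
      rw [MvPolynomial.monomial_eq, MvPolynomial.C_1, one_mul]
      unfold Finsupp.prod Finsupp.sum
      rw [← Finset.prod_pow_eq_pow_sum, map_prod, ← Finset.prod_mul_distrib]
      refine Finset.prod_congr rfl fun k _ => ?_
      show (MvPolynomial.C 4 * MvPolynomial.X k) ^ v k =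
        MvPolynomial.C (4 ^ v k) * MvPolynomial.X k ^ v k
      rw [mul_pow, map_pow]
    rw [MvPolynomial.aeval_monomial, h1, MvPolynomial.algebraMap_eq, MvPolynomial.coeff_C_mul,
      MvPolynomial.coeff_C_mul, MvPolynomial.coeff_monomial, MvPolynomial.coeff_monomial]
    split_ifs with h2
    · rw [h2]
      ring
    · ring
  | add p q hp hq =>
    rw [map_add, MvPolynomial.coeff_add, MvPolynomial.coeff_add, hp, hq]
    ring

theorem y5d_hd {n : ℕ} {d : ℤ} {p : AA n} (h : MvPolynomial.aeval (y5d_x n) p =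
    ((y5d_u n ^ d : (AA n)ˣ) : AA n) * p) : HD d p := by
  intro m hm
  have h1 := congrArg (MvPolynomial.coeff m) h
  rw [y5d_coeff, y5d_uz, MvPolynomial.coeff_C_mul] at h1
  have h2 := mul_right_cancel₀ hm h1
  have h3 : (2 : ℝ) ^ (2 * ((m.sum fun _ e => e : ℕ) : ℤ)) = (2 : ℝ) ^ d := by
    have h4 := congrArg (fun x : ℂ => ‖x‖) h2
    have h5 : ‖(4 : ℂ)‖ = (2 : ℝ) ^ (2 : ℤ) := by
      norm_num
    simp only [norm_pow, norm_zpow] at h4
    rw [h5, Complex.norm_ofNat] at h4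
    rw [← h4, _root_.zpow_mul, zpow_natCast]
  exact zpow_right_injective₀ (by norm_num : (0 : ℝ) < 2) (by norm_num) h3

theorem y5d_hd_add {n : ℕ} {d : ℤ} {p q : AA n} (hp : HD d p) (hq : HD d q) : HD d (p + q) := by
  intro m hm
  by_cases h1 : p.coeff m = 0
  · by_cases h2 : q.coeff m = 0
    · refine absurd ?_ hm
      rw [MvPolynomial.coeff_add, h1, h2, add_zero]
    · exact hq m h2
  · exact hp m h1

theorem y5d_hd_one {n : ℕ} : HD 0 (1 : AA n) := by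
  intro m hm
  rw [MvPolynomial.coeff_one] at hm
  split_ifs at hm with h1
  · rw [← h1, Finsupp.sum_zero_index]
    rfl
  · exact absurd rfl hm

theorem y5d_hd_zero {n : ℕ} {d : ℤ} : HD d (0 : AA n) := by
  intro m hm
  exact absurd (MvPolynomial.coeff_zero m) hm

theorem y5d_mapinv {G : AffGrp} {n : ℕ} (σ : AA n →ₐ[ℂ] AA n) (φ : G.Pt (AA n)) :
    (φ⁻¹).map σ = (φ.map σ)⁻¹ := by
  rw [eq_comm, inv_eq_iff_mul_eq_one, ← AffGrp.Pt.map_mul', mul_inv_cancel]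
  obtain ⟨E, hE⟩ := AffGrp.exists_faithful (G := G)
  apply E.pt_injective hE
  rw [E.pt_map, E.pt_one]
  exact Matrix.map_one _ (map_zero σ) (map_one σ)

theorem y5d_pt {G : AffGrp} {n : ℕ} {D : RD n} (C : CD G D) {E : MTF.Rep G}
    {w : E.ι → Fin n → ℤ} (hE : C.IsW E w) (φ : G.Pt (AA n)) (a b : E.ι) :
    E.pt (tq C (y5d_t D)⁻¹ * φ * tq C (y5d_t D)) a b =
      ((y5d_u n ^ (D.ht2 (w b) - D.ht2 (w a)) : (AA n)ˣ) : AA n) * E.pt φ a b := by
  rw [Rep.pt_mul, Rep.pt_mul, tq_pt C _ hE, tq_pt C _ hE, Matrix.mul_diagonal,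
    Matrix.diagonal_mul, y5d_chi, y5d_chi', sub_eq_add_neg, _root_.zpow_add, Units.val_mul]
  ring

end ys5d

/-- YS5d.  Homogeneity.  Let `g = tq C t`, `t k = 2 ^ ht2 (e_k)` (a unit of `R = AA n`, `t k = (2 : ℂˣ) ^ (D.ht2 (Pi.single k 1))`
mapped), so `chi μ t = 2 ^ ht2 μ` (`ht2_add`, `ht2_smul`), and `σ = aeval (fun k => C 4 * X k)`.
`Ad g` multiplies the component `γ` by `2 ^ ht2 γ` (`Adp_tq`), so with `Y = e + X`, `Ad g⁻¹ (4 Y) = e + 4 X` (`ht2_sim`).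
So `φ := g⁻¹ * px * g` satisfies `Ad φ (e + 4X) = 4 Ad g⁻¹ (Ad px Y) = 4 Ad g⁻¹ (e + sz) = e + 4 Ad g⁻¹ sz`; it is `UU (-1)`
(`UU_conj` for `t⁻¹`: `tq C t⁻¹ = (tq C t)⁻¹` by `tq_mul`), and `z = 4 Ad g⁻¹ sz` commutes with `f` (`Adp_br`, `Ad g⁻¹ f = 4 f`).
`slice_eq` at `x = 4 X`: `φ = pxR (4X)`, `z = szR (4X)`, i.e. `σ (sz j) = 2 ^ (2 - h j) * sz j`, `h j = ht2 (wA j)`.
A polynomial `p` with `p(4X) = 2^d p(X)` is `HD d`: for `coeff m ≠ 0`, `4 ^ |m| = 2 ^ d` (complex numbers), so `2 |m| = d`.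
`ee j ≠ 0` only for simple roots, of height `2`: `HD 0`. -/
theorem CD.sx_hd {G : AffGrp} {n : ℕ} {D : RD n} (C : CD G D) (j : Fin n ⊕ D.Rt) :
    HD (2 - D.ht2 (wA (D := D) j)) (C.sx j) := by
  have h1 : HD (2 - D.ht2 (wA (D := D) j)) (C.sz j) := y5d_hd ((y5d_main C).2 j)
  have h2 : HD (2 - D.ht2 (wA (D := D) j)) (CD.ee D (AA n) j) := by
    rcases j with k | γ
    · exact y5d_hd_zero
    · by_cases h2 : D.Sim γ
      · have h3 : D.ht2 (wA (D := D) (Sum.inr γ)) = 2 := D.ht2_sim ⟨γ, h2⟩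
        have h4 : CD.ee D (AA n) (Sum.inr γ) = 1 := if_pos h2
        rw [h3, h4, sub_self]
        exact y5d_hd_one
      · have h3 : CD.ee D (AA n) (Sum.inr γ) = 0 := if_neg h2
        rw [h3]
        exact y5d_hd_zero
  exact y5d_hd_add h2 h1

/-- (row YS5d) with `φ = pxR (4X)` from above: `E.pt φ a b = 2 ^ (- ht2 (w a)) * E.pt px a b * 2 ^ (ht2 (w b))` (`tq_pt`), and `E.pt (pxR (4X)) = σ (E.pt px)`. -/
theorem CD.px_hd {G : AffGrp} {n : ℕ} {D : RD n} (C : CD G D) {E : MTF.Rep G}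
    {w : E.ι → Fin n → ℤ} (hE : C.IsW E w) (a b : E.ι) :
    HD (D.ht2 (w b) - D.ht2 (w a)) (E.pt C.px a b) ∧
      HD (D.ht2 (w b) - D.ht2 (w a)) (E.pt C.px⁻¹ a b) := by
  have h1 : C.px.map (MvPolynomial.aeval (y5d_x n)) =
      tq C (y5d_t D)⁻¹ * C.px * tq C (y5d_t D) := (y5d_main C).1
  have h2 : (C.px⁻¹).map (MvPolynomial.aeval (y5d_x n)) =
      tq C (y5d_t D)⁻¹ * C.px⁻¹ * tq C (y5d_t D) := by
    rw [y5d_mapinv, h1, _root_.mul_inv_rev, _root_.mul_inv_rev, y5d_tqi, mul_assoc]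
    congr 1
    rw [← y5d_tqi, inv_inv]
  refine ⟨y5d_hd ?_, y5d_hd ?_⟩
  · rw [← y5d_pt C hE, ← h1]
    rfl
  · rw [← y5d_pt C hE, ← h2]
    rfl

end Pool.Agent.MTG
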