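import Pool.Agent.MTG.JA4
import Pool.Agent.MTG.JA5
import Pool.Agent.MTG.YS5c
import Pool.Agent.MTG.YS5d
import Pool.Agent.MTG.YS1b

/-! # MTG-J : the coordinates of the slice -/

namespace Pool.Agent.MTG

open Pool.Agent.MTF Matrix
open Pool.Agent.MTD (ev)
open Pool.Agent.MTX.SLD (AA fm0)
open Pool.Agent.MTH

/-- The coordinates `F i` of the universal slice element with respect to a homogeneous basis `v i` of the kernel of `ad f`. -/
structure IsF {G : AffGrp} {n : ℕ} {D : RD n} (C : CD G D) (v : Fin n → LR D ℂ) (m : Fin n → ℕ)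
    (F : Fin n → AA n) : Prop where
  ker : ∀ i, C.br (CD.ff D ℂ) (v i) = 0
  ind : LinearIndependent ℂ v
  span : ∀ z : LR D ℂ, C.br (CD.ff D ℂ) z = 0 → ∃ t : Fin n → ℂ, z = ∑ i, t i • v i
  sz : ∀ j, C.sz j = ∑ i, F i * MvPolynomial.C (v i j)
  hd : ∀ i, HD (2 * (m i : ℤ) + 2) (F i)
  inv : ∀ (w : D.W) i, w • F i = F i
  sum : ∑ i, m i = Fintype.card D.PRt

theorem jb1_hd_sum {n : ℕ} {ι : Type*} {d : ℤ} (s : Finset ι) (f : ι → AA n)
    (h : ∀ i ∈ s, HD d (f i)) : HD d (∑ i ∈ s, f i) := by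
  intro m hm
  rw [MvPolynomial.coeff_sum] at hm
  obtain ⟨i, hi, hne⟩ := Finset.exists_ne_zero_of_sum_ne_zero hm
  exact h i hi m hne

theorem jb1_hd_C {n : ℕ} {d : ℤ} (c : ℂ) {p : AA n} (hp : HD d p) :
    HD d (MvPolynomial.C c * p) := by
  intro m hm
  rw [MvPolynomial.coeff_C_mul] at hm
  exact hp m (right_ne_zero_of_mul hm)

theorem jb1_ht_ng {n : ℕ} (D : RD n) (γ : D.Rt) : D.ht2 (D.ng γ).1 = - D.ht2 γ.1 := by
  have h1 : (D.ng γ).1 = (-1 : ℤ) • γ.1 := by rw [D.ng_val, neg_one_smul]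
  rw [h1, D.ht2_smul]
  ring

theorem jb1_neg {n : ℕ} (D : RD n) {γ : D.Rt} (h : ¬ D.Pos γ) :
    D.ht2 γ.1 < 0 ∧ 2 ∣ D.ht2 γ.1 := by
  have h1 := D.ht2_pos ((D.pos_ng γ).2 h)
  rw [jb1_ht_ng] at h1
  refine ⟨by omega, ?_⟩
  have h2 := h1.2
  rwa [dvd_neg] at h2

theorem jb1_inl {n : ℕ} (D : RD n) (k : Fin n) : D.ht2 (wA (D := D) (Sum.inl k)) = 0 := by
  show D.ht2 0 = 0
  have h1 := D.ht2_smul 0 0
  rw [zero_smul, zero_mul] at h1
  exact h1

theorem jb1_even {n : ℕ} (D : RD n) (a : Fin n ⊕ D.Rt) : 2 ∣ D.ht2 (wA (D := D) a) := by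
  rcases a with k | γ
  · rw [jb1_inl]
    exact dvd_zero _
  · show 2 ∣ D.ht2 γ.1
    by_cases h : D.Pos γ
    · exact (D.ht2_pos h).2
    · exact (jb1_neg D h).2

theorem jb1_card0 {n : ℕ} (D : RD n) :
    (Finset.univ.filter fun a => D.ht2 (wA (D := D) a) = 0).card = n := by
  classical
  have h1 : (Finset.univ.filter fun a => D.ht2 (wA (D := D) a) = 0) =
      (Finset.univ : Finset (Fin n)).map ⟨Sum.inl, Sum.inl_injective⟩ := by
    ext a
    rw [Finset.mem_filter, Finset.mem_map]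
    rcases a with k | γ
    · exact ⟨fun _ => ⟨k, Finset.mem_univ _, rfl⟩, fun _ => ⟨Finset.mem_univ _, jb1_inl D k⟩⟩
    · constructor
      · rintro ⟨_, h⟩
        have h' : D.ht2 γ.1 = 0 := h
        by_cases hp : D.Pos γ
        · have := (D.ht2_pos hp).1
          omega
        · have := (jb1_neg D hp).1
          omega
      · rintro ⟨k, _, h⟩
        exact absurd h (by simp)
  rw [h1, Finset.card_map, Finset.card_univ, Fintype.card_fin]

theorem jb1_cardneg {n : ℕ} (D : RD n) :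
    (Finset.univ.filter fun a => D.ht2 (wA (D := D) a) < 0).card = Fintype.card D.PRt := by
  classical
  have hinj : Function.Injective (fun γ : D.Rt => (Sum.inr (D.ng γ) : Fin n ⊕ D.Rt)) := by
    intro γ δ h
    have h1 : D.ng γ = D.ng δ := Sum.inr.inj h
    rw [← D.ng_ng γ, h1, D.ng_ng]
  have h1 : (Finset.univ.filter fun a => D.ht2 (wA (D := D) a) < 0) =
      (Finset.univ.filter fun γ => D.Pos γ).map ⟨_, hinj⟩ := by
    ext a
    rw [Finset.mem_filter, Finset.mem_map]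
    rcases a with k | γ
    · constructor
      · rintro ⟨_, h⟩
        rw [jb1_inl] at h
        exact absurd h (lt_irrefl _)
      · rintro ⟨γ, _, h⟩
        exact absurd h (by simp)
    · constructor
      · rintro ⟨_, h⟩
        have h' : D.ht2 γ.1 < 0 := h
        have hn : ¬ D.Pos γ := fun hp => by
          have := (D.ht2_pos hp).1
          omega
        refine ⟨D.ng γ, Finset.mem_filter.2 ⟨Finset.mem_univ _, (D.pos_ng γ).2 hn⟩, ?_⟩
        show (Sum.inr (D.ng (D.ng γ)) : Fin n ⊕ D.Rt) = Sum.inr γ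
        rw [D.ng_ng]
      · rintro ⟨δ, hδ, h⟩
        have hδ' := (Finset.mem_filter.1 hδ).2
        have h2 : D.ng δ = γ := Sum.inr.inj h
        refine ⟨Finset.mem_univ _, ?_⟩
        show D.ht2 γ.1 < 0
        rw [← h2, jb1_ht_ng]
        have := (D.ht2_pos hδ').1
        omega
  rw [h1, Finset.card_map, Fintype.card_subtype]

theorem jb1_main {G : AffGrp} {n : ℕ} {D : RD n} (C : CD G D)
    (e f : Matrix (Fin n ⊕ D.Rt) (Fin n ⊕ D.Rt) ℂ)
    (H : Gd.Sl2 (fun a => D.ht2 (wA (D := D) a)) e f)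
    (hf : ∀ z : LR D ℂ, f.mulVec z = C.br (CD.ff D ℂ) z)
    (hfs : (f.map (MvPolynomial.C : ℂ →+* AA n)).mulVec C.sz = 0) :
    ∃ (v : Fin n → LR D ℂ) (m : Fin n → ℕ) (F : Fin n → AA n), IsF C v m F := by
  classical
  obtain ⟨v, m, hvh, hvf, hvi, hvs, hsum⟩ := Gd.ker_basis H (jb1_even D) (jb1_card0 D)
  obtain ⟨lam, hlam, hco⟩ := Gd.coord hvh hvi hvs n
  have hee : ∀ (b : Fin n ⊕ D.Rt) (k : ℕ), D.ht2 (wA (D := D) b) = -2 * (k : ℤ) →
      CD.ee D (AA n) b = 0 := by
    intro b k hb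
    rcases b with j | γ
    · rfl
    · show (if D.Sim γ then (1 : AA n) else 0) = 0
      rw [if_neg]
      intro hs
      have h1 := D.ht2_sim ⟨γ, hs⟩
      have h2 : D.ht2 γ.1 = -2 * (k : ℤ) := hb
      have h3 : D.ht2 γ.1 = 2 := h1
      omega
  have hsx : ∀ b, C.sx b = CD.ee D (AA n) b + C.sz b := fun b => rfl
  refine ⟨v, m, fun i => ∑ b, MvPolynomial.C (lam i b) * C.sz b,
    { ker := fun i => by rw [← hf, hvf]
      ind := hvi
      span := fun z hz => hvs z (by rw [hf, hz])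
      sz := fun j => hco C.sz hfs j
      hd := fun i => ?_
      inv := fun w i => ?_
      sum := by rw [hsum, jb1_cardneg] }⟩
  · refine jb1_hd_sum _ _ fun b _ => ?_
    by_cases hb : lam i b = 0
    · rw [hb, MvPolynomial.C_0, zero_mul]
      exact fun m hm => absurd (MvPolynomial.coeff_zero m) hm
    · have h1 := hlam i b hb
      have h2 : C.sz b = C.sx b := by rw [hsx, hee b (m i) h1, zero_add]
      rw [h2]
      have h3 := jb1_hd_C (lam i b) (C.sx_hd b)
      rw [h1] at h3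
      have h4 : 2 * (m i : ℤ) + 2 = 2 - -2 * (m i : ℤ) := by ring
      rw [h4]
      exact h3
  · rw [Finset.smul_sum]
    refine Finset.sum_congr rfl fun b _ => ?_
    rw [smul_mul', D.smul_C]
    have h1 : w • C.sz b = C.sz b := by
      have h2 : C.sz b = C.sx b - CD.ee D (AA n) b := by rw [hsx, add_sub_cancel_left]
      have h3 : w • CD.ee D (AA n) b = CD.ee D (AA n) b := by
        rcases b with j | γ
        · exact smul_zero w
        · show w • (if D.Sim γ then (1 : AA n) else 0) = if D.Sim γ then (1 : AA n) else 0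
          by_cases hs : D.Sim γ
          · rw [if_pos hs, smul_one]
          · rw [if_neg hs, smul_zero]
      rw [h2, smul_sub, C.sx_W, h3]
    rw [h1]

/-- [JB1] PROOF. `H := CD.sl2 C (isW_AdR C)`, index type `(AdR C).ι = Fin n ⊕ D.Rt`, heights `h j = D.ht2 (wA j)` (`0` on `inl k`, `D.ht2 γ` on `inr γ`); `f.mulVec z = C.br (ff D ℂ) z` (`dm_AdR`). `hev`: `ht2_pos`, `pos_ng` (`D.ht2 (-x) = - D.ht2 x` by `ht2_smul`). `hN` with `N = n`: the `j` of height `0` are the `inl k` (`ht2_pos`: roots have nonzero height). `Gd.ker_basis` gives `v`, `m`; `#{j | h j < 0}` = number of roots `γ` with `¬ D.Pos γ` = number of positive roots (`ng`, `pos_ng`).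
`Gd.coord` gives `lam`. `F i := ∑ b, C (lam i b) * C.sz b`. `C.sz` is in the kernel over `AA n`: `C.sz_br`, `dm_AdR`, `dm_map` and `ff_map` (the matrix of `ff D (AA n)` is the image of the one of `ff D ℂ`; `algebraMap ℂ (AA n) = C`). `hd`: only `b` of height `-2 m i ≤ 0` occur; there `ee b = 0` (simple roots have height `2`: `ht2_sim`), so `C.sz b = C.sx b` has `HD (2 - h b)` (`sx_hd`), `HD.mul`, `HD.C`, `HD.sum`.
`inv`: `w • C.sz b = C.sz b` from `sx_W` (`C.sz = C.sx - ee`, the entries of `ee` are `0` or `1`; `w • C c = C c`, `smul_add`, `MulSemiringAction`). -/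
theorem CD.exists_F {G : AffGrp} {n : ℕ} {D : RD n} (C : CD G D) :
    ∃ (v : Fin n → LR D ℂ) (m : Fin n → ℕ) (F : Fin n → AA n), IsF C v m F := by
  refine jb1_main C (C.dm (AdR C) (CD.ee D ℂ)) (C.dm (AdR C) (CD.ff D ℂ)) (CD.sl2 C (isW_AdR C))
    (fun z => dm_AdR C (CD.ff D ℂ) z) ?_
  have h1 : (C.dm (AdR C) (CD.ff D ℂ)).map (MvPolynomial.C : ℂ →+* AA n) =
      C.dm (AdR C) (CD.ff D (AA n)) := by
    rw [← CD.ff_map (D := D) (Algebra.ofId ℂ (AA n)), ← CD.dm_map]
    rfl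
  have h2 := dm_AdR C (CD.ff D (AA n)) C.sz
  rw [C.sz_br] at h2
  exact (congrArg (fun M : Matrix (AdR C).ι (AdR C).ι (AA n) => M.mulVec C.sz) h1).trans h2

end Pool.Agent.MTG
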