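import Pool.Agent.MTG.YS5a

/-! # MTG-YS : the Kostant slice -/

namespace Pool.Agent.MTG

open Pool.Agent.MTF Matrix
open Pool.Agent.MTD (ev)
open Pool.Agent.MTX.SLD (AA fm0)
open Pool.Agent.MTH

theorem ys5e_ee {n : ℕ} {D : RD n} {R : Type} [CommRing R] : Sp 1 1 (CD.ee D R) := by
  refine ⟨fun k hk => absurd rfl hk, fun γ hγ => ?_⟩
  have h1 : D.Sim γ := by
    by_contra hcon
    refine hγ ?_
    unfold CD.ee
    exact if_neg hcon
  have h2 : D.ht2 γ.1 = 2 := D.ht2_sim ⟨γ, h1⟩
  rw [h2]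
  norm_num

theorem ys5e_fm {n : ℕ} {K : Type} [CommRing K] [Algebra ℂ K] (σ : AA n →ₐ[ℂ] K) (μ : Fin n → ℤ) :
    ev μ (fun k => σ (MvPolynomial.X k)) = σ (fm0 μ) := by
  unfold ev fm0 Pool.Agent.MTX.lin
  rw [map_sum]
  refine Finset.sum_congr rfl fun k _ => ?_
  rw [map_mul]
  congr 1
  rw [← MvPolynomial.algebraMap_eq, AlgHom.commutes, map_intCast]

/-- the conjugation of `sx` with a diagonal matrix, over a field -/
theorem ys5e_key {G : AffGrp} {n : ℕ} {D : RD n} (C : CD G D) {E : MTF.Rep G}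
    {w : E.ι → Fin n → ℤ} (hE : C.IsW E w) {K : Type} [Field K] [Algebra ℂ K]
    (σ : AA n →ₐ[ℂ] K) (hσ : Function.Injective σ) :
    ∃ P P' : Matrix E.ι E.ι K, P * P' = 1 ∧ P' * P = 1 ∧
      ((C.dm E C.sx).map σ) * P = P * Matrix.diagonal fun a => σ (fm0 (w a)) := by
  have hu : ∀ γ : D.Rt, IsUnit (ev γ.1 (fun k => σ (MvPolynomial.X k))) := by
    intro γ
    rw [ys5e_fm, isUnit_iff_ne_zero]
    intro h
    rw [← map_zero σ] at h
    exact Pool.Agent.MTX.SLD.fm0_ne_zero (D.Rt_ne γ) (hσ h)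
  obtain ⟨u, -, hu2⟩ := exists_U C (Or.inl rfl) hu (ys5e_ee (D := D) (R := K))
  have h1 : Adp C (C.pxR (fun k => σ (MvPolynomial.X k)) * u)
      (CD.hx (fun k => σ (MvPolynomial.X k))) = C.sxR (fun k => σ (MvPolynomial.X k)) := by
    rw [Adp_mul, hu2, add_comm, C.pxR_conj]
  have h2 : C.sxR (fun k => σ (MvPolynomial.X k)) = fun j => σ (C.sx j) := by
    funext j
    have h3 : MvPolynomial.aeval (fun k => σ (MvPolynomial.X k)) = σ := by
      apply MvPolynomial.algHom_ext
      intro k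
      rw [MvPolynomial.aeval_X]
    show MvPolynomial.aeval (fun k => σ (MvPolynomial.X k)) (C.sx j) = σ (C.sx j)
    rw [h3]
  refine ⟨E.pt (C.pxR (fun k => σ (MvPolynomial.X k)) * u),
    E.pt (C.pxR (fun k => σ (MvPolynomial.X k)) * u)⁻¹, E.pt_mul_inv _, E.pt_inv_mul _, ?_⟩
  have h4 := pt_dm C E (C.pxR (fun k => σ (MvPolynomial.X k)) * u)
    (CD.hx (fun k => σ (MvPolynomial.X k)))
  rw [h1, h2, hE.dm_hx] at h4
  rw [C.dm_map, ← h4]
  congr 1
  congr 1
  funext a
  exact ys5e_fm σ (w a)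

theorem ys5e_poly {ι : Type} [Fintype ι] [DecidableEq ι] {A K : Type} [CommRing A] [CommRing K]
    (σ : A →+* K) (S : Matrix ι ι A) (P : Matrix ι ι K) (d : ι → A)
    (h : S.map σ * P = P * Matrix.diagonal fun a => σ (d a)) (q : Polynomial A) :
    (Polynomial.aeval S q).map σ * P = P * Matrix.diagonal fun a => σ (q.eval (d a)) := by
  have hm : ∀ M M' : Matrix ι ι A, (M * M').map σ = M.map σ * M'.map σ := fun M M' => Matrix.map_mul
  have hdd : ∀ u v : ι → K, Matrix.diagonal u * Matrix.diagonal v = Matrix.diagonal fun a => u a * v a :=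
    fun u v => Matrix.diagonal_mul_diagonal u v
  induction q using Polynomial.induction_on with
  | C a =>
    have h1 : (Polynomial.aeval S (Polynomial.C a)).map σ = Matrix.diagonal fun _ => σ a := by
      rw [Polynomial.aeval_C]
      ext i j
      rw [Matrix.map_apply, Matrix.algebraMap_matrix_apply, Matrix.diagonal_apply]
      split_ifs
      · rfl
      · exact map_zero σ
    rw [h1]
    ext i j
    rw [Matrix.diagonal_mul, Matrix.mul_diagonal, Polynomial.eval_C, mul_comm]
  | add p q hp hq =>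
    have h1 : (Polynomial.aeval S (p + q)).map σ =
        (Polynomial.aeval S p).map σ + (Polynomial.aeval S q).map σ := by
      rw [map_add]
      exact Matrix.map_add _ (map_add σ) _ _
    rw [h1, add_mul, hp, hq, ← mul_add, Matrix.diagonal_add]
    congr 1
    congr 1
    funext a
    rw [Polynomial.eval_add, map_add]
  | monomial k a ih =>
    rw [pow_succ, ← mul_assoc, map_mul, Polynomial.aeval_X, hm, mul_assoc, h, ← mul_assoc, ih,
      mul_assoc, hdd]
    congr 1
    congr 1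
    funext b
    have h9 : ∀ r : Polynomial A, (r * Polynomial.X).eval (d b) = r.eval (d b) * d b := by
      intro r
      rw [Polynomial.eval_mul, Polynomial.eval_X]
    rw [h9, map_mul]

/-- YS5e.  The matrix of `sx` in a weight representation satisfies the product of the `X - w a`.
Over the fraction field `K` of `AA n`: `ev γ X ≠ 0` is a unit, so `exists_U` (`s = 1`, `Z = ee`, `Sp 1 1` by `ht2_sim`) gives `u : G.Pt K` with
`Ad u (hx X) = hx X + ee`; so `Ad (px u) (hx X) = sx` over `K`, and by `pt_dm`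
`E.pt(px u) * dm E (hx X) = dm E sx * E.pt (px u)` : `S = P diag(ev (w a) X) P⁻¹`, and `aeval S q = P (aeval diag q) P⁻¹ = 0` for the product `q`.
`AA n → K` is injective. -/
theorem CD.dec_sx {G : AffGrp} {n : ℕ} {D : RD n} (C : CD G D) {E : MTF.Rep G}
    {w : E.ι → Fin n → ℤ} (hE : C.IsW E w) :
    Polynomial.aeval (C.dm E C.sx)
      (∏ m ∈ Finset.univ.image w, (Polynomial.X - Polynomial.C (fm0 m : AA n))) = 0 := by
  have hσ : Function.Injective (IsScalarTower.toAlgHom ℂ (AA n) (FractionRing (AA n))) :=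
    IsFractionRing.injective (AA n) (FractionRing (AA n))
  obtain ⟨P, P', h1, h2, h3⟩ := ys5e_key C hE (IsScalarTower.toAlgHom ℂ (AA n) (FractionRing (AA n))) hσ
  have h4 := ys5e_poly ((IsScalarTower.toAlgHom ℂ (AA n) (FractionRing (AA n)) :
    AA n →ₐ[ℂ] FractionRing (AA n)) : AA n →+* FractionRing (AA n)) (C.dm E C.sx) P
    (fun a => fm0 (w a)) h3
    (∏ m ∈ Finset.univ.image w, (Polynomial.X - Polynomial.C (fm0 m : AA n)))
  have h5 : ∀ a, (∏ m ∈ Finset.univ.image w,
      (Polynomial.X - Polynomial.C (fm0 m : AA n))).eval (fm0 (w a)) = 0 := by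
    intro a
    rw [Polynomial.eval_prod]
    refine Finset.prod_eq_zero (Finset.mem_image_of_mem w (Finset.mem_univ a)) ?_
    rw [Polynomial.eval_sub, Polynomial.eval_X, Polynomial.eval_C, sub_self]
  simp only [h5, map_zero] at h4
  rw [Matrix.diagonal_zero, mul_zero] at h4
  have h6 := congrArg (fun M => M * P') h4
  simp only [mul_assoc, h1, mul_one, zero_mul] at h6
  refine Matrix.ext fun i j => ?_
  have h7 := congrFun (congrFun h6 i) j
  rw [Matrix.map_apply] at h7
  refine hσ ?_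
  rw [Matrix.zero_apply, map_zero]
  exact h7

/-- (row YS5e) The same argument: the power sums of the eigenvalues. -/
theorem CD.trace_sx {G : AffGrp} {n : ℕ} {D : RD n} (C : CD G D) {E : MTF.Rep G}
    {w : E.ι → Fin n → ℤ} (hE : C.IsW E w) (k : ℕ) :
    Matrix.trace ((C.dm E C.sx) ^ k) = ∑ a, (fm0 (w a) : AA n) ^ k := by
  have hσ : Function.Injective (IsScalarTower.toAlgHom ℂ (AA n) (FractionRing (AA n))) :=
    IsFractionRing.injective (AA n) (FractionRing (AA n))
  obtain ⟨P, P', h1, h2, h3⟩ := ys5e_key C hE (IsScalarTower.toAlgHom ℂ (AA n) (FractionRing (AA n))) hσ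
  have h4 := ys5e_poly ((IsScalarTower.toAlgHom ℂ (AA n) (FractionRing (AA n)) :
    AA n →ₐ[ℂ] FractionRing (AA n)) : AA n →+* FractionRing (AA n)) (C.dm E C.sx) P
    (fun a => fm0 (w a)) h3 (Polynomial.X ^ k)
  rw [map_pow, Polynomial.aeval_X] at h4
  have h6 := congrArg (fun M => Matrix.trace (M * P')) h4
  simp only [mul_assoc, h1, mul_one] at h6
  rw [Matrix.trace_mul_comm, mul_assoc, h2, mul_one, Matrix.trace_diagonal] at h6
  refine hσ ?_
  rw [map_sum]
  have h7 : (IsScalarTower.toAlgHom ℂ (AA n) (FractionRing (AA n))) (Matrix.trace ((C.dm E C.sx) ^ k)) =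
      Matrix.trace (((C.dm E C.sx) ^ k).map
        ((IsScalarTower.toAlgHom ℂ (AA n) (FractionRing (AA n)) :
    AA n →ₐ[ℂ] FractionRing (AA n)) : AA n →+* FractionRing (AA n))) := by
    unfold Matrix.trace
    rw [map_sum]
    rfl
  rw [h7, h6]
  refine Finset.sum_congr rfl fun a _ => ?_
  rw [Polynomial.eval_pow, Polynomial.eval_X]
  rfl

end Pool.Agent.MTG
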