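import Pool.Agent.MTG.JB1
import Pool.Agent.MTG.YS5e

/-! # MTG-J : the Jacobian is not zero -/

namespace Pool.Agent.MTG

open Pool.Agent.MTF Matrix
open Pool.Agent.MTD (ev)
open Pool.Agent.MTX.SLD (AA fm0)
open Pool.Agent.MTH

/-- [JC1] Power sums determine the terms. PROOF. `Ω := univ.image x`, for `s ∈ Ω` let `b s := ∑ over a with x a = s of c a`. `∑ s ∈ Ω, s ^ k * b s = 0` for all `k`: Vandermonde (`Matrix.det_vandermonde_ne_zero_iff` for an enumeration of `Ω`, `Matrix.eq_zero_of_vecMul_eq_zero`, or: for a polynomial `p` over `R`, `∑ s ∈ Ω, p.eval s * b s = 0`; take `p = ∏ over t ∈ Ω, t ≠ s, of (X - t)`, whose value at `s` is not zero). -/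
theorem powersum_zero {R : Type} [CommRing R] [IsDomain R] {ι : Type} [Fintype ι] [DecidableEq R] (x c : ι → R)
    (h : ∀ k : ℕ, ∑ a, x a ^ k * c a = 0) (a : ι) : ∑ b ∈ Finset.univ.filter (fun b => x b = x a), c b = 0 := by
  classical
  have hp : ∀ p : Polynomial R, ∑ b, p.eval (x b) * c b = 0 := by
    intro p
    simp only [Polynomial.eval_eq_sum_range, Finset.sum_mul]
    rw [Finset.sum_comm]
    refine Finset.sum_eq_zero fun k _ => ?_
    have h1 : ∑ b, p.coeff k * x b ^ k * c b = p.coeff k * ∑ b, x b ^ k * c b := by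
      rw [Finset.mul_sum]
      exact Finset.sum_congr rfl fun b _ => mul_assoc _ _ _
    rw [h1, h k, mul_zero]
  have h2 := hp (∏ t ∈ (Finset.univ.image x).erase (x a), (Polynomial.X - Polynomial.C t))
  have h3 : ∀ b, x b ≠ x a →
      Polynomial.eval (x b) (∏ t ∈ (Finset.univ.image x).erase (x a), (Polynomial.X - Polynomial.C t)) = 0 := by
    intro b hb
    rw [Polynomial.eval_prod]
    refine Finset.prod_eq_zero (i := x b)
      (Finset.mem_erase.2 ⟨hb, Finset.mem_image_of_mem x (Finset.mem_univ b)⟩) ?_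
    rw [Polynomial.eval_sub, Polynomial.eval_X, Polynomial.eval_C, sub_self]
  have h4 : Polynomial.eval (x a)
      (∏ t ∈ (Finset.univ.image x).erase (x a), (Polynomial.X - Polynomial.C t)) ≠ 0 := by
    rw [Polynomial.eval_prod, Finset.prod_ne_zero_iff]
    intro t ht
    rw [Polynomial.eval_sub, Polynomial.eval_X, Polynomial.eval_C, sub_ne_zero]
    exact (Finset.ne_of_mem_erase ht).symm
  have h5 : ∑ b, Polynomial.eval (x b)
      (∏ t ∈ (Finset.univ.image x).erase (x a), (Polynomial.X - Polynomial.C t)) * c b =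
      Polynomial.eval (x a) (∏ t ∈ (Finset.univ.image x).erase (x a), (Polynomial.X - Polynomial.C t)) *
        ∑ b ∈ Finset.univ.filter (fun b => x b = x a), c b := by
    rw [Finset.mul_sum, Finset.sum_filter]
    refine Finset.sum_congr rfl fun b _ => ?_
    by_cases hb : x b = x a
    · rw [if_pos hb, hb]
    · rw [if_neg hb, h3 b hb, zero_mul]
  rw [h5] at h2
  exact (mul_eq_zero.1 h2).resolve_left h4

theorem jc1_sum {n : ℕ} (f : Fin n → Derivation ℂ (AA n) (AA n)) (p : AA n) :
    (∑ j, f j) p = ∑ j, f j p := by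
  have h := congrFun (map_sum (Derivation.coeFnAddMonoidHom (R := ℂ) (A := AA n) (M := AA n)) f
    Finset.univ) p
  rw [Finset.sum_apply] at h
  exact h

theorem jc1_dvn {n : ℕ} (y : Fin n → AA n) : ∃ δ : Derivation ℂ (AA n) (AA n),
    (∀ p, δ p = ∑ j, MvPolynomial.pderiv j p * y j) ∧ ∀ j, δ (MvPolynomial.X j) = y j := by
  refine ⟨MvPolynomial.mkDerivation ℂ y, fun p => ?_, fun j => MvPolynomial.mkDerivation_X ℂ y j⟩
  have h : MvPolynomial.mkDerivation ℂ y =
      ∑ j, y j • (MvPolynomial.pderiv j : Derivation ℂ (AA n) (AA n)) := by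
    apply MvPolynomial.derivation_ext
    intro i
    rw [MvPolynomial.mkDerivation_X, jc1_sum]
    rw [Finset.sum_eq_single i]
    · rw [Derivation.smul_apply, MvPolynomial.pderiv_X_self, smul_eq_mul, mul_one]
    · intro j _ hj
      rw [Derivation.smul_apply, MvPolynomial.pderiv_X_of_ne hj.symm, smul_zero]
    · intro hi
      exact absurd (Finset.mem_univ i) hi
  rw [h, jc1_sum]
  refine Finset.sum_congr rfl fun j _ => ?_
  rw [Derivation.smul_apply, smul_eq_mul, mul_comm]

theorem jc1_fm0 {n : ℕ} (δ : Derivation ℂ (AA n) (AA n)) (y : Fin n → AA n)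
    (h : ∀ j, δ (MvPolynomial.X j) = y j) (μ : Fin n → ℤ) : δ (fm0 μ) = ev μ y := by
  have h1 : (fm0 μ : AA n) = ∑ j, MvPolynomial.C ((μ j : ℤ) : ℂ) * MvPolynomial.X j := rfl
  rw [h1, map_sum]
  unfold ev
  refine Finset.sum_congr rfl fun j _ => ?_
  rw [Derivation.leibniz, MvPolynomial.derivation_C, h j, smul_zero, add_zero, smul_eq_mul,
    map_intCast]

theorem jc1_inj {n : ℕ} {x y : Fin n → ℤ} (h : (fm0 x : AA n) = fm0 y) : x = y := by
  by_contra hne
  have h1 : x - y ≠ 0 := sub_ne_zero.2 hne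
  exact Pool.Agent.MTX.SLD.fm0_ne_zero h1 (by rw [Pool.Agent.MTX.SLD.fm0_sub, h, sub_self])

/-- [JC1b] PROOF. Suppose the determinant is `0`: `Matrix.exists_mulVec_eq_zero_iff` gives `y : Fin n → AA n`, `y ≠ 0`, `∑ j, pderiv j (F i) * y j = 0` for all `i`. The derivation `δ := ∑ j, y j • pderiv j` of `AA n` kills the `F i` and constants, so all `C.sz j` (`hF.sz`) and `C.sx j` (`C.sx = ee + C.sz`, entries of `ee` are `0`, `1`), the entries of `S := C.dm C.F C.sx` (`dm_apply`) and of its powers, and the traces. With `CD.trace_sx C C.isW_F k`: `δ (∑ a, fm0 (C.wt a) ^ k) = ∑ a, k * fm0 (C.wt a) ^ (k - 1) * δ (fm0 (C.wt a)) = 0` for all `k ≥ 1`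
(`Derivation.leibniz_pow`), and `δ (fm0 μ) = ev μ y` (`fm0 μ = ∑ k, C (μ k) * X k`: `MTX/R2b` `fm0`, `lin`). Divide by `k`: `powersum_zero` with `x a := fm0 (C.wt a)`, `c a := ev (C.wt a) y`: `c b` only depends on `x b` (`fm0` is injective: `fm0_sub`, `fm0_ne_zero`), so `#{b | C.wt b = C.wt a} * ev (C.wt a) y = 0` and `ev (C.wt a) y = 0` for all `a`. `{μ | ev μ y = 0}` is an additive subgroup containing the range of `C.wt`, so everything (`C.gen`); `ev (Pi.single j 1) y = y j`, so `y = 0`, contradiction. -/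
theorem IsF.det_ne {G : AffGrp} {n : ℕ} {D : RD n} {C : CD G D} {v : Fin n → LR D ℂ} {m : Fin n → ℕ}
    {F : Fin n → AA n} (hF : IsF C v m F) :
    Matrix.det (Matrix.of fun i j => MvPolynomial.pderiv j (F i)) ≠ 0 := by
  classical
  intro hdet
  obtain ⟨y, hy0, hy⟩ := Matrix.exists_mulVec_eq_zero_iff.2 hdet
  obtain ⟨δ, hδ, hδX⟩ := jc1_dvn y
  have hF0 : ∀ i, δ (F i) = 0 := by
    intro i
    rw [hδ]
    have h := congrFun hy i
    exact h
  have hsz : ∀ j, δ (C.sz j) = 0 := by
    intro j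
    rw [hF.sz j, map_sum]
    refine Finset.sum_eq_zero fun i _ => ?_
    rw [Derivation.leibniz, MvPolynomial.derivation_C, hF0 i, smul_zero, smul_zero, add_zero]
  have hsx : ∀ j, δ (C.sx j) = 0 := by
    intro j
    have h1 : C.sx j = CD.ee D (AA n) j + C.sz j := rfl
    rw [h1, map_add, hsz j, add_zero]
    cases j with
    | inl k => exact map_zero δ
    | inr γ =>
      have h2 : CD.ee D (AA n) (Sum.inr γ) = if D.Sim γ then 1 else 0 := rfl
      rw [h2]
      split_ifs
      · exact Derivation.map_one_eq_zero δ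
      · exact map_zero δ
  have hS : ∀ a b, δ (C.dm C.F C.sx a b) = 0 := by
    intro a b
    rw [CD.dm_apply, map_sum]
    refine Finset.sum_eq_zero fun j _ => ?_
    rw [Derivation.leibniz, Derivation.map_algebraMap, hsx j, smul_zero, smul_zero, add_zero]
  have hSk : ∀ k a b, δ ((C.dm C.F C.sx ^ k) a b) = 0 := by
    intro k
    induction k with
    | zero =>
      intro a b
      rw [pow_zero, Matrix.one_apply]
      split_ifs
      · exact Derivation.map_one_eq_zero δ
      · exact map_zero δ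
    | succ k ih =>
      intro a b
      rw [pow_succ, Matrix.mul_apply, map_sum]
      refine Finset.sum_eq_zero fun j _ => ?_
      rw [Derivation.leibniz, ih a j, hS j b, smul_zero, smul_zero, add_zero]
  have htr : ∀ k, δ (∑ a, (fm0 (C.wt a) : AA n) ^ k) = 0 := by
    intro k
    rw [← CD.trace_sx C C.isW_F k]
    unfold Matrix.trace
    rw [map_sum]
    exact Finset.sum_eq_zero fun a _ => hSk k a a
  have hps : ∀ k : ℕ, ∑ a, (fm0 (C.wt a) : AA n) ^ k * ev (C.wt a) y = 0 := by
    intro k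
    have h1 := htr (k + 1)
    rw [map_sum] at h1
    have h2 : ∀ a, δ ((fm0 (C.wt a) : AA n) ^ (k + 1)) =
        ((k + 1 : ℕ) : AA n) * ((fm0 (C.wt a) : AA n) ^ k * ev (C.wt a) y) := by
      intro a
      rw [Derivation.leibniz_pow, Nat.add_sub_cancel, jc1_fm0 δ y hδX, nsmul_eq_mul, smul_eq_mul]
    rw [Finset.sum_congr rfl fun a _ => h2 a, ← Finset.mul_sum] at h1
    refine (mul_eq_zero.1 h1).resolve_left ?_
    exact Nat.cast_ne_zero.2 (Nat.succ_ne_zero k)
  have hwt : ∀ a, ev (C.wt a) y = 0 := by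
    intro a
    have h1 := powersum_zero (fun a => (fm0 (C.wt a) : AA n)) (fun a => ev (C.wt a) y) hps a
    have h2 : ∀ b ∈ Finset.univ.filter (fun b => (fm0 (C.wt b) : AA n) = fm0 (C.wt a)),
        ev (C.wt b) y = ev (C.wt a) y := by
      intro b hb
      rw [jc1_inj (Finset.mem_filter.1 hb).2]
    have h3 : ∑ b ∈ Finset.univ.filter (fun b => (fm0 (C.wt b) : AA n) = fm0 (C.wt a)),
        ev (C.wt b) y = 0 := h1
    rw [Finset.sum_congr rfl h2, Finset.sum_const, nsmul_eq_mul] at h3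
    refine (mul_eq_zero.1 h3).resolve_left (Nat.cast_ne_zero.2 ?_)
    exact Finset.card_ne_zero.2 ⟨a, Finset.mem_filter.2 ⟨Finset.mem_univ a, rfl⟩⟩
  have hall : ∀ μ : Fin n → ℤ, ev μ y = 0 := by
    intro μ
    have h1 : AddSubgroup.closure (Set.range C.wt) ≤
        (AddMonoidHom.mk' (fun μ : Fin n → ℤ => ev μ y)
          (fun μ ν => Pool.Agent.MTD.ev_add_left μ ν y)).ker := by
      rw [AddSubgroup.closure_le]
      rintro _ ⟨a, rfl⟩
      exact hwt a
    rw [C.gen] at h1
    exact h1 (AddSubgroup.mem_top μ)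
  apply hy0
  funext j
  have h1 := hall (Pi.single j 1)
  unfold ev at h1
  rw [Finset.sum_eq_single j] at h1
  · rw [Pi.single_eq_same, Int.cast_one, one_mul] at h1
    exact h1
  · intro k _ hk
    rw [Pi.single_eq_of_ne hk, Int.cast_zero, zero_mul]
  · intro hj
    exact absurd (Finset.mem_univ j) hj

end Pool.Agent.MTG
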