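import Pool.Agent.MTG.YS0
import Pool.Agent.MTG.GD

/-! # MTG-J : the Jacobian is divisible by the roots -/

namespace Pool.Agent.MTG

open Pool.Agent.MTF Matrix
open Pool.Agent.MTD (ev)
open Pool.Agent.MTX.SLD (AA fm0)
open Pool.Agent.MTH

/-- the derivation with constant coefficients `c` -/
noncomputable def jc2_del {n : ℕ} (c : Fin n → ℂ) : Derivation ℂ (AA n) (AA n) :=
  MvPolynomial.mkDerivation ℂ fun k => (MvPolynomial.C (c k) : AA n)

theorem jc2_del_X {n : ℕ} (c : Fin n → ℂ) (k : Fin n) :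
    jc2_del c (MvPolynomial.X k) = MvPolynomial.C (c k) := by
  unfold jc2_del
  rw [MvPolynomial.mkDerivation_X]

theorem jc2_del_C {n : ℕ} (c : Fin n → ℂ) (a : ℂ) :
    jc2_del c (MvPolynomial.C a) = 0 := by
  rw [← MvPolynomial.algebraMap_eq]
  exact Derivation.map_algebraMap _ _

theorem jc2_del_mul {n : ℕ} (c : Fin n → ℂ) (p q : AA n) :
    jc2_del c (p * q) = p * jc2_del c q + q * jc2_del c p := by
  rw [Derivation.leibniz, smul_eq_mul, smul_eq_mul]

theorem jc2_del_eq {n : ℕ} (c : Fin n → ℂ) (p : AA n) :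
    jc2_del c p = ∑ k, MvPolynomial.pderiv k p * MvPolynomial.C (c k) := by
  induction p using MvPolynomial.induction_on with
  | C a =>
    rw [jc2_del_C]
    symm
    refine Finset.sum_eq_zero fun k _ => ?_
    rw [MvPolynomial.pderiv_C, zero_mul]
  | add p q hp hq =>
    rw [map_add, hp, hq, ← Finset.sum_add_distrib]
    refine Finset.sum_congr rfl fun k _ => ?_
    rw [map_add, add_mul]
  | mul_X p i hp =>
    rw [jc2_del_mul, hp, jc2_del_X, Finset.mul_sum]
    have h1 : ∀ k, MvPolynomial.pderiv k (p * MvPolynomial.X i) * MvPolynomial.C (c k) =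
        MvPolynomial.X i * (MvPolynomial.pderiv k p * MvPolynomial.C (c k)) +
          p * (MvPolynomial.pderiv k (MvPolynomial.X i) * MvPolynomial.C (c k)) := by
      intro k
      rw [Derivation.leibniz, smul_eq_mul, smul_eq_mul]
      ring
    rw [Finset.sum_congr rfl fun k _ => h1 k, Finset.sum_add_distrib, add_comm]
    congr 1
    rw [Finset.sum_eq_single i]
    · rw [MvPolynomial.pderiv_X_self, one_mul]
    · intro k _ hk
      rw [MvPolynomial.pderiv_X_of_ne hk.symm, zero_mul, mul_zero]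
    · intro h
      exact absurd (Finset.mem_univ _) h

/-- the pairing of the coroot with the coordinate vectors -/
def jc2_c {n : ℕ} (D : RD n) (γ : D.Rt) (k : Fin n) : ℂ :=
  ((D.cp γ (Pi.single k 1) : ℤ) : ℂ)

theorem jc2_cp_sum {n : ℕ} (D : RD n) (γ : D.Rt) (x : Fin n → ℤ) :
    D.cp γ x = ∑ k, x k * D.cp γ (Pi.single k 1) := by
  let f : (Fin n → ℤ) →+ ℤ := ⟨⟨D.cp γ, D.cp_zero γ⟩, D.cp_add γ⟩
  have h1 : x = ∑ k, x k • (Pi.single k 1 : Fin n → ℤ) := by
    funext j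
    rw [Finset.sum_apply, Finset.sum_eq_single j]
    · rw [Pi.smul_apply, Pi.single_eq_same, smul_eq_mul, mul_one]
    · intro k _ hk
      rw [Pi.smul_apply, Pi.single_eq_of_ne hk.symm, smul_zero]
    · intro h
      exact absurd (Finset.mem_univ _) h
  have h2 : f x = ∑ k, f (x k • (Pi.single k 1 : Fin n → ℤ)) := by
    conv_lhs => rw [h1]
    rw [map_sum]
  have h3 : ∀ y, f y = D.cp γ y := fun y => rfl
  rw [← h3, h2]
  refine Finset.sum_congr rfl fun k _ => ?_
  rw [h3, D.cp_smul]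

theorem jc2_del_fm0 {n : ℕ} (D : RD n) (γ : D.Rt) (x : Fin n → ℤ) :
    jc2_del (jc2_c D γ) (fm0 x : AA n) = MvPolynomial.C ((D.cp γ x : ℤ) : ℂ) := by
  have h1 : (fm0 x : AA n) = ∑ j, MvPolynomial.C ((x j : ℤ) : ℂ) * MvPolynomial.X j := rfl
  rw [h1, map_sum, jc2_cp_sum D γ x]
  push_cast
  rw [map_sum]
  refine Finset.sum_congr rfl fun k _ => ?_
  rw [jc2_del_mul, jc2_del_C, jc2_del_X, mul_zero, add_zero, ← MvPolynomial.C_mul]
  rfl

/-- (i) the reflection anticommutes with the derivation -/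
theorem jc2_anti {n : ℕ} (D : RD n) (γ : D.Rt) (p : AA n) :
    D.rW γ • jc2_del (jc2_c D γ) p = - jc2_del (jc2_c D γ) (D.rW γ • p) := by
  have hX : ∀ i, D.rW γ • jc2_del (jc2_c D γ) (MvPolynomial.X i) =
      - jc2_del (jc2_c D γ) (D.rW γ • (MvPolynomial.X i : AA n)) := by
    intro i
    rw [← Pool.Agent.MTX.SLD.fm0_al, jc2_del_fm0, D.smul_C, D.smul_fm0, jc2_del_fm0,
      D.rW_apply, D.cp_rf]
    push_cast
    rw [MvPolynomial.C_neg, neg_neg]
  induction p using MvPolynomial.induction_on with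
  | C a =>
    rw [jc2_del_C, D.smul_C, jc2_del_C, smul_zero, neg_zero]
  | add p q hp hq =>
    rw [map_add, smul_add, hp, hq, smul_add, map_add, neg_add]
  | mul_X p i hp =>
    rw [jc2_del_mul, smul_add, smul_mul', smul_mul', hp, hX, smul_mul', jc2_del_mul]
    ring

/-- [JC2] PROOF. `s := D.rW γ`, `c k := D.cp γ (Pi.single k 1)`, `δ := ∑ k, C (c k) * pderiv k` (a derivation of `AA n`). (i) `s • (δ p) = - δ (s • p)` for all `p`: both sides are derivations along the algebra homomorphism `s •`, so it suffices for `p = X k = fm0 (Pi.single k 1)` (`MvPolynomial.induction_on` or `MvPolynomial.derivation_eq_of_forall_mem_vars`; direct induction on `p`: constants, sums, products with `X k`): `δ (fm0 μ) = C (D.cp γ μ)` (`cp` is additive), `s • fm0 μ = fm0 (D.rf γ μ)` (`smul_fm0`), `D.cp γ (D.rf γ μ) = - D.cp γ μ` (`cp_rf`), `s • C c = C c`.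
(ii) For invariant `F`: `s • (δ F) = - δ F`, so `fm0 γ ∣ δ F - s • δ F = 2 δ F` (`D.fm0_dvd`) and `fm0 γ ∣ δ F` (`2` is invertible). (iii) Let `J` be the Jacobian matrix; `J.mulVec (fun k => C (c k)) = fun i => δ (F i)`, so `adjugate J * (J c) = det J • c` (`Matrix.adjugate_mul`, `mulVec_mulVec`): `fm0 γ ∣ det J * C (c k)` for all `k`. Some `c k ≠ 0` (`∑ k, γ k * c k = D.cp γ γ.1 = 2`), and `C (c k)` is a unit. -/
theorem fm0_dvd_jac {n : ℕ} {D : RD n} (F : Fin n → AA n) (hF : ∀ (w : D.W) i, w • F i = F i) (γ : D.Rt) :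
    (fm0 γ.1 : AA n) ∣ Matrix.det (Matrix.of fun i j => MvPolynomial.pderiv j (F i)) := by
  have h2 : ∀ i, (fm0 γ.1 : AA n) ∣ jc2_del (jc2_c D γ) (F i) := by
    intro i
    have h3 := D.fm0_dvd γ (jc2_del (jc2_c D γ) (F i))
    rw [jc2_anti, hF, sub_neg_eq_add, ← two_mul] at h3
    have h4 : jc2_del (jc2_c D γ) (F i) =
        MvPolynomial.C ((1 : ℂ) / 2) * (2 * jc2_del (jc2_c D γ) (F i)) := by
      have h5 : (MvPolynomial.C ((1 : ℂ) / 2) : AA n) * 2 = 1 := by
        have h6 : (2 : AA n) = MvPolynomial.C (2 : ℂ) := by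
          rw [map_ofNat]
        rw [h6, ← MvPolynomial.C_mul]
        norm_num
      rw [← mul_assoc, h5, one_mul]
    rw [h4]
    exact Dvd.dvd.mul_left h3 _
  set J : Matrix (Fin n) (Fin n) (AA n) :=
    Matrix.of fun i j => MvPolynomial.pderiv j (F i) with hJ
  have h3 : J.mulVec (fun k => MvPolynomial.C (jc2_c D γ k)) =
      fun i => jc2_del (jc2_c D γ) (F i) := by
    funext i
    rw [jc2_del_eq]
    rfl
  have h4 : (J.adjugate).mulVec (J.mulVec fun k => MvPolynomial.C (jc2_c D γ k)) =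
      J.det • fun k => (MvPolynomial.C (jc2_c D γ k) : AA n) := by
    rw [Matrix.mulVec_mulVec, Matrix.adjugate_mul, Matrix.smul_mulVec, Matrix.one_mulVec]
  have h5 : ∀ k, (fm0 γ.1 : AA n) ∣ J.det * MvPolynomial.C (jc2_c D γ k) := by
    intro k
    have h6 := congrFun h4 k
    rw [h3] at h6
    have h7 : J.det * MvPolynomial.C (jc2_c D γ k) =
        ∑ i, J.adjugate k i * jc2_del (jc2_c D γ) (F i) := by
      rw [← smul_eq_mul]
      exact h6.symm
    rw [h7]
    exact Finset.dvd_sum fun i _ => Dvd.dvd.mul_left (h2 i) _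
  obtain ⟨k, hk⟩ : ∃ k, jc2_c D γ k ≠ 0 := by
    by_contra hno
    push Not at hno
    have h6 := jc2_cp_sum D γ γ.1
    rw [D.cp_self, Finset.sum_eq_zero] at h6
    · exact absurd h6 (by norm_num)
    · intro k _
      have h7 : ((D.cp γ (Pi.single k 1) : ℤ) : ℂ) = 0 := hno k
      rw [Int.cast_eq_zero.1 h7, mul_zero]
  have h6 : J.det = J.det * MvPolynomial.C (jc2_c D γ k) * MvPolynomial.C ((jc2_c D γ k)⁻¹) := by
    rw [mul_assoc, ← MvPolynomial.C_mul, mul_inv_cancel₀ hk, MvPolynomial.C_1, mul_one]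
  rw [h6]
  exact Dvd.dvd.mul_right (h5 k) _

/-- [JC2b] PROOF. `PI = ∏ γ : D.PRt, fm0 γ.1.1`; `D.H3_prod_dvd` with `fm0_prime`, `D.fm0_ndvd` (different positive roots: `γ ≠ δ`, `δ ≠ ng γ` because `ng γ` is not positive), `fm0_dvd_jac`; compare the proof of `PI0_dvd` in GD.lean. -/
theorem PI_dvd_jac {n : ℕ} {D : RD n} (F : Fin n → AA n) (hF : ∀ (w : D.W) i, w • F i = F i) :
    D.PI ∣ Matrix.det (Matrix.of fun i j => MvPolynomial.pderiv j (F i)) := by
  classical
  unfold RD.PI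
  refine RD.H3_prod_dvd Finset.univ (fun γ : D.PRt => (fm0 γ.1.1 : AA n)) _
    (fun γ _ => Pool.Agent.MTX.SLD.fm0_prime (D.Rt_ne γ.1))
    (fun γ _ δ _ h => D.fm0_ndvd (fun h1 => h (Subtype.ext h1.symm)) (fun h1 => ?_))
    (fun γ _ => fm0_dvd_jac F hF γ.1)
  exact D.not_pos_ng γ.2 (h1 ▸ δ.2)

end Pool.Agent.MTG
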