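import Pool.Agent.MTG.JC1
import Pool.Agent.MTG.JC2
import Pool.Agent.MTG.GT1

/-! # MTG-J : the Jacobian -/

namespace Pool.Agent.MTG

open Pool.Agent.MTF Matrix
open Pool.Agent.MTD (ev)
open Pool.Agent.MTX.SLD (AA fm0)
open Pool.Agent.MTH

theorem jc3_deg {n : ℕ} (m : Fin n →₀ ℕ) (j : Fin n) :
    ((m + Finsupp.single j 1).sum fun _ e => e) = (m.sum fun _ e => e) + 1 := by
  rw [Finsupp.sum_add_index' (fun _ => rfl) (fun _ _ _ => rfl), Finsupp.sum_single_index rfl]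

theorem jc3_coeff {n : ℕ} (p : AA n) (j : Fin n) (m : Fin n →₀ ℕ)
    (h : (MvPolynomial.pderiv j p).coeff m ≠ 0) : p.coeff (m + Finsupp.single j 1) ≠ 0 := by
  intro h0
  apply h
  have e1 : MvPolynomial.pderiv j p = ∑ k ∈ p.support,
      MvPolynomial.pderiv j (MvPolynomial.monomial k (p.coeff k)) := by
    conv_lhs => rw [MvPolynomial.as_sum p]
    rw [map_sum]
  rw [e1, MvPolynomial.coeff_sum]
  refine Finset.sum_eq_zero fun k _ => ?_
  rw [MvPolynomial.pderiv_monomial, MvPolynomial.coeff_monomial]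
  split_ifs with hk
  · by_cases hj : k j = 0
    · rw [hj, Nat.cast_zero, mul_zero]
    · have h1 : k = m + Finsupp.single j 1 := by
        rw [← hk]
        ext i
        rw [Finsupp.add_apply, Finsupp.tsub_apply, Finsupp.single_apply]
        split_ifs with hi
        · rw [← hi]
          omega
        · omega
      rw [h1, h0, zero_mul]
  · rfl

theorem jc3_sign {n N : ℕ} (σ : Equiv.Perm (Fin N)) {d : ℤ} {p : AA n} (hp : HD d p) :
    HD d (((Equiv.Perm.sign σ : ℤˣ) : ℤ) * p : AA n) := by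
  have h1 : (((Equiv.Perm.sign σ : ℤˣ) : ℤ) : AA n) =
      MvPolynomial.C (((Equiv.Perm.sign σ : ℤˣ) : ℤ) : ℂ) := by
    rw [map_intCast]
  rw [h1]
  have h2 := (HD.C (n := n) (((Equiv.Perm.sign σ : ℤˣ) : ℤ) : ℂ)).mul hp
  rw [zero_add] at h2
  exact h2

/-- [JC3] The derivatives of a homogeneous polynomial. PROOF. `HD d p`: `coeff (m) (pderiv j p) = coeff (m + single j 1) p * (m j + 1)` (`MvPolynomial.coeff_pderiv`-like; or by `induction_on'` for monomials, `pderiv_monomial`), so `2 (|m| + 1) = d`. -/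
theorem HD.pderiv {n : ℕ} {d : ℤ} {p : AA n} (hp : HD d p) (j : Fin n) : HD (d - 2) (MvPolynomial.pderiv j p) := by
  intro m hm
  have h1 := hp _ (jc3_coeff p j m hm)
  rw [jc3_deg] at h1
  push_cast at h1 ⊢
  linarith

/-- [JC3b] (the field `jac`) PROOF. `det J` has `HD (∑ i, 2 m i)`: `Matrix.det_apply'` (`HD.sum`, `HD.mul`, `HD.C`, `HD.prod` over `i` of the entries `J (σ i) i`, `HD (2 m (σ i))` by `HD.pderiv`, `hF.hd`; `Equiv.sum_comp σ`). `PI` has `HD (2 * card D.PRt)` (`HD.prod`, `HD_fm0`, `smul_const`). `PI_dvd_jac`: `det J = PI * q`; `HD.of_mul D.PI_ne` gives `HD 0 q` (`hF.sum`), `HD.const`: `q = C κ`; `κ ≠ 0` by `hF.det_ne`. -/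
theorem IsF.jac {G : AffGrp} {n : ℕ} {D : RD n} {C : CD G D} {v : Fin n → LR D ℂ} {m : Fin n → ℕ}
    {F : Fin n → AA n} (hF : IsF C v m F) : ∃ κ : ℂ, κ ≠ 0 ∧
      Matrix.det (Matrix.of fun i j => MvPolynomial.pderiv j (F i)) = MvPolynomial.C κ * D.PI := by
  have hJ : HD (∑ i, 2 * (m i : ℤ))
      (Matrix.det (Matrix.of fun i j => MvPolynomial.pderiv j (F i))) := by
    rw [Matrix.det_apply']
    refine HD.sum _ _ fun σ _ => ?_
    apply jc3_sign
    rw [← Equiv.sum_comp σ (fun i => 2 * (m i : ℤ))]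
    refine HD.prod _ _ _ fun i _ => ?_
    have h1 := HD.pderiv (hF.hd (σ i)) i
    rw [add_sub_cancel_right] at h1
    exact h1
  have hP : HD (2 * (Fintype.card D.PRt : ℤ)) (D.PI) := by
    have h1 : HD (∑ _γ : D.PRt, (2 : ℤ)) (∏ γ : D.PRt, (fm0 γ.1.1 : AA n)) :=
      HD.prod _ _ _ fun γ _ => HD_fm0 _
    rw [Finset.sum_const, Finset.card_univ, nsmul_eq_mul, mul_comm] at h1
    exact h1
  obtain ⟨q, hq⟩ := PI_dvd_jac F hF.inv
  have h2 : HD (∑ i, 2 * (m i : ℤ) - 2 * (Fintype.card D.PRt : ℤ)) q := by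
    refine HD.of_mul D.PI_ne hP ?_
    rw [← hq]
    exact hJ
  have h3 : ∑ i, 2 * (m i : ℤ) - 2 * (Fintype.card D.PRt : ℤ) = 0 := by
    rw [← Finset.mul_sum, ← hF.sum]
    push_cast
    ring
  rw [h3] at h2
  obtain ⟨κ, hκ⟩ := h2.const
  refine ⟨κ, ?_, ?_⟩
  · intro h0
    apply hF.det_ne
    rw [hq, hκ, h0, map_zero, mul_zero]
  · rw [hq, hκ, mul_comm]

end Pool.Agent.MTG
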