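import Pool.Agent.MTG.JC1

/-! # MTG-J : algebraic independence -/

namespace Pool.Agent.MTG

open Pool.Agent.MTF Matrix
open Pool.Agent.MTD (ev)
open Pool.Agent.MTX.SLD (AA fm0)
open Pool.Agent.MTH

theorem jd1_chain {n : ℕ} (F : Fin n → AA n) (j : Fin n) (p : AA n) :
    MvPolynomial.pderiv j (MvPolynomial.aeval F p) =
      ∑ i, MvPolynomial.aeval F (MvPolynomial.pderiv i p) * MvPolynomial.pderiv j (F i) := by
  induction p using MvPolynomial.induction_on with
  | C a =>
    simp [MvPolynomial.algebraMap_eq]
  | add p q hp hq =>
    simp only [map_add, hp, hq, add_mul, Finset.sum_add_distrib]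
  | mul_X p k hp =>
    have h1 : ∀ i, MvPolynomial.aeval F (MvPolynomial.pderiv i (p * MvPolynomial.X k)) *
        MvPolynomial.pderiv j (F i) =
        F k * (MvPolynomial.aeval F (MvPolynomial.pderiv i p) * MvPolynomial.pderiv j (F i)) +
        (if i = k then MvPolynomial.aeval F p * MvPolynomial.pderiv j (F i) else 0) := by
      intro i
      rw [MvPolynomial.pderiv_mul]
      by_cases hik : i = k
      · subst hik
        rw [MvPolynomial.pderiv_X_self]
        simp only [map_add, map_mul, MvPolynomial.aeval_X, map_one, if_true]
        ring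
      · rw [MvPolynomial.pderiv_X_of_ne (Ne.symm hik)]
        simp only [map_add, map_mul, MvPolynomial.aeval_X, map_zero, if_neg hik]
        ring
    rw [Finset.sum_congr rfl fun i _ => h1 i, Finset.sum_add_distrib, ← Finset.mul_sum, ← hp,
      Finset.sum_ite_eq' Finset.univ k]
    simp only [map_mul, MvPolynomial.aeval_X, MvPolynomial.pderiv_mul, Finset.mem_univ, if_true]
    ring

theorem jd1_deg {n : ℕ} (p : AA n) (i : Fin n) (hp : p.totalDegree ≠ 0) :
    (MvPolynomial.pderiv i p).totalDegree < p.totalDegree := by
  rw [MvPolynomial.totalDegree, Finset.sup_lt_iff (by rw [bot_eq_zero]; omega)]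
  intro m hm
  have h1 : m + Finsupp.single i 1 ∈ p.support := by
    rw [MvPolynomial.mem_support_iff] at hm ⊢
    rw [MvPolynomial.coeff_pderiv] at hm
    exact left_ne_zero_of_mul hm
  have h2 := MvPolynomial.le_totalDegree h1
  rw [Finsupp.sum_add_index' (fun _ => rfl) (fun _ _ _ => rfl),
    Finsupp.sum_single_index rfl] at h2
  omega

/-- [JD1] The Jacobian criterion. PROOF. Suppose there is `p ≠ 0` with `aeval F p = 0`; take one of minimal total degree. For every `j`: `0 = pderiv j (aeval F p) = ∑ i, aeval F (pderiv i p) * pderiv j (F i)` (chain rule: `MvPolynomial.induction_on p`, or `Derivation` version `MvPolynomial.derivation_ext`-like), i. e. the row vector `a i := aeval F (pderiv i p)` satisfies `a ᵥ* J = 0`, so `a = 0` (`Matrix.eq_zero_of_vecMul_eq_zero`, `det ≠ 0`). The total degree of `pderiv i p` is smaller (or `pderiv i p = 0`), so `pderiv i p = 0` for all `i` by minimality,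
hence `p` is a constant (characteristic `0`: a monomial `m ≠ 0` of `p` with `m i > 0` gives a nonzero coefficient of `pderiv i p`), `p = C c`, `0 = aeval F p = C c`, contradiction. -/
theorem jac_indep {n : ℕ} (F : Fin n → AA n)
    (h : Matrix.det (Matrix.of fun i j => MvPolynomial.pderiv j (F i)) ≠ 0) (p : AA n)
    (hp : MvPolynomial.aeval F p = 0) : p = 0 := by
  induction hN : p.totalDegree using Nat.strong_induction_on generalizing p with
  | _ N ih =>
  by_cases hN0 : N = 0
  · have h1 := MvPolynomial.totalDegree_eq_zero_iff_eq_C.1 (hN.trans hN0)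
    rw [h1, MvPolynomial.aeval_C, MvPolynomial.algebraMap_eq] at hp
    rw [h1]
    exact hp
  · exfalso
    have hd : ∀ i, MvPolynomial.pderiv i p = 0 := by
      have h2 : (fun i => MvPolynomial.aeval F (MvPolynomial.pderiv i p)) = 0 := by
        refine Matrix.eq_zero_of_vecMul_eq_zero h ?_
        funext j
        have h3 := jd1_chain F j p
        rw [hp, map_zero] at h3
        exact h3.symm
      intro i
      have h4 : MvPolynomial.aeval F (MvPolynomial.pderiv i p) = 0 := congrFun h2 i
      exact ih _ (hN ▸ jd1_deg p i (by omega)) _ h4 rfl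
    have h5 : p.totalDegree = 0 := by
      rw [MvPolynomial.totalDegree_eq_zero_iff]
      intro m hm i
      by_contra hi
      have h6 : MvPolynomial.coeff (m - Finsupp.single i 1) (MvPolynomial.pderiv i p) ≠ 0 := by
        rw [MvPolynomial.coeff_pderiv]
        have h7 : m - Finsupp.single i 1 + Finsupp.single i 1 = m := by
          ext a
          by_cases ha : a = i
          · subst ha
            simp
            omega
          · simp [Finsupp.single_eq_of_ne ha]
        rw [h7]
        refine mul_ne_zero (MvPolynomial.mem_support_iff.1 hm) ?_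
        exact Nat.cast_add_one_ne_zero _
      rw [hd i] at h6
      exact h6 rfl
    omega

end Pool.Agent.MTG
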