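import Pool.Agent.MTG.JD1

/-! # MTG-J : polynomials on the slice -/

namespace Pool.Agent.MTG

open Pool.Agent.MTF Matrix
open Pool.Agent.MTD (ev)
open Pool.Agent.MTX.SLD (AA fm0)
open Pool.Agent.MTH

theorem jd2_ee {n : ℕ} {D : RD n} (j : Fin n ⊕ D.Rt) :
    CD.ee D (AA n) j = MvPolynomial.C (CD.ee D ℂ j) :=
  (congrFun (CD.ee_map (D := D) (MvPolynomial.C : ℂ →+* AA n)) j).symm

theorem jd2_sx {G : AffGrp} {n : ℕ} {D : RD n} {C : CD G D} (j : Fin n ⊕ D.Rt) :
    C.sx j = MvPolynomial.C (CD.ee D ℂ j) + C.sz j := by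
  rw [← jd2_ee]
  rfl

/-- [JD2] PROOF. `hF.span z hz` gives `t` with `z = ∑ i, t i • v i`. Let `q := aeval (fun j => C (ee D ℂ j) + ∑ i, X i * C (v i j)) p : AA n` (the restriction of `p` to the slice). `aeval F q = aeval C.sx p = 0`: `MvPolynomial.aeval` composed (`MvPolynomial.comp_aeval`, `algHom_ext`), `C.sx j = ee j + C.sz j`, `hF.sz`, `ee_map`. So `q = 0` (`jac_indep F hF.det_ne`). `eval t q = eval (ee + z) p` (`eval` of `aeval`: `MvPolynomial.eval₂Hom`/`algHom_ext`; `eval t (C (ee j) + ∑ i, X i * C (v i j)) = ee j + ∑ i, t i * v i j`). -/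
theorem IsF.ASl {G : AffGrp} {n : ℕ} {D : RD n} {C : CD G D} {v : Fin n → LR D ℂ} {m : Fin n → ℕ}
    {F : Fin n → AA n} (hF : IsF C v m F) (p : MvPolynomial (Fin n ⊕ D.Rt) ℂ)
    (hp : MvPolynomial.aeval C.sx p = 0) (z : LR D ℂ) (hz : C.br (CD.ff D ℂ) z = 0) :
    MvPolynomial.eval (CD.ee D ℂ + z) p = 0 := by
  obtain ⟨t, ht⟩ := hF.span z hz
  have e1 : MvPolynomial.aeval F (MvPolynomial.aeval (fun j => (MvPolynomial.C (CD.ee D ℂ j) +
      ∑ i, MvPolynomial.X i * MvPolynomial.C (v i j) : AA n)) p) = 0 := by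
    rw [← AlgHom.comp_apply, MvPolynomial.comp_aeval, ← hp]
    congr 2
    funext j
    rw [map_add, map_sum, jd2_sx, hF.sz]
    congr 1
    · exact MvPolynomial.algHom_C _ _
    · refine Finset.sum_congr rfl fun i _ => ?_
      rw [map_mul, MvPolynomial.aeval_X]
      congr 1
      exact MvPolynomial.algHom_C _ _
  have e2 := jac_indep F hF.det_ne _ e1
  have e3 : MvPolynomial.aeval t (MvPolynomial.aeval (fun j => (MvPolynomial.C (CD.ee D ℂ j) +
      ∑ i, MvPolynomial.X i * MvPolynomial.C (v i j) : AA n)) p) =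
      MvPolynomial.aeval (CD.ee D ℂ + z) p := by
    rw [← AlgHom.comp_apply, MvPolynomial.comp_aeval]
    congr 2
    funext j
    rw [map_add, map_sum, Pi.add_apply, ht, Finset.sum_apply]
    congr 1
    · exact MvPolynomial.algHom_C _ _
    · refine Finset.sum_congr rfl fun i _ => ?_
      rw [map_mul, MvPolynomial.aeval_X, Pi.smul_apply, smul_eq_mul]
      congr 1
      exact MvPolynomial.algHom_C _ _
  rw [e2, map_zero] at e3
  exact e3.symm

/-- [JD2b] The coordinates are polynomials in `C.sx`. PROOF. The `v i` are linearly independent (`hF.ind`): there are `mu i : Fin n ⊕ D.Rt → ℂ` with `∑ j, mu i j * v k j = δ` (a left inverse of `c ↦ ∑ c i • v i`: `LinearMap.exists_leftInverse_of_injective`, values at `Pi.single j 1`); so `∑ j, C (mu i j) * C.sz j = F i` (`hF.sz`), and `C.sz j = aeval C.sx (X j - C (ee D ℂ j))` (`C.sx = ee + C.sz`, `ee_map`). -/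
theorem IsF.mem {G : AffGrp} {n : ℕ} {D : RD n} {C : CD G D} {v : Fin n → LR D ℂ} {m : Fin n → ℕ}
    {F : Fin n → AA n} (hF : IsF C v m F) (i : Fin n) :
    ∃ r : MvPolynomial (Fin n ⊕ D.Rt) ℂ, F i = MvPolynomial.aeval C.sx r := by
  classical
  obtain ⟨g, hg⟩ := LinearMap.exists_leftInverse_of_injective (Fintype.linearCombination ℂ v)
    (LinearMap.ker_eq_bot.2 (linearIndependent_iff_injective_fintypeLinearCombination.1 hF.ind))
  have hgv : ∀ k i, g (v k) i = if k = i then 1 else 0 := by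
    intro k i
    have h1 := LinearMap.congr_fun hg (Pi.single k 1)
    rw [LinearMap.comp_apply, Fintype.linearCombination_apply_single, one_smul] at h1
    rw [h1, LinearMap.id_apply, Pi.single_apply]
    simp only [eq_comm]
  have hmu : ∀ k i, ∑ j, g (Pi.single j 1) i * v k j = if k = i then 1 else 0 := by
    intro k i
    rw [← hgv k i]
    have h2 : v k = ∑ j, v k j • (Pi.single j 1 : LR D ℂ) := by
      funext a
      rw [Finset.sum_apply, Finset.sum_eq_single a]
      · rw [Pi.smul_apply, Pi.single_eq_same, smul_eq_mul, mul_one]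
      · intro b _ hb
        rw [Pi.smul_apply, Pi.single_eq_of_ne (Ne.symm hb), smul_zero]
      · intro h
        exact absurd (Finset.mem_univ a) h
    conv_rhs => rw [h2]
    rw [map_sum, Finset.sum_apply]
    refine Finset.sum_congr rfl fun j _ => ?_
    rw [map_smul, Pi.smul_apply, smul_eq_mul, mul_comm]
  refine ⟨∑ j, MvPolynomial.C (g (Pi.single j 1) i) *
    (MvPolynomial.X j - MvPolynomial.C (CD.ee D ℂ j)), ?_⟩
  rw [map_sum]
  have h3 : ∀ j, MvPolynomial.aeval C.sx (MvPolynomial.C (g (Pi.single j 1) i) *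
      (MvPolynomial.X j - MvPolynomial.C (CD.ee D ℂ j)) : MvPolynomial (Fin n ⊕ D.Rt) ℂ) =
      ∑ k, F k * MvPolynomial.C (g (Pi.single j 1) i * v k j) := by
    intro j
    rw [map_mul, map_sub, MvPolynomial.aeval_X, jd2_sx]
    have h4 : MvPolynomial.aeval C.sx (MvPolynomial.C (CD.ee D ℂ j) : MvPolynomial (Fin n ⊕ D.Rt) ℂ) =
        (MvPolynomial.C (CD.ee D ℂ j) : AA n) := MvPolynomial.algHom_C _ _
    have h5 : MvPolynomial.aeval C.sx (MvPolynomial.C (g (Pi.single j 1) i) :
        MvPolynomial (Fin n ⊕ D.Rt) ℂ) = (MvPolynomial.C (g (Pi.single j 1) i) : AA n) :=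
      MvPolynomial.algHom_C _ _
    rw [h4, h5, add_sub_cancel_left, hF.sz, Finset.mul_sum]
    refine Finset.sum_congr rfl fun k _ => ?_
    rw [MvPolynomial.C_mul]
    ring
  simp only [h3]
  rw [Finset.sum_comm]
  have h6 : ∀ k, ∑ j, F k * MvPolynomial.C (g (Pi.single j 1) i * v k j) =
      F k * MvPolynomial.C (if k = i then 1 else 0) := by
    intro k
    rw [← Finset.mul_sum, ← map_sum, hmu]
  simp only [h6]
  rw [Finset.sum_eq_single i]
  · rw [if_pos rfl, map_one, mul_one]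
  · intro k _ hk
    rw [if_neg hk, map_zero, mul_zero]
  · intro h
    exact absurd (Finset.mem_univ i) h

end Pool.Agent.MTG
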