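import Pool.Agent.MTG.JC3
import Pool.Agent.MTG.JD2

/-! # MTG-J : the results -/

namespace Pool.Agent.MTG

open Pool.Agent.MTF Matrix
open Pool.Agent.MTD (ev)
open Pool.Agent.MTX.SLD (AA fm0)
open Pool.Agent.MTH

/-- the field `jac` of `GIn` -/
theorem CD.jac {G : AffGrp} {n : ℕ} {D : RD n} (C : CD G D) : ∃ (F : Fin n → AA n) (κ : ℂ),
    (∀ (w : D.W) i, w • F i = F i) ∧ κ ≠ 0 ∧
      Matrix.det (fun i j => MvPolynomial.pderiv j (F i)) = MvPolynomial.C κ * D.PI := by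
  obtain ⟨v, m, F, hF⟩ := C.exists_F
  obtain ⟨κ, h1, h2⟩ := hF.jac
  exact ⟨F, κ, hF.inv, h1, h2⟩

/-- a polynomial vanishing at the universal slice element vanishes on the slice -/
theorem CD.ASl {G : AffGrp} {n : ℕ} {D : RD n} (C : CD G D) (p : MvPolynomial (Fin n ⊕ D.Rt) ℂ)
    (hp : MvPolynomial.aeval C.sx p = 0) (z : LR D ℂ) (hz : C.br (CD.ff D ℂ) z = 0) :
    MvPolynomial.eval (CD.ee D ℂ + z) p = 0 := by
  obtain ⟨v, m, F, hF⟩ := C.exists_F
  exact hF.ASl p hp z hz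

/-- algebraically independent coordinates of the slice -/
theorem IsF.indep {G : AffGrp} {n : ℕ} {D : RD n} {C : CD G D} {v : Fin n → LR D ℂ} {m : Fin n → ℕ}
    {F : Fin n → AA n} (hF : IsF C v m F) : AlgebraicIndependent ℂ F := by
  rw [algebraicIndependent_iff]
  intro p hp
  exact jac_indep F hF.det_ne p hp

end Pool.Agent.MTG
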