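import Pool.Agent.MTG.YP3
import Pool.Agent.MTG.GQ
import Pool.Agent.MTF.P0a

/-! # MTG-YF0 : the basis `Db` of the Lie algebra and the coordinates `cA` of the slice element -/

namespace Pool.Agent.MTG

open Pool.Agent.MTF Matrix
open Pool.Agent.MTD (ev)
open Pool.Agent.MTX.SLD (AA fm0)
open Pool.Agent.MTH
open RD (KK aK)

namespace CD

variable {G : AffGrp} {n : ℕ} {D : RD n} (C : CD G D)

/-- an enumeration of the Cartan basis -/
noncomputable def eqJ (D : RD n) : (Fin n ⊕ D.Rt) ≃ Fin (Fintype.card (Fin n ⊕ D.Rt)) :=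
  Fintype.equivFin _

/-- the basis of the Lie algebra -/
noncomputable def Db : Module.Basis (Fin (Fintype.card (Fin n ⊕ D.Rt))) ℂ G.Lie :=
  C.bs.reindex (eqJ D)

/-- the coordinates of the slice element -/
noncomputable def cA : Fin (Fintype.card (Fin n ⊕ D.Rt)) → AA n := fun j => C.sx ((eqJ D).symm j)

theorem Db_apply (j : Fin (Fintype.card (Fin n ⊕ D.Rt))) : C.Db j = C.bs ((eqJ D).symm j) :=
  Module.Basis.reindex_apply _ _ _

theorem cA_w (w : D.W) (j : Fin (Fintype.card (Fin n ⊕ D.Rt))) : w • C.cA j = C.cA j :=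
  C.sx_W w _

theorem SE_eq (E : MTF.Rep G) : SE C.Db C.cA E = C.dm E C.sx := by
  refine Matrix.ext fun a b => ?_
  rw [C.dm_apply, ← Equiv.sum_comp (eqJ D).symm]
  refine Finset.sum_congr rfl fun j _ => ?_
  show C.sx ((eqJ D).symm j) * MvPolynomial.C ((C.Db j).1 (E.co a b)) = _
  rw [C.Db_apply]
  rfl

/-- the TQ datum of `C` -/
noncomputable abbrev TQd : TQD G (KK n) D.W (Fin n → ℤ) := tqd G D C.Db C.cA

end CD

end Pool.Agent.MTG
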