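import Pool.Agent.MTG.YT0

/-! # MTG-YT : principal triples -/

namespace Pool.Agent.MTG

open Pool.Agent.MTF Matrix
open Pool.Agent.MTD (ev)
open Pool.Agent.MTX.SLD (AA fm0)
open Pool.Agent.MTH
open Pool.Agent.MP_c45d35_ag (chi)

/-- YT0a.  The bracket in coordinates (`C.lie_bs`, bilinearity; `G.br` is the bracket, `AffGrp.lie_eq`). -/
theorem CD.toL_br {G : AffGrp} {n : ℕ} {D : RD n} (C : CD G D) (z z' : LR D ℂ) :
    G.br (C.toL z) (C.toL z') = C.toL (C.br z z') := by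
  refine AffGrp.d_injective C.F C.faith ?_
  rw [← AffGrp.lie_eq, C.F.d_lie]
  have h1 : ∀ z : LR D ℂ, C.F.d (C.toL z) = C.dm C.F z := fun z => (C.dm_complex C.F z).symm
  rw [h1, h1, h1, C.dm_br]

/-- equality of coordinate vectors from the matrices in `C.F` -/
theorem YT0a_inj {G : AffGrp} {n : ℕ} {D : RD n} (C : CD G D) {z z' : LR D ℂ}
    (h : C.dm C.F z = C.dm C.F z') : z = z' := by
  refine C.toL_inj (AffGrp.d_injective C.F C.faith ?_)
  have h1 : ∀ z : LR D ℂ, C.F.d (C.toL z) = C.dm C.F z := fun z => (C.dm_complex C.F z).symm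
  rw [h1, h1, h]

/-- (row YT0a) The standard triple: `[2ρ^∨, e] = 2 e` (`br_hx`, `ev_hv`, `ht2_sim`), `[2ρ^∨, f] = -2 f`, `[e, f] = 2ρ^∨`: `dm_inj` for `C.F` and `CD.sl2 C C.isW_F`
(`(C.isW_F).dm_hx`, `ev_hv`), or directly. -/
theorem CD.std_triple {G : AffGrp} {n : ℕ} {D : RD n} (C : CD G D) :
    C.br (CD.hx (hv D ℂ)) (CD.ee D ℂ) = (2 : ℂ) • CD.ee D ℂ ∧
    C.br (CD.hx (hv D ℂ)) (CD.ff D ℂ) = (-2 : ℂ) • CD.ff D ℂ ∧
    C.br (CD.ee D ℂ) (CD.ff D ℂ) = CD.hx (hv D ℂ) := by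
  have H := CD.sl2 C C.isW_F
  have hd : C.dm C.F (CD.hx (hv D ℂ)) =
      Matrix.diagonal fun a => ((D.ht2 (C.wt a) : ℤ) : ℂ) := by
    rw [(C.isW_F).dm_hx]
    congr 1
    funext a
    exact ev_hv (C.wt a)
  have hk : ∀ (z : LR D ℂ) (k : ℤ), Gd.HM (fun a => D.ht2 (C.wt a)) k (C.dm C.F z) →
      C.br (CD.hx (hv D ℂ)) z = (k : ℂ) • z := by
    intro z k hz
    refine YT0a_inj C ?_
    rw [C.dm_br, hd, C.dm_smul]
    ext a b
    rw [Matrix.sub_apply, Matrix.diagonal_mul, Matrix.mul_diagonal, Matrix.smul_apply, smul_eq_mul]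
    by_cases h0 : C.dm C.F z a b = 0
    · rw [h0]; ring
    · have h2 : D.ht2 (C.wt a) = D.ht2 (C.wt b) + k := hz a b h0
      rw [h2]
      push_cast
      ring
  refine ⟨?_, ?_, ?_⟩
  · have := hk (CD.ee D ℂ) 2 H.e_HM
    rw [this]
    norm_num
  · have := hk (CD.ff D ℂ) (-2) H.f_HM
    rw [this]
    norm_num
  · refine YT0a_inj C ?_
    rw [C.dm_br, hd]
    exact H.ef

end Pool.Agent.MTG
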