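import Pool.Agent.MTG.JE
import Pool.Agent.MTG.IA4
import Pool.Agent.MTG.YF0
import Pool.Agent.MTG.YT0a

/-! # MTG-J : the fields `AW` and `ASl` of `PQ` for the datum `C.TQd` -/

namespace Pool.Agent.MTG

open Pool.Agent.MTF Matrix
open Pool.Agent.MTD (ev)
open Pool.Agent.MTX.SLD (AA fm0)
open Pool.Agent.MTH
open RD (KK aK)

theorem jf_aeval {n : ℕ} {J : Type} (x : J → AA n) (p : MvPolynomial J ℂ) :
    MvPolynomial.aeval (fun j => (aK (x j) : KK n)) p = aK (MvPolynomial.aeval x p) := by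
  induction p using MvPolynomial.induction_on with
  | C a =>
    rw [MvPolynomial.algHom_C, MvPolynomial.algHom_C]
    exact IsScalarTower.algebraMap_apply ℂ (AA n) (KK n) a
  | add p q hp hq => rw [map_add, hp, hq, map_add, map_add]
  | mul_X p i hp => rw [map_mul, hp, map_mul, map_mul, MvPolynomial.aeval_X, MvPolynomial.aeval_X]

theorem jf_inj {n : ℕ} {x y : AA n} (h : (aK x : KK n) = aK y) : x = y :=
  IsFractionRing.injective (AA n) (KK n) h

/-- the field `AW` of `PQ` -/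
theorem CD.AWq {G : AffGrp} {n : ℕ} {D : RD n} (C : CD G D) (hG : IsDomain G.O) (a : KK n)
    (ha : a ∈ C.TQd.A) (hw : ∀ w : D.W, w • a = a) :
    ∃ p : MvPolynomial (Fin C.TQd.r) ℂ, MvPolynomial.aeval C.TQd.c p = a := by
  obtain ⟨t, rfl⟩ := mem_AK.1 ha
  have h1 : ∀ w : D.W, w • t = t := fun w => by
    have h2 := hw w
    rw [RD.smul_aK] at h2
    exact jf_inj h2
  obtain ⟨r, hr⟩ := C.inv_mem hG t h1
  refine ⟨MvPolynomial.rename (CD.eqJ D) r, ?_⟩
  have h2 : MvPolynomial.aeval C.TQd.c (MvPolynomial.rename (CD.eqJ D) r) =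
      aK (MvPolynomial.aeval C.cA (MvPolynomial.rename (CD.eqJ D) r)) := jf_aeval C.cA _
  rw [h2, MvPolynomial.aeval_rename]
  have h3 : C.cA ∘ (CD.eqJ D) = C.sx := by
    funext j
    show C.sx ((CD.eqJ D).symm (CD.eqJ D j)) = _
    rw [Equiv.symm_apply_apply]
  rw [h3, ← hr]

/-- the field `ASl` of `PQ` -/
theorem CD.ASlq {G : AffGrp} {n : ℕ} {D : RD n} (C : CD G D) (p : MvPolynomial (Fin C.TQd.r) ℂ)
    (hp : MvPolynomial.aeval C.TQd.c p = 0) (s₀ : G.Lie)
    (hs : G.br (C.toL (CD.ff D ℂ)) (s₀ - C.toL (CD.ee D ℂ)) = 0) :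
    MvPolynomial.eval (fun i => C.TQd.D.repr s₀ i) p = 0 := by
  obtain ⟨z, hz⟩ := C.toL_surj (s₀ - C.toL (CD.ee D ℂ))
  have h1 : s₀ = C.toL (CD.ee D ℂ + z) := by
    rw [C.toL_add, hz]
    abel
  have h2 : C.br (CD.ff D ℂ) z = 0 := by
    apply C.toL_inj
    rw [← C.toL_br, hz, hs]
    unfold CD.toL
    simp
  have h3 : MvPolynomial.aeval C.cA p = 0 := by
    apply jf_inj
    rw [← jf_aeval, map_zero]
    exact hp
  have h4 := C.ASl (MvPolynomial.rename (CD.eqJ D).symm p) (by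
    rw [MvPolynomial.aeval_rename]
    exact h3) z h2
  rw [MvPolynomial.eval_rename] at h4
  rw [← h4]
  congr 2
  funext i
  show C.Db.repr s₀ i = (CD.ee D ℂ + z) ((CD.eqJ D).symm i)
  rw [h1]
  unfold CD.Db CD.toL
  rw [Module.Basis.repr_reindex_apply, C.bs.repr_sum_self]

end Pool.Agent.MTG
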