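import Pool.Agent.MTG.WM

/-! # MTG-W : Weyl's theorem (complete reducibility) over `ℂ` -/

namespace Pool.Agent.MTG

open LieModule LieAlgebra

variable {L V : Type} [LieRing L] [LieAlgebra ℂ L] [FiniteDimensional ℂ L] [IsKilling ℂ L]
  [AddCommGroup V] [Module ℂ V] [LieRingModule L V] [LieModule ℂ L V] [FiniteDimensional ℂ V]

attribute [local instance 100] LieRing.ofAssociativeRing

/-- W1a.  Let `K = LieModule.ker ℂ L V` (an ideal) and `I = LieIdeal.killingCompl ℂ L K`; by
`LieIdeal.isCompl_killingCompl` these are complementary ideals.  The radical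
`R = {x ∈ I | ∀ y ∈ I, traceForm x y = 0}` equals `{x ∈ I | ∀ y : L, traceForm x y = 0}` (elements of
`K` act by zero), so it is an ideal (`traceForm_apply_lie_apply`).  The trace form of the module `V`
of the Lie algebra `R` vanishes, so by `isNilpotent_derivedSeries_of_traceForm_eq_zero` the derived
algebra `[R, R]` acts nilpotently on `V`; the action of `I` on `V` is faithful, so
`ad x` is nilpotent on `[R, R]` for `x ∈ [R, R]`, `[R, R]` is a nilpotent Lie algebra (Engel:
`LieAlgebra.isNilpotent_iff_forall`), `R` is solvable, hence `R = ⊥` (`HasTrivialRadical`).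
Compare the proof of `LieIdeal.isSolvable_of_killingForm_apply_lie_eq_zero` in
`Mathlib/Algebra/Lie/CartanCriterion.lean`.  Finally if `I = ⊥` then `K = ⊤`. -/
theorem exists_ideal_nondeg (L V : Type) [LieRing L] [LieAlgebra ℂ L] [FiniteDimensional ℂ L]
    [IsKilling ℂ L] [AddCommGroup V] [Module ℂ V] [LieRingModule L V] [LieModule ℂ L V]
    [FiniteDimensional ℂ V] :
    ∃ I : LieIdeal ℂ L, (∀ x ∈ I, (∀ y ∈ I, traceForm ℂ L V x y = 0) → x = 0) ∧
      (I = ⊥ → ∀ (x : L) (v : V), ⁅x, v⁆ = 0) := by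
  set K : LieIdeal ℂ L := LieModule.ker ℂ L V with hK
  have hkm : ∀ x : L, x ∈ K ↔ ∀ v : V, ⁅x, v⁆ = 0 := fun x => LieModule.mem_ker (R := ℂ) (L := L) V x
  have hc : IsCompl K K.killingCompl := LieIdeal.isCompl_killingCompl K
  refine ⟨K.killingCompl, ?_, ?_⟩
  · -- the radical
    set I : LieIdeal ℂ L := K.killingCompl with hI
    have hsup : ∀ y : L, ∃ k ∈ K, ∃ i ∈ I, k + i = y := by
      intro y
      have hy : y ∈ (K ⊔ I : LieIdeal ℂ L) := by rw [hc.sup_eq_top]; exact LieSubmodule.mem_top y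
      exact (LieSubmodule.mem_sup _ _ _).mp hy
    have hdisj : ∀ x, x ∈ K → x ∈ I → x = 0 := by
      intro x h1 h2
      have : x ∈ (K ⊓ I : LieIdeal ℂ L) := (LieSubmodule.mem_inf _ _ _).mpr ⟨h1, h2⟩
      rw [hc.inf_eq_bot] at this
      exact (LieSubmodule.mem_bot _).mp this
    let Rd : LieIdeal ℂ L :=
      { carrier := {x | x ∈ I ∧ ∀ y : L, traceForm ℂ L V x y = 0}
        add_mem' := by
          rintro a b ⟨ha, ha'⟩ ⟨hb, hb'⟩
          refine ⟨I.add_mem ha hb, fun y => ?_⟩
          rw [map_add, LinearMap.add_apply, ha' y, hb' y, add_zero]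
        zero_mem' := ⟨I.zero_mem, fun y => by rw [map_zero, LinearMap.zero_apply]⟩
        smul_mem' := by
          rintro c a ⟨ha, ha'⟩
          refine ⟨I.smul_mem c ha, fun y => ?_⟩
          rw [map_smul, LinearMap.smul_apply, ha' y, smul_zero]
        lie_mem := by
          rintro z a ⟨ha, ha'⟩
          refine ⟨I.lie_mem ha, fun y => ?_⟩
          rw [← lie_skew, map_neg, LinearMap.neg_apply, traceForm_apply_lie_apply, ha', neg_zero] }
    have hRd : ∀ x, x ∈ Rd ↔ x ∈ I ∧ ∀ y : L, traceForm ℂ L V x y = 0 := fun x => Iff.rfl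
    have tf : LieModule.traceForm ℂ Rd V = 0 := by
      ext ⟨x, hx⟩ ⟨y, hy⟩
      change LieModule.traceForm ℂ L V x y = 0
      exact hx.2 y
    have module_nilp : LieModule.IsNilpotent (derivedSeries ℂ Rd 1) V :=
      LieModule.isNilpotent_derivedSeries_of_traceForm_eq_zero tf
    set DR : LieIdeal ℂ L := ⁅Rd, Rd⁆ with hDR
    have hDRle : DR ≤ Rd := LieSubmodule.lie_le_left Rd Rd
    have ring_nilp : LieRing.IsNilpotent DR := by
      rw [LieAlgebra.isNilpotent_iff_forall (R := ℂ)]
      rintro ⟨x, hx⟩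
      have h1 : _root_.IsNilpotent (toEnd ℂ L V x) := by
        refine (LieModule.isNilpotent_iff_forall' (R := ℂ)).mp module_nilp ⟨⟨x, hDRle hx⟩, ?_⟩
        rwa [LieIdeal.derivedSeries_eq_derivedSeriesOfIdeal_comap, LieIdeal.mem_comap]
      obtain ⟨n, hn⟩ := LieAlgebra.ad_nilpotent_of_nilpotent (R := ℂ) h1
      have key : ∀ (k : ℕ) (y : DR), toEnd ℂ L V (((LieAlgebra.ad ℂ DR ⟨x, hx⟩) ^ k) y : DR).1 =
          ((LieAlgebra.ad ℂ (Module.End ℂ V) (toEnd ℂ L V x)) ^ k) (toEnd ℂ L V y.1) := by
        intro k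
        induction k with
        | zero => intro y; simp
        | succ k ih =>
          intro y
          rw [pow_succ', pow_succ', Module.End.mul_apply, Module.End.mul_apply, ← ih y]
          rw [LieAlgebra.ad_apply, LieAlgebra.ad_apply, ← LieHom.map_lie]
          rfl
      refine ⟨n, ?_⟩
      apply LinearMap.ext
      intro y
      have h2 := key n y
      rw [hn, LinearMap.zero_apply] at h2
      have h3 : ((((LieAlgebra.ad ℂ DR ⟨x, hx⟩) ^ n) y : DR).1 : L) = 0 := by
        apply hdisj
        · rw [hkm]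
          intro v
          have := congrArg (fun f => f v) h2
          simpa using this
        · exact (hDRle (((LieAlgebra.ad ℂ DR ⟨x, hx⟩) ^ n) y : DR).2).1
      exact Subtype.ext h3
    have hsolv : IsSolvable Rd := by
      obtain ⟨k, hk⟩ := IsSolvable.solvable ℂ DR
      rw [LieIdeal.derivedSeries_eq_bot_iff] at hk
      refine IsSolvable.mk (k := k + 1) ((LieIdeal.derivedSeries_eq_bot_iff Rd (k + 1)).mpr ?_)
      rwa [derivedSeriesOfIdeal_add, derivedSeriesOfIdeal_succ, derivedSeriesOfIdeal_zero]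
    have hbot : Rd = ⊥ := HasTrivialRadical.eq_bot_of_isSolvable Rd
    intro x hx h
    have hxR : x ∈ Rd := by
      refine ⟨hx, fun y => ?_⟩
      obtain ⟨k, hk, i, hi, rfl⟩ := hsup y
      have h0 : toEnd ℂ L V k = 0 := by
        ext v
        simpa using (hkm k).mp hk v
      rw [map_add, h i hi, add_zero, traceForm_apply_apply, h0]
      simp
    rw [hbot] at hxR
    exact (LieSubmodule.mem_bot _).mp hxR
  · intro hI x v
    have : x ∈ K := by
      have h1 : K = ⊤ := by
        have := hc.sup_eq_top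
        rwa [hI, sup_bot_eq] at this
      rw [h1]; exact LieSubmodule.mem_top x
    exact (hkm x).mp this v

end Pool.Agent.MTG
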