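import Pool.Agent.MTG.W1a

/-! # MTG-W : Weyl's theorem (complete reducibility) over `ℂ` -/

namespace Pool.Agent.MTG

open LieModule LieAlgebra

variable {L V : Type} [LieRing L] [LieAlgebra ℂ L] [FiniteDimensional ℂ L] [IsKilling ℂ L]
  [AddCommGroup V] [Module ℂ V] [LieRingModule L V] [LieModule ℂ L V] [FiniteDimensional ℂ V]

attribute [local instance 100] LieRing.ofAssociativeRing

/-- W1b.  Take `I` from `exists_ideal_nondeg`, a basis `b i` of `I` and the dual basis `b' i` for the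
restriction of the trace form (`LinearMap.BilinForm.dualBasis`), `c = ∑ φ (b i) φ (b' i)`,
`d = finrank I`.  For `x ∈ L`: `[x, b i] = ∑ j, a i j • b j` with `a i j = B([x, b i], b' j)` and
`[x, b' i] = - ∑ j, a j i • b' j` (invariance of the trace form), so `φ x c - c φ x = ∑ i,
(φ [x, b i] φ (b' i) + φ (b i) φ [x, b' i]) = 0`.  `trace c = ∑ i, B (b i) (b' i) = d`. -/
theorem exists_casimir (L V : Type) [LieRing L] [LieAlgebra ℂ L] [FiniteDimensional ℂ L]
    [IsKilling ℂ L] [AddCommGroup V] [Module ℂ V] [LieRingModule L V] [LieModule ℂ L V]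
    [FiniteDimensional ℂ V] :
    ∃ (c : Module.End ℂ V) (d : ℕ), (∀ (x : L) (v : V), ⁅x, c v⁆ = c ⁅x, v⁆) ∧
      LinearMap.trace ℂ V c = (d : ℂ) ∧ (d = 0 → ∀ (x : L) (v : V), ⁅x, v⁆ = 0) ∧
      ∀ W : LieSubmodule ℂ L V, (∀ (x : L) (v : V), ⁅x, v⁆ ∈ W) → ∀ v, c v ∈ W := by
  classical
  obtain ⟨I, hnd, hbot⟩ := exists_ideal_nondeg L V
  have hBval : ∀ x y : I, traceForm ℂ I V x y = traceForm ℂ L V x.1 y.1 := fun x y => rfl
  set B : LinearMap.BilinForm ℂ I := traceForm ℂ I V with hBdef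
  have hsym : B.IsSymm := ⟨fun x y => traceForm_comm ℂ I V x y⟩
  have hB : B.Nondegenerate := by
    constructor
    · intro x hx
      have := hnd x.1 x.2 (fun y hy => hx ⟨y, hy⟩)
      exact Subtype.ext this
    · intro x hx
      have := hnd x.1 x.2 (fun y hy => by
        rw [traceForm_comm]; exact hx ⟨y, hy⟩)
      exact Subtype.ext this
  let b := Module.finBasis ℂ I
  let b' := B.dualBasis hB b
  have hbb : B.dualBasis hB b' = b := LinearMap.BilinForm.dualBasis_dualBasis hB hsym b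
  have hexp : ∀ z : I, z = ∑ j, B z (b' j) • b j := by
    intro z
    conv_lhs => rw [← b.sum_repr z]
    refine Finset.sum_congr rfl fun j _ => ?_
    congr 1
    have := LinearMap.BilinForm.dualBasis_repr_apply hB b' z j
    rw [hbb] at this
    exact this
  have hexp' : ∀ z : I, z = ∑ j, B z (b j) • b' j := by
    intro z
    conv_lhs => rw [← b'.sum_repr z]
    refine Finset.sum_congr rfl fun j _ => ?_
    congr 1
    exact LinearMap.BilinForm.dualBasis_repr_apply hB b z j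
  -- the Casimir element
  let c : Module.End ℂ V := ∑ i, (toEnd ℂ L V (b i).1) * (toEnd ℂ L V (b' i).1)
  have hc : ∀ v, c v = ∑ i, ⁅((b i).1 : L), ⁅((b' i).1 : L), v⁆⁆ := by
    intro v
    simp [c, LinearMap.sum_apply]
  refine ⟨c, Module.finrank ℂ I, ?_, ?_, ?_, ?_⟩
  · intro x v
    -- brackets with x inside I
    let xb : Fin (Module.finrank ℂ I) → I := fun i => ⟨⁅x, (b i).1⁆, I.lie_mem (b i).2⟩
    let xb' : Fin (Module.finrank ℂ I) → I := fun i => ⟨⁅x, (b' i).1⁆, I.lie_mem (b' i).2⟩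
    have e1 : ∀ i, ⁅x, ((b i).1 : L)⁆ = ∑ j, B (xb i) (b' j) • ((b j).1 : L) := by
      intro i
      have := congrArg (Subtype.val) (hexp (xb i))
      rw [show ((xb i).1 : L) = ⁅x, ((b i).1 : L)⁆ from rfl] at this
      rw [this]
      simp
    have e2 : ∀ i, ⁅x, ((b' i).1 : L)⁆ = ∑ j, B (xb' i) (b j) • ((b' j).1 : L) := by
      intro i
      have := congrArg (Subtype.val) (hexp' (xb' i))
      rw [show ((xb' i).1 : L) = ⁅x, ((b' i).1 : L)⁆ from rfl] at this
      rw [this]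
      simp
    have e3 : ∀ i j, B (xb' i) (b j) = - B (xb j) (b' i) := by
      intro i j
      show traceForm ℂ L V ⁅x, ((b' i).1 : L)⁆ (b j).1 = - traceForm ℂ L V ⁅x, ((b j).1 : L)⁆ (b' i).1
      rw [← lie_skew, map_neg, LinearMap.neg_apply, traceForm_apply_lie_apply, traceForm_comm]
    rw [hc, hc, lie_sum]
    have e4 : ∀ i, ⁅x, ⁅((b i).1 : L), ⁅((b' i).1 : L), v⁆⁆⁆ =
        ⁅⁅x, ((b i).1 : L)⁆, ⁅((b' i).1 : L), v⁆⁆ + ⁅((b i).1 : L), ⁅⁅x, ((b' i).1 : L)⁆, v⁆⁆ +
          ⁅((b i).1 : L), ⁅((b' i).1 : L), ⁅x, v⁆⁆⁆ := by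
      intro i
      rw [leibniz_lie x ((b i).1 : L), leibniz_lie x ((b' i).1 : L) v, lie_add, add_assoc]
    rw [Finset.sum_congr rfl fun i _ => e4 i, Finset.sum_add_distrib, Finset.sum_add_distrib]
    have e5 : ∑ i, ⁅⁅x, ((b i).1 : L)⁆, ⁅((b' i).1 : L), v⁆⁆ =
        ∑ i, ∑ j, B (xb i) (b' j) • ⁅((b j).1 : L), ⁅((b' i).1 : L), v⁆⁆ := by
      refine Finset.sum_congr rfl fun i _ => ?_
      rw [e1 i, sum_lie]
      refine Finset.sum_congr rfl fun j _ => ?_
      rw [smul_lie]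
    have e6 : ∑ i, ⁅((b i).1 : L), ⁅⁅x, ((b' i).1 : L)⁆, v⁆⁆ =
        - ∑ i, ∑ j, B (xb j) (b' i) • ⁅((b i).1 : L), ⁅((b' j).1 : L), v⁆⁆ := by
      rw [← Finset.sum_neg_distrib]
      refine Finset.sum_congr rfl fun i _ => ?_
      rw [e2 i, sum_lie, lie_sum, ← Finset.sum_neg_distrib]
      refine Finset.sum_congr rfl fun j _ => ?_
      rw [smul_lie, lie_smul, e3 i j, neg_smul]
    rw [e5, e6, Finset.sum_comm, add_neg_cancel, zero_add]
  · simp only [c, map_sum]
    have : ∀ i, LinearMap.trace ℂ V (toEnd ℂ L V (b i).1 * toEnd ℂ L V (b' i).1) = 1 := by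
      intro i
      have h1 := LinearMap.BilinForm.apply_dualBasis_right hB hsym b i i
      rw [if_pos rfl] at h1
      exact h1
    rw [Finset.sum_congr rfl fun i _ => this i]
    simp
  · intro h0
    apply hbot
    have hs : Subsingleton I := Module.finrank_zero_iff.mp h0
    rw [eq_bot_iff]
    intro x hx
    have := congrArg Subtype.val (Subsingleton.elim (⟨x, hx⟩ : I) 0)
    exact (LieSubmodule.mem_bot _).mpr this
  · intro W hW v
    rw [hc]
    exact W.sum_mem fun i _ => hW _ _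

end Pool.Agent.MTG
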