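import Pool.Agent.MTG.W1b

/-! # MTG-W : Weyl's theorem (complete reducibility) over `ℂ` -/

namespace Pool.Agent.MTG

open LieModule LieAlgebra

section

variable {L : Type} [LieRing L] [LieAlgebra ℂ L] [FiniteDimensional ℂ L] [IsKilling ℂ L]

/-- the case of an irreducible `W` -/
theorem w2_irred {V : Type} [AddCommGroup V] [Module ℂ V] [LieRingModule L V] [LieModule ℂ L V]
    [FiniteDimensional ℂ V] (W : LieSubmodule ℂ L V) (hW : ∀ (x : L) (v : V), ⁅x, v⁆ ∈ W)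
    (h : W ≠ ⊤) (hirr : ∀ W₁ : LieSubmodule ℂ L V, W₁ ≤ W → W₁ ≠ ⊥ → W₁ = W) :
    ∃ v, v ∉ W ∧ ∀ x : L, ⁅x, v⁆ = 0 := by
  obtain ⟨u, hu⟩ : ∃ u, u ∉ W := by
    by_contra hc
    push Not at hc
    exact h (eq_top_iff.2 fun v _ => hc v)
  by_cases hbot : W = ⊥
  · refine ⟨u, hu, fun x => ?_⟩
    have := hW x u
    rw [hbot] at this
    exact (LieSubmodule.mem_bot _).1 this
  obtain ⟨c, d, hc1, hc2, hc3, hc4⟩ := exists_casimir L V
  have hcW : ∀ v, c v ∈ W := hc4 W hW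
  by_cases hd : d = 0
  · exact ⟨u, hu, fun x => hc3 hd x u⟩
  -- the scalar
  have hmaps : ∀ w ∈ (W : Submodule ℂ V), c w ∈ (W : Submodule ℂ V) := fun w _ => hcW w
  have hnt : Nontrivial (W : Submodule ℂ V) := by
    rw [Submodule.nontrivial_iff_ne_bot]
    intro h1
    apply hbot
    rw [← LieSubmodule.toSubmodule_inj, h1]
    rfl
  obtain ⟨r, hr⟩ := Module.End.exists_eigenvalue (c.restrict hmaps)
  obtain ⟨⟨w0, hw0⟩, hw1⟩ := hr.exists_hasEigenvector
  have hw2 : c w0 = r • w0 := congrArg Subtype.val hw1.apply_eq_smul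
  have hw3 : w0 ≠ 0 := fun h1 => hw1.2 (Subtype.ext h1)
  let E : LieSubmodule ℂ L V :=
    { carrier := {w | w ∈ W ∧ c w = r • w}
      add_mem' := by
        rintro a b ⟨ha, ha'⟩ ⟨hb, hb'⟩
        exact ⟨add_mem ha hb, by rw [map_add, ha', hb', smul_add]⟩
      zero_mem' := ⟨zero_mem _, by rw [map_zero, smul_zero]⟩
      smul_mem' := by
        rintro t a ⟨ha, ha'⟩
        exact ⟨W.smul_mem t ha, by rw [map_smul, ha', smul_comm]⟩
      lie_mem := by
        rintro x a ⟨ha, ha'⟩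
        exact ⟨hW x a, by rw [← hc1, ha', lie_smul]⟩ }
  have hE : E = W := by
    refine hirr E (fun w hw => hw.1) fun h1 => hw3 ?_
    have h2 : w0 ∈ E := ⟨hw0, hw2⟩
    rw [h1] at h2
    exact (LieSubmodule.mem_bot _).1 h2
  have hcr : ∀ w ∈ W, c w = r • w := by
    intro w hw
    rw [← hE] at hw
    exact hw.2
  -- the trace
  have htr : LinearMap.trace ℂ V c = r * (Module.finrank ℂ (W : Submodule ℂ V) : ℂ) := by
    rw [← LinearMap.trace_restrict_eq_of_forall_mem (W : Submodule ℂ V) c hcW]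
    have h1 : c.restrict (fun w _ => hcW w) = r • (1 : Module.End ℂ (W : Submodule ℂ V)) := by
      ext ⟨w, hw⟩
      exact hcr w hw
    rw [h1, map_smul, LinearMap.trace_one, smul_eq_mul]
  have hr0 : r ≠ 0 := by
    intro h1
    rw [h1, zero_mul, hc2] at htr
    exact hd (by exact_mod_cast htr)
  have hcv : c (u - r⁻¹ • c u) = 0 := by
    rw [map_sub, map_smul, hcr _ (hcW u), smul_smul, inv_mul_cancel₀ hr0, one_smul, sub_self]
  refine ⟨u - r⁻¹ • c u, ?_, fun x => ?_⟩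
  · intro h1
    apply hu
    have h2 := add_mem h1 (W.smul_mem r⁻¹ (hcW u))
    rwa [sub_add_cancel] at h2
  · have h1 : r • ⁅x, u - r⁻¹ • c u⁆ = 0 := by
      rw [← hcr _ (hW x _), ← hc1, hcv, lie_zero]
    exact (smul_eq_zero.1 h1).resolve_left hr0

theorem w2_aux (n : ℕ) : ∀ (V : Type) [AddCommGroup V] [Module ℂ V] [LieRingModule L V]
    [LieModule ℂ L V] [FiniteDimensional ℂ V] (W : LieSubmodule ℂ L V),
    Module.finrank ℂ (W : Submodule ℂ V) = n → (∀ (x : L) (v : V), ⁅x, v⁆ ∈ W) → W ≠ ⊤ →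
    ∃ v, v ∉ W ∧ ∀ x : L, ⁅x, v⁆ = 0 := by
  induction n using Nat.strong_induction_on with
  | _ n ih =>
  intro V _ _ _ _ _ W hn hW h
  by_cases hirr : ∀ W₁ : LieSubmodule ℂ L V, W₁ ≤ W → W₁ ≠ ⊥ → W₁ = W
  · exact w2_irred W hW h hirr
  push Not at hirr
  obtain ⟨W₁, hle, hne, hlt⟩ := hirr
  have hle' : (W₁ : Submodule ℂ V) ≤ (W : Submodule ℂ V) := hle
  have hlt' : (W₁ : Submodule ℂ V) < (W : Submodule ℂ V) :=
    lt_of_le_of_ne hle' fun h1 => hlt (LieSubmodule.toSubmodule_injective h1)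
  have hf1 : Module.finrank ℂ (W₁ : Submodule ℂ V) < n := hn ▸ Submodule.finrank_lt_finrank_of_lt hlt'
  -- the quotient
  let q := LieSubmodule.Quotient.mk' W₁
  have hq : ∀ v, q v = 0 ↔ v ∈ W₁ := fun v => LieSubmodule.Quotient.mk_eq_zero W₁
  have hsurj : Function.Surjective q := LieSubmodule.Quotient.surjective_mk' W₁
  let W' : LieSubmodule ℂ L (V ⧸ W₁) := W.map q
  have hmem : ∀ v, q v ∈ W' ↔ v ∈ W := by
    intro v
    constructor
    · intro hv
      obtain ⟨w, hw, hwv⟩ := (LieSubmodule.mem_map _).1 hv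
      have h1 : q (v - w) = 0 := by rw [map_sub, hwv, sub_self]
      have h2 := hle ((hq _).1 h1)
      have h3 := add_mem h2 hw
      rwa [sub_add_cancel] at h3
    · intro hv
      exact (LieSubmodule.mem_map _).2 ⟨v, hv, rfl⟩
  have hf2 : Module.finrank ℂ (W' : Submodule ℂ (V ⧸ W₁)) < n := by
    have h1 : (W' : Submodule ℂ (V ⧸ W₁)) =
        LinearMap.range ((q : V →ₗ[ℂ] V ⧸ W₁).domRestrict (W : Submodule ℂ V)) := by
      rw [LinearMap.range_domRestrict]
      exact LieSubmodule.toSubmodule_map _ _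
    have h2 := LinearMap.finrank_range_add_finrank_ker
      ((q : V →ₗ[ℂ] V ⧸ W₁).domRestrict (W : Submodule ℂ V))
    have h3 : 0 < Module.finrank ℂ
        (LinearMap.ker ((q : V →ₗ[ℂ] V ⧸ W₁).domRestrict (W : Submodule ℂ V))) := by
      have hne' : (W₁ : Submodule ℂ V) ≠ ⊥ := by
        intro h4
        apply hne
        rw [← LieSubmodule.toSubmodule_inj, h4]
        rfl
      obtain ⟨w, hw, hw0⟩ := (Submodule.ne_bot_iff _).1 hne'
      rw [Module.finrank_pos_iff_exists_ne_zero]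
      refine ⟨⟨⟨w, hle hw⟩, ?_⟩, ?_⟩
      · rw [LinearMap.mem_ker]
        exact (hq w).2 hw
      · intro h4
        exact hw0 (congrArg Subtype.val (congrArg Subtype.val h4))
    rw [h1]
    omega
  obtain ⟨v', hv1, hv2⟩ := ih _ hf2 (V ⧸ W₁) W' rfl (by
    intro x v
    obtain ⟨u, rfl⟩ := hsurj v
    rw [← LieModuleHom.map_lie]
    exact (hmem _).2 (hW x u)) (by
    intro h1
    apply h
    rw [eq_top_iff]
    intro u _
    rw [← hmem, h1]
    exact LieSubmodule.mem_top _)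
  obtain ⟨v, rfl⟩ := hsurj v'
  have hvW : v ∉ W := fun h1 => hv1 ((hmem v).2 h1)
  have hvx : ∀ x : L, ⁅x, v⁆ ∈ W₁ := by
    intro x
    rw [← hq, LieModuleHom.map_lie]
    exact hv2 x
  -- the submodule `W₁ + ℂ v`
  let U : LieSubmodule ℂ L V :=
    { toSubmodule := (W₁ : Submodule ℂ V) ⊔ Submodule.span ℂ {v}
      lie_mem := by
        intro x m hm
        obtain ⟨w, hw, z, hz, hwz⟩ := Submodule.mem_sup.1 hm
        obtain ⟨t, rfl⟩ := Submodule.mem_span_singleton.1 hz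
        rw [← hwz, lie_add, lie_smul]
        exact Submodule.mem_sup_left (add_mem (W₁.lie_mem hw) (W₁.smul_mem t (hvx x))) }
  have hU : ∀ u ∈ U, ∃ w ∈ W₁, ∃ t : ℂ, u = w + t • v := by
    intro m hm
    obtain ⟨w, hw, z, hz, hwz⟩ := Submodule.mem_sup.1 hm
    obtain ⟨t, rfl⟩ := Submodule.mem_span_singleton.1 hz
    exact ⟨w, hw, t, hwz.symm⟩
  have hvU : v ∈ U := Submodule.mem_sup_right (Submodule.mem_span_singleton_self v)
  let W₂ : LieSubmodule ℂ L U := W₁.comap U.incl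
  have hf3 : Module.finrank ℂ (W₂ : Submodule ℂ U) < n := by
    refine lt_of_le_of_lt ?_ hf1
    let f : (W₂ : Submodule ℂ U) →ₗ[ℂ] (W₁ : Submodule ℂ V) :=
      { toFun := fun w => ⟨((w : U) : V), w.2⟩
        map_add' := fun _ _ => rfl
        map_smul' := fun _ _ => rfl }
    refine LinearMap.finrank_le_finrank_of_injective (f := f) ?_
    intro a b hab
    have h1 := congrArg (fun z : (W₁ : Submodule ℂ V) => (z : V)) hab
    exact Subtype.ext (Subtype.ext h1)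
  obtain ⟨⟨u, huU⟩, hu1, hu2⟩ := ih _ hf3 U W₂ rfl (by
    rintro x ⟨m, hm⟩
    obtain ⟨w, hw, t, rfl⟩ := hU m hm
    show ⁅x, w + t • v⁆ ∈ W₁
    rw [lie_add, lie_smul]
    exact add_mem (W₁.lie_mem hw) (W₁.smul_mem t (hvx x))) (by
    intro h1
    apply hvW
    have h2 : (⟨v, hvU⟩ : U) ∈ W₂ := by
      rw [h1]
      exact LieSubmodule.mem_top _
    exact hle h2)
  refine ⟨u, ?_, fun x => congrArg (fun z : U => (z : V)) (hu2 x)⟩
  intro huW
  obtain ⟨w, hw, t, rfl⟩ := hU u huU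
  have h1 : t • v ∈ W := by
    have h2 := sub_mem huW (hle hw)
    rwa [add_sub_cancel_left] at h2
  by_cases ht : t = 0
  · apply hu1
    show w + t • v ∈ W₁
    rw [ht, zero_smul, add_zero]
    exact hw
  · apply hvW
    have h3 := W.smul_mem t⁻¹ h1
    rwa [smul_smul, inv_mul_cancel₀ ht, one_smul] at h3

end

variable {L V : Type} [LieRing L] [LieAlgebra ℂ L] [FiniteDimensional ℂ L] [IsKilling ℂ L]
  [AddCommGroup V] [Module ℂ V] [LieRingModule L V] [LieModule ℂ L V] [FiniteDimensional ℂ V]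

/-- W2.  The case of codimension one (not used explicitly).  Strong induction on `finrank W` (for all
`V`).  If `W = ⊥` or the action is trivial every `v ∉ W` works.  If `W` has a submodule
`W₁ ≠ ⊥, W`: induction for `W / W₁ ⊂ V / W₁` gives `v ∉ W` with `⁅x, v⁆ ∈ W₁` for all `x`; then
induction for `W₁ ⊂ W₁ + ℂ v` (as a `LieSubmodule`, restricted) gives `v' = w + c v`, `c ≠ 0`.
Otherwise `W` is irreducible.  Take `c, d` of `exists_casimir`; `d ≠ 0` (else the action is trivial).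
`c V ⊆ W`, and `c` on `W` is a scalar `r` (Schur: an eigenspace of `c` on `W` is a nonzero submodule);
`d = trace c = trace (c|W) = r * finrank W` (`c V ⊆ W`: `LinearMap.trace_restrict_eq_of_forall_mem`),
so `r ≠ 0`.  For `u ∉ W` put `v = u - r⁻¹ c u`; then `v ∉ W`, `c v = 0`, and `⁅x, v⁆ ∈ W`,
`r ⁅x, v⁆ = c ⁅x, v⁆ = ⁅x, c v⁆ = 0`. -/
theorem exists_invariant_of_codim_one (W : LieSubmodule ℂ L V) (hW : ∀ (x : L) (v : V), ⁅x, v⁆ ∈ W)
    (h : W ≠ ⊤) : ∃ v, v ∉ W ∧ ∀ x : L, ⁅x, v⁆ = 0 :=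
  w2_aux _ V W rfl hW h

end Pool.Agent.MTG
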