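import Pool.Agent.MTG.Y1
import Pool.Agent.MTG.GP
import Pool.Agent.MTD.Defs

/-! # MTG-Y2 : Cartan data of a semisimple group; the Lie algebra with coefficients

`CD G D` : a basis `bs (inl k)` of the Cartan subalgebra, `bs (inr γ)` of the root spaces, and a
faithful representation `F` with weight basis (weights `wt`).  `LR D R = R^n ⊕ R^Φ` : the Lie algebra
with coefficients in `R`; `C.dm E z` the matrix of `z` in the representation `E`. -/

namespace Pool.Agent.MTG

open Pool.Agent.MTF Matrix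
open Pool.Agent.MTD (ev)

/-- Cartan data. -/
structure CD (G : AffGrp) {n : ℕ} (D : RD n) where
  bs : Module.Basis (Fin n ⊕ D.Rt) ℂ G.Lie
  h_h : ∀ j k, ⁅bs (Sum.inl j), bs (Sum.inl k)⁆ = 0
  h_e : ∀ k γ, ⁅bs (Sum.inl k), bs (Sum.inr γ)⁆ = ((γ.1 k : ℤ) : ℂ) • bs (Sum.inr γ)
  e_ng : ∀ γ, ⁅bs (Sum.inr γ), bs (Sum.inr (D.ng γ))⁆ =
    ∑ k, ((D.cp γ (Pi.single k 1) : ℤ) : ℂ) • bs (Sum.inl k)
  e_br : ∀ γ δ μ : D.Rt, μ.1 = γ.1 + δ.1 →
    ∃ c : ℂ, ⁅bs (Sum.inr γ), bs (Sum.inr δ)⁆ = c • bs (Sum.inr μ)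
  e_co : ∀ γ δ : D.Rt, δ ≠ D.ng γ → (∀ μ : D.Rt, μ.1 ≠ γ.1 + δ.1) →
    ⁅bs (Sum.inr γ), bs (Sum.inr δ)⁆ = 0
  F : MTF.Rep G
  wt : F.ι → Fin n → ℤ
  faith : F.Faithful
  d_h : ∀ k, F.d (bs (Sum.inl k)) = Matrix.diagonal fun a => ((wt a k : ℤ) : ℂ)
  gen : AddSubgroup.closure (Set.range wt) = ⊤

/-- The Lie algebra with coefficients in `R`: `R^n ⊕ R^Φ`. -/
abbrev LR {n : ℕ} (D : RD n) (R : Type) := Fin n ⊕ D.Rt → R

namespace CD

variable {G : AffGrp} {n : ℕ} {D : RD n} (C : CD G D)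

/-- the elements of the Cartan basis -/
noncomputable abbrev h (k : Fin n) : G.Lie := C.bs (Sum.inl k)

/-- the root vectors -/
noncomputable abbrev e (γ : D.Rt) : G.Lie := C.bs (Sum.inr γ)

section coeff
variable {R : Type} [CommRing R] [Algebra ℂ R]

/-- the element of the Cartan subalgebra with coordinates `x` -/
def hx (x : Fin n → R) : LR D R := Sum.elim x 0

/-- `∑ Z_γ e_γ` -/
def ez (Z : D.Rt → R) : LR D R := Sum.elim 0 Z

/-- the matrix of `z` in the representation `E` -/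
noncomputable def dm (E : MTF.Rep G) (z : LR D R) : Matrix E.ι E.ι R :=
  ∑ j, z j • (E.d (C.bs j)).map (algebraMap ℂ R)

theorem dm_apply (E : MTF.Rep G) (z : LR D R) (a b : E.ι) :
    C.dm E z a b = ∑ j, z j * algebraMap ℂ R (E.d (C.bs j) a b) := by
  unfold dm
  rw [Matrix.sum_apply]
  rfl

theorem dm_add (E : MTF.Rep G) (z z' : LR D R) : C.dm E (z + z') = C.dm E z + C.dm E z' := by
  unfold dm
  rw [← Finset.sum_add_distrib]
  exact Finset.sum_congr rfl fun j _ => add_smul _ _ _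

theorem dm_smul (E : MTF.Rep G) (r : R) (z : LR D R) : C.dm E (r • z) = r • C.dm E z := by
  unfold dm
  rw [Finset.smul_sum]
  exact Finset.sum_congr rfl fun j _ => mul_smul _ _ _

theorem dm_zero (E : MTF.Rep G) : C.dm E (0 : LR D R) = 0 := by
  unfold dm
  exact Finset.sum_eq_zero fun j _ => zero_smul _ _

/-- `dm` as a linear map -/
noncomputable def dmL (E : MTF.Rep G) : LR D R →ₗ[R] Matrix E.ι E.ι R where
  toFun := C.dm E
  map_add' := C.dm_add E
  map_smul' := C.dm_smul E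

/-- structure constants -/
noncomputable def sc (i j k : Fin n ⊕ D.Rt) : ℂ := C.bs.repr ⁅C.bs i, C.bs j⁆ k

/-- the bracket with coefficients -/
noncomputable def br (z z' : LR D R) : LR D R :=
  fun k => ∑ i, ∑ j, z i * z' j * algebraMap ℂ R (C.sc i j k)

theorem lie_bs (i j : Fin n ⊕ D.Rt) : ⁅C.bs i, C.bs j⁆ = ∑ k, C.sc i j k • C.bs k :=
  (C.bs.sum_repr _).symm

/-- the bracket in a representation -/
theorem dm_br (E : MTF.Rep G) (z z' : LR D R) :
    C.dm E (C.br z z') = C.dm E z * C.dm E z' - C.dm E z' * C.dm E z := by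
  have h1 : ∀ i j, ((E.d (C.bs i)).map (algebraMap ℂ R)) * ((E.d (C.bs j)).map (algebraMap ℂ R)) -
      ((E.d (C.bs j)).map (algebraMap ℂ R)) * ((E.d (C.bs i)).map (algebraMap ℂ R)) =
      ∑ k, algebraMap ℂ R (C.sc i j k) • (E.d (C.bs k)).map (algebraMap ℂ R) := by
    intro i j
    rw [← Matrix.map_mul, ← Matrix.map_mul, ← Matrix.map_sub _ (fun _ _ => map_sub _ _ _),
      ← E.d_lie, lie_bs, map_sum]
    ext a b
    simp only [Matrix.map_apply, Matrix.sum_apply, Matrix.smul_apply, map_smul, map_sum,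
      smul_eq_mul, map_mul]
  have h2 : C.dm E z * C.dm E z' - C.dm E z' * C.dm E z = ∑ i, ∑ j, (z i * z' j) •
      (((E.d (C.bs i)).map (algebraMap ℂ R)) * ((E.d (C.bs j)).map (algebraMap ℂ R)) -
      ((E.d (C.bs j)).map (algebraMap ℂ R)) * ((E.d (C.bs i)).map (algebraMap ℂ R))) := by
    unfold dm
    rw [Finset.sum_mul_sum, Finset.sum_mul_sum, Finset.sum_comm (f := fun i j =>
      (z' i • (E.d (C.bs i)).map (algebraMap ℂ R)) * (z j • (E.d (C.bs j)).map (algebraMap ℂ R))),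
      ← Finset.sum_sub_distrib]
    refine Finset.sum_congr rfl fun i _ => ?_
    rw [← Finset.sum_sub_distrib]
    refine Finset.sum_congr rfl fun j _ => ?_
    rw [smul_mul_smul_comm, smul_mul_smul_comm, mul_comm (z' j) (z i), smul_sub]
  rw [h2]
  simp only [h1, Finset.smul_sum]
  unfold dm br
  simp only [Finset.sum_smul]
  rw [Finset.sum_comm]
  refine Finset.sum_congr rfl fun i _ => ?_
  rw [Finset.sum_comm]
  refine Finset.sum_congr rfl fun j _ => Finset.sum_congr rfl fun k _ => ?_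
  rw [smul_smul]

/-- change of coefficients -/
theorem dm_map {R' : Type} [CommRing R'] [Algebra ℂ R'] (σ : R →ₐ[ℂ] R') (E : MTF.Rep G)
    (z : LR D R) : (C.dm E z).map σ = C.dm E (fun j => σ (z j)) := by
  ext a b
  rw [Matrix.map_apply, dm_apply, dm_apply, map_sum]
  refine Finset.sum_congr rfl fun j _ => ?_
  rw [map_mul, AlgHomClass.commutes]

/-- complex coefficients -/
theorem dm_complex (E : MTF.Rep G) (z : LR D ℂ) : C.dm E z = E.d (∑ j, z j • C.bs j) := by
  rw [map_sum]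
  unfold dm
  refine Finset.sum_congr rfl fun j _ => ?_
  rw [map_smul]
  rfl

end coeff

/-- A representation with weight basis. -/
structure IsW (E : MTF.Rep G) (w : E.ι → Fin n → ℤ) : Prop where
  d_h : ∀ k, E.d (C.h k) = Matrix.diagonal fun a => ((w a k : ℤ) : ℂ)

theorem isW_F : C.IsW C.F C.wt := ⟨C.d_h⟩

variable {C}

theorem IsW.dm_hx {E : MTF.Rep G} {w : E.ι → Fin n → ℤ} (hE : C.IsW E w) {R : Type} [CommRing R]
    [Algebra ℂ R] (x : Fin n → R) : C.dm E (hx x) = Matrix.diagonal fun a => ev (w a) x := by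
  ext a b
  rw [dm_apply, Fintype.sum_sum_type]
  simp only [hx, Sum.elim_inl, Sum.elim_inr, Pi.zero_apply, zero_mul, Finset.sum_const_zero,
    add_zero]
  have h1 : ∀ k, E.d (C.bs (Sum.inl k)) a b = if a = b then ((w a k : ℤ) : ℂ) else 0 := by
    intro k
    have := hE.d_h k
    show E.d (C.h k) a b = _
    rw [this, Matrix.diagonal_apply]
  simp only [h1, Matrix.diagonal_apply]
  by_cases hab : a = b
  · simp only [hab, if_true]
    unfold ev
    refine Finset.sum_congr rfl fun k _ => ?_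
    rw [map_intCast, mul_comm]
  · simp only [hab, if_false, map_zero, mul_zero, Finset.sum_const_zero]

/-- root vectors move the weights by the root -/
theorem IsW.d_e {E : MTF.Rep G} {w : E.ι → Fin n → ℤ} (hE : C.IsW E w) (γ : D.Rt) (a b : E.ι)
    (h : E.d (C.e γ) a b ≠ 0) : w a = w b + γ.1 := by
  funext k
  have h1 := congrArg E.d (C.h_e k γ)
  rw [E.d_lie, map_smul] at h1
  have h2 := congrFun (congrFun h1 a) b
  have h3 := hE.d_h k
  have h3' : E.d (C.bs (Sum.inl k)) = Matrix.diagonal fun a => ((w a k : ℤ) : ℂ) := h3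
  rw [Matrix.sub_apply, h3', Matrix.diagonal_mul, Matrix.mul_diagonal, Matrix.smul_apply,
    smul_eq_mul] at h2
  have h4 : (((w a k : ℤ) : ℂ) - ((w b k : ℤ) : ℂ) - ((γ.1 k : ℤ) : ℂ)) * E.d (C.e γ) a b = 0 := by
    linear_combination h2
  have h5 := (mul_eq_zero.1 h4).resolve_right h
  have h6 : ((w a k - w b k - γ.1 k : ℤ) : ℂ) = 0 := by push_cast; exact h5
  have h7 : w a k - w b k - γ.1 k = 0 := by exact_mod_cast h6
  show w a k = w b k + γ.1 k
  omega

end CD

end Pool.Agent.MTG
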