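import Pool.Agent.MTG.W3

/-! # MTG-YC : every connected semisimple group has Cartan data -/

namespace Pool.Agent.MTF
end Pool.Agent.MTF

namespace Pool.Agent.MTG

open LieModule LieAlgebra LieAlgebra.IsKilling Pool.Agent.MTF

/-- the action of `L` preserves the span of the common eigenvectors of `H` -/
theorem yc1_lie_mem (L V : Type) [LieRing L] [LieAlgebra ℂ L] [FiniteDimensional ℂ L]
    [IsKilling ℂ L] [AddCommGroup V] [Module ℂ V] [LieRingModule L V] [LieModule ℂ L V]
    (H : LieSubalgebra ℂ L) [H.IsCartanSubalgebra] (x : L) (v : V)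
    (hv : v ∈ Submodule.span ℂ {w : V | ∃ χ : Module.Dual ℂ H, ∀ h : H, ⁅(h : L), w⁆ = χ h • w}) :
    ⁅x, v⁆ ∈ Submodule.span ℂ {w : V | ∃ χ : Module.Dual ℂ H, ∀ h : H, ⁅(h : L), w⁆ = χ h • w} := by
  set S : Set V := {w : V | ∃ χ : Module.Dual ℂ H, ∀ h : H, ⁅(h : L), w⁆ = χ h • w} with hS
  -- the elements which preserve the span
  have hx : x ∈ (⊤ : LieSubmodule ℂ H L) := LieSubmodule.mem_top x
  rw [← iSup_genWeightSpace_eq_top' ℂ H L] at hx
  have hx' : x ∈ ⨆ α : Weight ℂ H L, (genWeightSpace L α : LieSubmodule ℂ H L).toSubmodule := by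
    rw [← LieSubmodule.iSup_toSubmodule]
    exact hx
  refine Submodule.iSup_induction (fun α : Weight ℂ H L =>
    (genWeightSpace L α : LieSubmodule ℂ H L).toSubmodule)
    (motive := fun x => ⁅x, v⁆ ∈ Submodule.span ℂ S) hx' ?_ ?_ ?_
  · intro α y hy
    refine Submodule.span_induction (p := fun v _ => ⁅y, v⁆ ∈ Submodule.span ℂ S) ?_ ?_ ?_ ?_ hv
    · rintro w ⟨χ, hχ⟩
      refine Submodule.subset_span ⟨Weight.toLinear ℂ H L α + χ, fun h => ?_⟩
      have h1 : ⁅(h : L), y⁆ = α h • y := lie_eq_smul_of_mem_rootSpace (H := H) hy h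
      rw [leibniz_lie, h1, hχ, smul_lie, lie_smul, ← add_smul]
      rfl
    · rw [lie_zero]; exact Submodule.zero_mem _
    · intro a b _ _ ha hb
      rw [lie_add]; exact Submodule.add_mem _ ha hb
    · intro c a _ ha
      rw [lie_smul]; exact Submodule.smul_mem _ c ha
  · rw [zero_lie]; exact Submodule.zero_mem _
  · intro a b ha hb
    rw [add_lie]; exact Submodule.add_mem _ ha hb

/-- YC1.  A Cartan subalgebra acts diagonalisably.  Let `N` be the span of the simultaneous
eigenvectors.  It is a Lie submodule: `L` is the sum of the root spaces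
(`iSup_genWeightSpace_eq_top`, `LieAlgebra.rootSpace`), and for `x ∈ rootSpace H α`, `w` an
eigenvector for `χ`: `h (x w) = [h, x] w + x (h w) = (α h + χ h) x w`
(`LieAlgebra.IsKilling.lie_eq_smul_of_mem_rootSpace`; `α` is linear on `H`, `Weight.toLinear`; if
`α = 0` then `x ∈ H` acts by scalars on eigenvectors).  Let `N'` be a complement (`weyl`).
If `N' ≠ ⊥` then it contains a common eigenvector of the abelian Lie algebra `H` (Mathlib: Lie's
theorem `LieModule.exists_nontrivial_weightSpace_of_isSolvable` or an eigenvector induction),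
contradiction. -/
theorem span_eigen (L V : Type) [LieRing L] [LieAlgebra ℂ L] [FiniteDimensional ℂ L]
    [IsKilling ℂ L] [AddCommGroup V] [Module ℂ V] [LieRingModule L V] [LieModule ℂ L V]
    [FiniteDimensional ℂ V] (H : LieSubalgebra ℂ L) [H.IsCartanSubalgebra] (v : V) :
    v ∈ Submodule.span ℂ {w : V | ∃ χ : Module.Dual ℂ H, ∀ h : H, ⁅(h : L), w⁆ = χ h • w} := by
  let N : LieSubmodule ℂ L V :=
    { toSubmodule := Submodule.span ℂ
        {w : V | ∃ χ : Module.Dual ℂ H, ∀ h : H, ⁅(h : L), w⁆ = χ h • w}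
      lie_mem := fun {x m} hm => yc1_lie_mem L V H x m hm }
  obtain ⟨N', hN'⟩ := weyl N
  have hbot : N' = ⊥ := by
    by_contra hne
    have hnt : Nontrivial N' := (LieSubmodule.nontrivial_iff_ne_bot ℂ L V).2 hne
    obtain ⟨χ, hχ⟩ := LieModule.exists_nontrivial_weightSpace_of_isSolvable ℂ H N'
    obtain ⟨⟨m, hm⟩, hm0⟩ := exists_ne (0 : weightSpace N' χ)
    rw [mem_weightSpace] at hm
    have hmne : (m : V) ≠ 0 := by
      intro h
      apply hm0
      ext
      exact h
    apply hmne
    have h1 : (m : V) ∈ N := by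
      refine Submodule.subset_span ⟨χ, fun h => ?_⟩
      have h2 := congrArg (fun z : N' => (z : V)) (hm h)
      exact h2
    have h3 : (m : V) ∈ N ⊓ N' := ⟨h1, m.2⟩
    rw [hN'.inf_eq_bot] at h3
    exact (LieSubmodule.mem_bot _).1 h3
  have htop : N = ⊤ := by
    have := hN'.sup_eq_top
    rwa [hbot, sup_bot_eq] at this
  have h : v ∈ N := by rw [htop]; exact LieSubmodule.mem_top v
  exact h

end Pool.Agent.MTG
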