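import Pool.Agent.MTG.WM

/-! # MTG-YC : every connected semisimple group has Cartan data -/

namespace Pool.Agent.MTF
end Pool.Agent.MTF

namespace Pool.Agent.MTG

open LieModule LieAlgebra LieAlgebra.IsKilling Pool.Agent.MTF

/-- YC2.  Integrality of weights.  If `α = 0` the coroot is `0`.  Otherwise take the `sl₂`-triple
`(h, e, f)` of `exists_isSl2Triple_of_weight_isNonZero`, `h = coroot α`
(`IsSl2Triple.h_eq_coroot`).  `e ^ k v` has `h`-eigenvalue `χ h + 2 k`, so by finite dimension there is
a last `k` with `m = e ^ k v ≠ 0`; it is a primitive vector (`HasPrimitiveVectorWith`, `exists_nat`):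
`χ h + 2 k ∈ ℕ`. -/
theorem coroot_int {L V : Type} [LieRing L] [LieAlgebra ℂ L] [FiniteDimensional ℂ L]
    [IsKilling ℂ L] [AddCommGroup V] [Module ℂ V] [LieRingModule L V] [LieModule ℂ L V]
    [FiniteDimensional ℂ V] (H : LieSubalgebra ℂ L) [H.IsCartanSubalgebra] {v : V} (hv : v ≠ 0)
    (χ : Module.Dual ℂ H) (h : ∀ h : H, ⁅(h : L), v⁆ = χ h • v) (α : Weight ℂ H L) :
    ∃ z : ℤ, χ (coroot α) = (z : ℂ) := by
  by_cases hα : α.IsZero
  · refine ⟨0, ?_⟩
    rw [coroot_eq_zero_iff.2 hα, map_zero, Int.cast_zero]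
  · obtain ⟨h', e, f, ht, heα, hfα⟩ := exists_isSl2Triple_of_weight_isNonZero (H := H) hα
    have hh : h' = (coroot α : H) := IsSl2Triple.h_eq_coroot hα ht heα hfα
    have hv' : ⁅h', v⁆ = χ (coroot α) • v := by rw [hh]; exact h (coroot α)
    set μ : ℂ := χ (coroot α) with hμ
    have hE : ∀ k : ℕ, ⁅h', (toEnd ℂ L V e ^ k) v⁆ = (μ + 2 * k) • (toEnd ℂ L V e ^ k) v := by
      intro k
      induction k with
      | zero => simpa using hv'
      | succ k ih =>
        rw [pow_succ', Module.End.mul_apply, toEnd_apply_apply, leibniz_lie h',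
          ht.lie_h_e_smul ℂ, smul_lie, ih, lie_smul, ← add_smul, Nat.cast_add, Nat.cast_one]
        congr 1
        ring
    have hex : ∃ n : ℕ, (toEnd ℂ L V e ^ n) v = 0 := by
      by_contra hcon
      push Not at hcon
      have h1 : ∀ k : ℕ, (toEnd ℂ L V h').HasEigenvalue (μ + 2 * k) := fun k =>
        Module.End.hasEigenvalue_of_hasEigenvector
          ⟨Module.End.mem_eigenspace_iff.2 (hE k), hcon k⟩
      have h2 : (Set.range fun k : ℕ => μ + 2 * (k : ℂ)).Infinite := by
        refine Set.infinite_range_of_injective ?_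
        intro a b hab
        have h3 : (a : ℂ) = b := by
          have h4 : μ + 2 * (a : ℂ) = μ + 2 * (b : ℂ) := hab
          linear_combination h4 / 2
        exact_mod_cast h3
      refine h2 ((Module.End.finite_hasEigenvalue (toEnd ℂ L V h')).subset ?_)
      rintro _ ⟨k, rfl⟩
      exact h1 k
    obtain ⟨n, hn₁, hn₂⟩ := Nat.exists_not_and_succ_of_not_zero_of_exists
      (p := fun n => (toEnd ℂ L V e ^ n) v = 0) (by simpa using hv) hex
    have P : ht.HasPrimitiveVectorWith ((toEnd ℂ L V e ^ n) v) (μ + 2 * n) :=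
      { ne_zero := hn₁
        lie_h := hE n
        lie_e := by
          rw [pow_succ', Module.End.mul_apply, toEnd_apply_apply] at hn₂
          exact hn₂ }
    obtain ⟨N, hN⟩ := P.exists_nat
    refine ⟨(N : ℤ) - 2 * n, ?_⟩
    push_cast
    linear_combination hN

end Pool.Agent.MTG
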