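import Pool.Agent.MTG.WM

/-! # MTG-YC : every connected semisimple group has Cartan data -/

namespace Pool.Agent.MTF
end Pool.Agent.MTF

namespace Pool.Agent.MTG

open LieModule LieAlgebra LieAlgebra.IsKilling Pool.Agent.MTF

theorem yc3_int {H : Type} [AddCommGroup H] [Module ℂ H] {S : Set H} {T : Set (Module.Dual ℂ H)}
    (hT : ∀ χ ∈ T, ∀ s ∈ S, ∃ z : ℤ, χ s = (z : ℂ)) {χ : Module.Dual ℂ H}
    (hχ : χ ∈ Submodule.span ℤ T) {s : H} (hs : s ∈ S) : ∃ z : ℤ, χ s = (z : ℂ) := by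
  induction hχ using Submodule.span_induction with
  | mem χ h => exact hT χ h s hs
  | zero => exact ⟨0, by simp⟩
  | add χ ψ _ _ h1 h2 =>
    obtain ⟨z, hz⟩ := h1
    obtain ⟨w, hw⟩ := h2
    exact ⟨z + w, by rw [LinearMap.add_apply, hz, hw]; push_cast; rfl⟩
  | smul a χ _ h1 =>
    obtain ⟨z, hz⟩ := h1
    refine ⟨a * z, ?_⟩
    rw [LinearMap.smul_apply, hz, zsmul_eq_mul]
    push_cast; rfl

/-- the integral values on a family in `S` -/
noncomputable def yc3_map {H : Type} [AddCommGroup H] [Module ℂ H] {S : Set H}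
    {T : Set (Module.Dual ℂ H)} (hT : ∀ χ ∈ T, ∀ s ∈ S, ∃ z : ℤ, χ s = (z : ℂ)) {ι : Type}
    (e : ι → H) (he : ∀ i, e i ∈ S) : Submodule.span ℤ T →ₗ[ℤ] (ι → ℤ) where
  toFun χ := fun i => (yc3_int hT χ.2 (he i)).choose
  map_add' χ ψ := by
    funext i
    have h1 := (yc3_int hT (χ + ψ).2 (he i)).choose_spec
    have h2 := (yc3_int hT χ.2 (he i)).choose_spec
    have h3 := (yc3_int hT ψ.2 (he i)).choose_spec
    apply Int.cast_injective (α := ℂ)
    rw [← h1]
    show χ.1 (e i) + ψ.1 (e i) = _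
    rw [h2, h3, Pi.add_apply, Int.cast_add]
  map_smul' a χ := by
    funext i
    have h1 := (yc3_int hT (a • χ).2 (he i)).choose_spec
    have h2 := (yc3_int hT χ.2 (he i)).choose_spec
    apply Int.cast_injective (α := ℂ)
    rw [← h1]
    show a • (χ.1 (e i)) = _
    rw [h2, Pi.smul_apply, smul_eq_mul, zsmul_eq_mul, Int.cast_mul]
    rfl

theorem yc3_map_spec {H : Type} [AddCommGroup H] [Module ℂ H] {S : Set H}
    {T : Set (Module.Dual ℂ H)} (hT : ∀ χ ∈ T, ∀ s ∈ S, ∃ z : ℤ, χ s = (z : ℂ)) {ι : Type}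
    (e : ι → H) (he : ∀ i, e i ∈ S) (χ : Submodule.span ℤ T) (i : ι) :
    χ.1 (e i) = ((yc3_map hT e he χ i : ℤ) : ℂ) := (yc3_int hT χ.2 (he i)).choose_spec

/-- YC3.  Let `X` be the additive subgroup of `Module.Dual ℂ H` generated by `T`.  It is finitely
generated and torsion free, so free (`Module.free_of_finite_type_torsion_free'` or
`Submodule.basisOfPid`-style) with a `ℤ`-basis `x_1..x_n`.  Choose a `ℂ`-basis `s_1..s_r` of `H` inside
`S`; `χ ↦ (χ s_i)` embeds `X` into `ℤ^r` and `ℤ`-linearly independent vectors of `ℤ^r` are linearly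
independent over `ℂ` (over `ℚ`: clear denominators; `ℚ → ℂ`: `LinearIndependent` base change or
a nonzero minor), so `x_1..x_n` are linearly independent over `ℂ`; by `hsep` they span the dual.  Let
`b` be the dual basis of `H` (`Module.Basis.toDual`/`dualBasis` with double dual). -/
theorem exists_lattice {H : Type} [AddCommGroup H] [Module ℂ H] [FiniteDimensional ℂ H] (S : Set H)
    (hS : Submodule.span ℂ S = ⊤) (T : Set (Module.Dual ℂ H)) (hf : T.Finite)
    (hT : ∀ χ ∈ T, ∀ s ∈ S, ∃ z : ℤ, χ s = (z : ℂ)) (hsep : ∀ h : H, (∀ χ ∈ T, χ h = 0) → h = 0) :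
    ∃ (n : ℕ) (b : Module.Basis (Fin n) ℂ H), (∀ χ ∈ T, ∀ k, ∃ z : ℤ, χ (b k) = (z : ℂ)) ∧
      AddSubgroup.closure {z : Fin n → ℤ | ∃ χ ∈ T, ∀ k, χ (b k) = ((z k : ℤ) : ℂ)} = ⊤ := by
  classical
  have hfin : Module.Finite ℤ (Submodule.span ℤ T) := Module.Finite.span_of_finite ℤ hf
  have hfree : Module.Free ℤ (Submodule.span ℤ T) := inferInstance
  obtain ⟨n, hn⟩ : ∃ n, n = Module.finrank ℤ (Submodule.span ℤ T) := ⟨_, rfl⟩
  obtain ⟨x⟩ : Nonempty (Module.Basis (Fin n) ℤ (Submodule.span ℤ T)) := by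
    rw [hn]
    exact ⟨Module.finBasis ℤ (Submodule.span ℤ T)⟩
  -- a basis of `H` in `S`
  obtain ⟨B, hBS, hBspan, hBli⟩ := exists_linearIndependent ℂ S
  have hBtop : ⊤ ≤ Submodule.span ℂ (Set.range (fun i : B => (i : H))) := by
    rw [Subtype.range_coe, hBspan, hS]
  let bB : Module.Basis B ℂ H := Module.Basis.mk hBli hBtop
  have hBf : Fintype B := FiniteDimensional.fintypeBasisIndex bB
  have hcard : Fintype.card B = Module.finrank ℂ H := (Module.finrank_eq_card_basis bB).symm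
  -- `n ≤ dim H`
  have hle : n ≤ Module.finrank ℂ H := by
    have hinj : Function.Injective (yc3_map hT (fun i : B => (i : H)) (fun i => hBS i.2)) := by
      intro χ ψ h
      apply Subtype.ext
      apply bB.ext
      intro i
      have hbi : bB i = (i : H) := Module.Basis.mk_apply _ _ _
      rw [hbi]
      rw [yc3_map_spec hT (fun i : B => (i : H)) (fun i => hBS i.2) χ i,
        yc3_map_spec hT (fun i : B => (i : H)) (fun i => hBS i.2) ψ i, h]
    have h1 := LinearMap.finrank_le_finrank_of_injective hinj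
    rw [← hn, Module.finrank_fintype_fun_eq_card, hcard] at h1
    exact h1
  -- `T` spans the dual
  have hTspan : Submodule.span ℂ T = ⊤ := by
    by_contra hne
    obtain ⟨h, hh, h0⟩ : ∃ h : H, h ≠ 0 ∧ ∀ χ ∈ T, χ h = 0 := by
      obtain ⟨f, hf0, hfm⟩ := Submodule.exists_le_ker_of_lt_top (Submodule.span ℂ T) (lt_top_iff_ne_top.2 hne)
      refine ⟨(Module.evalEquiv ℂ H).symm f, fun h => hf0 ?_, fun χ hχ => ?_⟩
      · exact (LinearEquiv.map_eq_zero_iff _).1 h
      · rw [Module.apply_evalEquiv_symm_apply]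
        exact hfm (Submodule.subset_span hχ)
    exact hh (hsep h h0)
  have hxspan : ⊤ ≤ Submodule.span ℂ (Set.range fun i => (x i : Module.Dual ℂ H)) := by
    rw [← hTspan, Submodule.span_le]
    intro χ hχ
    have hχ' : χ ∈ Submodule.span ℤ T := Submodule.subset_span hχ
    have h1 := x.sum_repr ⟨χ, hχ'⟩
    have h2 : χ = ∑ i, (x.repr ⟨χ, hχ'⟩ i) • (x i : Module.Dual ℂ H) := by
      have h3 := congrArg Subtype.val h1
      refine h3.symm.trans ?_
      rw [AddSubmonoidClass.coe_finsetSum]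
      rfl
    rw [h2]
    refine Submodule.sum_mem _ fun i _ => ?_
    have h4 : (x.repr ⟨χ, hχ'⟩ i) • (x i : Module.Dual ℂ H) =
        ((x.repr ⟨χ, hχ'⟩ i : ℤ) : ℂ) • (x i : Module.Dual ℂ H) := (Int.cast_smul_eq_zsmul ℂ _ _).symm
    rw [h4]
    exact Submodule.smul_mem _ _ (Submodule.subset_span ⟨i, rfl⟩)
  have hdual : Module.finrank ℂ (Module.Dual ℂ H) = Module.finrank ℂ H := Subspace.dual_finrank_eq
  have hge : Module.finrank ℂ H ≤ n := by
    have h1 := finrank_le_of_span_eq_top (R := ℂ) (M := Module.Dual ℂ H)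
      (v := fun i => (x i : Module.Dual ℂ H)) (top_le_iff.1 hxspan)
    rw [hdual, Fintype.card_fin] at h1
    exact h1
  have hli : LinearIndependent ℂ (fun i => (x i : Module.Dual ℂ H)) :=
    linearIndependent_of_top_le_span_of_card_eq_finrank hxspan (by
      rw [hdual, Fintype.card_fin]; omega)
  let xb : Module.Basis (Fin n) ℂ (Module.Dual ℂ H) := Module.Basis.mk hli hxspan
  have hxb : ∀ i, xb i = (x i : Module.Dual ℂ H) := fun i => Module.Basis.mk_apply _ _ _
  let b : Module.Basis (Fin n) ℂ H := xb.dualBasis.map (Module.evalEquiv ℂ H).symm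
  have hxbk : ∀ i k, (x i : Module.Dual ℂ H) (b k) = if i = k then 1 else 0 := by
    intro i k
    show (x i : Module.Dual ℂ H) ((Module.evalEquiv ℂ H).symm (xb.dualBasis k)) = _
    rw [Module.apply_evalEquiv_symm_apply, ← hxb, Module.Basis.dualBasis_apply_self]
  have hval : ∀ (w : Submodule.span ℤ T) (k : Fin n), w.1 (b k) = ((x.equivFun w k : ℤ) : ℂ) := by
    intro w k
    have h1 := x.sum_equivFun w
    have h3 : w.1 = ∑ i, (x.equivFun w i) • (x i : Module.Dual ℂ H) := by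
      have h3 := congrArg Subtype.val h1
      refine h3.symm.trans ?_
      rw [AddSubmonoidClass.coe_finsetSum]
      rfl
    rw [h3, LinearMap.sum_apply, Finset.sum_eq_single k]
    · rw [LinearMap.smul_apply, hxbk, if_pos rfl, zsmul_eq_mul, mul_one]
    · intro i _ hi
      rw [LinearMap.smul_apply, hxbk, if_neg hi, smul_zero]
    · intro h; exact absurd (Finset.mem_univ _) h
  refine ⟨n, b, fun χ hχ k => ⟨x.equivFun ⟨χ, Submodule.subset_span hχ⟩ k,
    hval ⟨χ, Submodule.subset_span hχ⟩ k⟩, ?_⟩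
  rw [eq_top_iff]
  intro z _
  have key : ∀ (w : Module.Dual ℂ H) (hw : w ∈ Submodule.span ℤ T), x.equivFun ⟨w, hw⟩ ∈
      AddSubgroup.closure {z : Fin n → ℤ | ∃ χ ∈ T, ∀ k, χ (b k) = ((z k : ℤ) : ℂ)} := by
    intro w hw
    induction hw using Submodule.span_induction with
    | mem χ h =>
      exact AddSubgroup.subset_closure ⟨χ, h, fun k => hval ⟨χ, Submodule.subset_span h⟩ k⟩
    | zero =>
      have h1 : x.equivFun ⟨0, Submodule.zero_mem _⟩ = 0 := map_zero x.equivFun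
      rw [h1]; exact AddSubgroup.zero_mem _
    | add χ ψ hχ hψ h1 h2 =>
      have h3 : x.equivFun ⟨χ + ψ, Submodule.add_mem _ hχ hψ⟩ =
          x.equivFun ⟨χ, hχ⟩ + x.equivFun ⟨ψ, hψ⟩ := map_add x.equivFun ⟨χ, hχ⟩ ⟨ψ, hψ⟩
      rw [h3]; exact AddSubgroup.add_mem _ h1 h2
    | smul a χ hχ h1 =>
      have h3 : x.equivFun ⟨a • χ, Submodule.smul_mem _ a hχ⟩ = a • x.equivFun ⟨χ, hχ⟩ :=
        map_smul x.equivFun a ⟨χ, hχ⟩
      rw [h3]; exact AddSubgroup.zsmul_mem _ h1 a
  have h1 := key (x.equivFun.symm z).1 (x.equivFun.symm z).2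
  have h2 : x.equivFun ⟨(x.equivFun.symm z).1, (x.equivFun.symm z).2⟩ = z :=
    x.equivFun.apply_symm_apply z
  rwa [h2] at h1

end Pool.Agent.MTG
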