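import Pool.Agent.MTG.G0

/-! # MTG-YC : every connected semisimple group has Cartan data -/

namespace Pool.Agent.MTF
end Pool.Agent.MTF

namespace Pool.Agent.MTG

open LieModule LieAlgebra LieAlgebra.IsKilling Pool.Agent.MTF

open Pool.Agent.MTX (bil)

section yc4

variable {L : Type} [LieRing L] [LieAlgebra ℂ L] [FiniteDimensional ℂ L] [IsKilling ℂ L]
  (H : LieSubalgebra ℂ L) [H.IsCartanSubalgebra] {n : ℕ} (b : Module.Basis (Fin n) ℂ H)

/-- the linear form with coordinates `x` -/
noncomputable def yc4f (x : Fin n → ℤ) : Module.Dual ℂ H := ∑ k, (x k : ℂ) • b.coord k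

omit [FiniteDimensional ℂ L] [IsKilling ℂ L] [H.IsCartanSubalgebra] in
theorem yc4f_apply (x : Fin n → ℤ) (v : H) : yc4f H b x v = ∑ k, (x k : ℂ) * b.repr v k := by
  rw [yc4f, LinearMap.sum_apply]
  exact Finset.sum_congr rfl fun k _ => rfl

theorem yc4f_basis (x : Fin n → ℤ) (k : Fin n) : yc4f H b x (b k) = (x k : ℂ) := by
  rw [yc4f_apply, Finset.sum_eq_single k]
  · rw [Module.Basis.repr_self, Finsupp.single_eq_same, mul_one]
  · intro j _ hj
    rw [Module.Basis.repr_self, Finsupp.single_eq_of_ne hj, mul_zero]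
  · intro h
    exact absurd (Finset.mem_univ _) h

theorem yc4f_sub_smul (x y : Fin n → ℤ) (z : ℤ) :
    yc4f H b (x - z • y) = yc4f H b x - (z : ℂ) • yc4f H b y := by
  refine b.ext fun k => ?_
  rw [yc4f_basis, LinearMap.sub_apply, LinearMap.smul_apply, yc4f_basis, yc4f_basis]
  rw [Pi.sub_apply, Pi.smul_apply, smul_eq_mul, Int.cast_sub, Int.cast_mul, smul_eq_mul]

theorem yc4f_zero {x : Fin n → ℤ} (h : yc4f H b x = 0) : x = 0 := by
  funext k
  have h1 := yc4f_basis H b x k
  rw [h, LinearMap.zero_apply] at h1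
  exact_mod_cast h1.symm

theorem yc4_span {x : Fin n → ℤ} (h : ∀ α : H.root, yc4f H b x (coroot α.1) = 0) : x = 0 := by
  refine yc4f_zero H b ?_
  have h1 : Submodule.span ℂ (Set.range (rootSystem H).coroot) ≤ LinearMap.ker (yc4f H b x) := by
    rw [Submodule.span_le]
    rintro _ ⟨α, rfl⟩
    exact h α
  rw [RootPairing.IsRootSystem.span_coroot_eq_top] at h1
  exact LinearMap.ker_eq_top.mp (top_le_iff.mp h1)

end yc4

/-- YC4.  The root datum.  `Φ` = the integral vectors `(α (b k))_k` of the nonzero weights `α`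
(finite).  `C j k = ∑_α ⟨b*_j, α^∨⟩ ⟨b*_k, α^∨⟩` with the integers `⟨b*_k, α^∨⟩ = b.repr (coroot α) k`
(`hb'`), so for `x, y : Fin n → ℤ`: `bil C x y = ∑_α ⟨x, α^∨⟩ ⟨y, α^∨⟩`, `⟨x, α^∨⟩ = ∑ x_k b.repr (coroot α) k`
(and `⟨x, α^∨⟩ = β (coroot α)` for the vector `x` of a root `β`).  posdef/span: the coroots span `H`
(`(rootSystem H)` is a root system).  even: `α` and `-α` contribute equally (`coroot_neg`).  The form is
invariant under the reflections `s_γ x = x - ⟨x, γ^∨⟩ γ`, because `s_γ` permutes the coroots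
(`(rootSystem H)` : `RootPairing.coreflection`, `reflectRoot`; `⟨s_γ x, α^∨⟩ = ⟨x, (s_γ α)^∨⟩`); hence
`2 B(γ, x) = ⟨x, γ^∨⟩ B(γ, γ)`, which gives integ, refl and `cp`.  red: `IsReduced`. -/
theorem exists_RD {L : Type} [LieRing L] [LieAlgebra ℂ L] [FiniteDimensional ℂ L]
    [IsKilling ℂ L] (H : LieSubalgebra ℂ L) [H.IsCartanSubalgebra] {n : ℕ}
    (b : Module.Basis (Fin n) ℂ H) (hb : ∀ (α : Weight ℂ H L) (k : Fin n), ∃ z : ℤ, α (b k) = (z : ℂ))
    (hb' : ∀ (α : Weight ℂ H L) (k : Fin n), ∃ z : ℤ, b.repr (coroot α) k = (z : ℂ)) :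
    ∃ D : RD n, (∀ z : Fin n → ℤ, z ∈ D.Φ ↔
        ∃ α : Weight ℂ H L, α.IsNonZero ∧ ∀ k, α (b k) = ((z k : ℤ) : ℂ)) ∧
      ∀ (γ : D.Rt) (α : Weight ℂ H L), (∀ k, α (b k) = ((γ.1 k : ℤ) : ℂ)) →
        ∀ k, b.repr (coroot α) k = ((D.cp γ (Pi.single k 1) : ℤ) : ℂ) := by
  classical
  choose w hw using hb
  choose cw hcw using hb'
  -- the pairing
  obtain ⟨pr, hpr⟩ : ∃ pr : (Fin n → ℤ) → Weight ℂ H L → ℤ, ∀ x α, pr x α = ∑ k, x k * cw α k :=
    ⟨fun x α => ∑ k, x k * cw α k, fun _ _ => rfl⟩
  have hf : ∀ x (α : Weight ℂ H L), yc4f H b x (coroot α) = ((pr x α : ℤ) : ℂ) := by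
    intro x α
    rw [yc4f_apply, hpr, Int.cast_sum]
    refine Finset.sum_congr rfl fun k _ => ?_
    rw [hcw, Int.cast_mul]
  have hfw : ∀ α : Weight ℂ H L, yc4f H b (w α) = α.toLinear ℂ H L := by
    intro α
    refine b.ext fun k => ?_
    rw [yc4f_basis, ← hw]
    rfl
  have hspan : ∀ x : Fin n → ℤ, (∀ α : H.root, pr x α.1 = 0) → x = 0 := by
    intro x hx
    refine yc4_span H b fun α => ?_
    rw [hf, hx, Int.cast_zero]
  have hroot : ∀ α : H.root, α.1.IsNonZero := fun α => H.isNonZero_coe_root α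
  have hmemroot : ∀ α : Weight ℂ H L, α.IsNonZero → α ∈ H.root := fun α hα => by simpa using hα
  have hw0 : ∀ α : Weight ℂ H L, α.IsNonZero → w α ≠ 0 := by
    intro α hα h0
    apply hα
    have h1 := hfw α
    rw [h0] at h1
    have h2 : yc4f H b 0 = 0 := by
      refine b.ext fun k => ?_
      rw [yc4f_basis]
      simp
    rw [h2] at h1
    show (α : H → ℂ) = 0
    funext v
    have h3 := LinearMap.congr_fun h1 v
    exact h3.symm
  have hwinj : ∀ α β : Weight ℂ H L, w α = w β → α = β := by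
    intro α β hαβ
    have h1 := hfw α
    rw [hαβ, hfw β] at h1
    ext v
    exact (LinearMap.congr_fun h1 v).symm
  -- the form
  obtain ⟨C, hC⟩ : ∃ C : Matrix (Fin n) (Fin n) ℤ, ∀ i j, C i j = ∑ α : H.root, cw α.1 i * cw α.1 j :=
    ⟨Matrix.of fun i j => ∑ α : H.root, cw α.1 i * cw α.1 j, fun _ _ => rfl⟩
  have hB : ∀ x y, bil C x y = ∑ α : H.root, pr x α.1 * pr y α.1 := by
    intro x y
    have h1 : ∀ α : H.root, pr x α.1 * pr y α.1 =
        ∑ i, ∑ j, x i * (cw α.1 i * cw α.1 j) * y j := by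
      intro α
      rw [hpr, hpr, Finset.sum_mul_sum]
      refine Finset.sum_congr rfl fun i _ => Finset.sum_congr rfl fun j _ => ?_
      ring
    rw [Finset.sum_congr rfl fun α _ => h1 α, Finset.sum_comm]
    unfold bil
    refine Finset.sum_congr rfl fun i _ => ?_
    rw [Finset.sum_comm]
    refine Finset.sum_congr rfl fun j _ => ?_
    rw [hC, Finset.mul_sum, Finset.sum_mul]
  have hRF : ∀ x y, (rootSystem H).RootForm (yc4f H b x) (yc4f H b y) = ((bil C x y : ℤ) : ℂ) := by
    intro x y
    rw [RootPairing.rootForm_apply_apply, hB, Int.cast_sum]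
    refine Finset.sum_congr rfl fun α _ => ?_
    rw [Int.cast_mul, ← hf x α.1, ← hf y α.1]
    rfl
  have hsymm : ∀ x y, bil C x y = bil C y x := by
    intro x y
    rw [hB, hB]
    exact Finset.sum_congr rfl fun α _ => mul_comm _ _
  have hkey : ∀ (α : Weight ℂ H L), α.IsNonZero → ∀ x,
      pr x α * bil C (w α) (w α) = 2 * bil C (w α) x := by
    intro α hα x
    have h1 := (rootSystem H).rootForm_reflection_reflection_apply ⟨α, hmemroot α hα⟩
      (yc4f H b x) ((rootSystem H).root ⟨α, hmemroot α hα⟩)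
    rw [RootPairing.reflection_apply, RootPairing.reflection_apply_self] at h1
    have h2 : (rootSystem H).root ⟨α, hmemroot α hα⟩ = yc4f H b (w α) := (hfw α).symm
    have h3 : (rootSystem H).coroot' ⟨α, hmemroot α hα⟩ (yc4f H b x) = ((pr x α : ℤ) : ℂ) := hf x α
    rw [h2, h3] at h1
    simp only [map_sub, map_neg, LinearMap.sub_apply, map_smul, LinearMap.smul_apply, smul_eq_mul,
      hRF] at h1
    have h4 : -(bil C x (w α)) + pr x α * bil C (w α) (w α) = bil C x (w α) := by
      have h5 : ((-(bil C x (w α)) + pr x α * bil C (w α) (w α) : ℤ) : ℂ) =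
          ((bil C x (w α) : ℤ) : ℂ) := by
        rw [Int.cast_add, Int.cast_neg, Int.cast_mul]
        linear_combination h1
      exact_mod_cast h5
    rw [hsymm (w α) x]
    linarith
  have hpos : ∀ x : Fin n → ℤ, x ≠ 0 → 0 < bil C x x := by
    intro x hx
    rw [hB]
    by_contra hcon
    apply hx
    apply hspan
    have h0 : ∀ α ∈ (Finset.univ : Finset H.root), 0 ≤ pr x α.1 * pr x α.1 :=
      fun α _ => mul_self_nonneg _
    have h1 : ∑ α : H.root, pr x α.1 * pr x α.1 = 0 :=
      le_antisymm (not_lt.mp hcon) (Finset.sum_nonneg h0)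
    intro α
    exact mul_self_eq_zero.mp ((Finset.sum_eq_zero_iff_of_nonneg h0).mp h1 α (Finset.mem_univ α))
  have hprneg : ∀ x (α : Weight ℂ H L), pr x (-α) = - pr x α := by
    intro x α
    have h1 := hf x (-α)
    rw [coroot_neg, map_neg, hf] at h1
    exact_mod_cast h1.symm
  have hΦ : ∀ z : Fin n → ℤ, z ∈ (H.root).image w ↔
        ∃ α : Weight ℂ H L, α.IsNonZero ∧ ∀ k, α (b k) = ((z k : ℤ) : ℂ) := by
    intro z
    rw [Finset.mem_image]
    constructor
    · rintro ⟨α, hα, rfl⟩
      exact ⟨α, hroot ⟨α, hα⟩, fun k => hw α k⟩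
    · rintro ⟨α, hα, hk⟩
      refine ⟨α, hmemroot α hα, ?_⟩
      funext k
      have h1 := hk k
      rw [hw] at h1
      exact_mod_cast h1
  have hcpv : ∀ (α : Weight ℂ H L), α.IsNonZero → ∀ x,
      2 * bil C (w α) x / bil C (w α) (w α) = pr x α := by
    intro α hα x
    rw [← hkey α hα x]
    exact Int.mul_ediv_cancel _ (hpos _ (hw0 α hα)).ne'
  let D : RD n :=
    { C := C
      Φ := (H.root).image w
      symm := by
        intro i j
        rw [hC, hC]
        exact Finset.sum_congr rfl fun α _ => mul_comm _ _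
      posdef := hpos
      zero_notMem := by
        intro h0
        obtain ⟨α, hα, h1⟩ := Finset.mem_image.mp h0
        exact hw0 α (hroot ⟨α, hα⟩) h1
      even := by
        intro γ _
        rw [hB]
        have h1 : ((∑ α : H.root, pr γ α.1 * pr γ α.1 : ℤ) : ZMod 2) = 0 := by
          rw [Int.cast_sum]
          refine Finset.sum_involution (fun (α : H.root) _ =>
            (⟨-α.1, hmemroot _ (hroot α).neg⟩ : H.root)) ?_ ?_ ?_ ?_
          · intro α _
            show (((pr γ α.1 * pr γ α.1 : ℤ) : ZMod 2)) +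
              (((pr γ (-α.1) * pr γ (-α.1) : ℤ) : ZMod 2)) = 0
            rw [hprneg, neg_mul_neg, ← two_mul]
            have h2 : (2 : ZMod 2) = 0 := by decide
            rw [h2, zero_mul]
          · intro α _ _ h3
            have h4 : -α.1 = α.1 := congrArg Subtype.val h3
            have h5 : (-α.1 : Weight ℂ H L) (coroot α.1) = α.1 (coroot α.1) := by rw [h4]
            rw [Weight.coe_neg, Pi.neg_apply, root_apply_coroot (hroot α)] at h5
            norm_num at h5
          · intro α _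
            exact Finset.mem_univ _
          · intro α _
            exact Subtype.ext (neg_neg α.1)
        exact (ZMod.intCast_zmod_eq_zero_iff_dvd _ 2).mp h1
      integ := by
        intro γ hγ x
        obtain ⟨α, hα, rfl⟩ := Finset.mem_image.mp hγ
        rw [← hkey α (hroot ⟨α, hα⟩) x]
        exact Dvd.intro_left _ rfl
      refl := by
        intro γ hγ δ hδ
        obtain ⟨α, hα, rfl⟩ := Finset.mem_image.mp hγ
        obtain ⟨β, hβ, rfl⟩ := Finset.mem_image.mp hδ
        rw [hcpv α (hroot ⟨α, hα⟩), hΦ]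
        refine ⟨reflectRoot α β, reflectRoot_isNonZero α β (hroot ⟨β, hβ⟩), fun k => ?_⟩
        have h1 : (β (coroot α) : ℂ) = ((pr (w β) α : ℤ) : ℂ) := by
          rw [← hf, hfw]
          rfl
        show β (b k) - β (coroot α) • α (b k) = _
        rw [h1, hw, hw]
        simp
      red := by
        intro γ hγ δ hδ a c hac h1 h2
        obtain ⟨α, hα, rfl⟩ := Finset.mem_image.mp hγ
        obtain ⟨β, hβ, rfl⟩ := Finset.mem_image.mp hδ
        have hli : LinearIndependent ℂ ![(rootSystem H).root ⟨α, hα⟩, (rootSystem H).root ⟨β, hβ⟩] := by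
          by_contra hli
          rcases RootPairing.IsReduced.eq_or_eq_neg (P := rootSystem H) _ _ hli with h3 | h3
          · apply h1
            have h4 : α = β := congrArg Subtype.val ((rootSystem H).root.injective h3)
            rw [h4]
          · apply h2
            have h4 : yc4f H b (w α) = - yc4f H b (w β) := by rw [hfw, hfw]; exact h3
            funext k
            have h5 := LinearMap.congr_fun h4 (b k)
            rw [LinearMap.neg_apply, yc4f_basis, yc4f_basis] at h5
            have h6 : w α k = - w β k := by exact_mod_cast h5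
            rw [Pi.neg_apply, h6, neg_neg]
        rw [LinearIndependent.pair_iff] at hli
        have h3 : (a : ℂ) • (rootSystem H).root ⟨α, hα⟩ + (-(c : ℂ)) • (rootSystem H).root ⟨β, hβ⟩ = 0 := by
          have e1 : (rootSystem H).root ⟨α, hα⟩ = yc4f H b (w α) := (hfw α).symm
          have e2 : (rootSystem H).root ⟨β, hβ⟩ = yc4f H b (w β) := (hfw β).symm
          rw [e1, e2]
          refine b.ext fun k => ?_
          rw [LinearMap.add_apply, LinearMap.smul_apply, LinearMap.smul_apply, yc4f_basis,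
            yc4f_basis, LinearMap.zero_apply]
          have h4 := congrFun hac k
          rw [Pi.smul_apply, Pi.smul_apply, smul_eq_mul, smul_eq_mul] at h4
          have h5 : (a : ℂ) * (w α k : ℂ) = (c : ℂ) * (w β k : ℂ) := by exact_mod_cast h4
          rw [smul_eq_mul, smul_eq_mul, h5]
          ring
        obtain ⟨h4, h5⟩ := hli _ _ h3
        refine ⟨by exact_mod_cast h4, ?_⟩
        have h6 : (c : ℂ) = 0 := neg_eq_zero.mp h5
        exact_mod_cast h6
      span := by
        intro x hx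
        refine hspan x fun α => ?_
        have h1 := hkey α.1 (hroot α) x
        rw [hx (w α.1) (Finset.mem_image_of_mem w α.2), mul_zero] at h1
        rcases mul_eq_zero.mp h1 with h2 | h2
        · exact h2
        · exact absurd h2 (hpos _ (hw0 _ (hroot α))).ne' }
  refine ⟨D, hΦ, ?_⟩
  intro γ α hα k
  have h1 : γ.1 = w α := by
    funext j
    have h2 := hα j
    rw [hw] at h2
    exact_mod_cast h2.symm
  have hαn : α.IsNonZero := by
    obtain ⟨β, hβ, h2⟩ := Finset.mem_image.mp γ.2
    have h3 : β = α := hwinj β α (h2.trans h1)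
    rw [← h3]
    exact hroot ⟨β, hβ⟩
  have h2 : D.cp γ (Pi.single k 1) = cw α k := by
    refine D.cp_eq γ ?_
    show cw α k * bil C γ.1 γ.1 = 2 * bil C γ.1 (Pi.single k 1)
    rw [h1, ← hkey α hαn, hpr]
    congr 1
    rw [Finset.sum_eq_single k]
    · rw [Pi.single_eq_same, one_mul]
    · intro j _ hj
      rw [Pi.single_eq_of_ne hj, zero_mul]
    · intro h
      exact absurd (Finset.mem_univ _) h
  rw [h2, hcw]

end Pool.Agent.MTG
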