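import Pool.Agent.MTG.YC4

/-! # MTG-YC : every connected semisimple group has Cartan data -/

namespace Pool.Agent.MTF
end Pool.Agent.MTF

namespace Pool.Agent.MTG

open LieModule LieAlgebra LieAlgebra.IsKilling Pool.Agent.MTF

section

variable {L : Type} [LieRing L] [LieAlgebra ℂ L] [FiniteDimensional ℂ L]
    [IsKilling ℂ L] (H : LieSubalgebra ℂ L) [H.IsCartanSubalgebra] {n : ℕ}
    (b : Module.Basis (Fin n) ℂ H)

/-- weights are determined by their values on the basis -/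
theorem yc5_ext {f : H → ℂ} (α β : Weight ℂ H L) (h : ∀ k, f (b k) = α (b k) + β (b k))
    (χ : Weight ℂ H L) (hχ : ∀ k, χ (b k) = f (b k)) : (χ : H → ℂ) = (α : H → ℂ) + β := by
  have h1 : Weight.toLinear ℂ H L χ = Weight.toLinear ℂ H L α + Weight.toLinear ℂ H L β := by
    refine b.ext fun k => ?_
    rw [LinearMap.add_apply]
    show χ (b k) = α (b k) + β (b k)
    rw [hχ, h]
  funext x
  exact LinearMap.congr_fun h1 x

/-- weights are determined by their values on the basis -/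
theorem yc5_ext1 {α β : Weight ℂ H L} (h : ∀ k, α (b k) = β (b k)) : α = β := by
  have h1 : Weight.toLinear ℂ H L α = Weight.toLinear ℂ H L β := b.ext h
  ext x
  exact LinearMap.congr_fun h1 x

/-- a root space is a line -/
theorem yc5_line {α : Weight ℂ H L} (hα : α.IsNonZero) {e x : L} (he : e ∈ rootSpace H α)
    (he0 : e ≠ 0) (hx : x ∈ rootSpace H α) : ∃ c : ℂ, x = c • e := by
  have h1 := (finrank_eq_one_iff_of_nonzero' (⟨e, he⟩ : rootSpace H α)
    (fun h => he0 (congrArg Subtype.val h))).1 (finrank_rootSpace_eq_one α hα) ⟨x, hx⟩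
  obtain ⟨c, hc⟩ := h1
  exact ⟨c, (congrArg Subtype.val hc).symm⟩

theorem yc5_indep : iSupIndep fun χ : H → ℂ => (rootSpace H χ).toSubmodule := by
  have h1 := iSupIndep_genWeightSpace ℂ H L
  rw [← LieSubmodule.iSupIndep_toSubmodule] at h1
  exact h1

theorem yc5_top : ⨆ χ : Weight ℂ H L, (rootSpace H χ).toSubmodule = ⊤ := by
  have h1 := iSup_genWeightSpace_eq_top' ℂ H L
  rw [← LieSubmodule.toSubmodule_inj, LieSubmodule.iSup_toSubmodule,
    LieSubmodule.top_toSubmodule] at h1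
  exact h1

end

/-- exactly one of `γ`, `-γ` is positive -/
theorem yc5_pos {n : ℕ} (D : RD n) (γ : D.Rt) : D.Pos (D.ng γ) ↔ ¬ D.Pos γ := by
  unfold RD.Pos
  have h0 : toLex γ.1 ≠ 0 := fun h => D.Rt_ne γ h
  have h1 : toLex (D.ng γ).1 = - toLex γ.1 := rfl
  rw [h1]
  constructor
  · intro h h2
    have := add_pos h h2
    rw [neg_add_cancel] at this
    exact lt_irrefl _ this
  · intro h
    have h3 : toLex γ.1 < 0 := lt_of_le_of_ne (not_lt.1 h) h0
    exact neg_pos.2 h3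

/-- YC5.  The Cartan basis of the Lie algebra.  For `γ : D.Rt` let `α_γ` be the corresponding nonzero
weight (unique, as `b` is a basis).  For `γ` positive choose an `sl₂`-triple `(h, e, f)`,
`e ∈ rootSpace H α_γ`, `f ∈ rootSpace H (-α_γ)`, `h = coroot α_γ`
(`exists_isSl2Triple_of_weight_isNonZero`, `h_eq_coroot`) and put `e γ = e`, `e (ng γ) = f`
(`D.pos_ng` is in `MTG.G1`; here use directly: exactly one of `γ`, `ng γ` is positive).
`[f, e] = -h = coroot (-α_γ)` (`coroot_neg`).  The vectors `b k`, `e γ` form a basis: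
`L = H ⊕ ⨁ rootSpace` (`isInternal` / `iSup_genWeightSpace_eq_top`, independence of the weight spaces)
and `finrank_rootSpace_eq_one`.  `e_br`: `[L_γ, L_δ] ⊆ L_{γ+δ}` (`LieAlgebra.lie_mem_genWeightSpace_of_mem_genWeightSpace`),
which is `0` if `γ + δ` is not a weight and not zero. -/
theorem exists_basis {L : Type} [LieRing L] [LieAlgebra ℂ L] [FiniteDimensional ℂ L]
    [IsKilling ℂ L] (H : LieSubalgebra ℂ L) [H.IsCartanSubalgebra] {n : ℕ}
    (b : Module.Basis (Fin n) ℂ H) (hb : ∀ (α : Weight ℂ H L) (k : Fin n), ∃ z : ℤ, α (b k) = (z : ℂ))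
    (D : RD n) (hD : ∀ z : Fin n → ℤ, z ∈ D.Φ ↔
        ∃ α : Weight ℂ H L, α.IsNonZero ∧ ∀ k, α (b k) = ((z k : ℤ) : ℂ))
    (hc : ∀ (γ : D.Rt) (α : Weight ℂ H L), (∀ k, α (b k) = ((γ.1 k : ℤ) : ℂ)) →
        ∀ k, b.repr (coroot α) k = ((D.cp γ (Pi.single k 1) : ℤ) : ℂ)) :
    ∃ bs : Module.Basis (Fin n ⊕ D.Rt) ℂ L, (∀ k, bs (Sum.inl k) = (b k : L)) ∧
      (∀ j k, ⁅bs (Sum.inl j), bs (Sum.inl k)⁆ = 0) ∧
      (∀ k γ, ⁅bs (Sum.inl k), bs (Sum.inr γ)⁆ = ((γ.1 k : ℤ) : ℂ) • bs (Sum.inr γ)) ∧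
      (∀ γ, ⁅bs (Sum.inr γ), bs (Sum.inr (D.ng γ))⁆ =
        ∑ k, ((D.cp γ (Pi.single k 1) : ℤ) : ℂ) • bs (Sum.inl k)) ∧
      (∀ γ δ μ : D.Rt, μ.1 = γ.1 + δ.1 →
        ∃ c : ℂ, ⁅bs (Sum.inr γ), bs (Sum.inr δ)⁆ = c • bs (Sum.inr μ)) ∧
      ∀ γ δ : D.Rt, δ ≠ D.ng γ → (∀ μ : D.Rt, μ.1 ≠ γ.1 + δ.1) →
        ⁅bs (Sum.inr γ), bs (Sum.inr δ)⁆ = 0 := by
  have hw : ∀ γ : D.Rt, ∃ α : Weight ℂ H L, α.IsNonZero ∧ ∀ k, α (b k) = ((γ.1 k : ℤ) : ℂ) :=
    fun γ => (hD γ.1).1 γ.2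
  choose α hα0 hα using hw
  -- every nonzero weight is one of the `α γ`
  have hsurj : ∀ χ : Weight ℂ H L, χ.IsNonZero → ∃ γ : D.Rt, χ = α γ := by
    intro χ hχ
    choose z hz using hb χ
    refine ⟨⟨z, (hD z).2 ⟨χ, hχ, hz⟩⟩, yc5_ext1 H b fun k => ?_⟩
    rw [hz k, hα]
  have hinj : ∀ γ δ : D.Rt, (∀ k, α γ (b k) = α δ (b k)) → γ = δ := by
    intro γ δ h
    refine Subtype.ext (funext fun k => ?_)
    have h1 := h k
    rw [hα, hα] at h1
    exact_mod_cast h1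
  have hng : ∀ γ : D.Rt, (α (D.ng γ) : H → ℂ) = -(α γ : H → ℂ) := by
    intro γ
    have h1 : α (D.ng γ) = -α γ := by
      refine yc5_ext1 H b fun k => ?_
      rw [Weight.coe_neg, Pi.neg_apply, hα, hα, RD.ng_val, Pi.neg_apply, Int.cast_neg]
    rw [h1, Weight.coe_neg]
  have ht : ∀ γ : D.Rt, ∃ e f : L, IsSl2Triple (coroot (α γ) : L) e f ∧
      e ∈ rootSpace H (α γ) ∧ f ∈ rootSpace H (α (D.ng γ)) := by
    intro γ
    obtain ⟨h, e, f, ht, he, hf⟩ := exists_isSl2Triple_of_weight_isNonZero (hα0 γ)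
    have h1 := ht.h_eq_coroot (hα0 γ) he hf
    rw [h1] at ht
    refine ⟨e, f, ht, he, ?_⟩
    rw [hng γ]
    exact hf
  choose E F hEF hE hF using ht
  have hcor : ∀ γ : D.Rt, (coroot (α γ) : L) =
      ∑ k, ((D.cp γ (Pi.single k 1) : ℤ) : ℂ) • (b k : L) := by
    intro γ
    conv_lhs => rw [← b.sum_repr (coroot (α γ))]
    rw [AddSubmonoidClass.coe_finsetSum]
    refine Finset.sum_congr rfl fun k _ => ?_
    rw [hc γ (α γ) (hα γ) k]
    rfl
  classical
  let e : D.Rt → L := fun γ => if D.Pos γ then E γ else F (D.ng γ)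
  have he1 : ∀ γ, D.Pos γ → e γ = E γ := fun γ h => if_pos h
  have he2 : ∀ γ, ¬ D.Pos γ → e γ = F (D.ng γ) := fun γ h => if_neg h
  have he : ∀ γ, e γ ∈ rootSpace H (α γ) := by
    intro γ
    by_cases h : D.Pos γ
    · rw [he1 γ h]
      exact hE γ
    · rw [he2 γ h]
      have h1 := hF (D.ng γ)
      rw [RD.ng_ng] at h1
      exact h1
  have he0 : ∀ γ, e γ ≠ 0 := by
    intro γ
    by_cases h : D.Pos γ
    · rw [he1 γ h]
      exact (hEF γ).e_ne_zero
    · rw [he2 γ h]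
      exact (hEF (D.ng γ)).f_ne_zero
  have hee : ∀ γ, ⁅e γ, e (D.ng γ)⁆ = ∑ k, ((D.cp γ (Pi.single k 1) : ℤ) : ℂ) • (b k : L) := by
    intro γ
    by_cases h : D.Pos γ
    · rw [he1 γ h, he2 (D.ng γ) (fun h' => (yc5_pos D γ).1 h' h), RD.ng_ng, (hEF γ).lie_e_f,
        hcor]
    · rw [he2 γ h, he1 (D.ng γ) ((yc5_pos D γ).2 h), ← lie_skew, (hEF (D.ng γ)).lie_e_f, hcor,
        ← Finset.sum_neg_distrib]
      refine Finset.sum_congr rfl fun k _ => ?_
      rw [RD.cp_ng, Int.cast_neg, neg_smul, neg_neg]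
  have hpinj : Function.Injective (fun γ : D.Rt => (α γ : H → ℂ)) := by
    intro γ δ h
    exact hinj γ δ fun k => congrFun h (b k)
  have hli1 : LinearIndependent ℂ e :=
    iSupIndep.linearIndependent (fun γ : D.Rt => (rootSpace H (α γ)).toSubmodule)
      ((yc5_indep H).comp hpinj) he he0
  have hli2 : LinearIndependent ℂ (fun k => (b k : L)) :=
    b.linearIndependent.map' H.toSubmodule.subtype (Submodule.ker_subtype _)
  have hHL : ∀ x : L, x ∈ rootSpace H (0 : H → ℂ) ↔ x ∈ H := by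
    intro x
    rw [rootSpace_zero_eq, LieSubalgebra.mem_toLieSubmodule]
  have hli : LinearIndependent ℂ (Sum.elim (fun k => (b k : L)) e) := by
    refine hli2.sum_type hli1 ?_
    refine ((yc5_indep H) (0 : H → ℂ)).mono ?_ ?_
    · rw [Submodule.span_le]
      rintro _ ⟨k, rfl⟩
      exact (hHL _).2 (b k).2
    · rw [Submodule.span_le]
      rintro _ ⟨γ, rfl⟩
      have h1 : (rootSpace H (α γ)).toSubmodule ≤
          ⨆ (j : H → ℂ) (_ : j ≠ 0), (rootSpace H j).toSubmodule := by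
        refine le_iSup₂_of_le (α γ : H → ℂ) ?_ le_rfl
        intro h
        exact hα0 γ h
      exact h1 (he γ)
  have hsp : ⊤ ≤ Submodule.span ℂ (Set.range (Sum.elim (fun k => (b k : L)) e)) := by
    rw [← yc5_top H]
    refine iSup_le fun χ => ?_
    intro x hx
    by_cases hχ : χ.IsZero
    · have h0 : (χ : H → ℂ) = 0 := hχ
      rw [h0] at hx
      have hxH : x ∈ H := (hHL x).1 hx
      have h1 : x = ∑ k, b.repr ⟨x, hxH⟩ k • (b k : L) := by
        have h2 := congrArg Subtype.val (b.sum_repr ⟨x, hxH⟩)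
        rw [AddSubmonoidClass.coe_finsetSum] at h2
        exact h2.symm
      rw [h1]
      refine Submodule.sum_mem _ fun k _ => Submodule.smul_mem _ _ (Submodule.subset_span ⟨Sum.inl k, rfl⟩)
    · obtain ⟨γ, rfl⟩ := hsurj χ hχ
      obtain ⟨c, rfl⟩ := yc5_line H (hα0 γ) (he γ) (he0 γ) hx
      exact Submodule.smul_mem _ _ (Submodule.subset_span ⟨Sum.inr γ, rfl⟩)
  have hbs1 : ∀ k, Module.Basis.mk hli hsp (Sum.inl k) = (b k : L) := fun k => by
    rw [Module.Basis.mk_apply, Sum.elim_inl]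
  have hbs2 : ∀ γ, Module.Basis.mk hli hsp (Sum.inr γ) = e γ := fun γ => by
    rw [Module.Basis.mk_apply, Sum.elim_inr]
  refine ⟨Module.Basis.mk hli hsp, hbs1, ?_, ?_, ?_, ?_, ?_⟩
  · intro j k
    rw [hbs1, hbs1]
    have h1 : ⁅b j, b k⁆ = 0 := trivial_lie_zero H H _ _
    exact congrArg Subtype.val h1
  · intro k γ
    rw [hbs1, hbs2, ← hα γ k]
    exact lie_eq_smul_of_mem_rootSpace (he γ) (b k)
  · intro γ
    rw [hbs2, hbs2, hee]
    exact Finset.sum_congr rfl fun k _ => by rw [hbs1]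
  · intro γ δ μ hμ
    rw [hbs2, hbs2, hbs2]
    have h1 : (α μ : H → ℂ) = (α γ : H → ℂ) + α δ := by
      refine yc5_ext H b (f := α μ) (α γ) (α δ) (fun k => ?_) (α μ) (fun k => rfl)
      rw [hα, hα, hα, hμ, Pi.add_apply, Int.cast_add]
    have h2 : ⁅e γ, e δ⁆ ∈ rootSpace H (α μ) := by
      rw [h1]
      exact lie_mem_genWeightSpace_of_mem_genWeightSpace (he γ) (he δ)
    exact yc5_line H (hα0 μ) (he μ) (he0 μ) h2
  · intro γ δ hδ hμ
    rw [hbs2, hbs2]
    have h2 : ⁅e γ, e δ⁆ ∈ rootSpace H ((α γ : H → ℂ) + α δ) :=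
      lie_mem_genWeightSpace_of_mem_genWeightSpace (he γ) (he δ)
    by_contra h0
    have h3 : rootSpace H ((α γ : H → ℂ) + α δ) ≠ ⊥ := by
      intro h
      rw [h, LieSubmodule.mem_bot] at h2
      exact h0 h2
    let χ : Weight ℂ H L := ⟨(α γ : H → ℂ) + α δ, h3⟩
    have hχ : ∀ k, χ (b k) = ((γ.1 k + δ.1 k : ℤ) : ℂ) := by
      intro k
      rw [Int.cast_add, ← hα, ← hα]
      rfl
    by_cases hz : χ.IsZero
    · apply hδ
      refine Subtype.ext (funext fun k => ?_)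
      have h4 := hχ k
      have h5 : χ (b k) = 0 := congrFun hz (b k)
      rw [h5] at h4
      have h6 : (0 : ℤ) = γ.1 k + δ.1 k := by exact_mod_cast h4
      rw [RD.ng_val, Pi.neg_apply]
      linarith
    · obtain ⟨μ, hμ'⟩ := hsurj χ hz
      refine hμ μ (funext fun k => ?_)
      have h4 := hχ k
      rw [hμ', hα] at h4
      exact_mod_cast h4

end Pool.Agent.MTG
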