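import Pool.Agent.MTG.B0

/-! # MTG-YC : every connected semisimple group has Cartan data -/

namespace Pool.Agent.MTF
end Pool.Agent.MTF

namespace Pool.Agent.MTG

open LieModule LieAlgebra LieAlgebra.IsKilling Pool.Agent.MTF

/-- conjugate of a representation -/
noncomputable def yc6_conj {G : AffGrp} (E : Rep G) (P P' : Matrix E.ι E.ι ℂ) (h1 : P' * P = 1)
    (h2 : P * P' = 1) : Rep G where
  ι := E.ι
  ρ :=
    { toFun := fun x => P' * E.ρ x * P
      map_one' := by rw [map_one, Matrix.mul_one, h1]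
      map_mul' := fun x y => by
        rw [map_mul]
        calc P' * (E.ρ x * E.ρ y) * P = P' * E.ρ x * (1 * (E.ρ y * P)) := by
              rw [Matrix.one_mul]; simp only [Matrix.mul_assoc]
          _ = P' * E.ρ x * P * (P' * E.ρ y * P) := by
              rw [← h2]; simp only [Matrix.mul_assoc] }
  mem := fun a b => by
    have e : (fun x => (P' * E.ρ x * P) a b) =
        ∑ c, ∑ d, (P' a d * P c b) • (E.co d c).1 := by
      funext x
      rw [Matrix.mul_apply, Finset.sum_apply]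
      refine Finset.sum_congr rfl fun c _ => ?_
      rw [Matrix.mul_apply, Finset.sum_apply, Finset.sum_mul]
      refine Finset.sum_congr rfl fun d _ => ?_
      show P' a d * E.ρ x d c * P c b = (P' a d * P c b) * E.ρ x d c
      ring
    show (fun x => (P' * E.ρ x * P) a b) ∈ G.O
    rw [e]
    exact Subalgebra.sum_mem _ fun c _ => Subalgebra.sum_mem _ fun d _ =>
      Subalgebra.smul_mem _ (E.co d c).2 _

theorem yc6_d {G : AffGrp} (E : Rep G) (P P' : Matrix E.ι E.ι ℂ) (h1 : P' * P = 1)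
    (h2 : P * P' = 1) (D : G.Lie) : (yc6_conj E P P' h1 h2).d D = P' * E.d D * P := by
  ext a b
  rw [Rep.d_apply]
  have h : (yc6_conj E P P' h1 h2).co a b = ∑ c, ∑ d, (P' a d * P c b) • E.co d c := by
    apply AffGrp.O_ext
    intro x
    rw [AffGrp.O_sum]
    show (P' * E.ρ x * P) a b = _
    rw [Matrix.mul_apply]
    refine Finset.sum_congr rfl fun c _ => ?_
    rw [AffGrp.O_sum, Matrix.mul_apply, Finset.sum_mul]
    refine Finset.sum_congr rfl fun d _ => ?_
    rw [AffGrp.O_smul]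
    show P' a d * E.ρ x d c * P c b = (P' a d * P c b) * E.ρ x d c
    ring
  rw [h, map_sum, Matrix.mul_apply]
  refine Finset.sum_congr rfl fun c _ => ?_
  rw [map_sum, Matrix.mul_apply, Finset.sum_mul]
  refine Finset.sum_congr rfl fun d _ => ?_
  rw [map_smul, smul_eq_mul, Rep.d_apply]
  ring

theorem yc6_faithful {G : AffGrp} (E : Rep G) (P P' : Matrix E.ι E.ι ℂ) (h1 : P' * P = 1)
    (h2 : P * P' = 1) (hE : E.Faithful) : (yc6_conj E P P' h1 h2).Faithful := by
  unfold Rep.Faithful at hE ⊢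
  rw [eq_top_iff, ← hE]
  refine Algebra.adjoin_le ?_
  rintro _ ⟨⟨a, b⟩, rfl⟩
  have h : E.co a b = ∑ c, ∑ d, (P a d * P' c b) • (yc6_conj E P P' h1 h2).co d c := by
    apply AffGrp.O_ext
    intro x
    have e : E.ρ x = P * (P' * E.ρ x * P) * P' := by
      calc E.ρ x = 1 * E.ρ x * 1 := by rw [Matrix.one_mul, Matrix.mul_one]
        _ = P * (P' * E.ρ x * P) * P' := by rw [← h2]; simp only [Matrix.mul_assoc]
    rw [AffGrp.O_sum]
    show E.ρ x a b = _
    rw [e, Matrix.mul_apply]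
    refine Finset.sum_congr rfl fun c _ => ?_
    rw [AffGrp.O_sum, Matrix.mul_apply, Finset.sum_mul]
    refine Finset.sum_congr rfl fun d _ => ?_
    rw [AffGrp.O_smul]
    show P a d * (P' * E.ρ x * P) d c * P' c b = (P a d * P' c b) * (P' * E.ρ x * P) d c
    ring
  have hm : ∀ d c : E.ι, (yc6_conj E P P' h1 h2).co d c ∈
      Algebra.adjoin ℂ (Set.range fun p : (yc6_conj E P P' h1 h2).ι × (yc6_conj E P P' h1 h2).ι =>
        (yc6_conj E P P' h1 h2).co p.1 p.2) := fun d c => Algebra.subset_adjoin ⟨(d, c), rfl⟩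
  show E.co a b ∈ Algebra.adjoin ℂ (Set.range fun p : (yc6_conj E P P' h1 h2).ι ×
    (yc6_conj E P P' h1 h2).ι => (yc6_conj E P P' h1 h2).co p.1 p.2)
  rw [h]
  exact Subalgebra.sum_mem _ fun c _ => Subalgebra.sum_mem _ fun d _ =>
    Subalgebra.smul_mem _ (hm d c) _

/-- YC6.  Change of basis of a representation.  If the simultaneous eigenvectors of a subspace `H` of
the Lie algebra span `ℂ^E`, choose a basis of eigenvectors (`Submodule.exists_...basis` from a
spanning set), let `Q` be the matrix with these columns and `F.ρ x = Q⁻¹ E.ρ x Q`. The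
coefficients of `F` are combinations of those of `E` and conversely. -/
theorem exists_weight_basis (G : AffGrp) (E : Rep G) (H : Submodule ℂ G.Lie)
    (hE : ∀ v : E.ι → ℂ, v ∈ Submodule.span ℂ {w : E.ι → ℂ | ∃ χ : Module.Dual ℂ H, ∀ h : H,
      (E.d (h : G.Lie)).mulVec w = χ h • w}) :
    ∃ (F : Rep G) (χ : F.ι → Module.Dual ℂ H) (Q Q' : Matrix E.ι F.ι ℂ),
      (∀ h : H, F.d (h : G.Lie) = Matrix.diagonal fun a => χ a h) ∧ (E.Faithful → F.Faithful) ∧
      Q.transpose * Q' = 1 ∧ Q' * Q.transpose = 1 ∧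
      (∀ x, Q.transpose * E.ρ x * Q' = F.ρ x) := by
  classical
  set S : Set (E.ι → ℂ) := {w : E.ι → ℂ | ∃ χ : Module.Dual ℂ H, ∀ h : H,
      (E.d (h : G.Lie)).mulVec w = χ h • w} with hS
  have hsp : ⊤ ≤ Submodule.span ℂ S := fun v _ => hE v
  let b0 := Module.Basis.ofSpan hsp
  have hb0 : ∀ i, b0 i ∈ S := fun i => Module.Basis.ofSpan_subset hsp ⟨i, rfl⟩
  let b : Module.Basis E.ι ℂ (E.ι → ℂ) := b0.reindex (b0.indexEquiv (Pi.basisFun ℂ E.ι))
  have hb : ∀ i, b i ∈ S := by
    intro i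
    rw [show b i = b0 ((b0.indexEquiv (Pi.basisFun ℂ E.ι)).symm i) from
      Module.Basis.reindex_apply _ _ _]
    exact hb0 _
  choose χ hχ using hb
  have h1 : b.toMatrix (Pi.basisFun ℂ E.ι) * (Pi.basisFun ℂ E.ι).toMatrix b = 1 :=
    Module.Basis.toMatrix_mul_toMatrix_flip _ _
  have h2 : (Pi.basisFun ℂ E.ι).toMatrix b * b.toMatrix (Pi.basisFun ℂ E.ι) = 1 :=
    Module.Basis.toMatrix_mul_toMatrix_flip _ _
  have hP : ∀ a i, (Pi.basisFun ℂ E.ι).toMatrix b a i = b i a := fun a i => by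
    rw [Module.Basis.toMatrix_apply, Pi.basisFun_repr]
  refine ⟨yc6_conj E _ _ h1 h2, χ, (b.toMatrix (Pi.basisFun ℂ E.ι)).transpose,
    (Pi.basisFun ℂ E.ι).toMatrix b, ?_, yc6_faithful E _ _ h1 h2, ?_, ?_, ?_⟩
  · intro h
    rw [yc6_d, Matrix.mul_assoc]
    have e : E.d (h : G.Lie) * (Pi.basisFun ℂ E.ι).toMatrix b =
        (Pi.basisFun ℂ E.ι).toMatrix b * Matrix.diagonal fun a => χ a h := by
      ext a i
      rw [Matrix.mul_diagonal, hP, Matrix.mul_apply]
      have h3 := congrFun (hχ i h) a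
      rw [Pi.smul_apply, smul_eq_mul] at h3
      rw [mul_comm, ← h3]
      refine Finset.sum_congr rfl fun c _ => ?_
      rw [hP]
    rw [e, ← Matrix.mul_assoc, h1, Matrix.one_mul]
    rfl
  · exact h1
  · exact h2
  · intro x
    rfl

end Pool.Agent.MTG
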