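import Pool.Agent.MTG.Y2
import Pool.Agent.MTG.YC1
import Pool.Agent.MTG.YC2
import Pool.Agent.MTG.YC3
import Pool.Agent.MTG.YC5
import Pool.Agent.MTG.YC6
import Pool.Agent.MTG.B1f

/-! # MTG-YC8 : Cartan data adapted to a given Cartan subalgebra -/

namespace Pool.Agent.MTF
end Pool.Agent.MTF

namespace Pool.Agent.MTG

open LieModule LieAlgebra LieAlgebra.IsKilling Pool.Agent.MTF

/-- a nonzero weight is a difference of weights of a faithful representation -/
theorem yc8_diff {G : AffGrp} [IsKilling ℂ G.Lie] (H : LieSubalgebra ℂ G.Lie)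
    [H.IsCartanSubalgebra] (F : MTF.Rep G) (hF : F.Faithful) (χ : F.ι → Module.Dual ℂ H)
    (hd : ∀ h : H, F.d (h : G.Lie) = Matrix.diagonal fun a => χ a h) (α : Weight ℂ H G.Lie) :
    ∃ a c : F.ι, ∀ h : H, α h = χ a h - χ c h := by
  obtain ⟨e, he, he0⟩ := α.exists_ne_zero
  have h1 : F.d e ≠ 0 := by
    intro h0
    exact he0 (AffGrp.d_injective F hF (by rw [h0, map_zero]))
  have h2 : ∃ a c, F.d e a c ≠ 0 := by
    by_contra hcon
    push Not at hcon
    apply h1
    ext a c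
    exact hcon a c
  obtain ⟨a, c, hac⟩ := h2
  refine ⟨a, c, fun h => ?_⟩
  have h3 : ⁅(h : G.Lie), e⁆ = α h • e := lie_eq_smul_of_mem_rootSpace he h
  have h4 := congrArg F.d h3
  rw [F.d_lie, map_smul, hd h] at h4
  have h5 := congrFun (congrFun h4 a) c
  rw [Matrix.sub_apply, Matrix.diagonal_mul, Matrix.mul_diagonal, Matrix.smul_apply,
    smul_eq_mul] at h5
  have h6 : (χ a h - χ c h - α h) * F.d e a c = 0 := by linear_combination h5
  have h7 := (mul_eq_zero.1 h6).resolve_right hac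
  linear_combination -h7

theorem yc8_aux {G : AffGrp} [IsKilling ℂ G.Lie] (H : LieSubalgebra ℂ G.Lie)
    [H.IsCartanSubalgebra] (F : MTF.Rep G) (hF : F.Faithful) (χ : F.ι → Module.Dual ℂ H)
    (hd : ∀ h : H, F.d (h : G.Lie) = Matrix.diagonal fun a => χ a h) :
    ∃ (n : ℕ) (D : RD n) (C : CD G D), (∀ k, C.bs (Sum.inl k) ∈ H) ∧
      Module.finrank ℂ H = n := by
  classical
  -- the weights are integral on the coroots
  have hint : ∀ (a : F.ι) (α : Weight ℂ H G.Lie), ∃ z : ℤ, χ a (coroot α) = (z : ℂ) := by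
    intro a α
    have hv : (Pi.single a 1 : F.ι → ℂ) ≠ 0 := by
      intro h0
      have := congrFun h0 a
      rw [Pi.single_eq_same] at this
      exact one_ne_zero this
    refine coroot_int (V := F.V) H (v := (Pi.single a 1 : F.ι → ℂ)) hv (χ a) (fun h => ?_) α
    show (F.d (h : G.Lie)).mulVec (Pi.single a 1) = χ a h • (Pi.single a 1 : F.ι → ℂ)
    rw [hd h]
    funext c
    rw [Matrix.mulVec_diagonal, Pi.smul_apply, smul_eq_mul]
    by_cases hc : c = a
    · subst hc
      rfl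
    · rw [Pi.single_eq_of_ne hc, mul_zero, mul_zero]
  have hspan : Submodule.span ℂ (Set.range fun α : Weight ℂ H G.Lie => coroot α) = ⊤ := by
    rw [eq_top_iff, ← RootPairing.IsRootSystem.span_coroot_eq_top (P := rootSystem H)]
    refine Submodule.span_mono ?_
    rintro _ ⟨α, rfl⟩
    exact ⟨α.1, rfl⟩
  have hsep : ∀ h : H, (∀ ψ ∈ Set.range χ, ψ h = 0) → h = 0 := by
    intro h h0
    have h1 : F.d (h : G.Lie) = 0 := by
      rw [hd h]
      have h2 : (fun a => χ a h) = 0 := by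
        funext a
        exact h0 _ ⟨a, rfl⟩
      rw [h2]
      exact Matrix.diagonal_zero
    have h2 : (h : G.Lie) = 0 := AffGrp.d_injective F hF (by rw [h1, map_zero])
    exact Subtype.ext h2
  obtain ⟨n, b, hb0, hgen⟩ := exists_lattice (H := H) _ hspan (Set.range χ) (Set.finite_range χ)
    (by
      rintro _ ⟨a, rfl⟩ _ ⟨α, rfl⟩
      exact hint a α) hsep
  have hwt : ∀ (a : F.ι) (k : Fin n), ∃ z : ℤ, χ a (b k) = (z : ℂ) := fun a k => hb0 _ ⟨a, rfl⟩ k
  choose wt hwt' using hwt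
  have hb : ∀ (α : Weight ℂ H G.Lie) (k : Fin n), ∃ z : ℤ, α (b k) = (z : ℂ) := by
    intro α k
    obtain ⟨a, c, hac⟩ := yc8_diff H F hF χ hd α
    refine ⟨wt a k - wt c k, ?_⟩
    rw [hac, hwt', hwt']
    push_cast
    rfl
  have hcl : ∀ z ∈ AddSubgroup.closure {z : Fin n → ℤ | ∃ ψ ∈ Set.range χ, ∀ k, ψ (b k) = ((z k : ℤ) : ℂ)},
      ∀ α : Weight ℂ H G.Lie, ∃ m : ℤ, ∑ j, ((z j : ℤ) : ℂ) * b.repr (coroot α) j = (m : ℂ) := by
    intro z hz α
    induction hz using AddSubgroup.closure_induction with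
    | mem z hz =>
      obtain ⟨_, ⟨a, rfl⟩, hz⟩ := hz
      obtain ⟨m, hm⟩ := hint a α
      refine ⟨m, ?_⟩
      rw [← hm]
      conv_rhs => rw [← b.sum_repr (coroot α)]
      rw [map_sum]
      refine Finset.sum_congr rfl fun j _ => ?_
      rw [map_smul, hz j, smul_eq_mul, mul_comm]
    | zero =>
      refine ⟨0, ?_⟩
      rw [Int.cast_zero]
      refine Finset.sum_eq_zero fun j _ => ?_
      rw [Pi.zero_apply, Int.cast_zero, zero_mul]
    | add z z' _ _ h1 h2 =>
      obtain ⟨m, hm⟩ := h1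
      obtain ⟨m', hm'⟩ := h2
      refine ⟨m + m', ?_⟩
      rw [Int.cast_add, ← hm, ← hm', ← Finset.sum_add_distrib]
      refine Finset.sum_congr rfl fun j _ => ?_
      rw [Pi.add_apply, Int.cast_add, add_mul]
    | neg z _ h1 =>
      obtain ⟨m, hm⟩ := h1
      refine ⟨-m, ?_⟩
      rw [Int.cast_neg, ← hm, ← Finset.sum_neg_distrib]
      refine Finset.sum_congr rfl fun j _ => ?_
      rw [Pi.neg_apply, Int.cast_neg, neg_mul]
  have hb' : ∀ (α : Weight ℂ H G.Lie) (k : Fin n), ∃ z : ℤ, b.repr (coroot α) k = (z : ℂ) := by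
    intro α k
    obtain ⟨m, hm⟩ := hcl (Pi.single k 1) (by rw [hgen]; exact AddSubgroup.mem_top _) α
    refine ⟨m, ?_⟩
    rw [← hm, Finset.sum_eq_single k]
    · rw [Pi.single_eq_same, Int.cast_one, one_mul]
    · intro j _ hj
      rw [Pi.single_eq_of_ne hj, Int.cast_zero, zero_mul]
    · intro h
      exact absurd (Finset.mem_univ k) h
  obtain ⟨D, hD, hc⟩ := exists_RD H b hb hb'
  obtain ⟨bs, hbs, h1, h2, h3, h4, h5⟩ := exists_basis H b hb D hD hc
  let C : CD G D :=
    { bs := bs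
      h_h := h1
      h_e := h2
      e_ng := h3
      e_br := h4
      e_co := h5
      F := F
      wt := wt
      faith := hF
      d_h := by
        intro k
        rw [hbs k, hd (b k)]
        congr 1
        funext a
        exact hwt' a k
      gen := by
        rw [eq_top_iff, ← hgen]
        refine AddSubgroup.closure_mono ?_
        rintro z ⟨_, ⟨a, rfl⟩, hz⟩
        refine ⟨a, ?_⟩
        funext k
        have h6 := hz k
        rw [hwt' a k] at h6
        exact_mod_cast h6 }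
  refine ⟨n, D, C, fun k => ?_, ?_⟩
  · show bs (Sum.inl k) ∈ H
    rw [hbs k]
    exact (b k).2
  · rw [Module.finrank_eq_card_basis b, Fintype.card_fin]

/-- Cartan data adapted to a Cartan subalgebra. -/
theorem exists_CD_of {G : AffGrp} (hG : G.Semi) (H : LieSubalgebra ℂ G.Lie)
    [H.IsCartanSubalgebra] : ∃ (n : ℕ) (D : RD n) (C : CD G D), (∀ k, C.bs (Sum.inl k) ∈ H) ∧
      Module.finrank ℂ H = n := by
  have : IsKilling ℂ G.Lie := hG.isKilling
  obtain ⟨E, hE⟩ := AffGrp.exists_faithful (G := G)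
  obtain ⟨F, χ, Q, Q', hd, hF, -⟩ := exists_weight_basis G E
    H.toSubmodule (fun v => span_eigen G.Lie E.V H v)
  exact yc8_aux H F (hF hE) χ hd

end Pool.Agent.MTG
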