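import Pool.Agent.MTG.YF1

/-! # MTG-YF : the data of part P for a Cartan datum -/

namespace Pool.Agent.MTG

open Pool.Agent.MTF Matrix
open Pool.Agent.MTD (ev)
open Pool.Agent.MTX.SLD (AA fm0)
open Pool.Agent.MTH
open RD (KK aK)

theorem CD.yf2_Db {G : AffGrp} {n : ℕ} {D : RD n} (C : CD G D) (i : Fin n ⊕ D.Rt) : C.Db (CD.eqJ D i) = C.bs i := by
  rw [C.Db_apply, Equiv.symm_apply_apply]

theorem CD.yf2_repr {G : AffGrp} {n : ℕ} {D : RD n} (C : CD G D) (v : G.Lie) (i : Fin n ⊕ D.Rt) :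
    C.Db.repr v (CD.eqJ D i) = C.bs.repr v i := by
  unfold CD.Db
  rw [Module.Basis.repr_reindex_apply, Equiv.symm_apply_apply]

/-- YF2.  Transfer between the bases `C.Db` and `C.bs` (`C.Db_apply`, `Equiv.sum_comp (eqJ D)`; `Algebra.smul_def`).  `C.TQd.D = C.Db`, `C.TQd.r = Fintype.card _` by definition. -/
theorem CD.brK_J {G : AffGrp} {n : ℕ} {D : RD n} (C : CD G D)
    (z z' : Fin (Fintype.card (Fin n ⊕ D.Rt)) → KK n) :
    CD.toJ (D := D) (C.TQd.brK (R := KK n) z z') = C.br (CD.toJ z) (CD.toJ z') := by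
  funext k
  show ∑ a, ∑ b, C.TQd.stc a b (CD.eqJ D k) • (z a * z' b) = ∑ i, ∑ j, CD.toJ z i * CD.toJ z' j * algebraMap ℂ (KK n) (C.sc i j k)
  refine Eq.trans (Equiv.sum_comp (CD.eqJ D) (fun a : Fin (Fintype.card (Fin n ⊕ D.Rt)) =>
    ∑ b : Fin (Fintype.card (Fin n ⊕ D.Rt)), C.TQd.stc a b (CD.eqJ D k) • (z a * z' b))).symm ?_
  refine Finset.sum_congr rfl fun i _ => ?_
  refine Eq.trans (Equiv.sum_comp (CD.eqJ D) (fun b : Fin (Fintype.card (Fin n ⊕ D.Rt)) =>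
    C.TQd.stc (CD.eqJ D i) b (CD.eqJ D k) • (z (CD.eqJ D i) * z' b))).symm ?_
  refine Finset.sum_congr rfl fun j _ => ?_
  have h1 : C.TQd.stc (CD.eqJ D i) (CD.eqJ D j) (CD.eqJ D k) = C.sc i j k := by
    show C.Db.repr (G.br (C.Db (CD.eqJ D i)) (C.Db (CD.eqJ D j))) (CD.eqJ D k) = _
    rw [C.yf2_repr, C.yf2_Db, C.yf2_Db]
    rfl
  rw [h1, Algebra.smul_def, mul_comm]
  rfl

theorem CD.zE_J {G : AffGrp} {n : ℕ} {D : RD n} (C : CD G D) (E : MTF.Rep G)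
    (z : Fin (Fintype.card (Fin n ⊕ D.Rt)) → KK n) : C.TQd.zE E z = C.dm E (CD.toJ z) := by
  refine Matrix.ext fun a b => ?_
  rw [C.dm_apply]
  show ∑ j, z j * algebraMap ℂ (KK n) ((C.Db j).1 (E.co a b)) = _
  rw [← Equiv.sum_comp (CD.eqJ D) (fun j => z j * algebraMap ℂ (KK n) ((C.Db j).1 (E.co a b)))]
  refine Finset.sum_congr rfl fun j _ => ?_
  rw [C.yf2_Db]
  rfl

theorem CD.sE_J {G : AffGrp} {n : ℕ} {D : RD n} (C : CD G D) (E : MTF.Rep G) :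
    C.TQd.sE E = C.dm E C.sK := by
  have h1 : C.TQd.sE E = C.TQd.zE E C.TQd.c := rfl
  have h2 : CD.toJ (D := D) C.TQd.c = C.sK := by
    funext i
    show aK (C.sx ((CD.eqJ D).symm (CD.eqJ D i))) = aK (C.sx i)
    rw [Equiv.symm_apply_apply]
  rw [h1, C.zE_J E, h2]

theorem CD.c_J {G : AffGrp} {n : ℕ} {D : RD n} (C : CD G D) :
    CD.toJ (D := D) C.TQd.c = C.sK := by
  funext i
  show aK (C.sx ((CD.eqJ D).symm (CD.eqJ D i))) = aK (C.sx i)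
  rw [Equiv.symm_apply_apply]

theorem CD.kapK_J {G : AffGrp} {n : ℕ} {D : RD n} (C : CD G D)
    (z z' : Fin (Fintype.card (Fin n ⊕ D.Rt)) → KK n) :
    C.TQd.kapK (R := KK n) z z' = C.kap (CD.toJ (D := D) z) (CD.toJ z') := by
  show ∑ a, ∑ b, C.TQd.kap a b • (z a * z' b) = ∑ i, ∑ j, algebraMap ℂ (KK n) (C.kJ i j) * (CD.toJ z i * CD.toJ z' j)
  refine Eq.trans (Equiv.sum_comp (CD.eqJ D) (fun a : Fin (Fintype.card (Fin n ⊕ D.Rt)) =>
    ∑ b : Fin (Fintype.card (Fin n ⊕ D.Rt)), C.TQd.kap a b • (z a * z' b))).symm ?_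
  refine Finset.sum_congr rfl fun i _ => ?_
  refine Eq.trans (Equiv.sum_comp (CD.eqJ D) (fun b : Fin (Fintype.card (Fin n ⊕ D.Rt)) =>
    C.TQd.kap (CD.eqJ D i) b • (z (CD.eqJ D i) * z' b))).symm ?_
  refine Finset.sum_congr rfl fun j _ => ?_
  have h1 : C.TQd.kap (CD.eqJ D i) (CD.eqJ D j) = C.kJ i j := by
    show G.killing (C.Db (CD.eqJ D i)) (C.Db (CD.eqJ D j)) = _
    rw [C.yf2_Db, C.yf2_Db]
    rfl
  rw [h1, Algebra.smul_def]
  rfl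

theorem CD.co_J {G : AffGrp} {n : ℕ} {D : RD n} (C : CD G D) (z : LR D ℂ) :
    CD.toJ (D := D) (C.TQd.co (C.toL z)) = fun i => algebraMap ℂ (KK n) (z i) := by
  funext i
  show algebraMap ℂ (KK n) (C.Db.repr (C.toL z) (CD.eqJ D i)) = algebraMap ℂ (KK n) (z i)
  rw [C.yf2_repr]
  have h1 : C.bs.repr (C.toL z) i = z i := by
    unfold CD.toL
    rw [C.bs.repr_sum_self]
  rw [h1]

end Pool.Agent.MTG
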