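import Pool.Agent.MTG.YP3

/-! # MTG-YP : the data for the Poisson structure -/

namespace Pool.Agent.MTG

open Pool.Agent.MTF Matrix
open Pool.Agent.MTD (ev)
open Pool.Agent.MTX.SLD (AA fm0)
open Pool.Agent.MTH
open RD (KK aK)
open Pool.Agent.MP_c45d35_ag (chi)

theorem yp5_sum {R A M ι : Type} [CommRing R] [CommRing A] [Algebra R A] [AddCommGroup M] [Module A M] [Module R M]
    [IsScalarTower R A M] (s : Finset ι) (f : ι → Derivation R A M) (x : A) : (∑ i ∈ s, f i) x = ∑ i ∈ s, f i x := by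
  classical
  induction s using Finset.induction_on with
  | empty => simp
  | insert a s ha ih => rw [Finset.sum_insert ha, Finset.sum_insert ha, Derivation.add_apply, ih]

theorem CD.yp5_dA_X {G : AffGrp} {n : ℕ} {D : RD n} (C : CD G D) (j k : Fin n) :
    C.dA j (MvPolynomial.X k) = MvPolynomial.C ((C.kg⁻¹) j k) := by
  classical
  unfold CD.dA
  rw [yp5_sum, Finset.sum_eq_single k]
  · rw [Derivation.smul_apply, MvPolynomial.pderiv_X_self, MvPolynomial.smul_eq_C_mul, mul_one]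
  · intro i _ hi
    rw [Derivation.smul_apply, MvPolynomial.pderiv_X_of_ne (Ne.symm hi), smul_zero]
  · intro h
    exact absurd (Finset.mem_univ k) h

theorem CD.yp5_dA {G : AffGrp} {n : ℕ} {D : RD n} (C : CD G D) (i : Fin n) (c : Fin n → ℂ) :
    C.dA i (∑ j, MvPolynomial.C (c j) * MvPolynomial.X j) =
      MvPolynomial.C (∑ j, (C.kg⁻¹) i j * c j) := by
  rw [map_sum, map_sum]
  refine Finset.sum_congr rfl fun j _ => ?_
  rw [MvPolynomial.C_mul', Derivation.map_smul, C.yp5_dA_X, MvPolynomial.smul_eq_C_mul, ← map_mul, mul_comm]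

theorem CD.yp5_dd {G : AffGrp} {n : ℕ} {D : RD n} (C : CD G D) (m ν : Fin n → ℤ) :
    (∑ j, m j • C.ddK j : Derivation ℂ (KK n) (KK n)) (aK (fm0 ν)) =
      aK (MvPolynomial.C (∑ i, ∑ j, ((m i : ℤ) : ℂ) * (C.kg⁻¹) i j * ((ν j : ℤ) : ℂ))) := by
  rw [yp5_sum, map_sum, map_sum]
  refine Finset.sum_congr rfl fun i _ => ?_
  rw [Derivation.smul_apply, C.ddK_aK]
  have h1 : (fm0 ν : AA n) = ∑ j, MvPolynomial.C ((ν j : ℤ) : ℂ) * MvPolynomial.X j := rfl
  rw [h1, C.yp5_dA]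
  have h2 : ∑ j, ((m i : ℤ) : ℂ) * (C.kg⁻¹) i j * ((ν j : ℤ) : ℂ) =
      ((m i : ℤ) : ℂ) * ∑ j, (C.kg⁻¹) i j * ((ν j : ℤ) : ℂ) := by
    rw [Finset.mul_sum]
    exact Finset.sum_congr rfl fun j _ => by ring
  rw [h2, map_mul, map_mul, zsmul_eq_mul]
  congr 1
  rw [map_intCast, map_intCast]

/-- YP5.  The derivations: `ddK i (aK (yA j)) = δ_ij` (`∑ k, (kg⁻¹) i k * kg j k`, `kg` symmetric), they commute (on the `aK X_k` all second derivatives vanish: `der_KK_ext` for the commutator), `A` is generated by the `yA j`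
(`X_k = ∑ (kg⁻¹) k j yA j`). -/
theorem CD.ddK_y {G : AffGrp} {n : ℕ} {D : RD n} (C : CD G D) (hG : G.Semi) (i j : Fin n) :
    C.ddK i (aK (C.yA j)) = if i = j then 1 else 0 := by
  rw [C.ddK_aK]
  unfold CD.yA
  rw [C.yp5_dA]
  have h1 : ∑ k, (C.kg⁻¹) i k * C.kg j k = ((C.kg⁻¹) * C.kg) i j := by
    rw [Matrix.mul_apply]
    refine Finset.sum_congr rfl fun k _ => ?_
    have h2 : C.kg j k = C.kg k j := C.kJ_comm _ _
    rw [h2]
  rw [h1, Matrix.nonsing_inv_mul _ (C.det_kg hG), Matrix.one_apply]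
  split_ifs
  · rw [map_one, map_one]
  · rw [map_zero, map_zero]

theorem CD.ddK_comm {G : AffGrp} {n : ℕ} {D : RD n} (C : CD G D) (i j : Fin n) (x : KK n) :
    C.ddK i (C.ddK j x) = C.ddK j (C.ddK i x) := by
  have h1 : ⁅C.ddK i, C.ddK j⁆ = (0 : Derivation ℂ (KK n) (KK n)) := by
    apply der_KK_ext
    intro k
    rw [Derivation.commutator_apply, Derivation.zero_apply, C.ddK_aK, C.ddK_aK, C.ddK_aK, C.ddK_aK, C.yp5_dA_X, C.yp5_dA_X,
      MvPolynomial.derivation_C, MvPolynomial.derivation_C, map_zero, sub_zero]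
  have h2 := congrArg (fun E : Derivation ℂ (KK n) (KK n) => E x) h1
  simp only [Derivation.commutator_apply, Derivation.zero_apply] at h2
  exact sub_eq_zero.1 h2

theorem CD.adjoin_yA {G : AffGrp} {n : ℕ} {D : RD n} (C : CD G D) (hG : G.Semi) :
    Algebra.adjoin ℂ (Set.range C.yA) = ⊤ := by
  rw [eq_top_iff, ← MvPolynomial.adjoin_range_X]
  apply Algebra.adjoin_le
  rintro _ ⟨k, rfl⟩
  have h1 : (MvPolynomial.X k : AA n) = ∑ j, (C.kg⁻¹) k j • C.yA j := by
    have h2 : ∀ j, (C.kg⁻¹) k j • C.yA j = ∑ l, MvPolynomial.C ((C.kg⁻¹) k j * C.kg j l) * MvPolynomial.X l := by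
      intro j
      unfold CD.yA
      rw [Finset.smul_sum]
      refine Finset.sum_congr rfl fun l _ => ?_
      rw [MvPolynomial.smul_eq_C_mul, map_mul, mul_assoc]
    rw [Finset.sum_congr rfl fun j _ => h2 j, Finset.sum_comm]
    have h3 : ∀ l, ∑ j, (MvPolynomial.C ((C.kg⁻¹) k j * C.kg j l) * MvPolynomial.X l : AA n) =
        MvPolynomial.C (if k = l then 1 else 0) * MvPolynomial.X l := by
      intro l
      rw [← Finset.sum_mul, ← map_sum]
      have h4 : ∑ j, (C.kg⁻¹) k j * C.kg j l = ((C.kg⁻¹) * C.kg) k l := (Matrix.mul_apply).symm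
      rw [h4, Matrix.nonsing_inv_mul _ (C.det_kg hG), Matrix.one_apply]
    rw [Finset.sum_congr rfl fun l _ => h3 l, Finset.sum_eq_single k]
    · rw [if_pos rfl, map_one, one_mul]
    · intro l _ hl
      rw [if_neg (Ne.symm hl), map_zero, zero_mul]
    · intro h
      exact absurd (Finset.mem_univ k) h
  rw [h1]
  exact Subalgebra.sum_mem _ fun j _ => Subalgebra.smul_mem _
    (Algebra.subset_adjoin (show C.yA j ∈ Set.range C.yA from ⟨j, rfl⟩)) _

/-- (row YP5) `W`-equivariance: both sides are derivations of `K` along `x ↦ w • x`; compare on `aK X_k`, i.e. (by linearity and surjectivity of `w`) on `w • aK (fm0 ν) = aK (fm0 (w ν))`: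
`∂_m (aK (fm0 ν)) = ∑ i j, m i (kg⁻¹) i j ν j`, invariant by `be_W`. -/
theorem CD.ddK_w {G : AffGrp} {n : ℕ} {D : RD n} (C : CD G D) (hG : G.Semi) (w : D.W)
    (m : Fin n → ℤ) (x : KK n) :
    (∑ j, (w.1 m) j • C.ddK j : Derivation ℂ (KK n) (KK n)) (w • x) =
      w • (∑ j, m j • C.ddK j : Derivation ℂ (KK n) (KK n)) x := by
  let E : Derivation ℂ (KK n) (KK n) := Derivation.mk'
    { toFun := fun y => w • (∑ j, m j • C.ddK j : Derivation ℂ (KK n) (KK n)) (w⁻¹ • y)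
      map_add' := fun a b => by rw [smul_add, map_add, smul_add]
      map_smul' := fun c a => by rw [smul_comm, Derivation.map_smul, smul_comm, RingHom.id_apply] }
    (fun a b => by
      show w • (∑ j, m j • C.ddK j : Derivation ℂ (KK n) (KK n)) (w⁻¹ • (a * b)) =
        a • (w • (∑ j, m j • C.ddK j : Derivation ℂ (KK n) (KK n)) (w⁻¹ • b)) +
        b • (w • (∑ j, m j • C.ddK j : Derivation ℂ (KK n) (KK n)) (w⁻¹ • a))
      rw [smul_mul', Derivation.leibniz, smul_add, smul_eq_mul, smul_eq_mul, smul_mul', smul_mul', smul_inv_smul,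
        smul_inv_smul, smul_eq_mul, smul_eq_mul])
  have hE : (∑ j, (w.1 m) j • C.ddK j : Derivation ℂ (KK n) (KK n)) = E := by
    apply der_KK_ext
    intro k
    have h1 : (MvPolynomial.X k : AA n) = fm0 (Pi.single k 1 : Fin n → ℤ) := (Pool.Agent.MTX.SLD.fm0_al k).symm
    show (∑ j, (w.1 m) j • C.ddK j : Derivation ℂ (KK n) (KK n)) (aK (MvPolynomial.X k)) =
      w • (∑ j, m j • C.ddK j : Derivation ℂ (KK n) (KK n)) (w⁻¹ • aK (MvPolynomial.X k))
    rw [h1, RD.smul_aK, RD.smul_fm0, C.yp5_dd, C.yp5_dd, RD.smul_aK, RD.smul_C]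
    congr 2
    have h2 := C.be_W (C.det_kg hG) w m ((w⁻¹).1 (Pi.single k 1))
    rw [← h2]
    refine Finset.sum_congr rfl fun i _ => Finset.sum_congr rfl fun j _ => ?_
    have h3 : w.1 ((w⁻¹).1 (Pi.single k 1 : Fin n → ℤ)) = Pi.single k 1 := by
      show (w * w⁻¹).1 (Pi.single k 1 : Fin n → ℤ) = _
      rw [mul_inv_cancel]
      rfl
    rw [h3]
  rw [hE]
  show w • (∑ j, m j • C.ddK j : Derivation ℂ (KK n) (KK n)) (w⁻¹ • (w • x)) = _
  rw [inv_smul_smul]

end Pool.Agent.MTG
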