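import Pool.Agent.MTG.YF2
import Pool.Agent.MTG.YP5

/-! # MTG-YF : the data of part P for a Cartan datum -/

namespace Pool.Agent.MTG

open Pool.Agent.MTF Matrix
open Pool.Agent.MTD (ev)
open Pool.Agent.MTX.SLD (AA fm0)
open Pool.Agent.MTH
open RD (KK aK)

/-- YF3a.  The elementary fields of `PQ`: `ddK_comm`, `ddK_aK` (`AK n` = the elements `aK t`), `ddK_y`, `adjoin_yA` (image under `A → K`), fractions, `ddK_w`. -/
theorem CD.pq_dd_mem {G : AffGrp} {n : ℕ} {D : RD n} (C : CD G D) (i : Fin n) (x : KK n)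
    (hx : x ∈ C.TQd.A) : C.ddK i x ∈ C.TQd.A := by
  obtain ⟨t, rfl⟩ := mem_AK.1 hx
  rw [C.ddK_aK]
  exact aK_mem _

theorem CD.pq_A_gen {G : AffGrp} {n : ℕ} {D : RD n} (C : CD G D) (hG : G.Semi) :
    Algebra.adjoin ℂ (Set.range fun j : Fin n => (aK (C.yA j) : KK n)) = C.TQd.A := by
  have h1 : (Set.range fun j : Fin n => (aK (C.yA j) : KK n)) =
      (IsScalarTower.toAlgHom ℂ (AA n) (KK n)) '' Set.range C.yA := by
    rw [← Set.range_comp]
    rfl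
  rw [h1, ← AlgHom.map_adjoin, C.adjoin_yA hG, Algebra.map_top]
  rfl

theorem CD.pq_frac {G : AffGrp} {n : ℕ} {D : RD n} (C : CD G D) (x : KK n) :
    ∃ a ∈ C.TQd.A, a ≠ 0 ∧ a * x ∈ C.TQd.A := by
  obtain ⟨a, b, hb, h⟩ := RD.exists_frac x
  refine ⟨aK b, aK_mem b, RD.aK_ne_zero hb, ?_⟩
  rw [mul_comm, h]
  exact aK_mem a

theorem CD.pq_dX_w {G : AffGrp} {n : ℕ} {D : RD n} (C : CD G D) (hG : G.Semi)
    (rho : Matrix (Fin (Fintype.card (Fin n ⊕ D.Rt))) (Fin (Fintype.card (Fin n ⊕ D.Rt))) (KK n))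
    (w : D.W) (m : Fin n → ℤ) (x : KK n) :
    (C.PDd rho).dX (w • m) (w • x) = w • (C.PDd rho).dX m x := by
  have hcd : ∀ (j : Fin n) (m : Fin n → ℤ), (C.PDd rho).cd j m = m j := fun j m => by
    show (Pi.basisFun ℤ (Fin n)).coord j m = m j
    rw [Module.Basis.coord_apply, Pi.basisFun_repr]
  have h1 : ∀ (m : Fin n → ℤ), (C.PDd rho).dX m = (∑ j, m j • C.ddK j : Derivation ℂ (KK n) (KK n)) := fun m => by
    unfold PD.dX
    refine Finset.sum_congr rfl fun j _ => ?_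
    rw [hcd]
    rfl
  rw [h1, h1]
  exact C.ddK_w hG w m x

end Pool.Agent.MTG
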