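import Pool.Agent.MTG.YP3a

/-! # MTG-YP : the data for the Poisson structure -/

namespace Pool.Agent.MTG

open Pool.Agent.MTF Matrix
open Pool.Agent.MTD (ev)
open Pool.Agent.MTX.SLD (AA fm0)
open Pool.Agent.MTH
open RD (KK aK)
open Pool.Agent.MP_c45d35_ag (chi)

/-- the matrix of an element in a conjugate representation -/
theorem yp3b_conj {G : AffGrp} {n : ℕ} {D : RD n} (C : CD G D) {R : Type} [CommRing R]
    [Algebra ℂ R] {E F : MTF.Rep G} (Q : Matrix E.ι F.ι ℂ)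
    (Q' : Matrix F.ι E.ι ℂ) (h : ∀ x, E.ρ x = Q * F.ρ x * Q') (z : LR D R) :
    C.dm E z = Q.map (algebraMap ℂ R) * C.dm F z * Q'.map (algebraMap ℂ R) := by
  have hd : ∀ y : G.Lie, E.d y = Q * F.d y * Q' := by
    intro y
    ext a b
    have h1 : E.co a b = ∑ c, ∑ c', (Q a c * Q' c' b) • F.co c c' := by
      apply AffGrp.O_ext
      intro x
      show E.ρ x a b = _
      rw [h, AffGrp.O_sum, Matrix.mul_apply]
      simp only [Matrix.mul_apply, AffGrp.O_sum, AffGrp.O_smul, Rep.co_apply, Finset.sum_mul]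
      rw [Finset.sum_comm]
      refine Finset.sum_congr rfl fun c _ => Finset.sum_congr rfl fun c' _ => ?_
      ring
    rw [Rep.d_apply, h1, map_sum]
    simp only [Matrix.mul_apply, map_sum, map_smul, smul_eq_mul, Finset.sum_mul]
    rw [Finset.sum_comm]
    refine Finset.sum_congr rfl fun c _ => Finset.sum_congr rfl fun c' _ => ?_
    rw [Rep.d_apply]
    ring
  unfold CD.dm
  rw [Matrix.mul_sum, Matrix.sum_mul]
  refine Finset.sum_congr rfl fun j _ => ?_
  rw [hd, Matrix.map_mul, Matrix.map_mul, Matrix.mul_smul, Matrix.smul_mul]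

/-- the eigenvectors of `s` for the weight `m`, in a weight basis -/
theorem yp3b_wt {G : AffGrp} {n : ℕ} {D : RD n} (C : CD G D) (E : MTF.Rep G)
    {w : E.ι → Fin n → ℤ} (hE : C.IsW E w) (m : Fin n → ℤ) (y : Fin n → KK n) (r : E.ι → KK n)
    (hr : (C.dm E C.sK).mulVec r = (aK (fm0 m) : KK n) • r) :
    (C.dm E (Adp C C.gK (CD.hx y))).mulVec r = ev m y • r := by
  have hconj : ∀ v : LR D (KK n), ∀ r0 : E.ι → KK n,
      (C.dm E (Adp C C.gK v)).mulVec ((E.pt C.gK).mulVec r0) =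
        (E.pt C.gK).mulVec ((C.dm E v).mulVec r0) := by
    intro v r0
    rw [Matrix.mulVec_mulVec, Matrix.mulVec_mulVec, pt_dm]
  have hinj : ∀ a b : E.ι → KK n, (E.pt C.gK).mulVec a = (E.pt C.gK).mulVec b → a = b := by
    intro a b hab
    have h1 := congrArg (E.pt C.gK⁻¹).mulVec hab
    rw [Matrix.mulVec_mulVec, Matrix.mulVec_mulVec, E.pt_inv_mul, Matrix.one_mulVec,
      Matrix.one_mulVec] at h1
    exact h1
  obtain ⟨r0, rfl⟩ : ∃ r0, r = (E.pt C.gK).mulVec r0 :=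
    ⟨(E.pt C.gK⁻¹).mulVec r, by rw [Matrix.mulVec_mulVec, E.pt_mul_inv, Matrix.one_mulVec]⟩
  rw [← C.gK_spec, hconj, ← Matrix.mulVec_smul] at hr
  have h1 := hinj _ _ hr
  rw [hconj, ← Matrix.mulVec_smul]
  congr 1
  rw [hE.dm_hx] at h1 ⊢
  funext a
  have h2 := congrFun h1 a
  rw [Matrix.mulVec_diagonal, Pi.smul_apply, smul_eq_mul] at h2 ⊢
  by_cases h0 : r0 a = 0
  · rw [h0, mul_zero, mul_zero]
  · have h3 := mul_right_cancel₀ h0 h2
    rw [yp3a_ev] at h3
    have h4 : (fm0 (w a) : AA n) = fm0 m := RD.aK_inj h3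
    have h5 : w a = m := by
      by_contra hne
      refine Pool.Agent.MTX.SLD.fm0_ne_zero (sub_ne_zero.2 hne) ?_
      rw [Pool.Agent.MTX.SLD.fm0_sub, h4, sub_self]
    rw [h5]

/-- sums of derivations -/
theorem yp3b_sum {n : ℕ} {κ : Type} (s : Finset κ) (δ : κ → Derivation ℂ (KK n) (KK n))
    (m : κ → ℤ) (x : KK n) :
    (∑ j ∈ s, m j • δ j : Derivation ℂ (KK n) (KK n)) x = ∑ j ∈ s, (m j : KK n) * δ j x := by
  classical
  induction s using Finset.induction_on with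
  | empty => rfl
  | insert a s ha ih =>
    rw [Finset.sum_insert ha, Finset.sum_insert ha, Derivation.add_apply, ih,
      Derivation.smul_apply, zsmul_eq_mul]

theorem yp3b_dA {G : AffGrp} {n : ℕ} {D : RD n} (C : CD G D) (j k : Fin n) :
    C.dA j (MvPolynomial.X k) = MvPolynomial.C ((C.kg⁻¹) j k) := by
  have hsum : ∀ (s : Finset (Fin n)) (x : AA n),
      (∑ k ∈ s, (C.kg⁻¹) j k • MvPolynomial.pderiv k : Derivation ℂ (AA n) (AA n)) x =
        ∑ k ∈ s, (C.kg⁻¹) j k • MvPolynomial.pderiv k x := by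
    classical
    intro s x
    induction s using Finset.induction_on with
    | empty => rfl
    | insert a s ha ih =>
      rw [Finset.sum_insert ha, Finset.sum_insert ha, Derivation.add_apply, ih,
        Derivation.smul_apply]
  unfold CD.dA
  rw [hsum, Finset.sum_eq_single k]
  · rw [MvPolynomial.pderiv_X_self, MvPolynomial.smul_eq_C_mul, mul_one]
  · intro i _ hi
    rw [MvPolynomial.pderiv_X_of_ne hi.symm, smul_zero]
  · intro h
    exact absurd (Finset.mem_univ _) h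

/-- the form on the Cartan subalgebra -/
theorem yp3b_kap {G : AffGrp} {n : ℕ} {D : RD n} (C : CD G D) {R : Type} [CommRing R]
    [Algebra ℂ R] (p y : Fin n → R) : C.kap (CD.hx p : LR D R) (CD.hx y) =
      ∑ k, ∑ l, algebraMap ℂ R (C.kg k l) * (p k * y l) := by
  unfold CD.kap
  rw [Fintype.sum_sum_type]
  have h1 : ∑ γ : D.Rt, ∑ j, algebraMap ℂ R (C.kJ (Sum.inr γ) j) *
      ((CD.hx p : LR D R) (Sum.inr γ) * (CD.hx y : LR D R) j) = 0 := by
    refine Finset.sum_eq_zero fun γ _ => Finset.sum_eq_zero fun j _ => ?_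
    show _ * ((0 : R) * _) = 0
    rw [zero_mul, mul_zero]
  rw [h1, add_zero]
  refine Finset.sum_congr rfl fun k _ => ?_
  rw [Fintype.sum_sum_type]
  have h2 : ∑ γ : D.Rt, algebraMap ℂ R (C.kJ (Sum.inl k) (Sum.inr γ)) *
      ((CD.hx p : LR D R) (Sum.inl k) * (CD.hx y : LR D R) (Sum.inr γ)) = 0 := by
    refine Finset.sum_eq_zero fun γ _ => ?_
    show _ * (_ * (0 : R)) = 0
    rw [mul_zero, mul_zero]
  rw [h2, add_zero]
  rfl

/-- the form of the derivative of `s` with the centraliser of `s` -/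
theorem yp3b_form {G : AffGrp} {n : ℕ} {D : RD n} (C : CD G D) (hG : G.Semi)
    (m : Fin n → ℤ) (y : Fin n → KK n) :
    C.kap (fun i => (∑ j, m j • C.ddK j : Derivation ℂ (KK n) (KK n)) (C.sK i))
      (Adp C C.gK (CD.hx y)) = ev m y := by
  set δ : Derivation ℂ (KK n) (KK n) := ∑ j, m j • C.ddK j with hδ
  obtain ⟨ζ, hζ⟩ := C.der_Adp δ C.gK
  have h1 := hζ (CD.hx fun k => aK (MvPolynomial.X k))
  rw [C.gK_spec] at h1
  rw [h1, C.kap_Adp, C.kap_add, C.kap_br, br_hx]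
  have h2 : (Sum.elim (fun _ => 0) fun γ : D.Rt => ev γ.1 (fun k => (aK (MvPolynomial.X k : AA n) : KK n)) *
      CD.hx y (Sum.inr γ) : LR D (KK n)) = 0 := by
    funext i
    rcases i with i | γ
    · rfl
    · exact mul_zero _
  rw [h2]
  have h3 : C.kap ζ (0 : LR D (KK n)) = 0 := by
    unfold CD.kap
    refine Finset.sum_eq_zero fun i _ => Finset.sum_eq_zero fun j _ => ?_
    show _ * (_ * (0 : KK n)) = 0
    rw [mul_zero, mul_zero]
  rw [h3, add_zero]
  have h4 : ((fun j => δ ((CD.hx fun k => aK (MvPolynomial.X k) : LR D (KK n)) j)) :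
      LR D (KK n)) = CD.hx fun k => ∑ j, (m j : KK n) * algebraMap ℂ (KK n) ((C.kg⁻¹) j k) := by
    funext i
    rcases i with k | γ
    · show δ (aK (MvPolynomial.X k)) = ∑ j, (m j : KK n) * algebraMap ℂ (KK n) ((C.kg⁻¹) j k)
      rw [hδ, yp3b_sum]
      refine Finset.sum_congr rfl fun j _ => ?_
      rw [C.ddK_aK, yp3b_dA]
      rfl
    · exact map_zero δ
  rw [h4, yp3b_kap]
  have h5 : ∀ j l, ∑ k, algebraMap ℂ (KK n) ((C.kg⁻¹) j k) * algebraMap ℂ (KK n) (C.kg k l) =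
      if j = l then 1 else 0 := by
    intro j l
    have h6 := congrFun (congrFun (Matrix.nonsing_inv_mul C.kg (C.det_kg hG)) j) l
    rw [Matrix.mul_apply, Matrix.one_apply] at h6
    have h7 := congrArg (algebraMap ℂ (KK n)) h6
    rw [map_sum] at h7
    simp only [map_mul] at h7
    rw [h7]
    split_ifs
    · exact map_one _
    · exact map_zero _
  have h8 : ∑ k, ∑ l, algebraMap ℂ (KK n) (C.kg k l) *
      ((∑ j, (m j : KK n) * algebraMap ℂ (KK n) ((C.kg⁻¹) j k)) * y l) =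
      ∑ j, ∑ l, ((m j : KK n) * y l) * ∑ k, algebraMap ℂ (KK n) ((C.kg⁻¹) j k) *
        algebraMap ℂ (KK n) (C.kg k l) := by
    simp only [Finset.sum_mul, Finset.mul_sum]
    rw [Finset.sum_comm' (t' := Finset.univ) (s' := fun _ => Finset.univ) (by simp)]
    rw [Finset.sum_congr rfl fun l _ => Finset.sum_comm]
    rw [Finset.sum_comm]
    refine Finset.sum_congr rfl fun j _ => Finset.sum_congr rfl fun l _ =>
      Finset.sum_congr rfl fun k _ => ?_
    ring
  rw [h8]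
  unfold ev
  refine Finset.sum_congr rfl fun j _ => ?_
  rw [Finset.sum_eq_single j]
  · rw [h5, if_pos rfl, mul_one]
  · intro l _ hl
    rw [h5, if_neg hl.symm, mul_zero]
  · intro h
    exact absurd (Finset.mem_univ _) h

/-- YP3b.  (GR).  First let `E` be in weight basis (`w`).  `z = Ad g (hx y)` (`ker_s`), `r = E.pt g r0` with `dm E (hx X) r0 = aK (fm0 m) • r0` (`pt_dm`), so `r0 a ≠ 0 → w a = m` (`dm_hx`, `fm0` injective, `aK` injective) and
`dm E (hx y) r0 = ev m y • r0`, hence `dm E z r = ev m y • r`.  General `E`: `exists_weight` gives `F`, `w`, `Q`, `Q'`, `E.d D = Q * F.d D * Q'`, apply it to `Q' r`.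
It remains `κ(∂_m s, z) = ev m y`: with `δ = ∑ m j • ddK j`, `ζ` from `der_Adp` for `g`: `∂_m s = Ad g (δ(hx X) + [ζ, hx X])`, and `κ(Ad g .., Ad g (hx y)) = κ(δ (hx X), hx y) + κ([ζ, hx X], hx y)`
(`kap_Adp`); the second term is `κ(ζ, [hx X, hx y]) = 0` (`kap_br`, `br_hx`); `δ X_k = ∑ j, m j (kg⁻¹)_jk` (`ddK_aK`, `dA`), so the first is `∑ kg k l (∑ m j kg⁻¹ j k) y l = ∑ m l y l`. -/
theorem CD.gr {G : AffGrp} {n : ℕ} {D : RD n} (C : CD G D) (hG : G.Semi) (E : MTF.Rep G)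
    (m : Fin n → ℤ) (z : LR D (KK n)) (r : E.ι → KK n) (hz : C.br C.sK z = 0)
    (hr : (C.dm E C.sK).mulVec r = (aK (fm0 m) : KK n) • r) :
    (C.dm E z).mulVec r =
      C.kap (fun i => (∑ j, m j • C.ddK j : Derivation ℂ (KK n) (KK n)) (C.sK i)) z • r := by
  obtain ⟨y, rfl⟩ := C.ker_s.1 hz
  rw [yp3b_form C hG]
  obtain ⟨F, w, Q, Q', hF, hQQ', hQ'Q, hρ⟩ := exists_weight C E
  have hρ' : ∀ x, E.ρ x = Q * F.ρ x * Q' := by
    intro x
    rw [← hρ x]
    calc E.ρ x = (Q * Q') * E.ρ x * (Q * Q') := by rw [hQQ', Matrix.one_mul, Matrix.mul_one]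
      _ = Q * (Q' * E.ρ x * Q) * Q' := by simp only [Matrix.mul_assoc]
  have hQ1 : Q'.map (algebraMap ℂ (KK n)) * Q.map (algebraMap ℂ (KK n)) = 1 := by
    rw [← Matrix.map_mul, hQ'Q, Matrix.map_one _ (map_zero _) (map_one _)]
  have hQ2 : Q.map (algebraMap ℂ (KK n)) * Q'.map (algebraMap ℂ (KK n)) = 1 := by
    rw [← Matrix.map_mul, hQQ', Matrix.map_one _ (map_zero _) (map_one _)]
  have h1 := congrArg (Q'.map (algebraMap ℂ (KK n))).mulVec hr
  rw [yp3b_conj C Q Q' hρ' C.sK, Matrix.mulVec_mulVec, ← Matrix.mul_assoc, ← Matrix.mul_assoc, hQ1,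
    Matrix.one_mul, ← Matrix.mulVec_mulVec, Matrix.mulVec_smul] at h1
  have h2 := yp3b_wt C F hF m y _ h1
  rw [yp3b_conj C Q Q' hρ', ← Matrix.mulVec_mulVec, ← Matrix.mulVec_mulVec, h2,
    Matrix.mulVec_smul, Matrix.mulVec_mulVec, hQ2, Matrix.one_mulVec]

end Pool.Agent.MTG
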