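import Pool.Agent.MTG.YF2
import Pool.Agent.MTG.YP3b

/-! # MTG-YF : the data of part P for a Cartan datum -/

namespace Pool.Agent.MTG

open Pool.Agent.MTF Matrix
open Pool.Agent.MTD (ev)
open Pool.Agent.MTX.SLD (AA fm0)
open Pool.Agent.MTH
open RD (KK aK)

/-- YF3b.  `gr` from `CD.gr` with the transfer lemmas of YF2 (`(C.PDd rho).dXs m i = (∑ j, m j • C.ddK j) (aK (cA i))`; `cd j m = m j` for `Pi.basisFun`). -/
theorem CD.pq_gr {G : AffGrp} {n : ℕ} {D : RD n} (C : CD G D) (hG : G.Semi)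
    (rho : Matrix (Fin (Fintype.card (Fin n ⊕ D.Rt))) (Fin (Fintype.card (Fin n ⊕ D.Rt))) (KK n))
    (E : MTF.Rep G) (m : Fin n → ℤ) (z : Fin C.TQd.r → KK n) (r : E.ι → KK n)
    (hz : C.TQd.brK (R := KK n) C.TQd.c z = 0)
    (hr : (C.TQd.sE E).mulVec r = C.TQd.val m • r) :
    (C.TQd.zE E z).mulVec r = C.TQd.kapK ((C.PDd rho).dXs m) z • r := by
  have hz' : C.br C.sK (CD.toJ (D := D) z) = 0 := by
    have h1 := C.brK_J C.TQd.c z
    rw [hz, C.c_J] at h1
    exact h1.symm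
  have hr' : (C.dm E C.sK).mulVec r = (aK (fm0 m) : KK n) • r := by
    rw [← C.sE_J E]
    exact hr
  have h2 := C.gr hG E m (CD.toJ (D := D) z) r hz' hr'
  have h3 : C.TQd.kapK ((C.PDd rho).dXs m) z =
      C.kap (fun i => (∑ j, m j • C.ddK j : Derivation ℂ (KK n) (KK n)) (C.sK i)) (CD.toJ (D := D) z) := by
    refine (C.kapK_J ((C.PDd rho).dXs m) z).trans ?_
    congr 1
    funext i
    have h4 : (C.PDd rho).dX m = (∑ j, m j • C.ddK j : Derivation ℂ (KK n) (KK n)) := by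
      show ∑ j, (C.PDd rho).cd j m • C.ddK j = _
      refine Finset.sum_congr rfl fun j _ => ?_
      have h5 : (C.PDd rho).cd j m = m j := by
        show (Pi.basisFun ℤ (Fin n)).repr m j = m j
        rw [Pi.basisFun_repr]
      rw [h5]
    show (C.PDd rho).dX m (aK (C.sx ((CD.eqJ D).symm (CD.eqJ D i)))) = _
    rw [h4, Equiv.symm_apply_apply]
    rfl
  rw [h3, ← h2]
  exact congrArg (fun M : Matrix E.ι E.ι (KK n) => M.mulVec r) (C.zE_J E z)

end Pool.Agent.MTG
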