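import Pool.Agent.MTG.YP4a

/-! # MTG-YP : the data for the Poisson structure -/

namespace Pool.Agent.MTG

open Pool.Agent.MTF Matrix
open Pool.Agent.MTD (ev)
open Pool.Agent.MTX.SLD (AA fm0)
open Pool.Agent.MTH
open RD (KK aK)
open Pool.Agent.MP_c45d35_ag (chi)

theorem yp4b_br_add {G : AffGrp} {n : ℕ} {D : RD n} (C : CD G D) {R : Type} [CommRing R]
    [Algebra ℂ R] (x y z : LR D R) : C.br (x + y) z = C.br x z + C.br y z := by
  rw [br_neg C z (x + y), br_neg C z x, br_neg C z y, ys4a_br_add, neg_add]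

/-- The induction: `z` with all heights `≤ M - m` (here `Sp (-1) (m - M)`). -/
theorem yp4b_ind {G : AffGrp} {n : ℕ} {D : RD n} (C : CD G D) {R : Type} [CommRing R]
    [Algebra ℂ R] {z0 : LR D R} (hz0 : C.br (CD.ff D R) z0 = 0) (M : ℤ)
    (hM : ∀ z : LR D R, Sp (-1) M z → z = 0) : ∀ m : ℕ, ∀ z : LR D R, Sp (-1) (M - m) z →
    ∃ u v : LR D R, C.br (CD.ff D R) u = 0 ∧
      z = u + C.br (CD.ee D R + z0) (C.br (CD.ff D R) v) := by
  intro m
  induction m with
  | zero =>
    intro z hz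
    rw [Nat.cast_zero, sub_zero] at hz
    have h0 := hM z hz
    have h1 : C.br (CD.ff D R) (0 : LR D R) = 0 := by
      rw [← yp4a_ff]
      exact Matrix.mulVec_zero _
    have h2 : C.br (CD.ee D R + z0) (0 : LR D R) = 0 := by
      rw [← dm_AdR]
      exact Matrix.mulVec_zero _
    exact ⟨0, 0, h1, by rw [h0, h1, h2, add_zero]⟩
  | succ m ih =>
    intro z hz
    obtain ⟨k, hk⟩ : ∃ k : ℤ, k = -(M - ((m + 1 : ℕ) : ℤ)) := ⟨_, rfl⟩
    obtain ⟨zm, hzm⟩ : ∃ zm : LR D R, zm = fun j => if D.ht2 (wA (D := D) j) = k then z j else 0 :=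
      ⟨_, rfl⟩
    obtain ⟨u, v, hu, hv, huv⟩ := C.slice_e k zm (fun j hj => by
      by_contra h
      rw [hzm] at hj
      exact hj (if_neg h))
    -- the remaining part
    have hvS : Sp (-1) (-k) v := ys4a_Sp.2 fun a ha => by
      have := hv a ha
      linarith
    have h1 : Sp (-1) (2 + -k) (C.br (CD.ff D R) v) := Sp_br C (ys4a_Spff D R) hvS
    have h2 : Sp (-1) (0 + (2 + -k)) (C.br z0 (C.br (CD.ff D R) v)) :=
      Sp_br C (C.ker_f_Sp hz0) h1
    have h3 : Sp (-1) (M - (m : ℤ)) (z - zm) := ys4a_Sp.2 fun a ha => by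
      have h4 : z a - zm a ≠ 0 := ha
      have h5 : D.ht2 (wA (D := D) a) ≠ k := by
        intro h6
        apply h4
        rw [hzm]
        show z a - (if D.ht2 (wA (D := D) a) = k then z a else 0) = 0
        rw [if_pos h6, sub_self]
      have h6 : zm a = 0 := by
        rw [hzm]
        exact if_neg h5
      rw [h6, sub_zero] at h4
      have h7 := ys4a_Sp.1 hz a h4
      have h8 : D.ht2 (wA (D := D) a) < k := lt_of_le_of_ne (by linarith) h5
      push_cast at hk
      omega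
    have h4 : Sp (-1) (M - (m : ℤ)) ((z - zm) + -(C.br z0 (C.br (CD.ff D R) v))) :=
      Sp_add h3 (Sp_neg (Sp_mono (by push_cast at hk; omega) h2))
    obtain ⟨u', v', hu', huv'⟩ := ih _ h4
    refine ⟨u + u', v + v', ?_, ?_⟩
    · rw [ys4a_br_add, hu, hu', add_zero]
    · have h5 : z = zm + C.br z0 (C.br (CD.ff D R) v) +
          ((z - zm) + -(C.br z0 (C.br (CD.ff D R) v))) := by abel
      rw [h5, huv', ys4a_br_add C (CD.ff D R) v v', ys4a_br_add,
        yp4b_br_add C (CD.ee D R) z0 (C.br (CD.ff D R) v)]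
      conv_lhs => rw [huv]
      abel

/-- YP4b.  Transversality of the slice.  By downward induction on `m` every `z` with all heights `≤ m` is of the form `u + [ee + z0, [f, v]]` : take the component of height `m` of `z`, `slice_e` gives `u`, `v` (height `m`), and
`[ee + z0, [f, v]] = [ee, [f, v]] + [z0, [f, v]]`, where `z0` has heights `≤ 0` (`ker_f_Sp`) and `[f, v]` has height `m - 2`, so the error has heights `< m` (`Sp_br`-type statement for `Sp (-1)`).  It starts below all heights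
(`exists_Sp_zero`), and ends at a bound for all heights. -/
theorem CD.slice_sl {G : AffGrp} {n : ℕ} {D : RD n} (C : CD G D) {R : Type} [CommRing R]
    [Algebra ℂ R] {z0 : LR D R} (hz0 : C.br (CD.ff D R) z0 = 0) (z : LR D R) :
    ∃ u v : LR D R, C.br (CD.ff D R) u = 0 ∧
      z = u + C.br (CD.ee D R + z0) (C.br (CD.ff D R) v) := by
  obtain ⟨M, hM⟩ := exists_Sp_zero D
  obtain ⟨B, hB⟩ : ∃ B : ℤ, ∀ a, D.ht2 (wA (D := D) a) ≤ B := by
    refine ⟨∑ c, |D.ht2 (wA (D := D) c)|, fun a => ?_⟩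
    exact (le_abs_self _).trans (Finset.single_le_sum (f := fun c => |D.ht2 (wA (D := D) c)|)
      (fun i _ => abs_nonneg _) (Finset.mem_univ a))
  refine yp4b_ind C hz0 M (fun z hz => hM R (-1) (Or.inr rfl) z hz) (M + B).toNat z ?_
  refine ys4a_Sp.2 fun a _ => ?_
  have h1 := hB a
  have h2 : M + B ≤ ((M + B).toNat : ℤ) := Int.self_le_toNat _
  linarith

end Pool.Agent.MTG
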