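import Pool.Agent.MTG.YP3

/-! # MTG-YP : the data for the Poisson structure -/

namespace Pool.Agent.MTG

open Pool.Agent.MTF Matrix
open Pool.Agent.MTD (ev)
open Pool.Agent.MTX.SLD (AA fm0)
open Pool.Agent.MTH
open RD (KK aK)
open Pool.Agent.MP_c45d35_ag (chi)

/-- the value of a weight at the generic point -/
theorem yp3a_ev {n : ℕ} (x : Fin n → ℤ) :
    ev x (fun k => (aK (MvPolynomial.X k : AA n) : KK n)) = aK (fm0 x) := by
  unfold ev fm0 Pool.Agent.MTX.lin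
  rw [map_sum]
  refine Finset.sum_congr rfl fun k _ => ?_
  rw [map_mul, map_intCast, map_intCast]

theorem yp3a_Adp_zero {G : AffGrp} {n : ℕ} {D : RD n} (C : CD G D) {R : Type} [CommRing R]
    [Algebra ℂ R] (φ : G.Pt R) : Adp C φ (0 : LR D R) = 0 := Matrix.mulVec_zero _

theorem yp3a_inv {G : AffGrp} {n : ℕ} {D : RD n} (C : CD G D) {R : Type} [CommRing R]
    [Algebra ℂ R] (φ : G.Pt R) (z : LR D R) : Adp C φ (Adp C φ⁻¹ z) = z := by
  rw [← Adp_mul, mul_inv_cancel, Adp_one]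

theorem yp3a_inv' {G : AffGrp} {n : ℕ} {D : RD n} (C : CD G D) {R : Type} [CommRing R]
    [Algebra ℂ R] (φ : G.Pt R) (z : LR D R) : Adp C φ⁻¹ (Adp C φ z) = z := by
  rw [← Adp_mul, inv_mul_cancel, Adp_one]

/-- the bracket with `s` -/
theorem yp3a_br {G : AffGrp} {n : ℕ} {D : RD n} (C : CD G D) (v : LR D (KK n)) :
    C.br C.sK (Adp C C.gK v) =
      Adp C C.gK (Sum.elim (fun _ => 0) fun γ => aK (fm0 γ.1) * v (Sum.inr γ)) := by
  rw [← C.gK_spec, ← Adp_br, br_hx]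
  congr 1
  funext i
  rcases i with i | γ
  · rfl
  · show ev γ.1 (fun k => (aK (MvPolynomial.X k : AA n) : KK n)) * v (Sum.inr γ) = _
    rw [yp3a_ev]
    rfl

/-- YP3a.  The centraliser of `s` over `K`: `Ad g⁻¹ z` commutes with `hx X` (`Adp_br`, `gK_spec`), so its root components vanish (`br_hx`, `ev γ X = aK (fm0 γ) ≠ 0`). -/
theorem CD.ker_s {G : AffGrp} {n : ℕ} {D : RD n} (C : CD G D) {z : LR D (KK n)} :
    C.br C.sK z = 0 ↔ ∃ y : Fin n → KK n, z = Adp C C.gK (CD.hx y) := by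
  constructor
  · intro h
    have h1 : z = Adp C C.gK (Adp C C.gK⁻¹ z) := (yp3a_inv C C.gK z).symm
    have h2 := h
    rw [h1, yp3a_br] at h2
    have h3 := congrArg (Adp C C.gK⁻¹) h2
    rw [yp3a_inv', yp3a_Adp_zero] at h3
    refine ⟨fun k => Adp C C.gK⁻¹ z (Sum.inl k), ?_⟩
    refine h1.trans (congrArg (Adp C C.gK) ?_)
    funext i
    rcases i with i | γ
    · rfl
    · have h4 : aK (fm0 γ.1) * Adp C C.gK⁻¹ z (Sum.inr γ) = 0 := congrFun h3 (Sum.inr γ)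
      have h5 : (aK (fm0 γ.1) : KK n) ≠ 0 :=
        RD.aK_ne_zero (Pool.Agent.MTX.SLD.fm0_ne_zero (D.Rt_ne γ))
      exact (mul_eq_zero.1 h4).resolve_left h5
  · rintro ⟨y, rfl⟩
    rw [yp3a_br]
    have h1 : (Sum.elim (fun _ => 0) fun γ => aK (fm0 γ.1) * CD.hx y (Sum.inr γ) :
        LR D (KK n)) = 0 := by
      funext i
      rcases i with i | γ
      · rfl
      · exact mul_zero _
    rw [h1, yp3a_Adp_zero]

end Pool.Agent.MTG
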