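import Pool.Agent.MTG.YP4a

/-! # MTG-YP : the data for the Poisson structure -/

namespace Pool.Agent.MTG

open Pool.Agent.MTF Matrix
open Pool.Agent.MTD (ev)
open Pool.Agent.MTX.SLD (AA fm0)
open Pool.Agent.MTH
open RD (KK aK)
open Pool.Agent.MP_c45d35_ag (chi)

/-- the dimension of the kernel of `f` -/
theorem yp4c_gen {I : Type} [Fintype I] [DecidableEq I] {h : I → ℤ} {e f : Matrix I I ℂ}
    (H : Gd.Sl2 h e f) (hpar : ∀ a, h a ≠ 1) (K : Type) [Field K] [Algebra ℂ K]
    (S : Submodule K (I → K)) (hS : ∀ z, z ∈ S ↔ (f.map (algebraMap ℂ K)).mulVec z = 0)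
    (hk : ∀ z ∈ S, ∀ a, z a ≠ 0 → h a ≤ 0) :
    Module.finrank K S = Fintype.card {a // h a = 0} := by
  classical
  obtain ⟨r, hr, -, hr1, -⟩ := Gd.exists_section (YS3c_swap H)
  have hsupp : ∀ (A : Matrix I I ℂ) (z : I → K) (a : I), (A.map (algebraMap ℂ K)).mulVec z a ≠ 0 →
      ∃ c, A a c ≠ 0 ∧ z c ≠ 0 := by
    intro A z a ha
    by_contra hcon
    push Not at hcon
    apply ha
    show ∑ c, algebraMap ℂ K (A a c) * z c = 0
    refine Finset.sum_eq_zero fun c _ => ?_
    by_cases hc : A a c = 0
    · rw [hc, map_zero, zero_mul]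
    · rw [hcon c hc, mul_zero]
  let ext0 : ({a // h a ≤ 0} → K) →ₗ[K] (I → K) :=
    { toFun := fun v a => if ha : h a ≤ 0 then v ⟨a, ha⟩ else 0
      map_add' := fun v w => by
        funext a
        show (if ha : h a ≤ 0 then (v + w) ⟨a, ha⟩ else 0) =
          (if ha : h a ≤ 0 then v ⟨a, ha⟩ else 0) + (if ha : h a ≤ 0 then w ⟨a, ha⟩ else 0)
        split_ifs
        · rfl
        · rw [add_zero]
      map_smul' := fun c v => by
        funext a
        show (if ha : h a ≤ 0 then (c • v) ⟨a, ha⟩ else 0) =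
          c • (if ha : h a ≤ 0 then v ⟨a, ha⟩ else 0)
        split_ifs
        · rfl
        · rw [smul_zero] }
  have hext : ∀ (v : {a // h a ≤ 0} → K) (a : I), ext0 v a =
      if ha : h a ≤ 0 then v ⟨a, ha⟩ else 0 := fun _ _ => rfl
  let Φ : ({a // h a ≤ 0} → K) →ₗ[K] ({a // h a < 0} → K) :=
    (LinearMap.funLeft K K (Subtype.val : {a // h a < 0} → I)) ∘ₗ
      (Matrix.mulVecLin (f.map (algebraMap ℂ K))) ∘ₗ ext0
  have hΦ : ∀ v a, Φ v a = (f.map (algebraMap ℂ K)).mulVec (ext0 v) a.1 := fun _ _ => rfl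
  have hsurj : Function.Surjective Φ := by
    intro w
    obtain ⟨X, hX⟩ : ∃ X : I → K, X = fun a => if ha : h a < 0 then w ⟨a, ha⟩ else 0 := ⟨_, rfl⟩
    have hX0 : ∀ a, X a ≠ 0 → h a < 0 := by
      intro a ha
      by_contra hn
      apply ha
      rw [hX]
      exact dif_neg hn
    refine ⟨fun a => (r.map (algebraMap ℂ K)).mulVec X a.1, ?_⟩
    have h1 : ext0 (fun a => (r.map (algebraMap ℂ K)).mulVec X a.1) =
        (r.map (algebraMap ℂ K)).mulVec X := by
      funext a
      rw [hext]
      split_ifs with ha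
      · rfl
      · by_contra hne
        obtain ⟨c, hc1, hc2⟩ := hsupp _ _ _ (Ne.symm hne)
        have h2 : - h a = - h c + -2 := hr a c hc1
        have h3 := hX0 c hc2
        have h4 := hpar a
        omega
    have h2 : (f.map (algebraMap ℂ K)).mulVec ((r.map (algebraMap ℂ K)).mulVec X) = X := by
      rw [Matrix.mulVec_mulVec, ← Matrix.map_mul]
      funext a
      show ∑ c, algebraMap ℂ K ((f * r) a c) * X c = X a
      rw [Finset.sum_eq_single a]
      · by_cases h3 : X a = 0
        · rw [h3, mul_zero]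
        · have h4 : (1 - f * r) a a = 0 := hr1 a a (by
            have := hX0 a h3
            show 0 < - h a
            omega)
          rw [Matrix.sub_apply, Matrix.one_apply_eq, sub_eq_zero] at h4
          rw [← h4, map_one, one_mul]
      · intro c _ hc
        by_cases h3 : X c = 0
        · rw [h3, mul_zero]
        · have h4 : (1 - f * r) a c = 0 := hr1 a c (by
            have := hX0 c h3
            show 0 < - h c
            omega)
          rw [Matrix.sub_apply, Matrix.one_apply_ne (Ne.symm hc), sub_eq_zero] at h4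
          rw [← h4, map_zero, zero_mul]
      · intro h0
        exact absurd (Finset.mem_univ _) h0
    funext a
    rw [hΦ, h1, h2, hX]
    exact dif_pos a.2
  have hker : ∀ v, v ∈ LinearMap.ker Φ → ext0 v ∈ S := by
    intro v hv
    rw [hS]
    funext a
    by_contra hne
    have hne' : (f.map (algebraMap ℂ K)).mulVec (ext0 v) a ≠ 0 := hne
    obtain ⟨c, hc1, hc2⟩ := hsupp _ _ _ hne'
    have h2 := H.f_HM a c hc1
    have h3 : h c ≤ 0 := by
      by_contra hn
      apply hc2
      rw [hext, dif_neg hn]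
    have h4 : h a < 0 := by omega
    have h5 := congrFun (LinearMap.mem_ker.1 hv) ⟨a, h4⟩
    rw [hΦ] at h5
    exact hne' h5
  have hres : ∀ z ∈ S, ext0 (fun a => z a.1) = z := by
    intro z hz
    funext a
    rw [hext]
    split_ifs with ha
    · rfl
    · by_contra hne
      exact ha (hk z hz a (Ne.symm hne))
  let E : S ≃ₗ[K] LinearMap.ker Φ :=
    { toFun := fun z => ⟨fun a => z.1 a.1, by
        rw [LinearMap.mem_ker]
        funext a
        rw [hΦ, hres z.1 z.2, (hS z.1).1 z.2]
        rfl⟩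
      invFun := fun v => ⟨ext0 v.1, hker v.1 v.2⟩
      map_add' := fun _ _ => rfl
      map_smul' := fun _ _ => rfl
      left_inv := fun z => Subtype.ext (hres z.1 z.2)
      right_inv := fun v => Subtype.ext (by
        funext a
        show ext0 v.1 a.1 = v.1 a
        rw [hext, dif_pos a.2]) }
  rw [LinearEquiv.finrank_eq E]
  have h1 := LinearMap.finrank_range_add_finrank_ker Φ
  rw [LinearMap.range_eq_top.2 hsurj, finrank_top, Module.finrank_fintype_fun_eq_card,
    Module.finrank_fintype_fun_eq_card] at h1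
  have h2 : Fintype.card {a // h a ≤ 0} = Fintype.card {a // h a < 0} +
      Fintype.card {a // h a = 0} := by
    rw [Fintype.card_subtype, Fintype.card_subtype, Fintype.card_subtype,
      ← Finset.card_union_of_disjoint]
    · congr 1
      ext a
      simp only [Finset.mem_filter, Finset.mem_univ, true_and, Finset.mem_union]
      exact le_iff_lt_or_eq
    · rw [Finset.disjoint_left]
      intro a ha ha'
      rw [Finset.mem_filter] at ha ha'
      omega
  omega

/-- YP4c.  `dim ker ad f = n` over every field `K` (a `ℂ`-algebra): `ad f` maps the vectors of heights `≤ 0` onto those of heights `< 0`: a vector of height `k < 0` is `u + [e, [f, v]]`.. use instead `exists_section` with `e`, `f` exchanged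
(heights negated): `f r' X = X` for `X` of height `< 0` (in the negated grading: `> 0`), `r'` raises the height by `2`.  Its kernel is `ker ad f` (`ker_f_Sp`).  The spaces have dimensions `n + #{γ | ht2 γ < 0}` and `#{γ | ht2 γ < 0}`
(roots have `ht2 ≠ 0`). -/
theorem CD.finrank_ker_f {G : AffGrp} {n : ℕ} {D : RD n} (C : CD G D) (K : Type) [Field K]
    [Algebra ℂ K] (S : Submodule K (LR D K)) (hS : ∀ z, z ∈ S ↔ C.br (CD.ff D K) z = 0) :
    Module.finrank K S = n := by
  classical
  have hf : ∀ z : LR D K, ((C.dm (AdR C) (CD.ff D ℂ)).map (algebraMap ℂ K)).mulVec z =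
      C.br (CD.ff D K) z := by
    intro z
    rw [ys4a_ff]
    exact dm_AdR C _ _
  have H := C.sl2 (isW_AdR C)
  have h0 : D.ht2 0 = 0 := by
    have h1 := D.ht2_smul 0 0
    rw [zero_smul, zero_mul] at h1
    exact h1
  have hng : ∀ γ : D.Rt, D.ht2 (D.ng γ).1 = - D.ht2 γ.1 := by
    intro γ
    have h2 := D.ht2_smul (-1) γ.1
    have h3 : ((-1 : ℤ) • γ.1 : Fin n → ℤ) = (D.ng γ).1 := by
      rw [neg_one_smul]; rfl
    rw [h3] at h2
    rw [h2]
    ring
  have hrt : ∀ γ : D.Rt, D.ht2 γ.1 ≠ 0 ∧ D.ht2 γ.1 ≠ 1 := by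
    intro γ
    rcases D.pos_or_neg γ with hp | hp
    · obtain ⟨h1, h2⟩ := D.ht2_pos hp
      constructor <;> omega
    · obtain ⟨h1, h2⟩ := D.ht2_pos hp
      rw [hng] at h1 h2
      constructor <;> omega
  have key := yp4c_gen H (fun a => by
    rcases a with k | γ
    · show D.ht2 0 ≠ 1
      rw [h0]
      norm_num
    · exact (hrt γ).2) K S (fun z => (hS z).trans (Eq.congr_left (hf z).symm)) (fun z hz a ha => by
      have h1 := ys4a_Sp.1 (C.ker_f_Sp ((hS z).1 hz)) a ha
      have h2 : (0 : ℤ) ≤ -1 * D.ht2 (wA (D := D) a) := h1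
      show D.ht2 (wA (D := D) a) ≤ 0
      omega)
  refine key.trans ?_
  have h5 : Fintype.card (Fin n) = n := Fintype.card_fin n
  refine Eq.trans ?_ h5
  refine Fintype.card_congr ?_
  exact
    { toFun := fun a => match a with
        | ⟨Sum.inl k, _⟩ => k
        | ⟨Sum.inr γ, hγ⟩ => absurd hγ (hrt γ).1
      invFun := fun k => ⟨Sum.inl k, h0⟩
      left_inv := fun a => by
        rcases a with ⟨k | γ, ha⟩
        · rfl
        · exact absurd ha (hrt γ).1
      right_inv := fun k => rfl }

end Pool.Agent.MTG
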