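import Pool.Agent.MTG.YP4b
import Pool.Agent.MTG.YP4c
import Pool.Agent.MTG.YP3a

/-! # MTG-YP : the data for the Poisson structure -/

namespace Pool.Agent.MTG

open Pool.Agent.MTF Matrix
open Pool.Agent.MTD (ev)
open Pool.Agent.MTX.SLD (AA fm0)
open Pool.Agent.MTH
open RD (KK aK)
open Pool.Agent.MP_c45d35_ag (chi)

theorem yp4d_br_smul {G : AffGrp} {n : ℕ} {D : RD n} (C : CD G D) {R : Type} [CommRing R]
    [Algebra ℂ R] (z x : LR D R) (r : R) : C.br z (r • x) = r • C.br z x := by
  rw [← dm_AdR, ← dm_AdR]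
  exact Matrix.mulVec_smul _ _ _

theorem yp4d_br_add {G : AffGrp} {n : ℕ} {D : RD n} (C : CD G D) {R : Type} [CommRing R]
    [Algebra ℂ R] (z x y : LR D R) : C.br z (x + y) = C.br z x + C.br z y := by
  rw [← dm_AdR, ← dm_AdR, ← dm_AdR]
  exact Matrix.mulVec_add _ _ _

/-- `ad z` as a linear map -/
noncomputable def yp4d_L {G : AffGrp} {n : ℕ} {D : RD n} (C : CD G D) {R : Type} [CommRing R]
    [Algebra ℂ R] (z : LR D R) : LR D R →ₗ[R] LR D R where
  toFun := C.br z
  map_add' := yp4d_br_add C z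
  map_smul' r x := yp4d_br_smul C z x r

/-- `y ↦ Ad g (hx y)` as a linear map -/
noncomputable def yp4d_H {G : AffGrp} {n : ℕ} {D : RD n} (C : CD G D) {R : Type} [CommRing R]
    [Algebra ℂ R] (φ : G.Pt R) : (Fin n → R) →ₗ[R] LR D R where
  toFun y := Adp C φ (CD.hx y)
  map_add' y y' := by
    rw [← Adp_add]
    congr 1
    funext j
    cases j with
    | inl k => rfl
    | inr γ => exact (add_zero _).symm
  map_smul' r y := by
    rw [RingHom.id_apply, ← Adp_smul]
    congr 1
    funext j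
    cases j with
    | inl k => rfl
    | inr γ => exact (mul_zero _).symm

theorem yp4d_H_inj {G : AffGrp} {n : ℕ} {D : RD n} (C : CD G D) {R : Type} [CommRing R]
    [Algebra ℂ R] (φ : G.Pt R) : Function.Injective (yp4d_H C φ) := by
  intro y y' h
  have h1 : Adp C φ⁻¹ (Adp C φ (CD.hx y)) = Adp C φ⁻¹ (Adp C φ (CD.hx y')) :=
    congrArg (Adp C φ⁻¹) h
  rw [← Adp_mul, ← Adp_mul, inv_mul_cancel, Adp_one, Adp_one] at h1
  funext k
  exact congrFun h1 (Sum.inl k)

theorem yp4d_sK {G : AffGrp} {n : ℕ} {D : RD n} (C : CD G D) :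
    C.sK = CD.ee D (KK n) + C.szR fun k => aK (MvPolynomial.X k) := by
  rw [← C.sxR_eq]
  funext j
  have h1 : (MvPolynomial.aeval fun k => aK (MvPolynomial.X k) : AA n →ₐ[ℂ] KK n) =
      IsScalarTower.toAlgHom ℂ (AA n) (KK n) := by
    apply MvPolynomial.algHom_ext
    intro k
    rw [MvPolynomial.aeval_X]
    rfl
  show aK (C.sx j) = (MvPolynomial.aeval fun k => aK (MvPolynomial.X k) : AA n →ₐ[ℂ] KK n) (C.sx j)
  rw [h1]
  rfl

/-- YP4d.  Directness.  `T : ker f × im f → g_K`, `(u, w) ↦ u + [s, w]` is surjective (`slice_sl` over `K` with `z0 = aK ∘ sz`, `sx = ee + sz`, `sz_br`) and `dim ker f + dim im f = dim g_K`, so `T` is injective; `dim im f = N - n`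
(`finrank_ker_f`), so `dim [s, im f] = N - n`; `dim im(ad s) = N - dim ker(ad s) = N - n` (`ker_s`: `ker (ad s) ≃ K^n`).  So `im(ad s) = [s, im f]`: `u = [s, v] = [s, w]` with `w ∈ im f`, and injectivity of `T` gives `u = 0`. -/
theorem CD.slice_dir {G : AffGrp} {n : ℕ} {D : RD n} (C : CD G D) {u v : LR D (KK n)}
    (hu : C.br (CD.ff D (KK n)) u = 0) (h : u = C.br C.sK v) : u = 0 := by
  classical
  set F := yp4d_L C (CD.ff D (KK n)) with hF
  set S := yp4d_L C C.sK with hS
  have hkF : Module.finrank (KK n) (LinearMap.ker F) = n :=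
    C.finrank_ker_f (KK n) _ (fun z => LinearMap.mem_ker)
  have hrF := LinearMap.finrank_range_add_finrank_ker F
  have hrS := LinearMap.finrank_range_add_finrank_ker S
  let T : (LinearMap.ker F × LinearMap.range F) →ₗ[KK n] LR D (KK n) :=
    (LinearMap.ker F).subtype.coprod (S.comp (LinearMap.range F).subtype)
  have hTa : ∀ p, T p = (p.1 : LR D (KK n)) + S p.2 := fun p => rfl
  have hT : Function.Surjective T := by
    intro z
    obtain ⟨u', v', hu', hz⟩ := C.slice_sl (C.szR_br fun k => aK (MvPolynomial.X k)) z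
    refine ⟨(⟨u', LinearMap.mem_ker.2 hu'⟩, ⟨F v', ⟨v', rfl⟩⟩), ?_⟩
    rw [hTa]
    rw [← yp4d_sK] at hz
    exact hz.symm
  have hdim : Module.finrank (KK n) (LinearMap.ker F × LinearMap.range F) =
      Module.finrank (KK n) (LR D (KK n)) := by
    rw [Module.finrank_prod]
    omega
  have hTi : Function.Injective T :=
    (LinearMap.injective_iff_surjective_of_finrank_eq_finrank hdim).2 hT
  have hkS : n ≤ Module.finrank (KK n) (LinearMap.ker S) := by
    have h1 : LinearMap.range (yp4d_H C C.gK) ≤ LinearMap.ker S := by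
      rintro _ ⟨y, rfl⟩
      exact LinearMap.mem_ker.2 (C.ker_s.2 ⟨y, rfl⟩)
    have h2 := LinearMap.finrank_range_of_inj (yp4d_H_inj C C.gK)
    have h3 := Submodule.finrank_mono h1
    rw [h2, Module.finrank_fin_fun] at h3
    exact h3
  have hinj : Function.Injective (S.comp (LinearMap.range F).subtype) := by
    intro w w' hw
    have h1 : T (0, w) = T (0, w') := by
      rw [hTa, hTa]
      show (0 : LR D (KK n)) + S w = 0 + S w'
      exact congrArg (fun x => (0 : LR D (KK n)) + x) hw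
    exact (Prod.ext_iff.1 (hTi h1)).2
  have hmap : LinearMap.range (S.comp (LinearMap.range F).subtype) = LinearMap.range S := by
    apply Submodule.eq_of_le_of_finrank_le
    · rintro _ ⟨w, rfl⟩
      exact ⟨w, rfl⟩
    · rw [LinearMap.finrank_range_of_inj hinj]
      omega
  have hv : C.br C.sK v ∈ LinearMap.range (S.comp (LinearMap.range F).subtype) := by
    rw [hmap]
    exact ⟨v, rfl⟩
  obtain ⟨w, hw⟩ := hv
  have h1 : T (⟨u, LinearMap.mem_ker.2 hu⟩, -w) = T 0 := by
    rw [hTa, map_zero]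
    show u + S (-(w : LR D (KK n))) = 0
    rw [map_neg, h]
    have hw' : S (w : LR D (KK n)) = C.br C.sK v := hw
    rw [hw', add_neg_cancel]
  have h2 := congrArg Subtype.val (Prod.ext_iff.1 (hTi h1)).1
  exact h2

end Pool.Agent.MTG
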