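import Pool.Agent.MTG.YF2
import Pool.Agent.MTG.YP4b
import Pool.Agent.MTG.YP4d
import Pool.Agent.MTG.YT0a

/-! # MTG-YF : the data of part P for a Cartan datum -/

namespace Pool.Agent.MTG

open Pool.Agent.MTF Matrix
open Pool.Agent.MTD (ev)
open Pool.Agent.MTX.SLD (AA fm0)
open Pool.Agent.MTH
open RD (KK aK)

theorem yf3c_inj {n : ℕ} {D : RD n} {R : Type}
    {z z' : Fin (Fintype.card (Fin n ⊕ D.Rt)) → R} (h : CD.toJ (D := D) z = CD.toJ (D := D) z') :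
    z = z' := by
  funext a
  rw [← CD.toJ_symm z a, ← CD.toJ_symm z' a, h]

open Classical in
theorem yf3c_eem {n : ℕ} (D : RD n) :
    (fun j => algebraMap ℂ (KK n) (CD.ee D ℂ j)) = CD.ee D (KK n) := by
  funext j
  rcases j with k | γ
  · exact map_zero _
  · show algebraMap ℂ (KK n) (if D.Sim γ then 1 else 0) = if D.Sim γ then 1 else 0
    split_ifs
    · exact map_one _
    · exact map_zero _

open Classical in
theorem yf3c_ffm {n : ℕ} (D : RD n) :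
    (fun j => algebraMap ℂ (KK n) (CD.ff D ℂ j)) = CD.ff D (KK n) := by
  funext j
  rcases j with k | γ
  · exact map_zero _
  · show algebraMap ℂ (KK n) (if h : D.Sim (D.ng γ) then algebraMap ℂ ℂ (D.rr ⟨D.ng γ, h⟩) else 0) =
      if h : D.Sim (D.ng γ) then algebraMap ℂ (KK n) (D.rr ⟨D.ng γ, h⟩) else 0
    split_ifs
    · rfl
    · exact map_zero _

theorem yf3c_ff {G : AffGrp} {n : ℕ} {D : RD n} (C : CD G D) :
    CD.toJ (D := D) (C.TQd.co (C.toL (CD.ff D ℂ))) = CD.ff D (KK n) := by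
  rw [C.co_J]
  exact yf3c_ffm D

theorem yf3c_ee {G : AffGrp} {n : ℕ} {D : RD n} (C : CD G D) :
    CD.toJ (D := D) (C.TQd.co (C.toL (CD.ee D ℂ))) = CD.ee D (KK n) := by
  rw [C.co_J]
  exact yf3c_eem D

theorem yf3c_toL0 {G : AffGrp} {n : ℕ} {D : RD n} (C : CD G D) : C.toL 0 = 0 := by
  unfold CD.toL
  exact Finset.sum_eq_zero fun j _ => zero_smul _ _

/-- YF3c.  `sf`: `C.sz_br` over `K` (`br_map`, `sx = ee + sz`; `co_J`, `c_J`, `brK_J`).  `sl`: `s₀ = C.toL (ee + z₀)` with `[f, z₀] = 0` (`toL_surj`, `toL_br`, `toL_inj`), `slice_sl` over `ℂ`.  `dir`: `slice_dir`. -/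
theorem CD.pq_sf {G : AffGrp} {n : ℕ} {D : RD n} (C : CD G D) :
    C.TQd.brK (R := KK n) (C.TQd.co (C.toL (CD.ff D ℂ)))
      (fun i => C.TQd.c i - C.TQd.co (C.toL (CD.ee D ℂ)) i) = 0 := by
  apply yf3c_inj (D := D)
  rw [C.brK_J]
  have h1 : CD.toJ (D := D) (fun i => C.TQd.c i - C.TQd.co (C.toL (CD.ee D ℂ)) i) =
      C.szR fun k => aK (MvPolynomial.X k) := by
    have h2 : CD.toJ (D := D) (fun i => C.TQd.c i - C.TQd.co (C.toL (CD.ee D ℂ)) i) =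
        CD.toJ (D := D) C.TQd.c - CD.toJ (D := D) (C.TQd.co (C.toL (CD.ee D ℂ))) := rfl
    rw [h2, yf3c_ee, C.c_J, yp4d_sK, add_sub_cancel_left]
  refine (congrArg₂ (fun a b => C.br a b) (yf3c_ff C) h1).trans ?_
  exact C.szR_br _

theorem CD.pq_sl {G : AffGrp} {n : ℕ} {D : RD n} (C : CD G D) (s₀ : G.Lie)
    (hs : G.br (C.toL (CD.ff D ℂ)) (s₀ - C.toL (CD.ee D ℂ)) = 0) (z : G.Lie) :
    ∃ u v : G.Lie, G.br (C.toL (CD.ff D ℂ)) u = 0 ∧
      z = u + G.br s₀ (G.br (C.toL (CD.ff D ℂ)) v) := by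
  obtain ⟨z0, hz0⟩ := C.toL_surj (s₀ - C.toL (CD.ee D ℂ))
  obtain ⟨z', rfl⟩ := C.toL_surj z
  rw [← hz0, C.toL_br] at hs
  have h1 : C.br (CD.ff D ℂ) z0 = 0 := C.toL_inj (hs.trans (yf3c_toL0 C).symm)
  obtain ⟨u, v, hu, hz⟩ := C.slice_sl h1 z'
  refine ⟨C.toL u, C.toL v, ?_, ?_⟩
  · rw [C.toL_br, hu, yf3c_toL0]
  · have h2 : s₀ = C.toL (CD.ee D ℂ + z0) := by
      rw [C.toL_add, hz0, add_sub_cancel]
    rw [h2, C.toL_br, C.toL_br, ← C.toL_add, ← hz]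

theorem CD.pq_dir {G : AffGrp} {n : ℕ} {D : RD n} (C : CD G D)
    (u v : Fin C.TQd.r → KK n)
    (hu : C.TQd.brK (R := KK n) (C.TQd.co (C.toL (CD.ff D ℂ))) u = 0)
    (h : u = C.TQd.brK (R := KK n) C.TQd.c v) : u = 0 := by
  have h1 : CD.toJ (D := D) u = 0 := by
    refine C.slice_dir (v := CD.toJ v) ?_ ?_
    · have h2 := congrArg (CD.toJ (D := D)) hu
      rw [C.brK_J, yf3c_ff] at h2
      exact h2
    · have h2 := congrArg (CD.toJ (D := D)) h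
      rw [C.brK_J, C.c_J] at h2
      exact h2
  exact yf3c_inj (D := D) h1

end Pool.Agent.MTG
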