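import Pool.Agent.MTG.YF2

/-! # MTG-YF : the data of part P for a Cartan datum -/

namespace Pool.Agent.MTG

open Pool.Agent.MTF Matrix
open Pool.Agent.MTD (ev)
open Pool.Agent.MTX.SLD (AA fm0)
open Pool.Agent.MTH
open RD (KK aK)

/-- the matrix of an element in a conjugate representation -/
theorem yf4_conj {G : AffGrp} {n : ℕ} {D : RD n} (C : CD G D) {R : Type} [CommRing R]
    [Algebra ℂ R] {E F : MTF.Rep G} (Q : Matrix E.ι F.ι ℂ)
    (Q' : Matrix F.ι E.ι ℂ) (h : ∀ x, E.ρ x = Q * F.ρ x * Q') (z : LR D R) :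
    C.dm E z = Q.map (algebraMap ℂ R) * C.dm F z * Q'.map (algebraMap ℂ R) := by
  have hd : ∀ y : G.Lie, E.d y = Q * F.d y * Q' := by
    intro y
    ext a b
    have h1 : E.co a b = ∑ c, ∑ c', (Q a c * Q' c' b) • F.co c c' := by
      apply AffGrp.O_ext
      intro x
      show E.ρ x a b = _
      rw [h, AffGrp.O_sum, Matrix.mul_apply]
      simp only [Matrix.mul_apply, AffGrp.O_sum, AffGrp.O_smul, Rep.co_apply, Finset.sum_mul]
      rw [Finset.sum_comm]
      refine Finset.sum_congr rfl fun c _ => Finset.sum_congr rfl fun c' _ => ?_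
      ring
    rw [Rep.d_apply, h1, map_sum]
    simp only [Matrix.mul_apply, map_sum, map_smul, smul_eq_mul, Finset.sum_mul]
    rw [Finset.sum_comm]
    refine Finset.sum_congr rfl fun c _ => Finset.sum_congr rfl fun c' _ => ?_
    rw [Rep.d_apply]
    ring
  unfold CD.dm
  rw [Matrix.mul_sum, Matrix.sum_mul]
  refine Finset.sum_congr rfl fun j _ => ?_
  rw [hd, Matrix.map_mul, Matrix.map_mul, Matrix.mul_smul, Matrix.smul_mul]

/-- polynomials of conjugate matrices are conjugate -/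
theorem yf4_poly {ι κ : Type} [Fintype ι] [DecidableEq ι] [Fintype κ] [DecidableEq κ] {K : Type}
    [CommRing K] (Q : Matrix ι κ K) (Q' : Matrix κ ι K) (h : Q * Q' = 1) (h' : Q' * Q = 1)
    (S : Matrix κ κ K) (q : Polynomial K) :
    Polynomial.aeval (Q * S * Q') q = Q * Polynomial.aeval S q * Q' := by
  induction q using Polynomial.induction_on with
  | C a =>
    rw [Polynomial.aeval_C, Polynomial.aeval_C, Algebra.algebraMap_eq_smul_one,
      Algebra.algebraMap_eq_smul_one, Matrix.mul_smul, Matrix.smul_mul, Matrix.mul_one, h]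
  | add p q hp hq => rw [map_add, map_add, hp, hq, Matrix.mul_add, Matrix.add_mul]
  | monomial k a ih =>
    rw [pow_succ, ← mul_assoc, map_mul (Polynomial.aeval (Q * S * Q')) _ Polynomial.X,
      map_mul (Polynomial.aeval S) _ Polynomial.X, ih, Polynomial.aeval_X, Polynomial.aeval_X]
    generalize Polynomial.aeval S (Polynomial.C a * Polynomial.X ^ k) = M
    calc Q * M * Q' * (Q * S * Q') = Q * M * (Q' * Q) * S * Q' := by
          simp only [Matrix.mul_assoc]
      _ = Q * (M * S) * Q' := by rw [h', Matrix.mul_one, Matrix.mul_assoc Q M S]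

/-- YF4.  `dec` for arbitrary representations: `exists_weight` gives `F`, `w`, `Q`, `Q'` with `E.ρ x = Q * F.ρ x * Q'`, so `sE E = Q sE F Q'` (constant matrices), and `dec_sx` for `F` (`sE_J`, mapped to `K`): polynomials of
conjugate matrices are conjugate. -/
theorem CD.dec {G : AffGrp} {n : ℕ} {D : RD n} (C : CD G D) (E : MTF.Rep G) :
    ∃ Ω : Finset (Fin n → ℤ), Polynomial.aeval (C.TQd.sE E)
      (∏ m ∈ Ω, (Polynomial.X - Polynomial.C (C.TQd.val m))) = 0 := by
  obtain ⟨F, w, Q, Q', hF, hQQ', hQ'Q, hρ⟩ := exists_weight C E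
  have hρ' : ∀ x, E.ρ x = Q * F.ρ x * Q' := by
    intro x
    rw [← hρ x]
    calc E.ρ x = (Q * Q') * E.ρ x * (Q * Q') := by rw [hQQ', Matrix.one_mul, Matrix.mul_one]
      _ = Q * (Q' * E.ρ x * Q) * Q' := by simp only [Matrix.mul_assoc]
  have hQ1 : Q'.map (algebraMap ℂ (KK n)) * Q.map (algebraMap ℂ (KK n)) = 1 := by
    rw [← Matrix.map_mul, hQ'Q, Matrix.map_one _ (map_zero _) (map_one _)]
  have hQ2 : Q.map (algebraMap ℂ (KK n)) * Q'.map (algebraMap ℂ (KK n)) = 1 := by
    rw [← Matrix.map_mul, hQQ', Matrix.map_one _ (map_zero _) (map_one _)]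
  refine ⟨Finset.univ.image w, ?_⟩
  rw [C.sE_J E, yf4_conj C Q Q' hρ' C.sK, yf4_poly _ _ hQ2 hQ1]
  have h1 : C.dm F C.sK = (aK : AA n →+* KK n).mapMatrix (C.dm F C.sx) :=
    (C.dm_map (IsScalarTower.toAlgHom ℂ (AA n) (KK n)) F C.sx).symm
  have h2 : (∏ m ∈ Finset.univ.image w, (Polynomial.X - Polynomial.C (C.TQd.val m))) =
      (∏ m ∈ Finset.univ.image w, (Polynomial.X - Polynomial.C (fm0 m : AA n))).map
        (aK : AA n →+* KK n) := by
    rw [Polynomial.map_prod]
    refine Finset.prod_congr rfl fun m _ => ?_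
    rw [Polynomial.map_sub, Polynomial.map_X, Polynomial.map_C]
    rfl
  have h3 : (algebraMap (KK n) (Matrix F.ι F.ι (KK n))).comp (aK : AA n →+* KK n) =
      ((aK : AA n →+* KK n).mapMatrix).comp (algebraMap (AA n) (Matrix F.ι F.ι (AA n))) := by
    apply RingHom.ext
    intro a
    ext i j
    show (algebraMap (KK n) (Matrix F.ι F.ι (KK n)) (aK a)) i j =
      aK ((algebraMap (AA n) (Matrix F.ι F.ι (AA n)) a) i j)
    rw [Matrix.algebraMap_matrix_apply, Matrix.algebraMap_matrix_apply]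
    split_ifs
    · rfl
    · exact (map_zero aK).symm
  have h4 := Polynomial.map_aeval_eq_aeval_map h3
    (∏ m ∈ Finset.univ.image w, (Polynomial.X - Polynomial.C (fm0 m : AA n))) (C.dm F C.sx)
  rw [C.dec_sx hF, map_zero] at h4
  rw [h1, h2, ← h4, Matrix.mul_zero, Matrix.zero_mul]

end Pool.Agent.MTG
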