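import Pool.Agent.MTG.YF1
import Pool.Agent.MTG.YF2
import Pool.Agent.MTG.YF3a
import Pool.Agent.MTG.YF3b
import Pool.Agent.MTG.YF3c
import Pool.Agent.MTG.YF4
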