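import Pool.Agent.MTG.YS3a

/-! # MTG-YS : the Kostant slice -/

namespace Pool.Agent.MTG

open Pool.Agent.MTF Matrix
open Pool.Agent.MTD (ev)
open Pool.Agent.MTX.SLD (AA fm0)
open Pool.Agent.MTH

theorem YS3c_map_ct {I : Type} [Fintype I] [DecidableEq I] {h : I → ℤ} {A : Matrix I I ℂ} {m : ℤ}
    (H : Gd.HM h m A) {R : Type} [CommRing R] [Algebra ℂ R] (k : ℤ) (X : I → R) :
    (A.map (algebraMap ℂ R)).mulVec (Gd.ct h k X) =
      Gd.ct h (k + m) ((A.map (algebraMap ℂ R)).mulVec X) := by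
  funext a
  by_cases ha : h a = k + m
  · have e1 : Gd.ct h (k + m) ((A.map (algebraMap ℂ R)).mulVec X) a =
        (A.map (algebraMap ℂ R)).mulVec X a := by
      simp only [Gd.ct]
      rw [if_pos ha]
    rw [e1]
    simp only [Matrix.mulVec, dotProduct, Matrix.map_apply]
    refine Finset.sum_congr rfl fun c _ => ?_
    by_cases hc : A a c = 0
    · rw [hc]; simp
    · have h1 := H a c hc
      have h2 : h c = k := by omega
      simp only [Gd.ct]
      rw [if_pos h2]
  · have e1 : Gd.ct h (k + m) ((A.map (algebraMap ℂ R)).mulVec X) a = 0 := by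
      simp only [Gd.ct]
      rw [if_neg ha]
    rw [e1]
    simp only [Matrix.mulVec, dotProduct, Matrix.map_apply]
    refine Finset.sum_eq_zero fun c _ => ?_
    by_cases hc : A a c = 0
    · rw [hc]; simp
    · have h1 := H a c hc
      have h2 : ¬ h c = k := by omega
      simp only [Gd.ct]
      rw [if_neg h2, mul_zero]

theorem YS3c_InH_map {I : Type} [Fintype I] [DecidableEq I] {h : I → ℤ} {A : Matrix I I ℂ} {m : ℤ}
    (H : Gd.HM h m A) {R : Type} [CommRing R] [Algebra ℂ R] (k : ℤ) (X : I → R)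
    (hX : Gd.InH h k X) : Gd.InH h (k + m) ((A.map (algebraMap ℂ R)).mulVec X) := by
  intro a ha
  simp only [Matrix.mulVec, dotProduct, Matrix.map_apply] at ha
  obtain ⟨c, _, hc⟩ := Finset.exists_ne_zero_of_sum_ne_zero ha
  have h1 : A a c ≠ 0 := by
    intro h0
    apply hc
    rw [h0]; simp
  have h2 : X c ≠ 0 := by
    intro h0
    apply hc
    rw [h0]; simp
  have h3 := H a c h1
  have h4 := hX c h2
  omega

theorem YS3c_ht {I : Type} {R : Type} [CommRing R] [Algebra ℂ R] (m : ℤ) (v : I → R) (hm : m ≠ 0)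
    (h : m • v = 0) : v = 0 := by
  funext a
  have h1 : m • v a = 0 := by
    have h2 := congrFun h a
    simpa using h2
  have h3 : ((m : ℂ)) • v a = 0 := by
    rw [Int.cast_smul_eq_zsmul]
    exact h1
  have hm' : (m : ℂ) ≠ 0 := by exact_mod_cast hm
  have h4 : v a = ((m : ℂ)⁻¹) • ((m : ℂ) • v a) := by
    rw [smul_smul, inv_mul_cancel₀ hm', one_smul]
  rw [h4, h3, smul_zero]
  rfl

theorem YS3c_iter {I : Type} [Fintype I] [DecidableEq I] {h : I → ℤ} {A : Matrix I I ℂ}
    (H : Gd.HM h (-2) A) {R : Type} [CommRing R] [Algebra ℂ R] (k : ℤ) (X : I → R)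
    (hX : Gd.InH h k X) (N : ℕ) :
    Gd.InH h (k - 2 * N) ((fun v => (A.map (algebraMap ℂ R)).mulVec v)^[N] X) := by
  induction N with
  | zero => simpa using hX
  | succ N ih =>
    rw [Function.iterate_succ_apply']
    have h1 := YS3c_InH_map H (k - 2 * N) _ ih
    have h2 : k - 2 * (N : ℤ) + -2 = k - 2 * ((N + 1 : ℕ) : ℤ) := by push_cast; ring
    rw [h2] at h1
    exact h1

theorem YS3c_one {I : Type} [Fintype I] [DecidableEq I] {h : I → ℤ} {e f : Matrix I I ℂ}
    (H : Gd.Sl2 h e f) {R : Type} [CommRing R] [Algebra ℂ R] (X : I → R)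
    (hX : ∀ a, X a ≠ 0 → h a < 0)
    (h0 : (f.map (algebraMap ℂ R)).mulVec ((e.map (algebraMap ℂ R)).mulVec X) = 0) : X = 0 := by
  funext a
  by_contra hne
  have hne' : X a ≠ 0 := hne
  have hk := hX a hne'
  set k := h a with hkdef
  let E : (I → R) →+ (I → R) :=
    AddMonoidHom.mk' (fun v => (e.map (algebraMap ℂ R)).mulVec v) (fun v w => Matrix.mulVec_add _ v w)
  let F : (I → R) →+ (I → R) :=
    AddMonoidHom.mk' (fun v => (f.map (algebraMap ℂ R)).mulVec v) (fun v w => Matrix.mulVec_add _ v w)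
  have hE : ∀ v, E v = (e.map (algebraMap ℂ R)).mulVec v := fun v => rfl
  have hF : ∀ v, F v = (f.map (algebraMap ℂ R)).mulVec v := fun v => rfl
  have hInct : Gd.InH h k (Gd.ct h k X) := by
    intro c hc
    by_contra hcne
    apply hc
    simp only [Gd.ct]
    rw [if_neg hcne]
  obtain ⟨N, hN⟩ : ∃ N : ℕ, F^[N] (Gd.ct h k X) = 0 := by
    obtain ⟨M, hM⟩ : ∃ M : ℤ, ∀ c, M ≤ h c := by
      refine ⟨-(∑ c, |h c|), fun c => ?_⟩
      have h1 : |h c| ≤ ∑ c, |h c| :=
        Finset.single_le_sum (f := fun c => |h c|) (fun i _ => abs_nonneg _) (Finset.mem_univ c)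
      have h2 := neg_abs_le (h c)
      omega
    refine ⟨(k - M).toNat + 1, ?_⟩
    have h1 := YS3c_iter H.f_HM k (Gd.ct h k X) hInct ((k - M).toNat + 1)
    funext c
    by_contra hc
    have h2 := h1 c hc
    have h3 := hM c
    have h4 : (k - M) ≤ ((k - M).toNat : ℤ) := Int.self_le_toNat _
    have h5 : M ≤ k := hM a
    push_cast at h2
    omega
  have hzero : Gd.ct h k X = 0 := by
    refine Gd.sl2_inj (YS3c_ht (I := I) (R := R)) E F (fun k v => Gd.InH h k v) ?_ ?_ hk hInct ?_ N hN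
    · intro j v hv
      have h1 := YS3c_InH_map H.f_HM j v hv
      rw [hF]
      have h2 : j + -2 = j - 2 := by ring
      rw [h2] at h1
      exact h1
    · intro j v hv
      rw [hF, hE, hE, hF, Matrix.mulVec_mulVec, Matrix.mulVec_mulVec]
      have h1 : e * f = f * e + Matrix.diagonal fun a => ((h a : ℤ) : ℂ) := by
        rw [← H.ef]; abel
      have h2 : e.map (algebraMap ℂ R) * f.map (algebraMap ℂ R) =
          f.map (algebraMap ℂ R) * e.map (algebraMap ℂ R) +
            (Matrix.diagonal fun a => ((h a : ℤ) : ℂ)).map (algebraMap ℂ R) := by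
        rw [← Matrix.map_mul, ← Matrix.map_mul, h1, Matrix.map_add _ (map_add _)]
      rw [h2, Matrix.add_mulVec]
      congr 1
      funext c
      rw [Matrix.diagonal_map (map_zero _), Matrix.mulVec_diagonal]
      simp only [map_intCast, Pi.smul_apply]
      by_cases hc : v c = 0
      · rw [hc]; simp
      · rw [hv c hc, zsmul_eq_mul]
    · rw [hE, hF, YS3c_map_ct H.e_HM, YS3c_map_ct H.f_HM, h0]
      funext c
      simp [Gd.ct]
  have hfin := congrFun hzero a
  simp only [Gd.ct] at hfin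
  rw [if_pos hkdef.symm] at hfin
  exact hne' hfin

theorem YS3c_swap {I : Type} [Fintype I] [DecidableEq I] {h : I → ℤ} {e f : Matrix I I ℂ}
    (H : Gd.Sl2 h e f) : Gd.Sl2 (fun a => - h a) f e where
  e_HM := by
    intro a c hac
    have := H.f_HM a c hac
    beta_reduce
    omega
  f_HM := by
    intro a c hac
    have := H.e_HM a c hac
    beta_reduce
    omega
  ef := by
    rw [← neg_sub, H.ef]
    ext a c
    by_cases hac : a = c
    · subst hac
      simp
    · simp [Matrix.diagonal_apply_ne _ hac]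

/-- YS3c.  `e` is injective on the vectors of negative height, `f` on those of positive height.
[`sl2_inj` (resp. with `e`, `f` exchanged, `h` negated): `e x = 0` implies `f (e x) = 0`.]  Coefficients
in a `ℂ`-algebra `R` (no `ℤ`-torsion). -/
theorem Gd.inj {I : Type} [Fintype I] [DecidableEq I] {h : I → ℤ} {e f : Matrix I I ℂ}
    (H : Gd.Sl2 h e f) {R : Type} [CommRing R] [Algebra ℂ R] :
    (∀ X : I → R, (∀ a, X a ≠ 0 → h a < 0) →
      (f.map (algebraMap ℂ R)).mulVec ((e.map (algebraMap ℂ R)).mulVec X) = 0 → X = 0) ∧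
    (∀ X : I → R, (∀ a, X a ≠ 0 → 0 < h a) →
      (e.map (algebraMap ℂ R)).mulVec ((f.map (algebraMap ℂ R)).mulVec X) = 0 → X = 0) := by
  refine ⟨fun X hX h0 => YS3c_one H X hX h0, fun X hX h0 => ?_⟩
  refine YS3c_one (YS3c_swap H) X (fun a ha => ?_) h0
  have := hX a ha
  omega

end Pool.Agent.MTG
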