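import Pool.Agent.MTG.YS1b
import Pool.Agent.MTG.YS3c
import Pool.Agent.MTG.YC8

/-! # MTG-YT : principal triples -/

namespace Pool.Agent.MTG

open Pool.Agent.MTF Matrix
open Pool.Agent.MTD (ev)
open Pool.Agent.MTX.SLD (AA fm0)
open Pool.Agent.MTH
open Pool.Agent.MP_c45d35_ag (chi)

namespace CD

variable {G : AffGrp} {n : ℕ} {D : RD n} (C : CD G D)

/-- the element of the Lie algebra with coordinates `z` -/
noncomputable def toL (z : LR D ℂ) : G.Lie := ∑ j, z j • C.bs j

theorem toL_add (z z' : LR D ℂ) : C.toL (z + z') = C.toL z + C.toL z' := by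
  unfold toL
  rw [← Finset.sum_add_distrib]
  exact Finset.sum_congr rfl fun j _ => add_smul _ _ _

theorem toL_smul (c : ℂ) (z : LR D ℂ) : C.toL (c • z) = c • C.toL z := by
  unfold toL
  rw [Finset.smul_sum]
  exact Finset.sum_congr rfl fun j _ => mul_smul _ _ _

theorem toL_inj {z z' : LR D ℂ} (h : C.toL z = C.toL z') : z = z' := by
  have h1 := congrArg (fun v => ⇑(C.bs.repr v)) h
  simp only [toL, C.bs.repr_sum_self] at h1
  exact h1

theorem toL_surj (v : G.Lie) : ∃ z, C.toL z = v := ⟨C.bs.repr v, C.bs.sum_repr v⟩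

end CD

end Pool.Agent.MTG
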