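import Pool.Agent.MTG.YF0
import Pool.Agent.MTG.YT0

/-! # MTG-YF : the data of part P for a Cartan datum -/

namespace Pool.Agent.MTG

open Pool.Agent.MTF Matrix
open Pool.Agent.MTD (ev)
open Pool.Agent.MTX.SLD (AA fm0)
open Pool.Agent.MTH
open RD (KK aK)

namespace CD

variable {G : AffGrp} {n : ℕ} {D : RD n} (C : CD G D)

/-- coordinates with respect to `Db` as coordinates with respect to the Cartan basis -/
noncomputable def toJ {R : Type} (z : Fin (Fintype.card (Fin n ⊕ D.Rt)) → R) : LR D R := fun i => z (eqJ D i)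

theorem toJ_symm {R : Type} (z : Fin (Fintype.card (Fin n ⊕ D.Rt)) → R)
    (a : Fin (Fintype.card (Fin n ⊕ D.Rt))) : toJ z ((eqJ D).symm a) = z a := by
  unfold toJ
  rw [Equiv.apply_symm_apply]

theorem toJ_surj {R : Type} (z : LR D R) : ∃ y, z = toJ y :=
  ⟨fun a => z ((eqJ D).symm a), funext fun i => by
    show z i = z ((eqJ D).symm (eqJ D i))
    rw [Equiv.symm_apply_apply]⟩

/-- the additional data of part P -/
noncomputable def PDd (rho : Matrix (Fin (Fintype.card (Fin n ⊕ D.Rt))) (Fin (Fintype.card (Fin n ⊕ D.Rt))) (KK n)) :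
    MTF.PD C.TQd where
  n := n
  mb := Pi.basisFun ℤ (Fin n)
  dd := C.ddK
  y j := aK (C.yA j)
  rho := rho
  e := C.toL (ee D ℂ)
  f := C.toL (ff D ℂ)

end CD

end Pool.Agent.MTG
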