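import Pool.Agent.MTG.GH
import Pool.Agent.MTH.E2

/-! # MTG-YH0 : highest weights (definitions) -/

namespace Pool.Agent.MTG

open Pool.Agent.MTF Matrix
open Pool.Agent.MTD (ev)
open Pool.Agent.MTX.SLD (AA fm0)
open Pool.Agent.MTH
open Pool.Agent.MP_c45d35_ag (chi)

variable {G : AffGrp} {n : ℕ} {D : RD n}

/-- `f (u t v) = t^l` on the big cell -/
def IsDl (C : CD G D) (l : Fin n → ℤ) (f : G.O) : Prop :=
  ∀ (u v : G.Pt ℂ) (t : Fin n → ℂˣ), UU C (-1) u → UU C 1 v →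
    f.1 ((u * tq C t * v).toX) = ((chi l t : ℂˣ) : ℂ)

/-- `E` is generated by the highest weight vector `v0` of weight `l` -/
structure HWV (C : CD G D) (l : Fin n → ℤ) (E : MTF.Rep G) (w : E.ι → Fin n → ℤ)
    (v0 : E.ι → ℂ) : Prop where
  isW : C.IsW E w
  ne : v0 ≠ 0
  wt : ∀ a, v0 a ≠ 0 → w a = l
  inv : ∀ v : G.Pt ℂ, UU C 1 v → (E.ρ v.toX).mulVec v0 = v0
  cyc : Submodule.span ℂ (Set.range fun x : G.X => (E.ρ x).mulVec v0) = ⊤

/-- stable under the group -/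
def GStab (E : MTF.Rep G) (U : Submodule ℂ (E.ι → ℂ)) : Prop :=
  ∀ (x : G.X), ∀ u ∈ U, (E.ρ x).mulVec u ∈ U

end Pool.Agent.MTG
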