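import Pool.Agent.MTG.YH9
import Pool.Agent.MTG.YS3c
import Pool.Agent.MTG.B1i

/-! # MTG-YH : highest weight representations -/

namespace Pool.Agent.MTG

open Pool.Agent.MTF Matrix
open Pool.Agent.MTD (ev)
open Pool.Agent.MTX.SLD (AA fm0)
open Pool.Agent.MTH
open Pool.Agent.MP_c45d35_ag (chi)

/-- the pairing with a coroot in coordinates -/
theorem YH10_cp {n : ℕ} (D : RD n) (γ : D.Rt) (μ : Fin n → ℤ) :
    D.cp γ μ = ∑ k, D.cp γ (Pi.single k 1) * μ k := by
  classical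
  have h1 : μ = ∑ k, μ k • (Pi.single k (1 : ℤ) : Fin n → ℤ) := by
    ext c
    rw [Finset.sum_apply, Finset.sum_eq_single c]
    · simp
    · intro b _ hb
      rw [Pi.smul_apply, Pi.single_eq_of_ne (Ne.symm hb), smul_zero]
    · intro hc
      exact absurd (Finset.mem_univ c) hc
  let F : (Fin n → ℤ) →+ ℤ := AddMonoidHom.mk' (D.cp γ) (D.cp_add γ)
  have h2 : D.cp γ μ = F μ := rfl
  rw [h2]
  conv_lhs => rw [h1]
  rw [map_sum]
  apply Finset.sum_congr rfl
  intro k _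
  show D.cp γ (μ k • _) = _
  rw [D.cp_smul, mul_comm]

theorem YH10_ev {n : ℕ} (μ : Fin n → ℤ) (k : Fin n) :
    ev μ (Pi.single k (1 : ℂ) : Fin n → ℂ) = ((μ k : ℤ) : ℂ) := by
  unfold ev
  rw [Finset.sum_eq_single k]
  · simp
  · intro b _ hb
    rw [Pi.single_eq_of_ne hb, mul_zero]
  · intro hc
    exact absurd (Finset.mem_univ k) hc

theorem YH10_sep {n : ℕ} {μ ν : Fin n → ℤ} (h : ∀ y : Fin n → ℂ, ev μ y = ev ν y) : μ = ν := by
  ext k
  have h1 := h (Pi.single k 1)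
  rw [YH10_ev, YH10_ev] at h1
  exact Int.cast_injective h1

/-- `sl₂`-data attached to a root -/
theorem YH10_sl2 {G : AffGrp} {n : ℕ} {D : RD n} {C : CD G D} {E : MTF.Rep G}
    {w : E.ι → Fin n → ℤ} (hE : C.IsW E w) (γ : D.Rt) :
    Gd.Sl2 (fun a => D.cp γ (w a)) (E.d (C.e γ)) (E.d (C.e (D.ng γ))) := by
  refine ⟨?_, ?_, ?_⟩
  · intro a b hab
    show D.cp γ (w a) = D.cp γ (w b) + 2
    rw [hE.d_e γ a b hab, D.cp_add, D.cp_self]
  · intro a b hab
    show D.cp γ (w a) = D.cp γ (w b) + -2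
    rw [hE.d_e _ a b hab, D.cp_add, D.ng_val, D.cp_neg, D.cp_self]
  · rw [← E.d_lie]
    have h1 : ⁅C.e γ, C.e (D.ng γ)⁆ = ∑ k, ((D.cp γ (Pi.single k 1) : ℤ) : ℂ) • C.h k := C.e_ng γ
    rw [h1, map_sum]
    ext a b
    rw [Matrix.sum_apply, Matrix.diagonal_apply]
    have h2 : ∀ k, E.d (((D.cp γ (Pi.single k 1) : ℤ) : ℂ) • C.h k) a b =
        if a = b then ((D.cp γ (Pi.single k 1) * w a k : ℤ) : ℂ) else 0 := by
      intro k
      rw [map_smul, Matrix.smul_apply, hE.d_h k, Matrix.diagonal_apply, smul_eq_mul]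
      split_ifs
      · push_cast
        rfl
      · rw [mul_zero]
    rw [Finset.sum_congr rfl fun k _ => h2 k]
    by_cases hab : a = b
    · simp only [hab, if_true]
      rw [YH10_cp D γ (w b)]
      push_cast
      rfl
    · simp only [hab, if_false, Finset.sum_const_zero]

/-- `f v = 0` for a vector of weight `0` killed by `e` -/
theorem YH10_f {G : AffGrp} {n : ℕ} {D : RD n} {C : CD G D} {E : MTF.Rep G}
    {w : E.ι → Fin n → ℤ} (hE : C.IsW E w) (γ : D.Rt) {v : E.ι → ℂ} (hv : ∀ a, v a ≠ 0 → w a = 0)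
    (he : (E.d (C.e γ)).mulVec v = 0) : (E.d (C.e (D.ng γ))).mulVec v = 0 := by
  have H := YH10_sl2 hE γ
  have hid : ∀ A : Matrix E.ι E.ι ℂ, A.map (algebraMap ℂ ℂ) = A := by
    intro A
    ext a b
    rfl
  obtain ⟨i1, -⟩ := Gd.inj H (R := ℂ)
  rw [hid, hid] at i1
  apply i1
  · intro a ha
    rw [Matrix.mulVec, dotProduct] at ha
    obtain ⟨b, -, hb⟩ := Finset.exists_ne_zero_of_sum_ne_zero ha
    have h1 := H.f_HM a b (left_ne_zero_of_mul hb)
    have h2 := hv b (right_ne_zero_of_mul hb)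
    have h3 : D.cp γ (w a) = D.cp γ (w b) + -2 := h1
    rw [h2, D.cp_zero] at h3
    show D.cp γ (w a) < 0
    omega
  · have h1 : (E.d (C.e γ)).mulVec ((E.d (C.e (D.ng γ))).mulVec v) = 0 := by
      have h2 : (E.d (C.e γ) * E.d (C.e (D.ng γ)) - E.d (C.e (D.ng γ)) * E.d (C.e γ)).mulVec v =
          0 := by
        rw [H.ef]
        ext a
        rw [Matrix.mulVec_diagonal]
        by_cases hva : v a = 0
        · rw [hva, mul_zero]
          rfl
        · rw [hv a hva, D.cp_zero]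
          simp
      rw [Matrix.sub_mulVec, ← Matrix.mulVec_mulVec, ← Matrix.mulVec_mulVec, he,
        Matrix.mulVec_zero, sub_zero] at h2
      exact h2
    rw [h1, Matrix.mulVec_zero]

/-- `dm` of a root vector -/
theorem YH10_dm {G : AffGrp} {n : ℕ} {D : RD n} (C : CD G D) (E : MTF.Rep G) (γ : D.Rt) (c : ℂ) :
    C.dm E (rv γ c) = c • E.d (C.e γ) := by
  classical
  rw [C.dm_complex, ← map_smul]
  congr 1
  rw [Finset.sum_eq_single (Sum.inr γ)]
  · unfold rv
    rw [Pi.single_eq_same]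
  · intro b _ hb
    unfold rv
    rw [Pi.single_eq_of_ne hb, zero_smul]
  · intro h
    exact absurd (Finset.mem_univ _) h

/-- the exponential of a matrix that kills a vector fixes the vector -/
theorem YH10_mexp {ι : Type} [Fintype ι] [DecidableEq ι] (A : Matrix ι ι ℂ) {v : ι → ℂ}
    (h : A.mulVec v = 0) : (mexp A).mulVec v = v := by
  by_cases hc : Fintype.card ι = 0
  · have : IsEmpty ι := Fintype.card_eq_zero_iff.1 hc
    ext a
    exact this.elim a
  · obtain ⟨m, hm⟩ := Nat.exists_eq_succ_of_ne_zero hc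
    unfold mexp
    rw [hm, Finset.sum_range_succ', Matrix.add_mulVec]
    have h1 : (∑ k ∈ Finset.range m, (algebraMap ℂ ℂ (1 / ((k + 1).factorial : ℂ))) •
        A ^ (k + 1)).mulVec v = 0 := by
      have h2 : ∀ k, ((algebraMap ℂ ℂ (1 / ((k + 1).factorial : ℂ))) • A ^ (k + 1)).mulVec v = 0 := by
        intro k
        rw [Matrix.smul_mulVec, pow_succ, ← Matrix.mulVec_mulVec, h, Matrix.mulVec_zero, smul_zero]
      rw [Matrix.sum_mulVec]
      exact Finset.sum_eq_zero fun k _ => h2 k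
    rw [h1, zero_add]
    simp

theorem YH10_ex {G : AffGrp} {n : ℕ} {D : RD n} (C : CD G D) (E : MTF.Rep G) (γ : D.Rt) (c : ℂ)
    {v : E.ι → ℂ} (h : (E.d (C.e γ)).mulVec v = 0) : (E.pt (ex C (rv γ c))).mulVec v = v := by
  obtain ⟨s, -, hs⟩ := Sp_rv (D := D) γ c
  rw [ex_pt C hs E]
  apply YH10_mexp
  rw [YH10_dm, Matrix.smul_mulVec, h, smul_zero]

/-- representatives of the Weyl group that fix `v` -/
theorem YH10_list {G : AffGrp} {n : ℕ} {D : RD n} (C : CD G D) (E : MTF.Rep G) {v : E.ι → ℂ}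
    (he : ∀ α : D.SRt, (E.d (C.e α.1)).mulVec v = 0)
    (hf : ∀ α : D.SRt, (E.d (C.e (D.ng α.1))).mulVec v = 0) (l : List D.SRt) :
    ∃ φ : G.Pt ℂ, (∀ x : Fin n → ℂ, Adp C φ (CD.hx x) = CD.hx (wx (l.map D.sW).prod x)) ∧
      (E.pt φ).mulVec v = v := by
  induction l with
  | nil =>
    refine ⟨1, fun x => ?_, ?_⟩
    · rw [Adp_one, List.map_nil, List.prod_nil, wx_one]
    · rw [Rep.pt_one, Matrix.one_mulVec]
  | cons α l ih =>
    obtain ⟨φ, h1, h2⟩ := ih
    refine ⟨nn C α.1 1 * φ, fun x => ?_, ?_⟩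
    · rw [Adp_mul, h1, nn_hx, List.map_cons, List.prod_cons, wx_mul]
      have : wx (D.sW α) (wx (l.map D.sW).prod x) = wx (D.rW α.1) (wx (l.map D.sW).prod x) := rfl
      rw [this, wx_rW]
    · rw [Rep.pt_mul, ← Matrix.mulVec_mulVec, h2]
      unfold nn
      rw [Rep.pt_mul, Rep.pt_mul, ← Matrix.mulVec_mulVec, ← Matrix.mulVec_mulVec,
        YH10_ex C E α.1 _ (he α), YH10_ex C E (D.ng α.1) _ (hf α), YH10_ex C E α.1 _ (he α)]

/-- all root vectors kill `v` -/
theorem YH10_root {G : AffGrp} {n : ℕ} {D : RD n} (C : CD G D) (E : MTF.Rep G) {v : E.ι → ℂ}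
    (he : ∀ α : D.SRt, (E.d (C.e α.1)).mulVec v = 0)
    (hf : ∀ α : D.SRt, (E.d (C.e (D.ng α.1))).mulVec v = 0) (γ : D.Rt) :
    (E.d (C.e γ)).mulVec v = 0 := by
  classical
  obtain ⟨l, α, hl⟩ := D.exists_simple γ
  obtain ⟨φ, h1, h2⟩ := YH10_list C E he hf l
  set u : D.W := (l.map D.sW).prod with hu
  set Z : LR D ℂ := Adp C φ (rv α.1 1) with hZ
  -- the bracket of `Z` with the Cartan subalgebra
  have hbr : ∀ x : Fin n → ℂ, C.br (CD.hx (wx u x)) Z = ev α.1.1 x • Z := by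
    intro x
    rw [← h1, hZ, ← Adp_br]
    have h3 : C.br (CD.hx x) (rv α.1 1) = ev α.1.1 x • rv α.1 (1 : ℂ) := by
      rw [br_hx]
      ext j
      rcases j with k | δ
      · rw [Sum.elim_inl, Pi.smul_apply]
        unfold rv
        rw [Pi.single_eq_of_ne (by simp), smul_zero]
      · rw [Sum.elim_inr, Pi.smul_apply]
        unfold rv
        by_cases hδ : δ = α.1
        · rw [hδ, smul_eq_mul]
        · rw [Pi.single_eq_of_ne (by simpa using hδ), mul_zero, smul_zero]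
    rw [h3, Adp_smul]
  have hγ : γ.1 = u.1 α.1.1 := by
    rw [← hl]
    rfl
  have hsurj : ∀ y : Fin n → ℂ, wx u (wx u⁻¹ y) = y := by
    intro y
    rw [← wx_mul, mul_inv_cancel, wx_one]
  have hev : ∀ y : Fin n → ℂ, ev α.1.1 (wx u⁻¹ y) = ev γ.1 y := by
    intro y
    rw [← ev_wx u (wx u⁻¹ y) α.1.1, hsurj, ← hγ]
  have hbr' : ∀ y : Fin n → ℂ, C.br (CD.hx y) Z = ev γ.1 y • Z := by
    intro y
    have := hbr (wx u⁻¹ y)
    rwa [hsurj, hev] at this
  -- `Z` is a multiple of the root vector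
  have hinl : ∀ k, Z (Sum.inl k) = 0 := by
    intro k
    obtain ⟨j, hj⟩ : ∃ j, γ.1 j ≠ 0 := by
      by_contra hcon
      push Not at hcon
      exact D.Rt_ne γ (funext hcon)
    have h3 := congrFun (hbr' (Pi.single j 1)) (Sum.inl k)
    rw [br_hx, Sum.elim_inl, Pi.smul_apply, YH10_ev, smul_eq_mul] at h3
    rcases mul_eq_zero.1 h3.symm with h4 | h4
    · exact absurd (Int.cast_injective (by rw [h4]; simp : ((γ.1 j : ℤ) : ℂ) = ((0 : ℤ) : ℂ))) hj
    · exact h4
  have hinr : ∀ δ : D.Rt, δ ≠ γ → Z (Sum.inr δ) = 0 := by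
    intro δ hδ
    obtain ⟨j, hj⟩ : ∃ j, δ.1 j ≠ γ.1 j := by
      by_contra hcon
      push Not at hcon
      exact hδ (Subtype.ext (funext hcon))
    have h3 := congrFun (hbr' (Pi.single j 1)) (Sum.inr δ)
    rw [br_hx, Sum.elim_inr, Pi.smul_apply, YH10_ev, YH10_ev, smul_eq_mul] at h3
    have h4 : (((δ.1 j : ℤ) : ℂ) - ((γ.1 j : ℤ) : ℂ)) * Z (Sum.inr δ) = 0 := by
      linear_combination h3
    rcases mul_eq_zero.1 h4 with h5 | h5
    · exact absurd (Int.cast_injective (sub_eq_zero.1 h5)) hj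
    · exact h5
  have hZc : Z = rv γ (Z (Sum.inr γ)) := by
    ext j
    rcases j with k | δ
    · rw [hinl]
      unfold rv
      rw [Pi.single_eq_of_ne (by simp)]
    · unfold rv
      by_cases hδ : δ = γ
      · rw [hδ, Pi.single_eq_same]
      · rw [Pi.single_eq_of_ne (by simpa using hδ), hinr δ hδ]
  have hc : Z (Sum.inr γ) ≠ 0 := by
    intro h3
    have h4 : Z = 0 := by
      rw [hZc, h3]
      unfold rv
      exact Pi.single_zero _
    have h5 : rv α.1 (1 : ℂ) = 0 := by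
      have h6 : Adp C φ⁻¹ Z = rv α.1 1 := by
        rw [hZ, ← Adp_mul, inv_mul_cancel, Adp_one]
      rw [← h6, h4]
      have := Adp_smul C φ⁻¹ (0 : ℂ) (0 : LR D ℂ)
      rwa [zero_smul, zero_smul] at this
    have h7 := congrFun h5 (Sum.inr α.1)
    unfold rv at h7
    rw [Pi.single_eq_same] at h7
    exact one_ne_zero h7
  -- conclusion
  have h3 := pt_dm C E φ (rv α.1 (1 : ℂ))
  rw [← hZ] at h3
  have h4 : (E.pt φ * C.dm E (rv α.1 (1 : ℂ))).mulVec v = 0 := by
    rw [← Matrix.mulVec_mulVec, YH10_dm, Matrix.smul_mulVec, he α, smul_zero, Matrix.mulVec_zero]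
  rw [h3, ← Matrix.mulVec_mulVec, h2, hZc, YH10_dm, Matrix.smul_mulVec] at h4
  exact (smul_eq_zero.1 h4).resolve_left hc

/-- YH10.  A vector of weight `0` killed by all simple root vectors is `0` (if `l ≠ 0`).
Let `v ≠ 0`.  (1) For `α` simple, `e = E.d (C.e α)`, `f = E.d (C.e (ng α))`: `e v = 0` and `[e, f] v = (cp α (w a)) v = 0` (`C.e_ng`, `isW.d_h`), so `e (f v) = 0`, where `f v` has the `α`-height `-2`
(weights `w a` with `cp α (w a) = -2`), so `f v = 0` by `Gd.inj` (heights `h a = cp α (w a)`, `Gd.Sl2 h e f`, negative heights; apply it to `X = f v`).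
(2) So `v` is fixed by `ex C (rv α c)`, `ex C (rv (ng α) c)` (`ex_pt`) and by `nn C α c` (MTH/E1), hence for every `u : D.W` there is a point `φ : G.Pt ℂ` with `Ad φ (hx x) = hx (wx u x)`
that fixes `v` (product over `exists_list u`, `nn_hx`, `wx_mul`, `wx_rW`).
(3) For every root `γ = u • α` (`exists_simple` gives such `u` as a list and `α` simple) `Ad φ (rv α 1)` is a multiple `c • rv γ 1`, `c ≠ 0`: `[hx (wx u x), Ad φ (rv α 1)] = α(x) Ad φ (rv α 1)` (`Adp_br`, `br_hx`), compare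
components; and `dm E (Ad φ (rv α 1)) v = ρ(φ) dm E (rv α 1) ρ(φ)⁻¹ v = 0` (`pt_dm`).  So `E.d (C.e γ) v = 0` for all roots, `E.d (C.h k) v = 0` (weight `0`), and `v` is invariant under `G`
(`invariant_iff`).
(4) `U = ℂ v` is stable, so `U = ⊤` (`irr`), all vectors have weight `0`; but `v0 ≠ 0` has weight `l ≠ 0`. -/
theorem HWV.eq_zero {G : AffGrp} {n : ℕ} {D : RD n} {C : CD G D} (hG : G.Semi)
    {l : Fin n → ℤ} {E : MTF.Rep G} {w : E.ι → Fin n → ℤ} {v0 : E.ι → ℂ} (h : HWV C l E w v0)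
    (hl : l ≠ 0) {v : E.ι → ℂ} (hv : ∀ a, v a ≠ 0 → w a = 0)
    (he : ∀ α : D.SRt, (E.d (C.e α.1)).mulVec v = 0) : v = 0 := by
  classical
  by_contra hv0
  have hf : ∀ α : D.SRt, (E.d (C.e (D.ng α.1))).mulVec v = 0 := fun α =>
    YH10_f h.isW α.1 hv (he α)
  have hroot := YH10_root C E he hf
  have hcart : ∀ k, (E.d (C.h k)).mulVec v = 0 := by
    intro k
    rw [h.isW.d_h k]
    ext a
    rw [Matrix.mulVec_diagonal]
    by_cases hva : v a = 0
    · rw [hva, mul_zero]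
      rfl
    · rw [hv a hva]
      simp
  have hall : ∀ y : G.Lie, (E.d y).mulVec v = 0 := by
    intro y
    rw [← C.bs.sum_repr y, map_sum, Matrix.sum_mulVec]
    apply Finset.sum_eq_zero
    intro j _
    rw [map_smul, Matrix.smul_mulVec]
    rcases j with k | γ
    · have := hcart k
      rw [show C.bs (Sum.inl k) = C.h k from rfl, this, smul_zero]
    · have := hroot γ
      rw [show C.bs (Sum.inr γ) = C.e γ from rfl, this, smul_zero]
  have hinv := (AffGrp.invariant_iff hG.dom E v).2 hall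
  have hst : GStab E (Submodule.span ℂ {v}) := by
    intro x u hu
    obtain ⟨c, rfl⟩ := Submodule.mem_span_singleton.1 hu
    rw [Matrix.mulVec_smul, hinv x]
    exact Submodule.smul_mem _ _ (Submodule.mem_span_singleton_self v)
  rcases h.irr hG _ hst with h1 | h1
  · exact hv0 (Submodule.span_singleton_eq_bot.1 h1)
  · have h2 : v0 ∈ Submodule.span ℂ {v} := by
      rw [h1]
      exact Submodule.mem_top
    obtain ⟨c, hc⟩ := Submodule.mem_span_singleton.1 h2
    obtain ⟨a, ha⟩ : ∃ a, v0 a ≠ 0 := by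
      by_contra hcon
      push Not at hcon
      exact h.ne (funext hcon)
    apply hl
    rw [← h.wt a ha]
    apply hv a
    intro h3
    apply ha
    rw [← hc, Pi.smul_apply, h3, smul_zero]

end Pool.Agent.MTG
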