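import Pool.Agent.MTG.YS3b
import Pool.Agent.MTG.YS3c

/-! # MTG-YH : highest weight representations -/

namespace Pool.Agent.MTG

open Pool.Agent.MTF Matrix
open Pool.Agent.MTD (ev)
open Pool.Agent.MTX.SLD (AA fm0)
open Pool.Agent.MTH
open Pool.Agent.MP_c45d35_ag (chi)

/-- a homogeneous matrix maps homogeneous vectors to homogeneous vectors -/
theorem YH11_hm {I : Type} [Fintype I] {h : I → ℤ} {A : Matrix I I ℂ} {m k : ℤ}
    (hA : Gd.HM h m A) {X : I → ℂ} (hX : Gd.InH h k X) : Gd.InH h (k + m) (A.mulVec X) := by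
  intro a ha
  rw [Matrix.mulVec, dotProduct] at ha
  obtain ⟨b, -, hb⟩ := Finset.exists_ne_zero_of_sum_ne_zero ha
  have h1 : A a b ≠ 0 := left_ne_zero_of_mul hb
  have h2 : X b ≠ 0 := right_ne_zero_of_mul hb
  rw [hA a b h1, hX b h2]

/-- `e : V(-2) → V(0)` is onto -/
theorem YH11_onto {I : Type} [Fintype I] [DecidableEq I] {h : I → ℤ} {e f : Matrix I I ℂ}
    (H : Gd.Sl2 h e f) (h0 : ∀ x : I → ℂ, Gd.InH h 0 x → e.mulVec x = 0 → x = 0)
    {x : I → ℂ} (hx : Gd.InH h 0 x) : ∃ y : I → ℂ, Gd.InH h (-2) y ∧ e.mulVec y = x := by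
  have hid : ∀ A : Matrix I I ℂ, A.map (algebraMap ℂ ℂ) = A := by
    intro A
    ext a b
    rfl
  obtain ⟨i1, i2⟩ := Gd.inj H (R := ℂ)
  rw [hid, hid] at i1 i2
  -- `f` is injective on height `0`
  have f0 : ∀ y : I → ℂ, Gd.InH h 0 y → f.mulVec y = 0 → y = 0 := by
    intro y hy hfy
    apply h0 y hy
    apply i2
    · intro a ha
      have := YH11_hm H.e_HM hy a ha
      omega
    · have h1 : f.mulVec (e.mulVec y) = 0 := by
        have h2 : (e * f - f * e).mulVec y = 0 := by
          rw [H.ef]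
          ext a
          rw [Matrix.mulVec_diagonal]
          by_cases hya : y a = 0
          · rw [hya, mul_zero]
            rfl
          · rw [hy a hya]
            simp
        rw [Matrix.sub_mulVec, ← Matrix.mulVec_mulVec, ← Matrix.mulVec_mulVec, hfy,
          Matrix.mulVec_zero, zero_sub, neg_eq_zero] at h2
        exact h2
      rw [h1, Matrix.mulVec_zero]
  -- the subspace of height `0`
  let V : Submodule ℂ (I → ℂ) :=
    { carrier := {X | Gd.InH h 0 X}
      add_mem' := by
        intro X Y hX hY a ha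
        by_cases h1 : X a = 0
        · apply hY a
          intro h2
          apply ha
          rw [Pi.add_apply, h1, h2, add_zero]
        · exact hX a h1
      zero_mem' := fun a ha => absurd rfl ha
      smul_mem' := by
        intro c X hX a ha
        apply hX a
        intro h1
        apply ha
        rw [Pi.smul_apply, h1, smul_zero] }
  have hT : ∀ X ∈ V, (e * f).mulVecLin X ∈ V := by
    intro X hX
    have h1 : Gd.InH h (0 + -2) (f.mulVec X) := YH11_hm H.f_HM hX
    have h2 : Gd.InH h (0 + -2 + 2) (e.mulVec (f.mulVec X)) := YH11_hm H.e_HM h1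
    rw [Matrix.mulVecLin_apply, ← Matrix.mulVec_mulVec]
    exact h2
  set T : V →ₗ[ℂ] V := (e * f).mulVecLin.restrict hT with hTd
  have hinj : Function.Injective T := by
    rw [← LinearMap.ker_eq_bot, LinearMap.ker_eq_bot']
    intro X hX
    apply Subtype.ext
    have h1 : e.mulVec (f.mulVec X.1) = 0 := by
      have := congrArg Subtype.val hX
      rw [hTd, LinearMap.coe_restrict_apply, Matrix.mulVecLin_apply,
        ← Matrix.mulVec_mulVec] at this
      exact this
    apply f0 X.1 X.2
    apply i1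
    · intro a ha
      have := YH11_hm H.f_HM X.2 a ha
      omega
    · rw [h1, Matrix.mulVec_zero]
  obtain ⟨y, hy⟩ := LinearMap.surjective_of_injective hinj ⟨x, hx⟩
  refine ⟨f.mulVec y.1, ?_, ?_⟩
  · have := YH11_hm H.f_HM y.2
    simpa using this
  · have := congrArg Subtype.val hy
    rw [hTd, LinearMap.coe_restrict_apply, Matrix.mulVecLin_apply,
      ← Matrix.mulVec_mulVec] at this
    exact this

/-- YH11.  Linear algebra.  `Vk` = vectors of height `k`.  For `k < 0` `e` is injective on `Vk`, for `k > 0` `f` is injective on `Vk` (`Gd.inj`, `R = ℂ`).  Let `e` be injective on `V0`.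
`f` is injective on `V0`: for `x ∈ V0`, `f x = 0`: `f (e x) = e (f x) - [e, f] x = 0` and `e x` has height `2`, so `e x = 0` by injectivity of `f` on `V2` (`Gd.inj`), `x = 0`.
`dim V(-2) ≤ dim V0 ≤ dim V2 ≤ dim V0 ≤ dim V(-2)` by `e, e, f, f`, so `e : V(-2) → V0` is bijective.  For `k > 0` every `X ∈ Vk` is `e (r X)` (`exists_section`).
So there is `r'` (equal to `r` on heights `> 0` and to the inverse of `e : V(-2) → V0` on height `0`, `0` on negative heights). -/
theorem Gd.exists_section' {I : Type} [Fintype I] [DecidableEq I] {h : I → ℤ} {e f : Matrix I I ℂ}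
    (H : Gd.Sl2 h e f) (h0 : ∀ x : I → ℂ, Gd.InH h 0 x → e.mulVec x = 0 → x = 0) :
    ∃ r : Matrix I I ℂ, (∀ a b, r a b ≠ 0 → h a = h b - 2) ∧
      ∀ v : I → ℂ, (∀ a, v a ≠ 0 → 0 ≤ h a) → e.mulVec (r.mulVec v) = v := by
  obtain ⟨r₀, hr₀, -, hr₁, -⟩ := Gd.exists_section H
  have key : ∀ b : I, ∃ x : I → ℂ, (∀ a, x a ≠ 0 → h a = h b - 2) ∧
      (0 ≤ h b → e.mulVec x = Pi.single b 1) := by
    intro b
    rcases lt_trichotomy (h b) 0 with hb | hb | hb
    · exact ⟨0, fun a ha => absurd rfl ha, fun h1 => absurd hb (not_lt.2 h1)⟩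
    · have hx : Gd.InH h 0 (Pi.single b (1 : ℂ)) := by
        intro a ha
        by_cases hab : a = b
        · rw [hab, hb]
        · exact absurd (Pi.single_eq_of_ne hab _) ha
      obtain ⟨y, hy1, hy2⟩ := YH11_onto H h0 hx
      refine ⟨y, fun a ha => ?_, fun _ => hy2⟩
      rw [hy1 a ha, hb]
      rfl
    · refine ⟨fun a => r₀ a b, fun a ha => ?_, fun _ => ?_⟩
      · rw [hr₀ a b ha]
        ring
      · ext a
        have h1 := hr₁ a b hb
        rw [Matrix.sub_apply, sub_eq_zero, Matrix.mul_apply] at h1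
        rw [Matrix.mulVec, dotProduct, ← h1, Matrix.one_apply, Pi.single_apply]
  choose x hx1 hx2 using key
  refine ⟨Matrix.of fun a b => x b a, fun a b hab => hx1 b a hab, ?_⟩
  intro v hv
  have h1 : (Matrix.of fun a b => x b a).mulVec v = ∑ b, v b • x b := by
    ext a
    rw [Matrix.mulVec, dotProduct, Finset.sum_apply]
    apply Finset.sum_congr rfl
    intro b _
    rw [Matrix.of_apply, Pi.smul_apply, smul_eq_mul, mul_comm]
  have h2 : e.mulVec (∑ b, v b • x b) = ∑ b, v b • e.mulVec (x b) := by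
    have := map_sum e.mulVecLin (fun b => v b • x b) Finset.univ
    simp only [Matrix.mulVecLin_apply, map_smul] at this
    rw [this]
  rw [h1, h2]
  have h3 : ∀ b, v b • e.mulVec (x b) = v b • (Pi.single b (1 : ℂ) : I → ℂ) := by
    intro b
    by_cases hb : v b = 0
    · rw [hb, zero_smul, zero_smul]
    · rw [hx2 b (hv b hb)]
  rw [Finset.sum_congr rfl fun b _ => h3 b]
  ext a
  rw [Finset.sum_apply, Finset.sum_eq_single a]
  · simp
  · intro b _ hb
    rw [Pi.smul_apply, Pi.single_eq_of_ne (Ne.symm hb), smul_zero]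
  · intro h
    exact absurd (Finset.mem_univ a) h

end Pool.Agent.MTG
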