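import Pool.Agent.MTG.YH0

/-! # MTG-YH : highest weight representations -/

namespace Pool.Agent.MTG

open Pool.Agent.MTF Matrix
open Pool.Agent.MTD (ev)
open Pool.Agent.MTX.SLD (AA fm0)
open Pool.Agent.MTH
open Pool.Agent.MP_c45d35_ag (chi)

/-- YH1a, the iteration -/
theorem YH1a_step {G : AffGrp} {n : ℕ} {D : RD n} (C : CD G D) {R : Type} [CommRing R] [Algebra ℂ R]
    {s : ℤ} (hs : s = 1 ∨ s = -1) (M : ℤ) (hM : ∀ z : LR D R, Sp s M z → z = 0) (k : ℕ) :
    ∀ m : ℤ, 1 ≤ m → M ≤ m + k → ∀ Z Z' : LR D R, Sp s 1 Z → Sp s 1 Z' → Sp s m (Z' - Z) →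
      ∃ L : List (LR D R), (∀ z ∈ L, Sp s 1 z) ∧
        Adp C (L.map (ex C)).prod (CD.hx (hv D R) + Z) = CD.hx (hv D R) + Z' := by
  induction k with
  | zero =>
    intro m _ hMm Z Z' _ _ h
    have h1 : Z' - Z = 0 := hM _ (Sp_mono (by simpa using hMm) h)
    refine ⟨[], fun z hz => absurd hz (List.not_mem_nil), ?_⟩
    rw [List.map_nil, List.prod_nil, Adp_one, sub_eq_zero.1 h1]
  | succ k ih =>
    intro m hm hMm Z Z' hZ hZ' h
    obtain ⟨Y, hY, Z'', hZ'', hA, h2⟩ := step_U C hm (x := hv D R)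
      (fun γ _ => isUnit_ht γ) hZ hZ' h
    obtain ⟨L, hL, hL2⟩ := ih (m + 1) (by omega) (by push_cast at hMm; omega) Z'' Z' hZ'' hZ' h2
    refine ⟨L ++ [Y], ?_, ?_⟩
    · intro z hz
      rcases List.mem_append.1 hz with h3 | h3
      · exact hL z h3
      · rw [List.mem_singleton.1 h3]
        exact Sp_mono hm hY
    · rw [List.map_append, List.prod_append, List.map_singleton, List.prod_singleton, Adp_mul, hA,
        hL2]

theorem YH1a_UU {G : AffGrp} {n : ℕ} {D : RD n} (C : CD G D) {R : Type} [CommRing R] [Algebra ℂ R]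
    {s : ℤ} (L : List (LR D R)) (hL : ∀ z ∈ L, Sp s 1 z) : UU C s (L.map (ex C)).prod := by
  induction L with
  | nil =>
    rw [List.map_nil, List.prod_nil]
    exact UU_one C
  | cons z L ih =>
    rw [List.map_cons, List.prod_cons]
    exact UU_mul C (UU_ex C (hL z List.mem_cons_self))
      (ih fun z hz => hL z (List.mem_cons_of_mem _ hz))

/-- YH1a.  Every unipotent point is a product of exponentials.  `Z` from `UU_hv`.  As in the proof of `exists_U'` (iterate
`step_U` with `x = hv D R`, `isUnit_ht`, up to the bound of `exists_Sp_zero`) there is a list `L` of elements of positive height with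
`Adp C (L.map (ex C)).prod (hx hv) = hx hv + Z` : state the induction as: for all `m ≥ 1`, all `Z`, `Z'` with `Sp s 1 Z`, `Sp s 1 Z'`,
`Sp s m (Z' - Z)` there is `L` with `Adp C (L.map (ex C)).prod (hx hv + Z) = hx hv + Z'` (downward induction from the bound).
The product is `UU` (`UU_ex`, `UU_mul`), so `(L.map (ex C)).prod⁻¹ * φ` is `UU` and fixes `hx hv`, `UU_eq_one`. -/
theorem UU_prod {G : AffGrp} {n : ℕ} {D : RD n} (C : CD G D) {R : Type} [CommRing R] [Algebra ℂ R]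
    {s : ℤ} (hs : s = 1 ∨ s = -1) {φ : G.Pt R} (hφ : UU C s φ) :
    ∃ L : List (LR D R), (∀ z ∈ L, Sp s 1 z) ∧ φ = (L.map (ex C)).prod := by
  obtain ⟨Z, hZ, hZ2⟩ := UU_hv C hφ
  obtain ⟨M, hM⟩ := exists_Sp_zero D
  obtain ⟨L, hL, hL2⟩ := YH1a_step C hs M (hM R s hs) (M - 1).toNat 1 le_rfl (by omega) 0 Z
    Sp_zero hZ (by rw [sub_zero]; exact hZ)
  refine ⟨L, hL, ?_⟩
  have hU := YH1a_UU C L hL
  set ψ := (L.map (ex C)).prod with hψ
  rw [add_zero] at hL2
  have h1 : ψ⁻¹ * φ = 1 := by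
    refine UU_eq_one C (UU_mul C (UU_inv C hU) hφ) ?_
    rw [Adp_mul, hZ2, ← hL2, ← Adp_mul, inv_mul_cancel, Adp_one]
  exact (inv_mul_eq_one.1 h1).symm

end Pool.Agent.MTG
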