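import Pool.Agent.MTG.YH1a

/-! # MTG-YH : highest weight representations -/

namespace Pool.Agent.MTG

open Pool.Agent.MTF Matrix
open Pool.Agent.MTD (ev)
open Pool.Agent.MTX.SLD (AA fm0)
open Pool.Agent.MTH
open Pool.Agent.MP_c45d35_ag (chi)

theorem yh1b_zero {n : ℕ} (D : RD n) : Qp D 0 := ⟨fun _ => 0, by simp⟩

theorem yh1b_add {n : ℕ} {D : RD n} {p q : Fin n → ℤ} (hp : Qp D p) (hq : Qp D q) : Qp D (p + q) := by
  obtain ⟨c, rfl⟩ := hp
  obtain ⟨d, rfl⟩ := hq
  refine ⟨fun α => c α + d α, ?_⟩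
  rw [← Finset.sum_add_distrib]
  exact Finset.sum_congr rfl fun α _ => (add_smul _ _ _).symm

theorem yh1b_neg {n : ℕ} (D : RD n) (x : Fin n → ℤ) : D.ht2 (-x) = - D.ht2 x := by
  have := D.ht2_smul (-1) x
  simpa using this

theorem yh1b_pos {n : ℕ} {D : RD n} {γ : D.Rt} (h : 1 ≤ D.ht2 γ.1) : Qp D γ.1 := by
  have h1 : D.Pos γ := by
    by_contra h2
    have h3 := (D.ht2_pos ((D.pos_ng γ).2 h2)).1
    rw [D.ng_val, yh1b_neg] at h3
    omega
  exact D.exists_sum h1

theorem yh1b_root {n : ℕ} {D : RD n} {s : ℤ} (hs : s = 1 ∨ s = -1) {γ : D.Rt}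
    (h : 1 ≤ s * D.ht2 γ.1) : Qp D (s • γ.1) := by
  rcases hs with rfl | rfl
  · rw [one_smul]
    exact yh1b_pos (by omega)
  · have h1 : Qp D (D.ng γ).1 := yh1b_pos (by rw [D.ng_val, yh1b_neg]; omega)
    rw [neg_smul, one_smul]
    exact h1

/-- matrices with support in the cone -/
def yh1b_S {n : ℕ} (D : RD n) {ι R : Type} [Zero R] (s : ℤ) (w : ι → Fin n → ℤ) (A : Matrix ι ι R) : Prop :=
  ∀ a b, A a b ≠ 0 → Qp D (s • (w a - w b))

theorem yh1b_one {n : ℕ} {D : RD n} {ι R : Type} [DecidableEq ι] [Zero R] [One R] (s : ℤ) (w : ι → Fin n → ℤ) :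
    yh1b_S D s w (1 : Matrix ι ι R) := by
  intro a b h
  by_cases hab : a = b
  · rw [hab, sub_self, smul_zero]
    exact yh1b_zero D
  · exact absurd (Matrix.one_apply_ne hab) h

theorem yh1b_mul {n : ℕ} {D : RD n} {ι R : Type} [Fintype ι] [CommRing R] {s : ℤ} {w : ι → Fin n → ℤ}
    {A B : Matrix ι ι R} (hA : yh1b_S D s w A) (hB : yh1b_S D s w B) : yh1b_S D s w (A * B) := by
  intro a b h
  rw [Matrix.mul_apply] at h
  obtain ⟨c, -, hc⟩ := Finset.exists_ne_zero_of_sum_ne_zero h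
  have h1 := hA a c (left_ne_zero_of_mul hc)
  have h2 := hB c b (right_ne_zero_of_mul hc)
  have h3 := yh1b_add h1 h2
  rw [← smul_add, sub_add_sub_cancel] at h3
  exact h3

theorem yh1b_pow {n : ℕ} {D : RD n} {ι R : Type} [Fintype ι] [DecidableEq ι] [CommRing R] {s : ℤ}
    {w : ι → Fin n → ℤ} {A : Matrix ι ι R} (hA : yh1b_S D s w A) (k : ℕ) : yh1b_S D s w (A ^ k) := by
  induction k with
  | zero =>
    rw [pow_zero]
    exact yh1b_one s w
  | succ k ih =>
    rw [pow_succ]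
    exact yh1b_mul ih hA

theorem yh1b_mexp {n : ℕ} {D : RD n} {ι R : Type} [Fintype ι] [DecidableEq ι] [CommRing R] [Algebra ℂ R]
    {s : ℤ} {w : ι → Fin n → ℤ} {A : Matrix ι ι R} (hA : yh1b_S D s w A) : yh1b_S D s w (mexp A) := by
  intro a b h
  unfold mexp at h
  rw [Matrix.sum_apply] at h
  obtain ⟨k, -, hk⟩ := Finset.exists_ne_zero_of_sum_ne_zero h
  rw [Matrix.smul_apply, smul_eq_mul] at hk
  exact yh1b_pow hA k a b (right_ne_zero_of_mul hk)

theorem yh1b_dm {G : AffGrp} {n : ℕ} {D : RD n} (C : CD G D) {R : Type} [CommRing R] [Algebra ℂ R]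
    {s : ℤ} (hs : s = 1 ∨ s = -1) {z : LR D R} (hz : Sp s 1 z) {E : MTF.Rep G}
    {w : E.ι → Fin n → ℤ} (hE : C.IsW E w) : yh1b_S D s w (C.dm E z) := by
  intro a b h
  rw [CD.dm_apply] at h
  obtain ⟨j, -, hj⟩ := Finset.exists_ne_zero_of_sum_ne_zero h
  have h1 := left_ne_zero_of_mul hj
  have h2 := right_ne_zero_of_mul hj
  rcases j with k | γ
  · have := hz.1 k h1
    omega
  · have h3 := hz.2 γ h1
    have h4 : E.d (C.e γ) a b ≠ 0 := by
      intro h5
      apply h2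
      show algebraMap ℂ R (E.d (C.e γ) a b) = 0
      rw [h5, map_zero]
    have h5 := hE.d_e γ a b h4
    rw [h5, add_sub_cancel_left]
    exact yh1b_root hs h3

/-- YH1b.  Support of unipotent points.  `Qp D` is closed under addition and contains `0` and the positive roots (`exists_sum`).
For an exponential: `ex_pt`, an entry `(a, b)` of `(C.dm E z) ^ k` is nonzero only if `s • (w a - w b)` is a sum of `k` positive roots
(induction; `dm_apply`, `IsW.d_e`, and the Cartan components of `z` vanish: `Sp s 1 z`; a root `γ` with `1 ≤ s * ht2 γ` has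
`s • γ` positive: `ht2_pos`, `pos_ng`).  Products: `UU_prod`, `Rep.pt_mul`. -/
theorem UU_supp {G : AffGrp} {n : ℕ} {D : RD n} (C : CD G D) {R : Type} [CommRing R] [Algebra ℂ R]
    {s : ℤ} (hs : s = 1 ∨ s = -1) {φ : G.Pt R} (hφ : UU C s φ) {E : MTF.Rep G}
    {w : E.ι → Fin n → ℤ} (hE : C.IsW E w) {a b : E.ι} (h : E.pt φ a b ≠ 0) :
    Qp D (s • (w a - w b)) := by
  obtain ⟨L, hL, rfl⟩ := UU_prod C hs hφ
  have h1 : ∀ L : List (LR D R), (∀ z ∈ L, Sp s 1 z) → yh1b_S D s w (E.pt (L.map (ex C)).prod) := by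
    intro L
    induction L with
    | nil =>
      intro _
      rw [List.map_nil, List.prod_nil, Rep.pt_one]
      exact yh1b_one s w
    | cons z L ih =>
      intro hz
      rw [List.map_cons, List.prod_cons, Rep.pt_mul, ex_pt C (hz z List.mem_cons_self)]
      exact yh1b_mul (yh1b_mexp (yh1b_dm C hs (hz z List.mem_cons_self) hE))
        (ih fun y hy => hz y (List.mem_cons_of_mem _ hy))
  exact h1 L hL a b h

end Pool.Agent.MTG
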