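import Pool.Agent.MTG.YH0

/-! # MTG-YH : highest weight representations -/

namespace Pool.Agent.MTG

open Pool.Agent.MTF Matrix
open Pool.Agent.MTD (ev)
open Pool.Agent.MTX.SLD (AA fm0)
open Pool.Agent.MTH
open Pool.Agent.MP_c45d35_ag (chi)

/-- YH2a.  The weights are permuted by the Weyl group.  `φ` from `exists_nw u`; the matrix `E.pt φ` is invertible (`pt_mul_inv`), so its
determinant is nonzero and some product `∏ a, E.pt φ (σ a) a` is nonzero (`Matrix.det_apply`); `nw_supp` for every entry `(σ a, a)`. -/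
theorem exists_perm {G : AffGrp} {n : ℕ} {D : RD n} (C : CD G D) {E : MTF.Rep G}
    {w : E.ι → Fin n → ℤ} (hE : C.IsW E w) (u : D.W) :
    ∃ σ : Equiv.Perm E.ι, ∀ a, w (σ a) = u.1 (w a) := by
  classical
  obtain ⟨φ, hφ⟩ := exists_nw C u
  have h1 : (E.pt φ).det ≠ 0 := by
    intro h0
    have h2 := congrArg Matrix.det (Rep.pt_mul_inv E φ)
    rw [Matrix.det_mul, h0, zero_mul, Matrix.det_one] at h2
    exact zero_ne_one h2
  rw [Matrix.det_apply] at h1
  obtain ⟨σ, -, hσ⟩ := Finset.exists_ne_zero_of_sum_ne_zero h1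
  refine ⟨σ, fun a => ?_⟩
  have h3 : ∏ i, E.pt φ (σ i) i ≠ 0 := fun h0 => hσ (by rw [h0, smul_zero])
  exact nw_supp C hE hφ (σ a) a (Finset.prod_ne_zero_iff.1 h3 a (Finset.mem_univ a))

end Pool.Agent.MTG
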