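import Pool.Agent.MTG.YH0

/-! # MTG-YH : highest weight representations -/

namespace Pool.Agent.MTG

open Pool.Agent.MTF Matrix
open Pool.Agent.MTD (ev)
open Pool.Agent.MTX.SLD (AA fm0)
open Pool.Agent.MTH
open Pool.Agent.MP_c45d35_ag (chi)

theorem YH2b_cpW {n : ℕ} (D : RD n) {x : Fin n → ℤ} (h : ∀ α : D.SRt, D.cp α.1 x = 0)
    (l : List D.SRt) : ((l.map D.sW).prod).1 x = x := by
  induction l with
  | nil => rfl
  | cons a l ih =>
    rw [List.map_cons, List.prod_cons]
    show (D.sW a).1 (((l.map D.sW).prod).1 x) = x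
    rw [ih]
    show D.rf a.1 x = x
    rw [RD.rf, h a, zero_smul, sub_zero]

theorem YH2b_ht2_neg {n : ℕ} (D : RD n) (x : Fin n → ℤ) : D.ht2 (-x) = - D.ht2 x := by
  have := D.ht2_smul (-1) x
  simpa using this

/-- YH2b.  (1) The simple coroots separate `X`: if `cp α x = 0` for all simple `α` then `x` is fixed by all simple reflections, hence by the Weyl group
(`exists_list`), so `rf γ x = x`, `cp γ x = 0` for all `γ` (`γ.1 ≠ 0`) and `x = 0` (`D.span`, `cp_mul`). -/
theorem RD.eq_zero_of_cp {n : ℕ} (D : RD n) {x : Fin n → ℤ} (h : ∀ α : D.SRt, D.cp α.1 x = 0) :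
    x = 0 := by
  refine D.span x fun γ hγ => ?_
  obtain ⟨l, hl⟩ := D.exists_list (D.rW ⟨γ, hγ⟩)
  have h1 := YH2b_cpW D h l
  rw [hl] at h1
  have h2 : D.rf ⟨γ, hγ⟩ x = x := h1
  rw [RD.rf, sub_eq_self] at h2
  have h3 : D.cp ⟨γ, hγ⟩ x = 0 := by
    rcases smul_eq_zero.1 h2 with h3 | h3
    · exact h3
    · exact absurd h3 (D.Rt_ne ⟨γ, hγ⟩)
  have h4 := D.cp_mul ⟨γ, hγ⟩ x
  rw [h3, zero_mul] at h4
  have h5 : D.B γ x = 0 := by
    have : 2 * D.B γ x = 0 := h4.symm
    omega
  exact h5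

/-- (2) Different simple roots have non-positive pairing.  If `cp α β > 0` then `α - β` is a root (`add_root` for `α`, `ng β`: `cp α (ng β) < 0`),
or `0`; it has `ht2 = 0` (`ht2_sim`), roots have nonzero `ht2` (`ht2_pos`, `pos_ng`). -/
theorem RD.cp_sim {n : ℕ} (D : RD n) {α β : D.SRt} (h : α ≠ β) : D.cp α.1 β.1.1 ≤ 0 := by
  by_contra hc
  push Not at hc
  have h1 : D.cp α.1 (D.ng β.1).1 < 0 := by
    rw [RD.ng_val, RD.cp_neg]; omega
  have hht : D.ht2 (α.1.1 + (D.ng β.1).1) = 0 := by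
    rw [RD.ht2_add, RD.ng_val, YH2b_ht2_neg, RD.ht2_sim, RD.ht2_sim]; norm_num
  rcases D.add_root h1 with h2 | h2
  · apply h
    apply Subtype.ext
    apply Subtype.ext
    rw [RD.ng_val] at h2
    exact eq_of_sub_eq_zero (by rw [sub_eq_add_neg]; exact h2)
  · by_cases hp : D.Pos ⟨_, h2⟩
    · have := (D.ht2_pos hp).1
      simp only at this
      omega
    · have h3 := (D.pos_ng ⟨_, h2⟩).2 hp
      have h4 := (D.ht2_pos h3).1
      rw [RD.ng_val, YH2b_ht2_neg] at h4
      simp only at h4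
      omega

theorem YH2b_B_sum_left {n : ℕ} (D : RD n) {ι : Type*} (s : Finset ι) (f : ι → Fin n → ℤ)
    (y : Fin n → ℤ) : D.B (∑ i ∈ s, f i) y = ∑ i ∈ s, D.B (f i) y := by
  classical
  induction s using Finset.induction_on with
  | empty => simp [RD.B_zero_left]
  | insert a s ha ih => rw [Finset.sum_insert ha, Finset.sum_insert ha, RD.B_add_left, ih]

theorem YH2b_ht2_sum {n : ℕ} (D : RD n) {ι : Type*} (s : Finset ι) (f : ι → Fin n → ℤ) :
    D.ht2 (∑ i ∈ s, f i) = ∑ i ∈ s, D.ht2 (f i) := by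
  classical
  induction s using Finset.induction_on with
  | empty =>
    have := D.ht2_smul 0 0
    simpa using this
  | insert a s ha ih => rw [Finset.sum_insert ha, Finset.sum_insert ha, RD.ht2_add, ih]

/-- (3) The simple roots are linearly independent.  For integers `c α` with `∑ c α • α = 0` let `v = ∑ (c α)⁺ α = ∑ (c α)⁻ α`; then
`B(v, v) = ∑ (c α)⁺ (c β)⁻ B(α, β) ≤ 0` (`cp_sim`, `cp_cf`; the diagonal terms vanish), so `v = 0` and `0 = ht2 v = 2 ∑ (c α)⁺`; the same for `(c α)⁻`. -/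
theorem RD.indep_sim {n : ℕ} (D : RD n) (c : D.SRt → ℤ) (h : ∑ α, c α • α.1.1 = 0) : c = 0 := by
  classical
  set v : Fin n → ℤ := ∑ α : D.SRt, (c α)⁺ • α.1.1 with hv
  have hw : v = ∑ α : D.SRt, (c α)⁻ • α.1.1 := by
    rw [hv, ← sub_eq_zero, ← Finset.sum_sub_distrib, ← h]
    refine Finset.sum_congr rfl fun α _ => ?_
    rw [← sub_smul, posPart_sub_negPart]
  have hB : D.B v v ≤ 0 := by
    have h1 : D.B v v = ∑ α : D.SRt, ∑ β : D.SRt, (c α)⁺ * ((c β)⁻ * D.B α.1.1 β.1.1) := by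
      conv_lhs => rw [hv]
      rw [YH2b_B_sum_left]
      refine Finset.sum_congr rfl fun α _ => ?_
      rw [RD.B_smul_left, ← hv, hw, RD.B_comm, YH2b_B_sum_left, Finset.mul_sum]
      refine Finset.sum_congr rfl fun β _ => ?_
      rw [RD.B_smul_left, RD.B_comm]
    rw [h1]
    refine Finset.sum_nonpos fun α _ => Finset.sum_nonpos fun β _ => ?_
    by_cases hab : α = β
    · subst hab
      rw [← mul_assoc]
      have : (c α)⁺ * (c α)⁻ = 0 := by
        rcases le_total (c α) 0 with h2 | h2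
        · rw [posPart_eq_zero.2 h2, zero_mul]
        · rw [negPart_eq_zero.2 h2, mul_zero]
      rw [this, zero_mul]
    · have h2 : D.B α.1.1 β.1.1 ≤ 0 := by
        rw [← D.cp_cf]
        exact mul_nonpos_of_nonpos_of_nonneg (D.cp_sim hab) (D.cf_pos _).le
      exact mul_nonpos_of_nonneg_of_nonpos (posPart_nonneg _)
        (mul_nonpos_of_nonneg_of_nonpos (negPart_nonneg _) h2)
  have hv0 : v = 0 := by
    by_contra h0
    have := D.B_pos h0
    omega
  have hh : ∀ e : D.SRt → ℤ, (∀ α, 0 ≤ e α) → ∑ α : D.SRt, e α • α.1.1 = 0 → ∀ α, e α = 0 := by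
    intro e he h0 α
    have h1 : D.ht2 (∑ α : D.SRt, e α • α.1.1) = ∑ α : D.SRt, e α * 2 := by
      rw [YH2b_ht2_sum]
      exact Finset.sum_congr rfl fun α _ => by rw [RD.ht2_smul, RD.ht2_sim]
    rw [h0] at h1
    have h2 : D.ht2 (0 : Fin n → ℤ) = 0 := by
      have := D.ht2_smul 0 0
      simpa using this
    rw [h2] at h1
    have h3 := (Finset.sum_eq_zero_iff_of_nonneg (fun β _ => mul_nonneg (he β) (by norm_num :
      (0 : ℤ) ≤ 2))).1 h1.symm α (Finset.mem_univ _)
    omega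
  funext α
  have h1 := hh (fun α => (c α)⁺) (fun α => posPart_nonneg _) (by rw [← hv0, hv]) α
  have h2 := hh (fun α => (c α)⁻) (fun α => negPart_nonneg _) (by rw [← hv0, hw]) α
  have h3 := posPart_sub_negPart (c α)
  rw [h1, h2] at h3
  simpa using h3.symm

/-- (4) Multiples of the fundamental weights.  The functionals `cp α` (`α` simple) are linearly independent over `ℚ`: `cp α x = 2 B(α, x) / B(α, α)`,
`B` is nondegenerate, `indep_sim`.  So there is a rational, hence (clearing denominators) an integral `p` with `cp β p = 0` for `β ≠ α` and `cp α p > 0`. -/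
theorem RD.exists_fund {n : ℕ} (D : RD n) (α : D.SRt) : ∃ p : Fin n → ℤ,
    (∀ β : D.SRt, β ≠ α → D.cp β.1 p = 0) ∧ 0 < D.cp α.1 p := by
  classical
  set r : D.SRt → (Fin n → ℚ) := fun β j => ((β.1.1 j : ℤ) : ℚ) with hr
  have hZ : LinearIndependent ℤ r := by
    rw [Fintype.linearIndependent_iff]
    intro g hg
    have h1 : ∑ β, g β • β.1.1 = 0 := by
      funext j
      have h2 := congrFun hg j
      rw [Finset.sum_apply] at h2 ⊢
      have h3 : ((∑ β, (g β • β.1.1) j : ℤ) : ℚ) = 0 := by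
        push_cast
        rw [Pi.zero_apply] at h2
        rw [← h2]
        refine Finset.sum_congr rfl fun β _ => ?_
        simp [hr]
      exact_mod_cast h3
    have := D.indep_sim g h1
    intro i
    rw [this]; rfl
  have hQ : LinearIndependent ℚ r := (LinearIndependent.iff_fractionRing ℤ ℚ).1 hZ
  obtain ⟨g, hg⟩ := LinearMap.exists_extend ((Finsupp.lapply (M := ℚ) (R := ℚ) α).comp hQ.repr)
  have hgr : ∀ β, g (r β) = if β = α then 1 else 0 := by
    intro β
    have hmem : r β ∈ Submodule.span ℚ (Set.range r) := Submodule.subset_span ⟨β, rfl⟩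
    have h1 := congrArg (fun f => f ⟨r β, hmem⟩) hg
    simp only [LinearMap.comp_apply, Submodule.subtype_apply] at h1
    rw [h1]
    show (hQ.repr ⟨r β, hmem⟩) α = _
    rw [hQ.repr_eq_single β ⟨r β, hmem⟩ rfl, Finsupp.single_apply]
  set q : Fin n → ℚ := fun j => g (Pi.single j 1) with hq
  have hgq : ∀ x : Fin n → ℚ, g x = ∑ j, x j * q j := by
    intro x
    conv_lhs => rw [pi_eq_sum_univ' x, map_sum]
    refine Finset.sum_congr rfl fun j _ => ?_
    rw [map_smul, smul_eq_mul, hq]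
  obtain ⟨⟨b, hb⟩, hbq⟩ := IsLocalization.exist_integer_multiples_of_finite (nonZeroDivisors ℤ) q
  choose f hf using hbq
  have hb0 : b ≠ 0 := nonZeroDivisors.ne_zero hb
  have hfq : ∀ j, ((f j : ℤ) : ℚ) = (b : ℚ) * q j := by
    intro j
    have := hf j
    simpa [Submonoid.smul_def, zsmul_eq_mul] using this
  obtain ⟨p, d, hd, hp⟩ := D.exists_dual (fun i => b * f i)
  have hBp : ∀ β : D.SRt, D.B p β.1.1 = if β = α then d * (b * b) else 0 := by
    intro β
    rw [hp]
    have h1 : ((∑ i, (b * f i) * β.1.1 i : ℤ) : ℚ) = (b : ℚ) * b * g (r β) := by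
      rw [hgq]
      push_cast
      rw [Finset.mul_sum]
      refine Finset.sum_congr rfl fun j _ => ?_
      rw [hfq]
      simp only [hr]
      ring
    rw [hgr β] at h1
    by_cases hβ : β = α
    · rw [if_pos hβ] at h1 ⊢
      have : (∑ i, (b * f i) * β.1.1 i : ℤ) = b * b := by
        have h2 : ((∑ i, (b * f i) * β.1.1 i : ℤ) : ℚ) = ((b * b : ℤ) : ℚ) := by
          rw [h1]; push_cast; ring
        exact_mod_cast h2
      rw [this]
    · rw [if_neg hβ] at h1 ⊢
      have : (∑ i, (b * f i) * β.1.1 i : ℤ) = 0 := by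
        have h2 : ((∑ i, (b * f i) * β.1.1 i : ℤ) : ℚ) = ((0 : ℤ) : ℚ) := by
          rw [h1]; push_cast; ring
        exact_mod_cast h2
      rw [this, mul_zero]
  refine ⟨p, fun β hβ => ?_, ?_⟩
  · have h1 := D.cp_cf β.1 p
    rw [RD.B_comm, hBp β, if_neg hβ] at h1
    rcases mul_eq_zero.1 h1 with h2 | h2
    · exact h2
    · exact absurd h2 (D.cf_pos _).ne'
  · have h1 := D.cp_cf α.1 p
    rw [RD.B_comm, hBp α, if_pos rfl] at h1
    have h2 : 0 < d * (b * b) := mul_pos hd (mul_self_pos.2 hb0)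
    rw [← h1] at h2
    exact (pos_iff_pos_of_mul_pos h2).2 (D.cf_pos _)

end Pool.Agent.MTG
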