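import Pool.Agent.MTG.YH1b
import Pool.Agent.MTG.YH2a
import Pool.Agent.MTG.YH2b

/-! # MTG-YH : highest weight representations -/

namespace Pool.Agent.MTG

open Pool.Agent.MTF Matrix
open Pool.Agent.MTD (ev)
open Pool.Agent.MTX.SLD (AA fm0)
open Pool.Agent.MTH
open Pool.Agent.MP_c45d35_ag (chi)

theorem YH3_B_sum_left {n : ℕ} (D : RD n) {ι : Type*} (s : Finset ι) (f : ι → Fin n → ℤ)
    (y : Fin n → ℤ) : D.B (∑ i ∈ s, f i) y = ∑ i ∈ s, D.B (f i) y := by
  classical
  induction s using Finset.induction_on with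
  | empty => simp [RD.B_zero_left]
  | insert a s ha ih => rw [Finset.sum_insert ha, Finset.sum_insert ha, RD.B_add_left, ih]

/-- the sum of the weights vanishes -/
theorem YH3_sum_wt {G : AffGrp} {n : ℕ} {D : RD n} (C : CD G D) : ∑ a, C.wt a = 0 := by
  have hinv : ∀ u : D.W, u.1 (∑ a, C.wt a) = ∑ a, C.wt a := by
    intro u
    obtain ⟨σ, hσ⟩ := exists_perm C C.isW_F u
    rw [map_sum]
    rw [← Equiv.sum_comp σ (fun a => C.wt a)]
    exact Finset.sum_congr rfl fun a _ => (hσ a).symm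
  refine D.span _ fun γ hγ => ?_
  have h1 : D.rf ⟨γ, hγ⟩ (∑ a, C.wt a) = ∑ a, C.wt a := hinv (D.rW ⟨γ, hγ⟩)
  have h2 := D.cp_rf ⟨γ, hγ⟩ (∑ a, C.wt a)
  rw [h1] at h2
  have h3 : D.cp ⟨γ, hγ⟩ (∑ a, C.wt a) = 0 := by omega
  have h4 := D.cp_mul ⟨γ, hγ⟩ (∑ a, C.wt a)
  rw [h3, zero_mul] at h4
  have h5 : D.B γ (∑ a, C.wt a) = 0 := by
    have h6 : 2 * D.B γ (∑ a, C.wt a) = 0 := h4.symm
    omega
  exact h5

/-- some weight has a positive pairing with `p` -/
theorem YH3_exists_pos {G : AffGrp} {n : ℕ} {D : RD n} (C : CD G D) {p : Fin n → ℤ}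
    (h0 : p ≠ 0) : ∃ a, 0 < D.B (C.wt a) p := by
  by_contra hc
  push Not at hc
  have h1 : ∑ a, D.B (C.wt a) p = 0 := by
    rw [← YH3_B_sum_left, YH3_sum_wt, RD.B_zero_left]
  have h2 : ∀ a, D.B (C.wt a) p = 0 := fun a =>
    (Finset.sum_eq_zero_iff_of_nonpos (fun b _ => hc b)).1 h1 a (Finset.mem_univ _)
  have h3 : ∀ x : Fin n → ℤ, D.B x p = 0 := by
    intro x
    have hx : x ∈ AddSubgroup.closure (Set.range C.wt) := by rw [C.gen]; trivial
    induction hx using AddSubgroup.closure_induction with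
    | mem x hx => obtain ⟨a, rfl⟩ := hx; exact h2 a
    | zero => exact D.B_zero_left _
    | add x y _ _ hx hy => rw [RD.B_add_left, hx, hy, add_zero]
    | neg x _ hx => rw [RD.B_neg_left, hx, neg_zero]
  exact (D.B_pos h0).ne' (h3 p)

theorem YH3_chi_zero {n : ℕ} (t : Fin n → ℂˣ) : chi (0 : Fin n → ℤ) t = 1 := by
  unfold chi
  simp

theorem YH3_chi_add {n : ℕ} (x y : Fin n → ℤ) (t : Fin n → ℂˣ) :
    chi (x + y) t = chi x t * chi y t := by
  unfold chi
  rw [← Finset.prod_mul_distrib]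
  exact Finset.prod_congr rfl fun k _ => by rw [Pi.add_apply, _root_.zpow_add]

theorem YH3_chi_sum {n : ℕ} {ι : Type*} (s : Finset ι) (f : ι → Fin n → ℤ) (t : Fin n → ℂˣ) :
    chi (∑ i ∈ s, f i) t = ∏ i ∈ s, chi (f i) t := by
  classical
  induction s using Finset.induction_on with
  | empty => rw [Finset.sum_empty, Finset.prod_empty, YH3_chi_zero]
  | insert a s ha ih => rw [Finset.sum_insert ha, Finset.prod_insert ha, YH3_chi_add, ih]

/-- YH3.  Minors.  Let `m` be the maximum of `B(wt a, p)`, `S = {a | B(wt a, p) = m}` (the weights generate `X ≠ 0`, so `C.F.ι` is nonempty), `e` the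
diagonal projection to `S`, `f := det (e M e + 1 - e)`, `M = (C.F.co a b)` over `G.O`, `μ := ∑_{a ∈ S} wt a`.
Cell: `F(x) = F(u) diag(chi (wt a) t) F(v)` (`toX_mul`/`pt_toX`, `Rep.pt_mul`, `tq_pt`).  `UU_supp`: `F(u) a b ≠ 0 → Qp (wt b - wt a)`, so
`B(wt a, p) ≤ B(wt b, p)` (`Qp.B_nonneg`): `e F(u) (1 - e) = 0`; `F(v) a b ≠ 0 → Qp (wt a - wt b)`, so `(1 - e) F(v) e = 0`.
So `e F(x) e + 1 - e = (e F(u) e + 1 - e)(e diag e + 1 - e)(e F(v) e + 1 - e)`; the outer determinants are `1` (`det_low`, `det_up` for `ht = ht2 (wt a)`).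
`B(μ, p) = |S| m` and `m > 0`: the sum `x` of all weights is invariant under the Weyl group (`exists_perm`), so `rf γ x = x`, `cp γ x = 0`, `x = 0` (`D.span`); if `m ≤ 0`
then all `B(wt a, p) ≤ 0` have sum `0`, so they vanish, and `B(·, p) = 0` (`C.gen`), `p = 0`.
Invariance: `exists_perm`; `σ` preserves `S` as `B(u (wt a), p) = B(wt a, p)`. -/
theorem CD.exists_minor {G : AffGrp} {n : ℕ} {D : RD n} (C : CD G D) {p : Fin n → ℤ}
    (hp : D.Dom p) (h0 : p ≠ 0) : ∃ (μ : Fin n → ℤ) (f : G.O), IsDl C μ f ∧ 0 < D.B μ p ∧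
      ∀ u : D.W, u.1 p = p → u.1 μ = μ := by
  classical
  obtain ⟨a1, ha1⟩ := YH3_exists_pos C h0
  have : Nonempty C.F.ι := ⟨a1⟩
  obtain ⟨a0, ha0⟩ := Finite.exists_max (fun a => D.B (C.wt a) p)
  set m := D.B (C.wt a0) p with hm
  have hm0 : 0 < m := lt_of_lt_of_le ha1 (ha0 a1)
  -- bound of the heights
  set M : ℤ := ∑ a, |D.ht2 (C.wt a)| with hM
  have hMb : ∀ a, |D.ht2 (C.wt a)| ≤ M := fun a =>
    Finset.single_le_sum (f := fun a => |D.ht2 (C.wt a)|) (fun b _ => abs_nonneg _)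
      (Finset.mem_univ a)
  have hM0 : 0 ≤ M := le_trans (abs_nonneg _) (hMb a0)
  set K : ℤ := 2 * M + 1 with hK
  set ht : C.F.ι → ℤ := fun a => K * D.B (C.wt a) p + D.ht2 (C.wt a) with hht
  set c : ℤ := K * m - M with hc
  have hS : ∀ a, c ≤ ht a ↔ D.B (C.wt a) p = m := by
    intro a
    have h1 := abs_le.1 (hMb a)
    have h2 := ha0 a
    constructor
    · intro h
      by_contra hne
      have h3 : D.B (C.wt a) p ≤ m - 1 := by
        have := lt_of_le_of_ne h2 hne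
        omega
      have h4 : K * D.B (C.wt a) p ≤ K * (m - 1) :=
        mul_le_mul_of_nonneg_left h3 (by omega)
      simp only [hht, hc] at h
      nlinarith
    · intro h
      simp only [hht, hc]
      rw [h]
      linarith [h1.1]
  have key : ∀ a b, 0 ≤ D.B (C.wt b - C.wt a) p → D.ht2 (C.wt a) + 1 ≤ D.ht2 (C.wt b) →
      ht a < ht b := by
    intro a b h1 h2
    rw [RD.B_sub_left] at h1
    simp only [hht]
    have h3 : K * D.B (C.wt a) p ≤ K * D.B (C.wt b) p :=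
      mul_le_mul_of_nonneg_left (by linarith) (by omega)
    linarith
  have hlow : ∀ u : G.Pt ℂ, UU C (-1) u → LowM ht (C.F.pt u) := by
    intro u hu a b hab
    have h1 := hu a b hab
    have hne : a ≠ b := by
      rintro rfl
      simp at h1
    have h2 : C.F.pt u a b ≠ 0 := by
      rw [Matrix.sub_apply, Matrix.one_apply_ne hne, sub_zero] at hab
      exact hab
    have h3 := (UU_supp C (Or.inr rfl) hu C.isW_F h2).B_nonneg hp
    have h4 : (-1 : ℤ) • (C.wt a - C.wt b) = C.wt b - C.wt a := by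
      rw [neg_one_smul, neg_sub]
    rw [h4] at h3
    exact key a b h3 (by linarith)
  have hup : ∀ v : G.Pt ℂ, UU C 1 v → UpM ht (C.F.pt v) := by
    intro v hv a b hab
    have h1 := hv a b hab
    have hne : a ≠ b := by
      rintro rfl
      simp at h1
    have h2 : C.F.pt v a b ≠ 0 := by
      rw [Matrix.sub_apply, Matrix.one_apply_ne hne, sub_zero] at hab
      exact hab
    have h3 := (UU_supp C (Or.inl rfl) hv C.isW_F h2).B_nonneg hp
    rw [one_smul] at h3
    exact key b a h3 (by linarith)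
  refine ⟨∑ a, if c ≤ ht a then C.wt a else 0, dC ht (coM C) c, ?_, ?_, ?_⟩
  · intro u v t hu hv
    rw [AffGrp.Pt.toX_apply]
    have h1 : (u * tq C t * v) (dC ht (coM C) c) = dC ht (C.F.pt (u * tq C t * v)) c :=
      dC_map ht ((u * tq C t * v).hom : G.O →+* ℂ) (coM C) c
    rw [h1, Rep.pt_mul, Rep.pt_mul, tq_pt C t C.isW_F,
      dC_ldu ht (hlow u hu) (hup v hv), YH3_chi_sum, Units.coe_prod]
    refine Finset.prod_congr rfl fun a _ => ?_
    split_ifs with h
    · rfl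
    · rw [YH3_chi_zero, Units.val_one]
  · rw [YH3_B_sum_left]
    have h1 : ∀ a, 0 ≤ D.B (if c ≤ ht a then C.wt a else 0) p := by
      intro a
      split_ifs with h
      · rw [(hS a).1 h]; exact hm0.le
      · rw [RD.B_zero_left]
    refine Finset.sum_pos' (fun a _ => h1 a) ⟨a0, Finset.mem_univ _, ?_⟩
    rw [if_pos ((hS a0).2 rfl)]
    exact hm0
  · intro u hu
    obtain ⟨σ, hσ⟩ := exists_perm C C.isW_F u
    rw [map_sum, ← Equiv.sum_comp σ (fun a => if c ≤ ht a then C.wt a else 0)]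
    refine Finset.sum_congr rfl fun a _ => ?_
    have h1 : D.B (C.wt (σ a)) p = D.B (C.wt a) p := by
      rw [hσ a]
      conv_lhs => rw [← hu]
      exact D.B_W u _ _
    have h2 : c ≤ ht (σ a) ↔ c ≤ ht a := by rw [hS, hS, h1]
    by_cases h : c ≤ ht a
    · rw [if_pos h, if_pos (h2.2 h), hσ a]
    · rw [if_neg h, if_neg (fun h' => h (h2.1 h')), map_zero]

end Pool.Agent.MTG
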