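import Pool.Agent.MTG.YH3

/-! # MTG-YH : highest weight representations -/

namespace Pool.Agent.MTG

open Pool.Agent.MTF Matrix
open Pool.Agent.MTD (ev)
open Pool.Agent.MTX.SLD (AA fm0)
open Pool.Agent.MTH
open Pool.Agent.MP_c45d35_ag (chi)

theorem yh4_add {G : AffGrp} {n : ℕ} {D : RD n} (C : CD G D) {μ ν : Fin n → ℤ} {f g : G.O}
    (h : IsDl C μ f) (h' : IsDl C ν g) : IsDl C (μ + ν) (f * g) := by
  intro u v t hu hv
  show f.1 _ * g.1 _ = _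
  rw [h u v t hu hv, h' u v t hu hv, Pool.Agent.MP_c45d35_ag.chi_add, Units.val_mul]

theorem yh4_zero {G : AffGrp} {n : ℕ} {D : RD n} (C : CD G D) : IsDl C 0 1 := by
  intro u v t hu hv
  rw [Pool.Agent.MP_c45d35_ag.chi_zero]
  rfl

theorem yh4_smul {G : AffGrp} {n : ℕ} {D : RD n} (C : CD G D) {μ : Fin n → ℤ} {f : G.O}
    (h : IsDl C μ f) (k : ℕ) : ∃ g : G.O, IsDl C ((k : ℤ) • μ) g := by
  induction k with
  | zero =>
    refine ⟨1, ?_⟩
    rw [Nat.cast_zero, zero_smul]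
    exact yh4_zero C
  | succ k ih =>
    obtain ⟨g, hg⟩ := ih
    refine ⟨g * f, ?_⟩
    rw [Nat.cast_succ, add_smul, one_smul]
    exact yh4_add C hg h

theorem yh4_sum {G : AffGrp} {n : ℕ} {D : RD n} (C : CD G D) {ι : Type} (s : Finset ι) (k : ι → ℕ)
    (μ : ι → Fin n → ℤ) (h : ∀ i, ∃ f : G.O, IsDl C (μ i) f) :
    ∃ g : G.O, IsDl C (∑ i ∈ s, (k i : ℤ) • μ i) g := by
  classical
  induction s using Finset.induction_on with
  | empty =>
    refine ⟨1, ?_⟩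
    rw [Finset.sum_empty]
    exact yh4_zero C
  | insert a s ha ih =>
    obtain ⟨g, hg⟩ := ih
    obtain ⟨f, hf⟩ := h a
    obtain ⟨g', hg'⟩ := yh4_smul C hf (k a)
    refine ⟨g' * g, ?_⟩
    rw [Finset.sum_insert ha]
    exact yh4_add C hg' hg

theorem yh4_cp {n : ℕ} (D : RD n) (γ : D.Rt) {ι : Type} (s : Finset ι) (x : ι → Fin n → ℤ) :
    D.cp γ (∑ i ∈ s, x i) = ∑ i ∈ s, D.cp γ (x i) :=
  map_sum (AddMonoidHom.mk' (D.cp γ) (D.cp_add γ)) x s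

theorem yh4_one {G : AffGrp} {n : ℕ} {D : RD n} (C : CD G D) (α : D.SRt) :
    ∃ μ : Fin n → ℤ, (∃ f : G.O, IsDl C μ f) ∧ (∀ β : D.SRt, β ≠ α → D.cp β.1 μ = 0) ∧
      0 < D.cp α.1 μ := by
  obtain ⟨p, h1, h2⟩ := D.exists_fund α
  have hp : D.Dom p := by
    rw [D.dom_iff]
    intro β
    by_cases h : β = α
    · rw [h]
      exact h2.le
    · rw [h1 β h]
  have hp0 : p ≠ 0 := by
    rintro rfl
    rw [D.cp_zero] at h2
    exact lt_irrefl _ h2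
  obtain ⟨μ, f, hf, hB, hu⟩ := C.exists_minor hp hp0
  have c1 : ∀ β : D.SRt, β ≠ α → D.cp β.1 μ = 0 := by
    intro β hβ
    have h3 : (D.rW β.1).1 p = p := by
      rw [D.rW_apply, RD.rf, h1 β hβ, zero_smul, sub_zero]
    have h4 := hu (D.rW β.1) h3
    rw [D.rW_apply, RD.rf] at h4
    have h5 : D.cp β.1 μ • β.1.1 = 0 := by
      have := sub_eq_self.1 h4
      exact this
    rcases smul_eq_zero.1 h5 with h6 | h6
    · exact h6
    · exact absurd h6 (D.Rt_ne β.1)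
  refine ⟨μ, ⟨f, hf⟩, c1, ?_⟩
  have h3 : (D.cp α.1 p) • μ - (D.cp α.1 μ) • p = 0 := by
    apply D.eq_zero_of_cp
    intro β
    rw [D.cp_sub, D.cp_smul, D.cp_smul]
    by_cases h : β = α
    · rw [h]
      ring
    · rw [c1 β h, h1 β h]
      ring
  have h4 := congrArg (fun x => D.B x p) h3
  simp only [D.B_sub_left, D.B_smul_left, D.B_zero_left] at h4
  have h5 : 0 < D.B p p := D.B_pos hp0
  have h6 : 0 < D.cp α.1 p * D.B μ p := mul_pos h2 hB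
  by_contra hcon
  have h7 : D.cp α.1 μ * D.B p p ≤ 0 := mul_nonpos_of_nonpos_of_nonneg (not_lt.1 hcon) h5.le
  linarith

/-- YH4.  A multiple of every dominant weight.  For `α` simple: `p_α` (`exists_fund`; `Dom`: `dom_iff`), `μ_α`, `f_α` from `exists_minor`.
`cp β μ_α = 0` for `β ≠ α`: `rW β` fixes `p_α`, so `rf β μ_α = μ_α`.  `cp α μ_α > 0`: `(cp α p) • μ_α = (cp α μ_α) • p` by `eq_zero_of_cp`, so
`(cp α p) B(μ_α, p) = (cp α μ_α) B(p, p)`.  `M := ∏_α cp α μ_α`, `M • l = ∑_α k_α • μ_α` with `k_α = (M / cp α μ_α) * cp α l ≥ 0` (`eq_zero_of_cp`);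
`f := ∏ f_α ^ k_α` (`chi_add`; `chi (k • μ) = chi μ ^ k`). -/
theorem CD.exists_mul {G : AffGrp} {n : ℕ} {D : RD n} (C : CD G D) {l : Fin n → ℤ}
    (hl : D.Dom l) : ∃ (M : ℕ) (f : G.O), 0 < M ∧ IsDl C ((M : ℤ) • l) f := by
  classical
  choose μ hμ h0 hpos using yh4_one C
  have hc : ∀ α, ((D.cp α.1 (μ α)).toNat : ℤ) = D.cp α.1 (μ α) := fun α =>
    Int.toNat_of_nonneg (hpos α).le
  have hcl : ∀ α : D.SRt, ((D.cp α.1 l).toNat : ℤ) = D.cp α.1 l := fun α =>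
    Int.toNat_of_nonneg ((D.dom_iff l).1 hl α)
  obtain ⟨f, hf⟩ := yh4_sum C Finset.univ (fun α : D.SRt =>
    (∏ β ∈ Finset.univ.erase α, (D.cp β.1 (μ β)).toNat) * (D.cp α.1 l).toNat) μ hμ
  refine ⟨∏ α : D.SRt, (D.cp α.1 (μ α)).toNat, f, ?_, ?_⟩
  · refine Finset.prod_pos fun α _ => ?_
    have h1 := hc α
    have h2 := hpos α
    omega
  have e : ((∏ α : D.SRt, (D.cp α.1 (μ α)).toNat : ℕ) : ℤ) • l -
      ∑ α : D.SRt, (((∏ β ∈ Finset.univ.erase α, (D.cp β.1 (μ β)).toNat) *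
        (D.cp α.1 l).toNat : ℕ) : ℤ) • μ α = 0 := by
    apply D.eq_zero_of_cp
    intro γ
    rw [D.cp_sub, D.cp_smul, yh4_cp, Finset.sum_eq_single γ]
    · rw [D.cp_smul, ← hc γ]
      have h3 : (∏ α : D.SRt, (D.cp α.1 (μ α)).toNat : ℕ) =
          (∏ β ∈ Finset.univ.erase γ, (D.cp β.1 (μ β)).toNat) * (D.cp γ.1 (μ γ)).toNat :=
        (Finset.prod_erase_mul _ _ (Finset.mem_univ γ)).symm
      rw [h3]
      push_cast
      rw [hcl γ]
      ring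
    · intro α _ hα
      rw [D.cp_smul, h0 α γ (Ne.symm hα), mul_zero]
    · intro h
      exact absurd (Finset.mem_univ γ) h
  rw [sub_eq_zero.1 e]
  exact hf

end Pool.Agent.MTG
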