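import Pool.Agent.MTG.YH0

/-! # MTG-YH : highest weight representations -/

namespace Pool.Agent.MTG

open Pool.Agent.MTF Matrix
open Pool.Agent.MTD (ev)
open Pool.Agent.MTX.SLD (AA fm0)
open Pool.Agent.MTH
open Pool.Agent.MP_c45d35_ag (chi)

section yh5
variable {G : AffGrp} {n : ℕ} {D : RD n}

/-- indices of the generic element of the cell -/
abbrev yh5_I (D : RD n) : Type :=
  ({γ : D.Rt // 1 ≤ (-1) * D.ht2 γ.1} ⊕ {γ : D.Rt // 1 ≤ 1 * D.ht2 γ.1}) ⊕ Fin n

/-- the product of the torus coordinates -/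
noncomputable def yh5_pr (D : RD n) : MvPolynomial (yh5_I D) ℂ :=
  ∏ k : Fin n, MvPolynomial.X (Sum.inr k)

/-- the coordinate ring of the generic cell -/
abbrev yh5_L (D : RD n) : Type := Localization.Away (yh5_pr D)

theorem yh5_pr_ne (D : RD n) : yh5_pr D ≠ 0 :=
  Finset.prod_ne_zero_iff.2 fun _ _ => MvPolynomial.X_ne_zero _

theorem yh5_ic (D : RD n) : IsIntegrallyClosed (yh5_L D) :=
  isIntegrallyClosed_of_isLocalization (R := MvPolynomial (yh5_I D) ℂ) _
    (Submonoid.powers (yh5_pr D)) (powers_le_nonZeroDivisors_of_noZeroDivisors (yh5_pr_ne D))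

/-- the generic nilpotent element -/
noncomputable def yh5_Z (s : ℤ) (u : {γ : D.Rt // 1 ≤ s * D.ht2 γ.1} → yh5_I D) :
    LR D (yh5_L D) :=
  Sum.elim (fun _ => 0) fun γ => if h : 1 ≤ s * D.ht2 γ.1 then
    algebraMap (MvPolynomial (yh5_I D) ℂ) (yh5_L D) (MvPolynomial.X (u ⟨γ, h⟩)) else 0

theorem yh5_Sp (s : ℤ) (u : {γ : D.Rt // 1 ≤ s * D.ht2 γ.1} → yh5_I D) : Sp s 1 (yh5_Z s u) := by
  refine ⟨fun k hk => absurd rfl hk, fun γ hγ => ?_⟩
  by_contra h
  apply hγ
  show (if h : 1 ≤ s * D.ht2 γ.1 then _ else _) = _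
  rw [dif_neg h]

/-- the generic torus coordinates -/
theorem yh5_t (D : RD n) (k : Fin n) :
    IsUnit (algebraMap (MvPolynomial (yh5_I D) ℂ) (yh5_L D) (MvPolynomial.X (Sum.inr k))) :=
  isUnit_of_dvd_unit (map_dvd _ (Finset.dvd_prod_of_mem
    (fun k : Fin n => (MvPolynomial.X (Sum.inr k) : MvPolynomial (yh5_I D) ℂ)) (Finset.mem_univ k)))
    (IsLocalization.Away.algebraMap_isUnit (S := yh5_L D) (yh5_pr D))

theorem yh5_spec (x : yh5_I D → ℂ) (hx : ∀ k, x (Sum.inr k) ≠ 0) : ∃ ρ : yh5_L D →ₐ[ℂ] ℂ,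
    ∀ p, ρ (algebraMap (MvPolynomial (yh5_I D) ℂ) (yh5_L D) p) = MvPolynomial.aeval x p := by
  have h : IsUnit ((MvPolynomial.aeval x : MvPolynomial (yh5_I D) ℂ →ₐ[ℂ] ℂ) (yh5_pr D)) := by
    unfold yh5_pr
    rw [map_prod]
    refine isUnit_iff_ne_zero.2 (Finset.prod_ne_zero_iff.2 fun k _ => ?_)
    rw [MvPolynomial.aeval_X]
    exact hx k
  refine ⟨IsLocalization.Away.liftAlgHom (S := yh5_L D) (yh5_pr D) h, fun p => ?_⟩
  exact IsLocalization.Away.lift_eq (yh5_pr D) h p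

theorem yh5_ρZ {s : ℤ} {u : {γ : D.Rt // 1 ≤ s * D.ht2 γ.1} → yh5_I D} {x : yh5_I D → ℂ}
    {ρ : yh5_L D →ₐ[ℂ] ℂ}
    (hρ : ∀ p, ρ (algebraMap (MvPolynomial (yh5_I D) ℂ) (yh5_L D) p) = MvPolynomial.aeval x p)
    {Z : LR D ℂ} (hZ : Sp s 1 Z) (hx : ∀ γ, x (u γ) = Z (Sum.inr γ.1)) (j : Fin n ⊕ D.Rt) :
    ρ (yh5_Z s u j) = Z j := by
  rcases j with k | γ
  · show ρ 0 = _
    rw [map_zero]
    by_contra h
    have := hZ.1 k (Ne.symm h)
    omega
  · show ρ (if h : 1 ≤ s * D.ht2 γ.1 then _ else _) = _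
    by_cases h : 1 ≤ s * D.ht2 γ.1
    · rw [dif_pos h, hρ, MvPolynomial.aeval_X, hx]
    · rw [dif_neg h, map_zero]
      by_contra h'
      exact h (hZ.2 γ (Ne.symm h'))

variable (C : CD G D)

theorem yh5_hx {R R' : Type} [CommRing R] [Algebra ℂ R] [CommRing R'] [Algebra ℂ R']
    (σ : R →ₐ[ℂ] R') : (fun j : Fin n ⊕ D.Rt => σ (CD.hx (D := D) (hv D R) j)) =
      CD.hx (D := D) (hv D R') := by
  funext j
  rcases j with k | γ
  · show σ ((D.ht2 (Pi.single k 1) : ℤ) : R) = ((D.ht2 (Pi.single k 1) : ℤ) : R')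
    exact map_intCast σ _
  · show σ 0 = 0
    exact map_zero σ

theorem yh5_eq {R : Type} [CommRing R] [Algebra ℂ R] {s : ℤ} {φ φ' : G.Pt R} (h : UU C s φ)
    (h' : UU C s φ') (he : Adp C φ (CD.hx (hv D R)) = Adp C φ' (CD.hx (hv D R))) : φ = φ' := by
  have h1 : φ'⁻¹ * φ = 1 := by
    apply UU_eq_one C (UU_mul C (UU_inv C h') h)
    rw [Adp_mul, he, ← Adp_mul, inv_mul_cancel, Adp_one]
  have h2 : φ' * (φ'⁻¹ * φ) = φ' * 1 := by rw [h1]
  rwa [mul_inv_cancel_left, mul_one] at h2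

end yh5

/-- YH5.  The coordinate ring of the big cell is integrally closed.
Let `I := {γ : D.Rt // ¬ D.Pos γ}`, `J := {γ // D.Pos γ}`, `P := MvPolynomial (I ⊕ J ⊕ Fin n) ℂ`, `L := Localization` of `P` at the submonoid generated by the
last `n` variables (or `Localization.Away` of their product): integrally closed (`P` is a UFD, `isIntegrallyClosed_of_isLocalization`).
In `L`: `Z⁻`, `Z⁺ : LR D L` the generic elements, `t : Fin n → Lˣ` the last variables; `u`, `v : G.Pt L` with `Ad u (hx hv) = hx hv + Z⁻`, `Ad v (hx hv) = hx hv + Z⁺`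
(`exists_U`, `isUnit_ht`; `UU C (∓1)`); the point `u * tq C t * v : G.O →ₐ L` maps `Dl C` to a unit (`isUnit_Dl_cell`), so extends to `α : B →ₐ L`.
`α` is injective: if `f : G.O` is mapped to `0` then `f` vanishes on the big cell: for complex `u₀, t₀, v₀` let `Z⁻₀, Z⁺₀` be given by `UU_hv`, `σ : L →ₐ ℂ` the
specialisation; `u.map σ = u₀` (`Adp_map`, `UU_map`, and `UU_eq_one` for the quotient), the same for `v`, `tq_map`; so `f = 0` by `cell_dense`; elements of `B` are `f / Dl ^ k`.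
`α` is surjective: `ldu_univ` gives `φ = u_B * tq C t_B * v_B` over `B`; applying `α`: `ldu_unique` gives `u_B.map α = u`, `t_B ↦ t`, `v_B.map α = v`; so
`Z⁻ = Ad (u) hv - hv` is the image of `Ad (u_B) hv - hv` (`Adp_map`), and all generators of `L` (and the inverses of the `t`) are in the image.
`IsIntegrallyClosed.of_equiv`. -/
theorem CD.closed_loc {G : AffGrp} {n : ℕ} {D : RD n} (C : CD G D) (hG : IsDomain G.O)
    {B : Type} [CommRing B] [Algebra G.O B] [Algebra ℂ B] [IsScalarTower ℂ G.O B]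
    [IsLocalization.Away (Dl C) B] : IsIntegrallyClosed B := by
  have hL : IsIntegrallyClosed (yh5_L D) := yh5_ic D
  let um : {γ : D.Rt // 1 ≤ (-1) * D.ht2 γ.1} → yh5_I D := fun γ => Sum.inl (Sum.inl γ)
  let up : {γ : D.Rt // 1 ≤ 1 * D.ht2 γ.1} → yh5_I D := fun γ => Sum.inl (Sum.inr γ)
  obtain ⟨u, hu1, hu2⟩ := exists_U C (s := -1) (Or.inr rfl) (x := hv D (yh5_L D))
    (fun γ => isUnit_ht γ) (yh5_Sp (-1) um)
  obtain ⟨v, hv1, hv2⟩ := exists_U C (s := 1) (Or.inl rfl) (x := hv D (yh5_L D))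
    (fun γ => isUnit_ht γ) (yh5_Sp 1 up)
  have hu : UU C (-1) u := hu1 C.F C.wt C.isW_F
  have hv : UU C 1 v := hv1 C.F C.wt C.isW_F
  let t : Fin n → (yh5_L D)ˣ := fun k => (yh5_t D k).unit
  have ht : ∀ k, ((t k : (yh5_L D)ˣ) : yh5_L D) =
      algebraMap (MvPolynomial (yh5_I D) ℂ) (yh5_L D) (MvPolynomial.X (Sum.inr k)) := fun k => rfl
  let ψ : G.Pt (yh5_L D) := u * tq C t * v
  have hψ : IsUnit (ψ (Dl C)) := isUnit_Dl_cell C hu hv t
  let α : B →ₐ[ℂ] yh5_L D := IsLocalization.Away.liftAlgHom (Dl C) (f := ψ.hom) hψ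
  have hα : ∀ f : G.O, α (algebraMap G.O B f) = ψ f := fun f => IsLocalization.Away.lift_eq (Dl C) hψ f
  -- injective
  have hinj : Function.Injective α := by
    rw [injective_iff_map_eq_zero]
    intro b hb
    refine loc_eq_zero C hG b fun u₀ v₀ t₀ hu₀ hv₀ σ hσ => ?_
    obtain ⟨Zm, hZm, hZm'⟩ := UU_hv C hu₀
    obtain ⟨Zp, hZp, hZp'⟩ := UU_hv C hv₀
    let x : yh5_I D → ℂ := Sum.elim (Sum.elim (fun γ => Zm (Sum.inr γ.1)) fun γ => Zp (Sum.inr γ.1))
      fun k => ((t₀ k : ℂˣ) : ℂ)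
    obtain ⟨ρ, hρ⟩ := yh5_spec x fun k => (t₀ k).ne_zero
    have h1 : u.map ρ = u₀ := by
      refine yh5_eq C (UU_map C ρ hu) hu₀ ?_
      rw [hZm', ← yh5_hx (D := D) ρ, ← Adp_map, hu2]
      funext j
      rw [Pi.add_apply, Pi.add_apply, map_add, yh5_ρZ hρ hZm (fun γ => rfl)]
    have h2 : v.map ρ = v₀ := by
      refine yh5_eq C (UU_map C ρ hv) hv₀ ?_
      rw [hZp', ← yh5_hx (D := D) ρ, ← Adp_map, hv2]
      funext j
      rw [Pi.add_apply, Pi.add_apply, map_add, yh5_ρZ hρ hZp (fun γ => rfl)]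
    have h3 : (tq C t).map ρ = tq C t₀ := by
      rw [tq_map]
      congr 1
      funext k
      apply Units.ext
      show ρ (t k : yh5_L D) = _
      rw [ht, hρ, MvPolynomial.aeval_X]
      rfl
    have h4 : ψ.map ρ = u₀ * tq C t₀ * v₀ := by
      show (u * tq C t * v).map ρ = _
      rw [AffGrp.Pt.map_mul', AffGrp.Pt.map_mul', h1, h2, h3]
    have h5 : (σ : B →+* ℂ) = ((ρ.comp α : B →ₐ[ℂ] ℂ) : B →+* ℂ) := by
      apply IsLocalization.ringHom_ext (Submonoid.powers (Dl C))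
      apply RingHom.ext
      intro f
      show σ (algebraMap G.O B f) = ρ (α (algebraMap G.O B f))
      rw [hσ, hα, ← AffGrp.Pt.map_apply, h4]
    have h6 : σ b = ρ (α b) := congrArg (fun g : B →+* ℂ => g b) h5
    rw [h6, hb, map_zero]
  -- surjective
  let φ : G.Pt B := AffGrp.Pt.of (IsScalarTower.toAlgHom ℂ G.O B)
  obtain ⟨uB, vB, tB, huB, hvB, hφ⟩ := ldu_univ C hG φ fun f => rfl
  have hφα : φ.map α = ψ := AffGrp.Pt.ext fun f => hα f
  have hdec : u * tq C t * v = uB.map α * tq C (fun k => Units.map (α : B →* yh5_L D) (tB k)) *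
      vB.map α := by
    rw [← tq_map, ← AffGrp.Pt.map_mul', ← AffGrp.Pt.map_mul', ← hφ, hφα]
  obtain ⟨e1, e2, e3⟩ := ldu_unique C hu hv (UU_map C α huB) (UU_map C α hvB) hdec
  have hsurj : Function.Surjective α := by
    have key : ∀ (s : ℤ) (w : {γ : D.Rt // 1 ≤ s * D.ht2 γ.1} → yh5_I D) (y : G.Pt (yh5_L D))
        (yB : G.Pt B) (hy : Adp C y (CD.hx (Pool.Agent.MTH.hv D (yh5_L D))) =
          CD.hx (Pool.Agent.MTH.hv D (yh5_L D)) + yh5_Z s w) (he : y = yB.map α) (γ),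
        algebraMap (MvPolynomial (yh5_I D) ℂ) (yh5_L D) (MvPolynomial.X (w γ)) ∈ α.range := by
      intro s w y yB hy he γ
      refine ⟨(Adp C yB (CD.hx (Pool.Agent.MTH.hv D B)) (Sum.inr γ.1)), ?_⟩
      have h1 := congrFun (Adp_map C α yB (CD.hx (Pool.Agent.MTH.hv D B))) (Sum.inr γ.1)
      have h2 : Adp C (yB.map α) (fun j => α (CD.hx (Pool.Agent.MTH.hv D B) j)) (Sum.inr γ.1) =
          algebraMap (MvPolynomial (yh5_I D) ℂ) (yh5_L D) (MvPolynomial.X (w γ)) := by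
        rw [yh5_hx (D := D) α, ← he, hy, Pi.add_apply]
        show (0 : yh5_L D) + (if h : 1 ≤ s * D.ht2 γ.1.1 then
          algebraMap (MvPolynomial (yh5_I D) ℂ) (yh5_L D) (MvPolynomial.X (w ⟨γ.1, h⟩)) else 0) = _
        rw [dif_pos γ.2, zero_add]
      exact h1.trans h2
    have hX : ∀ i : yh5_I D, algebraMap (MvPolynomial (yh5_I D) ℂ) (yh5_L D) (MvPolynomial.X i) ∈ α.range := by
      rintro ((γ | γ) | k)
      · exact key (-1) um u uB hu2 e1 γ
      · exact key 1 up v vB hv2 e3 γ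
      · refine ⟨(tB k : B), ?_⟩
        have := congrFun e2 k
        rw [← ht, this]
        rfl
    have hP : ∀ p : MvPolynomial (yh5_I D) ℂ, algebraMap (MvPolynomial (yh5_I D) ℂ) (yh5_L D) p ∈ α.range := by
      intro p
      induction p using MvPolynomial.induction_on with
      | C a =>
        have : algebraMap (MvPolynomial (yh5_I D) ℂ) (yh5_L D) (MvPolynomial.C a) =
            algebraMap ℂ (yh5_L D) a := by
          rw [IsScalarTower.algebraMap_apply ℂ (MvPolynomial (yh5_I D) ℂ) (yh5_L D)]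
          rfl
        rw [this]
        exact Subalgebra.algebraMap_mem _ a
      | add p q hp hq =>
        rw [map_add]
        exact Subalgebra.add_mem _ hp hq
      | mul_X p i hp =>
        rw [map_mul]
        exact Subalgebra.mul_mem _ hp (hX i)
    have hk : ∀ (k : Fin n) (z : yh5_L D), z * algebraMap (MvPolynomial (yh5_I D) ℂ) (yh5_L D)
        (MvPolynomial.X (Sum.inr k)) ∈ α.range → z ∈ α.range := by
      intro k z hz
      have h1 : (algebraMap (MvPolynomial (yh5_I D) ℂ) (yh5_L D) (MvPolynomial.X (Sum.inr k))) *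
          α ((tB k)⁻¹ : Bˣ) = 1 := by
        rw [← ht, congrFun e2 k]
        show α (tB k : B) * α ((tB k)⁻¹ : Bˣ) = 1
        rw [← map_mul α, Units.mul_inv, map_one α]
      have h2 := Subalgebra.mul_mem _ hz (AlgHom.mem_range_self α ((tB k)⁻¹ : Bˣ))
      rwa [mul_assoc, h1, mul_one] at h2
    have hinv : ∀ z : yh5_L D, z * algebraMap (MvPolynomial (yh5_I D) ℂ) (yh5_L D) (yh5_pr D) ∈ α.range →
        z ∈ α.range := by
      have : ∀ (s : Finset (Fin n)) (z : yh5_L D), z * algebraMap (MvPolynomial (yh5_I D) ℂ) (yh5_L D)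
          (∏ k ∈ s, MvPolynomial.X (Sum.inr k)) ∈ α.range → z ∈ α.range := by
        classical
        intro s
        induction s using Finset.induction_on with
        | empty => intro z hz; rwa [Finset.prod_empty, map_one, mul_one] at hz
        | insert k s hks ih =>
          intro z hz
          rw [Finset.prod_insert hks, map_mul, mul_comm (algebraMap _ _ (MvPolynomial.X _)), ← mul_assoc] at hz
          exact ih z (hk k _ hz)
      exact this Finset.univ
    intro z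
    obtain ⟨m, a, ha⟩ := IsLocalization.Away.surj (yh5_pr D) z
    have : ∀ m : ℕ, ∀ z : yh5_L D, z * algebraMap (MvPolynomial (yh5_I D) ℂ) (yh5_L D) (yh5_pr D) ^ m ∈ α.range →
        z ∈ α.range := by
      intro m
      induction m with
      | zero => intro z hz; simpa using hz
      | succ m ih =>
        intro z hz
        apply hinv
        apply ih
        rwa [mul_assoc, ← pow_succ']
    exact this m z (by rw [ha]; exact hP a)
  exact IsIntegrallyClosed.of_equiv (RingEquiv.ofBijective α ⟨hinj, hsurj⟩).symm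

end Pool.Agent.MTG
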