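import Pool.Agent.MTG.YH0

/-! # MTG-YH : highest weight representations -/

namespace Pool.Agent.MTG

open Pool.Agent.MTF Matrix
open Pool.Agent.MTD (ev)
open Pool.Agent.MTX.SLD (AA fm0)
open Pool.Agent.MTH
open Pool.Agent.MP_c45d35_ag (chi)

/-- YH6a.  Every maximal ideal of `G.O` is a point of `G`: `G.O` is a finitely generated `ℂ`-algebra (`G.fg`), so the residue field is `ℂ` (Nullstellensatz,
`IsAlgClosed`), and `G.pts`. -/
theorem exists_pt_max {G : AffGrp} (I : Ideal G.O) (hI : I.IsMaximal) :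
    ∃ x : G.X, ∀ f ∈ I, f.1 x = 0 := by
  haveI : Algebra.FiniteType ℂ G.O := (Subalgebra.fg_iff_finiteType G.O).1 G.fg
  letI : Field (G.O ⧸ I) := Ideal.Quotient.field I
  haveI h1 : Algebra.FiniteType ℂ (G.O ⧸ I) :=
    Algebra.FiniteType.of_surjective (Ideal.Quotient.mkₐ ℂ I) (Ideal.Quotient.mkₐ_surjective ℂ I)
  haveI h2 : Module.Finite ℂ (G.O ⧸ I) := finite_of_finite_type_of_isJacobsonRing ℂ (G.O ⧸ I)
  haveI h3 : Algebra.IsIntegral ℂ (G.O ⧸ I) := Algebra.IsIntegral.of_finite ℂ (G.O ⧸ I)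
  have h4 : Function.Bijective (algebraMap ℂ (G.O ⧸ I)) :=
    IsAlgClosed.algebraMap_bijective_of_isIntegral
  let e : ℂ ≃ₐ[ℂ] (G.O ⧸ I) := AlgEquiv.ofBijective (Algebra.ofId ℂ (G.O ⧸ I)) h4
  obtain ⟨x, hx⟩ := G.pts (e.symm.toAlgHom.comp (Ideal.Quotient.mkₐ ℂ I))
  refine ⟨x, fun f hf => ?_⟩
  rw [← hx f]
  show e.symm (Ideal.Quotient.mk I f) = 0
  rw [Ideal.Quotient.eq_zero_iff_mem.2 hf, map_zero]

end Pool.Agent.MTG
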