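import Pool.Agent.MTG.YH4
import Pool.Agent.MTG.YH5
import Pool.Agent.MTG.YH6a

/-! # MTG-YH : highest weight representations -/

namespace Pool.Agent.MTG

open Pool.Agent.MTF Matrix
open Pool.Agent.MTD (ev)
open Pool.Agent.MTX.SLD (AA fm0)
open Pool.Agent.MTH
open Pool.Agent.MP_c45d35_ag (chi)

section YH6aux

variable {G : AffGrp} {n : ℕ} {D : RD n} (C : CD G D)

theorem YH6_lt_mul (y : G.X) (f g : G.O) : G.lt y (f * g) = G.lt y f * G.lt y g := rfl

theorem YH6_lt_pow (y : G.X) (f : G.O) (k : ℕ) : G.lt y (f ^ k) = G.lt y f ^ k := by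
  induction k with
  | zero => rw [pow_zero, pow_zero]; rfl
  | succ k ih => rw [pow_succ, pow_succ, YH6_lt_mul, ih]

theorem YH6_chi_nsmul {M : Type*} [CommGroup M] (k : ℕ) (μ : Fin n → ℤ) (t : Fin n → M) :
    chi ((k : ℤ) • μ) t = chi μ t ^ k := by
  induction k with
  | zero =>
    rw [Nat.cast_zero, zero_smul, pow_zero]
    exact Pool.Agent.MP_c45d35_ag.chi_zero t
  | succ k ih =>
    rw [Nat.cast_succ, add_smul, one_smul, Pool.Agent.MP_c45d35_ag.chi_add, ih, pow_succ]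

/-- specialisation of the decomposition at a point of the cell -/
theorem YH6_spec {B : Type} [CommRing B] [Algebra G.O B] [Algebra ℂ B]
    {φ uB vB : G.Pt B} {tB : Fin n → Bˣ} (hφ : ∀ f : G.O, φ f = algebraMap G.O B f)
    (huB : UU C (-1) uB) (hvB : UU C 1 vB) (h : φ = uB * tq C tB * vB)
    {u v : G.Pt ℂ} {t : Fin n → ℂˣ} (hu : UU C (-1) u) (hv : UU C 1 v) (σ : B →ₐ[ℂ] ℂ)
    (hσ : ∀ f : G.O, σ (algebraMap G.O B f) = (u * tq C t * v) f) (μ : Fin n → ℤ) :
    σ ((chi μ tB : Bˣ) : B) = ((chi μ t : ℂˣ) : ℂ) := by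
  have h1 : φ.map σ = u * tq C t * v := by
    apply AffGrp.Pt.ext
    intro f
    rw [AffGrp.Pt.map_apply, hφ, hσ]
  rw [h, AffGrp.Pt.map_mul', AffGrp.Pt.map_mul', tq_map] at h1
  have h2 := (ldu_unique C (UU_map C σ huB) (UU_map C σ hvB) hu hv h1).2.1
  rw [← h2, ← Pool.Agent.MP_c45d35_ag.chi_map]
  rfl

end YH6aux

/-- YH6.  The function `Δ_l`.  `K := FractionRing G.O`, `φ : G.Pt K` the inclusion; `Dl C ≠ 0` (`Dl_ne`) is a unit in `K`, `exists_ldu`: `φ = u * tq C t * v` over `K`;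
`z := chi l t ∈ K`.
(0) For `f` with `IsDl C μ f`: `f = chi μ t` in `K`.  Let `B := Localization.Away (Dl C)`; `ldu_univ` over `B` gives `t_B`, mapped to `t` by `ldu_unique`; the element
`f - chi μ t_B ∈ B` is `0` by `loc_eq_zero` (for `u₀, v₀, t₀` and `σ` : `σ` maps `t_B` to `t₀` by `ldu_unique`, `f` to `f.1 (..toX) = chi μ t₀`, `toX_apply`).
(1) By `exists_mul`, `z ^ M = chi (M • l) t` is in (the image of) `G.O`.
(2) For `y : G.X` let `λ_y : K ≃ₐ K` be the extension of the automorphism `G.lt y` of `G.O` (inverse `G.lt y⁻¹`, `lt_lt`).  `(λ_y z) ^ M ∈ G.O`, so `λ_y z` is integral over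
`B` (`B → K` injective, `K` is a fraction field of `B`) and `λ_y z ∈ B` (`closed_loc`, `IsIntegrallyClosed`): `Dl ^ k * λ_y z ∈ G.O` for some `k`, so
`(G.lt y⁻¹ Dl) ^ k * z ∈ G.O`.
(3) `I := {a : G.O | a * z ∈ G.O}` is an ideal.  If `I ≠ ⊤` then it is contained in a maximal ideal, hence vanishes at some `x` (`exists_pt_max`); `(G.lt y⁻¹ Dl).1 x =
Dl.1 (y⁻¹ x) = 0` for all `y`, so `Dl = 0`, contradiction.  So `z = f` with `f : G.O`.
(4) `IsDl C l f`: over `B`, `f = chi l t_B` (injectivity of `B → K`), specialise at the points of the cell as in (0). -/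
theorem CD.exists_Dl {G : AffGrp} {n : ℕ} {D : RD n} (C : CD G D) (hG : IsDomain G.O)
    {l : Fin n → ℤ} (hl : D.Dom l) : ∃ f : G.O, IsDl C l f := by
  classical
  have := hG
  obtain ⟨M, F, hM, hF⟩ := C.exists_mul hl
  have hD : Dl C ≠ 0 := Dl_ne C
  have hle : Submonoid.powers (Dl C) ≤ nonZeroDivisors G.O :=
    powers_le_nonZeroDivisors_of_noZeroDivisors hD
  let B : Type := Localization.Away (Dl C)
  have hinj : Function.Injective (algebraMap G.O B) := IsLocalization.injective B hle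
  have : IsDomain B := IsLocalization.isDomain_localization hle
  have : IsIntegrallyClosed B := C.closed_loc hG
  let φ : G.Pt B := AffGrp.Pt.of (IsScalarTower.toAlgHom ℂ G.O B)
  have hφ : ∀ f : G.O, φ f = algebraMap G.O B f := fun f => rfl
  obtain ⟨uB, vB, tB, huB, hvB, hdec⟩ := ldu_univ C hG φ hφ
  -- functions with `IsDl` in `B`
  have h0 : ∀ (μ : Fin n → ℤ) (f : G.O), IsDl C μ f →
      algebraMap G.O B f = ((chi μ tB : Bˣ) : B) := by
    intro μ f hf
    apply sub_eq_zero.1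
    apply loc_eq_zero C hG
    intro u v t hu hv σ hσ
    rw [map_sub, hσ, YH6_spec C hφ huB hvB hdec hu hv σ hσ μ, ← hf u v t hu hv,
      AffGrp.Pt.toX_apply, sub_self]
  set z : B := ((chi l tB : Bˣ) : B) with hz
  have hzM : z ^ M = algebraMap G.O B F := by
    rw [h0 _ F hF, YH6_chi_nsmul, Units.val_pow_eq_pow_val]
  obtain ⟨k, g, hg⟩ := IsLocalization.Away.surj (Dl C) z
  have hgM : g ^ M = F * (Dl C ^ k) ^ M := by
    apply hinj
    rw [map_mul, map_pow, map_pow, map_pow, ← hg, ← hzM, mul_pow]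
  -- the ideal of denominators
  let I : Ideal G.O :=
    { carrier := {a | Dl C ^ k ∣ a * g}
      zero_mem' := by
        show Dl C ^ k ∣ 0 * g
        rw [zero_mul]
        exact dvd_zero _
      add_mem' := by
        intro a b ha hb
        show Dl C ^ k ∣ (a + b) * g
        rw [add_mul]
        exact dvd_add ha hb
      smul_mem' := by
        intro c a ha
        show Dl C ^ k ∣ c * a * g
        rw [mul_assoc]
        exact Dvd.dvd.mul_left ha c }
  have hI : I = ⊤ := by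
    by_contra hne
    obtain ⟨m, hm, hIm⟩ := Ideal.exists_le_maximal I hne
    obtain ⟨x, hx⟩ := exists_pt_max m hm
    apply hD
    apply AffGrp.O_ext
    intro w
    -- `w = y⁻¹ x`
    have key : ∀ y : G.X, (Dl C).1 (y⁻¹ * x) = 0 := by
      intro y
      have h1 : algebraMap G.O B (G.lt y (Dl C) ^ k) ∣ algebraMap G.O B (G.lt y g) := by
        rw [← IsIntegrallyClosed.pow_dvd_pow_iff (n := M) hM.ne']
        refine ⟨algebraMap G.O B (G.lt y F), ?_⟩
        have e1 : G.lt y g ^ M = (G.lt y (Dl C) ^ k) ^ M * G.lt y F := by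
          rw [← YH6_lt_pow, hgM, YH6_lt_mul, YH6_lt_pow, YH6_lt_pow, mul_comm]
        have e2 := congrArg (algebraMap G.O B) e1
        rw [map_mul, map_pow, map_pow (algebraMap G.O B) (G.lt y (Dl C) ^ k) M] at e2
        exact e2
      obtain ⟨b, hb⟩ := h1
      obtain ⟨k', h', hh'⟩ := IsLocalization.Away.surj (Dl C) b
      have h2 : Dl C ^ k' * G.lt y g = G.lt y (Dl C) ^ k * h' := by
        apply hinj
        rw [map_mul, map_mul, hb, ← hh', map_pow]
        ring
      have h3 : G.lt y⁻¹ (Dl C) ^ k' * g = Dl C ^ k * G.lt y⁻¹ h' := by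
        have h4 := congrArg (G.lt y⁻¹) h2
        rw [YH6_lt_mul, YH6_lt_mul, YH6_lt_pow, YH6_lt_pow, AffGrp.lt_lt, AffGrp.lt_lt,
          mul_inv_cancel, AffGrp.lt_one, AffGrp.lt_one] at h4
        exact h4
      have h4 : G.lt y⁻¹ (Dl C) ^ k' ∈ m := hIm ⟨G.lt y⁻¹ h', h3⟩
      have h5 := hx _ h4
      have h6 : (G.lt y⁻¹ (Dl C) ^ k').1 x = ((Dl C).1 (y⁻¹ * x)) ^ k' := rfl
      rw [h6] at h5
      exact eq_zero_of_pow_eq_zero h5
    have := key (x * w⁻¹)
    rw [_root_.mul_inv_rev, inv_inv, mul_assoc, inv_mul_cancel, mul_one] at this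
    exact this
  have h1 : (1 : G.O) ∈ I := by
    rw [hI]
    exact Submodule.mem_top
  obtain ⟨f, hf⟩ := h1
  rw [one_mul] at hf
  have hDu : IsUnit (algebraMap G.O B (Dl C)) := IsLocalization.Away.algebraMap_isUnit (Dl C)
  have hzf : z = algebraMap G.O B f := by
    have h2 : z * algebraMap G.O B (Dl C) ^ k = algebraMap G.O B f * algebraMap G.O B (Dl C) ^ k := by
      rw [hg, hf, map_mul, map_pow, mul_comm]
    exact (hDu.pow k).mul_right_cancel h2
  refine ⟨f, ?_⟩
  intro u v t hu hv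
  have hunit : ∀ y : Submonoid.powers (Dl C), IsUnit ((u * tq C t * v).hom (y : G.O)) := by
    rintro ⟨_, ⟨j, rfl⟩⟩
    show IsUnit ((u * tq C t * v).hom (Dl C ^ j))
    rw [map_pow]
    exact (isUnit_Dl_cell C hu hv t).pow j
  let σ : B →ₐ[ℂ] ℂ := IsLocalization.liftAlgHom (M := Submonoid.powers (Dl C)) (S := B) hunit
  have hσ : ∀ f : G.O, σ (algebraMap G.O B f) = (u * tq C t * v) f := by
    intro f
    exact IsLocalization.lift_eq _ f
  have h3 := YH6_spec C hφ huB hvB hdec hu hv σ hσ l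
  rw [← hz, hzf, hσ] at h3
  rw [AffGrp.Pt.toX_apply]
  exact h3

end Pool.Agent.MTG
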