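import Pool.Agent.MTG.YH8
import Pool.Agent.MTG.B1j

/-! # MTG-YH : highest weight representations -/

namespace Pool.Agent.MTG

open Pool.Agent.MTF Matrix
open Pool.Agent.MTD (ev)
open Pool.Agent.MTX.SLD (AA fm0)
open Pool.Agent.MTH
open Pool.Agent.MP_c45d35_ag (chi)

/-- the projection to a weight line is a polynomial in the diagonal matrices -/
theorem YH9_proj {ι : Type} [Fintype ι] [DecidableEq ι] {n : ℕ} (w : ι → Fin n → ℤ)
    (W : Submodule ℂ (ι → ℂ))
    (hW : ∀ k, ∀ u ∈ W, (Matrix.diagonal fun a => ((w a k : ℤ) : ℂ)).mulVec u ∈ W) (a0 : ι)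
    (ha0 : ∀ a, w a = w a0 → a = a0) {u : ι → ℂ} (hu : u ∈ W) : Pi.single a0 (u a0) ∈ W := by
  have key : ∀ S : Finset ι, a0 ∉ S → ∃ v ∈ W, v a0 = u a0 ∧ ∀ a ∈ S, v a = 0 := by
    intro S
    induction S using Finset.induction_on with
    | empty => exact fun _ => ⟨u, hu, rfl, fun a ha => absurd ha (Finset.notMem_empty a)⟩
    | insert a S haS ih =>
      intro hS
      rw [Finset.mem_insert, not_or] at hS
      obtain ⟨v, hv, hv0, hvS⟩ := ih hS.2
      obtain ⟨k, hk⟩ : ∃ k, w a k ≠ w a0 k := by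
        by_contra hcon
        push Not at hcon
        exact hS.1 (ha0 a (funext hcon)).symm
      have hk' : ((w a0 k : ℤ) : ℂ) - ((w a k : ℤ) : ℂ) ≠ 0 := by
        rw [sub_ne_zero]
        intro h
        exact hk (Int.cast_injective h).symm
      refine ⟨(((w a0 k : ℤ) : ℂ) - ((w a k : ℤ) : ℂ))⁻¹ •
        ((Matrix.diagonal fun a => ((w a k : ℤ) : ℂ)).mulVec v - ((w a k : ℤ) : ℂ) • v),
        W.smul_mem _ (W.sub_mem (hW k v hv) (W.smul_mem _ hv)), ?_, ?_⟩
      · rw [Pi.smul_apply, Pi.sub_apply, Matrix.mulVec_diagonal, Pi.smul_apply, smul_eq_mul,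
          smul_eq_mul, ← sub_mul, ← mul_assoc, inv_mul_cancel₀ hk', one_mul, hv0]
      · intro b hb
        rw [Pi.smul_apply, Pi.sub_apply, Matrix.mulVec_diagonal, Pi.smul_apply, smul_eq_mul,
          smul_eq_mul, ← sub_mul]
        rcases Finset.mem_insert.1 hb with rfl | hb
        · rw [sub_self, zero_mul, mul_zero]
        · rw [hvS b hb, mul_zero, mul_zero]
  obtain ⟨v, hv, hv0, hvS⟩ := key (Finset.univ.erase a0) (Finset.notMem_erase a0 _)
  have : Pi.single a0 (u a0) = v := by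
    ext a
    by_cases ha : a = a0
    · rw [ha, Pi.single_eq_same, hv0]
    · rw [Pi.single_eq_of_ne ha, hvS a (Finset.mem_erase.2 ⟨ha, Finset.mem_univ a⟩)]
  rw [this]
  exact hv

/-- a stable subspace with a vector with nonzero coordinate at the highest weight is everything -/
theorem YH9_top {G : AffGrp} {n : ℕ} {D : RD n} {C : CD G D} (hG : IsDomain G.O)
    {l : Fin n → ℤ} {E : MTF.Rep G} {w : E.ι → Fin n → ℤ} {v0 : E.ι → ℂ} (h : HWV C l E w v0)
    {a0 : E.ι} (hw0 : w a0 = l) (hun : ∀ a, w a = l → a = a0)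
    (U : Submodule ℂ (E.ι → ℂ)) (hU : GStab E U) {u : E.ι → ℂ} (hu : u ∈ U) (hne : u a0 ≠ 0) :
    U = ⊤ := by
  classical
  have hst := (AffGrp.stable_iff hG E U).1 hU
  have h1 : Pi.single a0 (u a0) ∈ U := by
    apply YH9_proj w U _ a0 (fun a ha => hun a (ha.trans hw0)) hu
    intro k v hv
    have := hst (C.h k) v hv
    rwa [h.isW.d_h k] at this
  have h2 : v0 = (v0 a0 / u a0) • (Pi.single a0 (u a0) : E.ι → ℂ) := by
    ext a
    by_cases ha : a = a0
    · rw [ha, Pi.smul_apply, Pi.single_eq_same, smul_eq_mul, div_mul_cancel₀ _ hne]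
    · rw [Pi.smul_apply, Pi.single_eq_of_ne ha, smul_zero]
      by_contra h3
      exact ha (hun a (h.wt a h3))
  have h3 : v0 ∈ U := by
    rw [h2]
    exact U.smul_mem _ h1
  rw [eq_top_iff, ← h.cyc, Submodule.span_le]
  rintro _ ⟨x, rfl⟩
  exact hU x v0 h3

/-- YH9.  Irreducibility.  If `v0 ∈ U` then `U = ⊤` (`cyc`).  `U'` from `exists_compl`; `U` and `U'` are stable under all `E.d y` (`stable_iff`), in particular under the
diagonal matrices `E.d (C.h k)` (entries `w a k`), hence under the projection `p` to the coordinate `a0` (`mult`; the weight `l` space is spanned by `Pi.single a0 1`, so by `v0`;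
`p` is a polynomial in these diagonal matrices: product over the `a ≠ a0` of `(d(h_k) - w a k) / (l k - w a k)` with `k` such that `w a k ≠ l k`).
`v0 = u + u'`, so `v0 = p u + p u'`, `p u ∈ U`, `p u' ∈ U'` are multiples of `v0`; one is nonzero, so `v0 ∈ U` or `v0 ∈ U'`; in the second case `U' = ⊤`, `U = ⊥`. -/
theorem HWV.irr {G : AffGrp} {n : ℕ} {D : RD n} {C : CD G D} (hG : G.Semi)
    {l : Fin n → ℤ} {E : MTF.Rep G} {w : E.ι → Fin n → ℤ} {v0 : E.ι → ℂ} (h : HWV C l E w v0)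
    (U : Submodule ℂ (E.ι → ℂ)) (hU : GStab E U) : U = ⊥ ∨ U = ⊤ := by
  classical
  obtain ⟨a0, hw0, hun⟩ := h.mult hG.dom
  obtain ⟨U', hc, hU'⟩ := AffGrp.exists_compl hG E U hU
  have hv0 : v0 a0 ≠ 0 := by
    obtain ⟨a, ha⟩ : ∃ a, v0 a ≠ 0 := by
      by_contra hcon
      push Not at hcon
      exact h.ne (funext hcon)
    rwa [hun a (h.wt a ha)] at ha
  obtain ⟨u, hu, u', hu', huu⟩ : ∃ u ∈ U, ∃ u' ∈ U', u + u' = v0 := by
    have : v0 ∈ U ⊔ U' := by
      rw [hc.sup_eq_top]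
      exact Submodule.mem_top
    exact Submodule.mem_sup.1 this
  by_cases h1 : u a0 = 0
  · left
    have h2 : u' a0 ≠ 0 := by
      intro h3
      apply hv0
      rw [← huu, Pi.add_apply, h1, h3, add_zero]
    have h3 := YH9_top hG.dom h hw0 hun U' hU' hu' h2
    have h4 := hc.inf_eq_bot
    rwa [h3, inf_top_eq] at h4
  · right
    exact YH9_top hG.dom h hw0 hun U hU hu h1

end Pool.Agent.MTG
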