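import Pool.Agent.MTG.YS6
import Pool.Agent.MTG.GV0

/-! # MTG-YP0 : the data for the Poisson structure (definitions) -/

namespace Pool.Agent.MTG

open Pool.Agent.MTF Matrix
open Pool.Agent.MTD (ev)
open Pool.Agent.MTX.SLD (AA fm0)
open Pool.Agent.MTH
open RD (KK aK)

namespace CD

variable {G : AffGrp} {n : ℕ} {D : RD n} (C : CD G D)

/-- the Killing form in the Cartan basis -/
noncomputable def kJ (i j : Fin n ⊕ D.Rt) : ℂ := G.killing (C.bs i) (C.bs j)

/-- the Killing form on the Cartan subalgebra -/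
noncomputable def kg : Matrix (Fin n) (Fin n) ℂ := fun i j => C.kJ (Sum.inl i) (Sum.inl j)

/-- the Killing form with coefficients -/
noncomputable def kap {R : Type} [CommRing R] [Algebra ℂ R] (z z' : LR D R) : R :=
  ∑ i, ∑ j, algebraMap ℂ R (C.kJ i j) * (z i * z' j)

/-- `κ(z, -)` in coordinates -/
noncomputable def fl {R : Type} [CommRing R] [Algebra ℂ R] (z : LR D R) : LR D R :=
  fun i => ∑ j, algebraMap ℂ R (C.kJ j i) * z j

/-- `s` over the fraction field -/
noncomputable def sK : LR D (KK n) := fun j => aK (C.sx j)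

/-- the derivative of `A` in the direction `j`: `x_k ↦ (kg⁻¹)_jk` -/
noncomputable def dA (j : Fin n) : Derivation ℂ (AA n) (AA n) :=
  ∑ k, (C.kg⁻¹) j k • MvPolynomial.pderiv k

/-- the dual coordinates `y_j = ∑ kg_jk x_k` -/
noncomputable def yA (j : Fin n) : AA n := ∑ k, MvPolynomial.C (C.kg j k) * MvPolynomial.X k

end CD

end Pool.Agent.MTG
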