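import Pool.Agent.MTG.YP0

/-! # MTG-YP : the data for the Poisson structure -/

namespace Pool.Agent.MTG

open Pool.Agent.MTF Matrix
open Pool.Agent.MTD (ev)
open Pool.Agent.MTX.SLD (AA fm0)
open Pool.Agent.MTH
open RD (KK aK)
open Pool.Agent.MP_c45d35_ag (chi)

/-- YP1a.  Basic properties of the Killing form with coefficients.  `G.killing` is `killingForm` (`AffGrp.killing_eq`), symmetric (`LieModule.traceForm_comm`) and invariant
(`LieModule.traceForm_apply_lie_apply`); `kap_br`: expand in the basis (`C.lie_bs`, `C.sc`). -/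
theorem CD.kJ_comm {G : AffGrp} {n : ℕ} {D : RD n} (C : CD G D) (i j : Fin n ⊕ D.Rt) :
    C.kJ i j = C.kJ j i := by
  unfold CD.kJ
  rw [AffGrp.killing_eq, AffGrp.killing_eq]
  exact LieModule.traceForm_comm ℂ G.Lie G.Lie _ _

theorem CD.kap_comm {G : AffGrp} {n : ℕ} {D : RD n} (C : CD G D) {R : Type} [CommRing R]
    [Algebra ℂ R] (z z' : LR D R) : C.kap z z' = C.kap z' z := by
  unfold CD.kap
  rw [Finset.sum_comm]
  refine Finset.sum_congr rfl fun i _ => Finset.sum_congr rfl fun j _ => ?_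
  rw [C.kJ_comm, mul_comm (z j)]

theorem CD.kap_add {G : AffGrp} {n : ℕ} {D : RD n} (C : CD G D) {R : Type} [CommRing R]
    [Algebra ℂ R] (z z' z'' : LR D R) : C.kap (z + z') z'' = C.kap z z'' + C.kap z' z'' := by
  unfold CD.kap
  rw [← Finset.sum_add_distrib]
  refine Finset.sum_congr rfl fun i _ => ?_
  rw [← Finset.sum_add_distrib]
  refine Finset.sum_congr rfl fun j _ => ?_
  rw [Pi.add_apply, add_mul, mul_add]

theorem CD.kap_smul {G : AffGrp} {n : ℕ} {D : RD n} (C : CD G D) {R : Type} [CommRing R]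
    [Algebra ℂ R] (r : R) (z z' : LR D R) : C.kap (r • z) z' = r * C.kap z z' := by
  unfold CD.kap
  rw [Finset.mul_sum]
  refine Finset.sum_congr rfl fun i _ => ?_
  rw [Finset.mul_sum]
  refine Finset.sum_congr rfl fun j _ => ?_
  rw [Pi.smul_apply, smul_eq_mul]
  ring

/-- `κ(z, z') = ∑ (κ z)_i z'_i` -/
theorem CD.kap_fl {G : AffGrp} {n : ℕ} {D : RD n} (C : CD G D) {R : Type} [CommRing R]
    [Algebra ℂ R] (z z' : LR D R) : C.kap z z' = ∑ i, C.fl z i * z' i := by
  unfold CD.kap CD.fl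
  rw [Finset.sum_comm]
  refine Finset.sum_congr rfl fun i _ => ?_
  rw [Finset.sum_mul]
  refine Finset.sum_congr rfl fun j _ => ?_
  ring

/-- invariance in the basis -/
theorem CD.kJ_sc {G : AffGrp} {n : ℕ} {D : RD n} (C : CD G D) (p q j : Fin n ⊕ D.Rt) :
    ∑ i, C.sc p q i * C.kJ i j = ∑ i, C.kJ p i * C.sc q j i := by
  have hk : ∀ X Y : G.Lie, G.killing X Y = LieModule.traceForm ℂ G.Lie G.Lie X Y := fun X Y =>
    AffGrp.killing_eq G X Y
  have h1 : ∑ i, C.sc p q i * C.kJ i j =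
      LieModule.traceForm ℂ G.Lie G.Lie ⁅C.bs p, C.bs q⁆ (C.bs j) := by
    rw [C.lie_bs p q, map_sum, LinearMap.sum_apply]
    refine Finset.sum_congr rfl fun i _ => ?_
    rw [map_smul, LinearMap.smul_apply, smul_eq_mul]
    unfold CD.kJ
    rw [hk]
  have h2 : ∑ i, C.kJ p i * C.sc q j i =
      LieModule.traceForm ℂ G.Lie G.Lie (C.bs p) ⁅C.bs q, C.bs j⁆ := by
    rw [C.lie_bs q j, map_sum]
    refine Finset.sum_congr rfl fun i _ => ?_
    rw [map_smul, smul_eq_mul, mul_comm]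
    unfold CD.kJ
    rw [hk]
  rw [h1, h2, LieModule.traceForm_apply_lie_apply]

/-- invariance -/
theorem CD.kap_br {G : AffGrp} {n : ℕ} {D : RD n} (C : CD G D) {R : Type} [CommRing R]
    [Algebra ℂ R] (a b c : LR D R) : C.kap (C.br a b) c = C.kap a (C.br b c) := by
  have h1 : C.kap (C.br a b) c = ∑ p, ∑ q, ∑ j, (a p * b q * c j) *
      algebraMap ℂ R (∑ i, C.sc p q i * C.kJ i j) := by
    have h2 : C.kap (C.br a b) c = ∑ i, ∑ j, ∑ p, ∑ q, (a p * b q * c j) *
        algebraMap ℂ R (C.sc p q i * C.kJ i j) := by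
      unfold CD.kap CD.br
      refine Finset.sum_congr rfl fun i _ => Finset.sum_congr rfl fun j _ => ?_
      rw [Finset.sum_mul, Finset.mul_sum]
      refine Finset.sum_congr rfl fun p _ => ?_
      rw [Finset.sum_mul, Finset.mul_sum]
      refine Finset.sum_congr rfl fun q _ => ?_
      rw [map_mul]
      ring
    rw [h2]
    have h3 : ∀ p q j, (a p * b q * c j) * algebraMap ℂ R (∑ i, C.sc p q i * C.kJ i j) =
        ∑ i, (a p * b q * c j) * algebraMap ℂ R (C.sc p q i * C.kJ i j) := by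
      intro p q j
      rw [map_sum, Finset.mul_sum]
    simp only [h3]
    calc ∑ i, ∑ j, ∑ p, ∑ q, (a p * b q * c j) * algebraMap ℂ R (C.sc p q i * C.kJ i j)
        = ∑ j, ∑ i, ∑ p, ∑ q, (a p * b q * c j) * algebraMap ℂ R (C.sc p q i * C.kJ i j) :=
          Finset.sum_comm
      _ = ∑ j, ∑ p, ∑ i, ∑ q, (a p * b q * c j) * algebraMap ℂ R (C.sc p q i * C.kJ i j) :=
          Finset.sum_congr rfl fun j _ => Finset.sum_comm
      _ = ∑ j, ∑ p, ∑ q, ∑ i, (a p * b q * c j) * algebraMap ℂ R (C.sc p q i * C.kJ i j) :=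
          Finset.sum_congr rfl fun j _ => Finset.sum_congr rfl fun p _ => Finset.sum_comm
      _ = ∑ p, ∑ j, ∑ q, ∑ i, (a p * b q * c j) * algebraMap ℂ R (C.sc p q i * C.kJ i j) :=
          Finset.sum_comm
      _ = ∑ p, ∑ q, ∑ j, ∑ i, (a p * b q * c j) * algebraMap ℂ R (C.sc p q i * C.kJ i j) :=
          Finset.sum_congr rfl fun p _ => Finset.sum_comm
  have h4 : C.kap a (C.br b c) = ∑ p, ∑ q, ∑ j, (a p * b q * c j) *
      algebraMap ℂ R (∑ i, C.kJ p i * C.sc q j i) := by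
    have h2 : C.kap a (C.br b c) = ∑ p, ∑ i, ∑ q, ∑ j, (a p * b q * c j) *
        algebraMap ℂ R (C.kJ p i * C.sc q j i) := by
      unfold CD.kap CD.br
      refine Finset.sum_congr rfl fun p _ => Finset.sum_congr rfl fun i _ => ?_
      rw [Finset.mul_sum, Finset.mul_sum]
      refine Finset.sum_congr rfl fun q _ => ?_
      rw [Finset.mul_sum, Finset.mul_sum]
      refine Finset.sum_congr rfl fun j _ => ?_
      rw [map_mul]
      ring
    rw [h2]
    refine Finset.sum_congr rfl fun p _ => ?_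
    rw [Finset.sum_comm]
    refine Finset.sum_congr rfl fun q _ => ?_
    rw [Finset.sum_comm]
    refine Finset.sum_congr rfl fun j _ => ?_
    rw [map_sum, Finset.mul_sum]
  rw [h1, h4]
  refine Finset.sum_congr rfl fun p _ => Finset.sum_congr rfl fun q _ =>
    Finset.sum_congr rfl fun j _ => ?_
  rw [CD.kJ_sc]

/-- change of coefficients -/
theorem CD.kap_map {G : AffGrp} {n : ℕ} {D : RD n} (C : CD G D) {R R' : Type} [CommRing R]
    [Algebra ℂ R] [CommRing R'] [Algebra ℂ R'] (σ : R →ₐ[ℂ] R') (z z' : LR D R) :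
    σ (C.kap z z') = C.kap (fun j => σ (z j)) (fun j => σ (z' j)) := by
  unfold CD.kap
  rw [map_sum]
  refine Finset.sum_congr rfl fun i _ => ?_
  rw [map_sum]
  refine Finset.sum_congr rfl fun j _ => ?_
  rw [map_mul, map_mul, AlgHom.commutes]

end Pool.Agent.MTG
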