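import Pool.Agent.MTG.YP0

/-! # MTG-YP : the data for the Poisson structure -/

namespace Pool.Agent.MTG

open Pool.Agent.MTF Matrix
open Pool.Agent.MTD (ev)
open Pool.Agent.MTX.SLD (AA fm0)
open Pool.Agent.MTH
open RD (KK aK)
open Pool.Agent.MP_c45d35_ag (chi)

/-- YP1b.  The Killing form in the Cartan basis.  `killing D E = trace (ad D ad E)`, computed in the basis `C.bs`: `ad h_k` is diagonal with eigenvalues `0`, `γ k` (`h_h`, `h_e`), so
`kg i j = ∑ γ, γ i * γ j` and `kJ (inl k) (inr γ)`, `kJ (inr γ) (inr δ)` for `δ ≠ ng γ` vanish: invariance gives `(γ + δ)(k) κ(e_γ, e_δ) = 0`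
(`κ([h, e_γ], e_δ) + κ(e_γ, [h, e_δ]) = 0`), and `(δ k) κ(h_i, e_δ) = 0`. -/
theorem CD.kg_eq {G : AffGrp} {n : ℕ} {D : RD n} (C : CD G D) (i j : Fin n) :
    C.kg i j = ∑ γ : D.Rt, ((γ.1 i : ℤ) : ℂ) * ((γ.1 j : ℤ) : ℂ) := by
  have hij : C.kg i j = killingForm ℂ G.Lie (C.bs (Sum.inl i)) (C.bs (Sum.inl j)) :=
    AffGrp.killing_eq _ _ _
  rw [hij, killingForm_apply_apply, LinearMap.trace_eq_matrix_trace ℂ C.bs, Matrix.trace,
    Fintype.sum_sum_type]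
  have h1 : ∀ a : Fin n, Matrix.diag (LinearMap.toMatrix C.bs C.bs
      ((LieAlgebra.ad ℂ G.Lie) (C.bs (Sum.inl i)) ∘ₗ
        (LieAlgebra.ad ℂ G.Lie) (C.bs (Sum.inl j)))) (Sum.inl a) = 0 := by
    intro a
    rw [Matrix.diag_apply, LinearMap.toMatrix_apply, LinearMap.comp_apply,
      LieAlgebra.ad_apply, LieAlgebra.ad_apply, C.h_h, lie_zero, map_zero]
    rfl
  have h2 : ∀ γ : D.Rt, Matrix.diag (LinearMap.toMatrix C.bs C.bs
      ((LieAlgebra.ad ℂ G.Lie) (C.bs (Sum.inl i)) ∘ₗ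
        (LieAlgebra.ad ℂ G.Lie) (C.bs (Sum.inl j)))) (Sum.inr γ) =
      ((γ.1 i : ℤ) : ℂ) * ((γ.1 j : ℤ) : ℂ) := by
    intro γ
    rw [Matrix.diag_apply, LinearMap.toMatrix_apply, LinearMap.comp_apply,
      LieAlgebra.ad_apply, LieAlgebra.ad_apply, C.h_e, lie_smul, C.h_e, smul_smul, map_smul,
      Module.Basis.repr_self, Finsupp.smul_apply, Finsupp.single_eq_same, smul_eq_mul, mul_one,
      mul_comm]
  rw [Finset.sum_congr rfl fun a _ => h1 a, Finset.sum_congr rfl fun γ _ => h2 γ,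
    Finset.sum_const_zero, zero_add]

theorem CD.kJ_lr {G : AffGrp} {n : ℕ} {D : RD n} (C : CD G D) (k : Fin n) (γ : D.Rt) :
    C.kJ (Sum.inl k) (Sum.inr γ) = 0 ∧ C.kJ (Sum.inr γ) (Sum.inl k) = 0 := by
  have h0 : C.kJ (Sum.inl k) (Sum.inr γ) = 0 := by
    obtain ⟨i, hi⟩ : ∃ i, γ.1 i ≠ 0 := by
      by_contra hc
      push Not at hc
      exact D.Rt_ne γ (funext hc)
    have h1 : killingForm ℂ G.Lie (C.bs (Sum.inl k)) ⁅C.bs (Sum.inl i), C.bs (Sum.inr γ)⁆ = 0 := by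
      rw [killingForm, ← LieModule.traceForm_apply_lie_apply, C.h_h, map_zero,
        LinearMap.zero_apply]
    rw [C.h_e, map_smul, smul_eq_mul] at h1
    rw [CD.kJ, AffGrp.killing_eq]
    rcases mul_eq_zero.1 h1 with h | h
    · exact absurd (Int.cast_eq_zero.1 h) hi
    · exact h
  refine ⟨h0, ?_⟩
  rw [CD.kJ, AffGrp.killing_eq] at h0 ⊢
  rw [killingForm, LieModule.traceForm_comm]
  exact h0

theorem CD.kJ_rr {G : AffGrp} {n : ℕ} {D : RD n} (C : CD G D) (γ δ : D.Rt) (h : δ ≠ D.ng γ) :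
    C.kJ (Sum.inr γ) (Sum.inr δ) = 0 := by
  obtain ⟨k, hk⟩ : ∃ k, γ.1 k + δ.1 k ≠ 0 := by
    by_contra hc
    push Not at hc
    apply h
    apply Subtype.ext
    funext k
    rw [D.ng_val, Pi.neg_apply]
    have := hc k
    omega
  have h1 : killingForm ℂ G.Lie ⁅C.bs (Sum.inr γ), C.bs (Sum.inl k)⁆ (C.bs (Sum.inr δ)) =
      killingForm ℂ G.Lie (C.bs (Sum.inr γ)) ⁅C.bs (Sum.inl k), C.bs (Sum.inr δ)⁆ :=
    LieModule.traceForm_apply_lie_apply ℂ G.Lie G.Lie _ _ _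
  rw [← lie_skew, C.h_e, C.h_e, map_neg, map_smul, map_smul, LinearMap.neg_apply,
    LinearMap.smul_apply, smul_eq_mul, smul_eq_mul] at h1
  rw [CD.kJ, AffGrp.killing_eq]
  have h2 : ((γ.1 k + δ.1 k : ℤ) : ℂ) *
      killingForm ℂ G.Lie (C.bs (Sum.inr γ)) (C.bs (Sum.inr δ)) = 0 := by
    push_cast
    linear_combination -h1
  rcases mul_eq_zero.1 h2 with h3 | h3
  · exact absurd (Int.cast_eq_zero.1 h3) hk
  · exact h3

end Pool.Agent.MTG
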