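import Pool.Agent.MTG.YP1a
import Pool.Agent.MTG.YP1b

/-! # MTG-YP : the data for the Poisson structure -/

namespace Pool.Agent.MTG

open Pool.Agent.MTF Matrix
open Pool.Agent.MTD (ev)
open Pool.Agent.MTX.SLD (AA fm0)
open Pool.Agent.MTH
open RD (KK aK)
open Pool.Agent.MP_c45d35_ag (chi)

theorem YP1c_kill {G : AffGrp} {n : ℕ} {D : RD n} (C : CD G D) (hG : G.Semi)
    (v : Fin n ⊕ D.Rt → ℂ) (h : (Matrix.of C.kJ).mulVec v = 0) : v = 0 := by
  have h1 : ∑ j, v j • C.bs j = 0 := by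
    apply hG.kill
    intro E
    have h2 : ∀ i, G.killing (∑ j, v j • C.bs j) (C.bs i) = 0 := by
      intro i
      have h3 : G.killing (∑ j, v j • C.bs j) (C.bs i) = ∑ j, C.kJ i j * v j := by
        rw [AffGrp.killing_eq, map_sum, LinearMap.sum_apply]
        refine Finset.sum_congr rfl fun j _ => ?_
        rw [map_smul, LinearMap.smul_apply, smul_eq_mul, mul_comm, C.kJ_comm i j]
        unfold CD.kJ
        rw [AffGrp.killing_eq]
      rw [h3]
      exact congrFun h i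
    have h4 : E = ∑ i, C.bs.repr E i • C.bs i := (C.bs.sum_repr E).symm
    rw [h4, AffGrp.killing_eq, map_sum]
    refine Finset.sum_eq_zero fun i _ => ?_
    rw [map_smul, ← AffGrp.killing_eq, h2, smul_zero]
  have h5 := Fintype.linearIndependent_iff.1 C.bs.linearIndependent v h1
  funext j
  exact h5 j

theorem YP1c_inv {G : AffGrp} {n : ℕ} {D : RD n} (C : CD G D) (hG : G.Semi)
    (hu : IsUnit (Matrix.det (Matrix.of C.kJ))) {R : Type} [CommRing R] [Algebra ℂ R] :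
    ∃ N : Matrix (Fin n ⊕ D.Rt) (Fin n ⊕ D.Rt) R, (∀ z : LR D R, N.mulVec (C.fl z) = z) ∧
      ∀ z : LR D R, C.fl (N.mulVec z) = z := by
  set M := Matrix.of C.kJ with hM
  have e1 : M * M⁻¹ = 1 := Matrix.mul_nonsing_inv M hu
  have e2 : M⁻¹ * M = 1 := Matrix.nonsing_inv_mul M hu
  have hfl : ∀ z : LR D R, C.fl z = (Mᵀ.map (algebraMap ℂ R)).mulVec z := by
    intro z
    funext i
    rfl
  have e3 : (M⁻¹)ᵀ.map (algebraMap ℂ R) * Mᵀ.map (algebraMap ℂ R) = 1 := by
    rw [← Matrix.map_mul, ← Matrix.transpose_mul, e1, Matrix.transpose_one,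
      Matrix.map_one _ (map_zero _) (map_one _)]
  have e4 : Mᵀ.map (algebraMap ℂ R) * (M⁻¹)ᵀ.map (algebraMap ℂ R) = 1 := by
    rw [← Matrix.map_mul, ← Matrix.transpose_mul, e2, Matrix.transpose_one,
      Matrix.map_one _ (map_zero _) (map_one _)]
  refine ⟨(M⁻¹)ᵀ.map (algebraMap ℂ R), fun z => ?_, fun z => ?_⟩
  · rw [hfl, Matrix.mulVec_mulVec, e3, Matrix.one_mulVec]
  · rw [hfl, Matrix.mulVec_mulVec, e4, Matrix.one_mulVec]

/-- YP1c.  Nondegeneracy.  `kJ` is the Gram matrix of a nondegenerate form (`hG.kill`) in a basis: its determinant is not `0`; so the form over every algebra `R` is nondegenerate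
(the matrix is invertible over `ℂ`).  `kg` is invertible: block structure (`kJ_lr`): if `∑ kg i j y j = 0` for all `i` then `∑ y j h_j` is orthogonal to everything. -/
theorem CD.det_kJ {G : AffGrp} {n : ℕ} {D : RD n} (C : CD G D) (hG : G.Semi) :
    IsUnit (Matrix.det (Matrix.of C.kJ)) := by
  rw [isUnit_iff_ne_zero]
  intro h0
  obtain ⟨v, hv, hv'⟩ := Matrix.exists_mulVec_eq_zero_iff.2 h0
  exact hv (YP1c_kill C hG v hv')

theorem CD.det_kg {G : AffGrp} {n : ℕ} {D : RD n} (C : CD G D) (hG : G.Semi) :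
    IsUnit C.kg.det := by
  rw [isUnit_iff_ne_zero]
  intro h0
  obtain ⟨v, hv, hv'⟩ := Matrix.exists_mulVec_eq_zero_iff.2 h0
  have h1 : (Sum.elim v 0 : Fin n ⊕ D.Rt → ℂ) = 0 := by
    apply YP1c_kill C hG
    funext i
    show ∑ j, C.kJ i j * (Sum.elim v 0 : Fin n ⊕ D.Rt → ℂ) j = 0
    rw [Fintype.sum_sum_type]
    simp only [Sum.elim_inl, Sum.elim_inr, Pi.zero_apply, mul_zero, Finset.sum_const_zero, add_zero]
    rcases i with k | γ
    · exact congrFun hv' k
    · refine Finset.sum_eq_zero fun k _ => ?_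
      rw [(C.kJ_lr k γ).2, zero_mul]
  apply hv
  funext k
  exact congrFun h1 (Sum.inl k)

theorem CD.fl_inj {G : AffGrp} {n : ℕ} {D : RD n} (C : CD G D) (hG : G.Semi) {R : Type}
    [CommRing R] [Algebra ℂ R] {z : LR D R} (h : C.fl z = 0) : z = 0 := by
  obtain ⟨N, h1, -⟩ := YP1c_inv C hG (C.det_kJ hG) (R := R)
  rw [← h1 z, h, Matrix.mulVec_zero]

theorem CD.fl_surj {G : AffGrp} {n : ℕ} {D : RD n} (C : CD G D) (hG : G.Semi) {R : Type}
    [CommRing R] [Algebra ℂ R] (α : LR D R) : ∃ z, C.fl z = α := by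
  obtain ⟨N, -, h2⟩ := YP1c_inv C hG (C.det_kJ hG) (R := R)
  exact ⟨N.mulVec α, h2 α⟩

end Pool.Agent.MTG
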