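import Pool.Agent.MTG.YP1b

/-! # MTG-YP : the data for the Poisson structure -/

namespace Pool.Agent.MTG

open Pool.Agent.MTF Matrix
open Pool.Agent.MTD (ev)
open Pool.Agent.MTX.SLD (AA fm0)
open Pool.Agent.MTH
open RD (KK aK)
open Pool.Agent.MP_c45d35_ag (chi)

/-- `kg` as a sum over the roots -/
theorem mtgYP1d_sum {G : AffGrp} {n : ℕ} {D : RD n} (C : CD G D) (x y : Fin n → ℂ) :
    ∑ i, ∑ j, C.kg i j * (x i * y j) = ∑ γ : D.Rt, ev γ.1 x * ev γ.1 y := by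
  have h1 : ∀ i j, C.kg i j * (x i * y j) =
      ∑ γ : D.Rt, (((γ.1 i : ℤ) : ℂ) * x i) * (((γ.1 j : ℤ) : ℂ) * y j) := by
    intro i j
    rw [C.kg_eq, Finset.sum_mul]
    exact Finset.sum_congr rfl fun γ _ => by ring
  simp only [h1]
  rw [Finset.sum_congr rfl fun i _ => Finset.sum_comm, Finset.sum_comm]
  refine Finset.sum_congr rfl fun γ _ => ?_
  unfold ev
  rw [Finset.sum_mul_sum]

/-- YP1d.  `kg` is invariant under the Weyl group, as a form on `𝔱`: `∑ i j, kg i j (wx u x)_i (wx u y)_j = ∑_γ γ(wx u x) γ(wx u y)` (`kg_eq`) and `γ ↦ u⁻¹ • γ` permutes the roots (`ev_wx`).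
Consequently the inverse form is invariant on the weights: `be μ ν = ∑ μ i (kg⁻¹) i j ν j`. -/
theorem CD.kg_W {G : AffGrp} {n : ℕ} {D : RD n} (C : CD G D) (u : D.W) (x y : Fin n → ℂ) :
    ∑ i, ∑ j, C.kg i j * (wx u x i * wx u y j) = ∑ i, ∑ j, C.kg i j * (x i * y j) := by
  rw [mtgYP1d_sum C, mtgYP1d_sum C]
  have h1 : ∀ γ : D.Rt, ev γ.1 (wx u x) * ev γ.1 (wx u y) =
      ev (u⁻¹ • γ).1 x * ev (u⁻¹ • γ).1 y := by
    intro γ
    have h0 : u.1 (u⁻¹ • γ).1 = γ.1 := D.W_inv_apply u γ.1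
    rw [← ev_wx u x (u⁻¹ • γ).1, ← ev_wx u y (u⁻¹ • γ).1, h0]
  rw [Finset.sum_congr rfl fun γ _ => h1 γ]
  exact Fintype.sum_equiv (MulAction.toPerm u⁻¹) _ _ fun γ => rfl

theorem CD.be_W {G : AffGrp} {n : ℕ} {D : RD n} (C : CD G D) (hk : IsUnit C.kg.det) (u : D.W)
    (μ ν : Fin n → ℤ) :
    ∑ i, ∑ j, ((u.1 μ i : ℤ) : ℂ) * (C.kg⁻¹) i j * ((u.1 ν j : ℤ) : ℂ) =
      ∑ i, ∑ j, ((μ i : ℤ) : ℂ) * (C.kg⁻¹) i j * ((ν j : ℤ) : ℂ) := by
  set V : Matrix (Fin n) (Fin n) ℂ := fun k i => ((u.1 (Pi.single k 1) i : ℤ) : ℂ) with hV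
  have h1 : Vᵀ * C.kg * V = C.kg := by
    ext a b
    have h2 := C.kg_W u⁻¹ (Pi.single a 1) (Pi.single b 1)
    have h3 : ∀ a k, wx u⁻¹ (Pi.single a (1 : ℂ)) k = V k a := by
      intro a k
      show ev ((u⁻¹)⁻¹.1 (Pi.single k 1)) (Pi.single a (1 : ℂ)) = _
      rw [inv_inv]
      unfold ev
      rw [Finset.sum_eq_single a]
      · rw [Pi.single_eq_same, mul_one]
      · intro j _ hj
        rw [Pi.single_eq_of_ne hj, mul_zero]
      · intro h
        exact (h (Finset.mem_univ a)).elim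
    have h4 : ∑ i, ∑ j, C.kg i j * ((Pi.single a (1 : ℂ) : Fin n → ℂ) i *
        (Pi.single b (1 : ℂ) : Fin n → ℂ) j) = C.kg a b := by
      rw [Finset.sum_eq_single a, Finset.sum_eq_single b]
      · rw [Pi.single_eq_same, Pi.single_eq_same, mul_one, mul_one]
      · intro j _ hj
        rw [Pi.single_eq_of_ne hj, mul_zero, mul_zero]
      · intro h
        exact (h (Finset.mem_univ b)).elim
      · intro i _ hi
        refine Finset.sum_eq_zero fun j _ => ?_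
        rw [Pi.single_eq_of_ne hi, zero_mul, mul_zero]
      · intro h
        exact (h (Finset.mem_univ a)).elim
    rw [h4] at h2
    rw [← h2, Matrix.mul_apply]
    simp only [Matrix.mul_apply, Matrix.transpose_apply, h3, Finset.sum_mul]
    rw [Finset.sum_comm]
    exact Finset.sum_congr rfl fun i _ => Finset.sum_congr rfl fun j _ => by ring
  have h5 : V * (C.kg)⁻¹ * Vᵀ = (C.kg)⁻¹ := by
    have h6 : (C.kg)⁻¹ * Vᵀ * C.kg * V = 1 := by
      rw [Matrix.mul_assoc ((C.kg)⁻¹), Matrix.mul_assoc ((C.kg)⁻¹), h1, Matrix.nonsing_inv_mul _ hk]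
    have h7 : V * ((C.kg)⁻¹ * Vᵀ * C.kg) = 1 := mul_eq_one_comm.1 h6
    calc V * (C.kg)⁻¹ * Vᵀ = V * (C.kg)⁻¹ * Vᵀ * (C.kg * (C.kg)⁻¹) := by
          rw [Matrix.mul_nonsing_inv _ hk, Matrix.mul_one]
      _ = V * ((C.kg)⁻¹ * Vᵀ * C.kg) * (C.kg)⁻¹ := by
          simp only [Matrix.mul_assoc]
      _ = (C.kg)⁻¹ := by rw [h7, Matrix.one_mul]
  have h8 : ∀ (μ : Fin n → ℤ) (i : Fin n), ((u.1 μ i : ℤ) : ℂ) = ∑ k, ((μ k : ℤ) : ℂ) * V k i := by
    intro μ i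
    have h9 : μ = ∑ k, μ k • (Pi.single k 1 : Fin n → ℤ) := by
      funext j
      simp [Finset.sum_apply, Pi.single_apply]
    have h10 : u.1 μ = ∑ k, μ k • u.1 (Pi.single k 1) := by
      conv_lhs => rw [h9]
      rw [map_sum]
      exact Finset.sum_congr rfl fun k _ => map_smul _ _ _
    rw [h10, Finset.sum_apply, Int.cast_sum]
    refine Finset.sum_congr rfl fun k _ => ?_
    rw [Pi.smul_apply, smul_eq_mul, Int.cast_mul]
  have h11 : ∀ k l, ∑ i, ∑ j, V k i * (C.kg⁻¹) i j * V l j = (C.kg⁻¹) k l := by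
    intro k l
    conv_rhs => rw [← h5]
    rw [Matrix.mul_apply]
    simp only [Matrix.mul_apply, Matrix.transpose_apply, Finset.sum_mul]
    rw [Finset.sum_comm]
  calc ∑ i, ∑ j, ((u.1 μ i : ℤ) : ℂ) * (C.kg⁻¹) i j * ((u.1 ν j : ℤ) : ℂ)
      = ∑ i, ∑ j, ∑ k, ∑ l, ((μ k : ℤ) : ℂ) * ((ν l : ℤ) : ℂ) *
          (V k i * (C.kg⁻¹) i j * V l j) := by
        refine Finset.sum_congr rfl fun i _ => Finset.sum_congr rfl fun j _ => ?_
        rw [h8 μ i, h8 ν j, Finset.sum_mul, Finset.sum_mul_sum]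
        exact Finset.sum_congr rfl fun k _ => Finset.sum_congr rfl fun l _ => by ring
    _ = ∑ k, ∑ l, ((μ k : ℤ) : ℂ) * ((ν l : ℤ) : ℂ) *
          ∑ i, ∑ j, (V k i * (C.kg⁻¹) i j * V l j) := by
        rw [Finset.sum_congr rfl fun i _ => Finset.sum_comm, Finset.sum_comm]
        refine Finset.sum_congr rfl fun k _ => ?_
        rw [Finset.sum_congr rfl fun i _ => Finset.sum_comm, Finset.sum_comm]
        refine Finset.sum_congr rfl fun l _ => ?_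
        simp only [Finset.mul_sum]
    _ = ∑ i, ∑ j, ((μ i : ℤ) : ℂ) * (C.kg⁻¹) i j * ((ν j : ℤ) : ℂ) := by
        refine Finset.sum_congr rfl fun k _ => Finset.sum_congr rfl fun l _ => ?_
        rw [h11]
        ring

end Pool.Agent.MTG
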