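import Pool.Agent.MTG.YP1a

/-! # MTG-YP : the data for the Poisson structure -/

namespace Pool.Agent.MTG

open Pool.Agent.MTF Matrix
open Pool.Agent.MTD (ev)
open Pool.Agent.MTX.SLD (AA fm0)
open Pool.Agent.MTH
open RD (KK aK)
open Pool.Agent.MP_c45d35_ag (chi)

theorem yp1e_kJ {G : AffGrp} {n : ℕ} {D : RD n} (C : CD G D) (i j : Fin n ⊕ D.Rt) :
    C.kJ i j = Matrix.trace ((show Matrix (Fin n ⊕ D.Rt) (Fin n ⊕ D.Rt) ℂ from (AdR C).d (C.bs i)) *
      (show Matrix (Fin n ⊕ D.Rt) (Fin n ⊕ D.Rt) ℂ from (AdR C).d (C.bs j))) := by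
  have h0 : ∀ v : G.Lie, LinearMap.toMatrix C.bs C.bs (G.ad v) =
      (show Matrix (Fin n ⊕ D.Rt) (Fin n ⊕ D.Rt) ℂ from (AdR C).d v) := by
    intro v
    ext a b
    rw [LinearMap.toMatrix_apply]
    exact (AdR_d C v a b).symm
  unfold CD.kJ AffGrp.killing
  rw [LinearMap.trace_eq_matrix_trace ℂ C.bs, LinearMap.toMatrix_comp C.bs C.bs C.bs, h0, h0]

theorem yp1e_kap {G : AffGrp} {n : ℕ} {D : RD n} (C : CD G D) {R : Type} [CommRing R]
    [Algebra ℂ R] (z z' : LR D R) :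
    C.kap z z' = Matrix.trace (C.dm (AdR C) z * C.dm (AdR C) z') := by
  have h1 : ∀ i j, algebraMap ℂ R (C.kJ i j) = Matrix.trace
      (((AdR C).d (C.bs i)).map (algebraMap ℂ R) * ((AdR C).d (C.bs j)).map (algebraMap ℂ R)) := by
    intro i j
    rw [yp1e_kJ, ← Matrix.map_mul]
    exact AddMonoidHom.map_trace (algebraMap ℂ R : ℂ →+* R).toAddMonoidHom _
  unfold CD.kap CD.dm
  rw [Finset.sum_mul_sum, Matrix.trace_sum]
  refine Finset.sum_congr rfl fun i _ => ?_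
  rw [Matrix.trace_sum]
  refine Finset.sum_congr rfl fun j _ => ?_
  rw [smul_mul_smul_comm, Matrix.trace_smul, h1, smul_eq_mul, mul_comm]

/-- YP1e.  `Ad`-invariance of the Killing form for points with values in `R`.  For `x : G.X`: `G.Ad x` is an automorphism of the Lie algebra (`E.d (Ad x D) = ρ(x) d(D) ρ(x)⁻¹` for a faithful `E`,
`d_injective`), so `killing (Ad x D) (Ad x D') = trace (Ad x ad D ad D' Ad x⁻¹) = killing D D'`.  In coordinates: `∑ k l, kJ k l (AdR.ρ x k i)(AdR.ρ x l j) = kJ i j` for all `x`, an identity in `G.O`;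
apply the point `φ`. -/
theorem CD.kap_Adp {G : AffGrp} {n : ℕ} {D : RD n} (C : CD G D) {R : Type} [CommRing R]
    [Algebra ℂ R] (φ : G.Pt R) (z z' : LR D R) : C.kap (Adp C φ z) (Adp C φ z') = C.kap z z' := by
  rw [yp1e_kap, yp1e_kap]
  have h1 : ∀ w : LR D R, C.dm (AdR C) (Adp C φ w) =
      (AdR C).pt φ * C.dm (AdR C) w * (AdR C).pt φ⁻¹ := by
    intro w
    rw [pt_dm, mul_assoc, Rep.pt_mul_inv, mul_one]
  rw [h1, h1]
  have h2 : (AdR C).pt φ * C.dm (AdR C) z * (AdR C).pt φ⁻¹ *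
      ((AdR C).pt φ * C.dm (AdR C) z' * (AdR C).pt φ⁻¹) =
      (AdR C).pt φ * (C.dm (AdR C) z * C.dm (AdR C) z') * (AdR C).pt φ⁻¹ := by
    have h3 := Rep.pt_inv_mul (AdR C) φ
    simp only [mul_assoc]
    rw [← mul_assoc ((AdR C).pt φ⁻¹) ((AdR C).pt φ), h3, one_mul]
  rw [h2, Matrix.trace_mul_comm, ← mul_assoc, Rep.pt_inv_mul, one_mul]

end Pool.Agent.MTG
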