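import Pool.Agent.MTG.YP0

/-! # MTG-YP : the data for the Poisson structure -/

namespace Pool.Agent.MTG

open Pool.Agent.MTF Matrix
open Pool.Agent.MTD (ev)
open Pool.Agent.MTX.SLD (AA fm0)
open Pool.Agent.MTH
open RD (KK aK)
open Pool.Agent.MP_c45d35_ag (chi)

theorem yp2a_dual {G : AffGrp} {n : ℕ} {D : RD n} (C : CD G D) :
    ∃ x : Fin n ⊕ D.Rt → G.O, ∀ i j, (C.bs j).1 (x i) = if j = i then 1 else 0 := by
  let T : G.O →ₗ[ℂ] (Fin n ⊕ D.Rt → ℂ) := LinearMap.pi fun j => (C.bs j).1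
  have hT : LinearMap.range T = ⊤ := by
    by_contra hne
    obtain ⟨φ, hφ0, hφ⟩ := Submodule.exists_le_ker_of_lt_top _ (lt_top_iff_ne_top.2 hne)
    apply hφ0
    have hexp : ∀ v : Fin n ⊕ D.Rt → ℂ, φ v = ∑ j, φ (Pi.single j 1) * v j := by
      intro v
      conv_lhs => rw [pi_eq_sum_univ v, map_sum]
      refine Finset.sum_congr rfl fun j _ => ?_
      rw [map_smul, smul_eq_mul, mul_comm]
      congr 2
      funext k
      rw [Pi.single_apply]
      exact if_congr eq_comm rfl rfl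
    have h1 : ∑ j, φ (Pi.single j 1) • C.bs j = 0 := by
      apply G.Lie_ext
      intro f
      have h2 : φ (T f) = 0 := LinearMap.mem_ker.1 (hφ ⟨f, rfl⟩)
      rw [hexp] at h2
      have h3 : (∑ j, φ (Pi.single j 1) • C.bs j).1 = ∑ j, φ (Pi.single j 1) • (C.bs j).1 := by
        rw [Submodule.coe_sum]
        rfl
      rw [h3, LinearMap.sum_apply]
      exact h2
    have h3 := Fintype.linearIndependent_iff.1 C.bs.linearIndependent _ h1
    apply LinearMap.ext
    intro v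
    rw [hexp, LinearMap.zero_apply]
    exact Finset.sum_eq_zero fun j _ => by rw [h3 j, zero_mul]
  have h4 : ∀ i : Fin n ⊕ D.Rt, ∃ x : G.O, ∀ j, (C.bs j).1 x = if j = i then 1 else 0 := by
    intro i
    obtain ⟨x, hx⟩ := LinearMap.range_eq_top.1 hT (fun j => if j = i then 1 else 0)
    exact ⟨x, fun j => congrFun hx j⟩
  choose x hx using h4
  exact ⟨x, hx⟩

/-- YP2a.  Point derivations with values in `R`.  Let `𝔪 = {f | f.1 1 = 0}`; the functionals `C.bs j` on `G.O` are linearly independent; choose `x_i : G.O` with `C.bs j x_i = δ_ij` and `x_i.1 1 = 0`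
(dual basis: the functionals `D ↦ D f` span the dual of `G.Lie`, as in `Ad_mem`; subtract the constant).  `μ f := lam f - ∑ j, lam (x_j) * (C.bs j) f` is again a point derivation with `μ (x_j) = 0`; for a `ℂ`-linear
form `ξ : R →ₗ ℂ`, `ξ ∘ μ` is a point derivation `G.O → ℂ`, an element of `G.Lie`, all of whose coordinates vanish, so it is `0`; hence `μ = 0`. -/
theorem CD.exists_ptder {G : AffGrp} {n : ℕ} {D : RD n} (C : CD G D) {R : Type} [CommRing R]
    [Algebra ℂ R] (lam : G.O →ₗ[ℂ] R)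
    (h : ∀ f g : G.O, lam (f * g) = lam f * algebraMap ℂ R (g.1 1) + algebraMap ℂ R (f.1 1) * lam g) :
    ∃ ζ : LR D R, ∀ f : G.O, lam f = ∑ j, ζ j * algebraMap ℂ R ((C.bs j).1 f) := by
  obtain ⟨x, hx⟩ := yp2a_dual C
  refine ⟨fun j => lam (x j), fun f => ?_⟩
  rw [← sub_eq_zero, ← Module.forall_dual_apply_eq_zero_iff ℂ]
  intro ξ
  have hmul : ∀ (r : R) (c : ℂ), ξ (r * algebraMap ℂ R c) = c * ξ r := by
    intro r c
    rw [mul_comm, ← Algebra.smul_def, map_smul, smul_eq_mul]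
  have hmul' : ∀ (r : R) (c : ℂ), ξ (algebraMap ℂ R c * r) = c * ξ r := by
    intro r c
    rw [← Algebra.smul_def, map_smul, smul_eq_mul]
  obtain ⟨E, hE⟩ : ∃ E : G.Lie, ∀ f : G.O, E.1 f = ξ (lam f) := by
    refine ⟨⟨ξ ∘ₗ lam, ?_⟩, fun f => rfl⟩
    intro f g
    show ξ (lam (f * g)) = f.1 1 * ξ (lam g) + g.1 1 * ξ (lam f)
    rw [h, map_add, hmul, hmul']
    ring
  have h5 : ∀ f : G.O, E.1 f = ∑ j, C.bs.repr E j * (C.bs j).1 f := by
    intro f
    conv_lhs => rw [← C.bs.sum_repr E]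
    have h3 : (∑ j, C.bs.repr E j • C.bs j).1 = ∑ j, C.bs.repr E j • (C.bs j).1 := by
      rw [Submodule.coe_sum]
      rfl
    rw [h3, LinearMap.sum_apply]
    rfl
  have h6 : ∀ i, C.bs.repr E i = ξ (lam (x i)) := by
    intro i
    rw [← hE, h5]
    simp only [hx, mul_ite, mul_one, mul_zero, Finset.sum_ite_eq', Finset.mem_univ, if_true]
  rw [map_sub, map_sum, ← hE, h5, sub_eq_zero]
  refine Finset.sum_congr rfl fun j _ => ?_
  rw [hmul, h6]
  ring

end Pool.Agent.MTG
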