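import Pool.Agent.MTG.YP2a

/-! # MTG-YP : the data for the Poisson structure -/

namespace Pool.Agent.MTG

open Pool.Agent.MTF Matrix
open Pool.Agent.MTD (ev)
open Pool.Agent.MTX.SLD (AA fm0)
open Pool.Agent.MTH
open RD (KK aK)
open Pool.Agent.MP_c45d35_ag (chi)

/-- the product of two functionals, as a linear map -/
theorem yp2b_lin {G : AffGrp} {R : Type} [CommRing R] [Algebra ℂ R] (φ ψ : G.O →ₗ[ℂ] R) :
    ∃ lam : G.O →ₗ[ℂ] R, ∀ (f : G.O) (n : ℕ) (a b : Fin n → G.O),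
      (∀ x y, f.1 (x * y) = ∑ i, (a i).1 x * (b i).1 y) → lam f = ∑ i, φ (a i) * ψ (b i) := by
  refine ⟨{ toFun := AffGrp.Pt.mulFun φ ψ, map_add' := ?_, map_smul' := ?_ }, ?_⟩
  · intro f g
    obtain ⟨n, a, b, h⟩ := G.mul_mem f.1 f.2
    obtain ⟨m, a', b', h'⟩ := G.mul_mem g.1 g.2
    rw [AffGrp.Pt.mulFun_eq _ _ f a b h, AffGrp.Pt.mulFun_eq _ _ g a' b' h',
      AffGrp.Pt.mulFun_eq _ _ (f + g) (Fin.append a a') (Fin.append b b') (by
        intro x y
        rw [AffGrp.O_add, h, h', Fin.sum_univ_add]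
        simp only [Fin.append_left, Fin.append_right])]
    rw [Fin.sum_univ_add]
    simp only [Fin.append_left, Fin.append_right]
  · intro c f
    obtain ⟨n, a, b, h⟩ := G.mul_mem f.1 f.2
    rw [AffGrp.Pt.mulFun_eq _ _ f a b h, AffGrp.Pt.mulFun_eq _ _ (c • f) (fun i => c • a i) b (by
        intro x y
        rw [AffGrp.O_smul, h, Finset.mul_sum]
        exact Finset.sum_congr rfl fun i _ => by rw [AffGrp.O_smul]; ring)]
    rw [RingHom.id_apply, Finset.smul_sum]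
    refine Finset.sum_congr rfl fun i _ => ?_
    rw [map_smul, smul_mul_assoc]
  · intro f n a b h
    exact AffGrp.Pt.mulFun_eq _ _ f a b h

/-- YP2b.  The logarithmic derivative of a point.  `lam f := ∑ i, (g⁻¹) (a i) * δ (g (b i))` for `f (x y) = ∑ a i x * b i y` (well defined: `AffGrp.tens_eq` with `φ = g⁻¹`, `ψ = δ ∘ g`; linear), a point derivation at `1`:
for `f`, `f'` with decompositions `a b`, `a' b'` the product has the decomposition `a i a' j`, `b i b' j`, and `∑ g⁻¹(a i) g (b i) = f.1 1`.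
`exists_ptder`; for `f = E.co a b`: `E.co a b (x y) = ∑ c, E.co a c x * E.co c b y`, so `lam (E.co a b) = (E.pt g⁻¹ * (E.pt g).map δ) a b = C.dm E ζ a b`. -/
theorem CD.exists_log {G : AffGrp} {n : ℕ} {D : RD n} (C : CD G D) {R : Type} [CommRing R]
    [Algebra ℂ R] (δ : Derivation ℂ R R) (g : G.Pt R) :
    ∃ ζ : LR D R, ∀ E : MTF.Rep G, (E.pt g).map δ = E.pt g * C.dm E ζ := by
  obtain ⟨lam, hlam⟩ := yp2b_lin (AlgHom.toLinearMap (g⁻¹).hom)
    ((δ : R →ₗ[ℂ] R) ∘ₗ AlgHom.toLinearMap g.hom)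
  have hlam' : ∀ (f : G.O) (n : ℕ) (a b : Fin n → G.O),
      (∀ x y, f.1 (x * y) = ∑ i, (a i).1 x * (b i).1 y) →
      lam f = ∑ i, (g⁻¹) (a i) * δ (g (b i)) := fun f n a b h => hlam f n a b h
  have h1 : ∀ f f' : G.O, lam (f * f') =
      lam f * algebraMap ℂ R (f'.1 1) + algebraMap ℂ R (f.1 1) * lam f' := by
    intro f f'
    obtain ⟨n, a, b, h⟩ := G.mul_mem f.1 f.2
    obtain ⟨m, a', b', h'⟩ := G.mul_mem f'.1 f'.2
    have e1 : algebraMap ℂ R (f.1 1) = ∑ i, (g⁻¹) (a i) * g (b i) := by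
      rw [← AffGrp.Pt.mul_apply (g⁻¹) g f a b h, inv_mul_cancel, AffGrp.Pt.one_apply]
    have e2 : algebraMap ℂ R (f'.1 1) = ∑ i, (g⁻¹) (a' i) * g (b' i) := by
      rw [← AffGrp.Pt.mul_apply (g⁻¹) g f' a' b' h', inv_mul_cancel, AffGrp.Pt.one_apply]
    rw [hlam' f n a b h, hlam' f' m a' b' h', e1, e2,
      hlam' (f * f') (n * m)
        (fun k => a (finProdFinEquiv.symm k).1 * a' (finProdFinEquiv.symm k).2)
        (fun k => b (finProdFinEquiv.symm k).1 * b' (finProdFinEquiv.symm k).2) (by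
          intro x y
          rw [AffGrp.O_mul, h, h', Finset.sum_mul_sum, ← Equiv.sum_comp finProdFinEquiv,
            Fintype.sum_prod_type]
          refine Finset.sum_congr rfl fun k _ => Finset.sum_congr rfl fun l _ => ?_
          simp only [Equiv.symm_apply_apply, AffGrp.O_mul]
          ring)]
    rw [← Equiv.sum_comp finProdFinEquiv, Fintype.sum_prod_type, Finset.sum_mul_sum,
      Finset.sum_mul_sum, ← Finset.sum_add_distrib]
    refine Finset.sum_congr rfl fun k _ => ?_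
    rw [← Finset.sum_add_distrib]
    refine Finset.sum_congr rfl fun l _ => ?_
    simp only [Equiv.symm_apply_apply]
    rw [map_mul, map_mul, Derivation.leibniz]
    simp only [smul_eq_mul]
    ring
  obtain ⟨ζ, hζ⟩ := C.exists_ptder lam h1
  refine ⟨ζ, fun E => ?_⟩
  have h2 : E.pt g⁻¹ * (E.pt g).map δ = C.dm E ζ := by
    ext a b
    rw [CD.dm_apply]
    have h3 : lam (E.co a b) = ∑ j, ζ j * algebraMap ℂ R (E.d (C.bs j) a b) := hζ (E.co a b)
    rw [← h3]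
    obtain ⟨m, ⟨e⟩⟩ : ∃ m : ℕ, Nonempty (E.ι ≃ Fin m) := ⟨_, ⟨Fintype.equivFin E.ι⟩⟩
    rw [hlam' (E.co a b) m (fun i => E.co a (e.symm i)) (fun i => E.co (e.symm i) b) (by
      intro x y
      show E.ρ (x * y) a b = ∑ i, E.ρ x a (e.symm i) * E.ρ y (e.symm i) b
      rw [map_mul, Matrix.mul_apply, ← Equiv.sum_comp e.symm])]
    rw [Matrix.mul_apply, ← Equiv.sum_comp e.symm]
    rfl
  rw [← h2, ← Matrix.mul_assoc, E.pt_mul_inv, Matrix.one_mul]

/-- `δ (Ad g v) = Ad g (δ v + [ζ, v])`: the case `E = AdR C` (`dm_AdR`, Leibniz rule). -/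
theorem CD.der_Adp {G : AffGrp} {n : ℕ} {D : RD n} (C : CD G D) {R : Type} [CommRing R]
    [Algebra ℂ R] (δ : Derivation ℂ R R) (g : G.Pt R) :
    ∃ ζ : LR D R, ∀ v : LR D R, (fun j => δ (Adp C g v j)) =
      Adp C g ((fun j => δ (v j)) + C.br ζ v) := by
  obtain ⟨ζ, hζ⟩ := C.exists_log δ g
  refine ⟨ζ, fun v => ?_⟩
  rw [Adp_add, ← dm_AdR]
  have h1 : Adp C g ((C.dm (AdR C) ζ).mulVec v) = (((AdR C).pt g).map δ).mulVec v := by
    rw [hζ]
    exact Matrix.mulVec_mulVec v _ _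
  rw [h1]
  funext j
  show δ (∑ k, (AdR C).pt g j k * v k) = ∑ k, (AdR C).pt g j k * δ (v k) +
    ∑ k, δ ((AdR C).pt g j k) * v k
  rw [map_sum, ← Finset.sum_add_distrib]
  refine Finset.sum_congr rfl fun k _ => ?_
  rw [Derivation.leibniz]
  simp only [smul_eq_mul]
  ring

end Pool.Agent.MTG
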