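import Pool.Agent.MTG.YP0

/-! # MTG-YP : the data for the Poisson structure -/

namespace Pool.Agent.MTG

open Pool.Agent.MTF Matrix
open Pool.Agent.MTD (ev)
open Pool.Agent.MTX.SLD (AA fm0)
open Pool.Agent.MTH
open RD (KK aK)
open Pool.Agent.MP_c45d35_ag (chi)

/-- YP2c.  Extension of a derivation to the fraction field: `δ' (a / b) = (b δ a - a δ b) / b²`; well defined on `FractionRing` (e.g. via `IsLocalization`, or the dual numbers / `TrivSqZeroExt`: the ring
homomorphism `A → K[ε]`, `a ↦ a + ε δ a` maps nonzero elements to units, so it extends to `K`). -/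
theorem exists_der_ext {n : ℕ} (δ : Derivation ℂ (AA n) (AA n)) :
    ∃ δ' : Derivation ℂ (KK n) (KK n), ∀ a : AA n, δ' (aK a) = aK (δ a) := by
  have hE : Algebra.FormallyEtale (AA n) (KK n) :=
    Algebra.FormallyEtale.of_isLocalization (nonZeroDivisors (AA n))
  have hB : IsBaseChange (KK n) (KaehlerDifferential.map ℂ ℂ (AA n) (KK n)) :=
    KaehlerDifferential.isBaseChange_of_formallyEtale ℂ (AA n) (KK n)
  let g : Derivation ℂ (AA n) (KK n) := (Algebra.linearMap (AA n) (KK n)).compDer δ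
  refine ⟨(hB.lift g.liftKaehlerDifferential).compDer (KaehlerDifferential.D ℂ (KK n)),
    fun a => ?_⟩
  have h1 : KaehlerDifferential.D ℂ (KK n) (aK a) =
      KaehlerDifferential.map ℂ ℂ (AA n) (KK n) (KaehlerDifferential.D ℂ (AA n) a) :=
    (KaehlerDifferential.map_D ℂ ℂ (AA n) (KK n) a).symm
  show hB.lift g.liftKaehlerDifferential (KaehlerDifferential.D ℂ (KK n) (aK a)) = aK (δ a)
  rw [h1, hB.lift_eq, Derivation.liftKaehlerDifferential_comp_D]
  rfl

/-- uniqueness -/
theorem der_KK_ext {n : ℕ} {δ δ' : Derivation ℂ (KK n) (KK n)}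
    (h : ∀ k : Fin n, δ (aK (MvPolynomial.X k)) = δ' (aK (MvPolynomial.X k))) : δ = δ' := by
  have h1 : ∀ p : AA n, δ (aK p) = δ' (aK p) := by
    intro p
    have h2 : δ.compAlgebraMap (AA n) = δ'.compAlgebraMap (AA n) :=
      MvPolynomial.derivation_ext fun k => h k
    exact congrArg (fun d : Derivation ℂ (AA n) (KK n) => d p) h2
  ext x
  obtain ⟨a, b, hb, rfl⟩ := IsFractionRing.div_surjective (A := AA n) x
  have hb0 : algebraMap (AA n) (KK n) b ≠ 0 :=
    IsFractionRing.to_map_ne_zero_of_mem_nonZeroDivisors hb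
  have h3 : algebraMap (AA n) (KK n) b *
      (algebraMap (AA n) (KK n) a / algebraMap (AA n) (KK n) b) = algebraMap (AA n) (KK n) a :=
    mul_div_cancel₀ _ hb0
  have h4 := congrArg δ h3
  have h5 := congrArg δ' h3
  rw [Derivation.leibniz] at h4 h5
  have h6 : δ (algebraMap (AA n) (KK n) a) = δ' (algebraMap (AA n) (KK n) a) := h1 a
  have h7 : δ (algebraMap (AA n) (KK n) b) = δ' (algebraMap (AA n) (KK n) b) := h1 b
  rw [h6, ← h5, h7] at h4
  have h8 := add_right_cancel h4
  rw [smul_eq_mul, smul_eq_mul] at h8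
  exact mul_left_cancel₀ hb0 h8

end Pool.Agent.MTG
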