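import Pool.Agent.MTG.YS5e
import Pool.Agent.MTG.YP0

/-! # MTG-YP : the data for the Poisson structure -/

namespace Pool.Agent.MTG

open Pool.Agent.MTF Matrix
open Pool.Agent.MTD (ev)
open Pool.Agent.MTX.SLD (AA fm0)
open Pool.Agent.MTH
open RD (KK aK)
open Pool.Agent.MP_c45d35_ag (chi)

/-- YP2d.  Over `K = Frac A` the element `s` is conjugate to `x`: `g = px * u`, `u` from `exists_U` (`s = 1`, `Z = ee`; `ev γ (aK X)` is a nonzero element of a field), `Adp_mul`, `pxR_conj`/`sxR`. -/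
theorem CD.exists_gK {G : AffGrp} {n : ℕ} {D : RD n} (C : CD G D) :
    ∃ g : G.Pt (KK n), Adp C g (CD.hx fun k => aK (MvPolynomial.X k)) = fun j => aK (C.sx j) := by
  let σ : AA n →ₐ[ℂ] KK n := IsScalarTower.toAlgHom ℂ (AA n) (KK n)
  have hσ : Function.Injective σ := IsFractionRing.injective (AA n) (KK n)
  have hu : ∀ γ : D.Rt, IsUnit (ev γ.1 (fun k => σ (MvPolynomial.X k))) := by
    intro γ
    rw [ys5e_fm, isUnit_iff_ne_zero]
    intro h
    rw [← map_zero σ] at h
    exact Pool.Agent.MTX.SLD.fm0_ne_zero (D.Rt_ne γ) (hσ h)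
  obtain ⟨u, -, hu2⟩ := exists_U C (Or.inl rfl) hu (ys5e_ee (D := D) (R := KK n))
  refine ⟨C.pxR (fun k => σ (MvPolynomial.X k)) * u, ?_⟩
  have h1 : Adp C (C.pxR (fun k => σ (MvPolynomial.X k)) * u)
      (CD.hx (fun k => σ (MvPolynomial.X k))) = C.sxR (fun k => σ (MvPolynomial.X k)) := by
    rw [Adp_mul, hu2, add_comm, C.pxR_conj]
  have h2 : C.sxR (fun k => σ (MvPolynomial.X k)) = fun j => σ (C.sx j) := by
    funext j
    have h3 : MvPolynomial.aeval (fun k => σ (MvPolynomial.X k)) = σ := by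
      apply MvPolynomial.algHom_ext
      intro k
      rw [MvPolynomial.aeval_X]
    show MvPolynomial.aeval (fun k => σ (MvPolynomial.X k)) (C.sx j) = σ (C.sx j)
    rw [h3]
  exact h1.trans h2

end Pool.Agent.MTG
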