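import Pool.Agent.MTG.YP2b
import Pool.Agent.MTG.YP2c
import Pool.Agent.MTG.YP2d
import Pool.Agent.MTG.YP1c
import Pool.Agent.MTG.YP1d
import Pool.Agent.MTG.YP1e

/-! # MTG-YP : the data for the Poisson structure -/

namespace Pool.Agent.MTG

open Pool.Agent.MTF Matrix
open Pool.Agent.MTD (ev)
open Pool.Agent.MTX.SLD (AA fm0)
open Pool.Agent.MTH
open RD (KK aK)
open Pool.Agent.MP_c45d35_ag (chi)

namespace CD

variable {G : AffGrp} {n : ℕ} {D : RD n} (C : CD G D)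

/-- the derivation `∂_j` of `K` -/
noncomputable def ddK (j : Fin n) : Derivation ℂ (KK n) (KK n) := (exists_der_ext (C.dA j)).choose

theorem ddK_aK (j : Fin n) (a : AA n) : C.ddK j (aK a) = aK (C.dA j a) :=
  (exists_der_ext (C.dA j)).choose_spec a

/-- `g` with `Ad g x = s` -/
noncomputable def gK : G.Pt (KK n) := C.exists_gK.choose

theorem gK_spec : Adp C C.gK (hx fun k => aK (MvPolynomial.X k)) = C.sK := C.exists_gK.choose_spec

/-- the group inverse of `ad x` -/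
noncomputable def Rx (D : RD n) : Matrix (Fin n ⊕ D.Rt) (Fin n ⊕ D.Rt) (KK n) :=
  Matrix.diagonal (Sum.elim (fun _ => 0) fun γ => (aK (fm0 γ.1))⁻¹)

/-- the group inverse of `ad s` -/
noncomputable def RsK : Matrix (Fin n ⊕ D.Rt) (Fin n ⊕ D.Rt) (KK n) :=
  (show Matrix (Fin n ⊕ D.Rt) (Fin n ⊕ D.Rt) (KK n) from (AdR C).pt C.gK) * Rx D *
    (show Matrix (Fin n ⊕ D.Rt) (Fin n ⊕ D.Rt) (KK n) from (AdR C).pt C.gK⁻¹)

/-- `R_s κ⁻¹`, acting on covectors: `v_b = ∑ a, rhoJ a b * α a` -/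
noncomputable def rhoJ (a b : Fin n ⊕ D.Rt) : KK n :=
  ∑ c, C.RsK b c * algebraMap ℂ (KK n) ((Matrix.of C.kJ)⁻¹ c a)

end CD

end Pool.Agent.MTG
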