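import Pool.Agent.MTG.YS3a

/-! # MTG-YS : the Kostant slice -/

namespace Pool.Agent.MTG

open Pool.Agent.MTF Matrix
open Pool.Agent.MTD (ev)
open Pool.Agent.MTX.SLD (AA fm0)
open Pool.Agent.MTH

section ys3b

variable {I : Type} {h : I → ℤ}

theorem ys3b_ct [Fintype I] {m : ℤ} {A : Matrix I I ℂ} (hA : Gd.HM h m A) (k : ℤ) (v : I → ℂ) :
    Gd.ct h (k + m) (A *ᵥ v) = A *ᵥ Gd.ct h k v := by
  funext a
  show (if h a = k + m then ∑ c, A a c * v c else 0) = ∑ c, A a c * (if h c = k then v c else 0)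
  split_ifs with h1
  · refine Finset.sum_congr rfl fun c _ => ?_
    by_cases h2 : A a c = 0
    · rw [h2, zero_mul, zero_mul]
    · have h3 := hA a c h2
      rw [if_pos (by omega)]
  · symm
    refine Finset.sum_eq_zero fun c _ => ?_
    by_cases h2 : A a c = 0
    · rw [h2, zero_mul]
    · have h3 := hA a c h2
      rw [if_neg (by omega), mul_zero]

theorem ys3b_ctH (k : ℤ) (v : I → ℂ) : Gd.InH h k (Gd.ct h k v) := by
  intro a ha
  by_contra hne
  exact ha (if_neg hne)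

theorem ys3b_zero {v : I → ℂ} (hv : ∀ k, Gd.ct h k v = 0) : v = 0 := by
  funext a
  have h1 := congrFun (hv (h a)) a
  have h2 : Gd.ct h (h a) v a = v a := if_pos rfl
  rw [h2] at h1
  exact h1

theorem ys3b_ctE {k : ℤ} {X : I → ℂ} (hX : Gd.InH h k X) : Gd.ct h k X = X := by
  funext a
  show (if h a = k then X a else 0) = X a
  split_ifs with h1
  · rfl
  · by_contra h2
    exact h1 (hX a (Ne.symm h2))

theorem ys3b_vec [Fintype I] {m : ℤ} {A : Matrix I I ℂ} (hA : Gd.HM h m A) {k : ℤ} {X : I → ℂ}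
    (hX : Gd.InH h k X) : Gd.InH h (k + m) (A *ᵥ X) := by
  rw [← ys3b_ctE hX, ← ys3b_ct hA]
  exact ys3b_ctH _ _

theorem ys3b_single [DecidableEq I] (a : I) : Gd.InH h (h a) (Pi.single a 1 : I → ℂ) := by
  intro c hc
  by_cases h1 : c = a
  · rw [h1]
  · exact absurd (Pi.single_eq_of_ne h1 _) hc

theorem ys3b_of_vec [Fintype I] [DecidableEq I] {m : ℤ} {A : Matrix I I ℂ}
    (hA : ∀ k X, Gd.InH h k X → Gd.InH h (k + m) (A *ᵥ X)) : Gd.HM h m A := by
  intro a c hac
  refine hA _ _ (ys3b_single c) a ?_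
  rw [Matrix.mulVec_single_one]
  exact hac

theorem ys3b_ext [Fintype I] [DecidableEq I] {A B : Matrix I I ℂ}
    (hAB : ∀ k X, Gd.InH h k X → A *ᵥ X = B *ᵥ X) : A = B :=
  Matrix.ext_of_mulVec_single fun a => hAB _ _ (ys3b_single a)

theorem ys3b_ht (m : ℤ) (v : I → ℂ) (hm : m ≠ 0) (hv : m • v = 0) : v = 0 := by
  funext a
  have h1 : m • v a = 0 := congrFun hv a
  rw [zsmul_eq_mul] at h1
  rcases mul_eq_zero.1 h1 with h2 | h2
  · exact absurd (Int.cast_eq_zero.1 h2) hm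
  · exact h2

/-- there are no vectors of very small height -/
theorem ys3b_low [Fintype I] (k : ℤ) : ∃ N : ℕ, ∀ a, k - 2 * (N : ℤ) < h a := by
  refine ⟨(∑ a, |h a|).toNat + k.toNat + 1, fun a => ?_⟩
  have h1 : |h a| ≤ ∑ a, |h a| :=
    Finset.single_le_sum (f := fun a => |h a|) (fun _ _ => abs_nonneg _) (Finset.mem_univ a)
  have h2 : 0 ≤ ∑ a, |h a| := Finset.sum_nonneg fun _ _ => abs_nonneg _
  have h3 := neg_abs_le (h a)
  have h4 := Int.self_le_toNat k
  have h5 := Int.toNat_of_nonneg h2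
  push_cast
  rw [h5]
  omega

theorem ys3b_iter [Fintype I] {f : Matrix I I ℂ} (hf : Gd.HM h (-2) f) {k : ℤ} {x : I → ℂ}
    (hx : Gd.InH h k x) (N : ℕ) : Gd.InH h (k - 2 * (N : ℤ)) ((fun v => f *ᵥ v)^[N] x) := by
  induction N with
  | zero =>
    have e : k - 2 * ((0 : ℕ) : ℤ) = k := by simp
    rw [e]
    exact hx
  | succ N ih =>
    rw [Function.iterate_succ_apply']
    have e : k - 2 * ((N + 1 : ℕ) : ℤ) = k - 2 * (N : ℤ) + -2 := by push_cast; ring
    rw [e]
    exact ys3b_vec hf ih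

/-- `f e` is injective in negative heights -/
theorem ys3b_fe [Fintype I] [DecidableEq I] {e f : Matrix I I ℂ} (H : Gd.Sl2 h e f) {k : ℤ}
    (hk : k < 0) {x : I → ℂ} (hx : Gd.InH h k x) (h0 : f *ᵥ (e *ᵥ x) = 0) : x = 0 := by
  obtain ⟨N, hN⟩ := ys3b_low (h := h) k
  let E : (I → ℂ) →+ (I → ℂ) := (Matrix.mulVecLin e).toAddMonoidHom
  let F : (I → ℂ) →+ (I → ℂ) := (Matrix.mulVecLin f).toAddMonoidHom
  refine Gd.sl2_inj (V := I → ℂ) ys3b_ht E F (fun k v => Gd.InH h k v) ?_ ?_ hk hx h0 N ?_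
  · intro k v hv
    have h1 := ys3b_vec H.f_HM hv
    exact h1
  · intro k v hv
    have h1 := congrArg (fun M => M *ᵥ v) H.ef
    have h2 : e *ᵥ (f *ᵥ v) - f *ᵥ (e *ᵥ v) = k • v := by
      rw [Matrix.mulVec_mulVec, Matrix.mulVec_mulVec, ← Matrix.sub_mulVec]
      refine Eq.trans h1 ?_
      funext a
      show ((Matrix.diagonal fun a => ((h a : ℤ) : ℂ)) *ᵥ v) a = k • v a
      rw [Matrix.mulVec_diagonal, zsmul_eq_mul]
      by_cases h3 : v a = 0
      · rw [h3, mul_zero, mul_zero]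
      · rw [hv a h3]
    show e *ᵥ (f *ᵥ v) = f *ᵥ (e *ᵥ v) + k • v
    rw [← h2]
    abel
  · have h1 : Gd.InH h (k - 2 * (N : ℤ)) ((fun v => f *ᵥ v)^[N] x) := ys3b_iter H.f_HM hx N
    funext a
    by_contra h2
    have h3 := h1 a h2
    have h4 := hN a
    omega

theorem ys3b_neg [Fintype I] [DecidableEq I] {e f : Matrix I I ℂ} (H : Gd.Sl2 h e f) :
    Gd.Sl2 (fun a => - h a) f e := by
  refine ⟨?_, ?_, ?_⟩
  · intro a c hac
    have h1 := H.f_HM a c hac
    show - h a = - h c + 2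
    omega
  · intro a c hac
    have h1 := H.e_HM a c hac
    show - h a = - h c + -2
    omega
  · have h1 := H.ef
    have h2 : f * e - e * f = -(e * f - f * e) := by abel
    rw [h2, h1, Matrix.diagonal_neg]
    congr 1
    funext a
    show -(((h a : ℤ)) : ℂ) = ((- h a : ℤ) : ℂ)
    push_cast
    rfl

/-- `e f` is injective in positive heights -/
theorem ys3b_ef [Fintype I] [DecidableEq I] {e f : Matrix I I ℂ} (H : Gd.Sl2 h e f) {k : ℤ}
    (hk : 0 < k) {x : I → ℂ} (hx : Gd.InH h k x) (h0 : e *ᵥ (f *ᵥ x) = 0) : x = 0 := by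
  refine ys3b_fe (ys3b_neg H) (k := -k) (by omega) ?_ h0
  intro a ha
  have h1 := hx a ha
  show - h a = - k
  omega

theorem ys3b_mul [Fintype I] {m m' : ℤ} {A B : Matrix I I ℂ} (hA : Gd.HM h m A)
    (hB : Gd.HM h m' B) : Gd.HM h (m + m') (A * B) := by
  intro a c hac
  rw [Matrix.mul_apply] at hac
  obtain ⟨b, _, hb⟩ := Finset.exists_ne_zero_of_sum_ne_zero hac
  have h1 := hA a b (left_ne_zero_of_mul hb)
  have h2 := hB b c (right_ne_zero_of_mul hb)
  omega

theorem ys3b_add {m : ℤ} {A B : Matrix I I ℂ} (hA : Gd.HM h m A)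
    (hB : Gd.HM h m B) : Gd.HM h m (A + B) := by
  intro a c hac
  by_cases h1 : A a c = 0
  · by_cases h2 : B a c = 0
    · refine absurd ?_ hac
      rw [Matrix.add_apply, h1, h2, add_zero]
    · exact hB a c h2
  · exact hA a c h1

theorem ys3b_diag [DecidableEq I] (d : I → ℂ) : Gd.HM h 0 (Matrix.diagonal d) := by
  intro a c hac
  by_cases h1 : a = c
  · rw [h1, add_zero]
  · exact absurd (Matrix.diagonal_apply_ne d h1) hac

/-- the matrix which is `A` in the heights with `P` and the identity in the others -/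
theorem ys3b_inv [Fintype I] [DecidableEq I] {A : Matrix I I ℂ} (hA : Gd.HM h 0 A) (P : ℤ → Prop)
    (hP : ∀ k, P k → ∀ x, Gd.InH h k x → A *ᵥ x = 0 → x = 0) :
    ∃ M : Matrix I I ℂ, Gd.HM h 0 M ∧
      (∀ k, P k → ∀ x, Gd.InH h k x → A *ᵥ (M *ᵥ x) = x) ∧
      (∀ k, P k → ∀ x, Gd.InH h k x → M *ᵥ (A *ᵥ x) = x) := by
  classical
  obtain ⟨B, hB⟩ : ∃ B : Matrix I I ℂ, B = A * (Matrix.diagonal fun a => if P (h a) then 1 else 0) +
      Matrix.diagonal fun a => if P (h a) then 0 else 1 := ⟨_, rfl⟩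
  have hB0 : Gd.HM h 0 B := by
    rw [hB]
    have h1 := ys3b_mul hA (ys3b_diag (h := h) fun a => if P (h a) then 1 else 0)
    exact ys3b_add h1 (ys3b_diag _)
  have hBv : ∀ k x, Gd.InH h k x → B *ᵥ x = if P k then A *ᵥ x else x := by
    intro k x hx
    have h1 : (Matrix.diagonal fun a => if P (h a) then (1 : ℂ) else 0) *ᵥ x =
        if P k then x else 0 := by
      funext a
      rw [Matrix.mulVec_diagonal]
      by_cases h0 : x a = 0
      · rw [h0, mul_zero]; split_ifs <;> simp [h0]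
      · rw [hx a h0]; split_ifs <;> simp
    have h2 : (Matrix.diagonal fun a => if P (h a) then (0 : ℂ) else 1) *ᵥ x =
        if P k then 0 else x := by
      funext a
      rw [Matrix.mulVec_diagonal]
      by_cases h0 : x a = 0
      · rw [h0, mul_zero]; split_ifs <;> simp [h0]
      · rw [hx a h0]; split_ifs <;> simp
    rw [hB, Matrix.add_mulVec, ← Matrix.mulVec_mulVec, h1, h2]
    split_ifs
    · rw [add_zero]
    · rw [Matrix.mulVec_zero, zero_add]
  have hu : IsUnit B := by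
    rw [← Matrix.mulVec_injective_iff_isUnit]
    intro v w hvw
    have h1 : B *ᵥ (v - w) = 0 := by rw [Matrix.mulVec_sub, hvw, sub_self]
    have h2 : v - w = 0 := by
      refine ys3b_zero (h := h) fun k => ?_
      have h3 := ys3b_ct hB0 k (v - w)
      rw [h1, hBv k _ (ys3b_ctH k _)] at h3
      have h4 : Gd.ct h (k + 0) (0 : I → ℂ) = 0 := by
        funext a
        show (if h a = k + 0 then (0 : ℂ) else 0) = 0
        rw [ite_self]
      rw [h4] at h3
      split_ifs at h3 with h5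
      · exact hP k h5 _ (ys3b_ctH k _) h3.symm
      · exact h3.symm
    exact sub_eq_zero.1 h2
  have hd : IsUnit B.det := (Matrix.isUnit_iff_isUnit_det _).1 hu
  have hM : ∀ k x, Gd.InH h k x → Gd.InH h k (B⁻¹ *ᵥ x) := by
    intro k x hx
    have h1 := ys3b_ct hB0 k (B⁻¹ *ᵥ x)
    rw [Matrix.mulVec_mulVec, Matrix.mul_nonsing_inv _ hd, Matrix.one_mulVec, add_zero,
      ys3b_ctE hx] at h1
    have h2 := congrArg (fun v => B⁻¹ *ᵥ v) h1
    simp only [Matrix.mulVec_mulVec, Matrix.nonsing_inv_mul _ hd, Matrix.one_mulVec] at h2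
    rw [h2]
    exact ys3b_ctH _ _
  refine ⟨B⁻¹, ys3b_of_vec fun k x hx => ?_, fun k hk x hx => ?_, fun k hk x hx => ?_⟩
  · rw [add_zero]
    exact hM k x hx
  · have h1 := hBv k _ (hM k x hx)
    rw [if_pos hk, Matrix.mulVec_mulVec, Matrix.mul_nonsing_inv _ hd, Matrix.one_mulVec] at h1
    exact h1.symm
  · have h1 := hBv k x hx
    rw [if_pos hk] at h1
    rw [← h1, Matrix.mulVec_mulVec, Matrix.nonsing_inv_mul _ hd, Matrix.one_mulVec]

end ys3b

/-- YS3b.  Graded section of `e` (port of MTX_K2.lean: `M1, M2, rM, pM`).  On the vectors of height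
`m < 0` the homogeneous map `f e` is injective (`sl2_inj`, `f` nilpotent as it lowers the height), hence
bijective; on the vectors of height `m > 0` the map `e f` is injective (`sl2_inj` with `e`, `f`, heights
exchanged), hence bijective.  Define `r X = (f e)⁻¹ (f X)` for `X` of height `≤ 1`, `r X = f (e f)⁻¹ X` for
`X` of height `≥ 2`.  For height `1` both formulas: `e` is onto height `1` from height `-1`, so
`(1 - e r) X = 0` for `X` of height `1`: `X = e f Y'`.. (`f X = f e w`, `X - e w ∈ ker f` of height `1 > 0`,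
`= 0` by injectivity of `e f`). -/
theorem Gd.exists_section {I : Type} [Fintype I] [DecidableEq I] {h : I → ℤ} {e f : Matrix I I ℂ}
    (H : Gd.Sl2 h e f) : ∃ r : Matrix I I ℂ, Gd.HM h (-2) r ∧ f * (1 - e * r) = 0 ∧
      (∀ a b, 0 < h b → (1 - e * r) a b = 0) ∧
      (∀ a b, h b < 0 → (r * e) a b = (1 : Matrix I I ℂ) a b) := by
  classical
  obtain ⟨M1, hM1, h11, h12⟩ := ys3b_inv (h := h) (A := f * e)
    (ys3b_mul H.f_HM H.e_HM) (fun k => k < 0) (fun k hk x hx h0 => by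
      rw [← Matrix.mulVec_mulVec] at h0
      exact ys3b_fe H hk hx h0)
  obtain ⟨M2, hM2, h21, h22⟩ := ys3b_inv (h := h) (A := e * f)
    (ys3b_mul H.e_HM H.f_HM) (fun k => 0 < k) (fun k hk x hx h0 => by
      rw [← Matrix.mulVec_mulVec] at h0
      exact ys3b_ef H hk hx h0)
  obtain ⟨Q, hQ⟩ : ∃ Q : Matrix I I ℂ, Q = Matrix.diagonal fun a => if 0 < h a then 1 else 0 :=
    ⟨_, rfl⟩
  obtain ⟨Q', hQ'⟩ : ∃ Q' : Matrix I I ℂ, Q' = Matrix.diagonal fun a => if 0 < h a then 0 else 1 :=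
    ⟨_, rfl⟩
  have hQv : ∀ k x, Gd.InH h k x → Q *ᵥ x = if 0 < k then x else 0 := by
    intro k x hx
    funext a
    rw [hQ, Matrix.mulVec_diagonal]
    by_cases h0 : x a = 0
    · rw [h0, mul_zero]; split_ifs <;> simp [h0]
    · rw [hx a h0]; split_ifs <;> simp
  have hQv' : ∀ k x, Gd.InH h k x → Q' *ᵥ x = if 0 < k then 0 else x := by
    intro k x hx
    funext a
    rw [hQ', Matrix.mulVec_diagonal]
    by_cases h0 : x a = 0
    · rw [h0, mul_zero]; split_ifs <;> simp [h0]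
    · rw [hx a h0]; split_ifs <;> simp
  obtain ⟨r, hr⟩ : ∃ r : Matrix I I ℂ, r = M1 * f * Q' + f * M2 * Q := ⟨_, rfl⟩
  have hr1 : ∀ k x, ¬ 0 < k → Gd.InH h k x → r *ᵥ x = M1 *ᵥ (f *ᵥ x) := by
    intro k x hk hx
    rw [hr, Matrix.add_mulVec, ← Matrix.mulVec_mulVec, ← Matrix.mulVec_mulVec,
      ← Matrix.mulVec_mulVec, hQv k x hx, hQv' k x hx, if_neg hk, if_neg hk, Matrix.mulVec_zero,
      add_zero, Matrix.mulVec_mulVec]
  have hr2 : ∀ k x, 0 < k → Gd.InH h k x → r *ᵥ x = f *ᵥ (M2 *ᵥ x) := by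
    intro k x hk hx
    rw [hr, Matrix.add_mulVec, ← Matrix.mulVec_mulVec, ← Matrix.mulVec_mulVec,
      ← Matrix.mulVec_mulVec, hQv k x hx, hQv' k x hx, if_pos hk, if_pos hk, Matrix.mulVec_zero,
      Matrix.mulVec_zero, zero_add, Matrix.mulVec_mulVec]
  have hpos : ∀ k x, 0 < k → Gd.InH h k x → (1 - e * r) *ᵥ x = 0 := by
    intro k x hk hx
    rw [Matrix.sub_mulVec, Matrix.one_mulVec, ← Matrix.mulVec_mulVec, hr2 k x hk hx]
    have h1 := h21 k hk x hx
    rw [← Matrix.mulVec_mulVec] at h1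
    rw [h1, sub_self]
  refine ⟨r, ?_, ?_, ?_, ?_⟩
  · have h1 : Gd.HM h (0 + -2 + 0) (M1 * f * Q') := by
      rw [hQ']
      exact ys3b_mul (ys3b_mul hM1 H.f_HM) (ys3b_diag _)
    have h2 : Gd.HM h (-2 + 0 + 0) (f * M2 * Q) := by
      rw [hQ]
      exact ys3b_mul (ys3b_mul H.f_HM hM2) (ys3b_diag _)
    rw [hr]
    exact ys3b_add h1 h2
  · refine ys3b_ext (h := h) fun k x hx => ?_
    rw [← Matrix.mulVec_mulVec, Matrix.zero_mulVec]
    by_cases hk : 0 < k
    · rw [hpos k x hk hx, Matrix.mulVec_zero]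
    · rw [Matrix.sub_mulVec, Matrix.one_mulVec, ← Matrix.mulVec_mulVec, hr1 k x hk hx,
        Matrix.mulVec_sub]
      have h1 := h11 (k + -2) (by omega) _ (ys3b_vec H.f_HM hx)
      rw [← Matrix.mulVec_mulVec] at h1
      rw [h1, sub_self]
  · intro a b hb
    have h1 := congrFun (hpos (h b) _ hb (ys3b_single b)) a
    rw [Matrix.mulVec_single_one] at h1
    exact h1
  · intro a b hb
    have hx := ys3b_single (h := h) b
    have hy := ys3b_vec H.e_HM hx
    have key : (r * e) *ᵥ (Pi.single b 1 : I → ℂ) = Pi.single b 1 := by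
      rw [← Matrix.mulVec_mulVec]
      by_cases hk : 0 < h b + 2
      · rw [hr2 _ _ hk hy]
        have h1 := h21 _ hk _ hy
        rw [← Matrix.mulVec_mulVec] at h1
        have h2 : Gd.InH h (h b) (f *ᵥ (M2 *ᵥ (e *ᵥ (Pi.single b 1 : I → ℂ)))) := by
          have h3 := ys3b_vec H.f_HM (ys3b_vec hM2 hy)
          have h4 : h b + 2 + 0 + -2 = h b := by ring
          rw [h4] at h3
          exact h3
        have h5 : f *ᵥ (M2 *ᵥ (e *ᵥ (Pi.single b 1 : I → ℂ))) - Pi.single b 1 = 0 := by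
          refine ys3b_fe H hb ?_ ?_
          · intro c hc
            by_cases h6 : (f *ᵥ (M2 *ᵥ (e *ᵥ (Pi.single b 1 : I → ℂ)))) c = 0
            · by_cases h7 : (Pi.single b 1 : I → ℂ) c = 0
              · refine absurd ?_ hc
                rw [Pi.sub_apply, h6, h7, sub_zero]
              · exact hx c h7
            · exact h2 c h6
          · rw [Matrix.mulVec_sub, h1, sub_self, Matrix.mulVec_zero]
        exact sub_eq_zero.1 h5
      · rw [hr1 _ _ hk hy]
        have h1 := h12 _ hb _ hx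
        rw [← Matrix.mulVec_mulVec] at h1
        exact h1
    have h1 := congrFun key a
    rw [Matrix.mulVec_single_one] at h1
    have h2 : (r * e) a b = (Pi.single b 1 : I → ℂ) a := h1
    rw [h2, Matrix.one_apply, Pi.single_apply]

end Pool.Agent.MTG
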