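import Pool.Agent.MTG.YS5a
import Pool.Agent.MTG.YS3b
import Pool.Agent.MTG.YS3c

/-! # MTG-YP : the data for the Poisson structure -/

namespace Pool.Agent.MTG

open Pool.Agent.MTF Matrix
open Pool.Agent.MTD (ev)
open Pool.Agent.MTX.SLD (AA fm0)
open Pool.Agent.MTH
open RD (KK aK)
open Pool.Agent.MP_c45d35_ag (chi)

theorem yp4a_ff {G : AffGrp} {n : ℕ} {D : RD n} (C : CD G D) {R : Type} [CommRing R]
    [Algebra ℂ R] (z : LR D R) : ((C.dm (AdR C) (CD.ff D ℂ)).map (algebraMap ℂ R)).mulVec z =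
      C.br (CD.ff D R) z := by
  rw [ys4a_ff]
  exact dm_AdR C _ _

theorem yp4a_ee {G : AffGrp} {n : ℕ} {D : RD n} (C : CD G D) {R : Type} [CommRing R]
    [Algebra ℂ R] (z : LR D R) : ((C.dm (AdR C) (CD.ee D ℂ)).map (algebraMap ℂ R)).mulVec z =
      C.br (CD.ee D R) z := by
  rw [ys4a_ee]
  exact dm_AdR C _ _

theorem yp4a_supp {I : Type} [Fintype I] {R : Type} [CommRing R] [Algebra ℂ R]
    (A : Matrix I I ℂ) (z : I → R) (a : I) (ha : (A.map (algebraMap ℂ R)).mulVec z a ≠ 0) :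
    ∃ c, A a c ≠ 0 ∧ z c ≠ 0 := by
  by_contra hcon
  push Not at hcon
  apply ha
  show ∑ c, algebraMap ℂ R (A a c) * z c = 0
  refine Finset.sum_eq_zero fun c _ => ?_
  by_cases hc : A a c = 0
  · rw [hc, map_zero, zero_mul]
  · rw [hcon c hc, mul_zero]

/-- YP4a.  The case of `e`.  In the adjoint representation with the matrices `e`, `f` (`C.sl2 (isW_AdR C)`, `dm_AdR`; heights `h = ht2 (wA j)`), mapped to `R`: `exists_section` gives `r` with `f (1 - e r) = 0`, and (with `e`, `f` exchanged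
and `h` negated: `Gd.Sl2 (-h) f e`, as `[f, e] = - h`) `r'` with `e (1 - f r') = 0`, both homogeneous.  `z = (1 - e r) z + e r z` and `r z = (1 - f r')(r z) + f r' r z`, so `z = u + [e, [f, v]]` with `u = (1 - e r) z`,
`v = r' r z`; if `z` is homogeneous of height `k` then so is `v`. -/
theorem CD.slice_e {G : AffGrp} {n : ℕ} {D : RD n} (C : CD G D) {R : Type} [CommRing R]
    [Algebra ℂ R] (k : ℤ) (z : LR D R) (hz : ∀ j, z j ≠ 0 → D.ht2 (wA (D := D) j) = k) :
    ∃ u v : LR D R, C.br (CD.ff D R) u = 0 ∧ (∀ j, v j ≠ 0 → D.ht2 (wA (D := D) j) = k) ∧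
      z = u + C.br (CD.ee D R) (C.br (CD.ff D R) v) := by
  classical
  have H := C.sl2 (isW_AdR C)
  obtain ⟨r, hr, hfr, -, -⟩ := Gd.exists_section H
  obtain ⟨r', hr', her', -, -⟩ := Gd.exists_section (YS3c_swap H)
  have hmap : ∀ A B : Matrix (AdR C).ι (AdR C).ι ℂ, (A * B).map (algebraMap ℂ R) =
      A.map (algebraMap ℂ R) * B.map (algebraMap ℂ R) := fun A B => Matrix.map_mul
  have h1 : C.dm (AdR C) (CD.ff D ℂ) = C.dm (AdR C) (CD.ff D ℂ) * C.dm (AdR C) (CD.ee D ℂ) * r := by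
    rw [mul_sub, mul_one, sub_eq_zero] at hfr
    rw [mul_assoc]
    exact hfr
  have h2 : C.dm (AdR C) (CD.ee D ℂ) =
      C.dm (AdR C) (CD.ee D ℂ) * C.dm (AdR C) (CD.ff D ℂ) * r' := by
    rw [mul_sub, mul_one, sub_eq_zero] at her'
    rw [mul_assoc]
    exact her'
  obtain ⟨y, hy⟩ : ∃ y : LR D R, y = (r.map (algebraMap ℂ R)).mulVec z := ⟨_, rfl⟩
  obtain ⟨v, hv⟩ : ∃ v : LR D R, v = (r'.map (algebraMap ℂ R)).mulVec y := ⟨_, rfl⟩
  have e1 : C.br (CD.ff D R) (C.br (CD.ee D R) y) = C.br (CD.ff D R) z := by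
    rw [← yp4a_ff, ← yp4a_ee, ← yp4a_ff, hy]
    conv_rhs => rw [h1, hmap, hmap]
    rw [← Matrix.mulVec_mulVec, ← Matrix.mulVec_mulVec]
  have e2 : C.br (CD.ee D R) y = C.br (CD.ee D R) (C.br (CD.ff D R) v) := by
    rw [← yp4a_ee, ← yp4a_ee, ← yp4a_ff, hv]
    conv_lhs => rw [h2, hmap, hmap]
    rw [← Matrix.mulVec_mulVec, ← Matrix.mulVec_mulVec]
  refine ⟨z - C.br (CD.ee D R) y, v, ?_, ?_, ?_⟩
  · have h3 : C.br (CD.ff D R) (z - C.br (CD.ee D R) y) =
        C.br (CD.ff D R) z - C.br (CD.ff D R) (C.br (CD.ee D R) y) := by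
      rw [← yp4a_ff, ← yp4a_ff, ← yp4a_ff]
      exact Matrix.mulVec_sub _ _ _
    rw [h3, e1, sub_self]
  · intro j hj
    rw [hv] at hj
    obtain ⟨c, hc1, hc2⟩ := yp4a_supp r' y j hj
    rw [hy] at hc2
    obtain ⟨d, hd1, hd2⟩ := yp4a_supp r z c hc2
    have h3 := hr' j c hc1
    have h4 := hr c d hd1
    have h5 := hz d hd2
    simp only at h3 h4
    linarith
  · rw [← e2, sub_add_cancel]

/-- (row YP4a) elements of `ker ad f` have no components of positive height (`Gd.inj`, component by component: `ad f` is homogeneous). -/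
theorem CD.ker_f_Sp {G : AffGrp} {n : ℕ} {D : RD n} (C : CD G D) {R : Type} [CommRing R]
    [Algebra ℂ R] {z : LR D R} (hz : C.br (CD.ff D R) z = 0) : Sp (-1) 0 z := by
  classical
  have H := C.sl2 (isW_AdR C)
  obtain ⟨X, hX⟩ : ∃ X : LR D R, X = fun a => if 0 < D.ht2 (wA (D := D) a) then z a else 0 :=
    ⟨_, rfl⟩
  have h1 : C.br (CD.ff D R) X = 0 := by
    funext a
    rw [← yp4a_ff]
    by_contra hne
    have h2 : ((C.dm (AdR C) (CD.ff D ℂ)).map (algebraMap ℂ R)).mulVec X a ≠ 0 := hne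
    obtain ⟨c, hc1, hc2⟩ := yp4a_supp _ _ _ h2
    have h3 := H.f_HM a c hc1
    have h4 : 0 < D.ht2 (wA (D := D) c) := by
      by_contra h5
      rw [hX] at hc2
      exact hc2 (if_neg h5)
    have h6 : ((C.dm (AdR C) (CD.ff D ℂ)).map (algebraMap ℂ R)).mulVec X a =
        ((C.dm (AdR C) (CD.ff D ℂ)).map (algebraMap ℂ R)).mulVec z a := by
      show ∑ c, algebraMap ℂ R (C.dm (AdR C) (CD.ff D ℂ) a c) * X c =
        ∑ c, algebraMap ℂ R (C.dm (AdR C) (CD.ff D ℂ) a c) * z c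
      refine Finset.sum_congr rfl fun d _ => ?_
      by_cases hd : C.dm (AdR C) (CD.ff D ℂ) a d = 0
      · rw [hd, map_zero, zero_mul, zero_mul]
      · have h7 := H.f_HM a d hd
        have h8 : X d = z d := by
          have h9 : 0 < D.ht2 (wA (D := D) d) := by linarith
          rw [hX]
          exact if_pos h9
        rw [h8]
    rw [h6] at h2
    apply h2
    rw [yp4a_ff, hz]
    rfl
  have h2 : X = 0 := by
    refine (Gd.inj H (R := R)).2 X (fun a ha => ?_) ?_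
    · by_contra h5
      rw [hX] at ha
      exact ha (if_neg h5)
    · have h3 : ((C.dm (AdR C) (CD.ff D ℂ)).map (algebraMap ℂ R)).mulVec X = 0 := by
        rw [yp4a_ff]
        exact h1
      rw [h3, Matrix.mulVec_zero]
  refine ys4a_Sp.2 fun a ha => ?_
  by_contra hlt
  have h3 : 0 < D.ht2 (wA (D := D) a) := by linarith
  have h4 := congrFun h2 a
  rw [hX] at h4
  have h5 : (if 0 < D.ht2 (wA (D := D) a) then z a else 0) = (0 : LR D R) a := h4
  rw [if_pos h3] at h5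
  exact ha h5

end Pool.Agent.MTG
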