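import Pool.Agent.MTG.YS5d

/-! # MTG-YP : the data for the Poisson structure -/

namespace Pool.Agent.MTG

open Pool.Agent.MTF Matrix
open Pool.Agent.MTD (ev)
open Pool.Agent.MTX.SLD (AA fm0)
open Pool.Agent.MTH
open RD (KK aK)
open Pool.Agent.MP_c45d35_ag (chi)

section yp6

open Pool.Agent.MP_c45d35_ag (chi chi_inv)

/-- the imaginary unit -/
noncomputable def yp6_u : ℂˣ := Units.mk0 Complex.I Complex.I_ne_zero

/-- the point `I ^ (2 ρ^∨)` -/
noncomputable def yp6_t {n : ℕ} (D : RD n) : Fin n → ℂˣ :=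
  fun k => yp6_u ^ D.ht2 (Pi.single k 1)

theorem yp6_chi {n : ℕ} (D : RD n) (μ : Fin n → ℤ) :
    chi μ (yp6_t D) = yp6_u ^ D.ht2 μ := by
  unfold chi yp6_t
  rw [y5d_ht D μ, ← y5d_prodz]
  exact Finset.prod_congr rfl fun k _ => (_root_.zpow_mul _ _ _).symm

theorem yp6_coeff {n : ℕ} (p : AA n) (m : Fin n →₀ ℕ) :
    MvPolynomial.coeff m (MvPolynomial.aeval (fun k : Fin n => - MvPolynomial.X k) p : AA n) =
      (-1 : ℂ) ^ (m.sum fun _ e => e) * MvPolynomial.coeff m p := by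
  induction p using MvPolynomial.induction_on' with
  | monomial v a =>
    have h1 : (v.prod fun k e => (- MvPolynomial.X k : AA n) ^ e) =
        MvPolynomial.C ((-1 : ℂ) ^ (v.sum fun _ e => e)) * MvPolynomial.monomial v 1 := by
      rw [MvPolynomial.monomial_eq, MvPolynomial.C_1, one_mul]
      unfold Finsupp.prod Finsupp.sum
      rw [← Finset.prod_pow_eq_pow_sum, map_prod, ← Finset.prod_mul_distrib]
      refine Finset.prod_congr rfl fun k _ => ?_
      show (- MvPolynomial.X k : AA n) ^ v k =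
        MvPolynomial.C ((-1) ^ v k) * MvPolynomial.X k ^ v k
      rw [map_pow, map_neg, MvPolynomial.C_1, ← mul_pow, neg_one_mul]
    rw [MvPolynomial.aeval_monomial, h1, MvPolynomial.algebraMap_eq, MvPolynomial.coeff_C_mul,
      MvPolynomial.coeff_C_mul, MvPolynomial.coeff_monomial, MvPolynomial.coeff_monomial]
    split_ifs with h2
    · rw [h2]
      ring
    · ring
  | add p q hp hq =>
    rw [map_add, MvPolynomial.coeff_add, MvPolynomial.coeff_add, hp, hq]
    ring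

theorem yp6_pow (e : ℕ) : (-1 : ℂ) ^ e = - (Complex.I ^ (2 - 2 * (e : ℤ))) := by
  have h1 : Complex.I ^ (2 - 2 * (e : ℤ)) = Complex.I ^ (2 : ℤ) * (Complex.I ^ (2 * (e : ℤ)))⁻¹ := by
    rw [sub_eq_add_neg, zpow_add₀ Complex.I_ne_zero, _root_.zpow_neg]
  have h2 : Complex.I ^ (2 : ℤ) = -1 := by
    rw [zpow_ofNat]
    exact Complex.I_sq
  have h3 : Complex.I ^ (2 * (e : ℤ)) = (-1) ^ e := by
    rw [_root_.zpow_mul, h2, zpow_natCast]
  rw [h1, h2, h3, neg_one_mul, neg_neg]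
  have h4 : ((-1 : ℂ) ^ e) * (-1) ^ e = 1 := by
    rw [← mul_pow, neg_one_mul, neg_neg, one_pow]
  exact eq_inv_of_mul_eq_one_left h4

end yp6

/-- YP6.  `ι(s) = - Ad_γ s`.  `γ := tq C t`, `t k = I ^ ht2 (e_k)` (`I` the imaginary unit, a unit of `ℂ`), so `chi μ t = I ^ ht2 μ` and `Ad_γ` multiplies the component `j` by `I ^ ht2 (wA j)` (`Adp_tq`).  With `sx_hd`:
`sx j (-x) = (-1)^(deg) sx j (x)`, `2 deg = 2 - ht2 (wA j)` if `sx j ≠ 0`; `- I ^ h = (-1) ^ ((2 - h)/2)` for even `h`. -/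
theorem CD.exists_gamma {G : AffGrp} {n : ℕ} {D : RD n} (C : CD G D) :
    ∃ γ : G.Pt ℂ, (∀ j, (MvPolynomial.aeval (fun k : Fin n => - MvPolynomial.X k) (C.sx j) : AA n) =
      - ∑ i, MvPolynomial.C ((AdR C).pt γ j i) * C.sx i) := by
  classical
  refine ⟨tq C (yp6_t D), fun j => ?_⟩
  have h1 : ∀ i, (AdR C).pt (tq C (yp6_t D)) j i =
      if j = i then Complex.I ^ D.ht2 (wA (D := D) j) else 0 := by
    intro i
    rw [tq_pt C _ (isW_AdR C), Matrix.diagonal_apply, yp6_chi, Units.val_zpow_eq_zpow_val]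
    rfl
  have h2 : ∑ i, MvPolynomial.C ((AdR C).pt (tq C (yp6_t D)) j i) * C.sx i =
      MvPolynomial.C (Complex.I ^ D.ht2 (wA (D := D) j)) * C.sx j := by
    refine (Finset.sum_eq_single j ?_ ?_).trans ?_
    · intro i _ hi
      have h5 := h1 i
      rw [if_neg (Ne.symm hi)] at h5
      have h6 : MvPolynomial.C (σ := Fin n) ((AdR C).pt (tq C (yp6_t D)) j i) = 0 := by
        rw [h5]
        exact map_zero _
      exact (congrArg (fun x => x * C.sx i) h6).trans (zero_mul _)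
    · intro hj
      exact absurd (Finset.mem_univ j) hj
    · have h5 := h1 j
      rw [if_pos rfl] at h5
      exact congrArg (fun x => MvPolynomial.C x * C.sx j) h5
  rw [h2]
  refine MvPolynomial.ext _ _ fun m => ?_
  rw [yp6_coeff, MvPolynomial.coeff_neg, MvPolynomial.coeff_C_mul]
  by_cases hm : MvPolynomial.coeff m (C.sx j) = 0
  · rw [hm, mul_zero, mul_zero, neg_zero]
  · have h3 := C.sx_hd j m hm
    have h4 : D.ht2 (wA (D := D) j) = 2 - 2 * ((m.sum fun _ e => e : ℕ) : ℤ) := by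
      omega
    rw [h4, yp6_pow, neg_mul]

end Pool.Agent.MTG
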