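import Pool.Agent.MTG.ZB6
import Pool.Agent.MTH.G1

/-! # MTG-ZB7 : families of representations whose weights generate -/

namespace Pool.Agent.MTG

open Pool.Agent.MTF Matrix
open Pool.Agent.MTD (ev)
open Pool.Agent.MTX.SLD (AA fm0)
open Pool.Agent.MTH
open Pool.Agent.MP_c45d35_ag (chi)

section
variable {G : AffGrp} {n : ℕ} {D : RD n} {C : CD G D}

variable {κ : Type} (V : κ → MTF.Rep G) (wV : (k : κ) → (V k).ι → Fin n → ℤ)

/-- finite direct sums -/
theorem exists_rsumL (hV : ∀ k, C.IsW (V k) (wV k)) (l : List κ) (hl : l ≠ []) :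
    ∃ (E : MTF.Rep G) (w : E.ι → Fin n → ℤ), C.IsW E w ∧
      (∀ k ∈ l, ∀ a, ∃ b, w b = wV k a) ∧
      ∀ a b, E.co a b ∈ Algebra.adjoin ℂ {f : G.O | ∃ k a b, f = (V k).co a b} := by
  induction l with
  | nil => exact absurd rfl hl
  | cons k l ih =>
    have hk : ∀ a b, (V k).co a b ∈ Algebra.adjoin ℂ {f : G.O | ∃ k a b, f = (V k).co a b} :=
      fun a b => Algebra.subset_adjoin ⟨k, a, b, rfl⟩
    by_cases h : l = []
    · subst h
      refine ⟨V k, wV k, hV k, ?_, hk⟩
      intro k' hk' a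
      rw [List.mem_singleton] at hk'
      subst hk'
      exact ⟨a, rfl⟩
    · obtain ⟨E, w, h1, h2, h3⟩ := ih h
      refine ⟨rsum (V k) E, Sum.elim (wV k) w, isW_sum C (hV k) h1, ?_, ?_⟩
      · intro k' hk' a
        rcases List.mem_cons.1 hk' with rfl | hk'
        · exact ⟨Sum.inl a, rfl⟩
        · obtain ⟨b, hb⟩ := h2 k' hk' a
          exact ⟨Sum.inr b, hb⟩
      · rintro (a | a) (b | b)
        · exact hk a b
        · have h4 : (rsum (V k) E).co (Sum.inl a) (Sum.inr b) = 0 := rfl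
          rw [h4]
          exact Subalgebra.zero_mem _
        · have h4 : (rsum (V k) E).co (Sum.inr a) (Sum.inl b) = 0 := rfl
          rw [h4]
          exact Subalgebra.zero_mem _
        · exact h3 a b

/-- finitely many members generate -/
theorem exists_fin_gen {κ : Type} {ι : κ → Type} (wV : (k : κ) → ι k → Fin n → ℤ)
    (hgen : AddSubgroup.closure {x : Fin n → ℤ | ∃ k a, x = wV k a} = ⊤) :
    ∃ l : List κ, AddSubgroup.closure {x : Fin n → ℤ | ∃ k ∈ l, ∃ a, x = wV k a} = ⊤ := by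
  classical
  have key : ∀ x : Fin n → ℤ, ∃ l : List κ,
      x ∈ AddSubgroup.closure {x : Fin n → ℤ | ∃ k ∈ l, ∃ a, x = wV k a} := by
    intro x
    have hx : x ∈ AddSubgroup.closure {x : Fin n → ℤ | ∃ k a, x = wV k a} := by rw [hgen]; trivial
    have mono : ∀ l l' : List κ, (∀ k ∈ l, k ∈ l') →
        AddSubgroup.closure {x : Fin n → ℤ | ∃ k ∈ l, ∃ a, x = wV k a} ≤
        AddSubgroup.closure {x : Fin n → ℤ | ∃ k ∈ l', ∃ a, x = wV k a} := by
      intro l l' h
      apply AddSubgroup.closure_mono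
      rintro y ⟨k, hk, a, rfl⟩
      exact ⟨k, h k hk, a, rfl⟩
    induction hx using AddSubgroup.closure_induction with
    | mem x hx =>
      obtain ⟨k, a, rfl⟩ := hx
      exact ⟨[k], AddSubgroup.subset_closure ⟨k, List.mem_singleton_self k, a, rfl⟩⟩
    | zero => exact ⟨[], AddSubgroup.zero_mem _⟩
    | add x y _ _ hx hy =>
      obtain ⟨l, hl⟩ := hx
      obtain ⟨l', hl'⟩ := hy
      refine ⟨l ++ l', AddSubgroup.add_mem _ (mono l (l ++ l') (fun k hk => ?_) hl)
        (mono l' (l ++ l') (fun k hk => ?_) hl')⟩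
      · exact List.mem_append_left _ hk
      · exact List.mem_append_right _ hk
    | neg x _ hx =>
      obtain ⟨l, hl⟩ := hx
      exact ⟨l, AddSubgroup.neg_mem _ hl⟩
  choose L hL using fun k : Fin n => key (Pi.single k 1)
  refine ⟨(List.finRange n).flatMap L, ?_⟩
  rw [eq_top_iff]
  intro x _
  have h1 : x = ∑ k, x k • (Pi.single k 1 : Fin n → ℤ) := by
    funext j
    simp [Finset.sum_apply, Pi.single_apply]
  rw [h1]
  refine AddSubgroup.sum_mem _ fun k _ => AddSubgroup.zsmul_mem _ ?_ _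
  refine AddSubgroup.closure_mono ?_ (hL k)
  rintro y ⟨k', hk', a, rfl⟩
  exact ⟨k', List.mem_flatMap.2 ⟨k, List.mem_finRange k, hk'⟩, a, rfl⟩

/-- A family of weight representations whose weights generate `ℤ^n` generates the algebra of regular functions. -/
theorem adjoin_top (hG : IsDomain G.O) (k0 : κ) (hV : ∀ k, C.IsW (V k) (wV k))
    (hgen : AddSubgroup.closure {x : Fin n → ℤ | ∃ k a, x = wV k a} = ⊤) :
    Algebra.adjoin ℂ {f : G.O | ∃ k a b, f = (V k).co a b} = ⊤ := by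
  obtain ⟨l, hl⟩ := exists_fin_gen (fun k (a : (V k).ι) => wV k a) hgen
  obtain ⟨E, w, h1, h2, h3⟩ := exists_rsumL (C := C) V wV hV (k0 :: l) (List.cons_ne_nil _ _)
  have h4 : AddSubgroup.closure (Set.range w) = ⊤ := by
    rw [eq_top_iff, ← hl]
    apply AddSubgroup.closure_mono
    rintro x ⟨k, hk, a, rfl⟩
    obtain ⟨b, hb⟩ := h2 k (List.mem_cons_of_mem _ hk) a
    exact ⟨b, hb⟩
  have h5 : E.Faithful := faithful_of_gen hG h1 h4
  rw [eq_top_iff, ← show Algebra.adjoin ℂ (Set.range fun p : E.ι × E.ι => E.co p.1 p.2) = ⊤ from h5]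
  apply Algebra.adjoin_le
  rintro _ ⟨p, rfl⟩
  exact h3 p.1 p.2

end

end Pool.Agent.MTG
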