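import Pool.Agent.MTG.ZA2
import Pool.Agent.MTG.ZB7

/-! # MTG-ZA3 : the generating pieces (field `pc` of `GIn`) -/

namespace Pool.Agent.MTG

open Pool.Agent.MTF Matrix
open Pool.Agent.MTD (ev)
open Pool.Agent.MTX.SLD (AA fm0)
open Pool.Agent.MTH
open Pool.Agent.MP_c45d35_ag (chi)

/-- the weight `0` is minuscule -/
theorem RD.mnu_zero {n : ℕ} (D : RD n) : D.Mnu (0 : Fin n → ℤ) := by
  refine ⟨fun γ _ => ?_, fun γ => ?_⟩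
  · rw [D.cp_zero]
  · rw [D.cp_zero]
    simp

/-- the field `pc` of `GIn` -/
theorem CD.gin_pc {G : AffGrp} {n : ℕ} {D : RD n} (C : CD G D) (hG : G.Semi) :
    ∃ (κ : Type) (V : κ → MTF.Rep G),
      Algebra.adjoin ℂ {f : G.O | ∃ k a b, f = (V k).co a b} = ⊤ ∧
      ∀ k, ∃ (U : KRep D) (φ : (V k).ι ≃ U.I), SE C.Db C.cA (V k) = U.S.submatrix φ φ ∧
        ((∃ l, HWK U l ∧ D.Mnu l) ∨ ∃ θ : D.Rt, HWK U θ.1 ∧ D.QMn θ ∧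
          (∀ k : ℤ, k ≤ 0 → ∀ v : U.I → ℂ, (∀ a, v a ≠ 0 → D.ht2 (U.wt a) = k) →
            U.e.mulVec v = 0 → v = 0) ∧
          ∃ r : Matrix U.I U.I ℂ, (∀ a b, r a b ≠ 0 → D.ht2 (U.wt a) = D.ht2 (U.wt b) - 2) ∧
            ∀ v : U.I → ℂ, (∀ a, v a ≠ 0 → 0 ≤ D.ht2 (U.wt a)) → U.e.mulVec (r.mulVec v) = v) := by
  classical
  have hex : ∀ k : {l // D.Mnu l} ⊕ {θ : D.Rt // D.QMn θ}, ∃ (E : MTF.Rep G) (w : E.ι → Fin n → ℤ)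
      (v0 : E.ι → ℂ), HWV C (Sum.elim (fun l => l.1) (fun θ => θ.1.1) k) E w v0 := by
    rintro (l | θ)
    · exact C.exists_hwv hG.dom l.2.1
    · exact C.exists_hwv hG.dom θ.2.1
  choose V w v0 hV using hex
  refine ⟨{l // D.Mnu l} ⊕ {θ : D.Rt // D.QMn θ}, V, ?_, ?_⟩
  · refine adjoin_top (C := C) V w hG.dom (Sum.inl ⟨0, D.mnu_zero⟩) (fun k => (hV k).isW) ?_
    rw [eq_top_iff, ← D.gen_top]
    apply AddSubgroup.closure_mono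
    rintro x (⟨θ, u, hθ, rfl⟩ | ⟨l, u, hl, rfl⟩)
    · obtain ⟨a0, ha0, -⟩ := (hV (Sum.inr ⟨θ, hθ⟩)).mult hG.dom
      obtain ⟨σ, hσ⟩ := exists_perm C (hV (Sum.inr ⟨θ, hθ⟩)).isW u
      exact ⟨Sum.inr ⟨θ, hθ⟩, σ a0, by rw [hσ, ha0]; rfl⟩
    · obtain ⟨a0, ha0, -⟩ := (hV (Sum.inl ⟨l, hl⟩)).mult hG.dom
      obtain ⟨σ, hσ⟩ := exists_perm C (hV (Sum.inl ⟨l, hl⟩)).isW u
      exact ⟨Sum.inl ⟨l, hl⟩, σ a0, by rw [hσ, ha0]; rfl⟩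
  · rintro (l | θ)
    · obtain ⟨U, φ, -, -, h3, h4⟩ := (hV (Sum.inl l)).krep hG l.2.1
      exact ⟨U, φ, h3, Or.inl ⟨l.1, h4, l.2⟩⟩
    · obtain ⟨U, φ, h3, h4, h5, h6⟩ := HWV.qmn_pc hG θ.2 (hV (Sum.inr θ))
      exact ⟨U, φ, h3, Or.inr ⟨θ.1, h4, θ.2, h5, h6⟩⟩

end Pool.Agent.MTG
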