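import Pool.Agent.MTG.YF
import Pool.Agent.MTG.JF
import Pool.Agent.MTG.YP6
import Pool.Agent.MTH.L1
import Pool.Agent.MTF.PA3
import Pool.Agent.MTF.P0b

/-! # MTG-YR : the data of part P for a Cartan datum (`PQ`, `PO`) -/

namespace Pool.Agent.MTG

open Pool.Agent.MTF Matrix
open Pool.Agent.MTX.SLD (AA fm0)
open Pool.Agent.MTH
open RD (KK aK)

/-- The properties `PQ`. -/
theorem CD.exists_PQ {G : AffGrp} {n : ℕ} {D : RD n} (C : CD G D) (hG : G.Semi) :
    ∃ rho : Matrix (Fin (Fintype.card (Fin n ⊕ D.Rt))) (Fin (Fintype.card (Fin n ⊕ D.Rt))) (KK n),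
      MTF.PQ C.TQd (C.PDd rho) := by
  obtain ⟨rho, h1, h2, h3, h4⟩ := MTF.exists_rho (exists_TQ hG C)
  refine ⟨rho, ?_⟩
  exact
    { dd_comm := fun i j x => C.ddK_comm i j x
      dd_mem := fun i x hx => C.pq_dd_mem i x hx
      dd_y := fun i j => C.ddK_y hG i j
      A_gen := C.pq_A_gen hG
      frac := fun x => C.pq_frac x
      dX_w := fun w m x => C.pq_dX_w hG rho w m x
      gr := fun E m z r hz hr => C.pq_gr hG rho E m z r hz hr
      sf := C.pq_sf
      AW := fun a ha hw => C.AWq hG.dom a ha hw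
      ASl := fun p hp s₀ hs => C.ASlq p hp s₀ hs
      sl := fun s₀ hs z => C.pq_sl s₀ hs z
      dir := fun u v hu h => C.pq_dir u v hu h
      rho_skew := h1
      rho_w := h2
      rho_im := h3
      rho_ker := h4 }

namespace YR

/-- `X_k ↦ - X_k` -/
noncomputable def ng (n : ℕ) : AA n →ₐ[ℂ] AA n := MvPolynomial.aeval fun k => - MvPolynomial.X k

theorem ng_X {n : ℕ} (k : Fin n) : ng n (MvPolynomial.X k) = - MvPolynomial.X k :=
  MvPolynomial.aeval_X _ k

theorem ng_C {n : ℕ} (c : ℂ) : ng n (MvPolynomial.C c) = MvPolynomial.C c := MvPolynomial.aeval_C _ c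

theorem ng_ng {n : ℕ} (p : AA n) : ng n (ng n p) = p := by
  have h : (ng n).comp (ng n) = AlgHom.id ℂ (AA n) := by
    apply MvPolynomial.algHom_ext
    intro k
    rw [AlgHom.comp_apply, ng_X, map_neg, ng_X, neg_neg]
    rfl
  exact congrArg (fun f : AA n →ₐ[ℂ] AA n => f p) h

/-- the automorphism of `A` -/
noncomputable def ngE (n : ℕ) : AA n ≃ₐ[ℂ] AA n :=
  AlgEquiv.ofAlgHom (ng n) (ng n) (AlgHom.ext ng_ng) (AlgHom.ext ng_ng)

/-- the automorphism of `K` -/
noncomputable def io (n : ℕ) : KK n ≃ₐ[ℂ] KK n := IsFractionRing.algEquivOfAlgEquiv (ngE n)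

theorem io_aK {n : ℕ} (p : AA n) : io n (aK p) = aK (ng n p) :=
  IsFractionRing.algEquivOfAlgEquiv_algebraMap (ngE n) p

theorem hom_ext {n : ℕ} {f g : KK n →+* KK n} (h : ∀ p : AA n, f (aK p) = g (aK p)) : f = g :=
  IsLocalization.ringHom_ext (nonZeroDivisors (AA n)) (RingHom.ext h)

theorem ng_fm0 {n : ℕ} (x : Fin n → ℤ) : ng n (fm0 x) = - fm0 x := by
  have h : (fm0 x : AA n) = ∑ j, MvPolynomial.C ((x j : ℤ) : ℂ) * MvPolynomial.X j := rfl
  rw [h, map_sum, ← Finset.sum_neg_distrib]
  refine Finset.sum_congr rfl fun j _ => ?_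
  rw [map_mul, ng_C, ng_X, mul_neg]

theorem X_eq {n : ℕ} (k : Fin n) : (MvPolynomial.X k : AA n) = fm0 (Pi.single k 1) := by
  have h : (fm0 (Pi.single k 1) : AA n) =
    ∑ j, MvPolynomial.C (((Pi.single k 1 : Fin n → ℤ) j : ℤ) : ℂ) * MvPolynomial.X j := rfl
  rw [h, Finset.sum_eq_single k]
  · rw [Pi.single_eq_same, Int.cast_one, MvPolynomial.C_1, one_mul]
  · intro j _ hj
    rw [Pi.single_eq_of_ne hj, Int.cast_zero, MvPolynomial.C_0, zero_mul]
  · intro h
    exact absurd (Finset.mem_univ _) h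

theorem ng_W {n : ℕ} (D : RD n) (u : D.W) (p : AA n) : ng n (u • p) = u • ng n p := by
  induction p using MvPolynomial.induction_on with
  | C c => rw [D.smul_C, ng_C, D.smul_C]
  | add p q hp hq => rw [smul_add, map_add, map_add, smul_add, hp, hq]
  | mul_X p k hp =>
    rw [smul_mul', map_mul, map_mul, smul_mul', hp, X_eq, D.smul_fm0, ng_fm0, ng_fm0, smul_neg,
      D.smul_fm0]

end YR

open YR

/-- The data for the opposite. -/
theorem CD.exists_PO {G : AffGrp} {n : ℕ} {D : RD n} (C : CD G D)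
    (rho : Matrix (Fin (Fintype.card (Fin n ⊕ D.Rt))) (Fin (Fintype.card (Fin n ⊕ D.Rt))) (KK n)) :
    ∃ γ : G.X, MTF.PO (W := D.W) C.TQd (C.PDd rho) (io n) γ := by
  obtain ⟨γ', hγ⟩ := C.exists_gamma
  obtain ⟨γ, h⟩ := G.pts γ'
  refine ⟨γ, ?_⟩
  have hii : ∀ x, io n (io n x) = x := by
    intro x
    have h1 : ((io n).toRingEquiv.toRingHom.comp (io n).toRingEquiv.toRingHom) = RingHom.id (KK n) := by
      apply hom_ext
      intro p
      show io n (io n (aK p)) = aK p
      rw [io_aK, io_aK, ng_ng]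
    exact congrArg (fun f : KK n →+* KK n => f x) h1
  exact
    { ii := hii
      iw := by
        intro w x
        have h1 : ((io n).toRingEquiv.toRingHom.comp (MulSemiringAction.toRingHom D.W (KK n) w)) =
            (MulSemiringAction.toRingHom D.W (KK n) w).comp (io n).toRingEquiv.toRingHom := by
          apply hom_ext
          intro p
          show io n (w • aK p) = w • io n (aK p)
          rw [RD.smul_aK, io_aK, io_aK, RD.smul_aK, ng_W]
        exact congrArg (fun f : KK n →+* KK n => f x) h1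
      iA := by
        intro x hx
        obtain ⟨t, rfl⟩ := mem_AK.1 hx
        rw [io_aK]
        exact aK_mem _
      idd := by
        intro j x
        let E : Derivation ℂ (KK n) (KK n) := Derivation.mk'
          (-((io n).toLinearMap ∘ₗ (C.ddK j).toLinearMap ∘ₗ (io n).toLinearMap)) (fun a b => by
            show - io n (C.ddK j (io n (a * b))) = a • (- io n (C.ddK j (io n b))) + b • (- io n (C.ddK j (io n a)))
            rw [map_mul, Derivation.leibniz, map_add, smul_eq_mul, smul_eq_mul, map_mul, map_mul, hii, hii,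
              smul_eq_mul, smul_eq_mul]
            ring)
        have hE : ∀ y, E y = - io n (C.ddK j (io n y)) := fun y => rfl
        have h1 : E = C.ddK j := by
          apply der_KK_ext
          intro k
          rw [hE, io_aK, ng_X, map_neg, map_neg, map_neg, neg_neg, C.ddK_aK, C.yp5_dA_X, io_aK, ng_C]
        have h2 : E (io n x) = C.ddK j (io n x) := by rw [h1]
        rw [hE, hii] at h2
        show io n (C.ddK j x) = - C.ddK j (io n x)
        rw [← h2, neg_neg]
      ival := by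
        intro m
        show io n (aK (fm0 m)) = - aK (fm0 m)
        rw [io_aK, ng_fm0, map_neg]
      iEu := by
        intro m
        refine ⟨∏ β : D.Rt, (-1 : ℂ) ^ (D.cp β m).toNat, ?_, ?_⟩
        · exact Finset.prod_ne_zero_iff.2 fun β _ => pow_ne_zero _ (neg_ne_zero.2 one_ne_zero)
        · show io n (aK (D.Eu m)) = algebraMap ℂ (KK n) _ * aK (D.Eu m)
          rw [io_aK, algebraMap_KK, ← map_mul]
          congr 1
          unfold RD.Eu
          rw [map_prod, map_prod, ← Finset.prod_mul_distrib]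
          refine Finset.prod_congr rfl fun β _ => ?_
          rw [map_pow, ng_fm0, map_pow, map_neg, MvPolynomial.C_1, neg_pow]
      ic := by
        intro i
        show io n (aK (C.sx ((CD.eqJ D).symm i))) = - ∑ j : Fin (Fintype.card (Fin n ⊕ D.Rt)),
          aK (C.sx ((CD.eqJ D).symm j)) * algebraMap ℂ (KK n) (C.Db.repr (G.Ad γ (C.Db j)) i)
        rw [io_aK]
        have h1 := hγ ((CD.eqJ D).symm i)
        have h2 : ng n (C.sx ((CD.eqJ D).symm i)) = - ∑ j,
            MvPolynomial.C ((AdR C).pt γ' ((CD.eqJ D).symm i) j) * C.sx j := h1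
        rw [h2, map_neg, map_sum]
        congr 1
        rw [← Equiv.sum_comp (CD.eqJ D) fun j : Fin (Fintype.card (Fin n ⊕ D.Rt)) =>
          aK (C.sx ((CD.eqJ D).symm j)) * algebraMap ℂ (KK n) (C.Db.repr (G.Ad γ (C.Db j)) i)]
        refine Finset.sum_congr rfl fun j _ => ?_
        rw [Equiv.symm_apply_apply, C.yf2_Db, map_mul, mul_comm, algebraMap_KK]
        congr 3
        rw [Rep.pt_apply]
        have h3 : γ' ((AdR C).co ((CD.eqJ D).symm i) j) = ((AdR C).co ((CD.eqJ D).symm i) j).1 γ := h _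
        rw [h3]
        show C.bs.repr (G.Ad γ (C.bs j)) ((CD.eqJ D).symm i) = C.Db.repr (G.Ad γ (C.bs j)) i
        unfold CD.Db
        rw [Module.Basis.repr_reindex_apply] }

end Pool.Agent.MTG
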