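import Pool.Agent.MTH.E1

/-! # MTG-YS0 : gradings, `sl₂`, the principal nilpotent (definitions)

All heights are doubled: `D.ht2 γ = ⟨γ, 2ρ^∨⟩`, so `e` raises by `2`. -/

namespace Pool.Agent.MTG

open Pool.Agent.MTF Matrix
open Pool.Agent.MTD (ev)

namespace Gd

variable {I : Type} (h : I → ℤ) {R : Type} [Zero R]

/-- homogeneous vectors of height `k` -/
def InH (k : ℤ) (X : I → R) : Prop := ∀ a, X a ≠ 0 → h a = k

/-- homogeneous matrices: raise the height by `m` -/
def HM (m : ℤ) (A : Matrix I I R) : Prop := ∀ a c, A a c ≠ 0 → h a = h c + m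

/-- the component of height `k` -/
def ct (k : ℤ) (X : I → R) : I → R := fun a => if h a = k then X a else 0

/-- lowers the height by at least `d` -/
def LoD (d : ℤ) (A : Matrix I I R) : Prop := ∀ a c, A a c ≠ 0 → h a + d ≤ h c

/-- `sl₂`-data: `e` raises the height by `2`, `f` lowers it by `2`, `[e, f]` is the height -/
structure Sl2 [Fintype I] [DecidableEq I] (h : I → ℤ) (e f : Matrix I I ℂ) : Prop where
  e_HM : HM h 2 e
  f_HM : HM h (-2) f
  ef : e * f - f * e = Matrix.diagonal fun a => ((h a : ℤ) : ℂ)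

end Gd

namespace CD

variable {G : AffGrp} {n : ℕ} {D : RD n} (C : CD G D) {R : Type} [CommRing R] [Algebra ℂ R]

open Classical in
/-- the principal nilpotent `e = ∑ e_α`, `α` simple -/
noncomputable def ee (D : RD n) (R : Type) [CommRing R] : LR D R :=
  ez fun γ => if D.Sim γ then 1 else 0

end CD

end Pool.Agent.MTG
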