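import Pool.Agent.MTG.YS1a

/-! # MTG-YS : the Kostant slice -/

namespace Pool.Agent.MTG

open Pool.Agent.MTF Matrix
open Pool.Agent.MTD (ev)
open Pool.Agent.MTX.SLD (AA fm0)
open Pool.Agent.MTH

namespace RD

variable {n : ℕ} (D : RD n)

/-- the coefficients of `f` -/
noncomputable def rr : D.SRt → ℂ := D.exists_r.choose

theorem rr_spec (x : Fin n → ℤ) : ∑ s, D.rr s * ((D.cp s.1 x : ℤ) : ℂ) = ((D.ht2 x : ℤ) : ℂ) :=
  D.exists_r.choose_spec x

end RD

namespace CD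

variable {G : AffGrp} {n : ℕ} {D : RD n} (C : CD G D)

open Classical in
/-- `f = ∑ r_α e_{-α}` -/
noncomputable def ff (D : RD n) (R : Type) [CommRing R] [Algebra ℂ R] : LR D R :=
  ez fun γ => if h : D.Sim (D.ng γ) then algebraMap ℂ R (D.rr ⟨D.ng γ, h⟩) else 0

end CD

end Pool.Agent.MTG
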