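import Pool.Agent.MTG.YS0

/-! # MTG-YS : the Kostant slice -/

namespace Pool.Agent.MTG

open Pool.Agent.MTF Matrix
open Pool.Agent.MTD (ev)
open Pool.Agent.MTX.SLD (AA fm0)
open Pool.Agent.MTH

/-- the rational functional of an integral one -/
noncomputable def ys1a_L {n : ℕ} (f : (Fin n → ℤ) →ₗ[ℤ] ℤ) : (Fin n → ℚ) →ₗ[ℚ] ℚ :=
  ∑ i, ((f fun j => if i = j then 1 else 0 : ℤ) : ℚ) • LinearMap.proj i

theorem ys1a_L_apply {n : ℕ} (f : (Fin n → ℤ) →ₗ[ℤ] ℤ) (x : Fin n → ℚ) :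
    ys1a_L f x = ∑ i, x i * ((f fun j => if i = j then 1 else 0 : ℤ) : ℚ) := by
  unfold ys1a_L
  rw [LinearMap.sum_apply]
  refine Finset.sum_congr rfl fun i _ => ?_
  rw [LinearMap.smul_apply, LinearMap.proj_apply, smul_eq_mul, mul_comm]

theorem ys1a_L_int {n : ℕ} (f : (Fin n → ℤ) →ₗ[ℤ] ℤ) (z : Fin n → ℤ) :
    ys1a_L f (fun i => (z i : ℚ)) = ((f z : ℤ) : ℚ) := by
  rw [ys1a_L_apply, LinearMap.pi_apply_eq_sum_univ f z, Int.cast_sum]
  refine Finset.sum_congr rfl fun i _ => ?_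
  rw [smul_eq_mul, Int.cast_mul]

/-- `cp` as a linear functional -/
def ys1a_cp {n : ℕ} (D : RD n) (γ : D.Rt) : (Fin n → ℤ) →ₗ[ℤ] ℤ where
  toFun := D.cp γ
  map_add' := D.cp_add γ
  map_smul' := D.cp_smul γ

/-- `ht2` as a linear functional -/
noncomputable def ys1a_ht {n : ℕ} (D : RD n) : (Fin n → ℤ) →ₗ[ℤ] ℤ where
  toFun := D.ht2
  map_add' := D.ht2_add
  map_smul' := D.ht2_smul

theorem ys1a_zero {n : ℕ} (D : RD n) {z : Fin n → ℤ} (h : ∀ s : D.SRt, D.cp s.1 z = 0) :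
    D.ht2 z = 0 := by
  have h1 : D.Dom z := (D.dom_iff z).2 fun s => (h s).ge
  have h2 : D.Dom (-z) := (D.dom_iff (-z)).2 fun s => by rw [D.cp_neg, h s, neg_zero]
  unfold RD.ht2
  refine Finset.sum_eq_zero fun γ _ => ?_
  have h3 := h1 γ.1 γ.2
  have h4 := h2 γ.1 γ.2
  rw [D.cp_neg] at h4
  omega

/-- YS1a.  `2ρ^∨` is a combination of the simple coroots.  The functionals `cp α` (`α` simple) on `ℤ^n`
have common kernel `0`: if `cp α x = 0` for all simple `α` then `x` is fixed by all simple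
reflections, hence by the Weyl group (`exists_list`), so `rf γ x = x`, `cp γ x = 0` for all `γ`
(`γ.1 ≠ 0`) and `x = 0` (`D.span`, `cp_mul`).  Hence (rational, then complex scalars) they span the
dual space, and `ht2` is a linear functional (`ht2_add`, `ht2_smul`). -/
theorem RD.exists_r {n : ℕ} (D : RD n) : ∃ r : D.SRt → ℂ, ∀ x : Fin n → ℤ,
    ∑ s, r s * ((D.cp s.1 x : ℤ) : ℂ) = ((D.ht2 x : ℤ) : ℂ) := by
  have hmem : ys1a_L (ys1a_ht D) ∈
      Submodule.span ℚ (Set.range fun s : D.SRt => ys1a_L (ys1a_cp D s.1)) := by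
    refine mem_span_of_iInf_ker_le_ker fun x hx => ?_
    rw [LinearMap.mem_ker]
    obtain ⟨b, hb⟩ := IsLocalization.exist_integer_multiples_of_finite (nonZeroDivisors ℤ) x
    choose z hz using hb
    have hz' : (fun i => (z i : ℚ)) = ((b : ℤ) : ℚ) • x := by
      funext i
      have h1 := hz i
      rw [zsmul_eq_mul] at h1
      exact h1
    have hb0 : ((b : ℤ) : ℚ) ≠ 0 := by
      exact_mod_cast nonZeroDivisors.ne_zero b.2
    have h1 : ∀ s : D.SRt, D.cp s.1 z = 0 := by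
      intro s
      have h2 : ys1a_L (ys1a_cp D s.1) x = 0 := by
        have h3 := (Submodule.mem_iInf _).1 hx s
        exact h3
      have h3 := ys1a_L_int (ys1a_cp D s.1) z
      rw [hz', map_smul, h2, smul_zero] at h3
      exact_mod_cast h3.symm
    have h2 := ys1a_L_int (ys1a_ht D) z
    have h3 : ys1a_ht D z = 0 := ys1a_zero D h1
    rw [h3, hz', map_smul, Int.cast_zero, smul_eq_mul] at h2
    exact (mul_eq_zero.1 h2).resolve_left hb0
  obtain ⟨r, hr⟩ := (Submodule.mem_span_range_iff_exists_fun ℚ).1 hmem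
  refine ⟨fun s => (r s : ℂ), fun x => ?_⟩
  have h1 := congrArg (fun f : (Fin n → ℚ) →ₗ[ℚ] ℚ => f (fun i => (x i : ℚ))) hr
  have h2 : ∑ s, r s * ((D.cp s.1 x : ℤ) : ℚ) = ((D.ht2 x : ℤ) : ℚ) := by
    have h3 : (∑ s, r s • ys1a_L (ys1a_cp D s.1)) (fun i => (x i : ℚ)) =
        ys1a_L (ys1a_ht D) (fun i => (x i : ℚ)) := h1
    rw [LinearMap.sum_apply, ys1a_L_int] at h3
    have h4 : ys1a_ht D x = D.ht2 x := rfl
    rw [h4] at h3
    rw [← h3]
    refine Finset.sum_congr rfl fun s _ => ?_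
    rw [LinearMap.smul_apply, ys1a_L_int, smul_eq_mul]
    rfl
  have h3 := congrArg (fun q : ℚ => (q : ℂ)) h2
  push_cast at h3
  exact h3

end Pool.Agent.MTG
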