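import Pool.Agent.MTG.YS0

/-! # MTG-YS : the Kostant slice -/

namespace Pool.Agent.MTG

open Pool.Agent.MTF Matrix
open Pool.Agent.MTD (ev)
open Pool.Agent.MTX.SLD (AA fm0)
open Pool.Agent.MTH

/-- YS3a.  Port of MTX_K1.lean (team-store), theorem `sl2_inj`, with doubled heights.  Suppose `x ≠ 0`.
`F E (F^j x) = (j k - j (j - 1)) F^j x` by induction (`F E F y = F (F E y) + F (m y)` for `y` of height
`m`, from `E F y = F E y + m y`).  Let `j` be maximal with `u = F^j x ≠ 0` (`j < N`); `F u = 0` gives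
`0 = E F u = F E u + (k - 2 j) u`, so `(j k - j (j - 1) + k - 2 j) u = 0`, i.e.
`(j + 1) (k - j) u = 0`, contradiction as `k < 0 ≤ j`. -/
theorem Gd.sl2_inj {V : Type*} [AddCommGroup V] (ht : ∀ (m : ℤ) (v : V), m ≠ 0 → m • v = 0 → v = 0)
    (E F : V →+ V) (P : ℤ → V → Prop) (hF : ∀ k v, P k v → P (k - 2) (F v))
    (hEF : ∀ k v, P k v → E (F v) = F (E v) + k • v) {k : ℤ} (hk : k < 0) {x : V}
    (hx : P k x) (h : F (E x) = 0) (N : ℕ) (hN : F^[N] x = 0) : x = 0 := by
  have hP : ∀ j : ℕ, P (k - 2 * j) (F^[j] x) := by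
    intro j
    induction j with
    | zero =>
      rw [Function.iterate_zero, id_eq, Nat.cast_zero, mul_zero, sub_zero]
      exact hx
    | succ j ih =>
      rw [Function.iterate_succ_apply']
      have h1 := hF _ _ ih
      have h2 : k - 2 * (j : ℤ) - 2 = k - 2 * ((j + 1 : ℕ) : ℤ) := by
        push_cast
        ring
      rw [h2] at h1
      exact h1
  have hFE : ∀ j : ℕ, F (E (F^[j] x)) = ((j : ℤ) * k - j * (j - 1)) • F^[j] x := by
    intro j
    induction j with
    | zero =>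
      rw [Function.iterate_zero, id_eq, h, Nat.cast_zero, zero_mul, zero_mul, sub_zero, zero_smul]
    | succ j ih =>
      rw [Function.iterate_succ_apply', hEF _ _ (hP j), map_add, ih, map_zsmul, map_zsmul,
        ← add_smul]
      congr 1
      push_cast
      ring
  by_contra hne
  classical
  have hex : ∃ N : ℕ, F^[N] x = 0 := ⟨N, hN⟩
  obtain ⟨M, hM, hmin⟩ : ∃ M : ℕ, F^[M] x = 0 ∧ ∀ j < M, F^[j] x ≠ 0 :=
    ⟨Nat.find hex, Nat.find_spec hex, fun j hj => Nat.find_min hex hj⟩
  cases M with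
  | zero => exact hne hM
  | succ j =>
    have hu := hmin j (Nat.lt_succ_self j)
    rw [Function.iterate_succ_apply'] at hM
    have h1 := hEF _ _ (hP j)
    rw [hM, map_zero, hFE, ← add_smul] at h1
    have h2 : (j : ℤ) * k - j * (j - 1) + (k - 2 * j) = (j + 1) * (k - j) := by ring
    rw [h2] at h1
    refine hu (ht _ _ ?_ h1.symm)
    have h3 : (0 : ℤ) ≤ j := Int.natCast_nonneg j
    refine mul_ne_zero (by omega) (by omega)

end Pool.Agent.MTG
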