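import Pool.Agent.MTG.YS3a

/-! # MTG-YS : the Kostant slice -/

namespace Pool.Agent.MTG

open Pool.Agent.MTF Matrix
open Pool.Agent.MTD (ev)
open Pool.Agent.MTX.SLD (AA fm0)
open Pool.Agent.MTH

section ys3d

set_option linter.unusedSectionVars false

variable {I : Type} [Fintype I] [DecidableEq I] (h : I → ℤ) {R : Type} [CommRing R]

/-- the component of degree `m` -/
def ys3d_cm (m : ℤ) (A : Matrix I I R) : Matrix I I R :=
  fun a c => if h a - h c = m then A a c else 0

theorem ys3d_left {d : ℤ} {A : Matrix I I R} (hA : ∀ a c, A a c ≠ 0 → h a = h c + d) (m : ℤ)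
    (X : Matrix I I R) : ys3d_cm h (m + d) (A * X) = A * ys3d_cm h m X := by
  funext a c
  rw [Matrix.mul_apply]
  unfold ys3d_cm
  split_ifs with h1
  · rw [Matrix.mul_apply]
    refine Finset.sum_congr rfl fun b _ => ?_
    by_cases hb : A a b = 0
    · rw [hb, zero_mul, zero_mul]
    · rw [if_pos (by have := hA a b hb; omega)]
  · symm
    refine Finset.sum_eq_zero fun b _ => ?_
    by_cases hb : A a b = 0
    · rw [hb, zero_mul]
    · rw [if_neg (by have := hA a b hb; omega), mul_zero]

theorem ys3d_right {d : ℤ} {A : Matrix I I R} (hA : ∀ a c, A a c ≠ 0 → h a = h c + d) (m : ℤ)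
    (X : Matrix I I R) : ys3d_cm h (m + d) (X * A) = ys3d_cm h m X * A := by
  funext a c
  rw [Matrix.mul_apply]
  unfold ys3d_cm
  split_ifs with h1
  · rw [Matrix.mul_apply]
    refine Finset.sum_congr rfl fun b _ => ?_
    by_cases hb : A b c = 0
    · rw [hb, mul_zero, mul_zero]
    · rw [if_pos (by have := hA b c hb; omega)]
  · symm
    refine Finset.sum_eq_zero fun b _ => ?_
    by_cases hb : A b c = 0
    · rw [hb, mul_zero]
    · rw [if_neg (by have := hA b c hb; omega), zero_mul]

theorem ys3d_sub (m : ℤ) (X Y : Matrix I I R) :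
    ys3d_cm h m (X - Y) = ys3d_cm h m X - ys3d_cm h m Y := by
  funext a c
  rw [Matrix.sub_apply]
  unfold ys3d_cm
  split_ifs
  · rfl
  · rw [sub_zero]

theorem ys3d_add (m : ℤ) (X Y : Matrix I I R) :
    ys3d_cm h m (X + Y) = ys3d_cm h m X + ys3d_cm h m Y := by
  funext a c
  rw [Matrix.add_apply]
  unfold ys3d_cm
  split_ifs
  · rfl
  · rw [add_zero]

/-- `X ↦ A X - X A` -/
def ys3d_ad (A : Matrix I I R) : Matrix I I R →+ Matrix I I R where
  toFun X := A * X - X * A
  map_zero' := by rw [mul_zero, zero_mul, sub_zero]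
  map_add' X Y := by rw [mul_add, add_mul]; abel

theorem ys3d_ad_cm {d : ℤ} {A : Matrix I I R} (hA : ∀ a c, A a c ≠ 0 → h a = h c + d) (m : ℤ)
    (X : Matrix I I R) : ys3d_cm h (m + d) (ys3d_ad A X) = ys3d_ad A (ys3d_cm h m X) := by
  show ys3d_cm h (m + d) (A * X - X * A) = A * ys3d_cm h m X - ys3d_cm h m X * A
  rw [ys3d_sub, ys3d_left h hA, ys3d_right h hA]

/-- homogeneous of degree `k` -/
def ys3d_P (k : ℤ) (X : Matrix I I R) : Prop := ∀ a c, X a c ≠ 0 → h a - h c = k

theorem ys3d_P_cm (k : ℤ) (X : Matrix I I R) : ys3d_P h k (ys3d_cm h k X) := by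
  intro a c hac
  unfold ys3d_cm at hac
  by_contra h1
  rw [if_neg h1] at hac
  exact hac rfl

theorem ys3d_P_eq {k : ℤ} {X : Matrix I I R} (hX : ys3d_P h k X) : ys3d_cm h k X = X := by
  funext a c
  unfold ys3d_cm
  split_ifs with h1
  · rfl
  · by_contra h2
    exact h1 (hX a c (Ne.symm h2))

theorem ys3d_P_ad {d k : ℤ} {A : Matrix I I R} (hA : ∀ a c, A a c ≠ 0 → h a = h c + d)
    {X : Matrix I I R} (hX : ys3d_P h k X) : ys3d_P h (k + d) (ys3d_ad A X) := by
  have h1 := ys3d_ad_cm h hA k X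
  rw [ys3d_P_eq h hX] at h1
  rw [← h1]
  exact ys3d_P_cm h _ _

/-- far away components vanish -/
theorem ys3d_bound : ∃ B : ℤ, ∀ a c, |h a - h c| ≤ B := by
  classical
  refine ⟨∑ a, ∑ c, |h a - h c|, fun a c => ?_⟩
  have h1 : |h a - h c| ≤ ∑ c, |h a - h c| :=
    Finset.single_le_sum (f := fun c => |h a - h c|) (fun _ _ => abs_nonneg _) (Finset.mem_univ c)
  have h2 : ∑ c, |h a - h c| ≤ ∑ a, ∑ c, |h a - h c| :=
    Finset.single_le_sum (f := fun a => ∑ c, |h a - h c|)
      (fun _ _ => Finset.sum_nonneg fun _ _ => abs_nonneg _) (Finset.mem_univ a)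
  exact h1.trans h2

theorem ys3d_nil {d : ℤ} (hd : d ≠ 0) {A : Matrix I I R}
    (hA : ∀ a c, A a c ≠ 0 → h a = h c + d) {k : ℤ} {X : Matrix I I R} (hX : ys3d_P h k X) :
    ∃ N : ℕ, (ys3d_ad A)^[N] X = 0 := by
  obtain ⟨B, hB⟩ := ys3d_bound h
  have h1 : ∀ N : ℕ, ys3d_P h (k + N * d) ((ys3d_ad A)^[N] X) := by
    intro N
    induction N with
    | zero =>
      rw [Nat.cast_zero, zero_mul, add_zero]
      exact hX
    | succ N ih =>
      rw [Function.iterate_succ_apply']
      have h2 := ys3d_P_ad h hA ih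
      have h3 : k + N * d + d = k + (N + 1 : ℕ) * d := by push_cast; ring
      rw [h3] at h2
      exact h2
  refine ⟨(|k| + |B| + 1).toNat, ?_⟩
  funext a c
  by_contra h2
  have h3 := h1 _ a c h2
  have h4 := hB a c
  rw [h3] at h4
  have h5 : ((|k| + |B| + 1).toNat : ℤ) = |k| + |B| + 1 := Int.toNat_of_nonneg (by positivity)
  rw [h5] at h4
  have h6 : |(|k| + |B| + 1) * d| ≤ |k + (|k| + |B| + 1) * d| + |k| := by
    have h7 := abs_sub_abs_le_abs_sub ((|k| + |B| + 1) * d) (-k)
    have h8 : (|k| + |B| + 1) * d - (-k) = k + (|k| + |B| + 1) * d := by ring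
    rw [h8, abs_neg] at h7
    linarith
  have h7 : |k| + |B| + 1 ≤ |(|k| + |B| + 1) * d| := by
    rw [abs_mul, abs_of_nonneg (by positivity : (0 : ℤ) ≤ |k| + |B| + 1)]
    have h8 : 1 ≤ |d| := Int.one_le_abs hd
    nlinarith [abs_nonneg k, abs_nonneg B]
  have h8 := le_abs_self B
  linarith

theorem ys3d_torsion [Algebra ℂ R] (m : ℤ) (v : Matrix I I R) (hm : m ≠ 0) (hv : m • v = 0) :
    v = 0 := by
  have h1 : (m : ℂ) • v = 0 := by
    rw [← hv]
    exact Int.cast_smul_eq_zsmul ℂ m v
  have h2 : (m : ℂ) ≠ 0 := Int.cast_ne_zero.2 hm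
  exact (smul_eq_zero_iff_right h2).1 h1 |> fun h => h

end ys3d

/-- YS3d.  Uniqueness (cf. MTX_K4.lean `uniq`).  Work in `gl = Matrix I I R`, graded by `h a - h c`, with
the `sl₂`-action of `ad e`, `ad f`; `sl2_inj` for `V = Matrix I I R`.  (1) `Z` commutes with `f`, so its
components of degree `m > 0` vanish (`ad e (ad f Z_m) = 0`, `sl2_inj` with `e`, `f` exchanged); the same for
`Z'`.  (2) Let `U = 1 + N`, `N ≠ 0`, `j ≥ 1` minimal with `N_{-j} ≠ 0`.
The equation gives `e N - N e = Z - Z' + N Z - Z' N`; its component of degree `2 - j` is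
`[e, N_{-j}] = (Z - Z')_{2 - j}` (the products have degree `≤ -j`), which commutes with `f`; so
`ad f (ad e N_{-j}) = 0` and `N_{-j} = 0` by `sl2_inj`, contradiction. -/
theorem Gd.uniq {I : Type} [Fintype I] [DecidableEq I] {h : I → ℤ} {e f : Matrix I I ℂ}
    (H : Gd.Sl2 h e f) {R : Type} [CommRing R] [Algebra ℂ R] {U Z Z' : Matrix I I R}
    (hU : Gd.LoD h 1 (U - 1)) (hZ : f.map (algebraMap ℂ R) * Z = Z * f.map (algebraMap ℂ R))
    (hZ' : f.map (algebraMap ℂ R) * Z' = Z' * f.map (algebraMap ℂ R))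
    (hc : U * (e.map (algebraMap ℂ R) + Z) = (e.map (algebraMap ℂ R) + Z') * U) : U = 1 := by
  set eR := e.map (algebraMap ℂ R) with heR
  set fR := f.map (algebraMap ℂ R) with hfR
  have he : ∀ a c, eR a c ≠ 0 → h a = h c + 2 := by
    intro a c hac
    refine H.e_HM a c fun h0 => hac ?_
    rw [heR, Matrix.map_apply, h0, map_zero]
  have hf : ∀ a c, fR a c ≠ 0 → h a = h c + (-2) := by
    intro a c hac
    refine H.f_HM a c fun h0 => hac ?_
    rw [hfR, Matrix.map_apply, h0, map_zero]
  have hef : eR * fR - fR * eR = Matrix.diagonal fun a => ((h a : ℤ) : R) := by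
    have h1 : (e * f - f * e).map (algebraMap ℂ R) =
        (Matrix.diagonal fun a => ((h a : ℤ) : ℂ)).map (algebraMap ℂ R) := by rw [H.ef]
    rw [Matrix.map_sub _ (fun a b => map_sub _ a b), Matrix.map_mul, Matrix.map_mul] at h1
    rw [heR, hfR, h1]
    rw [Matrix.diagonal_map (map_zero _)]
    congr 1
    funext a
    exact map_intCast _ _
  -- the commutator relation
  have hEF : ∀ (k : ℤ) (v : Matrix I I R), ys3d_P h k v →
      ys3d_ad eR (ys3d_ad fR v) = ys3d_ad fR (ys3d_ad eR v) + k • v := by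
    intro k v hv
    have h1 : ys3d_ad eR (ys3d_ad fR v) - ys3d_ad fR (ys3d_ad eR v) =
        (eR * fR - fR * eR) * v - v * (eR * fR - fR * eR) := by
      show eR * (fR * v - v * fR) - (fR * v - v * fR) * eR -
        (fR * (eR * v - v * eR) - (eR * v - v * eR) * fR) = _
      simp only [mul_sub, sub_mul, mul_assoc]
      abel
    have h2 : (eR * fR - fR * eR) * v - v * (eR * fR - fR * eR) = k • v := by
      rw [hef]
      funext a c
      rw [Matrix.sub_apply, Matrix.diagonal_mul, Matrix.mul_diagonal, Matrix.smul_apply,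
        zsmul_eq_mul]
      by_cases h3 : v a c = 0
      · rw [h3]; ring
      · rw [← hv a c h3]
        push_cast
        ring
    rw [← h2, ← h1]
    abel
  have hF1 : ∀ (k : ℤ) (v : Matrix I I R), ys3d_P h k v → ys3d_P h (k - 2) (ys3d_ad fR v) := by
    intro k v hv
    have := ys3d_P_ad h hf hv
    rwa [← sub_eq_add_neg] at this
  have hE1 : ∀ (k : ℤ) (v : Matrix I I R), ys3d_P h (-k) v →
      ys3d_P h (-(k - 2)) (ys3d_ad eR v) := by
    intro k v hv
    have := ys3d_P_ad h he hv
    have h2 : -(k - 2) = -k + 2 := by ring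
    rw [h2]
    exact this
  -- the kernel of `ad f` lies in nonpositive degrees
  have hker : ∀ Y : Matrix I I R, fR * Y = Y * fR → ∀ a c, Y a c ≠ 0 → h a ≤ h c := by
    intro Y hY a c hac
    by_contra hcon
    obtain ⟨m, hm⟩ : ∃ m, m = h a - h c := ⟨_, rfl⟩
    have hP : ys3d_P h (-(-m)) (ys3d_cm h m Y) := by
      rw [neg_neg]
      exact ys3d_P_cm h m Y
    have h0 : ys3d_ad fR Y = 0 := by
      show fR * Y - Y * fR = 0
      rw [hY, sub_self]
    have h1 : ys3d_ad fR (ys3d_cm h m Y) = 0 := by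
      rw [← ys3d_ad_cm h hf, h0]
      funext a c
      unfold ys3d_cm
      split_ifs <;> rfl
    obtain ⟨N, hN⟩ := ys3d_nil h (by norm_num : (2 : ℤ) ≠ 0) he hP
    have h2 := Gd.sl2_inj ys3d_torsion (ys3d_ad fR) (ys3d_ad eR)
      (fun k v => ys3d_P h (-k) v) hE1 (fun k v hv => by
        have h3 := hEF (-k) v hv
        rw [h3, neg_smul]
        abel) (k := -m) (by omega) hP (by rw [h1, map_zero]) N hN
    apply hac
    have h3 := congrFun (congrFun h2 a) c
    unfold ys3d_cm at h3
    rw [if_pos hm.symm] at h3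
    exact h3
  obtain ⟨E, hE⟩ : ∃ E, E = U - 1 := ⟨_, rfl⟩
  have hUE : U = 1 + E := by rw [hE]; abel
  have heq : ys3d_ad eR E = Z - Z' + (E * Z - Z' * E) := by
    show eR * E - E * eR = _
    rw [hUE, add_mul, one_mul, mul_add, mul_add, mul_one, add_mul] at hc
    have h1 : eR + Z + (E * eR + E * Z) - (eR + Z' + E * eR + Z' * E) =
        eR + Z' + (eR * E + Z' * E) - (eR + Z' + E * eR + Z' * E) := by rw [hc]
    have h2 : eR + Z + (E * eR + E * Z) - (eR + Z' + E * eR + Z' * E) =
        Z - Z' + (E * Z - Z' * E) := by abel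
    have h3 : eR + Z' + (eR * E + Z' * E) - (eR + Z' + E * eR + Z' * E) =
        eR * E - E * eR := by abel
    rw [h2, h3] at h1
    exact h1.symm
  have key : ∀ d : ℕ, Gd.LoD h (d + 1) E := by
    intro d
    induction d with
    | zero =>
      rw [hE]
      simpa using hU
    | succ d ih =>
      obtain ⟨j, hj⟩ : ∃ j : ℤ, j = d + 1 := ⟨_, rfl⟩
      rw [← hj] at ih
      have hj1 : 1 ≤ j := by omega
      have hP := ys3d_P_cm h (-j) E
      have h1 : ys3d_ad eR (ys3d_cm h (-j) E) = ys3d_cm h (-j + 2) (Z - Z') := by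
        rw [← ys3d_ad_cm h he, heq, ys3d_add]
        have h2 : ys3d_cm h (-j + 2) (E * Z - Z' * E) = 0 := by
          funext a c
          unfold ys3d_cm
          split_ifs with h3
          · rw [Matrix.sub_apply, Matrix.zero_apply]
            have h4 : (E * Z) a c = 0 := by
              rw [Matrix.mul_apply]
              refine Finset.sum_eq_zero fun b _ => ?_
              by_contra hne
              have h5 := ih a b (left_ne_zero_of_mul hne)
              have h6 := hker Z hZ b c (right_ne_zero_of_mul hne)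
              omega
            have h5 : (Z' * E) a c = 0 := by
              rw [Matrix.mul_apply]
              refine Finset.sum_eq_zero fun b _ => ?_
              by_contra hne
              have h5 := ih b c (right_ne_zero_of_mul hne)
              have h6 := hker Z' hZ' a b (left_ne_zero_of_mul hne)
              omega
            rw [h4, h5, sub_zero]
          · rfl
        rw [h2, add_zero]
      have h2 : ys3d_ad fR (ys3d_ad eR (ys3d_cm h (-j) E)) = 0 := by
        rw [h1, ← ys3d_ad_cm h hf]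
        have h3 : ys3d_ad fR (Z - Z') = 0 := by
          rw [map_sub]
          show fR * Z - Z * fR - (fR * Z' - Z' * fR) = 0
          rw [hZ, hZ', sub_self, sub_self, sub_self]
        rw [h3]
        funext a c
        unfold ys3d_cm
        split_ifs <;> rfl
      obtain ⟨N, hN⟩ := ys3d_nil h (by norm_num : (-2 : ℤ) ≠ 0) hf hP
      have h3 := Gd.sl2_inj ys3d_torsion (ys3d_ad eR) (ys3d_ad fR) (fun k v => ys3d_P h k v)
        hF1 hEF (k := -j) (by omega) hP h2 N hN
      intro a c hac
      have h4 := ih a c hac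
      by_contra hcon
      push_cast at hcon
      apply hac
      have h5 := congrFun (congrFun h3 a) c
      unfold ys3d_cm at h5
      rw [if_pos (by omega)] at h5
      exact h5
  obtain ⟨B, hB⟩ := ys3d_bound h
  have h0 : E = 0 := by
    funext a c
    by_contra hne
    have h1 := key (|B|).toNat a c hne
    have h2 := hB a c
    have h3 : ((|B|).toNat : ℤ) = |B| := Int.toNat_of_nonneg (abs_nonneg B)
    rw [h3] at h1
    have h4 := le_abs_self B
    have h5 := abs_le.1 h2
    omega
  rw [hUE, h0, add_zero]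

end Pool.Agent.MTG
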