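import Pool.Agent.MTG.YS1b
import Pool.Agent.MTG.YS3b

/-! # MTG-YS : the Kostant slice -/

namespace Pool.Agent.MTG

open Pool.Agent.MTF Matrix
open Pool.Agent.MTD (ev)
open Pool.Agent.MTX.SLD (AA fm0)
open Pool.Agent.MTH

/-- the linear algebra of the step -/
theorem ys4a_gen {I : Type} [Fintype I] [DecidableEq I] {h : I → ℤ} {e f : Matrix I I ℂ}
    (H : Gd.Sl2 h e f) {R : Type} [CommRing R] [Algebra ℂ R] {m : ℤ} (y : I → R)
    (hfy : ∀ a, (f.map (algebraMap ℂ R)).mulVec y a ≠ 0 → h a ≤ -(m + 2)) :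
    ∃ Y : I → R, (∀ a, Y a ≠ 0 → h a = -(m + 2)) ∧ ∀ a, (f.map (algebraMap ℂ R)).mulVec
      (y - (e.map (algebraMap ℂ R)).mulVec Y) a ≠ 0 → h a ≤ -(m + 3) := by
  classical
  obtain ⟨r, hr, hfr, -, -⟩ := Gd.exists_section H
  have hfer : f * e * r = f := by
    rw [mul_sub, mul_one, sub_eq_zero] at hfr
    rw [mul_assoc]
    exact hfr.symm
  have hmap : ∀ A B : Matrix I I ℂ, (A * B).map (algebraMap ℂ R) =
      A.map (algebraMap ℂ R) * B.map (algebraMap ℂ R) := fun A B => Matrix.map_mul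
  have hsupp : ∀ (A : Matrix I I ℂ) (z : I → R) (a : I), (A.map (algebraMap ℂ R)).mulVec z a ≠ 0 →
      ∃ c, A a c ≠ 0 ∧ z c ≠ 0 := by
    intro A z a ha
    by_contra hcon
    push Not at hcon
    apply ha
    show ∑ c, algebraMap ℂ R (A a c) * z c = 0
    refine Finset.sum_eq_zero fun c _ => ?_
    by_cases hc : A a c = 0
    · rw [hc, map_zero, zero_mul]
    · rw [hcon c hc, mul_zero]
  refine ⟨(r.map (algebraMap ℂ R)).mulVec (Gd.ct h (-m) y), fun a ha => ?_, fun a ha => ?_⟩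
  · obtain ⟨c, hc1, hc2⟩ := hsupp _ _ _ ha
    have h1 := hr a c hc1
    have h2 : h c = -m := by
      by_contra h3
      exact hc2 (if_neg h3)
    omega
  · have h1 : (f.map (algebraMap ℂ R)).mulVec (y - (e.map (algebraMap ℂ R)).mulVec
        ((r.map (algebraMap ℂ R)).mulVec (Gd.ct h (-m) y))) =
        (f.map (algebraMap ℂ R)).mulVec (y - Gd.ct h (-m) y) := by
      rw [Matrix.mulVec_sub, Matrix.mulVec_sub, Matrix.mulVec_mulVec, Matrix.mulVec_mulVec,
        ← hmap, ← hmap, hfer]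
    rw [h1] at ha
    obtain ⟨c, hc1, hc2⟩ := hsupp _ _ _ ha
    have h2 := H.f_HM a c hc1
    have h3 : h c ≠ -m := by
      intro h4
      apply hc2
      show y c - (if h c = -m then y c else 0) = 0
      rw [if_pos h4, sub_self]
    by_cases h5 : (f.map (algebraMap ℂ R)).mulVec y a = 0
    · rw [Matrix.mulVec_sub, Pi.sub_apply, h5, zero_sub, neg_ne_zero] at ha
      obtain ⟨d, hd1, hd2⟩ := hsupp _ _ _ ha
      have h6 := H.f_HM a d hd1
      have h7 : h d = -m := by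
        by_contra h8
        exact hd2 (if_neg h8)
      omega
    · have h6 := hfy a h5
      omega

theorem ys4a_Sp {n : ℕ} {D : RD n} {R : Type} [CommRing R] {s m : ℤ} {z : LR D R} :
    Sp s m z ↔ ∀ a, z a ≠ 0 → m ≤ s * D.ht2 (wA (D := D) a) := by
  have h0 : D.ht2 0 = 0 := by
    have h1 := D.ht2_smul 0 0
    rw [zero_smul, zero_mul] at h1
    exact h1
  constructor
  · rintro ⟨h1, h2⟩ (k | γ) ha
    · have h3 := h1 k ha
      show m ≤ s * D.ht2 0
      rw [h0, mul_zero]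
      exact h3
    · exact h2 γ ha
  · intro h
    refine ⟨fun k hk => ?_, fun γ hγ => h (Sum.inr γ) hγ⟩
    have h3 : m ≤ s * D.ht2 0 := h (Sum.inl k) hk
    rw [h0, mul_zero] at h3
    exact h3

open Classical in
theorem ys4a_ee {G : AffGrp} {n : ℕ} {D : RD n} (C : CD G D) {R : Type} [CommRing R]
    [Algebra ℂ R] : (C.dm (AdR C) (CD.ee D ℂ)).map (algebraMap ℂ R) = C.dm (AdR C) (CD.ee D R) := by
  have h := C.dm_map (Algebra.ofId ℂ R) (AdR C) (CD.ee D ℂ)
  have h2 : (fun j => Algebra.ofId ℂ R (CD.ee D ℂ j)) = CD.ee D R := by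
    funext j
    rcases j with k | γ
    · exact map_zero _
    · show Algebra.ofId ℂ R (if D.Sim γ then 1 else 0) = if D.Sim γ then 1 else 0
      split_ifs
      · exact map_one _
      · exact map_zero _
  rw [h2] at h
  exact h

open Classical in
theorem ys4a_ff {G : AffGrp} {n : ℕ} {D : RD n} (C : CD G D) {R : Type} [CommRing R]
    [Algebra ℂ R] : (C.dm (AdR C) (CD.ff D ℂ)).map (algebraMap ℂ R) = C.dm (AdR C) (CD.ff D R) := by
  have h := C.dm_map (Algebra.ofId ℂ R) (AdR C) (CD.ff D ℂ)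
  have h2 : (fun j => Algebra.ofId ℂ R (CD.ff D ℂ j)) = CD.ff D R := by
    funext j
    rcases j with k | γ
    · exact map_zero _
    · show Algebra.ofId ℂ R (if h : D.Sim (D.ng γ) then algebraMap ℂ ℂ (D.rr ⟨D.ng γ, h⟩) else 0) =
        if h : D.Sim (D.ng γ) then algebraMap ℂ R (D.rr ⟨D.ng γ, h⟩) else 0
      split_ifs
      · rfl
      · exact map_zero _
  rw [h2] at h
  exact h

theorem ys4a_Spee {n : ℕ} (D : RD n) (R : Type) [CommRing R] : Sp (-1) (-2) (CD.ee D R) := by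
  refine ⟨fun k hk => by norm_num, fun γ hγ => ?_⟩
  have h1 : D.Sim γ := by
    by_contra h
    exact hγ (if_neg h)
  have h2 := D.ht2_sim ⟨γ, h1⟩
  rw [h2]
  norm_num

theorem ys4a_Spff {n : ℕ} (D : RD n) (R : Type) [CommRing R] [Algebra ℂ R] :
    Sp (-1) 2 (CD.ff D R) := by
  refine ⟨fun k hk => absurd rfl hk, fun γ hγ => ?_⟩
  have h1 : D.Sim (D.ng γ) := by
    by_contra h
    exact hγ (dif_neg h)
  have h2 := D.ht2_sim ⟨D.ng γ, h1⟩
  have h3 := D.ht2_smul (-1) γ.1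
  have h4 : (-1 : ℤ) • γ.1 = (D.ng γ).1 := by rw [neg_one_smul]; rfl
  rw [h4] at h3
  rw [← h3]
  exact h2.ge

theorem ys4a_br_add {G : AffGrp} {n : ℕ} {D : RD n} (C : CD G D) {R : Type} [CommRing R]
    [Algebra ℂ R] (z x y : LR D R) : C.br z (x + y) = C.br z x + C.br z y := by
  rw [← dm_AdR, ← dm_AdR, ← dm_AdR]
  exact Matrix.mulVec_add _ _ _

/-- YS4a.  One step of the construction of the slice.
Let `H := CD.sl2 C (isW_AdR C)` (the adjoint representation, heights `h j = ht2 (wA j)`), `r` the section of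
`Gd.exists_section H` (`r` lowers the height by `2`, `f (1 - e r) = 0`), `R`-valued via `map (algebraMap ℂ R)`.
`ym := ct h (-m) y` the component of height `-m`, `Y := r ym`, of height `-m-2`.  Then
`[f, [Y, e]] = - f e r ym = - f ym` (`dm_AdR`, `dm_map` for the matrices of `e`, `f`), `[f, y] ≡ [f, ym]` up to
`Sp (-1) (m+3)` (by `h` all components of `[f, y]` of height `> -m-2` vanish, and the one of height `-m-2` is `[f, ym]`).
`Adp_ex` with `z' = ee` (`Sp (-1) (-2)`): `Ad(exp Y) e = e + [Y, e] + Sp (2 (m+2) - 2)`, `2m + 2 ≥ m + 1`; with `z' = y`: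
`Ad(exp Y) y = y + Sp (m+2)`.  So `y' = y + [Y, e] + Sp (m+1)` and `[f, y'] = [f, y] + [f, [Y, e]] + Sp (m+3) ∈ Sp (m+3)`
(`Sp_br` with `f ∈ Sp (-1) 2`). -/
theorem CD.slice_step {G : AffGrp} {n : ℕ} {D : RD n} (C : CD G D) {R : Type} [CommRing R]
    [Algebra ℂ R] {m : ℤ} (hm : 0 ≤ m) {y : LR D R} (hy : Sp (-1) 0 y)
    (h : Sp (-1) (m + 2) (C.br (CD.ff D R) y)) :
    ∃ Y : LR D R, Sp (-1) (m + 2) Y ∧ ∃ y' : LR D R, Sp (-1) 0 y' ∧
      Adp C (ex C Y) (CD.ee D R + y) = CD.ee D R + y' ∧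
      Sp (-1) (m + 3) (C.br (CD.ff D R) y') := by
  classical
  have H := C.sl2 (isW_AdR C)
  have hf : ∀ z : LR D R, ((C.dm (AdR C) (CD.ff D ℂ)).map (algebraMap ℂ R)).mulVec z =
      C.br (CD.ff D R) z := by
    intro z
    rw [ys4a_ff]
    exact dm_AdR C _ _
  have he : ∀ z : LR D R, ((C.dm (AdR C) (CD.ee D ℂ)).map (algebraMap ℂ R)).mulVec z =
      C.br (CD.ee D R) z := by
    intro z
    rw [ys4a_ee]
    exact dm_AdR C _ _
  obtain ⟨Y, hY1, hY2⟩ := ys4a_gen H (R := R) (m := m) y (fun a ha => by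
    have h1 : C.br (CD.ff D R) y a ≠ 0 := by
      rw [← hf]
      exact ha
    have h2 := ys4a_Sp.1 h a h1
    linarith)
  have hYS : Sp (-1) (m + 2) (Y : LR D R) := ys4a_Sp.2 fun a ha => by
    have h2 := hY1 a ha
    linarith
  have hYe : C.br Y (CD.ee D R) = - C.br (CD.ee D R) Y := br_neg C _ _
  have h1 : Sp (-1) (m + 3) (C.br (CD.ff D R) (y + C.br Y (CD.ee D R))) := by
    refine ys4a_Sp.2 fun a ha => ?_
    rw [hYe, ← he, ← sub_eq_add_neg, ← hf] at ha
    have h2 := hY2 a ha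
    linarith
  have e1 := Adp_ex C (by omega) hYS (ys4a_Spee D R)
  have e2 := Adp_ex C (by omega) hYS hy
  have e3 := Sp_br C hYS hy
  have e4 := Sp_br C hYS (ys4a_Spee D R)
  refine ⟨Y, hYS, Adp C (ex C Y) (CD.ee D R + y) - CD.ee D R, ?_, by rw [add_sub_cancel], ?_⟩
  all_goals
    obtain ⟨ρ, hρ, hρ'⟩ : ∃ ρ : LR D R, Sp (-1) (m + 1) ρ ∧
        Adp C (ex C Y) (CD.ee D R + y) - CD.ee D R = (y + C.br Y (CD.ee D R)) + ρ := by
      refine ⟨(Adp C (ex C Y) (CD.ee D R) - CD.ee D R - C.br Y (CD.ee D R)) +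
        ((Adp C (ex C Y) y - y - C.br Y y) + C.br Y y),
        Sp_add (Sp_mono (by omega) e1) (Sp_add (Sp_mono (by omega) e2) (Sp_mono (by omega) e3)), ?_⟩
      rw [Adp_add]
      abel
    rw [hρ']
  · exact Sp_add (Sp_add hy (Sp_mono (by omega) e4)) (Sp_mono (by omega) hρ)
  · rw [ys4a_br_add]
    exact Sp_add h1 (Sp_mono (by omega) (Sp_br C (ys4a_Spff D R) hρ))

end Pool.Agent.MTG
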