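import Pool.Agent.MTG.YS4a

/-! # MTG-YS : the Kostant slice -/

namespace Pool.Agent.MTG

open Pool.Agent.MTF Matrix
open Pool.Agent.MTD (ev)
open Pool.Agent.MTX.SLD (AA fm0)
open Pool.Agent.MTH

theorem ys4b_ff {n : ℕ} {D : RD n} {R : Type} [CommRing R] [Algebra ℂ R] :
    Sp (-1) 2 (CD.ff D R) := by
  refine ⟨fun k hk => absurd rfl hk, fun γ hγ => ?_⟩
  have h1 : D.Sim (D.ng γ) := by
    by_contra hcon
    refine hγ ?_
    unfold CD.ff
    exact dif_neg hcon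
  have h2 : D.ht2 (D.ng γ).1 = 2 := D.ht2_sim ⟨D.ng γ, h1⟩
  have h3 : D.ht2 (D.ng γ).1 = - D.ht2 γ.1 := by
    rw [D.ng_val]
    have h4 := D.ht2_smul (-1) γ.1
    rw [neg_one_smul] at h4
    rw [h4]
    ring
  rw [h3] at h2
  linarith

theorem ys4b_ind {G : AffGrp} {n : ℕ} {D : RD n} (C : CD G D) {R : Type} [CommRing R]
    [Algebra ℂ R] {y : LR D R} (hy : Sp (-1) 0 y) (k : ℕ) :
    ∃ (φ : G.Pt R) (z : LR D R), UU C (-1) φ ∧ Sp (-1) 0 z ∧
      Sp (-1) ((k : ℤ) + 2) (C.br (CD.ff D R) z) ∧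
      Adp C φ (CD.ee D R + y) = CD.ee D R + z := by
  induction k with
  | zero =>
    refine ⟨1, y, UU_one C, hy, ?_, Adp_one C _⟩
    exact Sp_mono (by norm_num) (Sp_br C ys4b_ff hy)
  | succ k ih =>
    obtain ⟨φ, z, hφ, hz, hb, he⟩ := ih
    obtain ⟨Y, hY, y', hy', he', hb'⟩ := C.slice_step (Int.natCast_nonneg k) hz hb
    refine ⟨ex C Y * φ, y', UU_mul C (UU_ex C (Sp_mono (by omega) hY)) hφ, hy', ?_, ?_⟩
    · exact Sp_mono (by push_cast; omega) hb'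
    · rw [Adp_mul, he, he']

/-- YS4b.  Every element `e + y`, `y` of non-positive height, is conjugate under `U⁻` to an element of the slice
`e + ker ad f`.  Induction with `slice_step` (start: `m = 0`, `[f, y] ∈ Sp (-1) 2` by `Sp_br`) up to the bound of
`exists_Sp_zero` (`s = -1`); the conjugating point is a product of `ex C Y`s, `UU_ex` (`Sp_mono`), `UU_mul`, `Adp_mul`. -/
theorem CD.slice_exists {G : AffGrp} {n : ℕ} {D : RD n} (C : CD G D) {R : Type} [CommRing R]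
    [Algebra ℂ R] {y : LR D R} (hy : Sp (-1) 0 y) :
    ∃ (φ : G.Pt R) (z : LR D R), UU C (-1) φ ∧ Sp (-1) 0 z ∧ C.br (CD.ff D R) z = 0 ∧
      Adp C φ (CD.ee D R + y) = CD.ee D R + z := by
  obtain ⟨M, hM⟩ := exists_Sp_zero D
  obtain ⟨φ, z, hφ, hz, hb, he⟩ := ys4b_ind C hy M.toNat
  refine ⟨φ, z, hφ, hz, hM R (-1) (Or.inr rfl) _ (Sp_mono ?_ hb), he⟩
  omega

end Pool.Agent.MTG
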