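import Pool.Agent.MTG.YS1b
import Pool.Agent.MTG.YS3d

/-! # MTG-YS : the Kostant slice -/

namespace Pool.Agent.MTG

open Pool.Agent.MTF Matrix
open Pool.Agent.MTD (ev)
open Pool.Agent.MTX.SLD (AA fm0)
open Pool.Agent.MTH

theorem ys4c_ee {G : AffGrp} {n : ℕ} {D : RD n} (C : CD G D) {R : Type} [CommRing R]
    [Algebra ℂ R] (E : MTF.Rep G) :
    (C.dm E (CD.ee D ℂ)).map (algebraMap ℂ R) = C.dm E (CD.ee D R) := by
  classical
  have h := C.dm_map (Algebra.ofId ℂ R) E (CD.ee D ℂ)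
  have h2 : (fun j => Algebra.ofId ℂ R (CD.ee D ℂ j)) = CD.ee D R := by
    funext j
    rcases j with k | γ
    · exact map_zero (Algebra.ofId ℂ R)
    · show Algebra.ofId ℂ R (if D.Sim γ then 1 else 0) = if D.Sim γ then 1 else 0
      split_ifs
      · exact map_one (Algebra.ofId ℂ R)
      · exact map_zero (Algebra.ofId ℂ R)
  rw [h2] at h
  exact h

theorem ys4c_ff {G : AffGrp} {n : ℕ} {D : RD n} (C : CD G D) {R : Type} [CommRing R]
    [Algebra ℂ R] (E : MTF.Rep G) :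
    (C.dm E (CD.ff D ℂ)).map (algebraMap ℂ R) = C.dm E (CD.ff D R) := by
  classical
  have h := C.dm_map (Algebra.ofId ℂ R) E (CD.ff D ℂ)
  have h2 : (fun j => Algebra.ofId ℂ R (CD.ff D ℂ j)) = CD.ff D R := by
    funext j
    rcases j with k | γ
    · exact map_zero (Algebra.ofId ℂ R)
    · show Algebra.ofId ℂ R (if h : D.Sim (D.ng γ) then algebraMap ℂ ℂ (D.rr ⟨D.ng γ, h⟩) else 0) =
        if h : D.Sim (D.ng γ) then algebraMap ℂ R (D.rr ⟨D.ng γ, h⟩) else 0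
      split_ifs
      · rfl
      · exact map_zero (Algebra.ofId ℂ R)
  rw [h2] at h
  exact h

theorem ys4c_comm {G : AffGrp} {n : ℕ} {D : RD n} (C : CD G D) {R : Type} [CommRing R]
    [Algebra ℂ R] {z : LR D R} (hz : C.br (CD.ff D R) z = 0) :
    (C.dm C.F (CD.ff D ℂ)).map (algebraMap ℂ R) * C.dm C.F z =
      C.dm C.F z * (C.dm C.F (CD.ff D ℂ)).map (algebraMap ℂ R) := by
  rw [ys4c_ff]
  have h := C.dm_br C.F (CD.ff D R) z
  rw [hz, CD.dm_zero] at h
  exact (sub_eq_zero.1 h.symm)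

/-- YS4c.  Uniqueness of the slice element.  `Gd.uniq (CD.sl2 C C.isW_F)` with `U = C.F.pt φ` (`UU C (-1) φ` says
`LoD 1 (U - 1)` for the heights `ht2 (wt a)`), `Z = C.dm C.F z`, `Z' = C.dm C.F z'`: they commute with the matrix of `f`
by `dm_br` (`C.dm C.F (br f z) = 0`; the matrix of `ff D R` is the image of that of `ff D ℂ`: `dm_map`), and
`U (e + Z) = (e + Z') U` is `pt_dm` with `h`.  So `U = 1`, `φ = 1` (`pt_injective`, `C.faith`), then `z = z'` (`Adp_one`). -/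
theorem CD.slice_uniq {G : AffGrp} {n : ℕ} {D : RD n} (C : CD G D) {R : Type} [CommRing R]
    [Algebra ℂ R] {φ : G.Pt R} {z z' : LR D R} (hφ : UU C (-1) φ)
    (hz : C.br (CD.ff D R) z = 0) (hz' : C.br (CD.ff D R) z' = 0)
    (h : Adp C φ (CD.ee D R + z) = CD.ee D R + z') : φ = 1 ∧ z = z' := by
  have hU : C.F.pt φ = 1 := by
    refine Gd.uniq (CD.sl2 C C.isW_F) (Z := C.dm C.F z) (Z' := C.dm C.F z') ?_ (ys4c_comm C hz)
      (ys4c_comm C hz') ?_
    · intro a c hac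
      have := hφ a c hac
      show D.ht2 (C.wt a) + 1 ≤ D.ht2 (C.wt c)
      linarith
    · rw [ys4c_ee, ← C.dm_add, ← C.dm_add, pt_dm, h]
  have h1 : φ = 1 := by
    apply Rep.pt_injective C.F C.faith
    rw [hU, Rep.pt_one]
  refine ⟨h1, ?_⟩
  rw [h1, Adp_one] at h
  exact add_left_cancel h

end Pool.Agent.MTG
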