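import Pool.Agent.MTG.YS4b
import Pool.Agent.MTG.YS4c

/-! # MTG-YS : the Kostant slice -/

namespace Pool.Agent.MTG

open Pool.Agent.MTF Matrix
open Pool.Agent.MTD (ev)
open Pool.Agent.MTX.SLD (AA fm0)
open Pool.Agent.MTH

namespace CD

variable {G : AffGrp} {n : ℕ} {D : RD n} (C : CD G D)

theorem Sp_hx {R : Type} [CommRing R] (x : Fin n → R) : Sp (-1) 0 (hx x : LR D R) :=
  ⟨fun _ _ => le_rfl, fun _ h => absurd rfl h⟩

/-- the universal conjugator `px` -/
noncomputable def px : G.Pt (AA n) :=
  (C.slice_exists (Sp_hx (D := D) (MvPolynomial.X : Fin n → AA n))).choose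

/-- `sx - e` -/
noncomputable def sz : LR D (AA n) :=
  (C.slice_exists (Sp_hx (D := D) (MvPolynomial.X : Fin n → AA n))).choose_spec.choose

/-- the universal slice element `sx = Ad_px (e + X)` -/
noncomputable def sx : LR D (AA n) := ee D (AA n) + C.sz

theorem px_UU : UU C (-1) C.px :=
  (C.slice_exists (Sp_hx (D := D) (MvPolynomial.X : Fin n → AA n))).choose_spec.choose_spec.1

theorem sz_Sp : Sp (-1) 0 C.sz :=
  (C.slice_exists (Sp_hx (D := D) (MvPolynomial.X : Fin n → AA n))).choose_spec.choose_spec.2.1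

theorem sz_br : C.br (ff D (AA n)) C.sz = 0 :=
  (C.slice_exists (Sp_hx (D := D) (MvPolynomial.X : Fin n → AA n))).choose_spec.choose_spec.2.2.1

theorem px_conj : Adp C C.px (ee D (AA n) + hx MvPolynomial.X) = C.sx :=
  (C.slice_exists (Sp_hx (D := D) (MvPolynomial.X : Fin n → AA n))).choose_spec.choose_spec.2.2.2

variable {R : Type} [CommRing R] [Algebra ℂ R]

/-- the value of `px` at `x ∈ R^n` -/
noncomputable def pxR (x : Fin n → R) : G.Pt R := C.px.map (MvPolynomial.aeval x)

/-- the value of `sz` at `x` -/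
noncomputable def szR (x : Fin n → R) : LR D R := fun j => MvPolynomial.aeval x (C.sz j)

/-- the value of `sx` at `x` -/
noncomputable def sxR (x : Fin n → R) : LR D R := fun j => MvPolynomial.aeval x (C.sx j)

end CD

end Pool.Agent.MTG
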