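import Pool.Agent.MTG.YS5

/-! # MTG-YS : the Kostant slice -/

namespace Pool.Agent.MTG

open Pool.Agent.MTF Matrix
open Pool.Agent.MTD (ev)
open Pool.Agent.MTX.SLD (AA fm0)
open Pool.Agent.MTH

/-- YS5a.  Change of coefficients: `ee`, `ff`, `hx`, `br` commute with `σ : R →ₐ[ℂ] R'` (entrywise), and the values of
`px`, `sz`, `sx`.  `UU_map`, `Adp_map`. -/
theorem CD.ee_map {n : ℕ} {D : RD n} {R R' : Type} [CommRing R] [CommRing R'] (σ : R →+* R') :
    (fun j => σ (CD.ee D R j)) = CD.ee D R' := by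
  funext j
  unfold CD.ee CD.ez
  cases j with
  | inl k => exact map_zero σ
  | inr γ =>
    simp only [Sum.elim_inr]
    by_cases h : D.Sim γ
    · rw [if_pos h, if_pos h, map_one]
    · rw [if_neg h, if_neg h, map_zero]

theorem CD.ff_map {n : ℕ} {D : RD n} {R R' : Type} [CommRing R] [Algebra ℂ R] [CommRing R']
    [Algebra ℂ R'] (σ : R →ₐ[ℂ] R') : (fun j => σ (CD.ff D R j)) = CD.ff D R' := by
  funext j
  unfold CD.ff CD.ez
  cases j with
  | inl k => exact map_zero σ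
  | inr γ =>
    simp only [Sum.elim_inr]
    by_cases h : D.Sim (D.ng γ)
    · rw [dif_pos h, dif_pos h, σ.commutes]
    · rw [dif_neg h, dif_neg h, map_zero]

theorem CD.hx_map {n : ℕ} {D : RD n} {R R' : Type} [CommRing R] [CommRing R'] (σ : R →+* R')
    (x : Fin n → R) : (fun j => σ (CD.hx (D := D) x j)) = CD.hx fun k => σ (x k) := by
  funext j
  cases j with
  | inl k => rfl
  | inr γ => exact map_zero σ

theorem CD.br_map {G : AffGrp} {n : ℕ} {D : RD n} (C : CD G D) {R R' : Type} [CommRing R]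
    [Algebra ℂ R] [CommRing R'] [Algebra ℂ R'] (σ : R →ₐ[ℂ] R') (z z' : LR D R) :
    (fun j => σ (C.br z z' j)) = C.br (fun j => σ (z j)) (fun j => σ (z' j)) := by
  funext j
  unfold CD.br
  rw [map_sum]
  refine Finset.sum_congr rfl fun i _ => ?_
  rw [map_sum]
  refine Finset.sum_congr rfl fun k _ => ?_
  rw [map_mul, map_mul, σ.commutes]

theorem CD.sxR_eq {G : AffGrp} {n : ℕ} {D : RD n} (C : CD G D) {R : Type} [CommRing R]
    [Algebra ℂ R] (x : Fin n → R) : C.sxR x = CD.ee D R + C.szR x := by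
  funext j
  show MvPolynomial.aeval x (CD.ee D (AA n) j + C.sz j) = CD.ee D R j + MvPolynomial.aeval x (C.sz j)
  rw [map_add]
  congr 1
  exact congrFun (CD.ee_map (D := D) (MvPolynomial.aeval x : AA n →ₐ[ℂ] R).toRingHom) j

theorem CD.pxR_UU {G : AffGrp} {n : ℕ} {D : RD n} (C : CD G D) {R : Type} [CommRing R]
    [Algebra ℂ R] (x : Fin n → R) : UU C (-1) (C.pxR x) := by
  exact UU_map C (MvPolynomial.aeval x) C.px_UU

theorem CD.szR_br {G : AffGrp} {n : ℕ} {D : RD n} (C : CD G D) {R : Type} [CommRing R]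
    [Algebra ℂ R] (x : Fin n → R) : C.br (CD.ff D R) (C.szR x) = 0 := by
  have h1 := CD.br_map C (MvPolynomial.aeval x : AA n →ₐ[ℂ] R) (CD.ff D (AA n)) C.sz
  rw [CD.ff_map, C.sz_br] at h1
  refine h1.symm.trans ?_
  funext j
  exact map_zero _

theorem CD.pxR_conj {G : AffGrp} {n : ℕ} {D : RD n} (C : CD G D) {R : Type} [CommRing R]
    [Algebra ℂ R] (x : Fin n → R) : Adp C (C.pxR x) (CD.ee D R + CD.hx x) = C.sxR x := by
  have h1 := Adp_map C (MvPolynomial.aeval x : AA n →ₐ[ℂ] R) C.px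
    (CD.ee D (AA n) + CD.hx MvPolynomial.X)
  rw [C.px_conj] at h1
  have h2 : (fun j => (MvPolynomial.aeval x : AA n →ₐ[ℂ] R)
      ((CD.ee D (AA n) + CD.hx MvPolynomial.X : LR D (AA n)) j)) = CD.ee D R + CD.hx x := by
    funext j
    have h3 := congrFun (CD.ee_map (D := D) (MvPolynomial.aeval x : AA n →ₐ[ℂ] R).toRingHom) j
    have h4 := congrFun (CD.hx_map (D := D) (MvPolynomial.aeval x : AA n →ₐ[ℂ] R).toRingHom
      MvPolynomial.X) j
    rw [Pi.add_apply, Pi.add_apply, map_add]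
    refine congrArg₂ (· + ·) h3 (h4.trans ?_)
    congr 1
    funext k
    exact MvPolynomial.aeval_X x k
  rw [h2] at h1
  exact h1.symm

/-- the values in a further algebra -/
theorem CD.sxR_map {G : AffGrp} {n : ℕ} {D : RD n} (C : CD G D) {R R' : Type} [CommRing R]
    [Algebra ℂ R] [CommRing R'] [Algebra ℂ R'] (σ : R →ₐ[ℂ] R') (x : Fin n → R) :
    (fun j => σ (C.sxR x j)) = C.sxR fun k => σ (x k) := by
  funext j
  exact MvPolynomial.comp_aeval_apply x σ (C.sx j)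

theorem CD.pxR_map {G : AffGrp} {n : ℕ} {D : RD n} (C : CD G D) {R R' : Type} [CommRing R]
    [Algebra ℂ R] [CommRing R'] [Algebra ℂ R'] (σ : R →ₐ[ℂ] R') (x : Fin n → R) :
    (C.pxR x).map σ = C.pxR fun k => σ (x k) := by
  apply AffGrp.Pt.ext
  intro f
  exact MvPolynomial.comp_aeval_apply x σ (C.px f)

/-- Characterisation of the slice element and its conjugator: `slice_uniq` for `C.pxR x * φ⁻¹` (`UU_mul`, `UU_inv`,
`Adp_mul`). -/
theorem CD.slice_eq {G : AffGrp} {n : ℕ} {D : RD n} (C : CD G D) {R : Type} [CommRing R]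
    [Algebra ℂ R] {x : Fin n → R} {φ : G.Pt R} {z : LR D R} (hφ : UU C (-1) φ)
    (hz : C.br (CD.ff D R) z = 0) (h : Adp C φ (CD.ee D R + CD.hx x) = CD.ee D R + z) :
    φ = C.pxR x ∧ z = C.szR x := by
  have h1 : UU C (-1) (C.pxR x * φ⁻¹) := UU_mul C (C.pxR_UU x) (UU_inv C hφ)
  have h2 : Adp C (C.pxR x * φ⁻¹) (CD.ee D R + z) = CD.ee D R + C.szR x := by
    rw [Adp_mul, ← h, ← Adp_mul C φ⁻¹ φ, inv_mul_cancel, Adp_one, C.pxR_conj, C.sxR_eq]
  obtain ⟨h3, h4⟩ := C.slice_uniq h1 hz (C.szR_br x) h2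
  exact ⟨(mul_inv_eq_one.1 h3).symm, h4⟩

end Pool.Agent.MTG
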