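import Pool.Agent.MTG.YS5a

/-! # MTG-YS : the Kostant slice -/

namespace Pool.Agent.MTG

open Pool.Agent.MTF Matrix
open Pool.Agent.MTD (ev)
open Pool.Agent.MTX.SLD (AA fm0)
open Pool.Agent.MTH

theorem YS5b_ht2_ng {n : ℕ} (D : RD n) (γ : D.Rt) : D.ht2 (D.ng γ).1 = - D.ht2 γ.1 := by
  have h2 := D.ht2_smul (-1) γ.1
  have h3 : ((-1 : ℤ) • γ.1 : Fin n → ℤ) = (D.ng γ).1 := by
    rw [neg_one_smul]; rfl
  rw [h3] at h2
  rw [h2]
  ring

theorem CD.YS5b_br {G : AffGrp} {n : ℕ} {D : RD n} (C : CD G D) {α β : D.Rt} (h1 : D.Sim α)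
    (h2 : D.Sim β) (h : β ≠ α) : ⁅C.e (D.ng α), C.e β⁆ = 0 := by
  refine C.e_co (D.ng α) β (by rw [D.ng_ng]; exact h) fun μ hμ => ?_
  have e1 : D.ht2 μ.1 = 0 := by
    rw [hμ, D.ht2_add, YS5b_ht2_ng, D.ht2_sim ⟨α, h1⟩, D.ht2_sim ⟨β, h2⟩]
    norm_num
  rcases D.pos_or_neg μ with hp | hp
  · have := (D.ht2_pos hp).1
    omega
  · have e2 := (D.ht2_pos hp).1
    rw [YS5b_ht2_ng] at e2
    omega

/-- if `[z, z'] = 0` then `exp z` fixes `z'` -/
theorem YS5b_fix {G : AffGrp} {n : ℕ} {D : RD n} (C : CD G D) {R : Type} [CommRing R]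
    [Algebra ℂ R] {s : ℤ} {z z' : LR D R} (hz : Sp s 1 z) (hn : Nonempty (Fin n ⊕ D.Rt))
    (h : C.br z z' = 0) : Adp C (ex C z) z' = z' := by
  unfold Adp
  rw [ex_pt C hz (AdR C)]
  unfold mexp
  rw [Matrix.sum_mulVec]
  have h1 : ∀ k : ℕ, (C.dm (AdR C) z ^ (k + 1)).mulVec z' = 0 := by
    intro k
    rw [pow_succ, ← Matrix.mulVec_mulVec, dm_AdR, h]
    exact Matrix.mulVec_zero (C.dm (AdR C) z ^ k)
  have hc : 0 < Fintype.card (AdR C).ι := by
    have : Nonempty (AdR C).ι := hn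
    exact Fintype.card_pos
  rw [Finset.sum_eq_single 0]
  · rw [pow_zero, Matrix.smul_mulVec, Matrix.one_mulVec]
    simp
  · intro k _ hk
    obtain ⟨m, rfl⟩ := Nat.exists_eq_succ_of_ne_zero hk
    rw [Matrix.smul_mulVec, Nat.succ_eq_add_one, h1, smul_zero]
  · intro h0
    exact absurd (Finset.mem_range.2 hc) h0

theorem YS5b_Adp_add {G : AffGrp} {n : ℕ} {D : RD n} (C : CD G D) {R : Type} [CommRing R]
    [Algebra ℂ R] (φ : G.Pt R) (z z' : LR D R) : Adp C φ (z + z') = Adp C φ z + Adp C φ z' :=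
  Matrix.mulVec_add _ _ _

theorem YS5b_Adp_sum {G : AffGrp} {n : ℕ} {D : RD n} (C : CD G D) {R : Type} [CommRing R]
    [Algebra ℂ R] (φ : G.Pt R) {ι : Type} (s : Finset ι) (z : ι → LR D R) :
    Adp C φ (∑ i ∈ s, z i) = ∑ i ∈ s, Adp C φ (z i) :=
  map_sum (Matrix.mulVecLin ((AdR C).pt φ)) z s

theorem YS5b_ee {n : ℕ} (D : RD n) {R : Type} [CommRing R] :
    CD.ee D R = ∑ s : D.SRt, (rv s.1 (1 : R) : LR D R) := by
  classical
  funext j
  rw [Finset.sum_apply]
  rcases j with k | γ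
  · rw [Finset.sum_eq_zero fun s _ => by unfold rv; exact Pi.single_eq_of_ne (by simp) _]
    rfl
  · show (if D.Sim γ then (1 : R) else 0) = _
    by_cases h : D.Sim γ
    · rw [if_pos h, Finset.sum_eq_single (⟨γ, h⟩ : D.SRt)]
      · unfold rv
        exact (Pi.single_eq_same (M := fun _ : Fin n ⊕ D.Rt => R) (Sum.inr γ) (1 : R)).symm
      · intro s _ hs
        unfold rv
        refine Pi.single_eq_of_ne ?_ _
        intro he
        exact hs (Subtype.ext (Sum.inr_injective he).symm)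
      · intro h0
        exact absurd (Finset.mem_univ _) h0
    · rw [if_neg h, Finset.sum_eq_zero]
      intro s _
      unfold rv
      refine Pi.single_eq_of_ne ?_ _
      intro he
      exact h (by rw [Sum.inr_injective he]; exact s.2)

/-- a simple reflection -/
theorem CD.YS5b_step {G : AffGrp} {n : ℕ} {D : RD n} (C : CD G D) {R : Type} [CommRing R]
    [Algebra ℂ R] (α : D.SRt) (x : Fin n → R) : C.sxR (wx (D.rW α.1) x) = C.sxR x := by
  classical
  have hS : ∀ r : R, Sp (-1) 1 (rv (D.ng α.1) r : LR D R) := by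
    intro r
    refine ⟨fun k hk => absurd ?_ hk, fun γ hγ => ?_⟩
    · unfold rv
      exact Pi.single_eq_of_ne (by simp) _
    · by_cases h : γ = D.ng α.1
      · rw [h, YS5b_ht2_ng, D.ht2_sim α]
        norm_num
      · refine absurd ?_ hγ
        unfold rv
        exact Pi.single_eq_of_ne (fun he => h (Sum.inr_injective he)) _
  set r : R := ev α.1.1 x with hr
  set v : G.Pt R := ex C (rv (D.ng α.1) r) with hv
  have hne : Nonempty (Fin n ⊕ D.Rt) := ⟨Sum.inr α.1⟩
  have h1 : ∀ β : D.SRt, β ≠ α → Adp C v (rv β.1 (1 : R)) = rv β.1 (1 : R) := by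
    intro β hβ
    refine YS5b_fix C (hS r) hne ?_
    funext k
    show ∑ i, ∑ j, _ = (0 : R)
    refine Finset.sum_eq_zero fun i _ => Finset.sum_eq_zero fun j _ => ?_
    by_cases hi : i = Sum.inr (D.ng α.1)
    · by_cases hj : j = Sum.inr β.1
      · have e0 : C.sc i j k = 0 := by
          unfold CD.sc
          rw [hi, hj]
          have := C.YS5b_br α.2 β.2 (fun h => hβ (Subtype.ext h))
          have e1 : ⁅C.bs (Sum.inr (D.ng α.1)), C.bs (Sum.inr β.1)⁆ = 0 := this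
          rw [e1, map_zero]
          rfl
        rw [e0, map_zero, mul_zero]
      · have e0 : (rv β.1 (1 : R) : LR D R) j = 0 := by
          unfold rv
          exact Pi.single_eq_of_ne hj _
        rw [e0, mul_zero, zero_mul]
    · have e0 : (rv (D.ng α.1) r : LR D R) i = 0 := by
        unfold rv
        exact Pi.single_eq_of_ne hi _
      rw [e0, zero_mul, zero_mul]
  have h2 : Adp C v (rv α.1 (1 : R)) = rv α.1 1 - r • CD.hx (cv D R α.1) -
      (r ^ 2) • rv (D.ng α.1) 1 := ex_ng C α.1 r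
  have h3 : Adp C v (CD.hx x) = CD.hx x + (r ^ 2) • rv (D.ng α.1) 1 := by
    rw [hv, ex_hx C (D.ng α.1) r x]
    have e1 : ev (D.ng α.1).1 x = - r := by
      rw [hr]
      unfold ev
      rw [← Finset.sum_neg_distrib]
      refine Finset.sum_congr rfl fun k _ => ?_
      rw [D.ng_val]
      simp
    rw [e1]
    have e2 : r * -r = - r ^ 2 := by ring
    rw [e2, neg_smul, sub_neg_eq_add]
  have h4 : Adp C v (CD.ee D R + CD.hx x) = CD.ee D R + CD.hx (wx (D.rW α.1) x) := by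
    rw [YS5b_Adp_add, h3]
    have e1 : Adp C v (CD.ee D R) = CD.ee D R - r • CD.hx (cv D R α.1) -
        (r ^ 2) • rv (D.ng α.1) 1 := by
      rw [YS5b_ee, YS5b_Adp_sum, ← Finset.add_sum_erase _ _ (Finset.mem_univ α),
        ← Finset.add_sum_erase _ _ (Finset.mem_univ α), h2]
      have e2 : ∑ s ∈ Finset.univ.erase α, Adp C v (rv s.1 (1 : R)) =
          ∑ s ∈ Finset.univ.erase α, (rv s.1 (1 : R) : LR D R) :=
        Finset.sum_congr rfl fun s hs => h1 s (Finset.ne_of_mem_erase hs)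
      rw [e2]
      abel
    rw [e1, wx_rW]
    have e3 : (CD.hx (x - ev α.1.1 x • cv D R α.1) : LR D R) =
        CD.hx x - r • CD.hx (cv D R α.1) := by
      funext j
      rcases j with k | γ
      · rfl
      · show (0 : R) = 0 - r * 0
        ring
    rw [e3]
    abel
  -- the new conjugator
  have h5 : UU C (-1) (C.pxR (wx (D.rW α.1) x) * v) := UU_mul C (C.pxR_UU _) (UU_ex C (hS r))
  have h6 : Adp C (C.pxR (wx (D.rW α.1) x) * v) (CD.ee D R + CD.hx x) =
      CD.ee D R + C.szR (wx (D.rW α.1) x) := by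
    rw [Adp_mul, h4, C.pxR_conj, C.sxR_eq]
  have h7 := (C.slice_eq h5 (C.szR_br _) h6).2
  rw [C.sxR_eq, C.sxR_eq, h7]

/-- YS5b.  Invariance under the Weyl group.
For `α` simple let `v = ex C (rv (ng α) r)`, `r = ev α x`.  Then `Ad v (e + x) = e + s_α x`, `s_α x = x - α(x) α^∨`:
`Ad v (rv β 1) = rv β 1` for simple `β ≠ α` (`[e_{-α}, e_β] = 0` by `C.e_co`: `β - α` is not a root as it has height `0`, and
`β ≠ ng (ng α)`; all terms `k ≥ 1` of the exponential vanish: `Adp = (AdR C).pt .. = mexp (dm (AdR C) ..)`, `ex_pt`, `dm_AdR`),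
`Ad v (rv α 1) = rv α 1 - r hx (cv α) - r² rv (ng α) 1` (`ex_ng`), `Ad v (hx x) = hx x + r α(x) rv (ng α) 1` (`ex_hx` for
`ng α`).  `ee = ∑_{β simple} rv β 1`.  So `φ := C.pxR (s_α x) * v` is `UU (-1)` (`UU_ex`: `Sp (-1) 1` since `ht2 (ng α) = -2`) and
`Ad φ (e + x) = e + szR (s_α x)`; `slice_eq` gives `sxR (s_α x) = sxR x`.  General `u`: `exists_list`, `wx_mul`, `wx_rW`. -/
theorem CD.sxR_W {G : AffGrp} {n : ℕ} {D : RD n} (C : CD G D) {R : Type} [CommRing R]
    [Algebra ℂ R] (u : D.W) (x : Fin n → R) : C.sxR (wx u x) = C.sxR x := by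
  obtain ⟨l, rfl⟩ := D.exists_list u
  induction l with
  | nil =>
    rw [List.map_nil, List.prod_nil, wx_one]
  | cons α l ih =>
    rw [List.map_cons, List.prod_cons, wx_mul]
    exact (C.YS5b_step α _).trans ih

end Pool.Agent.MTG
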