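import Pool.Agent.MTG.YS5c
import Pool.Agent.MTG.YS5d
import Pool.Agent.MTG.YS5e

/-! # MTG-YS : the Kostant slice -/

namespace Pool.Agent.MTG

open Pool.Agent.MTF Matrix
open Pool.Agent.MTD (ev)
open Pool.Agent.MTX.SLD (AA fm0)
open Pool.Agent.MTH

theorem ys6_ev {n : ℕ} (μ : Fin n → ℤ) :
    ev μ (MvPolynomial.X : Fin n → AA n) = (fm0 μ : AA n) := by
  unfold ev fm0 Pool.Agent.MTX.lin
  refine Finset.sum_congr rfl fun k _ => ?_
  rw [map_intCast]

theorem ys6_ee {n : ℕ} {D : RD n} {R : Type} [CommRing R] (j : Fin n ⊕ D.Rt)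
    (h : CD.ee D R j ≠ 0) : ∃ γ : D.Rt, j = Sum.inr γ ∧ D.Sim γ := by
  cases j with
  | inl k => exact absurd rfl h
  | inr γ =>
    refine ⟨γ, rfl, ?_⟩
    by_contra h1
    apply h
    classical
    have h2 : CD.ee D R (Sum.inr γ) = if D.Sim γ then (1 : R) else 0 := by
      unfold CD.ee CD.ez
      rw [Sum.elim_inr]
    rw [h2, if_neg h1]

theorem ys6_un {n : ℕ} {D : RD n} {R : Type} [CommRing R] {ι : Type} [DecidableEq ι]
    {w : ι → Fin n → ℤ} {s : ℤ} {g : Matrix ι ι R} (h : UniM D w s 1 g) (a b : ι)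
    (hab : D.ht2 (w a) = D.ht2 (w b)) : g a b = if a = b then 1 else 0 := by
  have h1 : (g - 1) a b = 0 := by
    by_contra h2
    have h3 := h a b h2
    rw [hab, sub_self, mul_zero] at h3
    exact absurd h3 (by norm_num)
  rw [Matrix.sub_apply, Matrix.one_apply, sub_eq_zero] at h1
  exact h1

/-- YS6.  The slice data of a representation in weight basis: `e := C.dm E (ee D ℂ)`, `S := C.dm E sx`, `P := E.pt px`, `P' := E.pt px⁻¹`.
`e_wt`: `IsW.d_e` (only simple roots occur in `ee`); `conj`: `pt_dm`, `px_conj`, `dm_add`, `hE.dm_hx` (`ev μ X = fm0 μ`), `dm_map` for `C : ℂ → AA n`;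
`S_W`: `sx_W`, `dm_apply`; `P_hd`, `P'_hd`: `px_hd`; `P_un`: `UU_uni` (`s = -1`) for `px` and `px⁻¹` (`UU_inv`): an entry of `P - 1` between equal heights vanishes;
`dec`: `dec_sx`. -/
theorem CD.exists_krep {G : AffGrp} {n : ℕ} {D : RD n} (C : CD G D) {E : MTF.Rep G}
    {w : E.ι → Fin n → ℤ} (hE : C.IsW E w) : ∃ (V : KRep D) (φ : E.ι ≃ V.I),
      (∀ a, V.wt (φ a) = w a) ∧ (∀ a b, V.e (φ a) (φ b) = C.dm E (CD.ee D ℂ) a b) ∧
      (∀ a b, V.S (φ a) (φ b) = C.dm E C.sx a b) := by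
  have hcoef : C.dm E (CD.ee D (AA n)) = (C.dm E (CD.ee D ℂ)).map MvPolynomial.C := by
    have h1 := C.dm_map (Algebra.ofId ℂ (AA n)) E (CD.ee D ℂ)
    have h2 : (fun j => (Algebra.ofId ℂ (AA n)) (CD.ee D ℂ j)) = CD.ee D (AA n) :=
      CD.ee_map ((Algebra.ofId ℂ (AA n)) : ℂ →+* AA n)
    rw [h2] at h1
    exact h1.symm
  refine ⟨{ I := E.ι
            wt := w
            e := C.dm E (CD.ee D ℂ)
            S := C.dm E C.sx
            P := E.pt C.px
            P' := E.pt C.px⁻¹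
            e_wt := ?_
            PP' := E.pt_mul_inv C.px
            P'P := E.pt_inv_mul C.px
            conj := ?_
            S_W := ?_
            P_hd := fun a b => (C.px_hd hE a b).1
            P'_hd := fun a b => (C.px_hd hE a b).2
            P_un := ?_
            P'_un := ?_
            dec := C.dec_sx hE }, Equiv.refl _, fun _ => rfl, fun _ _ => rfl, fun _ _ => rfl⟩
  · intro a b hab
    rw [CD.dm_apply] at hab
    obtain ⟨j, _, hj⟩ := Finset.exists_ne_zero_of_sum_ne_zero hab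
    obtain ⟨γ, rfl, hγ⟩ := ys6_ee j (left_ne_zero_of_mul hj)
    refine ⟨⟨γ, hγ⟩, ?_⟩
    apply hE.d_e γ a b
    intro h1
    apply right_ne_zero_of_mul hj
    have h2 : E.d (C.bs (Sum.inr γ)) a b = 0 := h1
    rw [h2, map_zero]
  · have h1 := pt_dm C E C.px (CD.ee D (AA n) + CD.hx MvPolynomial.X)
    rw [CD.px_conj, CD.dm_add, hE.dm_hx, hcoef] at h1
    rw [← h1]
    simp only [ys6_ev]
  · intro u a b
    rw [CD.dm_apply, Finset.smul_sum]
    refine Finset.sum_congr rfl fun j _ => ?_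
    rw [smul_mul', CD.sx_W]
    congr 1
    exact RD.smul_C D u _
  · exact fun a b hab => ys6_un (UU_uni C (Or.inr rfl) C.px_UU hE) a b hab
  · exact fun a b hab => ys6_un (UU_uni C (Or.inr rfl) (UU_inv C C.px_UU) hE) a b hab

end Pool.Agent.MTG
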