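import Pool.Agent.MTG.YS0

/-! # MTG-YT : principal triples -/

namespace Pool.Agent.MTG

open Pool.Agent.MTF Matrix
open Pool.Agent.MTD (ev)
open Pool.Agent.MTX.SLD (AA fm0)
open Pool.Agent.MTH
open Pool.Agent.MP_c45d35_ag (chi)

/-- YT1.  An Engel subalgebra of minimal dimension is a Cartan subalgebra.  `LieAlgebra.engel_isBot_of_isMin` with `U = engel h`, `E = engel h` (`self_mem_engel`): `E` is minimal in
`{engel x | x ∈ U}` because of the dimensions; so `engel h ≤ engel x` for all `x ∈ engel h`, hence it is nilpotent (`isNilpotent_of_forall_le_engel`), and `normalizer_engel`.  (Cf. the proof of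
`LieAlgebra.exists_isCartanSubalgebra_engel_of_finrank_le_card` in Mathlib.) -/
theorem engel_cartan {L : Type} [LieRing L] [LieAlgebra ℂ L] [FiniteDimensional ℂ L] (h : L)
    (hmin : ∀ x : L, Module.finrank ℂ (LieSubalgebra.engel ℂ h) ≤
      Module.finrank ℂ (LieSubalgebra.engel ℂ x)) :
    (LieSubalgebra.engel ℂ h).IsCartanSubalgebra := by
  have hc : (Module.finrank ℂ L : Cardinal) ≤ Cardinal.mk ℂ :=
    Cardinal.natCast_le_aleph0.trans <| Cardinal.infinite_iff.mp inferInstance
  refine ⟨?_, LieSubalgebra.normalizer_engel _ _⟩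
  apply LieSubalgebra.isNilpotent_of_forall_le_engel
  intro y hy
  set Ex : {LieSubalgebra.engel ℂ z | z ∈ LieSubalgebra.engel ℂ h} :=
    ⟨LieSubalgebra.engel ℂ h, h, LieSubalgebra.self_mem_engel _ _, rfl⟩
  suffices IsBot Ex from @this ⟨LieSubalgebra.engel ℂ y, y, hy, rfl⟩
  apply LieAlgebra.engel_isBot_of_isMin hc (LieSubalgebra.engel ℂ h) Ex le_rfl
  rintro ⟨_, y, hy, rfl⟩ hyx
  have h1 : LieSubalgebra.engel ℂ y = LieSubalgebra.engel ℂ h := by
    apply LieSubalgebra.toSubmodule_injective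
    exact Submodule.eq_of_le_of_finrank_le hyx (hmin y)
  exact h1.ge

end Pool.Agent.MTG
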