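import Pool.Agent.MTG.YS3a

/-! # MTG-YT : principal triples -/

namespace Pool.Agent.MTG

open Pool.Agent.MTF Matrix
open Pool.Agent.MTD (ev)
open Pool.Agent.MTX.SLD (AA fm0)
open Pool.Agent.MTH
open Pool.Agent.MP_c45d35_ag (chi)

section YT2a

variable {V : Type} [AddCommGroup V] [Module ℂ V]

theorem yt2a_nilp [FiniteDimensional ℂ V] (e h : Module.End ℂ V) {c : ℂ} (hc : c ≠ 0)
    (h1 : h * e - e * h = c • e) : ∃ N : ℕ, e ^ N = 0 := by
  by_contra hne
  push Not at hne
  have hT : ∀ k : ℕ, (LinearMap.mulLeft ℂ h - LinearMap.mulRight ℂ h) (e ^ k) = ((k : ℂ) * c) • e ^ k := by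
    intro k
    show h * e ^ k - e ^ k * h = _
    induction k with
    | zero => simp
    | succ k ih =>
      have h2 : h * e ^ (k + 1) - e ^ (k + 1) * h =
          (h * e ^ k - e ^ k * h) * e + e ^ k * (h * e - e * h) := by
        rw [pow_succ]
        noncomm_ring
      rw [h2, ih, h1, smul_mul_assoc, mul_smul_comm, ← pow_succ, ← add_smul]
      congr 1
      push_cast
      ring
  have hev : ∀ k : ℕ, Module.End.HasEigenvalue
      (LinearMap.mulLeft ℂ h - LinearMap.mulRight ℂ h : Module.End ℂ (Module.End ℂ V)) ((k : ℂ) * c) :=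
    fun k => Module.End.hasEigenvalue_of_hasEigenvector ⟨Module.End.mem_eigenspace_iff.2 (hT k), hne k⟩
  have hfin := Module.End.finite_hasEigenvalue
    (LinearMap.mulLeft ℂ h - LinearMap.mulRight ℂ h : Module.End ℂ (Module.End ℂ V))
  have hinj : Function.Injective fun k : ℕ => (k : ℂ) * c := by
    intro a b hab
    have h3 : (a : ℂ) = b := mul_right_cancel₀ hc hab
    exact_mod_cast h3
  exact Set.infinite_of_injective_forall_mem hinj hev hfin

theorem yt2a_hf (h f : Module.End ℂ V) (h2 : h * f - f * h = (-2 : ℂ) • f) (v : V) :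
    h (f v) = f (h v) - (2 : ℂ) • f v := by
  have h4 := LinearMap.congr_fun h2 v
  simp only [LinearMap.sub_apply, Module.End.mul_apply, LinearMap.smul_apply] at h4
  rw [sub_eq_iff_eq_add] at h4
  rw [h4]
  module

theorem yt2a_he (h e : Module.End ℂ V) (h1 : h * e - e * h = (2 : ℂ) • e) (v : V) :
    h (e v) = e (h v) + (2 : ℂ) • e v := by
  have h4 := LinearMap.congr_fun h1 v
  simp only [LinearMap.sub_apply, Module.End.mul_apply, LinearMap.smul_apply] at h4
  rw [sub_eq_iff_eq_add] at h4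
  rw [h4]
  module

theorem yt2a_ef1 (e h f : Module.End ℂ V) (h3 : e * f - f * e = h) (v : V) :
    e (f v) = f (e v) + h v := by
  have h4 := LinearMap.congr_fun h3 v
  simp only [LinearMap.sub_apply, Module.End.mul_apply] at h4
  rw [sub_eq_iff_eq_add] at h4
  rw [h4]
  module

theorem yt2a_hfk (h f : Module.End ℂ V) (h2 : h * f - f * h = (-2 : ℂ) • f) (v : V) (k : ℕ) :
    h ((f ^ k) v) = (f ^ k) (h v) - (2 * (k : ℂ)) • (f ^ k) v := by
  induction k with
  | zero => simp
  | succ k ih =>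
    rw [pow_succ', Module.End.mul_apply, Module.End.mul_apply, yt2a_hf h f h2, ih, map_sub, map_smul]
    push_cast
    module

theorem yt2a_efk (e h f : Module.End ℂ V) (h2 : h * f - f * h = (-2 : ℂ) • f)
    (h3 : e * f - f * e = h) (v : V) (hv : e v = 0) (k : ℕ) :
    e ((f ^ (k + 1)) v) = ((k : ℂ) + 1) • (f ^ k) (h v - (k : ℂ) • v) := by
  induction k with
  | zero =>
    rw [zero_add, pow_one, yt2a_ef1 e h f h3, hv, map_zero, zero_add]
    simp
  | succ k ih =>
    rw [pow_succ', Module.End.mul_apply, yt2a_ef1 e h f h3, ih, yt2a_hfk h f h2, map_smul,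
      map_sub, map_sub, map_smul, map_smul, map_sub, map_smul, ← Module.End.mul_apply f, ← Module.End.mul_apply f,
      ← pow_succ']
    push_cast
    module

theorem yt2a_pk (e h f : Module.End ℂ V) (h1 : h * e - e * h = (2 : ℂ) • e)
    (h2 : h * f - f * h = (-2 : ℂ) • f) (h3 : e * f - f * e = h) (k : ℕ) :
    ∀ v : V, e v = 0 → (e ^ k) ((f ^ k) v) = ((k.factorial : ℕ) : ℂ) •
      (Polynomial.aeval h (∏ i ∈ Finset.range k, (Polynomial.X - Polynomial.C ((i : ℕ) : ℂ)))) v := by
  induction k with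
  | zero =>
    intro v _
    simp
  | succ k ih =>
    intro v hv
    have hw : e (h v - (k : ℂ) • v) = 0 := by
      have h5 := yt2a_he h e h1 v
      rw [hv, map_zero, smul_zero, add_zero] at h5
      rw [map_sub, map_smul, hv, smul_zero, sub_zero, ← h5]
    rw [pow_succ e, Module.End.mul_apply, yt2a_efk e h f h2 h3 v hv, map_smul, ih _ hw,
      Finset.prod_range_succ, map_mul, Module.End.mul_apply, smul_smul, Nat.factorial_succ]
    have h6 : (Polynomial.aeval h (Polynomial.X - Polynomial.C ((k : ℕ) : ℂ))) v = h v - (k : ℂ) • v := by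
      rw [map_sub, Polynomial.aeval_X, Polynomial.aeval_C]
      rfl
    rw [h6]
    push_cast
    rfl

theorem yt2a_ker (e h f : Module.End ℂ V) (h1 : h * e - e * h = (2 : ℂ) • e)
    (h2 : h * f - f * h = (-2 : ℂ) • f) (h3 : e * f - f * e = h) (K : ℕ) (hK : f ^ K = 0) :
    ∃ S : Finset ℂ, (∀ s ∈ S, ∃ k : ℕ, s = k) ∧ ∀ v : V, e v = 0 →
      (Polynomial.aeval h (∏ s ∈ S, (Polynomial.X - Polynomial.C s))) v = 0 := by
  classical
  refine ⟨(Finset.range K).image fun i : ℕ => (i : ℂ), ?_, ?_⟩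
  · intro s hs
    obtain ⟨k, _, hk⟩ := Finset.mem_image.1 hs
    exact ⟨k, hk.symm⟩
  · intro v hv
    rw [Finset.prod_image (fun a _ b _ hab => by exact_mod_cast hab)]
    have h4 := yt2a_pk e h f h1 h2 h3 K v hv
    rw [hK, LinearMap.zero_apply, map_zero] at h4
    exact (smul_eq_zero.1 h4.symm).resolve_left (by exact_mod_cast K.factorial_ne_zero)

theorem yt2a_ev (h : Module.End ℂ V) (P : Polynomial ℂ) (l : ℂ) (u : V) (hu : h u = l • u) :
    (Polynomial.aeval h P) u = P.eval l • u := by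
  by_cases h0 : u = 0
  · rw [h0, map_zero, smul_zero]
  · exact Module.End.aeval_apply_of_hasEigenvector ⟨Module.End.mem_eigenspace_iff.2 hu, h0⟩

theorem yt2a_sq (h : Module.End ℂ V) (S : Finset ℂ) (l : ℂ) (v : V)
    (hv : (Polynomial.aeval h (∏ s ∈ S, (Polynomial.X - Polynomial.C s))) v = 0)
    (h2 : h (h v - l • v) = l • (h v - l • v)) : h v = l • v := by
  classical
  have hX : (Polynomial.aeval h (Polynomial.X - Polynomial.C l)) v = h v - l • v := by
    rw [map_sub, Polynomial.aeval_X, Polynomial.aeval_C]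
    rfl
  have hne : ∀ T : Finset ℂ, l ∉ T → (∏ s ∈ T, (Polynomial.X - Polynomial.C s)).eval l ≠ 0 := by
    intro T hT
    rw [Polynomial.eval_prod]
    refine Finset.prod_ne_zero_iff.2 fun s hs => ?_
    rw [Polynomial.eval_sub, Polynomial.eval_X, Polynomial.eval_C]
    intro h0
    exact hT ((sub_eq_zero.1 h0) ▸ hs)
  have hu : h v - l • v = 0 := by
    by_cases hl : l ∈ S
    · rw [← Finset.prod_erase_mul S _ hl, map_mul, Module.End.mul_apply, hX, yt2a_ev h _ l _ h2] at hv
      exact (smul_eq_zero.1 hv).resolve_left (hne _ (Finset.notMem_erase l S))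
    · have h3 := yt2a_ev h (∏ s ∈ S, (Polynomial.X - Polynomial.C s)) l _ h2
      rw [← hX, ← Module.End.mul_apply, ← map_mul, mul_comm, map_mul, Module.End.mul_apply, hv,
        map_zero, hX] at h3
      exact (smul_eq_zero.1 h3.symm).resolve_left (hne _ hl)
  exact sub_eq_zero.1 hu

theorem yt2a_inj [FiniteDimensional ℂ V] (e h f : Module.End ℂ V) (h1 : h * e - e * h = (2 : ℂ) • e)
    (h2 : h * f - f * h = (-2 : ℂ) • f) (h3 : e * f - f * e = h) (k : ℤ) (hk : 0 < k) (y : V)
    (hy : h y = (k : ℂ) • y) (h0 : e (f y) = 0) : y = 0 := by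
  obtain ⟨N, hN⟩ := yt2a_nilp e h (by norm_num : (2 : ℂ) ≠ 0) h1
  refine Gd.sl2_inj (V := V) (fun m v hm hv => ?_) f.toAddMonoidHom e.toAddMonoidHom
    (fun m v => h v = ((-m : ℤ) : ℂ) • v) (fun m v hv => ?_) (fun m v hv => ?_) (k := -k) (by omega)
    (x := y) ?_ h0 N ?_
  · rw [← Int.cast_smul_eq_zsmul ℂ] at hv
    exact (smul_eq_zero.1 hv).resolve_left (by exact_mod_cast hm)
  · show h (e v) = ((-(m - 2) : ℤ) : ℂ) • e v
    rw [yt2a_he h e h1, hv, map_smul]
    push_cast
    module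
  · show f (e v) = e (f v) + m • v
    rw [yt2a_ef1 e h f h3, hv, ← Int.cast_smul_eq_zsmul ℂ]
    push_cast
    module
  · show h y = ((-(-k) : ℤ) : ℂ) • y
    rw [neg_neg]
    exact hy
  · have h4 : ∀ N : ℕ, (⇑(e.toAddMonoidHom))^[N] y = (e ^ N) y := by
      intro N
      rw [Module.End.pow_apply]
      rfl
    rw [h4, hN, LinearMap.zero_apply]

theorem yt2a_surj [FiniteDimensional ℂ V] (e h f : Module.End ℂ V) (h1 : h * e - e * h = (2 : ℂ) • e)
    (h2 : h * f - f * h = (-2 : ℂ) • f) (h3 : e * f - f * e = h) (k : ℤ) (hk : 0 < k) (u : V)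
    (hu : h u = (k : ℂ) • u) : ∃ y : V, h y = (k : ℂ) • y ∧ e (f y) = u := by
  have hmap : ∀ y ∈ h.eigenspace (k : ℂ), (e * f) y ∈ h.eigenspace (k : ℂ) := by
    intro y hy
    rw [Module.End.mem_eigenspace_iff] at hy ⊢
    rw [Module.End.mul_apply, yt2a_he h e h1, yt2a_hf h f h2, hy, map_smul, map_sub, map_smul, map_smul]
    module
  have hinj : Function.Injective ((e * f).restrict hmap) := by
    rw [injective_iff_map_eq_zero]
    intro y hy
    apply Subtype.ext
    exact yt2a_inj e h f h1 h2 h3 k hk y.1 (Module.End.mem_eigenspace_iff.1 y.2)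
      (congrArg Subtype.val hy)
  obtain ⟨y, hy⟩ := LinearMap.surjective_of_injective hinj
    (⟨u, Module.End.mem_eigenspace_iff.2 hu⟩ : h.eigenspace (k : ℂ))
  exact ⟨y.1, Module.End.mem_eigenspace_iff.1 y.2, congrArg Subtype.val hy⟩

theorem yt2a_main [FiniteDimensional ℂ V] (e h f : Module.End ℂ V) (h1 : h * e - e * h = (2 : ℂ) • e)
    (h2 : h * f - f * h = (-2 : ℂ) • f) (h3 : e * f - f * e = h) (k : ℤ) (hk : -1 ≤ k) (v : V)
    (hv : h (h v - (k : ℂ) • v) = (k : ℂ) • (h v - (k : ℂ) • v)) : h v = (k : ℂ) • v := by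
  obtain ⟨N, hN⟩ := yt2a_nilp e h (by norm_num : (2 : ℂ) ≠ 0) h1
  obtain ⟨K, hK⟩ := yt2a_nilp f h (by norm_num : (-2 : ℂ) ≠ 0) h2
  obtain ⟨S, _, hS⟩ := yt2a_ker e h f h1 h2 h3 K hK
  have key : ∀ (j : ℕ) (k : ℤ), -1 ≤ k → ∀ v : V, (e ^ j) v = 0 →
      h (h v - (k : ℂ) • v) = (k : ℂ) • (h v - (k : ℂ) • v) → h v = (k : ℂ) • v := by
    intro j
    induction j with
    | zero =>
      intro k _ v h0 _
      have h4 : v = 0 := h0
      rw [h4, map_zero, smul_zero]
    | succ j ih =>
      intro k hk v h0 hv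
      rw [pow_succ, Module.End.mul_apply] at h0
      have e1 : h (e v) - ((k + 2 : ℤ) : ℂ) • e v = e (h v - (k : ℂ) • v) := by
        rw [yt2a_he h e h1, map_sub, map_smul]
        push_cast
        module
      have e2 : h (e v) = ((k + 2 : ℤ) : ℂ) • e v := by
        refine ih (k + 2) (by omega) (e v) h0 ?_
        rw [e1, yt2a_he h e h1, hv, map_smul]
        push_cast
        module
      obtain ⟨y, hy, hy2⟩ := yt2a_surj e h f h1 h2 h3 (k + 2) (by omega) (e v) e2
      have e3 : h (f y) = (k : ℂ) • f y := by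
        rw [yt2a_hf h f h2, hy, map_smul]
        push_cast
        module
      have e4 : e (v - f y) = 0 := by
        rw [map_sub, hy2, sub_self]
      have e5 : h (v - f y) - (k : ℂ) • (v - f y) = h v - (k : ℂ) • v := by
        rw [map_sub, e3]
        module
      have e6 := yt2a_sq h S (k : ℂ) (v - f y) (hS _ e4) (by rw [e5]; exact hv)
      rw [e6, sub_self] at e5
      exact sub_eq_zero.1 e5.symm
  exact key N k hk v (by rw [hN, LinearMap.zero_apply]) hv

theorem yt2a_hek (h e : Module.End ℂ V) (h1 : h * e - e * h = (2 : ℂ) • e) (l : ℂ) (v : V)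
    (hv : h v = l • v) (j : ℕ) : h ((e ^ j) v) = (l + 2 * (j : ℂ)) • (e ^ j) v := by
  induction j with
  | zero => simpa using hv
  | succ j ih =>
    rw [pow_succ', Module.End.mul_apply, yt2a_he h e h1, ih, map_smul]
    push_cast
    module

theorem yt2a_int [FiniteDimensional ℂ V] (e h f : Module.End ℂ V) (h1 : h * e - e * h = (2 : ℂ) • e)
    (h2 : h * f - f * h = (-2 : ℂ) • f) (h3 : e * f - f * e = h) (l : ℂ) (v : V) (h0 : v ≠ 0)
    (hv : h v = l • v) : ∃ k : ℤ, l = k := by
  classical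
  obtain ⟨N, hN⟩ := yt2a_nilp e h (by norm_num : (2 : ℂ) ≠ 0) h1
  obtain ⟨K, hK⟩ := yt2a_nilp f h (by norm_num : (-2 : ℂ) ≠ 0) h2
  obtain ⟨S, hS1, hS⟩ := yt2a_ker e h f h1 h2 h3 K hK
  have hex : ∃ j : ℕ, (e ^ j) v = 0 := ⟨N, by rw [hN, LinearMap.zero_apply]⟩
  obtain ⟨j, hj, hmin⟩ : ∃ j : ℕ, (e ^ j) v = 0 ∧ ∀ i < j, (e ^ i) v ≠ 0 :=
    ⟨Nat.find hex, Nat.find_spec hex, fun i hi => Nat.find_min hex hi⟩
  cases j with
  | zero => exact absurd hj h0
  | succ j =>
    have hu := hmin j (Nat.lt_succ_self j)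
    rw [pow_succ', Module.End.mul_apply] at hj
    have e1 := hS _ hj
    rw [yt2a_ev h _ _ _ (yt2a_hek h e h1 l v hv j)] at e1
    have e2 := (smul_eq_zero.1 e1).resolve_right hu
    rw [Polynomial.eval_prod, Finset.prod_eq_zero_iff] at e2
    obtain ⟨s, hs, e3⟩ := e2
    obtain ⟨k, hk⟩ := hS1 s hs
    rw [Polynomial.eval_sub, Polynomial.eval_X, Polynomial.eval_C, hk] at e3
    refine ⟨(k : ℤ) - 2 * (j : ℤ), ?_⟩
    push_cast
    linear_combination e3

theorem yt2a_all [FiniteDimensional ℂ V] (e h f : Module.End ℂ V) (h1 : h * e - e * h = (2 : ℂ) • e)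
    (h2 : h * f - f * h = (-2 : ℂ) • f) (h3 : e * f - f * e = h) (l : ℂ) (v : V)
    (hv : h (h v - l • v) = l • (h v - l • v)) : h v = l • v := by
  by_contra hne
  have h0 : h v - l • v ≠ 0 := fun h4 => hne (sub_eq_zero.1 h4)
  obtain ⟨k, rfl⟩ := yt2a_int e h f h1 h2 h3 l _ h0 hv
  by_cases hk : -1 ≤ k
  · exact hne (yt2a_main e h f h1 h2 h3 k hk v hv)
  · have h1' : (-h) * f - f * (-h) = (2 : ℂ) • f := by
      have h4 : (-h) * f - f * (-h) = -(h * f - f * h) := by noncomm_ring
      rw [h4, h2]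
      module
    have h2' : (-h) * e - e * (-h) = (-2 : ℂ) • e := by
      have h4 : (-h) * e - e * (-h) = -(h * e - e * h) := by noncomm_ring
      rw [h4, h1]
      module
    have h3' : f * e - e * f = -h := by
      rw [← h3]
      noncomm_ring
    have h5 := yt2a_main f (-h) e h1' h2' h3' (-k) (by omega) v (by
      have h6 : (-h) v - ((-k : ℤ) : ℂ) • v = -(h v - (k : ℂ) • v) := by
        rw [LinearMap.neg_apply]
        push_cast
        module
      rw [h6, LinearMap.neg_apply, map_neg, hv]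
      push_cast
      module)
    apply hne
    rw [LinearMap.neg_apply] at h5
    push_cast at h5
    rw [neg_smul] at h5
    exact neg_injective h5

end YT2a

/-- YT2a.  In a finite-dimensional representation of an `sl₂`-triple `h` is diagonalizable with integral eigenvalues.
`V_λ` the generalised eigenspaces of `h`; `e V_λ ⊆ V_{λ+2}`, `f V_λ ⊆ V_{λ-2}`.
(1) On `ker e` : `e^k f^k v = k! h (h - 1) ⋯ (h - k + 1) v` (induction), so with `f^k = 0` (`f` nilpotent: finitely many `λ`) a product of distinct factors `h - i` kills `ker e`: `h` is diagonalizable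
on `ker e` with eigenvalues in `ℕ`.  Going up from any `V_λ ≠ 0` one reaches a nonzero element of `ker e`, so all `λ` are integers.
(2) For `λ ≥ -1` by descending induction: `h = λ` on `V_λ`.  Assume `h = μ` on `V_μ` for `μ = λ + 2, λ + 4, ..`.  `e f` is injective on `V_{λ+2}` (`Gd.sl2_inj` with `e`, `f` exchanged, heights
negated, `P k v := v ∈ V_{-k}` and `h v = -k v`; `λ + 2 > 0`), so bijective.  For `v ∈ V_λ`: `e v = e f y`, `y ∈ V_{λ+2}`, `v - f y ∈ ker e ∩ V_λ`, so `h (v - f y) = λ (v - f y)` by (1), and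
`h f y = f h y - 2 f y = λ f y`.  For `λ ≤ 1` symmetric, with `e`, `f` exchanged and `h` replaced by `- h`.
Choose eigenbases. -/
theorem sl2_diag {V : Type} [AddCommGroup V] [Module ℂ V] [FiniteDimensional ℂ V]
    (e h f : Module.End ℂ V) (h1 : h * e - e * h = (2 : ℂ) • e)
    (h2 : h * f - f * h = (-2 : ℂ) • f) (h3 : e * f - f * e = h) :
    ∃ (b : Module.Basis (Fin (Module.finrank ℂ V)) ℂ V) (k : Fin (Module.finrank ℂ V) → ℤ),
      ∀ i, h (b i) = ((k i : ℤ) : ℂ) • b i := by
  classical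
  have hgen : ∀ l : ℂ, h.maxGenEigenspace l ≤ h.eigenspace l := by
    intro l v hv
    obtain ⟨k, hk⟩ := (Module.End.mem_maxGenEigenspace h l v).1 hv
    rw [Module.End.mem_eigenspace_iff]
    have key : ∀ (k : ℕ) (v : V), ((h - l • (1 : Module.End ℂ V)) ^ k) v = 0 → h v = l • v := by
      intro k
      induction k with
      | zero =>
        intro v h0
        have h4 : v = 0 := h0
        rw [h4, map_zero, smul_zero]
      | succ k ih =>
        intro v h0
        rw [pow_succ, Module.End.mul_apply] at h0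
        have h5 := ih _ h0
        have h6 : (h - l • (1 : Module.End ℂ V)) v = h v - l • v := rfl
        rw [h6] at h5
        exact yt2a_all e h f h1 h2 h3 l v h5
    exact key k v hk
  have htop : ⨆ l : ℂ, h.eigenspace l = ⊤ := by
    rw [eq_top_iff, ← Module.End.iSup_maxGenEigenspace_eq_top h]
    exact iSup_mono hgen
  have hint : DirectSum.IsInternal fun l : ℂ => h.eigenspace l :=
    DirectSum.isInternal_submodule_of_iSupIndep_of_iSup_eq_top (Module.End.eigenspaces_iSupIndep h) htop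
  let b0 := hint.collectedBasis fun l : ℂ => Module.finBasis ℂ (h.eigenspace l)
  have hfin : Fintype ((l : ℂ) × Fin (Module.finrank ℂ (h.eigenspace l))) :=
    FiniteDimensional.fintypeBasisIndex b0
  let σ : ((l : ℂ) × Fin (Module.finrank ℂ (h.eigenspace l))) ≃ Fin (Module.finrank ℂ V) :=
    Fintype.equivFinOfCardEq (Module.finrank_eq_card_basis b0).symm
  have hb : ∀ i, h ((b0.reindex σ) i) = (σ.symm i).1 • (b0.reindex σ) i := by
    intro i
    rw [Module.Basis.reindex_apply]
    exact Module.End.mem_eigenspace_iff.1 (hint.collectedBasis_mem _ (σ.symm i))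
  have hk : ∀ i, ∃ k : ℤ, (σ.symm i).1 = k := fun i =>
    yt2a_int e h f h1 h2 h3 _ _ ((b0.reindex σ).ne_zero i) (hb i)
  choose k hk using hk
  exact ⟨b0.reindex σ, k, fun i => by rw [hb i, hk i]⟩

end Pool.Agent.MTG
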