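import Pool.Agent.MTG.YT2a

/-! # MTG-YT : principal triples -/

namespace Pool.Agent.MTG

open Pool.Agent.MTF Matrix
open Pool.Agent.MTD (ev)
open Pool.Agent.MTX.SLD (AA fm0)
open Pool.Agent.MTH
open Pool.Agent.MP_c45d35_ag (chi)

section yt2b
variable {V : Type} [AddCommGroup V] [Module ℂ V] [FiniteDimensional ℂ V]
  {e h f : Module.End ℂ V}

omit [FiniteDimensional ℂ V] in
theorem yt2b_e (h1 : h * e - e * h = (2 : ℂ) • e) {k : ℤ} {v : V}
    (hv : h v = ((k : ℤ) : ℂ) • v) : h (e v) = (((k + 2 : ℤ)) : ℂ) • e v := by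
  have h4 := congrArg (fun g : Module.End ℂ V => g v) h1
  have h5 : h (e v) - e (h v) = (2 : ℂ) • e v := h4
  rw [hv, map_smul] at h5
  rw [sub_eq_iff_eq_add.1 h5, ← add_smul]
  congr 1
  push_cast
  ring

omit [FiniteDimensional ℂ V] in
theorem yt2b_f (h2 : h * f - f * h = (-2 : ℂ) • f) {k : ℤ} {v : V}
    (hv : h v = ((k : ℤ) : ℂ) • v) : h (f v) = (((k - 2 : ℤ)) : ℂ) • f v := by
  have h4 := congrArg (fun g : Module.End ℂ V => g v) h2
  have h5 : h (f v) - f (h v) = (-2 : ℂ) • f v := h4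
  rw [hv, map_smul] at h5
  rw [sub_eq_iff_eq_add.1 h5, ← add_smul]
  congr 1
  push_cast
  ring

omit [FiniteDimensional ℂ V] in
theorem yt2b_ht (m : ℤ) (v : V) (hm : m ≠ 0) (h : m • v = 0) : v = 0 := by
  rw [← Int.cast_smul_eq_zsmul ℂ] at h
  exact (smul_eq_zero.1 h).resolve_left (Int.cast_ne_zero.2 hm)

/-- an operator which shifts the eigenvalues of `h` by `c ≠ 0` is nilpotent on eigenvectors -/
theorem yt2b_nil (g : Module.End ℂ V) (c : ℤ) (hc : c ≠ 0)
    (hg : ∀ (k : ℤ) (v : V), h v = ((k : ℤ) : ℂ) • v → h (g v) = (((k + c : ℤ)) : ℂ) • g v)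
    {k : ℤ} {v : V} (hv : h v = ((k : ℤ) : ℂ) • v) : ∃ N : ℕ, g^[N] v = 0 := by
  by_contra hne
  push Not at hne
  have h3 : ∀ N : ℕ, h (g^[N] v) = (((k + N * c : ℤ)) : ℂ) • g^[N] v := by
    intro N
    induction N with
    | zero =>
      rw [Function.iterate_zero, id_eq, hv]
      congr 1
      push_cast
      ring
    | succ N ih =>
      rw [Function.iterate_succ_apply', hg _ _ ih]
      congr 1
      push_cast
      ring
  have h4 : ∀ N : ℕ, Module.End.HasEigenvalue h (((k + N * c : ℤ)) : ℂ) := fun N =>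
    Module.End.hasEigenvalue_of_hasEigenvector
      ⟨Module.End.mem_eigenspace_iff.2 (h3 N), hne N⟩
  have h5 : Set.Finite {μ : ℂ | Module.End.HasEigenvalue h μ} := Module.End.finite_hasEigenvalue h
  have h6 : Function.Injective fun N : ℕ => (((k + N * c : ℤ)) : ℂ) := by
    intro a b hab
    have h7 : k + (a : ℤ) * c = k + (b : ℤ) * c := Int.cast_injective hab
    have h8 : (a : ℤ) * c = b * c := by linarith
    exact_mod_cast mul_right_cancel₀ hc h8
  exact Set.infinite_univ (α := ℕ) (Set.Finite.of_finite_image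
    (h5.subset (by rintro _ ⟨N, -, rfl⟩; exact h4 N)) h6.injOn)

/-- the space of `h`-eigenvectors in terms of an eigenbasis -/
theorem yt2b_rk (h : Module.End ℂ V) {ι : Type} [Fintype ι] [DecidableEq ι]
    (b : Module.Basis ι ℂ V) (k : ι → ℤ)
    (hb : ∀ i, h (b i) = ((k i : ℤ) : ℂ) • b i) (m : ℤ) (W : Submodule ℂ V)
    (hW : ∀ v ∈ W, h v = ((m : ℤ) : ℂ) • v) : Module.finrank ℂ W ≤ Fintype.card {i // k i = m} := by
  have h1 : W ≤ Submodule.span ℂ (Set.range fun i : {i // k i = m} => b i.1) := by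
    intro v hv
    have h2 := hW v hv
    have h3 : ∀ i, k i ≠ m → b.repr v i = 0 := by
      intro i hi
      have h4 : h v = ∑ j, (b.repr v j * ((k j : ℤ) : ℂ)) • b j := by
        conv_lhs => rw [← b.sum_repr v]
        rw [map_sum]
        refine Finset.sum_congr rfl fun j _ => ?_
        rw [map_smul, hb, smul_smul]
      have h5 : b.repr (h v) i = b.repr v i * ((k i : ℤ) : ℂ) := by
        rw [h4, b.repr_sum_self]
      rw [h2, map_smul, Finsupp.smul_apply, smul_eq_mul] at h5
      have h6 : (((m : ℤ) : ℂ) - ((k i : ℤ) : ℂ)) * b.repr v i = 0 := by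
        rw [sub_mul, h5]
        ring
      refine (mul_eq_zero.1 h6).resolve_left fun h7 => hi ?_
      have h8 := sub_eq_zero.1 h7
      exact (by exact_mod_cast h8.symm)
    rw [← b.sum_repr v]
    refine Submodule.sum_mem _ fun i _ => ?_
    by_cases hi : k i = m
    · exact Submodule.smul_mem _ _ (Submodule.subset_span ⟨⟨i, hi⟩, rfl⟩)
    · rw [h3 i hi, zero_smul]
      exact Submodule.zero_mem _
  refine (Submodule.finrank_mono h1).trans ?_
  exact finrank_range_le_card _

end yt2b

/-- YT2b.  `e` maps `⊕_{k ≥ 0} V_k` to `⊕_{k ≥ 2} V_k`, so `dim ker e ≥ dim V_0 + dim V_1` (`V_k` the eigenspaces of `h`, `sl2_diag`; `V_0 = ker h`, `V_1 = ker (h - 1)`). -/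
theorem sl2_ker {V : Type} [AddCommGroup V] [Module ℂ V] [FiniteDimensional ℂ V]
    (e h f : Module.End ℂ V) (h1 : h * e - e * h = (2 : ℂ) • e)
    (h2 : h * f - f * h = (-2 : ℂ) • f) (h3 : e * f - f * e = h) :
    Module.finrank ℂ (LinearMap.ker h) + Module.finrank ℂ (LinearMap.ker (h - 1)) ≤
      Module.finrank ℂ (LinearMap.ker e) := by
  classical
  obtain ⟨b, k, hb⟩ := sl2_diag e h f h1 h2 h3
  have hk0 := yt2b_rk h b k hb 0 (LinearMap.ker h) (fun v hv => by
    rw [LinearMap.mem_ker.1 hv, Int.cast_zero, zero_smul])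
  have hk1 := yt2b_rk h b k hb 1 (LinearMap.ker (h - 1)) (fun v hv => by
    have h4 : h v - v = 0 := LinearMap.mem_ker.1 hv
    rw [Int.cast_one, one_smul]
    exact sub_eq_zero.1 h4)
  set W : Submodule ℂ V := Submodule.span ℂ (Set.range fun i : {i // 0 ≤ k i} => b i.1) with hWd
  set W2 : Submodule ℂ V := Submodule.span ℂ (Set.range fun i : {i // 2 ≤ k i} => b i.1) with hW2d
  have hfW : Module.finrank ℂ W = Fintype.card {i // 0 ≤ k i} :=
    finrank_span_eq_card (b.linearIndependent.comp _ Subtype.val_injective)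
  have hfW2 : Module.finrank ℂ W2 = Fintype.card {i // 2 ≤ k i} :=
    finrank_span_eq_card (b.linearIndependent.comp _ Subtype.val_injective)
  have hcard : Fintype.card {i // 0 ≤ k i} =
      Fintype.card {i // 2 ≤ k i} + Fintype.card {i // k i = 0} + Fintype.card {i // k i = 1} := by
    rw [Fintype.card_subtype, Fintype.card_subtype, Fintype.card_subtype, Fintype.card_subtype,
      ← Finset.card_union_of_disjoint, ← Finset.card_union_of_disjoint]
    · congr 1
      ext i
      simp only [Finset.mem_filter, Finset.mem_univ, true_and, Finset.mem_union]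
      omega
    · rw [Finset.disjoint_left]
      intro i
      simp only [Finset.mem_filter, Finset.mem_univ, true_and, Finset.mem_union]
      omega
    · rw [Finset.disjoint_left]
      intro i
      simp only [Finset.mem_filter, Finset.mem_univ, true_and]
      omega
  have hmap : ∀ v ∈ W, e v ∈ W2 := by
    intro v hv
    have hle : W ≤ W2.comap e := by
      rw [hWd, Submodule.span_le]
      rintro _ ⟨i, rfl⟩
      show e (b i.1) ∈ W2
      have h4 := yt2b_e h1 (hb i.1)
      have h5 : ∀ j, k j ≠ k i.1 + 2 → b.repr (e (b i.1)) j = 0 := by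
        intro j hj
        have h6 : h (e (b i.1)) =
            ∑ l, (b.repr (e (b i.1)) l * ((k l : ℤ) : ℂ)) • b l := by
          conv_lhs => rw [← b.sum_repr (e (b i.1))]
          rw [map_sum]
          refine Finset.sum_congr rfl fun l _ => ?_
          rw [map_smul, hb, smul_smul]
        have h7 : b.repr (h (e (b i.1))) j = b.repr (e (b i.1)) j * ((k j : ℤ) : ℂ) := by
          rw [h6, b.repr_sum_self]
        rw [h4, map_smul, Finsupp.smul_apply, smul_eq_mul] at h7
        have h8 : ((((k i.1 + 2 : ℤ)) : ℂ) - ((k j : ℤ) : ℂ)) * b.repr (e (b i.1)) j = 0 := by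
          rw [sub_mul, h7]
          ring
        refine (mul_eq_zero.1 h8).resolve_left fun h9 => hj ?_
        have h10 := sub_eq_zero.1 h9
        exact (by exact_mod_cast h10.symm)
      rw [← b.sum_repr (e (b i.1))]
      refine Submodule.sum_mem _ fun j _ => ?_
      by_cases hj : k j = k i.1 + 2
      · refine Submodule.smul_mem _ _ (Submodule.subset_span ⟨⟨j, ?_⟩, rfl⟩)
        have := i.2
        omega
      · rw [h5 j hj, zero_smul]
        exact Submodule.zero_mem _
    exact hle hv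
  have hrn := LinearMap.finrank_range_add_finrank_ker (LinearMap.restrict e hmap)
  have hr : Module.finrank ℂ (LinearMap.range (LinearMap.restrict e hmap)) ≤
      Module.finrank ℂ W2 := Submodule.finrank_le _
  have hker : Module.finrank ℂ (LinearMap.ker (LinearMap.restrict e hmap)) ≤
      Module.finrank ℂ (LinearMap.ker e) := by
    rw [← Submodule.finrank_map_subtype_eq]
    refine Submodule.finrank_mono ?_
    rintro _ ⟨v, hv, rfl⟩
    have h4 := LinearMap.mem_ker.1 hv
    exact congrArg Subtype.val h4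
  omega

/-- (row YT2b) `e : V_k → V_{k+2}` is onto for `k ≥ -1`: `e f` is injective on `V_{k+2}` (`Gd.sl2_inj` with `e`, `f` exchanged), so bijective. -/
theorem sl2_onto {V : Type} [AddCommGroup V] [Module ℂ V] [FiniteDimensional ℂ V]
    (e h f : Module.End ℂ V) (h1 : h * e - e * h = (2 : ℂ) • e)
    (h2 : h * f - f * h = (-2 : ℂ) • f) (h3 : e * f - f * e = h) (k : ℤ) (hk : -1 ≤ k) (v : V)
    (hv : h v = (((k + 2 : ℤ)) : ℂ) • v) : ∃ w : V, h w = ((k : ℤ) : ℂ) • w ∧ e w = v := by
  set U : Submodule ℂ V := Module.End.eigenspace h (((k + 2 : ℤ)) : ℂ) with hU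
  have hmem : ∀ x, x ∈ U ↔ h x = (((k + 2 : ℤ)) : ℂ) • x := fun x =>
    Module.End.mem_eigenspace_iff
  have hmap : ∀ x ∈ U, (e * f) x ∈ U := by
    intro x hx
    rw [hmem] at hx ⊢
    have h4 := yt2b_e h1 (yt2b_f h2 hx)
    have h5 : k + 2 - 2 + 2 = k + 2 := by ring
    rw [h5] at h4
    exact h4
  have hinj : Function.Injective (LinearMap.restrict (e * f) hmap) := by
    rw [injective_iff_map_eq_zero]
    intro x hx
    have hx0 : e (f x.1) = 0 := congrArg Subtype.val hx
    have hx1 := (hmem x.1).1 x.2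
    obtain ⟨N, hN⟩ := yt2b_nil (h := h) e 2 (by norm_num) (fun k v hv => yt2b_e h1 hv) hx1
    apply Subtype.ext
    refine Gd.sl2_inj yt2b_ht f.toAddMonoidHom e.toAddMonoidHom
      (fun (m : ℤ) (v : V) => h v = (((-m : ℤ)) : ℂ) • v) ?_ ?_ (k := -(k + 2)) (by omega)
      ?_ hx0 N hN
    · intro m v hv
      have h4 := yt2b_e h1 hv
      have h5 : -m + 2 = -(m - 2) := by ring
      rw [h5] at h4
      exact h4
    · intro m v hv
      have h4 := congrArg (fun g : Module.End ℂ V => g v) h3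
      have h5 : e (f v) - f (e v) = h v := h4
      show f (e v) = e (f v) + m • v
      rw [hv, Int.cast_neg, neg_smul, Int.cast_smul_eq_zsmul] at h5
      rw [← sub_eq_iff_eq_add', ← neg_sub, h5, neg_neg]
    · show h x.1 = (((-(-(k + 2)) : ℤ)) : ℂ) • x.1
      rw [neg_neg]
      exact hx1
  have hsurj := (LinearMap.injective_iff_surjective (f := LinearMap.restrict (e * f) hmap)).1 hinj
  obtain ⟨y, hy⟩ := hsurj ⟨v, (hmem v).2 hv⟩
  have hy0 : e (f y.1) = v := congrArg Subtype.val hy
  refine ⟨f y.1, ?_, hy0⟩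
  have h4 := yt2b_f h2 ((hmem y.1).1 y.2)
  have h5 : k + 2 - 2 = k := by ring
  rw [h5] at h4
  exact h4

/-- (row YT2b) `e` is injective on `V_k` for `k < 0`. -/
theorem sl2_inj' {V : Type} [AddCommGroup V] [Module ℂ V] [FiniteDimensional ℂ V]
    (e h f : Module.End ℂ V) (h1 : h * e - e * h = (2 : ℂ) • e)
    (h2 : h * f - f * h = (-2 : ℂ) • f) (h3 : e * f - f * e = h) (k : ℤ) (hk : k < 0) (v : V)
    (hv : h v = ((k : ℤ) : ℂ) • v) (he : e v = 0) : v = 0 := by
  obtain ⟨N, hN⟩ := yt2b_nil (h := h) f (-2) (by norm_num) (fun k v hv => yt2b_f h2 hv) hv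
  refine Gd.sl2_inj yt2b_ht e.toAddMonoidHom f.toAddMonoidHom
    (fun (m : ℤ) (v : V) => h v = ((m : ℤ) : ℂ) • v) ?_ ?_ hk hv ?_ N hN
  · intro m w hw
    exact yt2b_f h2 hw
  · intro m w hw
    have h4 := congrArg (fun g : Module.End ℂ V => g w) h3
    have h5 : e (f w) - f (e w) = h w := h4
    show e (f w) = f (e w) + m • w
    rw [hw, Int.cast_smul_eq_zsmul] at h5
    rw [← h5]
    abel
  · show f (e v) = 0
    rw [he, map_zero]

end Pool.Agent.MTG
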