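import Pool.Agent.MTG.YT1
import Pool.Agent.MTG.YT2b
import Pool.Agent.MTG.YT0

/-! # MTG-YT : principal triples -/

namespace Pool.Agent.MTG

open Pool.Agent.MTF Matrix
open Pool.Agent.MTD (ev)
open Pool.Agent.MTX.SLD (AA fm0)
open Pool.Agent.MTH
open Pool.Agent.MP_c45d35_ag (chi)

section
variable {V : Type} [AddCommGroup V] [Module ℂ V] {ι : Type} [Fintype ι]
  (b : Module.Basis ι ℂ V) (k : ι → ℂ) (A : Module.End ℂ V) (hA : ∀ i, A (b i) = k i • b i)
include hA

theorem mtgYT3_A (y : V) (i : ι) : b.repr (A y) i = k i * b.repr y i := by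
  have h1 : b.coord i ∘ₗ A = k i • b.coord i := by
    refine b.ext fun j => ?_
    rw [LinearMap.comp_apply, hA, map_smul, LinearMap.smul_apply, b.coord_apply, b.repr_self,
      smul_eq_mul, smul_eq_mul]
    by_cases h : j = i
    · subst h
      rfl
    · rw [Finsupp.single_eq_of_ne (Ne.symm h), mul_zero, mul_zero]
  exact LinearMap.congr_fun h1 y

theorem mtgYT3_pow (n : ℕ) (y : V) (i : ι) : b.repr ((A ^ n) y) i = k i ^ n * b.repr y i := by
  induction n with
  | zero => rw [pow_zero, pow_zero, one_mul, Module.End.one_apply]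
  | succ n ih =>
    rw [pow_succ', Module.End.mul_apply, mtgYT3_A b k A hA, ih, pow_succ]
    ring

theorem mtgYT3_ker (n : ℕ) (y : V) (h : (A ^ n) y = 0) : A y = 0 := by
  apply b.repr.injective
  rw [map_zero]
  ext i
  rw [mtgYT3_A b k A hA, Finsupp.zero_apply]
  have h1 := mtgYT3_pow b k A hA n y i
  rw [h, map_zero, Finsupp.zero_apply] at h1
  rcases mul_eq_zero.1 h1.symm with h2 | h2
  · rcases Nat.eq_zero_or_pos n with h3 | h3
    · rw [h3, pow_zero] at h2
      exact (one_ne_zero h2).elim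
    · rw [(pow_eq_zero_iff (by omega)).1 h2, zero_mul]
  · rw [h2, mul_zero]

theorem mtgYT3_eig {v : V} {lam : ℂ} (hv : v ≠ 0) (h : A v = lam • v) : ∃ i, lam = k i := by
  by_contra hcon
  push Not at hcon
  apply hv
  apply b.repr.injective
  rw [map_zero]
  ext i
  rw [Finsupp.zero_apply]
  have h1 := mtgYT3_A b k A hA v i
  rw [h, map_smul, Finsupp.smul_apply, smul_eq_mul] at h1
  have h2 : (lam - k i) * b.repr v i = 0 := by linear_combination h1
  rcases mul_eq_zero.1 h2 with h3 | h3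
  · exact (hcon i (sub_eq_zero.1 h3)).elim
  · exact h3

end

theorem mtgYT3_ad {L : Type} [LieRing L] [LieAlgebra ℂ L] (x y : L) :
    LieAlgebra.ad ℂ L x * LieAlgebra.ad ℂ L y - LieAlgebra.ad ℂ L y * LieAlgebra.ad ℂ L x =
      LieAlgebra.ad ℂ L ⁅x, y⁆ := by
  apply LinearMap.ext
  intro z
  show ⁅x, ⁅y, z⁆⁆ - ⁅y, ⁅x, z⁆⁆ = ⁅⁅x, y⁆, z⁆
  rw [lie_lie]

theorem mtgYT3_T {ι : Type} [Fintype ι] [DecidableEq ι] (A B C : Matrix ι ι ℂ) (c : ℂ)
    (h : A * B - B * A = c • C) :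
    Matrix.toLinAlgEquiv' A * Matrix.toLinAlgEquiv' B - Matrix.toLinAlgEquiv' B *
      Matrix.toLinAlgEquiv' A = c • (Matrix.toLinAlgEquiv' C : (ι → ℂ) →ₗ[ℂ] (ι → ℂ)) := by
  rw [← map_smul, ← h, map_sub, map_mul, map_mul]

theorem mtgYT3_toL {G : AffGrp} {n : ℕ} {D : RD n} (C : CD G D) (y : Fin n → ℂ) :
    C.toL (CD.hx y) = ∑ k, y k • C.bs (Sum.inl k) := by
  unfold CD.toL CD.hx
  rw [Fintype.sum_sum_type]
  simp only [Sum.elim_inl, Sum.elim_inr, Pi.zero_apply, zero_smul, Finset.sum_const_zero, add_zero]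

/-- YT3.  A principal triple `(e, h, f)` of a semisimple `G`: `ad h` is diagonalizable (`sl2_diag` for `V = G.Lie`, `e, h, f ↦ G.ad e` etc.; `G.ad [x,y] = [ad x, ad y]` is the Jacobi identity of the Lie ring), so
`engel h = ker (ad h)`, and `dim engel h = dim ker (ad h) ≤ dim ker (ad e) ≤ dim ker (ad x) ≤ dim engel x` for all `x` (`sl2_ker`).  So `engel h` is a Cartan subalgebra (`engel_cartan`); `exists_CD_of`: `C` with
`C.bs (inl k) ∈ engel h`, `dim = n`, so these elements form a basis of `engel h ∋ h` : `h = C.toL (hx y)`.  `y` is integral: the eigenvalues of `C.F.d h` are integers (`sl2_diag` for `C.F.d e` etc., `d_lie`), they are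
`ev (C.wt a) y`, and `C.gen`. -/
theorem Principal.exists_CD {G : AffGrp} (hG : G.Semi) {e h f : G.Lie} (hp : Principal G e h f) :
    ∃ (n : ℕ) (D : RD n) (C : CD G D) (y : Fin n → ℤ),
      h = C.toL (CD.hx fun k => ((y k : ℤ) : ℂ)) ∧ ∀ x : G.Lie, G.br h x = 0 →
        ∃ y' : Fin n → ℂ, x = C.toL (CD.hx y') := by
  obtain ⟨p1, p2, p3, pmin⟩ := hp
  have had : ∀ x : G.Lie, G.ad x = LieAlgebra.ad ℂ G.Lie x := fun x => LinearMap.ext fun y => rfl
  have e1 : LieAlgebra.ad ℂ G.Lie h * LieAlgebra.ad ℂ G.Lie e -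
      LieAlgebra.ad ℂ G.Lie e * LieAlgebra.ad ℂ G.Lie h = (2 : ℂ) • LieAlgebra.ad ℂ G.Lie e := by
    rw [mtgYT3_ad, AffGrp.lie_eq, p1, map_smul]
  have e2 : LieAlgebra.ad ℂ G.Lie h * LieAlgebra.ad ℂ G.Lie f -
      LieAlgebra.ad ℂ G.Lie f * LieAlgebra.ad ℂ G.Lie h = (-2 : ℂ) • LieAlgebra.ad ℂ G.Lie f := by
    rw [mtgYT3_ad, AffGrp.lie_eq, p2, map_smul]
  have e3 : LieAlgebra.ad ℂ G.Lie e * LieAlgebra.ad ℂ G.Lie f -
      LieAlgebra.ad ℂ G.Lie f * LieAlgebra.ad ℂ G.Lie e = LieAlgebra.ad ℂ G.Lie h := by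
    rw [mtgYT3_ad, AffGrp.lie_eq, p3]
  obtain ⟨b, k, hb⟩ := sl2_diag _ _ _ e1 e2 e3
  have hle := sl2_ker _ _ _ e1 e2 e3
  have hker : (LieSubalgebra.engel ℂ h).toSubmodule = LinearMap.ker (LieAlgebra.ad ℂ G.Lie h) := by
    ext y
    constructor
    · intro hy
      obtain ⟨n, hn⟩ := (LieSubalgebra.mem_engel_iff ℂ h y).1 hy
      exact mtgYT3_ker b (fun i => ((k i : ℤ) : ℂ)) _ hb n y hn
    · intro hy
      refine (LieSubalgebra.mem_engel_iff ℂ h y).2 ⟨1, ?_⟩
      rw [pow_one]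
      exact hy
  have hmin : ∀ x : G.Lie, Module.finrank ℂ (LieSubalgebra.engel ℂ h) ≤
      Module.finrank ℂ (LieSubalgebra.engel ℂ x) := by
    intro x
    have f1 : Module.finrank ℂ (LieSubalgebra.engel ℂ h) =
        Module.finrank ℂ (LinearMap.ker (LieAlgebra.ad ℂ G.Lie h)) := by
      show Module.finrank ℂ (LieSubalgebra.engel ℂ h).toSubmodule = _
      rw [hker]
    have f2 : LinearMap.ker (LieAlgebra.ad ℂ G.Lie x) ≤ (LieSubalgebra.engel ℂ x).toSubmodule := by
      intro y hy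
      refine (LieSubalgebra.mem_engel_iff ℂ x y).2 ⟨1, ?_⟩
      rw [pow_one]
      exact hy
    have f3 : Module.finrank ℂ (LinearMap.ker (LieAlgebra.ad ℂ G.Lie x)) ≤
        Module.finrank ℂ (LieSubalgebra.engel ℂ x) := Submodule.finrank_mono f2
    have f4 := pmin x
    rw [had, had] at f4
    omega
  have hc := engel_cartan h hmin
  obtain ⟨n, D, C, hC, hn⟩ := exists_CD_of hG (LieSubalgebra.engel ℂ h)
  have hspan : ∀ x ∈ LieSubalgebra.engel ℂ h, ∃ y' : Fin n → ℂ, x = C.toL (CD.hx y') := by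
    intro x hx
    have g1 : LinearIndependent ℂ
        (fun k : Fin n => (⟨C.bs (Sum.inl k), hC k⟩ : LieSubalgebra.engel ℂ h)) := by
      have g2 : LinearIndependent ℂ (fun k : Fin n => C.bs (Sum.inl k)) :=
        C.bs.linearIndependent.comp Sum.inl Sum.inl_injective
      exact LinearIndependent.of_comp (LieSubalgebra.engel ℂ h).toSubmodule.subtype g2
    have g3 := g1.span_eq_top_of_card_eq_finrank' (by rw [Fintype.card_fin, hn])
    have g4 : (⟨x, hx⟩ : LieSubalgebra.engel ℂ h) ∈ Submodule.span ℂ (Set.range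
        (fun k : Fin n => (⟨C.bs (Sum.inl k), hC k⟩ : LieSubalgebra.engel ℂ h))) := by
      rw [g3]
      exact Submodule.mem_top
    obtain ⟨y', hy'⟩ := (Submodule.mem_span_range_iff_exists_fun ℂ).1 g4
    refine ⟨y', ?_⟩
    have g5 := congrArg (LieSubalgebra.engel ℂ h).toSubmodule.subtype hy'
    rw [map_sum] at g5
    rw [mtgYT3_toL]
    refine (Eq.trans ?_ g5).symm
    exact Finset.sum_congr rfl fun k _ => rfl
  obtain ⟨y0, hy0⟩ := hspan h (LieSubalgebra.self_mem_engel ℂ h)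
  -- integrality
  have hint : ∀ a, ∃ z : ℤ, ev (C.wt a) y0 = (z : ℂ) := by
    intro a
    have t1 := mtgYT3_T (C.F.d h) (C.F.d e) (C.F.d e) 2 (by
      rw [← C.F.d_lie, ← map_smul, AffGrp.lie_eq, p1])
    have t2 := mtgYT3_T (C.F.d h) (C.F.d f) (C.F.d f) (-2) (by
      rw [← C.F.d_lie, ← map_smul, AffGrp.lie_eq, p2])
    have t3 := mtgYT3_T (C.F.d e) (C.F.d f) (C.F.d h) 1 (by
      rw [← C.F.d_lie, one_smul, AffGrp.lie_eq, p3])
    rw [one_smul] at t3
    obtain ⟨b', k', hb'⟩ := sl2_diag _ _ _ t1 t2 t3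
    have t4 : Matrix.toLinAlgEquiv' (C.F.d h) (Pi.single a 1) =
        ev (C.wt a) y0 • (Pi.single a 1 : C.F.ι → ℂ) := by
      funext i
      show (C.F.d h).mulVec (Pi.single a 1) i = _
      rw [Matrix.mulVec_single_one, Pi.smul_apply, smul_eq_mul, hy0, mtgYT3_toL, map_sum]
      show (∑ k, C.F.d (y0 k • C.bs (Sum.inl k))) i a = _
      rw [Matrix.sum_apply]
      have t5 : ∀ k, C.F.d (y0 k • C.bs (Sum.inl k)) i a =
          if i = a then y0 k * ((C.wt a k : ℤ) : ℂ) else 0 := by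
        intro k
        rw [map_smul, Matrix.smul_apply, C.d_h, Matrix.diagonal_apply, smul_eq_mul, mul_ite, mul_zero]
        by_cases hia : i = a
        · subst hia
          rfl
        · rw [if_neg hia, if_neg hia]
      simp only [t5]
      by_cases hia : i = a
      · subst hia
        simp only [if_true, Pi.single_eq_same, mul_one]
        unfold ev
        exact Finset.sum_congr rfl fun k _ => mul_comm _ _
      · simp only [if_neg hia, Finset.sum_const_zero]
        rw [Pi.single_eq_of_ne hia, mul_zero]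
    have t6 : (Pi.single a 1 : C.F.ι → ℂ) ≠ 0 := by
      intro h0
      have := congrFun h0 a
      rw [Pi.single_eq_same] at this
      exact one_ne_zero this
    obtain ⟨i, hi⟩ := mtgYT3_eig b' (fun i => ((k' i : ℤ) : ℂ)) _ hb' t6 t4
    exact ⟨k' i, hi⟩
  have hall : ∀ μ : Fin n → ℤ, ∃ z : ℤ, ev μ y0 = (z : ℂ) := by
    intro μ
    have hμ : μ ∈ AddSubgroup.closure (Set.range C.wt) := by
      rw [C.gen]
      exact AddSubgroup.mem_top μ
    induction hμ using AddSubgroup.closure_induction with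
    | mem x hx =>
      obtain ⟨a, rfl⟩ := hx
      exact hint a
    | zero => exact ⟨0, by rw [MTD.ev_zero_left, Int.cast_zero]⟩
    | add x y _ _ hx hy =>
      obtain ⟨z, hz⟩ := hx
      obtain ⟨z', hz'⟩ := hy
      exact ⟨z + z', by rw [MTD.ev_add_left, hz, hz', Int.cast_add]⟩
    | neg x _ hx =>
      obtain ⟨z, hz⟩ := hx
      exact ⟨-z, by rw [MTD.ev_neg_left, hz, Int.cast_neg]⟩
  choose y hy using fun k : Fin n => hall (Pi.single k 1)
  have hy1 : y0 = fun k => ((y k : ℤ) : ℂ) := by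
    funext k
    rw [← hy k]
    unfold ev
    rw [Finset.sum_eq_single k]
    · rw [Pi.single_eq_same, Int.cast_one, one_mul]
    · intro j _ hj
      rw [Pi.single_eq_of_ne hj, Int.cast_zero, zero_mul]
    · intro hk
      exact (hk (Finset.mem_univ k)).elim
  refine ⟨n, D, C, y, by rw [← hy1]; exact hy0, fun x hx => ?_⟩
  refine hspan x ?_
  refine (LieSubalgebra.mem_engel_iff ℂ h x).2 ⟨1, ?_⟩
  rw [pow_one]
  exact hx

end Pool.Agent.MTG
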