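import Pool.Agent.MTG.YT0a

/-! # MTG-YT : principal triples -/

namespace Pool.Agent.MTG

open Pool.Agent.MTF Matrix
open Pool.Agent.MTD (ev)
open Pool.Agent.MTX.SLD (AA fm0)
open Pool.Agent.MTH
open Pool.Agent.MP_c45d35_ag (chi)

/-- auxiliary: `Ad` is multiplicative -/
theorem YT4_Ad_mul {G : AffGrp} (x y : G.X) (v : G.Lie) : G.Ad (x * y) v = G.Ad x (G.Ad y v) := by
  apply G.Lie_ext
  intro f
  show v.1 (G.cj (x * y) f) = v.1 (G.cj y (G.cj x f))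
  congr 1
  apply AffGrp.O_ext
  intro z
  show f.1 (x * y * z * (x * y)⁻¹) = f.1 (x * (y * z * y⁻¹) * x⁻¹)
  congr 1
  group

theorem YT4_Ad_one {G : AffGrp} (v : G.Lie) : G.Ad 1 v = v := by
  apply G.Lie_ext
  intro f
  show v.1 (G.cj 1 f) = v.1 f
  congr 1
  apply AffGrp.O_ext
  intro z
  show f.1 (1 * z * 1⁻¹) = f.1 z
  congr 1
  group

/-- auxiliary: `Ad g` as an equivalence -/
noncomputable def YT4_AdE {G : AffGrp} (g : G.X) : G.Lie ≃ₗ[ℂ] G.Lie :=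
  LinearEquiv.ofLinearMap (G.Ad g) (G.Ad g⁻¹)
    (LinearMap.ext fun v => by
      rw [LinearMap.comp_apply, ← YT4_Ad_mul, mul_inv_cancel, YT4_Ad_one, LinearMap.id_apply])
    (LinearMap.ext fun v => by
      rw [LinearMap.comp_apply, ← YT4_Ad_mul, inv_mul_cancel, YT4_Ad_one, LinearMap.id_apply])

/-- auxiliary: `Ad g` preserves the brackets -/
theorem YT4_lie {G : AffGrp} (F : MTF.Rep G) (hF : F.Faithful) (g : G.X) (x y : G.Lie) :
    ⁅G.Ad g x, G.Ad g y⁆ = G.Ad g ⁅x, y⁆ := by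
  apply AffGrp.d_injective F hF
  have h1 : F.ρ g⁻¹ * F.ρ g = 1 := by rw [← map_mul, inv_mul_cancel, map_one]
  rw [F.d_lie, F.d_Ad, F.d_Ad, F.d_Ad, F.d_lie]
  have h2 : ∀ a b : Matrix F.ι F.ι ℂ, F.ρ g * a * F.ρ g⁻¹ * (F.ρ g * b * F.ρ g⁻¹) =
      F.ρ g * (a * b) * F.ρ g⁻¹ := by
    intro a b
    calc F.ρ g * a * F.ρ g⁻¹ * (F.ρ g * b * F.ρ g⁻¹)
        = F.ρ g * a * (F.ρ g⁻¹ * F.ρ g) * b * F.ρ g⁻¹ := by simp only [Matrix.mul_assoc]
      _ = F.ρ g * (a * b) * F.ρ g⁻¹ := by rw [h1, Matrix.mul_one, Matrix.mul_assoc (F.ρ g) a b]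
  rw [h2, h2, Matrix.mul_sub, Matrix.sub_mul]

/-- auxiliary: conjugation on regular functions as an algebra morphism -/
def YT4_cjA {G : AffGrp} (g : G.X) : G.O →ₐ[ℂ] G.O where
  toFun := G.cj g
  map_one' := rfl
  map_mul' _ _ := rfl
  map_zero' := rfl
  map_add' _ _ := rfl
  commutes' _ := rfl

/-- auxiliary: the conjugated representation -/
noncomputable def YT4_rep {G : AffGrp} (F : MTF.Rep G) (g : G.X) : MTF.Rep G where
  ι := F.ι
  ρ := F.ρ.comp (MulAut.conj g⁻¹).toMonoidHom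
  mem a b := G.left_mem g⁻¹ (G.right_mem g⁻¹⁻¹ (F.mem a b))

theorem YT4_co {G : AffGrp} (F : MTF.Rep G) (g : G.X) (a b : F.ι) :
    (YT4_rep F g).co a b = G.cj g⁻¹ (F.co a b) := rfl

theorem YT4_cj_cj {G : AffGrp} (g : G.X) (f : G.O) : G.cj g (G.cj g⁻¹ f) = f := by
  apply AffGrp.O_ext
  intro y
  show f.1 (g⁻¹ * (g * y * g⁻¹) * g⁻¹⁻¹) = f.1 y
  congr 1
  group

theorem YT4_d {G : AffGrp} (F : MTF.Rep G) (g : G.X) (y : G.Lie) :
    (YT4_rep F g).d (G.Ad g y) = F.d y := by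
  ext a b
  show y.1 (G.cj g (G.cj g⁻¹ (F.co a b))) = y.1 (F.co a b)
  rw [YT4_cj_cj]

theorem YT4_faith {G : AffGrp} (F : MTF.Rep G) (hF : F.Faithful) (g : G.X) :
    (YT4_rep F g).Faithful := by
  have h1 : (Set.range fun p : F.ι × F.ι => (YT4_rep F g).co p.1 p.2) =
      YT4_cjA g⁻¹ '' (Set.range fun p : F.ι × F.ι => F.co p.1 p.2) := by
    rw [← Set.range_comp]
    rfl
  show Algebra.adjoin ℂ (Set.range fun p : F.ι × F.ι => (YT4_rep F g).co p.1 p.2) = ⊤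
  rw [h1, ← AlgHom.map_adjoin]
  have h2 : Algebra.adjoin ℂ (Set.range fun p : F.ι × F.ι => F.co p.1 p.2) = ⊤ := hF
  rw [h2, Algebra.map_top, AlgHom.range_eq_top]
  intro f
  refine ⟨G.cj g f, ?_⟩
  have h3 := YT4_cj_cj g⁻¹ f
  rw [inv_inv] at h3
  exact h3

/-- YT4.  Conjugation of Cartan data.  `bs' j = G.Ad g (bs j)` (a basis: `Ad g` is invertible, `Ad_mul`), `F'.ρ x = F.ρ (g⁻¹ * x * g)` (entries regular: `left_mem`, `right_mem`), so `F'.d (Ad g y) = F.d y`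
(`(Ad g y) (F'.co a b) = y (cj g (F'.co a b)) = y (F.co a b)`); `F'` is faithful: the algebra automorphism `f ↦ (x ↦ f (g⁻¹ x g))` maps the generators `F.co` to `F'.co`.  `Ad g` preserves brackets:
`F.d` is injective and `F.d (Ad g y) = ρ(g) F.d y ρ(g)⁻¹` (`d_Ad`, `d_lie`). -/
theorem CD.exists_conj {G : AffGrp} {n : ℕ} {D : RD n} (C : CD G D) (g : G.X) :
    ∃ C' : CD G D, ∀ j, C'.bs j = G.Ad g (C.bs j) := by
  have hL := fun x y => YT4_lie C.F C.faith g x y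
  refine ⟨{ bs := C.bs.map (YT4_AdE g)
            h_h := ?_
            h_e := ?_
            e_ng := ?_
            e_br := ?_
            e_co := ?_
            F := YT4_rep C.F g
            wt := C.wt
            faith := YT4_faith C.F C.faith g
            d_h := fun k => (YT4_d C.F g _).trans (C.d_h k)
            gen := C.gen }, fun j => rfl⟩
  · intro j k
    show ⁅G.Ad g (C.bs (Sum.inl j)), G.Ad g (C.bs (Sum.inl k))⁆ = 0
    rw [hL, C.h_h, map_zero]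
  · intro k γ
    show ⁅G.Ad g (C.bs (Sum.inl k)), G.Ad g (C.bs (Sum.inr γ))⁆ =
      ((γ.1 k : ℤ) : ℂ) • G.Ad g (C.bs (Sum.inr γ))
    rw [hL, C.h_e, map_smul]
  · intro γ
    show ⁅G.Ad g (C.bs (Sum.inr γ)), G.Ad g (C.bs (Sum.inr (D.ng γ)))⁆ =
      ∑ k, ((D.cp γ (Pi.single k 1) : ℤ) : ℂ) • G.Ad g (C.bs (Sum.inl k))
    rw [hL, C.e_ng, map_sum]
    exact Finset.sum_congr rfl fun k _ => map_smul _ _ _
  · intro γ δ μ h
    obtain ⟨c, hc⟩ := C.e_br γ δ μ h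
    refine ⟨c, ?_⟩
    show ⁅G.Ad g (C.bs (Sum.inr γ)), G.Ad g (C.bs (Sum.inr δ))⁆ = c • G.Ad g (C.bs (Sum.inr μ))
    rw [hL, hc, map_smul]
  · intro γ δ h h'
    show ⁅G.Ad g (C.bs (Sum.inr γ)), G.Ad g (C.bs (Sum.inr δ))⁆ = 0
    rw [hL, C.e_co γ δ h h', map_zero]

end Pool.Agent.MTG
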