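import Pool.Agent.MTG.YT4
import Pool.Agent.MTH.E2

/-! # MTG-YT : principal triples -/

namespace Pool.Agent.MTG

open Pool.Agent.MTF Matrix
open Pool.Agent.MTD (ev)
open Pool.Agent.MTX.SLD (AA fm0)
open Pool.Agent.MTH
open Pool.Agent.MP_c45d35_ag (chi)

theorem yt5_ev {n : ℕ} (μ : Fin n → ℤ) (y : Fin n → ℤ) :
    ev μ (fun k => ((y k : ℤ) : ℂ)) = ((ev μ y : ℤ) : ℂ) := by
  unfold ev
  push_cast
  rfl

theorem yt5_q : ∃ q : ℂ →+ ℚ, ∀ m : ℤ, q (m : ℂ) = m := by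
  obtain ⟨g, hg⟩ := LinearMap.exists_leftInverse_of_injective (Algebra.linearMap ℚ ℂ)
    (LinearMap.ker_eq_bot.2 (algebraMap ℚ ℂ).injective)
  refine ⟨g.toAddMonoidHom, fun m => ?_⟩
  have h1 : g (Algebra.linearMap ℚ ℂ (m : ℚ)) = (m : ℚ) := LinearMap.congr_fun hg (m : ℚ)
  rw [Algebra.linearMap_apply, map_intCast] at h1
  exact h1

/-- YT5.  Make `h` dominant.  `q : ℂ →+ ℚ` with `q (m) = m` for integers (a `ℚ`-linear form on `ℂ` with `q 1 = 1`), `u : D.W` from `exists_chamber` for `x = y`: `Pos (u • γ) ↔ 0 < ev γ y`.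
`φ : G.Pt ℂ` from `exists_nw u`: `Ad φ (hx x) = hx (wx u x)`; `y' := wx u y` (integral: `wx u y k = ev (u⁻¹ e_k) y`); `C'` from `exists_conj` with `g = (φ⁻¹).toX`: `C'.toL (hx y') = Ad g (C.toL (hx y')) =
C.toL (Adp C φ⁻¹ (hx y')) = C.toL (hx y)` (`Ad_toX`).  `0 < ev γ y' = ev (u⁻¹ γ) y ↔ Pos (u • u⁻¹ • γ)` (`ev_wx`).
The last statement: `C'.toL (hx x)` for all `x` are the `C.toL (hx x')` (same argument). -/
theorem CD.exists_dominant {G : AffGrp} {n : ℕ} {D : RD n} (C : CD G D) (y : Fin n → ℤ)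
    (hy : ∀ γ : D.Rt, ev γ.1 y ≠ 0) : ∃ (C' : CD G D) (y' : Fin n → ℤ),
      C.toL (CD.hx fun k => ((y k : ℤ) : ℂ)) = C'.toL (CD.hx fun k => ((y' k : ℤ) : ℂ)) ∧
      (∀ γ : D.Rt, D.Pos γ ↔ 0 < ev γ.1 y') ∧
      ∀ x : Fin n → ℂ, ∃ x' : Fin n → ℂ, C.toL (CD.hx x) = C'.toL (CD.hx x') := by
  obtain ⟨q, hq⟩ := yt5_q
  have hqy : ∀ γ : D.Rt, q (ev γ.1 fun k => ((y k : ℤ) : ℂ)) = ((ev γ.1 y : ℤ) : ℚ) := by
    intro γ
    rw [yt5_ev, hq]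
  obtain ⟨u, hu⟩ := exists_chamber (D := D) (fun k => ((y k : ℤ) : ℂ)) q (fun γ => by
    rw [hqy]
    exact_mod_cast hy γ)
  obtain ⟨φ, hφ⟩ := exists_nw C u
  obtain ⟨C', hC'⟩ := C.exists_conj (φ⁻¹).toX
  have key : ∀ x : Fin n → ℂ, C.toL (CD.hx x) = C'.toL (CD.hx (wx u x)) := by
    intro x
    have h1 : C'.toL (CD.hx (wx u x)) =
        G.Ad (φ⁻¹).toX (∑ j, (CD.hx (wx u x) : LR D ℂ) j • C.bs j) := by
      unfold CD.toL
      rw [map_sum]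
      refine Finset.sum_congr rfl fun j _ => ?_
      rw [hC' j, map_smul]
    rw [h1, Ad_toX, ← hφ x, ← Adp_mul, inv_mul_cancel, Adp_one]
    rfl
  refine ⟨C', wx u y, ?_, ?_, fun x => ⟨wx u x, key x⟩⟩
  · rw [key]
    congr 2
    funext k
    exact yt5_ev _ _
  · intro γ
    have h1 := hu (u⁻¹ • γ)
    rw [smul_inv_smul, hqy] at h1
    have h2 : ev γ.1 (wx u y) = ev (u⁻¹ • γ : D.Rt).1 y := by
      have h3 := ev_wx (D := D) u y (u⁻¹ • γ : D.Rt).1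
      have h4 : u.1 (u⁻¹ • γ : D.Rt).1 = γ.1 := by
        have h5 : (u • (u⁻¹ • γ) : D.Rt).1 = γ.1 := by rw [smul_inv_smul]
        exact h5
      rw [h4] at h3
      exact h3
    rw [h1, h2]
    exact Int.cast_pos

end Pool.Agent.MTG
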