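import Pool.Agent.MTG.YT3
import Pool.Agent.MTG.YT5

/-! # MTG-YT : principal triples -/

namespace Pool.Agent.MTG

open Pool.Agent.MTF Matrix
open Pool.Agent.MTD (ev)
open Pool.Agent.MTX.SLD (AA fm0)
open Pool.Agent.MTH
open Pool.Agent.MP_c45d35_ag (chi)

theorem yt6_comm {G : AffGrp} (x y : G.Lie) :
    G.ad x * G.ad y - G.ad y * G.ad x = G.ad (G.br x y) := by
  apply LinearMap.ext
  intro z
  show ⁅x, ⁅y, z⁆⁆ - ⁅y, ⁅x, z⁆⁆ = ⁅⁅x, y⁆, z⁆
  rw [lie_lie]

theorem yt6_smul {G : AffGrp} (c : ℂ) (x : G.Lie) : G.ad (c • x) = c • G.ad x := by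
  apply LinearMap.ext
  intro z
  show ⁅c • x, z⁆ = c • ⁅x, z⁆
  rw [smul_lie]

theorem yt6_ev {n : ℕ} (μ y : Fin n → ℤ) :
    ev μ (fun k => ((y k : ℤ) : ℂ)) = ((ev μ y : ℤ) : ℂ) := by
  simp [ev]

theorem yt6_bs {G : AffGrp} {n : ℕ} {D : RD n} (C : CD G D) (j : Fin n ⊕ D.Rt) :
    C.toL (Pi.single j 1) = C.bs j := by
  unfold CD.toL
  rw [Finset.sum_eq_single j]
  · rw [Pi.single_eq_same, one_smul]
  · intro i _ hi
    rw [Pi.single_eq_of_ne hi, zero_smul]
  · intro hj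
    exact absurd (Finset.mem_univ j) hj

section yt6

variable {G : AffGrp} {n : ℕ} {D : RD n} (C : CD G D) {y : Fin n → ℤ}

theorem yt6_adh (z : LR D ℂ) : G.ad (C.toL (CD.hx fun k => ((y k : ℤ) : ℂ))) (C.toL z) =
    C.toL (Sum.elim (fun _ => 0) fun γ => ((ev γ.1 y : ℤ) : ℂ) * z (Sum.inr γ)) := by
  show G.br _ _ = _
  rw [CD.toL_br, br_hx]
  simp only [yt6_ev]

theorem yt6_eig {z : LR D ℂ} {m : ℂ}
    (h : G.ad (C.toL (CD.hx fun k => ((y k : ℤ) : ℂ))) (C.toL z) = m • C.toL z) :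
    (∀ k, 0 = m * z (Sum.inl k)) ∧
      ∀ γ : D.Rt, ((ev γ.1 y : ℤ) : ℂ) * z (Sum.inr γ) = m * z (Sum.inr γ) := by
  rw [yt6_adh, ← CD.toL_smul] at h
  have h1 := C.toL_inj h
  exact ⟨fun k => congrFun h1 (Sum.inl k), fun γ => congrFun h1 (Sum.inr γ)⟩

theorem yt6_bs_eig (γ : D.Rt) : G.ad (C.toL (CD.hx fun k => ((y k : ℤ) : ℂ))) (C.bs (Sum.inr γ)) =
    ((ev γ.1 y : ℤ) : ℂ) • C.bs (Sum.inr γ) := by
  classical
  rw [← yt6_bs C, yt6_adh, ← CD.toL_smul]
  congr 1
  funext j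
  cases j with
  | inl k =>
    show (0 : ℂ) = ((ev γ.1 y : ℤ) : ℂ) • (Pi.single (Sum.inr γ) (1 : ℂ) : LR D ℂ) (Sum.inl k)
    rw [Pi.single_eq_of_ne (by simp), smul_zero]
  | inr δ =>
    show ((ev δ.1 y : ℤ) : ℂ) * (Pi.single (Sum.inr γ) (1 : ℂ) : LR D ℂ) (Sum.inr δ) =
      ((ev γ.1 y : ℤ) : ℂ) • (Pi.single (Sum.inr γ) (1 : ℂ) : LR D ℂ) (Sum.inr δ)
    by_cases hδ : δ = γ
    · rw [hδ, smul_eq_mul]
    · rw [Pi.single_eq_of_ne (fun h => hδ (Sum.inr_injective h)), mul_zero, smul_zero]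

theorem yt6_ht (x : Fin n → ℤ) : D.ht2 x = ∑ k, x k * D.ht2 (Pi.single k 1) := by
  let φ : (Fin n → ℤ) →+ ℤ := ⟨⟨D.ht2, by
    have h := D.ht2_smul 0 0
    rw [zero_smul, zero_mul] at h
    exact h⟩, D.ht2_add⟩
  have h : φ x = ∑ k, φ (x k • (Pi.single k 1 : Fin n → ℤ)) := by
    rw [← map_sum, ← eq_sum_single x]
  refine Eq.trans (show D.ht2 x = φ x from rfl) (h.trans ?_)
  exact Finset.sum_congr rfl fun k _ => D.ht2_smul (x k) _

theorem yt6_ng (γ : D.Rt) : ev (D.ng γ).1 y = - ev γ.1 y ∧ D.ht2 (D.ng γ).1 = - D.ht2 γ.1 := by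
  have h3 : (D.ng γ).1 = ((-1 : ℤ) • γ.1 : Fin n → ℤ) := by
    rw [neg_one_smul]
    rfl
  constructor
  · rw [h3, Pool.Agent.MTD.ev_smul_left]
    push_cast
    ring
  · rw [h3, D.ht2_smul]
    ring

/-- eigenvalues of `ad h` on a root vector in the image of `ad e` -/
theorem yt6_step {e : G.Lie} {γ : D.Rt} {k : ℤ} {w : G.Lie}
    (hw : G.ad (C.toL (CD.hx fun k => ((y k : ℤ) : ℂ))) w = ((k : ℤ) : ℂ) • w) (hk : k ≠ 0)
    (he : G.ad e w = C.bs (Sum.inr γ)) : ∃ δ : D.Rt, ev δ.1 y = k := by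
  by_contra hcon
  push Not at hcon
  obtain ⟨z, rfl⟩ := C.toL_surj w
  obtain ⟨h1, h2⟩ := yt6_eig C hw
  have hz : z = 0 := by
    funext j
    cases j with
    | inl i =>
      have h3 := h1 i
      exact (mul_eq_zero.1 h3.symm).resolve_left (by exact_mod_cast hk)
    | inr δ =>
      have h3 := h2 δ
      have h4 : (((ev δ.1 y - k : ℤ)) : ℂ) * z (Sum.inr δ) = 0 := by
        push_cast
        linear_combination h3
      refine (mul_eq_zero.1 h4).resolve_left ?_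
      have := hcon δ
      exact_mod_cast sub_ne_zero.2 this
  have h5 : C.toL z = 0 := by
    rw [hz]
    unfold CD.toL
    exact Finset.sum_eq_zero fun j _ => zero_smul _ _
  rw [h5, map_zero] at he
  exact C.bs.ne_zero _ he.symm

end yt6

/-- YT6.  The principal triple in coordinates.  Grading of `G.Lie` by the eigenvalues of `ad h`: `bs (inl k)` eigenvalue `0`, `bs (inr γ)` eigenvalue `γ(y) = ev γ y ≠ 0` (`hpos`; `ng γ`).
(0) eigenvalue `1` does not occur: `dim ker (ad h) + dim ker (ad h - 1) ≤ dim ker (ad e) ≤ dim ker (ad h)` (`sl2_ker`, `hp` with `x = h`); by `sl2_onto` no odd eigenvalue `≥ 1` occurs.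
(1) `e` has eigenvalue `2`: `e = ∑ z γ • bs (inr γ)` over the roots with `γ(y) = 2`.  Let `α` be simple, `α(y) = k + 2`, `k ≥ 0` (positive, even).  If `k > 0`: `bs (inr α) = [e, w]`, `w` of eigenvalue `k` (`sl2_onto`), so some
`[bs (inr γ), bs (inr δ)]` with `γ(y) = 2`, `δ(y) = k` has nonzero `α`-component, `α = γ + δ` (`sc_wt`), both positive (`hpos`); but `ht2 α = 2` and `ht2 γ, ht2 δ ≥ 2` (`ht2_sim`, `ht2_pos`), contradiction.  So
`α(y) = 2`, and `γ(y) = ht2 γ` for all roots (`exists_sum`, `ht2_add`; negatives), and `y k = ht2 (e_k)`: the difference of the two functionals vanishes on all roots, `D.span` (they span over `ℚ`; use `B`-dual vector,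
`exists_dual`).
(2) `γ(y) = 2` means `ht2 γ = 2`, so `γ` is simple (`exists_sum`: `γ = ∑ c α • α`, `∑ c = 1`).  `z α ≠ 0`: `bs (inr α) = [e, w]`, `w` of eigenvalue `0` (`sl2_onto`, `k = 0`), i.e. `w = toL (hx y')` (eigenvalue `0` only
the `inl` vectors), `[e, w] = - ∑ z β β(y') bs (inr β)`. -/
theorem Principal.coords {G : AffGrp} {n : ℕ} {D : RD n} (C : CD G D) {e h f : G.Lie}
    (hp : Principal G e h f) {y : Fin n → ℤ} (hy : h = C.toL (CD.hx fun k => ((y k : ℤ) : ℂ)))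
    (hpos : ∀ γ : D.Rt, D.Pos γ ↔ 0 < ev γ.1 y) :
    (∀ k, y k = D.ht2 (Pi.single k 1)) ∧ ∃ z : D.SRt → ℂ, (∀ α, z α ≠ 0) ∧
      e = ∑ α : D.SRt, z α • C.bs (Sum.inr α.1) := by
  classical
  obtain ⟨h1, h2, h3, h4⟩ := hp
  have hE1 : G.ad h * G.ad e - G.ad e * G.ad h = (2 : ℂ) • G.ad e := by
    rw [yt6_comm, h1, yt6_smul]
  have hE2 : G.ad h * G.ad f - G.ad f * G.ad h = (-2 : ℂ) • G.ad f := by
    rw [yt6_comm, h2, yt6_smul]
  have hE3 : G.ad e * G.ad f - G.ad f * G.ad e = G.ad h := by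
    rw [yt6_comm, h3]
  have honto := fun k hk v hv => sl2_onto (G.ad e) (G.ad h) (G.ad f) hE1 hE2 hE3 k hk v hv
  -- the eigenvalues are even
  have hone : LinearMap.ker (G.ad h - 1) = ⊥ := by
    have h5 := sl2_ker (G.ad e) (G.ad h) (G.ad f) hE1 hE2 hE3
    have h6 := h4 h
    have h7 : Module.finrank ℂ (LinearMap.ker (G.ad h - 1)) = 0 := by omega
    exact Submodule.finrank_eq_zero.1 h7
  have hodd : ∀ m : ℕ, ∀ γ : D.Rt, ev γ.1 y ≠ 2 * (m : ℤ) + 1 := by
    intro m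
    induction m with
    | zero =>
      intro γ hγ
      have h5 : C.bs (Sum.inr γ) ∈ LinearMap.ker (G.ad h - 1) := by
        rw [LinearMap.mem_ker, LinearMap.sub_apply, hy, yt6_bs_eig, hγ]
        simp
      rw [hone] at h5
      exact C.bs.ne_zero _ ((Submodule.mem_bot ℂ).1 h5)
    | succ m ih =>
      intro γ hγ
      obtain ⟨w, hw1, hw2⟩ := honto (2 * (m : ℤ) + 1) (by omega) (C.bs (Sum.inr γ)) (by
        rw [hy, yt6_bs_eig, hγ]
        congr 2)
      rw [hy] at hw1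
      obtain ⟨δ, hδ⟩ := yt6_step C hw1 (by omega) hw2
      exact ih δ hδ
  have hne : ∀ γ : D.Rt, ¬ D.Pos γ → ev γ.1 y < 0 := by
    intro γ hγ
    have h5 := (hpos (D.ng γ)).1 ((D.pos_ng γ).2 hγ)
    rw [(yt6_ng γ).1] at h5
    omega
  obtain ⟨z, rfl⟩ := C.toL_surj e
  have hz : (∀ k, z (Sum.inl k) = 0) ∧ ∀ γ : D.Rt, z (Sum.inr γ) ≠ 0 → ev γ.1 y = 2 := by
    have h5 : G.ad (C.toL (CD.hx fun k => ((y k : ℤ) : ℂ))) (C.toL z) = (2 : ℂ) • C.toL z := by
      rw [← hy]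
      exact h1
    obtain ⟨h6, h7⟩ := yt6_eig C h5
    refine ⟨fun k => (mul_eq_zero.1 (h6 k).symm).resolve_left two_ne_zero, fun γ hγ => ?_⟩
    have h8 := mul_right_cancel₀ hγ (h7 γ)
    exact_mod_cast h8
  have hsim : ∀ α : D.Rt, D.Sim α → ev α.1 y = 2 := by
    intro α hα
    have h5 : 0 < ev α.1 y := (hpos α).1 hα.1
    by_contra h6
    have h7 : ev α.1 y ≠ 1 := by
      have := hodd 0 α
      simpa using this
    have hk : 0 < ev α.1 y - 2 := by omega
    obtain ⟨w, hw1, hw2⟩ := honto (ev α.1 y - 2) (by omega) (C.bs (Sum.inr α)) (by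
      rw [hy, yt6_bs_eig, sub_add_cancel])
    rw [hy] at hw1
    obtain ⟨z', rfl⟩ := C.toL_surj w
    obtain ⟨h8, h9⟩ := yt6_eig C hw1
    have h10 : C.br z z' = Pi.single (Sum.inr α) 1 := by
      apply C.toL_inj
      rw [yt6_bs, ← CD.toL_br]
      exact hw2
    have h11 := congrFun h10 (Sum.inr α)
    rw [Pi.single_eq_same] at h11
    have h12 : C.br z z' (Sum.inr α) ≠ 0 := by
      rw [h11]
      exact one_ne_zero
    unfold CD.br at h12
    obtain ⟨i, -, hi⟩ := Finset.exists_ne_zero_of_sum_ne_zero h12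
    obtain ⟨j, -, hj⟩ := Finset.exists_ne_zero_of_sum_ne_zero hi
    have hzi : z i ≠ 0 := fun h0 => hj (by rw [h0, zero_mul, zero_mul])
    have hzj : z' j ≠ 0 := fun h0 => hj (by rw [h0, mul_zero, zero_mul])
    have hsc : C.sc i j (Sum.inr α) ≠ 0 := fun h0 => hj (by rw [h0, map_zero, mul_zero])
    have hwt := sc_wt C i j (Sum.inr α) hsc
    cases i with
    | inl k => exact hzi (hz.1 k)
    | inr γ =>
      cases j with
      | inl k =>
        have h13 := h8 k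
        have h14 := (mul_eq_zero.1 h13.symm).resolve_right hzj
        have h15 : ev α.1 y - 2 = 0 := by exact_mod_cast h14
        omega
      | inr δ =>
        have h13 : ev δ.1 y = ev α.1 y - 2 := by
          have h14 := mul_right_cancel₀ hzj (h9 δ)
          exact_mod_cast h14
        have hγ : D.Pos γ := (hpos γ).2 (by rw [hz.2 γ hzi]; norm_num)
        have hδ : D.Pos δ := (hpos δ).2 (by rw [h13]; exact hk)
        have h15 : α.1 = γ.1 + δ.1 := hwt
        have h16 : D.ht2 α.1 = 2 := D.ht2_sim ⟨α, hα⟩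
        rw [h15, D.ht2_add] at h16
        have h17 := D.ht2_pos hγ
        have h18 := D.ht2_pos hδ
        omega
  have hcp : ∀ γ : D.Rt, D.Pos γ → ev γ.1 y = D.ht2 γ.1 := by
    intro γ hγ
    obtain ⟨c, hc⟩ := D.exists_sum hγ
    let φ : (Fin n → ℤ) →+ ℤ := ⟨⟨D.ht2, by
      have h := D.ht2_smul 0 0
      rw [zero_smul, zero_mul] at h
      exact h⟩, D.ht2_add⟩
    let ψ : (Fin n → ℤ) →+ ℤ := ⟨⟨fun μ => ev μ y, Pool.Agent.MTD.ev_zero_left y⟩,
      fun μ ν => Pool.Agent.MTD.ev_add_left μ ν y⟩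
    have h5 : ψ γ.1 = φ γ.1 := by
      rw [hc, map_sum, map_sum]
      refine Finset.sum_congr rfl fun α _ => ?_
      rw [map_nsmul, map_nsmul]
      congr 1
      have h6 : ψ α.1.1 = 2 := hsim α.1 α.2
      have h7 : φ α.1.1 = 2 := D.ht2_sim α
      rw [h6, h7]
    exact h5
  have hc : ∀ γ : D.Rt, ev γ.1 y = D.ht2 γ.1 := by
    intro γ
    rcases D.pos_or_neg γ with h5 | h5
    · exact hcp γ h5
    · have h6 := hcp _ h5
      rw [(yt6_ng γ).1, (yt6_ng (y := y) γ).2] at h6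
      omega
  refine ⟨fun k => ?_, fun α => z (Sum.inr α.1), fun α => ?_, ?_⟩
  · obtain ⟨p, d, hd, hpd⟩ := D.exists_dual fun i => y i - D.ht2 (Pi.single i 1)
    have h5 : p = 0 := by
      refine D.span p fun γ hγ => ?_
      have h6 : D.B γ p = 0 := by
        rw [D.B_comm, hpd]
        have h7 := hc ⟨γ, hγ⟩
        have h8 : ∑ i, (y i - D.ht2 (Pi.single i 1)) * γ i = ev γ y - D.ht2 γ := by
          rw [yt6_ht (D := D) γ]
          unfold ev
          rw [← Finset.sum_sub_distrib]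
          refine Finset.sum_congr rfl fun i _ => ?_
          push_cast
          ring
        have h9 : ev γ y = D.ht2 γ := h7
        rw [h8, h9, sub_self, mul_zero]
      exact h6
    have h6 := hpd (Pi.single k 1)
    rw [h5, D.B_zero_left, Finset.sum_eq_single k] at h6
    · rw [Pi.single_eq_same, mul_one] at h6
      have h7 := (mul_eq_zero.1 h6.symm).resolve_left hd.ne'
      omega
    · intro i _ hi
      rw [Pi.single_eq_of_ne hi, mul_zero]
    · intro hk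
      exact absurd (Finset.mem_univ k) hk
  · obtain ⟨w, hw1, hw2⟩ := honto 0 (by norm_num) (C.bs (Sum.inr α.1)) (by
      rw [hy, yt6_bs_eig, hsim α.1 α.2]
      norm_num)
    rw [hy] at hw1
    obtain ⟨z', rfl⟩ := C.toL_surj w
    obtain ⟨h8, h9⟩ := yt6_eig C hw1
    have hz' : z' = CD.hx fun k => z' (Sum.inl k) := by
      funext j
      cases j with
      | inl k => rfl
      | inr γ =>
        have h10 := h9 γ
        have h11 : ((ev γ.1 y : ℤ) : ℂ) * z' (Sum.inr γ) = 0 := by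
          rw [h10]
          simp
        have h12 : ev γ.1 y ≠ 0 := by
          by_cases hγ : D.Pos γ
          · exact ((hpos γ).1 hγ).ne'
          · exact (hne γ hγ).ne
        exact (mul_eq_zero.1 h11).resolve_left (by exact_mod_cast h12)
    intro h0
    have h10 : C.br z z' = Pi.single (Sum.inr α.1) 1 := by
      apply C.toL_inj
      rw [yt6_bs, ← CD.toL_br]
      exact hw2
    have h11 := congrFun h10 (Sum.inr α.1)
    rw [Pi.single_eq_same, br_neg, hz', br_hx] at h11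
    have h12 : -(ev α.1.1 (fun k => z' (Sum.inl k)) * z (Sum.inr α.1)) = 1 := h11
    have h0' : z (Sum.inr α.1) = 0 := h0
    rw [h0', mul_zero, neg_zero] at h12
    exact zero_ne_one h12
  · have h5 : C.toL z = ∑ γ : D.Rt, z (Sum.inr γ) • C.bs (Sum.inr γ) := by
      unfold CD.toL
      rw [Fintype.sum_sum_type]
      rw [Finset.sum_eq_zero fun k _ => by rw [hz.1 k, zero_smul], zero_add]
    rw [h5]
    symm
    refine Finset.sum_of_injOn (fun α : D.SRt => α.1) (fun a _ b _ h => Subtype.ext h)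
      (fun _ _ => Finset.mem_coe.2 (Finset.mem_univ _)) ?_ (fun _ _ => rfl)
    intro γ _ hγ
    by_contra hcon
    have hzγ : z (Sum.inr γ) ≠ 0 := fun h0 => hcon (by rw [h0, zero_smul])
    apply hγ
    have h6 := hz.2 γ hzγ
    have hγp : D.Pos γ := (hpos γ).2 (by rw [h6]; norm_num)
    have h7 : D.ht2 γ.1 = 2 := by rw [← hc γ, h6]
    obtain ⟨c, hcs⟩ := D.exists_sum hγp
    let φ : (Fin n → ℤ) →+ ℤ := ⟨⟨D.ht2, by
      have h := D.ht2_smul 0 0
      rw [zero_smul, zero_mul] at h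
      exact h⟩, D.ht2_add⟩
    have h8 : φ γ.1 = ∑ α : D.SRt, (c α : ℤ) * 2 := by
      rw [hcs, map_sum]
      refine Finset.sum_congr rfl fun α _ => ?_
      rw [map_nsmul]
      have h9 : φ α.1.1 = 2 := D.ht2_sim α
      rw [h9, nsmul_eq_mul]
    have h9 : φ γ.1 = 2 := h7
    rw [h9, ← Finset.sum_mul] at h8
    have h10 : ∑ α : D.SRt, (c α : ℤ) = 1 := by omega
    have h11 : ∑ α : D.SRt, c α = 1 := by exact_mod_cast h10
    obtain ⟨α, -, hα⟩ : ∃ α ∈ (Finset.univ : Finset D.SRt), c α ≠ 0 := by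
      apply Finset.exists_ne_zero_of_sum_ne_zero
      rw [h11]
      exact one_ne_zero
    have h12 : ∀ β : D.SRt, β ≠ α → c β = 0 := by
      intro β hβ
      have h13 : c α + c β ≤ ∑ α : D.SRt, c α := by
        have h14 : ∑ i ∈ ({α, β} : Finset D.SRt), c i ≤ ∑ i : D.SRt, c i :=
          Finset.sum_le_sum_of_subset (Finset.subset_univ _)
        rw [Finset.sum_pair hβ.symm] at h14
        exact h14
      omega
    have h13 : c α = 1 := by
      rw [Finset.sum_eq_single α (fun β _ hβ => h12 β hβ)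
        (fun h => absurd (Finset.mem_univ α) h)] at h11
      exact h11
    have h14 : γ.1 = α.1.1 := by
      rw [hcs, Finset.sum_eq_single α (fun β _ hβ => by rw [h12 β hβ, zero_smul])
        (fun h => absurd (Finset.mem_univ α) h), h13, one_smul]
    exact ⟨α, Finset.mem_coe.2 (Finset.mem_univ _), Subtype.ext h14.symm⟩

end Pool.Agent.MTG
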