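import Pool.Agent.MTG.YH2b

/-! # MTG-YT : principal triples -/

namespace Pool.Agent.MTG

open Pool.Agent.MTF Matrix
open Pool.Agent.MTD (ev)
open Pool.Agent.MTX.SLD (AA fm0)
open Pool.Agent.MTH
open Pool.Agent.MP_c45d35_ag (chi)

theorem yt7_B {n : ℕ} (D : RD n) (x y : Fin n → ℤ) :
    ((D.B x y : ℤ) : ℂ) = ev x (fun j => ((∑ i, D.C j i * y i : ℤ) : ℂ)) := by
  unfold RD.B Pool.Agent.MTX.bil ev
  push_cast
  refine Finset.sum_congr rfl fun j _ => ?_
  rw [Finset.mul_sum]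
  refine Finset.sum_congr rfl fun i _ => ?_
  ring

theorem yt7_ev_sum {n : ℕ} {ι : Type*} (s : Finset ι) (μ : Fin n → ℤ) (c : ι → ℂ)
    (v : ι → Fin n → ℂ) : ev μ (fun j => ∑ i ∈ s, c i * v i j) = ∑ i ∈ s, c i * ev μ (v i) := by
  unfold ev
  simp only [Finset.mul_sum]
  rw [Finset.sum_comm]
  exact Finset.sum_congr rfl fun i _ => Finset.sum_congr rfl fun j _ => by ring

theorem yt7_chi {n : ℕ} (μ : Fin n → ℤ) (x : Fin n → ℂ) (t : Fin n → ℂˣ)
    (ht : ∀ k, ((t k : ℂˣ) : ℂ) = Complex.exp (x k)) :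
    ((chi μ t : ℂˣ) : ℂ) = Complex.exp (ev μ x) := by
  unfold chi ev
  rw [Complex.exp_sum, Units.coe_prod]
  refine Finset.prod_congr rfl fun k _ => ?_
  rw [Units.val_zpow_eq_zpow_val, ht, ← Complex.exp_int_mul]

/-- YT7.  `z α = exp (w α)`; the simple roots are linearly independent (`indep_sim`: over `ℤ`, hence over `ℚ` and `ℂ`), so there is `x : Fin n → ℂ` with `ev α x = w α` for all simple `α`; `t k = exp (x k)`. -/
theorem RD.exists_torus_sim {n : ℕ} (D : RD n) (z : D.SRt → ℂ) (hz : ∀ α, z α ≠ 0) :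
    ∃ t : Fin n → ℂˣ, ∀ α : D.SRt, ((chi α.1.1 t : ℂˣ) : ℂ) = z α := by
  classical
  choose p hp0 hp1 using fun α : D.SRt => D.exists_fund α
  let v : D.SRt → Fin n → ℂ := fun α j => ((∑ i, D.C j i * p α i : ℤ) : ℂ)
  have hv : ∀ α β : D.SRt, ev β.1.1 (v α) = ((D.B β.1.1 (p α) : ℤ) : ℂ) := fun α β =>
    (yt7_B D β.1.1 (p α)).symm
  let d : D.SRt → ℂ := fun α => ((D.B α.1.1 (p α) : ℤ) : ℂ)
  have hd : ∀ α, d α ≠ 0 := by
    intro α
    have h1 := D.cp_cf α.1 (p α)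
    have h2 : D.B α.1.1 (p α) ≠ 0 := by
      rw [← h1]
      exact mul_ne_zero (hp1 α).ne' (D.cf_pos _).ne'
    exact Int.cast_ne_zero.2 h2
  have h0 : ∀ α β : D.SRt, β ≠ α → D.B β.1.1 (p α) = 0 := by
    intro α β h
    rw [← D.cp_cf, hp0 α β h, zero_mul]
  let x : Fin n → ℂ := fun j => ∑ α : D.SRt, (Complex.log (z α) / d α) * v α j
  refine ⟨fun k => Units.mk0 (Complex.exp (x k)) (Complex.exp_ne_zero _), fun β => ?_⟩
  rw [yt7_chi β.1.1 x _ (fun k => rfl)]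
  have h3 : ev β.1.1 x = Complex.log (z β) := by
    show ev β.1.1 (fun j => ∑ α : D.SRt, (Complex.log (z α) / d α) * v α j) = _
    rw [yt7_ev_sum, Finset.sum_eq_single β]
    · rw [hv]
      exact div_mul_cancel₀ _ (hd β)
    · intro α _ hαβ
      rw [hv, h0 α β hαβ.symm, Int.cast_zero, mul_zero]
    · intro h
      exact absurd (Finset.mem_univ β) h
  rw [h3, Complex.exp_log (hz β)]

end Pool.Agent.MTG
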