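import Pool.Agent.MTG.YT6
import Pool.Agent.MTG.YT7

/-! # MTG-YT : principal triples -/

namespace Pool.Agent.MTG

open Pool.Agent.MTF Matrix
open Pool.Agent.MTD (ev)
open Pool.Agent.MTX.SLD (AA fm0)
open Pool.Agent.MTH
open Pool.Agent.MP_c45d35_ag (chi)

theorem yt8_ev {n : ℕ} (μ : Fin n → ℤ) (y : Fin n → ℤ) :
    ev μ (fun k => ((y k : ℤ) : ℂ)) = ((ev μ y : ℤ) : ℂ) := by
  unfold ev
  push_cast
  rfl

theorem yt8_conj {G : AffGrp} {n : ℕ} {D : RD n} (C C' : CD G D) (φ : G.Pt ℂ)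
    (hC : ∀ j, C'.bs j = G.Ad φ.toX (C.bs j)) (z : LR D ℂ) :
    C'.toL z = C.toL (Adp C φ z) := by
  have h1 : C'.toL z = G.Ad φ.toX (∑ j, z j • C.bs j) := by
    unfold CD.toL
    rw [map_sum]
    refine Finset.sum_congr rfl fun j _ => ?_
    rw [hC j, map_smul]
  rw [h1, Ad_toX]
  rfl

theorem yt8_sl2 {G : AffGrp} {e h f : G.Lie} (h1 : G.br h e = (2 : ℂ) • e)
    (h2 : G.br h f = (-2 : ℂ) • f) (h3 : G.br e f = h) :
    G.ad h * G.ad e - G.ad e * G.ad h = (2 : ℂ) • G.ad e ∧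
    G.ad h * G.ad f - G.ad f * G.ad h = (-2 : ℂ) • G.ad f ∧
    G.ad e * G.ad f - G.ad f * G.ad e = G.ad h := by
  have key : ∀ x y v : G.Lie, G.br x (G.br y v) - G.br y (G.br x v) = G.br (G.br x y) v :=
    fun x y v => (lie_lie x y v).symm
  have hs : ∀ (c : ℂ) (x v : G.Lie), G.br (c • x) v = c • G.br x v := fun c x v => smul_lie c x v
  refine ⟨?_, ?_, ?_⟩
  · refine LinearMap.ext fun v => ?_
    show G.br h (G.br e v) - G.br e (G.br h v) = (2 : ℂ) • G.br e v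
    rw [key, h1, hs]
  · refine LinearMap.ext fun v => ?_
    show G.br h (G.br f v) - G.br f (G.br h v) = (-2 : ℂ) • G.br f v
    rw [key, h2, hs]
  · refine LinearMap.ext fun v => ?_
    show G.br e (G.br f v) - G.br f (G.br e v) = G.br h v
    rw [key, h3]

/-- YT8.  Every principal triple is standard for suitable Cartan data.  `Principal.exists_CD`: `C₀`, `y₀`; `ev γ y₀ ≠ 0` for all roots: otherwise `[h, bs (inr γ)] = 0` and `bs (inr γ)` would be in the span of the `inl`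
vectors.  `exists_dominant`: `C₁`, `y₁`; `Principal.coords`: `h = C₁.toL (hx hv)`, `e = ∑ z α • C₁.bs (inr α)`; `t` from `exists_torus_sim`, `C := ` conjugate of `C₁` by `(tq C₁ t).toX` (`exists_conj`):
`C.bs (inr α) = chi α t • C₁.bs (inr α)`, `C.bs (inl k) = C₁.bs (inl k)` (`Ad_toX`, `Adp_tq`).  So `e = C.toL ee`, `h = C.toL (hx hv)`.  `f - C.toL ff` commutes with `e` and has `ad h`-eigenvalue `-2` (`std_triple`, `toL_br`), so it
is `0` (`sl2_inj'`). -/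
theorem Principal.exists_std {G : AffGrp} (hG : G.Semi) {e h f : G.Lie} (hp : Principal G e h f) :
    ∃ (n : ℕ) (D : RD n) (C : CD G D), e = C.toL (CD.ee D ℂ) ∧ h = C.toL (CD.hx (hv D ℂ)) ∧
      f = C.toL (CD.ff D ℂ) := by
  classical
  obtain ⟨n, D, C₀, y₀, hh0, hcen⟩ := Principal.exists_CD hG hp
  have hy0 : ∀ γ : D.Rt, ev γ.1 y₀ ≠ 0 := by
    intro γ h0
    have h1 : G.br h (C₀.toL (Pi.single (Sum.inr γ) (1 : ℂ))) = 0 := by
      rw [hh0, C₀.toL_br, br_hx]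
      have h2 : (Sum.elim (fun _ => 0) fun δ : D.Rt =>
          ev δ.1 (fun k => ((y₀ k : ℤ) : ℂ)) *
            (Pi.single (Sum.inr γ) (1 : ℂ) : LR D ℂ) (Sum.inr δ) : LR D ℂ) = 0 := by
        funext j
        rcases j with k | δ
        · rfl
        · show ev δ.1 (fun k => ((y₀ k : ℤ) : ℂ)) *
            (Pi.single (Sum.inr γ) (1 : ℂ) : LR D ℂ) (Sum.inr δ) = 0
          by_cases hd : δ = γ
          · rw [hd, yt8_ev, h0]
            simp
          · rw [Pi.single_eq_of_ne (fun h => hd (Sum.inr_injective h)), mul_zero]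
      rw [h2]
      unfold CD.toL
      exact Finset.sum_eq_zero fun j _ => zero_smul _ _
    obtain ⟨y', hy'⟩ := hcen _ h1
    have h3 := congrFun (C₀.toL_inj hy') (Sum.inr γ)
    rw [Pi.single_eq_same] at h3
    exact one_ne_zero (h3.trans rfl : (1 : ℂ) = 0)
  obtain ⟨C₁, y₁, hh1, hpos, -⟩ := C₀.exists_dominant y₀ hy0
  rw [← hh0] at hh1
  obtain ⟨hk, z, hz, he⟩ := Principal.coords C₁ hp hh1 hpos
  obtain ⟨t, ht⟩ := D.exists_torus_sim z hz
  obtain ⟨C, hC⟩ := C₁.exists_conj (tq C₁ t).toX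
  have hCL := yt8_conj C₁ C (tq C₁ t) hC
  have hE : e = C.toL (CD.ee D ℂ) := by
    rw [hCL, Adp_tq, he]
    unfold CD.toL
    rw [Fintype.sum_sum_type]
    have h1 : ∑ k : Fin n, (Sum.elim (fun k => CD.ee D ℂ (Sum.inl k)) (fun γ : D.Rt =>
        ((chi γ.1 t : ℂˣ) : ℂ) * CD.ee D ℂ (Sum.inr γ)) : LR D ℂ) (Sum.inl k) •
          C₁.bs (Sum.inl k) = 0 := by
      refine Finset.sum_eq_zero fun k _ => ?_
      show (0 : ℂ) • C₁.bs (Sum.inl k) = 0
      exact zero_smul _ _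
    have h2 : ∀ γ : D.Rt, (Sum.elim (fun k => CD.ee D ℂ (Sum.inl k)) (fun γ : D.Rt =>
        ((chi γ.1 t : ℂˣ) : ℂ) * CD.ee D ℂ (Sum.inr γ)) : LR D ℂ) (Sum.inr γ) •
          C₁.bs (Sum.inr γ) = if D.Sim γ then ((chi γ.1 t : ℂˣ) : ℂ) • C₁.bs (Sum.inr γ) else 0 := by
      intro γ
      show (((chi γ.1 t : ℂˣ) : ℂ) * (if D.Sim γ then 1 else 0)) • C₁.bs (Sum.inr γ) = _
      by_cases hs : D.Sim γ
      · rw [if_pos hs, if_pos hs, mul_one]
      · rw [if_neg hs, if_neg hs, mul_zero, zero_smul]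
    rw [h1, zero_add, Finset.sum_congr rfl fun γ _ => h2 γ, ← Finset.sum_filter,
      Finset.sum_subtype (p := fun γ => D.Sim γ) (Finset.univ.filter fun γ => D.Sim γ)
        (fun x => by simp)]
    refine Finset.sum_congr rfl fun α _ => ?_
    rw [ht α]
  have hH : h = C.toL (CD.hx (hv D ℂ)) := by
    rw [hCL, Adp_tq, hh1]
    congr 1
    funext j
    rcases j with k | γ
    · show ((y₁ k : ℤ) : ℂ) = hv D ℂ k
      rw [hk k]
      rfl
    · show (0 : ℂ) = ((chi γ.1 t : ℂˣ) : ℂ) * 0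
      rw [mul_zero]
  refine ⟨n, D, C, hE, hH, ?_⟩
  obtain ⟨hp1, hp2, hp3, -⟩ := hp
  obtain ⟨a1, a2, a3⟩ := yt8_sl2 hp1 hp2 hp3
  obtain ⟨-, s2, s3⟩ := C.std_triple
  have b2 : G.br h (C.toL (CD.ff D ℂ)) = (-2 : ℂ) • C.toL (CD.ff D ℂ) := by
    rw [hH, C.toL_br, s2, C.toL_smul]
  have b3 : G.br e (C.toL (CD.ff D ℂ)) = h := by
    rw [hE, C.toL_br, s3, hH]
  have hv1 : G.ad h (f - C.toL (CD.ff D ℂ)) = (((-2 : ℤ)) : ℂ) • (f - C.toL (CD.ff D ℂ)) := by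
    rw [map_sub]
    show G.br h f - G.br h (C.toL (CD.ff D ℂ)) = _
    rw [hp2, b2, ← smul_sub]
    norm_num
  have hv2 : G.ad e (f - C.toL (CD.ff D ℂ)) = 0 := by
    rw [map_sub]
    show G.br e f - G.br e (C.toL (CD.ff D ℂ)) = _
    rw [hp3, b3, sub_self]
  have h0 := sl2_inj' (G.ad e) (G.ad h) (G.ad f) a1 a2 a3 (-2) (by norm_num) _ hv1 hv2
  exact sub_eq_zero.1 h0

end Pool.Agent.MTG
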