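import Pool.Agent.MTG.YT1

/-! # MTG-YT : principal triples -/

namespace Pool.Agent.MTG

open Pool.Agent.MTF Matrix
open Pool.Agent.MTD (ev)
open Pool.Agent.MTX.SLD (AA fm0)
open Pool.Agent.MTH
open Pool.Agent.MP_c45d35_ag (chi)

/-- the rank can only go up -/
theorem yt9a_rank {V W : Type} [AddCommGroup V] [Module ℂ V] [AddCommGroup W] [Module ℂ W]
    [FiniteDimensional ℂ W] (A B : V →ₗ[ℂ] W) :
    ∃ p : Polynomial ℂ, p ≠ 0 ∧ ∀ t : ℂ, p.eval t ≠ 0 →
      Module.finrank ℂ (LinearMap.range A) ≤ Module.finrank ℂ (LinearMap.range (A + t • B)) := by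
  obtain ⟨m, hm⟩ : ∃ m, m = Module.finrank ℂ (LinearMap.range A) := ⟨_, rfl⟩
  obtain ⟨b⟩ : Nonempty (Module.Basis (Fin m) ℂ (LinearMap.range A)) := ⟨Module.finBasisOfFinrankEq _ _ hm.symm⟩
  have hv : ∀ i, ∃ v, A v = (b i : W) := fun i => (b i).2
  choose v hv using hv
  obtain ⟨π, hπ⟩ := LinearMap.exists_extend b.equivFun.toLinearMap
  have h1 : ∀ i j, π (A (v i)) j = if i = j then 1 else 0 := by
    intro i j
    have h2 := LinearMap.congr_fun hπ (b i)
    rw [LinearMap.comp_apply, Submodule.subtype_apply] at h2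
    rw [hv, h2]
    show b.equivFun (b i) j = _
    rw [Module.Basis.equivFun_self]
  let M : Matrix (Fin m) (Fin m) (Polynomial ℂ) := Matrix.of fun i j =>
    Polynomial.C (π (A (v i)) j) + Polynomial.X * Polynomial.C (π (B (v i)) j)
  have hM : ∀ t : ℂ, M.det.eval t = (Matrix.of fun i j => π ((A + t • B) (v i)) j).det := by
    intro t
    rw [← Polynomial.coe_evalRingHom, RingHom.map_det]
    congr 1
    ext i j
    rw [RingHom.mapMatrix_apply, Matrix.map_apply, Polynomial.coe_evalRingHom]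
    simp only [M, Matrix.of_apply, Polynomial.eval_add, Polynomial.eval_C, Polynomial.eval_mul,
      Polynomial.eval_X, LinearMap.add_apply, LinearMap.smul_apply, map_add, map_smul,
      Pi.add_apply, Pi.smul_apply, smul_eq_mul]
  refine ⟨M.det, ?_, ?_⟩
  · intro h0
    have h2 := hM 0
    rw [h0, Polynomial.eval_zero] at h2
    have h3 : (Matrix.of fun i j => π ((A + (0 : ℂ) • B) (v i)) j) = (1 : Matrix (Fin m) (Fin m) ℂ) := by
      ext i j
      rw [Matrix.of_apply, zero_smul, add_zero, h1, Matrix.one_apply]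
    rw [h3, Matrix.det_one] at h2
    exact zero_ne_one h2
  · intro t ht
    rw [hM] at ht
    have h2 := Matrix.linearIndependent_rows_of_det_ne_zero ht
    have h3 : LinearIndependent ℂ (fun i => (⟨(A + t • B) (v i), ⟨v i, rfl⟩⟩ :
        LinearMap.range (A + t • B))) := by
      refine LinearIndependent.of_comp (π ∘ₗ Submodule.subtype _) ?_
      exact h2
    have h4 := h3.fintype_card_le_finrank
    rw [Fintype.card_fin] at h4
    rw [← hm]
    exact h4

section
attribute [local instance 100] LieRing.ofAssociativeRing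

/-- the points of a line through a regular point are regular, with finitely many exceptions -/
theorem yt9a_reg {L : Type} [LieRing L] [LieAlgebra ℂ L] [FiniteDimensional ℂ L] (x : L) {y : L}
    (hy : LieAlgebra.IsRegular ℂ y) :
    ∃ q : Polynomial ℂ, q ≠ 0 ∧ ∀ t : ℂ, q.eval t ≠ 0 → LieAlgebra.IsRegular ℂ (x + t • (y - x)) := by
  classical
  obtain ⟨b, hb⟩ : ∃ b : Module.Basis (Fin (Module.finrank ℂ L)) ℂ L, b = Module.finBasis ℂ L := ⟨_, rfl⟩
  obtain ⟨F, hF⟩ : ∃ F : MvPolynomial (Fin (Module.finrank ℂ L)) ℂ, ∀ z : L,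
      LieAlgebra.IsRegular ℂ z ↔ MvPolynomial.eval (b.repr z) F ≠ 0 :=
    ⟨_, fun z => LieAlgebra.isRegular_iff_coeff_polyCharpoly_rank_ne_zero ℂ b z⟩
  have hev : ∀ (t : ℂ) (F : MvPolynomial (Fin (Module.finrank ℂ L)) ℂ),
      (MvPolynomial.aeval (fun i => Polynomial.C (b.repr x i) +
      Polynomial.X * Polynomial.C (b.repr (y - x) i)) F : Polynomial ℂ).eval t =
      MvPolynomial.eval (b.repr (x + t • (y - x))) F := by
    intro t F
    induction F using MvPolynomial.induction_on with
    | C a => simp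
    | add f g hf hg => 
      rw [map_add (MvPolynomial.aeval _) f g, Polynomial.eval_add, hf, hg,
        map_add (MvPolynomial.eval _) f g]
    | mul_X f i hf =>
      rw [map_mul (MvPolynomial.aeval _) f, Polynomial.eval_mul, hf,
        map_mul (MvPolynomial.eval _) f, MvPolynomial.aeval_X, MvPolynomial.eval_X]
      congr 1
      simp only [Polynomial.eval_add, Polynomial.eval_C, Polynomial.eval_mul, Polynomial.eval_X,
        map_add, map_smul, Finsupp.add_apply, Finsupp.smul_apply, smul_eq_mul]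
  refine ⟨MvPolynomial.aeval (fun i => Polynomial.C (b.repr x i) +
      Polynomial.X * Polynomial.C (b.repr (y - x) i)) F, ?_, ?_⟩
  · intro h0
    have h1 := hev 1 F
    rw [h0, Polynomial.eval_zero, one_smul, add_sub_cancel] at h1
    exact (hF y).1 hy h1.symm
  · intro t ht
    rw [hev] at ht
    exact (hF _).2 ht

end

/-- YT9a.  `dim ker (ad x) ≥ rank` for all `x`.  `N = dim L`, `r = rank ℂ L`.  For a regular `y` the subalgebra `engel y` has dimension `r` (`isRegular_iff_finrank_engel_eq_rank`), it is a Cartan subalgebra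
(`engel_cartan`, `rank_le_finrank_engel`), hence abelian (`IsKilling`), so it is contained in `ker (ad y)` and `rank (ad y) ≤ N - r`: all minors of size `N - r + 1` of the matrix of `ad y` in a basis vanish.
For arbitrary `x` and a regular `y₀` (`exists_isRegular`) consider `x + t (y₀ - x)`: it is regular for all `t` outside the zeros of a polynomial in `t` that is nonzero at `t = 1`
(`isRegular_iff_coeff_polyCharpoly_rank_ne_zero`), so a minor, as a polynomial in `t`, vanishes for all but finitely many `t`, hence at `t = 0`. -/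
theorem rank_le_ker {L : Type} [LieRing L] [LieAlgebra ℂ L] [FiniteDimensional ℂ L]
    [LieAlgebra.IsKilling ℂ L] (x : L) :
    LieAlgebra.rank ℂ L ≤ Module.finrank ℂ (LinearMap.ker (LieAlgebra.ad ℂ L x)) := by
  classical
  by_contra hlt
  rw [not_le] at hlt
  obtain ⟨y, hy⟩ := LieAlgebra.exists_isRegular ℂ L
  -- the kernel at a regular element
  have hreg : ∀ w : L, LieAlgebra.IsRegular ℂ w →
      LieAlgebra.rank ℂ L ≤ Module.finrank ℂ (LinearMap.ker (LieAlgebra.ad ℂ L w)) := by
    intro w hw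
    have e1 := (LieAlgebra.isRegular_iff_finrank_engel_eq_rank ℂ w).1 hw
    have hC : (LieSubalgebra.engel ℂ w).IsCartanSubalgebra := by
      apply engel_cartan
      intro z
      rw [e1]
      exact LieAlgebra.rank_le_finrank_engel ℂ z
    have hab : IsLieAbelian (LieSubalgebra.engel ℂ w) :=
      LieAlgebra.IsKilling.instIsLieAbelianOfIsCartanSubalgebra ℂ L (LieSubalgebra.engel ℂ w)
    rw [← e1]
    apply Submodule.finrank_mono (s := (LieSubalgebra.engel ℂ w).toSubmodule)
    intro z hz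
    rw [LinearMap.mem_ker, LieAlgebra.ad_apply]
    have h2 := hab.trivial ⟨w, LieSubalgebra.self_mem_engel ℂ w⟩ ⟨z, hz⟩
    exact congrArg Subtype.val h2
  -- the line through `x` and `y`
  obtain ⟨p, hp0, hp⟩ := yt9a_rank (LieAlgebra.ad ℂ L x : L →ₗ[ℂ] L) (LieAlgebra.ad ℂ L (y - x) : L →ₗ[ℂ] L)
  obtain ⟨q, hq0, hq⟩ := yt9a_reg x hy
  obtain ⟨t, ht⟩ : ∃ t : ℂ, (p * q).eval t ≠ 0 := by
    by_contra hcon
    push Not at hcon
    exact mul_ne_zero hp0 hq0 (Polynomial.funext fun t => by rw [hcon, Polynomial.eval_zero])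
  rw [Polynomial.eval_mul] at ht
  have h1 := hp t (left_ne_zero_of_mul ht)
  have h2 := right_ne_zero_of_mul ht
  have h3 := hreg _ (hq t h2)
  have h4 : (LieAlgebra.ad ℂ L (x + t • (y - x)) : L →ₗ[ℂ] L) =
      (LieAlgebra.ad ℂ L x : L →ₗ[ℂ] L) + t • (LieAlgebra.ad ℂ L (y - x) : L →ₗ[ℂ] L) := by
    rw [map_add, map_smul]
  rw [← h4] at h1
  have h5 := LinearMap.finrank_range_add_finrank_ker (LieAlgebra.ad ℂ L x : L →ₗ[ℂ] L)
  have h6 := LinearMap.finrank_range_add_finrank_ker (LieAlgebra.ad ℂ L (x + t • (y - x)) : L →ₗ[ℂ] L)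
  omega

end Pool.Agent.MTG
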