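import Pool.Agent.MTG.YT9a
import Pool.Agent.MTG.YT1
import Pool.Agent.MTG.YT2b
import Pool.Agent.MTG.YT0a

/-! # MTG-YT : principal triples -/

namespace Pool.Agent.MTG

open Pool.Agent.MTF Matrix
open Pool.Agent.MTD (ev)
open Pool.Agent.MTX.SLD (AA fm0)
open Pool.Agent.MTH
open Pool.Agent.MP_c45d35_ag (chi)

theorem yt9b_ker {V : Type} [AddCommGroup V] [Module ℂ V] [FiniteDimensional ℂ V]
    (e h f : Module.End ℂ V) (h1 : h * e - e * h = (2 : ℂ) • e)
    (h2 : h * f - f * h = (-2 : ℂ) • f) (h3 : e * f - f * e = h)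
    {ι : Type} [Fintype ι] (b : Module.Basis ι ℂ V) (κ : ι → ℤ)
    (hb : ∀ i, h (b i) = ((κ i : ℤ) : ℂ) • b i) (hκ : ∀ i, κ i ≠ 1) :
    Module.finrank ℂ (LinearMap.ker e) ≤ (Finset.univ.filter fun i => κ i = 0).card := by
  classical
  have hrep : ∀ (v : V) (i : ι), b.repr (h v) i = ((κ i : ℤ) : ℂ) * b.repr v i := by
    intro v i
    have h4 : (b.coord i) ∘ₗ h = ((κ i : ℤ) : ℂ) • b.coord i := by
      refine b.ext fun j => ?_
      show b.repr (h (b j)) i = ((κ i : ℤ) : ℂ) * b.repr (b j) i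
      rw [hb, map_smul, Finsupp.smul_apply, b.repr_self, smul_eq_mul]
      by_cases hij : j = i
      · rw [hij]
      · rw [Finsupp.single_eq_of_ne (Ne.symm hij), mul_zero, mul_zero]
    exact LinearMap.congr_fun h4 v
  have heig : ∀ (μ : ℂ) (v : V), h v = μ • v → ∀ i, b.repr v i ≠ 0 → ((κ i : ℤ) : ℂ) = μ := by
    intro μ v hv i hi
    have h4 := hrep v i
    rw [hv, map_smul, Finsupp.smul_apply, smul_eq_mul] at h4
    exact (mul_right_cancel₀ hi h4).symm
  let M : Submodule ℂ V := Submodule.span ℂ (Set.range fun i : {i // 0 ≤ κ i} => b i.1)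
  let N : Submodule ℂ V := Submodule.span ℂ (Set.range fun i : {i // 0 < κ i} => b i.1)
  have hMfin : Module.finrank ℂ M = Fintype.card {i // 0 ≤ κ i} :=
    finrank_span_eq_card (b.linearIndependent.comp _ Subtype.val_injective)
  have hNfin : Module.finrank ℂ N = Fintype.card {i // 0 < κ i} :=
    finrank_span_eq_card (b.linearIndependent.comp _ Subtype.val_injective)
  have hMmem : ∀ v : V, (∀ i, κ i < 0 → b.repr v i = 0) → v ∈ M := by
    intro v hv
    rw [← b.sum_repr v]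
    refine Submodule.sum_mem _ fun i _ => ?_
    by_cases hi : 0 ≤ κ i
    · exact Submodule.smul_mem _ _ (Submodule.subset_span ⟨⟨i, hi⟩, rfl⟩)
    · rw [hv i (not_le.1 hi), zero_smul]
      exact Submodule.zero_mem _
  have hKh : ∀ x ∈ LinearMap.ker e, h x ∈ LinearMap.ker e := by
    intro x hx
    have hx' : e x = 0 := hx
    have h4 := LinearMap.congr_fun h1 x
    have h5 : h (e x) - e (h x) = (2 : ℂ) • e x := h4
    rw [hx', map_zero, smul_zero, zero_sub, neg_eq_zero] at h5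
    exact h5
  have htop : (⨆ μ, h.genEigenspace μ 1) = ⊤ := by
    rw [eq_top_iff, ← b.span_eq, Submodule.span_le]
    rintro _ ⟨i, rfl⟩
    exact Submodule.mem_iSup_of_mem (((κ i : ℤ) : ℂ)) (Module.End.mem_eigenspace_iff.2 (hb i))
  have hKM : LinearMap.ker e ≤ M := by
    have h4 := Submodule.inf_iSup_genEigenspace (p := LinearMap.ker e) (f := h) hKh 1
    rw [htop, inf_top_eq] at h4
    rw [h4]
    refine iSup_le fun μ => ?_
    rintro v ⟨hv1, hv2⟩
    have hv1' : e v = 0 := hv1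
    have hv2' : h v = μ • v := Module.End.mem_eigenspace_iff.1 hv2
    refine hMmem v fun i hi => ?_
    by_contra hne
    have h5 := heig μ v hv2' i hne
    have h6 := sl2_inj' e h f h1 h2 h3 (κ i) hi v (by rw [hv2', h5]) hv1'
    rw [h6, map_zero] at hne
    exact hne rfl
  have hNr : N ≤ LinearMap.range (LinearMap.domRestrict e M) := by
    refine Submodule.span_le.2 ?_
    rintro _ ⟨⟨i, hi⟩, rfl⟩
    have hi2 : 0 ≤ κ i - 2 := by
      have := hκ i
      omega
    obtain ⟨w, hw1, hw2⟩ := sl2_onto e h f h1 h2 h3 (κ i - 2) (by omega) (b i)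
      (by rw [sub_add_cancel]; exact hb i)
    have hw : w ∈ M := by
      refine hMmem w fun j hj => ?_
      by_contra hne
      have h5 := heig _ w hw1 j hne
      have h6 : κ j = κ i - 2 := by exact_mod_cast h5
      omega
    exact ⟨⟨w, hw⟩, hw2⟩
  have hKk : LinearMap.ker e ≤ (LinearMap.ker (LinearMap.domRestrict e M)).map M.subtype := by
    intro v hv
    exact ⟨⟨v, hKM hv⟩, hv, rfl⟩
  have c1 := LinearMap.finrank_range_add_finrank_ker (LinearMap.domRestrict e M)
  have c2 : Module.finrank ℂ N ≤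
      Module.finrank ℂ (LinearMap.range (LinearMap.domRestrict e M)) := Submodule.finrank_mono hNr
  have c3 := (Submodule.finrank_mono hKk).trans (Submodule.finrank_map_le M.subtype _)
  have c4 : Fintype.card {i // 0 ≤ κ i} =
      Fintype.card {i // 0 < κ i} + (Finset.univ.filter fun i => κ i = 0).card := by
    rw [Fintype.card_subtype, Fintype.card_subtype,
      ← Finset.card_filter_add_card_filter_not (s := Finset.univ.filter fun i => 0 ≤ κ i)
        (fun i => 0 < κ i), Finset.filter_filter, Finset.filter_filter]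
    congr 2
    · ext i
      simp only [Finset.mem_filter, Finset.mem_univ, true_and]
      omega
    · ext i
      simp only [Finset.mem_filter, Finset.mem_univ, true_and]
      omega
  omega

theorem yt9b_sl2 {G : AffGrp} {e h f : G.Lie} (h1 : G.br h e = (2 : ℂ) • e)
    (h2 : G.br h f = (-2 : ℂ) • f) (h3 : G.br e f = h) :
    G.ad h * G.ad e - G.ad e * G.ad h = (2 : ℂ) • G.ad e ∧
    G.ad h * G.ad f - G.ad f * G.ad h = (-2 : ℂ) • G.ad f ∧
    G.ad e * G.ad f - G.ad f * G.ad e = G.ad h := by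
  have key : ∀ x y v : G.Lie, G.br x (G.br y v) - G.br y (G.br x v) = G.br (G.br x y) v :=
    fun x y v => (lie_lie x y v).symm
  have hs : ∀ (c : ℂ) (x v : G.Lie), G.br (c • x) v = c • G.br x v := fun c x v => smul_lie c x v
  refine ⟨?_, ?_, ?_⟩
  · refine LinearMap.ext fun v => ?_
    show G.br h (G.br e v) - G.br e (G.br h v) = (2 : ℂ) • G.br e v
    rw [key, h1, hs]
  · refine LinearMap.ext fun v => ?_
    show G.br h (G.br f v) - G.br f (G.br h v) = (-2 : ℂ) • G.br f v
    rw [key, h2, hs]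
  · refine LinearMap.ext fun v => ?_
    show G.br e (G.br f v) - G.br f (G.br e v) = G.br h v
    rw [key, h3]

/-- the heights of the basis vectors -/
noncomputable def yt9b_k {n : ℕ} (D : RD n) : Fin n ⊕ D.Rt → ℤ :=
  Sum.elim (fun _ => 0) fun γ => D.ht2 γ.1

theorem yt9b_k_inr {n : ℕ} (D : RD n) (γ : D.Rt) :
    yt9b_k D (Sum.inr γ) ≠ 0 ∧ yt9b_k D (Sum.inr γ) ≠ 1 := by
  show D.ht2 γ.1 ≠ 0 ∧ D.ht2 γ.1 ≠ 1
  rcases D.pos_or_neg γ with h | h
  · have := D.ht2_pos h
    omega
  · have h1 := D.ht2_pos h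
    have h2 := D.ht2_smul (-1) γ.1
    rw [neg_one_smul, neg_one_mul] at h2
    rw [D.ng_val, h2] at h1
    omega

theorem yt9b_h {G : AffGrp} {n : ℕ} {D : RD n} (C : CD G D) (j : Fin n ⊕ D.Rt) :
    G.ad (C.toL (CD.hx (hv D ℂ))) (C.bs j) = ((yt9b_k D j : ℤ) : ℂ) • C.bs j := by
  classical
  have h1 : C.bs j = C.toL (Pi.single j (1 : ℂ)) := by
    unfold CD.toL
    rw [Finset.sum_eq_single j]
    · rw [Pi.single_eq_same, one_smul]
    · intro i _ hi
      rw [Pi.single_eq_of_ne hi, zero_smul]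
    · intro h
      exact absurd (Finset.mem_univ j) h
  show G.br (C.toL (CD.hx (hv D ℂ))) (C.bs j) = _
  rw [h1, C.toL_br, br_hx, ← C.toL_smul]
  congr 1
  funext i
  rcases i with k | γ
  · show (0 : ℂ) = ((yt9b_k D j : ℤ) : ℂ) * (Pi.single j (1 : ℂ) : LR D ℂ) (Sum.inl k)
    by_cases hj : Sum.inl k = j
    · subst hj
      show (0 : ℂ) = ((0 : ℤ) : ℂ) * _
      rw [Int.cast_zero, zero_mul]
    · rw [Pi.single_eq_of_ne hj, mul_zero]
  · show ev γ.1 (hv D ℂ) * (Pi.single j (1 : ℂ) : LR D ℂ) (Sum.inr γ) =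
      ((yt9b_k D j : ℤ) : ℂ) * (Pi.single j (1 : ℂ) : LR D ℂ) (Sum.inr γ)
    by_cases hj : Sum.inr γ = j
    · subst hj
      rw [ev_hv]
      rfl
    · rw [Pi.single_eq_of_ne hj, mul_zero, mul_zero]

/-- YT9b.  Existence of a principal triple.  `x` regular (`exists_isRegular`), `H = engel x` is a Cartan subalgebra of dimension `rank` (`engel_cartan`, `isRegular_iff_finrank_engel_eq_rank`, `rank_le_finrank_engel`),
`exists_CD_of`: `C` with `n = rank`.  The standard triple (`std_triple`, `toL_br`).  `dim ker (ad e) = n`: `ad e` maps the span of the basis vectors of heights `≥ 0` onto that of heights `> 0` (`sl2_onto`, or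
`Gd.exists_section` in the adjoint representation) and is injective on the vectors of negative height (`Gd.inj`), so `ker (ad e)` is the kernel of the first map, of dimension `(n + #Φ⁺) - #Φ⁺`.  `rank_le_ker`. -/
theorem exists_principal {G : AffGrp} (hG : G.Semi) : ∃ e h f : G.Lie, Principal G e h f := by
  classical
  have hK : LieAlgebra.IsKilling ℂ G.Lie := hG.isKilling
  obtain ⟨x, hx⟩ := LieAlgebra.exists_isRegular ℂ G.Lie
  have hxr := (LieAlgebra.isRegular_iff_finrank_engel_eq_rank ℂ x).1 hx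
  have hcar := engel_cartan x fun y => by
    rw [hxr]
    exact LieAlgebra.rank_le_finrank_engel ℂ y
  obtain ⟨n, D, C, -, hn⟩ := exists_CD_of hG (LieSubalgebra.engel ℂ x)
  rw [hxr] at hn
  obtain ⟨s1, s2, s3⟩ := C.std_triple
  have t1 : G.br (C.toL (CD.hx (hv D ℂ))) (C.toL (CD.ee D ℂ)) = (2 : ℂ) • C.toL (CD.ee D ℂ) := by
    rw [C.toL_br, s1, C.toL_smul]
  have t2 : G.br (C.toL (CD.hx (hv D ℂ))) (C.toL (CD.ff D ℂ)) = (-2 : ℂ) • C.toL (CD.ff D ℂ) := by
    rw [C.toL_br, s2, C.toL_smul]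
  have t3 : G.br (C.toL (CD.ee D ℂ)) (C.toL (CD.ff D ℂ)) = C.toL (CD.hx (hv D ℂ)) := by
    rw [C.toL_br, s3]
  refine ⟨C.toL (CD.ee D ℂ), C.toL (CD.hx (hv D ℂ)), C.toL (CD.ff D ℂ), t1, t2, t3, fun y => ?_⟩
  obtain ⟨a1, a2, a3⟩ := yt9b_sl2 t1 t2 t3
  have h1 := yt9b_ker (G.ad (C.toL (CD.ee D ℂ))) (G.ad (C.toL (CD.hx (hv D ℂ))))
    (G.ad (C.toL (CD.ff D ℂ))) a1 a2 a3 C.bs (yt9b_k D) (yt9b_h C) (by
      intro i
      rcases i with k | γ
      · show (0 : ℤ) ≠ 1
        exact zero_ne_one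
      · exact (yt9b_k_inr D γ).2)
  have h2 : (Finset.univ.filter fun i => yt9b_k D i = 0).card ≤ n := by
    have h3 : (Finset.univ.filter fun i => yt9b_k D i = 0) ⊆
        (Finset.univ : Finset (Fin n)).image (Sum.inl : Fin n → Fin n ⊕ D.Rt) := by
      intro i hi
      rcases i with k | γ
      · exact Finset.mem_image_of_mem _ (Finset.mem_univ k)
      · exact absurd (Finset.mem_filter.1 hi).2 (yt9b_k_inr D γ).1
    have h4 := (Finset.card_le_card h3).trans Finset.card_image_le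
    rwa [Finset.card_univ, Fintype.card_fin] at h4
  have h5 : LieAlgebra.rank ℂ G.Lie ≤ Module.finrank ℂ (LinearMap.ker (G.ad y)) :=
    rank_le_ker (L := G.Lie) y
  omega

end Pool.Agent.MTG
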