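import Pool.Agent.MTG.YT0
import Pool.Agent.MTG.YT0a
import Pool.Agent.MTG.YT1
import Pool.Agent.MTG.YT2a
import Pool.Agent.MTG.YT2b
import Pool.Agent.MTG.YT3
import Pool.Agent.MTG.YT4
import Pool.Agent.MTG.YT5
import Pool.Agent.MTG.YT6
import Pool.Agent.MTG.YT7
import Pool.Agent.MTG.YT8
import Pool.Agent.MTG.YT9a
import Pool.Agent.MTG.YT9b
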