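import Pool.Agent.MTG.YH10
import Pool.Agent.MTG.YH7
import Pool.Agent.MTG.YS6
import Pool.Agent.MTG.GQ
import Pool.Agent.MTG.YF0

/-! # MTG-ZA1 : highest weight representations and the slice data -/

namespace Pool.Agent.MTG

open Pool.Agent.MTF Matrix
open Pool.Agent.MTD (ev)
open Pool.Agent.MTX.SLD (AA fm0)
open Pool.Agent.MTH
open Pool.Agent.MP_c45d35_ag (chi)

section
variable {G : AffGrp} {n : ℕ} {D : RD n} {C : CD G D}

/-- The slice data of a highest weight representation. -/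
theorem HWV.krep (hG : G.Semi) {l : Fin n → ℤ} (hl : D.Dom l) {E : MTF.Rep G}
    {w : E.ι → Fin n → ℤ} {v0 : E.ι → ℂ} (h : HWV C l E w v0) :
    ∃ (V : KRep D) (φ : E.ι ≃ V.I), (∀ a, V.wt (φ a) = w a) ∧
      (∀ a b, V.e (φ a) (φ b) = C.dm E (CD.ee D ℂ) a b) ∧
      SE C.Db C.cA E = V.S.submatrix φ φ ∧ HWK V l := by
  obtain ⟨V, φ, h1, h2, h3⟩ := C.exists_krep h.isW
  refine ⟨V, φ, h1, h2, ?_, hl, ?_, ?_, ?_⟩
  · ext a b
    rw [C.SE_eq, Matrix.submatrix_apply, h3]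
  · intro a
    have := h.low hG.dom (φ.symm a)
    rwa [← h1, Equiv.apply_symm_apply] at this
  · obtain ⟨a0, ha0, hu⟩ := h.mult hG.dom
    refine ⟨φ a0, by rw [h1, ha0], fun a ha => ?_⟩
    have h4 : w (φ.symm a) = l := by rw [← h1, Equiv.apply_symm_apply, ha]
    rw [← hu _ h4, Equiv.apply_symm_apply]
  · intro u
    obtain ⟨σ, hσ⟩ := exists_perm C h.isW u
    refine ⟨(φ.symm.trans σ).trans φ, fun a => ?_⟩
    show V.wt (φ (σ (φ.symm a))) = _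
    rw [h1, hσ, ← h1, Equiv.apply_symm_apply]

/-- the field `hw` of `GIn` -/
theorem CD.gin_hw (C : CD G D) (hG : G.Semi) (l : Fin n → ℤ) (hl : D.Dom l) :
    ∃ (E : MTF.Rep G) (V : KRep D) (φ : E.ι ≃ V.I),
      SE C.Db C.cA E = V.S.submatrix φ φ ∧ HWK V l := by
  obtain ⟨E, w, v0, h⟩ := C.exists_hwv hG.dom hl
  obtain ⟨V, φ, -, -, h3, h4⟩ := h.krep hG hl
  exact ⟨E, V, φ, h3, h4⟩

end

end Pool.Agent.MTG
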