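import Pool.Agent.MTG.ZA1
import Pool.Agent.MTG.YH11

/-! # MTG-ZA2 : quasi-minuscule representations -/

namespace Pool.Agent.MTG

open Pool.Agent.MTF Matrix
open Pool.Agent.MTD (ev)
open Pool.Agent.MTX.SLD (AA fm0)
open Pool.Agent.MTH
open Pool.Agent.MP_c45d35_ag (chi)

variable {G : AffGrp} {n : ℕ} {D : RD n} {C : CD G D}

/-- the matrix of the principal nilpotent -/
theorem CD.dm_ee (C : CD G D) (E : MTF.Rep G) (v : E.ι → ℂ) (b : E.ι) :
    (C.dm E (CD.ee D ℂ)).mulVec v b = ∑ α : D.SRt, (E.d (C.e α.1)).mulVec v b := by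
  classical
  have h1 : C.dm E (CD.ee D ℂ) = ∑ α : D.SRt, E.d (C.e α.1) := by
    unfold CD.dm CD.ee CD.ez
    rw [Fintype.sum_sum_type]
    simp only [Sum.elim_inl, Sum.elim_inr, Pi.zero_apply, zero_smul, Finset.sum_const_zero, zero_add,
      ite_smul, one_smul]
    have h2 : ∀ γ : D.Rt, (E.d (C.bs (Sum.inr γ))).map (algebraMap ℂ ℂ) = E.d (C.e γ) := fun γ => rfl
    simp only [h2]
    rw [← Finset.sum_filter]
    exact Finset.sum_subtype (Finset.univ.filter fun γ : D.Rt => D.Sim γ) (by simp)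
      (fun γ => E.d (C.e γ))
  rw [h1, Matrix.sum_mulVec, Finset.sum_apply]

/-- the weights of height `0` of a quasi-minuscule representation -/
theorem HWV.qmn_ht0 (hG : G.Semi) {θ : D.Rt} (hθ : D.QMn θ) {E : MTF.Rep G}
    {w : E.ι → Fin n → ℤ} {v0 : E.ι → ℂ} (h : HWV C θ.1 E w v0) {a : E.ι}
    (ha : D.ht2 (w a) = 0) : w a = 0 := by
  obtain ⟨u, hu⟩ := D.exists_dom (w a)
  obtain ⟨σ, hσ⟩ := exists_perm C h.isW u
  have h1 : D.Dom (w (σ a)) := by rw [hσ]; exact hu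
  rcases qmn_min hθ h1 (h.low hG.dom (σ a)) with h2 | h2
  · exfalso
    rw [hσ] at h2
    have h3 : w a = (u⁻¹ • θ : D.Rt).1 := by
      show w a = (u⁻¹).1 θ.1
      rw [← h2]
      show w a = (u⁻¹ * u).1 (w a)
      rw [inv_mul_cancel]
      rfl
    rw [h3] at ha
    by_cases hp : D.Pos (u⁻¹ • θ)
    · exact absurd ha (D.ht2_pos hp).1.ne'
    · rw [← D.pos_ng] at hp
      have h4 := (D.ht2_pos hp).1
      have h5 : (D.ng (u⁻¹ • θ)).1 = (-1 : ℤ) • (u⁻¹ • θ : D.Rt).1 := by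
        rw [neg_one_smul]; rfl
      rw [h5, D.ht2_smul, ha] at h4
      simp at h4
  · rw [hσ] at h2
    have h3 : w a = (u⁻¹).1 (u.1 (w a)) := by
      show w a = (u⁻¹ * u).1 (w a)
      rw [inv_mul_cancel]
      rfl
    rw [h3, h2, map_zero]

/-- `e` is injective on the pieces of height `≤ 0` -/
theorem HWV.qmn_inj (hG : G.Semi) {θ : D.Rt} (hθ : D.QMn θ) {E : MTF.Rep G}
    {w : E.ι → Fin n → ℤ} {v0 : E.ι → ℂ} (h : HWV C θ.1 E w v0) {k : ℤ} (hk : k ≤ 0)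
    {v : E.ι → ℂ} (hv : ∀ a, v a ≠ 0 → D.ht2 (w a) = k)
    (he : (C.dm E (CD.ee D ℂ)).mulVec v = 0) : v = 0 := by
  classical
  rcases hk.lt_or_eq with hk | rfl
  · refine (Gd.inj (C.sl2 h.isW) (R := ℂ)).1 v (fun a ha => ?_) ?_
    · show D.ht2 (w a) < 0
      rw [hv a ha]
      exact hk
    · have h1 : (C.dm E (CD.ee D ℂ)).map (algebraMap ℂ ℂ) = C.dm E (CD.ee D ℂ) := rfl
      rw [h1, he, Matrix.mulVec_zero]
  · have hw : ∀ a, v a ≠ 0 → w a = 0 := fun a ha => h.qmn_ht0 hG hθ (hv a ha)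
    have hsupp : ∀ (β : D.SRt) (b : E.ι), (E.d (C.e β.1)).mulVec v b ≠ 0 → w b = β.1.1 := by
      intro β b hb
      obtain ⟨a, -, ha⟩ := Finset.exists_ne_zero_of_sum_ne_zero hb
      have h1 := left_ne_zero_of_mul ha
      have h2 := right_ne_zero_of_mul ha
      have h3 := h.isW.d_e β.1 b a h1
      rw [h3, hw a h2, zero_add]
    refine h.eq_zero hG (D.Rt_ne θ) hw fun α => ?_
    funext b
    by_contra hb
    have hb' : w b = α.1.1 := hsupp α b hb
    apply hb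
    have h1 := congrFun he b
    rw [C.dm_ee, Finset.sum_eq_single α] at h1
    · exact h1
    · intro β _ hβ
      by_contra hne
      apply hβ
      have h2 := hsupp β b hne
      rw [hb'] at h2
      exact Subtype.ext (Subtype.ext h2.symm)
    · intro h2
      exact absurd (Finset.mem_univ _) h2

/-- the section of `e` on the pieces of height `≥ 0` -/
theorem HWV.qmn_surj (hG : G.Semi) {θ : D.Rt} (hθ : D.QMn θ) {E : MTF.Rep G}
    {w : E.ι → Fin n → ℤ} {v0 : E.ι → ℂ} (h : HWV C θ.1 E w v0) :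
    ∃ r : Matrix E.ι E.ι ℂ, (∀ a b, r a b ≠ 0 → D.ht2 (w a) = D.ht2 (w b) - 2) ∧
      ∀ v : E.ι → ℂ, (∀ a, v a ≠ 0 → 0 ≤ D.ht2 (w a)) →
        (C.dm E (CD.ee D ℂ)).mulVec (r.mulVec v) = v :=
  Gd.exists_section' (C.sl2 h.isW) fun x hx he => h.qmn_inj hG hθ le_rfl hx he

/-- The quasi-minuscule pieces, with the slice data. -/
theorem HWV.qmn_pc (hG : G.Semi) {θ : D.Rt} (hθ : D.QMn θ) {E : MTF.Rep G}
    {w : E.ι → Fin n → ℤ} {v0 : E.ι → ℂ} (h : HWV C θ.1 E w v0) :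
    ∃ (U : KRep D) (φ : E.ι ≃ U.I), SE C.Db C.cA E = U.S.submatrix φ φ ∧ HWK U θ.1 ∧
      (∀ k : ℤ, k ≤ 0 → ∀ v : U.I → ℂ, (∀ a, v a ≠ 0 → D.ht2 (U.wt a) = k) →
        U.e.mulVec v = 0 → v = 0) ∧
      ∃ r : Matrix U.I U.I ℂ, (∀ a b, r a b ≠ 0 → D.ht2 (U.wt a) = D.ht2 (U.wt b) - 2) ∧
        ∀ v : U.I → ℂ, (∀ a, v a ≠ 0 → 0 ≤ D.ht2 (U.wt a)) → U.e.mulVec (r.mulVec v) = v := by
  obtain ⟨U, φ, h1, h2, h3, h4⟩ := h.krep hG hθ.1
  have hmv : ∀ (v : U.I → ℂ) (a : E.ι), U.e.mulVec v (φ a) =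
      (C.dm E (CD.ee D ℂ)).mulVec (fun b => v (φ b)) a := by
    intro v a
    simp only [Matrix.mulVec, dotProduct]
    rw [← Equiv.sum_comp φ]
    exact Finset.sum_congr rfl fun b _ => by rw [h2]
  refine ⟨U, φ, h3, h4, ?_, ?_⟩
  · intro k hk v hv he
    have h5 : (fun b => v (φ b)) = 0 := by
      refine h.qmn_inj hG hθ hk (fun a ha => ?_) ?_
      · rw [← h1]
        exact hv _ ha
      · funext a
        rw [← hmv, he]
        rfl
    funext a
    have := congrFun h5 (φ.symm a)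
    simpa using this
  · obtain ⟨r, hr, hs⟩ := h.qmn_surj hG hθ
    refine ⟨r.submatrix φ.symm φ.symm, fun a b hab => ?_, fun v hv => ?_⟩
    · have := hr _ _ hab
      rwa [← h1, ← h1, Equiv.apply_symm_apply, Equiv.apply_symm_apply] at this
    · funext a
      obtain ⟨a, rfl⟩ := φ.surjective a
      rw [hmv]
      have h6 : (fun b => ((r.submatrix φ.symm φ.symm).mulVec v) (φ b)) =
          r.mulVec fun b => v (φ b) := by
        funext b
        simp only [Matrix.mulVec, dotProduct, Matrix.submatrix_apply, Equiv.symm_apply_apply]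
        rw [← Equiv.sum_comp φ]
        exact Finset.sum_congr rfl fun c _ => by rw [Equiv.symm_apply_apply]
      rw [h6, hs]
      intro b hb
      rw [← h1]
      exact hv _ hb

end Pool.Agent.MTG
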