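import Pool.Agent.MTH.D2
import Pool.Agent.MTG.YH2a

/-! # MTG-ZB1 : the algebra generated by the coefficients of a weight representation -/

namespace Pool.Agent.MTG

open Pool.Agent.MTF Matrix
open Pool.Agent.MTD (ev)
open Pool.Agent.MTX.SLD (AA fm0)
open Pool.Agent.MTH
open Pool.Agent.MP_c45d35_ag (chi)

section
variable {G : AffGrp}

/-- the algebra generated by the coefficients -/
noncomputable def OE (E : MTF.Rep G) : Subalgebra ℂ G.O :=
  Algebra.adjoin ℂ (Set.range fun p : E.ι × E.ι => E.co p.1 p.2)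

theorem co_mem_OE (E : MTF.Rep G) (a b : E.ι) : E.co a b ∈ OE E :=
  Algebra.subset_adjoin ⟨(a, b), rfl⟩

/-- the matrix of coefficients, over `OE` -/
noncomputable def cM (E : MTF.Rep G) : Matrix E.ι E.ι (OE E) :=
  Matrix.of fun a b => ⟨E.co a b, co_mem_OE E a b⟩

theorem lt_mul (y : G.X) (f g : G.O) : G.lt y (f * g) = G.lt y f * G.lt y g := rfl

theorem lt_algebraMap (y : G.X) (c : ℂ) : G.lt y (algebraMap ℂ G.O c) = algebraMap ℂ G.O c := rfl

/-- `OE` is stable under left translations -/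
theorem OE_lt (E : MTF.Rep G) (y : G.X) {f : G.O} (hf : f ∈ OE E) : G.lt y f ∈ OE E := by
  induction hf using Algebra.adjoin_induction with
  | mem f hf =>
    obtain ⟨⟨a, b⟩, rfl⟩ := hf
    show G.lt y (E.co a b) ∈ OE E
    rw [E.lt_co]
    exact Subalgebra.sum_mem _ fun c _ => Subalgebra.smul_mem _ (co_mem_OE E c b) _
  | algebraMap c => exact Subalgebra.algebraMap_mem _ c
  | add f g hf hg h1 h2 =>
    rw [map_add]
    exact Subalgebra.add_mem _ h1 h2
  | mul f g hf hg h1 h2 =>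
    rw [lt_mul]
    exact Subalgebra.mul_mem _ h1 h2

/-- the product of the principal minors -/
def DEf {R : Type} [CommRing R] {ι : Type} [Fintype ι] [DecidableEq ι] (ht : ι → ℤ)
    (g : Matrix ι ι R) : R := ∏ a, dC ht g (ht a)

theorem DEf_map {R R' : Type} [CommRing R] [CommRing R'] (σ : R →+* R') {ι : Type} [Fintype ι]
    [DecidableEq ι] (ht : ι → ℤ) (g : Matrix ι ι R) : σ (DEf ht g) = DEf ht (g.map σ) := by
  unfold DEf
  rw [map_prod]
  exact Finset.prod_congr rfl fun a _ => dC_map ht σ g _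

theorem DEf_one {R : Type} [CommRing R] {ι : Type} [Fintype ι] [DecidableEq ι] (ht : ι → ℤ) :
    DEf ht (1 : Matrix ι ι R) = 1 := by
  unfold DEf
  refine Finset.prod_eq_one fun a _ => ?_
  have h := dC_ldu (R := R) ht (l := 1) (u := 1) (fun a b hab => absurd (by rw [sub_self]; rfl) hab)
    (fun a b hab => absurd (by rw [sub_self]; rfl) hab) (fun _ => 1) (ht a)
  rw [Matrix.diagonal_one, one_mul, one_mul] at h
  rw [h]
  exact Finset.prod_eq_one fun c _ => by split_ifs <;> rfl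

end

variable {G : AffGrp} {n : ℕ} {D : RD n} {C : CD G D}

/-- the sum of the weights is `0` -/
theorem sum_w {E : MTF.Rep G} {w : E.ι → Fin n → ℤ} (hE : C.IsW E w) : ∑ a, w a = 0 := by
  apply D.span
  intro γ hγ
  have h1 : (D.rW ⟨γ, hγ⟩).1 (∑ a, w a) = ∑ a, w a := by
    obtain ⟨σ, hσ⟩ := exists_perm C hE (D.rW ⟨γ, hγ⟩)
    rw [map_sum, ← Equiv.sum_comp σ w]
    exact Finset.sum_congr rfl fun a _ => (hσ a).symm
  have h2 : D.cp ⟨γ, hγ⟩ (∑ a, w a) = 0 := by
    have h3 : (D.rW ⟨γ, hγ⟩).1 (∑ a, w a) = (∑ a, w a) - D.cp ⟨γ, hγ⟩ (∑ a, w a) • γ := rfl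
    rw [h3, sub_eq_self] at h1
    rcases smul_eq_zero.1 h1 with h4 | h4
    · exact h4
    · exact absurd h4 (D.Rt_ne ⟨γ, hγ⟩)
  have h5 := D.cp_mul ⟨γ, hγ⟩ (∑ a, w a)
  rw [h2, zero_mul] at h5
  show D.B γ (∑ a, w a) = 0
  have h6 : (2 : ℤ) * D.B γ (∑ a, w a) = 0 := h5.symm
  omega

end Pool.Agent.MTG
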