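import Pool.Agent.MTG.ZB1

/-! # MTG-ZB2 : the determinant is `1`; stability under the inverse -/

namespace Pool.Agent.MTG

open Pool.Agent.MTF Matrix
open Pool.Agent.MTD (ev)
open Pool.Agent.MTX.SLD (AA fm0)
open Pool.Agent.MTH
open Pool.Agent.MP_c45d35_ag (chi)

section
variable {G : AffGrp} {n : ℕ} {D : RD n} {C : CD G D}

/-- unipotent points are lower/upper unipotent matrices for the height -/
theorem lowM_of_UU {R : Type} [CommRing R] [Algebra ℂ R] {u : G.Pt R} (hu : UU C (-1) u)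
    {E : MTF.Rep G} {w : E.ι → Fin n → ℤ} (hE : C.IsW E w) :
    LowM (fun a => D.ht2 (w a)) (E.pt u) := by
  intro a b hab
  have := UU_uni C (Or.inr rfl) hu hE a b hab
  show D.ht2 (w a) < D.ht2 (w b)
  linarith

theorem upM_of_UU {R : Type} [CommRing R] [Algebra ℂ R] {v : G.Pt R} (hv : UU C 1 v)
    {E : MTF.Rep G} {w : E.ι → Fin n → ℤ} (hE : C.IsW E w) :
    UpM (fun a => D.ht2 (w a)) (E.pt v) := by
  intro a b hab
  have := UU_uni C (Or.inl rfl) hv hE a b hab
  show D.ht2 (w b) < D.ht2 (w a)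
  linarith

/-- `∏ a, chi (w a) t = chi (∑ a, w a) t` -/
theorem prod_chi {ι : Type} [Fintype ι] {M : Type} [CommGroup M] (w : ι → Fin n → ℤ) (t : Fin n → M) :
    ∏ a, chi (w a) t = chi (∑ a, w a) t := by
  classical
  have h : ∀ s : Finset ι, ∏ a ∈ s, chi (w a) t = chi (∑ a ∈ s, w a) t := by
    intro s
    induction s using Finset.induction_on with
    | empty => rw [Finset.prod_empty, Finset.sum_empty, Pool.Agent.MP_c45d35_ag.chi_zero]
    | insert a s ha ih =>
      rw [Finset.prod_insert ha, Finset.sum_insert ha, Pool.Agent.MP_c45d35_ag.chi_add, ih]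
  exact h _

/-- on the big cell the determinant is `1` -/
theorem det_cell {R : Type} [CommRing R] [Algebra ℂ R] {u v : G.Pt R} (hu : UU C (-1) u)
    (hv : UU C 1 v) (t : Fin n → Rˣ) {E : MTF.Rep G} {w : E.ι → Fin n → ℤ} (hE : C.IsW E w) :
    (E.pt (u * tq C t * v)).det = 1 := by
  rw [Rep.pt_mul, Rep.pt_mul, Matrix.det_mul, Matrix.det_mul, tq_pt C t hE, Matrix.det_diagonal,
    det_low _ (lowM_of_UU hu hE), det_up _ (upM_of_UU hv hE), one_mul, mul_one]
  have h := prod_chi w t
  rw [sum_w hE, Pool.Agent.MP_c45d35_ag.chi_zero] at h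
  have h1 := congrArg (fun z : Rˣ => (z : R)) h
  simpa using h1

/-- the determinant of a representation -/
theorem det_one (hG : IsDomain G.O) {E : MTF.Rep G} {w : E.ι → Fin n → ℤ} (hE : C.IsW E w) :
    (cM E).det = 1 := by
  have h1 : ((OE E).val (cM E).det : G.O) = 1 := by
    have h2 : ((OE E).val (cM E).det : G.O) = (Matrix.of fun a b => E.co a b).det :=
      RingHom.map_det ((OE E).val : OE E →+* G.O) (cM E)
    rw [h2, ← sub_eq_zero]
    apply cell_dense C hG
    rintro x ⟨u, v, t, hu, hv, rfl⟩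
    rw [AffGrp.O_sub, AffGrp.O_one, AffGrp.Pt.toX_apply]
    have h3 : (u * tq C t * v) (Matrix.of fun a b => E.co a b).det =
        (E.pt (u * tq C t * v)).det := by
      have := RingHom.map_det ((u * tq C t * v).hom : G.O →+* ℂ) (Matrix.of fun a b => E.co a b)
      exact this
    rw [h3, det_cell hu hv t hE, sub_self]
  exact Subtype.ext h1

/-- the values of the inverse matrix -/
theorem invO_co (hG : IsDomain G.O) {E : MTF.Rep G} {w : E.ι → Fin n → ℤ} (hE : C.IsW E w)
    (a b : E.ι) : AffGrp.Pt.invO G (E.co a b) = ((cM E).adjugate a b : OE E).1 := by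
  apply AffGrp.O_ext
  intro x
  show E.ρ x⁻¹ a b = _
  let φ : OE E →+* ℂ :=
    { toFun := fun f => f.1.1 x
      map_one' := rfl
      map_mul' := fun _ _ => rfl
      map_zero' := rfl
      map_add' := fun _ _ => rfl }
  have h1 : (cM E).map φ = E.ρ x := rfl
  have h2 : (E.ρ x).det = 1 := by
    rw [← h1]
    have := RingHom.map_det φ (cM E)
    rw [det_one hG hE, map_one] at this
    exact this.symm
  have h3 : φ ((cM E).adjugate a b) = (E.ρ x).adjugate a b := by
    have := RingHom.map_adjugate φ (cM E)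
    exact congrFun (congrFun this a) b
  have h4 : E.ρ x⁻¹ = (E.ρ x).adjugate := by
    have h5 : E.ρ x⁻¹ * E.ρ x = 1 := by rw [← map_mul, inv_mul_cancel, map_one]
    have h6 : E.ρ x * (E.ρ x).adjugate = 1 := by rw [Matrix.mul_adjugate, h2, one_smul]
    calc E.ρ x⁻¹ = E.ρ x⁻¹ * (E.ρ x * (E.ρ x).adjugate) := by rw [h6, mul_one]
      _ = (E.ρ x).adjugate := by rw [← mul_assoc, h5, one_mul]
  rw [h4, ← h3]
  rfl

/-- `OE` is stable under `f ↦ f (x⁻¹)` -/
theorem OE_inv (hG : IsDomain G.O) {E : MTF.Rep G} {w : E.ι → Fin n → ℤ} (hE : C.IsW E w)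
    {f : G.O} (hf : f ∈ OE E) : AffGrp.Pt.invO G f ∈ OE E := by
  induction hf using Algebra.adjoin_induction with
  | mem f hf =>
    obtain ⟨⟨a, b⟩, rfl⟩ := hf
    show AffGrp.Pt.invO G (E.co a b) ∈ OE E
    rw [invO_co hG hE]
    exact ((cM E).adjugate a b).2
  | algebraMap c =>
    rw [AlgHom.commutes]
    exact Subalgebra.algebraMap_mem _ c
  | add f g hf hg h1 h2 =>
    rw [map_add]
    exact Subalgebra.add_mem _ h1 h2
  | mul f g hf hg h1 h2 =>
    rw [map_mul]
    exact Subalgebra.mul_mem _ h1 h2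

end

end Pool.Agent.MTG
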