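import Pool.Agent.MTG.ZB1

/-! # MTG-ZB3 : the Lie algebra in a weight representation whose weights generate -/

namespace Pool.Agent.MTG

open Pool.Agent.MTF Matrix
open Pool.Agent.MTD (ev)
open Pool.Agent.MTX.SLD (AA fm0)
open Pool.Agent.MTH
open Pool.Agent.MP_c45d35_ag (chi)

variable {G : AffGrp} {n : ℕ} {D : RD n} {C : CD G D}

theorem cp_sum_single (γ : D.Rt) (x : Fin n → ℤ) : D.cp γ x = ∑ k, x k * D.cp γ (Pi.single k 1) := by
  classical
  have h : ∀ s : Finset (Fin n), D.cp γ (∑ k ∈ s, x k • (Pi.single k 1 : Fin n → ℤ)) =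
      ∑ k ∈ s, x k * D.cp γ (Pi.single k 1) := by
    intro s
    induction s using Finset.induction_on with
    | empty =>
      rw [Finset.sum_empty, Finset.sum_empty]
      have := D.cp_smul γ 0 0
      simpa using this
    | insert a s ha ih => rw [Finset.sum_insert ha, Finset.sum_insert ha, D.cp_add, D.cp_smul, ih]
  have h1 : x = ∑ k, x k • (Pi.single k 1 : Fin n → ℤ) := by
    funext j
    simp [Finset.sum_apply, Pi.single_apply]
  conv_lhs => rw [h1]
  exact h _

/-- additive functions that vanish on the weights vanish -/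
theorem gen_ind {ι : Type} {w : ι → Fin n → ℤ} (hgen : AddSubgroup.closure (Set.range w) = ⊤)
    {A : Type} [AddCommGroup A] (f : (Fin n → ℤ) →+ A) (h : ∀ a, f (w a) = 0) (x : Fin n → ℤ) :
    f x = 0 := by
  have hx : x ∈ AddSubgroup.closure (Set.range w) := by rw [hgen]; trivial
  induction hx using AddSubgroup.closure_induction with
  | mem x hx => obtain ⟨a, rfl⟩ := hx; exact h a
  | zero => exact map_zero f
  | add x y _ _ hx hy => rw [map_add, hx, hy, add_zero]
  | neg x _ hx => rw [map_neg, hx, neg_zero]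

/-- root vectors act nontrivially -/
theorem d_e_ne {E : MTF.Rep G} {w : E.ι → Fin n → ℤ} (hE : C.IsW E w)
    (hgen : AddSubgroup.closure (Set.range w) = ⊤) (γ : D.Rt) : E.d (C.e γ) ≠ 0 := by
  intro h0
  have h1 := congrArg E.d (C.e_ng γ)
  have h2 : E.d (C.bs (Sum.inr γ)) = 0 := h0
  rw [E.d_lie, h2, zero_mul, mul_zero, sub_zero, map_sum] at h1
  have h3 : ∀ a, D.cp γ (w a) = 0 := by
    intro a
    have h4 := congrFun (congrFun h1 a) a
    rw [Matrix.zero_apply, Matrix.sum_apply] at h4
    have h5 : ∀ k, (E.d (((D.cp γ (Pi.single k 1) : ℤ) : ℂ) • C.bs (Sum.inl k))) a a =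
        ((w a k * D.cp γ (Pi.single k 1) : ℤ) : ℂ) := by
      intro k
      have h6 : E.d (C.bs (Sum.inl k)) = Matrix.diagonal fun a => ((w a k : ℤ) : ℂ) := hE.d_h k
      rw [map_smul, h6, Matrix.smul_apply, Matrix.diagonal_apply_eq, smul_eq_mul]
      push_cast
      ring
    simp only [h5] at h4
    rw [cp_sum_single]
    have h7 : ((∑ k, w a k * D.cp γ (Pi.single k 1) : ℤ) : ℂ) = 0 := by
      rw [Int.cast_sum]
      exact h4.symm
    exact_mod_cast h7
  let f : (Fin n → ℤ) →+ ℤ :=
    { toFun := D.cp γ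
      map_zero' := by
        have := D.cp_smul γ 0 0
        simpa using this
      map_add' := D.cp_add γ }
  have h8 : D.cp γ γ.1 = 0 := gen_ind hgen f h3 γ.1
  have h9 := D.cp_mul γ γ.1
  rw [h8, zero_mul] at h9
  have := D.BRt_pos γ
  omega

/-- the Lie algebra acts faithfully -/
theorem dm_zero_imp {E : MTF.Rep G} {w : E.ι → Fin n → ℤ} (hE : C.IsW E w)
    (hgen : AddSubgroup.closure (Set.range w) = ⊤) {z : LR D ℂ} (hz : C.dm E z = 0) : z = 0 := by
  have hr : ∀ γ : D.Rt, z (Sum.inr γ) = 0 := by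
    intro γ
    by_contra hne
    apply d_e_ne hE hgen γ
    ext a b
    rw [Matrix.zero_apply]
    by_contra hab
    have h1 := hE.d_e γ a b hab
    have h2 := congrFun (congrFun hz a) b
    rw [C.dm_apply, Matrix.zero_apply, Finset.sum_eq_single (Sum.inr γ)] at h2
    · rcases mul_eq_zero.1 h2 with h3 | h3
      · exact hne h3
      · exact hab h3
    · rintro (k | δ) _ hj
      · have h3 : E.d (C.bs (Sum.inl k)) = Matrix.diagonal fun a => ((w a k : ℤ) : ℂ) := hE.d_h k
        have h4 : a ≠ b := by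
          rintro rfl
          have h5 : γ.1 = 0 := by
            have h6 : w a + 0 = w a + γ.1 := by rw [add_zero]; exact h1
            exact (add_left_cancel h6).symm
          exact D.Rt_ne γ h5
        rw [h3, Matrix.diagonal_apply_ne _ h4, map_zero, mul_zero]
      · by_cases h4 : E.d (C.bs (Sum.inr δ)) a b = 0
        · rw [h4, map_zero, mul_zero]
        · exfalso
          apply hj
          have h5 := hE.d_e δ a b h4
          rw [h1] at h5
          rw [Subtype.ext (add_left_cancel h5)]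
    · intro h3
      exact absurd (Finset.mem_univ _) h3
  funext j
  rcases j with k | γ
  · let f : (Fin n → ℤ) →+ ℂ :=
      { toFun := fun μ => ∑ k, z (Sum.inl k) * ((μ k : ℤ) : ℂ)
        map_zero' := by simp
        map_add' := fun μ ν => by
          rw [← Finset.sum_add_distrib]
          refine Finset.sum_congr rfl fun k _ => ?_
          rw [Pi.add_apply, Int.cast_add, mul_add] }
    have h1 : ∀ a, f (w a) = 0 := by
      intro a
      have h2 := congrFun (congrFun hz a) a
      rw [C.dm_apply, Matrix.zero_apply, Fintype.sum_sum_type] at h2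
      have h3 : ∑ γ : D.Rt, z (Sum.inr γ) * algebraMap ℂ ℂ (E.d (C.bs (Sum.inr γ)) a a) = 0 :=
        Finset.sum_eq_zero fun γ _ => by rw [hr, zero_mul]
      rw [h3, add_zero] at h2
      show ∑ k, z (Sum.inl k) * ((w a k : ℤ) : ℂ) = 0
      refine Eq.trans (Finset.sum_congr rfl fun k _ => ?_) h2
      have h4 : E.d (C.bs (Sum.inl k)) = Matrix.diagonal fun a => ((w a k : ℤ) : ℂ) := hE.d_h k
      rw [h4, Matrix.diagonal_apply_eq]
      rfl
    have h5 := gen_ind hgen f h1 (Pi.single k 1)
    have h6 : f (Pi.single k 1) = z (Sum.inl k) := by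
      show ∑ k', z (Sum.inl k') * (((Pi.single k 1 : Fin n → ℤ) k' : ℤ) : ℂ) = _
      rw [Finset.sum_eq_single k]
      · rw [Pi.single_eq_same, Int.cast_one, mul_one]
      · intro k' _ hk
        rw [Pi.single_eq_of_ne hk, Int.cast_zero, mul_zero]
      · intro h
        exact absurd (Finset.mem_univ _) h
    rw [h6] at h5
    exact h5
  · exact hr γ

/-- The coordinates of an element of the Lie algebra are linear forms in the entries of its matrix. -/
theorem exists_form {E : MTF.Rep G} {w : E.ι → Fin n → ℤ} (hE : C.IsW E w)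
    (hgen : AddSubgroup.closure (Set.range w) = ⊤) : ∃ ℓ : (Fin n ⊕ D.Rt) → E.ι → E.ι → ℂ,
      ∀ {R : Type} [CommRing R] [Algebra ℂ R] (z : LR D R) (i : Fin n ⊕ D.Rt),
        z i = ∑ a, ∑ b, algebraMap ℂ R (ℓ i a b) * C.dm E z a b := by
  classical
  let T : (Fin n ⊕ D.Rt → ℂ) →ₗ[ℂ] Matrix E.ι E.ι ℂ := C.dmL E
  have hT : LinearMap.ker T = ⊥ := by
    rw [LinearMap.ker_eq_bot']
    intro z hz
    exact dm_zero_imp hE hgen hz
  obtain ⟨g, hg⟩ := T.exists_leftInverse_of_injective hT
  have h1 : ∀ i j : Fin n ⊕ D.Rt, ∑ a, ∑ b, g (Matrix.single a b 1) i * E.d (C.bs j) a b =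
      if j = i then 1 else 0 := by
    intro i j
    have h2 : T (Pi.single j 1) = E.d (C.bs j) := by
      show C.dm E (Pi.single j 1) = _
      rw [C.dm_complex]
      congr 1
      rw [Finset.sum_eq_single j]
      · rw [Pi.single_eq_same, one_smul]
      · intro k _ hk
        rw [Pi.single_eq_of_ne hk, zero_smul]
      · intro h
        exact absurd (Finset.mem_univ _) h
    have h3 := congrFun (LinearMap.congr_fun hg (Pi.single j 1)) i
    rw [LinearMap.comp_apply, h2, LinearMap.id_apply] at h3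
    have h4 : g (E.d (C.bs j)) = ∑ a, ∑ b, E.d (C.bs j) a b • g (Matrix.single a b 1) := by
      conv_lhs => rw [Matrix.matrix_eq_sum_single (E.d (C.bs j))]
      rw [map_sum]
      refine Finset.sum_congr rfl fun a _ => ?_
      rw [map_sum]
      refine Finset.sum_congr rfl fun b _ => ?_
      rw [← map_smul, Matrix.smul_single, smul_eq_mul, mul_one]
    rw [h4, Finset.sum_apply] at h3
    rw [show (if j = i then (1 : ℂ) else 0) = (Pi.single j 1 : Fin n ⊕ D.Rt → ℂ) i by
      rw [Pi.single_apply]; simp [eq_comm], ← h3]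
    refine Finset.sum_congr rfl fun a _ => ?_
    rw [Finset.sum_apply]
    refine Finset.sum_congr rfl fun b _ => ?_
    rw [Pi.smul_apply, smul_eq_mul, mul_comm]
  refine ⟨fun i a b => g (Matrix.single a b 1) i, ?_⟩
  intro R _ _ z i
  have h2 : ∑ a, ∑ b, algebraMap ℂ R (g (Matrix.single a b 1) i) * C.dm E z a b =
      ∑ j, z j * algebraMap ℂ R (∑ a, ∑ b, g (Matrix.single a b 1) i * E.d (C.bs j) a b) := by
    simp only [C.dm_apply, Finset.mul_sum, map_sum, map_mul]
    have h3 : ∀ a : E.ι, ∑ b, ∑ j, algebraMap ℂ R (g (Matrix.single a b 1) i) *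
        (z j * algebraMap ℂ R (E.d (C.bs j) a b)) = ∑ j, ∑ b,
        algebraMap ℂ R (g (Matrix.single a b 1) i) * (z j * algebraMap ℂ R (E.d (C.bs j) a b)) :=
      fun a => Finset.sum_comm
    rw [Finset.sum_congr rfl fun a _ => h3 a, Finset.sum_comm]
    refine Finset.sum_congr rfl fun j _ => Finset.sum_congr rfl fun a _ =>
      Finset.sum_congr rfl fun b _ => by ring
  rw [h2]
  simp only [h1]
  rw [Finset.sum_eq_single i]
  · rw [if_pos rfl, map_one, mul_one]
  · intro j _ hj
    rw [if_neg hj, map_zero, mul_zero]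
  · intro h
    exact absurd (Finset.mem_univ _) h

end Pool.Agent.MTG
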