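import Pool.Agent.MTG.ZB2

/-! # MTG-ZB4 : localisation in a field; the entries of the factors of the generic point -/

namespace Pool.Agent.MTG

open Pool.Agent.MTF Matrix
open Pool.Agent.MTD (ev)
open Pool.Agent.MTX.SLD (AA fm0)
open Pool.Agent.MTH
open Pool.Agent.MP_c45d35_ag (chi)

section
variable {A K : Type} [CommRing A] [Algebra ℂ A] [Field K] [Algebra ℂ K] (j : A →ₐ[ℂ] K) (d : A)

/-- `{z | ∃ N s, d ^ N z = s}` -/
def locS : Subalgebra ℂ K where
  carrier := {z | ∃ (N : ℕ) (s : A), j d ^ N * z = j s}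
  mul_mem' := by
    rintro x y ⟨N, s, hs⟩ ⟨M, r, hr⟩
    refine ⟨N + M, s * r, ?_⟩
    rw [map_mul, ← hs, ← hr, pow_add]
    ring
  add_mem' := by
    rintro x y ⟨N, s, hs⟩ ⟨M, r, hr⟩
    refine ⟨N + M, d ^ M * s + d ^ N * r, ?_⟩
    rw [map_add, map_mul, map_mul, map_pow, map_pow, ← hs, ← hr, pow_add]
    ring
  algebraMap_mem' c := ⟨0, algebraMap ℂ A c, by rw [pow_zero, one_mul, AlgHom.commutes]⟩

theorem mem_locS {z : K} : z ∈ locS j d ↔ ∃ (N : ℕ) (s : A), j d ^ N * z = j s := Iff.rfl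

theorem locS_map (s : A) : j s ∈ locS j d := ⟨0, s, by rw [pow_zero, one_mul]⟩

theorem locS_inv {c c' : A} (h : d = c * c') (h0 : j d ≠ 0) : (j c)⁻¹ ∈ locS j d := by
  refine ⟨1, c', ?_⟩
  have h1 : j c ≠ 0 := by
    intro h2
    apply h0
    rw [h, map_mul, h2, zero_mul]
  rw [pow_one, h, map_mul]
  field_simp

end

section
variable {G : AffGrp} {n : ℕ} {D : RD n} {C : CD G D} {K : Type} [Field K] [Algebra ℂ K]

/-- the homomorphism `OE → K` -/
noncomputable def jE (φ : G.Pt K) (E : MTF.Rep G) : OE E →ₐ[ℂ] K := φ.hom.comp (OE E).val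

theorem jE_cM (φ : G.Pt K) (E : MTF.Rep G) : (cM E).map (jE φ E) = E.pt φ := rfl

/-- the product of the minors, in `OE` -/
noncomputable def dE (D : RD n) (E : MTF.Rep G) (w : E.ι → Fin n → ℤ) : OE E :=
  DEf (fun a => D.ht2 (w a)) (cM E)

variable {φ u v : G.Pt K} {t : Fin n → Kˣ} {E : MTF.Rep G} {w : E.ι → Fin n → ℤ}

theorem dC_ne (hE : C.IsW E w) (hu : UU C (-1) u) (hv : UU C 1 v) (h : φ = u * tq C t * v)
    (c : ℤ) : jE φ E (dC (fun a => D.ht2 (w a)) (cM E) c) ≠ 0 := by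
  have h1 : jE φ E (dC (fun a => D.ht2 (w a)) (cM E) c) = dC (fun a => D.ht2 (w a)) (E.pt φ) c :=
    dC_map (fun a => D.ht2 (w a)) (jE φ E : OE E →+* K) (cM E) c
  rw [h1, h, Rep.pt_mul, Rep.pt_mul, tq_pt C t hE,
    dC_ldu _ (lowM_of_UU hu hE) (upM_of_UU hv hE)]
  refine Finset.prod_ne_zero_iff.2 fun a _ => ?_
  split_ifs
  · exact Units.ne_zero _
  · exact one_ne_zero

theorem dE_ne (hE : C.IsW E w) (hu : UU C (-1) u) (hv : UU C 1 v) (h : φ = u * tq C t * v) :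
    jE φ E (dE D E w) ≠ 0 := by
  unfold dE DEf
  rw [map_prod]
  exact Finset.prod_ne_zero_iff.2 fun a _ => dC_ne hE hu hv h _

theorem dC_inv_mem (hE : C.IsW E w) (hu : UU C (-1) u) (hv : UU C 1 v) (h : φ = u * tq C t * v)
    (a : E.ι) : (jE φ E (dC (fun a => D.ht2 (w a)) (cM E) (D.ht2 (w a))))⁻¹ ∈
      locS (jE φ E) (dE D E w) := by
  refine locS_inv _ _ (c' := ∏ b ∈ Finset.univ.erase a,
    dC (fun a => D.ht2 (w a)) (cM E) (D.ht2 (w b))) ?_ (dE_ne hE hu hv h)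
  exact (Finset.mul_prod_erase _ _ (Finset.mem_univ a)).symm

/-- the entries of `u` -/
theorem ent_u (hE : C.IsW E w) (hu : UU C (-1) u) (hv : UU C 1 v) (h : φ = u * tq C t * v)
    (a b : E.ι) : E.pt u a b ∈ locS (jE φ E) (dE D E w) := by
  have h1 := lC_ldu (fun a => D.ht2 (w a)) (lowM_of_UU hu hE) (upM_of_UU hv hE)
    (fun a => ((chi (w a) t : Kˣ) : K)) a b
  have h2 : E.pt u * Matrix.diagonal (fun a => ((chi (w a) t : Kˣ) : K)) * E.pt v = E.pt φ := by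
    rw [h, Rep.pt_mul, Rep.pt_mul, tq_pt C t hE]
  rw [h2] at h1
  have h3 : jE φ E (dC (fun a => D.ht2 (w a)) (cM E) (D.ht2 (w b))) =
      dC (fun a => D.ht2 (w a)) (E.pt φ) (D.ht2 (w b)) :=
    dC_map (fun a => D.ht2 (w a)) (jE φ E : OE E →+* K) (cM E) _
  have h4 : jE φ E (lC (fun a => D.ht2 (w a)) (cM E) a b) =
      lC (fun a => D.ht2 (w a)) (E.pt φ) a b :=
    lC_map (fun a => D.ht2 (w a)) (jE φ E : OE E →+* K) (cM E) a b
  have h5 := dC_ne hE hu hv h (D.ht2 (w b))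
  rw [← h3, ← h4] at h1
  have h6 : E.pt u a b = (jE φ E (dC (fun a => D.ht2 (w a)) (cM E) (D.ht2 (w b))))⁻¹ *
      jE φ E (lC (fun a => D.ht2 (w a)) (cM E) a b) := by
    rw [h1, ← mul_assoc, inv_mul_cancel₀ h5, one_mul]
  rw [h6]
  exact Subalgebra.mul_mem _ (dC_inv_mem hE hu hv h b) (locS_map _ _ _)

/-- the entries of `v` -/
theorem ent_v (hE : C.IsW E w) (hu : UU C (-1) u) (hv : UU C 1 v) (h : φ = u * tq C t * v)
    (a b : E.ι) : E.pt v a b ∈ locS (jE φ E) (dE D E w) := by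
  have h1 := rC_ldu (fun a => D.ht2 (w a)) (lowM_of_UU hu hE) (upM_of_UU hv hE)
    (fun a => ((chi (w a) t : Kˣ) : K)) a b
  have h2 : E.pt u * Matrix.diagonal (fun a => ((chi (w a) t : Kˣ) : K)) * E.pt v = E.pt φ := by
    rw [h, Rep.pt_mul, Rep.pt_mul, tq_pt C t hE]
  rw [h2] at h1
  have h3 : jE φ E (dC (fun a => D.ht2 (w a)) (cM E) (D.ht2 (w a))) =
      dC (fun a => D.ht2 (w a)) (E.pt φ) (D.ht2 (w a)) :=
    dC_map (fun a => D.ht2 (w a)) (jE φ E : OE E →+* K) (cM E) _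
  have h4 : jE φ E (rC (fun a => D.ht2 (w a)) (cM E) a b) =
      rC (fun a => D.ht2 (w a)) (E.pt φ) a b :=
    rC_map (fun a => D.ht2 (w a)) (jE φ E : OE E →+* K) (cM E) a b
  have h5 := dC_ne hE hu hv h (D.ht2 (w a))
  rw [← h3, ← h4] at h1
  have h6 : E.pt v a b = (jE φ E (dC (fun a => D.ht2 (w a)) (cM E) (D.ht2 (w a))))⁻¹ *
      jE φ E (rC (fun a => D.ht2 (w a)) (cM E) a b) := by
    rw [h1, ← mul_assoc, inv_mul_cancel₀ h5, one_mul]
  rw [h6]
  exact Subalgebra.mul_mem _ (dC_inv_mem hE hu hv h a) (locS_map _ _ _)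

/-- a matrix over the field with entries in a subalgebra and determinant `1` : the inverse -/
theorem inv_mem_of_det {ι : Type} [Fintype ι] [DecidableEq ι] (S : Subalgebra ℂ K)
    {g g' : Matrix ι ι K} (h : ∀ a b, g a b ∈ S) (hd : g.det = 1) (hg : g * g' = 1) (a b : ι) :
    g' a b ∈ S := by
  have h1 : g' = g.adjugate := by
    have h2 : g.adjugate * g = 1 := by rw [Matrix.adjugate_mul, hd, one_smul]
    calc g' = (g.adjugate * g) * g' := by rw [h2, one_mul]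
      _ = g.adjugate := by rw [mul_assoc, hg, mul_one]
  rw [h1]
  let g0 : Matrix ι ι S := Matrix.of fun a b => ⟨g a b, h a b⟩
  have h3 : g0.map S.val = g := rfl
  have h4 : S.val (g0.adjugate a b) = g.adjugate a b := by
    have := RingHom.map_adjugate (S.val : S →+* K) g0
    exact congrFun (congrFun this a) b
  rw [← h4]
  exact (g0.adjugate a b).2

theorem ent_u' (hE : C.IsW E w) (hu : UU C (-1) u) (hv : UU C 1 v) (h : φ = u * tq C t * v)
    (a b : E.ι) : E.pt u⁻¹ a b ∈ locS (jE φ E) (dE D E w) :=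
  inv_mem_of_det _ (ent_u hE hu hv h) (det_low _ (lowM_of_UU hu hE)) (E.pt_mul_inv u) a b

theorem ent_v' (hE : C.IsW E w) (hu : UU C (-1) u) (hv : UU C 1 v) (h : φ = u * tq C t * v)
    (a b : E.ι) : E.pt v⁻¹ a b ∈ locS (jE φ E) (dE D E w) :=
  inv_mem_of_det _ (ent_v hE hu hv h) (det_up _ (upM_of_UU hv hE)) (E.pt_mul_inv v) a b

theorem ent_φ (a b : E.ι) : E.pt φ a b ∈ locS (jE φ E) (dE D E w) := locS_map _ _ (cM E a b)

theorem ent_φ' (hE : C.IsW E w) (hu : UU C (-1) u) (hv : UU C 1 v) (h : φ = u * tq C t * v)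
    (a b : E.ι) : E.pt φ⁻¹ a b ∈ locS (jE φ E) (dE D E w) :=
  inv_mem_of_det _ (fun a b => ent_φ a b) (by rw [h]; exact det_cell hu hv t hE)
    (E.pt_mul_inv φ) a b

/-- the values of the characters -/
theorem ent_t (hE : C.IsW E w) (hu : UU C (-1) u) (hv : UU C 1 v) (h : φ = u * tq C t * v)
    (a : E.ι) : ((chi (w a) t : Kˣ) : K) ∈ locS (jE φ E) (dE D E w) ∧
      (((chi (w a) t)⁻¹ : Kˣ) : K) ∈ locS (jE φ E) (dE D E w) := by
  constructor
  · have h1 : E.pt (tq C t) = E.pt u⁻¹ * E.pt φ * E.pt v⁻¹ := by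
      rw [← Rep.pt_mul, ← Rep.pt_mul, h]
      congr 1
      group
    have h2 : ((chi (w a) t : Kˣ) : K) = E.pt (tq C t) a a := by
      rw [tq_pt C t hE, Matrix.diagonal_apply_eq]
    rw [h2, h1, Matrix.mul_apply]
    refine Subalgebra.sum_mem _ fun b _ => Subalgebra.mul_mem _ ?_ (ent_v' hE hu hv h b a)
    rw [Matrix.mul_apply]
    exact Subalgebra.sum_mem _ fun c _ => Subalgebra.mul_mem _ (ent_u' hE hu hv h a c) (ent_φ c b)
  · have h1 : E.pt (tq C t)⁻¹ = E.pt v * E.pt φ⁻¹ * E.pt u := by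
      rw [← Rep.pt_mul, ← Rep.pt_mul, h]
      congr 1
      group
    have h3 : E.pt (tq C t)⁻¹ = Matrix.diagonal fun a => (((chi (w a) t)⁻¹ : Kˣ) : K) := by
      have h4 : E.pt (tq C t) * Matrix.diagonal (fun a => (((chi (w a) t)⁻¹ : Kˣ) : K)) = 1 := by
        rw [tq_pt C t hE, Matrix.diagonal_mul_diagonal]
        simp
      calc E.pt (tq C t)⁻¹ = E.pt (tq C t)⁻¹ * (E.pt (tq C t) *
            Matrix.diagonal (fun a => (((chi (w a) t)⁻¹ : Kˣ) : K))) := by rw [h4, mul_one]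
        _ = _ := by rw [← mul_assoc, E.pt_inv_mul, one_mul]
    have h2 : (((chi (w a) t)⁻¹ : Kˣ) : K) = E.pt (tq C t)⁻¹ a a := by
      rw [h3, Matrix.diagonal_apply_eq]
    rw [h2, h1, Matrix.mul_apply]
    refine Subalgebra.sum_mem _ fun b _ => Subalgebra.mul_mem _ ?_ (ent_u hE hu hv h b a)
    rw [Matrix.mul_apply]
    exact Subalgebra.sum_mem _ fun c _ => Subalgebra.mul_mem _ (ent_v hE hu hv h a c)
      (ent_φ' hE hu hv h c b)

/-- the coordinates of the torus part -/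
theorem mem_t (hE : C.IsW E w) (hgen : AddSubgroup.closure (Set.range w) = ⊤)
    (hu : UU C (-1) u) (hv : UU C 1 v) (h : φ = u * tq C t * v) (k : Fin n) :
    ((t k : Kˣ) : K) ∈ locS (jE φ E) (dE D E w) ∧
      (((t k)⁻¹ : Kˣ) : K) ∈ locS (jE φ E) (dE D E w) := by
  have key : ∀ μ : Fin n → ℤ, ((chi μ t : Kˣ) : K) ∈ locS (jE φ E) (dE D E w) ∧
      (((chi μ t)⁻¹ : Kˣ) : K) ∈ locS (jE φ E) (dE D E w) := by
    intro μ
    have hx : μ ∈ AddSubgroup.closure (Set.range w) := by rw [hgen]; trivial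
    induction hx using AddSubgroup.closure_induction with
    | mem x hx => obtain ⟨a, rfl⟩ := hx; exact ent_t hE hu hv h a
    | zero =>
      rw [Pool.Agent.MP_c45d35_ag.chi_zero, inv_one, Units.val_one]
      exact ⟨Subalgebra.one_mem _, Subalgebra.one_mem _⟩
    | add x y _ _ hx hy =>
      rw [Pool.Agent.MP_c45d35_ag.chi_add, mul_inv, Units.val_mul, Units.val_mul]
      exact ⟨Subalgebra.mul_mem _ hx.1 hy.1, Subalgebra.mul_mem _ hx.2 hy.2⟩
    | neg x _ hx =>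
      rw [Pool.Agent.MP_c45d35_ag.chi_neg, inv_inv]
      exact ⟨hx.2, hx.1⟩
  have h1 : chi (Pi.single k 1) t = t k := by
    unfold Pool.Agent.MP_c45d35_ag.chi
    rw [Finset.prod_eq_single k]
    · rw [Pi.single_eq_same, zpow_one]
    · intro k' _ hk
      rw [Pi.single_eq_of_ne hk, zpow_zero]
    · intro h
      exact absurd (Finset.mem_univ _) h
  have h2 := key (Pi.single k 1)
  rwa [h1] at h2

end

end Pool.Agent.MTG
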