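import Pool.Agent.MTG.ZB4
import Pool.Agent.MTG.ZB3

/-! # MTG-ZB5 : the regular functions in terms of the coefficients -/

namespace Pool.Agent.MTG

open Pool.Agent.MTF Matrix
open Pool.Agent.MTD (ev)
open Pool.Agent.MTX.SLD (AA fm0)
open Pool.Agent.MTH
open Pool.Agent.MP_c45d35_ag (chi)

section
variable {G : AffGrp} {n : ℕ} {D : RD n} {C : CD G D} {K : Type} [Field K] [Algebra ℂ K]

theorem dm_Adp {R : Type} [CommRing R] [Algebra ℂ R] (E : MTF.Rep G) (u : G.Pt R) (z : LR D R) :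
    C.dm E (Adp C u z) = E.pt u * C.dm E z * E.pt u⁻¹ := by
  have h := pt_dm C E u z
  calc C.dm E (Adp C u z) = C.dm E (Adp C u z) * (E.pt u * E.pt u⁻¹) := by
        rw [E.pt_mul_inv, mul_one]
    _ = _ := by rw [← mul_assoc, ← h]

/-- A unipotent point with entries in a subalgebra `S` comes from a point over `S`. -/
theorem exists_pt_sub {E : MTF.Rep G} {w : E.ι → Fin n → ℤ} (hE : C.IsW E w)
    (hgen : AddSubgroup.closure (Set.range w) = ⊤) (S : Subalgebra ℂ K) {s : ℤ}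
    (hs : s = 1 ∨ s = -1) {u : G.Pt K} (hu : UU C s u) (h1 : ∀ a b, E.pt u a b ∈ S)
    (h2 : ∀ a b, E.pt u⁻¹ a b ∈ S) : ∃ u' : G.Pt S, u'.map S.val = u := by
  classical
  obtain ⟨ℓ, hℓ⟩ := exists_form hE hgen
  obtain ⟨Z, hZ, hZe⟩ := UU_hv C hu
  -- the entries of `Ad u hv`
  have h3 : ∀ i, Adp C u (CD.hx (hv D K)) i ∈ S := by
    intro i
    rw [hℓ (Adp C u (CD.hx (hv D K))) i]
    refine Subalgebra.sum_mem _ fun a _ => Subalgebra.sum_mem _ fun b _ =>
      Subalgebra.mul_mem _ (Subalgebra.algebraMap_mem _ _) ?_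
    rw [dm_Adp, hE.dm_hx, Matrix.mul_apply]
    refine Subalgebra.sum_mem _ fun c _ => Subalgebra.mul_mem _ ?_ (h2 c b)
    rw [Matrix.mul_diagonal, ev_hv]
    refine Subalgebra.mul_mem _ (h1 a c) ?_
    exact intCast_mem S _
  have h4 : ∀ i, Z i ∈ S := by
    intro i
    have h5 : Z i = Adp C u (CD.hx (hv D K)) i - CD.hx (D := D) (hv D K) i := by
      rw [hZe]
      exact (add_sub_cancel_left _ _).symm
    rw [h5]
    refine Subalgebra.sub_mem _ (h3 i) ?_
    rcases i with k | γ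
    · exact intCast_mem S _
    · exact Subalgebra.zero_mem _
  let Z' : LR D S := fun i => ⟨Z i, h4 i⟩
  have hZ' : Sp s 1 Z' := by
    refine ⟨fun k hk => hZ.1 k fun h0 => hk (Subtype.ext h0), fun γ hγ =>
      hZ.2 γ fun h0 => hγ (Subtype.ext h0)⟩
  obtain ⟨u', hu', hu'Z⟩ := exists_U C hs (x := hv D S) (fun γ => isUnit_ht γ) hZ'
  have hUU : UU C s u' := hu' C.F C.wt C.isW_F
  refine ⟨u', ?_⟩
  have h6 : UU C s (u'.map S.val) := UU_map C S.val hUU
  have hhv : (fun j => S.val (CD.hx (D := D) (hv D S) j)) = CD.hx (hv D K) := by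
    funext j
    rcases j with k | γ
    · show S.val (((D.ht2 (Pi.single k 1) : ℤ) : S)) = ((D.ht2 (Pi.single k 1) : ℤ) : K)
      rw [map_intCast]
    · show S.val (0 : S) = 0
      exact map_zero _
  have h7 : Adp C (u'.map S.val) (CD.hx (hv D K)) = CD.hx (hv D K) + Z := by
    rw [← hhv, ← Adp_map C S.val u', hu'Z]
    funext j
    show S.val ((CD.hx (hv D S) : LR D S) j + Z' j) = _
    rw [map_add]
    rfl
  have h8 : (u⁻¹ * u'.map S.val : G.Pt K) = 1 := by
    refine UU_eq_one C (UU_mul C (UU_inv C hu) h6) ?_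
    rw [Adp_mul, h7, ← hZe, ← Adp_mul, inv_mul_cancel, Adp_one]
  exact (inv_mul_eq_one.1 h8).symm

/-- A point with factors over a subalgebra `S` has values in `S`. -/
theorem mem_sub (S : Subalgebra ℂ K) {u v : G.Pt K} {t : Fin n → Kˣ} {u' v' : G.Pt S}
    (hu' : u'.map S.val = u) (hv' : v'.map S.val = v)
    (ht : ∀ k, ((t k : Kˣ) : K) ∈ S ∧ (((t k)⁻¹ : Kˣ) : K) ∈ S) (f : G.O) :
    (u * tq C t * v) f ∈ S := by
  have h0 : ∃ t' : Fin n → Sˣ, (fun k => Units.map ((S.val : S →ₐ[ℂ] K) : S →* K) (t' k)) = t := by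
    have h1 : ∀ k, ∃ x : Sˣ, Units.map ((S.val : S →ₐ[ℂ] K) : S →* K) x = t k := fun k =>
      ⟨⟨⟨((t k : Kˣ) : K), (ht k).1⟩, ⟨(((t k)⁻¹ : Kˣ) : K), (ht k).2⟩,
        Subtype.ext (Units.mul_inv (t k)), Subtype.ext (Units.inv_mul (t k))⟩, Units.ext rfl⟩
    choose t' ht' using h1
    exact ⟨t', funext ht'⟩
  obtain ⟨t', ht'⟩ := h0
  have h1 : (tq C t').map S.val = tq C t := by
    rw [tq_map, ht']
  have h2 : (u' * tq C t' * v').map S.val = u * tq C t * v := by
    rw [AffGrp.Pt.map_mul', AffGrp.Pt.map_mul', h1, hu', hv']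
  rw [← h2]
  exact ((u' * tq C t' * v') f).2

/-- Every regular function is a fraction with numerator in `OE` and denominator a power of the product of the minors:
version for a point with values in a field. -/
theorem mem_loc (hG : IsDomain G.O) {E : MTF.Rep G} {w : E.ι → Fin n → ℤ} (hE : C.IsW E w)
    (hgen : AddSubgroup.closure (Set.range w) = ⊤) (φ : G.Pt K) (hφ : φ (Dl C) ≠ 0) (f : G.O) :
    φ f ∈ locS (jE φ E) (dE D E w) := by
  obtain ⟨u, v, t, hu, hv, h⟩ := exists_ldu C hG φ (IsUnit.mk0 _ hφ)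
  have e1 := ent_u hE hu hv h
  have e2 := ent_u' hE hu hv h
  have e3 := ent_v hE hu hv h
  have e4 := ent_v' hE hu hv h
  have ht := mem_t hE hgen hu hv h
  generalize locS (jE φ E) (dE D E w) = S at *
  obtain ⟨u', hu'⟩ := exists_pt_sub hE hgen S (Or.inr rfl) hu e1 e2
  obtain ⟨v', hv'⟩ := exists_pt_sub hE hgen S (Or.inl rfl) hv e3 e4
  rw [h]
  exact mem_sub S hu' hv' ht f

end

section
variable {G : AffGrp} {n : ℕ} {D : RD n} {C : CD G D}

/-- Every regular function is a fraction with numerator in `OE` and denominator a power of the product of the minors. -/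
theorem exists_pow_mem (hG : IsDomain G.O) {E : MTF.Rep G} {w : E.ι → Fin n → ℤ}
    (hE : C.IsW E w) (hgen : AddSubgroup.closure (Set.range w) = ⊤) (f : G.O) :
    ∃ N : ℕ, (dE D E w).1 ^ N * f ∈ OE E := by
  let φ : G.Pt (FractionRing G.O) := AffGrp.Pt.of (IsScalarTower.toAlgHom ℂ G.O (FractionRing G.O))
  have hφ : ∀ f : G.O, φ f = algebraMap G.O (FractionRing G.O) f := fun f => rfl
  have hinj : ∀ f : G.O, φ f = 0 → f = 0 := by
    intro f hf
    rw [hφ] at hf
    exact (IsFractionRing.injective G.O (FractionRing G.O)) (by rw [hf, map_zero])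
  obtain ⟨N, s, hs⟩ := mem_loc hG hE hgen φ (fun h => Dl_ne C (hinj _ h)) f
  refine ⟨N, ?_⟩
  have h1 : (dE D E w).1 ^ N * f = s.1 := by
    have h2 : φ ((dE D E w).1 ^ N * f - s.1) = 0 := by
      rw [map_sub, map_mul, map_pow, sub_eq_zero]
      exact hs
    exact sub_eq_zero.1 (hinj _ h2)
  rw [h1]
  exact s.2

end

end Pool.Agent.MTG
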