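import Pool.Agent.MTG.ZB5
import Pool.Agent.MTH.F1

/-! # MTG-ZB6 : a weight representation whose weights generate is faithful -/

namespace Pool.Agent.MTG

open Pool.Agent.MTF Matrix
open Pool.Agent.MTD (ev)
open Pool.Agent.MTX.SLD (AA fm0)
open Pool.Agent.MTH
open Pool.Agent.MP_c45d35_ag (chi)

/-- Nullstellensatz -/
theorem exists_hom {A : Type} [CommRing A] [Algebra ℂ A] (hA : Algebra.FiniteType ℂ A)
    (I : Ideal A) (hI : I ≠ ⊤) : ∃ ψ : A →ₐ[ℂ] ℂ, ∀ a ∈ I, ψ a = 0 := by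
  obtain ⟨M, hM, hIM⟩ := Ideal.exists_le_maximal I hI
  let _ : Field (A ⧸ M) := Ideal.Quotient.field M
  have : Algebra.FiniteType ℂ (A ⧸ M) :=
    Algebra.FiniteType.of_surjective (Ideal.Quotient.mkₐ ℂ M) (Ideal.Quotient.mkₐ_surjective ℂ M)
  have : Module.Finite ℂ (A ⧸ M) := finite_of_finite_type_of_isJacobsonRing ℂ (A ⧸ M)
  have hb : Function.Bijective (algebraMap ℂ (A ⧸ M)) :=
    IsAlgClosed.algebraMap_bijective_of_isIntegral
  let e : ℂ ≃ₐ[ℂ] (A ⧸ M) := AlgEquiv.ofBijective (Algebra.ofId ℂ (A ⧸ M)) hb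
  refine ⟨(e.symm : (A ⧸ M) →ₐ[ℂ] ℂ).comp (Ideal.Quotient.mkₐ ℂ M), fun a ha => ?_⟩
  show e.symm (Ideal.Quotient.mk M a) = 0
  rw [Ideal.Quotient.eq_zero_iff_mem.2 (hIM ha), map_zero]

section
variable {A ι : Type} [CommRing A] [Algebra ℂ A] [Fintype ι] [DecidableEq ι]

theorem DEf_const_mul (ψ : A →ₐ[ℂ] ℂ) (ht : ι → ℤ) (g : Matrix ι ι ℂ) (c : Matrix ι ι A) :
    ψ (DEf ht (g.map (algebraMap ℂ A) * c)) = DEf ht (g * c.map ψ) := by
  have h1 : ψ (DEf ht (g.map (algebraMap ℂ A) * c)) =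
      DEf ht ((g.map (algebraMap ℂ A) * c).map (ψ : A →+* ℂ)) :=
    DEf_map (ψ : A →+* ℂ) ht (g.map (algebraMap ℂ A) * c)
  rw [h1, Matrix.map_mul]
  congr 2
  ext a b
  exact ψ.commutes _

theorem DEf_mul_const (ψ : A →ₐ[ℂ] ℂ) (ht : ι → ℤ) (g : Matrix ι ι ℂ) (c : Matrix ι ι A) :
    ψ (DEf ht (c * g.map (algebraMap ℂ A))) = DEf ht (c.map ψ * g) := by
  have h1 : ψ (DEf ht (c * g.map (algebraMap ℂ A))) =
      DEf ht ((c * g.map (algebraMap ℂ A)).map (ψ : A →+* ℂ)) :=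
    DEf_map (ψ : A →+* ℂ) ht (c * g.map (algebraMap ℂ A))
  rw [h1, Matrix.map_mul]
  congr 2
  ext a b
  exact ψ.commutes _

/-- the contradiction -/
theorem DEf_contra (ψ : A →ₐ[ℂ] ℂ) (i : A →ₐ[ℂ] A) (ht : ι → ℤ) (c : Matrix ι ι A)
    (hc : c.map i * c = 1) : DEf ht (c * (c.map ψ).map (algebraMap ℂ A)) ≠ 0 := by
  intro h0
  have h1 := DEf_mul_const (ψ.comp i) ht (c.map ψ) c
  have h2 : c.map (ψ.comp i) * c.map ψ = 1 := by
    have h3 : c.map (ψ.comp i) * c.map ψ = (c.map i * c).map (ψ : A →+* ℂ) := by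
      rw [Matrix.map_mul]
      rfl
    rw [h3, hc]
    exact Matrix.map_one _ (map_zero ψ) (map_one ψ)
  rw [h0, map_zero, h2, DEf_one] at h1
  exact one_ne_zero h1.symm

theorem DEf_contra' {Y : Type} (e : Y → A →ₐ[ℂ] ℂ) (he : ∀ a : A, (∀ y, e y a = 0) → a = 0)
    (ψ : A →ₐ[ℂ] ℂ) (i : A →ₐ[ℂ] A) (ht : ι → ℤ) (c : Matrix ι ι A) (hc : c.map i * c = 1)
    (h : ∀ y, ψ (DEf ht ((c.map (e y)).map (algebraMap ℂ A) * c)) = 0) : False := by
  refine DEf_contra ψ i ht c hc (he _ fun y => ?_)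
  rw [DEf_mul_const, ← DEf_const_mul]
  exact h y

end

section
variable {G : AffGrp}

theorem OE_ft (E : MTF.Rep G) : Algebra.FiniteType ℂ (OE E) := by
  rw [← Subalgebra.fg_iff_finiteType]
  exact Subalgebra.fg_def.2 ⟨_, Set.finite_range _, rfl⟩

/-- left translation as a ring homomorphism -/
def ltR (y : G.X) : G.O →+* G.O where
  toFun := G.lt y
  map_one' := rfl
  map_mul' := fun _ _ => rfl
  map_zero' := rfl
  map_add' := fun _ _ => rfl

/-- evaluation as a homomorphism -/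
def evR (E : MTF.Rep G) (y : G.X) : OE E →ₐ[ℂ] ℂ where
  toFun := fun f => f.1.1 y
  map_one' := rfl
  map_mul' := fun _ _ => rfl
  map_zero' := rfl
  map_add' := fun _ _ => rfl
  commutes' := fun _ => rfl

theorem ltR_pow (y : G.X) (f : G.O) (k : ℕ) : G.lt y (f ^ k) = (G.lt y f) ^ k :=
  map_pow (ltR y) f k

theorem cM_evR (E : MTF.Rep G) (y : G.X) : (cM E).map (evR E y) = E.ρ y := rfl

/-- the translates of the product of the minors -/
theorem lt_DEf (E : MTF.Rep G) (ht : E.ι → ℤ) (y : G.X) :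
    (OE E).val (DEf ht ((E.ρ y).map (algebraMap ℂ (OE E)) * cM E)) =
      G.lt y ((OE E).val (DEf ht (cM E))) := by
  have h3 : (OE E).val (DEf ht ((E.ρ y).map (algebraMap ℂ (OE E)) * cM E)) =
      DEf ht (((E.ρ y).map (algebraMap ℂ (OE E)) * cM E).map ((OE E).val : OE E →+* G.O)) :=
    DEf_map ((OE E).val : OE E →+* G.O) ht ((E.ρ y).map (algebraMap ℂ (OE E)) * cM E)
  have h4 : (OE E).val (DEf ht (cM E)) = DEf ht ((cM E).map ((OE E).val : OE E →+* G.O)) :=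
    DEf_map ((OE E).val : OE E →+* G.O) ht (cM E)
  have h5 : G.lt y (DEf ht ((cM E).map ((OE E).val : OE E →+* G.O))) =
      DEf ht (((cM E).map ((OE E).val : OE E →+* G.O)).map (ltR y)) :=
    DEf_map (ltR y) ht ((cM E).map ((OE E).val : OE E →+* G.O))
  rw [h3, h4, h5, Matrix.map_mul]
  congr 1
  ext1 a b
  have h6 : (((cM E).map ((OE E).val : OE E →+* G.O)).map (ltR y)) a b = G.lt y (E.co a b) := rfl
  rw [h6, E.lt_co, Matrix.mul_apply]
  refine Finset.sum_congr rfl fun c _ => ?_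
  rw [Algebra.smul_def]
  rfl

end

section
variable {G : AffGrp} {n : ℕ} {D : RD n} {C : CD G D}

/-- the inversion on `OE` -/
noncomputable def invE (hG : IsDomain G.O) {E : MTF.Rep G} {w : E.ι → Fin n → ℤ} (hE : C.IsW E w) :
    OE E →ₐ[ℂ] OE E :=
  ((AffGrp.Pt.invO G).comp (OE E).val).codRestrict (OE E) fun f => OE_inv hG hE f.2

theorem invE_mul (hG : IsDomain G.O) {E : MTF.Rep G} {w : E.ι → Fin n → ℤ} (hE : C.IsW E w) :
    (cM E).map (invE hG hE) * cM E = 1 := by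
  ext1 a b
  apply Subtype.ext
  apply AffGrp.O_ext
  intro x
  have h1 : evR E x (((cM E).map (invE hG hE) * cM E) a b) = (E.ρ x⁻¹ * E.ρ x) a b := by
    rw [Matrix.mul_apply, map_sum, Matrix.mul_apply]
    refine Finset.sum_congr rfl fun c _ => ?_
    rw [map_mul]
    rfl
  have h2 : evR E x ((1 : Matrix E.ι E.ι (OE E)) a b) = (1 : Matrix E.ι E.ι ℂ) a b := by
    by_cases hab : a = b
    · subst hab
      rw [Matrix.one_apply_eq, Matrix.one_apply_eq, map_one]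
    · rw [Matrix.one_apply_ne hab, Matrix.one_apply_ne hab, map_zero]
  show evR E x (((cM E).map (invE hG hE) * cM E) a b) = evR E x ((1 : Matrix E.ι E.ι (OE E)) a b)
  rw [h1, h2, ← map_mul, inv_mul_cancel, map_one]

/-- a common denominator -/
theorem exists_common (hG : IsDomain G.O) {E : MTF.Rep G} {w : E.ι → Fin n → ℤ}
    (hE : C.IsW E w) (hgen : AddSubgroup.closure (Set.range w) = ⊤) (U : Submodule ℂ G.O)
    (hU : U.FG) : ∃ N : ℕ, ∀ m ∈ U, (dE D E w).1 ^ N * m ∈ OE E := by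
  obtain ⟨s, hs⟩ := hU
  choose N hN using fun m : G.O => exists_pow_mem (C := C) hG hE hgen m
  refine ⟨s.sup N, fun m hm => ?_⟩
  rw [← hs] at hm
  induction hm using Submodule.span_induction with
  | mem m hm =>
    obtain ⟨k, hk⟩ := Nat.exists_eq_add_of_le (Finset.le_sup (f := N) hm)
    rw [hk, pow_add, mul_comm ((dE D E w).1 ^ N m), mul_assoc]
    exact Subalgebra.mul_mem _ (Subalgebra.pow_mem _ (dE D E w).2 k) (hN m)
  | zero => rw [mul_zero]; exact Subalgebra.zero_mem _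
  | add x y _ _ hx hy => rw [mul_add]; exact Subalgebra.add_mem _ hx hy
  | smul c x _ hx => rw [mul_smul_comm]; exact Subalgebra.smul_mem _ hx c

/-- the ideal of the `a ∈ OE` with `a U ⊂ OE` -/
def idU (E : MTF.Rep G) (U : Submodule ℂ G.O) : Ideal (OE E) where
  carrier := {a | ∀ m ∈ U, a.1 * m ∈ OE E}
  add_mem' := fun {a b} ha hb m hm => by
    have h : (a + b).1 * m = a.1 * m + b.1 * m := add_mul _ _ _
    rw [h]
    exact Subalgebra.add_mem _ (ha m hm) (hb m hm)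
  zero_mem' := fun m _ => by
    have h : (0 : OE E).1 * m = 0 := zero_mul _
    rw [h]
    exact Subalgebra.zero_mem _
  smul_mem' := fun c a ha m hm => by
    have h : (c • a).1 * m = c.1 * (a.1 * m) := mul_assoc _ _ _
    rw [h]
    exact Subalgebra.mul_mem _ c.2 (ha m hm)

theorem mem_idU {E : MTF.Rep G} {U : Submodule ℂ G.O} {a : OE E} :
    a ∈ idU E U ↔ ∀ m ∈ U, a.1 * m ∈ OE E := Iff.rfl

/-- the powers of the translates are in the ideal -/
theorem pow_mem_idU {E : MTF.Rep G} {w : E.ι → Fin n → ℤ} {U : Submodule ℂ G.O}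
    (hU : ∀ f ∈ U, ∀ x : G.X, G.lt x f ∈ U) {N : ℕ}
    (hN : ∀ m ∈ U, (dE D E w).1 ^ N * m ∈ OE E) (y : G.X) :
    (DEf (fun a => D.ht2 (w a)) ((E.ρ y).map (algebraMap ℂ (OE E)) * cM E)) ^ N ∈ idU E U := by
  rw [mem_idU]
  intro m hm
  have h1 : ((DEf (fun a => D.ht2 (w a)) ((E.ρ y).map (algebraMap ℂ (OE E)) * cM E)) ^ N : OE E).1 =
      (G.lt y (dE D E w).1) ^ N := by
    have h2 := lt_DEf E (fun a => D.ht2 (w a)) y
    have h3 : ∀ b : OE E, (b ^ N).1 = b.1 ^ N := fun b => rfl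
    rw [h3]
    congr 1
  rw [h1]
  have h10 : (G.lt y (dE D E w).1) ^ N * m =
      G.lt y ((dE D E w).1 ^ N * G.lt y⁻¹ m) := by
    rw [lt_mul, ltR_pow, AffGrp.lt_lt, inv_mul_cancel, AffGrp.lt_one]
  rw [h10]
  exact OE_lt E y (hN _ (hU m hm _))

/-- A weight representation whose weights generate `ℤ^n` is faithful. -/
theorem faithful_of_gen (hG : IsDomain G.O) {E : MTF.Rep G} {w : E.ι → Fin n → ℤ}
    (hE : C.IsW E w) (hgen : AddSubgroup.closure (Set.range w) = ⊤) : E.Faithful := by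
  classical
  show OE E = ⊤
  rw [eq_top_iff]
  intro f _
  obtain ⟨U, hU1, -, hU3, hU4⟩ := exists_lt_stable (⊤ : Submodule ℂ G.O) (fun _ _ _ => trivial) {f}
    (fun _ _ => trivial)
  have hf : f ∈ U := hU3 f (Finset.mem_singleton_self f)
  obtain ⟨N, hN⟩ := exists_common hG hE hgen U ((Submodule.fg_iff_finiteDimensional U).2 hU1)
  have hJ : idU E U = ⊤ := by
    by_contra hne
    obtain ⟨ψ, hψ⟩ := exists_hom (A := OE E) (OE_ft E) (idU E U) hne
    have k1 : ∀ y, ψ (DEf (fun a => D.ht2 (w a)) (((cM E).map (evR E y)).map (algebraMap ℂ (OE E)) *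
        cM E)) = 0 := by
      intro y
      have h1 := hψ _ (pow_mem_idU hU4 hN y)
      rw [map_pow] at h1
      by_contra h2
      exact pow_ne_zero N h2 h1
    have k2 : ∀ a : OE E, (∀ y, evR E y a = 0) → a = 0 := fun a ha =>
      Subtype.ext (AffGrp.O_ext ha)
    have k3 : (cM E).map (invE hG hE) * cM E = 1 := invE_mul hG hE
    have k4 := DEf_contra' (A := OE E) (ι := E.ι) (evR E)
    have k5 := k4 k2
    have k6 := k5 ψ
    have k7 := k6 (invE hG hE) (fun a => D.ht2 (w a))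
    have k8 := k7 (cM E)
    have k9 := k8 k3
    exact k9 k1
  have h1 : (1 : OE E) ∈ idU E U := by rw [hJ]; trivial
  have h2 := (mem_idU.1 h1) f hf
  have h3 : (1 : OE E).1 * f = f := one_mul f
  rwa [h3] at h2

end

end Pool.Agent.MTG
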